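import Pool.Agent.AO.Defs2
import Pool.Agent.Parker.P32

/-!
# MP_6c3636_al, AO, module A00: groups of odd order (helper7)

`even_odd`: let `χ` be the character of `τ`. `∑ u, χ u = |U| * dim (fixed points) = 0` (the average of the `τ u` is the projection on the fixed points). `u ↦ u⁻¹` is an involution of `U \ {1}` without fixed points (odd order), and `χ u⁻¹ = χ u`, so `χ 1 = - ∑ u ≠ 1, χ u = - 2 α` with `α` a sum of values of `χ`, an algebraic integer (the Parker library contains the integrality of character values; or: `α` is a sum of roots of unity). `α = - dim V / 2` is rational, so an integer, and `dim V` is even. `eU_fix`, `eU_idem`: the average of a subgroup. `even_E`: `V` is the direct sum of the range and the kernel of `eU U ρ`; the kernel is a representation of `U` without fixed points, its character is the character of `V` minus the constant `dim (range)`.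
-/

namespace AO

noncomputable section

open Classical Equiv

open AN (sq)


theorem even_odd {Ω : Type} [Field Ω] [IsAlgClosed Ω] [CharZero Ω] {U : Type} [Group U] [Finite U]
    (hU : Odd (Nat.card U)) {V : Type} [AddCommGroup V] [Module Ω V] [FiniteDimensional Ω V]
    {τ : Representation Ω U V} (h : Parker.SD τ) (h0 : ∀ v, (∀ u, τ u v = v) → v = 0) :
    Even (Module.finrank Ω V) := by
  by_contra hne
  rw [Nat.not_even_iff_odd] at hne
  have h1 := (Parker.parity_odd hU h).1 hne
  have h2 : τ.invariants = ⊥ := by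
    rw [eq_bot_iff]
    intro v hv
    rw [Representation.mem_invariants] at hv
    exact (Submodule.mem_bot Ω).2 (h0 v hv)
  rw [h2, finrank_bot] at h1
  simp at h1

variable {Ω : Type} [Field Ω] [IsAlgClosed Ω] [CharZero Ω] {G : Type} [Group G] [Finite G] {V : Type}
  [AddCommGroup V] [Module Ω V] [FiniteDimensional Ω V] {ρ : Representation Ω G V} {U : Subgroup G}

omit [IsAlgClosed Ω] [CharZero Ω] [FiniteDimensional Ω V] in
private theorem eU_eq : eU U ρ = Parker.av_idem U ρ := by
  unfold Parker.av_idem Parker.rs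
  rw [Parker.act_push]
  unfold eU
  congr 1
  funext g
  let _ := Fintype.ofFinite U
  by_cases hg : g ∈ U
  · rw [if_pos hg]
    unfold Parker.push
    rw [Finset.sum_eq_single (⟨g, hg⟩ : U)]
    · have h1 : U.subtype ⟨g, hg⟩ = g := rfl
      rw [if_pos h1]
    · intro b _ hb
      rw [if_neg]
      intro h
      exact hb (Subtype.ext h)
    · intro h
      exact absurd (Finset.mem_univ _) h
  · rw [if_neg hg]
    unfold Parker.push
    symm
    refine Finset.sum_eq_zero fun b _ => ?_
    rw [if_neg]
    intro h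
    apply hg
    rw [← h]
    exact b.2

theorem eU_fix {v : V} : eU U ρ v = v ↔ ∀ u ∈ U, ρ u v = v := by
  have h := Parker.P32_aux.av_proj U ρ
  rw [eU_eq]
  constructor
  · intro h1 u hu
    have h2 := h.map_mem v
    rw [h1] at h2
    exact h2 ⟨u, hu⟩
  · intro h1
    refine h.map_id v ?_
    intro u
    exact h1 u u.2

theorem eU_idem : eU U ρ * eU U ρ = eU U ρ := by
  rw [eU_eq]
  exact Parker.av_idem_idem U ρ

theorem eU_mul {u : G} (hu : u ∈ U) : ρ u * eU U ρ = eU U ρ ∧ eU U ρ * ρ u = eU U ρ := by
  have h := Parker.P32_aux.av_proj U ρ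
  have h1 : ρ u * eU U ρ = eU U ρ := by
    rw [eU_eq]
    refine LinearMap.ext fun v => ?_
    rw [Module.End.mul_apply]
    exact h.map_mem v ⟨u, hu⟩
  refine ⟨h1, ?_⟩
  have h2 := Parker.P32_aux.av_comm U ρ u (fun w => ⟨fun hw =>
    U.mul_mem (U.mul_mem hu hw) (U.inv_mem hu), fun hw => by
      have h3 := U.mul_mem (U.mul_mem (U.inv_mem hu) hw) hu
      have h4 : u⁻¹ * (u * w * u⁻¹) * u = w := by group
      rwa [h4] at h3⟩)
  rw [← eU_eq] at h2
  rw [← h2, h1]

theorem eU_adj {B : LinearMap.BilinForm Ω V} (hB : ∀ g x y, B (ρ g x) (ρ g y) = B x y) :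
    Parker.SelfAdj B (eU U ρ) := by
  let _ := Fintype.ofFinite G
  intro x y
  have h1 : ∀ g, B (ρ g x) y = B x (ρ g⁻¹ y) := by
    intro g
    have h2 := hB g x (ρ g⁻¹ y)
    have h3 : ρ g (ρ g⁻¹ y) = y := by
      rw [← Module.End.mul_apply, ← map_mul, mul_inv_cancel, map_one, Module.End.one_apply]
    rw [h3] at h2
    exact h2
  unfold eU
  rw [Parker.act_eq, LinearMap.sum_apply, LinearMap.sum_apply, map_sum, map_sum,
    LinearMap.sum_apply, ← Equiv.sum_comp (Equiv.inv G)]
  refine Finset.sum_congr rfl fun g _ => ?_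
  rw [Equiv.inv_apply, LinearMap.smul_apply, LinearMap.smul_apply, map_smul, map_smul,
    LinearMap.smul_apply, h1, inv_inv]
  by_cases hg : g ∈ U
  · rw [if_pos hg, if_pos (U.inv_mem hg)]
  · rw [if_neg hg, if_neg (fun h => hg ((Subgroup.inv_mem_iff U).1 h))]

theorem even_E (hU : Odd (Nat.card U)) (h : ∀ u ∈ U, ρ.character u⁻¹ = ρ.character u) :
    Even (Module.finrank Ω V) ↔ Even (Module.finrank Ω (LinearMap.range (eU U ρ))) := by
  have hsd : Parker.SD (Parker.rs U ρ) := fun u => h u u.2
  have h1 := Parker.parity_odd hU hsd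
  rw [eU_eq, Parker.av_idem_range, ← Nat.not_odd_iff_even, ← Nat.not_odd_iff_even, h1]

end

end AO
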