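import Pool.Agent.AO.A00
import Pool.Agent.Parker.P13
import Pool.Agent.Parker.P29

/-!
# MP_6c3636_al, AO, module A01: the cut lemma (helper7)

Let `E = eU U ρ` and let `W` be the kernel of `E`, a subrepresentation of `Parker.rs U ρ` (`eU_mul`). It is orthogonal (the restriction of `B`; `E` is self adjoint, `Parker.nondeg_range` for `1 - E`), its character is that of `ρ` minus the constant `dim (range E)`, so it is fixed by `Γ`; `NoOdd W`: a self dual irreducible constituent of odd dimension has a nonzero fixed point by `even_odd` (A00), but `W` has no nonzero fixed points of `U`. `Parker.exists_skew_rat` (P11) for the group `U` gives `s : U → ℚ` skew with `det (act W s) ≠ 0`; `Parker.star` (P12) with `Parker.of_solvable` (P29) for `U`: `SqV c Γ (c.av (det (act W s)))`. Let `T₁ = act (Parker.rs U ρ) s` on `V`; it is in `Parker.Rat Γ ρ` (extend `s` by `0`), skew (`Parker.skew_of_skew`), and `T₁ E = E T₁ = 0` as `∑ u, s u = 0` (`s u⁻¹ = - s u`). Put `T = T₀ + T₁`: `T = (T₀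 + (1 - E)) * (E + T₁)`, `det (E + T₁) = det (act W s)` (decomposition of `V` in range and kernel of `E`, `Parker.conj_prod`). The product of two elements of `SqV` is in `SqV` (`Parker.sqV_mul` or similar).
-/

namespace AO

noncomputable section

open Classical Equiv

open AN (sq)

variable {Ω : Type} [Field Ω] [IsAlgClosed Ω] [CharZero Ω] {c : Parker.Ctx Ω} {Γ : Subgroup (RingAut Ω)}
  {G : Type} [Group G] [Finite G] {V : Type} [AddCommGroup V] [Module Ω V] [FiniteDimensional Ω V]
  {ρ : Representation Ω G V} {U : Subgroup G}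

namespace A01_aux

omit [IsAlgClosed Ω] [Finite G] in
theorem sum_zero [Fintype U] {s : U → Ω} (hk : ∀ u, s u⁻¹ = - s u) : ∑ u, s u = 0 := by
  have h1 : ∑ u, s u = ∑ u, s u⁻¹ := by
    refine Fintype.sum_equiv (Equiv.inv U) _ _ fun u => ?_
    simp only [Equiv.inv_apply, inv_inv]
  simp only [hk, Finset.sum_neg_distrib] at h1
  have h2 : (2 : Ω) * ∑ u, s u = 0 := by
    rw [two_mul]
    nth_rewrite 1 [h1]
    exact neg_add_cancel _
  exact (mul_eq_zero.1 h2).resolve_left two_ne_zero

omit [IsAlgClosed Ω] [FiniteDimensional Ω V] in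
theorem act_mul_zero {s : U → Ω} (hk : ∀ u, s u⁻¹ = - s u) {E : Module.End Ω V}
    (hE : ∀ u ∈ U, ρ u * E = E) : Parker.act (Parker.rs U ρ) s * E = 0 := by
  let _ := Fintype.ofFinite U
  have h : ∑ u, s u = 0 := sum_zero hk
  rw [Parker.act_eq, Finset.sum_mul]
  have h1 : ∀ u : U, s u • Parker.rs U ρ u * E = s u • E := by
    intro u
    rw [smul_mul_assoc]
    exact congrArg (fun x => s u • x) (hE u u.2)
  rw [Finset.sum_congr rfl fun u _ => h1 u, ← Finset.sum_smul, h, zero_smul]

omit [IsAlgClosed Ω] [FiniteDimensional Ω V] in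
theorem mul_act_zero {s : U → Ω} (hk : ∀ u, s u⁻¹ = - s u) {E : Module.End Ω V}
    (hE : ∀ u ∈ U, E * ρ u = E) : E * Parker.act (Parker.rs U ρ) s = 0 := by
  let _ := Fintype.ofFinite U
  have h : ∑ u, s u = 0 := sum_zero hk
  rw [Parker.act_eq, Finset.mul_sum]
  have h1 : ∀ u : U, E * s u • Parker.rs U ρ u = s u • E := by
    intro u
    rw [mul_smul_comm]
    exact congrArg (fun x => s u • x) (hE u u.2)
  rw [Finset.sum_congr rfl fun u _ => h1 u, ← Finset.sum_smul, h, zero_smul]

/-- the kernel of the average -/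
def W (U : Subgroup G) (ρ : Representation Ω G V) : Subrepresentation (Parker.rs U ρ) where
  toSubmodule := LinearMap.ker (eU U ρ)
  apply_mem_toSubmodule := fun u v hv => by
    have h := congrArg (fun f : Module.End Ω V => f v) (eU_mul (ρ := ρ) u.2).2
    rw [LinearMap.mem_ker] at hv ⊢
    exact h.trans hv

/-- the range of the average -/
def R (U : Subgroup G) (ρ : Representation Ω G V) : Subrepresentation (Parker.rs U ρ) where
  toSubmodule := LinearMap.range (eU U ρ)
  apply_mem_toSubmodule := fun u v hv => by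
    obtain ⟨w, rfl⟩ := hv
    exact ⟨w, (congrArg (fun f : Module.End Ω V => f w) (eU_mul (ρ := ρ) u.2).1).symm⟩

theorem compl : IsCompl (R U ρ).toSubmodule (W U ρ).toSubmodule :=
  LinearMap.IsIdempotentElem.isCompl (eU_idem (ρ := ρ) (U := U))

theorem fix_range {v : V} (hv : v ∈ LinearMap.range (eU U ρ)) : eU U ρ v = v := by
  obtain ⟨w, rfl⟩ := hv
  exact congrArg (fun f : Module.End Ω V => f w) (eU_idem (ρ := ρ) (U := U))

theorem fxC (hF : Parker.FxC Γ ρ) : Parker.FxC Γ (W U ρ).toRepresentation := by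
  intro u
  have h1 := congrFun (Parker.P09_aux.split (W U ρ) (R U ρ) compl.symm).1 u
  have h2 : (R U ρ).toRepresentation.character u =
      ((Module.finrank Ω (R U ρ).toSubmodule : ℕ) : Ω) := by
    have h3 : (R U ρ).toRepresentation u = 1 := by
      ext ⟨v, hv⟩
      have h4 := eU_fix.1 (fix_range hv) u u.2
      exact h4
    rw [Representation.character, h3, LinearMap.trace_one]
  rw [Pi.add_apply, h2] at h1
  have h3 : (W U ρ).toRepresentation.character u = ρ.character u -
      ((Module.finrank Ω (R U ρ).toSubmodule : ℕ) : Ω) := by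
    rw [eq_sub_iff_add_eq, ← h1]
    rfl
  rw [h3]
  exact Parker.fx_sub (hF u) (Parker.fx_natCast Γ _)

theorem orth {B : LinearMap.BilinForm Ω V} (hB : Parker.InvForm ρ B) :
    Parker.Orth (W U ρ).toRepresentation := by
  refine ⟨B.restrict (LinearMap.ker (eU U ρ)), ⟨fun x y => hB.symm _ _, ?_, fun g x y =>
    hB.inv _ _ _⟩⟩
  rintro ⟨x, hx⟩ h
  have h1 : (1 - eU U ρ) * (1 - eU U ρ) = 1 - eU U ρ := by
    rw [mul_sub, sub_mul, sub_mul, one_mul, one_mul, mul_one, eU_idem, sub_self, sub_zero]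
  have h2 : Parker.SelfAdj B (1 - eU U ρ) := by
    intro a b
    rw [LinearMap.sub_apply, LinearMap.sub_apply, Module.End.one_apply, Module.End.one_apply,
      map_sub, map_sub, LinearMap.sub_apply, eU_adj hB.inv]
  have h3 : x = 0 := by
    refine Parker.nondeg_range hB.symm hB.nondeg h1 h2 x ?_ ?_
    · rw [LinearMap.sub_apply, LinearMap.mem_ker.1 hx, sub_zero, Module.End.one_apply]
    · intro y hy
      refine h ⟨y, ?_⟩
      rw [LinearMap.sub_apply, Module.End.one_apply, sub_eq_self] at hy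
      exact hy
  exact Subtype.ext h3

theorem noOdd (hU : Odd (Nat.card U)) : Parker.NoOdd (W U ρ).toRepresentation := by
  intro X _ hodd hSD
  refine (Nat.not_even_iff_odd.2 hodd) (even_odd hU hSD ?_)
  rintro ⟨⟨v, hv⟩, hX⟩ h
  have h1 : ∀ u ∈ U, ρ u v = v := fun u hu =>
    congrArg (fun x : X.toSubmodule => ((x : (W U ρ).toSubmodule) : V)) (h ⟨u, hu⟩)
  have h2 : eU U ρ v = v := eU_fix.2 h1
  have h3 : v = 0 := by
    rw [← h2]
    exact hv
  exact Subtype.ext (Subtype.ext h3)

end A01_aux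

open A01_aux

theorem cut1 (hΓ : Parker.Ok c 1 Γ) (hF : Parker.FxC Γ ρ) {B : LinearMap.BilinForm Ω V}
    (hB : Parker.InvForm ρ B) (hU : Odd (Nat.card U)) (hs : Group.IsSolvable U)
    {T₀ : Module.End Ω V} (hT : T₀ ∈ Parker.Rat Γ ρ) (hk : Parker.Skew B T₀)
    (h1 : eU U ρ * T₀ = T₀) (h2 : T₀ * eU U ρ = T₀)
    (hd : LinearMap.det (T₀ + (1 - eU U ρ)) ≠ 0)
    (hsq : Parker.SqV c Γ (c.av (LinearMap.det (T₀ + (1 - eU U ρ))))) : Parker.GoodV c Γ ρ := by
  have := hs
  obtain ⟨s, hs0, hsd⟩ := Parker.exists_skew_rat (noOdd (ρ := ρ) hU)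
  have hs1 : ∀ g, Parker.Fx Γ ((s g : ℚ) : Ω) := fun g => Parker.fx_ratCast Γ (s g)
  have hs2 : ∀ g, (((s g⁻¹ : ℚ)) : Ω) = - ((s g : ℚ) : Ω) := fun g => by
    rw [hs0 g, Rat.cast_neg]
  have hsv := Parker.star (Parker.of_solvable (c := c) U).1 (Parker.of_solvable (c := c) U).2 hΓ
    (orth hB) (fxC hF) hs1 hs2 hsd
  have hB'' : Parker.InvForm (Parker.rs U ρ) B := ⟨hB.symm, hB.nondeg, fun g x y => hB.inv g x y⟩
  set T₁ := Parker.act (Parker.rs U ρ) (fun u => (s u : Ω)) with hT₁
  have h3 : T₁ * eU U ρ = 0 := act_mul_zero hs2 fun u hu => (eU_mul hu).1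
  have h4 : eU U ρ * T₁ = 0 := mul_act_zero hs2 fun u hu => (eU_mul hu).2
  have h5 : T₀ * T₁ = 0 := by
    rw [← h2, mul_assoc, h4, mul_zero]
  have h6 : T₀ + T₁ = (T₀ + (1 - eU U ρ)) * (eU U ρ + T₁) := by
    rw [add_mul, mul_add, h2, h5, sub_mul, one_mul, mul_add, eU_idem, h4]
    abel
  have h7 : LinearMap.det (eU U ρ + T₁) =
      LinearMap.det (Parker.act (W U ρ).toRepresentation (fun u => (s u : Ω))) := by
    have h8 := (Parker.P09_aux.conj_prod (compl (U := U) (ρ := ρ)) (eU U ρ + T₁) 1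
      (Parker.act (W U ρ).toRepresentation (fun u => (s u : Ω))) ?_ ?_).2
    · exact h8.trans (by rw [map_one, one_mul])
    · rintro ⟨x, hx⟩
      have h9 := congrArg (fun f : Module.End Ω V => f x) h3
      have h10 := fix_range hx
      rw [LinearMap.add_apply, Module.End.one_apply, h10]
      have h11 : T₁ x = 0 := by
        rw [← h10]
        exact h9
      rw [h11, add_zero]
    · rintro ⟨x, hx⟩
      rw [LinearMap.add_apply, LinearMap.mem_ker.1 hx, zero_add]
      exact Parker.P09_aux.act_sub_apply (W U ρ) _ ⟨x, hx⟩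
  have h8 : LinearMap.det (T₀ + T₁) = LinearMap.det (T₀ + (1 - eU U ρ)) *
      LinearMap.det (Parker.act (W U ρ).toRepresentation (fun u => (s u : Ω))) := by
    rw [h6, map_mul, h7]
  refine ⟨B, hB, T₀ + T₁, Parker.rat_add hT (Parker.rat_res ⟨_, hs1, rfl⟩), ?_, ?_, ?_⟩
  · intro x y
    have h9 := hk x y
    have h10 := Parker.skew_of_skew (s := fun u => (s u : Ω)) hB'' hs2 x y
    rw [LinearMap.add_apply, LinearMap.add_apply, map_add, map_add, LinearMap.add_apply, h9, h10,
      neg_add]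
  · rw [h8]
    exact mul_ne_zero hd hsd
  · rw [h8, map_mul]
    exact Parker.sqV_mul hsq hsv

end

end AO
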