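import Pool.Agent.AO.A01
import Pool.Agent.Parker.P11
import Pool.Agent.AN.V02

/-!
# MP_6c3636_al, AO, module A02: the cut lemma, unit skew operators and density (helper7)

`good_unit`: `cut1` with `T₀ = act ρ s`: `(T₀ + (1 - E)) ^ 2 = - c' • E + (1 - E)` (write `E = eU U ρ`, `T₀ (1 - E) = 0`), its determinant is `(- c') ^ dim (range E)`, `c.av (c') = 1` (`AN.av_rat`), so `c.av (det (T₀ + (1 - E))) ^ 2 = 1`, `c.av (det ..) = 1 = 1 ^ 2`: `SqV` with the element `1`; `det ≠ 0`. `T₀` is in `Rat Γ ρ` as rational numbers are fixed by `Γ`, skew by `Parker.skew_of_skew`. `cut2`: `cut1` with `T₀ = E * act ρ s * E` for a suitable skew `s : G → ℚ`; `T₀` is in `Rat Γ ρ` (product of such elements). Existence of `s` with `det (E * act ρ s * E + (1 - E)) ≠ 0`: `B` restricted to the range of `E` is nondegenerate (`eU_adj`, `Parker.nondeg_range`), of even dimension, so there is an invertible skew operator `J` on the range of `E` (`Parker.exists_alt_form`, `Parker.exists_op`, `Parker.det_ne`);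 extended by `0` on the kernel of `E` it is a skew operator on `V`, it is `act ρ s₀` for some `s₀ : G → Ω` (`ρ` irreducible, Burnside; see the proof of `Parker.skew_of_op` in P11), which can be chosen skew (`s₀ - du s₀`, divided by `2`). So the polynomial function `det (E * act ρ s * E + (1 - E))` is not zero on the skew functions `s`; the skew functions are spanned by the rational ones `single g - single g⁻¹`, so it is nonzero for some rational skew `s` (see `Parker.exists_rat_point` in P11 and its use; the operator can be written as `f 0 + ∑ x i f i`; use homogeneity or a variant of its proof).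
-/

namespace AO

noncomputable section

open Classical Equiv

open AN (sq)

variable {Ω : Type} [Field Ω] [IsAlgClosed Ω] [CharZero Ω] {c : Parker.Ctx Ω} {Γ : Subgroup (RingAut Ω)}
  {G : Type} [Group G] [Finite G] {V : Type} [AddCommGroup V] [Module Ω V] [FiniteDimensional Ω V]
  {ρ : Representation Ω G V} {U : Subgroup G}

namespace A02_aux

omit [IsAlgClosed Ω] [CharZero Ω] [FiniteDimensional Ω V] in
theorem idem_apply {E : Module.End Ω V} (hE : E * E = E) (x : V) : E (E x) = E x :=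
  congrArg (fun f : Module.End Ω V => f x) hE

omit [IsAlgClosed Ω] [CharZero Ω] [FiniteDimensional Ω V] in
theorem compl {E : Module.End Ω V} (hE : E * E = E) :
    IsCompl (LinearMap.range E) (LinearMap.ker E) := by
  constructor
  · rw [Submodule.disjoint_def]
    rintro _ ⟨y, rfl⟩ hx
    rw [← idem_apply hE y]
    exact LinearMap.mem_ker.1 hx
  · rw [codisjoint_iff, eq_top_iff]
    intro x _
    have h1 : x = E x + (x - E x) := by abel
    rw [h1]
    refine Submodule.add_mem_sup ⟨x, rfl⟩ (LinearMap.mem_ker.2 ?_)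
    rw [map_sub, idem_apply hE x, sub_self]

omit [IsAlgClosed Ω] [CharZero Ω] in
theorem det_block {E T : Module.End Ω V} (hE : E * E = E) (h2 : T * E = T)
    (A : Module.End Ω (LinearMap.range E)) (hA : ∀ x : LinearMap.range E, T x = A x) :
    LinearMap.det (T + (1 - E)) = LinearMap.det A := by
  have h := (Parker.P09_aux.conj_prod (compl hE) (T + (1 - E)) A 1 (fun x => ?_) (fun x => ?_)).2
  · rw [h, map_one, mul_one]
  · obtain ⟨_, y, rfl⟩ := x
    rw [LinearMap.add_apply, LinearMap.sub_apply, Module.End.one_apply, ← hA]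
    show T (E y) + (E y - E (E y)) = T (E y)
    rw [idem_apply hE, sub_self, add_zero]
  · have h3 : E (x : V) = 0 := LinearMap.mem_ker.1 x.2
    have h4 : T (x : V) = 0 := by
      rw [← h2, Module.End.mul_apply, h3, map_zero]
    rw [LinearMap.add_apply, LinearMap.sub_apply, Module.End.one_apply, Module.End.one_apply, h3, h4,
      sub_zero, zero_add]

end A02_aux

theorem good_unit (hΓ : Parker.Ok c 1 Γ) (hF : Parker.FxC Γ ρ) {B : LinearMap.BilinForm Ω V}
    (hB : Parker.InvForm ρ B) (hU : Odd (Nat.card U)) (hs : Group.IsSolvable U) {s : G → ℚ}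
    (hk : ∀ g, s g⁻¹ = - s g) (h1 : eU U ρ * Parker.act ρ (fun g => (s g : Ω)) =
      Parker.act ρ (fun g => (s g : Ω))) (h2 : Parker.act ρ (fun g => (s g : Ω)) * eU U ρ =
      Parker.act ρ (fun g => (s g : Ω))) {c' : ℚ} (hc : c' ≠ 0) (hv : padicValRat 2 c' = 0)
    (hsq : Parker.act ρ (fun g => (s g : Ω)) * Parker.act ρ (fun g => (s g : Ω)) =
      -((c' : Ω) • eU U ρ)) : Parker.GoodV c Γ ρ := by
  have hEE : eU U ρ * eU U ρ = eU U ρ := eU_idem
  have key : LinearMap.det (Parker.act ρ (fun g => (s g : Ω)) + (1 - eU U ρ)) ^ 2 =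
      (-(c' : Ω)) ^ Module.finrank Ω (LinearMap.range (eU U ρ)) := by
    have e1 : (Parker.act ρ (fun g => (s g : Ω)) + (1 - eU U ρ)) *
        (Parker.act ρ (fun g => (s g : Ω)) + (1 - eU U ρ)) = (-(c' : Ω)) • eU U ρ + (1 - eU U ρ) := by
      rw [add_mul, mul_add, mul_add, hsq, mul_sub, mul_sub, sub_mul, sub_mul, sub_mul, h1, h2, hEE,
        mul_one, one_mul, mul_one, one_mul, neg_smul]
      abel
    have e2 := A02_aux.det_block (T := (-(c' : Ω)) • eU U ρ) hEE (by rw [smul_mul_assoc, hEE])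
      ((-(c' : Ω)) • 1) (fun x => by
        obtain ⟨_, y, rfl⟩ := x
        rw [LinearMap.smul_apply]
        show (-(c' : Ω)) • eU U ρ (eU U ρ y) = (-(c' : Ω)) • eU U ρ y
        rw [A02_aux.idem_apply hEE])
    rw [pow_two, ← map_mul, e1, e2, LinearMap.det_smul, map_one, mul_one]
  have hc' : (-(c' : Ω)) ≠ 0 := neg_ne_zero.2 (Rat.cast_ne_zero.2 hc)
  have hne : LinearMap.det (Parker.act ρ (fun g => (s g : Ω)) + (1 - eU U ρ)) ≠ 0 := by
    intro h0
    rw [h0, zero_pow two_ne_zero] at key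
    exact pow_ne_zero _ hc' key.symm
  have hav : c.av (LinearMap.det (Parker.act ρ (fun g => (s g : Ω)) + (1 - eU U ρ))) = 1 := by
    have e3 : c.av (-(c' : Ω)) = 1 := by
      rw [c.av.map_neg, AN.av_rat c hc, hv, zpow_zero]
    have e4 : c.av (LinearMap.det (Parker.act ρ (fun g => (s g : Ω)) + (1 - eU U ρ))) ^ 2 = 1 := by
      rw [← map_pow, key, map_pow, e3, one_pow]
    exact (pow_eq_one_iff_of_nonneg (c.av.nonneg _) two_ne_zero).1 e4
  refine cut1 hΓ hF hB hU hs ⟨_, fun g => Parker.fx_ratCast Γ (s g), rfl⟩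
    (Parker.skew_of_skew hB (fun g => by rw [hk g, Rat.cast_neg])) h1 h2 hne ?_
  rw [hav]
  exact Parker.sqV_one

namespace A02_aux

theorem fin_rat {ι : Type*} [Fintype ι] (f : ι → Module.End Ω V)
    (h : ∃ x : ι → Ω, LinearMap.det (∑ i, x i • f i) ≠ 0) :
    ∃ q : ι → ℚ, LinearMap.det (∑ i, (q i : Ω) • f i) ≠ 0 := by
  obtain ⟨e⟩ : Nonempty (V ≃ₗ[Ω] (Fin (Module.finrank Ω V) → Ω)) :=
    ⟨(Module.finBasis Ω V).equivFun⟩
  have key : ∀ x : ι → Ω, LinearMap.det (∑ i, x i • (e.conj (f i) : Module.End Ω _)) =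
      LinearMap.det (∑ i, x i • f i) := by
    intro x
    have e1 : ∑ i, x i • (e.conj (f i) : Module.End Ω _) = e.conj (∑ i, x i • f i) := by
      rw [map_sum]
      exact Finset.sum_congr rfl fun i _ => by rw [map_smul]
    rw [e1, LinearEquiv.conj_apply, LinearMap.comp_assoc]
    exact LinearMap.det_conj _ e
  obtain ⟨x, hx⟩ := h
  obtain ⟨q, hq⟩ := Parker.exists_rat_point (κ := Unit) (n := fun _ => Module.finrank Ω V)
    (fun _ i => (e.conj (f i) : Module.End Ω _)) (fun _ => ⟨x, by rw [key]; exact hx⟩)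
  refine ⟨q, ?_⟩
  rw [← key]
  exact hq ()

theorem act_half [Fintype G] (s : G → Ω) (hs : ∀ g, s g⁻¹ = - s g) :
    ∑ g, ((2 : Ω)⁻¹ * s g) • (ρ g - ρ g⁻¹) = Parker.act ρ s := by
  rw [Parker.act_eq]
  have e2 : ∑ g, ((2 : Ω)⁻¹ * s g) • ρ g⁻¹ = - ∑ g, ((2 : Ω)⁻¹ * s g) • ρ g := by
    rw [← Finset.sum_neg_distrib]
    refine Fintype.sum_equiv (Equiv.inv G) _ _ fun g => ?_
    simp only [Equiv.inv_apply, hs, mul_neg]
    rw [neg_smul (2⁻¹ * s g) (ρ g⁻¹), neg_neg]
  simp only [smul_sub, Finset.sum_sub_distrib]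
  rw [e2, sub_neg_eq_add, ← Finset.sum_add_distrib]
  refine Finset.sum_congr rfl fun g _ => ?_
  rw [← add_smul]
  congr 1
  ring

theorem act_diff [Fintype G] (q : G → ℚ) :
    Parker.act ρ (fun g => ((q g - q g⁻¹ : ℚ) : Ω)) = ∑ g, (q g : Ω) • (ρ g - ρ g⁻¹) := by
  rw [Parker.act_eq]
  have e2 : ∑ g, (q g : Ω) • ρ g⁻¹ = ∑ g, (q g⁻¹ : Ω) • ρ g := by
    refine Fintype.sum_equiv (Equiv.inv G) _ _ fun g => ?_
    simp only [Equiv.inv_apply, inv_inv]
  simp only [smul_sub, Finset.sum_sub_distrib]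
  rw [e2, ← Finset.sum_sub_distrib]
  refine Finset.sum_congr rfl fun g _ => ?_
  rw [← sub_smul, Rat.cast_sub]

/-- an invertible skew operator on the range of `E` -/
theorem exists_skew_range (hρ : ρ.IsIrreducible) {B : LinearMap.BilinForm Ω V}
    (hB : Parker.InvForm ρ B) {E : Module.End Ω V} (hE : E * E = E) (hadj : Parker.SelfAdj B E)
    (hev : Even (Module.finrank Ω (LinearMap.range E))) :
    ∃ s : G → Ω, (∀ g, s g⁻¹ = - s g) ∧ LinearMap.det (E * Parker.act ρ s * E + (1 - E)) ≠ 0 := by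
  have hfix : ∀ x : LinearMap.range E, E (x : V) = x := by
    rintro ⟨_, y, rfl⟩
    exact idem_apply hE y
  let B' : LinearMap.BilinForm Ω (LinearMap.range E) := B.restrict (LinearMap.range E)
  have hB' : ∀ x y : LinearMap.range E, B' x y = B x y := fun x y => rfl
  have hnd : ∀ x, (∀ y, B' x y = 0) → x = 0 := by
    intro x hx
    have h1 : (x : V) = 0 := Parker.nondeg_range hB.symm hB.nondeg hE hadj x (hfix x) (fun y hy => by
      have := hx ⟨y, ⟨y, hy⟩⟩
      exact this)
    exact Subtype.ext h1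
  obtain ⟨J, hJa, hJn⟩ := Parker.P11_aux.exists_alt_form (Ω := Ω) (V := LinearMap.range E) hev
  obtain ⟨A, hA⟩ := Parker.P11_aux.exists_op (J := J) hnd
  have hdA : LinearMap.det A ≠ 0 := Parker.P11_aux.det_ne hA hJn
  have hsA : ∀ x y : LinearMap.range E, B (A x : V) y = - B x (A y : V) := by
    intro x y
    have h1 : B' (A x) y = J x y := hA x y
    have h2 : B' (A y) x = J y x := hA y x
    rw [hB'] at h1 h2
    rw [h1, hB.symm x, h2, hJa]
  let T : Module.End Ω V := (LinearMap.range E).subtype ∘ₗ A ∘ₗ E.rangeRestrict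
  have hT : ∀ x, T x = (A (E.rangeRestrict x) : V) := fun x => rfl
  have hTE : T * E = T := by
    refine LinearMap.ext fun x => ?_
    rw [Module.End.mul_apply, hT, hT]
    congr 2
    exact Subtype.ext (idem_apply hE x)
  have hET : E * T = T := by
    refine LinearMap.ext fun x => ?_
    rw [Module.End.mul_apply, hT, hfix]
  have hsk : ∀ x y, B (T x) y = - B x (T y) := by
    intro x y
    have h1 : B (T x) y = B (T x) (E y) := by
      have h3 : E (T x) = T x := congrArg (fun f : Module.End Ω V => f x) hET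
      rw [← hadj (T x) y, h3]
    have h2 : B x (T y) = B (E x) (T y) := by
      have h3 : E (T y) = T y := congrArg (fun f : Module.End Ω V => f y) hET
      rw [hadj x (T y), h3]
    rw [h1, h2]
    exact hsA (E.rangeRestrict x) (E.rangeRestrict y)
  refine ⟨fun g => (Module.finrank Ω V : Ω) * (Nat.card G : Ω)⁻¹ *
    LinearMap.trace Ω V (T * ρ g⁻¹), fun g => ?_, ?_⟩
  · have := Parker.inversion_skew hB.nondeg hB.inv hsk g⁻¹
    rw [inv_inv] at this
    simp only [inv_inv]
    rw [this]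
    ring
  · rw [Parker.act_inversion hρ, hET, hTE, det_block hE hTE A (fun x => ?_)]
    · exact hdA
    · rw [hT]
      congr 2
      exact Subtype.ext (hfix x)

theorem exists_rat (hρ : ρ.IsIrreducible) {B : LinearMap.BilinForm Ω V}
    (hB : Parker.InvForm ρ B) {E : Module.End Ω V} (hE : E * E = E) (hadj : Parker.SelfAdj B E)
    (hev : Even (Module.finrank Ω (LinearMap.range E))) :
    ∃ s : G → ℚ, (∀ g, s g⁻¹ = - s g) ∧
      LinearMap.det (E * Parker.act ρ (fun g => (s g : Ω)) * E + (1 - E)) ≠ 0 := by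
  letI := Fintype.ofFinite G
  obtain ⟨s, hs, hd⟩ := exists_skew_range hρ hB hE hadj hev
  let f : Option G → Module.End Ω V := fun o =>
    match o with
    | none => 1 - E
    | some g => E * (ρ g - ρ g⁻¹) * E
  have hf : ∀ x : Option G → Ω, ∑ i, x i • f i =
      E * (∑ g, x (some g) • (ρ g - ρ g⁻¹)) * E + x none • (1 - E) := by
    intro x
    rw [Fintype.sum_option, Finset.mul_sum, Finset.sum_mul, add_comm]
    congr 1
    refine Finset.sum_congr rfl fun g _ => ?_
    rw [mul_smul_comm, smul_mul_assoc]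
  obtain ⟨q, hq⟩ := fin_rat f ⟨fun o => match o with
    | none => 1
    | some g => (2 : Ω)⁻¹ * s g, by
      rw [hf]
      simp only
      rw [act_half s hs, one_smul]
      exact hd⟩
  refine ⟨fun g => q (some g) - q (some g⁻¹), fun g => by simp, ?_⟩
  have e1 : Parker.act ρ (fun g => ((q (some g) - q (some g⁻¹) : ℚ) : Ω)) =
      ∑ g, (q (some g) : Ω) • (ρ g - ρ g⁻¹) := act_diff (fun g => q (some g))
  rw [e1]
  rw [hf (fun o => (q o : Ω))] at hq
  intro h0
  apply hq
  have e2 : E * (∑ g, (q (some g) : Ω) • (ρ g - ρ g⁻¹)) * E + (q none : Ω) • (1 - E) =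
      (E * (∑ g, (q (some g) : Ω) • (ρ g - ρ g⁻¹)) * E + (1 - E)) * (E + (q none : Ω) • (1 - E)) := by
    rw [add_mul, mul_add, mul_add, mul_assoc _ E E, hE, mul_smul_comm, mul_smul_comm, mul_sub, mul_sub,
      mul_one, mul_one, mul_assoc _ E E, hE, sub_self, smul_zero, add_zero, sub_mul, one_mul, hE, sub_self,
      zero_add, sub_zero]
  rw [e2, map_mul, h0, zero_mul]

end A02_aux

theorem cut2 (hΓ : Parker.Ok c 1 Γ) (hρ : ρ.IsIrreducible) (hF : Parker.FxC Γ ρ)
    {B : LinearMap.BilinForm Ω V} (hB : Parker.InvForm ρ B) (hU : Odd (Nat.card U))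
    (hs : Group.IsSolvable U) (hev : Even (Module.finrank Ω (LinearMap.range (eU U ρ))))
    (hsq : ∀ s : G → ℚ, (∀ g, s g⁻¹ = - s g) →
      LinearMap.det (eU U ρ * Parker.act ρ (fun g => (s g : Ω)) * eU U ρ + (1 - eU U ρ)) ≠ 0 →
      Parker.SqV c Γ (c.av (LinearMap.det
        (eU U ρ * Parker.act ρ (fun g => (s g : Ω)) * eU U ρ + (1 - eU U ρ))))) :
    Parker.GoodV c Γ ρ := by
  have hEE : eU U ρ * eU U ρ = eU U ρ := eU_idem
  have hadj : Parker.SelfAdj B (eU U ρ) := eU_adj hB.inv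
  obtain ⟨s, hk, hd⟩ := A02_aux.exists_rat hρ hB hEE hadj hev
  have hE : eU U ρ ∈ Parker.Rat Γ ρ := by
    refine ⟨_, fun g => ?_, rfl⟩
    split_ifs
    · exact Parker.fx_inv (Parker.fx_natCast Γ _)
    · intro σ _
      exact map_zero σ
  have hS : Parker.Skew B (Parker.act ρ (fun g => (s g : Ω))) :=
    Parker.skew_of_skew hB (fun g => by rw [hk g, Rat.cast_neg])
  refine cut1 hΓ hF hB hU hs (T₀ := eU U ρ * Parker.act ρ (fun g => (s g : Ω)) * eU U ρ) ?_ ?_ ?_ ?_ hd
    (hsq s hk hd)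
  · exact Parker.rat_mul (Parker.rat_mul hE ⟨_, fun g => Parker.fx_ratCast Γ (s g), rfl⟩) hE
  · intro x y
    simp only [Module.End.mul_apply]
    rw [hadj, hS, hadj]
  · rw [← mul_assoc, ← mul_assoc, hEE]
  · rw [mul_assoc, hEE]

end

end AO
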