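import Pool.Agent.AO.A01

/-!
# MP_6c3636_al, AO, module A03: representations without real weights (helper7)

`H = U ⊔ S` is solvable (`solv`), `Parker.of_solvable` gives (A) and (B) for `H`. `Parker.good_of_res` (P13): it is enough that `Parker.NoOdd (Parker.rs H ρ)` (`no_odd`).
-/

namespace AO

noncomputable section

open Classical Equiv

open AN (sq)

namespace A03_aux

theorem mem_prod {G : Type} [Group G] {U S : Subgroup G}
    (hSU : ∀ x ∈ S, ∀ u ∈ U, x * u * x⁻¹ ∈ U) {g : G} (hg : g ∈ U ⊔ S) :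
    ∃ u ∈ U, ∃ x ∈ S, g = u * x := by
  have hle : S ≤ Subgroup.normalizer (U : Set G) := by
    intro x hx
    rw [Subgroup.mem_normalizer_iff]
    intro h
    constructor
    · exact fun hh => hSU x hx h hh
    · intro hh
      have h1 := hSU x⁻¹ (inv_mem hx) _ hh
      have h2 : x⁻¹ * (x * h * x⁻¹) * x⁻¹⁻¹ = h := by group
      rw [h2] at h1
      exact h1
  have h1 : g ∈ ((U ⊔ S : Subgroup G) : Set G) := hg
  rw [Subgroup.coe_mul_of_right_le_normalizer_left U S hle] at h1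
  obtain ⟨u, hu, x, hx, h⟩ := h1
  exact ⟨u, hu, x, hx, h.symm⟩

theorem solv {G : Type} [Group G] {U S : Subgroup G} (hs : Group.IsSolvable U)
    (hSc : ∀ x ∈ S, ∀ y ∈ S, x * y = y * x) (hSU : ∀ x ∈ S, ∀ u ∈ U, x * u * x⁻¹ ∈ U) :
    Group.IsSolvable (U ⊔ S : Subgroup G) := by
  have hN : (U.subgroupOf (U ⊔ S)).Normal := by
    constructor
    rintro ⟨n, hn⟩ hnN ⟨g, hg⟩
    obtain ⟨u, hu, x, hx, rfl⟩ := mem_prod hSU hg
    rw [Subgroup.mem_subgroupOf] at hnN ⊢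
    show (u * x) * n * (u * x)⁻¹ ∈ U
    have h1 : (u * x) * n * (u * x)⁻¹ = u * (x * n * x⁻¹) * u⁻¹ := by group
    rw [h1]
    exact mul_mem (mul_mem hu (hSU x hx n hnN)) (inv_mem hu)
  have := hN
  have := hs
  have h1 : Group.IsSolvable (U.subgroupOf (U ⊔ S)) := by
    have hinj : Function.Injective
        (Subgroup.subgroupOfEquivOfLe (le_sup_left : U ≤ U ⊔ S)).toMonoidHom :=
      (Subgroup.subgroupOfEquivOfLe (le_sup_left : U ≤ U ⊔ S)).injective
    exact Group.isSolvable_of_isSolvable_injective hinj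
  have h2 : Group.IsSolvable ((U ⊔ S : Subgroup G) ⧸ U.subgroupOf (U ⊔ S)) := by
    refine Group.isSolvable_of_comm fun a b => ?_
    obtain ⟨⟨g, hg⟩, rfl⟩ := QuotientGroup.mk_surjective a
    obtain ⟨⟨g', hg'⟩, rfl⟩ := QuotientGroup.mk_surjective b
    rw [← QuotientGroup.mk_mul, ← QuotientGroup.mk_mul, QuotientGroup.eq]
    obtain ⟨u, hu, x, hx, rfl⟩ := mem_prod hSU hg
    obtain ⟨v, hv, y, hy, rfl⟩ := mem_prod hSU hg'
    rw [Subgroup.mem_subgroupOf]
    show ((u * x) * (v * y))⁻¹ * ((v * y) * (u * x)) ∈ U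
    have h3 : ((u * x) * (v * y))⁻¹ * ((v * y) * (u * x)) =
        (y⁻¹ * v⁻¹ * y⁻¹⁻¹) * (y⁻¹ * (x⁻¹ * (u⁻¹ * v) * x⁻¹⁻¹) * y⁻¹⁻¹) *
          (y⁻¹ * x⁻¹ * (y * x)) * (x⁻¹ * u * x⁻¹⁻¹) := by group
    have h4 : y⁻¹ * x⁻¹ * (y * x) = 1 := by
      rw [hSc y hy x hx]
      group
    rw [h3, h4, mul_one]
    refine mul_mem (mul_mem (hSU _ (inv_mem hy) _ (inv_mem hv)) (hSU _ (inv_mem hy) _ ?_)) ?_
    · exact hSU _ (inv_mem hx) _ (mul_mem (inv_mem hu) hv)
    · exact hSU _ (inv_mem hx) _ hu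
  exact (Group.isSolvable_iff_subgroup_quotient (U.subgroupOf (U ⊔ S))).2 ⟨h1, h2⟩

variable {Ω : Type} [Field Ω] [IsAlgClosed Ω] [CharZero Ω]
  {G : Type} [Group G] [Finite G] {V : Type} [AddCommGroup V] [Module Ω V] [FiniteDimensional Ω V]
  {ρ : Representation Ω G V} {U : Subgroup G}

theorem no_odd {S : Subgroup G} (hU : Odd (Nat.card U))
    (hSc : ∀ x ∈ S, ∀ y ∈ S, x * y = y * x) (hSU : ∀ x ∈ S, ∀ u ∈ U, x * u * x⁻¹ ∈ U)
    (hw : ∀ f : G → ℤˣ, (∀ x ∈ S, ∀ y ∈ S, f (x * y) = f x * f y) → ∀ v, eU U ρ v = v →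
      (∀ x ∈ S, ρ x v = (((f x : ℤˣ) : ℤ) : Ω) • v) → v = 0) :
    Parker.NoOdd (Parker.rs (U ⊔ S) ρ) := by
  intro W hW hodd hSD
  have hUle : U ≤ U ⊔ S := le_sup_left
  have hSle : S ≤ U ⊔ S := le_sup_right
  -- a nonzero fixed vector of `U`
  have hfix : ∃ v : W.toSubmodule, v ≠ 0 ∧ ∀ u (hu : u ∈ U), W.toRepresentation ⟨u, hUle hu⟩ v = v := by
    by_contra hcon
    push Not at hcon
    let τ : Representation Ω U W.toSubmodule :=
      MonoidHom.comp W.toRepresentation (Subgroup.inclusion hUle)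
    have h1 : Parker.SD τ := fun u => hSD (Subgroup.inclusion hUle u)
    have h2 : ∀ v, (∀ u, τ u v = v) → v = 0 := by
      intro v hv
      by_contra hne
      obtain ⟨u, hu, h3⟩ := hcon v hne
      exact h3 (hv ⟨u, hu⟩)
    exact (Nat.not_even_iff_odd.2 hodd) (even_odd hU h1 h2)
  -- `U` acts trivially
  have htriv : ∀ u (hu : u ∈ U) (v : W.toSubmodule), W.toRepresentation ⟨u, hUle hu⟩ v = v := by
    let F : Submodule Ω W.toSubmodule :=
      { carrier := {v | ∀ u (hu : u ∈ U), W.toRepresentation ⟨u, hUle hu⟩ v = v}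
        add_mem' := by
          intro a b ha hb u hu
          rw [map_add, ha u hu, hb u hu]
        zero_mem' := by
          intro u hu
          rw [map_zero]
        smul_mem' := by
          intro c a ha u hu
          rw [map_smul, ha u hu] }
    have hF : ∀ g, ∀ v ∈ F, W.toRepresentation g v ∈ F := by
      rintro ⟨g, hg⟩ v hv u hu
      obtain ⟨w, hw', x, hx, rfl⟩ := mem_prod hSU hg
      have hu' : (w * x)⁻¹ * u * (w * x) ∈ U := by
        have h3 : (w * x)⁻¹ * u * (w * x) = x⁻¹ * (w⁻¹ * u * w) * x⁻¹⁻¹ := by group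
        rw [h3]
        exact hSU _ (inv_mem hx) _ (mul_mem (mul_mem (inv_mem hw') hu) hw')
      have h4 : (⟨u, hUle hu⟩ : (U ⊔ S : Subgroup G)) * ⟨w * x, hg⟩ =
          ⟨w * x, hg⟩ * ⟨(w * x)⁻¹ * u * (w * x), hUle hu'⟩ := by
        apply Subtype.ext
        show u * (w * x) = (w * x) * ((w * x)⁻¹ * u * (w * x))
        group
      have h5 : W.toRepresentation (⟨u, hUle hu⟩ : (U ⊔ S : Subgroup G))
          (W.toRepresentation ⟨w * x, hg⟩ v) =
          (W.toRepresentation ((⟨u, hUle hu⟩ : (U ⊔ S : Subgroup G)) * ⟨w * x, hg⟩)) v := by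
        rw [map_mul]
        rfl
      rw [h5, h4, map_mul]
      show W.toRepresentation ⟨w * x, hg⟩
        (W.toRepresentation ⟨(w * x)⁻¹ * u * (w * x), hUle hu'⟩ v) = _
      rw [hv _ hu']
    obtain ⟨v, hv0, hv⟩ := hfix
    have hvF : v ∈ F := hv
    rcases Parker.irr_sub hW hF with h6 | h6
    · rw [h6] at hvF
      exact absurd ((Submodule.mem_bot Ω).1 hvF) hv0
    · intro u hu v'
      have h7 : v' ∈ F := by
        rw [h6]
        exact Submodule.mem_top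
      exact h7 u hu
  -- the elements of `S` act as scalars
  have hsc : ∀ x (hx : x ∈ S), ∃ a : Ω, W.toRepresentation ⟨x, hSle hx⟩ = a • 1 := by
    intro x hx
    refine Parker.schur hW fun g => ?_
    obtain ⟨g, hg⟩ := g
    obtain ⟨w, hw', y, hy, rfl⟩ := mem_prod hSU hg
    have h1 : (⟨w * y, hg⟩ : (U ⊔ S : Subgroup G)) = ⟨w, hUle hw'⟩ * ⟨y, hSle hy⟩ := rfl
    have h2 : W.toRepresentation (⟨w, hUle hw'⟩ : (U ⊔ S : Subgroup G)) = 1 := by
      apply LinearMap.ext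
      intro v
      rw [htriv w hw' v]
      rfl
    rw [h1, map_mul, h2, one_mul, ← map_mul, ← map_mul]
    congr 1
    apply Subtype.ext
    exact hSc x hx y hy
  choose! c hc using hsc
  have hpos : 0 < Module.finrank Ω W.toSubmodule := Parker.irr_pos hW
  obtain ⟨v, hv0, hv⟩ := hfix
  have hcm : ∀ x (hx : x ∈ S) y (hy : y ∈ S), c (x * y) = c x * c y := by
    intro x hx y hy
    have h1 : (⟨x * y, hSle (mul_mem hx hy)⟩ : (U ⊔ S : Subgroup G)) =
      ⟨x, hSle hx⟩ * ⟨y, hSle hy⟩ := rfl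
    have h2 := hc (x * y) (mul_mem hx hy)
    rw [h1, map_mul, hc x hx, hc y hy] at h2
    have h3 := congrArg (fun f : Module.End Ω W.toSubmodule => f v) h2
    have h4 : (c x * c y - c (x * y)) • v = 0 := by
      rw [sub_smul, sub_eq_zero, mul_smul]
      exact h3
    rcases smul_eq_zero.1 h4 with h5 | h5
    · exact (sub_eq_zero.1 h5).symm
    · exact absurd h5 hv0
  have hc1 : c 1 = 1 := by
    have h2 := hc 1 (one_mem S)
    have h1 : (⟨1, hSle (one_mem S)⟩ : (U ⊔ S : Subgroup G)) = 1 := rfl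
    rw [h1, map_one] at h2
    have h3 := congrArg (fun f : Module.End Ω W.toSubmodule => f v) h2
    have h4 : (1 - c 1) • v = 0 := by
      rw [sub_smul, sub_eq_zero, one_smul]
      exact h3
    rcases smul_eq_zero.1 h4 with h5 | h5
    · exact (sub_eq_zero.1 h5).symm
    · exact absurd h5 hv0
  have hch : ∀ x (hx : x ∈ S), W.toRepresentation.character ⟨x, hSle hx⟩ =
      c x * (Module.finrank Ω W.toSubmodule : Ω) := by
    intro x hx
    show LinearMap.trace Ω _ (W.toRepresentation ⟨x, hSle hx⟩) = _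
    rw [hc x hx, map_smul, LinearMap.trace_one, smul_eq_mul]
  have hsq : ∀ x (hx : x ∈ S), c x = 1 ∨ c x = -1 := by
    intro x hx
    have h1 := hSD ⟨x, hSle hx⟩
    have h2 : (⟨x, hSle hx⟩ : (U ⊔ S : Subgroup G))⁻¹ = ⟨x⁻¹, hSle (inv_mem hx)⟩ := rfl
    rw [h2, hch _ (inv_mem hx), hch x hx] at h1
    have h3 : (Module.finrank Ω W.toSubmodule : Ω) ≠ 0 := Nat.cast_ne_zero.2 hpos.ne'
    have h4 : c x⁻¹ = c x := mul_right_cancel₀ h3 h1
    have h5 : c x * c x = 1 := by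
      rw [← hc1, ← mul_inv_cancel x, hcm x hx x⁻¹ (inv_mem hx), h4]
    exact mul_self_eq_one_iff.1 h5
  have hne : (1 : Ω) ≠ -1 := by
    intro h
    have h2 : (2 : Ω) = 0 := by
      linear_combination h
    exact two_ne_zero h2
  let f : G → ℤˣ := fun x => if c x = 1 then 1 else -1
  have hf : ∀ x (hx : x ∈ S), (((f x : ℤˣ) : ℤ) : Ω) = c x := by
    intro x hx
    rcases hsq x hx with h | h
    · have h1 : f x = 1 := if_pos h
      rw [h1, h]
      norm_num
    · have h1 : f x = -1 := if_neg (by rw [h]; exact hne.symm)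
      rw [h1, h]
      norm_num
  have hfinj : ∀ a b : ℤˣ, (((a : ℤˣ) : ℤ) : Ω) = (((b : ℤˣ) : ℤ) : Ω) → a = b := by
    intro a b hab
    exact Units.ext (Int.cast_injective hab)
  have hfm : ∀ x ∈ S, ∀ y ∈ S, f (x * y) = f x * f y := by
    intro x hx y hy
    apply hfinj
    rw [hf _ (mul_mem hx hy), Units.val_mul, Int.cast_mul, hf x hx, hf y hy, hcm x hx y hy]
  have h0 := hw f hfm (v : V) ?_ ?_
  · exact hv0 (Subtype.ext h0)
  · rw [eU_fix]
    intro u hu
    have h1 := congrArg Subtype.val (hv u hu)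
    exact h1
  · intro x hx
    rw [hf x hx]
    have h1 := congrArg (fun g : Module.End Ω W.toSubmodule => ((g v : W.toSubmodule) : V)) (hc x hx)
    exact h1

end A03_aux

variable {Ω : Type} [Field Ω] [IsAlgClosed Ω] [CharZero Ω] {c : Parker.Ctx Ω} {Γ : Subgroup (RingAut Ω)}
  {G : Type} [Group G] [Finite G] {V : Type} [AddCommGroup V] [Module Ω V] [FiniteDimensional Ω V]
  {ρ : Representation Ω G V} {U : Subgroup G}

theorem good_noreal (hΓ : Parker.Ok c 1 Γ) (hO : Parker.Orth ρ) (hF : Parker.FxC Γ ρ)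
    {S : Subgroup G} (hU : Odd (Nat.card U)) (hs : Group.IsSolvable U)
    (hSc : ∀ x ∈ S, ∀ y ∈ S, x * y = y * x) (hSU : ∀ x ∈ S, ∀ u ∈ U, x * u * x⁻¹ ∈ U)
    (hw : ∀ f : G → ℤˣ, (∀ x ∈ S, ∀ y ∈ S, f (x * y) = f x * f y) → ∀ v, eU U ρ v = v →
      (∀ x ∈ S, ρ x v = (((f x : ℤˣ) : ℤ) : Ω) • v) → v = 0) : Parker.GoodV c Γ ρ := by
  have := A03_aux.solv hs hSc hSU
  obtain ⟨hA, hB⟩ := Parker.of_solvable (c := c) (U ⊔ S : Subgroup G)
  exact Parker.good_of_res (U ⊔ S) hA hB hΓ hO hF (A03_aux.no_odd hU hSc hSU hw)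

end

end AO
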