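import Pool.Agent.AO.A02
import Pool.Agent.AN.V02
import Pool.Agent.Parker.P09

/-!
# MP_6c3636_al, AO, module A04: the cut lemma with a basis (helper7)

`cut2`: let `s : G → ℚ` be skew with `det (E * act ρ s * E + (1 - E)) ≠ 0`. The operator `T = E * act ρ s` restricted to the range of `E` has the determinant `det (E * act ρ s * E + (1 - E))` (`V` is the sum of the range and the kernel of `E`). Apply `AN.sqV_basis` (AN/V02.lean) to the range of `E` with the basis `b`, the restriction of `B` (`Parker.Skew` for the restriction: `E` is self adjoint), `T`: `hfx`: the coordinates of `E (ρ g (b j))` are fixed by `Γ`, so are those of `T (b j) = ∑ g, s g • E (ρ g (b j))`. The dimension of the range of `E` is the cardinality of `ι`.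
-/

namespace AO

noncomputable section

open Classical Equiv

open AN (sq)

variable {Ω : Type} [Field Ω] [IsAlgClosed Ω] [CharZero Ω] {c : Parker.Ctx Ω} {Γ : Subgroup (RingAut Ω)}
  {G : Type} [Group G] [Finite G] {V : Type} [AddCommGroup V] [Module Ω V] [FiniteDimensional Ω V]
  {ρ : Representation Ω G V} {U : Subgroup G}

namespace A04_aux

omit [IsAlgClosed Ω] [CharZero Ω] [Finite G] [FiniteDimensional Ω V] in
theorem isCompl_E {E : Module.End Ω V} (hE : E * E = E) : IsCompl (LinearMap.range E) (LinearMap.ker E) := by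
  have hE' : ∀ v, E (E v) = E v := fun v => congrArg (fun f : Module.End Ω V => f v) hE
  constructor
  · rw [Submodule.disjoint_def]
    rintro _ ⟨v, rfl⟩ hv
    rw [LinearMap.mem_ker, hE'] at hv
    exact hv
  · rw [codisjoint_iff, eq_top_iff]
    intro v _
    rw [Submodule.mem_sup]
    refine ⟨E v, ⟨v, rfl⟩, v - E v, ?_, by rw [add_sub_cancel]⟩
    rw [LinearMap.mem_ker, map_sub, hE', sub_self]

/-- the operator `E S` on the range of `E` -/
def cT (E S : Module.End Ω V) : Module.End Ω (LinearMap.range E) :=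
  (E * S).restrict (p := LinearMap.range E) (q := LinearMap.range E) fun v _ => ⟨S v, rfl⟩

omit [IsAlgClosed Ω] [CharZero Ω] [Finite G] [FiniteDimensional Ω V] in
theorem cT_coe (E S : Module.End Ω V) (x : LinearMap.range E) : ((cT E S x : LinearMap.range E) : V) = E (S x) := rfl

omit [IsAlgClosed Ω] [CharZero Ω] [Finite G] in
theorem det_cT {E : Module.End Ω V} (hE : E * E = E) (S : Module.End Ω V) :
    LinearMap.det (E * S * E + (1 - E)) = LinearMap.det (cT E S) := by
  have hE' : ∀ v, E (E v) = E v := fun v => congrArg (fun f : Module.End Ω V => f v) hE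
  have h1 := (Parker.P09_aux.conj_prod (isCompl_E hE) (E * S * E + (1 - E)) (cT E S) 1 ?_ ?_).2
  · rw [h1, map_one, mul_one]
  · rintro ⟨_, v, rfl⟩
    rw [cT_coe]
    show E (S (E (E v))) + (E v - E (E v)) = E (S (E v))
    rw [hE', sub_self, add_zero]
  · rintro ⟨v, hv⟩
    rw [LinearMap.mem_ker] at hv
    show E (S (E v)) + (v - E v) = v
    rw [hv, map_zero, map_zero, sub_zero, zero_add]

end A04_aux

open A04_aux

theorem cut3 (hΓ : Parker.Ok c 1 Γ) (hρ : ρ.IsIrreducible) (hF : Parker.FxC Γ ρ)
    {B : LinearMap.BilinForm Ω V} (hB : Parker.InvForm ρ B) (hU : Odd (Nat.card U))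
    (hs : Group.IsSolvable U) {ι : Type} [Fintype ι] (b : Module.Basis ι Ω (LinearMap.range (eU U ρ)))
    {d : ι → ℚ} (hd : ∀ i, d i ≠ 0) {μ : Ω} (hμ : μ ≠ 0)
    (hBb : ∀ i j, B (b i : V) (b j : V) = if i = j then μ * (d i : Ω) else 0)
    (hfx : ∀ g j, ∃ m : ι → Ω, (∀ i, Parker.Fx Γ (m i)) ∧
      eU U ρ (ρ g (b j : V)) = ∑ i, m i • (b i : V))
    (hc : Even (Fintype.card ι)) (hv : Even (padicValRat 2 (∏ i, d i))) : Parker.GoodV c Γ ρ := by
  have hE : eU U ρ * eU U ρ = eU U ρ := eU_idem
  have hEr : ∀ x : LinearMap.range (eU U ρ), eU U ρ (x : V) = x := by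
    rintro ⟨_, v, rfl⟩
    exact congrArg (fun f : Module.End Ω V => f v) hE
  have hadj : Parker.SelfAdj B (eU U ρ) := eU_adj hB.inv
  refine cut2 hΓ hρ hF hB hU hs ?_ ?_
  · rw [Module.finrank_eq_card_basis b]
    exact hc
  · intro s hsk hdet
    rw [det_cT hE] at hdet ⊢
    have hSk : Parker.Skew B (Parker.act ρ (fun g => (s g : Ω))) :=
      AN.act_skew hB.inv fun g => by rw [hsk, Rat.cast_neg]
    refine AN.sqV_basis b (B := B.domRestrict₁₂ (LinearMap.range (eU U ρ)) (LinearMap.range (eU U ρ))) ?_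
      hdet hd hμ (fun i j => hBb i j) ?_ hv
    · intro x y
      show B (eU U ρ (Parker.act ρ (fun g => (s g : Ω)) x)) y =
        -B x (eU U ρ (Parker.act ρ (fun g => (s g : Ω)) y))
      rw [hadj, hEr, hSk, ← hadj, hEr]
    · intro i j
      let _ := Fintype.ofFinite G
      choose m hm hm' using hfx
      have h1 : cT (eU U ρ) (Parker.act ρ (fun g => (s g : Ω))) (b j) =
          ∑ i, (∑ g, (s g : Ω) * m g j i) • b i := by
        apply Subtype.ext
        rw [cT_coe, Parker.act_eq, LinearMap.sum_apply, map_sum]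
        have h2 : ∀ g : G, eU U ρ (((s g : Ω) • ρ g) (b j : V)) = ∑ i, ((s g : Ω) * m g j i) • (b i : V) := by
          intro g
          rw [LinearMap.smul_apply, map_smul, hm', Finset.smul_sum]
          refine Finset.sum_congr rfl fun i _ => ?_
          rw [smul_smul]
        rw [Finset.sum_congr rfl fun g _ => h2 g, Finset.sum_comm, Submodule.coe_sum]
        refine Finset.sum_congr rfl fun i _ => ?_
        rw [Submodule.coe_smul, Finset.sum_smul]
      rw [h1, b.repr_sum_self]
      exact Parker.fx_sum fun g _ => Parker.fx_mul (Parker.fx_ratCast Γ (s g)) (hm g j i)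

end

end AO
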