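import Pool.Agent.AO.Defs2
import Pool.Agent.Parker.N01
import Pool.Agent.Parker.P02

/-!
# MP_6c3636_al, AO, module B01: reduction of property (B) (helper7)

Let `Γ`, `ρ`, `γ`, `d` be as in `PropB`, `ψ` the character of `ρ`. `Γ' = {σ ∈ Γ : σ z = z for all z with z ^ r = 1}` (see `fixR` in LieP/Z02.lean). `Parker.inV_unram` (N01): it is enough to prove `InV c Γ' (c.av d)`. `Ok c 1 Γ'` (`Parker.ok_mono`). If all `σ ∈ Γ'` fix `ψ`, the assumption of `h` is satisfied. Otherwise let `σ₀ ∈ Γ'` with `σ₀ ψ ≠ ψ`, `σ₀ d = - d`. For every `σ ∈ Γ` with `σ ψ ≠ ψ`: `σ d = - d`, `σ₀⁻¹ σ d = d`, and `d ≠ -d`, so `σ₀⁻¹ σ` fixes `ψ` (rule for `d`), `σ ψ = σ₀ ψ`. Apply to `γ`: `ψ* = γ ψ` is `ψ` (then `SD ρ`) or `σ₀ ψ` (then all `σ ∈ Γ'` fix `ψ` or map it to `ψ*`).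
-/

namespace AO

noncomputable section

open Classical Equiv

open AN (sq)


variable {Ω : Type} [Field Ω] [IsAlgClosed Ω] [CharZero Ω] {c : Parker.Ctx Ω}

/-- the elements of `Γ` which fix the `R`-th roots of unity -/
private def B01_fix {Ω : Type} [Field Ω] (Γ : Subgroup (RingAut Ω)) (R : ℕ) : Subgroup (RingAut Ω) where
  carrier := {σ | σ ∈ Γ ∧ ∀ z : Ω, z ^ R = 1 → σ z = z}
  mul_mem' := by
    rintro σ τ ⟨h1, h2⟩ ⟨h3, h4⟩
    refine ⟨Γ.mul_mem h1 h3, fun z hz => ?_⟩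
    rw [RingAut.mul_apply, h4 z hz, h2 z hz]
  one_mem' := ⟨Γ.one_mem, fun z _ => rfl⟩
  inv_mem' := by
    rintro σ ⟨h1, h2⟩
    refine ⟨Γ.inv_mem h1, fun z hz => ?_⟩
    have h3 : σ⁻¹ (σ z) = z := by
      rw [← RingAut.mul_apply, inv_mul_cancel, RingAut.one_apply]
    rw [h2 z hz] at h3
    exact h3

theorem propB_of {G : Type} [Group G] [Finite G] {r : ℕ} (hr : Odd r)
    (h : ∀ Γ : Subgroup (RingAut Ω), Parker.Ok c 1 Γ → (∀ σ ∈ Γ, ∀ z : Ω, z ^ r = 1 → σ z = z) →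
      ∀ (n : ℕ) (ρ : Representation Ω G (Fin n → Ω)), ρ.IsIrreducible → Odd n →
        (Parker.SD ρ ∨ ∀ σ ∈ Γ, Parker.Fixes σ ρ ∨ ∀ g, σ (ρ.character g) = ρ.character g⁻¹) →
        ∀ d : Ω, d ≠ 0 → (∀ σ ∈ Γ, σ d = if Parker.Fixes σ ρ then d else - d) →
          Parker.InV c Γ (c.av d)) : Parker.PropB c 1 G := by
  intro Γ hΓ n ρ hρ hn hγ d hd hrule
  obtain ⟨γ, hγ, hγχ⟩ := hγ
  have hle : B01_fix Γ r ≤ Γ := fun σ hσ => hσ.1
  refine Parker.inV_unram (Γ' := B01_fix Γ r) hΓ.pres hr (fun σ h1 h2 => ⟨h1, h2⟩) ?_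
  have hrule' : ∀ σ ∈ Γ, σ d = if Parker.Fixes σ ρ then d else - d := by
    intro σ hσ
    rw [hrule σ hσ]
  refine h (B01_fix Γ r) (Parker.ok_mono hΓ hle) (fun σ hσ => hσ.2) n ρ hρ hn ?_ d hd
    (fun σ hσ => hrule' σ hσ.1)
  by_cases hf : Parker.Fixes γ ρ
  · left
    intro g
    rw [← hγχ g, hf g]
  · right
    intro σ hσ
    by_cases hfσ : Parker.Fixes σ ρ
    · exact Or.inl hfσ
    · right
      have h1 : γ d = - d := by rw [hrule' γ hγ, if_neg hf]
      have h2 : σ d = - d := by rw [hrule' σ hσ.1, if_neg hfσ]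
      have h3 : γ⁻¹ d = - d := by
        have h4 : γ⁻¹ (γ d) = d := by rw [← RingAut.mul_apply, inv_mul_cancel, RingAut.one_apply]
        rw [h1, map_neg] at h4
        exact neg_eq_iff_eq_neg.mp h4
      have h5 : (γ⁻¹ * σ) d = d := by rw [RingAut.mul_apply, h2, map_neg, h3, neg_neg]
      have hne : d ≠ - d := by
        intro h6
        have h7 : (2 : Ω) * d = 0 := by
          rw [two_mul]
          nth_rewrite 2 [h6]
          exact add_neg_cancel d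
        rcases mul_eq_zero.mp h7 with h8 | h8
        · exact two_ne_zero h8
        · exact hd h8
      have h9 : Parker.Fixes (γ⁻¹ * σ) ρ := by
        by_contra hc
        have h10 := hrule' _ (Γ.mul_mem (Γ.inv_mem hγ) hσ.1)
        rw [if_neg hc, h5] at h10
        exact hne h10
      intro g
      have h11 := h9 g
      rw [RingAut.mul_apply] at h11
      have h12 : γ (γ⁻¹ (σ (ρ.character g))) = σ (ρ.character g) := by
        rw [← RingAut.mul_apply, mul_inv_cancel, RingAut.one_apply]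
      calc σ (ρ.character g) = γ (γ⁻¹ (σ (ρ.character g))) := h12.symm
        _ = γ (ρ.character g) := by rw [h11]
        _ = ρ.character g⁻¹ := hγχ g

end

end AO
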