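import Pool.Agent.AO.W01

/-!
# MP_6c3636_al, AO, module B02: weights fixed by an automorphism (helper7)

`wtH_parity` (W01). `dim wt ρ f` is the trace of the projection on `wt ρ f`, that is `|U|⁻¹ |T ⊓ H|⁻¹ ∑ u x, (f x)⁻¹ * ψ (u x)` (`ψ` the character of `ρ`; if `f` is multiplicative and nonzero on `T ⊓ H`; otherwise `wt ρ f = ⊥` by `wtH_mult`, also for the transformed function). `wt_fixed`: `τ f = σ ∘ f`: applying `σ` to the formula: `dim wt ρ (σ f) = dim wt ρ f` as `σ ψ = ψ`. The values of a weight are roots of unity of order dividing `|G|` (`wtH_mult`), `σ` fixes those of odd order and acts on those of order `2 ^ a` as a power of the automorphism group of a cyclic `2`-group, so some `σ ^ (2 ^ j)` fixes them all. `wt_inv`: `τ f = (σ ∘ f)⁻¹`: `dim wt ρ ((σ f)⁻¹)`: apply `σ` to the formula and replace `u x` by its inverse. `wt_real`: `τ f = f⁻¹`. `odd_E`: `even_E` (A00): `ψ` is real on `U`: elements of `U` have odd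 order dividing `|G|`, so `ψ (u⁻¹) = ψ* (u) = ψ (u)` (`ψ* = ψ` or `ψ* = σ ψ`, and `σ` fixes `ψ u`).
-/

namespace AO

noncomputable section

open Classical Equiv

open AN (sq)

variable {Ω : Type} [Field Ω] [IsAlgClosed Ω] [CharZero Ω] {G : Type} [Group G] [Finite G] {n : ℕ} {B : BN G n}
  {V : Type} [AddCommGroup V] [Module Ω V] [FiniteDimensional Ω V] {ρ : Representation Ω B.H V}

namespace B02_aux

/-- the powers of two of `σ` fix the roots of unity -/
theorem iter_root {N : ℕ} (hN : N ≠ 0) {σ : RingAut Ω}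
    (hr : ∀ (r : ℕ) (z : Ω), Odd r → r ∣ N → z ^ r = 1 → σ z = z) :
    ∃ a : ℕ, ∀ j, a ≤ j → ∀ z : Ω, z ^ N = 1 → (fun w => σ w)^[2 ^ j] z = z := by
  obtain ⟨a, r, hro, hNr⟩ := Nat.exists_eq_two_pow_mul_odd hN
  have : NeZero N := ⟨hN⟩
  have hr0 : r ≠ 0 := by
    rintro rfl
    exact hN (by rw [hNr, mul_zero])
  have : NeZero r := ⟨hr0⟩
  obtain ⟨ζ, hζ⟩ := HasEnoughRootsOfUnity.exists_primitiveRoot Ω N
  obtain ⟨ξ, hξ⟩ := HasEnoughRootsOfUnity.exists_primitiveRoot Ω r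
  have h1 : (σ ζ) ^ N = 1 := by rw [← map_pow, hζ.pow_eq_one, map_one]
  obtain ⟨t, -, ht⟩ := hζ.eq_pow_of_pow_eq_one h1
  have hσ : ∀ z : Ω, z ^ N = 1 → σ z = z ^ t := by
    intro z hz
    obtain ⟨i, -, rfl⟩ := hζ.eq_pow_of_pow_eq_one hz
    rw [map_pow, ← ht, ← pow_mul, ← pow_mul, mul_comm]
  have hit : ∀ m : ℕ, ∀ z : Ω, z ^ N = 1 → (fun w => σ w)^[m] z = z ^ (t ^ m) := by
    intro m
    induction m with
    | zero =>
      intro z _
      rw [pow_zero, pow_one]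
      rfl
    | succ m ih =>
      intro z hz
      rw [Function.iterate_succ_apply', ih z hz]
      show σ (z ^ t ^ m) = z ^ t ^ (m + 1)
      rw [hσ _ (by rw [← pow_mul, mul_comm, pow_mul, hz, one_pow]), ← pow_mul, pow_succ]
  have htr : t ≡ 1 [MOD r] := by
    have h2 : ξ ^ N = 1 := by rw [hNr, mul_comm, pow_mul, hξ.pow_eq_one, one_pow]
    have h3 := hr r ξ hro ⟨2 ^ a, by rw [hNr, mul_comm]⟩ hξ.pow_eq_one
    rw [hσ ξ h2] at h3
    have hξ0 : ξ ≠ 0 := hξ.ne_zero hr0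
    have h4 : ξ ^ ((1 : ℤ) - (t : ℤ)) = 1 := by
      rw [zpow_sub₀ hξ0, zpow_one, zpow_natCast, h3, div_self hξ0]
    exact Nat.modEq_iff_dvd.2 (by
      rw [Nat.cast_one]
      exact (hξ.zpow_eq_one_iff_dvd _).1 h4)
  have ht2 : t ^ 2 ^ a ≡ 1 [MOD 2 ^ a] := by
    rcases Nat.eq_zero_or_pos a with rfl | ha
    · rw [pow_zero]
      exact Nat.modEq_one
    · have hodd : Odd t := by
        by_contra hcon
        rw [Nat.not_odd_iff_even] at hcon
        have h2 : (-1 : Ω) ^ N = 1 := by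
          apply Even.neg_one_pow
          rw [hNr]
          exact Even.mul_right (Even.pow_of_ne_zero even_two (by omega)) r
        have h3 := hσ (-1) h2
        rw [map_neg, map_one, hcon.neg_one_pow] at h3
        have h4 : (2 : Ω) = 0 := by linear_combination -h3
        exact two_ne_zero h4
      have h2 : Nat.Coprime t (2 ^ a) := Nat.Coprime.pow_right a (Nat.coprime_two_right.2 hodd)
      have h3 := Nat.ModEq.pow_totient h2
      rw [Nat.totient_prime_pow Nat.prime_two ha] at h3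
      have h4 : 2 ^ a = 2 ^ (a - 1) * (2 - 1) * 2 := by
        rw [show (2 - 1 : ℕ) = 1 from rfl, mul_one, ← pow_succ]
        congr 1
        omega
      have h5 : t ^ 2 ^ a = (t ^ (2 ^ (a - 1) * (2 - 1))) ^ 2 := by rw [← pow_mul, ← h4]
      rw [h5]
      exact (h3.pow 2).trans (by rw [one_pow])
  have htN : t ^ 2 ^ a ≡ 1 [MOD N] := by
    rw [hNr]
    have hc : Nat.Coprime (2 ^ a) r := Nat.Coprime.pow_left a (Nat.coprime_two_left.2 hro)
    refine (Nat.modEq_and_modEq_iff_modEq_mul hc).1 ⟨ht2, ?_⟩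
    exact (htr.pow (2 ^ a)).trans (by rw [one_pow])
  refine ⟨a, fun j hj z hz => ?_⟩
  rw [hit _ z hz]
  have h2 : t ^ 2 ^ j ≡ 1 [MOD N] := by
    have h3 : t ^ 2 ^ j = (t ^ 2 ^ a) ^ 2 ^ (j - a) := by
      rw [← pow_mul, ← pow_add]
      congr 2
      omega
    rw [h3]
    exact (htN.pow _).trans (by rw [one_pow])
  have h3 : z ^ (t ^ 2 ^ j) = z ^ 1 := by
    rw [pow_eq_pow_mod (t ^ 2 ^ j) hz, pow_eq_pow_mod 1 hz, h2]
  rw [h3, pow_one]

/-- `f` is multiplicative and nonzero on the torus of `H` -/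
def Gd (B : BN G n) (f : G → Ω) : Prop :=
  (∀ x ∈ B.T ⊓ B.H, ∀ y ∈ B.T ⊓ B.H, f (x * y) = f x * f y) ∧ ∀ x ∈ B.T ⊓ B.H, f x ≠ 0

theorem Gd.one {f : G → Ω} (h : Gd B f) : f 1 = 1 := by
  have h1 := h.1 1 (Subgroup.one_mem _) 1 (Subgroup.one_mem _)
  rw [one_mul] at h1
  exact (mul_eq_left₀ (h.2 1 (Subgroup.one_mem _))).1 h1.symm

theorem Gd.inv {f : G → Ω} (h : Gd B f) {x : G} (hx : x ∈ B.T ⊓ B.H) : f x⁻¹ = (f x)⁻¹ := by
  have h1 := h.1 x hx x⁻¹ (Subgroup.inv_mem _ hx)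
  rw [mul_inv_cancel, h.one] at h1
  exact eq_inv_of_mul_eq_one_right h1.symm

theorem gd_of {f : G → Ω} (h : B.wt ρ f ≠ ⊥) : Gd B f := by
  obtain ⟨h1, h2⟩ := wtH_mult h
  refine ⟨h1, fun x hx h0 => ?_⟩
  have h3 := h2 x hx
  rw [h0, zero_pow Nat.card_pos.ne'] at h3
  exact zero_ne_one h3

/-- the trace sum -/
def ts [Fintype B.H] (B' : Representation Ω B.H V) (f : G → Ω) : Ω :=
  ∑ x : B.H, ∑ u : B.H, (if (x : G) ∈ B.T then (f x)⁻¹ else 0) * (if (u : G) ∈ B.U then 1 else 0) *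
    B'.character (x * u)

/-- the coefficients of the projection on the weight space -/
def pc (B : BN G n) (f : G → Ω) (x : B.H) : Ω :=
  if (x : G) ∈ B.T then (Nat.card (B.T.subgroupOf B.H) : Ω)⁻¹ * (f x)⁻¹ else 0

theorem dim_eq [Fintype B.H] {f : G → Ω} (hf : Gd B f) : (Module.finrank Ω (B.wt ρ f) : Ω) =
    (Nat.card (B.T.subgroupOf B.H) : Ω)⁻¹ * (Nat.card (B.U.subgroupOf B.H) : Ω)⁻¹ * ts ρ f := by
  have hNT : (Nat.card (B.T.subgroupOf B.H) : Ω) ≠ 0 := Nat.cast_ne_zero.2 Nat.card_pos.ne'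
  have hTH : ∀ x : B.H, (x : G) ∈ B.T → (x : G) ∈ B.T ⊓ B.H := fun x hx => ⟨hx, x.2⟩
  have hact : ∀ v, Parker.act ρ (pc B f) v = ∑ x : B.H, pc B f x • ρ x v := by
    intro v
    rw [Parker.act_eq, LinearMap.sum_apply]
    rfl
  have hee : ∀ v, B.eH ρ (B.eH ρ v) = B.eH ρ v := by
    intro v
    have h1 : (B.eH ρ * B.eH ρ) v = B.eH ρ v := by
      unfold BN.eH
      rw [eU_idem]
    exact h1
  -- the torus operators preserve the fixed points of `U`
  have hUT : ∀ w, B.eH ρ w = w → B.eH ρ (Parker.act ρ (pc B f) w) = Parker.act ρ (pc B f) w := by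
    intro w hw
    rw [eH_fix] at hw ⊢
    intro u hu
    rw [hact, map_sum]
    refine Finset.sum_congr rfl fun x _ => ?_
    rw [map_smul]
    by_cases hx : (x : G) ∈ B.T
    · congr 1
      have hu' : (x : G)⁻¹ * u * x ∈ B.U := by
        have h1 := B.TU (x : G)⁻¹ (Subgroup.inv_mem _ hx) u hu
        rwa [inv_inv] at h1
      have h2 : (⟨u, B.UH hu⟩ : B.H) * x = x * ⟨(x : G)⁻¹ * u * x, B.UH hu'⟩ := by
        apply Subtype.ext
        show u * (x : G) = (x : G) * ((x : G)⁻¹ * u * x)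
        group
      calc ρ ⟨u, B.UH hu⟩ (ρ x w) = ρ (⟨u, B.UH hu⟩ * x) w := by rw [map_mul]; rfl
        _ = ρ x (ρ ⟨(x : G)⁻¹ * u * x, B.UH hu'⟩ w) := by rw [h2, map_mul]; rfl
        _ = ρ x w := by rw [hw _ hu']
    · unfold pc
      rw [if_neg hx, zero_smul, zero_smul]
  have hproj : LinearMap.IsProj (B.wt ρ f) (Parker.act ρ (pc B f) * B.eH ρ) := by
    constructor
    · intro v
      refine ⟨hUT _ (hee v), fun y hy hyT => ?_⟩
      rw [Module.End.mul_apply, hact, map_sum, Finset.smul_sum]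
      refine Fintype.sum_equiv (Equiv.mulLeft (⟨y, hy⟩ : B.H)) _ _ fun x => ?_
      rw [Equiv.coe_mulLeft, map_smul]
      have h1 : ρ ⟨y, hy⟩ (ρ x (B.eH ρ v)) = ρ (⟨y, hy⟩ * x) (B.eH ρ v) := by
        rw [map_mul]
        rfl
      rw [h1, smul_smul]
      congr 1
      unfold pc
      by_cases hx : (x : G) ∈ B.T
      · have hyx : ((⟨y, hy⟩ * x : B.H) : G) ∈ B.T := Subgroup.mul_mem _ hyT hx
        have h2 : f ((⟨y, hy⟩ * x : B.H) : G) = f y * f x := hf.1 y ⟨hyT, hy⟩ x (hTH x hx)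
        have h3 := hf.2 y ⟨hyT, hy⟩
        have h4 := hf.2 x (hTH x hx)
        rw [if_pos hx, if_pos hyx, h2]
        field_simp
      · have hyx : ¬ ((⟨y, hy⟩ * x : B.H) : G) ∈ B.T := by
          intro h
          apply hx
          have h2 := Subgroup.mul_mem _ (Subgroup.inv_mem _ hyT) h
          have h3 : y⁻¹ * ((⟨y, hy⟩ * x : B.H) : G) = x := by
            show y⁻¹ * (y * (x : G)) = x
            group
          rwa [h3] at h2
        rw [if_neg hx, if_neg hyx, mul_zero]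
    · intro v hv
      rw [Module.End.mul_apply, hv.1, hact]
      have h1 : ∀ x : B.H, pc B f x • ρ x v =
          (if (x : G) ∈ B.T then (Nat.card (B.T.subgroupOf B.H) : Ω)⁻¹ else 0) • v := by
        intro x
        unfold pc
        by_cases hx : (x : G) ∈ B.T
        · rw [if_pos hx, if_pos hx]
          have h2 := hv.2 x x.2 hx
          have h3 : (⟨(x : G), x.2⟩ : B.H) = x := rfl
          rw [h3] at h2
          rw [h2, smul_smul, mul_assoc, inv_mul_cancel₀ (hf.2 x (hTH x hx)), mul_one]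
        · rw [if_neg hx, if_neg hx, zero_smul, zero_smul]
      rw [Finset.sum_congr rfl (fun x _ => h1 x), ← Finset.sum_smul, Finset.sum_ite, Finset.sum_const_zero,
        add_zero, Finset.sum_const, nsmul_eq_mul]
      have h4 : (Finset.univ.filter (fun x : B.H => (x : G) ∈ B.T)).card = Nat.card (B.T.subgroupOf B.H) := by
        rw [Nat.card_eq_fintype_card]
        symm
        apply Fintype.card_of_subtype
        intro x
        rw [Finset.mem_filter]
        exact ⟨fun h => h.2, fun h => ⟨Finset.mem_univ _, h⟩⟩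
      rw [h4, mul_inv_cancel₀ hNT, one_smul]
  have htr := hproj.trace
  rw [← htr]
  have hE : B.eH ρ = ∑ u : B.H, (if (u : G) ∈ B.U then (Nat.card (B.U.subgroupOf B.H) : Ω)⁻¹ else 0) • ρ u := by
    unfold BN.eH eU
    rw [Parker.act_eq]
    rfl
  rw [hE, Parker.act_eq, Finset.sum_mul_sum, map_sum]
  unfold ts
  rw [Finset.mul_sum]
  refine Finset.sum_congr rfl fun x _ => ?_
  rw [map_sum, Finset.mul_sum]
  refine Finset.sum_congr rfl fun u _ => ?_
  rw [smul_mul_smul_comm, map_smul, ← map_mul, smul_eq_mul]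
  show _ * ρ.character (x * u) = _
  unfold pc
  split_ifs <;> ring

/-- equal dimensions -/
theorem fin_eq [Fintype B.H] {f g : G → Ω} (hf : Gd B f) (hg : Gd B g) {σ : RingAut Ω}
    (h : σ (ts ρ f) = ts ρ g) : Module.finrank Ω (B.wt ρ g) = Module.finrank Ω (B.wt ρ f) := by
  have h1 := congrArg σ (dim_eq (ρ := ρ) hf)
  rw [map_mul, map_mul, map_inv₀, map_inv₀, map_natCast, map_natCast, map_natCast, h, ← dim_eq hg] at h1
  exact_mod_cast h1.symm

theorem fin_bot {f : G → Ω} (hf : ¬ Gd B f) : Module.finrank Ω (B.wt ρ f) = 0 := by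
  have h1 : B.wt ρ f = ⊥ := by
    by_contra h
    exact hf (gd_of h)
  rw [h1, finrank_bot]

theorem Gd.comp {f : G → Ω} (h : Gd B f) (σ : RingAut Ω) : Gd B (fun x => σ (f x)) := by
  refine ⟨fun x hx y hy => ?_, fun x hx h0 => ?_⟩
  · show σ (f (x * y)) = σ (f x) * σ (f y)
    rw [h.1 x hx y hy, map_mul]
  · exact h.2 x hx ((map_eq_zero σ).1 h0)

theorem Gd.comp' {f : G → Ω} {σ : RingAut Ω} (h : Gd B (fun x => σ (f x))) : Gd B f := by
  refine ⟨fun x hx y hy => ?_, fun x hx h0 => ?_⟩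
  · apply σ.injective
    rw [map_mul]
    exact h.1 x hx y hy
  · apply h.2 x hx
    show σ (f x) = 0
    rw [h0, map_zero]

theorem Gd.ninv {f : G → Ω} (h : Gd B f) : Gd B (fun x => (f x)⁻¹) := by
  refine ⟨fun x hx y hy => ?_, fun x hx h0 => ?_⟩
  · show (f (x * y))⁻¹ = (f x)⁻¹ * (f y)⁻¹
    rw [h.1 x hx y hy, mul_inv]
  · exact h.2 x hx (inv_eq_zero.1 h0)

theorem ts_comp [Fintype B.H] {f : G → Ω} {σ : RingAut Ω} (hσ : Parker.Fixes σ ρ) :
    σ (ts ρ f) = ts ρ (fun x => σ (f x)) := by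
  unfold ts
  rw [map_sum]
  refine Finset.sum_congr rfl fun x _ => ?_
  rw [map_sum]
  refine Finset.sum_congr rfl fun u _ => ?_
  rw [map_mul, map_mul, hσ (x * u)]
  congr 2
  · split_ifs
    · rw [map_inv₀]
    · rw [map_zero]
  · split_ifs
    · rw [map_one]
    · rw [map_zero]

theorem ts_inv [Fintype B.H] {f : G → Ω} {σ : RingAut Ω} (hf : Gd B f)
    (hσ : ∀ h, σ (ρ.character h) = ρ.character h⁻¹) :
    σ (ts ρ f) = ts ρ (fun x => (σ (f x))⁻¹) := by
  unfold ts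
  rw [map_sum]
  refine Fintype.sum_equiv (Equiv.inv B.H) _ _ fun x => ?_
  rw [map_sum]
  refine Fintype.sum_equiv (Equiv.inv B.H) _ _ fun u => ?_
  show σ ((if (x : G) ∈ B.T then (f x)⁻¹ else 0) * (if (u : G) ∈ B.U then 1 else 0) * ρ.character (x * u)) =
    (if ((x⁻¹ : B.H) : G) ∈ B.T then ((σ (f ((x⁻¹ : B.H) : G)))⁻¹)⁻¹ else 0) *
      (if ((u⁻¹ : B.H) : G) ∈ B.U then 1 else 0) * ρ.character (x⁻¹ * u⁻¹)
  rw [map_mul, map_mul, hσ (x * u), ρ.char_mul_comm, ← mul_inv_rev]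
  congr 2
  · have hx : ((x⁻¹ : B.H) : G) ∈ B.T ↔ (x : G) ∈ B.T := by
      rw [Subgroup.coe_inv, Subgroup.inv_mem_iff]
    by_cases h : (x : G) ∈ B.T
    · rw [if_pos h, if_pos (hx.2 h), map_inv₀, Subgroup.coe_inv, hf.inv ⟨h, x.2⟩, map_inv₀, inv_inv]
    · rw [if_neg h, if_neg (fun h' => h (hx.1 h')), map_zero]
  · have hu : ((u⁻¹ : B.H) : G) ∈ B.U ↔ (u : G) ∈ B.U := by
      rw [Subgroup.coe_inv, Subgroup.inv_mem_iff]
    by_cases h : (u : G) ∈ B.U
    · rw [if_pos h, if_pos (hu.2 h), map_one]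
    · rw [if_neg h, if_neg (fun h' => h (hu.1 h')), map_zero]

theorem iter_comp (σ : RingAut Ω) (m : ℕ) (f : G → Ω) (x : G) :
    (fun (f : G → Ω) x => σ (f x))^[m] f x = (fun w => σ w)^[m] (f x) := by
  induction m with
  | zero => rfl
  | succ m ih =>
    rw [Function.iterate_succ_apply', Function.iterate_succ_apply']
    exact congrArg σ ih

theorem iter_inv (σ : RingAut Ω) (m : ℕ) (f : G → Ω) (x : G) :
    (fun (f : G → Ω) x => (σ (f x))⁻¹)^[2 * m] f x = (fun w => σ w)^[2 * m] (f x) := by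
  induction m with
  | zero => rfl
  | succ m ih =>
    rw [show 2 * (m + 1) = 2 * m + 1 + 1 by ring, Function.iterate_succ_apply',
      Function.iterate_succ_apply', Function.iterate_succ_apply', Function.iterate_succ_apply']
    show (σ (σ _)⁻¹)⁻¹ = σ (σ _)
    rw [map_inv₀, inv_inv]
    exact congrArg (fun w => σ (σ w)) ih

end B02_aux

theorem wt_fixed (ho : Odd (Module.finrank Ω (LinearMap.range (B.eH ρ)))) {σ : RingAut Ω}
    (hr : ∀ (r : ℕ) (z : Ω), Odd r → r ∣ Nat.card G → z ^ r = 1 → σ z = z)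
    (hσ : Parker.Fixes σ ρ) : ∃ f, B.wt ρ f ≠ ⊥ ∧ ∀ x ∈ B.T ⊓ B.H, σ (f x) = f x := by
  letI : Fintype B.H := Fintype.ofFinite B.H
  obtain ⟨a, ha⟩ := B02_aux.iter_root (Nat.card_pos (α := G)).ne' hr
  refine wtH_parity (τ := fun f x => σ (f x)) ?_ ⟨a, ?_⟩ ?_ ho
  · intro f
    by_cases hf : B02_aux.Gd B f
    · exact B02_aux.fin_eq hf (hf.comp σ) (B02_aux.ts_comp hσ)
    · rw [B02_aux.fin_bot hf, B02_aux.fin_bot (fun h => hf h.comp')]
  · intro f hf x hx
    rw [B02_aux.iter_comp]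
    exact ha a le_rfl _ ((wtH_mult hf).2 x hx)
  · intro f g h x hx
    show σ (f x) = σ (g x)
    rw [h x hx]

theorem wt_inv (ho : Odd (Module.finrank Ω (LinearMap.range (B.eH ρ)))) {σ : RingAut Ω}
    (hr : ∀ (r : ℕ) (z : Ω), Odd r → r ∣ Nat.card G → z ^ r = 1 → σ z = z)
    (hσ : ∀ h, σ (ρ.character h) = ρ.character h⁻¹) :
    ∃ f, B.wt ρ f ≠ ⊥ ∧ ∀ x ∈ B.T ⊓ B.H, σ (f x) = (f x)⁻¹ := by
  letI : Fintype B.H := Fintype.ofFinite B.H
  obtain ⟨a, ha⟩ := B02_aux.iter_root (Nat.card_pos (α := G)).ne' hr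
  obtain ⟨f, hf, hx⟩ := wtH_parity (ρ := ρ) (τ := fun f x => (σ (f x))⁻¹) (by
    intro f
    by_cases hf : B02_aux.Gd B f
    · exact B02_aux.fin_eq hf (hf.comp σ).ninv (B02_aux.ts_inv hf hσ)
    · refine (B02_aux.fin_bot (fun h => hf ?_)).trans (B02_aux.fin_bot hf).symm
      have h1 := h.ninv
      simp only [inv_inv] at h1
      exact h1.comp') ⟨a + 1, by
    intro f hf x hx
    rw [pow_succ, mul_comm, B02_aux.iter_inv, mul_comm, ← pow_succ]
    exact ha (a + 1) (Nat.le_succ a) _ ((wtH_mult hf).2 x hx)⟩ (by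
    intro f g h x hx
    show (σ (f x))⁻¹ = (σ (g x))⁻¹
    rw [h x hx]) ho
  refine ⟨f, hf, fun x h => ?_⟩
  have h1 : (σ (f x))⁻¹ = f x := hx x h
  rw [← h1, inv_inv, h1]

theorem wt_real (ho : Odd (Module.finrank Ω (LinearMap.range (B.eH ρ)))) (hρ : Parker.SD ρ) :
    ∃ f, B.wt ρ f ≠ ⊥ ∧ ∀ x ∈ B.T ⊓ B.H, f x = (f x)⁻¹ :=
  wt_inv (σ := 1) ho (fun _ _ _ _ _ => rfl) (fun h => (hρ h).symm)

theorem odd_E (ho : Odd (Module.finrank Ω V)) (hσ : Parker.SD ρ ∨ ∃ σ : RingAut Ω,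
    (∀ (r : ℕ) (z : Ω), Odd r → r ∣ Nat.card G → z ^ r = 1 → σ z = z) ∧
      ∀ h, σ (ρ.character h) = ρ.character h⁻¹) :
    Odd (Module.finrank Ω (LinearMap.range (B.eH ρ))) := by
  have hp : Fact B.pc.Prime := ⟨B.prime⟩
  have hP : IsPGroup B.pc (B.U.subgroupOf B.H) := by
    intro u
    obtain ⟨k, hk⟩ := B.pU (((u : B.H) : G)) u.2
    refine ⟨k, ?_⟩
    apply Subtype.ext
    apply Subtype.ext
    exact hk
  have hU : Odd (Nat.card (B.U.subgroupOf B.H)) := by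
    obtain ⟨k, hk⟩ := IsPGroup.iff_card.1 hP
    rw [hk]
    exact B.odd.pow
  have h : ∀ u ∈ B.U.subgroupOf B.H, ρ.character u⁻¹ = ρ.character u := by
    intro u hu
    rcases hσ with h1 | ⟨σ, h1, h2⟩
    · exact h1 u
    · rw [← h2 u]
      have h3 : orderOf u ∣ Nat.card (B.U.subgroupOf B.H) := by
        have h4 := orderOf_dvd_natCard (⟨u, hu⟩ : B.U.subgroupOf B.H)
        rwa [Subgroup.orderOf_mk] at h4
      have h5 : Odd (orderOf u) := Odd.of_dvd_nat hU h3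
      have h6 : orderOf u ∣ Nat.card G := (orderOf_dvd_natCard u).trans (Subgroup.card_subgroup_dvd_card B.H)
      refine Parker.char_fixed ρ (n := orderOf u) ?_ (pow_orderOf_eq_one u) fun z hz => h1 _ z h5 h6 hz
      rintro h0
      rw [h0] at h5
      exact absurd h5 (by decide)
  have hE := even_E (ρ := ρ) hU h
  rw [← Nat.not_even_iff_odd] at ho ⊢
  exact fun h' => ho (hE.2 h')

end

end AO
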