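import Pool.Agent.AO.B02

/-!
# MP_6c3636_al, AO, module B03: property (B), no real weights (helper7)

CLAIM: for every weight `f` (`wt ρ f ≠ ⊥`) there is an `x ∈ T ⊓ H` such that `f x` has an order divisible by `4`. All weights are conjugate (`wtH_conj`, W01; conjugation with `m` permutes `T ⊓ H`), so if the claim is false it is false for all weights: all values are `± z` with `z` a root of unity of odd order dividing `|G|` (`wtH_mult`), fixed by `σ₀`. By `wt_inv` (B02) for `σ₀` there is a weight `f` with `f x = σ₀ (f x) = (f x)⁻¹`, a real weight: contradiction to `hnr`. So if `f` is a weight fixed by `σ` (`wt_fixed`) then a power of a value `f x` is `I` or `- I`, so `σ I = I`. If `σ (f x) = (f x)⁻¹` for all `x` (`wt_inv`) then `σ I = I⁻¹ = - I`.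
-/

namespace AO

noncomputable section

open Classical Equiv

open AN (sq)

variable {Ω : Type} [Field Ω] [IsAlgClosed Ω] [CharZero Ω] {G : Type} [Group G] [Finite G] {n : ℕ} {B : BN G n}
  {V : Type} [AddCommGroup V] [Module Ω V] [FiniteDimensional Ω V] {ρ : Representation Ω B.H V}

namespace B03_aux

omit [IsAlgClosed Ω] [CharZero Ω] in
theorem four {w y : Ω} {k : ℕ} (hk : k = orderOf w) (hk0 : 0 < k) (h4 : 4 ∣ k) (hy : y = w ^ (k / 4)) :
    y * y = -1 := by
  obtain ⟨r, hr⟩ := h4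
  have hr0 : 0 < r := by omega
  have e1 : k / 4 = r := by omega
  have h1 : y * y * (y * y) = 1 := by
    rw [hy, e1, ← pow_add, ← pow_add]
    have e2 : r + r + (r + r) = orderOf w := by omega
    rw [e2, pow_orderOf_eq_one]
  have h2 : y * y ≠ 1 := by
    rw [hy, e1, ← pow_add]
    exact pow_ne_one_of_lt_orderOf (by omega) (by omega)
  rcases mul_self_eq_one_iff.1 h1 with h | h
  · exact absurd h h2
  · exact h

omit [IsAlgClosed Ω] in
theorem odd_part {w : Ω} {N : ℕ} (hw : w ^ N = 1) (h4 : ¬ 4 ∣ orderOf w) {σ₀ : RingAut Ω}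
    (hr₀ : ∀ (r : ℕ) (z : Ω), Odd r → r ∣ N → z ^ r = 1 → σ₀ z = z) : σ₀ w = w := by
  have hd : orderOf w ∣ N := orderOf_dvd_of_pow_eq_one hw
  rcases Nat.even_or_odd (orderOf w) with he | ho
  · obtain ⟨r, hr⟩ := he
    have hr1 : Odd r := by
      rw [← Nat.not_even_iff_odd]
      rintro ⟨q, hq⟩
      exact h4 ⟨q, by omega⟩
    have hr0 : 0 < r := hr1.pos
    have h1 : w ^ r * w ^ r = 1 := by
      rw [← pow_add, ← hr, pow_orderOf_eq_one]
    have h2 : w ^ r ≠ 1 := pow_ne_one_of_lt_orderOf (by omega) (by omega)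
    have h3 : w ^ r = -1 := by
      rcases mul_self_eq_one_iff.1 h1 with h | h
      · exact absurd h h2
      · exact h
    have h5 : σ₀ (-w) = -w := by
      apply hr₀ r _ hr1 (dvd_trans ⟨2, by omega⟩ hd)
      rw [hr1.neg_pow, h3, neg_neg]
    rw [map_neg] at h5
    exact neg_injective h5
  · exact hr₀ _ _ ho hd (pow_orderOf_eq_one w)

end B03_aux

theorem nonreal_I (hρ : ρ.IsIrreducible) (ho : Odd (Module.finrank Ω (LinearMap.range (B.eH ρ))))
    (hnr : ∀ f, B.wt ρ f ≠ ⊥ → ∃ x ∈ B.T ⊓ B.H, f x ≠ (f x)⁻¹) {σ₀ : RingAut Ω}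
    (hr₀ : ∀ (r : ℕ) (z : Ω), Odd r → r ∣ Nat.card G → z ^ r = 1 → σ₀ z = z)
    (h₀ : ∀ h, σ₀ (ρ.character h) = ρ.character h⁻¹) {σ : RingAut Ω}
    (hr : ∀ (r : ℕ) (z : Ω), Odd r → r ∣ Nat.card G → z ^ r = 1 → σ z = z) {I : Ω}
    (hI : I * I = -1) : (Parker.Fixes σ ρ → σ I = I) ∧
      ((∀ h, σ (ρ.character h) = ρ.character h⁻¹) → σ I = -I) := by
  have hN : 0 < Nat.card G := Nat.card_pos
  have hconj : ∀ m ∈ B.N, m ∈ B.H → ∀ x ∈ B.T ⊓ B.H, m⁻¹ * x * m ∈ B.T ⊓ B.H := by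
    intro m hm _ x hx
    constructor
    · have h1 := (N_T (B.N.inv_mem hm) (x := x)).2 hx.1
      rwa [inv_inv] at h1
    · have h1 := B.hN.conj_mem x hx.2 m⁻¹
      rwa [inv_inv] at h1
  have claim : ∀ f, B.wt ρ f ≠ ⊥ → ∃ x ∈ B.T ⊓ B.H, 4 ∣ orderOf (f x) := by
    intro f0 hf0
    by_contra hcon
    push Not at hcon
    obtain ⟨f, hf, hf1⟩ := wt_inv ho hr₀ h₀
    obtain ⟨x, hx, hx1⟩ := hnr f hf
    apply hx1
    rw [← hf1 x hx]
    symm
    apply B03_aux.odd_part ((wtH_mult hf).2 x hx) ?_ hr₀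
    obtain ⟨m, hm, hmH, hm1⟩ := wtH_conj hρ hf0 hf
    rw [hm1 x hx]
    exact hcon _ (hconj m hm hmH x hx)
  have hpos : ∀ f, B.wt ρ f ≠ ⊥ → ∀ x ∈ B.T ⊓ B.H, 0 < orderOf (f x) := by
    intro f hf x hx
    exact orderOf_pos_iff.2 (isOfFinOrder_iff_pow_eq_one.2 ⟨_, hN, (wtH_mult hf).2 x hx⟩)
  have hyI : ∀ y : Ω, y * y = -1 → y = I ∨ y = -I := by
    intro y hy
    have h1 : y * y = I * I := by rw [hy, hI]
    exact mul_self_eq_mul_self_iff.1 h1
  have hI0 : I ≠ 0 := by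
    intro h
    rw [h, mul_zero] at hI
    exact one_ne_zero (neg_eq_zero.1 hI.symm)
  have hII : I⁻¹ = -I := by
    rw [inv_eq_iff_eq_inv, eq_comm, inv_eq_iff_eq_inv]
    apply eq_inv_of_mul_eq_one_left
    rw [neg_mul, hI, neg_neg]
  constructor
  · intro hσ
    obtain ⟨f, hf, hf1⟩ := wt_fixed ho hr hσ
    obtain ⟨x, hx, hx1⟩ := claim f hf
    have h1 := B03_aux.four rfl (hpos f hf x hx) hx1 rfl
    have h2 : σ (f x ^ (orderOf (f x) / 4)) = f x ^ (orderOf (f x) / 4) := by rw [map_pow, hf1 x hx]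
    rcases hyI _ h1 with h | h
    · rwa [h] at h2
    · rw [h, map_neg] at h2
      exact neg_injective h2
  · intro hσ
    obtain ⟨f, hf, hf1⟩ := wt_inv ho hr hσ
    obtain ⟨x, hx, hx1⟩ := claim f hf
    have h1 := B03_aux.four rfl (hpos f hf x hx) hx1 rfl
    have h2 : σ (f x ^ (orderOf (f x) / 4)) = (f x ^ (orderOf (f x) / 4))⁻¹ := by
      rw [map_pow, hf1 x hx, inv_pow]
    rcases hyI _ h1 with h | h
    · rw [h, hII] at h2
      exact h2
    · rw [h, map_neg, inv_neg, hII] at h2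
      exact neg_injective h2

end

end AO
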