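import Pool.Agent.AO.S04

/-!
# MP_6c3636_al, AO, module S05: the valuation of the norms (helper7)

`v = padicValRat 2`. For odd `q ≥ 3` and `m : ℤ`, `m ≠ 0`: `v (q ^ m - 1)` is `v (q - 1)` if `m` is odd, and `v (q ^ 2 - 1) + v m - 1` if `m` is even (lifting the exponent: Mathlib `Nat.two_pow_sub_pow`, `Int.two_pow_sub_pow`; for negative `m`: `q ^ (-m) - 1 = - q ^ (-m) * (q ^ m - 1)`, `v q = 0`); `v (q ^ m + 1)` is `v (q + 1)` if `m` is odd and `1` if `m` is even. `nu_same`: `x.1 = y.1`, `d = y.2 - x.2 ≥ 2`, `z = Q ^ d`, `P.nu x y = (Q ^ (d - 1) - 1) * (Q ^ (d + 1) - 1) * Q⁻¹ / (Q ^ d - 1) ^ 2` with the odd number `Q = q ^ e`: the valuation is congruent to `v (Q ^ (d - 1) - 1) + v (Q ^ (d + 1) - 1)` modulo `2`; `1 - 1 / d ^ 2 = (d - 1) (d + 1) / d ^ 2`, valuation congruent to `v (d - 1) + v (d + 1)`. If `d` is even: both are even (`2 v (Q - 1)`, `0`). If `d` is odd: `v (Q ^ (d ± 1) - 1) =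 v (Q ^ 2 - 1) - 1 + v (d ± 1)`. `nu_other`: different types. If the labels differ: `v Q⁻¹ = 0`. Otherwise `z = - q ^ m`, `m` an integer, `P.nu x y = (q ^ m + q ^ e) * (q ^ m + q ^ (-e)) * q ^ (-e) / (q ^ m + 1) ^ 2`; up to powers of `q` the numerator is `(q ^ (m - e) + 1) * (q ^ (m + e) + 1)`, and `m - e`, `m + e` have the same parity. `nm_val`: the product of the factors.
-/

namespace AO

noncomputable section

open Classical Equiv

open AN (sq)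

variable {K : Type} [Field K] {P : Par K} {n : ℕ}

namespace S05_aux

theorem v_odd {S : ℤ} (h : Odd S) : padicValRat 2 (S : ℚ) = 0 := by
  rw [padicValRat.of_int, padicValInt.eq_zero_of_not_dvd]
  · rfl
  · intro hd
    rw [Nat.cast_ofNat] at hd
    exact (Int.not_even_iff_odd.2 h) (even_iff_two_dvd.2 hd)

theorem v_odd_nat {m : ℕ} (h : Odd m) : padicValRat 2 (m : ℚ) = 0 := by
  have h1 : Odd ((m : ℕ) : ℤ) := by exact_mod_cast h
  have h2 := v_odd h1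
  rwa [Int.cast_natCast] at h2

theorem odd_plus {a : ℤ} (ha : Odd a) (k : ℕ) : ∃ S : ℤ, Odd S ∧ a ^ (2 * k + 1) + 1 = (a + 1) * S := by
  induction k with
  | zero => exact ⟨1, odd_one, by ring⟩
  | succ k ih =>
    obtain ⟨S, hS, h⟩ := ih
    refine ⟨a ^ 2 * S - (a - 1), ?_, ?_⟩
    · have h1 : Odd (a ^ 2 * S) := (ha.pow).mul hS
      have h2 : Even (a - 1) := ha.sub_odd odd_one
      exact h1.sub_even h2
    · have e : a ^ (2 * (k + 1) + 1) = a ^ 2 * a ^ (2 * k + 1) := by ring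
      rw [e]
      linear_combination a ^ 2 * h

theorem even_plus {a : ℤ} (ha : Odd a) (k : ℕ) : ∃ S : ℤ, Odd S ∧ a ^ (2 * k) + 1 = 2 * S := by
  induction k with
  | zero => exact ⟨1, odd_one, by ring⟩
  | succ k ih =>
    obtain ⟨S, hS, h⟩ := ih
    obtain ⟨t, ht⟩ := ha
    refine ⟨a ^ 2 * S - 2 * (t ^ 2 + t), ?_, ?_⟩
    · have h0 : Odd a := ⟨t, ht⟩
      have h1 : Odd (a ^ 2 * S) := (h0.pow).mul hS
      exact h1.sub_even (even_two_mul _)
    · have e : a ^ (2 * (k + 1)) = a ^ 2 * a ^ (2 * k) := by ring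
      rw [e]
      have h2 : a ^ 2 - 1 = 4 * (t ^ 2 + t) := by
        rw [ht]
        ring
      linear_combination a ^ 2 * h - h2

theorem v_two : padicValRat 2 (2 : ℚ) = 1 := by
  have h := padicValRat.self (p := 2) (by norm_num)
  rwa [Nat.cast_ofNat] at h

theorem v_q {q : ℕ} (hq : Odd q) (m : ℤ) : padicValRat 2 ((q : ℚ) ^ m) = 0 := by
  rw [padicValRat.zpow, v_odd_nat hq, mul_zero]

theorem v_plus {q : ℕ} (hq : Odd q) (n : ℕ) :
    padicValRat 2 ((q : ℚ) ^ n + 1) = if Even n then 1 else padicValRat 2 ((q : ℚ) + 1) := by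
  have hq' : Odd ((q : ℕ) : ℤ) := by exact_mod_cast hq
  by_cases hn : Even n
  · rw [if_pos hn]
    obtain ⟨k, hk⟩ := hn
    obtain ⟨S, hS, h⟩ := even_plus hq' k
    have e : (q : ℚ) ^ n + 1 = 2 * (S : ℚ) := by
      rw [hk, ← two_mul]
      exact_mod_cast h
    have hS0 : (S : ℚ) ≠ 0 := by
      intro h0
      rw [Int.cast_eq_zero] at h0
      rw [h0] at hS
      exact absurd hS (by decide)
    rw [e, padicValRat.mul two_ne_zero hS0, v_two, v_odd hS, add_zero]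
  · rw [if_neg hn]
    obtain ⟨k, hk⟩ := Nat.not_even_iff_odd.1 hn
    obtain ⟨S, hS, h⟩ := odd_plus hq' k
    have e : (q : ℚ) ^ n + 1 = ((q : ℚ) + 1) * (S : ℚ) := by
      rw [hk]
      exact_mod_cast h
    have hS0 : (S : ℚ) ≠ 0 := by
      intro h0
      rw [Int.cast_eq_zero] at h0
      rw [h0] at hS
      exact absurd hS (by decide)
    have h1 : (q : ℚ) + 1 ≠ 0 := by positivity
    rw [e, padicValRat.mul h1 hS0, v_odd hS, add_zero]

theorem q_ne {q : ℕ} (hq : Odd q) : (q : ℚ) ≠ 0 := by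
  intro h
  rw [Nat.cast_eq_zero] at h
  rw [h] at hq
  exact absurd hq (by decide)

theorem plus_ne {q : ℕ} (m : ℤ) : (q : ℚ) ^ m + 1 ≠ 0 := by positivity

theorem v_plusZ {q : ℕ} (hq : Odd q) (m : ℤ) :
    padicValRat 2 ((q : ℚ) ^ m + 1) = if Even m then 1 else padicValRat 2 ((q : ℚ) + 1) := by
  have hq0 := q_ne hq
  obtain ⟨n, hn | hn⟩ := Int.eq_nat_or_neg m
  · rw [hn, zpow_natCast, v_plus hq]
    simp only [Int.even_coe_nat]
  · have e : (q : ℚ) ^ m + 1 = (q : ℚ) ^ m * ((q : ℚ) ^ n + 1) := by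
      rw [hn, mul_add, mul_one, zpow_neg, zpow_natCast, inv_mul_cancel₀ (pow_ne_zero n hq0), add_comm]
    have h2 : (q : ℚ) ^ n + 1 ≠ 0 := by positivity
    rw [e, padicValRat.mul (zpow_ne_zero m hq0) h2, v_q hq, zero_add, v_plus hq, hn]
    simp only [even_neg, Int.even_coe_nat]

theorem v_minus_odd {q : ℕ} (hq : Odd q) (hq3 : 3 ≤ q) {n : ℕ} (hn : Odd n) :
    padicValRat 2 ((q : ℚ) ^ n - 1) = padicValRat 2 ((q : ℚ) - 1) := by
  have hq' : Odd (-((q : ℕ) : ℤ)) := by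
    rw [odd_neg]
    exact_mod_cast hq
  obtain ⟨k, hk⟩ := hn
  obtain ⟨S, hS, h⟩ := odd_plus hq' k
  have hS0 : (S : ℚ) ≠ 0 := by
    intro h0
    rw [Int.cast_eq_zero] at h0
    rw [h0] at hS
    exact absurd hS (by decide)
  have h' : ((q : ℤ)) ^ n - 1 = ((q : ℤ) - 1) * S := by
    rw [hk]
    have e : (-(q : ℤ)) ^ (2 * k + 1) = -((q : ℤ) ^ (2 * k + 1)) := Odd.neg_pow ⟨k, rfl⟩ _
    rw [e] at h
    linear_combination -h
  have e : (q : ℚ) ^ n - 1 = ((q : ℚ) - 1) * (S : ℚ) := by exact_mod_cast h'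
  have h3 : (3 : ℚ) ≤ (q : ℚ) := by exact_mod_cast hq3
  have h1 : (q : ℚ) - 1 ≠ 0 := by linarith
  rw [e, padicValRat.mul h1 hS0, v_odd hS, add_zero]

theorem v_minus_even {q : ℕ} (hq : Odd q) (hq3 : 3 ≤ q) {n : ℕ} (hn0 : n ≠ 0) (hn : Even n) :
    padicValRat 2 ((q : ℚ) ^ n - 1) =
      padicValRat 2 ((q : ℚ) + 1) + padicValRat 2 ((q : ℚ) - 1) - 1 + padicValRat 2 (n : ℚ) := by
  obtain ⟨t, ht⟩ := hq
  have h := padicValNat.pow_two_sub_pow (x := q) (y := 1) (by omega) (by omega) (by omega) hn0 hn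
  rw [one_pow] at h
  have e1 : ((q ^ n - 1 : ℕ) : ℚ) = (q : ℚ) ^ n - 1 := by
    rw [Nat.cast_sub (Nat.one_le_pow _ _ (by omega)), Nat.cast_pow, Nat.cast_one]
  have e2 : ((q - 1 : ℕ) : ℚ) = (q : ℚ) - 1 := by
    rw [Nat.cast_sub (by omega), Nat.cast_one]
  have e3 : ((q + 1 : ℕ) : ℚ) = (q : ℚ) + 1 := by push_cast; ring
  rw [← e1, ← e2, ← e3, padicValRat.of_nat, padicValRat.of_nat, padicValRat.of_nat, padicValRat.of_nat]
  omega

theorem sg_sq (y : Ty) : sg y * sg y = 1 := by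
  unfold sg
  split_ifs <;> rfl

theorem sg_opp {y z : Ty} (h : lb y = lb z) (h' : y ≠ z) : sg y * sg z = -1 := by
  revert y z
  decide

theorem Q_odd (P : Par K) : Odd (P.q ^ P.e) := P.odd.pow

theorem Q_three (P : Par K) : 3 ≤ P.q ^ P.e := le_trans P.three (Nat.le_self_pow P.pos.ne' _)

theorem Qr_eq (P : Par K) : P.Qr = ((P.q ^ P.e : ℕ) : ℚ) := by
  unfold Par.Qr
  rw [Nat.cast_pow]

theorem minus_ne {q : ℕ} (hq3 : 3 ≤ q) {n : ℕ} (hn : n ≠ 0) : (q : ℚ) ^ n - 1 ≠ 0 := by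
  have h1 : (1 : ℚ) < (q : ℚ) := by exact_mod_cast (by omega : 1 < q)
  have h2 := one_lt_pow₀ h1 hn
  linarith

/-- the relation of the factors -/
def Rl (f g : ℚ) : Prop := f ≠ 0 ∧ g ≠ 0 ∧ ∃ z : ℤ, padicValRat 2 f = 2 * z + padicValRat 2 g

theorem Rl.one : Rl 1 1 := ⟨one_ne_zero, one_ne_zero, 0, by rw [mul_zero, zero_add]⟩

theorem Rl.mul {f g f' g' : ℚ} (h : Rl f g) (h' : Rl f' g') : Rl (f * f') (g * g') := by
  obtain ⟨h1, h2, z, h3⟩ := h
  obtain ⟨h1', h2', z', h3'⟩ := h'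
  refine ⟨mul_ne_zero h1 h1', mul_ne_zero h2 h2', z + z', ?_⟩
  rw [padicValRat.mul h1 h1', padicValRat.mul h2 h2', h3, h3']
  ring

theorem Rl.prod {ι : Type} (s : Finset ι) {f g : ι → ℚ} (h : ∀ i ∈ s, Rl (f i) (g i)) :
    Rl (∏ i ∈ s, f i) (∏ i ∈ s, g i) := by
  induction s using Finset.induction_on with
  | empty =>
    rw [Finset.prod_empty, Finset.prod_empty]
    exact Rl.one
  | insert a s ha ih =>
    rw [Finset.prod_insert ha, Finset.prod_insert ha]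
    exact (h a (Finset.mem_insert_self a s)).mul (ih (fun i hi => h i (Finset.mem_insert_of_mem hi)))

end S05_aux

open S05_aux

theorem nu_same {x y : Et} (h : x.1 = y.1) (h' : x.2 + 2 ≤ y.2) :
    ∃ z : ℤ, padicValRat 2 (P.nu x y) =
      2 * z + padicValRat 2 (1 - 1 / ((((y.2 - x.2 : ℤ) : ℚ)) ^ 2)) := by
  obtain ⟨E, hE⟩ : ∃ E : ℕ, y.2 - x.2 = ((E + 1 : ℕ) : ℤ) := ⟨(y.2 - x.2 - 1).toNat, by omega⟩
  have hE1 : 1 ≤ E := by omega
  obtain ⟨Q, hQ⟩ : ∃ Q : ℕ, Q = P.q ^ P.e := ⟨_, rfl⟩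
  have hodd : Odd Q := by
    rw [hQ]
    exact Q_odd P
  have h3 : 3 ≤ Q := by
    rw [hQ]
    exact Q_three P
  have hQ0 := q_ne hodd
  have hz : P.zr x y = (Q : ℚ) ^ (E + 1) := by
    unfold Par.zr
    rw [h, sg_sq, hE, sub_self, zero_add, Int.cast_one, one_mul, hQ, Nat.cast_pow, ← pow_mul]
    exact_mod_cast zpow_natCast (P.q : ℚ) (P.e * (E + 1))
  have hnu : P.nu x y = ((Q : ℚ) ^ E - 1) * ((Q : ℚ) ^ (E + 2) - 1) /
      ((Q : ℚ) ^ (1 : ℤ) * (((Q : ℚ) ^ (E + 1) - 1) * ((Q : ℚ) ^ (E + 1) - 1))) := by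
    have hne := minus_ne h3 (n := E + 1) (by omega)
    unfold Par.nu
    rw [h, if_pos rfl, hz, Qr_eq, ← hQ, zpow_one]
    field_simp
    ring
  have ha := minus_ne h3 (n := E) (by omega)
  have hb := minus_ne h3 (n := E + 1) (by omega)
  have hc := minus_ne h3 (n := E + 2) (by omega)
  have hd : padicValRat 2 (P.nu x y) = padicValRat 2 ((Q : ℚ) ^ E - 1) + padicValRat 2 ((Q : ℚ) ^ (E + 2) - 1) -
      (padicValRat 2 ((Q : ℚ) ^ (E + 1) - 1) + padicValRat 2 ((Q : ℚ) ^ (E + 1) - 1)) := by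
    rw [hnu, padicValRat.div (mul_ne_zero ha hc) (mul_ne_zero (zpow_ne_zero _ hQ0) (mul_ne_zero hb hb)),
      padicValRat.mul ha hc, padicValRat.mul (zpow_ne_zero _ hQ0) (mul_ne_zero hb hb), v_q hodd, zero_add,
      padicValRat.mul hb hb]
  have e0 : ((E : ℕ) : ℚ) ≠ 0 := by
    rw [Nat.cast_ne_zero]
    omega
  have e1 : ((E + 1 : ℕ) : ℚ) ≠ 0 := by
    rw [Nat.cast_ne_zero]
    omega
  have e2 : ((E + 2 : ℕ) : ℚ) ≠ 0 := by
    rw [Nat.cast_ne_zero]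
    omega
  have he : padicValRat 2 (1 - 1 / ((((y.2 - x.2 : ℤ) : ℚ)) ^ 2)) = padicValRat 2 ((E : ℕ) : ℚ) +
      padicValRat 2 ((E + 2 : ℕ) : ℚ) - (padicValRat 2 ((E + 1 : ℕ) : ℚ) + padicValRat 2 ((E + 1 : ℕ) : ℚ)) := by
    have e3 : 1 - 1 / ((((y.2 - x.2 : ℤ) : ℚ)) ^ 2) =
        ((E : ℕ) : ℚ) * ((E + 2 : ℕ) : ℚ) / (((E + 1 : ℕ) : ℚ) * ((E + 1 : ℕ) : ℚ)) := by
      rw [hE, Int.cast_natCast]
      push_cast at e1 ⊢
      field_simp
      ring
    rw [e3, padicValRat.div (mul_ne_zero e0 e2) (mul_ne_zero e1 e1), padicValRat.mul e0 e2, padicValRat.mul e1 e1]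
  rw [hd, he]
  rcases Nat.even_or_odd E with hp | hp
  · have hp2 : Even (E + 2) := by
      rw [Nat.even_add]
      simp [hp]
    rw [v_minus_even hodd h3 (by omega) hp, v_minus_even hodd h3 (by omega) hp2]
    refine ⟨padicValRat 2 ((Q : ℚ) + 1) + padicValRat 2 ((Q : ℚ) - 1) - 1 + padicValRat 2 ((E + 1 : ℕ) : ℚ) -
      padicValRat 2 ((Q : ℚ) ^ (E + 1) - 1), ?_⟩
    ring
  · have hp2 : Odd (E + 2) := by
      rw [Nat.odd_add]
      simp [hp]
    rw [v_minus_odd hodd h3 hp, v_minus_odd hodd h3 hp2, v_odd_nat hp, v_odd_nat hp2]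
    refine ⟨padicValRat 2 ((Q : ℚ) - 1) + padicValRat 2 ((E + 1 : ℕ) : ℚ) -
      padicValRat 2 ((Q : ℚ) ^ (E + 1) - 1), ?_⟩
    ring

theorem nu_other {x y : Et} (h : x.1 ≠ y.1) : ∃ z : ℤ, padicValRat 2 (P.nu x y) = 2 * z := by
  have hq0 := q_ne P.odd
  by_cases hl : lb x.1 = lb y.1
  · obtain ⟨m, hm⟩ : ∃ m : ℤ, m = P.j y.1 - P.j x.1 + P.e * (y.2 - x.2) := ⟨_, rfl⟩
    have hz : P.zr x y = -((P.q : ℚ) ^ m) := by
      unfold Par.zr
      rw [sg_opp hl h, ← hm]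
      push_cast
      ring
    have hQ : P.Qr = (P.q : ℚ) ^ (P.e : ℤ) := by
      unfold Par.Qr
      rw [zpow_natCast]
    have hnu : P.nu x y = ((P.q : ℚ) ^ (m - P.e) + 1) * ((P.q : ℚ) ^ (m + P.e) + 1) /
        ((P.q : ℚ) ^ (P.e : ℤ) * (((P.q : ℚ) ^ m + 1) * ((P.q : ℚ) ^ m + 1))) := by
      have hne : (P.q : ℚ) ^ m + 1 ≠ 0 := plus_ne m
      have hne' : -((P.q : ℚ) ^ m) - 1 ≠ 0 := by
        intro h0
        apply hne
        linear_combination -h0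
      have he0 : (P.q : ℚ) ^ (P.e : ℤ) ≠ 0 := zpow_ne_zero _ hq0
      unfold Par.nu
      rw [if_pos hl, hz, hQ, zpow_sub₀ hq0, zpow_add₀ hq0]
      have e4 : (-((P.q : ℚ) ^ m) - 1) ^ 2 = ((P.q : ℚ) ^ m + 1) * ((P.q : ℚ) ^ m + 1) := by ring
      rw [e4]
      field_simp
      ring
    have ha : (P.q : ℚ) ^ (m - P.e) + 1 ≠ 0 := plus_ne _
    have hb : (P.q : ℚ) ^ (m + P.e) + 1 ≠ 0 := plus_ne _
    have hc : (P.q : ℚ) ^ m + 1 ≠ 0 := plus_ne _
    have hpar : Even (m - (P.e : ℤ)) ↔ Even (m + (P.e : ℤ)) := by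
      rw [Int.even_sub, Int.even_add]
    have heq : padicValRat 2 ((P.q : ℚ) ^ (m - P.e) + 1) = padicValRat 2 ((P.q : ℚ) ^ (m + P.e) + 1) := by
      rw [v_plusZ P.odd, v_plusZ P.odd]
      simp only [hpar]
    rw [hnu, padicValRat.div (mul_ne_zero ha hb) (mul_ne_zero (zpow_ne_zero _ hq0) (mul_ne_zero hc hc)),
      padicValRat.mul ha hb, padicValRat.mul (zpow_ne_zero _ hq0) (mul_ne_zero hc hc), v_q P.odd, zero_add,
      padicValRat.mul hc hc, heq]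
    refine ⟨padicValRat 2 ((P.q : ℚ) ^ (m + P.e) + 1) - padicValRat 2 ((P.q : ℚ) ^ m + 1), ?_⟩
    ring
  · have hnu : P.nu x y = (P.q : ℚ) ^ (-(P.e : ℤ)) := by
      unfold Par.nu Par.Qr
      rw [if_neg hl, zpow_neg, zpow_natCast]
    rw [hnu, v_q P.odd]
    exact ⟨0, by rw [mul_zero]⟩

theorem nm_val (β : Fin n → Et) : ∃ z : ℤ, padicValRat 2 (P.nm β) = 2 * z + padicValRat 2 (nmT β) := by
  have key : Rl (P.nm β) (nmT β) := by
    unfold Par.nm nmT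
    apply Rl.prod
    intro i _
    apply Rl.prod
    intro j _
    by_cases hij : i < j
    · by_cases h1 : (β j).1 = (β i).1 ∧ (β j).2 + 2 ≤ (β i).2
      · have h2 : Be (β j) (β i) := Or.inr h1
        rw [if_pos ⟨hij, h2⟩, if_pos ⟨hij, h1.1, h1.2⟩]
        refine ⟨(nu_pos h2).ne', ?_, nu_same h1.1 h1.2⟩
        have h3 : (2 : ℚ) ≤ (((β i).2 - (β j).2 : ℤ) : ℚ) := by
          exact_mod_cast (by omega : (2 : ℤ) ≤ (β i).2 - (β j).2)
        intro h4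
        rw [sub_eq_zero, eq_div_iff (by positivity), one_mul] at h4
        nlinarith
      · have hn : ¬ (i < j ∧ (β j).1 = (β i).1 ∧ (β j).2 + 2 ≤ (β i).2) := fun hh => h1 hh.2
        rw [if_neg hn]
        by_cases h2 : Be (β j) (β i)
        · rw [if_pos ⟨hij, h2⟩]
          have h3 : (β j).1 ≠ (β i).1 := by
            rcases h2 with h2 | h2
            · exact h2.ne
            · exact absurd h2 h1
          obtain ⟨z, hz⟩ := nu_other (P := P) h3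
          refine ⟨(nu_pos h2).ne', one_ne_zero, z, ?_⟩
          rw [hz, padicValRat.one, add_zero]
        · have hn' : ¬ (i < j ∧ Be (β j) (β i)) := fun hh => h2 hh.2
          rw [if_neg hn']
          exact Rl.one
    · have hn : ¬ (i < j ∧ (β j).1 = (β i).1 ∧ (β j).2 + 2 ≤ (β i).2) := fun hh => hij hh.1
      have hn' : ¬ (i < j ∧ Be (β j) (β i)) := fun hh => hij hh.1
      rw [if_neg hn, if_neg hn']
      exact Rl.one
  exact key.2.2

end

end AO
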