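import Pool.Agent.AO.H06
import Pool.Agent.AO.S05

/-!
# MP_6c3636_al, AO, module B04: property (B) for typed representations (helper7)

`exists_snB` (L08), `dicho` (H05). If `φ` is surjective: `surj_sig` (H06): all `σ ∈ Γ` fix `ψ`, so `σ d = d`: `InV`. Otherwise: `κ` from `tw_sn` (H03), choose `β ∈ SqT n F` (`SN.ne`). `half_sig`: `σ (κ β) = ± κ β` with the same sign as for `d`, so `d / κ β` is fixed by `Γ`. `kap_rel` (H04): `κ β ^ 2 = ± nm β / nm (dlS β)`. The `2`-adic valuations of `nm β` and `nm (dlS β)` are congruent modulo `2`: `nm_val` (S05) and `nmT (dlS β) = nmT β` (`dl2` is a bijection of the types). So `c.av (κ β) ^ 2 = c.av 2 ^ (2 m)` (`AN.av_rat`, AN/V02.lean), `c.av (κ β) = c.av (2 ^ m)`, `2 ^ m` is fixed by `Γ`. Then `c.av d = c.av (d / κ β * 2 ^ m)`.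
-/

namespace AO

noncomputable section

open Classical Equiv

open AN (sq)

variable {k : Type} [Field k] [CharZero k] [Algebra k ℝ] {Ω : Type} [Field Ω] [IsAlgClosed Ω] [CharZero Ω]
  [Algebra k Ω] {G : Type} [Group G] [Finite G] {n : ℕ} {B : BN G n} {P : Par k}
  {D : HA P n (MonoidAlgebra k G)} {W : Type} [AddCommGroup W] [Module Ω W] [FiniteDimensional Ω W]
  {M : Representation Ω G W} {V : Type} [AddCommGroup V] [Module Ω V] [FiniteDimensional Ω V]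
  {ρ : Representation Ω B.H V}

private theorem b04_nmT (β : Fin n → AO.Et) : nmT (dlS β) = nmT β := by
  unfold nmT dlS
  refine Finset.prod_congr rfl fun i _ => Finset.prod_congr rfl fun j _ => ?_
  have h : (dl2 (β j).1 = dl2 (β i).1) ↔ ((β j).1 = (β i).1) := by
    unfold dl2
    exact add_left_inj 2
  simp only [h]

/-- the absolute value of the coefficient -/
private theorem b04_av (c : Parker.Ctx Ω) (β : Fin n → AO.Et) {x : Ω}
    (hx : x ^ 2 * ((P.nm (dlS β) : ℚ) : Ω) = ((P.nm β : ℚ) : Ω) ∨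
      x ^ 2 * ((P.nm (dlS β) : ℚ) : Ω) = -((P.nm β : ℚ) : Ω)) :
    ∃ m : ℤ, c.av x = c.av ((2 : Ω) ^ m) := by
  have h1 : P.nm β ≠ 0 := (nm_posT β).ne'
  have h2 : P.nm (dlS β) ≠ 0 := (nm_posT (dlS β)).ne'
  have hav : c.av x ^ 2 * c.av ((P.nm (dlS β) : ℚ) : Ω) = c.av ((P.nm β : ℚ) : Ω) := by
    rcases hx with h | h
    · rw [← h, map_mul, map_pow]
    · rw [← map_neg_eq_map c.av ((P.nm β : ℚ) : Ω), ← h, map_mul, map_pow]
  have hc : 0 < c.av (2 : Ω) := c.av.pos two_ne_zero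
  rw [AN.av_rat c h1, AN.av_rat c h2] at hav
  obtain ⟨z1, hz1⟩ := nm_val (P := P) β
  obtain ⟨z2, hz2⟩ := nm_val (P := P) (dlS β)
  rw [b04_nmT] at hz2
  refine ⟨z1 - z2, ?_⟩
  have h3 : c.av x ^ 2 = (c.av (2 : Ω) ^ (z1 - z2)) ^ 2 := by
    have h4 : c.av x ^ 2 = c.av (2 : Ω) ^ (padicValRat 2 (P.nm β)) / c.av (2 : Ω) ^ (padicValRat 2 (P.nm (dlS β))) := by
      rw [eq_div_iff (zpow_ne_zero _ hc.ne')]
      exact hav
    rw [h4, hz1, hz2, ← zpow_sub₀ hc.ne', ← zpow_natCast, ← zpow_mul]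
    congr 1
    push_cast
    ring
  rw [map_zpow₀]
  exact (pow_left_inj₀ (c.av.nonneg x) (zpow_pos hc _).le two_ne_zero).1 h3

theorem typed_B {c : Parker.Ctx Ω} {Γ : Subgroup (RingAut Ω)} (hρ : ρ.IsIrreducible)
    (hM : M.IsIrreducible) (φ : V →ₗ[Ω] W) (hφ : Function.Injective φ)
    (hφ' : ∀ (h : B.H) v, φ (ρ h v) = M h (φ v)) (hP : Fit B P) (hD : Dg B P D)
    (hE : (D.on M).Et ≠ 0) (hn : 0 < n) (hw : B.eH ρ ≠ 0)
    (hk : ∀ σ ∈ Γ, ∀ x : k, σ (algebraMap k Ω x) = algebraMap k Ω x) {d : Ω} (hd : d ≠ 0)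
    (hσ : ∀ σ ∈ Γ, σ d = if Parker.Fixes σ ρ then d else - d) : Parker.InV c Γ (c.av d) := by
  obtain ⟨F, v, hv, hs⟩ := exists_snB hM hP hD hn hE
  rcases dicho hρ hM φ hφ hφ' hP hD hE hn hw with hsu | ⟨la, Θ, h1, hx, hr, hT, h0, hz, h2, h3⟩
  · refine Parker.inV_of_fx hd fun σ hs' => ?_
    rw [hσ σ hs', if_pos (surj_sig hM φ hφ hφ' hsu hP hD hn hv hs (hk σ hs'))]
  · obtain ⟨κ, hκ⟩ := tw_sn hM hP hD hn h1 hx hr hv hs hT h0
    obtain ⟨β, hβ⟩ := hv.ne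
    have hκ0 : κ β ≠ 0 := (hκ β hβ).2.1
    have hfx : Parker.Fx Γ (d / κ β) := by
      intro σ hs'
      rw [map_div₀, hσ σ hs', half_sig hρ hM hP hD hn hv hs h1 hx hT hz h2 hκ (hk σ hs') β hβ]
      by_cases hf : Parker.Fixes σ ρ
      · rw [if_pos hf, if_pos hf]
      · rw [if_neg hf, if_neg hf, neg_div_neg_eq]
    obtain ⟨m, hm⟩ := b04_av (P := P) c β (x := κ β) (by
      rcases (kap_rel hM hP hD hn hv hs hT hz hκ).2 with h | h
      · exact Or.inl (h β hβ)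
      · exact Or.inr (h β hβ))
    have h5 : c.av d = c.av (d / κ β) * c.av ((2 : Ω) ^ m) := by
      rw [← hm, ← map_mul, div_mul_cancel₀ _ hκ0]
    rw [h5]
    refine Parker.inV_mul (Parker.inV_of_fx (div_ne_zero hd hκ0) hfx)
      (Parker.inV_of_fx (zpow_ne_zero _ two_ne_zero) fun σ _ => ?_)
    rw [map_zpow₀, map_ofNat]

end

end AO
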