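import Pool.Agent.AN.V03
import Pool.Agent.LieP.Defs

/-!
# MP_6c3636_al, AO (classical groups in odd characteristic): definitions (helper7)

A box of a standard tableau has a type `y : Ty` (label `lb y`, sign `sg y`) and a content. A sequence `β : Fin n → Et` is
legal (`LgT β`) if for every type the contents of the boxes of this type are the contents of a standard tableau.
`Par K`: the parameters; `HA P n A`: elements `E a` (idempotents), `T k` (the simple reflection which exchanges the places
`k` and `k + 1`), `X` (the end node, `X = 1` is allowed) of the algebra `A` with the relations of a Hecke algebra.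
`D.J k` are the Jucys-Murphy elements, `Wt D β` their joint eigenspaces. `SN D F v`: `v` is a seminormal basis.
-/

namespace AO

noncomputable section

open Classical Equiv

open AN (sq)

section Types

/-- the types -/
abbrev Ty : Type := Fin 4

/-- the label of a type -/
def lb (y : Ty) : Bool := decide (2 ≤ (y : ℕ))

/-- the sign of a type -/
def sg (y : Ty) : ℤ := if (y : ℕ) % 2 = 0 then 1 else -1

/-- the type with label `b` and positive sign -/
def yp (b : Bool) : Ty := if b then 2 else 0

/-- the type with label `b` and negative sign -/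
def yn (b : Bool) : Ty := if b then 3 else 1

/-- boxes: type and content -/
abbrev Et : Type := Ty × ℤ

/-- `x` is far below `y` -/
def Be (x y : Et) : Prop := x.1 < y.1 ∨ (x.1 = y.1 ∧ x.2 + 2 ≤ y.2)

/-- `x` is below `y` -/
def Lt (x y : Et) : Prop := x.1 < y.1 ∨ (x.1 = y.1 ∧ x.2 < y.2)

theorem lb_yp (b : Bool) : lb (yp b) = b := by
  cases b <;> decide

theorem lb_yn (b : Bool) : lb (yn b) = b := by
  cases b <;> decide

end Types

section Sequences

variable {n : ℕ}

/-- the number of the `j < k` with `β j = z` -/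
def cnT (β : Fin n → Et) (k : ℕ) (z : Et) : ℕ :=
  (Finset.univ.filter (fun j : Fin n => (j : ℕ) < k ∧ β j = z)).card

/-- the number of beads of type `z.1` at `z.2` before the step `k` -/
def occT (β : Fin n → Et) (k : ℕ) (z : Et) : ℤ :=
  (if z.2 ≤ 0 then 1 else 0) + (cnT β k (z.1, z.2 - 1) : ℤ) - (cnT β k z : ℤ)

/-- legal sequences -/
def LgT (β : Fin n → Et) : Prop :=
  ∀ k : Fin n, occT β k (β k) = 1 ∧ occT β k ((β k).1, (β k).2 + 1) = 0

/-- the legal sequences of shape `F` -/
def SqT (n : ℕ) (F : Et → ℤ) : Set (Fin n → Et) := {β | LgT β ∧ occT β n = F}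

/-- the legal sequences of shape `F`, as a finite set -/
def SFT (n : ℕ) (F : Et → ℤ) : Finset (Fin n → Et) :=
  (Fintype.piFinset fun _ : Fin n => Finset.univ ×ˢ Finset.Icc (-(n : ℤ)) n).filter
    (fun β => β ∈ SqT n F)

/-- the product of the factors `1 - 1 / d ^ 2` -/
def nmT (β : Fin n → Et) : ℚ :=
  ∏ i : Fin n, ∏ j : Fin n, if i < j ∧ (β j).1 = (β i).1 ∧ (β j).2 + 2 ≤ (β i).2 then
    1 - 1 / ((((β i).2 - (β j).2 : ℤ) : ℚ) ^ 2) else 1

end Sequences

section Parameters

/-- the parameters: `Q = q ^ e`, the eigenvalues of `X` on the label `b` are `r (yp b)`, `r (yn b)` -/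
structure Par (K : Type) [Field K] where
  /-- an odd number -/
  q : ℕ
  /-- the exponent -/
  e : ℕ
  /-- the exponents of the eigenvalues -/
  j : Ty → ℤ
  /-- the factors -/
  w : Bool → K
  three : 3 ≤ q
  odd : Odd q
  pos : 0 < e
  ne : ∀ b, w b ≠ 0

variable {K : Type} [Field K] (P : Par K)

/-- the parameter `Q` -/
def Par.Q : K := (P.q : K) ^ P.e

/-- the parameter `Q` as a rational number -/
def Par.Qr : ℚ := (P.q : ℚ) ^ P.e

/-- the eigenvalue of `X` of the type `y` -/
def Par.r (y : Ty) : K := P.w (lb y) * ((sg y : ℤ) : K) * (P.q : K) ^ (P.j y)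

/-- the eigenvalue of the Jucys-Murphy elements for the box `z` -/
def Par.x (z : Et) : K := P.r z.1 * P.Q ^ z.2

/-- the ratio of `P.x y` and `P.x x` for boxes with the same label -/
def Par.zr (x y : Et) : ℚ :=
  ((sg x.1 * sg y.1 : ℤ) : ℚ) * (P.q : ℚ) ^ (P.j y.1 - P.j x.1 + P.e * (y.2 - x.2))

/-- the diagonal coefficients -/
def Par.al (x y : Et) : ℚ :=
  if lb x.1 = lb y.1 then (1 - P.Qr⁻¹) * P.zr x y / (P.zr x y - 1) else 0

/-- the ratios of the norms -/
def Par.nu (x y : Et) : ℚ :=
  if lb x.1 = lb y.1 then (P.zr x y - P.Qr) * (P.zr x y - P.Qr⁻¹) / (P.Qr * (P.zr x y - 1) ^ 2)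
  else P.Qr⁻¹

/-- the norm of the basis vector `β` -/
def Par.nm {n : ℕ} (β : Fin n → Et) : ℚ :=
  ∏ i : Fin n, ∏ j : Fin n, if i < j ∧ Be (β j) (β i) then P.nu (β j) (β i) else 1

/-- the diagonal coefficient for the labels `b`, `b'` and the eigenvalues `x`, `y` -/
def Par.alR (b b' : Bool) (x y : K) : K := if b = b' then (1 - P.Q⁻¹) * y / (y - x) else 0

/-- the ratio of the norms for the labels `b`, `b'` and the eigenvalues `x`, `y` -/
def Par.nuR (b b' : Bool) (x y : K) : K :=
  if b = b' then (y - P.Q * x) * (P.Q * y - x) / (P.Q ^ 2 * (y - x) ^ 2) else P.Q⁻¹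

/-- change of the field -/
def Par.map {L : Type} [Field L] (f : K →+* L) : Par L where
  q := P.q
  e := P.e
  j := P.j
  w := fun b => f (P.w b)
  three := P.three
  odd := P.odd
  pos := P.pos
  ne := fun b => by
    rw [Ne, map_eq_zero]
    exact P.ne b

end Parameters

section Algebra

variable {K : Type} [Field K]

/-- elements of an algebra with the relations of a Hecke algebra -/
structure HA (P : Par K) (n : ℕ) (A : Type) [Ring A] [Algebra K A] where
  /-- the idempotents -/
  E : (Fin n → Bool) → A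
  /-- the simple reflection which exchanges the places `k` and `k + 1` -/
  T : Fin n → A
  /-- the end node -/
  X : A
  EE : ∀ a b, E a * E b = if a = b then E a else 0
  TE : ∀ k l : Fin n, (l : ℕ) = k + 1 → ∀ a, T k * E a = E (sq a k l) * T k
  T1 : ∀ k l : Fin n, (l : ℕ) = k + 1 → T k * ∑ a, E a = T k
  Tq : ∀ k l : Fin n, (l : ℕ) = k + 1 → ∀ a, T k * T k * E a =
    P.Q⁻¹ • E a + (if a k = a l then (1 - P.Q⁻¹) • (T k * E a) else 0)
  br : ∀ j k l : Fin n, (k : ℕ) = j + 1 → (l : ℕ) = k + 1 → T j * T k * T j = T k * T j * T k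
  cm : ∀ i j k l : Fin n, (j : ℕ) = i + 1 → (l : ℕ) = k + 1 → j < k → T i * T k = T k * T i
  XE : ∀ a, X * E a = E a * X
  X1 : X * ∑ a, E a = X
  Xq : ∀ k : Fin n, (k : ℕ) = 0 → ∀ a, X * X * E a =
    (P.r (yp (a k)) + P.r (yn (a k))) • (X * E a) - (P.r (yp (a k)) * P.r (yn (a k))) • E a
  XT : ∀ k l : Fin n, (l : ℕ) = k + 1 → 0 < (k : ℕ) → X * T k = T k * X
  Xb : ∀ k l : Fin n, (l : ℕ) = k + 1 → (k : ℕ) = 0 → X * T k * X * T k = T k * X * T k * X

variable {P : Par K} {n : ℕ} {A : Type} [Ring A] [Algebra K A]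

/-- the sum of the idempotents -/
def HA.Et (D : HA P n A) : A := ∑ a, D.E a

/-- the simple reflections with indices in `ℕ` -/
def HA.tn (D : HA P n A) (m : ℕ) : A := if h : m < n then D.T ⟨m, h⟩ else 0

/-- the Jucys-Murphy elements with indices in `ℕ` -/
def HA.jn (D : HA P n A) : ℕ → A
  | 0 => D.X
  | m + 1 => P.Q • (D.tn m * HA.jn D m * D.tn m)

/-- the Jucys-Murphy elements -/
def HA.J (D : HA P n A) (k : Fin n) : A := D.jn k

/-- the subalgebra generated by the operators -/
def HA.gn (D : HA P n A) : Subalgebra K A :=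
  Algebra.adjoin K (Set.range D.E ∪ Set.range D.T ∪ {D.X})

/-- the image under a semilinear ring homomorphism -/
def HA.mapS (D : HA P n A) {L : Type} [Field L] {B : Type} [Ring B] [Algebra L B] (g : K →+* L)
    (f : A →+* B) (hf : ∀ (c : K) (a : A), f (c • a) = g c • f a) : HA (P.map g) n B where
  E := fun a => f (D.E a)
  T := fun k => f (D.T k)
  X := f D.X
  EE := fun a b => by
    rw [← map_mul, D.EE]
    split_ifs
    · rfl
    · rw [map_zero]
  TE := fun k l h a => by rw [← map_mul, D.TE k l h, map_mul]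
  T1 := fun k l h => by rw [← map_sum, ← map_mul, D.T1 k l h]
  Tq := fun k l h a => by
    have hQ : (P.map g).Q = g P.Q := by
      show ((P.q : L)) ^ P.e = g ((P.q : K) ^ P.e)
      rw [map_pow, map_natCast]
    rw [← map_mul, ← map_mul, D.Tq k l h, map_add, hf, hQ, map_inv₀]
    congr 1
    split_ifs
    · rw [hf, map_sub, map_one, map_inv₀, map_mul]
    · rw [map_zero]
  br := fun i j k h h' => by rw [← map_mul, ← map_mul, D.br i j k h h', map_mul, map_mul]
  cm := fun i j k l h h' h'' => by rw [← map_mul, D.cm i j k l h h' h'', map_mul]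
  XE := fun a => by rw [← map_mul, D.XE, map_mul]
  X1 := by rw [← map_sum, ← map_mul, D.X1]
  Xq := fun k h a => by
    have hr : ∀ y, (P.map g).r y = g (P.r y) := by
      intro y
      show g (P.w (lb y)) * ((sg y : ℤ) : L) * (P.q : L) ^ (P.j y) =
        g (P.w (lb y) * ((sg y : ℤ) : K) * (P.q : K) ^ (P.j y))
      rw [map_mul, map_mul, map_intCast, map_zpow₀, map_natCast]
    rw [← map_mul, ← map_mul, D.Xq k h, map_sub, hf, hf, hr, hr, map_add, map_mul, map_mul]
  XT := fun k l h h' => by rw [← map_mul, D.XT k l h h', map_mul]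
  Xb := fun k l h h' => by
    rw [← map_mul, ← map_mul, ← map_mul, D.Xb k l h h', map_mul, map_mul, map_mul]

end Algebra

section Group

variable {k K : Type} [Field k] [Field K] [Algebra k K] {G : Type} [Group G] {V : Type} [AddCommGroup V]
  [Module K V]

/-- the ring homomorphism of the group algebra over `k` -/
def ev (ρ : Representation K G V) : MonoidAlgebra k G →+* Module.End K V :=
  MonoidAlgebra.liftNCRingHom ((algebraMap K (Module.End K V)).comp (algebraMap k K))
    (ρ : G →* Module.End K V) (fun r g => Algebra.commute_algebraMap_left (algebraMap k K r) (ρ g))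

theorem ev_single (ρ : Representation K G V) (g : G) (r : k) :
    ev ρ (MonoidAlgebra.single g r) = (algebraMap k K r) • ρ g := by
  show MonoidAlgebra.liftNC _ _ _ = _
  rw [MonoidAlgebra.liftNC_single]
  show algebraMap K (Module.End K V) (algebraMap k K r) * ρ g = _
  rw [Algebra.smul_def]

theorem ev_smul (ρ : Representation K G V) (r : k) (x : MonoidAlgebra k G) :
    ev ρ (r • x) = (algebraMap k K r) • ev ρ x := by
  have h : r • x = MonoidAlgebra.single (1 : G) r * x := by
    rw [Algebra.smul_def]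
    rfl
  rw [h, map_mul, ev_single, map_one, smul_mul_assoc, one_mul]

/-- the elements are symmetric -/
structure Sy {P : Par k} {n : ℕ} (D : HA P n (MonoidAlgebra k G)) : Prop where
  E : ∀ a g, (D.E a).coeff g⁻¹ = (D.E a).coeff g
  T : ∀ i g, (D.T i).coeff g⁻¹ = (D.T i).coeff g
  X : ∀ g, D.X.coeff g⁻¹ = D.X.coeff g

/-- the operators on a representation -/
def HA.on {P : Par k} {n : ℕ} (D : HA P n (MonoidAlgebra k G)) (ρ : Representation K G V) :
    HA (P.map (algebraMap k K)) n (Module.End K V) :=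
  D.mapS (algebraMap k K) (ev ρ) (ev_smul ρ)

end Group

section Weights

variable {K : Type} [Field K] {V : Type} [AddCommGroup V] [Module K V] {P : Par K} {n : ℕ}

/-- the joint eigenspaces -/
def WtR (D : HA P n (Module.End K V)) (a : Fin n → Bool) (x : Fin n → K) : Submodule K V where
  carrier := {v | D.E a v = v ∧ ∀ k, D.J k v = x k • v}
  add_mem' := by
    rintro v w ⟨h1, h2⟩ ⟨h3, h4⟩
    refine ⟨by rw [map_add, h1, h3], fun k => ?_⟩
    rw [map_add, h2 k, h4 k, smul_add]
  zero_mem' := ⟨map_zero _, fun k => by rw [map_zero, smul_zero]⟩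
  smul_mem' := by
    rintro c v ⟨h1, h2⟩
    refine ⟨by rw [map_smul, h1], fun k => ?_⟩
    rw [map_smul, h2 k, smul_comm]

/-- the joint eigenspace of the sequence of boxes `β` -/
def Wt (D : HA P n (Module.End K V)) (β : Fin n → AO.Et) : Submodule K V :=
  WtR D (fun k => lb (β k).1) (fun k => P.x (β k))

/-- `v` is a seminormal basis of shape `F` -/
structure SN (D : HA P n (Module.End K V)) (F : AO.Et → ℤ) (v : (Fin n → AO.Et) → V) : Prop where
  ne : (SqT n F).Nonempty
  nz : ∀ β ∈ SqT n F, v β ≠ 0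
  wt : ∀ β ∈ SqT n F, v β ∈ Wt D β
  one : ∀ β ∈ SqT n F, ∀ k l : Fin n, (l : ℕ) = k + 1 → (β l).1 = (β k).1 → (β l).2 = (β k).2 + 1 →
    D.T k (v β) = v β
  neg : ∀ β ∈ SqT n F, ∀ k l : Fin n, (l : ℕ) = k + 1 → (β l).1 = (β k).1 → (β l).2 = (β k).2 - 1 →
    D.T k (v β) = - (P.Q⁻¹ • v β)
  up : ∀ β ∈ SqT n F, ∀ k l : Fin n, (l : ℕ) = k + 1 → Be (β k) (β l) →
    D.T k (v β) = ((P.al (β k) (β l) : ℚ) : K) • v β + v (sq β k l)

end Weights

end

end AO
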