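import Pool.Agent.AO.Defs
import Pool.Agent.LieP.A02
import Pool.Agent.LieP.Defs2

/-!
# MP_6c3636_al, AO (classical groups in odd characteristic): definitions, part 2 (helper7)

`BN G n`: the group `G` with the subgroup `U` (unipotent radical of a Borel subgroup), the torus `T`, the normal subgroup
`H`, the simple reflections `s 0` (end node; `s 0 = 1` is allowed) and `s i`, `i ≥ 1` (`s l` exchanges the coordinates
`l - 1` and `l`), the root subgroups `R i` and their complements `C i` in `U`, the characters `th a` of `T` with values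
`1`, `-1`, `a` a sequence of labels. Notation of the paper: `[g] = e g e` is `B.b g`.
-/

namespace AO

noncomputable section

open Classical Equiv

open AN (sq)

/-- the group generated by the simple reflections and the torus -/
def NN {G : Type} [Group G] {n : ℕ} (s : Fin n → G) (T : Subgroup G) : Subgroup G :=
  Subgroup.closure (Set.range s ∪ (T : Set G))

/-- the root subgroup `R` stays positive -/
def PO {G : Type} [Group G] (U R : Subgroup G) (m : G) : Prop := ∀ r ∈ R, m⁻¹ * r * m ∈ U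

/-- the sum of the values of a character at the torus elements of a root subgroup -/
def rsum {G : Type} [Group G] (R : Subgroup G) (h : G → G) (l : G → ℤˣ) : ℤ :=
  ∑ᶠ r : R, if (r : G) = 1 then 0 else ((l (h r) : ℤˣ) : ℤ)

/-- groups with a BN-pair -/
structure BN (G : Type) [Group G] (n : ℕ) where
  /-- the characteristic -/
  pc : ℕ
  /-- the unipotent radical -/
  U : Subgroup G
  /-- the torus -/
  T : Subgroup G
  /-- the normal subgroup -/
  H : Subgroup G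
  /-- the simple reflections -/
  s : Fin n → G
  /-- the complements of the root subgroups -/
  C : Fin n → Subgroup G
  /-- the root subgroups -/
  R : Fin n → Subgroup G
  /-- the torus elements of the root subgroups -/
  hh : Fin n → G → G
  /-- the characters of the torus -/
  th : (Fin n → Bool) → G → ℤˣ
  /-- all labels are allowed -/
  gd : Bool
  /-- the signs of the labels -/
  sn : Bool → ℤˣ
  /-- the values at the square of `s 0` -/
  ze : Bool → ℤˣ
  /-- the sums for the end node -/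
  su : Bool → ℤ
  /-- the element of the nu-case -/
  nt : G
  prime : pc.Prime
  odd : Odd pc
  pU : ∀ u ∈ U, ∃ k : ℕ, u ^ (pc ^ k) = 1
  hN : H.Normal
  UH : U ≤ H
  HT : ∀ g, ∃ h ∈ H, ∃ x ∈ T, g = h * x
  Tc : ∀ x ∈ T, ∀ y ∈ T, x * y = y * x
  TU : ∀ x ∈ T, ∀ u ∈ U, x * u * x⁻¹ ∈ U
  sT : ∀ i, ∀ x ∈ T, s i * x * (s i)⁻¹ ∈ T
  sT' : ∀ i, ∀ x ∈ T, (s i)⁻¹ * x * s i ∈ T
  s2 : ∀ i, s i * s i ∈ T
  s2o : ∀ i : Fin n, 0 < (i : ℕ) → s i * s i = 1
  CU : ∀ i, C i ≤ U
  RU : ∀ i, R i ≤ U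
  CR : ∀ i, ∀ u ∈ U, ∃ c ∈ C i, ∃ r ∈ R i, u = c * r
  CRd : ∀ i, ∀ r ∈ R i, r ∈ C i → r = 1
  sC : ∀ i, ∀ c ∈ C i, s i * c * (s i)⁻¹ ∈ U
  hT : ∀ i, ∀ r ∈ R i, r ≠ 1 → hh i r ∈ T
  hU : ∀ i, ∀ r ∈ R i, r ≠ 1 → ∃ u ∈ U, ∃ u' ∈ U, s i * r * s i = u * (s i * hh i r) * u'
  br : ∀ g, ∃ u ∈ U, ∃ m ∈ NN s T, ∃ u' ∈ U, g = u * m * u'
  di : ∀ m ∈ NN s T, ∀ i, PO U (R i) m ∨ PO U (R i) (s i * m)
  thm : ∀ a, ∀ x ∈ T, ∀ y ∈ T, th a (x * y) = th a x * th a y
  thd : ∀ a b, (∀ x ∈ T, th a x = th b x) → a = b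
  ths : ∀ k l : Fin n, (l : ℕ) = k + 1 → ∀ a, ∀ x ∈ T, th (sq a k l) (s l * x * (s l)⁻¹) = th a x
  th0 : ∀ k : Fin n, (k : ℕ) = 0 → ∀ a, ∀ x ∈ T, th a (s k * x * (s k)⁻¹) = th a x
  thn : ∀ a, ∀ x ∈ T, th (fun i => !(a i)) x = th a x * th (fun _ => true) x
  sn0 : sn false = 1
  sum : ∀ k l : Fin n, (l : ℕ) = k + 1 → ∀ a, rsum (R l) (hh l) (th a) =
    if a k = a l then ((sn (a k) : ℤˣ) : ℤ) * ((Nat.card (R l) : ℤ) - 1) else 0
  ez : ∀ k : Fin n, (k : ℕ) = 0 → ∀ a, th a (s k * s k) = ze (a k)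
  es : ∀ k : Fin n, (k : ℕ) = 0 → ∀ a, rsum (R k) (hh k) (th a) = su (a k)
  ze0 : ze false = 1
  ze1 : gd = true → ze true = 1
  ze2 : gd = false → ze true = -1 ∧ su true = 0 ∧ H = ⊤
  far : ∀ i j : Fin n, (i : ℕ) + 2 ≤ j → s i * s j = s j * s i ∧ PO U (R i) (s j) ∧ PO U (R j) (s i)
  adj : ∀ k l : Fin n, (l : ℕ) = k + 1 → 0 < (k : ℕ) → s k * s l * s k = s l * s k * s l ∧
    PO U (R k) (s l) ∧ PO U (R l) (s k) ∧ PO U (R k) (s l * s k) ∧ PO U (R l) (s k * s l)
  b2 : ∀ k l : Fin n, (k : ℕ) = 0 → (l : ℕ) = 1 → (s k = 1 ∧ R k = ⊥) ∨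
    (s k * s l * s k * s l = s l * s k * s l * s k ∧ PO U (R k) (s l) ∧ PO U (R l) (s k) ∧
      PO U (R k) (s l * s k) ∧ PO U (R l) (s k * s l) ∧ PO U (R k) (s l * s k * s l) ∧
      PO U (R l) (s k * s l * s k))
  ntN : ∀ k : Fin n, (k : ℕ) = 0 → ∃ x ∈ T, nt = s k * x
  ntH : nt ∈ H
  re : ∀ f : G → ℤˣ, (∀ x ∈ T ⊓ H, ∀ y ∈ T ⊓ H, f (x * y) = f x * f y) →
    (∃ a, ∀ x ∈ T ⊓ H, f x = th a x) ∨
      ∀ m ∈ NN s T, m ∈ H → ∃ x ∈ T ⊓ H, f (m⁻¹ * (nt⁻¹ * x * nt) * m) ≠ f (m⁻¹ * x * m)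
  tw : ∀ a b, (∀ x ∈ T ⊓ H, th a x = th b x) → b = a ∨ b = fun i => !(a i)

namespace BN

variable {G : Type} [Group G] {n : ℕ} (B : BN G n)

/-- the group generated by the simple reflections and the torus -/
def N : Subgroup G := NN B.s B.T

/-- the allowed sequences of labels -/
def good (a : Fin n → Bool) : Prop := B.gd = true ∨ ∀ k, a k = false

variable (k : Type) [Field k] [Finite G]

/-- the average of `U` -/
def e : LieP.Al k G := LieP.av k B.U

/-- the element `[g]` -/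
def b (g : G) : LieP.Al k G := B.e k * LieP.dl g * B.e k

/-- the idempotent of `U T` and the character `th a` -/
def E0 (a : Fin n → Bool) : LieP.Al k G := B.e k * LieP.el k B.T (B.th a)

/-- the idempotents of the allowed labels -/
def Eg (a : Fin n → Bool) : LieP.Al k G := if B.good a then B.E0 k a else 0

/-- the sign for the labels at `i`, `j` -/
def sgl (i j : Fin n) (a : Fin n → Bool) : k :=
  if a i = true ∧ a j = true then ((B.sn true : ℤˣ) : ℤ) else 1

/-- the element `T k`, for `l = k + 1` -/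
def Tg (i j : Fin n) : LieP.Al k G := ∑ a, B.sgl k i j a • (B.b k (B.s j) * B.Eg k a)

/-- the element `X` -/
def Xg : LieP.Al k G := ∑ a, ∑ i : Fin n, if (i : ℕ) = 0 then B.b k (B.s i) * B.Eg k a else 0

end BN

/-- the involution of the types which exchanges the labels -/
def dl2 (y : Ty) : Ty := y + 2

/-- the parameters `P` belong to the group -/
structure Fit {G : Type} [Group G] {n : ℕ} (B : BN G n) {k : Type} [Field k] (P : Par k) : Prop where
  card : ∀ l : Fin n, 0 < (l : ℕ) → Nat.card (B.R l) = P.q ^ P.e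
  sum : ∀ b : Bool, (b = false ∨ B.gd = true) → ∀ i : Fin n, (i : ℕ) = 0 →
    (Nat.card (B.R i) : k) * (P.r (yp b) + P.r (yn b)) = (B.su b : k)
  prod : ∀ b : Bool, (b = false ∨ B.gd = true) → ∀ i : Fin n, (i : ℕ) = 0 →
    (Nat.card (B.R i) : k) * (P.r (yp b) * P.r (yn b)) = -1
  half : (∃ x ∈ B.T ⊓ B.H, B.th (fun _ => true) x ≠ 1) ∨
    ∃ la : G →* ℤˣ, (∀ h ∈ B.H, la h = 1) ∧ (∀ x ∈ B.T, la x = B.th (fun _ => true) x) ∧
      ∀ (y : Ty) (i : Fin n), (i : ℕ) = 0 → P.r (dl2 y) = (((la (B.s i) : ℤˣ) : ℤ) : k) * P.r y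

/-- the operators `D` are those of the group -/
structure Dg {G : Type} [Group G] [Finite G] {n : ℕ} (B : BN G n) {k : Type} [Field k] (P : Par k)
    (D : HA P n (MonoidAlgebra k G)) : Prop where
  E : ∀ a, D.E a = B.Eg k a
  T : ∀ i j : Fin n, (j : ℕ) = i + 1 → D.T i = B.Tg k i j
  T0 : ∀ i : Fin n, (i : ℕ) + 1 = n → D.T i = 0
  X : D.X = B.Xg k

section Reps

variable {Ω : Type} [Field Ω] {G : Type} [Group G] [Finite G] {V : Type} [AddCommGroup V] [Module Ω V]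

/-- the projection on the fixed points of the subgroup `U` -/
def eU (U : Subgroup G) (ρ : Representation Ω G V) : Module.End Ω V :=
  Parker.act ρ (fun g => if g ∈ U then (Nat.card U : Ω)⁻¹ else 0)

end Reps

namespace BN

variable {Ω : Type} [Field Ω] {G : Type} [Group G] [Finite G] {n : ℕ} (B : BN G n) {V : Type}
  [AddCommGroup V] [Module Ω V]

/-- the projection on the fixed points of `U` in a representation of `H` -/
def eH (ρ : Representation Ω B.H V) : Module.End Ω V := eU (B.U.subgroupOf B.H) ρ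

/-- the weight spaces of a representation of `H` -/
def wt (ρ : Representation Ω B.H V) (f : G → Ω) : Submodule Ω V where
  carrier := {v | B.eH ρ v = v ∧ ∀ x (hx : x ∈ B.H), x ∈ B.T → ρ ⟨x, hx⟩ v = f x • v}
  add_mem' := by
    rintro v w ⟨h1, h2⟩ ⟨h3, h4⟩
    refine ⟨by rw [map_add, h1, h3], fun x hx hT => ?_⟩
    rw [map_add, h2 x hx hT, h4 x hx hT, smul_add]
  zero_mem' := ⟨map_zero _, fun x hx _ => by rw [map_zero, smul_zero]⟩
  smul_mem' := by
    rintro r v ⟨h1, h2⟩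
    refine ⟨by rw [map_smul, h1], fun x hx hT => ?_⟩
    rw [map_smul, h2 x hx hT, smul_comm]

end BN

end

end AO
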