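import Pool.Agent.AO.M01

/-!
# MP_6c3636_al, AO, module M03: monomial matrices (helper7)

Direct computations with `mo_apply`. `mo_conj`: `(m⁻¹ * g * m) i j = (c i)⁻¹ * g (w i) (w j) * c j`. `mo_det`: `mo w c` is the product of the permutation matrix (`Matrix.det_permutation` or `Equiv.Perm.permMatrix`) and a diagonal matrix. `mo_IG`: the entry `(x, y)` of `(σ m)ᵀ J m` is `σ (c x) * J (w x) (w y) * c y`. `conj_Up`: entries by `mo_conj`.
-/

namespace AO.MG

noncomputable section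

open Classical Equiv Matrix

open AN (sq)

variable {ι : Type} [Fintype ι] [DecidableEq ι] {F : Type} [Field F]

theorem mo_apply (w : Perm ι) (c : ι → Fˣ) (i j : ι) :
    (mo w c : Matrix ι ι F) i j = if i = w j then (c j : F) else 0 := by
  rfl

private theorem mo_inv_apply (w : Perm ι) (c : ι → Fˣ) (i j : ι) :
    (((mo w c)⁻¹ : GL ι F) : Matrix ι ι F) i j = if w i = j then (((c i)⁻¹ : Fˣ) : F) else 0 := by
  rfl

private theorem mul_mo (w : Perm ι) (c : ι → Fˣ) (A : Matrix ι ι F) (i j : ι) :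
    (A * (mo w c : Matrix ι ι F)) i j = A i (w j) * (c j : F) := by
  rw [Matrix.mul_apply, Finset.sum_eq_single (w j)]
  · rw [mo_apply, if_pos rfl]
  · intro k _ hk
    rw [mo_apply, if_neg hk, mul_zero]
  · exact fun h => absurd (Finset.mem_univ _) h

private theorem mo_inv_mul (w : Perm ι) (c : ι → Fˣ) (A : Matrix ι ι F) (i j : ι) :
    ((((mo w c)⁻¹ : GL ι F) : Matrix ι ι F) * A) i j = (((c i)⁻¹ : Fˣ) : F) * A (w i) j := by
  rw [Matrix.mul_apply, Finset.sum_eq_single (w i)]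
  · rw [mo_inv_apply, if_pos rfl]
  · intro k _ hk
    rw [mo_inv_apply, if_neg (fun h => hk h.symm), zero_mul]
  · exact fun h => absurd (Finset.mem_univ _) h

private theorem mo_mul' (w : Perm ι) (c : ι → Fˣ) (A : Matrix ι ι F) (i j : ι) :
    ((mo w c : Matrix ι ι F) * A) (w i) j = (c i : F) * A i j := by
  rw [Matrix.mul_apply, Finset.sum_eq_single i]
  · rw [mo_apply, if_pos rfl]
  · intro k _ hk
    rw [mo_apply, if_neg (fun h => hk (w.injective h).symm), zero_mul]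
  · exact fun h => absurd (Finset.mem_univ _) h

private theorem tr_mul (σ : F ≃+* F) (w : Perm ι) (c : ι → Fˣ) (A : Matrix ι ι F) (i j : ι) :
    (((mo w c : Matrix ι ι F).map σ)ᵀ * A) i j = σ (c i : F) * A (w i) j := by
  rw [Matrix.mul_apply, Finset.sum_eq_single (w i)]
  · rw [Matrix.transpose_apply, Matrix.map_apply, mo_apply, if_pos rfl]
  · intro k _ hk
    rw [Matrix.transpose_apply, Matrix.map_apply, mo_apply, if_neg hk, map_zero, zero_mul]
  · exact fun h => absurd (Finset.mem_univ _) h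

private theorem mul_mo_inv (w : Perm ι) (c : ι → Fˣ) (A : Matrix ι ι F) (i j : ι) :
    (A * (((mo w c)⁻¹ : GL ι F) : Matrix ι ι F)) i (w j) = A i j * (((c j)⁻¹ : Fˣ) : F) := by
  rw [Matrix.mul_apply, Finset.sum_eq_single j]
  · rw [mo_inv_apply, if_pos rfl]
  · intro k _ hk
    rw [mo_inv_apply, if_neg (fun h => hk (w.injective h)), mul_zero]
  · exact fun h => absurd (Finset.mem_univ _) h

theorem mo_mul (w w' : Perm ι) (c c' : ι → Fˣ) :
    mo w c * mo w' c' = mo (w * w') (fun j => c (w' j) * c' j) := by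
  refine Units.ext (Matrix.ext fun i j => ?_)
  rw [Units.val_mul, mul_mo, mo_apply, mo_apply, Perm.mul_apply]
  by_cases h : i = w (w' j)
  · rw [if_pos h, if_pos h, Units.val_mul]
  · rw [if_neg h, if_neg h, zero_mul]

theorem mo_one : (mo 1 1 : GL ι F) = 1 := by
  refine Units.ext (Matrix.ext fun i j => ?_)
  rw [mo_apply, Units.val_one, Perm.one_apply]
  by_cases h : i = j
  · rw [if_pos h, h, Matrix.one_apply_eq, Pi.one_apply, Units.val_one]
  · rw [if_neg h, Matrix.one_apply_ne h]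

theorem mo_inv (w : Perm ι) (c : ι → Fˣ) : (mo w c)⁻¹ = mo w⁻¹ (fun j => (c (w⁻¹ j))⁻¹) := by
  refine Units.ext (Matrix.ext fun i j => ?_)
  rw [mo_inv_apply, mo_apply]
  by_cases h : w i = j
  · have h' : w⁻¹ j = i := by rw [← h]; exact w.symm_apply_apply i
    rw [if_pos h, if_pos h'.symm, h']
  · have h' : ¬ i = w⁻¹ j := fun h1 => h (by rw [h1]; exact w.apply_symm_apply j)
    rw [if_neg h, if_neg h']

theorem mo_inj {w w' : Perm ι} {c c' : ι → Fˣ} (h : mo w c = mo w' c') : w = w' ∧ c = c' := by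
  have h1 : ∀ i j, (if i = w j then (c j : F) else 0) = if i = w' j then (c' j : F) else 0 := by
    intro i j
    rw [← mo_apply, ← mo_apply, h]
  have h2 : ∀ j, w j = w' j := by
    intro j
    by_contra h3
    have h4 := h1 (w j) j
    rw [if_pos rfl, if_neg h3] at h4
    exact (c j).ne_zero h4
  refine ⟨Equiv.ext h2, funext fun j => Units.ext ?_⟩
  have h4 := h1 (w j) j
  rw [if_pos rfl, if_pos (h2 j)] at h4
  exact h4

theorem mo_DG (c : ι → Fˣ) : mo 1 c ∈ DG ι F := by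
  refine mem_DG.2 fun i j hij => ?_
  rw [mo_apply, Perm.one_apply, if_neg hij]

theorem DG_mo {g : GL ι F} (hg : g ∈ DG ι F) : ∃ c : ι → Fˣ, g = mo 1 c := by
  refine ⟨fun i => Units.mk0 ((g : Matrix ι ι F) i i) (DG_ne hg i), ?_⟩
  refine Units.ext (Matrix.ext fun i j => ?_)
  rw [mo_apply, Perm.one_apply]
  by_cases h : i = j
  · rw [if_pos h, h, Units.val_mk0]
  · rw [if_neg h, mem_DG.1 hg i j h]

theorem mo_conj (w : Perm ι) (c : ι → Fˣ) (g : GL ι F) (i j : ι) :
    (((mo w c)⁻¹ * g * mo w c : GL ι F) : Matrix ι ι F) i j =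
      ((c i)⁻¹ : Fˣ) * (g : Matrix ι ι F) (w i) (w j) * c j := by
  rw [Units.val_mul, Units.val_mul, mul_mo, mo_inv_mul]

theorem mo_conj' (w : Perm ι) (c : ι → Fˣ) (g : GL ι F) (i j : ι) :
    ((mo w c * g * (mo w c)⁻¹ : GL ι F) : Matrix ι ι F) (w i) (w j) =
      (c i : F) * (g : Matrix ι ι F) i j * ((c j)⁻¹ : Fˣ) := by
  rw [Units.val_mul, Units.val_mul, mul_mo_inv, mo_mul']

theorem mo_conj_DG (w : Perm ι) (c : ι → Fˣ) {t : GL ι F} (ht : t ∈ DG ι F) :
    mo w c * t * (mo w c)⁻¹ ∈ DG ι F ∧ (mo w c)⁻¹ * t * mo w c ∈ DG ι F := by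
  have h1 := mem_DG.1 ht
  refine ⟨mem_DG.2 fun i j hij => ?_, mem_DG.2 fun i j hij => ?_⟩
  · have h2 := mo_conj' w c t (w.symm i) (w.symm j)
    rw [w.apply_symm_apply, w.apply_symm_apply,
      h1 _ _ (fun h => hij (w.symm.injective h)), mul_zero, zero_mul] at h2
    exact h2
  · rw [mo_conj, h1 _ _ (fun h => hij (w.injective h)), mul_zero, zero_mul]

theorem mo_det (w : Perm ι) (c : ι → Fˣ) :
    (mo w c : Matrix ι ι F).det = ((Equiv.Perm.sign w : ℤˣ) : ℤ) * ∏ i, (c i : F) := by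
  rw [Matrix.det_apply', Finset.sum_eq_single w]
  · refine congrArg _ (Finset.prod_congr rfl fun i _ => ?_)
    rw [mo_apply, if_pos rfl]
  · intro v _ hv
    obtain ⟨i, hi⟩ : ∃ i, v i ≠ w i := by
      by_contra h
      push Not at h
      exact hv (Equiv.ext h)
    rw [Finset.prod_eq_zero (Finset.mem_univ i), mul_zero]
    rw [mo_apply, if_neg hi]
  · exact fun h => absurd (Finset.mem_univ _) h

theorem mo_TW [Finite F] {τ : F ≃+* F} {π : Perm ι} {w : Perm ι} {c : ι → Fˣ}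
    (hw : ∀ x, w (π x) = π (w x)) (hc : ∀ x, (c (π x) : F) = τ (c x : F)) : mo w c ∈ TW τ π := by
  refine mem_TW.2 fun i j => ?_
  rw [mo_apply, mo_apply, hw, hc]
  by_cases h : i = w j
  · rw [if_pos h, if_pos (congrArg π h)]
  · rw [if_neg h, if_neg (fun h' => h (π.injective h')), map_zero]

private theorem mo_IG' {σ : F ≃+* F} {d : ι → Fˣ} {δ : Perm ι} {w : Perm ι} {c : ι → Fˣ}
    {J : Matrix ι ι F} (hJ : ∀ x y, J x y = if y = δ x then (d x : F) else 0)
    (hw : ∀ x, w (δ x) = δ (w x)) (hc : ∀ x, σ (c x : F) * (d (w x) : F) * (c (δ x) : F) = (d x : F)) :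
    mo w c ∈ IG J σ := by
  refine mem_IG.2 (Matrix.ext fun x y => ?_)
  rw [mul_mo, tr_mul, hJ, hJ, ← hw]
  by_cases h : y = δ x
  · rw [if_pos h, if_pos (congrArg w h), h, hc]
  · rw [if_neg h, if_neg (fun h' => h (w.injective h')), mul_zero, zero_mul]

theorem mo_IG {σ : F ≃+* F} {d : ι → Fˣ} {δ : Perm ι} {w : Perm ι} {c : ι → Fˣ}
    (hw : ∀ x, w (δ x) = δ (w x)) (hc : ∀ x, σ (c x : F) * (d (w x) : F) * (c (δ x) : F) = (d x : F)) :
    mo w c ∈ IG (fun x y => if y = δ x then (d x : F) else 0) σ := by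
  exact mo_IG' (fun _ _ => rfl) hw hc

theorem conj_Up {w : Perm ι} {c : ι → Fˣ} {g : GL ι F} {S S' : ι → ι → Prop}
    (hg : ∀ i j, ¬ S i j → (g : Matrix ι ι F) i j = (1 : Matrix ι ι F) i j)
    (h : ∀ i j, S (w i) (w j) → S' i j) :
    ∀ i j, ¬ S' i j → (((mo w c)⁻¹ * g * mo w c : GL ι F) : Matrix ι ι F) i j =
      (1 : Matrix ι ι F) i j := by
  intro i j hij
  rw [mo_conj, hg _ _ (fun h' => hij (h i j h'))]
  by_cases h1 : i = j
  · rw [h1, Matrix.one_apply_eq, Matrix.one_apply_eq, mul_one, ← Units.val_mul, inv_mul_cancel,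
      Units.val_one]
  · rw [Matrix.one_apply_ne h1, Matrix.one_apply_ne (fun h' => h1 (w.injective h')), mul_zero, zero_mul]

end

end AO.MG
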