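import Pool.Agent.AO.M01
import Pool.Agent.AO.M03

/-!
# MP_6c3636_al, AO, module F01: isometry groups: basic facts (helper7)

Direct computations. `c_du`: cases (`ep2`, `cms`). `B_*`: sums over the indices, `Finset.sum_eq_single`. `B_symm`: `B w v = ∑ c x σ(w x) v(du x)`, reindex by `du` and `c_du`, `ss`. `IG_iff`: the entry `(x, y)` of `(σ g)ᵀ J g` is `B (mv g (sv x)) (mv g (sv y))`; `B` is additive in both arguments and semilinear. `nondeg`: `B v (sv x) = c (du x) * σ (v (du x))`. `inv_apply`: `g⁻¹ x y * (..) = B (sv (du x)) (mv g⁻¹ (sv y)) = B (mv g (sv (du x))) (sv y)`. `so_det`: by definition of `G`. `mv_tw`: entries of `g` (`TwM`). `tau_J`: `τ` fixes the entries of `J` (`ep2`, `cmt`).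
-/

namespace AO.MG

noncomputable section

open Classical Equiv Matrix

open AN (sq)

variable {n a : ℕ} {F : Type} [Field F] [Finite F] {D : FD n a F}

theorem mv_apply (g : GL (Ix n a) F) (x y : Ix n a) :
    mv g (sv y) x = (g : Matrix (Ix n a) (Ix n a) F) x y := by
  unfold mv sv
  rw [Matrix.mulVec_single_one]
  rfl

theorem mv_mul (g h : GL (Ix n a) F) (v : Ix n a → F) : mv (g * h) v = mv g (mv h v) := by
  unfold mv
  rw [Units.val_mul, Matrix.mulVec_mulVec]

theorem mv_one (v : Ix n a → F) : mv (1 : GL (Ix n a) F) v = v := by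
  unfold mv
  rw [Units.val_one, Matrix.one_mulVec]

theorem mv_inv (g : GL (Ix n a) F) (v : Ix n a → F) : mv g⁻¹ (mv g v) = v := by
  rw [← mv_mul, inv_mul_cancel, mv_one]

theorem mv_add (g : GL (Ix n a) F) (v w : Ix n a → F) : mv g (v + w) = mv g v + mv g w := by
  unfold mv
  rw [Matrix.mulVec_add]

theorem mv_smul (g : GL (Ix n a) F) (c : F) (v : Ix n a → F) : mv g (c • v) = c • mv g v := by
  unfold mv
  rw [Matrix.mulVec_smul]

theorem mv_ext {g h : GL (Ix n a) F} (H : ∀ x, mv g (sv x) = mv h (sv x)) : g = h := by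
  apply Units.ext
  ext i j
  rw [← mv_apply, ← mv_apply, H]

theorem mv_sum (g : GL (Ix n a) F) (v : Ix n a → F) (x : Ix n a) :
    mv g v x = ∑ y, (g : Matrix (Ix n a) (Ix n a) F) x y * v y := rfl

theorem du_du (x : Ix n a) : du (du x) = x := by
  rcases x with ⟨i, b⟩ | j
  · cases b <;> rfl
  · exact congrArg Sum.inr (Fin.rev_rev j)

theorem rk_du (x : Ix n a) : rk (du x) = - rk x := by
  rcases x with ⟨i, b⟩ | j
  · cases b
    · show ((i : ℕ) : ℤ) + 1 = - -(((i : ℕ) : ℤ) + 1)
      rw [neg_neg]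
    · rfl
  · rfl

theorem yl_du (l : ℕ) (x : Ix n a) : yl l (du x) = - yl l x := by
  rcases x with ⟨i, b⟩ | j
  · cases b
    · show lv l i = - -(lv l i)
      rw [neg_neg]
    · rfl
  · rfl

theorem rk_pm (x : Ix n a) : rk (pm x) = rk x := by
  rcases x with p | j
  · rfl
  · rfl

theorem yl_pm (l : ℕ) (x : Ix n a) : yl l (pm x) = yl l x := by
  rcases x with p | j
  · rfl
  · rfl

theorem du_pm (x : Ix n a) : du (pm x) = pm (du x) := by
  rcases x with ⟨i, b⟩ | j
  · rfl
  · rfl

theorem c_du (x : Ix n a) : (D.c (du x) : F) = D.ep * D.σ (D.c x : F) := by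
  rcases x with ⟨i, b⟩ | j
  · cases b
    · show (D.ep : F) = D.ep * D.σ ((1 : Fˣ) : F)
      rw [Units.val_one, map_one, mul_one]
    · show ((1 : Fˣ) : F) = D.ep * D.σ (D.ep : F)
      rcases D.ep2 with h | h
      · rw [h, Units.val_one, map_one, mul_one]
      · rw [h, Units.val_neg, Units.val_one, map_neg, map_one, neg_mul_neg, mul_one]
  · exact (D.cms (lt_of_le_of_lt (Nat.zero_le _) j.2)).symm

theorem c_pm (x : Ix n a) : D.c (pm x) = D.c x := by
  rcases x with p | j
  · rfl
  · rfl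

theorem tau_c (x : Ix n a) : D.τ (D.c x : F) = D.c x := by
  rcases x with ⟨i, b⟩ | j
  · cases b
    · show D.τ ((1 : Fˣ) : F) = ((1 : Fˣ) : F)
      rw [Units.val_one, map_one]
    · show D.τ (D.ep : F) = D.ep
      rcases D.ep2 with h | h
      · rw [h, Units.val_one, map_one]
      · rw [h, Units.val_neg, Units.val_one, map_neg, map_one]
  · exact D.cmt

theorem sig_ep : D.σ (D.ep : F) = D.ep := by
  rcases D.ep2 with h | h
  · rw [h, Units.val_one, map_one]
  · rw [h, Units.val_neg, Units.val_one, map_neg, map_one]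

theorem ep_sq : (D.ep : F) * D.ep = 1 := by
  rcases D.ep2 with h | h
  · rw [h, Units.val_one, mul_one]
  · rw [h, Units.val_neg, Units.val_one, neg_mul_neg, mul_one]

theorem mem_G {g : GL (Ix n a) F} : g ∈ D.G ↔ g ∈ IG D.J D.σ ∧
    TwM D.τ pm (g : Matrix (Ix n a) (Ix n a) F) ∧
    (D.so = true → (g : Matrix (Ix n a) (Ix n a) F).det = 1) := by
  unfold FD.G
  rw [Subgroup.mem_inf, Subgroup.mem_inf, mem_TW, and_assoc]
  refine and_congr_right fun _ => and_congr_right fun _ => ?_
  by_cases h : D.so = true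
  · rw [if_pos h, mem_DT]
    exact ⟨fun h' _ => h', fun h' => h' h⟩
  · rw [if_neg h]
    exact ⟨fun _ h' => absurd h' h, fun _ => Subgroup.mem_top _⟩

theorem B_add_left (v v' w : Ix n a → F) : D.B (v + v') w = D.B v w + D.B v' w := by
  unfold FD.B
  rw [← Finset.sum_add_distrib]
  refine Finset.sum_congr rfl fun x _ => ?_
  rw [Pi.add_apply, map_add, mul_add, add_mul]

theorem B_add_right (v w w' : Ix n a → F) : D.B v (w + w') = D.B v w + D.B v w' := by
  unfold FD.B
  rw [← Finset.sum_add_distrib]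
  refine Finset.sum_congr rfl fun x _ => ?_
  rw [Pi.add_apply, mul_add]

theorem B_smul_left (c : F) (v w : Ix n a → F) : D.B (c • v) w = D.σ c * D.B v w := by
  unfold FD.B
  rw [Finset.mul_sum]
  refine Finset.sum_congr rfl fun x _ => ?_
  rw [Pi.smul_apply, smul_eq_mul, map_mul]
  ring

theorem B_smul_right (c : F) (v w : Ix n a → F) : D.B v (c • w) = c * D.B v w := by
  unfold FD.B
  rw [Finset.mul_sum]
  refine Finset.sum_congr rfl fun x _ => ?_
  rw [Pi.smul_apply, smul_eq_mul]
  ring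

theorem B_symm (v w : Ix n a → F) : D.B w v = D.ep * D.σ (D.B v w) := by
  unfold FD.B
  rw [map_sum, Finset.mul_sum, ← Equiv.sum_comp du]
  refine Finset.sum_congr rfl fun x _ => ?_
  rw [map_mul, map_mul, D.ss, du_du, c_du]
  ring

theorem B_sv_left (x : Ix n a) (w : Ix n a → F) : D.B (sv x) w = D.c x * w (du x) := by
  unfold FD.B sv
  rw [Finset.sum_eq_single x]
  · rw [Pi.single_eq_same, map_one, mul_one]
  · intro y _ hy
    rw [Pi.single_eq_of_ne hy, map_zero, mul_zero, zero_mul]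
  · exact fun h => absurd (Finset.mem_univ _) h

theorem B_sv_right (v : Ix n a → F) (x : Ix n a) : D.B v (sv x) = D.c (du x) * D.σ (v (du x)) := by
  unfold FD.B sv
  rw [Finset.sum_eq_single (du x)]
  · rw [du_du, Pi.single_eq_same, mul_one]
  · intro y _ hy
    rw [Pi.single_eq_of_ne (fun h => hy (by rw [← h, du_du])), mul_zero]
  · exact fun h => absurd (Finset.mem_univ _) h

theorem nondeg {v : Ix n a → F} (h : ∀ x, D.B v (sv x) = 0) : v = 0 := by
  funext x
  have h1 := h (du x)
  rw [B_sv_right, du_du, mul_eq_zero] at h1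
  rcases h1 with h1 | h1
  · exact absurd h1 (Units.ne_zero _)
  · exact (map_eq_zero D.σ).1 h1

theorem B_tau {v w : Ix n a → F} (hv : ∀ x, v (pm x) = D.τ (v x)) (hw : ∀ x, w (pm x) = D.τ (w x)) :
    D.τ (D.B v w) = D.B v w := by
  unfold FD.B
  rw [map_sum]
  rw [← Equiv.sum_comp (pm (n := n) (a := a)) (fun x => (D.c x : F) * D.σ (v x) * w (du x))]
  refine Finset.sum_congr rfl fun x _ => ?_
  rw [map_mul, map_mul, tau_c, ← D.st, ← hv, ← hw, c_pm, du_pm]

private theorem J_sum (v w : Ix n a → F) : D.B v w = ∑ x, ∑ y, D.σ (v x) * D.J x y * w y := by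
  unfold FD.B FD.J
  refine Finset.sum_congr rfl fun x _ => ?_
  rw [Finset.sum_eq_single (du x)]
  · rw [if_pos rfl]
    ring
  · intro y _ hy
    rw [if_neg hy, mul_zero, zero_mul]
  · exact fun h => absurd (Finset.mem_univ _) h

private theorem J_entry (g : GL (Ix n a) F) (x y : Ix n a) :
    (((g : Matrix (Ix n a) (Ix n a) F).map D.σ)ᵀ * D.J * (g : Matrix (Ix n a) (Ix n a) F)) x y =
      D.B (mv g (sv x)) (mv g (sv y)) := by
  rw [J_sum, Matrix.mul_apply, Finset.sum_comm]
  refine Finset.sum_congr rfl fun z _ => ?_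
  rw [Matrix.mul_apply, Finset.sum_mul]
  refine Finset.sum_congr rfl fun z' _ => ?_
  rw [mv_apply, mv_apply]
  rfl

private theorem J_one (x y : Ix n a) : D.J x y = D.B (sv x) (sv y) := by
  rw [B_sv_left]
  unfold FD.J sv
  by_cases h : y = du x
  · rw [if_pos h, h, Pi.single_eq_same, mul_one]
  · rw [if_neg h, Pi.single_eq_of_ne (fun h' => h h'.symm), mul_zero]

private theorem sv_sum (v : Ix n a → F) : v = ∑ x, v x • sv x := by
  funext y
  rw [Finset.sum_apply, Finset.sum_eq_single y]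
  · rw [Pi.smul_apply]
    unfold sv
    rw [Pi.single_eq_same, smul_eq_mul, mul_one]
  · intro x _ hx
    rw [Pi.smul_apply]
    unfold sv
    rw [Pi.single_eq_of_ne hx.symm, smul_zero]
  · exact fun h => absurd (Finset.mem_univ _) h

private theorem B_sum_left {α : Type} (s : Finset α) (f : α → Ix n a → F) (w : Ix n a → F) :
    D.B (∑ x ∈ s, f x) w = ∑ x ∈ s, D.B (f x) w := by
  classical
  induction s using Finset.induction_on with
  | empty =>
    rw [Finset.sum_empty, Finset.sum_empty]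
    have h := B_smul_left (D := D) 0 0 w
    rwa [map_zero, zero_mul, zero_smul] at h
  | insert x s hx ih => rw [Finset.sum_insert hx, Finset.sum_insert hx, B_add_left, ih]

private theorem B_sum_right {α : Type} (s : Finset α) (f : α → Ix n a → F) (v : Ix n a → F) :
    D.B v (∑ x ∈ s, f x) = ∑ x ∈ s, D.B v (f x) := by
  classical
  induction s using Finset.induction_on with
  | empty =>
    rw [Finset.sum_empty, Finset.sum_empty]
    have h := B_smul_right (D := D) 0 v 0
    rwa [zero_mul, zero_smul] at h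
  | insert x s hx ih => rw [Finset.sum_insert hx, Finset.sum_insert hx, B_add_right, ih]

private theorem mv_sum_right {α : Type} (g : GL (Ix n a) F) (s : Finset α) (f : α → Ix n a → F) :
    mv g (∑ x ∈ s, f x) = ∑ x ∈ s, mv g (f x) := by
  classical
  induction s using Finset.induction_on with
  | empty =>
    rw [Finset.sum_empty, Finset.sum_empty]
    have h := mv_smul g 0 0
    rwa [zero_smul, zero_smul] at h
  | insert x s hx ih => rw [Finset.sum_insert hx, Finset.sum_insert hx, mv_add, ih]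

private theorem IG_sv_aux {g : GL (Ix n a) F} : g ∈ IG D.J D.σ ↔
    ∀ x y, D.B (mv g (sv x)) (mv g (sv y)) = D.B (sv x) (sv y) := by
  rw [mem_IG]
  constructor
  · intro h x y
    rw [← J_entry, h, J_one]
  · intro h
    ext x y
    rw [J_entry, h, J_one]

theorem IG_iff {g : GL (Ix n a) F} : g ∈ IG D.J D.σ ↔ ∀ v w, D.B (mv g v) (mv g w) = D.B v w := by
  rw [IG_sv_aux]
  constructor
  · intro h v w
    rw [sv_sum v, sv_sum w, mv_sum_right, mv_sum_right, B_sum_left, B_sum_left]
    refine Finset.sum_congr rfl fun x _ => ?_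
    rw [B_sum_right, B_sum_right]
    refine Finset.sum_congr rfl fun y _ => ?_
    rw [mv_smul, mv_smul, B_smul_left, B_smul_left, B_smul_right, B_smul_right, h]
  · exact fun h x y => h _ _

theorem IG_iff_sv {g : GL (Ix n a) F} : g ∈ IG D.J D.σ ↔
    ∀ x y, D.B (mv g (sv x)) (mv g (sv y)) = D.B (sv x) (sv y) :=
  IG_sv_aux

theorem B_mv {g : GL (Ix n a) F} (hg : g ∈ D.G) (v w : Ix n a → F) :
    D.B (mv g v) (mv g w) = D.B v w :=
  IG_iff.1 (mem_G.1 hg).1 v w

theorem mv_tw {g : GL (Ix n a) F} (hg : g ∈ D.G) {v : Ix n a → F} (hv : ∀ x, v (pm x) = D.τ (v x)) :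
    ∀ x, mv g v (pm x) = D.τ (mv g v x) := by
  intro x
  have h1 := (mem_G.1 hg).2.1
  rw [mv_sum, mv_sum, map_sum, ← Equiv.sum_comp pm]
  refine Finset.sum_congr rfl fun y _ => ?_
  rw [h1, hv, map_mul]

theorem sv_tw (i : Fin n) : (∀ x, (sv (ei i) : Ix n a → F) (pm x) = D.τ (sv (ei i) x)) ∧
    ∀ x, (sv (fi i) : Ix n a → F) (pm x) = D.τ (sv (fi i) x) := by
  have h : ∀ (z : Ix n a), pm z = z → ∀ x, (sv z : Ix n a → F) (pm x) = D.τ (sv z x) := by
    intro z hz x
    unfold sv
    by_cases hx : x = z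
    · rw [hx, hz, Pi.single_eq_same, map_one]
    · rw [Pi.single_eq_of_ne hx, Pi.single_eq_of_ne (fun h => hx (pm.injective (by rw [h, hz]))),
        map_zero]
  exact ⟨h _ rfl, h _ rfl⟩

theorem inv_apply {g : GL (Ix n a) F} (hg : g ∈ D.G) (x y : Ix n a) :
    ((g⁻¹ : GL (Ix n a) F) : Matrix (Ix n a) (Ix n a) F) x y =
      (D.c (du x) : F)⁻¹ * D.σ ((g : Matrix (Ix n a) (Ix n a) F) (du y) (du x)) * D.c (du y) := by
  have h1 : D.B (sv (du x)) (mv g⁻¹ (sv y)) = D.B (mv g (sv (du x))) (sv y) := by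
    rw [← B_mv hg (sv (du x)) (mv g⁻¹ (sv y)), ← mv_mul, mul_inv_cancel, mv_one]
  rw [B_sv_left, B_sv_right, du_du, mv_apply, mv_apply] at h1
  have h2 : (D.c (du x) : F) ≠ 0 := Units.ne_zero _
  rw [mul_assoc, eq_inv_mul_iff_mul_eq₀ h2, h1, mul_comm]

end

end AO.MG
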