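import Pool.Agent.AO.M01

/-!
# MP_6c3636_al, AO, module M02: Levi decomposition (helper7)

As in LieP/I11.lean (there `y` has real values and decreasing order; here `PbM y A`: `A i j = 0` if `y j < y i`). `bp_mul`: `(A B) i j` with `y i = y j`: `A i k * B k j ≠ 0` needs `y i ≤ y k ≤ y j`. `lev_coe`: `bp g * bp g⁻¹ = bp 1 = 1` (`inv_Pb`). `lev_split`: `v = (lev y g)⁻¹ * g` has `bp v = 1` and `PbM y v`. `lev_IG`: the `(i, j)` entry of `(σ (bp g))ᵀ J (bp g)` is `∑ k l, σ (bp g k i) * J k l * bp g l j`. If `y j ≠ - y i` all terms are `0` (`y k = y i`, `y l = y j`, `y l = - y k`), and `J i j = 0`. If `y j = - y i` then a term `σ (g k i) * J k l * g l j ≠ 0` has `y k ≤ y i`, `y l ≤ y j`, `y l = - y k ≥ - y i = y j`, so `y l = y j`, `y k = y i`: it is the same sum as for `g`. `lev_TW`: entries. `lev_det`: `g = lev y g * v`, `det v = 1` (`det_GS`).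
-/

namespace AO.MG

noncomputable section

open Classical Equiv Matrix

open AN (sq)

variable {ι : Type} [Fintype ι] [DecidableEq ι] {F : Type} [Field F]

/-- the block diagonal part -/
def bp (y : ι → ℤ) (A : Matrix ι ι F) : Matrix ι ι F := fun i j => if y i = y j then A i j else 0

/-- the Levi part -/
def lev (y : ι → ℤ) (g : GL ι F) : GL ι F :=
  if h : bp y (g : Matrix ι ι F) * bp y ((g⁻¹ : GL ι F) : Matrix ι ι F) = 1 ∧
      bp y ((g⁻¹ : GL ι F) : Matrix ι ι F) * bp y (g : Matrix ι ι F) = 1 then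
    ⟨bp y (g : Matrix ι ι F), bp y ((g⁻¹ : GL ι F) : Matrix ι ι F), h.1, h.2⟩ else 1

theorem bp_mul {y : ι → ℤ} {A B : Matrix ι ι F} (hA : PbM y A) (hB : PbM y B) :
    bp y (A * B) = bp y A * bp y B := by
  ext i j
  rw [Matrix.mul_apply]
  unfold bp
  by_cases h : y i = y j
  · rw [if_pos h, Matrix.mul_apply]
    refine Finset.sum_congr rfl fun k _ => ?_
    by_cases h1 : y i = y k
    · rw [if_pos h1, if_pos (h1.symm.trans h)]
    · rw [if_neg h1, zero_mul]
      rcases lt_or_gt_of_ne h1 with h2 | h2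
      · rw [hB k j (by rw [← h]; exact h2), mul_zero]
      · rw [hA i k h2, zero_mul]
  · rw [if_neg h]
    symm
    refine Finset.sum_eq_zero fun k _ => ?_
    by_cases h1 : y i = y k
    · rw [if_neg (fun h2 => h (h1.trans h2)), mul_zero]
    · rw [if_neg h1, zero_mul]

namespace M02_aux

theorem bp_one (y : ι → ℤ) : bp y (1 : Matrix ι ι F) = 1 := by
  ext i j
  unfold bp
  by_cases h : y i = y j
  · rw [if_pos h]
  · rw [if_neg h, Matrix.one_apply_ne (fun h1 => h (congrArg y h1))]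

theorem bp_bp (y : ι → ℤ) (A : Matrix ι ι F) : bp y (bp y A) = bp y A := by
  ext i j
  unfold bp
  by_cases h : y i = y j
  · rw [if_pos h, if_pos h]
  · rw [if_neg h, if_neg h]

theorem bp_Pb (y : ι → ℤ) (A : Matrix ι ι F) : PbM y (bp y A) := by
  intro i j h
  unfold bp
  rw [if_neg (ne_of_gt h)]

theorem Up_of {y : ι → ℤ} {A : Matrix ι ι F} (hA : PbM y A) (h1 : bp y A = 1) : UpM y A := by
  intro i j hij
  by_cases h : y i = y j
  · have h2 : bp y A i j = (1 : Matrix ι ι F) i j := by rw [h1]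
    unfold bp at h2
    rw [if_pos h] at h2
    exact h2
  · have h2 : y j < y i := lt_of_le_of_ne (not_lt.1 hij) (fun h' => h h'.symm)
    rw [hA i j h2, Matrix.one_apply_ne (fun h' => h (congrArg y h'))]

end M02_aux

open M02_aux

variable [Finite F]

theorem lev_coe {y : ι → ℤ} {g : GL ι F} (hg : PbM y (g : Matrix ι ι F)) :
    (lev y g : Matrix ι ι F) = bp y (g : Matrix ι ι F) := by
  have h1 : bp y (g : Matrix ι ι F) * bp y ((g⁻¹ : GL ι F) : Matrix ι ι F) = 1 := by
    rw [← bp_mul hg (inv_Pb hg), ← Units.val_mul, mul_inv_cancel, Units.val_one, bp_one]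
  have h2 : bp y ((g⁻¹ : GL ι F) : Matrix ι ι F) * bp y (g : Matrix ι ι F) = 1 := by
    rw [← bp_mul (inv_Pb hg) hg, ← Units.val_mul, inv_mul_cancel, Units.val_one, bp_one]
  unfold lev
  rw [dif_pos ⟨h1, h2⟩]

namespace M02_aux

theorem lev_inv_coe {y : ι → ℤ} {g : GL ι F} (hg : PbM y (g : Matrix ι ι F)) :
    (((lev y g)⁻¹ : GL ι F) : Matrix ι ι F) = bp y ((g⁻¹ : GL ι F) : Matrix ι ι F) := by
  have h1 : bp y (g : Matrix ι ι F) * bp y ((g⁻¹ : GL ι F) : Matrix ι ι F) = 1 := by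
    rw [← bp_mul hg (inv_Pb hg), ← Units.val_mul, mul_inv_cancel, Units.val_one, bp_one]
  have h2 : (((lev y g)⁻¹ : GL ι F) : Matrix ι ι F) * (lev y g : Matrix ι ι F) = 1 := by
    rw [← Units.val_mul, inv_mul_cancel, Units.val_one]
  rw [lev_coe hg] at h2
  calc (((lev y g)⁻¹ : GL ι F) : Matrix ι ι F) = (((lev y g)⁻¹ : GL ι F) : Matrix ι ι F) *
        (bp y (g : Matrix ι ι F) * bp y ((g⁻¹ : GL ι F) : Matrix ι ι F)) := by
          rw [h1, Matrix.mul_one]
    _ = bp y ((g⁻¹ : GL ι F) : Matrix ι ι F) := by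
      rw [← Matrix.mul_assoc, h2, Matrix.one_mul]

end M02_aux

theorem lev_mem {y : ι → ℤ} {g : GL ι F} (hg : PbM y (g : Matrix ι ι F)) : lev y g ∈ LS F y := by
  rw [mem_LS, lev_coe hg]
  intro i j h
  unfold bp
  rw [if_neg h]

theorem lev_split {y : ι → ℤ} {g : GL ι F} (hg : PbM y (g : Matrix ι ι F)) :
    ∃ v ∈ GS F y, g = lev y g * v := by
  refine ⟨(lev y g)⁻¹ * g, ?_, by rw [mul_inv_cancel_left]⟩
  rw [mem_GS, Units.val_mul, lev_inv_coe hg]
  refine Up_of ((bp_Pb y _).mul hg) ?_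
  rw [bp_mul (bp_Pb y _) hg, bp_bp, ← bp_mul (inv_Pb hg) hg, ← Units.val_mul, inv_mul_cancel,
    Units.val_one, bp_one]

theorem lev_split' {y : ι → ℤ} {g : GL ι F} (hg : PbM y (g : Matrix ι ι F)) :
    ∃ v ∈ GS F y, g = v * lev y g := by
  refine ⟨g * (lev y g)⁻¹, ?_, by rw [inv_mul_cancel_right]⟩
  rw [mem_GS, Units.val_mul, lev_inv_coe hg]
  refine Up_of (hg.mul (bp_Pb y _)) ?_
  rw [bp_mul hg (bp_Pb y _), bp_bp, ← bp_mul hg (inv_Pb hg), ← Units.val_mul, mul_inv_cancel,
    Units.val_one, bp_one]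

theorem lev_det {y : ι → ℤ} {g : GL ι F} (hg : PbM y (g : Matrix ι ι F)) :
    (lev y g : Matrix ι ι F).det = (g : Matrix ι ι F).det := by
  obtain ⟨v, hv, h⟩ := lev_split hg
  have h1 : (g : Matrix ι ι F) = (lev y g : Matrix ι ι F) * (v : Matrix ι ι F) := by
    rw [← Units.val_mul, ← h]
  rw [h1, Matrix.det_mul, det_GS hv, mul_one]

theorem lev_IG {y : ι → ℤ} {J : Matrix ι ι F} {σ : F ≃+* F} (hJ : ∀ i j, J i j ≠ 0 → y j = - y i)
    {g : GL ι F} (hg : PbM y (g : Matrix ι ι F)) (h : g ∈ IG J σ) : lev y g ∈ IG J σ := by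
  rw [mem_IG] at h ⊢
  rw [lev_coe hg]
  ext i j
  have h1 : (((g : Matrix ι ι F).map σ)ᵀ * J * (g : Matrix ι ι F)) i j = J i j := by rw [h]
  rw [Matrix.mul_apply] at h1 ⊢
  by_cases hij : y j = - y i
  · rw [← h1]
    refine Finset.sum_congr rfl fun l _ => ?_
    rw [Matrix.mul_apply, Matrix.mul_apply, Finset.sum_mul, Finset.sum_mul]
    refine Finset.sum_congr rfl fun k _ => ?_
    rw [Matrix.transpose_apply, Matrix.transpose_apply, Matrix.map_apply, Matrix.map_apply]
    by_cases hJ1 : J k l = 0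
    · rw [hJ1, mul_zero, zero_mul, mul_zero, zero_mul]
    have hkl := hJ k l hJ1
    by_cases hk : y k = y i
    · have hl : y l = y j := by rw [hkl, hij, hk]
      unfold bp
      rw [if_pos hk, if_pos hl]
    · have hl : ¬ y l = y j := by
        intro h'
        apply hk
        omega
      unfold bp
      rw [if_neg hk, if_neg hl, mul_zero]
      rcases lt_or_gt_of_ne hk with h2 | h2
      · rw [hg l j (by omega), mul_zero]
      · rw [hg k i h2, map_zero, zero_mul, zero_mul]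
  · have h2 : J i j = 0 := by
      by_contra h3
      exact hij (hJ i j h3)
    rw [h2]
    refine Finset.sum_eq_zero fun l _ => ?_
    rw [Matrix.mul_apply, Finset.sum_mul]
    refine Finset.sum_eq_zero fun k _ => ?_
    rw [Matrix.transpose_apply, Matrix.map_apply]
    unfold bp
    by_cases hk : y k = y i
    · by_cases hl : y l = y j
      · have h3 : J k l = 0 := by
          by_contra h4
          have h5 := hJ k l h4
          apply hij
          omega
        rw [h3, mul_zero, zero_mul]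
      · rw [if_neg hl, mul_zero]
    · rw [if_neg hk, map_zero, zero_mul, zero_mul]

theorem lev_TW {y : ι → ℤ} {τ : F ≃+* F} {π : Perm ι} (hy : ∀ i, y (π i) = y i)
    {g : GL ι F} (hg : PbM y (g : Matrix ι ι F)) (h : g ∈ TW τ π) : lev y g ∈ TW τ π := by
  rw [mem_TW] at h ⊢
  rw [lev_coe hg]
  intro i j
  unfold bp
  rw [hy, hy]
  by_cases hij : y i = y j
  · rw [if_pos hij, if_pos hij, h]
  · rw [if_neg hij, if_neg hij, map_zero]

end

end AO.MG
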