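import Pool.Agent.AO.N01
import Pool.Agent.CF.T01

/-!
# MP_6c3636_al, AO, module N03: root subgroups of the general linear group (helper7)

`l > 0`. `CF.tv i j x` (CF/Defs.lean, CF/T01.lean: `tv_coe`) is `1 + x E_{ij}`. `glR_iff`: `glR_supp`; conversely entries. `gl_rank`: comparison of the entries; with respect to `(l, l - 1)`: `gls F l = [[0, 1], [1, 0]]`, `glr l x = [[1, x], [0, 1]]`, `glh l (un x) = diag(x, - x⁻¹)`, `[[1, 0], [x, 1]] = [[1, x⁻¹], [0, 1]] * [[0, 1], [1, 0]] * diag(x, - x⁻¹) * [[1, x⁻¹], [0, 1]]`.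
-/

namespace AO.MG

noncomputable section

open Classical Equiv Matrix

open AN (sq)

variable {n : ℕ} {F : Type} [Field F]

namespace N03_aux

theorem pr_ne {l : Fin n} (hl : 0 < (l : ℕ)) : l ≠ pr l := by
  intro h
  have h1 := congrArg Fin.val h
  simp only [pr] at h1
  omega

theorem tvc {i j : Fin n} (h : i ≠ j) (c : F) :
    (CF.tv i j c : Matrix (Fin n) (Fin n) F) = Matrix.transvection i j c := by
  have h1 : Matrix.transvection i j c * Matrix.transvection i j (-c) = 1 ∧
      Matrix.transvection i j (-c) * Matrix.transvection i j c = 1 := by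
    rw [Matrix.transvection_mul_transvection_same _ _ h, Matrix.transvection_mul_transvection_same _ _ h,
      add_neg_cancel, neg_add_cancel, Matrix.transvection_zero]
    exact ⟨rfl, rfl⟩
  rw [CF.tv, dif_pos h1]

/-- the action on vectors -/
def ac (g : GL (Fin n) F) (v : Fin n → F) : Fin n → F := (g : Matrix (Fin n) (Fin n) F).mulVec v

theorem ac_mul (g h : GL (Fin n) F) (v : Fin n → F) : ac (g * h) v = ac g (ac h v) := by
  unfold ac
  rw [Units.val_mul, Matrix.mulVec_mulVec]

theorem ac_ext {g h : GL (Fin n) F} (H : ∀ v, ac g v = ac h v) : g = h := by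
  apply Units.ext
  apply Matrix.mulVec_injective
  ext v i
  exact congrFun (H v) i

theorem ac_mo (w : Perm (Fin n)) (c : Fin n → Fˣ) (v : Fin n → F) (k : Fin n) :
    ac (mo w c) v k = (c (w.symm k) : F) * v (w.symm k) := by
  unfold ac
  rw [Matrix.mulVec, dotProduct]
  rw [Finset.sum_eq_single (w.symm k)]
  · rw [mo_apply, if_pos (w.apply_symm_apply k).symm]
  · intro j _ hj
    rw [mo_apply, if_neg (fun h => hj (by rw [h, w.symm_apply_apply])), zero_mul]
  · exact fun h => absurd (Finset.mem_univ _) h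

end N03_aux

open N03_aux

/-- the elements of the root subgroups -/
def glr (l : Fin n) (x : F) : GL (Fin n) F := if 0 < (l : ℕ) then CF.tv l (pr l) x else 1

theorem glr_apply {l : Fin n} (hl : 0 < (l : ℕ)) (x : F) (i j : Fin n) :
    (glr l x : Matrix (Fin n) (Fin n) F) i j =
      (1 : Matrix (Fin n) (Fin n) F) i j + if i = l ∧ j = pr l then x else 0 := by
  rw [glr, if_pos hl, tvc (pr_ne hl), Matrix.transvection, Matrix.add_apply, Matrix.single_apply]
  congr 1
  by_cases h : i = l ∧ j = pr l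
  · rw [if_pos h, if_pos ⟨h.1.symm, h.2.symm⟩]
  · rw [if_neg h, if_neg (fun h' => h ⟨h'.1.symm, h'.2.symm⟩)]

theorem gle_glr {l : Fin n} (hl : 0 < (l : ℕ)) (x : F) : gle l (glr l x : Matrix (Fin n) (Fin n) F) = x := by
  rw [gle, glr_apply hl, Matrix.one_apply_ne (pr_ne hl), if_pos ⟨rfl, rfl⟩, zero_add]

theorem glr_one {l : Fin n} (hl : 0 < (l : ℕ)) {x : F} : glr l x = 1 ↔ x = 0 := by
  constructor
  · intro h
    have h1 := gle_glr hl x
    rw [h, gle, Units.val_one, Matrix.one_apply_ne (pr_ne hl)] at h1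
    exact h1.symm
  · intro h
    apply Units.ext
    ext i j
    rw [glr_apply hl, h, ite_self, add_zero, Units.val_one]

theorem glr_mul (l : Fin n) (x y : F) : glr l x * glr l y = glr l (x + y) := by
  unfold glr
  split_ifs with hl
  · apply Units.ext
    rw [Units.val_mul, tvc (pr_ne hl), tvc (pr_ne hl), tvc (pr_ne hl),
      Matrix.transvection_mul_transvection_same _ _ (pr_ne hl)]
  · rw [one_mul]

theorem glR_iff [Finite F] {l : Fin n} (hl : 0 < (l : ℕ)) {g : GL (Fin n) F} :
    g ∈ glR F l ↔ ∃ x : F, g = glr l x := by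
  constructor
  · intro hg
    refine ⟨(g : Matrix (Fin n) (Fin n) F) l (pr l), ?_⟩
    apply Units.ext
    ext i j
    rw [glr_apply hl]
    by_cases h : i = l ∧ j = pr l
    · rw [if_pos h, h.1, h.2, Matrix.one_apply_ne (pr_ne hl), zero_add]
    · rw [if_neg h, add_zero]
      exact glR_supp hg (fun h' => h h'.2)
  · rintro ⟨x, rfl⟩
    have hp : ((pr l : Fin n) : ℕ) = (l : ℕ) - 1 := rfl
    refine Subgroup.mem_inf.2 ⟨mem_GS.2 ?_, mem_LS.2 ?_⟩
    · intro i j hij
      rw [glr_apply hl, if_neg, add_zero]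
      rintro ⟨rfl, rfl⟩
      apply hij
      simp only [gr, hp]
      omega
    · intro i j hij
      rw [glr_apply hl, if_neg, add_zero]
      · exact Matrix.one_apply_ne (fun h => hij (congrArg _ h))
      · rintro ⟨rfl, rfl⟩
        apply hij
        simp only [gy, lv, hp]
        rw [if_neg (lt_irrefl _), if_pos (by omega)]
        omega

theorem card_glR [Finite F] {l : Fin n} (hl : 0 < (l : ℕ)) : Nat.card (glR F l) = Nat.card F := by
  symm
  apply Nat.card_congr
  refine Equiv.ofBijective (fun x => ⟨glr l x, (glR_iff hl).2 ⟨x, rfl⟩⟩) ⟨?_, ?_⟩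
  · intro x y h
    have h1 : glr l x = glr l y := congrArg Subtype.val h
    rw [← gle_glr hl x, ← gle_glr hl y, h1]
  · rintro ⟨g, hg⟩
    obtain ⟨x, rfl⟩ := (glR_iff hl).1 hg
    exact ⟨x, rfl⟩

theorem glh_DG (l : Fin n) (x : Fˣ) : glh l x ∈ DG (Fin n) F := by
  unfold glh
  split_ifs
  · exact (DG (Fin n) F).mul_mem (mo_DG _) (mo_DG _)
  · exact (DG (Fin n) F).one_mem

theorem gl_rank {l : Fin n} (hl : 0 < (l : ℕ)) {x : F} (hx : x ≠ 0) :
    gls F l * glr l x * gls F l = glr l x⁻¹ * (gls F l * glh l (un x)) * glr l x⁻¹ := by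
  have hne := pr_ne hl
  have hr : ∀ (y : F) (v : Fin n → F) (k : Fin n), ac (glr l y) v k = v k + if k = l then y * v (pr l) else 0 := by
    intro y v k
    unfold ac
    rw [Matrix.mulVec, dotProduct]
    have h1 : ∀ j, (glr l y : Matrix (Fin n) (Fin n) F) k j * v j =
        (1 : Matrix (Fin n) (Fin n) F) k j * v j + if j = pr l then (if k = l then y * v j else 0) else 0 := by
      intro j
      rw [glr_apply hl, add_mul]
      congr 1
      by_cases h2 : k = l <;> by_cases h3 : j = pr l <;> simp [h2, h3]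
    rw [Finset.sum_congr rfl (fun j _ => h1 j), Finset.sum_add_distrib, Finset.sum_ite_eq' Finset.univ (pr l),
      if_pos (Finset.mem_univ _)]
    congr 1
    exact congrFun (Matrix.one_mulVec v) k
  have hs : ∀ (v : Fin n → F) (k : Fin n), ac (gls F l) v k = v (Equiv.swap (pr l) l k) := by
    intro v k
    rw [gls, if_pos hl, ac_mo, Equiv.symm_swap, Pi.one_apply, Units.val_one, one_mul]
  have hd : ∀ (i : Fin n) (y : Fˣ) (v : Fin n → F) (k : Fin n),
      ac (di i y) v k = (if k = i then (y : F) else 1) * v k := by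
    intro i y v k
    have h1 : ((1 : Perm (Fin n)).symm k) = k := rfl
    rw [di, ac_mo, h1]
    congr 1
    by_cases h : k = i
    · rw [if_pos h, h, Function.update_self]
    · rw [if_neg h, Function.update_of_ne h, Pi.one_apply, Units.val_one]
  have hu : ((un x : Fˣ) : F) = x := by
    rw [un, dif_pos hx, Units.val_mk0]
  have hu' : ((-(un x)⁻¹ : Fˣ) : F) = -x⁻¹ := by
    rw [Units.val_neg, Units.val_inv_eq_inv_val, hu]
  apply ac_ext
  intro v
  ext k
  simp only [ac_mul, glh, if_pos hl, hs, hr, hd, hu, hu']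
  by_cases hk : k = l
  · subst hk
    simp only [Equiv.swap_apply_right, Equiv.swap_apply_left, if_true, if_neg hne, if_neg hne.symm, one_mul]
    field_simp
    ring
  · by_cases hk2 : k = pr l
    · rw [hk2]
      simp only [Equiv.swap_apply_right, Equiv.swap_apply_left, if_true, if_neg hne, if_neg hne.symm, one_mul,
        add_zero]
      field_simp
      ring
    · simp only [if_neg hk, if_neg hk2, one_mul, add_zero, Equiv.swap_apply_of_ne_of_ne hk2 hk]

end

end AO.MG
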