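import Pool.Agent.AO.F01
import Pool.Agent.AO.M02
import Pool.Agent.AO.N03

/-!
# MP_6c3636_al, AO, module F02: the embedding of the general linear group (helper7)

`hy_coe` (GDefs) gives the entries of `hy A`. `hy_IG`: block computation, or `IG_iff_sv`. `hy_mem`: `TwM`: the permutation `pm` fixes the indices `ei i`, `fi i`; the inverse `A⁻¹` has `τ`-fixed entries too (`mem_TW` with `π = 1`); if `so = true`: `σ = id` (`sos`), the determinant is `det A * det (A⁻¹)ᵀ = 1` (`Matrix.det_fromBlocks_zero₂₁` or reindexing; or: `hy A` for `A` monomial by `mo_det`, for `A` a transvection by `det_GS`-like arguments). `hy_GS`: entries: for the `f` block `σ (A⁻¹ j i)` at `(f i, f j)`, nontrivial only if `gr j < gr i`, `rk (f i) < rk (f j)`. `hy_of`: the block `A i j = g (ei i) (ei j)` is invertible (its inverse is the block of `g⁻¹`), and the `f` block is determined by `inv_apply`.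
-/

namespace AO.MG

noncomputable section

open Classical Equiv Matrix

open AN (sq)

variable {n a : ℕ} {F : Type} [Field F] [Finite F] {D : FD n a F}

/-- the coefficients of the embedding of a monomial matrix -/
def hyc (σ : F ≃+* F) (c : Fin n → Fˣ) : Ix n a → Fˣ
  | Sum.inl (i, false) => c i
  | Sum.inl (i, true) => (Units.map (σ : F →* F) (c i))⁻¹
  | Sum.inr _ => 1

theorem hy_ee (A : GL (Fin n) F) (i j : Fin n) :
    (D.hy A : Matrix (Ix n a) (Ix n a) F) (ei i) (ei j) = (A : Matrix (Fin n) (Fin n) F) i j := rfl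

theorem hy_ff (A : GL (Fin n) F) (i j : Fin n) : (D.hy A : Matrix (Ix n a) (Ix n a) F) (fi i) (fi j) =
    D.σ (((A⁻¹ : GL (Fin n) F) : Matrix (Fin n) (Fin n) F) j i) := rfl

private theorem inv_mul_entry (A : GL (Fin n) F) (i j : Fin n) :
    ∑ k, ((A⁻¹ : GL (Fin n) F) : Matrix (Fin n) (Fin n) F) i k * (A : Matrix (Fin n) (Fin n) F) k j =
      if i = j then 1 else 0 := by
  rw [← Matrix.mul_apply, ← Units.val_mul, inv_mul_cancel, Units.val_one, Matrix.one_apply]

theorem hy_IG (A : GL (Fin n) F) : D.hy A ∈ IG D.J D.σ := by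
  rw [IG_iff_sv]
  intro x y
  rw [B_sv_left]
  have h0 : D.B (mv (D.hy A) (sv x)) (mv (D.hy A) (sv y)) =
      ∑ k, (D.c k : F) * D.σ ((D.hy A : Matrix (Ix n a) (Ix n a) F) k x) *
        (D.hy A : Matrix (Ix n a) (Ix n a) F) (du k) y := by
    refine Finset.sum_congr rfl fun k _ => ?_
    rw [mv_apply, mv_apply]
  rw [h0, Fintype.sum_sum_type, Fintype.sum_prod_type]
  simp only [Fintype.sum_bool]
  have hE := inv_mul_entry A
  rcases x with ⟨i, b⟩ | i <;> rcases y with ⟨j, b'⟩ | j
  · cases b <;> cases b'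
    · simp [FD.hy_coe, FD.hyM, FD.c, du, sv, Pi.single_apply]
    · have h1 : ∀ k, D.σ ((A : Matrix (Fin n) (Fin n) F) k i) *
          D.σ (((A⁻¹ : GL (Fin n) F) : Matrix (Fin n) (Fin n) F) j k) =
          D.σ (((A⁻¹ : GL (Fin n) F) : Matrix (Fin n) (Fin n) F) j k *
            (A : Matrix (Fin n) (Fin n) F) k i) := fun k => by rw [map_mul, mul_comm]
      have h2 : ∑ k, D.σ ((A : Matrix (Fin n) (Fin n) F) k i) *
          D.σ (((A⁻¹ : GL (Fin n) F) : Matrix (Fin n) (Fin n) F) j k) = if i = j then 1 else 0 := by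
        rw [Finset.sum_congr rfl fun k _ => h1 k, ← map_sum, hE]
        by_cases hij : i = j
        · rw [if_pos hij, if_pos hij.symm, map_one]
        · rw [if_neg hij, if_neg (fun h => hij h.symm), map_zero]
      simpa [FD.hy_coe, FD.hyM, FD.c, du, sv, Pi.single_apply] using h2
    · have h2 : ∑ k, (D.ep : F) * (((A⁻¹ : GL (Fin n) F) : Matrix (Fin n) (Fin n) F) i k) *
          (A : Matrix (Fin n) (Fin n) F) k j = if i = j then (D.ep : F) else 0 := by
        have h3 : ∀ k, (D.ep : F) * (((A⁻¹ : GL (Fin n) F) : Matrix (Fin n) (Fin n) F) i k) *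
          (A : Matrix (Fin n) (Fin n) F) k j = (D.ep : F) * (
            (((A⁻¹ : GL (Fin n) F) : Matrix (Fin n) (Fin n) F) i k) *
          (A : Matrix (Fin n) (Fin n) F) k j) := fun k => by ring
        rw [Finset.sum_congr rfl fun k _ => h3 k, ← Finset.mul_sum, hE]
        split_ifs <;> simp
      simpa [FD.hy_coe, FD.hyM, FD.c, du, sv, Pi.single_apply, D.ss] using h2
    · simp [FD.hy_coe, FD.hyM, FD.c, du, sv, Pi.single_apply]
  · cases b <;> simp [FD.hy_coe, FD.hyM, FD.c, du, sv, Pi.single_apply]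
  · cases b' <;> simp [FD.hy_coe, FD.hyM, FD.c, du, sv, Pi.single_apply]
  · simp only [FD.hy_coe, FD.hyM, FD.c, du, sv, Pi.single_apply, Equiv.coe_fn_mk]
    simp only [map_zero, mul_zero, zero_mul, add_zero, Finset.sum_const_zero, zero_add]
    rw [Finset.sum_eq_single i (fun b _ hb => by simp [hb]) (fun h => absurd (Finset.mem_univ _) h)]
    by_cases h : Fin.rev i = j
    · simp [h]
    · simp [h]

private theorem det_hyM (A A' : Matrix (Fin n) (Fin n) F) :
    (FD.hyM a A A').det = A.det * A'.det := by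
  have h1 : FD.hyM a A A' = Matrix.fromBlocks
      (Matrix.blockDiagonal (fun b : Bool => if b = true then A' else A)) 0 0 1 := by
    ext x y
    rcases x with ⟨i, b⟩ | i <;> rcases y with ⟨j, b'⟩ | j
    · cases b <;> cases b' <;> simp [FD.hyM, Matrix.blockDiagonal_apply]
    · cases b <;> simp [FD.hyM]
    · cases b' <;> simp [FD.hyM]
    · simp [FD.hyM, Matrix.one_apply]
  rw [h1, Matrix.det_fromBlocks_zero₂₁, Matrix.det_one, mul_one, Matrix.det_blockDiagonal]
  simp [mul_comm]

theorem hy_mem {A : GL (Fin n) F} (hA : ∀ i j, D.τ ((A : Matrix (Fin n) (Fin n) F) i j) =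
    (A : Matrix (Fin n) (Fin n) F) i j) : D.hy A ∈ D.G := by
  have hT : A ∈ TW D.τ (1 : Perm (Fin n)) := mem_TW.2 fun i j => (hA i j).symm
  have hT' : ∀ i j, D.τ (((A⁻¹ : GL (Fin n) F) : Matrix (Fin n) (Fin n) F) i j) =
      ((A⁻¹ : GL (Fin n) F) : Matrix (Fin n) (Fin n) F) i j := fun i j => (hT.2 i j).symm
  rw [mem_G]
  refine ⟨hy_IG A, ?_, ?_⟩
  · intro x y
    rcases x with ⟨i, b⟩ | i <;> rcases y with ⟨j, b'⟩ | j
    · cases b <;> cases b'
      · exact (hA i j).symm
      · exact (map_zero D.τ).symm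
      · exact (map_zero D.τ).symm
      · change D.σ (((A⁻¹ : GL (Fin n) F) : Matrix (Fin n) (Fin n) F) j i) =
          D.τ (D.σ (((A⁻¹ : GL (Fin n) F) : Matrix (Fin n) (Fin n) F) j i))
        rw [← D.st, hT']
    · cases b <;> exact (map_zero D.τ).symm
    · cases b' <;> exact (map_zero D.τ).symm
    · change (if Fin.rev i = Fin.rev j then (1 : F) else 0) = D.τ (if i = j then (1 : F) else 0)
      by_cases h : i = j
      · rw [if_pos (congrArg _ h), if_pos h, map_one]
      · rw [if_neg (fun h' => h (Fin.rev_injective h')), if_neg h, map_zero]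
  · intro hso
    have hs := (D.sos hso).1
    have h1 : (((A⁻¹ : GL (Fin n) F) : Matrix (Fin n) (Fin n) F).map D.σ) =
        ((A⁻¹ : GL (Fin n) F) : Matrix (Fin n) (Fin n) F) := by
      ext i j
      rw [Matrix.map_apply, hs]
    rw [FD.hy_coe, det_hyM, h1, Matrix.det_transpose, ← Matrix.det_mul, ← Units.val_mul, mul_inv_cancel,
      Units.val_one, Matrix.det_one]

theorem hy_inj : Function.Injective D.hy := by
  intro A A' h
  apply Units.ext
  ext i j
  rw [← hy_ee (D := D) A i j, ← hy_ee (D := D) A' i j, h]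

theorem hy_mo (w : Perm (Fin n)) (c : Fin n → Fˣ) : D.hy (mo w c) = mo (pw a w) (hyc D.σ c) := by
  apply Units.ext
  ext x y
  rw [mo_apply]
  rcases x with ⟨i, b⟩ | i <;> rcases y with ⟨j, b'⟩ | j
  · cases b <;> cases b'
    · change (mo w c : Matrix (Fin n) (Fin n) F) i j = _
      rw [mo_apply]
      by_cases h : i = w j
      · rw [if_pos h, if_pos (by rw [h]; rfl)]
        rfl
      · rw [if_neg h, if_neg (fun h' => h (by
          have h2 : (Sum.inl (i, false) : Ix n a) = Sum.inl (w j, false) := h'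
          exact (Prod.mk.inj (Sum.inl_injective h2)).1))]
    · rw [if_neg (fun h' => by
        have h2 : (Sum.inl (i, false) : Ix n a) = Sum.inl (w j, true) := h'
        exact Bool.false_ne_true (Prod.mk.inj (Sum.inl_injective h2)).2)]
      rfl
    · rw [if_neg (fun h' => by
        have h2 : (Sum.inl (i, true) : Ix n a) = Sum.inl (w j, false) := h'
        exact Bool.false_ne_true (Prod.mk.inj (Sum.inl_injective h2)).2.symm)]
      rfl
    · change D.σ (if w j = i then (((c j)⁻¹ : Fˣ) : F) else 0) = _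
      by_cases h : w j = i
      · rw [if_pos h, if_pos (by rw [← h]; rfl)]
        change _ = (((Units.map (D.σ : F →* F) (c j))⁻¹ : Fˣ) : F)
        rw [← map_inv]
        rfl
      · rw [if_neg h, map_zero, if_neg (fun h' => h (by
          have h2 : (Sum.inl (i, true) : Ix n a) = Sum.inl (w j, true) := h'
          exact (Prod.mk.inj (Sum.inl_injective h2)).1.symm))]
  · rw [if_neg (fun h' => by
      have h2 : (Sum.inl (i, b) : Ix n a) = Sum.inr j := h'
      exact Sum.inl_ne_inr h2)]
    cases b <;> rfl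
  · rw [if_neg (fun h' => by
      have h2 : (Sum.inr i : Ix n a) = Sum.inl (w j, b') := h'
      exact Sum.inr_ne_inl h2)]
    cases b' <;> rfl
  · change (if i = j then (1 : F) else 0) = _
    by_cases h : i = j
    · rw [if_pos h, if_pos (by rw [h]; rfl)]
      rfl
    · rw [if_neg h, if_neg (fun h' => h (by
        have h2 : (Sum.inr i : Ix n a) = Sum.inr j := h'
        exact Sum.inr_injective h2))]

private theorem hy_GS_aux {y : Ix n a → ℤ} {z : Fin n → ℤ} (he : ∀ i, y (ei i) = z i)
    (hf : ∀ i, y (fi i) = - z i) {A : GL (Fin n) F} (hA : A ∈ GS F z) : D.hy A ∈ GS F y := by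
  rw [mem_GS]
  intro x x' hx
  rcases x with ⟨i, b⟩ | i <;> rcases x' with ⟨j, b'⟩ | j
  · cases b <;> cases b'
    · change (A : Matrix (Fin n) (Fin n) F) i j = _
      have h1 : ¬ z i < z j := by
        rw [← he, ← he]; exact hx
      rw [hA.1 i j h1, Matrix.one_apply, Matrix.one_apply]
      simp
    · change (0 : F) = _
      rw [Matrix.one_apply_ne (by simp)]
    · change (0 : F) = _
      rw [Matrix.one_apply_ne (by simp)]
    · change D.σ (((A⁻¹ : GL (Fin n) F) : Matrix (Fin n) (Fin n) F) j i) = _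
      have h1 : ¬ z j < z i := by
        have h2 : ¬ y (fi i) < y (fi j) := hx
        rw [hf, hf] at h2
        omega
      rw [hA.2 j i h1, Matrix.one_apply, Matrix.one_apply]
      by_cases h : j = i
      · rw [if_pos h, if_pos (by rw [h]), map_one]
      · rw [if_neg h, map_zero, if_neg (by simpa using fun h' => h h'.symm)]
  · cases b <;>
    · change (0 : F) = _
      rw [Matrix.one_apply_ne (by simp)]
  · cases b' <;>
    · change (0 : F) = _
      rw [Matrix.one_apply_ne (by simp)]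
  · change (if i = j then (1 : F) else 0) = _
    rw [Matrix.one_apply]
    simp

private theorem hy_LS_aux {y : Ix n a → ℤ} {z : Fin n → ℤ} (he : ∀ i, y (ei i) = z i)
    (hf : ∀ i, y (fi i) = - z i) (hm : ∀ i, y (mi i) = 0)
    {A : GL (Fin n) F} (hA : A ∈ LS F z) : D.hy A ∈ LS F y := by
  rw [mem_LS]
  intro x x' hx
  rcases x with ⟨i, b⟩ | i <;> rcases x' with ⟨j, b'⟩ | j
  · cases b <;> cases b'
    · change (A : Matrix (Fin n) (Fin n) F) i j = _
      exact hA.1 i j (by rw [← he, ← he]; exact hx)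
    · rfl
    · rfl
    · change D.σ (((A⁻¹ : GL (Fin n) F) : Matrix (Fin n) (Fin n) F) j i) = _
      have h1 : z j ≠ z i := by
        have h2 : y (fi i) ≠ y (fi j) := hx
        rw [hf, hf] at h2
        omega
      rw [hA.2 j i h1, map_zero]
  · cases b <;> rfl
  · cases b' <;> rfl
  · exact absurd ((hm i).trans (hm j).symm) hx

theorem hy_GS {A : GL (Fin n) F} (hA : A ∈ GS F gr) : D.hy A ∈ GS F rk :=
  hy_GS_aux (fun _ => rfl) (fun i => (neg_neg (((i : ℕ) : ℤ) + 1)).symm) hA

theorem hy_GSy {A : GL (Fin n) F} {l : ℕ} (hA : A ∈ GS F (gy l)) : D.hy A ∈ GS F (yl l) :=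
  hy_GS_aux (fun _ => rfl) (fun i => (neg_neg (lv l i)).symm) hA

theorem hy_LS {A : GL (Fin n) F} {l : ℕ} (hl : 0 < l) (hA : A ∈ LS F (gy l)) : D.hy A ∈ LS F (yl l) :=
  hy_LS_aux (fun _ => rfl) (fun i => (neg_neg (lv l i)).symm) (fun _ => rfl) hA

theorem hy_DG {A : GL (Fin n) F} (hA : A ∈ DG (Fin n) F) : D.hy A ∈ DG (Ix n a) F := by
  rw [mem_DG]
  intro x x' hx
  rcases x with ⟨i, b⟩ | i <;> rcases x' with ⟨j, b'⟩ | j
  · cases b <;> cases b'
    · exact hA.1 i j (fun h => hx (by rw [h]))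
    · rfl
    · rfl
    · change D.σ (((A⁻¹ : GL (Fin n) F) : Matrix (Fin n) (Fin n) F) j i) = _
      rw [hA.2 j i (fun h => hx (by rw [h])), map_zero]
  · cases b <;> rfl
  · cases b' <;> rfl
  · change (if i = j then (1 : F) else 0) = 0
    rw [if_neg (fun h => hx (by rw [h]))]

theorem hy_of {g : GL (Ix n a) F} (hg : g ∈ D.G)
    (h1 : ∀ i j, (g : Matrix (Ix n a) (Ix n a) F) (ei i) (fi j) = 0)
    (h2 : ∀ i j, (g : Matrix (Ix n a) (Ix n a) F) (fi i) (ei j) = 0)
    (h3 : ∀ x (j : Fin a), (g : Matrix (Ix n a) (Ix n a) F) x (mi j) =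
      (1 : Matrix (Ix n a) (Ix n a) F) x (mi j))
    (h4 : ∀ (j : Fin a) y, (g : Matrix (Ix n a) (Ix n a) F) (mi j) y =
      (1 : Matrix (Ix n a) (Ix n a) F) (mi j) y) :
    ∃ A : GL (Fin n) F, (∀ i j, D.τ ((A : Matrix (Fin n) (Fin n) F) i j) =
      (A : Matrix (Fin n) (Fin n) F) i j) ∧ g = D.hy A := by
  set A : Matrix (Fin n) (Fin n) F := fun i j => (g : Matrix (Ix n a) (Ix n a) F) (ei i) (ei j) with hA
  set B : Matrix (Fin n) (Fin n) F := fun i j =>
    ((g⁻¹ : GL (Ix n a) F) : Matrix (Ix n a) (Ix n a) F) (ei i) (ei j) with hB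
  have hAB : A * B = 1 := by
    ext i j
    have h5 : ((g : Matrix (Ix n a) (Ix n a) F) *
        ((g⁻¹ : GL (Ix n a) F) : Matrix (Ix n a) (Ix n a) F)) (ei i) (ei j) =
        (1 : Matrix (Ix n a) (Ix n a) F) (ei i) (ei j) := by
      rw [← Units.val_mul, mul_inv_cancel, Units.val_one]
    rw [Matrix.mul_apply, Fintype.sum_sum_type, Fintype.sum_prod_type] at h5
    simp only [Fintype.sum_bool] at h5
    have h6 : ∀ k : Fin a, (g : Matrix (Ix n a) (Ix n a) F) (ei i) (Sum.inr k) = 0 := fun k => by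
      have := h3 (ei i) k
      rw [Matrix.one_apply_ne (by simp [ei, mi])] at this
      exact this
    have h7 : ∀ k : Fin n, (g : Matrix (Ix n a) (Ix n a) F) (ei i) (Sum.inl (k, true)) = 0 :=
      fun k => h1 i k
    simp only [h6, h7, zero_mul, Finset.sum_const_zero, add_zero, zero_add] at h5
    rw [Matrix.mul_apply]
    refine Eq.trans h5 ?_
    rw [Matrix.one_apply, Matrix.one_apply]
    simp [ei]
  have hBA : B * A = 1 := mul_eq_one_comm.1 hAB
  refine ⟨⟨A, B, hAB, hBA⟩, ?_, ?_⟩
  · intro i j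
    exact ((mem_G.1 hg).2.1 (ei i) (ei j)).symm
  · apply Units.ext
    ext x y
    rcases x with ⟨i, b⟩ | i
    · rcases y with ⟨j, b'⟩ | j
      · cases b <;> cases b'
        · rfl
        · exact h1 i j
        · exact h2 i j
        · change (g : Matrix (Ix n a) (Ix n a) F) (fi i) (fi j) = D.σ (B j i)
          rw [hB]
          change _ = D.σ (((g⁻¹ : GL (Ix n a) F) : Matrix (Ix n a) (Ix n a) F) (ei j) (ei i))
          rw [inv_apply hg]
          change _ = D.σ ((D.ep : F)⁻¹ * D.σ ((g : Matrix (Ix n a) (Ix n a) F) (fi i) (fi j)) *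
            (D.ep : F))
          have h8 : (D.ep : F) ≠ 0 := D.ep.ne_zero
          have h9 : (D.ep : F)⁻¹ * D.σ ((g : Matrix (Ix n a) (Ix n a) F) (fi i) (fi j)) *
            (D.ep : F) = D.σ ((g : Matrix (Ix n a) (Ix n a) F) (fi i) (fi j)) := by
            field_simp
          rw [h9, D.ss]
      · have h5 := h3 (Sum.inl (i, b)) j
        rw [Matrix.one_apply_ne (by simp [mi])] at h5
        refine Eq.trans h5 ?_
        cases b <;> rfl
    · have h5 := h4 i y
      refine Eq.trans h5 ?_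
      rcases y with ⟨j, b'⟩ | j
      · rw [Matrix.one_apply_ne (by simp [mi])]
        cases b' <;> rfl
      · rw [Matrix.one_apply]
        change _ = if i = j then (1 : F) else 0
        simp [mi]

end

end AO.MG
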