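import Pool.Agent.AO.F01

/-!
# MP_6c3636_al, AO, module F03: Eichler elements (helper7; proofs: helper12)

Let `γ = v (ei j)`, `z = v - sv (fi j) - γ • sv (ei j)`, so `z` has support in the first `j` hyperbolic planes and the anisotropic part, `B z (sv (ei j)) = B z (sv (fi j)) = 0`. `u` is the map `w ↦ w + B (sv (ei j)) w • (z + γ • sv (ei j)) - (ep * B z w) • sv (ei j)`, `B (sv (ei j)) w = w (fi j)`. Its matrix `1 + X` has `X x y = (z + γ e) x * [y = fi j] - [x = ei j] * ep * c (du y) * σ (z (du y))`. `B (u w) (u w') = B w w'` for `w`, `w'` in the list `ei j`, `fi j`, `sv y` with `y` in the first `j` planes or the anisotropic part, and the other `sv y`: `B (u fj) (u fj) = B v v = 0`; `B (u y) (u fj) = B y z - ep * σ (B z y) = 0` (`B_symm`). `TwM`: `pm` fixes `ei j`, `fi j`; `z (pm x) = τ (z x)`, `c_pm`, `tau_c`, `st`. `rk`: `rk (ei j)` is smaller than all the ranks of the other indices in the first `j + 1` planes and the anisotropic part, `rk (fi j)` is larger. `u` is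 invertible: unitriangular (or: an isometry of a nondegenerate form: `J⁻¹ (σ u)ᵀ J u = 1`). `det u = 1`: `det_GS`. `eich_unique`: the rows of `ei j` are equal by `B (u y) (u fj) = B y fj` for all `y ≠ ei j, fi j`: this determines `u (ei j) y`.
-/

namespace AO.MG

noncomputable section

open Classical Equiv Matrix

open AN (sq)

variable {n a : ℕ} {F : Type} [Field F] [Finite F] {D : FD n a F}

omit [Finite F] in
private lemma sv_eif (j : Fin n) : (sv (ei j) : Ix n a → F) (fi j) = 0 := by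
  unfold sv
  rw [Pi.single_eq_of_ne]
  intro h
  simp [ei, fi] at h

omit [Finite F] in
private lemma sv_fie (j : Fin n) : (sv (fi j) : Ix n a → F) (ei j) = 0 := by
  unfold sv
  rw [Pi.single_eq_of_ne]
  intro h
  simp [ei, fi] at h

omit [Finite F] in
private lemma sv_self (x : Ix n a) : (sv x : Ix n a → F) x = 1 := by
  unfold sv
  rw [Pi.single_eq_same]

omit [Finite F] in
private lemma sv_ne {x y : Ix n a} (h : y ≠ x) : (sv x : Ix n a → F) y = 0 := by
  unfold sv
  rw [Pi.single_eq_of_ne h]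

private lemma du_ei (j : Fin n) : du (ei j : Ix n a) = fi j := rfl

private lemma du_fi (j : Fin n) : du (fi j : Ix n a) = ei j := rfl

private lemma B_e (j : Fin n) (w : Ix n a → F) : D.B (sv (ei j)) w = w (fi j) := by
  rw [B_sv_left, du_ei]
  show ((1 : Fˣ) : F) * w (fi j) = w (fi j)
  rw [Units.val_one, one_mul]

private lemma B_e' (j : Fin n) (w : Ix n a → F) : D.B w (sv (ei j)) = D.ep * D.σ (w (fi j)) := by
  rw [B_sv_right, du_ei]
  rfl

private lemma B_f' (j : Fin n) (w : Ix n a → F) : D.B w (sv (fi j)) = D.σ (w (ei j)) := by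
  rw [B_sv_right, du_fi]
  show ((1 : Fˣ) : F) * D.σ (w (ei j)) = D.σ (w (ei j))
  rw [Units.val_one, one_mul]

/-- the matrix of the Eichler transformation -/
private def em (D : FD n a F) (j : Fin n) (z : Ix n a → F) (γ : F) : Matrix (Ix n a) (Ix n a) F :=
  fun x y => (1 : Matrix (Ix n a) (Ix n a) F) x y
    + (z x + γ * (sv (ei j) : Ix n a → F) x) * (if y = fi j then 1 else 0)
    - (sv (ei j) : Ix n a → F) x * (D.ep * ((D.c (du y) : F) * D.σ (z (du y))))

private lemma em_mv (j : Fin n) (z : Ix n a → F) (γ : F) (w : Ix n a → F) :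
    (em D j z γ).mulVec w
      = w + w (fi j) • (z + γ • sv (ei j)) + (-(D.ep * D.B z w)) • sv (ei j) := by
  ext x
  have h1 : ∑ y, (1 : Matrix (Ix n a) (Ix n a) F) x y * w y = w x :=
    congrFun (Matrix.one_mulVec w) x
  have h2 : ∑ y, (D.c (du y) : F) * D.σ (z (du y)) * w y = D.B z w := by
    unfold FD.B
    rw [← Equiv.sum_comp du (fun x => (D.c x : F) * D.σ (z x) * w (du x))]
    exact Finset.sum_congr rfl fun y _ => by rw [du_du]
  have h3 : ∀ y, em D j z γ x y * w y = (1 : Matrix (Ix n a) (Ix n a) F) x y * w y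
      + (z x + γ * (sv (ei j) : Ix n a → F) x) * (if y = fi j then w y else 0)
      - (sv (ei j) : Ix n a → F) x * (D.ep * ((D.c (du y) : F) * D.σ (z (du y)) * w y)) := by
    intro y
    unfold em
    split_ifs <;> ring
  show ∑ y, em D j z γ x y * w y = _
  rw [Finset.sum_congr rfl fun y _ => h3 y, Finset.sum_sub_distrib, Finset.sum_add_distrib, h1,
    ← Finset.mul_sum, ← Finset.mul_sum, ← Finset.mul_sum, h2, Finset.sum_ite_eq' Finset.univ (fi j)]
  simp only [Finset.mem_univ, if_true, Pi.add_apply, Pi.smul_apply, smul_eq_mul]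
  ring

private lemma em_mul (j : Fin n) (z z' : Ix n a → F) (γ γ' : F) (hz : z (fi j) = 0)
    (hz' : z' (fi j) = 0) :
    em D j z' γ' * em D j z γ = em D j (z' + z) (γ' + γ - D.ep * D.B z' z) := by
  apply Matrix.ext_of_mulVec_single
  intro i
  rw [← Matrix.mulVec_mulVec]
  generalize (Pi.single i 1 : Ix n a → F) = w
  rw [em_mv, em_mv, em_mv]
  have h1 : (w + w (fi j) • (z + γ • sv (ei j)) + (-(D.ep * D.B z w)) • sv (ei j) :
      Ix n a → F) (fi j) = w (fi j) := by
    simp only [Pi.add_apply, Pi.smul_apply, smul_eq_mul, hz, sv_eif]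
    ring
  have h2 : D.B z' (w + w (fi j) • (z + γ • sv (ei j)) + (-(D.ep * D.B z w)) • sv (ei j))
      = D.B z' w + w (fi j) * D.B z' z := by
    rw [B_add_right, B_add_right, B_smul_right, B_smul_right, B_add_right, B_smul_right, B_e', hz',
      map_zero]
    ring
  rw [h1, h2, B_add_left]
  ext x
  simp only [Pi.add_apply, Pi.smul_apply, smul_eq_mul]
  ring

private lemma em_zero (j : Fin n) : em D j 0 0 = 1 := by
  ext x y
  unfold em
  simp

private lemma B_neg_left (v w : Ix n a → F) : D.B (-v) w = - D.B v w := by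
  have h := B_smul_left (D := D) (-1) v w
  rw [neg_one_smul, map_neg, map_one, neg_one_mul] at h
  exact h

private lemma B_neg_right (v w : Ix n a → F) : D.B v (-w) = - D.B v w := by
  have h := B_smul_right (D := D) (-1) v w
  rw [neg_one_smul, neg_one_mul] at h
  exact h

/-- the Eichler transformation -/
private def eg (D : FD n a F) (j : Fin n) (z : Ix n a → F) (γ : F) (hz : z (fi j) = 0) :
    GL (Ix n a) F :=
  ⟨em D j z γ, em D j (-z) (-γ - D.ep * D.B z z), by
    rw [em_mul j (-z) z _ γ (by rw [Pi.neg_apply, hz, neg_zero]) hz, B_neg_right, add_neg_cancel]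
    have : γ + (-γ - D.ep * D.B z z) - D.ep * -D.B z z = 0 := by ring
    rw [this, em_zero], by
    rw [em_mul j z (-z) γ _ hz (by rw [Pi.neg_apply, hz, neg_zero]), B_neg_left, neg_add_cancel]
    have : -γ - D.ep * D.B z z + γ - D.ep * -D.B z z = 0 := by ring
    rw [this, em_zero]⟩

private lemma eg_coe (j : Fin n) (z : Ix n a → F) (γ : F) (hz : z (fi j) = 0) :
    (eg D j z γ hz : Matrix (Ix n a) (Ix n a) F) = em D j z γ := rfl

private lemma eg_mv (j : Fin n) (z : Ix n a → F) (γ : F) (hz : z (fi j) = 0) (w : Ix n a → F) :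
    mv (eg D j z γ hz) w
      = w + w (fi j) • (z + γ • sv (ei j)) + (-(D.ep * D.B z w)) • sv (ei j) :=
  em_mv j z γ w

private lemma eg_IG (j : Fin n) (z : Ix n a → F) (γ : F) (hz : z (fi j) = 0)
    (h : (D.ep : F) * γ + D.σ γ + D.B z z = 0) : eg D j z γ hz ∈ IG D.J D.σ := by
  rw [IG_iff]
  intro w w'
  rw [eg_mv, eg_mv]
  simp only [B_add_left, B_add_right, B_smul_left, B_smul_right, B_e, B_e', Pi.add_apply,
    Pi.smul_apply, smul_eq_mul, sv_eif, hz, mul_zero, add_zero, map_neg, map_mul, sig_ep]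
  rw [B_symm z w]
  have h2 := ep_sq (D := D)
  linear_combination (D.σ (w (fi j)) * w' (fi j)) * h - (D.B z w' * D.σ (w (fi j))) * h2

theorem exists_eich (j : Fin n) {v : Ix n a → F} (hB : D.B v v = 0) (hj : v (fi j) = 1)
    (hv : Bd ((j : ℕ) + 1) v) (ht : ∀ x, v (pm x) = D.τ (v x)) :
    ∃ u ∈ D.U, mv u (sv (fi j)) = v ∧ mv u (sv (ei j)) = sv (ei j) ∧
      (∀ x y, x ≠ ei j → y ≠ fi j → (u : Matrix (Ix n a) (Ix n a) F) x y =
        (1 : Matrix (Ix n a) (Ix n a) F) x y) ∧ Fo ((j : ℕ) + 1) (u : Matrix (Ix n a) (Ix n a) F) := by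
  obtain ⟨γ, hγ⟩ : ∃ γ, γ = v (ei j) := ⟨_, rfl⟩
  obtain ⟨z, hzd⟩ : ∃ z : Ix n a → F, z = v - sv (fi j) - γ • sv (ei j) := ⟨_, rfl⟩
  have hvz : v = sv (fi j) + (z + γ • sv (ei j)) := by
    rw [hzd]
    abel
  have hzf : z (fi j) = 0 := by
    rw [hzd]
    simp only [Pi.sub_apply, Pi.smul_apply, smul_eq_mul, hj, sv_self, sv_eif]
    ring
  have hze : z (ei j) = 0 := by
    rw [hzd]
    simp only [Pi.sub_apply, Pi.smul_apply, smul_eq_mul, ← hγ, sv_self, sv_fie]
    ring
  have hzI : ∀ x, z x ≠ 0 → In ((j : ℕ) + 1) x ∧ x ≠ ei j ∧ x ≠ fi j := by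
    intro x hx
    have h1 : x ≠ ei j := by
      rintro rfl
      exact hx hze
    have h2 : x ≠ fi j := by
      rintro rfl
      exact hx hzf
    refine ⟨?_, h1, h2⟩
    by_contra h3
    apply hx
    rw [hzd]
    simp only [Pi.sub_apply, Pi.smul_apply, smul_eq_mul, hv x h3, sv_ne h1, sv_ne h2]
    ring
  have hzt : ∀ x, z (pm x) = D.τ (z x) := by
    intro x
    have h1 := (sv_tw (D := D) j).1 x
    have h2 := (sv_tw (D := D) j).2 x
    have h3 : D.τ γ = γ := by
      rw [hγ, ← ht (ei j)]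
      rfl
    rw [hzd]
    simp only [Pi.sub_apply, Pi.smul_apply, smul_eq_mul, map_sub, map_mul, h1, h2, h3, ht]
  have hτγ : D.τ γ = γ := by
    rw [hγ, ← ht (ei j)]
    rfl
  have hBz : (D.ep : F) * γ + D.σ γ + D.B z z = 0 := by
    have h4 : D.B (sv (fi j)) z = 0 := by
      rw [B_symm z (sv (fi j)), B_f', hze, map_zero, map_zero, mul_zero]
    have h5 : D.B v v = D.B v (sv (fi j)) + (D.B v z + γ * D.B v (sv (ei j))) := by
      have h7 := B_add_right (D := D) v (sv (fi j)) (z + γ • sv (ei j))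
      rw [← hvz] at h7
      rw [h7, B_add_right, B_smul_right]
    have h6 : D.B v z = D.B z z := by
      have h7 := B_add_left (D := D) (sv (fi j)) (z + γ • sv (ei j)) z
      rw [← hvz] at h7
      rw [h7, B_add_left, B_smul_left, h4, B_e, hzf]
      ring
    rw [hB, B_f', B_e', ← hγ, hj, map_one, h6] at h5
    linear_combination -h5
  have hrk : ∀ x, z x ≠ 0 → -(((j : ℕ) : ℤ) + 1) < rk x ∧ rk x < ((j : ℕ) : ℤ) + 1 := by
    intro x hx
    obtain ⟨h1, h2, h3⟩ := hzI x hx
    rcases x with ⟨i, b⟩ | i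
    · have h4 : (i : ℕ) < (j : ℕ) + 1 := h1
      cases b
      · have h5 : i ≠ j := fun h => h2 (by rw [h]; rfl)
        have h6 : (i : ℕ) ≠ j := fun h => h5 (Fin.ext h)
        show -(((j : ℕ) : ℤ) + 1) < -(((i : ℕ) : ℤ) + 1) ∧ -(((i : ℕ) : ℤ) + 1) < ((j : ℕ) : ℤ) + 1
        omega
      · have h5 : i ≠ j := fun h => h3 (by rw [h]; rfl)
        have h6 : (i : ℕ) ≠ j := fun h => h5 (Fin.ext h)
        show -(((j : ℕ) : ℤ) + 1) < (((i : ℕ) : ℤ) + 1) ∧ (((i : ℕ) : ℤ) + 1) < ((j : ℕ) : ℤ) + 1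
        omega
    · show -(((j : ℕ) : ℤ) + 1) < (0 : ℤ) ∧ (0 : ℤ) < ((j : ℕ) : ℤ) + 1
      omega
  have hIdu : ∀ (l : ℕ) (y : Ix n a), In l (du y) → In l y := by
    intro l y hy
    rcases y with ⟨i, b⟩ | i
    · exact hy
    · trivial
  have hUp : UpM rk (eg D j z γ hzf : Matrix (Ix n a) (Ix n a) F) := by
    intro x y hxy
    rw [eg_coe]
    unfold em
    have h1 : (z x + γ * (sv (ei j) : Ix n a → F) x) * (if y = fi j then 1 else 0) = 0 := by
      by_cases hy : y = fi j
      · subst hy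
        have h2 : x ≠ ei j := by
          rintro rfl
          apply hxy
          show -(((j : ℕ) : ℤ) + 1) < (((j : ℕ) : ℤ) + 1)
          omega
        have h3 : z x = 0 := by
          by_contra h4
          exact hxy (hrk x h4).2
        rw [h3, sv_ne h2]
        ring
      · rw [if_neg hy, mul_zero]
    have h2 : (sv (ei j) : Ix n a → F) x * (D.ep * ((D.c (du y) : F) * D.σ (z (du y)))) = 0 := by
      by_cases hx : x = ei j
      · subst hx
        have h3 : z (du y) = 0 := by
          by_contra h4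
          have h5 := (hrk (du y) h4).2
          rw [rk_du] at h5
          apply hxy
          show -(((j : ℕ) : ℤ) + 1) < rk y
          omega
        rw [h3, map_zero]
        ring
      · rw [sv_ne hx, zero_mul]
    rw [h1, h2]
    ring
  have hGS : eg D j z γ hzf ∈ GS F rk := mem_GS.2 hUp
  have hτep : D.τ (D.ep : F) = D.ep := tau_c (D := D) (fi j)
  have hTw : TwM D.τ pm (eg D j z γ hzf : Matrix (Ix n a) (Ix n a) F) := by
    intro x y
    rw [eg_coe]
    unfold em
    have h1 : (1 : Matrix (Ix n a) (Ix n a) F) (pm x) (pm y)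
        = D.τ ((1 : Matrix (Ix n a) (Ix n a) F) x y) := TwM.one x y
    have h2 : (if pm y = (fi j : Ix n a) then (1 : F) else 0)
        = D.τ (if y = (fi j : Ix n a) then (1 : F) else 0) := by
      have h3 : pm y = (fi j : Ix n a) ↔ y = fi j := by
        constructor
        · intro h
          apply pm.injective
          rw [h]
          rfl
        · rintro rfl
          rfl
      by_cases h4 : y = (fi j : Ix n a)
      · rw [if_pos h4, if_pos (h3.2 h4), map_one]
      · rw [if_neg h4, if_neg (fun h => h4 (h3.1 h)), map_zero]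
    rw [h1, h2, du_pm, c_pm, hzt, hzt, (sv_tw (D := D) j).1 x, D.st]
    simp only [map_sub, map_add, map_mul, hτγ, hτep, tau_c]
  have hG : eg D j z γ hzf ∈ D.G :=
    mem_G.2 ⟨eg_IG j z γ hzf hBz, hTw, fun _ => det_GS hGS⟩
  refine ⟨eg D j z γ hzf, ⟨hG, hGS⟩, ?_, ?_, ?_, ?_⟩
  · rw [eg_mv, sv_self, one_smul, B_f', hze, map_zero, mul_zero, neg_zero, zero_smul, add_zero]
    exact hvz.symm
  · rw [eg_mv, sv_eif, zero_smul, B_e', hzf, map_zero, mul_zero, mul_zero, neg_zero, zero_smul,
      add_zero, add_zero]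
  · intro x y hx hy
    rw [eg_coe]
    unfold em
    rw [if_neg hy, sv_ne hx]
    ring
  · intro x y hxy
    rw [eg_coe]
    unfold em
    have h1 : (z x + γ * (sv (ei j) : Ix n a → F) x) * (if y = fi j then 1 else 0) = 0 := by
      by_cases hy : y = fi j
      · subst hy
        have hIy : In ((j : ℕ) + 1) (fi j : Ix n a) := Nat.lt_succ_self _
        have h2 : x ≠ ei j := by
          rintro rfl
          exact hxy ⟨Nat.lt_succ_self _, hIy⟩
        have h3 : z x = 0 := by
          by_contra h4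
          exact hxy ⟨(hzI x h4).1, hIy⟩
        rw [h3, sv_ne h2]
        ring
      · rw [if_neg hy, mul_zero]
    have h2 : (sv (ei j) : Ix n a → F) x * (D.ep * ((D.c (du y) : F) * D.σ (z (du y)))) = 0 := by
      by_cases hx : x = ei j
      · subst hx
        have h3 : z (du y) = 0 := by
          by_contra h4
          exact hxy ⟨Nat.lt_succ_self _, hIdu _ y (hzI (du y) h4).1⟩
        rw [h3, map_zero]
        ring
      · rw [sv_ne hx, zero_mul]
    rw [h1, h2]
    ring

private lemma eu_aux (j : Fin n) {u : GL (Ix n a) F} (hu : u ∈ D.G)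
    (he : mv u (sv (ei j)) = sv (ei j))
    (hx : ∀ x y, x ≠ ei j → y ≠ fi j → (u : Matrix (Ix n a) (Ix n a) F) x y =
        (1 : Matrix (Ix n a) (Ix n a) F) x y) {y : Ix n a} (h1 : y ≠ ei j) (h2 : y ≠ fi j) :
    D.σ ((u : Matrix (Ix n a) (Ix n a) F) (ei j) y)
      = - ((D.c y : F) * mv u (sv (fi j)) (du y)) := by
  have h3 : mv u (sv y) = sv y + ((u : Matrix (Ix n a) (Ix n a) F) (ei j) y) • sv (ei j) := by
    ext x
    rw [mv_apply]
    simp only [Pi.add_apply, Pi.smul_apply, smul_eq_mul]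
    by_cases h4 : x = ei j
    · subst h4
      rw [sv_ne h1.symm, sv_self]
      ring
    · rw [hx x y h4 h2, sv_ne h4, mul_zero, add_zero]
      by_cases h5 : x = y
      · subst h5
        rw [sv_self, Matrix.one_apply_eq]
      · rw [sv_ne h5, Matrix.one_apply_ne h5]
  have h4 : mv u (sv (fi j)) (fi j) = 1 := by
    have h5 := B_mv hu (sv (ei j)) (sv (fi j))
    rw [he, B_e, B_e, sv_self] at h5
    exact h5
  have h5 := B_mv hu (sv y) (sv (fi j))
  rw [h3, B_add_left, B_smul_left, B_e, h4, B_sv_left, B_sv_left] at h5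
  have h6 : du y ≠ fi j := by
    intro h
    apply h1
    have := congrArg du h
    rw [du_du, du_fi] at this
    exact this
  rw [sv_ne h6, mul_zero, mul_one] at h5
  linear_combination h5

theorem eich_unique (j : Fin n) {u u' : GL (Ix n a) F} (hu : u ∈ D.G) (hu' : u' ∈ D.G)
    (h : mv u (sv (fi j)) = mv u' (sv (fi j))) (he : mv u (sv (ei j)) = sv (ei j))
    (he' : mv u' (sv (ei j)) = sv (ei j))
    (hx : ∀ x y, x ≠ ei j → y ≠ fi j → (u : Matrix (Ix n a) (Ix n a) F) x y =
        (1 : Matrix (Ix n a) (Ix n a) F) x y)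
    (hx' : ∀ x y, x ≠ ei j → y ≠ fi j → (u' : Matrix (Ix n a) (Ix n a) F) x y =
        (1 : Matrix (Ix n a) (Ix n a) F) x y) : u = u' := by
  apply mv_ext
  intro y
  by_cases h2 : y = fi j
  · rw [h2]
    exact h
  by_cases h1 : y = ei j
  · rw [h1, he, he']
  ext x
  rw [mv_apply, mv_apply]
  by_cases h3 : x = ei j
  · rw [h3]
    apply D.σ.injective
    rw [eu_aux j hu he hx h1 h2, eu_aux j hu' he' hx' h1 h2, h]
  · rw [hx x y h3 h2, hx' x y h3 h2]

end

end AO.MG
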