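import Pool.Agent.AO.F02

/-!
# MP_6c3636_al, AO, module F04: the torus (helper7)

`tor x = hy (mo 1 x)`: `hy_ee`, `hy_ff`, `hy_mem`. `T_f`: the isometry condition for the columns `ei i`, `fi i` of a diagonal matrix `t`: `σ (t ei) * t fi = 1`. `T_tau`: `TwM`, `pm (ei i) = ei i`. `T_m1`: the isometry condition for `mi j`, `mi (rev j)` (`cm ≠ 0`). `T_m2`: `TwM`. `T_so`: `so = true`, `a = 1`: `σ = id`, so `t (ei i) * t (fi i) = 1` and the determinant `∏ t x x = t (mi j) (mi j)` is `1`. `T_tor`: `DG_ext`. The conjugation statements: `DG_GS_conj`, `DG_LS`.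
-/

namespace AO.MG

noncomputable section

open Classical Equiv Matrix

open AN (sq)

variable {n a : ℕ} {F : Type} [Field F] [Finite F] {D : FD n a F}

theorem T_DG {t : GL (Ix n a) F} (ht : t ∈ D.T) : t ∈ DG (Ix n a) F := ht.2

private theorem T_G {t : GL (Ix n a) F} (ht : t ∈ D.T) : t ∈ D.G := ht.1

theorem tor_e (x : Fin n → Fˣ) (i : Fin n) :
    (D.tor x : Matrix (Ix n a) (Ix n a) F) (ei i) (ei i) = x i := by
  rw [FD.tor, hy_ee, mo_apply, if_pos]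
  rfl

theorem tor_f (x : Fin n → Fˣ) (i : Fin n) :
    (D.tor x : Matrix (Ix n a) (Ix n a) F) (fi i) (fi i) = (D.σ (x i : F))⁻¹ := by
  rw [FD.tor, hy_ff, mo_inv, mo_apply, if_pos]
  · rw [← map_inv₀, ← Units.val_inv_eq_inv_val]
    rfl
  · rfl

theorem tor_m (x : Fin n → Fˣ) (j : Fin a) :
    (D.tor x : Matrix (Ix n a) (Ix n a) F) (mi j) (mi j) = 1 := by
  rw [FD.tor, FD.hy_coe]
  show (if j = j then (1 : F) else 0) = 1
  rw [if_pos rfl]

theorem tor_mem {x : Fin n → Fˣ} (hx : ∀ i, D.τ (x i : F) = x i) : D.tor x ∈ D.T := by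
  refine ⟨hy_mem ?_, hy_DG (mo_DG x)⟩
  intro i j
  rw [mo_apply]
  split_ifs
  · exact hx j
  · exact map_zero _

theorem tor_mul (x y : Fin n → Fˣ) : D.tor (x * y) = D.tor x * D.tor y := by
  rw [FD.tor, FD.tor, FD.tor, ← map_mul, mo_mul]
  rfl

/-- the isometry condition for a diagonal matrix -/
private theorem T_du {t : GL (Ix n a) F} (ht : t ∈ D.T) (x : Ix n a) :
    D.σ ((t : Matrix (Ix n a) (Ix n a) F) x x) * (t : Matrix (Ix n a) (Ix n a) F) (du x) (du x) = 1 := by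
  have h1 : ∀ y : Ix n a, mv t (sv y) = (t : Matrix (Ix n a) (Ix n a) F) y y • (sv y : Ix n a → F) := by
    intro y
    ext z
    rw [mv_apply, Pi.smul_apply, smul_eq_mul, sv]
    by_cases hz : z = y
    · rw [hz, Pi.single_eq_same, mul_one]
    · rw [Pi.single_eq_of_ne hz, mul_zero]
      exact mem_DG.1 (T_DG ht) z y hz
  have h2 := B_mv (T_G ht) (sv x) (sv (du x))
  rw [h1, h1, B_smul_left, B_smul_right, B_sv_left, sv, Pi.single_eq_same, mul_one] at h2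
  have h3 : (D.c x : F) ≠ 0 := Units.ne_zero _
  refine mul_right_cancel₀ h3 ?_
  rw [one_mul, mul_assoc]
  exact h2

theorem T_f {t : GL (Ix n a) F} (ht : t ∈ D.T) (i : Fin n) :
    (t : Matrix (Ix n a) (Ix n a) F) (fi i) (fi i) =
      (D.σ ((t : Matrix (Ix n a) (Ix n a) F) (ei i) (ei i)))⁻¹ :=
  eq_inv_of_mul_eq_one_right (T_du ht (ei i))

theorem T_tau {t : GL (Ix n a) F} (ht : t ∈ D.T) (i : Fin n) :
    D.τ ((t : Matrix (Ix n a) (Ix n a) F) (ei i) (ei i)) =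
      (t : Matrix (Ix n a) (Ix n a) F) (ei i) (ei i) :=
  ((mem_G.1 (T_G ht)).2.1 (ei i) (ei i)).symm

theorem T_m1 {t : GL (Ix n a) F} (ht : t ∈ D.T) (j : Fin a) :
    D.σ ((t : Matrix (Ix n a) (Ix n a) F) (mi j) (mi j)) *
      (t : Matrix (Ix n a) (Ix n a) F) (mi (Fin.rev j)) (mi (Fin.rev j)) = 1 :=
  T_du ht (mi j)

theorem T_m2 {t : GL (Ix n a) F} (ht : t ∈ D.T) (j : Fin a) :
    (t : Matrix (Ix n a) (Ix n a) F) (mi (Fin.rev j)) (mi (Fin.rev j)) =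
      D.τ ((t : Matrix (Ix n a) (Ix n a) F) (mi j) (mi j)) :=
  (mem_G.1 (T_G ht)).2.1 (mi j) (mi j)

theorem T_so {t : GL (Ix n a) F} (ht : t ∈ D.T) (hs : D.so = true) (ha : a = 1) (j : Fin a) :
    (t : Matrix (Ix n a) (Ix n a) F) (mi j) (mi j) = 1 := by
  have hσ := (D.sos hs).1
  have hdet := (mem_G.1 (T_G ht)).2.2 hs
  have h1 : (t : Matrix (Ix n a) (Ix n a) F) =
      Matrix.diagonal fun x => (t : Matrix (Ix n a) (Ix n a) F) x x := by
    ext x y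
    by_cases hxy : x = y
    · rw [hxy, Matrix.diagonal_apply_eq]
    · rw [Matrix.diagonal_apply_ne _ hxy]
      exact mem_DG.1 (T_DG ht) x y hxy
  rw [h1, Matrix.det_diagonal, Fintype.prod_sum_type, Fintype.prod_prod_type] at hdet
  have h2 : ∀ i : Fin n, ∏ b : Bool, (t : Matrix (Ix n a) (Ix n a) F) (Sum.inl (i, b)) (Sum.inl (i, b)) = 1 := by
    intro i
    rw [Fintype.prod_bool]
    have h3 := T_du ht (ei i)
    rw [hσ] at h3
    rw [mul_comm]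
    exact h3
  rw [Finset.prod_eq_one (fun i _ => h2 i), one_mul] at hdet
  have h4 : ∀ j' : Fin a, j' = j := fun j' => Fin.ext (by have := j'.2; have := j.2; omega)
  rw [Finset.prod_eq_single j (fun j' _ hj' => absurd (h4 j') hj') (fun h => absurd (Finset.mem_univ _) h)] at hdet
  exact hdet

theorem T_tor {t : GL (Ix n a) F} (ht : t ∈ D.T)
    (hm : ∀ j, (t : Matrix (Ix n a) (Ix n a) F) (mi j) (mi j) = 1) :
    ∃ x : Fin n → Fˣ, (∀ i, D.τ (x i : F) = x i) ∧ t = D.tor x := by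
  obtain ⟨x, hx⟩ : ∃ x : Fin n → Fˣ, ∀ i, (x i : F) = (t : Matrix (Ix n a) (Ix n a) F) (ei i) (ei i) :=
    ⟨fun i => Units.mk0 _ (DG_ne (T_DG ht) (ei i)), fun i => rfl⟩
  have h0 : ∀ i : Fin n, D.τ (x i : F) = x i := by
    intro i
    rw [hx]
    exact T_tau ht i
  refine ⟨x, h0, DG_ext (T_DG ht) (T_DG (tor_mem h0)) ?_⟩
  rintro (⟨i, b⟩ | j)
  · cases b
    · exact (hx i).symm.trans (tor_e (D := D) x i).symm
    · refine (T_f ht i).trans ?_
      rw [← hx i]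
      exact (tor_f (D := D) x i).symm
  · exact (hm j).trans (tor_m (D := D) x j).symm

theorem T_comm {t t' : GL (Ix n a) F} (ht : t ∈ D.T) (ht' : t' ∈ D.T) : t * t' = t' * t :=
  DG_comm (T_DG ht) (T_DG ht')

theorem T_U {t u : GL (Ix n a) F} (ht : t ∈ D.T) (hu : u ∈ D.U) : t * u * t⁻¹ ∈ D.U :=
  ⟨D.G.mul_mem (D.G.mul_mem (T_G ht) hu.1) (D.G.inv_mem (T_G ht)), DG_GS_conj (T_DG ht) hu.2⟩

theorem T_R {t r : GL (Ix n a) F} (ht : t ∈ D.T) {l : Fin n} (hr : r ∈ D.R l) : t * r * t⁻¹ ∈ D.R l :=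
  ⟨⟨D.G.mul_mem (D.G.mul_mem (T_G ht) hr.1.1) (D.G.inv_mem (T_G ht)), DG_GS_conj (T_DG ht) hr.1.2⟩,
    (LS F (yl (l : ℕ))).mul_mem ((LS F (yl (l : ℕ))).mul_mem (DG_LS (T_DG ht)) hr.2)
      ((LS F (yl (l : ℕ))).inv_mem (DG_LS (T_DG ht)))⟩

end

end AO.MG
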