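import Pool.Agent.AO.M03

/-!
# MP_6c3636_al, AO, module N01: simple reflections of the general linear group (helper7)

The matrices are monomial (`gls_mo`); use `mo_mul`, `mo_inj`-like comparisons of permutations (`Equiv.swap`), `conj_Up` and `mem_GS`. `gl_PO`: for `l = 0` the levels `gy 0 i = - i` are pairwise different, so `glR F l = ⊥` (`LS_GS_one`-like: the entries with `gy i ≠ gy j` and those with `¬ gr i < gr j` are trivial). For `l > 0`, `r ∈ glR F l` has only one nontrivial entry, at `(l, l - 1)`: `gy l i = gy l j`, `gr i < gr j` only for `(i, j) = (l, pr l)` (`lv l i = lv l j`, `i ≠ j`, means `{i, j} = {l - 1, l}`). The entry of `m⁻¹ r m` at `(i, j)` is nontrivial only if `(w i, w j) = (l, pr l)`.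
-/

namespace AO.MG

noncomputable section

open Classical Equiv Matrix

open AN (sq)

variable {n : ℕ} {F : Type} [Field F]

/-- the root subgroups of the general linear group -/
def glR (F : Type) [Field F] (l : Fin n) : Subgroup (GL (Fin n) F) := GS F gr ⊓ LS F (gy l)

theorem N01_pr_val (l : Fin n) : ((pr l : Fin n) : ℕ) = (l : ℕ) - 1 := rfl

theorem N01_gr_lt {i j : Fin n} (h : (j : ℕ) < i) : gr i < gr j := by
  unfold gr
  have : ((j : ℕ) : ℤ) < ((i : ℕ) : ℤ) := by exact_mod_cast h
  linarith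

theorem N01_lt_of_gr {i j : Fin n} (h : gr i < gr j) : (j : ℕ) < i := by
  unfold gr at h
  have : ((j : ℕ) : ℤ) < ((i : ℕ) : ℤ) := by linarith
  exact_mod_cast this

theorem N01_gls_pos {l : Fin n} (h : 0 < (l : ℕ)) : gls F l = mo (Equiv.swap (pr l) l) 1 := by
  unfold gls
  rw [if_pos h]

theorem N01_gls_neg {l : Fin n} (h : ¬ 0 < (l : ℕ)) : gls F l = 1 := by
  unfold gls
  rw [if_neg h]

theorem gls_mo (l : Fin n) : gls F l = mo (if 0 < (l : ℕ) then Equiv.swap (pr l) l else 1) 1 := by
  by_cases h : 0 < (l : ℕ)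
  · rw [N01_gls_pos h, if_pos h]
  · rw [N01_gls_neg h, if_neg h, mo_one]

theorem N01_mo_mul_one {ι : Type} [Fintype ι] [DecidableEq ι] (w w' : Perm ι) :
    (mo w 1 * mo w' 1 : GL ι F) = mo (w * w') 1 := by
  rw [mo_mul]
  congr 1
  funext j
  simp

theorem gls_sq (l : Fin n) : gls F l * gls F l = 1 := by
  by_cases h : 0 < (l : ℕ)
  · rw [N01_gls_pos h, N01_mo_mul_one, Equiv.swap_mul_self, mo_one]
  · rw [N01_gls_neg h, one_mul]

theorem gls_inv (l : Fin n) : (gls F l)⁻¹ = gls F l :=
  inv_eq_of_mul_eq_one_left (gls_sq l)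

theorem gls_comm {i j : Fin n} (h : (i : ℕ) + 2 ≤ j) : gls F i * gls F j = gls F j * gls F i := by
  have hj : 0 < (j : ℕ) := by omega
  by_cases hi : 0 < (i : ℕ)
  · have h1 : Equiv.swap (pr i) i (pr j) = pr j := by
      apply Equiv.swap_apply_of_ne_of_ne
      · intro e
        have e' := congrArg Fin.val e
        rw [N01_pr_val, N01_pr_val] at e'
        omega
      · intro e
        have e' := congrArg Fin.val e
        rw [N01_pr_val] at e'
        omega
    have h2 : Equiv.swap (pr i) i j = j := by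
      apply Equiv.swap_apply_of_ne_of_ne
      · intro e
        have e' := congrArg Fin.val e
        rw [N01_pr_val] at e'
        omega
      · intro e
        have e' := congrArg Fin.val e
        omega
    rw [N01_gls_pos hi, N01_gls_pos hj, N01_mo_mul_one, N01_mo_mul_one, Equiv.mul_swap_eq_swap_mul, h1, h2]
  · rw [N01_gls_neg hi, one_mul, mul_one]

theorem N01_sw_k {k l : Fin n} (hl : (l : ℕ) = k + 1) (hk : 0 < (k : ℕ)) :
    pr l = k ∧ Equiv.swap k l k = l ∧ Equiv.swap k l l = k ∧ Equiv.swap k l (pr k) = pr k ∧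
      Equiv.swap (pr k) k k = pr k ∧ Equiv.swap (pr k) k (pr k) = k ∧ Equiv.swap (pr k) k l = l := by
  refine ⟨?_, Equiv.swap_apply_left _ _, Equiv.swap_apply_right _ _, ?_, Equiv.swap_apply_right _ _,
    Equiv.swap_apply_left _ _, ?_⟩
  · apply Fin.ext
    rw [N01_pr_val]
    omega
  · apply Equiv.swap_apply_of_ne_of_ne
    · intro e
      have e' := congrArg Fin.val e
      rw [N01_pr_val] at e'
      omega
    · intro e
      have e' := congrArg Fin.val e
      rw [N01_pr_val] at e'
      omega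
  · apply Equiv.swap_apply_of_ne_of_ne
    · intro e
      have e' := congrArg Fin.val e
      rw [N01_pr_val] at e'
      omega
    · intro e
      have e' := congrArg Fin.val e
      omega

theorem gls_braid {k l : Fin n} (hl : (l : ℕ) = k + 1) (hk : 0 < (k : ℕ)) :
    gls F k * gls F l * gls F k = gls F l * gls F k * gls F l := by
  obtain ⟨h1, h2, h3, h4, h5, h6, h7⟩ := N01_sw_k hl hk
  have hl' : 0 < (l : ℕ) := by omega
  rw [N01_gls_pos hk, N01_gls_pos hl', h1, N01_mo_mul_one, N01_mo_mul_one, N01_mo_mul_one, N01_mo_mul_one,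
    Equiv.mul_swap_eq_swap_mul (Equiv.swap (pr k) k) k l, h5, h7, mul_assoc, Equiv.swap_mul_self, mul_one,
    Equiv.mul_swap_eq_swap_mul (Equiv.swap k l) (pr k) k, h4, h2, mul_assoc, Equiv.swap_mul_self, mul_one]

theorem lv_eq {l i j : ℕ} (hij : i ≠ j) (h : lv l i = lv l j) :
    (i = l ∧ j + 1 = l) ∨ (j = l ∧ i + 1 = l) := by
  unfold lv at h
  split_ifs at h <;> omega

theorem lv_le {l i j : ℕ} (h : i ≤ j) : lv l i ≤ lv l j := by
  unfold lv
  split_ifs <;> omega

theorem glR_supp {l : Fin n} {r : GL (Fin n) F} (hr : r ∈ glR F l) {i j : Fin n}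
    (h : ¬ (0 < (l : ℕ) ∧ i = l ∧ j = pr l)) :
    (r : Matrix (Fin n) (Fin n) F) i j = (1 : Matrix (Fin n) (Fin n) F) i j := by
  have hG : UpM gr (r : Matrix (Fin n) (Fin n) F) := hr.1.1
  have hL : LvM (gy l) (r : Matrix (Fin n) (Fin n) F) := hr.2.1
  by_cases hg : gr i < gr j
  · have hij := N01_lt_of_gr hg
    have hne : i ≠ j := by
      intro e
      rw [e] at hij
      omega
    by_cases hy : gy (l : ℕ) i = gy (l : ℕ) j
    · exfalso
      have h1 : lv (l : ℕ) (i : ℕ) = lv (l : ℕ) (j : ℕ) := by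
        unfold gy at hy
        exact neg_injective hy
      have h2 : (i : ℕ) ≠ (j : ℕ) := fun e => hne (Fin.ext e)
      rcases lv_eq h2 h1 with ⟨a1, a2⟩ | ⟨a1, a2⟩
      · apply h
        refine ⟨by omega, Fin.ext a1, Fin.ext ?_⟩
        rw [N01_pr_val]
        omega
      · omega
    · rw [hL i j hy, Matrix.one_apply_ne hne]
  · exact hG i j hg

theorem glR_zero {l : Fin n} (hl : (l : ℕ) = 0) : glR F l = ⊥ := by
  rw [eq_bot_iff]
  intro r hr
  rw [Subgroup.mem_bot]
  apply Units.ext
  ext i j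
  rw [Units.val_one]
  exact glR_supp hr (fun h => by
    have h1 := h.1
    omega)

variable [Finite F]

theorem gl_PO (l : Fin n) {w : Perm (Fin n)} {c : Fin n → Fˣ}
    (h : 0 < (l : ℕ) → gr (w.symm l) < gr (w.symm (pr l))) : PO (GS F gr) (glR F l) (mo w c) := by
  intro r hr
  rw [mem_GS]
  have h1 := conj_Up (w := w) (c := c) (g := r)
    (S := fun i j => 0 < (l : ℕ) ∧ i = l ∧ j = pr l) (S' := fun i j => gr i < gr j)
    (fun i j hij => glR_supp hr hij) ?_
  · exact h1
  · rintro i j ⟨h0, hi, hj⟩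
    have h2 := h h0
    rw [← hj, Equiv.symm_apply_apply, ← hi, Equiv.symm_apply_apply] at h2
    exact h2

theorem gl_far {i j : Fin n} (h : (i : ℕ) + 2 ≤ j) :
    PO (GS F gr) (glR F i) (gls F j) ∧ PO (GS F gr) (glR F j) (gls F i) := by
  have hj : 0 < (j : ℕ) := by omega
  constructor
  · rw [N01_gls_pos hj]
    refine gl_PO i fun hi => ?_
    rw [Equiv.symm_swap, Equiv.swap_apply_of_ne_of_ne, Equiv.swap_apply_of_ne_of_ne]
    · apply N01_gr_lt
      rw [N01_pr_val]
      omega
    · intro e
      have e' := congrArg Fin.val e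
      rw [N01_pr_val, N01_pr_val] at e'
      omega
    · intro e
      have e' := congrArg Fin.val e
      rw [N01_pr_val] at e'
      omega
    · intro e
      have e' := congrArg Fin.val e
      rw [N01_pr_val] at e'
      omega
    · intro e
      have e' := congrArg Fin.val e
      omega
  · by_cases hi : 0 < (i : ℕ)
    · rw [N01_gls_pos hi]
      refine gl_PO j fun _ => ?_
      rw [Equiv.symm_swap, Equiv.swap_apply_of_ne_of_ne, Equiv.swap_apply_of_ne_of_ne]
      · apply N01_gr_lt
        rw [N01_pr_val]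
        omega
      · intro e
        have e' := congrArg Fin.val e
        rw [N01_pr_val, N01_pr_val] at e'
        omega
      · intro e
        have e' := congrArg Fin.val e
        rw [N01_pr_val] at e'
        omega
      · intro e
        have e' := congrArg Fin.val e
        rw [N01_pr_val] at e'
        omega
      · intro e
        have e' := congrArg Fin.val e
        omega
    · rw [N01_gls_neg hi, ← mo_one]
      refine gl_PO j fun _ => ?_
      apply N01_gr_lt
      show ((pr j : Fin n) : ℕ) < (j : ℕ)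
      rw [N01_pr_val]
      omega

theorem gl_adj {k l : Fin n} (hl : (l : ℕ) = k + 1) (hk : 0 < (k : ℕ)) :
    PO (GS F gr) (glR F k) (gls F l) ∧ PO (GS F gr) (glR F l) (gls F k) ∧
      PO (GS F gr) (glR F k) (gls F l * gls F k) ∧ PO (GS F gr) (glR F l) (gls F k * gls F l) := by
  obtain ⟨h1, h2, h3, h4, h5, h6, h7⟩ := N01_sw_k hl hk
  have hl' : 0 < (l : ℕ) := by omega
  rw [N01_gls_pos hk, N01_gls_pos hl', h1, N01_mo_mul_one, N01_mo_mul_one]
  refine ⟨gl_PO k fun _ => ?_, gl_PO l fun _ => ?_, gl_PO k fun _ => ?_, gl_PO l fun _ => ?_⟩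
  · rw [Equiv.symm_swap, h2, h4]
    apply N01_gr_lt
    rw [N01_pr_val]
    omega
  · rw [Equiv.symm_swap, h1, h7, h5]
    apply N01_gr_lt
    rw [N01_pr_val]
    omega
  · have e1 : (Equiv.swap k l * Equiv.swap (pr k) k).symm k = l := by
      rw [Equiv.symm_apply_eq, Equiv.Perm.mul_apply, h7, h3]
    have e2 : (Equiv.swap k l * Equiv.swap (pr k) k).symm (pr k) = k := by
      rw [Equiv.symm_apply_eq, Equiv.Perm.mul_apply, h5, h4]
    rw [e1, e2]
    apply N01_gr_lt
    omega
  · have e1 : (Equiv.swap (pr k) k * Equiv.swap k l).symm l = k := by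
      rw [Equiv.symm_apply_eq, Equiv.Perm.mul_apply, h2, h7]
    have e2 : (Equiv.swap (pr k) k * Equiv.swap k l).symm k = pr k := by
      rw [Equiv.symm_apply_eq, Equiv.Perm.mul_apply, h4, h6]
    rw [h1, e1, e2]
    apply N01_gr_lt
    rw [N01_pr_val]
    omega

end

end AO.MG
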