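import Pool.Agent.AO.F04
import Pool.Agent.AO.N01

/-!
# MP_6c3636_al, AO, module F05: the simple reflections (helper7)

`s_mo`: `hy_mo`, `gls_mo` for `l > 0`. `s_mem`: `mo_IG` (for `l = 0`: `c0`, `oms`, `ep2`, `cms`: for `x = mi j`: `σ(om) * cm * om = cm`), `mo_TW` (`omt`), and if `so = true`: the determinant of `s l`: `hy_mem` for `l > 0`; for `l = 0`: `mo_det`: the permutation exchanges `e`, `f` (one transposition) and the anisotropic part is reversed (`a = 1`: nothing, `a = 2`: one transposition; no other `a` by `sos`), so `sign * ep * om ^ a = 1` by `sos`. `ws_act`: by cases. `s_sT`: `mo_conj_DG`. `s_sq`: `mo_mul`: `ws l * ws l = 1`. `s_sq_one`: `c0 (w0 x) * c0 x = 1`.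
-/

namespace AO.MG

noncomputable section

open Classical Equiv Matrix

open AN (sq)

variable {n a : ℕ} {F : Type} [Field F] [Finite F] {D : FD n a F}

namespace F05_aux

theorem app_inv {ι : Type} (w : Perm ι) (x : ι) : w (w⁻¹ x) = x := by
  rw [← Equiv.Perm.mul_apply, mul_inv_cancel, Equiv.Perm.one_apply]

theorem ws_pos {l : Fin n} (hl : 0 < (l : ℕ)) : ws a l = pw a (Equiv.swap (pr l) l) := if_pos hl

theorem ws_zero {l : Fin n} (hl : (l : ℕ) = 0) : ws a l = w0 n a := if_neg (by omega)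

theorem w0_e {i : Fin n} (hi : (i : ℕ) = 0) (b : Bool) :
    w0 n a (Sum.inl (i, b)) = Sum.inl (i, !b) := if_pos hi

theorem w0_e' {i : Fin n} (hi : (i : ℕ) ≠ 0) (b : Bool) :
    w0 n a (Sum.inl (i, b)) = Sum.inl (i, b) := if_neg hi

theorem w0_m (j : Fin a) : w0 n a (Sum.inr j) = Sum.inr (Fin.rev j) := rfl

theorem w0_w0 (x : Ix n a) : w0 n a (w0 n a x) = x := (w0 n a).left_inv x

theorem pw_pw (w : Perm (Fin n)) (hw : ∀ i, w (w i) = i) (x : Ix n a) :
    pw a w (pw a w x) = x := by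
  rcases x with ⟨i, b⟩ | j
  · show Sum.inl (w (w i), b) = _
    rw [hw]
  · rfl

theorem pw_du (w : Perm (Fin n)) (x : Ix n a) : pw a w (du x) = du (pw a w x) := by
  rcases x with ⟨i, b⟩ | j
  · rfl
  · rfl

theorem w0_du (x : Ix n a) : w0 n a (du x) = du (w0 n a x) := by
  rcases x with ⟨i, b⟩ | j
  · show w0 n a (Sum.inl (i, !b)) = du (w0 n a (Sum.inl (i, b)))
    by_cases hi : (i : ℕ) = 0
    · rw [w0_e hi, w0_e hi]
      rfl
    · rw [w0_e' hi, w0_e' hi]
      rfl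
  · rfl

theorem w0_pm (x : Ix n a) : w0 n a (pm x) = pm (w0 n a x) := by
  rcases x with ⟨i, b⟩ | j
  · show w0 n a (Sum.inl (i, b)) = pm (w0 n a (Sum.inl (i, b)))
    by_cases hi : (i : ℕ) = 0
    · rw [w0_e hi]
      rfl
    · rw [w0_e' hi]
      rfl
  · rfl

theorem c0_e {i : Fin n} (hi : (i : ℕ) = 0) : D.c0 (Sum.inl (i, false)) = D.ep := if_pos hi

theorem c0_e' {i : Fin n} (hi : (i : ℕ) ≠ 0) : D.c0 (Sum.inl (i, false)) = 1 := if_neg hi

theorem tau_ep : D.τ (D.ep : F) = D.ep := by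
  rcases D.ep2 with h | h
  · rw [h, Units.val_one, map_one]
  · rw [h, Units.val_neg, Units.val_one, map_neg, map_one]

theorem c0_pm (x : Ix n a) : (D.c0 (pm x) : F) = D.τ (D.c0 x : F) := by
  rcases x with ⟨i, b⟩ | j
  · show (D.c0 (Sum.inl (i, b)) : F) = D.τ (D.c0 (Sum.inl (i, b)) : F)
    cases b
    · by_cases hi : (i : ℕ) = 0
      · rw [c0_e hi, tau_ep]
      · rw [c0_e' hi, Units.val_one, map_one]
    · show ((1 : Fˣ) : F) = D.τ ((1 : Fˣ) : F)
      rw [Units.val_one, map_one]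
  · exact D.omt.symm

theorem c0_IG (x : Ix n a) :
    D.σ (D.c0 x : F) * (D.c (w0 n a x) : F) * (D.c0 (du x) : F) = (D.c x : F) := by
  rcases x with ⟨i, b⟩ | j
  · by_cases hi : (i : ℕ) = 0
    · rw [w0_e hi]
      cases b
      · rw [c0_e hi]
        show D.σ (D.ep : F) * (D.ep : F) * ((1 : Fˣ) : F) = ((1 : Fˣ) : F)
        rw [sig_ep, ep_sq, Units.val_one, mul_one]
      · show D.σ ((1 : Fˣ) : F) * ((1 : Fˣ) : F) * (D.c0 (Sum.inl (i, false)) : F) = (D.ep : F)
        rw [c0_e hi, Units.val_one, map_one, one_mul, one_mul]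
    · rw [w0_e' hi]
      cases b
      · rw [c0_e' hi]
        show D.σ ((1 : Fˣ) : F) * ((1 : Fˣ) : F) * ((1 : Fˣ) : F) = ((1 : Fˣ) : F)
        rw [Units.val_one, map_one, one_mul, one_mul]
      · show D.σ ((1 : Fˣ) : F) * (D.ep : F) * (D.c0 (Sum.inl (i, false)) : F) = (D.ep : F)
        rw [c0_e' hi, Units.val_one, map_one, one_mul, mul_one]
  · show D.σ (D.om : F) * (D.cm : F) * (D.om : F) = (D.cm : F)
    linear_combination (D.cm : F) * D.oms

theorem w0_one {l : Fin n} (hl : (l : ℕ) = 0) : w0 n 1 = Equiv.swap (ei l) (fi l) := by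
  ext x : 1
  rcases x with ⟨i, b⟩ | j
  · by_cases hi : (i : ℕ) = 0
    · have h1 : i = l := Fin.ext (by rw [hi, hl])
      subst h1
      rw [w0_e hi]
      cases b
      · exact (Equiv.swap_apply_left _ _).symm
      · exact (Equiv.swap_apply_right _ _).symm
    · rw [w0_e' hi, Equiv.swap_apply_of_ne_of_ne]
      · intro h
        have h2 : (i, b) = (l, false) := Sum.inl_injective h
        exact hi (by rw [(Prod.mk.inj h2).1, hl])
      · intro h
        have h2 : (i, b) = (l, true) := Sum.inl_injective h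
        exact hi (by rw [(Prod.mk.inj h2).1, hl])
  · rw [w0_m, Equiv.swap_apply_of_ne_of_ne (by intro h; cases h) (by intro h; cases h)]
    rw [Subsingleton.elim (Fin.rev j) j]

theorem w0_two {l : Fin n} (hl : (l : ℕ) = 0) :
    w0 n 2 = Equiv.swap (ei l) (fi l) * Equiv.swap (mi 0) (mi 1) := by
  ext x : 1
  rw [Equiv.Perm.mul_apply]
  rcases x with ⟨i, b⟩ | j
  · rw [Equiv.swap_apply_of_ne_of_ne (a := (mi 0 : Ix n 2)) (by intro h; cases h) (by intro h; cases h)]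
    by_cases hi : (i : ℕ) = 0
    · have h1 : i = l := Fin.ext (by rw [hi, hl])
      subst h1
      rw [w0_e hi]
      cases b
      · exact (Equiv.swap_apply_left _ _).symm
      · exact (Equiv.swap_apply_right _ _).symm
    · rw [w0_e' hi, Equiv.swap_apply_of_ne_of_ne]
      · intro h
        have h2 : (i, b) = (l, false) := Sum.inl_injective h
        exact hi (by rw [(Prod.mk.inj h2).1, hl])
      · intro h
        have h2 : (i, b) = (l, true) := Sum.inl_injective h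
        exact hi (by rw [(Prod.mk.inj h2).1, hl])
  · have h1 : Equiv.swap (mi 0 : Ix n 2) (mi 1) (Sum.inr j) = Sum.inr (Fin.rev j) := by
      fin_cases j
      · exact Equiv.swap_apply_left _ _
      · exact Equiv.swap_apply_right _ _
    rw [w0_m, h1, Equiv.swap_apply_of_ne_of_ne (by intro h; cases h) (by intro h; cases h)]

theorem prod_c0 (he : D.ep = 1) : ∏ x, (D.c0 x : F) = (D.om : F) ^ a := by
  rw [Fintype.prod_sum_type]
  have h1 : ∀ p : Fin n × Bool, (D.c0 (Sum.inl p) : F) = 1 := by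
    rintro ⟨i, b⟩
    cases b
    · by_cases hi : (i : ℕ) = 0
      · rw [c0_e hi, he, Units.val_one]
      · rw [c0_e' hi, Units.val_one]
    · exact Units.val_one
  rw [Finset.prod_congr rfl (fun p _ => h1 p), Finset.prod_const_one, one_mul]
  have h2 : ∀ j : Fin a, (D.c0 (Sum.inr j) : F) = D.om := fun _ => rfl
  rw [Finset.prod_congr rfl (fun j _ => h2 j), Finset.prod_const, Finset.card_univ, Fintype.card_fin]

theorem det_s0 {l : Fin n} (hl : (l : ℕ) = 0) (hs : D.so = true) :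
    (mo (w0 n a) D.c0 : Matrix (Ix n a) (Ix n a) F).det = 1 := by
  obtain ⟨_, he, h⟩ := D.sos hs
  rw [mo_det, prod_c0 he]
  rcases h with ⟨ha, ho⟩ | ⟨ha, ho⟩
  · subst ha
    rw [w0_one hl, Equiv.Perm.sign_swap (by intro h'; cases h'), ho]
    norm_num
  · subst ha
    rw [w0_two hl, Equiv.Perm.sign_mul, Equiv.Perm.sign_swap (by intro h'; cases h'),
      Equiv.Perm.sign_swap (by intro h'; cases h'), ho]
    norm_num

theorem s_pos {l : Fin n} (hl : 0 < (l : ℕ)) : D.s l = D.hy (gls F l) := if_pos hl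

theorem s_zero {l : Fin n} (hl : (l : ℕ) = 0) : D.s l = mo (w0 n a) D.c0 := if_neg (by omega)

theorem hyc_one : hyc (a := a) D.σ (1 : Fin n → Fˣ) = 1 := by
  ext x
  rcases x with ⟨i, b⟩ | j
  · cases b
    · rfl
    · show (((Units.map (D.σ : F →* F) 1)⁻¹ : Fˣ) : F) = ((1 : Fˣ) : F)
      rw [map_one, inv_one]
  · rfl

end F05_aux

open F05_aux

theorem ws_e {l : Fin n} (hl : 0 < (l : ℕ)) (i : Fin n) :
    ws a l (ei i) = ei (Equiv.swap (pr l) l i) ∧ ws a l (fi i) = fi (Equiv.swap (pr l) l i) := by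
  rw [ws_pos hl]
  exact ⟨rfl, rfl⟩

theorem ws_m {l : Fin n} (hl : 0 < (l : ℕ)) (j : Fin a) : ws a l (mi j) = mi j := by
  rw [ws_pos hl]
  rfl

theorem ws_0 {l : Fin n} (hl : (l : ℕ) = 0) : ws a l (ei l) = fi l ∧ ws a l (fi l) = ei l ∧
    (∀ i, i ≠ l → ws a l (ei i) = ei i ∧ ws a l (fi i) = fi i) ∧
    ∀ j : Fin a, ws a l (mi j) = mi (Fin.rev j) := by
  rw [ws_zero hl]
  refine ⟨w0_e hl false, w0_e hl true, fun i hi => ?_, fun j => rfl⟩
  have h : (i : ℕ) ≠ 0 := fun h' => hi (Fin.ext (by rw [h', hl]))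
  exact ⟨w0_e' h false, w0_e' h true⟩

theorem ws_ws (l : Fin n) : ws a l * ws a l = 1 := by
  ext x : 1
  rw [Equiv.Perm.mul_apply, Equiv.Perm.one_apply]
  rcases Nat.eq_zero_or_pos (l : ℕ) with hl | hl
  · rw [ws_zero hl, w0_w0]
  · rw [ws_pos hl]
    exact pw_pw _ (fun i => by rw [← Equiv.Perm.mul_apply, Equiv.swap_mul_self, Equiv.Perm.one_apply]) x

theorem ws_mem (l : Fin n) : ws a l ∈ WP n a := by
  rcases Nat.eq_zero_or_pos (l : ℕ) with hl | hl
  · rw [ws_zero hl]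
    exact ⟨w0_du, fun j => ⟨Fin.rev j, rfl⟩⟩
  · rw [ws_pos hl]
    exact ⟨pw_du _, fun j => ⟨j, rfl⟩⟩

theorem WP_one : (1 : Perm (Ix n a)) ∈ WP n a := ⟨fun _ => rfl, fun j => ⟨j, rfl⟩⟩

theorem WP_mul {w w' : Perm (Ix n a)} (h : w ∈ WP n a) (h' : w' ∈ WP n a) : w * w' ∈ WP n a := by
  refine ⟨fun x => ?_, fun j => ?_⟩
  · rw [Equiv.Perm.mul_apply, h'.1, h.1, Equiv.Perm.mul_apply]
  · obtain ⟨j', hj'⟩ := h'.2 j
    obtain ⟨j'', hj''⟩ := h.2 j'
    exact ⟨j'', by rw [Equiv.Perm.mul_apply, hj', hj'']⟩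

theorem WP_inv {w : Perm (Ix n a)} (h : w ∈ WP n a) : w⁻¹ ∈ WP n a := by
  refine ⟨fun x => ?_, ?_⟩
  · apply w.injective
    rw [app_inv, h.1, app_inv]
  · choose f hf using h.2
    have hinj : Function.Injective f := by
      intro j j' hjj
      have h1 : w (mi j) = w (mi j') := by rw [hf, hf, hjj]
      exact Sum.inr_injective (w.injective h1)
    intro j
    obtain ⟨j', hj'⟩ := (Finite.injective_iff_surjective.1 hinj) j
    refine ⟨j', ?_⟩
    apply w.injective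
    rw [app_inv, hf, hj']

theorem s_mo (l : Fin n) : D.s l = mo (ws a l) (D.cs l) := by
  rcases Nat.eq_zero_or_pos (l : ℕ) with hl | hl
  · rw [s_zero hl, ws_zero hl]
    have h1 : D.cs l = D.c0 := if_neg (by omega)
    rw [h1]
  · have h1 : D.cs l = 1 := if_pos hl
    rw [s_pos hl, ws_pos hl, gls_mo, if_pos hl, hy_mo, hyc_one, h1]

theorem s_mem (l : Fin n) : D.s l ∈ D.G := by
  rcases Nat.eq_zero_or_pos (l : ℕ) with hl | hl
  · rw [s_zero hl, mem_G]
    refine ⟨mo_IG w0_du c0_IG, ?_, fun hs => det_s0 hl hs⟩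
    exact mem_TW.1 (mo_TW w0_pm c0_pm)
  · rw [s_pos hl]
    refine hy_mem fun i j => ?_
    rw [gls_mo, mo_apply]
    split_ifs
    · rw [Pi.one_apply, Units.val_one, map_one]
    · rw [map_zero]
    · rw [Pi.one_apply, Units.val_one, map_one]
    · rw [map_zero]

theorem s_T {t : GL (Ix n a) F} (ht : t ∈ D.T) (l : Fin n) :
    D.s l * t * (D.s l)⁻¹ ∈ D.T ∧ (D.s l)⁻¹ * t * D.s l ∈ D.T := by
  have hs := s_mem (D := D) l
  have h1 := mo_conj_DG (ws a l) (D.cs l) (T_DG ht)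
  rw [← s_mo] at h1
  refine ⟨⟨?_, h1.1⟩, ⟨?_, h1.2⟩⟩
  · exact D.G.mul_mem (D.G.mul_mem hs ht.1) (D.G.inv_mem hs)
  · exact D.G.mul_mem (D.G.mul_mem (D.G.inv_mem hs) ht.1) hs

theorem s_sq (l : Fin n) : D.s l * D.s l ∈ D.T := by
  refine ⟨D.G.mul_mem (s_mem l) (s_mem l), ?_⟩
  rw [s_mo, mo_mul, ws_ws]
  exact mo_DG _

theorem s_sq_pos {l : Fin n} (hl : 0 < (l : ℕ)) : D.s l * D.s l = 1 := by
  rw [s_pos hl, ← map_mul, gls_sq, map_one]

theorem s_sq_zero {l : Fin n} (hl : (l : ℕ) = 0) :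
    ((D.s l * D.s l : GL (Ix n a) F) : Matrix (Ix n a) (Ix n a) F) (ei l) (ei l) = D.ep ∧
    ∀ i, i ≠ l → ((D.s l * D.s l : GL (Ix n a) F) : Matrix (Ix n a) (Ix n a) F) (ei i) (ei i) = 1 := by
  rw [s_zero hl, mo_mul]
  have h1 : w0 n a * w0 n a = 1 := by
    ext x : 1
    exact w0_w0 x
  rw [h1]
  refine ⟨?_, fun i hi => ?_⟩
  · rw [mo_apply, Equiv.Perm.one_apply, if_pos rfl]
    have h2 : w0 n a (ei l) = fi l := w0_e hl false
    have h3 : D.c0 (ei l) = D.ep := c0_e hl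
    have h4 : D.c0 (fi l) = 1 := rfl
    rw [h2, h3, h4, one_mul]
  · rw [mo_apply, Equiv.Perm.one_apply, if_pos rfl]
    have h : (i : ℕ) ≠ 0 := fun h' => hi (Fin.ext (by rw [h', hl]))
    have h2 : w0 n a (ei i) = ei i := w0_e' h false
    have h3 : D.c0 (ei i) = 1 := c0_e' h
    rw [h2, h3, one_mul, Units.val_one]

theorem s_sq_one (he : D.ep = 1) (ho : D.om = 1 ∨ D.om = -1) (l : Fin n) : D.s l * D.s l = 1 := by
  rcases Nat.eq_zero_or_pos (l : ℕ) with hl | hl
  · rw [s_zero hl, mo_mul, ← mo_one]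
    have h1 : w0 n a * w0 n a = 1 := by
      ext x : 1
      exact w0_w0 x
    rw [h1]
    congr 1
    ext1 x
    rw [Pi.one_apply]
    rcases x with ⟨i, b⟩ | j
    · have h2 : ∀ b', D.c0 (Sum.inl (i, b')) = 1 := by
        intro b'
        cases b'
        · by_cases hi : (i : ℕ) = 0
          · rw [c0_e hi, he]
          · exact c0_e' hi
        · rfl
      by_cases hi : (i : ℕ) = 0
      · rw [w0_e hi, h2, h2, one_mul]
      · rw [w0_e' hi, h2, one_mul]
    · show D.om * D.om = 1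
      rcases ho with h | h
      · rw [h, one_mul]
      · rw [h, neg_mul_neg, one_mul]
  · exact s_sq_pos hl

theorem NN_le : NN D.s D.T ≤ D.G := by
  rw [NN, Subgroup.closure_le]
  rintro x (⟨l, rfl⟩ | hx)
  · exact s_mem l
  · exact hx.1

end

end AO.MG
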