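import Pool.Agent.AO.N01
import Pool.Agent.AO.M02

/-!
# MP_6c3636_al, AO, module N02: minimal parabolic subgroups of the general linear group (helper7)

`gy l i < gy l j → gr i < gr j` and `gr i < gr j → gy l i ≤ gy l j` (`lv_le`). `gl_CR`: `u ∈ GS F gr` has `PbM (gy l) u`; `lev_split'`: `u = v * lev`, `v ∈ GS F (gy l) ≤ GS F gr`, so `lev = v⁻¹ u ∈ GS F gr`. `gl_sC`: `gls F l` is monomial and its permutation preserves `gy l` (`conj_Up`).
-/

namespace AO.MG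

noncomputable section

open Classical Equiv Matrix

open AN (sq)

variable {n : ℕ} {F : Type} [Field F]

variable [Finite F]

private theorem gy_gr {l : Fin n} {i j : Fin n} (h : gy (l : ℕ) i < gy (l : ℕ) j) : gr i < gr j := by
  unfold gy at h
  unfold gr
  by_contra hcon
  have h1 : (i : ℕ) ≤ j := by omega
  have h2 := lv_le (l := (l : ℕ)) h1
  omega

private theorem gy_swap {l : Fin n} (hl : 0 < (l : ℕ)) (i : Fin n) :
    gy (l : ℕ) (Equiv.swap (pr l) l i) = gy (l : ℕ) i := by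
  have h1 : gy (l : ℕ) (pr l) = gy (l : ℕ) l := by
    unfold gy lv
    have h2 : ((pr l : Fin n) : ℕ) = (l : ℕ) - 1 := rfl
    rw [h2, if_pos (by omega), if_neg (lt_irrefl _)]
    omega
  by_cases h : i = pr l
  · rw [h, Equiv.swap_apply_left, h1]
  · by_cases h' : i = l
    · rw [h', Equiv.swap_apply_right, h1]
    · rw [Equiv.swap_apply_of_ne_of_ne h h']

theorem gy_le (l : Fin n) : GS F (gy (l : ℕ)) ≤ GS F (gr (n := n)) :=
  GS_mono fun _ _ h => gy_gr h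

theorem gl_CR (l : Fin n) {u : GL (Fin n) F} (hu : u ∈ GS F gr) :
    ∃ c ∈ GS F (gy (l : ℕ)), ∃ r ∈ glR F l, u = c * r := by
  have h1 : PbM (gy (l : ℕ)) (u : Matrix (Fin n) (Fin n) F) := by
    intro i j hij
    have h2 := gy_gr hij
    rw [mem_GS.1 hu i j (not_lt.2 h2.le), Matrix.one_apply_ne]
    rintro rfl
    exact lt_irrefl _ h2
  obtain ⟨v, hv, huv⟩ := lev_split' h1
  refine ⟨v, hv, lev (gy (l : ℕ)) u, Subgroup.mem_inf.2 ⟨?_, lev_mem h1⟩, huv⟩
  have h3 : lev (gy (l : ℕ)) u = v⁻¹ * u := by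
    rw [eq_inv_mul_iff_mul_eq]
    exact huv.symm
  rw [h3]
  exact mul_mem (inv_mem (gy_le l hv)) hu

theorem gl_CRd {l : Fin n} {r : GL (Fin n) F} (hr : r ∈ glR F l) (hc : r ∈ GS F (gy (l : ℕ))) : r = 1 :=
  LS_GS_one (Subgroup.mem_inf.1 hr).2 hc

theorem gl_sC (l : Fin n) {c : GL (Fin n) F} (hc : c ∈ GS F (gy (l : ℕ))) :
    gls F l * c * (gls F l)⁻¹ ∈ GS F (gy (l : ℕ)) := by
  by_cases hl : 0 < (l : ℕ)
  · have h1 : gls F l * c * (gls F l)⁻¹ = (gls F l)⁻¹ * c * gls F l := by rw [gls_inv]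
    rw [h1, mem_GS, gls_mo, if_pos hl]
    have h2 := conj_Up (w := Equiv.swap (pr l) l) (c := (1 : Fin n → Fˣ)) (g := c)
      (S := fun i j => gy (l : ℕ) i < gy (l : ℕ) j) (S' := fun i j => gy (l : ℕ) i < gy (l : ℕ) j)
      (fun i j h => mem_GS.1 hc i j h) (fun i j h => by rwa [gy_swap hl, gy_swap hl] at h)
    exact h2
  · have h1 : gls F l = 1 := by
      unfold gls
      rw [if_neg hl]
    rw [h1, one_mul, inv_one, mul_one]
    exact hc

theorem gl_TR (l : Fin n) {t r : GL (Fin n) F} (ht : t ∈ DG (Fin n) F) (hr : r ∈ glR F l) :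
    t * r * t⁻¹ ∈ glR F l := by
  obtain ⟨h1, h2⟩ := Subgroup.mem_inf.1 hr
  exact Subgroup.mem_inf.2 ⟨DG_GS_conj ht h1, mul_mem (mul_mem (DG_LS ht) h2) (inv_mem (DG_LS ht))⟩

end

end AO.MG
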