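import Pool.Agent.AO.F05
import Pool.Agent.AO.N02

/-!
# MP_6c3636_al, AO, module F06: minimal parabolic subgroups (helper7)

`yl l x < yl l y → rk x < rk y` and `rk x < rk y → yl l x ≤ yl l y` (`lv_le`, `lv_eq` of N01; cases). `CR`: as `gl_CR` (N02) with `lev_IG` (`J x y ≠ 0` means `y = du x`), `lev_TW` (`pm`), `lev_det`. `sC`: the permutation `ws l` preserves `yl l` (`conj_Up`, or conjugation by the monomial matrix).
-/

namespace AO.MG

noncomputable section

open Classical Equiv Matrix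

open AN (sq)

variable {n a : ℕ} {F : Type} [Field F] [Finite F] {D : FD n a F}

theorem yl_rk {l : Fin n} {x y : Ix n a} (h : yl (l : ℕ) x < yl (l : ℕ) y) : rk x < rk y := by
  rcases x with ⟨i, b⟩ | i <;> rcases y with ⟨j, b'⟩ | j
  · cases b <;> cases b' <;> simp only [yl, rk, lv] at h ⊢ <;> split_ifs at h <;> omega
  · cases b <;> simp only [yl, rk, lv] at h ⊢ <;> split_ifs at h <;> omega
  · cases b' <;> simp only [yl, rk, lv] at h ⊢ <;> split_ifs at h <;> omega
  · simp only [yl, rk, lv] at h ⊢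
    omega

theorem rk_yl {l : Fin n} {x y : Ix n a} (h : rk x < rk y) : yl (l : ℕ) x ≤ yl (l : ℕ) y := by
  rcases x with ⟨i, b⟩ | i <;> rcases y with ⟨j, b'⟩ | j
  · cases b <;> cases b' <;> simp only [yl, rk, lv] at h ⊢ <;> split_ifs <;> omega
  · cases b <;> simp only [yl, rk, lv] at h ⊢ <;> split_ifs <;> omega
  · cases b' <;> simp only [yl, rk, lv] at h ⊢ <;> split_ifs <;> omega
  · simp only [yl, rk, lv] at h ⊢
    omega

private theorem lv_swap {l : Fin n} (hl : 0 < (l : ℕ)) (i : Fin n) :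
    lv (l : ℕ) (Equiv.swap (pr l) l i : Fin n) = lv (l : ℕ) i := by
  by_cases h1 : i = pr l
  · rw [h1, Equiv.swap_apply_left]
    simp only [lv, pr]
    split_ifs <;> omega
  · by_cases h2 : i = l
    · rw [h2, Equiv.swap_apply_right]
      simp only [lv, pr]
      split_ifs <;> omega
    · rw [Equiv.swap_apply_of_ne_of_ne h1 h2]

theorem yl_ws (l : Fin n) (x : Ix n a) : yl (l : ℕ) (ws a l x) = yl (l : ℕ) x := by
  rcases Nat.eq_zero_or_pos (l : ℕ) with hl | hl
  · obtain ⟨h1, h2, h3, h4⟩ := ws_0 (a := a) hl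
    rcases x with ⟨i, b⟩ | i
    · by_cases hi : i = l
      · subst hi
        cases b
        · show yl _ (ws a i (ei i)) = yl _ (ei i)
          rw [h1]
          show lv (i : ℕ) i = - lv (i : ℕ) i
          simp only [lv]
          split_ifs <;> omega
        · show yl _ (ws a i (fi i)) = yl _ (fi i)
          rw [h2]
          show - lv (i : ℕ) i = lv (i : ℕ) i
          simp only [lv]
          split_ifs <;> omega
      · cases b
        · show yl _ (ws a l (ei i)) = yl _ (ei i)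
          rw [(h3 i hi).1]
        · show yl _ (ws a l (fi i)) = yl _ (fi i)
          rw [(h3 i hi).2]
    · show yl _ (ws a l (mi i)) = yl _ (mi i)
      rw [h4]
      rfl
  · rcases x with ⟨i, b⟩ | i
    · cases b
      · show yl _ (ws a l (ei i)) = yl _ (ei i)
        rw [(ws_e hl i).1]
        exact congrArg Neg.neg (lv_swap hl i)
      · show yl _ (ws a l (fi i)) = yl _ (fi i)
        rw [(ws_e hl i).2]
        exact lv_swap hl i
    · show yl _ (ws a l (mi i)) = yl _ (mi i)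
      rw [ws_m hl]

theorem C_le (l : Fin n) : D.C l ≤ D.U :=
  inf_le_inf le_rfl (GS_mono fun _ _ h => yl_rk h)

theorem R_le (l : Fin n) : D.R l ≤ D.U := inf_le_left

theorem U_le : D.U ≤ D.G := inf_le_left

theorem CR (l : Fin n) {u : GL (Ix n a) F} (hu : u ∈ D.U) : ∃ c ∈ D.C l, ∃ r ∈ D.R l, u = c * r := by
  have hG : u ∈ D.G := U_le hu
  have hS : u ∈ GS F rk := hu.2
  have hP : PbM (yl (l : ℕ)) (u : Matrix (Ix n a) (Ix n a) F) := by
    intro i j hij
    have h1 : rk j < rk i := yl_rk hij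
    rw [mem_GS.1 hS i j (not_lt.2 h1.le)]
    refine Matrix.one_apply_ne fun h => ?_
    rw [h] at h1
    exact lt_irrefl _ h1
  have hm := mem_G.1 hG
  have hL : lev (yl (l : ℕ)) u ∈ D.G := by
    refine mem_G.2 ⟨lev_IG ?_ hP hm.1, mem_TW.1 (lev_TW (yl_pm (l : ℕ)) hP (mem_TW.2 hm.2.1)), fun hs => ?_⟩
    · intro i j hij
      have h1 : j = du i := by
        by_contra h
        exact hij (if_neg h)
      rw [h1, yl_du]
    · rw [lev_det hP]
      exact hm.2.2 hs
  obtain ⟨v, hv, huv⟩ := lev_split' hP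
  have hvG : v ∈ D.G := by
    have h1 : v = u * (lev (yl (l : ℕ)) u)⁻¹ := eq_mul_inv_of_mul_eq huv.symm
    rw [h1]
    exact D.G.mul_mem hG (D.G.inv_mem hL)
  have hvR : v ∈ GS F rk := GS_mono (fun _ _ h => yl_rk h) hv
  refine ⟨v, ⟨hvG, hv⟩, lev (yl (l : ℕ)) u, ⟨⟨hL, ?_⟩, lev_mem hP⟩, huv⟩
  have h2 : lev (yl (l : ℕ)) u = v⁻¹ * u := eq_inv_mul_of_mul_eq huv.symm
  rw [h2]
  exact (GS F rk).mul_mem ((GS F rk).inv_mem hvR) hS

theorem CRd {l : Fin n} {r : GL (Ix n a) F} (hr : r ∈ D.R l) (hc : r ∈ D.C l) : r = 1 :=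
  LS_GS_one hr.2 hc.2

theorem sC (l : Fin n) {c : GL (Ix n a) F} (hc : c ∈ D.C l) : D.s l * c * (D.s l)⁻¹ ∈ D.C l := by
  refine ⟨D.G.mul_mem (D.G.mul_mem (s_mem l) hc.1) (D.G.inv_mem (s_mem l)), mem_GS.2 ?_⟩
  rw [s_mo]
  intro i j hij
  obtain ⟨i, rfl⟩ := (ws a l).surjective i
  obtain ⟨j, rfl⟩ := (ws a l).surjective j
  rw [yl_ws, yl_ws] at hij
  rw [mo_conj', mem_GS.1 hc.2 i j hij]
  by_cases h : i = j
  · rw [h, Matrix.one_apply_eq, Matrix.one_apply_eq, mul_one, ← Units.val_mul, mul_inv_cancel, Units.val_one]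
  · rw [Matrix.one_apply_ne h, Matrix.one_apply_ne (fun h' => h ((ws a l).injective h')), mul_zero, zero_mul]

end

end AO.MG
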