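import Pool.Agent.AO.GDefs
import Mathlib.NumberTheory.LegendreSymbol.QuadraticChar.Basic
import Mathlib.GroupTheory.Index

/-!
# MP_6c3636_al, AO, module M04: the quadratic character of the fixed field (helper7)

The elements `x ≠ 0` with `τ x = x` form a finite cyclic group (a subgroup of `Fˣ`); it contains `-1 ≠ 1`, so its order is even and the squares have index two in it (the kernel of the squaring map is `{1, -1}`). `ch τ x = 1` if and only if `x` is a square in this group. `ch_hom`: a homomorphism of a cyclic group to `{1, -1}` is trivial or has the kernel of index two, the group of squares. `sum_ch`: multiply by an element with `ch τ x = -1`. `ch_sub`: `K = {x : σ x = x}` is a subfield and `F` has degree two over it (`x² - (x + σ x) x + x σ x = 0` for all `x`; `card F = (card K) ^ 2`: `F = K + K a`), so for `x ∈ K`, `x ≠ 0`: `x ^ ((card F - 1) / 2) = (x ^ (card K - 1)) ^ ((card K + 1) / 2) = 1`, so `x` is a square in `F` (`FiniteField.isSquare_iff`).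 `norm_ch`: with `y = x ^ ((card F - 1) / 2)`: `ch refl x = 1` iff `y = 1`, and `(x * σ x) ^ ((card K - 1) / 2) = x ^ ((card K + 1) * (card K - 1) / 2) = y` (`σ x = x ^ card K`), so `ch σ (x * σ x) = ch refl x`. `norm_surj`: the norm `x ↦ x * σ x` is surjective on `K` (`FiniteField`, or: for cyclic groups, `x ↦ x ^ (card K + 1)`).
-/

namespace AO.MG

noncomputable section

open Classical Equiv Matrix

open AN (sq)

variable {F : Type} [Field F] [Finite F]

variable {τ σ : F ≃+* F}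

/-- the fixed field -/
private def fx (τ : F ≃+* F) : Subfield F := RingHom.eqLocusField (τ : F →+* F) (RingHom.id F)

omit [Finite F] in
private theorem mem_fx {x : F} : x ∈ fx τ ↔ τ x = x := Iff.rfl

omit [Finite F] in
private theorem ch_eq_one_iff {x : F} : ch τ x = 1 ↔ ∃ y, τ y = y ∧ y * y = x := by
  unfold ch
  split_ifs with h
  · exact ⟨fun _ => h, fun _ => rfl⟩
  · exact ⟨fun h' => absurd h' (by decide), fun h' => absurd h' h⟩

omit [Finite F] in
private theorem ch_eq_neg {x : F} : ch τ x = -1 ↔ ¬ ∃ y, τ y = y ∧ y * y = x := by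
  unfold ch
  split_ifs with h
  · exact ⟨fun h' => absurd h' (by decide), fun h' => absurd h h'⟩
  · exact ⟨fun _ => h, fun _ => rfl⟩

omit [Finite F] in
private theorem ringChar_fx (h2 : (2 : F) ≠ 0) (τ : F ≃+* F) : ringChar (fx τ) ≠ 2 := by
  intro h
  have h3 : ((2 : ℕ) : fx τ) = 0 := by
    have := ringChar.Nat.cast_ringChar (R := fx τ)
    rwa [h] at this
  apply h2
  have h4 := congrArg (fx τ).subtype h3
  rw [map_natCast, map_zero] at h4
  exact_mod_cast h4

private instance fint (τ : F ≃+* F) : Fintype (fx τ) := Fintype.ofFinite _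

private theorem ch_qc {x : F} (hx : τ x = x) (hx0 : x ≠ 0) :
    ((ch τ x : ℤˣ) : ℤ) = quadraticChar (fx τ) ⟨x, hx⟩ := by
  have h0 : (⟨x, hx⟩ : fx τ) ≠ 0 := fun h => hx0 (congrArg (fun x : fx τ => (x : F)) h)
  by_cases h : ∃ y, τ y = y ∧ y * y = x
  · rw [ch_eq_one_iff.2 h, Units.val_one, eq_comm, quadraticChar_one_iff_isSquare h0]
    obtain ⟨y, hy, hyx⟩ := h
    exact ⟨⟨y, hy⟩, Subtype.ext hyx.symm⟩
  · rw [ch_eq_neg.2 h, Units.val_neg, Units.val_one, eq_comm, quadraticChar_neg_one_iff_not_isSquare]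
    rintro ⟨⟨y, hy⟩, hyx⟩
    exact h ⟨y, hy, (congrArg (fun x : fx τ => (x : F)) hyx).symm⟩

theorem ch_one : ch τ (1 : F) = 1 :=
  ch_eq_one_iff.2 ⟨1, map_one τ, mul_one 1⟩

theorem ch_sq {x : F} (hx : τ x = x) : ch τ (x * x) = 1 :=
  ch_eq_one_iff.2 ⟨x, hx, rfl⟩

theorem ch_mul (h2 : (2 : F) ≠ 0) {x y : F} (hx : τ x = x) (hx0 : x ≠ 0) (hy : τ y = y) (hy0 : y ≠ 0) :
    ch τ (x * y) = ch τ x * ch τ y := by
  have hxy : τ (x * y) = x * y := by rw [map_mul, hx, hy]
  apply Units.ext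
  rw [Units.val_mul, ch_qc hx hx0, ch_qc hy hy0, ch_qc hxy (mul_ne_zero hx0 hy0), ← map_mul]
  rfl

theorem ch_inv (h2 : (2 : F) ≠ 0) {x : F} (hx : τ x = x) : ch τ x⁻¹ = ch τ x := by
  by_cases hx0 : x = 0
  · rw [hx0, _root_.inv_zero]
  have h1 : τ x⁻¹ = x⁻¹ := by rw [map_inv₀, hx]
  have h3 := ch_mul h2 hx hx0 h1 (inv_ne_zero hx0)
  rw [mul_inv_cancel₀ hx0, ch_one] at h3
  rcases Int.units_eq_one_or (ch τ x) with h | h <;> rcases Int.units_eq_one_or (ch τ x⁻¹) with h' | h' <;>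
    rw [h, h'] at h3 ⊢
  · exact absurd h3 (by decide)
  · exact absurd h3 (by decide)

theorem exists_ch (h2 : (2 : F) ≠ 0) (τ : F ≃+* F) : ∃ x : F, τ x = x ∧ x ≠ 0 ∧ ch τ x = -1 := by
  obtain ⟨⟨x, hx⟩, h⟩ := FiniteField.exists_nonsquare (ringChar_fx h2 τ)
  refine ⟨x, hx, ?_, ?_⟩
  · rintro rfl
    exact h ⟨0, Subtype.ext (mul_zero 0).symm⟩
  · rw [ch_eq_neg]
    rintro ⟨y, hy, hyx⟩
    exact h ⟨⟨y, hy⟩, Subtype.ext hyx.symm⟩

theorem ch_hom (h2 : (2 : F) ≠ 0) {f : F → ℤˣ}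
    (hf : ∀ x y, τ x = x → x ≠ 0 → τ y = y → y ≠ 0 → f (x * y) = f x * f y) :
    (∀ x, τ x = x → x ≠ 0 → f x = 1) ∨ ∀ x, τ x = x → x ≠ 0 → f x = ch τ x := by
  obtain ⟨u, hu, hu0, hu1⟩ := exists_ch h2 τ
  have hsq : ∀ x, τ x = x → x ≠ 0 → ch τ x = 1 → f x = 1 := by
    intro x hx hx0 h
    obtain ⟨y, hy, hyx⟩ := ch_eq_one_iff.1 h
    have hy0 : y ≠ 0 := by
      rintro rfl
      exact hx0 (by rw [← hyx, mul_zero])
    rw [← hyx, hf y y hy hy0 hy hy0]
    exact Int.units_mul_self (f y)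
  have hns : ∀ x, τ x = x → x ≠ 0 → ch τ x = -1 → f x = f u := by
    intro x hx hx0 h
    have h1 : ch τ (x * u) = 1 := by
      rw [ch_mul h2 hx hx0 hu hu0, h, hu1]
      decide
    have h3 := hsq (x * u) (by rw [map_mul, hx, hu]) (mul_ne_zero hx0 hu0) h1
    rw [hf x u hx hx0 hu hu0] at h3
    rcases Int.units_eq_one_or (f x) with h | h <;> rcases Int.units_eq_one_or (f u) with h' | h' <;>
      rw [h, h'] at h3 ⊢
    · exact absurd h3 (by decide)
    · exact absurd h3 (by decide)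
  rcases Int.units_eq_one_or (f u) with h | h
  · left
    intro x hx hx0
    rcases Int.units_eq_one_or (ch τ x) with h' | h'
    · exact hsq x hx hx0 h'
    · rw [hns x hx hx0 h', h]
  · right
    intro x hx hx0
    rcases Int.units_eq_one_or (ch τ x) with h' | h'
    · rw [hsq x hx hx0 h', h']
    · rw [hns x hx hx0 h', h, h']

theorem sum_ch (h2 : (2 : F) ≠ 0) (τ : F ≃+* F) :
    ∑ᶠ x : {x : F // τ x = x ∧ x ≠ 0}, ((ch τ (x : F) : ℤˣ) : ℤ) = 0 := by
  obtain ⟨u, hu, hu0, hu1⟩ := exists_ch h2 τ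
  have hu' : τ u⁻¹ = u⁻¹ := by rw [map_inv₀, hu]
  let e : Perm {x : F // τ x = x ∧ x ≠ 0} :=
    { toFun := fun x => ⟨u * x, by rw [map_mul, hu, x.2.1], mul_ne_zero hu0 x.2.2⟩
      invFun := fun x => ⟨u⁻¹ * x, by rw [map_mul, hu', x.2.1], mul_ne_zero (inv_ne_zero hu0) x.2.2⟩
      left_inv := fun x => Subtype.ext (inv_mul_cancel_left₀ hu0 _)
      right_inv := fun x => Subtype.ext (mul_inv_cancel_left₀ hu0 _) }
  have hfin : Fintype {x : F // τ x = x ∧ x ≠ 0} := Fintype.ofFinite _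
  rw [finsum_eq_sum_of_fintype]
  have h1 : ∑ x : {x : F // τ x = x ∧ x ≠ 0}, ((ch τ (x : F) : ℤˣ) : ℤ) =
      ∑ x : {x : F // τ x = x ∧ x ≠ 0}, -((ch τ (x : F) : ℤˣ) : ℤ) := by
    rw [← Equiv.sum_comp e]
    refine Finset.sum_congr rfl fun x _ => ?_
    show ((ch τ (u * (x : F)) : ℤˣ) : ℤ) = _
    rw [ch_mul h2 hu hu0 x.2.1 x.2.2, hu1, Units.val_mul, Units.val_neg, Units.val_one, neg_one_mul]
  rw [Finset.sum_neg_distrib] at h1
  linarith

omit [Finite F] in
private theorem comm_symm (hc : ∀ x, σ (τ x) = τ (σ x)) (x : F) : τ (σ.symm x) = σ.symm (τ x) := by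
  apply σ.injective
  rw [hc, σ.apply_symm_apply, σ.apply_symm_apply]

theorem ch_aut (hc : ∀ x, σ (τ x) = τ (σ x)) (x : F) : ch τ (σ x) = ch τ x := by
  have h : (∃ y, τ y = y ∧ y * y = σ x) ↔ ∃ y, τ y = y ∧ y * y = x := by
    constructor
    · rintro ⟨y, hy, hyx⟩
      refine ⟨σ.symm y, ?_, ?_⟩
      · rw [comm_symm hc, hy]
      · rw [← map_mul, hyx, σ.symm_apply_apply]
    · rintro ⟨y, hy, hyx⟩
      refine ⟨σ y, ?_, ?_⟩
      · rw [← hc, hy]
      · rw [← map_mul, hyx]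
  unfold ch
  by_cases h1 : ∃ y, τ y = y ∧ y * y = x
  · rw [if_pos h1, if_pos (h.2 h1)]
  · rw [if_neg h1, if_neg (fun h' => h1 (h.1 h'))]

theorem ch_sub (hss : ∀ x, σ (σ x) = x) (hne : ∃ x, σ x ≠ x) {x : F} (hx : σ x = x) :
    ch (RingEquiv.refl F) x = 1 := by
  rw [ch_eq_one_iff]
  obtain ⟨a, ha⟩ := hne
  by_cases h2 : (2 : F) = 0
  · have h3 : ringChar F = 2 := by
      have h4 : ringChar F ∣ 2 := ringChar.dvd (by exact_mod_cast h2)
      rcases (Nat.dvd_prime Nat.prime_two).1 h4 with h5 | h5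
      · exfalso
        have h6 := ringChar.Nat.cast_ringChar (R := F)
        rw [h5, Nat.cast_one] at h6
        exact one_ne_zero h6
      · exact h5
    obtain ⟨y, hy⟩ := FiniteField.isSquare_of_char_two h3 x
    exact ⟨y, rfl, hy.symm⟩
  · by_cases hx0 : x = 0
    · exact ⟨0, rfl, by rw [hx0, mul_zero]⟩
    rcases Int.units_eq_one_or (ch σ x) with h | h
    · obtain ⟨y, _, hy⟩ := ch_eq_one_iff.1 h
      exact ⟨y, rfl, hy⟩
    · have hb : σ (a - σ a) = -(a - σ a) := by rw [map_sub, hss, neg_sub]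
      have hb0 : a - σ a ≠ 0 := fun h' => ha (sub_eq_zero.1 h').symm
      have hbb : σ ((a - σ a) * (a - σ a)) = (a - σ a) * (a - σ a) := by
        rw [map_mul, hb, neg_mul_neg]
      have hd : ch σ ((a - σ a) * (a - σ a)) = -1 := by
        rw [ch_eq_neg]
        rintro ⟨c, hc, hcc⟩
        rcases mul_self_eq_mul_self_iff.1 hcc with h3 | h3
        · rw [h3, hb] at hc
          exact hb0 ((mul_eq_zero.1 (show (2 : F) * (a - σ a) = 0 by linear_combination -hc)).resolve_left h2)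
        · rw [h3, map_neg, hb] at hc
          exact hb0 ((mul_eq_zero.1 (show (2 : F) * (a - σ a) = 0 by linear_combination hc)).resolve_left h2)
      have h4 : ch σ (x * ((a - σ a) * (a - σ a))) = 1 := by
        rw [ch_mul h2 hx hx0 hbb (mul_ne_zero hb0 hb0), h, hd]
        decide
      obtain ⟨y, _, hy⟩ := ch_eq_one_iff.1 h4
      refine ⟨y / (a - σ a), rfl, ?_⟩
      rw [div_mul_div_comm, hy, mul_div_cancel_right₀ _ (mul_ne_zero hb0 hb0)]

theorem card_fix (hss : ∀ x, σ (σ x) = x) (hne : ∃ x, σ x ≠ x) :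
    Nat.card F = Nat.card {x : F // σ x = x} ^ 2 := by
  obtain ⟨a, ha⟩ := hne
  have ha0 : a - σ a ≠ 0 := fun h' => ha (sub_eq_zero.1 h').symm
  have hb : σ (a - σ a) = -(a - σ a) := by rw [map_sub, hss, neg_sub]
  rw [pow_two, ← Nat.card_prod]
  refine (Nat.card_congr (Equiv.ofBijective
    (fun p : {x : F // σ x = x} × {x : F // σ x = x} => (p.1 : F) + p.2 * a) ⟨?_, ?_⟩)).symm
  · rintro ⟨⟨x, hx⟩, ⟨y, hy⟩⟩ ⟨⟨x', hx'⟩, ⟨y', hy'⟩⟩ h
    have h1 : x + y * a = x' + y' * a := h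
    have h3 : x + y * σ a = x' + y' * σ a := by
      have := congrArg σ h1
      rw [map_add, map_add, map_mul, map_mul, hx, hy, hx', hy'] at this
      exact this
    have h4 : (y - y') * (a - σ a) = 0 := by linear_combination h1 - h3
    have h5 : y = y' := sub_eq_zero.1 ((mul_eq_zero.1 h4).resolve_right ha0)
    subst h5
    have h6 : x = x' := by linear_combination h1
    subst h6
    rfl
  · intro z
    have hy : σ ((z - σ z) / (a - σ a)) = (z - σ z) / (a - σ a) := by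
      rw [map_div₀, hb, map_sub, hss, ← neg_sub z, neg_div_neg_eq]
    have hx : σ (z - (z - σ z) / (a - σ a) * a) = z - (z - σ z) / (a - σ a) * a := by
      rw [map_sub, map_mul, hy]
      field_simp
      ring
    exact ⟨(⟨_, hx⟩, ⟨_, hy⟩), sub_add_cancel _ _⟩

omit [Finite F] in
private theorem hilbert (hss : ∀ x, σ (σ x) = x) (hne : ∃ x, σ x ≠ x) {w : F} (hw : w * σ w = 1) :
    ∃ v, v ≠ 0 ∧ w * σ v = v := by
  obtain ⟨a, ha⟩ := hne
  by_cases h : ∃ t, t + w * σ t ≠ 0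
  · obtain ⟨t, ht⟩ := h
    refine ⟨t + w * σ t, ht, ?_⟩
    rw [map_add, map_mul, hss, mul_add, ← mul_assoc, hw, one_mul, add_comm]
  · push Not at h
    exfalso
    have h1 := h 1
    rw [map_one, mul_one] at h1
    have h3 := h a
    apply ha
    linear_combination h3 - h1 * σ a - 2 * (h3 - h1 * σ a)

theorem norm_ch (h2 : (2 : F) ≠ 0) (hss : ∀ x, σ (σ x) = x) (hne : ∃ x, σ x ≠ x) {x : F} (hx : x ≠ 0) :
    ch σ (x * σ x) = ch (RingEquiv.refl F) x := by
  have h : (∃ y, σ y = y ∧ y * y = x * σ x) ↔ ∃ y, RingEquiv.refl F y = y ∧ y * y = x := by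
    constructor
    · rintro ⟨z, hz, hzx⟩
      have hsx : σ x ≠ 0 := (map_ne_zero σ).2 hx
      have hz0 : z ≠ 0 := by
        rintro rfl
        rw [mul_zero] at hzx
        exact (mul_ne_zero hx hsx) hzx.symm
      have hw : (x / z) * σ (x / z) = 1 := by
        rw [map_div₀, hz]
        field_simp
        rw [pow_two, hzx]
      obtain ⟨v, hv0, hv⟩ := hilbert hss hne hw
      have hsv : σ v ≠ 0 := (map_ne_zero σ).2 hv0
      have hN : σ (z * (v * σ v)) = z * (v * σ v) := by rw [map_mul, map_mul, hz, hss, mul_comm (σ v)]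
      obtain ⟨y, _, hy⟩ := ch_eq_one_iff.1 (ch_sub hss hne hN)
      refine ⟨y / σ v, rfl, ?_⟩
      have h5 : x * σ v = v * z := by
        rw [div_mul_eq_mul_div, div_eq_iff hz0] at hv
        exact hv
      rw [div_mul_div_comm, hy, div_eq_iff (mul_ne_zero hsv hsv)]
      linear_combination (-σ v) * h5
    · rintro ⟨y, _, hy⟩
      refine ⟨y * σ y, ?_, ?_⟩
      · rw [map_mul, hss, mul_comm]
      · rw [← hy, map_mul]
        ring
  unfold ch
  by_cases h1 : ∃ y, RingEquiv.refl F y = y ∧ y * y = x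
  · rw [if_pos h1, if_pos (h.2 h1)]
  · rw [if_neg h1, if_neg (fun h' => h1 (h.1 h'))]

/-- the norm on the units -/
private def nrm (σ : F ≃+* F) : Fˣ →* Fˣ :=
  MonoidHom.mk' (fun x => x * Units.map (σ : F →* F) x) (fun x y => by
    rw [map_mul, mul_mul_mul_comm])

/-- the quotient map on the units -/
private def quo (σ : F ≃+* F) : Fˣ →* Fˣ :=
  MonoidHom.mk' (fun x => x * (Units.map (σ : F →* F) x)⁻¹) (fun x y => by
    rw [map_mul, mul_inv, mul_mul_mul_comm])

omit [Finite F] in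
private theorem nrm_coe (x : Fˣ) : ((nrm σ x : Fˣ) : F) = (x : F) * σ x := rfl

omit [Finite F] in
private theorem mem_quo_ker {x : Fˣ} : x ∈ (quo σ).ker ↔ σ (x : F) = x := by
  rw [MonoidHom.mem_ker]
  show x * (Units.map (σ : F →* F) x)⁻¹ = 1 ↔ _
  rw [mul_inv_eq_one]
  constructor
  · intro h
    exact (congrArg (fun x : Fˣ => (x : F)) h).symm
  · intro h
    exact Units.ext h.symm

omit [Finite F] in
private theorem mem_nrm_ker {x : Fˣ} : x ∈ (nrm σ).ker ↔ (x : F) * σ x = 1 := by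
  rw [MonoidHom.mem_ker, Units.ext_iff, nrm_coe, Units.val_one]

omit [Finite F] in
private theorem range_quo (hss : ∀ x, σ (σ x) = x) (hne : ∃ x, σ x ≠ x) :
    (quo σ).range = (nrm σ).ker := by
  ext w
  rw [mem_nrm_ker]
  constructor
  · rintro ⟨v, rfl⟩
    show ((v : F) * (((Units.map (σ : F →* F) v)⁻¹ : Fˣ) : F)) *
      σ ((v : F) * (((Units.map (σ : F →* F) v)⁻¹ : Fˣ) : F)) = 1
    have hv : (v : F) ≠ 0 := v.ne_zero
    have hsv : σ (v : F) ≠ 0 := (map_ne_zero σ).2 hv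
    have h1 : (((Units.map (σ : F →* F) v)⁻¹ : Fˣ) : F) = (σ (v : F))⁻¹ := by
      rw [Units.val_inv_eq_inv_val]
      rfl
    rw [h1, map_mul, map_inv₀, hss]
    field_simp
  · intro hw
    obtain ⟨v, hv0, hv⟩ := hilbert hss hne hw
    have hsv : σ v ≠ 0 := (map_ne_zero σ).2 hv0
    refine ⟨Units.mk0 v hv0, ?_⟩
    apply Units.ext
    show v * (((Units.map (σ : F →* F) (Units.mk0 v hv0))⁻¹ : Fˣ) : F) = w
    have h1 : (((Units.map (σ : F →* F) (Units.mk0 v hv0))⁻¹ : Fˣ) : F) = (σ v)⁻¹ := by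
      rw [Units.val_inv_eq_inv_val]
      rfl
    rw [h1, ← div_eq_mul_inv, div_eq_iff hsv, hv]

omit [Finite F] in
private theorem range_nrm_le (hss : ∀ x, σ (σ x) = x) : (nrm σ).range ≤ (quo σ).ker := by
  rintro _ ⟨x, rfl⟩
  rw [mem_quo_ker, nrm_coe, map_mul, hss, mul_comm]

omit [Finite F] in
private theorem card_rk (f : Fˣ →* Fˣ) : Nat.card f.ker * Nat.card f.range = Nat.card Fˣ := by
  rw [← Subgroup.index_ker, Subgroup.card_mul_index]

private theorem range_nrm (hss : ∀ x, σ (σ x) = x) (hne : ∃ x, σ x ≠ x) :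
    (nrm σ).range = (quo σ).ker := by
  refine Subgroup.eq_of_le_of_card_ge (range_nrm_le hss) (le_of_eq ?_)
  have h1 := card_rk (nrm σ)
  have h3 := card_rk (quo σ)
  rw [range_quo hss hne] at h3
  have h4 : 0 < Nat.card (nrm σ).ker := Nat.card_pos
  rw [← h3, mul_comm] at h1
  exact (Nat.eq_of_mul_eq_mul_right h4 h1).symm

theorem norm_surj (hss : ∀ x, σ (σ x) = x) (hne : ∃ x, σ x ≠ x) {y : F} (hy : σ y = y) :
    ∃ x, x * σ x = y := by
  by_cases hy0 : y = 0
  · exact ⟨0, by rw [hy0, zero_mul]⟩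
  have h1 : Units.mk0 y hy0 ∈ (quo σ).ker := mem_quo_ker.2 hy
  rw [← range_nrm hss hne] at h1
  obtain ⟨x, hx⟩ := h1
  exact ⟨x, by rw [← nrm_coe, hx]; rfl⟩

private theorem card_quo_ker (σ : F ≃+* F) :
    Nat.card (quo σ).ker + 1 = Nat.card {x : F // σ x = x} := by
  have h1 : Nat.card (quo σ).ker = Nat.card (fx σ)ˣ := by
    refine Nat.card_congr
      { toFun := fun x => Units.mk0 (⟨(x : Fˣ), mem_quo_ker.1 x.2⟩ : fx σ)
          (fun h => (x : Fˣ).ne_zero (congrArg (fun x : fx σ => (x : F)) h))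
        invFun := fun x => ⟨Units.mk0 ((x : fx σ) : F) (fun h => x.ne_zero (Subtype.ext h)),
          mem_quo_ker.2 (x : fx σ).2⟩
        left_inv := fun x => Subtype.ext (Units.ext rfl)
        right_inv := fun x => Units.ext (Subtype.ext rfl) }
  have h3 : Nat.card {x : F // σ x = x} = Nat.card (fx σ) := rfl
  rw [h1, h3, Nat.card_units]
  exact Nat.sub_add_cancel Nat.card_pos

theorem card_norm (hss : ∀ x, σ (σ x) = x) (hne : ∃ x, σ x ≠ x) {y : F} (hy : σ y = y) (hy0 : y ≠ 0) :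
    Nat.card {x : F // x * σ x = y} = Nat.card {x : F // σ x = x} + 1 := by
  obtain ⟨x0, hx0⟩ := norm_surj hss hne hy
  have hx00 : x0 ≠ 0 := by
    rintro rfl
    rw [zero_mul] at hx0
    exact hy0 hx0.symm
  have hsx0 : σ x0 ≠ 0 := (map_ne_zero σ).2 hx00
  have h1 : Nat.card {x : F // x * σ x = y} = Nat.card (nrm σ).ker := by
    refine Nat.card_congr
      { toFun := fun x => ⟨Units.mk0 ((x : F) / x0) (div_ne_zero (fun h => by
            have := x.2
            rw [h, zero_mul] at this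
            exact hy0 this.symm) hx00), by
            rw [mem_nrm_ker]
            show (x : F) / x0 * σ ((x : F) / x0) = 1
            rw [map_div₀, div_mul_div_comm, x.2, hx0, div_self hy0]⟩
        invFun := fun x => ⟨x0 * ((x : Fˣ) : F), by
            rw [map_mul, mul_mul_mul_comm, mem_nrm_ker.1 x.2, hx0, mul_one]⟩
        left_inv := fun x => Subtype.ext (mul_div_cancel₀ _ hx00)
        right_inv := fun x => Subtype.ext (Units.ext (mul_div_cancel_left₀ _ hx00)) }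
  have h3 := card_rk (quo σ)
  rw [range_quo hss hne, Nat.card_units] at h3
  have h4 := card_quo_ker σ
  have h5 := card_fix hss hne
  have h6 : 0 < Nat.card (quo σ).ker := Nat.card_pos
  rw [h1]
  have h7 : Nat.card F - 1 = Nat.card (quo σ).ker * (Nat.card {x : F // σ x = x} + 1) := by
    rw [h5, ← h4]
    have : (Nat.card (quo σ).ker + 1) ^ 2 = Nat.card (quo σ).ker * (Nat.card (quo σ).ker + 1 + 1) + 1 := by
      ring
    rw [this, Nat.add_sub_cancel]
  rw [h7] at h3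
  exact Nat.eq_of_mul_eq_mul_left h6 h3

end

end AO.MG
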