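import Pool.Agent.AO.F06
import Pool.Agent.AO.N03
import Pool.Agent.AO.M04

/-!
# MP_6c3636_al, AO, module F07: the root subgroups of the long nodes (helper7)

`l > 0`. `R_supp`: `rk x < rk y` and `yl l x = yl l y` only for `(ei l, ei (pr l))`, `(fi (pr l), fi l)` (the values of `lv l` are at least `1` for `l > 0`; `lv_eq`). `R_pos`: `hy_of`, `glr_apply`, the entries are fixed by `τ`; conversely `hy_GS`, `hy_LS`, `hy_mem`. `hh_pos`: definition of `hh`, `R_pos`, `hy_ee`, `gle_glr`. `hU_pos`: apply `hy` to `gl_rank`; `glr l x⁻¹` has `τ`-fixed entries. `hh_T`: `glh l (un x)` has `τ`-fixed entries.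
-/

namespace AO.MG

noncomputable section

open Classical Equiv Matrix

open AN (sq)

variable {n a : ℕ} {F : Type} [Field F] [Finite F] {D : FD n a F}

theorem R_supp {l : Fin n} (hl : 0 < (l : ℕ)) {r : GL (Ix n a) F} (hr : r ∈ D.R l) {x y : Ix n a}
    (h1 : ¬ (x = ei l ∧ y = ei (pr l))) (h2 : ¬ (x = fi (pr l) ∧ y = fi l)) :
    (r : Matrix (Ix n a) (Ix n a) F) x y = (1 : Matrix (Ix n a) (Ix n a) F) x y := by
  have hG : UpM rk (r : Matrix (Ix n a) (Ix n a) F) := hr.1.2.1
  have hL : LvM (yl (l : ℕ)) (r : Matrix (Ix n a) (Ix n a) F) := hr.2.1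
  by_cases hrk : rk x < rk y
  · have hne : x ≠ y := fun h => by rw [h] at hrk; exact lt_irrefl _ hrk
    by_cases hy : yl (l : ℕ) x = yl (l : ℕ) y
    · exfalso
      have hlv : ∀ i : ℕ, 1 ≤ lv (l : ℕ) i := by
        intro i
        unfold lv
        split_ifs with h
        · omega
        · omega
      rcases x with ⟨i, b⟩ | i <;> rcases y with ⟨j, b'⟩ | j
      · cases b <;> cases b'
        · have e1 : -(((i : ℕ) : ℤ) + 1) < -(((j : ℕ) : ℤ) + 1) := hrk
          have e2 : -(lv (l : ℕ) i) = -(lv (l : ℕ) j) := hy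
          have e3 : (i : ℕ) ≠ j := by omega
          rcases lv_eq e3 (neg_injective e2) with ⟨e4, e5⟩ | ⟨e4, e5⟩
          · refine h1 ⟨?_, ?_⟩
            · rw [Fin.ext e4]; rfl
            · have e6 : j = pr l := Fin.ext (by show (j : ℕ) = (l : ℕ) - 1; omega)
              rw [e6]; rfl
          · omega
        · have e2 : -(lv (l : ℕ) i) = lv (l : ℕ) j := hy
          have e3 := hlv i
          have e4 := hlv j
          omega
        · have e1 : ((i : ℕ) : ℤ) + 1 < -(((j : ℕ) : ℤ) + 1) := hrk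
          omega
        · have e1 : ((i : ℕ) : ℤ) + 1 < ((j : ℕ) : ℤ) + 1 := hrk
          have e2 : lv (l : ℕ) i = lv (l : ℕ) j := hy
          have e3 : (i : ℕ) ≠ j := by omega
          rcases lv_eq e3 e2 with ⟨e4, e5⟩ | ⟨e4, e5⟩
          · omega
          · refine h2 ⟨?_, ?_⟩
            · have e6 : i = pr l := Fin.ext (by show (i : ℕ) = (l : ℕ) - 1; omega)
              rw [e6]; rfl
            · rw [Fin.ext e4]; rfl
      · have e3 := hlv i
        cases b
        · have e2 : -(lv (l : ℕ) i) = 0 := hy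
          omega
        · have e2 : lv (l : ℕ) i = 0 := hy
          omega
      · have e3 := hlv j
        cases b'
        · have e2 : 0 = -(lv (l : ℕ) j) := hy
          omega
        · have e2 : 0 = lv (l : ℕ) j := hy
          omega
      · exact lt_irrefl (0 : ℤ) hrk
    · rw [hL x y hy, Matrix.one_apply_ne hne]
  · exact hG x y hrk

theorem R_pos {l : Fin n} (hl : 0 < (l : ℕ)) {r : GL (Ix n a) F} :
    r ∈ D.R l ↔ ∃ x : F, D.τ x = x ∧ r = D.hy (glr l x) := by
  constructor
  · intro hr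
    have hs := fun (x y : Ix n a) => R_supp (x := x) (y := y) hl hr
    have ee : ∀ i j : Fin n, (ei i : Ix n a) = ei j → i = j := by
      intro i j h
      exact congrArg Prod.fst (Sum.inl_injective h)
    obtain ⟨A, hA, rfl⟩ := hy_of (D := D) hr.1.1
      (fun i j => by
        rw [hs (ei i) (fi j) (fun h => by
          have := congrArg Prod.snd (Sum.inl_injective h.2); exact absurd this.symm Bool.false_ne_true)
          (fun h => by
          have := congrArg Prod.snd (Sum.inl_injective h.1); exact absurd this Bool.false_ne_true)]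
        exact Matrix.one_apply_ne (fun h => by
          have := congrArg Prod.snd (Sum.inl_injective h); exact absurd this Bool.false_ne_true))
      (fun i j => by
        rw [hs (fi i) (ei j) (fun h => by
          have := congrArg Prod.snd (Sum.inl_injective h.1); exact absurd this.symm Bool.false_ne_true)
          (fun h => by
          have := congrArg Prod.snd (Sum.inl_injective h.2); exact absurd this Bool.false_ne_true)]
        exact Matrix.one_apply_ne (fun h => by
          have := congrArg Prod.snd (Sum.inl_injective h); exact absurd this.symm Bool.false_ne_true))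
      (fun x j => hs x (mi j) (fun h => Sum.inr_ne_inl h.2) (fun h => Sum.inr_ne_inl h.2))
      (fun j y => hs (mi j) y (fun h => Sum.inr_ne_inl h.1) (fun h => Sum.inr_ne_inl h.1))
    refine ⟨(A : Matrix (Fin n) (Fin n) F) l (pr l), hA _ _, ?_⟩
    refine congrArg D.hy (Units.ext (Matrix.ext fun i j => ?_))
    rw [glr_apply hl, ← hy_ee (D := D) A i j]
    by_cases h : i = l ∧ j = pr l
    · obtain ⟨rfl, rfl⟩ := h
      rw [if_pos ⟨rfl, rfl⟩, hy_ee]
      have hne : i ≠ pr i := fun h => by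
        have h3 : (i : ℕ) = (i : ℕ) - 1 := congrArg Fin.val h
        omega
      rw [Matrix.one_apply_ne hne, zero_add]
    · rw [if_neg h, add_zero, hs (ei i) (ei j) (fun h' => h ⟨ee _ _ h'.1, ee _ _ h'.2⟩)
        (fun h' => by
          have := congrArg Prod.snd (Sum.inl_injective h'.1); exact absurd this Bool.false_ne_true)]
      by_cases hij : i = j
      · rw [hij, Matrix.one_apply_eq, Matrix.one_apply_eq]
      · rw [Matrix.one_apply_ne hij, Matrix.one_apply_ne (fun h' => hij (ee _ _ h'))]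
  · rintro ⟨x, hx, rfl⟩
    have h1 : glr l x ∈ glR F l := (glR_iff hl).2 ⟨x, rfl⟩
    refine ⟨⟨hy_mem (fun i j => ?_), hy_GS h1.1⟩, hy_LS hl h1.2⟩
    rw [glr_apply hl, map_add]
    congr 1
    · by_cases hij : i = j
      · rw [hij, Matrix.one_apply_eq, map_one]
      · rw [Matrix.one_apply_ne hij, map_zero]
    · by_cases h : i = l ∧ j = pr l
      · rw [if_pos h, hx]
      · rw [if_neg h, map_zero]

theorem R_entry {l : Fin n} (hl : 0 < (l : ℕ)) (x : F) :
    (D.hy (glr l x) : Matrix (Ix n a) (Ix n a) F) (ei l) (ei (pr l)) = x := by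
  rw [hy_ee]
  exact gle_glr hl x

theorem card_R_pos {l : Fin n} (hl : 0 < (l : ℕ)) :
    Nat.card (D.R l) = Nat.card {x : F // D.τ x = x} := by
  refine (Nat.card_congr (Equiv.ofBijective (fun x : {x : F // D.τ x = x} =>
    (⟨D.hy (glr l (x : F)), (R_pos hl).2 ⟨x, x.2, rfl⟩⟩ : D.R l)) ⟨?_, ?_⟩)).symm
  · intro x y hxy
    have h1 : D.hy (glr l (x : F)) = D.hy (glr l (y : F)) := congrArg Subtype.val hxy
    refine Subtype.ext ?_
    rw [← R_entry (D := D) hl (x : F), h1, R_entry hl]
  · rintro ⟨r, hr⟩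
    obtain ⟨x, hx, h⟩ := (R_pos hl).1 hr
    exact ⟨⟨x, hx⟩, Subtype.ext h.symm⟩

theorem hh_pos {l : Fin n} (hl : 0 < (l : ℕ)) (x : F) :
    D.hh l (D.hy (glr l x)) = D.hy (glh l (un x)) := by
  unfold FD.hh
  rw [if_pos hl, R_entry hl]

theorem hh_T {l : Fin n} (hl : 0 < (l : ℕ)) {r : GL (Ix n a) F} (hr : r ∈ D.R l) : D.hh l r ∈ D.T := by
  obtain ⟨x, hx, rfl⟩ := (R_pos hl).1 hr
  rw [hh_pos hl]
  have hu : D.τ ((un x : Fˣ) : F) = un x := by
    unfold un
    by_cases h : x ≠ 0
    · rw [dif_pos h, Units.val_mk0, hx]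
    · rw [dif_neg h, Units.val_one, map_one]
  have hd : ∀ (i : Fin n) (y : Fˣ), D.τ (y : F) = y → di i y ∈ TW D.τ (1 : Perm (Fin n)) := by
    intro i y hy
    refine mo_TW (fun _ => rfl) (fun j => ?_)
    show ((Function.update (1 : Fin n → Fˣ) i y j : Fˣ) : F) =
      D.τ ((Function.update (1 : Fin n → Fˣ) i y j : Fˣ) : F)
    by_cases h : j = i
    · rw [h, Function.update_self, hy]
    · rw [Function.update_of_ne h, Pi.one_apply, Units.val_one, map_one]
  have hg : glh l (un x) ∈ TW D.τ (1 : Perm (Fin n)) := by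
    unfold glh
    rw [if_pos hl]
    refine (TW D.τ (1 : Perm (Fin n))).mul_mem (hd _ _ hu) (hd _ _ ?_)
    rw [Units.val_neg, Units.val_inv_eq_inv_val, map_neg, map_inv₀, hu]
  refine ⟨hy_mem (fun i j => ?_), hy_DG (glh_DG l _)⟩
  exact ((mem_TW.1 hg) i j).symm

theorem hU_pos {l : Fin n} (hl : 0 < (l : ℕ)) {r : GL (Ix n a) F} (hr : r ∈ D.R l) (h1 : r ≠ 1) :
    ∃ u ∈ D.R l, ∃ u' ∈ D.R l, D.s l * r * D.s l = u * (D.s l * D.hh l r) * u' := by
  obtain ⟨x, hx, rfl⟩ := (R_pos hl).1 hr
  have hx0 : x ≠ 0 := by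
    intro h
    apply h1
    rw [(glr_one hl).2 h, map_one]
  have hxi : D.τ x⁻¹ = x⁻¹ := by rw [map_inv₀, hx]
  refine ⟨D.hy (glr l x⁻¹), (R_pos hl).2 ⟨_, hxi, rfl⟩, D.hy (glr l x⁻¹), (R_pos hl).2 ⟨_, hxi, rfl⟩, ?_⟩
  have hs : D.s l = D.hy (gls F l) := by
    unfold FD.s
    rw [if_pos hl]
  rw [hh_pos hl, hs, ← map_mul, ← map_mul, ← map_mul, ← map_mul, ← map_mul, gl_rank hl hx0]

end

end AO.MG
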