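import Pool.Agent.AO.F06
import Pool.Agent.AO.F03

/-!
# MP_6c3636_al, AO, module F08: the root subgroup of the end node (helper7)

`l = 0`. `rk x < rk y`, `yl 0 x = yl 0 y` only for `x`, `y` in `{ei l, fi l} ∪ {mi j}`, `x ≠ fi l`, `y ≠ ei l`, and not both `mi` (`yl 0 (ei i) = - i`). `R0_supp`: entries. `exists_R0`: `exists_eich` for `v = sv (fi l) + p.2 • sv (ei l) + ∑ p.1 j • sv (mi j)`: `B v v = ep * p.2 + σ p.2 + cm * ∑ ..`; the support condition gives `LS F (yl 0)`. `R0_par`: `TwM` and `B (mv r (sv (fi l))) (mv r (sv (fi l))) = 0`. `R0_ext`: `eich_unique`. `R0_ne`: if the entry is `0` then `∑ j, σ (p.1 j) * p.1 (rev j) = 0` (`cm ≠ 0`), so `p.1 = 0` (`ani`), so `r = 1` by `R0_ext`. `R0_equiv`: from the others.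
-/

namespace AO.MG

noncomputable section

open Classical Equiv Matrix

open AN (sq)

variable {n a : ℕ} {F : Type} [Field F] [Finite F] {D : FD n a F}

omit [Finite F] in
theorem F08_sv (x y : Ix n a) : (sv y : Ix n a → F) x = (1 : Matrix (Ix n a) (Ix n a) F) x y := by
  unfold sv
  rw [Pi.single_apply, Matrix.one_apply]

theorem F08_key {l : Fin n} (hl : (l : ℕ) = 0) {x y : Ix n a} (h : rk x < rk y)
    (h' : yl (l : ℕ) x = yl (l : ℕ) y) :
    In 1 x ∧ In 1 y ∧ y ≠ ei l ∧ (x = ei l ∨ y = fi l) := by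
  rcases x with ⟨i, _ | _⟩ | i <;> rcases y with ⟨j, _ | _⟩ | j
  · exfalso
    simp only [rk, yl, lv, hl, Nat.not_lt_zero, if_false] at h h'
    omega
  · simp only [rk, yl, lv, hl, Nat.not_lt_zero, if_false] at h h'
    refine ⟨?_, ?_, ?_, Or.inl ?_⟩
    · show (i : ℕ) < 1
      omega
    · show (j : ℕ) < 1
      omega
    · intro e
      simp [ei] at e
    · have : i = l := Fin.ext (by omega)
      rw [this]
      rfl
  · simp only [rk, yl, lv, hl, Nat.not_lt_zero, if_false] at h h'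
    refine ⟨?_, trivial, ?_, Or.inl ?_⟩
    · show (i : ℕ) < 1
      omega
    · intro e
      simp [ei] at e
    · have : i = l := Fin.ext (by omega)
      rw [this]
      rfl
  · exfalso
    simp only [rk, yl, lv, hl, Nat.not_lt_zero, if_false] at h h'
    omega
  · exfalso
    simp only [rk, yl, lv, hl, Nat.not_lt_zero, if_false] at h h'
    omega
  · exfalso
    simp only [rk, yl, lv, hl, Nat.not_lt_zero, if_false] at h h'
    omega
  · exfalso
    simp only [rk, yl, lv, hl, Nat.not_lt_zero, if_false] at h h'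
    omega
  · simp only [rk, yl, lv, hl, Nat.not_lt_zero, if_false] at h h'
    refine ⟨trivial, ?_, ?_, Or.inr ?_⟩
    · show (j : ℕ) < 1
      omega
    · intro e
      simp [ei] at e
    · have : j = l := Fin.ext (by omega)
      rw [this]
      rfl
  · exfalso
    simp only [rk] at h
    omega

theorem F08_yl {l : Fin n} (hl : (l : ℕ) = 0) {x : Ix n a} (h : In 1 x) : yl (l : ℕ) x = 0 := by
  rcases x with ⟨i, _ | _⟩ | i
  · have h1 : (i : ℕ) < 1 := h
    simp only [yl, lv, hl, Nat.not_lt_zero, if_false]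
    omega
  · have h1 : (i : ℕ) < 1 := h
    simp only [yl, lv, hl, Nat.not_lt_zero, if_false]
    omega
  · rfl

omit [Finite F] in
theorem F08_entry {l : Fin n} {r : GL (Ix n a) F} (hr : r ∈ D.R l) {x y : Ix n a}
    (h : ¬ (rk x < rk y ∧ yl (l : ℕ) x = yl (l : ℕ) y)) :
    (r : Matrix (Ix n a) (Ix n a) F) x y = (1 : Matrix (Ix n a) (Ix n a) F) x y := by
  have hG : UpM rk (r : Matrix (Ix n a) (Ix n a) F) := hr.1.2.1
  have hL : LvM (yl (l : ℕ)) (r : Matrix (Ix n a) (Ix n a) F) := hr.2.1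
  by_cases h1 : rk x < rk y
  · have h2 : ¬ yl (l : ℕ) x = yl (l : ℕ) y := fun e => h ⟨h1, e⟩
    have h3 : x ≠ y := fun e => h2 (congrArg _ e)
    rw [hL x y h2, Matrix.one_apply_ne h3]
  · exact hG x y h1

theorem R0_supp {l : Fin n} (hl : (l : ℕ) = 0) {r : GL (Ix n a) F} (hr : r ∈ D.R l) :
    (∀ x y, x ≠ ei l → y ≠ fi l → (r : Matrix (Ix n a) (Ix n a) F) x y =
      (1 : Matrix (Ix n a) (Ix n a) F) x y) ∧ Fo 1 (r : Matrix (Ix n a) (Ix n a) F) ∧
    mv r (sv (ei l)) = sv (ei l) ∧ (r : Matrix (Ix n a) (Ix n a) F) (fi l) (fi l) = 1 := by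
  refine ⟨fun x y hx hy => ?_, fun x y hxy => ?_, ?_, ?_⟩
  · exact F08_entry hr fun h => by
      rcases (F08_key hl h.1 h.2).2.2.2 with h1 | h1
      · exact hx h1
      · exact hy h1
  · exact F08_entry hr fun h => by
      have h1 := F08_key hl h.1 h.2
      exact hxy ⟨h1.1, h1.2.1⟩
  · funext x
    rw [mv_apply, F08_sv]
    exact F08_entry hr fun h => (F08_key hl h.1 h.2).2.2.1 rfl
  · rw [F08_entry hr (fun h => lt_irrefl _ h.1), Matrix.one_apply_eq]

theorem mem_R0 {l : Fin n} (hl : (l : ℕ) = 0) {r : GL (Ix n a) F} (hr : r ∈ D.U)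
    (h : Fo 1 (r : Matrix (Ix n a) (Ix n a) F)) : r ∈ D.R l := by
  refine ⟨hr, mem_LS.2 ?_⟩
  intro x y hxy
  by_cases h1 : In 1 x ∧ In 1 y
  · exact absurd ((F08_yl hl h1.1).trans (F08_yl hl h1.2).symm) hxy
  · rw [h x y h1, Matrix.one_apply_ne (fun e => hxy (congrArg _ e))]

/-- the column of `fi l` -/
def F08_pv (l : Fin n) (p : Fin a → F) (q : F) : Ix n a → F
  | Sum.inl (i, false) => if i = l then q else 0
  | Sum.inl (i, true) => if i = l then 1 else 0
  | Sum.inr j => p j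

omit [Finite F] in
theorem F08_B (l : Fin n) (p : Fin a → F) (q : F) : D.B (F08_pv l p q) (F08_pv l p q) =
    (D.ep : F) * q + D.σ q + (D.cm : F) * ∑ j, D.σ (p j) * p (Fin.rev j) := by
  unfold FD.B
  rw [Fintype.sum_sum_type, Fintype.sum_prod_type]
  have h1 : ∀ i : Fin n, (∑ b : Bool, (D.c (Sum.inl (i, b)) : F) * D.σ (F08_pv l p q (Sum.inl (i, b))) *
      F08_pv l p q (du (Sum.inl (i, b)))) = if i = l then (D.ep : F) * q + D.σ q else 0 := by
    intro i
    rw [Fintype.sum_bool]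
    show (D.ep : F) * D.σ (if i = l then 1 else 0) * (if i = l then q else 0) +
      ((1 : Fˣ) : F) * D.σ (if i = l then q else 0) * (if i = l then 1 else 0) = _
    by_cases hi : i = l
    · simp only [if_pos hi]
      rw [map_one, Units.val_one, mul_one, mul_one, one_mul]
    · simp only [if_neg hi]
      rw [mul_zero, mul_zero, add_zero]
  rw [Finset.sum_congr rfl (fun i _ => h1 i), Finset.sum_ite_eq' Finset.univ l, if_pos (Finset.mem_univ l),
    Finset.mul_sum]
  congr 1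
  refine Finset.sum_congr rfl fun j _ => ?_
  show (D.cm : F) * D.σ (p j) * p (Fin.rev j) = _
  rw [mul_assoc]

omit [Finite F] in
theorem F08_col {l : Fin n} (hl : (l : ℕ) = 0) {r : GL (Ix n a) F} (hr : r ∈ D.R l) (x : Ix n a) :
    (r : Matrix (Ix n a) (Ix n a) F) x (fi l) =
      F08_pv l (fun j => (r : Matrix (Ix n a) (Ix n a) F) (mi j) (fi l))
        ((r : Matrix (Ix n a) (Ix n a) F) (ei l) (fi l)) x := by
  rcases x with ⟨i, _ | _⟩ | i
  · show _ = if i = l then (r : Matrix (Ix n a) (Ix n a) F) (ei l) (fi l) else 0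
    by_cases hi : i = l
    · rw [if_pos hi, hi]
      rfl
    · rw [if_neg hi, F08_entry hr fun h => ?_]
      · exact Matrix.one_apply_ne (by simp [fi])
      · rcases (F08_key hl h.1 h.2) with ⟨h1, _⟩
        have h2 : (i : ℕ) < 1 := h1
        exact hi (Fin.ext (by omega))
  · show _ = if i = l then 1 else 0
    by_cases hi : i = l
    · rw [if_pos hi, hi, F08_entry hr fun h => ?_]
      · exact Matrix.one_apply_eq _
      · exact lt_irrefl _ h.1
    · rw [if_neg hi, F08_entry hr fun h => ?_]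
      · exact Matrix.one_apply_ne (by simp [fi, hi])
      · rcases (F08_key hl h.1 h.2) with ⟨h1, _⟩
        have h2 : (i : ℕ) < 1 := h1
        exact hi (Fin.ext (by omega))
  · rfl

theorem exists_R0 {l : Fin n} (hl : (l : ℕ) = 0) (p : D.PR) : ∃ r ∈ D.R l,
    (∀ j, (r : Matrix (Ix n a) (Ix n a) F) (mi j) (fi l) = p.1.1 j) ∧
      (r : Matrix (Ix n a) (Ix n a) F) (ei l) (fi l) = p.1.2 := by
  obtain ⟨hp1, hp2, hp3⟩ := p.2
  obtain ⟨u, hu, h1, h2, h3, h4⟩ := exists_eich (D := D) l (v := F08_pv l p.1.1 p.1.2)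
    (by rw [F08_B, hp3]) (by show (if l = l then (1 : F) else 0) = 1; rw [if_pos rfl])
    (by
      intro x hx
      rw [hl] at hx
      rcases x with ⟨i, _ | _⟩ | i
      · show (if i = l then p.1.2 else 0) = 0
        rw [if_neg]
        intro e
        apply hx
        show (i : ℕ) < 0 + 1
        rw [e, hl]
        exact Nat.zero_lt_one
      · show (if i = l then (1 : F) else 0) = 0
        rw [if_neg]
        intro e
        apply hx
        show (i : ℕ) < 0 + 1
        rw [e, hl]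
        exact Nat.zero_lt_one
      · exact absurd trivial hx)
    (by
      intro x
      rcases x with ⟨i, _ | _⟩ | i
      · show (if i = l then p.1.2 else 0) = D.τ (if i = l then p.1.2 else 0)
        by_cases hi : i = l
        · rw [if_pos hi, hp2]
        · rw [if_neg hi, map_zero]
      · show (if i = l then (1 : F) else 0) = D.τ (if i = l then 1 else 0)
        by_cases hi : i = l
        · rw [if_pos hi, map_one]
        · rw [if_neg hi, map_zero]
      · exact hp1 i)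
  refine ⟨u, ?_, fun j => ?_, ?_⟩
  · apply mem_R0 hl hu
    rw [hl] at h4
    exact h4
  · rw [← mv_apply, h1]
    rfl
  · rw [← mv_apply, h1]
    show (if l = l then p.1.2 else 0) = _
    rw [if_pos rfl]

theorem R0_par {l : Fin n} (hl : (l : ℕ) = 0) {r : GL (Ix n a) F} (hr : r ∈ D.R l) :
    ∃ p : D.PR, (∀ j, (r : Matrix (Ix n a) (Ix n a) F) (mi j) (fi l) = p.1.1 j) ∧
      (r : Matrix (Ix n a) (Ix n a) F) (ei l) (fi l) = p.1.2 := by
  have hG : r ∈ D.G := hr.1.1
  have hT : TwM D.τ pm (r : Matrix (Ix n a) (Ix n a) F) := (mem_G.1 hG).2.1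
  refine ⟨⟨((fun j => (r : Matrix (Ix n a) (Ix n a) F) (mi j) (fi l)),
    (r : Matrix (Ix n a) (Ix n a) F) (ei l) (fi l)), ?_, ?_, ?_⟩, fun j => rfl, rfl⟩
  · intro j
    exact hT (mi j) (fi l)
  · exact (hT (ei l) (fi l)).symm
  · have h1 : mv r (sv (fi l)) = F08_pv l (fun j => (r : Matrix (Ix n a) (Ix n a) F) (mi j) (fi l))
        ((r : Matrix (Ix n a) (Ix n a) F) (ei l) (fi l)) := by
      funext x
      rw [mv_apply]
      exact F08_col hl hr x
    have h2 := B_mv hG (sv (fi l)) (sv (fi l))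
    rw [h1, F08_B, B_sv_left, F08_sv, Matrix.one_apply_ne, mul_zero] at h2
    · exact h2
    · show (Sum.inl (l, !true) : Ix n a) ≠ fi l
      simp [fi]

theorem R0_ext {l : Fin n} (hl : (l : ℕ) = 0) {r r' : GL (Ix n a) F} (hr : r ∈ D.R l) (hr' : r' ∈ D.R l)
    (h : ∀ x, (r : Matrix (Ix n a) (Ix n a) F) x (fi l) = (r' : Matrix (Ix n a) (Ix n a) F) x (fi l)) :
    r = r' := by
  obtain ⟨h1, h2, h3, h4⟩ := R0_supp hl hr
  obtain ⟨h1', h2', h3', h4'⟩ := R0_supp hl hr'
  refine eich_unique (D := D) l hr.1.1 hr'.1.1 ?_ h3 h3' h1 h1'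
  funext x
  rw [mv_apply, mv_apply]
  exact h x

omit [Finite F] in
theorem F08_PR {p : D.PR} (h : p.1.2 = 0) : p.1.1 = 0 := by
  obtain ⟨hp1, hp2, hp3⟩ := p.2
  rw [h, mul_zero, map_zero, zero_add, zero_add] at hp3
  exact D.ani p.1.1 hp1 ((mul_eq_zero.1 hp3).resolve_left D.cm.ne_zero)

theorem R0_ne {l : Fin n} (hl : (l : ℕ) = 0) {r : GL (Ix n a) F} (hr : r ∈ D.R l) (h1 : r ≠ 1) :
    (r : Matrix (Ix n a) (Ix n a) F) (ei l) (fi l) ≠ 0 := by
  intro h
  apply h1
  obtain ⟨p, hp, hp'⟩ := R0_par hl hr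
  have h2 : p.1.1 = 0 := F08_PR (by rw [← hp', h])
  refine R0_ext hl hr (one_mem _) fun x => ?_
  rw [F08_col hl hr, Units.val_one, h]
  have h3 : (fun j => (r : Matrix (Ix n a) (Ix n a) F) (mi j) (fi l)) = 0 := by
    funext j
    rw [hp, h2]
  rw [h3]
  rcases x with ⟨i, _ | _⟩ | i
  · show (if i = l then (0 : F) else 0) = _
    rw [ite_self, Matrix.one_apply_ne]
    simp [fi]
  · show (if i = l then (1 : F) else 0) = _
    by_cases hi : i = l
    · rw [if_pos hi, hi]
      exact (Matrix.one_apply_eq _).symm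
    · rw [if_neg hi, Matrix.one_apply_ne]
      simp [fi, hi]
  · show (0 : F) = _
    rw [Matrix.one_apply_ne]
    simp [fi]

theorem PR_ne {p : D.PR} (h : p.1.2 = 0) : p.1.1 = 0 := F08_PR h

theorem R0_equiv {l : Fin n} (hl : (l : ℕ) = 0) : ∃ e : D.R l ≃ D.PR,
    ∀ r : D.R l, (∀ j, ((r : GL (Ix n a) F) : Matrix (Ix n a) (Ix n a) F) (mi j) (fi l) = (e r).1.1 j) ∧
      ((r : GL (Ix n a) F) : Matrix (Ix n a) (Ix n a) F) (ei l) (fi l) = (e r).1.2 ∧
      ((e r).1.2 = 0 ↔ (r : GL (Ix n a) F) = 1) := by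
  choose f hf hf' using fun r : D.R l => R0_par hl r.2
  have hb : Function.Bijective f := by
    constructor
    · intro r r' h
      apply Subtype.ext
      refine R0_ext hl r.2 r'.2 fun x => ?_
      rw [F08_col hl r.2, F08_col hl r'.2]
      have h1 : (fun j => ((r : GL (Ix n a) F) : Matrix (Ix n a) (Ix n a) F) (mi j) (fi l)) =
          fun j => ((r' : GL (Ix n a) F) : Matrix (Ix n a) (Ix n a) F) (mi j) (fi l) := by
        funext j
        rw [hf, hf, h]
      rw [h1, hf', hf', h]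
    · intro p
      obtain ⟨r, hr, h1, h2⟩ := exists_R0 hl p
      refine ⟨⟨r, hr⟩, Subtype.ext (Prod.ext ?_ ?_)⟩
      · funext j
        rw [← hf]
        exact h1 j
      · rw [← hf']
        exact h2
  refine ⟨Equiv.ofBijective f hb, fun r => ⟨hf r, hf' r, ?_⟩⟩
  show (f r).1.2 = 0 ↔ _
  rw [← hf']
  constructor
  · intro h
    by_contra h1
    exact R0_ne hl r.2 h1 h
  · intro h
    rw [h, Units.val_one, Matrix.one_apply_ne]
    simp [ei, fi]

end

end AO.MG
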