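import Pool.Agent.AO.F08

/-!
# MP_6c3636_al, AO, module F09: the rank one relation of the end node (helper7)

`l = 0`, `e = sv (ei l)`, `f = sv (fi l)`, `s = D.s l`: `s e = ep • f`, `s f = e`, `s (mi j) = om • mi (rev j)`, the other `sv x` are fixed. Let `β ≠ 0` be the entry of `r` at `(e, f)` (`R0_ne`), `g = s * r * s`. `v = g e = ep • s (r f)`; `r f = f + z + β • e`, so the `f` coordinate of `v` is `ep * β * ep = β`. `v` is isotropic with `v (pm x) = τ (v x)`, `τ β = β`, in the first plane and the anisotropic part. `exists_eich` for `β⁻¹ • v`: `u ∈ R l` with `u f = β⁻¹ • v`. `p = (u * s)⁻¹ * g ∈ G`, `Fo 1 p`; with `λ = ep * β`: `u s (λ • e) = ep * λ • u f = v = g e`, so `p e = λ • e`. `p` preserves the orthogonal complement of `e`: the `f` coordinate of `p (mi j)` is `0`. So `PbM rk p`; `lev_split` for `rk`: `p = h * u'`, `h = lev rk p ∈ G` (`lev_IG`, `lev_TW`, `lev_det`), `u' ∈ GS F rk`, `u' = h⁻¹ * p ∈ G`, `Fo 1 u'`, so `u' ∈ R l` (`mem_R0`).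 `mid_T`: an element of `G` in `LS F rk` is diagonal: the blocks are the single `ei i`, `fi i` and the anisotropic part. `a ≤ 1`: clear. `a = 2` (`a2`, `sos`: `so = true`, `σ = id`, `ep = 1`): let `p, q, r', s'` be the entries of the block, columns `(p, r')`, `(q, s')`: isometry: `2 p r' = 0`, `2 q s' = 0`, `p s' + q r' = 1`; determinant: the product of all diagonal entries of `ei i`, `fi i` is `1` (`σ = id`: `t (ei i) * t (fi i) = 1`), so `p s' - q r' = 1`; so `p s' = 1`, `q r' = 0`, `r' = 0`, `q = 0`.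
-/

namespace AO.MG

noncomputable section

open Classical Equiv Matrix

open AN (sq)

variable {n a : ℕ} {F : Type} [Field F] [Finite F] {D : FD n a F}

private theorem rk_ei (i : Fin n) : rk (ei i : Ix n a) = -(((i : ℕ) : ℤ) + 1) := rfl

private theorem rk_fi (i : Fin n) : rk (fi i : Ix n a) = ((i : ℕ) : ℤ) + 1 := rfl

private theorem rk_mi (j : Fin a) : rk (mi j : Ix n a) = 0 := rfl

/-- indices of the same rank are equal or both in the anisotropic part -/
private theorem rk_eq {x y : Ix n a} (h : rk x = rk y) (hxy : x ≠ y) :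
    ∃ j j' : Fin a, j ≠ j' ∧ x = mi j ∧ y = mi j' := by
  rcases x with ⟨i, b⟩ | j <;> rcases y with ⟨i', b'⟩ | j'
  · exfalso
    cases b <;> cases b'
    · have h' : -(((i : ℕ) : ℤ) + 1) = -(((i' : ℕ) : ℤ) + 1) := h
      exact hxy (by rw [show i = i' from Fin.ext (by omega)])
    · have h' : -(((i : ℕ) : ℤ) + 1) = (((i' : ℕ) : ℤ) + 1) := h
      omega
    · have h' : (((i : ℕ) : ℤ) + 1) = -(((i' : ℕ) : ℤ) + 1) := h
      omega
    · have h' : (((i : ℕ) : ℤ) + 1) = (((i' : ℕ) : ℤ) + 1) := h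
      exact hxy (by rw [show i = i' from Fin.ext (by omega)])
  · exfalso
    cases b
    · have h' : -(((i : ℕ) : ℤ) + 1) = 0 := h
      omega
    · have h' : (((i : ℕ) : ℤ) + 1) = 0 := h
      omega
  · exfalso
    cases b'
    · have h' : (0 : ℤ) = -(((i' : ℕ) : ℤ) + 1) := h
      omega
    · have h' : (0 : ℤ) = (((i' : ℕ) : ℤ) + 1) := h
      omega
  · exact ⟨j, j', fun h' => hxy (by rw [h']), rfl, rfl⟩

private theorem fo_mul9 {j : ℕ} {A B : Matrix (Ix n a) (Ix n a) F} (hA : Fo j A) (hB : Fo j B) :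
    Fo j (A * B) := by
  intro x y h
  have h1 : A * B = (A - 1) * (B - 1) + (A - 1) + (B - 1) + 1 := by
    rw [sub_mul, mul_sub, one_mul, mul_one]
    abel
  have h2 : (A - 1) x y = 0 := by rw [Matrix.sub_apply, hA x y h, sub_self]
  have h3 : (B - 1) x y = 0 := by rw [Matrix.sub_apply, hB x y h, sub_self]
  rw [h1, Matrix.add_apply, Matrix.add_apply, Matrix.add_apply, h2, h3, add_zero, add_zero,
    Matrix.mul_apply, Finset.sum_eq_zero, zero_add]
  intro k _
  by_cases hx : In j x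
  · have hy : ¬ In j y := fun hy => h ⟨hx, hy⟩
    rw [Matrix.sub_apply B, hB k y (fun h' => hy h'.2), sub_self, mul_zero]
  · rw [Matrix.sub_apply A, hA x k (fun h' => hx h'.1), sub_self, zero_mul]

private theorem fo_inv9 {j : ℕ} {g : GL (Ix n a) F} (hg : Fo j (g : Matrix (Ix n a) (Ix n a) F)) :
    Fo j ((g⁻¹ : GL (Ix n a) F) : Matrix (Ix n a) (Ix n a) F) := by
  intro x y h
  have h1 : (g : Matrix (Ix n a) (Ix n a) F) * ((g⁻¹ : GL (Ix n a) F) : Matrix (Ix n a) (Ix n a) F) = 1 := by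
    rw [← Units.val_mul, mul_inv_cancel, Units.val_one]
  have h2 : ((g⁻¹ : GL (Ix n a) F) : Matrix (Ix n a) (Ix n a) F) * (g : Matrix (Ix n a) (Ix n a) F) = 1 := by
    rw [← Units.val_mul, inv_mul_cancel, Units.val_one]
  by_cases hx : In j x
  · have hy : ¬ In j y := fun hy => h ⟨hx, hy⟩
    have h3 : ((g⁻¹ : GL (Ix n a) F) : Matrix (Ix n a) (Ix n a) F) =
        1 - ((g⁻¹ : GL (Ix n a) F) : Matrix (Ix n a) (Ix n a) F) *
          ((g : Matrix (Ix n a) (Ix n a) F) - 1) := by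
      rw [mul_sub, h2, mul_one]
      abel
    rw [h3, Matrix.sub_apply, Matrix.mul_apply, Finset.sum_eq_zero, sub_zero]
    intro k _
    rw [Matrix.sub_apply, hg k y (fun h' => hy h'.2), sub_self, mul_zero]
  · have h3 : ((g⁻¹ : GL (Ix n a) F) : Matrix (Ix n a) (Ix n a) F) =
        1 - ((g : Matrix (Ix n a) (Ix n a) F) - 1) *
          ((g⁻¹ : GL (Ix n a) F) : Matrix (Ix n a) (Ix n a) F) := by
      rw [sub_mul, h1, one_mul]
      abel
    rw [h3, Matrix.sub_apply, Matrix.mul_apply, Finset.sum_eq_zero, sub_zero]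
    intro k _
    rw [Matrix.sub_apply, hg x k (fun h' => hx h'.1), sub_self, zero_mul]

/-- the sums over the anisotropic part -/
private theorem B_mm {v w : Ix n 2 → F} {D : FD n 2 F} (hv : ∀ i, v (ei i) = 0 ∧ v (fi i) = 0) :
    D.B v w = D.cm * (D.σ (v (mi 0)) * w (mi 1) + D.σ (v (mi 1)) * w (mi 0)) := by
  have h0 : D.B v w = ∑ x : Ix n 2, (D.c x : F) * D.σ (v x) * w (du x) := rfl
  rw [h0, Fintype.sum_sum_type, Fin.sum_univ_two]
  have h1 : ∑ p : Fin n × Bool, (D.c (Sum.inl p) : F) * D.σ (v (Sum.inl p)) * w (du (Sum.inl p)) = 0 := by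
    refine Finset.sum_eq_zero fun p _ => ?_
    have h2 : v (Sum.inl p) = 0 := by
      rcases p with ⟨i, b⟩
      cases b
      · exact (hv i).1
      · exact (hv i).2
    rw [h2, map_zero, mul_zero, zero_mul]
  rw [h1, zero_add]
  show (D.cm : F) * D.σ (v (mi 0)) * w (mi 1) + (D.cm : F) * D.σ (v (mi 1)) * w (mi 0) = _
  ring

theorem mid_T {g : GL (Ix n a) F} (hg : g ∈ D.G) (h : g ∈ LS F rk) : g ∈ D.T := by
  refine ⟨hg, mem_DG.2 ?_⟩
  have hL : LvM rk (g : Matrix (Ix n a) (Ix n a) F) := mem_LS.1 h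
  intro x y hxy
  by_cases hr : rk x = rk y
  swap
  · exact hL x y hr
  obtain ⟨j, j', hjj, rfl, rfl⟩ := rk_eq hr hxy
  rcases D.a2 with ha | ⟨ha, hso⟩
  · exact absurd (Fin.ext (by have := j.2; have := j'.2; omega)) hjj
  subst ha
  obtain ⟨hσ, hep, -⟩ := D.sos hso
  -- the entries of the block
  have hvan : ∀ (k : Fin 2) (i : Fin n), (g : Matrix (Ix n 2) (Ix n 2) F) (ei i) (mi k) = 0 ∧
      (g : Matrix (Ix n 2) (Ix n 2) F) (fi i) (mi k) = 0 := by
    intro k i
    constructor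
    · refine hL _ _ ?_
      rw [rk_ei, rk_mi]
      omega
    · refine hL _ _ ?_
      rw [rk_fi, rk_mi]
      omega
  have hB : ∀ k k' : Fin 2, (D.cm : F) *
      ((g : Matrix (Ix n 2) (Ix n 2) F) (mi 0) (mi k) * (g : Matrix (Ix n 2) (Ix n 2) F) (mi 1) (mi k') +
        (g : Matrix (Ix n 2) (Ix n 2) F) (mi 1) (mi k) * (g : Matrix (Ix n 2) (Ix n 2) F) (mi 0) (mi k')) =
      D.B (sv (mi k)) (sv (mi k')) := by
    intro k k'
    rw [← B_mv hg, B_mm (fun i => ⟨by rw [mv_apply]; exact (hvan k i).1, by rw [mv_apply]; exact (hvan k i).2⟩)]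
    simp only [mv_apply, hσ]
  have hB' : ∀ k k' : Fin 2, D.B (sv (mi k)) (sv (mi k')) = D.cm * (sv (mi k' : Ix n 2) (mi (Fin.rev k)) : F) := by
    intro k k'
    rw [B_sv_left]
    rfl
  have hs1 : ∀ k k' : Fin 2, (sv (mi k' : Ix n 2) (mi k) : F) = if k = k' then 1 else 0 := by
    intro k k'
    rw [sv, Pi.single_apply]
    by_cases hk : k = k'
    · rw [if_pos hk, if_pos (by rw [hk])]
    · rw [if_neg hk, if_neg (fun h' : (mi k : Ix n 2) = mi k' => hk (Sum.inr.inj h'))]
  have hcm : (D.cm : F) ≠ 0 := D.cm.ne_zero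
  have e00 : (g : Matrix (Ix n 2) (Ix n 2) F) (mi 0) (mi 0) * (g : Matrix (Ix n 2) (Ix n 2) F) (mi 1) (mi 0) = 0 := by
    have h1 := hB 0 0
    rw [hB', hs1] at h1
    have h2 : (Fin.rev (0 : Fin 2)) ≠ 0 := by decide
    rw [if_neg h2, mul_zero] at h1
    have h3 := (mul_eq_zero.1 h1).resolve_left hcm
    have h4 : (2 : F) * ((g : Matrix (Ix n 2) (Ix n 2) F) (mi 0) (mi 0) *
        (g : Matrix (Ix n 2) (Ix n 2) F) (mi 1) (mi 0)) = 0 := by linear_combination h3
    exact (mul_eq_zero.1 h4).resolve_left D.two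
  have e11 : (g : Matrix (Ix n 2) (Ix n 2) F) (mi 0) (mi 1) * (g : Matrix (Ix n 2) (Ix n 2) F) (mi 1) (mi 1) = 0 := by
    have h1 := hB 1 1
    rw [hB', hs1] at h1
    have h2 : (Fin.rev (1 : Fin 2)) ≠ 1 := by decide
    rw [if_neg h2, mul_zero] at h1
    have h3 := (mul_eq_zero.1 h1).resolve_left hcm
    have h4 : (2 : F) * ((g : Matrix (Ix n 2) (Ix n 2) F) (mi 0) (mi 1) *
        (g : Matrix (Ix n 2) (Ix n 2) F) (mi 1) (mi 1)) = 0 := by linear_combination h3
    exact (mul_eq_zero.1 h4).resolve_left D.two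
  have e01 : (g : Matrix (Ix n 2) (Ix n 2) F) (mi 0) (mi 0) * (g : Matrix (Ix n 2) (Ix n 2) F) (mi 1) (mi 1) +
      (g : Matrix (Ix n 2) (Ix n 2) F) (mi 1) (mi 0) * (g : Matrix (Ix n 2) (Ix n 2) F) (mi 0) (mi 1) = 1 := by
    have h1 := hB 0 1
    rw [hB', hs1] at h1
    have h2 : (Fin.rev (0 : Fin 2)) = 1 := by decide
    rw [if_pos h2, mul_one] at h1
    exact mul_left_cancel₀ hcm (h1.trans (mul_one _).symm)
  by_cases hr0 : (g : Matrix (Ix n 2) (Ix n 2) F) (mi 1) (mi 0) = 0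
  · have hp : (g : Matrix (Ix n 2) (Ix n 2) F) (mi 1) (mi 1) ≠ 0 := by
      intro h'
      rw [hr0, h'] at e01
      simp at e01
    have hq : (g : Matrix (Ix n 2) (Ix n 2) F) (mi 0) (mi 1) = 0 := (mul_eq_zero.1 e11).resolve_right hp
    fin_cases j <;> fin_cases j'
    · exact absurd rfl hjj
    · exact hq
    · exact hr0
    · exact absurd rfl hjj
  · exfalso
    have hp0 : (g : Matrix (Ix n 2) (Ix n 2) F) (mi 0) (mi 0) = 0 := (mul_eq_zero.1 e00).resolve_right hr0
    have hq0 : (g : Matrix (Ix n 2) (Ix n 2) F) (mi 0) (mi 1) ≠ 0 := by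
      intro h'
      rw [hp0, h'] at e01
      simp at e01
    have hs0 : (g : Matrix (Ix n 2) (Ix n 2) F) (mi 1) (mi 1) = 0 := (mul_eq_zero.1 e11).resolve_left hq0
    have hrq : (g : Matrix (Ix n 2) (Ix n 2) F) (mi 1) (mi 0) * (g : Matrix (Ix n 2) (Ix n 2) F) (mi 0) (mi 1) = 1 := by
      rw [hp0, zero_mul, zero_add] at e01
      exact e01
    -- the entries of the hyperbolic part
    have hef : ∀ i : Fin n, (g : Matrix (Ix n 2) (Ix n 2) F) (ei i) (ei i) *
        (g : Matrix (Ix n 2) (Ix n 2) F) (fi i) (fi i) = 1 := by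
      intro i
      have h1 := B_mv hg (sv (ei i)) (sv (fi i))
      have h2 : mv g (sv (ei i)) = (g : Matrix (Ix n 2) (Ix n 2) F) (ei i) (ei i) • sv (ei i) := by
        ext x
        rw [mv_apply, Pi.smul_apply, smul_eq_mul, sv, Pi.single_apply]
        by_cases hx : x = ei i
        · rw [if_pos hx, hx, mul_one]
        · rw [if_neg hx, mul_zero]
          refine hL _ _ fun h' => ?_
          obtain ⟨k, k', -, -, h4⟩ := rk_eq h' hx
          exact absurd h4 (by simp [ei, mi])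
      rw [h2, B_smul_left, B_sv_left, B_sv_left, hσ, mv_apply] at h1
      have h3 : du (ei i : Ix n 2) = fi i := rfl
      have h4 : (D.c (ei i : Ix n 2) : F) = 1 := rfl
      rw [h3, h4, one_mul, one_mul, sv, Pi.single_eq_same] at h1
      exact h1
    have hne : ∀ x : Ix n 2, (g : Matrix (Ix n 2) (Ix n 2) F) (pm x) x ≠ 0 := by
      rintro (⟨i, b⟩ | k)
      · cases b
        · intro h'
          have h2 := hef i
          have h3 : (g : Matrix (Ix n 2) (Ix n 2) F) (ei i) (ei i) = 0 := h'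
          rw [h3, zero_mul] at h2
          exact zero_ne_one h2
        · intro h'
          have h2 := hef i
          have h3 : (g : Matrix (Ix n 2) (Ix n 2) F) (fi i) (fi i) = 0 := h'
          rw [h3, mul_zero] at h2
          exact zero_ne_one h2
      · fin_cases k
        · exact hr0
        · exact hq0
    have hmo : g = mo pm (fun x => Units.mk0 _ (hne x)) := by
      apply Units.ext
      ext x y
      rw [mo_apply]
      by_cases hx : x = pm y
      · rw [if_pos hx, hx]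
        rfl
      · rw [if_neg hx]
        by_cases hrk : rk x = rk y
        · by_cases hxy' : x = y
          · subst hxy'
            rcases x with ⟨i, b⟩ | k
            · exact absurd rfl hx
            · fin_cases k
              · exact hp0
              · exact hs0
          · obtain ⟨k, k', hk, rfl, rfl⟩ := rk_eq hrk hxy'
            exfalso
            apply hx
            fin_cases k <;> fin_cases k'
            · exact absurd rfl hk
            · rfl
            · rfl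
            · exact absurd rfl hk
        · exact hL x y hrk
    have hdet := (mem_G.1 hg).2.2 hso
    rw [hmo, mo_det] at hdet
    have hsgn : (Equiv.Perm.sign (pm : Perm (Ix n 2)) : ℤˣ) = -1 := by
      have h1 : (pm : Perm (Ix n 2)) = Equiv.sumCongr (Equiv.refl _) (Fin.revPerm : Perm (Fin 2)) := by
        ext x
        rcases x with p | k
        · rfl
        · rfl
      have h2 : Equiv.Perm.sign (Equiv.Perm.sumCongr (1 : Perm (Fin n × Bool)) (Fin.revPerm : Perm (Fin 2))) =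
          Equiv.Perm.sign (1 : Perm (Fin n × Bool)) * Equiv.Perm.sign (Fin.revPerm : Perm (Fin 2)) :=
        Equiv.Perm.sign_sumCongr _ _
      rw [h1]
      refine h2.trans ?_
      rw [map_one, one_mul]
      decide
    have hprod : ∏ x : Ix n 2, ((Units.mk0 _ (hne x) : Fˣ) : F) = 1 := by
      rw [Fintype.prod_sum_type, Fin.prod_univ_two, Fintype.prod_prod_type]
      have h1 : ∏ i : Fin n, ∏ b : Bool, ((Units.mk0 _ (hne (Sum.inl (i, b))) : Fˣ) : F) = 1 := by
        refine Finset.prod_eq_one fun i _ => ?_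
        rw [Fintype.prod_bool]
        show (g : Matrix (Ix n 2) (Ix n 2) F) (fi i) (fi i) * (g : Matrix (Ix n 2) (Ix n 2) F) (ei i) (ei i) = 1
        rw [mul_comm]
        exact hef i
      rw [h1, one_mul]
      exact hrq
    rw [hprod, hsgn, mul_one] at hdet
    apply D.two
    have h5 : ((((-1 : ℤˣ) : ℤ) : F)) = -1 := by simp
    rw [h5] at hdet
    linear_combination -hdet

theorem borel {g : GL (Ix n a) F} (hg : g ∈ D.G) (h : PbM rk (g : Matrix (Ix n a) (Ix n a) F)) :
    ∃ t ∈ D.T, ∃ u ∈ D.U, g = t * u ∧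
      ∀ x, (t : Matrix (Ix n a) (Ix n a) F) x x = (g : Matrix (Ix n a) (Ix n a) F) x x := by
  obtain ⟨v, hv, hgv⟩ := lev_split h
  have hG := mem_G.1 hg
  have h1 : lev rk g ∈ D.G := by
    refine mem_G.2 ⟨lev_IG ?_ h hG.1, mem_TW.1 (lev_TW rk_pm h (mem_TW.2 hG.2.1)), fun hs => ?_⟩
    · intro x y hxy
      have h2 : y = du x := by
        by_contra h'
        exact hxy (if_neg h')
      rw [h2, rk_du]
    · rw [lev_det h]
      exact hG.2.2 hs
  have hT : lev rk g ∈ D.T := mid_T h1 (lev_mem h)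
  have hv' : v = (lev rk g)⁻¹ * g := by
    exact (inv_mul_eq_of_eq_mul hgv).symm
  refine ⟨lev rk g, hT, v, ⟨?_, hv⟩, hgv, fun x => ?_⟩
  · rw [hv']
    exact D.G.mul_mem (D.G.inv_mem h1) hg
  · rw [lev_coe h]
    show (if rk x = rk x then _ else _) = _
    rw [if_pos rfl]

private theorem In_cases {l : Fin n} (hl : (l : ℕ) = 0) {x : Ix n a} (h : In 1 x) :
    x = ei l ∨ x = fi l ∨ ∃ j : Fin a, x = mi j := by
  rcases x with ⟨i, b⟩ | j
  · have h' : (i : ℕ) < 1 := h
    have hi : i = l := Fin.ext (by omega)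
    subst hi
    cases b
    · exact Or.inl rfl
    · exact Or.inr (Or.inl rfl)
  · exact Or.inr (Or.inr ⟨j, rfl⟩)

private theorem s_Fo {l : Fin n} (hl : (l : ℕ) = 0) : Fo 1 (D.s l : Matrix (Ix n a) (Ix n a) F) := by
  have hfix : ∀ x : Ix n a, ¬ In 1 x → ws a l x = x ∧ D.cs l x = 1 := by
    intro x hx
    have hcs : D.cs l = D.c0 := if_neg (by omega)
    rcases x with ⟨i, b⟩ | j
    · have hi : ¬ (i : ℕ) < 1 := hx
      have hil : i ≠ l := fun h' => hi (by rw [h', hl]; exact Nat.zero_lt_one)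
      cases b
      · refine ⟨((ws_0 (a := a) hl).2.2.1 i hil).1, ?_⟩
        rw [hcs]
        show (if (i : ℕ) = 0 then D.ep else 1) = 1
        rw [if_neg (by omega)]
      · refine ⟨((ws_0 (a := a) hl).2.2.1 i hil).2, ?_⟩
        rw [hcs]
        rfl
    · exact absurd trivial hx
  intro x y h
  rw [s_mo, mo_apply]
  by_cases hy : In 1 y
  · have hx : ¬ In 1 x := fun hx => h ⟨hx, hy⟩
    have hxy : x ≠ y := fun h' => hx (by rw [h']; exact hy)
    rw [Matrix.one_apply_ne hxy, if_neg]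
    intro h'
    have h2 := (hfix x hx).1
    exact hxy ((ws a l).injective (h2.trans h'))
  · rw [(hfix y hy).1, (hfix y hy).2, Units.val_one, Matrix.one_apply]

theorem rank_zero {l : Fin n} (hl : (l : ℕ) = 0) {r : GL (Ix n a) F} (hr : r ∈ D.R l) (h1 : r ≠ 1) :
    ∃ t ∈ D.T, (∃ u ∈ D.R l, ∃ u' ∈ D.R l, D.s l * r * D.s l = u * (D.s l * t) * u') ∧
      (t : Matrix (Ix n a) (Ix n a) F) (ei l) (ei l) =
        D.ep * (r : Matrix (Ix n a) (Ix n a) F) (ei l) (fi l) ∧
      ∀ i : Fin n, i ≠ l → (t : Matrix (Ix n a) (Ix n a) F) (ei i) (ei i) = 1 := by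
  have hrU : r ∈ D.U := R_le l hr
  have hrG : r ∈ D.G := U_le hrU
  have hsG : D.s l ∈ D.G := s_mem l
  obtain ⟨-, hrF, hre, hrf⟩ := R0_supp hl hr
  obtain ⟨w1, w2, w3, w4⟩ := ws_0 (a := a) hl
  have hb : (r : Matrix (Ix n a) (Ix n a) F) (ei l) (fi l) ≠ 0 := R0_ne hl hr h1
  have htb : D.τ ((r : Matrix (Ix n a) (Ix n a) F) (ei l) (fi l)) =
      (r : Matrix (Ix n a) (Ix n a) F) (ei l) (fi l) := by
    have h2 := (mem_G.1 hrG).2.1 (ei l) (fi l)
    exact h2.symm
  have hcs : D.cs l = D.c0 := if_neg (by omega)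
  have hc0e : (D.c0 (ei l : Ix n a) : F) = D.ep := by
    show (((if (l : ℕ) = 0 then D.ep else 1 : Fˣ)) : F) = D.ep
    rw [if_pos hl]
  -- the action of `s l`
  have hse : mv (D.s l) (sv (ei l)) = (D.ep : F) • sv (fi l) := by
    ext x
    rw [mv_apply, s_mo, mo_apply, w1, hcs, hc0e, Pi.smul_apply, smul_eq_mul, sv, Pi.single_apply]
    split_ifs <;> simp
  have hsf : mv (D.s l) (sv (fi l)) = sv (ei l) := by
    ext x
    rw [mv_apply, s_mo, mo_apply, w2, hcs, sv, Pi.single_apply]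
    rfl
  have hent : ∀ (w : Ix n a → F) (x : Ix n a), mv (D.s l) w (ws a l x) = D.cs l x * w x := by
    intro w x
    rw [mv_sum, Finset.sum_eq_single x]
    · rw [s_mo, mo_apply, if_pos rfl]
    · intro y _ hy
      rw [s_mo, mo_apply, if_neg (fun h' => hy ((ws a l).injective h').symm), zero_mul]
    · exact fun h' => absurd (Finset.mem_univ _) h'
  set g : GL (Ix n a) F := D.s l * r * D.s l with hg
  have hgG : g ∈ D.G := D.G.mul_mem (D.G.mul_mem hsG hrG) hsG
  have hgF : Fo 1 (g : Matrix (Ix n a) (Ix n a) F) := by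
    rw [hg, Units.val_mul, Units.val_mul]
    exact fo_mul9 (fo_mul9 (s_Fo hl) hrF) (s_Fo hl)
  set b : F := (r : Matrix (Ix n a) (Ix n a) F) (ei l) (fi l) with hbdef
  -- the vector `g e`
  have hvf : mv g (sv (ei l)) (fi l) = b := by
    have h2 : mv (D.s l) (mv r (sv (fi l))) (fi l) = (D.ep : F) * b := by
      have h3 := hent (mv r (sv (fi l))) (ei l)
      rw [w1, hcs, hc0e, mv_apply] at h3
      exact h3
    rw [hg, mv_mul, mv_mul, hse, mv_smul, mv_smul, Pi.smul_apply, smul_eq_mul, h2, ← mul_assoc, ep_sq, one_mul]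
  have hBv : D.B (mv g (sv (ei l))) (mv g (sv (ei l))) = 0 := by
    rw [B_mv hgG, B_sv_left, sv, Pi.single_apply, if_neg, mul_zero]
    show (fi l : Ix n a) ≠ ei l
    intro h'
    exact Bool.true_eq_false.mp (Prod.ext_iff.1 (Sum.inl.inj h')).2
  have hvt : ∀ x, mv g (sv (ei l)) (pm x) = D.τ (mv g (sv (ei l)) x) := mv_tw hgG (sv_tw l).1
  have hBd : Bd 1 (mv g (sv (ei l))) := by
    intro x hx
    rw [mv_apply, hgF x (ei l) (fun h' => hx h'.1), Matrix.one_apply_ne]
    intro h'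
    apply hx
    rw [h']
    show (l : ℕ) < 1
    omega
  obtain ⟨u, huU, huf, hue, -, huF⟩ := exists_eich (D := D) l (v := b⁻¹ • mv g (sv (ei l)))
    (by rw [B_smul_left, B_smul_right, hBv, mul_zero, mul_zero])
    (by rw [Pi.smul_apply, smul_eq_mul, hvf, inv_mul_cancel₀ hb])
    (by
      rw [hl, zero_add]
      intro x hx
      rw [Pi.smul_apply, hBd x hx, smul_zero])
    (by
      intro x
      rw [Pi.smul_apply, Pi.smul_apply, smul_eq_mul, smul_eq_mul, map_mul, map_inv₀, htb, hvt])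
  rw [hl, zero_add] at huF
  have huR : u ∈ D.R l := mem_R0 hl huU huF
  have huG : u ∈ D.G := U_le huU
  -- the element `p`
  set p : GL (Ix n a) F := (u * D.s l)⁻¹ * g with hp
  have hpG : p ∈ D.G := D.G.mul_mem (D.G.inv_mem (D.G.mul_mem huG hsG)) hgG
  have hpF : Fo 1 (p : Matrix (Ix n a) (Ix n a) F) := by
    rw [hp, Units.val_mul]
    refine fo_mul9 (fo_inv9 ?_) hgF
    rw [Units.val_mul]
    exact fo_mul9 huF (s_Fo hl)
  have hgp : g = u * D.s l * p := by rw [hp, mul_inv_cancel_left]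
  have hpe : mv p (sv (ei l)) = ((D.ep : F) * b) • sv (ei l) := by
    have h2 : mv (u * D.s l) (((D.ep : F) * b) • sv (ei l)) = mv g (sv (ei l)) := by
      rw [mv_smul, mv_mul, hse, mv_smul, huf, smul_smul, smul_smul]
      have h3 : (D.ep : F) * b * (D.ep : F) * b⁻¹ = 1 := by
        have h4 : (D.ep : F) * b * (D.ep : F) * b⁻¹ = (D.ep : F) * D.ep * (b * b⁻¹) := by ring
        rw [h4, ep_sq, mul_inv_cancel₀ hb, one_mul]
      rw [h3, one_smul]
    rw [hp, mv_mul, ← h2, mv_inv]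
  have hlam : (D.ep : F) * b ≠ 0 := mul_ne_zero D.ep.ne_zero hb
  have hpm : ∀ j : Fin a, (p : Matrix (Ix n a) (Ix n a) F) (fi l) (mi j) = 0 := by
    intro j
    have h2 := B_mv hpG (sv (ei l)) (sv (mi j))
    rw [hpe, B_smul_left, B_sv_left, B_sv_left, mv_apply] at h2
    have h3 : du (ei l : Ix n a) = fi l := rfl
    have h4 : (D.c (ei l : Ix n a) : F) = 1 := rfl
    rw [h3, h4, one_mul, one_mul, sv, Pi.single_apply, if_neg (fun h' => absurd h' (by simp [fi, mi]))] at h2
    exact (mul_eq_zero.1 h2).resolve_left (fun h' => hlam ((map_eq_zero D.σ).1 h'))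
  have hpP : PbM rk (p : Matrix (Ix n a) (Ix n a) F) := by
    intro x y hxy
    by_cases hIn : In 1 x ∧ In 1 y
    swap
    · rw [hpF x y hIn, Matrix.one_apply_ne]
      intro h'
      rw [h'] at hxy
      exact lt_irrefl _ hxy
    obtain ⟨hx, hy⟩ := hIn
    have hcol : ∀ x : Ix n a, x ≠ ei l → (p : Matrix (Ix n a) (Ix n a) F) x (ei l) = 0 := by
      intro x hx
      rw [← mv_apply, hpe, Pi.smul_apply, smul_eq_mul, sv, Pi.single_apply, if_neg hx, mul_zero]
    rcases In_cases hl hy with rfl | rfl | ⟨j, rfl⟩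
    · refine hcol x fun h' => ?_
      rw [h'] at hxy
      exact lt_irrefl _ hxy
    · exfalso
      rw [rk_fi, hl] at hxy
      rcases In_cases hl hx with rfl | rfl | ⟨j, rfl⟩
      · rw [rk_ei, hl] at hxy
        omega
      · rw [rk_fi, hl] at hxy
        omega
      · rw [rk_mi] at hxy
        omega
    · rw [rk_mi] at hxy
      rcases In_cases hl hx with rfl | rfl | ⟨j', rfl⟩
      · exfalso
        rw [rk_ei, hl] at hxy
        omega
      · exact hpm j
      · exfalso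
        rw [rk_mi] at hxy
        exact lt_irrefl _ hxy
  obtain ⟨t, ht, u', hu', hpt, htd⟩ := borel hpG hpP
  have htF : Fo 1 (t : Matrix (Ix n a) (Ix n a) F) := by
    intro x y h
    by_cases hxy : x = y
    · subst hxy
      rw [htd, hpF x x h]
    · rw [mem_DG.1 (T_DG ht) x y hxy, Matrix.one_apply_ne hxy]
  have hu'F : Fo 1 (u' : Matrix (Ix n a) (Ix n a) F) := by
    have h2 : u' = t⁻¹ * p := (inv_mul_eq_of_eq_mul hpt).symm
    rw [h2, Units.val_mul]
    exact fo_mul9 (fo_inv9 htF) hpF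
  refine ⟨t, ht, ⟨u, huR, u', mem_R0 hl hu' hu'F, ?_⟩, ?_, fun i hi => ?_⟩
  · rw [hgp, hpt]
    simp only [mul_assoc]
  · rw [htd, ← mv_apply, hpe, Pi.smul_apply, smul_eq_mul, sv, Pi.single_eq_same, mul_one]
  · rw [htd, hpF, Matrix.one_apply_eq]
    rintro ⟨h', -⟩
    have h2 : (i : ℕ) < 1 := h'
    exact hi (Fin.ext (by omega))

theorem hh_zero {l : Fin n} (hl : (l : ℕ) = 0) {r : GL (Ix n a) F} (hr : r ∈ D.R l) (h1 : r ≠ 1) :
    D.hh l r ∈ D.T ∧
    (∃ u ∈ D.R l, ∃ u' ∈ D.R l, D.s l * r * D.s l = u * (D.s l * D.hh l r) * u') ∧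
      (D.hh l r : Matrix (Ix n a) (Ix n a) F) (ei l) (ei l) =
        D.ep * (r : Matrix (Ix n a) (Ix n a) F) (ei l) (fi l) ∧
      ∀ i : Fin n, i ≠ l → (D.hh l r : Matrix (Ix n a) (Ix n a) F) (ei i) (ei i) = 1 := by
  have h := rank_zero hl hr h1
  have h2 : D.hh l r = h.choose := by
    rw [FD.hh, if_neg (by omega), dif_pos h]
  rw [h2]
  exact h.choose_spec

end

end AO.MG
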