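import Pool.Agent.AO.F05
import Pool.Agent.AO.F03

/-!
# MP_6c3636_al, AO, module F10: transitivity on isotropic vectors (helper7)

`exists_mo`: for `x = fi i`: the product `s j * ... * s (i + 1)` of simple reflections maps `fi i` to `fi j`; for `x = ei i`: first `s 1 * ... * s i` (moves `ei i` to `ei 0`), then `s 0` (moves `ei 0` to `fi 0`), then as before. All `s l` with `l ≤ j` have `Fo (j + 1)` (`cs l` is `1` at the other indices). `tr`: by `ani` there is an index `x` in the first `j + 1` planes, not in the anisotropic part, with `v x ≠ 0` (otherwise `v` is in the anisotropic part, `B v v = cm * ∑ σ (v (mi j)) v (mi (rev j)) = 0`, so `v = 0`). Move it to `fi j` by `exists_mo`; scale by an element `tor` with coordinate at `j` such that the coordinate of `v` at `fi j` becomes `1` (it is `τ`-fixed as `pm (fi j) = fi j`); then `exists_eich`: `u (sv (fi j)) = v'`, take `u⁻¹`. All used elements are in `K` and have `Fo (j + 1)`, which is stable under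 products and inverses.
-/

namespace AO.MG

noncomputable section

open Classical Equiv Matrix

open AN (sq)

variable {n a : ℕ} {F : Type} [Field F] [Finite F] {D : FD n a F}

theorem Fo_mul {j : ℕ} {A B : Matrix (Ix n a) (Ix n a) F} (hA : Fo j A) (hB : Fo j B) : Fo j (A * B) := by
  intro x y hxy
  rw [Matrix.mul_apply]
  by_cases hx : In j x
  · have hy : ¬ In j y := fun h => hxy ⟨hx, h⟩
    have h1 : ∀ z, A x z * B z y = A x z * (1 : Matrix (Ix n a) (Ix n a) F) z y := by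
      intro z
      rw [hB z y (fun h => hy h.2)]
    rw [Finset.sum_congr rfl (fun z _ => h1 z), ← Matrix.mul_apply, Matrix.mul_one]
    exact hA x y hxy
  · have h1 : ∀ z, A x z * B z y = (1 : Matrix (Ix n a) (Ix n a) F) x z * B z y := by
      intro z
      rw [hA x z (fun h => hx h.1)]
    rw [Finset.sum_congr rfl (fun z _ => h1 z), ← Matrix.mul_apply, Matrix.one_mul]
    exact hB x y hxy

theorem Fo_inv {j : ℕ} {g : GL (Ix n a) F} (hg : Fo j (g : Matrix (Ix n a) (Ix n a) F)) :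
    Fo j ((g⁻¹ : GL (Ix n a) F) : Matrix (Ix n a) (Ix n a) F) := by
  haveI : Finite (Matrix (Ix n a) (Ix n a) F) := inferInstance
  haveI : Finite (GL (Ix n a) F) := inferInstance
  have hpow : ∀ k : ℕ, Fo j ((g ^ k : GL (Ix n a) F) : Matrix (Ix n a) (Ix n a) F) := by
    intro k
    induction k with
    | zero =>
      rw [pow_zero, Units.val_one]
      exact fun _ _ _ => rfl
    | succ k ih =>
      rw [pow_succ, Units.val_mul]
      exact Fo_mul ih hg
  have hfin : 0 < orderOf g := orderOf_pos g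
  have h2 : g * g ^ (orderOf g - 1) = 1 := by
    rw [← pow_succ', Nat.sub_add_cancel hfin, pow_orderOf_eq_one]
  rw [inv_eq_of_mul_eq_one_right h2]
  exact hpow _

theorem Bd_mv {j : ℕ} {g : GL (Ix n a) F} (hg : Fo j (g : Matrix (Ix n a) (Ix n a) F)) {v : Ix n a → F}
    (hv : Bd j v) : Bd j (mv g v) := by
  intro x hx
  rw [mv_sum]
  refine Finset.sum_eq_zero fun y _ => ?_
  rw [hg x y (fun h => hx h.1)]
  by_cases h : x = y
  · rw [← h, hv x hx, mul_zero]
  · rw [Matrix.one_apply_ne h, zero_mul]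

namespace F10_aux

/-- `y` is the image of `x` under a monomial element of `N` -/
def Q (D : FD n a F) (j : ℕ) (x y : Ix n a) : Prop :=
  ∃ m ∈ NN D.s D.T, ∃ (w : Perm (Ix n a)) (c : Ix n a → Fˣ), m = mo w c ∧ w ∈ WP n a ∧ w x = y ∧
    Fo (j + 1) (m : Matrix (Ix n a) (Ix n a) F)

theorem Q_refl (j : ℕ) (x : Ix n a) : Q D j x x :=
  ⟨1, Subgroup.one_mem _, 1, 1, mo_one.symm, WP_one, rfl, fun _ _ _ => by rw [Units.val_one]⟩

theorem Q_trans {j : ℕ} {x y z : Ix n a} (h : Q D j x y) (h' : Q D j y z) : Q D j x z := by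
  obtain ⟨m, hm, w, c, e, hw, hx, hf⟩ := h
  obtain ⟨m', hm', w', c', e', hw', hx', hf'⟩ := h'
  refine ⟨m' * m, Subgroup.mul_mem _ hm' hm, w' * w, fun i => c' (w i) * c i, ?_, WP_mul hw' hw, ?_, ?_⟩
  · rw [e, e', mo_mul]
  · rw [Equiv.Perm.mul_apply, hx, hx']
  · rw [Units.val_mul]
    exact Fo_mul hf' hf

theorem ws_In {j l : Fin n} (hl : (l : ℕ) ≤ j) {y : Ix n a} (hy : In ((j : ℕ) + 1) y) :
    In ((j : ℕ) + 1) (ws a l y) := by
  rcases y with ⟨i, b⟩ | k
  · have hi : (i : ℕ) < j + 1 := hy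
    rcases Nat.eq_zero_or_pos (l : ℕ) with h0 | h0
    · rw [F05_aux.ws_zero h0]
      by_cases h : (i : ℕ) = 0
      · rw [F05_aux.w0_e h]
        exact hi
      · rw [F05_aux.w0_e' h]
        exact hi
    · rw [F05_aux.ws_pos h0]
      show ((Equiv.swap (pr l) l i : Fin n) : ℕ) < j + 1
      rw [Equiv.swap_apply_def]
      split_ifs
      · omega
      · show (l : ℕ) - 1 < j + 1
        omega
      · exact hi
  · rcases Nat.eq_zero_or_pos (l : ℕ) with h0 | h0
    · rw [F05_aux.ws_zero h0]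
      exact trivial
    · rw [F05_aux.ws_pos h0]
      exact trivial

theorem ws_out {j l : Fin n} (hl : (l : ℕ) ≤ j) {y : Ix n a} (hy : ¬ In ((j : ℕ) + 1) y) :
    ws a l y = y ∧ D.cs l y = 1 := by
  rcases y with ⟨i, b⟩ | k
  · have hi : ¬ (i : ℕ) < j + 1 := hy
    rcases Nat.eq_zero_or_pos (l : ℕ) with h0 | h0
    · have h : (i : ℕ) ≠ 0 := by omega
      have h1 : D.cs l = D.c0 := if_neg (by omega)
      rw [F05_aux.ws_zero h0, F05_aux.w0_e' h, h1]
      refine ⟨rfl, ?_⟩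
      cases b
      · exact F05_aux.c0_e' h
      · rfl
    · have h1 : D.cs l = 1 := if_pos h0
      rw [F05_aux.ws_pos h0, h1]
      refine ⟨?_, rfl⟩
      have h2 : i ≠ pr l := by
        intro h
        have h3 : (i : ℕ) = (l : ℕ) - 1 := congrArg Fin.val h
        omega
      have h3 : i ≠ l := by
        intro h
        rw [h] at hi
        omega
      show Sum.inl (Equiv.swap (pr l) l i, b) = _
      rw [Equiv.swap_apply_of_ne_of_ne h2 h3]
  · exact absurd trivial hy

theorem Fo_s {j l : Fin n} (hl : (l : ℕ) ≤ j) :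
    Fo ((j : ℕ) + 1) (D.s l : Matrix (Ix n a) (Ix n a) F) := by
  intro x y hxy
  rw [s_mo, mo_apply]
  by_cases hy : In ((j : ℕ) + 1) y
  · have hx : ¬ In ((j : ℕ) + 1) x := fun h => hxy ⟨h, hy⟩
    have h1 : x ≠ ws a l y := by
      intro h
      rw [h] at hx
      exact hx (ws_In hl hy)
    have h2 : x ≠ y := by
      intro h
      rw [h] at hx
      exact hx hy
    rw [if_neg h1, Matrix.one_apply_ne h2]
  · obtain ⟨h1, h2⟩ := ws_out (D := D) hl hy
    rw [h1, h2, Units.val_one, Matrix.one_apply]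

theorem Q_s {j l : Fin n} (hl : (l : ℕ) ≤ j) (x : Ix n a) : Q D j x (ws a l x) :=
  ⟨D.s l, Subgroup.subset_closure (Or.inl ⟨l, rfl⟩), ws a l, D.cs l, s_mo l, ws_mem l, rfl, Fo_s hl⟩

theorem Q_f (j : Fin n) (k : ℕ) : ∀ i : Fin n, (i : ℕ) + k = j → Q D j (fi i) (fi j) := by
  induction k with
  | zero =>
    intro i hi
    have h1 : i = j := Fin.ext (by omega)
    rw [h1]
    exact Q_refl _ _
  | succ k ih =>
    intro i hi
    have hl : (i : ℕ) + 1 < n := lt_of_le_of_lt (by omega) j.2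
    have h1 := Q_s (D := D) (j := j) (l := ⟨(i : ℕ) + 1, hl⟩)
      (by show (i : ℕ) + 1 ≤ j; omega) (fi i)
    have h2 : pr (⟨(i : ℕ) + 1, hl⟩ : Fin n) = i := Fin.ext (by show (i : ℕ) + 1 - 1 = i; omega)
    rw [(ws_e (a := a) (l := ⟨(i : ℕ) + 1, hl⟩) (by show 0 < (i : ℕ) + 1; omega) i).2, h2,
      Equiv.swap_apply_left] at h1
    exact Q_trans h1 (ih _ (by show (i : ℕ) + 1 + k = j; omega))

theorem Q_e (j : Fin n) (k : ℕ) : ∀ i : Fin n, (i : ℕ) = k → k ≤ j → Q D j (ei i) (fi j) := by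
  induction k with
  | zero =>
    intro i hi hk
    have h1 := Q_s (D := D) (j := j) (l := i) (by omega) (ei i)
    rw [(ws_0 (a := a) hi).1] at h1
    exact Q_trans h1 (Q_f j j i (by omega))
  | succ k ih =>
    intro i hi hk
    have h1 := Q_s (D := D) (j := j) (l := i) (by omega) (ei i)
    rw [(ws_e (a := a) (by omega : 0 < (i : ℕ)) i).1, Equiv.swap_apply_right] at h1
    exact Q_trans h1 (ih (pr i) (by show (i : ℕ) - 1 = k; omega) (by omega))

end F10_aux

open F10_aux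

theorem exists_mo (j : Fin n) {i : Fin n} (hi : (i : ℕ) ≤ j) {x : Ix n a} (hx : x = ei i ∨ x = fi i) :
    ∃ m ∈ NN D.s D.T, ∃ (w : Perm (Ix n a)) (c : Ix n a → Fˣ), m = mo w c ∧ w ∈ WP n a ∧ w x = fi j ∧
      Fo ((j : ℕ) + 1) (m : Matrix (Ix n a) (Ix n a) F) := by
  rcases hx with h | h
  · rw [h]
    exact Q_e j i i rfl hi
  · rw [h]
    exact Q_f j ((j : ℕ) - i) i (by omega)

namespace F10_aux

theorem NN_K : NN D.s D.T ≤ D.K := by
  rw [NN, Subgroup.closure_le]
  rintro x (⟨l, rfl⟩ | hx)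
  · exact Subgroup.subset_closure (Or.inr ⟨l, rfl⟩)
  · exact Subgroup.subset_closure (Or.inl (Or.inr hx))

theorem exists_ne {v : Ix n a → F} (hB : D.B v v = 0) (h0 : v ≠ 0) (ht : ∀ x, v (pm x) = D.τ (v x)) :
    ∃ (i : Fin n) (x : Ix n a), (x = ei i ∨ x = fi i) ∧ v x ≠ 0 := by
  by_contra hcon
  push Not at hcon
  have h1 : ∀ p : Fin n × Bool, v (Sum.inl p) = 0 := by
    rintro ⟨i, b⟩
    cases b
    · exact hcon i _ (Or.inl rfl)
    · exact hcon i _ (Or.inr rfl)
  have h2 : D.B v v = (D.cm : F) * ∑ j : Fin a, D.σ (v (mi j)) * v (mi (Fin.rev j)) := by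
    show ∑ x, (D.c x : F) * D.σ (v x) * v (du x) = _
    rw [Fintype.sum_sum_type]
    have h3 : ∀ p : Fin n × Bool, (D.c (Sum.inl p) : F) * D.σ (v (Sum.inl p)) * v (du (Sum.inl p)) = 0 := by
      intro p
      rw [h1 p, map_zero, mul_zero, zero_mul]
    rw [Finset.sum_congr rfl (fun p _ => h3 p), Finset.sum_const_zero, zero_add, Finset.mul_sum]
    refine Finset.sum_congr rfl fun j _ => ?_
    show (D.cm : F) * D.σ (v (mi j)) * v (mi (Fin.rev j)) = _
    rw [mul_assoc]
  rw [h2] at hB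
  have h3 := (mul_eq_zero.1 hB).resolve_left (Units.ne_zero _)
  have h4 := D.ani (fun j => v (mi j)) (fun j => ht (mi j)) h3
  apply h0
  ext x
  rcases x with p | j
  · exact h1 p
  · exact congrFun h4 j

theorem mv_mo (w : Perm (Ix n a)) (c : Ix n a → Fˣ) (v : Ix n a → F) (x : Ix n a) :
    mv (mo w c) v (w x) = (c x : F) * v x := by
  rw [mv_sum, Finset.sum_eq_single x]
  · rw [mo_apply, if_pos rfl]
  · intro y _ hy
    rw [mo_apply, if_neg (fun h => hy (w.injective h).symm), zero_mul]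
  · exact fun h => absurd (Finset.mem_univ _) h

theorem mv_DG {t : GL (Ix n a) F} (ht : t ∈ DG (Ix n a) F) (v : Ix n a → F) (x : Ix n a) :
    mv t v x = (t : Matrix (Ix n a) (Ix n a) F) x x * v x := by
  rw [mv_sum, Finset.sum_eq_single x]
  · intro y _ hy
    rw [(mem_DG.1 ht) x y (Ne.symm hy), zero_mul]
  · exact fun h => absurd (Finset.mem_univ _) h

/-- scaling of the coordinate at `fi j` -/
theorem exists_scale (j : Fin n) {β : F} (h0 : β ≠ 0) (hβ : D.τ β = β) :
    ∃ t ∈ D.T, (t : Matrix (Ix n a) (Ix n a) F) (fi j) (fi j) = β⁻¹ ∧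
      Fo ((j : ℕ) + 1) (t : Matrix (Ix n a) (Ix n a) F) := by
  have h1 : D.σ β ≠ 0 := fun h => h0 ((map_eq_zero D.σ).1 h)
  obtain ⟨z, hz⟩ : ∃ z : Fin n → Fˣ, z = Function.update (1 : Fin n → Fˣ) j (Units.mk0 (D.σ β) h1) := ⟨_, rfl⟩
  have hzj : (z j : F) = D.σ β := by
    rw [hz, Function.update_self, Units.val_mk0]
  have hzi : ∀ i, i ≠ j → (z i : F) = 1 := by
    intro i hi
    rw [hz, Function.update_of_ne hi, Pi.one_apply, Units.val_one]
  have hT : D.tor z ∈ D.T := by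
    refine tor_mem fun i => ?_
    by_cases hi : i = j
    · rw [hi, hzj, ← D.st, hβ]
    · rw [hzi i hi, map_one]
  refine ⟨D.tor z, hT, ?_, ?_⟩
  · rw [tor_f, hzj, D.ss]
  · intro x y hxy
    by_cases h : x = y
    · subst h
      have hx : ¬ In ((j : ℕ) + 1) x := fun h => hxy ⟨h, h⟩
      rw [Matrix.one_apply_eq]
      rcases x with ⟨i, b⟩ | k
      · have hi : i ≠ j := by
          intro h
          rw [h] at hx
          exact hx (Nat.lt_succ_self _)
        cases b
        · have h2 := tor_e (D := D) z i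
          rw [hzi i hi] at h2
          exact h2
        · have h2 := tor_f (D := D) z i
          rw [hzi i hi, map_one, inv_one] at h2
          exact h2
      · exact absurd trivial hx
    · rw [(mem_DG.1 (T_DG hT)) x y h, Matrix.one_apply_ne h]

end F10_aux

theorem tr (j : Fin n) {v : Ix n a → F} (hB : D.B v v = 0) (h0 : v ≠ 0) (hv : Bd ((j : ℕ) + 1) v)
    (ht : ∀ x, v (pm x) = D.τ (v x)) :
    ∃ k ∈ D.K, k ∈ D.G ∧ mv k v = sv (fi j) ∧ Fo ((j : ℕ) + 1) (k : Matrix (Ix n a) (Ix n a) F) := by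
  obtain ⟨i, x, hx, hvx⟩ := exists_ne hB h0 ht
  have hi : (i : ℕ) ≤ j := by
    by_contra hcon
    apply hvx
    apply hv
    rcases hx with h | h
    · rw [h]
      show ¬ (i : ℕ) < j + 1
      omega
    · rw [h]
      show ¬ (i : ℕ) < j + 1
      omega
  obtain ⟨m, hm, w, c, e, hw, hwx, hmf⟩ := exists_mo (D := D) j hi hx
  have hmG : m ∈ D.G := NN_le hm
  have h1 : mv m v (fi j) = (c x : F) * v x := by
    rw [e, ← hwx, mv_mo]
  have h2 : mv m v (fi j) ≠ 0 := by
    rw [h1]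
    exact mul_ne_zero (Units.ne_zero _) hvx
  have h3 : D.τ (mv m v (fi j)) = mv m v (fi j) := (mv_tw hmG ht (fi j)).symm
  obtain ⟨t, htT, htj, htf⟩ := exists_scale (D := D) j h2 h3
  have htG : t ∈ D.G := htT.1
  have h4 : mv t (mv m v) (fi j) = 1 := by
    rw [mv_DG (T_DG htT), htj, inv_mul_cancel₀ h2]
  have h5 : D.B (mv t (mv m v)) (mv t (mv m v)) = 0 := by
    rw [B_mv htG, B_mv hmG, hB]
  have h6 : Bd ((j : ℕ) + 1) (mv t (mv m v)) := Bd_mv htf (Bd_mv hmf hv)
  have h7 : ∀ y, mv t (mv m v) (pm y) = D.τ (mv t (mv m v) y) := mv_tw htG (mv_tw hmG ht)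
  obtain ⟨u, huU, hu1, _, _, hu4⟩ := exists_eich (D := D) j h5 h4 h6 h7
  have huG : u ∈ D.G := huU.1
  refine ⟨u⁻¹ * (t * m), ?_, ?_, ?_, ?_⟩
  · refine Subgroup.mul_mem _ (Subgroup.inv_mem _ ?_) (Subgroup.mul_mem _ ?_ (NN_K hm))
    · exact Subgroup.subset_closure (Or.inl (Or.inl huU))
    · exact Subgroup.subset_closure (Or.inl (Or.inr htT))
  · exact D.G.mul_mem (D.G.inv_mem huG) (D.G.mul_mem htG hmG)
  · rw [mv_mul, mv_mul, ← hu1, mv_inv]
  · rw [Units.val_mul, Units.val_mul]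
    exact Fo_mul (Fo_inv hu4) (Fo_mul htf hmf)

end

end AO.MG
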