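import Pool.Agent.AO.F10
import Pool.Agent.AO.F09

/-!
# MP_6c3636_al, AO, module F11: generation (helper63)

For all `j ≤ n`, all `g ∈ G` with `Fo j g` are in `K`; induction on `j`. `j = 0`: `g ∈ LS F rk`, `mid_T`. Step: `g` is
multiplied by elements of `K` until it fixes `sv (fi j)` and `sv (ei j)`; then by isometry the rows of `ei j`, `fi j` are
trivial too, and `Fo j` holds.
-/

namespace AO.MG

noncomputable section

open Classical Equiv Matrix

open AN (sq)

variable {n a : ℕ} {F : Type} [Field F] [Finite F] {D : FD n a F}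

namespace F11_aux

theorem In_step {j : ℕ} (hj : j < n) {x : Ix n a} (h1 : In (j + 1) x) (h0 : ¬ In j x) :
    x = ei ⟨j, hj⟩ ∨ x = fi ⟨j, hj⟩ := by
  rcases x with ⟨i, b⟩ | i
  · have h2 : (i : ℕ) < j + 1 := h1
    have h3 : ¬ (i : ℕ) < j := h0
    have h4 : i = ⟨j, hj⟩ := Fin.ext (show (i : ℕ) = j by omega)
    subst h4
    cases b
    · exact Or.inl rfl
    · exact Or.inr rfl
  · exact absurd trivial h0

theorem In_e {j : ℕ} (hj : j < n) : In (j + 1) (ei ⟨j, hj⟩ : Ix n a) := Nat.lt_succ_self j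

theorem In_f {j : ℕ} (hj : j < n) : In (j + 1) (fi ⟨j, hj⟩ : Ix n a) := Nat.lt_succ_self j

theorem sv_self (x : Ix n a) : (sv x : Ix n a → F) x = 1 := Pi.single_eq_same x 1

theorem sv_ne {x y : Ix n a} (h : y ≠ x) : (sv x : Ix n a → F) y = 0 := Pi.single_eq_of_ne h 1

theorem sv_one (x y : Ix n a) : (sv y : Ix n a → F) x = (1 : Matrix (Ix n a) (Ix n a) F) x y := by
  by_cases h : x = y
  · rw [h, sv_self, Matrix.one_apply_eq]
  · rw [sv_ne h, Matrix.one_apply_ne h]

theorem Bd_sv {j : ℕ} {x : Ix n a} (h : In j x) : Bd j (sv x : Ix n a → F) := by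
  intro y hy
  exact sv_ne (fun h' => hy (h' ▸ h))

theorem mo_mv (w : Perm (Ix n a)) (c : Ix n a → Fˣ) (v : Ix n a → F) (x : Ix n a) :
    mv (mo w c) v (w x) = (c x : F) * v x := by
  rw [mv_sum, Finset.sum_eq_single x]
  · rw [mo_apply, if_pos rfl]
  · intro y _ hy
    rw [mo_apply, if_neg (fun h => hy (w.injective h).symm), zero_mul]
  · exact fun h => absurd (Finset.mem_univ _) h

theorem mo_sv (w : Perm (Ix n a)) (c : Ix n a → Fˣ) (x : Ix n a) :
    mv (mo w c) (sv x) = (c x : F) • sv (w x) := by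
  ext y
  obtain ⟨z, rfl⟩ := w.surjective y
  rw [mo_mv, Pi.smul_apply, smul_eq_mul]
  by_cases h : z = x
  · rw [h, sv_self, sv_self]
  · rw [sv_ne h, sv_ne (fun h' => h (w.injective h')), mul_zero, mul_zero]

theorem In_zero {x : Ix n a} (h : In 0 x) : rk x = 0 := by
  rcases x with ⟨i, b⟩ | i
  · exact absurd (show (i : ℕ) < 0 from h) (Nat.not_lt_zero _)
  · rfl

theorem In_all (x : Ix n a) : In n x := by
  rcases x with ⟨i, b⟩ | i
  · exact i.2
  · trivial

theorem U_le_K : D.U ≤ D.K := fun _ hx => Subgroup.subset_closure (Or.inl (Or.inl hx))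

theorem T_le_K : D.T ≤ D.K := fun _ hx => Subgroup.subset_closure (Or.inl (Or.inr hx))

theorem NN_le_K : NN D.s D.T ≤ D.K := by
  refine (Subgroup.closure_le _).2 ?_
  rintro x (hx | hx)
  · exact Subgroup.subset_closure (Or.inr hx)
  · exact Subgroup.subset_closure (Or.inl (Or.inr hx))

/-- a row is trivial if the dual column is trivial -/
theorem row_of_col {g : GL (Ix n a) F} (hg : g ∈ D.G) {x : Ix n a} (h : mv g (sv x) = sv x)
    (y : Ix n a) : (g : Matrix (Ix n a) (Ix n a) F) (du x) y =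
      (1 : Matrix (Ix n a) (Ix n a) F) (du x) y := by
  have h1 : D.B (mv g (sv y)) (sv x) = D.B (sv y) (sv x) := by
    conv_lhs => rw [← h]
    exact B_mv hg _ _
  rw [B_sv_right, B_sv_right] at h1
  have h2 := D.σ.injective (mul_left_cancel₀ (Units.ne_zero _) h1)
  rw [mv_apply, sv_one] at h2
  exact h2

end F11_aux

open F11_aux

theorem Fo_zero {g : GL (Ix n a) F} (hg : g ∈ D.G) (h : Fo 0 (g : Matrix (Ix n a) (Ix n a) F)) :
    g ∈ D.T := by
  refine mid_T hg (mem_LS.2 ?_)
  intro x y hxy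
  have h1 : ¬ (In 0 x ∧ In 0 y) := fun h2 => hxy (by rw [In_zero h2.1, In_zero h2.2])
  rw [h x y h1, Matrix.one_apply_ne (fun h' => hxy (by rw [h']))]

theorem gen_K : D.G ≤ D.K := by
  have key : ∀ j : ℕ, j ≤ n → ∀ g ∈ D.G, Fo j (g : Matrix (Ix n a) (Ix n a) F) → g ∈ D.K := by
    intro j
    induction j with
    | zero => exact fun _ g hg h => T_le_K (Fo_zero hg h)
    | succ j ih =>
      intro hj g hg hF
      have hj' : j < n := hj
      obtain ⟨e, he⟩ : ∃ e : Ix n a, e = ei ⟨j, hj'⟩ := ⟨_, rfl⟩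
      obtain ⟨f, hf⟩ : ∃ f : Ix n a, f = fi ⟨j, hj'⟩ := ⟨_, rfl⟩
      have due : du e = f := by rw [he, hf]; rfl
      have duf : du f = e := by rw [he, hf]; rfl
      have hef : e ≠ f := by
        rw [he, hf]
        intro h
        injection h with h
        injection h with _ h
        exact Bool.false_ne_true h
      have hIe : In (j + 1) e := by rw [he]; exact In_e hj'
      have hIf : In (j + 1) f := by rw [hf]; exact In_f hj'
      have hBe : D.B (sv e) (sv e) = 0 := by
        rw [B_sv_left, due, sv_ne hef.symm, mul_zero]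
      have hBf : D.B (sv f) (sv f) = 0 := by
        rw [B_sv_left, duf, sv_ne hef, mul_zero]
      have hte : ∀ x, (sv e : Ix n a → F) (pm x) = D.τ (sv e x) := by
        rw [he]; exact (sv_tw ⟨j, hj'⟩).1
      have htf : ∀ x, (sv f : Ix n a → F) (pm x) = D.τ (sv f x) := by
        rw [hf]; exact (sv_tw ⟨j, hj'⟩).2
      have hpf : pm f = f := by rw [hf]; rfl
      -- first step
      have h1 : D.B (mv g (sv f)) (mv g (sv f)) = 0 := by rw [B_mv hg, hBf]
      have h2 : mv g (sv f) ≠ 0 := by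
        intro h
        have h3 := mv_inv g (sv f)
        rw [h] at h3
        have h4 : mv g⁻¹ (0 : Ix n a → F) = 0 := Matrix.mulVec_zero _
        rw [h4] at h3
        have h5 := congrFun h3 f
        rw [sv_self] at h5
        exact zero_ne_one h5
      obtain ⟨k, hkK, hkG, hk, hkF⟩ := tr (D := D) ⟨j, hj'⟩ h1 h2 (Bd_mv hF (Bd_sv hIf))
        (mv_tw hg htf)
      obtain ⟨g', hg'⟩ : ∃ g', g' = k * g := ⟨_, rfl⟩
      have hg'G : g' ∈ D.G := by rw [hg']; exact D.G.mul_mem hkG hg
      have hg'F : Fo (j + 1) (g' : Matrix (Ix n a) (Ix n a) F) := by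
        rw [hg', Units.val_mul]
        exact Fo_mul hkF hF
      have hg'f : mv g' (sv f) = sv f := by
        rw [hg', mv_mul, hk, hf]
      -- second step
      obtain ⟨m, hmN, w, c, hmo, hwP, hwe, hmF⟩ := exists_mo (D := D) ⟨j, hj'⟩ (i := ⟨j, hj'⟩) le_rfl
        (x := ei ⟨j, hj'⟩) (Or.inl rfl)
      have hmG : m ∈ D.G := NN_le hmN
      rw [← he, ← hf] at hwe
      have hwf : w f = e := by
        rw [← due, hwP.1, hwe, duf]
      have hme : mv m (sv e) = (c e : F) • sv f := by rw [hmo, mo_sv, hwe]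
      have hmf : mv m (sv f) = (c f : F) • sv e := by rw [hmo, mo_sv, hwf]
      have hct : D.τ (c e : F) = c e := by
        have h3 := mv_tw hmG hte f
        rw [hpf, hme, Pi.smul_apply, sv_self, smul_eq_mul, mul_one] at h3
        exact h3.symm
      obtain ⟨v', hv'⟩ : ∃ v', v' = (c e : F)⁻¹ • mv m (mv g' (sv e)) := ⟨_, rfl⟩
      have hce : (c e : F) ≠ 0 := Units.ne_zero _
      have hv'B : D.B v' v' = 0 := by
        rw [hv', B_smul_left, B_smul_right, B_mv hmG, B_mv hg'G, hBe, mul_zero, mul_zero]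
      have hgee : mv g' (sv e) e = 1 := by
        have h3 := row_of_col hg'G hg'f e
        rw [duf, Matrix.one_apply_eq, ← mv_apply] at h3
        exact h3
      have hv'f : v' f = 1 := by
        rw [hv', Pi.smul_apply, smul_eq_mul, ← hwe, hmo, mo_mv, hgee, mul_one]
        exact inv_mul_cancel₀ hce
      have hv'b : Bd (j + 1) v' := by
        intro x hx
        have h3 := Bd_mv hmF (Bd_mv hg'F (Bd_sv (F := F) hIe)) x hx
        rw [hv', Pi.smul_apply, h3, smul_zero]
      have hv't : ∀ x, v' (pm x) = D.τ (v' x) := by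
        intro x
        rw [hv', Pi.smul_apply, Pi.smul_apply, mv_tw hmG (mv_tw hg'G hte), smul_eq_mul, smul_eq_mul,
          map_mul, map_inv₀, hct]
      obtain ⟨u, huU, huf, hue, -, huF⟩ := exists_eich (D := D) ⟨j, hj'⟩ hv'B (by rw [← hf]; exact hv'f)
        hv'b hv't
      rw [← hf] at huf
      rw [← he] at hue
      have huG : u ∈ D.G := U_le huU
      obtain ⟨q, hq⟩ : ∃ q, q = m⁻¹ * u⁻¹ * m * g' := ⟨_, rfl⟩
      have hqG : q ∈ D.G := by
        rw [hq]
        exact D.G.mul_mem (D.G.mul_mem (D.G.mul_mem (D.G.inv_mem hmG) (D.G.inv_mem huG)) hmG) hg'G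
      have hqF : Fo (j + 1) (q : Matrix (Ix n a) (Ix n a) F) := by
        rw [hq, Units.val_mul, Units.val_mul, Units.val_mul]
        exact Fo_mul (Fo_mul (Fo_mul (Fo_inv hmF) (Fo_inv huF)) hmF) hg'F
      have hqe : mv q (sv e) = sv e := by
        have h3 : mv m (mv g' (sv e)) = mv u (mv m (sv e)) := by
          rw [hme, mv_smul, huf, hv', smul_smul, mul_inv_cancel₀ hce, one_smul]
        rw [hq, mv_mul, mv_mul, mv_mul, h3, mv_inv, mv_inv]
      have hqf : mv q (sv f) = sv f := by
        have h3 : mv m (mv g' (sv f)) = mv u (mv m (sv f)) := by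
          rw [hg'f, hmf, mv_smul, hue]
        rw [hq, mv_mul, mv_mul, mv_mul, h3, mv_inv, mv_inv]
      have hqj : Fo j (q : Matrix (Ix n a) (Ix n a) F) := by
        intro x y hxy
        by_cases hx1 : In (j + 1) x
        · by_cases hy1 : In (j + 1) y
          · by_cases hy0 : In j y
            · have hx0 : ¬ In j x := fun h => hxy ⟨h, hy0⟩
              rcases In_step hj' hx1 hx0 with h | h
              · rw [h, ← he, ← duf]
                exact row_of_col hqG hqf y
              · rw [h, ← hf, ← due]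
                exact row_of_col hqG hqe y
            · rcases In_step hj' hy1 hy0 with h | h
              · rw [h, ← he, ← mv_apply, hqe, sv_one]
              · rw [h, ← hf, ← mv_apply, hqf, sv_one]
          · exact hqF x y (fun h => hy1 h.2)
        · exact hqF x y (fun h => hx1 h.1)
      have hqK : q ∈ D.K := ih (by omega) q hqG hqj
      have hmK : m ∈ D.K := NN_le_K hmN
      have huK : u ∈ D.K := U_le_K huU
      have hgq : g = k⁻¹ * (m⁻¹ * u * m * q) := by
        rw [hq, hg']
        group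
      rw [hgq]
      exact D.K.mul_mem (D.K.inv_mem hkK)
        (D.K.mul_mem (D.K.mul_mem (D.K.mul_mem (D.K.inv_mem hmK) huK) hmK) hqK)
  intro g hg
  exact key n le_rfl g hg (fun x y h => absurd ⟨In_all x, In_all y⟩ h)

end

end AO.MG
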