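import Pool.Agent.AO.F07
import Pool.Agent.AO.F08

/-!
# MP_6c3636_al, AO, module F12: the dichotomy (helper7)

`NN_mo`: `Subgroup.closure_induction` (`mo_mul`, `mo_inv`, `s_mo`, `DG_mo`, `ws_mem`). `PO_mo`: let `r ∈ R l`, `m = mo w c`; `m⁻¹ r m ∈ G`; by `conj_Up` with `S i j` = the places of the nontrivial entries of `r`: `l > 0`: `(ei l, ei (pr l))`, `(fi (pr l), fi l)` (`R_supp`); `l = 0`: `(ei l, mi j)`, `(mi j, fi l)`, `(ei l, fi l)` (`R0_supp`). If `(w x, w y)` is such a place then `rk x < rk y`: `rk (w⁻¹ (du z)) = - rk (w⁻¹ z)` (`WP`), `rk (w⁻¹ (mi j)) = 0`. `di_F`: `m = mo w c`, `w ∈ WP`. `l > 0`: `rk (w.symm (ei l)) < rk (w.symm (ei (pr l)))` or `>` (`rk` is injective outside of the anisotropic part); `s l * m` has the permutation `ws l * w`, its inverse maps `ei l` to `w.symm (ei (pr l))`. `l = 0`: `rk (w.symm (ei l)) < 0` or `> 0` (not `0` as `w` preserves the anisotropic part); `(ws l * w).symm (ei l) = w.symm (fi l)`.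
-/

namespace AO.MG

noncomputable section

open Classical Equiv Matrix

open AN (sq)

variable {n a : ℕ} {F : Type} [Field F] [Finite F] {D : FD n a F}

theorem NN_mo {m : GL (Ix n a) F} (hm : m ∈ NN D.s D.T) :
    ∃ w ∈ WP n a, ∃ c : Ix n a → Fˣ, m = mo w c := by
  refine Subgroup.closure_induction
    (p := fun g _ => ∃ w ∈ WP n a, ∃ c : Ix n a → Fˣ, g = mo w c) ?_ ?_ ?_ ?_ hm
  · rintro x (⟨l, rfl⟩ | hx)
    · exact ⟨ws a l, ws_mem l, D.cs l, s_mo l⟩
    · obtain ⟨c, hc⟩ := DG_mo (T_DG hx)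
      exact ⟨1, WP_one, c, hc⟩
  · exact ⟨1, WP_one, 1, mo_one.symm⟩
  · rintro x y _ _ ⟨w, hw, c, rfl⟩ ⟨w', hw', c', rfl⟩
    exact ⟨w * w', WP_mul hw hw', _, mo_mul w w' c c'⟩
  · rintro x _ ⟨w, hw, c, rfl⟩
    exact ⟨w⁻¹, WP_inv hw, _, mo_inv w c⟩

theorem rk_inj {x y : Ix n a} (h : rk x = rk y) (h0 : rk x ≠ 0) : x = y := by
  rcases x with ⟨i, b⟩ | i
  · rcases y with ⟨j, b'⟩ | j
    · cases b <;> cases b'
      · have h1 : -(((i : ℕ) : ℤ) + 1) = -(((j : ℕ) : ℤ) + 1) := h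
        have h2 : i = j := Fin.ext (by omega)
        rw [h2]
      · have h1 : -(((i : ℕ) : ℤ) + 1) = ((j : ℕ) : ℤ) + 1 := h
        omega
      · have h1 : ((i : ℕ) : ℤ) + 1 = -(((j : ℕ) : ℤ) + 1) := h
        omega
      · have h1 : ((i : ℕ) : ℤ) + 1 = ((j : ℕ) : ℤ) + 1 := h
        have h2 : i = j := Fin.ext (by omega)
        rw [h2]
    · exact absurd h h0
  · exact absurd rfl h0

namespace F12_aux

theorem rk_zero {x : Ix n a} (h : rk x = 0) : ∃ j : Fin a, x = mi j := by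
  rcases x with ⟨i, b⟩ | j
  · cases b
    · have h1 : -(((i : ℕ) : ℤ) + 1) = 0 := h
      omega
    · have h1 : ((i : ℕ) : ℤ) + 1 = 0 := h
      omega
  · exact ⟨j, rfl⟩

theorem symm_fi {w : Perm (Ix n a)} (hw : w ∈ WP n a) (i : Fin n) :
    rk (w.symm (fi i)) = - rk (w.symm (ei i)) := by
  have h1 : w.symm (du (ei i)) = du (w.symm (ei i)) := (WP_inv hw).1 (ei i)
  have h2 : (du (ei i) : Ix n a) = fi i := rfl
  rw [← h2, h1, rk_du]

theorem symm_mi {w : Perm (Ix n a)} (hw : w ∈ WP n a) (j : Fin a) :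
    rk (w.symm (mi j)) = 0 := by
  obtain ⟨j', h1⟩ := (WP_inv hw).2 j
  have h2 : w.symm (mi j) = mi j' := h1
  rw [h2]
  rfl

theorem symm_ei {w : Perm (Ix n a)} (hw : w ∈ WP n a) (i : Fin n) :
    rk (w.symm (ei i)) ≠ 0 := by
  intro h
  obtain ⟨j, hj⟩ := rk_zero h
  obtain ⟨j', h1⟩ := hw.2 j
  have h2 : (ei i : Ix n a) = mi j' := by
    rw [← h1, ← hj, w.apply_symm_apply]
  exact absurd h2 (by rw [ei, mi]; exact Sum.inl_ne_inr)

theorem ei_inj {i j : Fin n} (h : (ei i : Ix n a) = ei j) : i = j := by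
  have h1 := Sum.inl.inj h
  exact congrArg Prod.fst h1

theorem in_one {l : Fin n} (hl : (l : ℕ) = 0) {x : Ix n a} (h : In 1 x) :
    x = ei l ∨ x = fi l ∨ ∃ j : Fin a, x = mi j := by
  rcases x with ⟨i, b⟩ | j
  · have h1 : (i : ℕ) < 1 := h
    have h2 : i = l := Fin.ext (by omega)
    cases b
    · left
      rw [h2]
      rfl
    · right
      left
      rw [h2]
      rfl
  · exact Or.inr (Or.inr ⟨j, rfl⟩)

theorem symm_of {w : Perm (Ix n a)} {i x : Ix n a} (h : w i = x) : i = w.symm x := by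
  rw [← h, w.symm_apply_apply]

end F12_aux

theorem PO_mo (l : Fin n) {m : GL (Ix n a) F} (hm : m ∈ D.G) {w : Perm (Ix n a)} (hw : w ∈ WP n a)
    {c : Ix n a → Fˣ} (h : m = mo w c)
    (h1 : rk (w.symm (ei l)) < if 0 < (l : ℕ) then rk (w.symm (ei (pr l))) else 0) :
    PO D.U (D.R l) m := by
  intro r hr
  have hrG : r ∈ D.G := hr.1.1
  have hG1 : m⁻¹ * r * m ∈ D.G := mul_mem (mul_mem (inv_mem hm) hrG) hm
  refine ⟨hG1, mem_GS.2 ?_⟩
  by_cases hl : 0 < (l : ℕ)
  · rw [if_pos hl] at h1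
    rw [h]
    refine conj_Up (S := fun x y => (x = ei l ∧ y = ei (pr l)) ∨ (x = fi (pr l) ∧ y = fi l)) ?_ ?_
    · intro x y hxy
      exact R_supp hl hr (fun h' => hxy (Or.inl h')) (fun h' => hxy (Or.inr h'))
    · rintro x y (⟨hx, hy⟩ | ⟨hx, hy⟩)
      · rw [F12_aux.symm_of hx, F12_aux.symm_of hy]
        exact h1
      · rw [F12_aux.symm_of hx, F12_aux.symm_of hy, F12_aux.symm_fi hw, F12_aux.symm_fi hw]
        exact neg_lt_neg h1
  · have hl0 : (l : ℕ) = 0 := by omega
    rw [if_neg hl] at h1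
    rw [h]
    obtain ⟨g1, g2, g3, g4⟩ := R0_supp hl0 hr
    refine conj_Up (S := fun x y => (r : Matrix (Ix n a) (Ix n a) F) x y ≠
      (1 : Matrix (Ix n a) (Ix n a) F) x y) ?_ ?_
    · intro x y hxy
      exact not_not.1 hxy
    · intro x y hxy
      have k1 : w x = ei l ∨ w y = fi l := by
        by_contra hc
        rw [not_or] at hc
        exact hxy (g1 _ _ hc.1 hc.2)
      have k2 : In 1 (w x) ∧ In 1 (w y) := by
        by_contra hc
        exact hxy (g2 _ _ hc)
      have k3 : w y ≠ ei l := by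
        intro hc
        apply hxy
        rw [hc, ← mv_apply, g3, ← mv_one (sv (ei l)), mv_apply, Units.val_one]
      have k4 : ¬ (w x = fi l ∧ w y = fi l) := by
        rintro ⟨hc, hc'⟩
        apply hxy
        rw [hc, hc', g4, Matrix.one_apply_eq]
      have k5 : w x = ei l → rk x < 0 := by
        intro h'
        rw [F12_aux.symm_of h']
        exact h1
      have k6 : w y = fi l → 0 < rk y := by
        intro h'
        rw [F12_aux.symm_of h', F12_aux.symm_fi hw]
        omega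
      rcases k1 with k1 | k1
      · have k7 := k5 k1
        rcases F12_aux.in_one hl0 k2.2 with k8 | k8 | ⟨j, k8⟩
        · exact absurd k8 k3
        · have := k6 k8
          omega
        · have k9 : rk y = 0 := by
            rw [F12_aux.symm_of k8, F12_aux.symm_mi hw]
          omega
      · have k7 := k6 k1
        rcases F12_aux.in_one hl0 k2.1 with k8 | k8 | ⟨j, k8⟩
        · have := k5 k8
          omega
        · exact absurd ⟨k8, k1⟩ k4
        · have k9 : rk x = 0 := by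
            rw [F12_aux.symm_of k8, F12_aux.symm_mi hw]
          omega

theorem di_F {m : GL (Ix n a) F} (hm : m ∈ NN D.s D.T) (l : Fin n) :
    PO D.U (D.R l) m ∨ PO D.U (D.R l) (D.s l * m) := by
  obtain ⟨w, hw, c, h⟩ := NN_mo hm
  have hG : m ∈ D.G := NN_le hm
  have hG' : D.s l * m ∈ D.G := mul_mem (s_mem l) hG
  have hs : D.s l * m = mo (ws a l * w) (fun j => D.cs l (w j) * c j) := by
    rw [s_mo, h, mo_mul]
  have hw' : ws a l * w ∈ WP n a := WP_mul (ws_mem l) hw
  have h0 := F12_aux.symm_ei hw l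
  have hsy : ∀ x y : Ix n a, ws a l x = y → (ws a l * w).symm y = w.symm x := by
    intro x y hxy
    rw [Equiv.symm_apply_eq, Equiv.Perm.mul_apply, w.apply_symm_apply]
    exact hxy.symm
  by_cases hl : 0 < (l : ℕ)
  · by_cases hlt : rk (w.symm (ei l)) < rk (w.symm (ei (pr l)))
    · left
      refine PO_mo l hG hw h ?_
      rw [if_pos hl]
      exact hlt
    · right
      have hne : rk (w.symm (ei l)) ≠ rk (w.symm (ei (pr l))) := by
        intro he
        have h2 := F12_aux.ei_inj (w.symm.injective (rk_inj he h0))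
        have h3 : (l : ℕ) = (l : ℕ) - 1 := congrArg Fin.val h2
        omega
      refine PO_mo l hG' hw' hs ?_
      have e1 : ws a l (ei (pr l)) = ei l := by
        rw [(ws_e hl (pr l)).1, Equiv.swap_apply_left]
      have e2 : ws a l (ei l) = ei (pr l) := by
        rw [(ws_e hl l).1, Equiv.swap_apply_right]
      rw [if_pos hl, hsy _ _ e1, hsy _ _ e2]
      omega
  · have hl0 : (l : ℕ) = 0 := by omega
    by_cases hlt : rk (w.symm (ei l)) < 0
    · left
      refine PO_mo l hG hw h ?_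
      rw [if_neg hl]
      exact hlt
    · right
      refine PO_mo l hG' hw' hs ?_
      have e1 : ws a l (fi l) = ei l := (ws_0 hl0).2.1
      rw [if_neg hl, hsy _ _ e1, F12_aux.symm_fi hw]
      omega

end

end AO.MG
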