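import Pool.Agent.AO.F12

/-!
# MP_6c3636_al, AO, module F13: the relations of the simple reflections (helper7)

`s l = mo (ws l) (cs l)` (`s_mo`), products by `mo_mul`. For `i, j > 0` the relations are the images of those of the general linear group under `hy` (`gls_comm`, `gls_braid`). `far_F`, `i = 0`: `s 0` and `s j`, `j ≥ 2`: they move disjoint sets of indices. `b2_F`: `s 1 s 0 s 1` acts on the plane of `1` and the anisotropic part as `s 0` does on the plane of `0` and the anisotropic part; both commute (on the anisotropic part both are `mi j ↦ om • mi (rev j)`). The `PO` statements: `PO_mo` with `w = ws j`, `ws l * ws k`, ...: `w.symm (ei l)` and `w.symm (ei (pr l))` by `ws_e`, `ws_0`. For example `PO (R 0) (s 1)`: `(ws 1)⁻¹ (ei 0) = ei 1`, rank `-2 < 0`. `PO (R 1) (s 0)`: `ei 1 ↦ ei 1`, `ei 0 ↦ fi 0`: `-2 < 1`. `PO (R 0) (s 1 * s 0)`: `w = ws 1 * ws 0`, `w⁻¹ (ei 0) = ws 0 (ws 1 (ei 0)) = ei 1`: `-2 < 0`. `PO (R 1) (s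 0 * s 1)`: `w⁻¹ = ws 1 * ws 0`: `ei 1 ↦ ei 0`, `ei 0 ↦ fi 0 ↦ fi 1`: `-1 < 2`. `PO (R 0) (s 1 * s 0 * s 1)`: `w⁻¹ = ws 1 ws 0 ws 1`: `ei 0 ↦ ei 1 ↦ ei 1 ↦ ei 0`: `-1 < 0`. `PO (R 1) (s 0 * s 1 * s 0)`: `w⁻¹ = ws 0 ws 1 ws 0`: `ei 1 ↦ ei 1 ↦ ei 0 ↦ fi 0`, `ei 0 ↦ fi 0 ↦ fi 1 ↦ fi 1`: `1 < 2`.
-/

namespace AO.MG

noncomputable section

open Classical Equiv Matrix

open AN (sq)

variable {n a : ℕ} {F : Type} [Field F] [Finite F] {D : FD n a F}

/-- the data for products of simple reflections -/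
private theorem PO_help (l : Fin n) {m : GL (Ix n a) F} (hm : m ∈ D.G) {w : Perm (Ix n a)}
    (hw : w ∈ WP n a) {c : Ix n a → Fˣ} (h : m = mo w c) {z z' : Ix n a} (hz : w z = ei l)
    (hz' : 0 < (l : ℕ) → w z' = ei (pr l) ∧ rk z < rk z') (h0 : (l : ℕ) = 0 → rk z < 0) :
    PO D.U (D.R l) m := by
  have h1 : w.symm (ei l) = z := (Equiv.symm_apply_eq w).2 hz.symm
  refine PO_mo l hm hw h ?_
  rw [h1]
  split_ifs with hl
  · have h2 : w.symm (ei (pr l)) = z' := (Equiv.symm_apply_eq w).2 (hz' hl).1.symm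
    rw [h2]
    exact (hz' hl).2
  · exact h0 (Nat.eq_zero_of_not_pos hl)

private theorem mo2 (k l : Fin n) : ∃ c : Ix n a → Fˣ, D.s k * D.s l = mo (ws a k * ws a l) c := by
  rw [s_mo, s_mo, mo_mul]
  exact ⟨_, rfl⟩

private theorem mo3 (k l j : Fin n) :
    ∃ c : Ix n a → Fˣ, D.s k * D.s l * D.s j = mo (ws a k * ws a l * ws a j) c := by
  rw [s_mo, s_mo, s_mo, mo_mul, mo_mul]
  exact ⟨_, rfl⟩

private theorem PO1 (l k : Fin n) {z z' : Ix n a} (hz : ws a k z = ei l)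
    (hz' : 0 < (l : ℕ) → ws a k z' = ei (pr l) ∧ rk z < rk z') (h0 : (l : ℕ) = 0 → rk z < 0) :
    PO D.U (D.R l) (D.s k) :=
  PO_help l (s_mem k) (ws_mem k) (s_mo k) hz hz' h0

private theorem PO2 (l k j : Fin n) {z z' : Ix n a} (hz : ws a k (ws a j z) = ei l)
    (hz' : 0 < (l : ℕ) → ws a k (ws a j z') = ei (pr l) ∧ rk z < rk z') (h0 : (l : ℕ) = 0 → rk z < 0) :
    PO D.U (D.R l) (D.s k * D.s j) := by
  obtain ⟨c, hc⟩ := mo2 (D := D) k j
  exact PO_help l (mul_mem (s_mem k) (s_mem j)) (WP_mul (ws_mem k) (ws_mem j)) hc hz hz' h0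

private theorem PO3 (l k j i : Fin n) {z z' : Ix n a} (hz : ws a k (ws a j (ws a i z)) = ei l)
    (hz' : 0 < (l : ℕ) → ws a k (ws a j (ws a i z')) = ei (pr l) ∧ rk z < rk z')
    (h0 : (l : ℕ) = 0 → rk z < 0) : PO D.U (D.R l) (D.s k * D.s j * D.s i) := by
  obtain ⟨c, hc⟩ := mo3 (D := D) k j i
  exact PO_help l (mul_mem (mul_mem (s_mem k) (s_mem j)) (s_mem i))
    (WP_mul (WP_mul (ws_mem k) (ws_mem j)) (ws_mem i)) hc hz hz' h0

omit [Finite F] in
private theorem mo_ext {w w' : Perm (Ix n a)} {c c' : Ix n a → Fˣ} (h : ∀ x, w x = w' x)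
    (h' : ∀ x, c x = c' x) : (mo w c : GL (Ix n a) F) = mo w' c' := by
  rw [Equiv.ext h, funext h']

omit [Finite F] in
private theorem s_hy {l : Fin n} (hl : 0 < (l : ℕ)) : D.s l = D.hy (gls F l) := if_pos hl

omit [Finite F] in
private theorem cs_pos {l : Fin n} (hl : 0 < (l : ℕ)) (x : Ix n a) : D.cs l x = 1 := by
  have h : D.cs l = 1 := if_pos hl
  rw [h]
  rfl

omit [Finite F] in
private theorem cs_zero {l : Fin n} (hl : (l : ℕ) = 0) : D.cs l (ei l) = D.ep ∧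
    (∀ i, i ≠ l → D.cs l (ei i) = 1) ∧ (∀ i, D.cs l (fi i) = 1) ∧ ∀ j : Fin a, D.cs l (mi j) = D.om := by
  have h : D.cs l = D.c0 := if_neg (by omega)
  rw [h]
  refine ⟨if_pos hl, fun i hi => if_neg (fun h0 => hi (Fin.ext (h0.trans hl.symm))), fun i => rfl,
    fun j => rfl⟩

private theorem ix_cases {P : Ix n a → Prop} (h1 : ∀ i, P (ei i)) (h2 : ∀ i, P (fi i))
    (h3 : ∀ j : Fin a, P (mi j)) (x : Ix n a) : P x := by
  rcases x with ⟨i, b⟩ | j
  · cases b
    · exact h1 i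
    · exact h2 i
  · exact h3 j

private theorem pr_val (l : Fin n) : ((pr l : Fin n) : ℕ) = (l : ℕ) - 1 := rfl

private theorem ws_fix {l : Fin n} (hl : 0 < (l : ℕ)) {i : Fin n} (h1 : i ≠ pr l) (h2 : i ≠ l) :
    ws a l (ei i) = ei i ∧ ws a l (fi i) = fi i := by
  have h := ws_e (a := a) hl i
  rw [Equiv.swap_apply_of_ne_of_ne h1 h2] at h
  exact h

private theorem ws_l {l : Fin n} (hl : 0 < (l : ℕ)) :
    ws a l (ei l) = ei (pr l) ∧ ws a l (fi l) = fi (pr l) := by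
  have h := ws_e (a := a) hl l
  rw [Equiv.swap_apply_right] at h
  exact h

private theorem ws_p {l : Fin n} (hl : 0 < (l : ℕ)) :
    ws a l (ei (pr l)) = ei l ∧ ws a l (fi (pr l)) = fi l := by
  have h := ws_e (a := a) hl (pr l)
  rw [Equiv.swap_apply_left] at h
  exact h

private theorem rk_e (i : Fin n) : rk (ei i : Ix n a) = -(((i : ℕ) : ℤ) + 1) := rfl

private theorem rk_f (i : Fin n) : rk (fi i : Ix n a) = ((i : ℕ) : ℤ) + 1 := rfl

private theorem ne_of {i j : Fin n} (h : (i : ℕ) ≠ j) : i ≠ j := fun h' => h (congrArg _ h')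

theorem far_F {i j : Fin n} (h : (i : ℕ) + 2 ≤ j) : D.s i * D.s j = D.s j * D.s i ∧
    PO D.U (D.R i) (D.s j) ∧ PO D.U (D.R j) (D.s i) := by
  have hj : 0 < (j : ℕ) := by omega
  have hji : j ≠ i := ne_of (by omega)
  have hpi : pr j ≠ i := ne_of (by rw [pr_val]; omega)
  have hfi := ws_fix (a := a) hj hpi.symm hji.symm
  refine ⟨?_, ?_, ?_⟩
  · by_cases hi : 0 < (i : ℕ)
    · rw [s_hy hi, s_hy hj, ← map_mul, ← map_mul, gls_comm h]
    · have hi0 : (i : ℕ) = 0 := Nat.eq_zero_of_not_pos hi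
      obtain ⟨a1, a2, a3, a4⟩ := ws_0 (a := a) hi0
      obtain ⟨b1, b2, b3, b4⟩ := cs_zero (D := D) hi0
      rw [s_mo, s_mo, mo_mul, mo_mul]
      refine mo_ext (fun x => ?_) (fun x => ?_)
      · show ws a i (ws a j x) = ws a j (ws a i x)
        induction x using ix_cases with
        | h1 x =>
          by_cases h1 : x = i
          · rw [h1, hfi.1, a1, hfi.2]
          · rw [(a3 x h1).1, (ws_e hj x).1, (a3 _ ?_).1]
            intro h2
            exact h1 ((Equiv.swap (pr j) j).injective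
              (h2.trans (Equiv.swap_apply_of_ne_of_ne hpi.symm hji.symm).symm))
        | h2 x =>
          by_cases h1 : x = i
          · rw [h1, hfi.2, a2, hfi.1]
          · rw [(a3 x h1).2, (ws_e hj x).2, (a3 _ ?_).2]
            intro h2
            exact h1 ((Equiv.swap (pr j) j).injective
              (h2.trans (Equiv.swap_apply_of_ne_of_ne hpi.symm hji.symm).symm))
        | h3 x => rw [ws_m hj, a4, ws_m hj]
      · show D.cs i (ws a j x) * D.cs j x = D.cs j (ws a i x) * D.cs i x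
        rw [cs_pos hj, cs_pos hj, mul_one, one_mul]
        induction x using ix_cases with
        | h1 x =>
          by_cases h1 : x = i
          · rw [h1, hfi.1]
          · rw [b2 x h1, (ws_e hj x).1, b2]
            intro h2
            exact h1 ((Equiv.swap (pr j) j).injective
              (h2.trans (Equiv.swap_apply_of_ne_of_ne hpi.symm hji.symm).symm))
        | h2 x => rw [(ws_e hj x).2, b3, b3]
        | h3 x => rw [ws_m hj]
  · by_cases hi : 0 < (i : ℕ)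
    · refine PO1 i j (z := ei i) (z' := ei (pr i)) hfi.1 (fun _ => ⟨?_, ?_⟩) (fun h0 => by omega)
      · exact (ws_fix hj (ne_of (by rw [pr_val, pr_val]; omega)) (ne_of (by rw [pr_val]; omega))).1
      · rw [rk_e, rk_e, pr_val]
        omega
    · refine PO1 i j (z := ei i) (z' := ei i) hfi.1 (fun h0 => absurd h0 hi) (fun h0 => ?_)
      rw [rk_e]
      omega
  · have hrk : rk (ei j : Ix n a) < rk (ei (pr j) : Ix n a) := by
      rw [rk_e, rk_e, pr_val]
      omega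
    by_cases hi : 0 < (i : ℕ)
    · refine PO1 j i (z := ei j) (z' := ei (pr j)) ?_ (fun _ => ⟨?_, hrk⟩) (fun h0 => by omega)
      · exact (ws_fix hi (ne_of (by rw [pr_val]; omega)) hji).1
      · exact (ws_fix hi (ne_of (by rw [pr_val, pr_val]; omega)) hpi).1
    · obtain ⟨a1, a2, a3, a4⟩ := ws_0 (a := a) (Nat.eq_zero_of_not_pos hi)
      exact PO1 j i (z := ei j) (z' := ei (pr j)) (a3 j hji).1 (fun _ => ⟨(a3 _ hpi).1, hrk⟩)
        (fun h0 => by omega)

theorem adj_F {k l : Fin n} (hl : (l : ℕ) = k + 1) (hk : 0 < (k : ℕ)) :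
    D.s k * D.s l * D.s k = D.s l * D.s k * D.s l ∧
    PO D.U (D.R k) (D.s l) ∧ PO D.U (D.R l) (D.s k) ∧ PO D.U (D.R k) (D.s l * D.s k) ∧
      PO D.U (D.R l) (D.s k * D.s l) := by
  have hl0 : 0 < (l : ℕ) := by omega
  have hpl : pr l = k := Fin.ext (by rw [pr_val]; omega)
  have hlk : l ≠ k := ne_of (by omega)
  have hpk : pr k ≠ k := ne_of (by rw [pr_val]; omega)
  have hpkl : pr k ≠ l := ne_of (by rw [pr_val]; omega)
  have a1 : ws a l (ei l) = ei k := by rw [(ws_l hl0).1, hpl]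
  have a2 : ws a l (ei k) = ei l := by rw [← hpl, (ws_p hl0).1]
  have a3 : ws a l (ei (pr k)) = ei (pr k) :=
    (ws_fix hl0 (fun h => hpk (h.trans hpl)) hpkl).1
  have b1 : ws a k (ei k) = ei (pr k) := (ws_l hk).1
  have b2 : ws a k (ei (pr k)) = ei k := (ws_p hk).1
  have b3 : ws a k (ei l) = ei l := (ws_fix hk hpkl.symm hlk).1
  have r1 : rk (ei l : Ix n a) < rk (ei (pr k) : Ix n a) := by
    rw [rk_e, rk_e, pr_val]
    omega
  have r2 : rk (ei l : Ix n a) < rk (ei k : Ix n a) := by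
    rw [rk_e, rk_e]
    omega
  have r3 : rk (ei k : Ix n a) < rk (ei (pr k) : Ix n a) := by
    rw [rk_e, rk_e, pr_val]
    omega
  refine ⟨?_, ?_, ?_, ?_, ?_⟩
  · rw [s_hy hk, s_hy hl0, ← map_mul, ← map_mul, ← map_mul, ← map_mul, gls_braid hl hk]
  · exact PO1 k l (z := ei l) (z' := ei (pr k)) a1 (fun _ => ⟨a3, r1⟩) (fun h0 => by omega)
  · exact PO1 l k (z := ei l) (z' := ei (pr k)) b3 (fun _ => ⟨by rw [hpl, b2], r1⟩)
      (fun h0 => by omega)
  · exact PO2 k l k (z := ei l) (z' := ei k) (by rw [b3, a1]) (fun _ => ⟨by rw [b1, a3], r2⟩)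
      (fun h0 => by omega)
  · exact PO2 l k l (z := ei k) (z' := ei (pr k)) (by rw [a2, b3])
      (fun _ => ⟨by rw [a3, b2, hpl], r3⟩) (fun h0 => by omega)

theorem b2_F {k l : Fin n} (hk : (k : ℕ) = 0) (hl : (l : ℕ) = 1) :
    D.s k * D.s l * D.s k * D.s l = D.s l * D.s k * D.s l * D.s k ∧ PO D.U (D.R k) (D.s l) ∧
      PO D.U (D.R l) (D.s k) ∧ PO D.U (D.R k) (D.s l * D.s k) ∧ PO D.U (D.R l) (D.s k * D.s l) ∧
      PO D.U (D.R k) (D.s l * D.s k * D.s l) ∧ PO D.U (D.R l) (D.s k * D.s l * D.s k) := by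
  have hl0 : 0 < (l : ℕ) := by omega
  have hpl : pr l = k := Fin.ext (by rw [pr_val]; omega)
  have hlk : l ≠ k := ne_of (by omega)
  have a1 : ws a l (ei l) = ei k := by rw [(ws_l hl0).1, hpl]
  have a2 : ws a l (ei k) = ei l := by rw [← hpl, (ws_p hl0).1]
  have a1' : ws a l (fi l) = fi k := by rw [(ws_l hl0).2, hpl]
  have a2' : ws a l (fi k) = fi l := by rw [← hpl, (ws_p hl0).2]
  have a3 : ∀ i, i ≠ k → i ≠ l → ws a l (ei i) = ei i ∧ ws a l (fi i) = fi i := fun i h1 h2 =>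
    ws_fix hl0 (fun h => h1 (h.trans hpl)) h2
  have a4 : ∀ j : Fin a, ws a l (mi j) = mi j := ws_m hl0
  obtain ⟨b1, b2, b3, b4⟩ := ws_0 (a := a) hk
  obtain ⟨c1, c2, c3, c4⟩ := cs_zero (D := D) hk
  have r1 : rk (ei k : Ix n a) = -1 := by rw [rk_e, hk]; rfl
  have r2 : rk (ei l : Ix n a) = -2 := by rw [rk_e, hl]; rfl
  have r3 : rk (fi k : Ix n a) = 1 := by rw [rk_f, hk]; rfl
  have r4 : rk (fi l : Ix n a) = 2 := by rw [rk_f, hl]; rfl
  refine ⟨?_, ?_, ?_, ?_, ?_, ?_, ?_⟩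
  · rw [s_mo, s_mo, mo_mul, mo_mul, mo_mul, mo_mul, mo_mul, mo_mul]
    refine mo_ext (fun x => ?_) (fun x => ?_)
    · show ws a k (ws a l (ws a k (ws a l x))) = ws a l (ws a k (ws a l (ws a k x)))
      induction x using ix_cases with
      | h1 x =>
        by_cases h1 : x = k
        · rw [h1, a2, (b3 l hlk).1, a1, b1, a2', (b3 l hlk).2, a1']
        · by_cases h2 : x = l
          · rw [h2, a1, b1, a2', (b3 l hlk).2, (b3 l hlk).1, a1, b1, a2']
          · rw [(a3 x h1 h2).1, (b3 x h1).1, (a3 x h1 h2).1, (b3 x h1).1, (a3 x h1 h2).1]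
      | h2 x =>
        by_cases h1 : x = k
        · rw [h1, a2', (b3 l hlk).2, a1', b2, a2, (b3 l hlk).1, a1]
        · by_cases h2 : x = l
          · rw [h2, a1', b2, a2, (b3 l hlk).1, (b3 l hlk).2, a1', b2, a2]
          · rw [(a3 x h1 h2).2, (b3 x h1).2, (a3 x h1 h2).2, (b3 x h1).2, (a3 x h1 h2).2]
      | h3 x => rw [a4, b4, a4, b4, a4]
    · show D.cs k (ws a l (ws a k (ws a l x))) * D.cs l (ws a k (ws a l x)) * D.cs k (ws a l x) *
          D.cs l x = D.cs l (ws a k (ws a l (ws a k x))) * D.cs k (ws a l (ws a k x)) *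
          D.cs l (ws a k x) * D.cs k x
      rw [cs_pos hl0, cs_pos hl0, cs_pos hl0, cs_pos hl0, mul_one, mul_one, mul_one, one_mul]
      induction x using ix_cases with
      | h1 x =>
        by_cases h1 : x = k
        · rw [h1, a2, (b3 l hlk).1, a1, b1, a2', c1, c2 l hlk, c3, mul_one, one_mul]
        · by_cases h2 : x = l
          · rw [h2, a1, b1, a2', (b3 l hlk).1, a1, c1, c2 l hlk, c3, mul_one, one_mul]
          · rw [(a3 x h1 h2).1, (b3 x h1).1, (a3 x h1 h2).1]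
      | h2 x =>
        by_cases h1 : x = k
        · rw [h1, a2', (b3 l hlk).2, a1', b2, a2, c2 l hlk, c3, c3]
        · by_cases h2 : x = l
          · rw [h2, a1', b2, a2, (b3 l hlk).2, a1', c2 l hlk, c3, c3]
          · rw [(a3 x h1 h2).2, (b3 x h1).2, (a3 x h1 h2).2]
      | h3 x => rw [a4, b4, a4]
  · exact PO1 k l (z := ei l) (z' := ei l) a1 (fun h0 => by omega) (fun _ => by rw [r2]; decide)
  · exact PO1 l k (z := ei l) (z' := fi k) (b3 l hlk).1 (fun _ => ⟨by rw [b2, hpl], by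
      rw [r2, r3]; decide⟩) (fun h0 => by omega)
  · exact PO2 k l k (z := ei l) (z' := ei l) (by rw [(b3 l hlk).1, a1]) (fun h0 => by omega)
      (fun _ => by rw [r2]; decide)
  · exact PO2 l k l (z := ei k) (z' := fi l) (by rw [a2, (b3 l hlk).1])
      (fun _ => ⟨by rw [a1', b2, hpl], by rw [r1, r4]; decide⟩) (fun h0 => by omega)
  · exact PO3 k l k l (z := ei k) (z' := ei k) (by rw [a2, (b3 l hlk).1, a1]) (fun h0 => by omega)
      (fun _ => by rw [r1]; decide)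
  · exact PO3 l k l k (z := fi k) (z' := fi l) (by rw [b2, a2, (b3 l hlk).1])
      (fun _ => ⟨by rw [(b3 l hlk).2, a1', b2, hpl], by rw [r3, r4]; decide⟩) (fun h0 => by omega)

end

end AO.MG
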