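import Pool.Agent.AO.N03
import Pool.Agent.AO.M04

/-!
# MP_6c3636_al, AO, module N06: characters of the torus of the general linear group (helper7)

`glth_mul`: `ch_mul` (`DG_ne`, `DG_mul`). `glth_di`: the entries of `di i x` are `x` at `(i, i)` and `1` at the other `(j, j)`. `glth_ext`: use `di i x` with `ch x = -1` (`exists_ch` for `RingEquiv.refl F`). `glth_conj`: the `(i, i)` entry of `mo w c * t * (mo w c)⁻¹` is that of `t` at `w⁻¹ i` (`mo_conj'`), `Equiv.prod_comp`; `sq a k l` is the sequence `a` with the places `k`, `l` exchanged. `glth_glh`: `ch (x) ` and `ch (- x⁻¹) = ch (-1) * ch x`. `gl_sum`: `rsum` over the `r = glr l x` (bijection with `F`), `gle l r = x`; if both labels are false all values are `1`; if both are true: `ch x * ch (- x⁻¹) = ch (-1)`; otherwise `± ∑ ch x = 0` (`sum_ch`).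
-/

namespace AO.MG

noncomputable section

open Classical Equiv Matrix

open AN (sq)

variable {n : ℕ} {F : Type} [Field F]

/-- the characters of the torus -/
def glth (a : Fin n → Bool) (g : GL (Fin n) F) : ℤˣ :=
  ∏ i, if a i = true then ch (RingEquiv.refl F) ((g : Matrix (Fin n) (Fin n) F) i i) else 1

variable [Finite F]

theorem glth_mul (h2 : (2 : F) ≠ 0) (a : Fin n → Bool) {x y : GL (Fin n) F} (hx : x ∈ DG (Fin n) F)
    (hy : y ∈ DG (Fin n) F) : glth a (x * y) = glth a x * glth a y := by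
  unfold glth
  rw [← Finset.prod_mul_distrib]
  refine Finset.prod_congr rfl fun i _ => ?_
  by_cases h : a i = true
  · rw [if_pos h, if_pos h, if_pos h, DG_mul hx i, ch_mul h2 rfl (DG_ne hx i) rfl (DG_ne hy i)]
  · rw [if_neg h, if_neg h, if_neg h, one_mul]

theorem glth_di (a : Fin n → Bool) (i : Fin n) (x : Fˣ) :
    glth a (di i x) = if a i = true then ch (RingEquiv.refl F) (x : F) else 1 := by
  unfold glth
  have e : ∀ j, ((di i x : GL (Fin n) F) : Matrix (Fin n) (Fin n) F) j j =
      ((Function.update (1 : Fin n → Fˣ) i x j : Fˣ) : F) := by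
    intro j
    unfold di
    rw [mo_apply, if_pos (Equiv.Perm.one_apply j).symm]
  rw [Finset.prod_eq_single i]
  · rw [e i, Function.update_self]
  · intro j _ hj
    rw [e j, Function.update_of_ne hj, Pi.one_apply, Units.val_one, ch_one, ite_self]
  · exact fun h => absurd (Finset.mem_univ _) h

theorem glth_ext (h2 : (2 : F) ≠ 0) {a b : Fin n → Bool}
    (h : ∀ x ∈ DG (Fin n) F, glth a x = glth b x) : a = b := by
  funext i
  obtain ⟨x, -, hx0, hx⟩ := exists_ch h2 (RingEquiv.refl F)
  have h1 := h (di i (Units.mk0 x hx0)) (mo_DG _)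
  rw [glth_di, glth_di, Units.val_mk0, hx] at h1
  have h3 : (-1 : ℤˣ) ≠ 1 := by decide
  cases ha : a i <;> cases hb : b i
  · rfl
  · rw [ha, hb, if_neg Bool.false_ne_true, if_pos rfl] at h1
    exact absurd h1.symm h3
  · rw [ha, hb, if_neg Bool.false_ne_true, if_pos rfl] at h1
    exact absurd h1 h3
  · rfl

theorem glth_s {k l : Fin n} (hl : (l : ℕ) = k + 1) (a : Fin n → Bool) {x : GL (Fin n) F}
    (hx : x ∈ DG (Fin n) F) : glth (sq a k l) (gls F l * x * (gls F l)⁻¹) = glth a x := by
  have hl0 : 0 < (l : ℕ) := by omega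
  have hpr : pr l = k := Fin.ext (by show (l : ℕ) - 1 = k; omega)
  unfold gls
  rw [if_pos hl0, hpr]
  unfold glth
  rw [← Equiv.prod_comp (Equiv.swap k l)]
  refine Finset.prod_congr rfl fun i _ => ?_
  rw [mo_conj']
  have e : sq a k l (Equiv.swap k l i) = a i := by
    unfold AN.sq
    rw [Equiv.swap_apply_self]
  rw [e, Pi.one_apply, inv_one, Units.val_one, one_mul, mul_one]

theorem glth_not (a : Fin n → Bool) (x : GL (Fin n) F) :
    glth (fun i => !(a i)) x = glth a x * glth (fun _ => true) x := by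
  unfold glth
  rw [← Finset.prod_mul_distrib]
  refine Finset.prod_congr rfl fun i _ => ?_
  show (if (!(a i)) = true then ch (RingEquiv.refl F) ((x : Matrix (Fin n) (Fin n) F) i i) else 1) =
    (if a i = true then ch (RingEquiv.refl F) ((x : Matrix (Fin n) (Fin n) F) i i) else 1) *
      (if true = true then ch (RingEquiv.refl F) ((x : Matrix (Fin n) (Fin n) F) i i) else 1)
  cases h : a i
  · rw [Bool.not_false, if_pos rfl, if_neg Bool.false_ne_true, one_mul]
  · rw [Bool.not_true, if_neg Bool.false_ne_true, if_pos rfl, Int.units_mul_self]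

theorem glth_glh (h2 : (2 : F) ≠ 0) {k l : Fin n} (hl : (l : ℕ) = k + 1) (a : Fin n → Bool) (x : Fˣ) :
    glth a (glh l x) = (if a l = true then ch (RingEquiv.refl F) (x : F) else 1) *
      (if a k = true then ch (RingEquiv.refl F) (-1 : F) * ch (RingEquiv.refl F) (x : F) else 1) := by
  have hl0 : 0 < (l : ℕ) := by omega
  have hpr : pr l = k := Fin.ext (by show (l : ℕ) - 1 = k; omega)
  unfold glh
  have hdi : ∀ (i : Fin n) (y : Fˣ), di i y ∈ DG (Fin n) F := fun i y => mo_DG _
  rw [if_pos hl0, hpr, glth_mul h2 a (hdi _ _) (hdi _ _), glth_di, glth_di]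
  congr 1
  by_cases h : a k = true
  · rw [if_pos h, if_pos h]
    have e : ((-x⁻¹ : Fˣ) : F) = (-1) * (x : F)⁻¹ := by
      rw [Units.val_neg, Units.val_inv_eq_inv_val, neg_one_mul]
    rw [e, ch_mul h2 rfl (neg_ne_zero.2 one_ne_zero) rfl (inv_ne_zero x.ne_zero), ch_inv h2 rfl]
  · rw [if_neg h, if_neg h]

theorem gl_sum (h2 : (2 : F) ≠ 0) {k l : Fin n} (hl : (l : ℕ) = k + 1) (a : Fin n → Bool) :
    rsum (glR F l) (fun g => glh l (un (gle l (g : Matrix (Fin n) (Fin n) F)))) (glth a) =
      if a k = a l then (((if a k = true then ch (RingEquiv.refl F) (-1 : F) else 1 : ℤˣ) : ℤˣ) : ℤ) *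
        ((Nat.card (glR F l) : ℤ) - 1) else 0 := by
  have hl0 : 0 < (l : ℕ) := by omega
  -- the sum over the field
  have h1 : rsum (glR F l) (fun g => glh l (un (gle l (g : Matrix (Fin n) (Fin n) F)))) (glth a) =
      ∑ᶠ x : F, if x = 0 then 0 else ((glth a (glh l (un x)) : ℤˣ) : ℤ) := by
    unfold rsum
    have hb : Function.Bijective (fun x : F => (⟨glr l x, (glR_iff hl0).2 ⟨x, rfl⟩⟩ : glR F l)) := by
      constructor
      · intro x y hxy
        have h3 : glr l x = glr l y := congrArg Subtype.val hxy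
        have h4 := congrArg (fun g : GL (Fin n) F => gle l (g : Matrix (Fin n) (Fin n) F)) h3
        simpa only [gle_glr hl0] using h4
      · rintro ⟨g, hg⟩
        obtain ⟨x, hx⟩ := (glR_iff hl0).1 hg
        exact ⟨x, Subtype.ext hx.symm⟩
    refine (finsum_comp_equiv (Equiv.ofBijective _ hb)).symm.trans (finsum_congr fun x => ?_)
    by_cases hx : x = 0
    · rw [if_pos hx]
      exact if_pos ((glr_one hl0).2 hx)
    · rw [if_neg hx]
      refine (if_neg (fun h => hx ((glr_one hl0).1 h))).trans ?_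
      show ((glth a (glh l (un (gle l ((glr l x : GL (Fin n) F) : Matrix (Fin n) (Fin n) F)))) : ℤˣ) : ℤ) = _
      rw [gle_glr hl0]
  have hun : ∀ x : F, x ≠ 0 → ((un x : Fˣ) : F) = x := by
    intro x hx
    unfold un
    rw [dif_pos hx, Units.val_mk0]
  have h2' : ∀ x : F, (if x = 0 then 0 else ((glth a (glh l (un x)) : ℤˣ) : ℤ)) =
      if x = 0 then 0 else ((((if a l = true then ch (RingEquiv.refl F) x else 1) *
      (if a k = true then ch (RingEquiv.refl F) (-1 : F) * ch (RingEquiv.refl F) x else 1) : ℤˣ)) : ℤ) := by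
    intro x
    by_cases hx : x = 0
    · rw [if_pos hx, if_pos hx]
    · rw [if_neg hx, if_neg hx, glth_glh h2 hl, hun x hx]
  -- constant sums
  have h3 : ∀ c : ℤ, (∑ᶠ x : F, if x = 0 then 0 else c) = c * ((Nat.card (glR F l) : ℤ) - 1) := by
    intro c
    have : Fintype F := Fintype.ofFinite F
    rw [card_glR hl0, Nat.card_eq_fintype_card, finsum_eq_sum_of_fintype]
    have e : ∀ x : F, (if x = 0 then 0 else c) = c - if x = 0 then c else 0 := by
      intro x
      by_cases hx : x = 0
      · rw [if_pos hx, if_pos hx, sub_self]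
      · rw [if_neg hx, if_neg hx, sub_zero]
    rw [Finset.sum_congr rfl fun x _ => e x, Finset.sum_sub_distrib, Finset.sum_const,
      Finset.sum_ite_eq', if_pos (Finset.mem_univ _), Finset.card_univ, nsmul_eq_mul]
    ring
  -- sums of the character
  have h4 : ∀ c : ℤ, (∑ᶠ x : F, if x = 0 then 0 else c * ((ch (RingEquiv.refl F) x : ℤˣ) : ℤ)) = 0 := by
    intro c
    have e : (∑ᶠ x : F, if x = 0 then 0 else c * ((ch (RingEquiv.refl F) x : ℤˣ) : ℤ)) =
        ∑ᶠ x : {x : F // RingEquiv.refl F x = x ∧ x ≠ 0}, c * ((ch (RingEquiv.refl F) (x : F) : ℤˣ) : ℤ) := by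
      rw [finsum_subtype_eq_finsum_cond (f := fun x : F => c * ((ch (RingEquiv.refl F) x : ℤˣ) : ℤ))
        (fun x : F => RingEquiv.refl F x = x ∧ x ≠ 0)]
      refine finsum_congr fun x => ?_
      rw [finsum_eq_if]
      by_cases hx : x = 0
      · rw [if_pos hx, if_neg (fun h => h.2 hx)]
      · rw [if_neg hx, if_pos ⟨rfl, hx⟩]
    rw [e, ← mul_finsum, sum_ch h2, mul_zero]
  rw [h1, finsum_congr h2']
  cases hk : a k <;> cases hl' : a l
  · rw [if_pos rfl, if_neg Bool.false_ne_true, Units.val_one, ← h3 1]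
    refine finsum_congr fun x => ?_
    rw [if_neg Bool.false_ne_true, if_neg Bool.false_ne_true, one_mul, Units.val_one]
  · rw [if_neg Bool.false_ne_true]
    refine Eq.trans (finsum_congr fun x => ?_) (h4 1)
    rw [if_pos rfl, if_neg Bool.false_ne_true, mul_one, one_mul]
  · rw [if_neg Bool.false_ne_true.symm]
    refine Eq.trans (finsum_congr fun x => ?_) (h4 ((ch (RingEquiv.refl F) (-1 : F) : ℤˣ) : ℤ))
    rw [if_neg Bool.false_ne_true, if_pos rfl, one_mul, Units.val_mul]
  · rw [if_pos rfl, if_pos rfl, ← h3]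
    refine finsum_congr fun x => ?_
    rw [if_pos rfl, if_pos rfl, mul_left_comm, Int.units_mul_self, mul_one]

end

end AO.MG
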