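import Pool.Agent.AO.F07
import Pool.Agent.AO.F09
import Pool.Agent.AO.N06

/-!
# MP_6c3636_al, AO, module F14: the characters of the torus (helper7)

`th_mul`: `ch_mul`, `T_tau`, `DG_mul`, `DG_ne`. `th_tor`: `tor_e`. `th_ext`: `tor` of `Pi.mulSingle i x` (or `Function.update 1 i x`) with `ch τ x = -1` (`exists_ch`). `th_s`: `l > 0`: the entry of `s l * t * (s l)⁻¹` at `ei i` is that of `t` at `ei (swap i)` (`mo_conj'`, `ws_e`). `th_0`: the entry at `ei l` is that of `t` at `fi l`, `(σ (t e e))⁻¹` (`T_f`), and `ch_inv`, `ch_aut` (`st`). `th_ss`: `s_sq_zero`. `sum_F`: as `gl_sum` (N06): `rsum` over `R l` = the `hy (glr l x)`, `τ x = x` (`R_pos`, `hh_pos`), `hy_ee`, the entries of `glh l (un x)` are `x` at `l` and `- x⁻¹` at `k`, `1` else; `ch x * ch (- x⁻¹) = ch (-1)`; `∑ ch = 0` (`sum_ch`). `th_hh`: `hh_zero`.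
-/

namespace AO.MG

noncomputable section

open Classical Equiv Matrix

open AN (sq)

variable {n a : ℕ} {F : Type} [Field F] [Finite F] {D : FD n a F}

private theorem F14_pr {k l : Fin n} (hl : (l : ℕ) = k + 1) : pr l = k :=
  Fin.ext (by show (l : ℕ) - 1 = k; omega)

theorem th_mul (a' : Fin n → Bool) {x y : GL (Ix n a) F} (hx : x ∈ D.T) (hy : y ∈ D.T) :
    D.th a' (x * y) = D.th a' x * D.th a' y := by
  unfold FD.th
  rw [← Finset.prod_mul_distrib]
  refine Finset.prod_congr rfl fun i _ => ?_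
  by_cases h : a' i = true
  · rw [if_pos h, if_pos h, if_pos h, DG_mul (T_DG hx) (ei i), ch_mul D.two (T_tau hx i) (DG_ne (T_DG hx) _)
      (T_tau hy i) (DG_ne (T_DG hy) _)]
  · rw [if_neg h, if_neg h, if_neg h, one_mul]

theorem th_tor (a' : Fin n → Bool) (x : Fin n → Fˣ) :
    D.th a' (D.tor x) = ∏ i, if a' i = true then ch D.τ (x i : F) else 1 := by
  unfold FD.th
  refine Finset.prod_congr rfl fun i _ => ?_
  rw [tor_e]

private theorem F14_upd (a' : Fin n → Bool) (i : Fin n) (x : Fˣ) :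
    D.th a' (D.tor (Function.update 1 i x)) = if a' i = true then ch D.τ (x : F) else 1 := by
  rw [th_tor, Finset.prod_eq_single i]
  · rw [Function.update_self]
  · intro j _ hj
    rw [Function.update_of_ne hj, Pi.one_apply, Units.val_one, ch_one, ite_self]
  · exact fun h => absurd (Finset.mem_univ _) h

private theorem F14_mem (i : Fin n) {x : Fˣ} (hx : D.τ (x : F) = x) :
    D.tor (Function.update 1 i x) ∈ D.T := by
  refine tor_mem fun j => ?_
  by_cases hj : j = i
  · rw [hj, Function.update_self, hx]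
  · rw [Function.update_of_ne hj, Pi.one_apply, Units.val_one, map_one]

theorem th_ext {a' b' : Fin n → Bool} (h : ∀ x ∈ D.T, D.th a' x = D.th b' x) : a' = b' := by
  funext i
  obtain ⟨x, hxt, hx0, hx⟩ := exists_ch D.two D.τ
  have h1 := h (D.tor (Function.update 1 i (Units.mk0 x hx0))) (F14_mem i hxt)
  rw [F14_upd, F14_upd, Units.val_mk0, hx] at h1
  have h3 : (-1 : ℤˣ) ≠ 1 := by decide
  cases ha : a' i <;> cases hb : b' i
  · rfl
  · rw [ha, hb, if_neg Bool.false_ne_true, if_pos rfl] at h1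
    exact absurd h1.symm h3
  · rw [ha, hb, if_neg Bool.false_ne_true, if_pos rfl] at h1
    exact absurd h1 h3
  · rfl

theorem th_s {k l : Fin n} (hl : (l : ℕ) = k + 1) (a' : Fin n → Bool) {x : GL (Ix n a) F} (hx : x ∈ D.T) :
    D.th (sq a' k l) (D.s l * x * (D.s l)⁻¹) = D.th a' x := by
  have hl0 : 0 < (l : ℕ) := by omega
  have hpr : pr l = k := F14_pr hl
  unfold FD.th
  rw [← Equiv.prod_comp (Equiv.swap k l)]
  refine Finset.prod_congr rfl fun i _ => ?_
  have e : sq a' k l (Equiv.swap k l i) = a' i := by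
    unfold AN.sq
    rw [Equiv.swap_apply_self]
  have e2 : (ei (Equiv.swap k l i) : Ix n a) = ws a l (ei i) := by
    rw [(ws_e hl0 i).1, hpr]
  rw [e, e2, s_mo, mo_conj']
  have e3 : D.cs l (ei i) = 1 := by
    unfold FD.cs
    rw [if_pos hl0, Pi.one_apply]
  rw [e3, inv_one, Units.val_one, one_mul, mul_one]

theorem th_0 {k : Fin n} (hk : (k : ℕ) = 0) (a' : Fin n → Bool) {x : GL (Ix n a) F} (hx : x ∈ D.T) :
    D.th a' (D.s k * x * (D.s k)⁻¹) = D.th a' x := by
  unfold FD.th
  refine Finset.prod_congr rfl fun i _ => ?_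
  obtain ⟨h1, h2, h3, -⟩ := ws_0 (a := a) hk
  have e : ∀ y : Ix n a, ((D.s k * x * (D.s k)⁻¹ : GL (Ix n a) F) : Matrix (Ix n a) (Ix n a) F)
      (ws a k y) (ws a k y) = (x : Matrix (Ix n a) (Ix n a) F) y y := by
    intro y
    rw [s_mo, mo_conj', mul_right_comm, ← Units.val_mul, mul_inv_cancel, Units.val_one, one_mul]
  by_cases hi : i = k
  · have e1 : ch D.τ (((D.s k * x * (D.s k)⁻¹ : GL (Ix n a) F) : Matrix (Ix n a) (Ix n a) F) (ei i) (ei i)) =
        ch D.τ ((x : Matrix (Ix n a) (Ix n a) F) (ei i) (ei i)) := by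
      rw [hi]
      have e2 := e (fi k)
      rw [h2] at e2
      rw [e2, T_f hx k, ch_inv D.two, ch_aut D.st]
      rw [← D.st, T_tau hx k]
    rw [e1]
  · have e2 := e (ei i)
    rw [(h3 i hi).1] at e2
    rw [e2]

theorem th_not (a' : Fin n → Bool) (x : GL (Ix n a) F) :
    D.th (fun i => !(a' i)) x = D.th a' x * D.th (fun _ => true) x := by
  unfold FD.th
  rw [← Finset.prod_mul_distrib]
  refine Finset.prod_congr rfl fun i _ => ?_
  show (if (!(a' i)) = true then ch D.τ ((x : Matrix (Ix n a) (Ix n a) F) (ei i) (ei i)) else 1) =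
    (if a' i = true then ch D.τ ((x : Matrix (Ix n a) (Ix n a) F) (ei i) (ei i)) else 1) *
      (if true = true then ch D.τ ((x : Matrix (Ix n a) (Ix n a) F) (ei i) (ei i)) else 1)
  cases h : a' i
  · rw [Bool.not_false, if_pos rfl, if_neg Bool.false_ne_true, one_mul]
  · rw [Bool.not_true, if_neg Bool.false_ne_true, if_pos rfl, Int.units_mul_self]

private theorem F14_one (a' : Fin n → Bool) {k : Fin n} {g : GL (Ix n a) F} {y : F}
    (h1 : (g : Matrix (Ix n a) (Ix n a) F) (ei k) (ei k) = y)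
    (h2 : ∀ i, i ≠ k → (g : Matrix (Ix n a) (Ix n a) F) (ei i) (ei i) = 1) :
    D.th a' g = if a' k = true then ch D.τ y else 1 := by
  unfold FD.th
  rw [Finset.prod_eq_single k]
  · rw [h1]
  · intro j _ hj
    rw [h2 j hj, ch_one, ite_self]
  · exact fun h => absurd (Finset.mem_univ _) h

theorem th_ss {k : Fin n} (hk : (k : ℕ) = 0) (a' : Fin n → Bool) :
    D.th a' (D.s k * D.s k) = if a' k = true then ch D.τ (D.ep : F) else 1 :=
  F14_one a' (s_sq_zero hk).1 (s_sq_zero hk).2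

theorem th_hh {k : Fin n} (hk : (k : ℕ) = 0) (a' : Fin n → Bool) {r : GL (Ix n a) F} (hr : r ∈ D.R k)
    (h1 : r ≠ 1) : D.th a' (D.hh k r) = if a' k = true then
      ch D.τ (D.ep * (r : Matrix (Ix n a) (Ix n a) F) (ei k) (fi k)) else 1 :=
  F14_one a' (hh_zero hk hr h1).2.2.1 (hh_zero hk hr h1).2.2.2

private theorem F14_glh {k l : Fin n} (hl : (l : ℕ) = k + 1) (a' : Fin n → Bool) {x : Fˣ}
    (hx : D.τ (x : F) = x) :
    D.th a' (D.hy (glh l x)) = (if a' l = true then ch D.τ (x : F) else 1) *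
      (if a' k = true then ch D.τ (-1 : F) * ch D.τ (x : F) else 1) := by
  have hl0 : 0 < (l : ℕ) := by omega
  have hpr : pr l = k := F14_pr hl
  have hx' : D.τ ((-x⁻¹ : Fˣ) : F) = ((-x⁻¹ : Fˣ) : F) := by
    rw [Units.val_neg, Units.val_inv_eq_inv_val, map_neg, map_inv₀, hx]
  have e0 : D.hy (glh l x) = D.tor (Function.update 1 l x) * D.tor (Function.update 1 k (-x⁻¹)) := by
    unfold glh
    rw [if_pos hl0, hpr, map_mul]
    rfl
  rw [e0, th_mul a' (F14_mem l hx) (F14_mem k hx'), F14_upd, F14_upd]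
  congr 1
  by_cases h : a' k = true
  · rw [if_pos h, if_pos h]
    have e : ((-x⁻¹ : Fˣ) : F) = (-1) * (x : F)⁻¹ := by
      rw [Units.val_neg, Units.val_inv_eq_inv_val, neg_one_mul]
    rw [e, ch_mul D.two (by rw [map_neg, map_one]) (neg_ne_zero.2 one_ne_zero) (by rw [map_inv₀, hx])
      (inv_ne_zero x.ne_zero), ch_inv D.two hx]
  · rw [if_neg h, if_neg h]

theorem sum_F {k l : Fin n} (hl : (l : ℕ) = k + 1) (a' : Fin n → Bool) :
    rsum (D.R l) (D.hh l) (D.th a') =
      if a' k = a' l then (((if a' k = true then ch D.τ (-1 : F) else 1 : ℤˣ) : ℤˣ) : ℤ) *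
        ((Nat.card (D.R l) : ℤ) - 1) else 0 := by
  have hl0 : 0 < (l : ℕ) := by omega
  have hone : ∀ x : F, D.hy (glr l x) = 1 ↔ x = 0 := by
    intro x
    rw [← glr_one hl0]
    constructor
    · intro h
      refine hy_inj (D := D) ?_
      rw [h, map_one]
    · intro h
      rw [h, map_one]
  -- the sum over the fixed field
  have h1 : rsum (D.R l) (D.hh l) (D.th a') =
      ∑ᶠ x : {x : F // D.τ x = x}, if (x : F) = 0 then 0 else ((D.th a' (D.hy (glh l (un (x : F)))) : ℤˣ) : ℤ) := by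
    unfold rsum
    have hb : Function.Bijective (fun x : {x : F // D.τ x = x} =>
        (⟨D.hy (glr l (x : F)), (R_pos hl0).2 ⟨x, x.2, rfl⟩⟩ : D.R l)) := by
      constructor
      · intro x y hxy
        have h3 : D.hy (glr l (x : F)) = D.hy (glr l (y : F)) := congrArg Subtype.val hxy
        have h4 := congrArg (fun g : GL (Fin n) F => gle l (g : Matrix (Fin n) (Fin n) F)) (hy_inj h3)
        exact Subtype.ext (by simpa only [gle_glr hl0] using h4)
      · rintro ⟨g, hg⟩
        obtain ⟨x, hx, hx'⟩ := (R_pos hl0).1 hg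
        exact ⟨⟨x, hx⟩, Subtype.ext hx'.symm⟩
    refine (finsum_comp_equiv (Equiv.ofBijective _ hb)).symm.trans (finsum_congr fun x => ?_)
    by_cases hx : (x : F) = 0
    · rw [if_pos hx]
      exact if_pos ((hone x).2 hx)
    · rw [if_neg hx]
      refine (if_neg (fun h => hx ((hone x).1 h))).trans ?_
      show ((D.th a' (D.hh l (D.hy (glr l (x : F)))) : ℤˣ) : ℤ) = _
      rw [hh_pos hl0]
  have hun : ∀ x : F, x ≠ 0 → ((un x : Fˣ) : F) = x := by
    intro x hx
    unfold un
    rw [dif_pos hx, Units.val_mk0]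
  have h2' : ∀ x : {x : F // D.τ x = x}, (if (x : F) = 0 then 0 else
      ((D.th a' (D.hy (glh l (un (x : F)))) : ℤˣ) : ℤ)) =
      if (x : F) = 0 then 0 else ((((if a' l = true then ch D.τ (x : F) else 1) *
      (if a' k = true then ch D.τ (-1 : F) * ch D.τ (x : F) else 1) : ℤˣ)) : ℤ) := by
    intro x
    by_cases hx : (x : F) = 0
    · rw [if_pos hx, if_pos hx]
    · rw [if_neg hx, if_neg hx, F14_glh hl a' (by rw [hun x hx]; exact x.2), hun x hx]
  -- constant sums
  have h3 : ∀ c : ℤ, (∑ᶠ x : {x : F // D.τ x = x}, if (x : F) = 0 then 0 else c) =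
      c * ((Nat.card (D.R l) : ℤ) - 1) := by
    intro c
    have : Fintype F := Fintype.ofFinite F
    rw [card_R_pos hl0, Nat.card_eq_fintype_card, finsum_eq_sum_of_fintype]
    have e : ∀ x : {x : F // D.τ x = x}, (if (x : F) = 0 then 0 else c) =
        c - if x = ⟨0, map_zero D.τ⟩ then c else 0 := by
      intro x
      by_cases hx : (x : F) = 0
      · rw [if_pos hx, if_pos (Subtype.ext hx), sub_self]
      · rw [if_neg hx, if_neg (fun h => hx (congrArg Subtype.val h)), sub_zero]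
    rw [Finset.sum_congr rfl fun x _ => e x, Finset.sum_sub_distrib, Finset.sum_const,
      Finset.sum_ite_eq', if_pos (Finset.mem_univ _), Finset.card_univ, nsmul_eq_mul]
    ring
  -- sums of the character
  have h4 : ∀ c : ℤ, (∑ᶠ x : {x : F // D.τ x = x}, if (x : F) = 0 then 0 else
      c * ((ch D.τ (x : F) : ℤˣ) : ℤ)) = 0 := by
    intro c
    have e : (∑ᶠ x : {x : F // D.τ x = x}, if (x : F) = 0 then 0 else c * ((ch D.τ (x : F) : ℤˣ) : ℤ)) =
        ∑ᶠ x : {x : F // D.τ x = x ∧ x ≠ 0}, c * ((ch D.τ (x : F) : ℤˣ) : ℤ) := by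
      rw [finsum_subtype_eq_finsum_cond (f := fun x : F => c * ((ch D.τ x : ℤˣ) : ℤ))
        (fun x : F => D.τ x = x ∧ x ≠ 0),
        finsum_subtype_eq_finsum_cond (f := fun x : F => if x = 0 then 0 else c * ((ch D.τ x : ℤˣ) : ℤ))
        (fun x : F => D.τ x = x)]
      refine finsum_congr fun x => ?_
      rw [finsum_eq_if, finsum_eq_if]
      by_cases hx : x = 0
      · rw [if_neg (fun h : D.τ x = x ∧ x ≠ 0 => h.2 hx), if_pos hx, ite_self]
      · rw [if_neg hx]
        by_cases hx' : D.τ x = x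
        · rw [if_pos hx', if_pos ⟨hx', hx⟩]
        · rw [if_neg hx', if_neg (fun h : D.τ x = x ∧ x ≠ 0 => hx' h.1)]
    rw [e, ← mul_finsum, sum_ch D.two, mul_zero]
  rw [h1, finsum_congr h2']
  cases hk : a' k <;> cases hl' : a' l
  · rw [if_pos rfl, if_neg Bool.false_ne_true, Units.val_one, ← h3 1]
    refine finsum_congr fun x => ?_
    rw [if_neg Bool.false_ne_true, if_neg Bool.false_ne_true, one_mul, Units.val_one]
  · rw [if_neg Bool.false_ne_true]
    refine Eq.trans (finsum_congr fun x => ?_) (h4 1)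
    rw [if_pos rfl, if_neg Bool.false_ne_true, mul_one, one_mul]
  · rw [if_neg Bool.false_ne_true.symm]
    refine Eq.trans (finsum_congr fun x => ?_) (h4 ((ch D.τ (-1 : F) : ℤˣ) : ℤ))
    rw [if_neg Bool.false_ne_true, if_pos rfl, one_mul, Units.val_mul]
  · rw [if_pos rfl, if_pos rfl, ← h3]
    refine finsum_congr fun x => ?_
    rw [if_pos rfl, if_pos rfl, mul_left_comm, Int.units_mul_self, mul_one]

end

end AO.MG
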