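import Pool.Agent.AO.F14
import Pool.Agent.AO.F11

/-!
# MP_6c3636_al, AO, module F15: sums for the end node, and `G = H T` (helper7)

`rsum_zero`: `R0_equiv`, `th_hh` and reindexing of the sum. `card_zero`: `R0_equiv`. `HT_of`: `H T` is a subgroup (`H` is normal in `G`, `T ≤ G`). It contains `U` and `T`. For every `l` take `r ∈ R l`, `r ≠ 1` and `s l * r * s l = u * (s l * h) * u'` (`hU_pos`, `hh_zero`): modulo `H` (which contains `U`): `s l * s l = s l * h`, so `s l ∈ H * h ⊆ H T`. So `K ≤ H T`, `gen_K`. `nt_mem`: the same relation with `s l * s l = 1`: `s l * h = u⁻¹ * (s l * r * s l) * u'⁻¹ = u⁻¹ * (s l * r * (s l)⁻¹) * u'⁻¹ ∈ H`.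
-/

namespace AO.MG

noncomputable section

open Classical Equiv Matrix

open AN (sq)

variable {n a : ℕ} {F : Type} [Field F] [Finite F] {D : FD n a F}

namespace F15_aux

variable {H : Subgroup (GL (Ix n a) F)}

/-- the product of `H` and the torus -/
def HTs (D : FD n a F) (H : Subgroup (GL (Ix n a) F)) (hN : ∀ g ∈ D.G, ∀ h ∈ H, g * h * g⁻¹ ∈ H) :
    Subgroup (GL (Ix n a) F) where
  carrier := {g | ∃ h ∈ H, ∃ x ∈ D.T, g = h * x}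
  mul_mem' := by
    rintro g g' ⟨h, hh, x, hx, rfl⟩ ⟨h', hh', x', hx', rfl⟩
    refine ⟨h * (x * h' * x⁻¹), H.mul_mem hh (hN x hx.1 h' hh'), x * x', D.T.mul_mem hx hx', ?_⟩
    group
  one_mem' := ⟨1, H.one_mem, 1, D.T.one_mem, (mul_one 1).symm⟩
  inv_mem' := by
    rintro g ⟨h, hh, x, hx, rfl⟩
    refine ⟨x⁻¹ * h⁻¹ * (x⁻¹)⁻¹, hN x⁻¹ (D.G.inv_mem hx.1) h⁻¹ (H.inv_mem hh), x⁻¹, D.T.inv_mem hx, ?_⟩
    group

theorem s_HT (hN : ∀ g ∈ D.G, ∀ h ∈ H, g * h * g⁻¹ ∈ H) (hU : D.U ≤ H) {l : Fin n}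
    {r t : GL (Ix n a) F} (hr : r ∈ D.R l) (ht : t ∈ D.T)
    (h : ∃ u ∈ D.R l, ∃ u' ∈ D.R l, D.s l * r * D.s l = u * (D.s l * t) * u') :
    D.s l ∈ HTs D H hN := by
  obtain ⟨u, hu, u', hu', he⟩ := h
  have hR : ∀ v ∈ D.R l, v ∈ H := fun v hv => hU (R_le l hv)
  have hs := s_mem (D := D) l
  have h1 : (D.s l * r * (D.s l)⁻¹)⁻¹ * u ∈ H :=
    H.mul_mem (H.inv_mem (hN _ hs r (hR r hr))) (hR u hu)
  have h2 : (D.s l)⁻¹ * ((D.s l * r * (D.s l)⁻¹)⁻¹ * u) * ((D.s l)⁻¹)⁻¹ ∈ H :=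
    hN _ (D.G.inv_mem hs) _ h1
  refine ⟨(D.s l)⁻¹ * ((D.s l * r * (D.s l)⁻¹)⁻¹ * u) * ((D.s l)⁻¹)⁻¹ * (t * u' * t⁻¹),
    H.mul_mem h2 (hN t ht.1 u' (hR u' hu')), t, ht, ?_⟩
  have h3 : u * (D.s l * t) * u' = D.s l * r * D.s l := he.symm
  calc D.s l = (D.s l)⁻¹ * (D.s l * r * (D.s l)⁻¹)⁻¹ * (D.s l * r * D.s l) := by group
    _ = (D.s l)⁻¹ * (D.s l * r * (D.s l)⁻¹)⁻¹ * (u * (D.s l * t) * u') := by rw [h3]
    _ = _ := by group

theorem glr_ne {l : Fin n} (hl : 0 < (l : ℕ)) : D.hy (glr l (1 : F)) ≠ 1 := by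
  intro h
  have h1 := R_entry (D := D) hl (1 : F)
  have h2 : (ei l : Ix n a) ≠ ei (pr l) := by
    intro h3
    have h4 : l = pr l := congrArg Prod.fst (Sum.inl.inj h3)
    have h5 : (l : ℕ) = (l : ℕ) - 1 := congrArg Fin.val h4
    omega
  rw [h, Units.val_one, Matrix.one_apply_ne h2] at h1
  exact zero_ne_one h1

end F15_aux

theorem rsum_zero {k : Fin n} (hk : (k : ℕ) = 0) (a' : Fin n → Bool) :
    rsum (D.R k) (D.hh k) (D.th a') = ∑ᶠ p : D.PR, if p.1.2 = 0 then (0 : ℤ) else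
      (((if a' k = true then ch D.τ (D.ep * p.1.2) else 1 : ℤˣ) : ℤˣ) : ℤ) := by
  obtain ⟨e, he⟩ := R0_equiv (D := D) hk
  unfold rsum
  rw [← finsum_comp_equiv e]
  refine finsum_congr fun r => ?_
  obtain ⟨_, h2, h3⟩ := he r
  by_cases h : (r : GL (Ix n a) F) = 1
  · rw [if_pos h, if_pos (h3.2 h)]
  · rw [if_neg h, if_neg (fun h' => h (h3.1 h')), th_hh hk a' r.2 h, h2]

theorem card_zero {k : Fin n} (hk : (k : ℕ) = 0) : Nat.card (D.R k) = Nat.card D.PR := by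
  obtain ⟨e, _⟩ := R0_equiv (D := D) hk
  exact Nat.card_congr e

theorem HT_of {H : Subgroup (GL (Ix n a) F)} (hH : H ≤ D.G)
    (hN : ∀ g ∈ D.G, ∀ h ∈ H, g * h * g⁻¹ ∈ H) (hU : D.U ≤ H) (hp : ∃ p : D.PR, p.1.2 ≠ 0) :
    ∀ g ∈ D.G, ∃ h ∈ H, ∃ x ∈ D.T, g = h * x := by
  have hK : D.K ≤ F15_aux.HTs D H hN := by
    refine (Subgroup.closure_le _).2 ?_
    rintro g ((hg | hg) | ⟨l, rfl⟩)
    · exact ⟨g, hU hg, 1, D.T.one_mem, (mul_one g).symm⟩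
    · exact ⟨1, H.one_mem, g, hg, (one_mul g).symm⟩
    · by_cases hl : 0 < (l : ℕ)
      · have hr : D.hy (glr l (1 : F)) ∈ D.R l := (R_pos hl).2 ⟨1, map_one _, rfl⟩
        exact F15_aux.s_HT hN hU hr (hh_T hl hr) (hU_pos hl hr (F15_aux.glr_ne hl))
      · have hl' : (l : ℕ) = 0 := Nat.eq_zero_of_not_pos hl
        obtain ⟨p, hp⟩ := hp
        obtain ⟨e, he⟩ := R0_equiv (D := D) hl'
        have h1 : ((e.symm p : D.R l) : GL (Ix n a) F) ≠ 1 := by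
          intro h2
          have h3 := (he (e.symm p)).2.2.2 h2
          rw [Equiv.apply_symm_apply] at h3
          exact hp h3
        obtain ⟨h4, h5, _⟩ := hh_zero hl' (e.symm p).2 h1
        exact F15_aux.s_HT hN hU (e.symm p).2 h4 h5
  intro g hg
  exact hK (gen_K hg)

theorem nt_mem {H : Subgroup (GL (Ix n a) F)} (hN : ∀ g ∈ D.G, ∀ h ∈ H, g * h * g⁻¹ ∈ H)
    (hU : D.U ≤ H) {k : Fin n} (hk : (k : ℕ) = 0) {r : GL (Ix n a) F} (hr : r ∈ D.R k) (h1 : r ≠ 1)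
    (hs : D.s k * D.s k = 1) : D.s k * D.hh k r ∈ H := by
  obtain ⟨_, ⟨u, hu, u', hu', he⟩, _⟩ := hh_zero hk hr h1
  have hR : ∀ v ∈ D.R k, v ∈ H := fun v hv => hU (R_le k hv)
  have h2 : (D.s k)⁻¹ = D.s k := inv_eq_of_mul_eq_one_left hs
  have h3 : D.s k * r * D.s k ∈ H := by
    have h4 := hN _ (s_mem (D := D) k) r (hR r hr)
    rwa [h2] at h4
  have h5 : D.s k * D.hh k r = u⁻¹ * (D.s k * r * D.s k) * u'⁻¹ := by
    rw [he]
    group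
  rw [h5]
  exact H.mul_mem (H.mul_mem (H.inv_mem (hR u hu)) h3) (H.inv_mem (hR u' hu'))

end

end AO.MG
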