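import Pool.Agent.AO.GDefs

/-!
# MP_6c3636_al, AO, module G00: the Bruhat decomposition from the generation (helper63)

Let `S` be the set of the `u * m * u'` with `u, u' ∈ U`, `m ∈ N = NN s T`. `1 ∈ S`, and `S` is stable under left
multiplication by elements of `U`, `T`, `s i` and their inverses.
-/

namespace AO

noncomputable section

open Classical Equiv

open AN (sq)

variable {G : Type} [Group G] {I : Subgroup G} {n : ℕ}

namespace G00_aux

/-- the elements with a Bruhat decomposition -/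
def Br (X : BNin I n) (g : G) : Prop :=
  ∃ u ∈ X.U, ∃ m ∈ NN X.s X.T, ∃ u' ∈ X.U, g = u * m * u'

theorem s_mem (X : BNin I n) (i : Fin n) : X.s i ∈ NN X.s X.T :=
  Subgroup.subset_closure (Or.inl ⟨i, rfl⟩)

theorem T_mem (X : BNin I n) {t : G} (ht : t ∈ X.T) : t ∈ NN X.s X.T :=
  Subgroup.subset_closure (Or.inr ht)

theorem Br.lU {X : BNin I n} {g v : G} (hv : v ∈ X.U) (h : Br X g) : Br X (v * g) := by
  obtain ⟨u, hu, m, hm, u', hu', rfl⟩ := h
  exact ⟨v * u, X.U.mul_mem hv hu, m, hm, u', hu', by group⟩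

theorem Br.rU {X : BNin I n} {g v : G} (hv : v ∈ X.U) (h : Br X g) : Br X (g * v) := by
  obtain ⟨u, hu, m, hm, u', hu', rfl⟩ := h
  exact ⟨u, hu, m, hm, u' * v, X.U.mul_mem hu' hv, by group⟩

theorem Br.lT {X : BNin I n} {g t : G} (ht : t ∈ X.T) (h : Br X g) : Br X (t * g) := by
  obtain ⟨u, hu, m, hm, u', hu', rfl⟩ := h
  exact ⟨t * u * t⁻¹, X.TU t ht u hu, t * m, (NN X.s X.T).mul_mem (T_mem X ht) hm, u', hu', by group⟩

theorem Br.one (X : BNin I n) : Br X 1 :=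
  ⟨1, X.U.one_mem, 1, (NN X.s X.T).one_mem, 1, X.U.one_mem, by group⟩

/-- the main step -/
theorem br_srm (X : BNin I n) (i : Fin n) {r m : G} (hr : r ∈ X.R i) (hm : m ∈ NN X.s X.T) :
    Br X (X.s i * r * m) := by
  have hs := s_mem X i
  by_cases h1 : r = 1
  · exact ⟨1, X.U.one_mem, X.s i * m, (NN X.s X.T).mul_mem hs hm, 1, X.U.one_mem, by
      rw [h1]; group⟩
  · rcases X.di m hm i with hp | hp
    · exact ⟨1, X.U.one_mem, X.s i * m, (NN X.s X.T).mul_mem hs hm, m⁻¹ * r * m, hp r hr, by group⟩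
    · obtain ⟨u₁, hu₁, r₁, hr₁, he⟩ := X.hU i r hr h1
      have ht := X.hT i r hr h1
      refine ⟨u₁, hu₁, X.s i * X.hh i r * (X.s i)⁻¹ * m,
        (NN X.s X.T).mul_mem ((NN X.s X.T).mul_mem ((NN X.s X.T).mul_mem hs (T_mem X ht))
          ((NN X.s X.T).inv_mem hs)) hm,
        (X.s i * m)⁻¹ * (X.s i * X.s i * r₁ * (X.s i * X.s i)⁻¹) * (X.s i * m),
        hp _ (X.TR i _ (X.s2 i) _ hr₁), ?_⟩
      calc X.s i * r * m = X.s i * r * X.s i * (X.s i)⁻¹ * m := by group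
        _ = u₁ * (X.s i * X.hh i r) * r₁ * (X.s i)⁻¹ * m := by rw [he]
        _ = _ := by group

theorem Br.ls {X : BNin I n} {g : G} (i : Fin n) (h : Br X g) : Br X (X.s i * g) := by
  obtain ⟨u, hu, m, hm, u', hu', rfl⟩ := h
  obtain ⟨c, hc, r, hr, rfl⟩ := X.CR i u hu
  have h2 := ((br_srm X i hr hm).lU (X.sC i c hc)).rU hu'
  have h3 : X.s i * (c * r * m * u') = X.s i * c * (X.s i)⁻¹ * (X.s i * r * m) * u' := by group
  rw [h3]
  exact h2

theorem Br.ls' {X : BNin I n} {g : G} (i : Fin n) (h : Br X g) : Br X ((X.s i)⁻¹ * g) := by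
  have h2 := (h.ls i).lT (X.T.inv_mem (X.s2 i))
  have h3 : (X.s i)⁻¹ * g = (X.s i * X.s i)⁻¹ * (X.s i * g) := by group
  rw [h3]
  exact h2

end G00_aux

open G00_aux in
theorem br_of_gen (X : BNin I n) : ∀ g ∈ I, ∃ u ∈ X.U, ∃ m ∈ NN X.s X.T, ∃ u' ∈ X.U,
    g = u * m * u' := by
  intro g hg
  have h := X.gen hg
  change Br X g
  refine Subgroup.closure_induction_left (p := fun g _ => Br X g) (Br.one X) ?_ ?_ h
  · rintro x ((hx | hx) | ⟨i, rfl⟩) y _ hy
    · exact hy.lU hx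
    · exact hy.lT hx
    · exact hy.ls i
  · rintro x ((hx | hx) | ⟨i, rfl⟩) y _ hy
    · exact hy.lU (X.U.inv_mem hx)
    · exact hy.lT (X.T.inv_mem hx)
    · exact hy.ls' i

end

end AO
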