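import Pool.Agent.AO.F15
import Pool.Agent.AO.F13
import Pool.Agent.AO.G00

/-!
# MP_6c3636_al, AO, module F16: the BN-pair of an isometry group (helper7)

Assembly of F04 to F15. `pU`: `GS_pow`. `b2`: second case by `b2_F`. `hU`: `hU_pos`, `hh_zero` (the element `u ∈ R l ≤ U`). `ez`: `th_ss`. `gen`: `gen_K`, definition of `K`.
-/

namespace AO.MG

noncomputable section

open Classical Equiv Matrix

open AN (sq)

variable {n a : ℕ} {F : Type} [Field F] [Finite F] {D : FD n a F}

/-- the BN-pair of an isometry group -/
def FD.KD.bn {D : FD n a F} (X : D.KD) {p : ℕ} [CharP F p] (hp : p.Prime) (ho : Odd p) : BNin D.G n where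
  pc := p
  U := D.U
  T := D.T
  H := X.H
  s := D.s
  C := D.C
  R := D.R
  hh := D.hh
  th := D.th
  gd := X.gd
  sn := fun b => if b = true then ch D.τ (-1 : F) else 1
  ze := fun b => if b = true then ch D.τ (D.ep : F) else 1
  su := X.su
  nt := X.nt
  prime := hp
  odd := ho
  UI := by
    exact U_le
  TI := by
    exact inf_le_left
  HI := X.HG
  sI := by
    exact s_mem
  pU := by
    exact fun u hu => GS_pow hp hu.2
  hN := X.hN
  UH := X.UH
  HT := X.HT
  Tc := by
    exact fun x hx y hy => T_comm hx hy
  TU := by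
    exact fun x hx u hu => T_U hx hu
  sT := by
    exact fun i x hx => (s_T hx i).1
  sT' := by
    exact fun i x hx => (s_T hx i).2
  s2 := by
    exact s_sq
  s2o := by
    exact fun i hi => s_sq_pos hi
  CU := by
    exact C_le
  RU := by
    exact R_le
  TR := by
    exact fun i x hx r hr => T_R hx hr
  CR := by
    exact fun i u hu => CR i hu
  CRd := by
    exact fun i r hr hc => CRd hr hc
  sC := by
    exact fun i c hc => C_le i (sC i hc)
  hT := by
    intro i r hr h1
    rcases Nat.eq_zero_or_pos (i : ℕ) with h | h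
    · exact (hh_zero h hr h1).1
    · exact hh_T h hr
  hU := by
    intro i r hr h1
    rcases Nat.eq_zero_or_pos (i : ℕ) with h | h
    · obtain ⟨u, hu, u', hu', he⟩ := (hh_zero h hr h1).2.1
      exact ⟨u, R_le i hu, u', hu', he⟩
    · obtain ⟨u, hu, u', hu', he⟩ := hU_pos h hr h1
      exact ⟨u, R_le i hu, u', hu', he⟩
  gen := by
    exact gen_K
  di := by
    exact fun m hm i => di_F hm i
  thm := by
    exact fun a' x hx y hy => th_mul a' hx hy
  thd := by
    exact fun a' b' h => th_ext h
  ths := by
    exact fun k l hl a' x hx => th_s hl a' hx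
  th0 := by
    exact fun k hk a' x hx => th_0 hk a' hx
  thn := by
    exact fun a' x _ => th_not a' x
  sn0 := by
    exact if_neg Bool.false_ne_true
  sum := by
    exact fun k l hl a' => sum_F hl a'
  ez := by
    exact fun k hk a' => th_ss hk a'
  es := X.es
  ze0 := by
    exact if_neg Bool.false_ne_true
  ze1 := by
    exact fun h => (if_pos rfl).trans (X.ze1 h)
  ze2 := by
    exact fun h => ⟨(if_pos rfl).trans (X.ze2 h).1, (X.ze2 h).2⟩
  far := by
    exact fun i j h => far_F h
  adj := by
    exact fun k l hl hk => adj_F hl hk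
  b2 := by
    exact fun k l hk hl => Or.inr (b2_F hk hl)
  ntN := X.ntN
  ntH := X.ntH
  re := X.re
  tw := X.tw

end

end AO.MG
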