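import Pool.Agent.AO.L03

/-!
# MP_6c3636_al, AO, module L10: the skew element for the labels which are not allowed (helper7)

Assume `B.gd = false`, so `ze true = -1`, `su true = 0` (`ze2`), `X = [s 0]` satisfies `X X E0 a = - |R 0|⁻¹ • E0 a` if `a 0 = true` (`Xq0`). For `a` with `a i = false` for `i < m` and `a m = true` put `Y_a = [s m] ... [s 1] [s 0] [s 1] ... [s m]` (in terms of `j ≤ m`: `Y_0 = [s 0]`, `Y_(j+1) = [s (j+1)] Y_j [s (j+1)]`, `Y_a = Y_m`), `S = ∑ a not good, Y_a E0 a`. The steps `[s j]`, `j = m, ..., 1` exchange the label `true` at `j` with the label `false` at `j - 1`, so `Tq0` with different labels: `[s j] [s j] E0 = |R j|⁻¹ • E0`; by induction on `j`: `Y_j E0 a = E0 a Y_j` if `a i = false` for `i < j`, `a j = true`, `Y_j Y_j E0 a = - c • E0 a` with `c = |R 0|⁻¹ * (∏ i ∈ [1, j], |R i|⁻¹) ^ 2`, and `st (Y_j E0 a) = - Y_j E0 a`: `st [s i] = [s i]` for `i > 0` (`s2o`), `st [s 0] = [s 0⁻¹] = [s 0] [(s 0 s 0)⁻¹]`, `th a ((s 0 s 0)⁻¹)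 = ze true = -1`. `|R i|` divides `|U|`, which is a power of the odd prime `pc` (`pU`), so `c` is a quotient of odd numbers, `padicValRat 2 c = 0`. The field is `ℚ`.
-/

namespace AO

noncomputable section

open Classical Equiv

open AN (sq)

namespace L10_aux

variable {G : Type} [Group G] [Finite G] {n : ℕ}

theorem isP (B : BN G n) : IsPGroup B.pc B.U := by
  intro u
  obtain ⟨m, hm⟩ := B.pU u u.2
  refine ⟨m, ?_⟩
  apply Subtype.ext
  rw [Subgroup.coe_pow, hm, Subgroup.coe_one]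

theorem cardU (B : BN G n) : Odd (Nat.card B.U) := by
  have : Fact B.pc.Prime := ⟨B.prime⟩
  obtain ⟨m, hm⟩ := IsPGroup.iff_card.1 (isP B)
  rw [hm]
  exact B.odd.pow

theorem card_ne' (H : Subgroup G) : (Nat.card H : ℚ) ≠ 0 := Nat.cast_ne_zero.2 Nat.card_pos.ne'

theorem cardR (B : BN G n) (i : Fin n) : Odd (Nat.card (B.R i)) :=
  (cardU B).of_dvd_nat (Subgroup.card_dvd_of_le (B.RU i))

theorem val_inv {m : ℕ} (hm : Odd m) : padicValRat 2 ((m : ℚ)⁻¹) = 0 := by
  rw [padicValRat.inv, padicValRat.of_nat, padicValNat.eq_zero_of_not_dvd, Nat.cast_zero, neg_zero]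
  intro h
  exact (Nat.not_even_iff_odd.2 hm) (even_iff_two_dvd.2 h)

theorem st_sum' {ι : Type} (s : Finset ι) (f : ι → LieP.Al ℚ G) :
    LieP.st (∑ i ∈ s, f i) = ∑ i ∈ s, LieP.st (f i) := by
  induction s using Finset.induction_on with
  | empty =>
    rw [Finset.sum_empty, Finset.sum_empty]
    have := LieP.st_smul (0 : ℚ) (0 : LieP.Al ℚ G)
    rwa [zero_smul, zero_smul] at this
  | insert a s ha ih => rw [Finset.sum_insert ha, Finset.sum_insert ha, LieP.st_add, ih]

/-- the element for one sequence of labels -/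
def El (B : BN G n) (a : Fin n → Bool) (Y : LieP.Al ℚ G) : Prop :=
  Y * B.E0 ℚ a = B.E0 ℚ a * Y ∧ (∃ c : ℚ, c ≠ 0 ∧ padicValRat 2 c = 0 ∧ Y * Y * B.E0 ℚ a = -(c • B.E0 ℚ a)) ∧
    LieP.st (Y * B.E0 ℚ a) = - (Y * B.E0 ℚ a) ∧ B.e ℚ * Y = Y

theorem exists_El (B : BN G n) (hg : B.gd = false) (j : ℕ) : ∀ (hj : j < n) (a : Fin n → Bool),
    (∀ i : Fin n, (i : ℕ) < j → a i = false) → a ⟨j, hj⟩ = true → ∃ Y, El B a Y := by
  obtain ⟨hz, hsu, _⟩ := B.ze2 hg
  induction j with
  | zero =>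
    intro hj a _ ha
    set i : Fin n := ⟨0, hj⟩ with hi
    have hc0 : (Nat.card (B.R i) : ℚ) ≠ 0 := card_ne' _
    refine ⟨B.b ℚ (B.s i), s0_E0 rfl a, ⟨(Nat.card (B.R i) : ℚ)⁻¹, inv_ne_zero hc0, val_inv (cardR B i), ?_⟩,
      ?_, (b_e _).1⟩
    · rw [Xq0 rfl a, ha, hz, hsu]
      simp
    · have hx : (B.s i * B.s i) ∈ B.T := B.s2 i
      have hx' : (B.s i * B.s i)⁻¹ ∈ B.T := B.T.inv_mem hx
      have e1 : (B.s i)⁻¹ = (B.s i * B.s i)⁻¹ * B.s i := by group
      have hl : LieP.Lin B.T (B.th a) := fun u hu v hv => B.thm a u hu v hv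
      have h1 : B.th a (B.s i * B.s i)⁻¹ = -1 := by
        rw [LieP.lin_inv hl hx, B.ez i rfl a, ha, hz]
      rw [LieP.st_mul, st_E0, b_st, e1, ← (b_xg hx' _).1, ← mul_assoc, (b_E0 hx' a).2, h1, smul_mul_assoc,
        ← s0_E0 rfl a]
      simp
  | succ j ih =>
    intro hj a ha0 ha
    set i : Fin n := ⟨j, by omega⟩ with hi
    set l : Fin n := ⟨j + 1, hj⟩ with hl
    have hil : (l : ℕ) = i + 1 := rfl
    have hne : i ≠ l := by
      intro h
      have := congrArg Fin.val h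
      simp [hi, hl] at this
    have hai : a i = false := ha0 i (by show j < j + 1; omega)
    set a' : Fin n → Bool := sq a i l with ha'
    have e_i : a' i = true := by
      show a (swap i l i) = true
      rw [swap_apply_left]
      exact ha
    have e_l : a' l = false := by
      show a (swap i l l) = false
      rw [swap_apply_right]
      exact hai
    have hsq : sq a' i l = a := by
      funext x
      show a (swap i l (swap i l x)) = a x
      rw [swap_apply_self]
    obtain ⟨Y, y1, ⟨c, c0, c1, y2⟩, y3, y4⟩ := ih (by omega) a' (by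
      intro x hx
      show a (swap i l x) = false
      rw [swap_apply_of_ne_of_ne]
      · exact ha0 x (by omega)
      · intro h
        rw [h] at hx
        simp [hi] at hx
      · intro h
        rw [h] at hx
        simp [hl] at hx) e_i
    set s := B.b ℚ (B.s l) with hs
    have q1 : s * B.E0 ℚ a = B.E0 ℚ a' * s := sl_E0 hil a
    have q2 : s * B.E0 ℚ a' = B.E0 ℚ a * s := by
      have := sl_E0 (k := ℚ) (B := B) hil a'
      rw [hsq] at this
      exact this
    have q3 : s * s * B.E0 ℚ a = (Nat.card (B.R l) : ℚ)⁻¹ • B.E0 ℚ a := by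
      rw [Tq0 hil a, if_neg (by rw [hai, ha]; decide), add_zero]
    have q4 : s * s * B.E0 ℚ a' = (Nat.card (B.R l) : ℚ)⁻¹ • B.E0 ℚ a' := by
      rw [Tq0 hil a', if_neg (by rw [e_i, e_l]; decide), add_zero]
    have q5 : LieP.st s = s := by
      have h2 : (B.s l)⁻¹ = B.s l := by
        rw [inv_eq_iff_mul_eq_one]
        exact B.s2o l (by show 0 < j + 1; omega)
      rw [hs, b_st, h2]
    have hr0 : (Nat.card (B.R l) : ℚ)⁻¹ ≠ 0 := inv_ne_zero (card_ne' _)
    set r : ℚ := (Nat.card (B.R l) : ℚ)⁻¹ with hr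
    -- the product with the idempotent
    have p1 : s * Y * s * B.E0 ℚ a = s * (Y * B.E0 ℚ a') * s := by
      rw [mul_assoc (s * Y), q1]
      simp only [mul_assoc]
    have p2 : s * (B.E0 ℚ a' * Y) * s = B.E0 ℚ a * (s * Y * s) := by
      rw [← mul_assoc, q2]
      simp only [mul_assoc]
    refine ⟨s * Y * s, ?_, ⟨c * (r * r), mul_ne_zero c0 (mul_ne_zero hr0 hr0), ?_, ?_⟩, ?_, ?_⟩
    · rw [p1, y1, p2]
    · rw [padicValRat.mul c0 (mul_ne_zero hr0 hr0), padicValRat.mul hr0 hr0, c1, hr, val_inv (cardR B l)]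
      simp
    · calc s * Y * s * (s * Y * s) * B.E0 ℚ a = s * Y * (s * s) * (Y * (s * B.E0 ℚ a)) := by
            simp only [mul_assoc]
        _ = s * Y * (s * s * (Y * B.E0 ℚ a')) * s := by
            rw [q1]
            simp only [mul_assoc]
        _ = s * Y * (s * s * B.E0 ℚ a' * Y) * s := by
            rw [y1]
            simp only [mul_assoc]
        _ = r • (s * (Y * (B.E0 ℚ a' * Y)) * s) := by
            rw [q4]
            simp only [smul_mul_assoc, mul_smul_comm, mul_assoc]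
        _ = r • (s * (Y * Y * B.E0 ℚ a') * s) := by
            rw [← y1]
            simp only [mul_assoc]
        _ = r • (-(c • (s * (B.E0 ℚ a' * s)))) := by
            rw [y2]
            simp only [smul_mul_assoc, mul_smul_comm, mul_assoc, mul_neg, neg_mul]
        _ = r • (-(c • (s * s * B.E0 ℚ a))) := by
            rw [← q1, mul_assoc]
        _ = -((c * (r * r)) • B.E0 ℚ a) := by
            rw [q3, smul_neg, smul_smul, smul_smul]
            congr 2
            ring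
    · rw [p1, LieP.st_mul, LieP.st_mul, q5, y3]
      simp only [mul_neg, neg_mul, mul_assoc]
    · rw [← mul_assoc, ← mul_assoc, hs, (b_e _).1]

end L10_aux

open L10_aux

theorem skew_el {G : Type} [Group G] [Finite G] {n : ℕ} (B : BN G n) (hg : B.gd = false) :
    ∃ S : LieP.Al ℚ G, LieP.st S = - S ∧ B.e ℚ * S = S ∧ S * B.e ℚ = S ∧
      ∀ a, ¬ B.good a → S * B.E0 ℚ a = B.E0 ℚ a * S ∧
        ∃ c : ℚ, c ≠ 0 ∧ padicValRat 2 c = 0 ∧ S * S * B.E0 ℚ a = -(c • B.E0 ℚ a) := by
  have hex : ∀ a : Fin n → Bool, ¬ B.good a → ∃ Y, El B a Y := by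
    intro a ha
    unfold BN.good at ha
    push Not at ha
    obtain ⟨_, k, hk⟩ := ha
    have hk' : ∃ m : ℕ, ∃ hm : m < n, a ⟨m, hm⟩ = true := ⟨k, k.2, by simpa using hk⟩
    obtain ⟨hm, hm1⟩ := Nat.find_spec hk'
    refine exists_El B hg (Nat.find hk') hm a ?_ hm1
    intro i hi
    by_contra hcon
    exact Nat.find_min hk' hi ⟨i.2, by simpa using hcon⟩
  choose! Y hY using hex
  set S : LieP.Al ℚ G := ∑ a ∈ Finset.univ.filter (fun a => ¬ B.good a), Y a * B.E0 ℚ a with hS
  have h1 : ∀ a, ¬ B.good a → S * B.E0 ℚ a = Y a * B.E0 ℚ a := by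
    intro a ha
    rw [hS, Finset.sum_mul, Finset.sum_eq_single a]
    · rw [mul_assoc, E0_mul, if_pos rfl]
    · intro b _ hb
      rw [mul_assoc, E0_mul, if_neg hb, mul_zero]
    · intro h
      exact absurd (Finset.mem_filter.2 ⟨Finset.mem_univ a, ha⟩) h
  have h2 : ∀ a, ¬ B.good a → B.E0 ℚ a * S = Y a * B.E0 ℚ a := by
    intro a ha
    rw [hS, Finset.mul_sum, Finset.sum_eq_single a]
    · rw [(hY a ha).1, ← mul_assoc, E0_mul, if_pos rfl]
    · intro b hb hba
      rw [(hY b (Finset.mem_filter.1 hb).2).1, ← mul_assoc, E0_mul, if_neg (Ne.symm hba), zero_mul]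
    · intro h
      exact absurd (Finset.mem_filter.2 ⟨Finset.mem_univ a, ha⟩) h
  refine ⟨S, ?_, ?_, ?_, ?_⟩
  · rw [hS, st_sum', ← Finset.sum_neg_distrib]
    apply Finset.sum_congr rfl
    intro a ha
    exact (hY a (Finset.mem_filter.1 ha).2).2.2.1
  · rw [hS, Finset.mul_sum]
    apply Finset.sum_congr rfl
    intro a ha
    rw [← mul_assoc, (hY a (Finset.mem_filter.1 ha).2).2.2.2]
  · rw [hS, Finset.sum_mul]
    apply Finset.sum_congr rfl
    intro a _
    rw [mul_assoc, (e_E0 a).2]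
  · intro a ha
    refine ⟨by rw [h1 a ha, h2 a ha], ?_⟩
    obtain ⟨c, c0, c1, hc⟩ := (hY a ha).2.1
    refine ⟨c, c0, c1, ?_⟩
    calc S * S * B.E0 ℚ a = S * (Y a * B.E0 ℚ a) := by rw [mul_assoc, h1 a ha]
      _ = S * B.E0 ℚ a * Y a := by rw [(hY a ha).1, mul_assoc]
      _ = Y a * (B.E0 ℚ a * Y a) := by rw [h1 a ha, mul_assoc]
      _ = Y a * Y a * B.E0 ℚ a := by rw [← (hY a ha).1, mul_assoc]
      _ = _ := hc

theorem card_U {G : Type} [Group G] [Finite G] {n : ℕ} (B : BN G n) : Odd (Nat.card B.U) :=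
  cardU B

theorem card_R {G : Type} [Group G] [Finite G] {n : ℕ} (B : BN G n) (i : Fin n) :
    Odd (Nat.card (B.R i)) :=
  cardR B i

theorem solv_U {G : Type} [Group G] [Finite G] {n : ℕ} (B : BN G n) : Group.IsSolvable B.U := by
  have : Fact B.pc.Prime := ⟨B.prime⟩
  have := (isP B).isNilpotent
  infer_instance

end

end AO
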