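import Pool.Agent.AO.W03
import Pool.Agent.AO.A02
import Pool.Agent.AO.L10

/-!
# MP_6c3636_al, AO, module W04: the nu-case: the skew element (helper7)

Let `O` be the finite set of the functions `g : G → ℤˣ`, `g = 1` outside of `T ⊓ H`, with `wt ρ g ≠ ⊥`; by `wtH_conj` (W01) all weights are of this form (conjugates of `f`, values `1`, `-1`) and `τ g = g ∘ conj nt⁻¹` is an involution of `O` without fixed points (`hν`). For `g ∈ O` put `π_g = |T ⊓ H|⁻¹ ∑ x ∈ T ⊓ H, g x • x`, a rational element acting on the range of `eH` as the projection on `wt ρ g`. `ε_g = g (nt nt)`, `ε_(τ g) = ε_g` (`nt nt` commutes with `nt`). Choose signs `d_g` with `d_(τ g) = - ε_g d_g` (possible: choose representatives of the pairs `{g, τ g}`). Let `D = ∑ d_g π_g` and let `s` be the function of the element `D [nt]` of the rational group algebra of `H` (`[nt] = e nt e`, `e` the average of `U`, the elements of `T ⊓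 H` commute with `e`); replace `D [nt]` by `½ (D [nt] - st (D [nt]))` to have a skew function: on `V` the adjoint of `D [nt]` is `[nt⁻¹] D`, `[nt⁻¹] = [nt] [(nt nt)⁻¹]`, and on `wt ρ g`: `D [nt] v = d_(τ g) [nt] v`, `[nt⁻¹] D v = d_g ε_g [nt] v = - d_(τ g) [nt] v`; so `D [nt]` acts as a skew operator and `s` acts as `D [nt]`. `T₀ T₀ v = d_(τ g) d_g [nt] [nt] v = - ε_g * |R|⁻¹ ε_g • v = - |R|⁻¹ • v` (`nt_sq`, W03). `|R|` is odd (`card_R`, L10), `c' = |R|⁻¹`. Conclusion: `good_unit` (A02) for the group `B.H`, the subgroup `B.U.subgroupOf B.H` (odd order, solvable: L10). The determinations of adjoints: all operators are combinations of the `ρ h`; the form `B'` is not needed for the construction: `st (D [nt])` acts as `[nt⁻¹] D`.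
-/

namespace AO

noncomputable section

open Classical Equiv

open AN (sq)


namespace W04_aux

section Abs

variable {Ω : Type} [Field Ω] [CharZero Ω] {H : Type} [Group H] [Finite H] {V : Type} [AddCommGroup V]
  [Module Ω V] (ρ : Representation Ω H V) (S U : Subgroup H) (ν : H)

theorem ev_av : ev ρ (LieP.av ℚ U) = eU U ρ := by
  rw [ev_act]
  unfold eU
  refine congrArg _ (funext fun g => ?_)
  rw [LieP.coeff_av]
  split_ifs
  · rw [map_inv₀, map_natCast]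
  · rw [map_zero]

theorem ev_dl (g : H) : ev ρ (LieP.dl g : LieP.Al ℚ H) = ρ g := by
  unfold LieP.dl
  rw [ev_single, map_one, one_smul]

theorem ev_el_self {l : H → ℤˣ} {v : V} (h : ∀ x ∈ S, ρ x v = (((l x : ℤˣ) : ℤ) : Ω) • v) :
    ev ρ (LieP.el ℚ S l) v = v := by
  rw [ev_act]
  unfold Parker.act
  let _ := Fintype.ofFinite H
  rw [LinearMap.sum_apply]
  have h1 : ∀ g : H, ((algebraMap ℚ Ω ((LieP.el ℚ S l).coeff g)) • ρ g) v =
      (if g ∈ S then (Nat.card S : Ω)⁻¹ else 0) • v := by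
    intro g
    rw [LinearMap.smul_apply, LieP.coeff_el]
    by_cases hg : g ∈ S
    · rw [if_pos hg, if_pos hg, h g hg, smul_smul, map_mul, map_inv₀, map_natCast, map_intCast, mul_assoc,
        LieP.A02_aux.unit_sq, mul_one]
    · rw [if_neg hg, if_neg hg, map_zero, zero_smul, zero_smul]
  rw [Finset.sum_congr rfl fun g _ => h1 g, ← Finset.sum_smul, LieP.A02_aux.sum_mem, mul_inv_cancel₀ (LieP.A02_aux.card_ne S),
    one_smul]

theorem ev_el_ne {l l' : H → ℤˣ} (hl' : LieP.Lin S l') (hne : ∃ x ∈ S, l x ≠ l' x) {v : V}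
    (h : ∀ x ∈ S, ρ x v = (((l x : ℤˣ) : ℤ) : Ω) • v) : ev ρ (LieP.el ℚ S l') v = 0 := by
  obtain ⟨x, hx, hne⟩ := hne
  have h1 := congrArg (fun y => ev ρ y v) (LieP.el_dl (k := ℚ) hl' hx)
  simp only [map_mul, ev_dl, Module.End.mul_apply, ev_smul, LinearMap.smul_apply, map_intCast] at h1
  rw [h x hx, map_smul] at h1
  have h2 : ((((l x : ℤˣ) : ℤ) : Ω) - (((l' x : ℤˣ) : ℤ) : Ω)) • ev ρ (LieP.el ℚ S l') v = 0 := by
    rw [sub_smul, h1, sub_self]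
  exact (smul_eq_zero.1 h2).resolve_left (LieP.A02_aux.unit_ne hne)

/-- the conjugate function -/
def tau (l : H → ℤˣ) : H → ℤˣ := fun x => l (ν⁻¹ * x * ν)

variable {S ν}

theorem tau_tau (hc : ∀ x ∈ S, ∀ y ∈ S, x * y = y * x) (h2 : ν * ν ∈ S) (hS : ∀ x, ν⁻¹ * x * ν ∈ S ↔ x ∈ S)
    {l : H → ℤˣ} (hl : l ∈ LieP.lins S) : tau ν (tau ν l) = l := by
  funext x
  show l (ν⁻¹ * (ν⁻¹ * x * ν) * ν) = l x
  by_cases hx : x ∈ S
  · have h3 := hc _ h2 x hx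
    have h4 : ν⁻¹ * (ν⁻¹ * x * ν) * ν = x := by
      have h5 : ν⁻¹ * (ν⁻¹ * x * ν) * ν = (ν * ν)⁻¹ * (x * (ν * ν)) := by group
      rw [h5, ← h3]
      group
    rw [h4]
  · have h3 : ν⁻¹ * (ν⁻¹ * x * ν) * ν ∉ S := fun h => hx ((hS x).1 ((hS _).1 h))
    rw [(LieP.mem_lins.1 hl).2 x hx, (LieP.mem_lins.1 hl).2 _ h3]

theorem tau_lins (hS : ∀ x, ν⁻¹ * x * ν ∈ S ↔ x ∈ S) {l : H → ℤˣ} (hl : l ∈ LieP.lins S) :
    tau ν l ∈ LieP.lins S := by
  obtain ⟨h1, h3⟩ := LieP.mem_lins.1 hl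
  rw [LieP.mem_lins]
  refine ⟨?_, fun x hx => h3 _ fun h => hx ((hS x).1 h)⟩
  intro x hx y hy
  show l (ν⁻¹ * (x * y) * ν) = l (ν⁻¹ * x * ν) * l (ν⁻¹ * y * ν)
  rw [← h1 _ ((hS x).2 hx) _ ((hS y).2 hy)]
  refine congrArg l ?_
  group

theorem exists_d (hc : ∀ x ∈ S, ∀ y ∈ S, x * y = y * x) (h2 : ν * ν ∈ S)
    (hS : ∀ x, ν⁻¹ * x * ν ∈ S ↔ x ∈ S) :
    ∃ d : (H → ℤˣ) → ℚ, ∀ l ∈ LieP.lins S, tau ν l ≠ l →
      d (tau ν l) = -((((l (ν * ν) : ℤˣ) : ℤ) : ℚ) * d l) ∧ d l * d l = 1 := by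
  obtain ⟨m, ⟨cd⟩⟩ := Finite.exists_equiv_fin (H → ℤˣ)
  refine ⟨fun l => if cd l < cd (tau ν l) then 1 else -(((l (ν * ν) : ℤˣ) : ℤ) : ℚ), ?_⟩
  intro l hl hne
  have h3 := tau_tau hc h2 hS hl
  have h4 : tau ν l (ν * ν) = l (ν * ν) := by
    show l (ν⁻¹ * (ν * ν) * ν) = l (ν * ν)
    refine congrArg l ?_
    group
  have h5 := LieP.A02_aux.unit_sq (k := ℚ) (l (ν * ν))
  simp only [h3, h4]
  have h6 : cd (tau ν l) ≠ cd l := fun h => hne (cd.injective h)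
  rcases lt_or_gt_of_ne h6 with h7 | h7
  · rw [if_pos h7, if_neg (asymm h7)]
    refine ⟨?_, ?_⟩
    · rw [mul_neg, neg_neg, h5]
    · rw [neg_mul_neg, h5]
  · rw [if_neg (asymm h7), if_pos h7]
    refine ⟨?_, ?_⟩
    · rw [mul_one]
    · rw [mul_one]

variable (S)

/-- the diagonal element -/
def DD (d : (H → ℤˣ) → ℚ) : LieP.Al ℚ H := ∑ l ∈ LieP.lins S, d l • LieP.el ℚ S l

variable (ν)

/-- the skew element -/
def YY (d : (H → ℤˣ) → ℚ) : LieP.Al ℚ H :=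
  (1 / 2 : ℚ) • (DD S d * (LieP.av ℚ U * LieP.dl ν * LieP.av ℚ U) -
    LieP.av ℚ U * LieP.dl ν⁻¹ * LieP.av ℚ U * DD S d)

variable {S ν}

theorem ev_D (d : (H → ℤˣ) → ℚ) {l : H → ℤˣ} (hl : l ∈ LieP.lins S) {v : V}
    (h : ∀ x ∈ S, ρ x v = (((l x : ℤˣ) : ℤ) : Ω) • v) : ev ρ (DD S d) v = (algebraMap ℚ Ω (d l)) • v := by
  unfold DD
  rw [map_sum, LinearMap.sum_apply, Finset.sum_eq_single l]
  · rw [ev_smul, LinearMap.smul_apply, ev_el_self ρ S h]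
  · intro l' hl' hne
    rw [ev_smul, LinearMap.smul_apply, ev_el_ne ρ S (LieP.mem_lins.1 hl').1 ?_ h, smul_zero]
    by_contra hcon
    push Not at hcon
    apply hne
    funext x
    by_cases hx : x ∈ S
    · exact (hcon x hx).symm
    · rw [(LieP.mem_lins.1 hl').2 x hx, (LieP.mem_lins.1 hl).2 x hx]
  · exact fun h => absurd hl h

theorem st_D (d : (H → ℤˣ) → ℚ) : LieP.st (DD S d) = DD S d := by
  have key : ∀ s : Finset (H → ℤˣ), (∀ l ∈ s, LieP.Lin S l) →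
      LieP.st (∑ l ∈ s, d l • LieP.el ℚ S l) = ∑ l ∈ s, d l • LieP.el ℚ S l := by
    intro s
    refine Finset.induction_on s ?_ ?_
    · intro _
      rw [Finset.sum_empty]
      refine LieP.al_ext fun g => ?_
      rw [LieP.coeff_st]
      rfl
    · intro l s hl ih hs
      rw [Finset.sum_insert hl, LieP.st_add, LieP.st_smul, LieP.st_el (hs l (Finset.mem_insert_self _ _)),
        ih fun l' hl' => hs l' (Finset.mem_insert_of_mem hl')]
  exact key _ fun l hl => (LieP.mem_lins.1 hl).1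

theorem st_neg (a : LieP.Al ℚ H) : LieP.st (-a) = -LieP.st a := by
  have h : -a = (-1 : ℚ) • a := by rw [neg_smul, one_smul]
  rw [h, LieP.st_smul, neg_smul, one_smul]

theorem st_Y (d : (H → ℤˣ) → ℚ) : LieP.st (YY S U ν d) = - YY S U ν d := by
  unfold YY
  rw [LieP.st_smul, sub_eq_add_neg, LieP.st_add, st_neg, LieP.st_mul, LieP.st_mul, LieP.st_mul, LieP.st_mul,
    LieP.st_mul, LieP.st_mul, st_D, LieP.st_av, LieP.st_dl, LieP.st_dl, inv_inv, ← smul_neg]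
  refine congrArg _ ?_
  rw [neg_add, neg_neg]
  simp only [mul_assoc]
  rw [add_comm]

theorem D_comm (hU : ∀ x ∈ S, ∀ u ∈ U, x * u * x⁻¹ ∈ U) (d : (H → ℤˣ) → ℚ) :
    DD S d * LieP.av ℚ U = LieP.av ℚ U * DD S d := by
  have h1 : DD S d ∈ LieP.sb ℚ S := by
    unfold DD
    exact Subalgebra.sum_mem _ fun l _ => Subalgebra.smul_mem _ (LieP.el_mem le_rfl l) _
  exact LieP.av_comm hU h1

theorem e_Y (hU : ∀ x ∈ S, ∀ u ∈ U, x * u * x⁻¹ ∈ U) (d : (H → ℤˣ) → ℚ) :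
    LieP.av ℚ U * YY S U ν d = YY S U ν d := by
  unfold YY
  rw [mul_smul_comm, mul_sub]
  have h0 := LieP.av_idem (k := ℚ) U
  have h1 : LieP.av ℚ U * (DD S d * (LieP.av ℚ U * LieP.dl ν * LieP.av ℚ U)) =
      DD S d * (LieP.av ℚ U * LieP.dl ν * LieP.av ℚ U) := by
    rw [← mul_assoc, ← D_comm U hU, mul_assoc, ← mul_assoc (LieP.av ℚ U), ← mul_assoc (LieP.av ℚ U), h0]
  have h2 : LieP.av ℚ U * (LieP.av ℚ U * LieP.dl ν⁻¹ * LieP.av ℚ U * DD S d) =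
      LieP.av ℚ U * LieP.dl ν⁻¹ * LieP.av ℚ U * DD S d := by
    rw [← mul_assoc, ← mul_assoc, ← mul_assoc, h0]
  rw [h1, h2]

theorem Y_e (hU : ∀ x ∈ S, ∀ u ∈ U, x * u * x⁻¹ ∈ U) (d : (H → ℤˣ) → ℚ) :
    YY S U ν d * LieP.av ℚ U = YY S U ν d := by
  have h1 := congrArg LieP.st (e_Y (ν := ν) U hU d)
  rw [LieP.st_mul, st_Y, LieP.st_av, neg_mul] at h1
  exact neg_inj.1 h1

/-- the action of `YY` on a weight vector -/
theorem ev_Y {d : (H → ℤˣ) → ℚ} (h2 : ν * ν ∈ S) {l : H → ℤˣ}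
    (hl : l ∈ LieP.lins S) (hS : ∀ x, ν⁻¹ * x * ν ∈ S ↔ x ∈ S)
    (hd : d (tau ν l) = -((((l (ν * ν) : ℤˣ) : ℤ) : ℚ) * d l)) {v : V} (hv : eU U ρ v = v)
    (h : ∀ x ∈ S, ρ x v = (((l x : ℤˣ) : ℤ) : Ω) • v)
    (h' : ∀ x ∈ S, ρ x (eU U ρ (ρ ν v)) = (((tau ν l x : ℤˣ) : ℤ) : Ω) • eU U ρ (ρ ν v)) :
    ev ρ (YY S U ν d) v = (algebraMap ℚ Ω (d (tau ν l))) • eU U ρ (ρ ν v) := by
  unfold YY
  rw [ev_smul, map_sub, map_mul, map_mul, map_mul, map_mul, map_mul, map_mul, ev_av, ev_dl, ev_dl,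
    LinearMap.smul_apply, LinearMap.sub_apply, Module.End.mul_apply, Module.End.mul_apply, Module.End.mul_apply,
    Module.End.mul_apply, Module.End.mul_apply, Module.End.mul_apply, ev_D ρ d hl h, map_smul, hv, map_smul,
    map_smul, ev_D ρ d (tau_lins hS hl) h']
  have h3 : ρ ν⁻¹ v = (((l (ν * ν) : ℤˣ) : ℤ) : Ω) • ρ ν v := by
    have h4 : ν⁻¹ = ν * (ν * ν)⁻¹ := by group
    rw [h4, map_mul, Module.End.mul_apply, h _ (S.inv_mem h2), map_smul,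
      LieP.lin_inv (LieP.mem_lins.1 hl).1 h2]
  rw [h3, map_smul, smul_smul, hd, ← sub_smul, smul_smul]
  refine congrArg (fun r : Ω => r • eU U ρ (ρ ν v)) ?_
  rw [map_neg, map_mul, map_intCast, map_div₀, map_one, map_ofNat]
  ring

end Abs

end W04_aux

variable {Ω : Type} [Field Ω] [IsAlgClosed Ω] [CharZero Ω] {c : Parker.Ctx Ω}
  {Γ : Subgroup (RingAut Ω)} {G : Type} [Group G] [Finite G] {n : ℕ} {B : BN G n}
  {V : Type} [AddCommGroup V] [Module Ω V] [FiniteDimensional Ω V] {ρ : Representation Ω B.H V}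

open W04_aux in
theorem nu_good (hΓ : Parker.Ok c 1 Γ) (hρ : ρ.IsIrreducible) (hO : Parker.Orth ρ)
    (hF : Parker.FxC Γ ρ) (hn : 0 < n) {f : G → ℤˣ}
    (h : B.wt ρ (fun x => (((f x : ℤˣ) : ℤ) : Ω)) ≠ ⊥)
    (hν : ∀ m ∈ B.N, m ∈ B.H → ∃ x ∈ B.T ⊓ B.H,
      f (m⁻¹ * (B.nt⁻¹ * x * B.nt) * m) ≠ f (m⁻¹ * x * m)) : Parker.GoodV c Γ ρ := by
  obtain ⟨B', hB'⟩ := hO
  obtain ⟨i, hi⟩ : ∃ i : Fin n, (i : ℕ) = 0 := ⟨⟨0, hn⟩, rfl⟩
  have hN : B.nt ∈ B.N := by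
    obtain ⟨x, hx, h1⟩ := B.ntN i hi
    rw [h1]
    exact Subgroup.mul_mem _ (Subgroup.subset_closure (Or.inl ⟨i, rfl⟩)) (Subgroup.subset_closure (Or.inr hx))
  obtain ⟨S, hSd⟩ : ∃ S : Subgroup B.H, S = B.T.subgroupOf B.H := ⟨_, rfl⟩
  obtain ⟨U, hUd⟩ : ∃ U : Subgroup B.H, U = B.U.subgroupOf B.H := ⟨_, rfl⟩
  obtain ⟨ν, hνd⟩ : ∃ ν : B.H, ν = ⟨B.nt, B.ntH⟩ := ⟨_, rfl⟩
  have hνc : (ν : G) = B.nt := by rw [hνd]
  have memS : ∀ x : B.H, x ∈ S ↔ (x : G) ∈ B.T := by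
    intro x
    rw [hSd, Subgroup.mem_subgroupOf]
  have memU : ∀ x : B.H, x ∈ U ↔ (x : G) ∈ B.U := by
    intro x
    rw [hUd, Subgroup.mem_subgroupOf]
  have eHd : B.eH ρ = eU U ρ := by
    rw [hUd]
    rfl
  have hc : ∀ x ∈ S, ∀ y ∈ S, x * y = y * x := by
    intro x hx y hy
    exact Subtype.ext (B.Tc x ((memS x).1 hx) y ((memS y).1 hy))
  have h2 : ν * ν ∈ S := by
    rw [memS, Subgroup.coe_mul, hνc]
    exact (nt_T hn).1
  have hconj : ∀ x : G, B.nt⁻¹ * x * B.nt ∈ B.T ↔ x ∈ B.T := by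
    intro x
    have h3 := N_T (B := B) (B.N.inv_mem hN) (x := x)
    rwa [inv_inv] at h3
  have hS : ∀ x, ν⁻¹ * x * ν ∈ S ↔ x ∈ S := by
    intro x
    rw [memS, memS, Subgroup.coe_mul, Subgroup.coe_mul, Subgroup.coe_inv, hνc]
    exact hconj x
  have hSU : ∀ x ∈ S, ∀ u ∈ U, x * u * x⁻¹ ∈ U := by
    intro x hx u hu
    rw [memU, Subgroup.coe_mul, Subgroup.coe_mul, Subgroup.coe_inv]
    exact B.TU x ((memS x).1 hx) u ((memU u).1 hu)
  obtain ⟨d, hd⟩ := exists_d hc h2 hS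
  obtain ⟨Y, hY⟩ : ∃ Y : LieP.Al ℚ B.H, Y = YY S U ν d := ⟨_, rfl⟩
  have hact : Parker.act ρ (fun g => ((Y.coeff g : ℚ) : Ω)) = ev ρ Y := by
    rw [ev_act]
    refine congrArg _ (funext fun g => ?_)
    rw [eq_ratCast]
  have hc' : ((Nat.card (B.R i) : ℚ))⁻¹ ≠ 0 := inv_ne_zero (Nat.cast_ne_zero.2 Nat.card_pos.ne')
  -- the square on the range of the projection
  have hcore : LinearMap.range (B.eH ρ) ≤
      LinearMap.ker (ev ρ Y * ev ρ Y + (algebraMap ℚ Ω ((Nat.card (B.R i) : ℚ))⁻¹) • 1) := by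
    refine wtH_sup fun g v hv => ?_
    by_cases hg : B.wt ρ g = ⊥
    · rw [hg, Submodule.mem_bot] at hv
      rw [hv]
      exact Submodule.zero_mem _
    obtain ⟨m, hm, hmH, hm2⟩ := wtH_conj hρ h hg
    obtain ⟨g', hg'⟩ : ∃ g' : G → ℤˣ, g' = fun x => f (m⁻¹ * x * m) := ⟨_, rfl⟩
    have hgg : ∀ x ∈ B.T ⊓ B.H, g x = (((g' x : ℤˣ) : ℤ) : Ω) := by
      intro x hx
      rw [hm2 x hx, hg']
    obtain ⟨l, hld⟩ : ∃ l : B.H → ℤˣ, l = fun x => if x ∈ S then g' x else 1 := ⟨_, rfl⟩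
    have hl1 : ∀ x ∈ S, l x = g' x := by
      intro x hx
      rw [hld]
      show (if x ∈ S then g' x else 1) = g' x
      rw [if_pos hx]
    have hxT : ∀ x ∈ S, (x : G) ∈ B.T ⊓ B.H := fun x hx => ⟨(memS x).1 hx, x.2⟩
    have hl : l ∈ LieP.lins S := by
      rw [LieP.mem_lins]
      refine ⟨?_, ?_⟩
      · intro x hx y hy
        rw [hl1 x hx, hl1 y hy, hl1 _ (S.mul_mem hx hy)]
        have h3 := (wtH_mult hg).1 x (hxT x hx) y (hxT y hy)
        rw [hgg _ (hxT x hx), hgg _ (hxT y hy), ← Subgroup.coe_mul, hgg _ (hxT _ (S.mul_mem hx hy))] at h3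
        have h4 : (((g' ((x * y : B.H) : G) : ℤˣ) : ℤ)) = ((g' x : ℤˣ) : ℤ) * ((g' y : ℤˣ) : ℤ) := by
          exact_mod_cast h3
        rw [← Units.val_mul] at h4
        exact Units.ext h4
      · intro x hx
        rw [hld]
        show (if x ∈ S then g' x else 1) = 1
        rw [if_neg hx]
    have hne : ∃ x ∈ B.T ⊓ B.H, g' (B.nt⁻¹ * x * B.nt) ≠ g' x := by
      obtain ⟨x, hx, h3⟩ := hν m hm hmH
      refine ⟨x, hx, ?_⟩
      rw [hg']
      exact h3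
    have hcT : ∀ x ∈ B.T ⊓ B.H, B.nt⁻¹ * x * B.nt ∈ B.T ⊓ B.H := by
      intro x hx
      refine ⟨(hconj x).2 hx.1, ?_⟩
      exact B.H.mul_mem (B.H.mul_mem (B.H.inv_mem B.ntH) hx.2) B.ntH
    have htau : ∀ x ∈ S, tau ν l x = g' (B.nt⁻¹ * x * B.nt) := by
      intro x hx
      show l (ν⁻¹ * x * ν) = _
      rw [hl1 _ ((hS x).2 hx), Subgroup.coe_mul, Subgroup.coe_mul, Subgroup.coe_inv, hνc]
    have htne : tau ν l ≠ l := by
      obtain ⟨x, hx, h3⟩ := hne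
      intro h4
      have hxS : (⟨x, hx.2⟩ : B.H) ∈ S := (memS _).2 hx.1
      have h5 := congrFun h4 ⟨x, hx.2⟩
      rw [htau _ hxS, hl1 _ hxS] at h5
      exact h3 h5
    have htt := tau_tau hc h2 hS hl
    have htne' : tau ν (tau ν l) ≠ tau ν l := by
      rw [htt]
      exact htne.symm
    -- the vectors
    have hvE : eU U ρ v = v := by
      rw [← eHd]
      exact hv.1
    have hvw : ∀ x ∈ S, ρ x v = (((l x : ℤˣ) : ℤ) : Ω) • v := by
      intro x hx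
      have h3 := hv.2 x x.2 ((memS x).1 hx)
      rw [hgg _ (hxT x hx), ← hl1 x hx] at h3
      exact h3
    have hνρ : ρ ⟨B.nt, B.ntH⟩ = ρ ν := by rw [hνd]
    have hwE : eU U ρ (eU U ρ (ρ ν v)) = eU U ρ (ρ ν v) := by
      have h3 := (wtH_N (ρ := ρ) hN B.ntH hv).1
      rw [hνρ, eHd] at h3
      exact h3
    have hww : ∀ x ∈ S, ρ x (eU U ρ (ρ ν v)) = (((tau ν l x : ℤˣ) : ℤ) : Ω) • eU U ρ (ρ ν v) := by
      intro x hx
      have h3 := (wtH_N (ρ := ρ) hN B.ntH hv).2 x x.2 ((memS x).1 hx)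
      rw [hνρ, eHd] at h3
      simp only at h3
      rw [hgg _ (hcT _ (hxT x hx)), ← htau x hx] at h3
      exact h3
    have hsq := nt_sq (ρ := ρ) hv (by
      obtain ⟨x, hx, h3⟩ := hne
      refine ⟨x, hx, ?_⟩
      rw [hgg _ hx, hgg _ (hcT x hx)]
      intro h4
      apply h3
      exact Units.ext (by exact_mod_cast h4)) hi
    rw [eHd, hνρ, hgg _ (nt_T hn)] at hsq
    have hεl : l (ν * ν) = g' (B.nt * B.nt) := by
      rw [hl1 _ h2, Subgroup.coe_mul, hνc]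
    rw [← hεl] at hsq
    have hY1 := ev_Y ρ U h2 hl hS (hd l hl htne).1 hvE hvw hww
    have hww' : ∀ x ∈ S, ρ x (eU U ρ (ρ ν (eU U ρ (ρ ν v)))) =
        (((tau ν (tau ν l) x : ℤˣ) : ℤ) : Ω) • eU U ρ (ρ ν (eU U ρ (ρ ν v))) := by
      intro x hx
      rw [htt, hsq, map_smul, hvw x hx, smul_comm]
    have hY2 := ev_Y ρ U h2 (tau_lins hS hl) hS (hd _ (tau_lins hS hl) htne').1 hwE hww hww'
    rw [LinearMap.mem_ker, LinearMap.add_apply, Module.End.mul_apply, hY, hY1, map_smul, hY2, htt, hsq,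
      LinearMap.smul_apply, Module.End.one_apply, smul_smul, smul_smul, ← add_smul]
    have h6 : algebraMap ℚ Ω (d (tau ν l)) * (algebraMap ℚ Ω (d l) *
        ((Nat.card (B.R i) : Ω)⁻¹ * (((l (ν * ν) : ℤˣ) : ℤ) : Ω))) +
        algebraMap ℚ Ω ((Nat.card (B.R i) : ℚ))⁻¹ = 0 := by
      have h7 := (hd l hl htne).2
      have h8 := LieP.A02_aux.unit_sq (k := Ω) (l (ν * ν))
      have h9 := congrArg (algebraMap ℚ Ω) h7
      rw [map_mul, map_one] at h9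
      rw [(hd l hl htne).1, map_neg, map_mul, map_intCast, map_inv₀, map_natCast]
      linear_combination (-(Nat.card (B.R i) : Ω)⁻¹ * (algebraMap ℚ Ω (d l) * algebraMap ℚ Ω (d l))) * h8 -
        (Nat.card (B.R i) : Ω)⁻¹ * h9
    simp only [mul_assoc] at h6 ⊢
    rw [h6, zero_smul]
  have hodd : Odd (Nat.card U) := by
    rw [hUd, Nat.card_congr (Subgroup.subgroupOfEquivOfLe B.UH).toEquiv]
    exact card_U B
  have hsolv : Group.IsSolvable U := by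
    have h3 := solv_U B
    rw [hUd]
    exact Group.isSolvable_of_surjective (f := (Subgroup.subgroupOfEquivOfLe B.UH).symm.toMonoidHom)
      (Subgroup.subgroupOfEquivOfLe B.UH).symm.surjective
  refine good_unit (s := fun g => Y.coeff g) hΓ hF hB' hodd hsolv ?_ ?_ ?_ hc' ?_ ?_
  · intro g
    have h3 := congrArg (fun a : LieP.Al ℚ B.H => a.coeff g) (st_Y (S := S) (ν := ν) U d)
    simp only [← hY] at h3
    rw [LieP.coeff_st] at h3
    exact h3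
  · rw [hact, hY, ← ev_av ρ U, ← map_mul, e_Y U hSU]
  · rw [hact, hY, ← ev_av ρ U, ← map_mul, Y_e U hSU]
  · rw [padicValRat.inv, padicValRat.of_nat, padicValNat.eq_zero_of_not_dvd]
    · rfl
    · intro h3
      have h4 := card_R B i
      rw [← Nat.not_even_iff_odd] at h4
      exact h4 (even_iff_two_dvd.2 h3)
  · rw [hact]
    have hYE : ev ρ Y * eU U ρ = ev ρ Y := by
      rw [hY, ← ev_av ρ U, ← map_mul, Y_e U hSU]
    refine LinearMap.ext fun v => ?_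
    have h3 : eU U ρ v ∈ LinearMap.range (B.eH ρ) := ⟨v, by rw [eHd]⟩
    have h4 := hcore h3
    rw [LinearMap.mem_ker, LinearMap.add_apply, Module.End.mul_apply, LinearMap.smul_apply, Module.End.one_apply,
      ← Module.End.mul_apply (ev ρ Y) (eU U ρ), hYE] at h4
    rw [Module.End.mul_apply, LinearMap.neg_apply, LinearMap.smul_apply, eq_neg_iff_add_eq_zero]
    rw [eq_ratCast] at h4
    exact h4

end

end AO
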