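import Pool.Agent.AO.S02

/-!
# MP_6c3636_al, AO, module S04: the norms (helper7)

`nu_pos`: let `z = P.zr x y`, `Q = P.Qr > 1`. If the labels are different: `Q⁻¹ > 0`. If the labels are equal and the types different: `sg x.1 * sg y.1 = -1` (the types with a given label are `yp b`, `yn b`), so `z < 0` and `(z - Q) (z - Q⁻¹) > 0`. If the types are equal: `z = Q ^ (y.2 - x.2)`, `y.2 - x.2 ≥ 2`, so `z > Q > Q⁻¹`. `nm_sqT`: as `AN.nm_sq` (AN/C04.lean): reindex the double product by `swap k l` on both indices: for a pair `{i, j}` different from `{k, l}` the order of `swap k l i` and `swap k l j` is the order of `i` and `j`; the factor of the pair `(k, l)` is `P.nu (β l) (β k)` for `β` and `1` for `sq β k l` (not `Be (β k) (β l)` as `Be (β l) (β k)`). `nm_posT`: all factors are positive.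
-/

namespace AO

noncomputable section

open Classical Equiv

open AN (sq)

variable {K : Type} [Field K] {P : Par K} {n : ℕ}

namespace S04_aux

theorem swap_lt {k l : Fin n} (hl : (l : ℕ) = k + 1) {i j : Fin n}
    (h1 : ¬ (i = k ∧ j = l)) (h2 : ¬ (i = l ∧ j = k)) : swap k l i < swap k l j ↔ i < j := by
  by_cases hik : i = k
  · subst hik
    rw [swap_apply_left]
    by_cases hji : j = i
    · subst hji
      rw [swap_apply_left]
      simp
    · have hjl : j ≠ l := fun h => h1 ⟨rfl, h⟩
      rw [swap_apply_of_ne_of_ne hji hjl]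
      have a1 : (j : ℕ) ≠ (i : ℕ) := fun h => hji (Fin.ext h)
      have a2 : (j : ℕ) ≠ (l : ℕ) := fun h => hjl (Fin.ext h)
      rw [Fin.lt_def, Fin.lt_def]
      omega
  · by_cases hil : i = l
    · subst hil
      rw [swap_apply_right]
      by_cases hji : j = i
      · subst hji
        rw [swap_apply_right]
        simp
      · have hjk : j ≠ k := fun h => h2 ⟨rfl, h⟩
        rw [swap_apply_of_ne_of_ne hjk hji]
        have a1 : (j : ℕ) ≠ (i : ℕ) := fun h => hji (Fin.ext h)
        have a2 : (j : ℕ) ≠ (k : ℕ) := fun h => hjk (Fin.ext h)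
        rw [Fin.lt_def, Fin.lt_def]
        omega
    · rw [swap_apply_of_ne_of_ne hik hil]
      have a1 : (i : ℕ) ≠ (k : ℕ) := fun h => hik (Fin.ext h)
      have a2 : (i : ℕ) ≠ (l : ℕ) := fun h => hil (Fin.ext h)
      by_cases hjk : j = k
      · subst hjk
        rw [swap_apply_left, Fin.lt_def, Fin.lt_def]
        omega
      · by_cases hjl : j = l
        · subst hjl
          rw [swap_apply_right, Fin.lt_def, Fin.lt_def]
          omega
        · rw [swap_apply_of_ne_of_ne hjk hjl]

theorem prod_sq {X : Type} (R : X → X → Prop) (f : X → X → ℚ) (β : Fin n → X) {k l : Fin n}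
    (hl : (l : ℕ) = k + 1) (h : R (β l) (β k)) (h' : ¬ R (β k) (β l)) :
    (∏ i : Fin n, ∏ j : Fin n, if i < j ∧ R (β j) (β i) then f (β j) (β i) else 1) =
      f (β l) (β k) * ∏ i : Fin n, ∏ j : Fin n,
        if i < j ∧ R (sq β k l j) (sq β k l i) then f (sq β k l j) (sq β k l i) else 1 := by
  have hkl : k < l := by
    rw [Fin.lt_def]
    omega
  have hre : (∏ i : Fin n, ∏ j : Fin n,
        if i < j ∧ R (sq β k l j) (sq β k l i) then f (sq β k l j) (sq β k l i) else 1) =
      ∏ i : Fin n, ∏ j : Fin n,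
        if swap k l i < swap k l j ∧ R (β j) (β i) then f (β j) (β i) else 1 := by
    unfold AN.sq
    rw [← Equiv.prod_comp (swap k l)]
    refine Finset.prod_congr rfl fun i _ => ?_
    rw [← Equiv.prod_comp (swap k l)]
    refine Finset.prod_congr rfl fun j _ => ?_
    simp only [swap_apply_self]
  have hfac : ∀ i j : Fin n,
      (if i < j ∧ R (β j) (β i) then f (β j) (β i) else 1) =
      (if i = k then (if j = l then f (β l) (β k) else 1) else 1) *
      (if swap k l i < swap k l j ∧ R (β j) (β i) then f (β j) (β i) else 1) := by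
    intro i j
    by_cases h1 : i = k ∧ j = l
    · obtain ⟨rfl, rfl⟩ := h1
      rw [if_pos ⟨hkl, h⟩, if_pos rfl, if_pos rfl, swap_apply_left, swap_apply_right,
        if_neg (fun h3 => absurd h3.1 (not_lt.2 hkl.le)), mul_one]
    · have e1 : (if i = k then (if j = l then f (β l) (β k) else 1) else (1 : ℚ)) = 1 := by
        by_cases hi : i = k
        · rw [if_pos hi, if_neg (fun hj => h1 ⟨hi, hj⟩)]
        · rw [if_neg hi]
      rw [e1, one_mul]
      by_cases h2 : i = l ∧ j = k
      · obtain ⟨rfl, rfl⟩ := h2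
        rw [if_neg (fun h3 => absurd h3.1 (not_lt.2 hkl.le)), if_neg (fun h3 => h' h3.2)]
      · simp only [swap_lt hl h1 h2]
  rw [hre]
  have h3 : ∀ i : Fin n, (∏ j : Fin n,
      if i < j ∧ R (β j) (β i) then f (β j) (β i) else 1) =
      (if i = k then f (β l) (β k) else 1) * ∏ j : Fin n,
      (if swap k l i < swap k l j ∧ R (β j) (β i) then f (β j) (β i) else 1) := by
    intro i
    rw [Finset.prod_congr rfl fun j _ => hfac i j, Finset.prod_mul_distrib]
    congr 1
    by_cases hi : i = k
    · simp only [if_pos hi]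
      rw [Finset.prod_ite_eq' Finset.univ l (fun _ => f (β l) (β k)),
        if_pos (Finset.mem_univ l)]
    · simp only [if_neg hi]
      exact Finset.prod_const_one
  rw [Finset.prod_congr rfl fun i _ => h3 i, Finset.prod_mul_distrib,
    Finset.prod_ite_eq' Finset.univ k (fun _ => f (β l) (β k)), if_pos (Finset.mem_univ k)]

theorem Be_asymm {x y : Et} (h : Be x y) : ¬ Be y x := by
  rintro (h1 | ⟨h1, h2⟩)
  · rcases h with h | ⟨h, _⟩
    · exact lt_asymm h h1
    · exact absurd h1 (by rw [h]; exact lt_irrefl _)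
  · rcases h with h | ⟨_, h3⟩
    · exact absurd h (by rw [h1]; exact lt_irrefl _)
    · omega

theorem sg_mul {x y : Ty} (h : x < y) (hb : lb x = lb y) : sg x * sg y = -1 := by
  revert x y
  decide

theorem sg_self (x : Ty) : sg x * sg x = 1 := by
  revert x
  decide

end S04_aux

open S04_aux

theorem nu_pos {x y : Et} (h : Be x y) : 0 < P.nu x y := by
  have hq3 : (3 : ℚ) ≤ (P.q : ℚ) := by exact_mod_cast P.three
  have hq0 : (0 : ℚ) < (P.q : ℚ) := by linarith
  have hq1 : (1 : ℚ) < (P.q : ℚ) := by linarith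
  have hQ1 : (1 : ℚ) < P.Qr := one_lt_pow₀ hq1 P.pos.ne'
  have hQ0 : (0 : ℚ) < P.Qr := by linarith
  have hQi : (0 : ℚ) < P.Qr⁻¹ := inv_pos.2 hQ0
  have hQi1 : P.Qr⁻¹ < 1 := inv_lt_one_of_one_lt₀ hQ1
  unfold Par.nu
  by_cases hb : lb x.1 = lb y.1
  · rw [if_pos hb]
    have key : 0 < (P.zr x y - P.Qr) * (P.zr x y - P.Qr⁻¹) ∧ P.zr x y ≠ 1 := by
      rcases h with h | ⟨h, h2⟩
      · have hz : P.zr x y < 0 := by
          unfold Par.zr
          rw [sg_mul h hb]
          have : (0 : ℚ) < (P.q : ℚ) ^ (P.j y.1 - P.j x.1 + P.e * (y.2 - x.2)) :=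
            zpow_pos hq0 _
          push_cast
          linarith
        refine ⟨mul_pos_of_neg_of_neg (by linarith) (by linarith), by linarith⟩
      · have hz : P.Qr < P.zr x y := by
          unfold Par.zr Par.Qr
          rw [h, sg_self, sub_self, zero_add, Int.cast_one, one_mul, ← zpow_natCast]
          apply (zpow_lt_zpow_iff_right₀ hq1).2
          have he : (0 : ℤ) < (P.e : ℤ) := by exact_mod_cast P.pos
          nlinarith
        refine ⟨mul_pos (by linarith) (by linarith), by linarith⟩
    have h1 : 0 < (P.zr x y - 1) ^ 2 := by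
      have : P.zr x y - 1 ≠ 0 := sub_ne_zero.2 key.2
      positivity
    exact div_pos key.1 (mul_pos hQ0 h1)
  · rw [if_neg hb]
    exact hQi

theorem nm_sqT {β : Fin n → Et} {k l : Fin n} (hl : (l : ℕ) = k + 1) (h : Be (β l) (β k)) :
    P.nm β = P.nu (β l) (β k) * P.nm (sq β k l) := by
  unfold Par.nm
  exact prod_sq Be P.nu β hl h (Be_asymm h)

theorem nm_posT (β : Fin n → Et) : 0 < P.nm β := by
  unfold Par.nm
  refine Finset.prod_pos fun i _ => Finset.prod_pos fun j _ => ?_
  by_cases h : i < j ∧ Be (β j) (β i)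
  · rw [if_pos h]
    exact nu_pos h.2
  · rw [if_neg h]
    exact one_pos

theorem nmT_pos (β : Fin n → Et) : 0 < nmT β := by
  unfold nmT
  refine Finset.prod_pos fun i _ => Finset.prod_pos fun j _ => ?_
  by_cases h : i < j ∧ (β j).1 = (β i).1 ∧ (β j).2 + 2 ≤ (β i).2
  · rw [if_pos h]
    have h1 : (2 : ℚ) ≤ (((β i).2 - (β j).2 : ℤ) : ℚ) := by
      have h2 : (2 : ℤ) ≤ (β i).2 - (β j).2 := by
        have := h.2.2
        omega
      exact_mod_cast h2
    have h2 : (1 : ℚ) < (((β i).2 - (β j).2 : ℤ) : ℚ) ^ 2 := by nlinarith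
    have h3 : 1 / (((β i).2 - (β j).2 : ℤ) : ℚ) ^ 2 < 1 := by
      rw [div_lt_one (by linarith)]
      exact h2
    linarith
  · rw [if_neg h]
    exact one_pos

end

end AO
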