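import Pool.Agent.AO.K09
import Pool.Agent.AO.S04

/-!
# MP_6c3636_al, AO, module K11: invariant forms (helper7)

As AN/J11.lean. `SN.orth`: all `J i` are self adjoint for `B` (induction, `J0`, `Js`). If `β ≠ γ`: if the labels of `β`, `γ` are different then `E a (v β) = v β`, `E a (v γ) = 0` for the labels `a` of `β`; otherwise `P.x (β i) ≠ P.x (γ i)` for some `i` (`x_ne`, K07). `SN.norm`: by `desc_inductT` (S03): it is enough to compare `β` with `γ = sq β k l` for a descent `Be (β l) (β k)`, `l = k + 1`: `B (v β) (v β) = nu * B (v γ) (v γ)`, `nu = P.nu (β l) (β k)`: `v β = T (v γ) - al • v γ` (`up`), `B (v β) (v γ) = 0`, so `B (v β) (v β) = B (v β) (T (v γ)) = B (T (v β)) (v γ) = nu * B (v γ) (v γ)` (`SN.dn`); and `P.nm β = nu * P.nm γ` (`nm_sqT`, S04).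
-/

namespace AO

noncomputable section

open Classical Equiv

open AN (sq)

variable {K : Type} [Field K] [CharZero K] {V : Type} [AddCommGroup V] [Module K V] {P : Par K} {n : ℕ}
  {D : HA P n (Module.End K V)}

/-- the operators are self adjoint for `B` -/
structure SAB (D : HA P n (Module.End K V)) (B : LinearMap.BilinForm K V) : Prop where
  E : ∀ a, Parker.SelfAdj B (D.E a)
  T : ∀ i, Parker.SelfAdj B (D.T i)
  X : Parker.SelfAdj B D.X

private theorem K11_mul {B : LinearMap.BilinForm K V} {S T : Module.End K V} (hS : Parker.SelfAdj B S)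
    (hT : Parker.SelfAdj B T) : Parker.SelfAdj B (T * S * T) := by
  intro x y
  rw [Module.End.mul_apply, Module.End.mul_apply, Module.End.mul_apply, Module.End.mul_apply, hT, hS, hT]

private theorem K11_tn {B : LinearMap.BilinForm K V} (hB : SAB D B) (m : ℕ) : Parker.SelfAdj B (D.tn m) := by
  unfold HA.tn
  split_ifs with h
  · exact hB.T _
  · intro x y
    rw [LinearMap.zero_apply, LinearMap.zero_apply, map_zero, map_zero, LinearMap.zero_apply]

private theorem K11_jn {B : LinearMap.BilinForm K V} (hB : SAB D B) (m : ℕ) : Parker.SelfAdj B (D.jn m) := by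
  induction m with
  | zero => exact hB.X
  | succ m ih =>
    intro x y
    show B ((P.Q • (D.tn m * D.jn m * D.tn m)) x) y = B x ((P.Q • (D.tn m * D.jn m * D.tn m)) y)
    rw [LinearMap.smul_apply, LinearMap.smul_apply, map_smul, map_smul, LinearMap.smul_apply,
      K11_mul ih (K11_tn hB m) x y]

theorem SN.orth {F : AO.Et → ℤ} {v : (Fin n → AO.Et) → V} (h : SN D F v)
    {B : LinearMap.BilinForm K V} (hB : SAB D B) {β γ : Fin n → AO.Et}
    (hβ : β ∈ SqT n F) (hγ : γ ∈ SqT n F) (hne : β ≠ γ) : B (v β) (v γ) = 0 := by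
  by_cases hl : ∀ k, lb (β k).1 = lb (γ k).1
  · obtain ⟨k, hk⟩ := Function.ne_iff.1 hne
    have h1 := K11_jn hB k (v β) (v γ)
    have h2 : D.jn k (v β) = P.x (β k) • v β := (h.wt β hβ).2 k
    have h3 : D.jn k (v γ) = P.x (γ k) • v γ := (h.wt γ hγ).2 k
    rw [h2, h3, map_smul, map_smul, LinearMap.smul_apply, smul_eq_mul, smul_eq_mul] at h1
    have h4 : (P.x (β k) - P.x (γ k)) * B (v β) (v γ) = 0 := by
      rw [sub_mul, h1, sub_self]
    rcases mul_eq_zero.1 h4 with h5 | h5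
    · exact absurd (sub_eq_zero.1 h5) (x_ne (hl k) hk)
    · exact h5
  · have h1 := hB.E (fun k => lb (β k).1) (v β) (v γ)
    rw [h.E hβ, h.E hγ, if_pos (fun _ => rfl), if_neg hl, map_zero] at h1
    exact h1

private theorem K11_step {F : AO.Et → ℤ} {v : (Fin n → AO.Et) → V} (h : SN D F v)
    {B : LinearMap.BilinForm K V} (hB : SAB D B) {β : Fin n → AO.Et} (hβ : β ∈ SqT n F) {k l : Fin n}
    (hl : (l : ℕ) = k + 1) (hd : Be (β l) (β k)) :
    B (v β) (v β) = ((P.nu (β l) (β k) : ℚ) : K) * B (v (sq β k l)) (v (sq β k l)) := by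
  have hγ : sq β k l ∈ SqT n F := SqT_sq hβ hl (Or.inr hd)
  have hne : sq β k l ≠ β := by
    intro hc
    have h1 := congrFun hc k
    rw [sqT_k] at h1
    exact LgT_ne hβ.1 hl h1.symm
  have h1 := h.up (sq β k l) hγ k l hl (by rw [sqT_k, sqT_l]; exact hd)
  rw [sqT_k, sqT_l, sqT_sq] at h1
  have h2 := h.dn hβ hl hd
  have h3 := hB.T k (v (sq β k l)) (v β)
  rw [h1, h2, map_add, map_add, LinearMap.add_apply, map_smul, map_smul, map_smul, LinearMap.smul_apply,
    h.orth hB hγ hβ hne, smul_zero, smul_zero, zero_add, zero_add, smul_eq_mul] at h3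
  exact h3

private theorem K11_min {F : AO.Et → ℤ} {v : (Fin n → AO.Et) → V} (h : SN D F v)
    {B : LinearMap.BilinForm K V} (hB : SAB D B) {μ : Fin n → AO.Et} (hμ : μ ∈ SqT n F) (hm : MiT μ) :
    ∀ β ∈ SqT n F, B (v β) (v β) * ((P.nm μ : ℚ) : K) = B (v μ) (v μ) * ((P.nm β : ℚ) : K) := by
  refine desc_inductT ?_ ?_
  · intro β hβ hm'
    rw [mi_uniqueT hβ hμ hm' hm]
  · intro β hβ k l hl hd ih
    rw [K11_step h hB hβ hl hd, nm_sqT hl hd, mul_assoc, ih]
    push_cast
    ring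

theorem SN.norm {F : AO.Et → ℤ} {v : (Fin n → AO.Et) → V} (h : SN D F v)
    {B : LinearMap.BilinForm K V} (hB : SAB D B) {β γ : Fin n → AO.Et}
    (hβ : β ∈ SqT n F) (hγ : γ ∈ SqT n F) :
    B (v β) (v β) * ((P.nm γ : ℚ) : K) = B (v γ) (v γ) * ((P.nm β : ℚ) : K) := by
  obtain ⟨μ, hμ, hm⟩ := exists_miT ⟨β, hβ⟩
  have h1 := K11_min h hB hμ hm β hβ
  have h2 := K11_min h hB hμ hm γ hγ
  have h3 : ((P.nm μ : ℚ) : K) ≠ 0 := by
    rw [Ne, Rat.cast_eq_zero]
    exact (nm_posT μ).ne'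
  apply mul_right_cancel₀ h3
  calc B (v β) (v β) * ((P.nm γ : ℚ) : K) * ((P.nm μ : ℚ) : K)
      = B (v β) (v β) * ((P.nm μ : ℚ) : K) * ((P.nm γ : ℚ) : K) := by ring
    _ = B (v μ) (v μ) * ((P.nm γ : ℚ) : K) * ((P.nm β : ℚ) : K) := by rw [h1]; ring
    _ = B (v γ) (v γ) * ((P.nm β : ℚ) : K) * ((P.nm μ : ℚ) : K) := by rw [← h2]; ring

end

end AO
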