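import Pool.Agent.AO.K10
import Pool.Agent.LieP.A01

/-!
# MP_6c3636_al, AO, module K12: the matrices of the elements of the generated algebra (helper7)

`coef`: `Algebra.adjoin_induction`: the property `∃ m m' ...` holds for the `algebraMap` elements (scalar matrices), the generators `D.E a`, `D.X`, `D.T i` with `i + 1 < n` (K09: `SN.E`, `SN.X` (the coefficient `P.x (β 0) ∈ k`), `one`, `neg`, `up`, `dn`; coefficients `al`, `nu`, `1`, `-Q⁻¹`, `0`; the casts of rational numbers commute with `algebraMap k K`) with `m = m'` (they are symmetric, `Sy D`, so `LieP.st y = y`); the condition `nm γ * m γ β = nm β * m' β γ`: for `T i`: `m (sq β i j) β = 1`, `m β (sq β i j) = nu` for `Be (β i) (β j)` and `P.nm (sq β i j) = nu * P.nm β` (`nm_sqT`, S04). For the last index `i + 1 = n` the operator `D.T i` is arbitrary: `D.gn` contains it, so we assume `hT`: it is `0`. Sums and products: `m` of a product is the product of the matrices, `LieP.st (x * y) = LieP.st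 y * LieP.st x`, `m'` is the product in the other order. `tr_coef`: `D.Et * y * D.Et` maps `V` to the range of `Et`, its trace is the trace on the range of `Et` (basis `SN.basisT`), which is the sum of the diagonal coefficients; the condition gives `m β β = m' β β` (`P.nm β ≠ 0`, S04).
-/

namespace AO

noncomputable section

open Classical Equiv

open AN (sq)


namespace K12_aux

variable {k : Type} [Field k] [CharZero k] {G : Type} [Group G] [Finite G] {P : Par k} {n : ℕ}

/-- `m` is the matrix of `y` for all seminormal bases of shape `F` -/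
def Act (D : HA P n (MonoidAlgebra k G)) (F : AO.Et → ℤ) (y : MonoidAlgebra k G)
    (m : (Fin n → AO.Et) → (Fin n → AO.Et) → k) : Prop :=
  ∀ (K : Type) [Field K] [CharZero K] [Algebra k K] (V : Type) [AddCommGroup V] [Module K V]
    (ρ : Representation K G V) (v : (Fin n → AO.Et) → V), SN (D.on ρ) F v → ∀ β ∈ SqT n F,
      ev ρ y (v β) = ∑ γ ∈ SFT n F, algebraMap k K (m γ β) • v γ

/-- the matrices are adjoint for the norms -/
def Cnd (P : Par k) (F : AO.Et → ℤ) (m m' : (Fin n → AO.Et) → (Fin n → AO.Et) → k) : Prop :=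
  ∀ β ∈ SqT n F, ∀ γ ∈ SqT n F, ((P.nm γ : ℚ) : k) * m γ β = ((P.nm β : ℚ) : k) * m' β γ

variable {D : HA P n (MonoidAlgebra k G)} {F : AO.Et → ℤ}

theorem act_add {y z : MonoidAlgebra k G} {m l : (Fin n → AO.Et) → (Fin n → AO.Et) → k}
    (hy : Act D F y m) (hz : Act D F z l) : Act D F (y + z) (fun γ β => m γ β + l γ β) := by
  intro K _ _ _ V _ _ ρ v hv β hβ
  rw [map_add, LinearMap.add_apply, hy K V ρ v hv β hβ, hz K V ρ v hv β hβ, ← Finset.sum_add_distrib]
  refine Finset.sum_congr rfl fun γ _ => ?_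
  rw [map_add, add_smul]

theorem act_mul {y z : MonoidAlgebra k G} {m l : (Fin n → AO.Et) → (Fin n → AO.Et) → k}
    (hy : Act D F y m) (hz : Act D F z l) :
    Act D F (y * z) (fun γ β => ∑ δ ∈ SFT n F, m γ δ * l δ β) := by
  intro K _ _ _ V _ _ ρ v hv β hβ
  rw [map_mul, Module.End.mul_apply, hz K V ρ v hv β hβ, map_sum]
  have h1 : ∀ δ ∈ SFT n F, (ev ρ y) (algebraMap k K (l δ β) • v δ) =
      ∑ γ ∈ SFT n F, algebraMap k K (m γ δ * l δ β) • v γ := by
    intro δ hδ
    rw [map_smul, hy K V ρ v hv δ (mem_SFT.1 hδ), Finset.smul_sum]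
    refine Finset.sum_congr rfl fun γ _ => ?_
    rw [smul_smul, map_mul, mul_comm]
  rw [Finset.sum_congr rfl h1, Finset.sum_comm]
  refine Finset.sum_congr rfl fun γ _ => ?_
  rw [map_sum, Finset.sum_smul]

theorem act_st_mul {y z : MonoidAlgebra k G} {m l : (Fin n → AO.Et) → (Fin n → AO.Et) → k}
    (hy : Act D F (LieP.st y) m) (hz : Act D F (LieP.st z) l) :
    Act D F (LieP.st (y * z)) (fun γ β => ∑ δ ∈ SFT n F, l γ δ * m δ β) := by
  rw [LieP.st_mul]
  exact act_mul hz hy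

theorem act_diag {y : MonoidAlgebra k G} {c : (Fin n → AO.Et) → k}
    (h : ∀ (K : Type) [Field K] [CharZero K] [Algebra k K] (V : Type) [AddCommGroup V] [Module K V]
      (ρ : Representation K G V) (v : (Fin n → AO.Et) → V), SN (D.on ρ) F v → ∀ β ∈ SqT n F,
        ev ρ y (v β) = algebraMap k K (c β) • v β) :
    Act D F y (fun γ β => if γ = β then c β else 0) := by
  intro K _ _ _ V _ _ ρ v hv β hβ
  rw [h K V ρ v hv β hβ]
  rw [Finset.sum_eq_single_of_mem β (mem_SFT.2 hβ)]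
  · beta_reduce
    rw [if_pos rfl]
  · intro γ _ hne
    beta_reduce
    rw [if_neg hne, map_zero, zero_smul]

theorem cnd_diag (c : (Fin n → AO.Et) → k) :
    Cnd P F (fun γ β => if γ = β then c β else 0) (fun γ β => if γ = β then c β else 0) := by
  intro β _ γ _
  beta_reduce
  by_cases h : γ = β
  · rw [h]
  · rw [if_neg h, if_neg (fun h' => h h'.symm), mul_zero, mul_zero]

theorem cnd_add {m m' l l' : (Fin n → AO.Et) → (Fin n → AO.Et) → k} (h : Cnd P F m m')
    (h' : Cnd P F l l') : Cnd P F (fun γ β => m γ β + l γ β) (fun γ β => m' γ β + l' γ β) := by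
  intro β hβ γ hγ
  have h1 := h β hβ γ hγ
  have h2 := h' β hβ γ hγ
  show ((P.nm γ : ℚ) : k) * (m γ β + l γ β) = ((P.nm β : ℚ) : k) * (m' β γ + l' β γ)
  rw [mul_add, mul_add, h1, h2]

theorem cnd_mul {m m' l l' : (Fin n → AO.Et) → (Fin n → AO.Et) → k} (h : Cnd P F m m')
    (h' : Cnd P F l l') : Cnd P F (fun γ β => ∑ δ ∈ SFT n F, m γ δ * l δ β)
      (fun γ β => ∑ δ ∈ SFT n F, l' γ δ * m' δ β) := by
  intro β hβ γ hγ
  show ((P.nm γ : ℚ) : k) * ∑ δ ∈ SFT n F, m γ δ * l δ β =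
    ((P.nm β : ℚ) : k) * ∑ δ ∈ SFT n F, l' β δ * m' δ γ
  rw [Finset.mul_sum, Finset.mul_sum]
  refine Finset.sum_congr rfl fun δ hδ => ?_
  have h1 := h δ (mem_SFT.1 hδ) γ hγ
  have h2 := h' β hβ δ (mem_SFT.1 hδ)
  calc ((P.nm γ : ℚ) : k) * (m γ δ * l δ β) = (((P.nm γ : ℚ) : k) * m γ δ) * l δ β := by ring
    _ = (((P.nm δ : ℚ) : k) * m' δ γ) * l δ β := by rw [h1]
    _ = (((P.nm δ : ℚ) : k) * l δ β) * m' δ γ := by ring
    _ = (((P.nm β : ℚ) : k) * l' β δ) * m' δ γ := by rw [h2]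
    _ = ((P.nm β : ℚ) : k) * (l' β δ * m' δ γ) := by ring

theorem st_eq {y : MonoidAlgebra k G} (h : ∀ g, y.coeff g⁻¹ = y.coeff g) : LieP.st y = y := by
  refine LieP.al_ext fun g => ?_
  rw [LieP.coeff_st]
  exact h g

theorem ev_alg {K : Type} [Field K] [Algebra k K] {V : Type} [AddCommGroup V] [Module K V]
    (ρ : Representation K G V) (r : k) (v : V) :
    ev ρ (algebraMap k (MonoidAlgebra k G) r) v = algebraMap k K r • v := by
  have h1 : algebraMap k (MonoidAlgebra k G) r = r • (1 : MonoidAlgebra k G) :=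
    Algebra.algebraMap_eq_smul_one r
  rw [h1, ev_smul, map_one, LinearMap.smul_apply, Module.End.one_apply]

theorem st_alg (r : k) : LieP.st (algebraMap k (MonoidAlgebra k G) r) = algebraMap k (MonoidAlgebra k G) r := by
  have h1 : algebraMap k (MonoidAlgebra k G) r = r • (1 : MonoidAlgebra k G) :=
    Algebra.algebraMap_eq_smul_one r
  rw [h1, LieP.st_smul, LieP.st_one]

theorem map_Q {K : Type} [Field K] [Algebra k K] : (P.map (algebraMap k K)).Q = algebraMap k K P.Q := by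
  show ((P.q : K)) ^ P.e = algebraMap k K ((P.q : k) ^ P.e)
  rw [map_pow, map_natCast]

theorem map_x {K : Type} [Field K] [Algebra k K] (z : AO.Et) :
    (P.map (algebraMap k K)).x z = algebraMap k K (P.x z) := by
  show (P.map (algebraMap k K)).r z.1 * (P.map (algebraMap k K)).Q ^ z.2 = algebraMap k K (P.r z.1 * P.Q ^ z.2)
  rw [map_Q, map_mul, map_zpow₀]
  congr 1
  show algebraMap k K (P.w (lb z.1)) * ((sg z.1 : ℤ) : K) * (P.q : K) ^ (P.j z.1) =
    algebraMap k K (P.w (lb z.1) * ((sg z.1 : ℤ) : k) * (P.q : k) ^ (P.j z.1))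
  rw [map_mul, map_mul, map_intCast, map_zpow₀, map_natCast]

theorem be_asymm {x y : AO.Et} (h : Be x y) : ¬ Be y x := by
  rintro h'
  rcases h with h | ⟨h1, h2⟩ <;> rcases h' with h' | ⟨h3, h4⟩
  · exact absurd (h.trans h') (lt_irrefl _)
  · rw [h3] at h
    exact absurd h (lt_irrefl _)
  · rw [h1] at h'
    exact absurd h' (lt_irrefl _)
  · omega

/-- the diagonal coefficient of `T i` -/
def dT (P : Par k) (i j : Fin n) (β : Fin n → AO.Et) : k :=
  if (β j).1 = (β i).1 ∧ (β j).2 = (β i).2 + 1 then 1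
  else if (β j).1 = (β i).1 ∧ (β j).2 = (β i).2 - 1 then - P.Q⁻¹
  else ((P.al (β i) (β j) : ℚ) : k)

/-- the other coefficient of `T i` -/
def oT (P : Par k) (i j : Fin n) (β : Fin n → AO.Et) : k :=
  if Be (β i) (β j) then 1 else if Be (β j) (β i) then ((P.nu (β j) (β i) : ℚ) : k) else 0

/-- the matrix of `T i` -/
def mT (P : Par k) (i j : Fin n) (γ β : Fin n → AO.Et) : k :=
  if γ = β then dT P i j β else if γ = sq β i j then oT P i j β else 0

theorem oT_cnd {i j : Fin n} (hj : (j : ℕ) = i + 1) (β : Fin n → AO.Et) :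
    ((P.nm (sq β i j) : ℚ) : k) * oT P i j β = ((P.nm β : ℚ) : k) * oT P i j (sq β i j) := by
  have e1 : sq β i j i = β j := sqT_k β i j
  have e2 : sq β i j j = β i := sqT_l β i j
  unfold oT
  rw [e1, e2]
  by_cases h1 : Be (β i) (β j)
  · rw [if_pos h1, if_neg (be_asymm h1), if_pos h1, mul_one]
    have h2 : Be (sq β i j j) (sq β i j i) := by
      rw [e1, e2]
      exact h1
    have h3 := nm_sqT (P := P) hj h2
    rw [sqT_sq, e1, e2] at h3
    rw [h3]
    push_cast
    ring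
  · by_cases h2 : Be (β j) (β i)
    · rw [if_neg h1, if_pos h2, if_pos h2, mul_one]
      have h3 := nm_sqT (P := P) hj h2
      rw [h3]
      push_cast
      ring
    · rw [if_neg h1, if_neg h2, if_neg h2, if_neg h1, mul_zero, mul_zero]

theorem cnd_T {i j : Fin n} (hj : (j : ℕ) = i + 1) : Cnd P F (mT P i j) (mT P i j) := by
  intro β _ γ _
  unfold mT
  by_cases h : γ = β
  · rw [h]
  · have h0 : ¬ β = γ := fun h' => h h'.symm
    rw [if_neg h, if_neg h0]
    by_cases h1 : γ = sq β i j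
    · have h2 : β = sq γ i j := by rw [h1, sqT_sq]
      rw [if_pos h1, if_pos h2, h1]
      exact oT_cnd hj β
    · have h2 : ¬ β = sq γ i j := by
        intro h3
        apply h1
        rw [h3, sqT_sq]
      rw [if_neg h1, if_neg h2, mul_zero, mul_zero]

theorem act_T {i j : Fin n} (hj : (j : ℕ) = i + 1) : Act D F (D.T i) (mT P i j) := by
  intro K _ _ _ V _ _ ρ v hv β hβ
  have hT : ev ρ (D.T i) (v β) = (D.on ρ).T i (v β) := rfl
  have hne : β ≠ sq β i j := by
    intro h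
    have h1 := congrFun h i
    rw [sqT_k] at h1
    exact LgT_ne hβ.1 hj h1
  have hmem := mem_SFT.2 hβ
  -- the right hand side
  have hR : ∑ γ ∈ SFT n F, algebraMap k K (mT P i j γ β) • v γ =
      algebraMap k K (dT P i j β) • v β + (if sq β i j ∈ SFT n F then
        algebraMap k K (oT P i j β) • v (sq β i j) else 0) := by
    have h1 : ∀ γ ∈ SFT n F, algebraMap k K (mT P i j γ β) • v γ =
        (if γ = β then algebraMap k K (dT P i j β) • v β else 0) +
          (if γ = sq β i j then algebraMap k K (oT P i j β) • v (sq β i j) else 0) := by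
      intro γ _
      unfold mT
      by_cases h2 : γ = β
      · rw [if_pos h2, if_pos h2, if_neg (by rw [h2]; exact hne), add_zero, h2]
      · by_cases h3 : γ = sq β i j
        · rw [if_neg h2, if_neg h2, if_pos h3, if_pos h3, zero_add, h3]
        · rw [if_neg h2, if_neg h2, if_neg h3, if_neg h3, map_zero, zero_smul, add_zero]
    rw [Finset.sum_congr rfl h1, Finset.sum_add_distrib, Finset.sum_ite_eq', Finset.sum_ite_eq', if_pos hmem]
  rw [hR, hT]
  have hal : ∀ x y : AO.Et, (((P.map (algebraMap k K)).al x y : ℚ) : K) = algebraMap k K ((P.al x y : ℚ) : k) := by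
    intro x y
    rw [map_ratCast]
    rfl
  have hnu : ∀ x y : AO.Et, (((P.map (algebraMap k K)).nu x y : ℚ) : K) = algebraMap k K ((P.nu x y : ℚ) : k) := by
    intro x y
    rw [map_ratCast]
    rfl
  have hbe1 : ∀ x y : AO.Et, Be x y → ¬ (y.1 = x.1 ∧ y.2 = x.2 + 1) := by
    rintro x y (h | ⟨h1, h2⟩) ⟨h3, h4⟩
    · rw [h3] at h
      exact absurd h (lt_irrefl _)
    · omega
  have hbe2 : ∀ x y : AO.Et, Be x y → ¬ (y.1 = x.1 ∧ y.2 = x.2 - 1) := by
    rintro x y (h | ⟨h1, h2⟩) ⟨h3, h4⟩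
    · rw [h3] at h
      exact absurd h (lt_irrefl _)
    · omega
  rcases LgT_cases hβ.1 hj with ⟨h1, h2⟩ | ⟨h1, h2⟩ | h1 | h1
  · have h3 : ¬ Be (β i) (β j) := fun h => hbe1 _ _ h ⟨h1, h2⟩
    have h4 : ¬ Be (β j) (β i) := fun h => hbe2 _ _ h ⟨h1.symm, by omega⟩
    have h5 : dT P i j β = 1 := by
      unfold dT
      rw [if_pos ⟨h1, h2⟩]
    have h6 : oT P i j β = 0 := by
      unfold oT
      rw [if_neg h3, if_neg h4]
    rw [h5, h6, map_one, one_smul, map_zero, zero_smul, ite_self, add_zero]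
    exact hv.one β hβ i j hj h1 h2
  · have h3 : ¬ Be (β i) (β j) := fun h => hbe2 _ _ h ⟨h1, h2⟩
    have h4 : ¬ Be (β j) (β i) := fun h => hbe1 _ _ h ⟨h1.symm, by omega⟩
    have h5 : dT P i j β = - P.Q⁻¹ := by
      unfold dT
      rw [if_neg (fun h => by omega), if_pos ⟨h1, h2⟩]
    have h6 : oT P i j β = 0 := by
      unfold oT
      rw [if_neg h3, if_neg h4]
    rw [h5, h6, map_zero, zero_smul, ite_self, add_zero, hv.neg β hβ i j hj h1 h2, map_neg, map_inv₀, map_Q,
      neg_smul]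
  · have h5 : dT P i j β = ((P.al (β i) (β j) : ℚ) : k) := by
      unfold dT
      rw [if_neg (hbe1 _ _ h1), if_neg (hbe2 _ _ h1)]
    have h6 : oT P i j β = 1 := by
      unfold oT
      rw [if_pos h1]
    rw [h5, h6, map_one, one_smul, if_pos (mem_SFT.2 (SqT_sq hβ hj (Or.inl h1))), hv.up β hβ i j hj h1, hal]
  · have h5 : dT P i j β = ((P.al (β i) (β j) : ℚ) : k) := by
      unfold dT
      rw [if_neg (fun h => hbe2 _ _ h1 ⟨h.1.symm, by omega⟩), if_neg (fun h => hbe1 _ _ h1 ⟨h.1.symm, by omega⟩)]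
    have h6 : oT P i j β = ((P.nu (β j) (β i) : ℚ) : k) := by
      unfold oT
      rw [if_neg (be_asymm h1), if_pos h1]
    rw [h5, h6, if_pos (mem_SFT.2 (SqT_sq hβ hj (Or.inr h1))), hv.dn hβ hj h1, hal, hnu]

theorem act_E (a : Fin n → Bool) :
    Act D F (D.E a) (fun γ β => if γ = β then (if (∀ l, a l = lb (β l).1) then (1 : k) else 0) else 0) := by
  apply act_diag
  intro K _ _ _ V _ _ ρ v hv β hβ
  have h1 : ev ρ (D.E a) (v β) = (D.on ρ).E a (v β) := rfl
  rw [h1, hv.E hβ a]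
  split_ifs
  · rw [map_one, one_smul]
  · rw [map_zero, zero_smul]

theorem act_X (hn : 0 < n) :
    Act D F D.X (fun γ β => if γ = β then P.x (β ⟨0, hn⟩) else 0) := by
  apply act_diag
  intro K _ _ _ V _ _ ρ v hv β hβ
  have h1 : ev ρ D.X (v β) = (D.on ρ).X (v β) := rfl
  rw [h1, hv.X hβ ⟨0, hn⟩ rfl, map_x]

theorem act_zero : Act D F 0 (fun _ _ => 0) := by
  intro K _ _ _ V _ _ ρ v hv β hβ
  rw [map_zero, LinearMap.zero_apply]
  symm
  refine Finset.sum_eq_zero fun γ _ => ?_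
  rw [map_zero, zero_smul]

end K12_aux

theorem coef {k : Type} [Field k] [CharZero k] {G : Type} [Group G] [Finite G] {P : Par k} {n : ℕ}
    {D : HA P n (MonoidAlgebra k G)} (hD : Sy D) (hT : ∀ i : Fin n, (i : ℕ) + 1 = n → D.T i = 0)
    (hn : 0 < n) (F : AO.Et → ℤ) {y : MonoidAlgebra k G} (hy : y ∈ D.gn) :
    ∃ m m' : (Fin n → AO.Et) → (Fin n → AO.Et) → k,
      (∀ β ∈ SqT n F, ∀ γ ∈ SqT n F, ((P.nm γ : ℚ) : k) * m γ β = ((P.nm β : ℚ) : k) * m' β γ) ∧
      ∀ (K : Type) [Field K] [CharZero K] [Algebra k K] (V : Type) [AddCommGroup V] [Module K V]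
        (ρ : Representation K G V) (v : (Fin n → AO.Et) → V), SN (D.on ρ) F v → ∀ β ∈ SqT n F,
          ev ρ y (v β) = ∑ γ ∈ SFT n F, algebraMap k K (m γ β) • v γ ∧
          ev ρ (LieP.st y) (v β) = ∑ γ ∈ SFT n F, algebraMap k K (m' γ β) • v γ := by
  have key : ∃ m m' : (Fin n → AO.Et) → (Fin n → AO.Et) → k, K12_aux.Cnd P F m m' ∧
      K12_aux.Act D F y m ∧ K12_aux.Act D F (LieP.st y) m' := by
    unfold HA.gn at hy
    induction hy using Algebra.adjoin_induction with
    | mem x hx =>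
      rcases hx with (⟨a, rfl⟩ | ⟨i, rfl⟩) | hx
      · refine ⟨_, _, K12_aux.cnd_diag _, K12_aux.act_E a, ?_⟩
        rw [K12_aux.st_eq (hD.E a)]
        exact K12_aux.act_E a
      · have h1 : LieP.st (D.T i) = D.T i := K12_aux.st_eq (hD.T i)
        rw [h1]
        by_cases hi : (i : ℕ) + 1 = n
        · rw [hT i hi]
          refine ⟨fun _ _ => 0, fun _ _ => 0, ?_, K12_aux.act_zero, K12_aux.act_zero⟩
          intro β _ γ _
          rw [mul_zero, mul_zero]
        · have hi' : (i : ℕ) + 1 < n := by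
            have := i.2
            omega
          exact ⟨_, _, K12_aux.cnd_T (i := i) (j := ⟨(i : ℕ) + 1, hi'⟩) rfl, K12_aux.act_T rfl, K12_aux.act_T rfl⟩
      · rw [Set.mem_singleton_iff] at hx
        rw [hx, K12_aux.st_eq hD.X]
        exact ⟨_, _, K12_aux.cnd_diag _, K12_aux.act_X hn, K12_aux.act_X hn⟩
    | algebraMap r =>
      rw [K12_aux.st_alg]
      have h1 : K12_aux.Act D F (algebraMap k (MonoidAlgebra k G) r) (fun γ β => if γ = β then r else 0) :=
        K12_aux.act_diag (c := fun _ => r) fun K _ _ _ V _ _ ρ v _ β _ => K12_aux.ev_alg ρ r (v β)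
      exact ⟨_, _, K12_aux.cnd_diag (fun _ => r), h1, h1⟩
    | add x z _ _ ihx ihz =>
      obtain ⟨m, m', h1, h2, h3⟩ := ihx
      obtain ⟨l, l', g1, g2, g3⟩ := ihz
      refine ⟨_, _, K12_aux.cnd_add h1 g1, K12_aux.act_add h2 g2, ?_⟩
      rw [LieP.st_add]
      exact K12_aux.act_add h3 g3
    | mul x z _ _ ihx ihz =>
      obtain ⟨m, m', h1, h2, h3⟩ := ihx
      obtain ⟨l, l', g1, g2, g3⟩ := ihz
      exact ⟨_, _, K12_aux.cnd_mul h1 g1, K12_aux.act_mul h2 g2, K12_aux.act_st_mul h3 g3⟩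
  obtain ⟨m, m', h1, h2, h3⟩ := key
  exact ⟨m, m', h1, fun K _ _ _ V _ _ ρ v hv β hβ => ⟨h2 K V ρ v hv β hβ, h3 K V ρ v hv β hβ⟩⟩

namespace K12_aux

/-- the trace -/
theorem tr_act {k : Type} [Field k] [CharZero k] {G : Type} [Group G] [Finite G] {P : Par k} {n : ℕ}
    {D : HA P n (MonoidAlgebra k G)} {F : AO.Et → ℤ} {z : MonoidAlgebra k G}
    {m : (Fin n → AO.Et) → (Fin n → AO.Et) → k} (hz : Act D F z m)
    (K : Type) [Field K] [CharZero K] [Algebra k K] (V : Type) [AddCommGroup V]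
    [Module K V] [FiniteDimensional K V] (ρ : Representation K G V) (v : (Fin n → AO.Et) → V)
    (hv : SN (D.on ρ) F v)
    (hs : Submodule.span K (Set.range (fun β : {β // β ∈ SFT n F} => v β)) =
        LinearMap.range (D.on ρ).Et) :
    LinearMap.trace K V (ev ρ (D.Et * z * D.Et)) = algebraMap k K (∑ β ∈ SFT n F, m β β) := by
  obtain ⟨b, hb⟩ : ∃ b : Module.Basis {β // β ∈ SFT n F} K (LinearMap.range (D.on ρ).Et),
      ∀ β, (b β : V) = v β := by
    refine ⟨(Module.Basis.span (SN.li hv)).map (LinearEquiv.ofEq _ _ hs), fun β => ?_⟩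
    rw [Module.Basis.map_apply, LinearEquiv.coe_ofEq_apply, Module.Basis.span_apply]
  have hE : ev ρ D.Et = (D.on ρ).Et := by
    unfold HA.Et
    rw [map_sum]
    rfl
  have hEE : (D.on ρ).Et * (D.on ρ).Et = (D.on ρ).Et := by
    unfold HA.Et
    rw [Finset.sum_mul_sum]
    refine Finset.sum_congr rfl fun a _ => ?_
    rw [Finset.sum_congr rfl (fun c _ => (D.on ρ).EE a c), Finset.sum_ite_eq, if_pos (Finset.mem_univ _)]
  have hfix : ∀ w ∈ LinearMap.range (D.on ρ).Et, (D.on ρ).Et w = w := by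
    rintro w ⟨u, rfl⟩
    have h1 : ((D.on ρ).Et * (D.on ρ).Et) u = (D.on ρ).Et u := by rw [hEE]
    exact h1
  have hmem : ∀ x, ev ρ (D.Et * z * D.Et) x ∈ LinearMap.range (D.on ρ).Et := by
    intro x
    rw [map_mul, map_mul, hE]
    exact ⟨(ev ρ z) ((D.on ρ).Et x), rfl⟩
  rw [← LinearMap.trace_restrict_eq_of_forall_mem (LinearMap.range (D.on ρ).Et) (ev ρ (D.Et * z * D.Et)) hmem,
    LinearMap.trace_eq_matrix_trace K b]
  have hfb : ∀ β : {β // β ∈ SFT n F}, (ev ρ (D.Et * z * D.Et)).restrict (fun x _ => hmem x) (b β) =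
      ∑ γ : {γ // γ ∈ SFT n F}, algebraMap k K (m γ β) • b γ := by
    intro β
    apply Subtype.ext
    have h1 : (((ev ρ (D.Et * z * D.Et)).restrict (fun x _ => hmem x) (b β) : LinearMap.range (D.on ρ).Et) : V) =
        ev ρ (D.Et * z * D.Et) (v β) := by
      rw [LinearMap.restrict_coe_apply, hb]
    have h2 : ∀ γ : {γ // γ ∈ SFT n F}, (D.on ρ).Et (v γ) = v γ := by
      intro γ
      rw [← hb γ]
      exact hfix _ (b γ).2
    have h3 : ev ρ (D.Et * z * D.Et) (v β) = (D.on ρ).Et (ev ρ z ((D.on ρ).Et (v β))) := by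
      rw [map_mul, map_mul, hE]
      rfl
    have h4 : (((∑ γ : {γ // γ ∈ SFT n F}, algebraMap k K (m γ β) • b γ : LinearMap.range (D.on ρ).Et)) : V) =
        ∑ γ : {γ // γ ∈ SFT n F}, algebraMap k K (m γ β) • v γ := by
      rw [AddSubmonoidClass.coe_finset_sum]
      refine Finset.sum_congr rfl fun γ _ => ?_
      rw [Submodule.coe_smul, hb]
    have h5 : ∑ γ : {γ // γ ∈ SFT n F}, algebraMap k K (m γ β) • v γ =
        ∑ γ ∈ SFT n F, algebraMap k K (m γ β) • v γ :=
      Finset.sum_coe_sort (SFT n F) (fun γ => algebraMap k K (m γ β) • v γ)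
    rw [h1, h3, h2, hz K V ρ v hv β (mem_SFT.1 β.2), h4, h5, map_sum]
    refine Finset.sum_congr rfl fun γ hγ => ?_
    rw [map_smul, h2 ⟨γ, hγ⟩]
  have hR : algebraMap k K (∑ β ∈ SFT n F, m β β) =
      ∑ β : {β // β ∈ SFT n F}, algebraMap k K (m β β) := by
    rw [map_sum]
    exact (Finset.sum_coe_sort (SFT n F) (fun β => algebraMap k K (m β β))).symm
  rw [hR]
  unfold Matrix.trace
  refine Finset.sum_congr rfl fun β _ => ?_
  rw [Matrix.diag_apply, LinearMap.toMatrix_apply, hfb, map_sum, Finsupp.finset_sum_apply,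
    Finset.sum_eq_single β]
  · rw [map_smul, Finsupp.smul_apply, Module.Basis.repr_self, Finsupp.single_eq_same, smul_eq_mul, mul_one]
  · intro γ _ hne
    rw [map_smul, Finsupp.smul_apply, Module.Basis.repr_self, Finsupp.single_eq_of_ne (Ne.symm hne), smul_zero]
  · intro h
    exact absurd (Finset.mem_univ _) h

end K12_aux

theorem tr_coef {k : Type} [Field k] [CharZero k] {G : Type} [Group G] [Finite G] {P : Par k} {n : ℕ}
    {D : HA P n (MonoidAlgebra k G)} (hD : Sy D) (hT : ∀ i : Fin n, (i : ℕ) + 1 = n → D.T i = 0)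
    (hn : 0 < n) (F : AO.Et → ℤ) {y : MonoidAlgebra k G} (hy : y ∈ D.gn) :
    ∃ c : k, ∀ (K : Type) [Field K] [CharZero K] [Algebra k K] (V : Type) [AddCommGroup V]
      [Module K V] [FiniteDimensional K V] (ρ : Representation K G V) (v : (Fin n → AO.Et) → V),
      SN (D.on ρ) F v →
      Submodule.span K (Set.range (fun β : {β // β ∈ SFT n F} => v β)) =
        LinearMap.range (D.on ρ).Et →
      LinearMap.trace K V (ev ρ (D.Et * y * D.Et)) = algebraMap k K c ∧
      LinearMap.trace K V (ev ρ (D.Et * LieP.st y * D.Et)) = algebraMap k K c := by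
  obtain ⟨m, m', h1, h2⟩ := coef hD hT hn F hy
  have hm : K12_aux.Act D F y m := fun K _ _ _ V _ _ ρ v hv β hβ => (h2 K V ρ v hv β hβ).1
  have hm' : K12_aux.Act D F (LieP.st y) m' := fun K _ _ _ V _ _ ρ v hv β hβ => (h2 K V ρ v hv β hβ).2
  have hd : ∑ β ∈ SFT n F, m' β β = ∑ β ∈ SFT n F, m β β := by
    refine Finset.sum_congr rfl fun β hβ => ?_
    have h3 := h1 β (mem_SFT.1 hβ) β (mem_SFT.1 hβ)
    have h4 : ((P.nm β : ℚ) : k) ≠ 0 := by
      have h5 := nm_posT (P := P) β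
      exact_mod_cast h5.ne'
    exact (mul_left_cancel₀ h4 h3).symm
  refine ⟨∑ β ∈ SFT n F, m β β, fun K _ _ _ V _ _ _ ρ v hv hs => ⟨?_, ?_⟩⟩
  · exact K12_aux.tr_act hm K V ρ v hv hs
  · rw [← hd]
    exact K12_aux.tr_act hm' K V ρ v hv hs

end

end AO
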