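import Pool.Agent.AO.L08
import Pool.Agent.AO.K11
import Pool.Agent.AO.K12
import Pool.Agent.Parker.P15
import Pool.Agent.Parker.P10

/-!
# MP_6c3636_al, AO, module L09: the characters are determined by the shape (helper7)

`char_eq`: `trace (M g e) = |U|⁻¹ ∑ u, χ (g u)`, and `trace ([g]) = trace (e M g e) = trace (M g e)`. Let `φ = M.character`, `φ' = M'.character` be different irreducible characters; the operator `act M (es φ)` is `1`, `act M' (es φ) = 0` (Parker library: `es`, central idempotents); so `trace (e * act M (es φ)) = trace e ≠ 0` in `M` and `0` in `M'`, but both are the same linear combination of the traces of `[g]`. `M_coef`: `tr_coef` (K12) for `y = [g] Et` (`gen_b`; `T0` gives `hT`), on `M`: `Et = e` (`et_eq`), so `Et y Et` acts as `[g]`; the trace is the image of an element of `k`; `st y = Et [g⁻¹]`. `M_fx`: `σ` applied to the character of `M` is an irreducible character `φ'` with the same traces of `[g]` (`|U|⁻¹ ∑ u φ' (g u) = σ (..)`). `M_sd`: in the same way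 for the dual character. `M_orth`: `Parker.exists_form`: `M` is orthogonal or has an alternating form `B'`. All elements `x` with `LieP.st x = x` act self adjointly for an invariant form (`ev_act`), so `SAB (D.on M) B'`, `SN.orth` (K11): `B' (v β) (v γ) = 0` for `β ≠ γ`, and `B' (v β) (v β) = 0` if `B'` is alternating, so `B' = 0` on the range of `e`; but `e` is self adjoint and `B'` nondegenerate (`Parker.nondeg_range` for symmetric forms; in the alternating case the same argument), contradiction. For a symmetric form `B'`: `SN.orth`, `SN.norm`; `μ = B' (v β) (v β) / nm β`, nonzero as `B'` is nondegenerate on the range of `e`.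
-/

namespace AO

noncomputable section

open Classical Equiv

open AN (sq)

variable {k : Type} [Field k] [CharZero k] [Algebra k ℝ] {Ω : Type} [Field Ω] [IsAlgClosed Ω] [CharZero Ω]
  [Algebra k Ω] {G : Type} [Group G] [Finite G] {n : ℕ} {B : BN G n} {P : Par k}
  {D : HA P n (MonoidAlgebra k G)} {W : Type} [AddCommGroup W] [Module Ω W] [FiniteDimensional Ω W]
  {M : Representation Ω G W}

namespace L09_aux

omit [CharZero k] [Algebra k ℝ] [IsAlgClosed Ω] [CharZero Ω] in
theorem tr_b (hb : ∀ g, B.b k g = B.e k * LieP.dl g * B.e k) (he : B.e k * B.e k = B.e k)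
    [Fintype G] {W' : Type} [AddCommGroup W'] [Module Ω W'] [FiniteDimensional Ω W']
    (M' : Representation Ω G W') (g : G) :
    LinearMap.trace Ω W' (ev M' (B.b k g)) =
      ∑ x, algebraMap k Ω ((B.e k).coeff x) * M'.character (g * x) := by
  have h1 : ev M' (LieP.dl g : LieP.Al k G) = M' g := by
    unfold LieP.dl
    rw [ev_single, map_one, one_smul]
  have h2 : ev M' (B.e k) * ev M' (B.e k) = ev M' (B.e k) := by rw [← map_mul, he]
  rw [hb, map_mul (ev M'), map_mul (ev M'), h1, LinearMap.trace_mul_comm, ← mul_assoc, h2,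
    LinearMap.trace_mul_comm, ev_act, Parker.act_eq, Finset.mul_sum, map_sum]
  refine Finset.sum_congr rfl fun x _ => ?_
  rw [mul_smul_comm, map_smul, smul_eq_mul, ← map_mul]
  rfl

omit [IsAlgClosed Ω] [CharZero Ω] in
theorem trace_idem {V : Type} [AddCommGroup V] [Module Ω V] [FiniteDimensional Ω V]
    {T : Module.End Ω V} (hT : T * T = T) :
    LinearMap.trace Ω V T = (Module.finrank Ω (LinearMap.range T) : Ω) := by
  have h : LinearMap.IsProj (LinearMap.range T) T := by
    refine ⟨fun x => ⟨x, rfl⟩, ?_⟩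
    rintro _ ⟨y, rfl⟩
    have h1 := congrArg (fun f : Module.End Ω V => f y) hT
    simpa using h1
  exact h.trace

omit [CharZero k] [Algebra k ℝ] [IsAlgClosed Ω] [CharZero Ω] [FiniteDimensional Ω W] in
theorem adj {B' : LinearMap.BilinForm Ω W} (hinv : ∀ g x y, B' (M g x) (M g y) = B' x y)
    {a : MonoidAlgebra k G} (ha : ∀ g, a.coeff g⁻¹ = a.coeff g) : Parker.SelfAdj B' (ev M a) := by
  letI := Fintype.ofFinite G
  intro x y
  have h1 : ∀ g, B' (M g x) y = B' x (M g⁻¹ y) := by
    intro g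
    have h2 := hinv g x (M g⁻¹ y)
    have h3 : M g (M g⁻¹ y) = y := by
      rw [← Module.End.mul_apply, ← map_mul, mul_inv_cancel, map_one, Module.End.one_apply]
    rw [h3] at h2
    exact h2
  rw [ev_act, Parker.act_eq, LinearMap.sum_apply, LinearMap.sum_apply, map_sum, map_sum,
    LinearMap.sum_apply, ← Equiv.sum_comp (Equiv.inv G)]
  refine Finset.sum_congr rfl fun g _ => ?_
  rw [Equiv.inv_apply, LinearMap.smul_apply, LinearMap.smul_apply, map_smul, map_smul,
    LinearMap.smul_apply, h1, inv_inv, ha]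

omit [Algebra k ℝ] [IsAlgClosed Ω] [FiniteDimensional Ω W] in
theorem et_on : (D.on M).Et = ev M D.Et := by
  unfold HA.Et
  rw [map_sum]
  rfl

omit [Algebra k ℝ] [IsAlgClosed Ω] [FiniteDimensional Ω W] in
theorem et_ne {F : AO.Et → ℤ} {v : (Fin n → AO.Et) → W} (hv : SN (D.on M) F v) :
    (D.on M).Et ≠ 0 := by
  obtain ⟨β, hβ⟩ := hv.ne
  intro h
  have h1 := (hv.wt β hβ).1
  have h2 := congrArg (fun f : Module.End Ω W => f (v β)) ((D.on M).Et_mul (fun k => lb (β k).1))
  simp only [Module.End.mul_apply] at h2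
  rw [h, h1, LinearMap.zero_apply] at h2
  exact hv.nz β hβ h2.symm

omit [Algebra k ℝ] [Finite G] in
theorem et_et : D.Et * D.Et = D.Et := by
  have h1 : D.Et * D.Et = ∑ a, D.Et * D.E a := by
    nth_rewrite 2 [HA.Et]
    rw [Finset.mul_sum]
  rw [h1, Finset.sum_congr rfl fun a _ => D.Et_mul a]
  rfl

omit [Algebra k ℝ] in
theorem st_et (hD : Sy D) : LieP.st D.Et = D.Et := by
  have h1 : LieP.st D.Et = ∑ a, LieP.st (D.E a) :=
    map_sum (AddMonoidHom.mk' (LieP.st : MonoidAlgebra k G → MonoidAlgebra k G) LieP.st_add) _ _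
  rw [h1]
  refine Finset.sum_congr rfl fun a _ => LieP.al_ext fun g => ?_
  rw [LieP.coeff_st]
  exact hD.E a g

theorem ev_b (hM : M.IsIrreducible) (hD : Dg B P D) {F : AO.Et → ℤ}
    {v : (Fin n → AO.Et) → W} (hv : SN (D.on M) F v) (g : G) :
    ev M (B.b k g * D.Et) = ev M (B.b k g) := by
  rw [map_mul, ← et_on, et_eq hM hD (et_ne hv), ← map_mul, (b_e g).2]

theorem tr_mem (hM : M.IsIrreducible) (hP : Fit B P) (hD : Dg B P D) (hn : 0 < n) {F : AO.Et → ℤ}
    {v : (Fin n → AO.Et) → W} (hv : SN (D.on M) F v)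
    (hs : Submodule.span Ω (Set.range (fun β : {β // β ∈ SFT n F} => v β)) =
      LinearMap.range (ev M (B.e k))) (g : G) :
    ∃ c : k, LinearMap.trace Ω W (ev M (B.b k g)) = algebraMap k Ω c ∧
      LinearMap.trace Ω W (ev M (B.b k g⁻¹)) = algebraMap k Ω c := by
  have hs' : Submodule.span Ω (Set.range (fun β : {β // β ∈ SFT n F} => v β)) =
      LinearMap.range (D.on M).Et := by
    rw [et_eq hM hD (et_ne hv)]
    exact hs
  obtain ⟨c, hc⟩ := tr_coef (sy_D hD) hD.T0 hn F (gen_b hP hD g)
  obtain ⟨h1, h2⟩ := hc Ω W M v hv hs'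
  have e1 : D.Et * (B.b k g * D.Et) * D.Et = B.b k g * D.Et := by
    rw [b_Et hD, ← mul_assoc, et_et, ← b_Et hD, mul_assoc, et_et]
  have e2 : D.Et * LieP.st (B.b k g * D.Et) * D.Et = B.b k g⁻¹ * D.Et := by
    rw [LieP.st_mul, b_st, st_et (sy_D hD), ← mul_assoc, et_et, mul_assoc, b_Et hD, ← mul_assoc, et_et]
  rw [e1, ev_b hM hD hv] at h1
  rw [e2, ev_b hM hD hv] at h2
  exact ⟨c, h1, h2⟩

theorem e_ne (hM : M.IsIrreducible) (hD : Dg B P D) {F : AO.Et → ℤ}
    {v : (Fin n → AO.Et) → W} (hv : SN (D.on M) F v) : ev M (B.e k) ≠ 0 := by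
  rw [← et_eq hM hD (et_ne hv)]
  exact et_ne hv

omit [Algebra k ℝ] [IsAlgClosed Ω] in
theorem ev_v (hM : (D.on M).Et = ev M (B.e k)) {F : AO.Et → ℤ}
    {v : (Fin n → AO.Et) → W} (hv : SN (D.on M) F v) {β : Fin n → AO.Et} (hβ : β ∈ SqT n F) :
    ev M (B.e k) (v β) = v β := by
  have h1 := (hv.wt β hβ).1
  have h2 := congrArg (fun f : Module.End Ω W => f (v β)) ((D.on M).Et_mul (fun k => lb (β k).1))
  simp only [Module.End.mul_apply] at h2
  rw [h1] at h2
  rw [← hM]
  exact h2

end L09_aux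

open L09_aux

theorem char_eq {W' : Type} [AddCommGroup W'] [Module Ω W'] [FiniteDimensional Ω W']
    {M' : Representation Ω G W'} (hM : M.IsIrreducible) (hM' : M'.IsIrreducible)
    (h0 : ev M (B.e k) ≠ 0) (h : ∀ g, LinearMap.trace Ω W (ev M (B.b k g)) =
      LinearMap.trace Ω W' (ev M' (B.b k g))) : M.character = M'.character := by
  classical
  letI := Fintype.ofFinite G
  by_contra hne
  have hφ : M.character ∈ Parker.irr Ω G := Parker.mem_irr.2 (Parker.mem_irrSet hM)
  have hE : ev M (B.e k) * ev M (B.e k) = ev M (B.e k) := by rw [← map_mul, e_idem]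
  have hE' : ev M' (B.e k) * ev M' (B.e k) = ev M' (B.e k) := by rw [← map_mul, e_idem]
  have key : ∀ {X : Type} [AddCommGroup X] [Module Ω X] [FiniteDimensional Ω X]
      (R : Representation Ω G X), ev R (B.e k) * ev R (B.e k) = ev R (B.e k) →
      LinearMap.trace Ω X (ev R (B.e k) * Parker.act R (Parker.es M.character)) =
        ∑ g, Parker.es M.character g * LinearMap.trace Ω X (ev R (B.b k g)) := by
    intro X _ _ _ R hR
    have h1 : LinearMap.trace Ω X (ev R (B.e k) * Parker.act R (Parker.es M.character)) =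
        LinearMap.trace Ω X (ev R (B.e k) * Parker.act R (Parker.es M.character) * ev R (B.e k)) := by
      rw [LinearMap.trace_mul_comm, LinearMap.trace_mul_comm Ω (ev R (B.e k) * _), ← mul_assoc, hR,
        LinearMap.trace_mul_comm]
    rw [h1, Parker.act_eq, Finset.mul_sum, Finset.sum_mul, map_sum]
    refine Finset.sum_congr rfl fun g _ => ?_
    rw [mul_smul_comm, smul_mul_assoc, map_smul, smul_eq_mul]
    congr 2
    have h2 : ev R (LieP.dl g : LieP.Al k G) = R g := by
      unfold LieP.dl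
      rw [ev_single, map_one, one_smul]
    show _ = ev R (B.e k * LieP.dl g * B.e k)
    rw [map_mul, map_mul, h2]
  have h1 := key M hE
  have h2 := key M' hE'
  rw [Parker.idem_irr hM, mul_one, Finset.sum_congr rfl fun g _ => by rw [h g], ← h2,
    Parker.P15_aux.act_es_irr hM' hφ, if_neg hne, zero_smul, mul_zero, map_zero,
    trace_idem hE] at h1
  rw [Nat.cast_eq_zero, Submodule.finrank_eq_zero, LinearMap.range_eq_bot] at h1
  exact h0 h1

theorem M_coef (hM : M.IsIrreducible) (hP : Fit B P) (hD : Dg B P D) (hn : 0 < n) {F : AO.Et → ℤ}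
    {v : (Fin n → AO.Et) → W} (hv : SN (D.on M) F v)
    (hs : Submodule.span Ω (Set.range (fun β : {β // β ∈ SFT n F} => v β)) =
      LinearMap.range (ev M (B.e k))) (g : G) :
    ∃ m : (Fin n → AO.Et) → (Fin n → AO.Et) → k, ∀ β ∈ SqT n F,
      ev M (B.b k g) (v β) = ∑ γ ∈ SFT n F, algebraMap k Ω (m γ β) • v γ := by
  obtain ⟨m, m', -, h⟩ := coef (sy_D hD) hD.T0 hn F (gen_b hP hD g)
  refine ⟨m, fun β hβ => ?_⟩
  have h1 := (h Ω W M v hv β hβ).1
  rw [ev_b hM hD hv] at h1
  exact h1

theorem M_fx (hM : M.IsIrreducible) (hP : Fit B P) (hD : Dg B P D) (hn : 0 < n) {F : AO.Et → ℤ}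
    {v : (Fin n → AO.Et) → W} (hv : SN (D.on M) F v)
    (hs : Submodule.span Ω (Set.range (fun β : {β // β ∈ SFT n F} => v β)) =
      LinearMap.range (ev M (B.e k))) {σ : RingAut Ω}
    (hσ : ∀ x : k, σ (algebraMap k Ω x) = algebraMap k Ω x) : Parker.Fixes σ M := by
  classical
  letI := Fintype.ofFinite G
  obtain ⟨τ, ⟨e⟩⟩ := Parker.exists_fin M
  have hτ : τ.IsIrreducible := Parker.equiv_irr e hM
  have hchar : M.character = τ.character := Representation.char_iso e
  have hmain : M.character = (Parker.tw σ τ).character := by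
    refine char_eq (k := k) (B := B) hM (Parker.tw_irr σ hτ) (e_ne hM hD hv) fun g => ?_
    obtain ⟨c, hc, -⟩ := tr_mem hM hP hD hn hv hs g
    rw [tr_b (fun _ => rfl) e_idem (Parker.tw σ τ) g]
    have h1 : σ (LinearMap.trace Ω W (ev M (B.b k g))) =
        ∑ x, algebraMap k Ω ((B.e k).coeff x) * (Parker.tw σ τ).character (g * x) := by
      rw [tr_b (fun _ => rfl) e_idem M g, map_sum]
      refine Finset.sum_congr rfl fun x _ => ?_
      rw [map_mul, hσ, Parker.tw_char, hchar]
    rw [← h1, hc, hσ]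
  intro g
  have h1 := congrFun hmain g
  rw [Parker.tw_char, ← hchar] at h1
  exact h1.symm

theorem M_orth (hM : M.IsIrreducible) (hP : Fit B P) (hD : Dg B P D) (hn : 0 < n) {F : AO.Et → ℤ}
    {v : (Fin n → AO.Et) → W} (hv : SN (D.on M) F v)
    (hs : Submodule.span Ω (Set.range (fun β : {β // β ∈ SFT n F} => v β)) =
      LinearMap.range (ev M (B.e k))) :
    ∃ (B' : LinearMap.BilinForm Ω W) (μ : Ω), Parker.InvForm M B' ∧ SAB (D.on M) B' ∧ μ ≠ 0 ∧
      ∀ β ∈ SqT n F, ∀ γ ∈ SqT n F,
        B' (v β) (v γ) = if β = γ then μ * ((P.nm β : ℚ) : Ω) else 0 := by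
  classical
  letI := Fintype.ofFinite G
  have hEt := et_eq hM hD (et_ne hv)
  have hSy := sy_D hD
  have hee : ev M (B.e k) * ev M (B.e k) = ev M (B.e k) := by rw [← map_mul, e_idem]
  have hco : ∀ x : G, (B.e k).coeff x⁻¹ = (B.e k).coeff x := by
    intro x
    rw [← LieP.coeff_st, e_st]
  -- the representation is self dual
  have hsd : Parker.SD M := by
    obtain ⟨m, τ, hτ, hchar⟩ := Parker.mem_irr.1 (Parker.du_mem_irr
      (Parker.mem_irr.2 (Parker.mem_irrSet hM)))
    have hmain : M.character = τ.character := by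
      refine char_eq (k := k) (B := B) hM hτ (e_ne hM hD hv) fun g => ?_
      obtain ⟨c, h1, h2⟩ := tr_mem hM hP hD hn hv hs g
      rw [h1, ← h2, tr_b (fun _ => rfl) e_idem M, tr_b (fun _ => rfl) e_idem τ, hchar,
        ← Equiv.sum_comp (Equiv.inv G)]
      refine Finset.sum_congr rfl fun x _ => ?_
      rw [Equiv.inv_apply, hco]
      show _ = _ * M.character (g * x)⁻¹
      rw [mul_inv_rev, Representation.char_mul_comm]
    intro g
    have h3 := congrFun hmain g
    rw [hchar] at h3
    exact h3.symm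
  obtain ⟨β0, hβ0⟩ := hv.ne
  -- the forms
  have hsab : ∀ {B' : LinearMap.BilinForm Ω W}, (∀ g x y, B' (M g x) (M g y) = B' x y) →
      SAB (D.on M) B' := by
    intro B' hinv
    exact ⟨fun a => adj hinv (hSy.E a), fun i => adj hinv (hSy.T i), adj hinv hSy.X⟩
  -- if the form vanishes on the range of `e`
  have hzero : ∀ {B' : LinearMap.BilinForm Ω W}, (∀ g x y, B' (M g x) (M g y) = B' x y) →
      (∀ x, (∀ y, B' x y = 0) → x = 0) → ¬ ∀ β ∈ SqT n F, B' (v β) (v β) = 0 := by
    intro B' hinv hnd h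
    apply hv.nz β0 hβ0
    apply hnd
    intro y
    have h1 : B' (v β0) y = B' (v β0) (ev M (B.e k) y) := by
      conv_lhs => rw [← ev_v hEt hv hβ0]
      exact adj hinv hco _ _
    rw [h1]
    have h2 : ev M (B.e k) y ∈ Submodule.span Ω
        (Set.range (fun β : {β // β ∈ SFT n F} => v β)) := by
      rw [hs]
      exact ⟨y, rfl⟩
    refine Submodule.span_induction (p := fun x _ => B' (v β0) x = 0) ?_ ?_ ?_ ?_ h2
    · rintro _ ⟨⟨γ, hγ⟩, rfl⟩
      rw [mem_SFT] at hγ
      by_cases h3 : β0 = γ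
      · subst h3
        exact h _ hγ
      · exact hv.orth (hsab hinv) hβ0 hγ h3
    · exact map_zero _
    · intro x z _ _ hx hz
      rw [map_add, hx, hz, add_zero]
    · intro c x _ hx
      rw [map_smul, hx, smul_zero]
  rcases Parker.exists_form hM hsd with ⟨B', hB'⟩ | ⟨B', halt, hnd, hinv⟩
  · have hS := hsab hB'.inv
    have hnm : ∀ β : Fin n → AO.Et, ((P.nm β : ℚ) : Ω) ≠ 0 := by
      intro β
      rw [Ne, Rat.cast_eq_zero]
      exact (nm_posT β).ne'
    have hnorm : ∀ β ∈ SqT n F, B' (v β) (v β) =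
        B' (v β0) (v β0) / ((P.nm β0 : ℚ) : Ω) * ((P.nm β : ℚ) : Ω) := by
      intro β hβ
      have h1 := hv.norm hS hβ hβ0
      have h2 : ∀ γ : Fin n → AO.Et, (P.map (algebraMap k Ω)).nm γ = P.nm γ := fun γ => rfl
      rw [h2, h2] at h1
      rw [div_mul_eq_mul_div, eq_div_iff (hnm β0)]
      exact h1
    refine ⟨B', B' (v β0) (v β0) / ((P.nm β0 : ℚ) : Ω), hB', hS, ?_, ?_⟩
    · intro h0
      apply hzero hB'.inv hB'.nondeg
      intro β hβ
      rw [hnorm β hβ, h0, zero_mul]
    · intro β hβ γ hγ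
      split_ifs with h1
      · subst h1
        exact hnorm β hβ
      · exact hv.orth hS hβ hγ h1
  · exfalso
    apply hzero hinv hnd
    intro β _
    have h1 := halt (v β) (v β)
    have h2 : (2 : Ω) * B' (v β) (v β) = 0 := by linear_combination h1
    rcases mul_eq_zero.1 h2 with h3 | h3
    · exact absurd h3 two_ne_zero
    · exact h3

end

end AO
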