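import Pool.Agent.AO.W02
import Pool.Agent.AO.L09
import Pool.Agent.AO.L10
import Pool.Agent.AO.A02

/-!
# MP_6c3636_al, AO, module W05: the labels which are not allowed (helper7)

`H = ⊤` (`ze2`), so `φ` is an isomorphism (its range is stable under `G`, `M` is irreducible) and `V` is `M` up to isomorphism. Let `O` be the set of the labels `a'` with `ev M (E0 a') ≠ 0`; the sum of the ranges of the `E0 a'`, `a'` in the orbit of `a` under permutations, is stable under all `[g]` (`N_E0`, L02, `br`), so it is the range of `e` (`b_irr`, L08; take `k = ℚ`, the statements of L01-L03, L08 hold for all fields), so `e = ∑ a' ∈ O, E0 a'` on `M` and all `a' ∈ O` are not good (`good` is invariant under permutations). `skew_good`: `S` of `skew_el` (L10): on `M`: `S S = - ∑ c_a' E0 a'`, a different constant for each `a'`; rescale: replace `S` by `S ∑ ...`: it is enough that `det (S + (1 - e))` has absolute value `1` (as its square is `∏ (- c_a') ^ dim`), so use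 `cut1` (A01) directly: `SqV` of `1`. Skew: `LieP.st S = - S` (`ev_act`, `Parker.skew_of_skew`); transport to `V` by `φ` (`LieP.op` or sums over `G = H`). `skew_dual`: assume that the dimension of the range of `eH` is odd. For `a' ∈ O` and `l = i + 1` with `a' i ≠ a' l` the element `[s l]` maps `E0 a' M` bijectively to `E0 (sq a' i l) M` (`Tq0`), so all `E0 a' M`, `a' ∈ O`, have the same dimension `m`, `|O| m` is odd, `m` is odd. `O` contains an `a'` with `a' 0 = true` (a not good label has an entry `true`). `X = [s 0]` on `E0 a' M` satisfies `X X = - |R 0|⁻¹` (`Xq0`, `ze2`), so `t = trace ([s 0] E0 a')` is `j z` with `z ^ 2 = - |R 0|⁻¹`, `j` an odd integer (difference of the multiplicities of the eigenvalues `z`, `-z`), so `t ≠ 0`, and `(t |R 0| / j) ^ 2 = - |R 0|`. `t = ∑ rational coefficients * ψ`, and the dual character gives `trace (st ([s 0] E0 a')) = - t` (`st [s 0] = [s 0⁻¹] = [s 0] [(s 0 s 0)⁻¹]`, `ze true = -1`). If `ρ` is self dual: `t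 = - t`, contradiction. If `σ ψ = ψ*`: `σ t = - t`; but `σ t = t` by `hσ`.
-/

namespace AO

noncomputable section

open Classical Equiv

open AN (sq)

namespace W05_aux

section Sum

variable {Ω : Type} [Field Ω] [IsAlgClosed Ω] [CharZero Ω] {G : Type} [Group G] [Finite G] {n : ℕ} {B : BN G n}
  {W : Type} [AddCommGroup W] [Module Ω W] [FiniteDimensional Ω W] {M : Representation Ω G W}

theorem b_N (g : G) : ∃ m ∈ B.N, B.b ℚ g = B.b ℚ m := by
  obtain ⟨u, hu, m, hm, u', hu', rfl⟩ := B.br g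
  exact ⟨m, hm, by rw [(b_U hu' (u * m)).2, (b_U hu m).1]⟩

theorem main (hM : M.IsIrreducible) {a : Fin n → Bool} (h0 : ev M (B.E0 ℚ a) ≠ 0) :
    ∑ a', ev M (B.E0 ℚ a') = ev M (B.e ℚ) ∧
      ∀ b, ev M (B.E0 ℚ b) ≠ 0 → ∃ π : Perm (Fin n), b = fun i => a (π i) := by
  set W' : Submodule Ω W := ⨆ π : Perm (Fin n), LinearMap.range (ev M (B.E0 ℚ (fun i => a (π i)))) with hW'
  have hmem : ∀ (π : Perm (Fin n)) (w : W), ev M (B.E0 ℚ (fun i => a (π i))) w ∈ W' := fun π w =>
    (le_iSup (fun π : Perm (Fin n) => LinearMap.range (ev M (B.E0 ℚ (fun i => a (π i))))) π)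
      (LinearMap.mem_range_self _ w)
  have h1 : W' ≤ LinearMap.range (ev M (B.e ℚ)) := by
    refine iSup_le fun π => ?_
    rintro _ ⟨w, rfl⟩
    refine ⟨ev M (B.E0 ℚ (fun i => a (π i))) w, ?_⟩
    rw [← Module.End.mul_apply, ← map_mul, (e_E0 _).1]
  have h2 : W' ≠ ⊥ := by
    intro h
    apply h0
    refine LinearMap.ext fun w => ?_
    have h3 := hmem 1 w
    rw [h] at h3
    exact (Submodule.mem_bot Ω).1 h3
  have h3 : ∀ g, ∀ w ∈ W', ev M (B.b ℚ g) w ∈ W' := by
    intro g w hw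
    obtain ⟨m, hm, hgm⟩ := b_N (B := B) g
    obtain ⟨π', hπ'⟩ := N_E0 (k := ℚ) hm
    rw [hgm]
    refine Submodule.iSup_induction _ (motive := fun w => ev M (B.b ℚ m) w ∈ W') hw ?_ ?_ ?_
    · rintro π _ ⟨v, rfl⟩
      rw [← Module.End.mul_apply, ← map_mul, hπ', map_mul, Module.End.mul_apply]
      exact hmem (π * π') _
    · rw [map_zero]
      exact Submodule.zero_mem _
    · intro x y hx hy
      rw [map_add]
      exact Submodule.add_mem _ hx hy
  have h4 := b_irr hM h1 h2 h3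
  have hr : ∀ w, ev M (B.e ℚ) w ∈ W' := fun w => by
    rw [h4]
    exact LinearMap.mem_range_self _ w
  constructor
  · have h5 : ∀ w ∈ W', (∑ a', ev M (B.E0 ℚ a')) w = w := by
      intro w hw
      refine Submodule.iSup_induction _ (motive := fun w => (∑ a', ev M (B.E0 ℚ a')) w = w) hw ?_ ?_ ?_
      · rintro π _ ⟨v, rfl⟩
        rw [LinearMap.sum_apply, Finset.sum_eq_single (fun i => a (π i))]
        · rw [← Module.End.mul_apply, ← map_mul, E0_mul, if_pos rfl]
        · intro b _ hb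
          rw [← Module.End.mul_apply, ← map_mul, E0_mul, if_neg hb, map_zero, LinearMap.zero_apply]
        · intro h
          exact absurd (Finset.mem_univ _) h
      · rw [map_zero]
      · intro x y hx hy
        rw [map_add, hx, hy]
    have h6 : (∑ a', ev M (B.E0 ℚ a')) * ev M (B.e ℚ) = ∑ a', ev M (B.E0 ℚ a') := by
      rw [Finset.sum_mul]
      exact Finset.sum_congr rfl fun b _ => by rw [← map_mul, (e_E0 b).2]
    rw [← h6]
    exact LinearMap.ext fun w => h5 _ (hr w)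
  · intro b hb
    by_contra hcon
    push Not at hcon
    apply hb
    have h5 : ∀ w ∈ W', ev M (B.E0 ℚ b) w = 0 := by
      intro w hw
      refine Submodule.iSup_induction _ (motive := fun w => ev M (B.E0 ℚ b) w = 0) hw ?_ ?_ ?_
      · rintro π _ ⟨v, rfl⟩
        rw [← Module.End.mul_apply, ← map_mul, E0_mul, if_neg (hcon π), map_zero, LinearMap.zero_apply]
      · rw [map_zero]
      · intro x y hx hy
        rw [map_add, hx, hy, add_zero]
    have h6 : ev M (B.E0 ℚ b) = ev M (B.E0 ℚ b) * ev M (B.e ℚ) := by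
      rw [← map_mul, (e_E0 b).2]
    rw [h6]
    exact LinearMap.ext fun w => h5 _ (hr w)

theorem not_good {a : Fin n → Bool} (ha : ¬ B.good a) : ∃ i, a i = true := by
  by_contra h
  push Not at h
  apply ha
  right
  intro i
  have := h i
  simpa using this

theorem not_good' (hg : B.gd = false) {a : Fin n → Bool} {i : Fin n} (h : a i = true) : ¬ B.good a := by
  rintro (h1 | h1)
  · rw [hg] at h1
    exact Bool.false_ne_true h1
  · rw [h1 i] at h
    exact Bool.false_ne_true h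

end Sum

section Transport

variable {Ω : Type} [Field Ω] [IsAlgClosed Ω] [CharZero Ω] {G : Type} [Group G] [Finite G] {n : ℕ} {B : BN G n}
  {W : Type} [AddCommGroup W] [Module Ω W] [FiniteDimensional Ω W] {M : Representation Ω G W}
  {V : Type} [AddCommGroup V] [Module Ω V] [FiniteDimensional Ω V] {ρ : Representation Ω B.H V}

theorem act_phi (hH : B.H = ⊤) (φ : V →ₗ[Ω] W) (hφ' : ∀ (h : B.H) v, φ (ρ h v) = M h (φ v)) (s : G → ℚ) (v : V) :
    φ (Parker.act ρ (fun h : B.H => ((s h : ℚ) : Ω)) v) = Parker.act M (fun g => ((s g : ℚ) : Ω)) (φ v) := by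
  let _ := Fintype.ofFinite G
  let _ := Fintype.ofFinite B.H
  rw [Parker.act_eq, Parker.act_eq, LinearMap.sum_apply, LinearMap.sum_apply, map_sum]
  have hh : ∀ g : G, g ∈ B.H := fun g => by
    rw [hH]
    exact Subgroup.mem_top g
  refine Fintype.sum_equiv (Equiv.subtypeUnivEquiv hh) _ _ fun h => ?_
  rw [LinearMap.smul_apply, LinearMap.smul_apply, map_smul, hφ']
  rfl

theorem act_ev (x : LieP.Al ℚ G) : Parker.act M (fun g => ((x.coeff g : ℚ) : Ω)) = ev M x := by
  rw [ev_act]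
  rfl

theorem eH_eq : B.eH ρ = Parker.act ρ (fun h : B.H => (((B.e ℚ).coeff h : ℚ) : Ω)) := by
  unfold BN.eH eU
  congr 1
  funext h
  unfold BN.e
  rw [LieP.coeff_av]
  have h2 : Nat.card (B.U.subgroupOf B.H) = Nat.card B.U := by
    refine Nat.card_congr (Subgroup.subgroupOfEquivOfLe B.UH).toEquiv
  by_cases h1 : (h : G) ∈ B.U
  · rw [if_pos h1, if_pos (Subgroup.mem_subgroupOf.2 h1), h2]
    push_cast
    rfl
  · rw [if_neg h1, if_neg (fun h3 => h1 (Subgroup.mem_subgroupOf.1 h3)), Rat.cast_zero]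

theorem card_sub : Nat.card (B.U.subgroupOf B.H) = Nat.card B.U :=
  Nat.card_congr (Subgroup.subgroupOfEquivOfLe B.UH).toEquiv

theorem phi_surj (hH : B.H = ⊤) (hρ : ρ.IsIrreducible) (hM : M.IsIrreducible) (φ : V →ₗ[Ω] W)
    (hφ : Function.Injective φ) (hφ' : ∀ (h : B.H) v, φ (ρ h v) = M h (φ v)) : Function.Surjective φ := by
  have hh : ∀ g : G, g ∈ B.H := fun g => by
    rw [hH]
    exact Subgroup.mem_top g
  obtain ⟨⟨v, hv⟩, -⟩ := (Parker.P08_aux.irr_iff _).1 hρ
  obtain ⟨-, h2⟩ := (Parker.P08_aux.irr_iff _).1 hM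
  rcases h2 (LinearMap.range φ) (by
    rintro g _ ⟨x, rfl⟩
    exact ⟨ρ ⟨g, hh g⟩ x, hφ' _ _⟩) with h | h
  · exfalso
    apply hv
    apply hφ
    rw [map_zero]
    have h3 : φ v ∈ LinearMap.range φ := LinearMap.mem_range_self φ v
    rw [h] at h3
    exact (Submodule.mem_bot Ω).1 h3
  · exact LinearMap.range_eq_top.1 h

theorem trace_idem {V : Type} [AddCommGroup V] [Module Ω V] [FiniteDimensional Ω V]
    {f : Module.End Ω V} (h : f * f = f) :
    LinearMap.trace Ω V f = (Module.finrank Ω (LinearMap.range f) : Ω) := by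
  have h1 : LinearMap.IsProj (LinearMap.range f) f := by
    refine ⟨fun x => LinearMap.mem_range_self f x, ?_⟩
    rintro _ ⟨y, rfl⟩
    exact LinearMap.congr_fun h y
  exact h1.trace

end Transport

end W05_aux

theorem W05_aux.swap_tr {Ω : Type} [Field Ω] [IsAlgClosed Ω] [CharZero Ω] {G : Type} [Group G] [Finite G] {n : ℕ}
    {B : BN G n} {W : Type} [AddCommGroup W] [Module Ω W] [FiniteDimensional Ω W] {M : Representation Ω G W}
    {i l : Fin n} (hl : (l : ℕ) = i + 1) {a : Fin n → Bool} (ha : a i ≠ a l) :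
    LinearMap.trace Ω W (ev M (B.E0 ℚ (sq a i l))) = LinearMap.trace Ω W (ev M (B.E0 ℚ a)) := by
  have hq : ((Nat.card (B.R l) : ℚ)) ≠ 0 := Nat.cast_ne_zero.2 Nat.card_pos.ne'
  have ha' : (sq a i l) i ≠ (sq a i l) l := by
    unfold AN.sq
    rw [swap_apply_left, swap_apply_right]
    exact ha.symm
  have h1 := congrArg (ev M) (sl_E0 (k := ℚ) (B := B) hl a)
  have h2 := congrArg (ev M) (Tq0 (k := ℚ) (B := B) hl a)
  have h3 := congrArg (ev M) (Tq0 (k := ℚ) (B := B) hl (sq a i l))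
  rw [if_neg ha, add_zero, ev_smul, map_mul, map_mul] at h2
  rw [if_neg ha', add_zero, ev_smul, map_mul, map_mul] at h3
  rw [map_mul, map_mul] at h1
  set Y := ev M (B.b ℚ (B.s l))
  set A := ev M (B.E0 ℚ a)
  set A' := ev M (B.E0 ℚ (sq a i l))
  have h4 : LinearMap.trace Ω W (Y * Y * A) = LinearMap.trace Ω W (Y * Y * A') := by
    rw [mul_assoc, h1, LinearMap.trace_mul_comm, mul_assoc, LinearMap.trace_mul_comm]
  rw [h2, h3, map_smul, map_smul, smul_eq_mul, smul_eq_mul] at h4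
  have h5 : algebraMap ℚ Ω ((Nat.card (B.R l) : ℚ)⁻¹) ≠ 0 := by
    rw [Ne, map_eq_zero]
    exact inv_ne_zero hq
  exact (mul_left_cancel₀ h5 h4).symm

theorem W05_aux.move {Ω : Type} [Field Ω] [IsAlgClosed Ω] [CharZero Ω] {G : Type} [Group G] [Finite G] {n : ℕ}
    {B : BN G n} {W : Type} [AddCommGroup W] [Module Ω W] [FiniteDimensional Ω W] {M : Representation Ω G W}
    (hn : 0 < n) : ∀ (p : ℕ) (hp : p < n) (a : Fin n → Bool), a ⟨p, hp⟩ = true →
    ∃ b : Fin n → Bool, b ⟨0, hn⟩ = true ∧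
      LinearMap.trace Ω W (ev M (B.E0 ℚ b)) = LinearMap.trace Ω W (ev M (B.E0 ℚ a)) := by
  intro p
  induction p with
  | zero => exact fun hp a ha => ⟨a, ha, rfl⟩
  | succ p ih =>
    intro hp a ha
    by_cases h : a ⟨p, by omega⟩ = true
    · exact ih (by omega) a h
    · have hne : a ⟨p, by omega⟩ ≠ a ⟨p + 1, hp⟩ := by
        rw [ha]
        exact h
      obtain ⟨b, hb1, hb2⟩ := ih (by omega) (sq a ⟨p, by omega⟩ ⟨p + 1, hp⟩) (by
        unfold AN.sq
        rw [swap_apply_left]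
        exact ha)
      refine ⟨b, hb1, hb2.trans ?_⟩
      exact W05_aux.swap_tr (l := ⟨p + 1, hp⟩) (i := ⟨p, by omega⟩) rfl hne


theorem W05_aux.solv_sub {G : Type} [Group G] {n : ℕ} {B : BN G n} [Group.IsSolvable B.U] :
    Group.IsSolvable (B.U.subgroupOf B.H) :=
  Group.isSolvable_of_isSolvable_injective (f := (Subgroup.subgroupOfEquivOfLe B.UH).toMonoidHom)
    (Subgroup.subgroupOfEquivOfLe B.UH).injective

variable {k : Type} [Field k] [CharZero k] [Algebra k ℝ] {Ω : Type} [Field Ω] [IsAlgClosed Ω] [CharZero Ω]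
  [Algebra k Ω] {G : Type} [Group G] [Finite G] {n : ℕ} {B : BN G n} {P : Par k}
  {D : HA P n (MonoidAlgebra k G)} {W : Type} [AddCommGroup W] [Module Ω W] [FiniteDimensional Ω W]
  {M : Representation Ω G W} {V : Type} [AddCommGroup V] [Module Ω V] [FiniteDimensional Ω V]
  {ρ : Representation Ω B.H V}

theorem skew_good {c : Parker.Ctx Ω} {Γ : Subgroup (RingAut Ω)} (hΓ : Parker.Ok c 1 Γ)
    (hρ : ρ.IsIrreducible) (hO : Parker.Orth ρ) (hF : Parker.FxC Γ ρ) (hM : M.IsIrreducible)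
    (φ : V →ₗ[Ω] W) (hφ : Function.Injective φ) (hφ' : ∀ (h : B.H) v, φ (ρ h v) = M h (φ v))
    (hg : B.gd = false) {a : Fin n → Bool} (ha : ¬ B.good a) (h0 : ev M (B.E0 ℚ a) ≠ 0) :
    Parker.GoodV c Γ ρ := by
  have hH : B.H = ⊤ := (B.ze2 hg).2.2
  obtain ⟨S, hS1, hS2, hS3, hS4⟩ := skew_el B hg
  obtain ⟨B', hB'⟩ := hO
  obtain ⟨hsum, horb⟩ := W05_aux.main hM h0
  have hT : ∀ v, φ (Parker.act ρ (fun h : B.H => ((S.coeff h : ℚ) : Ω)) v) = ev M S (φ v) := fun v => by
    rw [W05_aux.act_phi hH φ hφ' (fun g => S.coeff g) v, W05_aux.act_ev]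
  have hE : ∀ v, φ (eU (B.U.subgroupOf B.H) ρ v) = ev M (B.e ℚ) (φ v) := fun v => by
    show φ (B.eH ρ v) = _
    rw [W05_aux.eH_eq, W05_aux.act_phi hH φ hφ' (fun g => (B.e ℚ).coeff g) v, W05_aux.act_ev]
  have hskew : Parker.Skew B' (Parker.act ρ (fun h : B.H => ((S.coeff h : ℚ) : Ω))) := by
    refine Parker.skew_of_skew hB' (s := fun h : B.H => ((S.coeff h : ℚ) : Ω)) fun h => ?_
    have h1 := congrArg (fun x : LieP.Al ℚ G => x.coeff (h : G)) hS1
    have h2 : (LieP.st S).coeff (h : G) = (-S).coeff (h : G) := h1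
    rw [LieP.coeff_st] at h2
    have h3 : (-S).coeff (h : G) = -(S.coeff (h : G)) := rfl
    rw [h3] at h2
    show ((S.coeff ((h⁻¹ : B.H) : G) : ℚ) : Ω) = -((S.coeff (h : G) : ℚ) : Ω)
    rw [Subgroup.coe_inv, h2, Rat.cast_neg]
  have hrat : Parker.act ρ (fun h : B.H => ((S.coeff h : ℚ) : Ω)) ∈ Parker.Rat Γ ρ :=
    ⟨_, fun h σ _ => map_ratCast σ _, rfl⟩
  set T₀ := Parker.act ρ (fun h : B.H => ((S.coeff h : ℚ) : Ω)) with hT₀
  set E := eU (B.U.subgroupOf B.H) ρ with hEd
  have h1 : E * T₀ = T₀ := LinearMap.ext fun v => hφ (by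
    rw [Module.End.mul_apply, hE, hT, ← Module.End.mul_apply, ← map_mul, hS2])
  have h2 : T₀ * E = T₀ := LinearMap.ext fun v => hφ (by
    rw [Module.End.mul_apply, hT, hE, ← Module.End.mul_apply, ← map_mul, hS3, hT])
  have hav : ∀ x : ℚ, x ≠ 0 → padicValRat 2 x = 0 → c.av ((x : ℚ) : Ω) = 1 := fun x hx h => by
    rw [AN.av_rat c hx, h, zpow_zero]
  have key : ∀ (v : V) (r : Ω), v ≠ 0 → ((T₀ + (1 - E)) * (T₀ + (1 - E))) v = r • v → c.av r = 1 := by
    intro v r hv hr
    have e1 : φ (((T₀ + (1 - E)) * (T₀ + (1 - E))) v) =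
        ev M ((S + (1 - B.e ℚ)) * (S + (1 - B.e ℚ))) (φ v) := by
      have e0 : ∀ u, φ ((T₀ + (1 - E)) u) = ev M (S + (1 - B.e ℚ)) (φ u) := by
        intro u
        rw [map_add (ev M), map_sub (ev M), map_one (ev M)]
        simp only [LinearMap.add_apply, LinearMap.sub_apply, Module.End.one_apply, map_add, map_sub, hT, hE]
      rw [Module.End.mul_apply, e0, e0, map_mul, Module.End.mul_apply]
    have e2 : (S + (1 - B.e ℚ)) * (S + (1 - B.e ℚ)) = S * S + (1 - B.e ℚ) := by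
      have e3 := e_idem (k := ℚ) (B := B)
      have e4 : (S + (1 - B.e ℚ)) * (S + (1 - B.e ℚ)) = S * S + (S - S * B.e ℚ) + (S - B.e ℚ * S) +
          (1 - B.e ℚ - B.e ℚ + B.e ℚ * B.e ℚ) := by
        noncomm_ring
      rw [e4, hS2, hS3, e3]
      abel
    rw [hr, map_smul, e2] at e1
    have hw : φ v ≠ 0 := fun h => hv (hφ (by rw [h, map_zero]))
    generalize φ v = w at e1 hw
    by_cases hcase : ∃ b, ev M (B.E0 ℚ b) w ≠ 0
    · obtain ⟨b, hb⟩ := hcase
      obtain ⟨π, rfl⟩ := horb b (fun h => hb (by rw [h, LinearMap.zero_apply]))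
      obtain ⟨i, hi⟩ := W05_aux.not_good ha
      have hb' : ¬ B.good (fun i => a (π i)) := W05_aux.not_good' hg (i := π.symm i) (by
        show a (π (π.symm i)) = true
        rw [Equiv.apply_symm_apply, hi])
      obtain ⟨e5, c', hc1, hc2, hc3⟩ := hS4 _ hb'
      set F := B.E0 ℚ (fun i => a (π i)) with hF'
      have e6 : F * (S * S + (1 - B.e ℚ)) = -(c' • F) := by
        have e7 : F * (S * S) = S * S * F := by
          rw [← mul_assoc, ← e5, mul_assoc, ← e5, ← mul_assoc]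
        rw [mul_add, e7, hc3, mul_sub, mul_one, (e_E0 _).2, sub_self, add_zero]
      have e8 := congrArg (ev M F) e1
      rw [map_smul, ← Module.End.mul_apply, ← map_mul, e6, map_neg, ev_smul] at e8
      have e9 : r • ev M F w = (-((c' : ℚ) : Ω)) • ev M F w := by
        rw [e8, neg_smul]
        rfl
      have e10 : r = -((c' : ℚ) : Ω) := by
        by_contra hne
        apply hb
        have e11 : (r - (-((c' : ℚ) : Ω))) • ev M F w = 0 := by
          rw [sub_smul, e9, sub_self]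
        exact (smul_eq_zero.1 e11).resolve_left (sub_ne_zero.2 hne)
      rw [e10, AbsoluteValue.map_neg, hav _ hc1 hc2]
    · push Not at hcase
      have e3 : ev M (B.e ℚ) w = 0 := by
        rw [← hsum, LinearMap.sum_apply]
        exact Finset.sum_eq_zero fun b _ => hcase b
      have e4 : ev M (S * S) w = 0 := by
        have e5 : S * S = S * S * B.e ℚ := by
          rw [mul_assoc, hS3]
        rw [e5, map_mul, Module.End.mul_apply, e3, map_zero]
      rw [map_add, map_sub, map_one, LinearMap.add_apply, LinearMap.sub_apply, e3, e4, Module.End.one_apply,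
        zero_add, sub_zero] at e1
      have e6 : r = 1 := by
        by_contra hne
        apply hw
        have e7 : (r - 1) • w = 0 := by
          rw [sub_smul, e1, one_smul, sub_self]
        exact (smul_eq_zero.1 e7).resolve_left (sub_ne_zero.2 hne)
      rw [e6, map_one]
  have hdet : c.av (LinearMap.det ((T₀ + (1 - E)) * (T₀ + (1 - E)))) = 1 := by
    rw [Module.End.det_eq_prod_roots_charpoly_of_splits (IsAlgClosed.splits _), map_multiset_prod]
    refine Multiset.prod_eq_one fun x hx => ?_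
    obtain ⟨r, hr, rfl⟩ := Multiset.mem_map.mp hx
    have h3 := (Module.End.hasEigenvalue_iff_isRoot_charpoly _ r).mpr (Polynomial.isRoot_of_mem_roots hr)
    obtain ⟨v, hv⟩ := h3.exists_hasEigenvector
    exact key v r hv.2 (Module.End.mem_eigenspace_iff.mp hv.1)
  rw [map_mul, map_mul] at hdet
  have hdet1 : c.av (LinearMap.det (T₀ + (1 - E))) = 1 := by
    have h3 := c.av.nonneg (LinearMap.det (T₀ + (1 - E)))
    nlinarith
  refine cut1 hΓ hF hB' (U := B.U.subgroupOf B.H) ?_ ?_ hrat hskew h1 h2 ?_ ?_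
  · rw [W05_aux.card_sub]
    exact card_U B
  · have := solv_U B
    exact W05_aux.solv_sub
  · intro h
    rw [h, map_zero] at hdet1
    exact zero_ne_one hdet1
  · refine ⟨1, one_ne_zero, fun σ _ => map_one σ, ?_⟩
    rw [map_one, one_pow]
    exact hdet1.symm

theorem skew_dual (hρ : ρ.IsIrreducible) (hM : M.IsIrreducible) (φ : V →ₗ[Ω] W)
    (hφ : Function.Injective φ) (hφ' : ∀ (h : B.H) v, φ (ρ h v) = M h (φ v)) (hn : 0 < n)
    (hg : B.gd = false) {a : Fin n → Bool} (ha : ¬ B.good a) (h0 : ev M (B.E0 ℚ a) ≠ 0)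
    (ho : Odd (Module.finrank Ω (LinearMap.range (B.eH ρ)))) :
    ¬ Parker.SD ρ ∧ ∀ σ : RingAut Ω, (∀ (i : Fin n) (z : Ω), (i : ℕ) = 0 →
      z ^ 2 = -(Nat.card (B.R i) : Ω) → σ z = z) → ¬ ∀ h, σ (ρ.character h) = ρ.character h⁻¹ := by
  have hH : B.H = ⊤ := (B.ze2 hg).2.2
  have hh : ∀ g : G, g ∈ B.H := fun g => by
    rw [hH]
    exact Subgroup.mem_top g
  obtain ⟨hsum, horb⟩ := W05_aux.main hM h0
  have hsurj := W05_aux.phi_surj hH hρ hM φ hφ hφ'
  obtain ⟨ψ, hψ⟩ : ∃ ψ : V ≃ₗ[Ω] W, ∀ v, ψ v = φ v := ⟨LinearEquiv.ofBijective φ ⟨hφ, hsurj⟩, fun v => rfl⟩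
  have hconj : ∀ (f : Module.End Ω V) (f' : Module.End Ω W), (∀ v, φ (f v) = f' (φ v)) →
      LinearMap.trace Ω V f = LinearMap.trace Ω W f' := by
    intro f f' h
    rw [← LinearMap.trace_conj' f ψ]
    congr 1
    refine LinearMap.ext fun w => ?_
    rw [LinearEquiv.conj_apply]
    show ψ (f (ψ.symm w)) = f' w
    rw [hψ, h, ← hψ, LinearEquiv.apply_symm_apply]
  have hch : ∀ h : B.H, ρ.character h = M.character (h : G) := fun h => hconj _ _ fun v => hφ' h v
  have hE : ∀ v, φ (B.eH ρ v) = ev M (B.e ℚ) (φ v) := fun v => by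
    rw [W05_aux.eH_eq, W05_aux.act_phi hH φ hφ' (fun g => (B.e ℚ).coeff g) v, W05_aux.act_ev]
  -- odd dimension of one of the spaces
  have hidem : ∀ b, ev M (B.E0 ℚ b) * ev M (B.E0 ℚ b) = ev M (B.E0 ℚ b) := fun b => by
    rw [← map_mul, E0_mul, if_pos rfl]
  have hdim : Module.finrank Ω (LinearMap.range (B.eH ρ)) =
      ∑ b : Fin n → Bool, Module.finrank Ω (LinearMap.range (ev M (B.E0 ℚ b))) := by
    have h1 : ((Module.finrank Ω (LinearMap.range (B.eH ρ)) : ℕ) : Ω) =
        ((∑ b : Fin n → Bool, Module.finrank Ω (LinearMap.range (ev M (B.E0 ℚ b))) : ℕ) : Ω) := by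
      rw [Nat.cast_sum]
      rw [← W05_aux.trace_idem (f := B.eH ρ) eU_idem, hconj _ _ hE, ← hsum, map_sum]
      exact Finset.sum_congr rfl fun b _ => W05_aux.trace_idem (hidem b)
    exact_mod_cast h1
  obtain ⟨a', ha'⟩ : ∃ b : Fin n → Bool, Odd (Module.finrank Ω (LinearMap.range (ev M (B.E0 ℚ b)))) := by
    by_contra hcon
    push Not at hcon
    rw [hdim] at ho
    refine Nat.not_even_iff_odd.2 ho (Finset.even_sum _ fun b _ => ?_)
    exact Nat.not_odd_iff_even.1 (hcon b)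
  have hne : ev M (B.E0 ℚ a') ≠ 0 := by
    intro h
    rw [h, LinearMap.range_zero, finrank_bot] at ha'
    exact absurd ha' (by decide)
  obtain ⟨π, rfl⟩ := horb a' hne
  obtain ⟨i, hi⟩ := W05_aux.not_good ha
  obtain ⟨b, hb1, hb2⟩ := W05_aux.move (M := M) (B := B) hn (π.symm i : Fin n) (π.symm i).2 (fun i => a (π i)) (by
    show a (π (π.symm i)) = true
    rw [Equiv.apply_symm_apply, hi])
  rw [W05_aux.trace_idem (hidem fun i => a (π i))] at hb2
  -- the operator X
  set i0 : Fin n := ⟨0, hn⟩ with hi0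
  have hz := B.ze2 hg
  have hX := Xq0 (k := ℚ) (B := B) (i := i0) rfl b
  rw [hb1, hz.1, hz.2.1] at hX
  have hq : ((Nat.card (B.R i0) : Ω)) ≠ 0 := Nat.cast_ne_zero.2 Nat.card_pos.ne'
  set r : Ω := (Nat.card (B.R i0) : Ω) with hr
  set Y := ev M (B.b ℚ (B.s i0)) with hY
  set A := ev M (B.E0 ℚ b) with hA
  have hAA : A * A = A := hidem b
  have hYA : Y * A = A * Y := by
    rw [hY, hA, ← map_mul, s0_E0 rfl, map_mul]
  have hYYA : Y * Y * A = -(r⁻¹ • A) := by
    rw [hY, hA, ← map_mul, ← map_mul, hX]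
    simp only [Int.cast_zero, mul_zero, zero_smul, add_zero, Units.val_neg, Units.val_one, Int.cast_neg, Int.cast_one,
      mul_neg, mul_one]
    rw [ev_smul, map_neg, map_inv₀, map_natCast, neg_smul]
  obtain ⟨z, hz1⟩ := IsAlgClosed.exists_pow_nat_eq (-r⁻¹) (n := 2) (by norm_num)
  have hz0 : z ≠ 0 := by
    rintro rfl
    rw [zero_pow two_ne_zero] at hz1
    exact inv_ne_zero hq (neg_eq_zero.1 hz1.symm)
  have hYAYA : (Y * A) * (Y * A) = z ^ 2 • A := by
    have e1 : (Y * A) * (Y * A) = Y * Y * A := by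
      calc (Y * A) * (Y * A) = Y * (A * Y) * A := by noncomm_ring
        _ = Y * (Y * A) * A := by rw [hYA]
        _ = Y * Y * (A * A) := by noncomm_ring
        _ = Y * Y * A := by rw [hAA]
    rw [e1, hYYA, hz1, neg_smul]
  have hAYA : A * (Y * A) = Y * A := by
    rw [← mul_assoc, ← hYA, mul_assoc, hAA]
  have hYAA : (Y * A) * A = Y * A := by
    rw [mul_assoc, hAA]
  have hproj : ∀ e : Ω, e ^ 2 = 1 → ((2 : Ω)⁻¹ • (A + (e * z⁻¹) • (Y * A))) *
      ((2 : Ω)⁻¹ • (A + (e * z⁻¹) • (Y * A))) = (2 : Ω)⁻¹ • (A + (e * z⁻¹) • (Y * A)) := by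
    intro e he
    rw [smul_mul_smul_comm, mul_add, add_mul, add_mul, hAA, smul_mul_assoc, mul_smul_comm, smul_mul_smul_comm, hYAYA,
      hAYA, hYAA, smul_smul]
    have e2 : e * z⁻¹ * (e * z⁻¹) * z ^ 2 = 1 := by
      field_simp
      exact he
    rw [e2, one_smul]
    have e3 : A + (e * z⁻¹) • (Y * A) + ((e * z⁻¹) • (Y * A) + A) = (2 : Ω) • (A + (e * z⁻¹) • (Y * A)) := by
      rw [two_smul]
      abel
    rw [e3, smul_smul]
    congr 1
    norm_num
  obtain ⟨p, hp⟩ : ∃ p : ℕ, LinearMap.trace Ω W ((2 : Ω)⁻¹ • (A + (1 * z⁻¹) • (Y * A))) = (p : Ω) :=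
    ⟨_, W05_aux.trace_idem (hproj 1 (by norm_num))⟩
  obtain ⟨m, hm⟩ : ∃ m : ℕ, LinearMap.trace Ω W ((2 : Ω)⁻¹ • (A + ((-1) * z⁻¹) • (Y * A))) = (m : Ω) :=
    ⟨_, W05_aux.trace_idem (hproj (-1) (by norm_num))⟩
  rw [map_smul, map_add, map_smul, smul_eq_mul, smul_eq_mul] at hp hm
  set t := LinearMap.trace Ω W (Y * A) with ht
  have ht1 : t = z * ((p : Ω) - (m : Ω)) := by
    rw [← hp, ← hm]
    field_simp
    ring
  have hpm : p + m = Module.finrank Ω (LinearMap.range (ev M (B.E0 ℚ fun i => a (π i)))) := by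
    have e1 : ((p + m : ℕ) : Ω) =
        ((Module.finrank Ω (LinearMap.range (ev M (B.E0 ℚ fun i => a (π i)))) : ℕ) : Ω) := by
      rw [Nat.cast_add, ← hp, ← hm, ← hb2]
      field_simp
      ring
    exact_mod_cast e1
  have hpne : (p : Ω) - (m : Ω) ≠ 0 := by
    intro h
    have h1 : p = m := by exact_mod_cast sub_eq_zero.1 h
    rw [← hpm, h1] at ha'
    exact Nat.not_even_iff_odd.2 ha' ⟨m, rfl⟩
  have ht0 : t ≠ 0 := by
    rw [ht1]
    exact mul_ne_zero hz0 hpne
  -- the trace as a sum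
  obtain ⟨x, hx⟩ : ∃ x, x = B.b ℚ (B.s i0) * B.E0 ℚ b := ⟨_, rfl⟩
  let _ := Fintype.ofFinite G
  have htr : t = ∑ g, ((x.coeff g : ℚ) : Ω) * M.character g := by
    rw [← Parker.trace_act, W05_aux.act_ev, hx, map_mul]
  have hst : LieP.st x = -x := by
    have hT : B.s i0 * B.s i0 ∈ B.T := B.s2 i0
    have hT' : (B.s i0 * B.s i0)⁻¹ ∈ B.T := B.T.inv_mem hT
    have e1 : (B.s i0)⁻¹ = (B.s i0 * B.s i0)⁻¹ * B.s i0 := by group
    have e2 : B.th b ((B.s i0 * B.s i0)⁻¹) = -1 := by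
      rw [LieP.lin_inv (U := B.T) (B.thm b) hT, B.ez i0 rfl b, hb1, hz.1]
    rw [hx, LieP.st_mul, st_E0, b_st, e1, ← (b_xg hT' (B.s i0)).1, ← mul_assoc, (b_E0 hT' b).2, e2, smul_mul_assoc,
      ← s0_E0 rfl]
    simp
  have hdual : ∑ g, ((x.coeff g : ℚ) : Ω) * M.character g⁻¹ = -t := by
    rw [htr, ← Finset.sum_neg_distrib]
    refine Fintype.sum_equiv (Equiv.inv G) _ _ fun g => ?_
    show _ = -(((x.coeff g⁻¹ : ℚ) : Ω) * M.character g⁻¹)
    have e1 : x.coeff g⁻¹ = -(x.coeff g) := by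
      rw [← LieP.coeff_st, hst]
      rfl
    rw [e1, Rat.cast_neg, neg_mul, neg_neg]
  have h2t : t = -t → False := fun h => by
    apply ht0
    have h3 : (2 : Ω) * t = 0 := by
      rw [two_mul]
      nth_rewrite 2 [h]
      exact add_neg_cancel t
    exact (mul_eq_zero.1 h3).resolve_left two_ne_zero
  constructor
  · intro hsd
    apply h2t
    rw [← hdual, htr]
    refine Finset.sum_congr rfl fun g _ => ?_
    have h3 := hsd ⟨g, hh g⟩
    rw [hch, hch] at h3
    rw [← h3]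
    rfl
  · intro σ hσ hd
    apply h2t
    have h3 : σ z = z := by
      have h4 := hσ i0 (r * z) rfl (by
        rw [mul_pow, hz1, hr]
        field_simp)
      rw [map_mul, hr, map_natCast] at h4
      exact mul_left_cancel₀ hq h4
    have h4 : σ t = t := by
      rw [ht1, map_mul, map_sub, map_natCast, map_natCast, h3]
    rw [← hdual]
    nth_rewrite 1 [← h4]
    rw [htr, map_sum]
    refine Finset.sum_congr rfl fun g _ => ?_
    have h5 := hd ⟨g, hh g⟩
    rw [hch, hch] at h5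
    rw [map_mul, map_ratCast]
    congr 1

end

end AO
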