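import Pool.Agent.AO.H07
import Pool.Agent.AO.W04
import Pool.Agent.AO.W05
import Pool.Agent.AO.A03
import Pool.Agent.AO.B01
import Pool.Agent.AO.B03
import Pool.Agent.AO.B04
import Pool.Agent.Parker.N01
import Pool.Agent.Parker.P06
import Pool.Agent.Parker.P10

/-!
# MP_6c3636_al, AO, module Z01: properties (A) and (B) for groups with a BN-pair (helper7)

`bn_good`: `L05`: `D` with `Dg B P D`. `ρ` is orthogonal, so its character is real and the dimension of the range of `eH` is even (`even_E`, A00). Apply `B.re`. If there is no `f : G → ℤˣ`, multiplicative on `T ⊓ H`, with `wt ρ f ≠ ⊥`: `good_noreal` (A03) for the group `B.H`, `U = B.U.subgroupOf B.H`, `S = B.T.subgroupOf B.H` (odd order, solvable: L10). Otherwise let `f` be such a function. Second case of `re`: `nu_good` (W04). First case: `wt ρ (th a) ≠ ⊥` (`wtH_congr`), `exists_M` (W02); `a` good: `(D.on M).Et ≠ 0` (`(D.on M).E a = ev M (B.E0 k a) ≠ 0` and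 `E a Et = E a`), `typed_good` (H07); `a` not good (so `gd = false`): `skew_good` (W05). `bn_propA`: let `R₀` be the number of `hfix`; `Γ' = {σ ∈ Γ : σ z = z for z ^ R₀ = 1}`; `Parker.sqV_unram` (N01), `bn_good` for `Γ'`, `Parker.sqV_of_good` (as in LieP/Z02.lean). `bn_B`: `ψ` real or mapped to `ψ*` by all `σ ∈ Γ` which do not fix it. If all `σ ∈ Γ` fix `ψ` then `d` is fixed. Otherwise `odd_E` (B02). If there is no real weight: then `ρ` is not self dual (`wt_real`; a function with values `1`, `-1` in `Ω` comes from a function to `ℤˣ`), there is a `σ₀ ∈ Γ` with `σ₀ ψ = ψ*`; `nonreal_I` (B03) with `I ^ 2 = -1`: `d / I` is fixed by `Γ`, `c.av I = 1` (`I ^ 4 = 1`). If there is a real weight `f`: second case of `re`: `nt_even` (W03) contradicts the odd dimension. First case: `exists_M`; `a` good: `typed_B` (B04); `a` not good: `skew_dual` (W05): `ρ` is not self dual and no `σ ∈ Γ` maps `ψ` to `ψ*`, so all fix `ψ`.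 `bn_propB`: `propB_of` (B01) with `r = R₀ * (odd part of |G|)`.
-/

namespace AO

noncomputable section

open Classical Equiv

open AN (sq)


namespace Z01_aux

/-- the elements of `Γ` which fix the `R`-th roots of unity -/
def fixR {Ω : Type} [Field Ω] (Γ : Subgroup (RingAut Ω)) (R : ℕ) : Subgroup (RingAut Ω) where
  carrier := {σ | σ ∈ Γ ∧ ∀ z : Ω, z ^ R = 1 → σ z = z}
  mul_mem' := by
    rintro σ τ ⟨h1, h2⟩ ⟨h3, h4⟩
    refine ⟨Γ.mul_mem h1 h3, fun z hz => ?_⟩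
    rw [RingAut.mul_apply, h4 z hz, h2 z hz]
  one_mem' := ⟨Γ.one_mem, fun z _ => rfl⟩
  inv_mem' := by
    rintro σ ⟨h1, h2⟩
    refine ⟨Γ.inv_mem h1, fun z hz => ?_⟩
    have h3 : σ⁻¹ (σ z) = z := by
      rw [← RingAut.mul_apply, inv_mul_cancel, RingAut.one_apply]
    rw [h2 z hz] at h3
    exact h3

section G0

variable {G : Type} [Group G] [Finite G] {n : ℕ} (B : BN G n)

theorem odd_U : Odd (Nat.card (B.U.subgroupOf B.H)) := by
  rw [Nat.card_congr (Subgroup.subgroupOfEquivOfLe B.UH).toEquiv]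
  exact card_U B

theorem solv_U' : Group.IsSolvable (B.U.subgroupOf B.H) := by
  have h := solv_U B
  exact Group.isSolvable_of_surjective (f := (Subgroup.subgroupOfEquivOfLe B.UH).symm.toMonoidHom)
    (Subgroup.subgroupOfEquivOfLe B.UH).symm.surjective

end G0

section W0

variable {Ω : Type} [Field Ω] [IsAlgClosed Ω] [CharZero Ω] {G : Type} [Group G] [Finite G] {n : ℕ}
  {B : BN G n} {V : Type} [AddCommGroup V] [Module Ω V] [FiniteDimensional Ω V]
  {ρ : Representation Ω B.H V}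

/-- the values of a function with values `1`, `-1` -/
def cs (Ω : Type) [Field Ω] {G : Type} (f : G → ℤˣ) : G → Ω := fun x => (((f x : ℤˣ) : ℤ) : Ω)

theorem cs_inj {a b : ℤˣ} (h : (((a : ℤˣ) : ℤ) : Ω) = (((b : ℤˣ) : ℤ) : Ω)) : a = b := by
  have h1 : ((a : ℤˣ) : ℤ) = ((b : ℤˣ) : ℤ) := by exact_mod_cast h
  exact Units.ext h1

theorem wt_ne {f : G → Ω} {v : V} (hv : v ∈ B.wt ρ f) (h0 : v ≠ 0) : B.wt ρ f ≠ ⊥ := by
  intro h
  rw [h] at hv
  exact h0 ((Submodule.mem_bot Ω).1 hv)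

theorem eH_ne {f : G → Ω} (h : B.wt ρ f ≠ ⊥) : B.eH ρ ≠ 0 := by
  intro h0
  obtain ⟨v, hv, hne⟩ := Submodule.exists_mem_ne_zero_of_ne_bot h
  have h1 : B.eH ρ v = v := hv.1
  rw [h0, LinearMap.zero_apply] at h1
  exact hne h1.symm

theorem no_real (hn : ¬ ∃ f : G → ℤˣ, (∀ x ∈ B.T ⊓ B.H, ∀ y ∈ B.T ⊓ B.H, f (x * y) = f x * f y) ∧
      B.wt ρ (cs Ω f) ≠ ⊥) (f : B.H → ℤˣ)
    (hf : ∀ x ∈ B.T.subgroupOf B.H, ∀ y ∈ B.T.subgroupOf B.H, f (x * y) = f x * f y) (v : V)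
    (hv : eU (B.U.subgroupOf B.H) ρ v = v)
    (hx : ∀ x ∈ B.T.subgroupOf B.H, ρ x v = (((f x : ℤˣ) : ℤ) : Ω) • v) : v = 0 := by
  by_contra h0
  refine hn ⟨fun g => if hg : g ∈ B.H then f ⟨g, hg⟩ else 1, ?_, ?_⟩
  · rintro x ⟨h1, h2⟩ y ⟨h3, h4⟩
    have h1' : x ∈ B.T := h1
    have h2' : x ∈ B.H := h2
    have h3' : y ∈ B.T := h3
    have h4' : y ∈ B.H := h4
    simp only
    rw [dif_pos h2', dif_pos h4', dif_pos (B.H.mul_mem h2' h4')]
    exact hf ⟨x, h2'⟩ (Subgroup.mem_subgroupOf.2 h1') ⟨y, h4'⟩ (Subgroup.mem_subgroupOf.2 h3')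
  · refine wt_ne (v := v) ⟨hv, fun x hx' hT => ?_⟩ h0
    rw [hx ⟨x, hx'⟩ (Subgroup.mem_subgroupOf.2 hT)]
    unfold cs
    simp only
    rw [dif_pos hx']

theorem exists_sign {f : G → Ω} (h : B.wt ρ f ≠ ⊥) (hr : ∀ x ∈ B.T ⊓ B.H, f x = (f x)⁻¹) :
    ∃ f' : G → ℤˣ, (∀ x ∈ B.T ⊓ B.H, f x = cs Ω f' x) ∧
      (∀ x ∈ B.T ⊓ B.H, ∀ y ∈ B.T ⊓ B.H, f' (x * y) = f' x * f' y) ∧ B.wt ρ (cs Ω f') ≠ ⊥ := by
  have hm := wtH_mult h
  have h1 : ∀ x ∈ B.T ⊓ B.H, f x = cs Ω (fun x => if f x = 1 then (1 : ℤˣ) else -1) x := by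
    intro x hx
    have h2 : f x ≠ 0 := by
      intro h3
      have h4 := hm.2 x hx
      rw [h3, zero_pow Nat.card_pos.ne'] at h4
      exact zero_ne_one h4
    have h3 : f x * f x = 1 := by
      nth_rewrite 2 [hr x hx]
      exact mul_inv_cancel₀ h2
    unfold cs
    simp only
    rcases mul_self_eq_one_iff.1 h3 with h4 | h4
    · rw [if_pos h4, h4]
      simp
    · have h5 : f x ≠ 1 := by
        rw [h4]
        intro h6
        have h7 : (2 : Ω) = 0 := by linear_combination -h6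
        exact two_ne_zero h7
      rw [if_neg h5, h4]
      simp
  refine ⟨fun x => if f x = 1 then (1 : ℤˣ) else -1, h1, ?_, ?_⟩
  · intro x hx y hy
    have h2 := hm.1 x hx y hy
    rw [h1 x hx, h1 y hy, h1 (x * y) ((B.T ⊓ B.H).mul_mem hx hy)] at h2
    unfold cs at h2
    apply cs_inj (Ω := Ω)
    rw [h2]
    push_cast
    rfl
  · rw [← wtH_congr h1]
    exact h

end W0

section D0

variable {k : Type} [Field k] [CharZero k] {Ω : Type} [Field Ω] [Algebra k Ω] {G : Type} [Group G]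
  [Finite G] {n : ℕ} {B : BN G n} {P : Par k} {D : HA P n (MonoidAlgebra k G)} {W : Type}
  [AddCommGroup W] [Module Ω W] {M : Representation Ω G W}

theorem et_ne (hD : Dg B P D) {a : Fin n → Bool} (ha : B.good a) (h : ev M (B.E0 k a) ≠ 0) :
    (D.on M).Et ≠ 0 := by
  intro h0
  have h1 : (D.on M).E a = ev M (B.E0 k a) := by
    show ev M (D.E a) = _
    rw [hD.E a]
    unfold BN.Eg
    rw [if_pos ha]
  have h2 : (D.on M).Et * (D.on M).E a = (D.on M).E a := by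
    unfold HA.Et
    rw [Finset.sum_mul, Finset.sum_eq_single a]
    · rw [(D.on M).EE, if_pos rfl]
    · intro b _ hb
      rw [(D.on M).EE, if_neg hb]
    · intro h3
      exact absurd (Finset.mem_univ a) h3
  rw [h0, zero_mul, h1] at h2
  exact h h2.symm

theorem gd_false {a : Fin n → Bool} (ha : ¬ B.good a) : B.gd = false := by
  by_contra h
  exact ha (Or.inl (by simpa using h))

end D0

end Z01_aux

/-- the elements of `k` are fixed by the automorphisms which fix the roots of unity of some odd order, and the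
square roots of `-|R 0|` too if not all labels are allowed -/
def FixOK (Ω : Type) [Field Ω] {G : Type} [Group G] {n : ℕ} (B : BN G n) (k : Type) [Field k]
    [Algebra k Ω] : Prop :=
  ∃ R₀ : ℕ, Odd R₀ ∧ ∀ σ : RingAut Ω, (∀ z : Ω, z ^ R₀ = 1 → σ z = z) →
    (∀ x : k, σ (algebraMap k Ω x) = algebraMap k Ω x) ∧ (B.gd = false → ∀ (i : Fin n) (z : Ω),
      (i : ℕ) = 0 → z ^ 2 = -(Nat.card (B.R i) : Ω) → σ z = z)

variable {k : Type} [Field k] [CharZero k] [Algebra k ℝ] {Ω : Type} [Field Ω] [IsAlgClosed Ω]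
  [CharZero Ω] [Algebra k Ω] {c : Parker.Ctx Ω} {G : Type} [Group G] [Finite G] {n : ℕ} {B : BN G n}
  {P : Par k}

theorem bn_good (hP : Fit B P) (hn : 0 < n) {Γ : Subgroup (RingAut Ω)} (hΓ : Parker.Ok c 1 Γ)
    (hk : ∀ σ ∈ Γ, ∀ x : k, σ (algebraMap k Ω x) = algebraMap k Ω x) {V : Type} [AddCommGroup V]
    [Module Ω V] [FiniteDimensional Ω V] {ρ : Representation Ω B.H V} (hρ : ρ.IsIrreducible)
    (he : Even (Module.finrank Ω V)) (hO : Parker.Orth ρ) (hF : Parker.FxC Γ ρ) :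
    Parker.GoodV c Γ ρ := by
  obtain ⟨D, hD⟩ := exists_D (B := B) hP
  have hSD : Parker.SD ρ := Parker.sd_of_orth hO
  have hU := Z01_aux.odd_U B
  have hs := Z01_aux.solv_U' B
  have hev : Even (Module.finrank Ω (LinearMap.range (B.eH ρ))) :=
    (even_E (ρ := ρ) (U := B.U.subgroupOf B.H) hU (fun u _ => hSD u)).1 he
  by_cases h : ∃ f : G → ℤˣ, (∀ x ∈ B.T ⊓ B.H, ∀ y ∈ B.T ⊓ B.H, f (x * y) = f x * f y) ∧
      B.wt ρ (Z01_aux.cs Ω f) ≠ ⊥
  · obtain ⟨f, hf, hw⟩ := h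
    rcases B.re f hf with ⟨a, ha⟩ | hν
    · have hw' : B.wt ρ (fun x => (((B.th a x : ℤˣ) : ℤ) : Ω)) ≠ ⊥ := by
        rw [← wtH_congr (f := Z01_aux.cs Ω f) (fun x hx => by
          unfold Z01_aux.cs
          rw [ha x hx])]
        exact hw
      obtain ⟨W, _, _, _, M, φ, hM, hφ, hφ', hE0⟩ := exists_M hρ hw'
      by_cases hg : B.good a
      · exact typed_good hΓ hρ hO hF hM φ hφ hφ' hP hD (Z01_aux.et_ne hD hg (hE0 k)) hn
          (Z01_aux.eH_ne hw) hk hev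
      · exact skew_good hΓ hρ hO hF hM φ hφ hφ' (Z01_aux.gd_false hg) hg (hE0 ℚ)
    · exact nu_good hΓ hρ hO hF hn hw hν
  · refine good_noreal hΓ hO hF (U := B.U.subgroupOf B.H) (S := B.T.subgroupOf B.H) hU hs ?_ ?_
      (Z01_aux.no_real h)
    · intro x hx y hy
      exact Subtype.ext (B.Tc x (Subgroup.mem_subgroupOf.1 hx) y (Subgroup.mem_subgroupOf.1 hy))
    · intro x hx u hu
      exact Subgroup.mem_subgroupOf.2
        (B.TU x (Subgroup.mem_subgroupOf.1 hx) u (Subgroup.mem_subgroupOf.1 hu))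

theorem bn_propA (hP : Fit B P) (hn : 0 < n) (hfix : FixOK Ω B k) : Parker.PropA c 1 B.H := by
  intro Γ hΓ n' ρ hρ he hO hF s hs hk hd
  obtain ⟨R₀, hR₀, hfx⟩ := hfix
  refine Parker.sqV_unram (Γ' := Z01_aux.fixR Γ R₀) hΓ.pres hR₀ (fun σ h1 h2 => ⟨h1, h2⟩) ?_
  have hle : Z01_aux.fixR Γ R₀ ≤ Γ := fun σ h => h.1
  have hF' : Parker.FxC (Z01_aux.fixR Γ R₀) ρ := fun g σ h => hF g σ h.1
  refine Parker.sqV_of_good hρ hF' ?_ (fun g σ h => hs g σ h.1) hk hd
  refine bn_good hP hn (Parker.ok_mono hΓ hle) (fun σ h => (hfx σ h.2).1) hρ ?_ hO hF'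
  rw [Module.finrank_fin_fun]
  exact he

/-- property (B) after the reduction -/
private theorem bn_B (hP : Fit B P) (hn : 0 < n) {Γ : Subgroup (RingAut Ω)}
    (hk : ∀ σ ∈ Γ, ∀ x : k, σ (algebraMap k Ω x) = algebraMap k Ω x)
    (hsq : B.gd = false → ∀ σ ∈ Γ, ∀ (i : Fin n) (z : Ω),
      (i : ℕ) = 0 → z ^ 2 = -(Nat.card (B.R i) : Ω) → σ z = z)
    (hr : ∀ σ ∈ Γ, ∀ (r : ℕ) (z : Ω), Odd r → r ∣ Nat.card G → z ^ r = 1 → σ z = z)
    {V : Type} [AddCommGroup V] [Module Ω V] [FiniteDimensional Ω V] {ρ : Representation Ω B.H V}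
    (hρ : ρ.IsIrreducible) (ho : Odd (Module.finrank Ω V))
    (h : Parker.SD ρ ∨ ∀ σ ∈ Γ, Parker.Fixes σ ρ ∨ ∀ g, σ (ρ.character g) = ρ.character g⁻¹)
    {d : Ω} (hd : d ≠ 0) (hσ : ∀ σ ∈ Γ, σ d = if Parker.Fixes σ ρ then d else - d) :
    Parker.InV c Γ (c.av d) := by
  by_cases hall : ∀ σ ∈ Γ, Parker.Fixes σ ρ
  · exact ⟨d, hd, fun σ hσ' => by rw [hσ σ hσ', if_pos (hall σ hσ')], rfl⟩
  · push Not at hall
    obtain ⟨σ₀, hσ₀, hnf⟩ := hall
    obtain ⟨D, hD⟩ := exists_D (B := B) hP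
    have hoE : Odd (Module.finrank Ω (LinearMap.range (B.eH ρ))) := by
      refine odd_E ho ?_
      rcases h with h | h
      · exact Or.inl h
      · exact Or.inr ⟨σ₀, hr σ₀ hσ₀, (h σ₀ hσ₀).resolve_left hnf⟩
    by_cases hreal : ∃ f, B.wt ρ f ≠ ⊥ ∧ ∀ x ∈ B.T ⊓ B.H, f x = (f x)⁻¹
    · obtain ⟨f₀, hf₀, hf₀r⟩ := hreal
      obtain ⟨f, _, hf, hw⟩ := Z01_aux.exists_sign hf₀ hf₀r
      rcases B.re f hf with ⟨a, ha⟩ | hν
      · have hw' : B.wt ρ (fun x => (((B.th a x : ℤˣ) : ℤ) : Ω)) ≠ ⊥ := by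
          rw [← wtH_congr (f := Z01_aux.cs Ω f) (fun x hx => by
            unfold Z01_aux.cs
            rw [ha x hx])]
          exact hw
        obtain ⟨W, _, _, _, M, φ, hM, hφ, hφ', hE0⟩ := exists_M hρ hw'
        by_cases hg : B.good a
        · exact typed_B hρ hM φ hφ hφ' hP hD (Z01_aux.et_ne hD hg (hE0 k)) hn
            (Z01_aux.eH_ne hw) hk hd hσ
        · exfalso
          have hgd := Z01_aux.gd_false hg
          obtain ⟨h1, h2⟩ := skew_dual hρ hM φ hφ hφ' hn hgd hg (hE0 ℚ) hoE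
          exact h2 σ₀ (hsq hgd σ₀ hσ₀) (((h.resolve_left h1) σ₀ hσ₀).resolve_left hnf)
      · exfalso
        refine (Nat.not_even_iff_odd.2 hoE) (nt_even hρ hn hw fun m hm hH => ?_)
        obtain ⟨x, hx, hne⟩ := hν m hm hH
        exact ⟨x, hx, fun h3 => hne (Z01_aux.cs_inj h3)⟩
    · have hnr : ∀ f, B.wt ρ f ≠ ⊥ → ∃ x ∈ B.T ⊓ B.H, f x ≠ (f x)⁻¹ := by
        intro f hf
        by_contra h1
        push Not at h1
        exact hreal ⟨f, hf, h1⟩
      have hnsd : ¬ Parker.SD ρ := by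
        intro h1
        obtain ⟨f, hf, hx⟩ := wt_real hoE h1
        exact hreal ⟨f, hf, hx⟩
      have h' := h.resolve_left hnsd
      have h₀ := (h' σ₀ hσ₀).resolve_left hnf
      obtain ⟨I, hI⟩ := IsAlgClosed.exists_eq_mul_self (-1 : Ω)
      have hI0 : I ≠ 0 := by
        intro h1
        rw [h1, mul_zero] at hI
        exact (neg_ne_zero.2 one_ne_zero) hI
      have hav : c.av I = 1 := by
        have h1 : c.av I * c.av I = 1 := by
          rw [← map_mul, ← hI, AbsoluteValue.map_neg, map_one]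
        rcases mul_self_eq_one_iff.1 h1 with h2 | h2
        · exact h2
        · have h3 := c.av.nonneg I
          rw [h2] at h3
          norm_num at h3
      refine ⟨d / I, div_ne_zero hd hI0, fun σ hσ' => ?_, ?_⟩
      · obtain ⟨h1, h2⟩ := nonreal_I hρ hoE hnr (hr σ₀ hσ₀) h₀ (hr σ hσ') hI.symm
        rw [map_div₀, hσ σ hσ']
        by_cases h3 : Parker.Fixes σ ρ
        · rw [if_pos h3, h1 h3]
        · rw [if_neg h3, h2 ((h' σ hσ').resolve_left h3), neg_div_neg_eq]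
      · rw [map_div₀, hav, div_one]

theorem bn_propB (hP : Fit B P) (hn : 0 < n) (hfix : FixOK Ω B k) : Parker.PropB c 1 B.H := by
  obtain ⟨R₀, hR₀, hfx⟩ := hfix
  obtain ⟨j, r₁, hr₁, hc⟩ := Nat.exists_eq_two_pow_mul_odd (n := Nat.card G) Nat.card_pos.ne'
  refine propB_of (r := R₀ * r₁) (hR₀.mul hr₁) fun Γ _ hΓr m ρ hρ ho h d hd hσ => ?_
  have hfx' : ∀ σ ∈ Γ, ∀ z : Ω, z ^ R₀ = 1 → σ z = z := by
    intro σ hσ' z hz
    refine hΓr σ hσ' z ?_
    rw [pow_mul, hz, one_pow]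
  refine bn_B hP hn (fun σ hσ' => (hfx σ (hfx' σ hσ')).1) (fun hg σ hσ' => (hfx σ (hfx' σ hσ')).2 hg)
    ?_ hρ ?_ h hd hσ
  · intro σ hσ' r z hro hrd hz
    refine hΓr σ hσ' z ?_
    have h1 : r ∣ r₁ := by
      rw [hc] at hrd
      exact (Nat.Coprime.pow_right j (Nat.coprime_two_right.2 hro)).dvd_of_dvd_mul_left hrd
    obtain ⟨t, ht⟩ := h1
    rw [ht, mul_comm, mul_assoc, pow_mul, hz, one_pow]
  · rw [Module.finrank_fin_fun]
    exact ho

end

end AO
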