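import Pool.Agent.AO.G00
import Pool.Agent.AO.Z01

/-!
# MP_6c3636_al, AO, module G01: from BNin to BN (helper7)

The fields of `BN` for the group `I` from those of `BNin`; `NN` of the subgroups of `I` is mapped onto `NN X.s X.T` by the inclusion (`MonoidHom.map_closure`), `rsum` in `I` is `rsum` in `G` (a bijection between `R i` and `(R i).subgroupOf I`; `hh i r ∈ T ≤ I` for `r ∈ R i`, `r ≠ 1`). `re`: extend `f : I → ℤˣ` by `1` to `G`. `propA_in`, `propB_in`: `(H.subgroupOf I) ≃* H` as `H ≤ I` (`Subgroup.subgroupOfEquivOfLe`), `Parker.PropA`, `Parker.PropB` for isomorphic groups: see `Parker` / `ParkerGL` library (used in LieP/Z03.lean, Z04.lean for example).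
-/

namespace AO

noncomputable section

open Classical Equiv

open AN (sq)

variable {G : Type} [Group G] {I : Subgroup G} {n : ℕ}

namespace G01_aux

theorem NN_in (X : BNin I n) (m : I) :
    m ∈ NN (fun i => (⟨X.s i, X.sI i⟩ : I)) (X.T.subgroupOf I) ↔ (m : G) ∈ NN X.s X.T := by
  have h : (NN (fun i => (⟨X.s i, X.sI i⟩ : I)) (X.T.subgroupOf I)).map I.subtype = NN X.s X.T := by
    unfold NN
    rw [MonoidHom.map_closure]
    congr 1
    ext g
    constructor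
    · rintro ⟨x, hx | hx, rfl⟩
      · obtain ⟨i, rfl⟩ := hx
        exact Or.inl ⟨i, rfl⟩
      · exact Or.inr hx
    · rintro (⟨i, rfl⟩ | hg)
      · exact ⟨⟨X.s i, X.sI i⟩, Or.inl ⟨i, rfl⟩, rfl⟩
      · exact ⟨⟨g, X.TI hg⟩, Or.inr hg, rfl⟩
  rw [← h]
  exact (Subgroup.mem_map_iff_mem I.subtype_injective).symm

theorem PO_in {U R : Subgroup G} {m : I} (h : PO U R (m : G)) :
    PO (U.subgroupOf I) (R.subgroupOf I) m := fun r hr => h r hr

theorem PO_out {U R : Subgroup G} (hR : R ≤ I) {m : I}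
    (h : PO (U.subgroupOf I) (R.subgroupOf I) m) : PO U R (m : G) :=
  fun r hr => h ⟨r, hR hr⟩ hr

theorem rsum_in (X : BNin I n) (i : Fin n) (a : Fin n → Bool) :
    rsum ((X.R i).subgroupOf I) (fun g : I => if h : X.hh i g ∈ I then (⟨X.hh i g, h⟩ : I) else 1)
      (fun g : I => X.th a g) = rsum (X.R i) (X.hh i) (X.th a) := by
  unfold rsum
  have hR : X.R i ≤ I := (X.RU i).trans X.UI
  refine finsum_eq_of_bijective (Subgroup.subgroupOfEquivOfLe hR)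
    (Subgroup.subgroupOfEquivOfLe hR).bijective fun r => ?_
  have h1 : ((Subgroup.subgroupOfEquivOfLe hR r : X.R i) : G) = ((r : I) : G) := rfl
  rw [h1]
  by_cases h2 : ((r : I) : G) = 1
  · rw [if_pos h2, if_pos (Subtype.ext h2)]
  · have h3 : ¬ (r : I) = 1 := fun h => h2 (congrArg Subtype.val h)
    have h4 : X.hh i ((r : I) : G) ∈ I := X.TI (X.hT i _ r.2 h2)
    rw [if_neg h2, if_neg h3]
    show ((X.th a ((if h : X.hh i ((r : I) : G) ∈ I then (⟨X.hh i ((r : I) : G), h⟩ : I) else 1 : I) : G) : ℤˣ) : ℤ) =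
      ((X.th a (X.hh i ((r : I) : G)) : ℤˣ) : ℤ)
    rw [dif_pos h4]

theorem card_aux (X : BNin I n) (i : Fin n) : Nat.card ((X.R i).subgroupOf I) = Nat.card (X.R i) :=
  Nat.card_congr (Subgroup.subgroupOfEquivOfLe ((X.RU i).trans X.UI)).toEquiv

end G01_aux

open G01_aux

/-- the BN-pair of the group `I` -/
def BNin.toBN (X : BNin I n) : BN I n where
  pc := X.pc
  U := X.U.subgroupOf I
  T := X.T.subgroupOf I
  H := X.H.subgroupOf I
  s := fun i => ⟨X.s i, X.sI i⟩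
  C := fun i => (X.C i).subgroupOf I
  R := fun i => (X.R i).subgroupOf I
  hh := fun i g => if h : X.hh i g ∈ I then ⟨X.hh i g, h⟩ else 1
  th := fun a g => X.th a g
  gd := X.gd
  sn := X.sn
  ze := X.ze
  su := X.su
  nt := ⟨X.nt, X.HI X.ntH⟩
  prime := X.prime
  odd := X.odd
  pU := fun u hu => by
    obtain ⟨k, hk⟩ := X.pU u hu
    exact ⟨k, Subtype.ext (by rw [Subgroup.coe_pow, hk, Subgroup.coe_one])⟩
  hN := ⟨fun h hh g => X.hN g g.2 h hh⟩
  UH := fun _ hu => X.UH hu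
  HT := fun g => by
    obtain ⟨h, hh, x, hx, hg⟩ := X.HT g g.2
    exact ⟨⟨h, X.HI hh⟩, hh, ⟨x, X.TI hx⟩, hx, Subtype.ext hg⟩
  Tc := fun x hx y hy => Subtype.ext (X.Tc x hx y hy)
  TU := fun x hx u hu => X.TU x hx u hu
  sT := fun i x hx => X.sT i x hx
  sT' := fun i x hx => X.sT' i x hx
  s2 := fun i => X.s2 i
  s2o := fun i hi => Subtype.ext (X.s2o i hi)
  CU := fun i _ hc => X.CU i hc
  RU := fun i _ hr => X.RU i hr
  CR := fun i u hu => by
    obtain ⟨c, hc, r, hr, h⟩ := X.CR i u hu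
    exact ⟨⟨c, X.UI (X.CU i hc)⟩, hc, ⟨r, X.UI (X.RU i hr)⟩, hr, Subtype.ext h⟩
  CRd := fun i r hr hc => Subtype.ext (X.CRd i r hr hc)
  sC := fun i c hc => X.sC i c hc
  hT := fun i r hr h1 => by
    have h2 : (r : G) ≠ 1 := fun h => h1 (Subtype.ext h)
    have h3 := X.hT i r hr h2
    show (if h : X.hh i r ∈ I then (⟨X.hh i r, h⟩ : I) else 1) ∈ X.T.subgroupOf I
    rw [dif_pos (X.TI h3)]
    exact h3
  hU := fun i r hr h1 => by
    have h2 : (r : G) ≠ 1 := fun h => h1 (Subtype.ext h)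
    have h3 := X.TI (X.hT i r hr h2)
    obtain ⟨u, hu, u', hu', h⟩ := X.hU i r hr h2
    refine ⟨⟨u, X.UI hu⟩, hu, ⟨u', X.UI (X.RU i hu')⟩, X.RU i hu', Subtype.ext ?_⟩
    show X.s i * (r : G) * X.s i = u * (X.s i * ((if h : X.hh i r ∈ I then (⟨X.hh i r, h⟩ : I) else 1 : I) : G)) * u'
    rw [dif_pos h3]
    exact h
  br := fun g => by
    obtain ⟨u, hu, m, hm, u', hu', h⟩ := br_of_gen X g g.2
    have hmI : m ∈ I := by
      have h1 : m = u⁻¹ * (g : G) * u'⁻¹ := by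
        rw [h]
        group
      rw [h1]
      exact Subgroup.mul_mem _ (Subgroup.mul_mem _ (Subgroup.inv_mem _ (X.UI hu)) g.2)
        (Subgroup.inv_mem _ (X.UI hu'))
    exact ⟨⟨u, X.UI hu⟩, hu, ⟨m, hmI⟩, (NN_in X ⟨m, hmI⟩).2 hm, ⟨u', X.UI hu'⟩, hu', Subtype.ext h⟩
  di := fun m hm i => by
    rcases X.di m ((NN_in X m).1 hm) i with h | h
    · exact Or.inl (PO_in h)
    · exact Or.inr (PO_in (m := ⟨X.s i, X.sI i⟩ * m) h)
  thm := fun a x hx y hy => X.thm a x hx y hy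
  thd := fun a b h => X.thd a b fun x hx => h ⟨x, X.TI hx⟩ hx
  ths := fun k l h a x hx => X.ths k l h a x hx
  th0 := fun k h a x hx => X.th0 k h a x hx
  thn := fun a x hx => X.thn a x hx
  sn0 := X.sn0
  sum := fun k l h a => by
    rw [rsum_in, card_aux]
    exact X.sum k l h a
  ez := fun k h a => X.ez k h a
  es := fun k h a => by
    rw [rsum_in]
    exact X.es k h a
  ze0 := X.ze0
  ze1 := X.ze1
  ze2 := fun h => by
    obtain ⟨h1, h2, h3⟩ := X.ze2 h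
    refine ⟨h1, h2, ?_⟩
    rw [h3, Subgroup.subgroupOf_self]
  far := fun i j h => by
    obtain ⟨h1, h2, h3⟩ := X.far i j h
    exact ⟨Subtype.ext h1, PO_in h2, PO_in h3⟩
  adj := fun k l h hk => by
    obtain ⟨h1, h2, h3, h4, h5⟩ := X.adj k l h hk
    exact ⟨Subtype.ext h1, PO_in h2, PO_in h3, PO_in (m := ⟨X.s l, X.sI l⟩ * ⟨X.s k, X.sI k⟩) h4,
      PO_in (m := ⟨X.s k, X.sI k⟩ * ⟨X.s l, X.sI l⟩) h5⟩
  b2 := fun k l hk hl => by
    rcases X.b2 k l hk hl with ⟨h1, h2⟩ | ⟨h1, h2, h3, h4, h5, h6, h7⟩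
    · left
      refine ⟨Subtype.ext h1, ?_⟩
      rw [h2, Subgroup.bot_subgroupOf]
    · right
      exact ⟨Subtype.ext h1, PO_in h2, PO_in h3,
        PO_in (m := ⟨X.s l, X.sI l⟩ * ⟨X.s k, X.sI k⟩) h4,
        PO_in (m := ⟨X.s k, X.sI k⟩ * ⟨X.s l, X.sI l⟩) h5,
        PO_in (m := ⟨X.s l, X.sI l⟩ * ⟨X.s k, X.sI k⟩ * ⟨X.s l, X.sI l⟩) h6,
        PO_in (m := ⟨X.s k, X.sI k⟩ * ⟨X.s l, X.sI l⟩ * ⟨X.s k, X.sI k⟩) h7⟩
  ntN := fun k hk => by
    obtain ⟨x, hx, h⟩ := X.ntN k hk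
    exact ⟨⟨x, X.TI hx⟩, hx, Subtype.ext h⟩
  ntH := X.ntH
  re := fun f hf => by
    have hF : ∀ (g : G) (hg : g ∈ I), (if h : g ∈ I then f ⟨g, h⟩ else 1) = f ⟨g, hg⟩ := by
      intro g hg
      rw [dif_pos hg]
    rcases X.re (fun g => if h : g ∈ I then f ⟨g, h⟩ else 1) (fun x hx y hy => by
      have hx' : x ∈ I := X.TI hx.1
      have hy' : y ∈ I := X.TI hy.1
      show (if h : x * y ∈ I then f ⟨x * y, h⟩ else 1) =
        (if h : x ∈ I then f ⟨x, h⟩ else 1) * (if h : y ∈ I then f ⟨y, h⟩ else 1)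
      rw [hF x hx', hF y hy', hF (x * y) (Subgroup.mul_mem _ hx' hy')]
      exact hf ⟨x, hx'⟩ hx ⟨y, hy'⟩ hy) with ⟨a, ha⟩ | h
    · left
      refine ⟨a, fun x hx => ?_⟩
      rw [← ha x hx, hF x x.2]
    · right
      intro m hm hmH
      obtain ⟨x, hx, hne⟩ := h m ((NN_in X m).1 hm) hmH
      have hx' : x ∈ I := X.TI hx.1
      have hnt : X.nt ∈ I := X.HI X.ntH
      refine ⟨⟨x, hx'⟩, hx, fun heq => hne ?_⟩
      show (if h : (m : G)⁻¹ * (X.nt⁻¹ * x * X.nt) * m ∈ I then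
        f ⟨(m : G)⁻¹ * (X.nt⁻¹ * x * X.nt) * m, h⟩ else 1) =
        (if h : (m : G)⁻¹ * x * m ∈ I then f ⟨(m : G)⁻¹ * x * m, h⟩ else 1)
      have e1 : (m : G)⁻¹ * (X.nt⁻¹ * x * X.nt) * m ∈ I :=
        ((m⁻¹ * (⟨X.nt, hnt⟩⁻¹ * ⟨x, hx'⟩ * ⟨X.nt, hnt⟩) * m : I)).2
      have e2 : (m : G)⁻¹ * x * m ∈ I := ((m⁻¹ * ⟨x, hx'⟩ * m : I)).2
      rw [hF _ e1, hF _ e2]
      exact heq
  tw := fun a b h => X.tw a b fun x hx => h ⟨x, X.TI hx.1⟩ hx

theorem card_in (X : BNin I n) (i : Fin n) : Nat.card (X.toBN.R i) = Nat.card (X.R i) :=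
  card_aux X i

theorem propA_in {Ω : Type} [Field Ω] [IsAlgClosed Ω] [CharZero Ω] {c : Parker.Ctx Ω} [Finite G]
    (X : BNin I n) (h : Parker.PropA c 1 X.toBN.H) : Parker.PropA c 1 X.H :=
  Parker.propA_congr (Subgroup.subgroupOfEquivOfLe X.HI) h

theorem propB_in {Ω : Type} [Field Ω] [IsAlgClosed Ω] [CharZero Ω] {c : Parker.Ctx Ω} [Finite G]
    (X : BNin I n) (h : Parker.PropB c 1 X.toBN.H) : Parker.PropB c 1 X.H :=
  Parker.propB_congr (Subgroup.subgroupOfEquivOfLe X.HI) h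

end

end AO
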