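import Pool.Agent.AO.Defs2
import Mathlib.LinearAlgebra.Matrix.GeneralLinearGroup.Defs
import Mathlib.LinearAlgebra.Matrix.SpecialLinearGroup

/-!
# MP_6c3636_al, AO (classical groups in odd characteristic): definitions, part 3: matrix groups (helper7)

`BNin I n`: groups with a BN-pair as subgroups `I` of a group `G` (here `br` of `BN` is replaced by generation).
Matrix groups over the field `F`, indices `ι`: `GS y` (unipotent radical of the parabolic subgroup of the level function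
`y`), `LS y` (Levi subgroup), `DG` (diagonal matrices), `IG J σ` (isometries), `TW τ π` (twisted real matrices), `mo w c` the
monomial matrix with entries `c j` at `(w j, j)`. `Ix n a`: the indices `ei i`, `fi i` (`i : Fin n`) and `mi j`
(`j : Fin a`, the anisotropic part). `FD n a F`: forms of Witt index `n` with anisotropic part of dimension `a ≤ 2`.
-/

namespace AO

noncomputable section

open Classical Equiv Matrix

open AN (sq)

/-- groups with a BN-pair, as subgroups of a group -/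
structure BNin {G : Type} [Group G] (I : Subgroup G) (n : ℕ) where
  /-- the characteristic -/
  pc : ℕ
  /-- the unipotent radical -/
  U : Subgroup G
  /-- the torus -/
  T : Subgroup G
  /-- the normal subgroup -/
  H : Subgroup G
  /-- the simple reflections -/
  s : Fin n → G
  /-- the complements of the root subgroups -/
  C : Fin n → Subgroup G
  /-- the root subgroups -/
  R : Fin n → Subgroup G
  /-- the torus elements of the root subgroups -/
  hh : Fin n → G → G
  /-- the characters of the torus -/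
  th : (Fin n → Bool) → G → ℤˣ
  /-- all labels are allowed -/
  gd : Bool
  /-- the signs of the labels -/
  sn : Bool → ℤˣ
  /-- the values at the square of `s 0` -/
  ze : Bool → ℤˣ
  /-- the sums for the end node -/
  su : Bool → ℤ
  /-- the element of the nu-case -/
  nt : G
  prime : pc.Prime
  odd : Odd pc
  UI : U ≤ I
  TI : T ≤ I
  HI : H ≤ I
  sI : ∀ i, s i ∈ I
  pU : ∀ u ∈ U, ∃ k : ℕ, u ^ (pc ^ k) = 1
  hN : ∀ g ∈ I, ∀ h ∈ H, g * h * g⁻¹ ∈ H
  UH : U ≤ H
  HT : ∀ g ∈ I, ∃ h ∈ H, ∃ x ∈ T, g = h * x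
  Tc : ∀ x ∈ T, ∀ y ∈ T, x * y = y * x
  TU : ∀ x ∈ T, ∀ u ∈ U, x * u * x⁻¹ ∈ U
  sT : ∀ i, ∀ x ∈ T, s i * x * (s i)⁻¹ ∈ T
  sT' : ∀ i, ∀ x ∈ T, (s i)⁻¹ * x * s i ∈ T
  s2 : ∀ i, s i * s i ∈ T
  s2o : ∀ i : Fin n, 0 < (i : ℕ) → s i * s i = 1
  CU : ∀ i, C i ≤ U
  RU : ∀ i, R i ≤ U
  TR : ∀ i, ∀ x ∈ T, ∀ r ∈ R i, x * r * x⁻¹ ∈ R i
  CR : ∀ i, ∀ u ∈ U, ∃ c ∈ C i, ∃ r ∈ R i, u = c * r
  CRd : ∀ i, ∀ r ∈ R i, r ∈ C i → r = 1
  sC : ∀ i, ∀ c ∈ C i, s i * c * (s i)⁻¹ ∈ U
  hT : ∀ i, ∀ r ∈ R i, r ≠ 1 → hh i r ∈ T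
  hU : ∀ i, ∀ r ∈ R i, r ≠ 1 → ∃ u ∈ U, ∃ u' ∈ R i, s i * r * s i = u * (s i * hh i r) * u'
  gen : I ≤ Subgroup.closure ((U : Set G) ∪ T ∪ Set.range s)
  di : ∀ m ∈ NN s T, ∀ i, PO U (R i) m ∨ PO U (R i) (s i * m)
  thm : ∀ a, ∀ x ∈ T, ∀ y ∈ T, th a (x * y) = th a x * th a y
  thd : ∀ a b, (∀ x ∈ T, th a x = th b x) → a = b
  ths : ∀ k l : Fin n, (l : ℕ) = k + 1 → ∀ a, ∀ x ∈ T, th (sq a k l) (s l * x * (s l)⁻¹) = th a x
  th0 : ∀ k : Fin n, (k : ℕ) = 0 → ∀ a, ∀ x ∈ T, th a (s k * x * (s k)⁻¹) = th a x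
  thn : ∀ a, ∀ x ∈ T, th (fun i => !(a i)) x = th a x * th (fun _ => true) x
  sn0 : sn false = 1
  sum : ∀ k l : Fin n, (l : ℕ) = k + 1 → ∀ a, rsum (R l) (hh l) (th a) =
    if a k = a l then ((sn (a k) : ℤˣ) : ℤ) * ((Nat.card (R l) : ℤ) - 1) else 0
  ez : ∀ k : Fin n, (k : ℕ) = 0 → ∀ a, th a (s k * s k) = ze (a k)
  es : ∀ k : Fin n, (k : ℕ) = 0 → ∀ a, rsum (R k) (hh k) (th a) = su (a k)
  ze0 : ze false = 1
  ze1 : gd = true → ze true = 1
  ze2 : gd = false → ze true = -1 ∧ su true = 0 ∧ H = I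
  far : ∀ i j : Fin n, (i : ℕ) + 2 ≤ j → s i * s j = s j * s i ∧ PO U (R i) (s j) ∧ PO U (R j) (s i)
  adj : ∀ k l : Fin n, (l : ℕ) = k + 1 → 0 < (k : ℕ) → s k * s l * s k = s l * s k * s l ∧
    PO U (R k) (s l) ∧ PO U (R l) (s k) ∧ PO U (R k) (s l * s k) ∧ PO U (R l) (s k * s l)
  b2 : ∀ k l : Fin n, (k : ℕ) = 0 → (l : ℕ) = 1 → (s k = 1 ∧ R k = ⊥) ∨
    (s k * s l * s k * s l = s l * s k * s l * s k ∧ PO U (R k) (s l) ∧ PO U (R l) (s k) ∧
      PO U (R k) (s l * s k) ∧ PO U (R l) (s k * s l) ∧ PO U (R k) (s l * s k * s l) ∧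
      PO U (R l) (s k * s l * s k))
  ntN : ∀ k : Fin n, (k : ℕ) = 0 → ∃ x ∈ T, nt = s k * x
  ntH : nt ∈ H
  re : ∀ f : G → ℤˣ, (∀ x ∈ T ⊓ H, ∀ y ∈ T ⊓ H, f (x * y) = f x * f y) →
    (∃ a, ∀ x ∈ T ⊓ H, f x = th a x) ∨
      ∀ m ∈ NN s T, m ∈ H → ∃ x ∈ T ⊓ H, f (m⁻¹ * (nt⁻¹ * x * nt) * m) ≠ f (m⁻¹ * x * m)
  tw : ∀ a b, (∀ x ∈ T ⊓ H, th a x = th b x) → b = a ∨ b = fun i => !(a i)

namespace MG

section Index

variable {n a : ℕ}

/-- the indices -/
abbrev Ix (n a : ℕ) : Type := (Fin n × Bool) ⊕ Fin a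

/-- the indices of the first totally isotropic subspace -/
def ei (i : Fin n) : Ix n a := Sum.inl (i, false)

/-- the indices of the second totally isotropic subspace -/
def fi (i : Fin n) : Ix n a := Sum.inl (i, true)

/-- the indices of the anisotropic part -/
def mi (j : Fin a) : Ix n a := Sum.inr j

/-- the rank -/
def rk : Ix n a → ℤ
  | Sum.inl (i, false) => -(((i : ℕ) : ℤ) + 1)
  | Sum.inl (i, true) => ((i : ℕ) : ℤ) + 1
  | Sum.inr _ => 0

/-- the levels for the coordinates: `l - 1` and `l` have the same level -/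
def lv (l i : ℕ) : ℤ := if i < l then (i : ℤ) + 1 else i

/-- the level functions of the minimal parabolic subgroups -/
def yl (l : ℕ) : Ix n a → ℤ
  | Sum.inl (i, false) => -(lv l i)
  | Sum.inl (i, true) => lv l i
  | Sum.inr _ => 0

/-- the duality of the indices -/
def du : Perm (Ix n a) where
  toFun
    | Sum.inl (i, b) => Sum.inl (i, !b)
    | Sum.inr j => Sum.inr (Fin.rev j)
  invFun
    | Sum.inl (i, b) => Sum.inl (i, !b)
    | Sum.inr j => Sum.inr (Fin.rev j)
  left_inv := by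
    rintro (⟨i, b⟩ | j)
    · cases b <;> rfl
    · exact congrArg Sum.inr (Fin.rev_rev j)
  right_inv := by
    rintro (⟨i, b⟩ | j)
    · cases b <;> rfl
    · exact congrArg Sum.inr (Fin.rev_rev j)

/-- the twist of the anisotropic part -/
def pm : Perm (Ix n a) where
  toFun
    | Sum.inl p => Sum.inl p
    | Sum.inr j => Sum.inr (Fin.rev j)
  invFun
    | Sum.inl p => Sum.inl p
    | Sum.inr j => Sum.inr (Fin.rev j)
  left_inv := by
    rintro (p | j)
    · rfl
    · exact congrArg Sum.inr (Fin.rev_rev j)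
  right_inv := by
    rintro (p | j)
    · rfl
    · exact congrArg Sum.inr (Fin.rev_rev j)

/-- the permutations of the indices in the Weyl group -/
def WP (n a : ℕ) : Set (Perm (Ix n a)) :=
  {w | (∀ x, w (du x) = du (w x)) ∧ ∀ j : Fin a, ∃ j' : Fin a, w (mi j) = mi j'}

/-- the indices of the first `j` hyperbolic planes and the anisotropic part -/
def In (j : ℕ) : Ix n a → Prop
  | Sum.inl (i, _) => (i : ℕ) < j
  | Sum.inr _ => True

/-- the permutation of the end node -/
def w0 (n a : ℕ) : Perm (Ix n a) where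
  toFun
    | Sum.inl (i, b) => if (i : ℕ) = 0 then Sum.inl (i, !b) else Sum.inl (i, b)
    | Sum.inr j => Sum.inr (Fin.rev j)
  invFun
    | Sum.inl (i, b) => if (i : ℕ) = 0 then Sum.inl (i, !b) else Sum.inl (i, b)
    | Sum.inr j => Sum.inr (Fin.rev j)
  left_inv := by
    rintro (⟨i, b⟩ | j)
    · by_cases h : (i : ℕ) = 0
      · cases b <;> simp [h]
      · simp [h]
    · exact congrArg Sum.inr (Fin.rev_rev j)
  right_inv := by
    rintro (⟨i, b⟩ | j)
    · by_cases h : (i : ℕ) = 0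
      · cases b <;> simp [h]
      · simp [h]
    · exact congrArg Sum.inr (Fin.rev_rev j)

/-- `l - 1` -/
def pr (l : Fin n) : Fin n := ⟨(l : ℕ) - 1, lt_of_le_of_lt (Nat.sub_le _ _) l.2⟩

/-- the permutation of a permutation of the coordinates -/
def pw (a : ℕ) (w : Perm (Fin n)) : Perm (Ix n a) :=
  Equiv.sumCongr (Equiv.prodCongr w (Equiv.refl Bool)) (Equiv.refl (Fin a))

/-- the permutations of the simple reflections -/
def ws (a : ℕ) (l : Fin n) : Perm (Ix n a) :=
  if 0 < (l : ℕ) then pw a (Equiv.swap (pr l) l) else w0 n a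

/-- the rank for the general linear group -/
def gr (i : Fin n) : ℤ := -(((i : ℕ) : ℤ) + 1)

/-- the level functions for the general linear group -/
def gy (l : ℕ) (i : Fin n) : ℤ := -(lv l i)

end Index

section Groups

variable {ι : Type} [Fintype ι] [DecidableEq ι] {F : Type} [Field F]

/-- the matrix has the entries of `1` at the places `(i, j)` without `y i < y j` -/
def UpM (y : ι → ℤ) (A : Matrix ι ι F) : Prop := ∀ i j, ¬ y i < y j → A i j = (1 : Matrix ι ι F) i j

/-- block diagonal matrices -/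
def LvM (y : ι → ℤ) (A : Matrix ι ι F) : Prop := ∀ i j, y i ≠ y j → A i j = 0

/-- block triangular matrices -/
def PbM (y : ι → ℤ) (A : Matrix ι ι F) : Prop := ∀ i j, y j < y i → A i j = 0

/-- diagonal matrices -/
def DgM (A : Matrix ι ι F) : Prop := ∀ i j, i ≠ j → A i j = 0

/-- twisted real matrices -/
def TwM (τ : F ≃+* F) (π : Perm ι) (A : Matrix ι ι F) : Prop := ∀ i j, A (π i) (π j) = τ (A i j)

theorem UpM.mul {y : ι → ℤ} {A B : Matrix ι ι F} (hA : UpM y A) (hB : UpM y B) : UpM y (A * B) := by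
  intro i j hij
  have h1 : A * B = (A - 1) * (B - 1) + (A - 1) + (B - 1) + 1 := by
    rw [sub_mul, mul_sub, one_mul, mul_one]
    abel
  have h2 : (A - 1) i j = 0 := by rw [Matrix.sub_apply, hA i j hij, sub_self]
  have h3 : (B - 1) i j = 0 := by rw [Matrix.sub_apply, hB i j hij, sub_self]
  rw [h1, Matrix.add_apply, Matrix.add_apply, Matrix.add_apply, h2, h3, add_zero, add_zero,
    Matrix.mul_apply, Finset.sum_eq_zero, zero_add]
  intro k _
  by_cases hk : y i < y k
  · have hk' : ¬ y k < y j := fun h => hij (hk.trans h)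
    rw [Matrix.sub_apply B, hB k j hk', sub_self, mul_zero]
  · rw [Matrix.sub_apply A, hA i k hk, sub_self, zero_mul]

theorem LvM.mul {y : ι → ℤ} {A B : Matrix ι ι F} (hA : LvM y A) (hB : LvM y B) : LvM y (A * B) := by
  intro i j hij
  rw [Matrix.mul_apply]
  refine Finset.sum_eq_zero fun k _ => ?_
  by_cases hk : y i = y k
  · rw [hB k j (fun h => hij (hk.trans h)), mul_zero]
  · rw [hA i k hk, zero_mul]

theorem DgM.mul {A B : Matrix ι ι F} (hA : DgM A) (hB : DgM B) : DgM (A * B) := by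
  intro i j hij
  rw [Matrix.mul_apply]
  refine Finset.sum_eq_zero fun k _ => ?_
  by_cases hk : i = k
  · rw [hB k j (fun h => hij (hk.trans h)), mul_zero]
  · rw [hA i k hk, zero_mul]

theorem TwM.mul {τ : F ≃+* F} {π : Perm ι} {A B : Matrix ι ι F} (hA : TwM τ π A) (hB : TwM τ π B) :
    TwM τ π (A * B) := by
  intro i j
  rw [Matrix.mul_apply, Matrix.mul_apply, map_sum, ← Equiv.sum_comp π]
  refine Finset.sum_congr rfl fun k _ => ?_
  rw [map_mul, hA, hB]

theorem TwM.one {τ : F ≃+* F} {π : Perm ι} : TwM τ π (1 : Matrix ι ι F) := by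
  intro i j
  by_cases h : i = j
  · rw [h, Matrix.one_apply_eq, Matrix.one_apply_eq, map_one]
  · rw [Matrix.one_apply_ne h, Matrix.one_apply_ne (fun h' => h (π.injective h')), map_zero]

/-- the unipotent radical of the parabolic subgroup of the level function `y` -/
def GS (F : Type) [Field F] (y : ι → ℤ) : Subgroup (GL ι F) where
  carrier := {g | UpM y (g : Matrix ι ι F) ∧ UpM y ((g⁻¹ : GL ι F) : Matrix ι ι F)}
  mul_mem' := by
    rintro a b ⟨h1, h2⟩ ⟨h3, h4⟩
    refine ⟨?_, ?_⟩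
    · rw [Units.val_mul]
      exact h1.mul h3
    · rw [_root_.mul_inv_rev, Units.val_mul]
      exact h4.mul h2
  one_mem' := by
    refine ⟨fun i j _ => ?_, fun i j _ => ?_⟩
    · rw [Units.val_one]
    · rw [inv_one, Units.val_one]
  inv_mem' := by
    rintro a ⟨h1, h2⟩
    exact ⟨h2, by rw [inv_inv]; exact h1⟩

/-- the block diagonal matrices of the level function `y` -/
def LS (F : Type) [Field F] (y : ι → ℤ) : Subgroup (GL ι F) where
  carrier := {g | LvM y (g : Matrix ι ι F) ∧ LvM y ((g⁻¹ : GL ι F) : Matrix ι ι F)}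
  mul_mem' := by
    rintro a b ⟨h1, h2⟩ ⟨h3, h4⟩
    refine ⟨?_, ?_⟩
    · rw [Units.val_mul]
      exact h1.mul h3
    · rw [_root_.mul_inv_rev, Units.val_mul]
      exact h4.mul h2
  one_mem' := by
    refine ⟨fun i j h => ?_, fun i j h => ?_⟩
    · rw [Units.val_one, Matrix.one_apply_ne (fun h' => h (congrArg y h'))]
    · rw [inv_one, Units.val_one, Matrix.one_apply_ne (fun h' => h (congrArg y h'))]
  inv_mem' := by
    rintro a ⟨h1, h2⟩
    exact ⟨h2, by rw [inv_inv]; exact h1⟩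

/-- the diagonal matrices -/
def DG (ι : Type) [Fintype ι] [DecidableEq ι] (F : Type) [Field F] : Subgroup (GL ι F) where
  carrier := {g | DgM (g : Matrix ι ι F) ∧ DgM ((g⁻¹ : GL ι F) : Matrix ι ι F)}
  mul_mem' := by
    rintro a b ⟨h1, h2⟩ ⟨h3, h4⟩
    refine ⟨?_, ?_⟩
    · rw [Units.val_mul]
      exact h1.mul h3
    · rw [_root_.mul_inv_rev, Units.val_mul]
      exact h4.mul h2
  one_mem' := by
    refine ⟨fun i j h => ?_, fun i j h => ?_⟩
    · rw [Units.val_one, Matrix.one_apply_ne h]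
    · rw [inv_one, Units.val_one, Matrix.one_apply_ne h]
  inv_mem' := by
    rintro a ⟨h1, h2⟩
    exact ⟨h2, by rw [inv_inv]; exact h1⟩

/-- the twisted real matrices -/
def TW (τ : F ≃+* F) (π : Perm ι) : Subgroup (GL ι F) where
  carrier := {g | TwM τ π (g : Matrix ι ι F) ∧ TwM τ π ((g⁻¹ : GL ι F) : Matrix ι ι F)}
  mul_mem' := by
    rintro a b ⟨h1, h2⟩ ⟨h3, h4⟩
    refine ⟨?_, ?_⟩
    · rw [Units.val_mul]
      exact h1.mul h3
    · rw [_root_.mul_inv_rev, Units.val_mul]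
      exact h4.mul h2
  one_mem' := by
    refine ⟨?_, ?_⟩
    · rw [Units.val_one]
      exact TwM.one
    · rw [inv_one, Units.val_one]
      exact TwM.one
  inv_mem' := by
    rintro a ⟨h1, h2⟩
    exact ⟨h2, by rw [inv_inv]; exact h1⟩

/-- the isometries of the form `J` with respect to `σ` -/
def IG (J : Matrix ι ι F) (σ : F ≃+* F) : Subgroup (GL ι F) where
  carrier := {g | ((g : Matrix ι ι F).map σ)ᵀ * J * (g : Matrix ι ι F) = J}
  mul_mem' := by
    intro a b ha hb
    have h1 : (((a * b : GL ι F) : Matrix ι ι F).map σ)ᵀ =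
        ((b : Matrix ι ι F).map σ)ᵀ * ((a : Matrix ι ι F).map σ)ᵀ := by
      rw [Units.val_mul, Matrix.map_mul, Matrix.transpose_mul]
    show (((a * b : GL ι F) : Matrix ι ι F).map σ)ᵀ * J * ((a * b : GL ι F) : Matrix ι ι F) = J
    have ha' : ((a : Matrix ι ι F).map σ)ᵀ * J * (a : Matrix ι ι F) = J := ha
    have hb' : ((b : Matrix ι ι F).map σ)ᵀ * J * (b : Matrix ι ι F) = J := hb
    rw [h1, Units.val_mul]
    calc _ = ((b : Matrix ι ι F).map σ)ᵀ * (((a : Matrix ι ι F).map σ)ᵀ * J * (a : Matrix ι ι F)) *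
          (b : Matrix ι ι F) := by simp only [Matrix.mul_assoc]
      _ = J := by rw [ha', hb']
  one_mem' := by
    show (((1 : GL ι F) : Matrix ι ι F).map σ)ᵀ * J * ((1 : GL ι F) : Matrix ι ι F) = J
    rw [Units.val_one, Matrix.map_one σ (map_zero σ) (map_one σ), Matrix.transpose_one, Matrix.one_mul,
      Matrix.mul_one]
  inv_mem' := by
    intro a ha
    have ha' : ((a : Matrix ι ι F).map σ)ᵀ * J * (a : Matrix ι ι F) = J := ha
    have h1 : (((a⁻¹ : GL ι F) : Matrix ι ι F).map σ)ᵀ * ((a : Matrix ι ι F).map σ)ᵀ = 1 := by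
      rw [← Matrix.transpose_mul, ← Matrix.map_mul, ← Units.val_mul, mul_inv_cancel, Units.val_one,
        Matrix.map_one σ (map_zero σ) (map_one σ), Matrix.transpose_one]
    show (((a⁻¹ : GL ι F) : Matrix ι ι F).map σ)ᵀ * J * ((a⁻¹ : GL ι F) : Matrix ι ι F) = J
    calc _ = (((a⁻¹ : GL ι F) : Matrix ι ι F).map σ)ᵀ * (((a : Matrix ι ι F).map σ)ᵀ * J *
          (a : Matrix ι ι F)) * ((a⁻¹ : GL ι F) : Matrix ι ι F) := by rw [ha']
      _ = ((((a⁻¹ : GL ι F) : Matrix ι ι F).map σ)ᵀ * ((a : Matrix ι ι F).map σ)ᵀ) * J *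
          ((a : Matrix ι ι F) * ((a⁻¹ : GL ι F) : Matrix ι ι F)) := by simp only [Matrix.mul_assoc]
      _ = J := by
        rw [h1, ← Units.val_mul, mul_inv_cancel, Units.val_one, Matrix.one_mul, Matrix.mul_one]

/-- the matrices of determinant one -/
def DT (ι : Type) [Fintype ι] [DecidableEq ι] (F : Type) [Field F] : Subgroup (GL ι F) :=
  (Matrix.GeneralLinearGroup.det : GL ι F →* Fˣ).ker

/-- the monomial matrix with the entries `c j` at the places `(w j, j)` -/
def mo (w : Perm ι) (c : ι → Fˣ) : GL ι F where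
  val := fun i j => if i = w j then (c j : F) else 0
  inv := fun i j => if w i = j then (((c i)⁻¹ : Fˣ) : F) else 0
  val_inv := by
    ext i j
    rw [Matrix.mul_apply]
    rw [Finset.sum_eq_single (w.symm i)]
    · rw [if_pos (w.apply_symm_apply i).symm]
      by_cases h : i = j
      · rw [← h, if_pos (w.apply_symm_apply i), Matrix.one_apply_eq, ← Units.val_mul, mul_inv_cancel,
          Units.val_one]
      · rw [if_neg (by rw [w.apply_symm_apply]; exact h), mul_zero, Matrix.one_apply_ne h]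
    · intro k _ hk
      rw [if_neg (fun h => hk (by rw [h, w.symm_apply_apply])), zero_mul]
    · exact fun h => absurd (Finset.mem_univ _) h
  inv_val := by
    ext i j
    rw [Matrix.mul_apply]
    rw [Finset.sum_eq_single (w i)]
    · rw [if_pos rfl]
      by_cases h : i = j
      · rw [← h, if_pos rfl, Matrix.one_apply_eq, ← Units.val_mul, inv_mul_cancel, Units.val_one]
      · rw [if_neg (fun h' => h (w.injective h')), mul_zero, Matrix.one_apply_ne h]
    · intro k _ hk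
      rw [if_neg (fun h => hk h.symm), zero_mul]
    · exact fun h => absurd (Finset.mem_univ _) h

/-- the quadratic character of the fixed field of `τ` -/
def ch (τ : F ≃+* F) (x : F) : ℤˣ := if ∃ y, τ y = y ∧ y * y = x then 1 else -1

end Groups

section GLn

variable {n : ℕ} {F : Type} [Field F]

/-- the simple reflections of the general linear group -/
def gls (F : Type) [Field F] (l : Fin n) : GL (Fin n) F :=
  if 0 < (l : ℕ) then mo (Equiv.swap (pr l) l) 1 else 1

/-- the diagonal matrix with the entry `x` at `i` -/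
def di (i : Fin n) (x : Fˣ) : GL (Fin n) F := mo 1 (Function.update 1 i x)

/-- the torus element of the root subgroup for the value `x` -/
def glh (l : Fin n) (x : Fˣ) : GL (Fin n) F :=
  if 0 < (l : ℕ) then di l x * di (pr l) (-x⁻¹) else 1

/-- the entry of a root subgroup of the general linear group -/
def gle (l : Fin n) (A : Matrix (Fin n) (Fin n) F) : F :=
  A l (pr l)

/-- the unit with value `x`, `1` if `x = 0` -/
def un (x : F) : Fˣ := if h : x ≠ 0 then Units.mk0 x h else 1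

end GLn

/-- forms with Witt index `n` and an anisotropic part of dimension `a ≤ 2`; `J` has the entries `1` at `(ei i, fi i)`,
`ep` at `(fi i, ei i)` and `cm` at `(mi j, mi (rev j))` -/
structure FD (n a : ℕ) (F : Type) [Field F] where
  /-- the automorphism of the form -/
  σ : F ≃+* F
  /-- the automorphism of the twist -/
  τ : F ≃+* F
  /-- the sign -/
  ep : Fˣ
  /-- the values on the anisotropic part -/
  cm : Fˣ
  /-- the value of `s 0` on the anisotropic part -/
  om : Fˣ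
  /-- the determinant is one -/
  so : Bool
  two : (2 : F) ≠ 0
  ss : ∀ x, σ (σ x) = x
  tt : ∀ x, τ (τ x) = x
  st : ∀ x, σ (τ x) = τ (σ x)
  ep2 : ep = 1 ∨ ep = -1
  cms : 0 < a → (ep : F) * σ (cm : F) = cm
  cmt : τ (cm : F) = cm
  oms : (om : F) * σ (om : F) = 1
  omt : τ (om : F) = om
  ani : ∀ x : Fin a → F, (∀ j, x (Fin.rev j) = τ (x j)) → ∑ j, σ (x j) * x (Fin.rev j) = 0 → x = 0
  a2 : a ≤ 1 ∨ (a = 2 ∧ so = true)
  sos : so = true → (∀ x, σ x = x) ∧ ep = 1 ∧ ((a = 1 ∧ om = -1) ∨ (a = 2 ∧ om = 1))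

namespace FD

variable {n a : ℕ} {F : Type} [Field F] (D : FD n a F)

/-- the values of the form -/
def c : Ix n a → Fˣ
  | Sum.inl (_, false) => 1
  | Sum.inl (_, true) => D.ep
  | Sum.inr _ => D.cm

/-- the matrix of the form -/
def J : Matrix (Ix n a) (Ix n a) F := fun x y => if y = du x then (D.c x : F) else 0

/-- the form -/
def B (v w : Ix n a → F) : F := ∑ x, (D.c x : F) * D.σ (v x) * w (du x)

/-- the group -/
def G : Subgroup (GL (Ix n a) F) :=
  IG D.J D.σ ⊓ TW D.τ pm ⊓ (if D.so = true then DT (Ix n a) F else ⊤)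

/-- the unipotent radical -/
def U : Subgroup (GL (Ix n a) F) := D.G ⊓ GS F rk

/-- the torus -/
def T : Subgroup (GL (Ix n a) F) := D.G ⊓ DG (Ix n a) F

/-- the root subgroups -/
def R (l : Fin n) : Subgroup (GL (Ix n a) F) := D.G ⊓ GS F rk ⊓ LS F (yl l)

/-- their complements -/
def C (l : Fin n) : Subgroup (GL (Ix n a) F) := D.G ⊓ GS F (yl l)

/-- block matrices -/
def hyM (a : ℕ) (A A' : Matrix (Fin n) (Fin n) F) : Matrix (Ix n a) (Ix n a) F
  | Sum.inl (i, false), Sum.inl (j, false) => A i j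
  | Sum.inl (i, true), Sum.inl (j, true) => A' i j
  | Sum.inr i, Sum.inr j => if i = j then 1 else 0
  | Sum.inl (_, false), Sum.inl (_, true) => 0
  | Sum.inl (_, true), Sum.inl (_, false) => 0
  | Sum.inl _, Sum.inr _ => 0
  | Sum.inr _, Sum.inl _ => 0

theorem hyM_mul (A A' A₁ A₁' : Matrix (Fin n) (Fin n) F) :
    hyM a A A' * hyM a A₁ A₁' = hyM a (A * A₁) (A' * A₁') := by
  ext x y
  rw [Matrix.mul_apply, Fintype.sum_sum_type, Fintype.sum_prod_type]
  rcases x with ⟨i, b⟩ | i <;> rcases y with ⟨j, b'⟩ | j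
  · cases b <;> cases b' <;> simp [hyM, Matrix.mul_apply]
  · cases b <;> simp [hyM]
  · cases b' <;> simp [hyM]
  · simp [hyM]

theorem hyM_one : hyM (n := n) (F := F) a 1 1 = 1 := by
  ext x y
  rcases x with ⟨i, b⟩ | i <;> rcases y with ⟨j, b'⟩ | j
  · cases b <;> cases b' <;> simp [hyM, Matrix.one_apply]
  · cases b <;> simp [hyM]
  · cases b' <;> simp [hyM]
  · simp [hyM, Matrix.one_apply]

/-- the embedding of the general linear group -/
def hy : GL (Fin n) F →* GL (Ix n a) F where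
  toFun A := ⟨hyM a A (((A⁻¹ : GL (Fin n) F) : Matrix (Fin n) (Fin n) F).map D.σ)ᵀ,
    hyM a (A⁻¹ : GL (Fin n) F) ((A : Matrix (Fin n) (Fin n) F).map D.σ)ᵀ, by
      rw [hyM_mul, ← Units.val_mul, mul_inv_cancel, Units.val_one, ← Matrix.transpose_mul, ← Matrix.map_mul,
        ← Units.val_mul, mul_inv_cancel, Units.val_one, Matrix.map_one _ (map_zero _) (map_one _),
        Matrix.transpose_one, hyM_one], by
      rw [hyM_mul, ← Units.val_mul, inv_mul_cancel, Units.val_one, ← Matrix.transpose_mul, ← Matrix.map_mul,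
        ← Units.val_mul, inv_mul_cancel, Units.val_one, Matrix.map_one _ (map_zero _) (map_one _),
        Matrix.transpose_one, hyM_one]⟩
  map_one' := by
    apply Units.ext
    show hyM a ((1 : GL (Fin n) F) : Matrix (Fin n) (Fin n) F)
      (((1⁻¹ : GL (Fin n) F) : Matrix (Fin n) (Fin n) F).map D.σ)ᵀ = _
    rw [inv_one, Units.val_one, Matrix.map_one _ (map_zero _) (map_one _), Matrix.transpose_one, hyM_one,
      Units.val_one]
  map_mul' := by
    intro A A'
    apply Units.ext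
    show hyM a ((A * A' : GL (Fin n) F) : Matrix (Fin n) (Fin n) F)
      ((((A * A')⁻¹ : GL (Fin n) F) : Matrix (Fin n) (Fin n) F).map D.σ)ᵀ =
      hyM a A (((A⁻¹ : GL (Fin n) F) : Matrix (Fin n) (Fin n) F).map D.σ)ᵀ *
      hyM a A' (((A'⁻¹ : GL (Fin n) F) : Matrix (Fin n) (Fin n) F).map D.σ)ᵀ
    rw [hyM_mul, _root_.mul_inv_rev, Units.val_mul, Units.val_mul, Matrix.map_mul, Matrix.transpose_mul]

theorem hy_coe (A : GL (Fin n) F) : ((D.hy A : GL (Ix n a) F) : Matrix (Ix n a) (Ix n a) F) =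
    hyM a A (((A⁻¹ : GL (Fin n) F) : Matrix (Fin n) (Fin n) F).map D.σ)ᵀ := rfl

/-- the entries of the end node -/
def c0 : Ix n a → Fˣ
  | Sum.inl (i, false) => if (i : ℕ) = 0 then D.ep else 1
  | Sum.inl (_, true) => 1
  | Sum.inr _ => D.om

/-- the simple reflections: `s 0` maps `e 0` to `ep • f 0`, `f 0` to `e 0` and `m j` to `om • m (rev j)` -/
def s (l : Fin n) : GL (Ix n a) F := if 0 < (l : ℕ) then D.hy (gls F l) else mo (w0 n a) D.c0

/-- the entries of the simple reflections -/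
def cs (l : Fin n) : Ix n a → Fˣ := if 0 < (l : ℕ) then 1 else D.c0

/-- the torus element with the coordinates `x` -/
def tor (x : Fin n → Fˣ) : GL (Ix n a) F := D.hy (mo 1 x)

/-- the group generated by `U`, `T` and the simple reflections -/
def K : Subgroup (GL (Ix n a) F) :=
  Subgroup.closure ((D.U : Set (GL (Ix n a) F)) ∪ D.T ∪ Set.range D.s)

/-- the parameters of the root subgroup of the end node -/
abbrev PR : Type := {p : (Fin a → F) × F // (∀ j, p.1 (Fin.rev j) = D.τ (p.1 j)) ∧ D.τ p.2 = p.2 ∧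
  (D.ep : F) * p.2 + D.σ p.2 + (D.cm : F) * ∑ j, D.σ (p.1 j) * p.1 (Fin.rev j) = 0}

/-- the characters of the torus -/
def th (a' : Fin n → Bool) (g : GL (Ix n a) F) : ℤˣ :=
  ∏ i, if a' i = true then ch D.τ ((g : Matrix (Ix n a) (Ix n a) F) (ei i) (ei i)) else 1

/-- the torus elements of the root subgroups -/
def hh (l : Fin n) (r : GL (Ix n a) F) : GL (Ix n a) F :=
  if 0 < (l : ℕ) then D.hy (glh l (un ((r : Matrix (Ix n a) (Ix n a) F) (ei l)
    (ei (pr l))))) else
  if h : ∃ t ∈ D.T, (∃ u ∈ D.R l, ∃ u' ∈ D.R l, D.s l * r * D.s l = u * (D.s l * t) * u') ∧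
      (t : Matrix (Ix n a) (Ix n a) F) (ei l) (ei l) = D.ep * (r : Matrix (Ix n a) (Ix n a) F) (ei l) (fi l) ∧
      ∀ i : Fin n, i ≠ l → (t : Matrix (Ix n a) (Ix n a) F) (ei i) (ei i) = 1 then h.choose else 1

/-- the remaining data for a BN-pair of the group -/
structure KD (D : FD n a F) where
  /-- the normal subgroup -/
  H : Subgroup (GL (Ix n a) F)
  /-- all labels are allowed -/
  gd : Bool
  /-- the sums for the end node -/
  su : Bool → ℤ
  /-- the element of the nu-case -/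
  nt : GL (Ix n a) F
  HG : H ≤ D.G
  hN : ∀ g ∈ D.G, ∀ h ∈ H, g * h * g⁻¹ ∈ H
  UH : D.U ≤ H
  HT : ∀ g ∈ D.G, ∃ h ∈ H, ∃ x ∈ D.T, g = h * x
  es : ∀ k : Fin n, (k : ℕ) = 0 → ∀ a', rsum (D.R k) (D.hh k) (D.th a') = su (a' k)
  ze1 : gd = true → ch D.τ (D.ep : F) = 1
  ze2 : gd = false → ch D.τ (D.ep : F) = -1 ∧ su true = 0 ∧ H = D.G
  ntN : ∀ k : Fin n, (k : ℕ) = 0 → ∃ x ∈ D.T, nt = D.s k * x
  ntH : nt ∈ H
  re : ∀ f : GL (Ix n a) F → ℤˣ, (∀ x ∈ D.T ⊓ H, ∀ y ∈ D.T ⊓ H, f (x * y) = f x * f y) →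
    (∃ a', ∀ x ∈ D.T ⊓ H, f x = D.th a' x) ∨
      ∀ m ∈ NN D.s D.T, m ∈ H → ∃ x ∈ D.T ⊓ H, f (m⁻¹ * (nt⁻¹ * x * nt) * m) ≠ f (m⁻¹ * x * m)
  tw : ∀ a' b', (∀ x ∈ D.T ⊓ H, D.th a' x = D.th b' x) → b' = a' ∨ b' = fun i => !(a' i)

end FD

section Vectors

variable {n a : ℕ} {F : Type} [Field F]

/-- the vectors in the first `j` hyperbolic planes and the anisotropic part -/
def Bd (j : ℕ) (v : Ix n a → F) : Prop := ∀ x, ¬ In j x → v x = 0

/-- the matrix is the identity outside of the first `j` hyperbolic planes and the anisotropic part -/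
def Fo (j : ℕ) (A : Matrix (Ix n a) (Ix n a) F) : Prop :=
  ∀ x y, ¬ (In j x ∧ In j y) → A x y = (1 : Matrix (Ix n a) (Ix n a) F) x y

/-- the standard vector -/
def sv (x : Ix n a) : Ix n a → F := Pi.single x 1

/-- the action on vectors -/
def mv (g : GL (Ix n a) F) (v : Ix n a → F) : Ix n a → F :=
  (g : Matrix (Ix n a) (Ix n a) F).mulVec v

end Vectors

section Families

variable {F : Type} [Field F]

theorem one_unit : ((1 : Fˣ) : F) * RingEquiv.refl F ((1 : Fˣ) : F) = 1 := by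
  rw [Units.val_one, map_one, one_mul]

theorem ani_one {a : ℕ} (ha : a ≤ 1) (σ : F ≃+* F) (x : Fin a → F) (h1 : ∀ j, x (Fin.rev j) = x j)
    (h : ∑ j, σ (x j) * x (Fin.rev j) = 0) : x = 0 := by
  ext j
  have h2 : ∀ j' : Fin a, j' = j := fun j' => Fin.ext (by have := j'.2; have := j.2; omega)
  rw [Finset.sum_eq_single j (fun j' _ hj' => absurd (h2 j') hj') (fun h' => absurd (Finset.mem_univ _) h'),
    h1, mul_eq_zero] at h
  rcases h with h | h
  · rw [Pi.zero_apply]
    exact (map_eq_zero σ).1 h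
  · exact h

/-- symplectic groups -/
def fSp (n : ℕ) (F : Type) [Field F] (h2 : (2 : F) ≠ 0) : FD n 0 F where
  σ := RingEquiv.refl F
  τ := RingEquiv.refl F
  ep := -1
  cm := 1
  om := 1
  so := false
  two := h2
  ss := fun _ => rfl
  tt := fun _ => rfl
  st := fun _ => rfl
  ep2 := Or.inr rfl
  cms := fun h => absurd h (lt_irrefl 0)
  cmt := rfl
  oms := one_unit
  omt := rfl
  ani := fun x _ _ => Subsingleton.elim _ _
  a2 := Or.inl (Nat.zero_le 1)
  sos := fun h => absurd h Bool.false_ne_true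

/-- unitary groups -/
def fU (n : ℕ) {a : ℕ} (ha : a ≤ 1) (h2 : (2 : F) ≠ 0) (σ : F ≃+* F) (hs : ∀ x, σ (σ x) = x) : FD n a F where
  σ := σ
  τ := RingEquiv.refl F
  ep := 1
  cm := 1
  om := 1
  so := false
  two := h2
  ss := hs
  tt := fun _ => rfl
  st := fun _ => rfl
  ep2 := Or.inl rfl
  cms := fun _ => by rw [Units.val_one, map_one, one_mul]
  cmt := rfl
  oms := by rw [Units.val_one, map_one, one_mul]
  omt := rfl
  ani := fun x h1 h => ani_one ha σ x h1 h
  a2 := Or.inl ha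
  sos := fun h => absurd h Bool.false_ne_true

/-- orthogonal groups in odd dimension -/
def fSO (n : ℕ) (F : Type) [Field F] (h2 : (2 : F) ≠ 0) : FD n 1 F where
  σ := RingEquiv.refl F
  τ := RingEquiv.refl F
  ep := 1
  cm := 1
  om := -1
  so := true
  two := h2
  ss := fun _ => rfl
  tt := fun _ => rfl
  st := fun _ => rfl
  ep2 := Or.inl rfl
  cms := fun _ => by
    rw [Units.val_one, map_one, one_mul]
  cmt := rfl
  oms := by
    rw [Units.val_neg, Units.val_one, map_neg, map_one, neg_mul_neg, one_mul]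
  omt := rfl
  ani := fun x h1 h => ani_one le_rfl (RingEquiv.refl F) x h1 h
  a2 := Or.inl le_rfl
  sos := fun _ => ⟨fun _ => rfl, rfl, Or.inl ⟨rfl, rfl⟩⟩

/-- orthogonal groups of minus type -/
def fOm (n : ℕ) (h2 : (2 : F) ≠ 0) (τ : F ≃+* F) (ht : ∀ x, τ (τ x) = x) : FD n 2 F where
  σ := RingEquiv.refl F
  τ := τ
  ep := 1
  cm := 1
  om := 1
  so := true
  two := h2
  ss := fun _ => rfl
  tt := ht
  st := fun _ => rfl
  ep2 := Or.inl rfl
  cms := fun _ => by
    rw [Units.val_one, map_one, one_mul]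
  cmt := by rw [Units.val_one, map_one]
  oms := one_unit
  omt := by rw [Units.val_one, map_one]
  ani := fun x h1 h => by
    have h3 : x 1 = τ (x 0) := h1 0
    have h4 : (∑ j : Fin 2, RingEquiv.refl F (x j) * x (Fin.rev j)) = x 0 * x 1 + x 1 * x 0 :=
      Fin.sum_univ_two _
    rw [h4, h3] at h
    have h5 : (2 : F) * (x 0 * τ (x 0)) = 0 := by linear_combination h
    have h6 : x 0 = 0 := by
      rcases mul_eq_zero.1 ((mul_eq_zero.1 h5).resolve_left h2) with h7 | h7
      · exact h7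
      · exact (map_eq_zero τ).1 h7
    ext j
    fin_cases j
    · exact h6
    · show x 1 = 0
      rw [h3, h6, map_zero]
  a2 := Or.inr ⟨rfl, rfl⟩
  sos := fun _ => ⟨fun _ => rfl, rfl, Or.inr ⟨rfl, rfl⟩⟩

end Families

end MG

end

end AO
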