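import Pool.Agent.AO.L08

/-!
# MP_6c3636_al, AO, module H01: operators which commute with H (helper7)

`e = ev M (B.e k) = (D.on M).Et = ∑ a good, E a` on `M` (`et_eq`), `E a = ev M (B.E0 k a)` for good `a`. `Z` commutes with `e` (`U ≤ H`) and with the elements of `T ⊓ H`, so `E b Z E a ≠ 0` implies `th a = th b` on `T ⊓ H`, `b = a` or `b = not a` (`tw`). `comm_scalar`: `th (not a) x = th a x * th ⊤ x ≠ th a x` (`thn`), so `Z e = ∑ E a Z E a` commutes with `T`, and with `[h]`, `h ∈ H`; as `G = H T` and `[h x] = [h] [x]` (`b_xg`) it commutes with all `[g]` on the range of `e`; an eigenspace of `Z` on the range of `e` is stable under all `[g]`, so `Z` is a scalar (`b_irr`, L08). `comm_split`: for `y ∈ T`: `M(y)⁻¹ Z M(y)` on the range of `e` is `Z₀ + la(y) Z₁` with `Z₀ = ∑ E a Z E a`, `Z₁ = ∑ E (not a) Z E a`. `Z` commutes with all `[h]`, `h ∈ H`; conjugation with `y ∈ T` permutes the `[h]`; choose `y ∈ T` with `la y = -1` (exists: `th ⊤ ≠ th ⊥` on `T`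 by `thd` as `0 < n`, and `th ⊥ = 1` on `T` by `thn`): `Z₀ - Z₁` commutes with all `[h]` too, so `Z₀` and `Z₁` commute with all `[h]`, `h ∈ H`. `Z₀` commutes with `[x]`, `x ∈ T`, so with all `[g]`, it is a scalar `c`. `Z₁ [x] = la x [x] Z₁`. Put `Z₁ = e Z₁ e` on all of `W`.
-/

namespace AO

noncomputable section

open Classical Equiv

open AN (sq)

variable {k : Type} [Field k] [CharZero k] [Algebra k ℝ] {Ω : Type} [Field Ω] [IsAlgClosed Ω] [CharZero Ω]
  [Algebra k Ω] {G : Type} [Group G] [Finite G] {n : ℕ} {B : BN G n} {P : Par k}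
  {D : HA P n (MonoidAlgebra k G)} {W : Type} [AddCommGroup W] [Module Ω W] [FiniteDimensional Ω W]
  {M : Representation Ω G W}

/-- twisted intertwiners on the range of `e` -/
structure Tw (B : BN G n) (k : Type) [Field k] [Algebra k Ω] (M : Representation Ω G W)
    (la : G →* ℤˣ) (Z : Module.End Ω W) : Prop where
  mem : ∀ v, ev M (B.e k) v = v → ev M (B.e k) (Z v) = Z v
  tw : ∀ g v, ev M (B.e k) v = v →
    Z (ev M (B.b k g) v) = (((la g : ℤˣ) : ℤ) : Ω) • ev M (B.b k g) (Z v)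

namespace H01_aux

theorem ev_dl {k : Type} [Field k] {Ω : Type} [Field Ω] [Algebra k Ω] {G : Type} [Group G] {W : Type}
    [AddCommGroup W] [Module Ω W] (M : Representation Ω G W) (g : G) :
    ev M (LieP.dl g : LieP.Al k G) = M g := by
  unfold LieP.dl
  rw [ev_single, map_one, one_smul]

theorem comm_sb {k : Type} [Field k] {Ω : Type} [Field Ω] [Algebra k Ω] {G : Type} [Group G] {W : Type}
    [AddCommGroup W] [Module Ω W] {M : Representation Ω G W} {H : Subgroup G} {Z : Module.End Ω W}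
    (hZ : ∀ h ∈ H, Z * M h = M h * Z) {a : LieP.Al k G} (ha : a ∈ LieP.sb k H) :
    Z * ev M a = ev M a * Z := by
  refine LieP.sb_induction (p := fun a => Z * ev M a = ev M a * Z) ?_ ?_ ?_ ha
  · rw [map_zero, mul_zero, zero_mul]
  · intro a b h1 h2
    rw [map_add, mul_add, add_mul, h1, h2]
  · intro r g hg
    rw [ev_smul, ev_dl, mul_smul_comm, smul_mul_assoc, hZ g hg]

variable {k : Type} [Field k] [CharZero k] {Ω : Type} [Field Ω] [CharZero Ω]
  [Algebra k Ω] {G : Type} [Group G] [Finite G] {n : ℕ} {B : BN G n} {P : Par k}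
  {D : HA P n (MonoidAlgebra k G)} {W : Type} [AddCommGroup W] [Module Ω W]
  {M : Representation Ω G W}

theorem comm_e {Z : Module.End Ω W} (hZ : ∀ h ∈ B.H, Z * M h = M h * Z) :
    Z * ev M (B.e k) = ev M (B.e k) * Z :=
  comm_sb hZ (LieP.av_mem B.UH)

theorem ev_b (g : G) : ev M (B.b k g) = ev M (B.e k) * M g * ev M (B.e k) := by
  unfold BN.b
  rw [map_mul, map_mul, ev_dl]

theorem ee : ev M (B.e k) * ev M (B.e k) = ev M (B.e k) := by
  rw [← map_mul, e_idem]

theorem e_M {x : G} (hx : x ∈ B.T) : M x * ev M (B.e k) = ev M (B.e k) * M x := by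
  rw [← ev_dl (k := k) M x, ← map_mul, ← map_mul, dl_e hx]

/-- the idempotents on the representation -/
def Ea {k : Type} [Field k] {Ω : Type} [Field Ω] [Algebra k Ω] {G : Type} [Group G] [Finite G] {n : ℕ}
    {W : Type} [AddCommGroup W] [Module Ω W] (B : BN G n) (M : Representation Ω G W) (a : Fin n → Bool) :
    Module.End Ω W := ev M (B.Eg k a)

/-- the value of the character in the field -/
def tv {Ω : Type} [Field Ω] {G : Type} [Group G] {n : ℕ} (B : BN G n) (a : Fin n → Bool) (x : G) : Ω :=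
  (((B.th a x : ℤˣ) : ℤ) : Ω)

theorem dl_E0 {x : G} (hx : x ∈ B.T) (a : Fin n → Bool) :
    LieP.dl x * B.E0 k a = (((B.th a x : ℤˣ) : ℤ) : k) • B.E0 k a := by
  rw [← (b_E0 hx a).1]
  unfold BN.b
  rw [mul_assoc (B.e k * LieP.dl x), (e_E0 a).1, ← dl_e hx, mul_assoc, (e_E0 a).1]

theorem E0_dl {x : G} (hx : x ∈ B.T) (a : Fin n → Bool) :
    B.E0 k a * LieP.dl x = (((B.th a x : ℤˣ) : ℤ) : k) • B.E0 k a := by
  rw [← (b_E0 hx a).2]
  unfold BN.b
  rw [mul_assoc (B.e k), dl_e hx, ← mul_assoc (B.e k), e_idem, ← mul_assoc, (e_E0 a).2]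

theorem M_Ea {x : G} (hx : x ∈ B.T) (a : Fin n → Bool) :
    M x * Ea (k := k) B M a = (tv B a x : Ω) • Ea (k := k) B M a := by
  unfold Ea BN.Eg
  split_ifs with h
  · rw [← ev_dl (k := k) M x, ← map_mul, dl_E0 hx, ev_smul]
    unfold tv
    rw [map_intCast]
  · rw [map_zero, mul_zero, smul_zero]

theorem Ea_M {x : G} (hx : x ∈ B.T) (a : Fin n → Bool) :
    Ea (k := k) B M a * M x = (tv B a x : Ω) • Ea (k := k) B M a := by
  unfold Ea BN.Eg
  split_ifs with h
  · rw [← ev_dl (k := k) M x, ← map_mul, E0_dl hx, ev_smul]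
    unfold tv
    rw [map_intCast]
  · rw [map_zero, zero_mul, smul_zero]

theorem e_Ea (a : Fin n → Bool) : ev M (B.e k) * Ea (k := k) B M a = Ea (k := k) B M a := by
  unfold Ea BN.Eg
  split_ifs with h
  · rw [← map_mul, (e_E0 a).1]
  · rw [map_zero, mul_zero]

theorem tv_inv {x : G} (hx : x ∈ B.T) (a : Fin n → Bool) : (tv B a x⁻¹ : Ω) = tv B a x := by
  unfold tv
  rw [LieP.lin_inv (B.thm a) hx]

theorem tv_sq (a : Fin n → Bool) (x : G) : (tv B a x : Ω) * tv B a x = 1 := LieP.A02_aux.unit_sq _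

theorem tv_not {la : G →* ℤˣ} (h2 : ∀ x ∈ B.T, la x = B.th (fun _ => true) x) {x : G} (hx : x ∈ B.T)
    (a : Fin n → Bool) : (tv B (fun i => !(a i)) x : Ω) = tv B a x * (((la x : ℤˣ) : ℤ) : Ω) := by
  unfold tv
  rw [B.thn a x hx, h2 x hx, Units.val_mul, Int.cast_mul]

theorem off {Z : Module.End Ω W} (hZ : ∀ h ∈ B.H, Z * M h = M h * Z) {a b : Fin n → Bool} (h1 : b ≠ a)
    (h2 : b ≠ fun i => !(a i)) : Ea (k := k) B M b * Z * Ea (k := k) B M a = 0 := by
  by_contra hne
  have h3 : ∀ x ∈ B.T ⊓ B.H, B.th a x = B.th b x := by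
    intro x hx
    by_contra hx'
    have key : ((tv B a x : Ω) - tv B b x) • (Ea (k := k) B M b * Z * Ea (k := k) B M a) = 0 := by
      rw [sub_smul, sub_eq_zero]
      calc (tv B a x : Ω) • (Ea (k := k) B M b * Z * Ea (k := k) B M a)
          = Ea (k := k) B M b * Z * (M x * Ea (k := k) B M a) := by rw [M_Ea hx.1, mul_smul_comm]
        _ = Ea (k := k) B M b * (Z * M x) * Ea (k := k) B M a := by simp only [mul_assoc]
        _ = Ea (k := k) B M b * (M x * Z) * Ea (k := k) B M a := by rw [hZ x hx.2]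
        _ = (Ea (k := k) B M b * M x) * Z * Ea (k := k) B M a := by simp only [mul_assoc]
        _ = _ := by rw [Ea_M hx.1, smul_mul_assoc, smul_mul_assoc]
    rcases smul_eq_zero.1 key with h | h
    · exact LieP.A02_aux.unit_ne hx' h
    · exact hne h
  rcases B.tw a b h3 with h | h
  · exact h1 h
  · exact h2 h

/-- the operator commutes with the element `x` of the torus on the range of `e`, up to a scalar -/
theorem Z_T {Z : Module.End Ω W} (hZ : ∀ h ∈ B.H, Z * M h = M h * Z)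
    (hs : ∑ a, Ea (k := k) B M a = ev M (B.e k)) {f : (Fin n → Bool) → (Fin n → Bool)}
    (hoff : ∀ a b, b ≠ f a → Ea (k := k) B M b * Z * Ea (k := k) B M a = 0) {la : G → Ω}
    (hla : ∀ x ∈ B.T, ∀ a, (tv B a x : Ω) = la x * tv B (f a) x) {x : G} (hx : x ∈ B.T) :
    Z * ev M (B.b k x) = la x • (ev M (B.b k x) * Z) := by
  have hZe : Z * ev M (B.e k) = ev M (B.e k) * Z := comm_e hZ
  have h1 : ∀ a, Z * Ea (k := k) B M a = Ea (k := k) B M (f a) * Z * Ea (k := k) B M a := by
    intro a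
    calc Z * Ea (k := k) B M a = Z * (ev M (B.e k) * Ea (k := k) B M a) := by rw [e_Ea]
      _ = ev M (B.e k) * Z * Ea (k := k) B M a := by rw [← mul_assoc, hZe]
      _ = ∑ b, Ea (k := k) B M b * Z * Ea (k := k) B M a := by
        rw [← hs, Finset.sum_mul, Finset.sum_mul]
      _ = _ := Finset.sum_eq_single (f a) (fun b _ hb => hoff a b hb)
        (fun h => absurd (Finset.mem_univ _) h)
  have h2 : Z * M x * ev M (B.e k) = la x • (M x * Z * ev M (B.e k)) := by
    rw [← hs, Finset.mul_sum, Finset.mul_sum, Finset.smul_sum]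
    refine Finset.sum_congr rfl fun a _ => ?_
    calc Z * M x * Ea (k := k) B M a = (tv B a x : Ω) • (Z * Ea (k := k) B M a) := by
          rw [mul_assoc, M_Ea hx, mul_smul_comm]
      _ = la x • ((tv B (f a) x : Ω) • (Ea (k := k) B M (f a) * Z * Ea (k := k) B M a)) := by
          rw [smul_smul, ← hla x hx a, h1 a]
      _ = la x • (M x * Ea (k := k) B M (f a) * Z * Ea (k := k) B M a) := by
          rw [M_Ea hx, smul_mul_assoc, smul_mul_assoc]
      _ = _ := by
          rw [mul_assoc (M x * Ea (k := k) B M (f a)), mul_assoc (M x), ← mul_assoc (Ea (k := k) B M (f a)),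
            ← h1 a, ← mul_assoc]
  rw [ev_b]
  calc Z * (ev M (B.e k) * M x * ev M (B.e k))
      = ev M (B.e k) * (Z * M x * ev M (B.e k)) := by
        simp only [← mul_assoc]
        rw [hZe]
    _ = la x • (ev M (B.e k) * M x * (Z * ev M (B.e k))) := by
        rw [h2, mul_smul_comm]
        simp only [mul_assoc]
    _ = _ := by
        rw [hZe]
        simp only [mul_assoc]

theorem Z_G {Z : Module.End Ω W} (hZ : ∀ h ∈ B.H, Z * M h = M h * Z)
    (hs : ∑ a, Ea (k := k) B M a = ev M (B.e k)) {f : (Fin n → Bool) → (Fin n → Bool)}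
    (hoff : ∀ a b, b ≠ f a → Ea (k := k) B M b * Z * Ea (k := k) B M a = 0) {la : G → Ω}
    (hla : ∀ x ∈ B.T, ∀ a, (tv B a x : Ω) = la x * tv B (f a) x)
    (hlH : ∀ h ∈ B.H, ∀ x, la (h * x) = la x) (g : G) :
    Z * ev M (B.b k g) = la g • (ev M (B.b k g) * Z) := by
  obtain ⟨h, hh, x, hx, rfl⟩ := B.HT g
  have h1 : Z * ev M (B.b k h) = ev M (B.b k h) * Z := by
    rw [ev_b]
    calc Z * (ev M (B.e k) * M h * ev M (B.e k)) = (Z * ev M (B.e k)) * M h * ev M (B.e k) := by
          simp only [mul_assoc]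
      _ = ev M (B.e k) * (Z * M h) * ev M (B.e k) := by
          rw [comm_e hZ]
          simp only [mul_assoc]
      _ = ev M (B.e k) * M h * (Z * ev M (B.e k)) := by
          rw [hZ h hh]
          simp only [mul_assoc]
      _ = _ := by
          rw [comm_e hZ]
          simp only [mul_assoc]
  rw [← (b_xg hx h).2, map_mul, ← mul_assoc, h1, mul_assoc, Z_T hZ hs hoff hla hx, mul_smul_comm,
    hlH h hh x, mul_assoc]

end H01_aux

open H01_aux

theorem H01_aux.sum_Ea (hM : M.IsIrreducible) (hD : Dg B P D) (hE : (D.on M).Et ≠ 0) :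
    ∑ a, Ea (k := k) B M a = ev M (B.e k) := by
  rw [← et_eq hM hD hE]
  unfold HA.Et
  refine Finset.sum_congr rfl fun a _ => ?_
  show ev M (B.Eg k a) = ev M (D.E a)
  rw [hD.E]

theorem H01_aux.scal (hM : M.IsIrreducible) (hD : Dg B P D) (hE : (D.on M).Et ≠ 0) {Z : Module.End Ω W}
    (hZ : ∀ h ∈ B.H, Z * M h = M h * Z)
    (hoff : ∀ a b, b ≠ a → Ea (k := k) B M b * Z * Ea (k := k) B M a = 0) :
    ∃ c : Ω, ∀ v, ev M (B.e k) v = v → Z v = c • v := by
  have hb : ∀ g, Z * ev M (B.b k g) = ev M (B.b k g) * Z := by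
    intro g
    have := Z_G (k := k) hZ (sum_Ea hM hD hE) (f := fun a => a) hoff (la := fun _ => 1)
      (fun x _ a => by rw [one_mul]) (fun _ _ _ => rfl) g
    rw [this, one_smul]
  have hR : LinearMap.range (ev M (B.e k)) ≠ ⊥ := by
    intro h
    rw [LinearMap.range_eq_bot, ← et_eq hM hD hE] at h
    exact hE h
  have hmap : ∀ v ∈ LinearMap.range (ev M (B.e k)), Z v ∈ LinearMap.range (ev M (B.e k)) := by
    rintro v ⟨w, rfl⟩
    refine ⟨Z w, ?_⟩
    show (ev M (B.e k) * Z) w = (Z * ev M (B.e k)) w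
    rw [comm_e hZ]
  have : Nontrivial (LinearMap.range (ev M (B.e k))) := Submodule.nontrivial_iff_ne_bot.2 hR
  obtain ⟨c, hc⟩ := Module.End.exists_eigenvalue (Z.restrict hmap)
  obtain ⟨w, hw⟩ := hc.exists_hasEigenvector
  have hw1 : Z (w : W) = c • (w : W) := congrArg Subtype.val hw.apply_eq_smul
  have hw2 : (w : W) ≠ 0 := fun h => hw.2 (Subtype.ext h)
  have hirr := b_irr (k := k) (B := B) hM
    (W' := LinearMap.range (ev M (B.e k)) ⊓ LinearMap.ker (Z - c • (1 : Module.End Ω W))) inf_le_left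
    (by
      intro h
      apply hw2
      have : (w : W) ∈ LinearMap.range (ev M (B.e k)) ⊓ LinearMap.ker (Z - c • (1 : Module.End Ω W)) := by
        refine ⟨w.2, ?_⟩
        show Z (w : W) - c • (w : W) = 0
        rw [hw1, sub_self]
      rw [h] at this
      exact (Submodule.mem_bot Ω).1 this)
    (by
      rintro g v ⟨hv1, hv2⟩
      refine ⟨?_, ?_⟩
      · refine ⟨ev M (B.b k g) v, ?_⟩
        show (ev M (B.e k) * ev M (B.b k g)) v = _
        rw [← map_mul, (b_e g).1]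
      · have hv3 : Z v - c • v = 0 := hv2
        show (Z * ev M (B.b k g)) v - c • (ev M (B.b k g) v) = 0
        rw [hb g]
        show ev M (B.b k g) (Z v) - c • (ev M (B.b k g) v) = 0
        rw [sub_eq_zero.1 hv3, map_smul, sub_self])
  refine ⟨c, fun v hv => ?_⟩
  have h1 : v ∈ LinearMap.range (ev M (B.e k)) := ⟨v, hv⟩
  rw [← hirr] at h1
  have h2 : Z v - c • v = 0 := h1.2
  exact sub_eq_zero.1 h2

theorem comm_scalar (hM : M.IsIrreducible) (hD : Dg B P D) (hE : (D.on M).Et ≠ 0)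
    (hx : ∃ x ∈ B.T ⊓ B.H, B.th (fun _ => true) x ≠ 1) {Z : Module.End Ω W}
    (hZ : ∀ h ∈ B.H, Z * M h = M h * Z) : ∃ c : Ω, ∀ v, ev M (B.e k) v = v → Z v = c • v := by
  refine scal hM hD hE hZ fun a b hb => ?_
  obtain ⟨x, hx, hx1⟩ := hx
  by_cases hn : b = fun i => !(a i)
  · by_contra hne
    have key : ((tv B a x : Ω) - tv B b x) • (Ea (k := k) B M b * Z * Ea (k := k) B M a) = 0 := by
      rw [sub_smul, sub_eq_zero]
      calc (tv B a x : Ω) • (Ea (k := k) B M b * Z * Ea (k := k) B M a)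
          = Ea (k := k) B M b * Z * (M x * Ea (k := k) B M a) := by rw [M_Ea hx.1, mul_smul_comm]
        _ = Ea (k := k) B M b * (Z * M x) * Ea (k := k) B M a := by simp only [mul_assoc]
        _ = Ea (k := k) B M b * (M x * Z) * Ea (k := k) B M a := by rw [hZ x hx.2]
        _ = (Ea (k := k) B M b * M x) * Z * Ea (k := k) B M a := by simp only [mul_assoc]
        _ = _ := by rw [Ea_M hx.1, smul_mul_assoc, smul_mul_assoc]
    rcases smul_eq_zero.1 key with h | h
    · refine LieP.A02_aux.unit_ne (k := Ω) ?_ h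
      intro h3
      rw [hn, B.thn a x hx.1] at h3
      exact hx1 (mul_eq_left.1 h3.symm)
    · exact hne h
  · exact off hZ hb hn

theorem exists_neg (hn : 0 < n) {la : G →* ℤˣ} (h2 : ∀ x ∈ B.T, la x = B.th (fun _ => true) x) :
    ∃ x ∈ B.T, la x = -1 := by
  by_contra hcon
  have h3 : ∀ x ∈ B.T, B.th (fun _ => true) x = 1 := by
    intro x hx
    rw [← h2 x hx]
    rcases Int.units_eq_one_or (la x) with h | h
    · exact h
    · exact absurd ⟨x, hx, h⟩ hcon
  have h4 := B.thd (fun _ => true) (fun _ => false) (fun x hx => by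
    have h5 := B.thn (fun _ => false) x hx
    simp only [Bool.not_false] at h5
    rw [h3 x hx, mul_one] at h5
    rw [h3 x hx, ← h5])
  have := congrFun h4 ⟨0, hn⟩
  exact absurd this (by decide)

theorem comm_split (hM : M.IsIrreducible) (hD : Dg B P D) (hE : (D.on M).Et ≠ 0) (hn : 0 < n)
    {la : G →* ℤˣ} (h1 : ∀ h ∈ B.H, la h = 1) (h2 : ∀ x ∈ B.T, la x = B.th (fun _ => true) x)
    {Z : Module.End Ω W} (hZ : ∀ h ∈ B.H, Z * M h = M h * Z) :
    ∃ (c : Ω) (Z₁ : Module.End Ω W), Tw B k M la Z₁ ∧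
      ∀ v, ev M (B.e k) v = v → Z v = c • v + Z₁ v := by
  obtain ⟨y, hy, hly⟩ := exists_neg hn h2
  obtain ⟨Z', hZ'⟩ : ∃ Z', Z' = M y⁻¹ * Z * M y := ⟨_, rfl⟩
  have hc : ∀ h ∈ B.H, Z' * M h = M h * Z' := by
    intro h hh
    have h3 : y * h * y⁻¹ ∈ B.H := B.hN.conj_mem h hh y
    have e1 : M y * M h = M (y * h * y⁻¹) * M y := by
      rw [← map_mul, ← map_mul]
      congr 1
      group
    have e2 : M y⁻¹ * M (y * h * y⁻¹) = M h * M y⁻¹ := by
      rw [← map_mul, ← map_mul]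
      congr 1
      group
    rw [hZ']
    calc M y⁻¹ * Z * M y * M h = M y⁻¹ * (Z * (M y * M h)) := by simp only [mul_assoc]
      _ = M y⁻¹ * ((Z * M (y * h * y⁻¹)) * M y) := by
          rw [e1]
          simp only [mul_assoc]
      _ = (M y⁻¹ * M (y * h * y⁻¹)) * (Z * M y) := by
          rw [hZ _ h3]
          simp only [mul_assoc]
      _ = _ := by
          rw [e2]
          simp only [mul_assoc]
  have hent : ∀ a b, Ea (k := k) B M b * Z' * Ea (k := k) B M a =
      ((tv B b y : Ω) * tv B a y) • (Ea (k := k) B M b * Z * Ea (k := k) B M a) := by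
    intro a b
    rw [hZ']
    calc Ea (k := k) B M b * (M y⁻¹ * Z * M y) * Ea (k := k) B M a
        = (Ea (k := k) B M b * M y⁻¹) * Z * (M y * Ea (k := k) B M a) := by simp only [mul_assoc]
      _ = _ := by
          rw [Ea_M (B.T.inv_mem hy), M_Ea hy, tv_inv hy, smul_mul_assoc, smul_mul_assoc, mul_smul_comm,
            smul_smul]
  have hsame : ∀ a, Ea (k := k) B M a * Z' * Ea (k := k) B M a =
      Ea (k := k) B M a * Z * Ea (k := k) B M a := by
    intro a
    rw [hent, tv_sq, one_smul]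
  have hopp : ∀ a, Ea (k := k) B M (fun i => !(a i)) * Z' * Ea (k := k) B M a =
      - (Ea (k := k) B M (fun i => !(a i)) * Z * Ea (k := k) B M a) := by
    intro a
    rw [hent, tv_not h2 hy, hly]
    have e3 : (tv B a y : Ω) * ((((-1 : ℤˣ) : ℤˣ) : ℤ) : Ω) * tv B a y = -1 := by
      have := tv_sq (Ω := Ω) (B := B) a y
      push_cast
      linear_combination (-1 : Ω) * this
    rw [e3, neg_smul, one_smul]
  have two : (2 : Ω) ≠ 0 := two_ne_zero
  have hadd : ∀ h ∈ B.H, ((2 : Ω)⁻¹ • (Z + Z')) * M h = M h * ((2 : Ω)⁻¹ • (Z + Z')) := by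
    intro h hh
    rw [smul_mul_assoc, mul_smul_comm, add_mul, mul_add, hZ h hh, hc h hh]
  have hsub : ∀ h ∈ B.H, ((2 : Ω)⁻¹ • (Z - Z')) * M h = M h * ((2 : Ω)⁻¹ • (Z - Z')) := by
    intro h hh
    rw [smul_mul_assoc, mul_smul_comm, sub_mul, mul_sub, hZ h hh, hc h hh]
  obtain ⟨c, hcv⟩ := scal hM hD hE hadd (by
    intro a b hb
    rw [mul_smul_comm, smul_mul_assoc, mul_add, add_mul]
    by_cases hba : b = fun i => !(a i)
    · rw [hba, hopp, add_neg_cancel, smul_zero]
    · rw [off hZ hb hba, off hc hb hba, add_zero, smul_zero])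
  have hG := Z_G (k := k) hsub (sum_Ea hM hD hE) (f := fun a i => !(a i)) (la := fun g => (((la g : ℤˣ) : ℤ) : Ω))
    (by
      intro a b hb
      rw [mul_smul_comm, smul_mul_assoc, mul_sub, sub_mul]
      by_cases hba : b = a
      · rw [hba, hsame, sub_self, smul_zero]
      · rw [off hZ hba hb, off hc hba hb, sub_zero, smul_zero])
    (by
      intro x hx a
      rw [tv_not h2 hx]
      have := LieP.A02_aux.unit_sq (k := Ω) (la x)
      linear_combination (-(tv B a x : Ω)) * this)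
    (by
      intro h hh x
      rw [map_mul, h1 h hh, one_mul])
  refine ⟨c, (2 : Ω)⁻¹ • (Z - Z'), ⟨?_, ?_⟩, ?_⟩
  · intro v hv
    have h3 := comm_e (k := k) hsub
    have h4 : (ev M (B.e k) * ((2 : Ω)⁻¹ • (Z - Z'))) v = (((2 : Ω)⁻¹ • (Z - Z')) * ev M (B.e k)) v := by
      rw [h3]
    have h5 : ev M (B.e k) (((2 : Ω)⁻¹ • (Z - Z')) v) = ((2 : Ω)⁻¹ • (Z - Z')) (ev M (B.e k) v) := h4
    rw [h5, hv]
  · intro g v _
    have h3 : (((2 : Ω)⁻¹ • (Z - Z')) * ev M (B.b k g)) v =
        ((((la g : ℤˣ) : ℤ) : Ω) • (ev M (B.b k g) * ((2 : Ω)⁻¹ • (Z - Z')))) v := by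
      rw [hG g]
    exact h3
  · intro v hv
    have h3 : ((2 : Ω)⁻¹ • (Z + Z')) v = c • v := hcv v hv
    rw [← h3]
    show Z v = (2 : Ω)⁻¹ • (Z v + Z' v) + (2 : Ω)⁻¹ • (Z v - Z' v)
    rw [← smul_add]
    have h4 : Z v + Z' v + (Z v - Z' v) = (2 : Ω) • Z v := by
      rw [two_smul]
      abel
    rw [h4, smul_smul, inv_mul_cancel₀ two, one_smul]

end

end AO
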