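import Pool.Agent.AO.L01

/-!
# MP_6c3636_al, AO, module L02: the idempotents of the weights (helper7)

`LieP.el k B.T (B.th a)` is the idempotent of the character `th a` of `T` (API in LieP/A02.lean: `el_mul_of`, `dl_el'`, `st_el'`, `el_conj'`, `el_ne'`; `LieP.Lin B.T (B.th a)` is `thm`), it commutes with `e` (`dl_e`, sum over `T`). `E0_mul`: orthogonality: for `a ≠ b` there is `x ∈ T` with `th a x ≠ th b x` (`thd`). `N_perm`: closure induction: for a generator `s l`, `l = k + 1`: `π = swap k l` (`ths`, `sT`); for `s 0` and `x ∈ T`: `π = 1` (`th0`, `Tc`, `thm`); products and inverses (for the inverse: `m⁻¹` maps `T` onto `T` as `T` is finite). `N_E0`: `[m] E0 a = e dl m el(T, th a) e`, `dl m * el(T, th a) * dl m⁻¹ = el(T, th (a ∘ π))` (`el_conj'`; note `th (a ∘ π) (m x m⁻¹) = th a x`). `sl_E0`, `s0_E0`: the cases of the generators. `b_E0`: `dl_el'`. `E0_ne`: the coefficient of `1`: `u x = 1` with `u ∈ U`, `x ∈ T`; or: `E0 a ≠ 0` as the elements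 `x ∈ T` act on the left by the character; use `tr`: the coefficient of `1` of `e * el` is `∑ over u ∈ U ⊓ T of th a (u) / (|U| |T|)`, and `th a u = 1` for `u ∈ U ⊓ T` (odd order, values `1`, `-1`), so it is positive.
-/

namespace AO

noncomputable section

open Classical Equiv

open AN (sq)

variable {k : Type} [Field k] [CharZero k] {G : Type} [Group G] [Finite G] {n : ℕ} {B : BN G n}

namespace L02_aux

omit [CharZero k] [Finite G] in
theorem lin_th (a : Fin n → Bool) : LieP.Lin B.T (B.th a) := fun x hx y hy => B.thm a x hx y hy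

theorem el_e (a : Fin n → Bool) : LieP.el k B.T (B.th a) * B.e k = B.e k * LieP.el k B.T (B.th a) :=
  LieP.av_comm (fun x hx u hu => B.TU x hx u hu) (LieP.el_mem (le_refl _) _)

theorem e_dl {x : G} (hx : x ∈ B.T) : LieP.dl x * B.e k = B.e k * LieP.dl x := dl_e hx

omit [CharZero k] [Finite G] in
/-- characters with values `1`, `-1` are trivial on `U` -/
theorem th_one (a : Fin n → Bool) {u : G} (hu : u ∈ B.U) (hT : u ∈ B.T) : B.th a u = 1 := by
  obtain ⟨j, hj⟩ := B.pU u hu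
  have h1 : ∀ i : ℕ, B.th a (u ^ i) = B.th a u ^ i := by
    intro i
    induction i with
    | zero => rw [pow_zero, pow_zero, LieP.A02_aux.lin_one' (lin_th a)]
    | succ i ih => rw [pow_succ, pow_succ, B.thm a _ (B.T.pow_mem hT i) _ hT, ih]
  have h2 := h1 (B.pc ^ j)
  rw [hj, LieP.A02_aux.lin_one' (lin_th a)] at h2
  rcases Int.units_eq_one_or (B.th a u) with h | h
  · exact h
  · rw [h, (B.odd.pow (n := j)).neg_one_pow] at h2
    exact absurd h2 (by decide)

theorem b_E0_of {a a' : Fin n → Bool} {m : G} (hT : ∀ x, x ∈ B.T ↔ m * x * m⁻¹ ∈ B.T)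
    (h : ∀ x ∈ B.T, B.th a' (m * x * m⁻¹) = B.th a x) :
    B.b k m * B.E0 k a = B.E0 k a' * B.b k m := by
  have h1 : LieP.dl m * LieP.el k B.T (B.th a) * LieP.dl m⁻¹ = LieP.el k B.T (B.th a') := by
    rw [LieP.el_conj hT]
    refine LieP.el_congr fun x hx => ?_
    have h2 : m * (m⁻¹ * x * m) * m⁻¹ = x := by group
    have h3 : m⁻¹ * x * m ∈ B.T := by
      rw [hT, h2]
      exact hx
    have h4 := h _ h3
    rw [h2] at h4
    exact h4.symm
  have h2 : LieP.dl m * LieP.el k B.T (B.th a) = LieP.el k B.T (B.th a') * LieP.dl m := by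
    rw [← h1, mul_assoc, ← LieP.dl_mul, inv_mul_cancel, LieP.dl_one, mul_one]
  have he : B.e k * B.e k = B.e k := e_idem
  show B.e k * LieP.dl m * B.e k * (B.e k * LieP.el k B.T (B.th a)) =
    B.e k * LieP.el k B.T (B.th a') * (B.e k * LieP.dl m * B.e k)
  calc B.e k * LieP.dl m * B.e k * (B.e k * LieP.el k B.T (B.th a))
      = B.e k * LieP.dl m * (B.e k * B.e k * LieP.el k B.T (B.th a)) := by simp only [mul_assoc]
    _ = B.e k * LieP.dl m * (LieP.el k B.T (B.th a) * B.e k) := by rw [he, el_e]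
    _ = B.e k * (LieP.dl m * LieP.el k B.T (B.th a)) * B.e k := by simp only [mul_assoc]
    _ = B.e k * B.e k * (LieP.el k B.T (B.th a') * LieP.dl m) * B.e k := by rw [h2, he]
    _ = B.e k * (B.e k * LieP.el k B.T (B.th a')) * LieP.dl m * B.e k := by simp only [mul_assoc]
    _ = B.e k * (LieP.el k B.T (B.th a') * B.e k) * LieP.dl m * B.e k := by rw [el_e]
    _ = _ := by simp only [mul_assoc]

omit [Finite G] [CharZero k] in
theorem N_T_aux (B : BN G n) {m : G} (hm : m ∈ B.N) : ∀ x : G, m * x * m⁻¹ ∈ B.T ↔ x ∈ B.T := by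
  have hm' : m ∈ Subgroup.closure (Set.range B.s ∪ (B.T : Set G)) := hm
  induction hm' using Subgroup.closure_induction with
  | mem y hy =>
    intro x
    rcases hy with ⟨i, rfl⟩ | hy
    · constructor
      · intro h
        have h1 := B.sT' i _ h
        have h2 : (B.s i)⁻¹ * (B.s i * x * (B.s i)⁻¹) * B.s i = x := by group
        rwa [h2] at h1
      · exact B.sT i x
    · constructor
      · intro h
        have h1 := B.T.mul_mem (B.T.mul_mem (B.T.inv_mem hy) h) hy
        have h2 : y⁻¹ * (y * x * y⁻¹) * y = x := by group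
        rwa [h2] at h1
      · intro h
        exact B.T.mul_mem (B.T.mul_mem hy h) (B.T.inv_mem hy)
  | one =>
    intro x
    rw [one_mul, inv_one, mul_one]
  | mul y z hy hz ihy ihz =>
    intro x
    have h1 : y * z * x * (y * z)⁻¹ = y * (z * x * z⁻¹) * y⁻¹ := by group
    rw [h1, ihy hy, ihz hz]
  | inv y hy ih =>
    intro x
    have h1 := ih hy (y⁻¹ * x * y⁻¹⁻¹)
    have h2 : y * (y⁻¹ * x * y⁻¹⁻¹) * y⁻¹ = x := by group
    rw [h2] at h1
    exact h1.symm

omit [Finite G] [CharZero k] in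
theorem N_perm_aux (B : BN G n) {m : G} (hm : m ∈ B.N) :
    ∃ π : Perm (Fin n), ∀ a, ∀ x ∈ B.T, B.th (fun i => a (π i)) (m * x * m⁻¹) = B.th a x := by
  have hm' : m ∈ Subgroup.closure (Set.range B.s ∪ (B.T : Set G)) := hm
  induction hm' using Subgroup.closure_induction with
  | mem y hy =>
    rcases hy with ⟨l, rfl⟩ | hy
    · rcases Nat.eq_zero_or_pos (l : ℕ) with h | h
      · exact ⟨1, fun a x hx => B.th0 l h a x hx⟩
      · have h1 : ((⟨(l : ℕ) - 1, by omega⟩ : Fin n) : ℕ) = (l : ℕ) - 1 := rfl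
        exact ⟨swap ⟨(l : ℕ) - 1, by omega⟩ l, fun a x hx => B.ths _ l (by rw [h1]; omega) a x hx⟩
    · refine ⟨1, fun a x hx => ?_⟩
      have h1 : y * x * y⁻¹ = x := by
        rw [B.Tc y hy x hx]
        group
      rw [h1]
      rfl
  | one =>
    refine ⟨1, fun a x hx => ?_⟩
    rw [one_mul, inv_one, mul_one]
    rfl
  | mul y z hy hz ihy ihz =>
    obtain ⟨π, hπ⟩ := ihy hy
    obtain ⟨π', hπ'⟩ := ihz hz
    refine ⟨π' * π, fun a x hx => ?_⟩
    have h1 : y * z * x * (y * z)⁻¹ = y * (z * x * z⁻¹) * y⁻¹ := by group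
    rw [h1, ← hπ' a x hx, ← hπ (fun i => a (π' i)) _ ((N_T_aux B hz x).2 hx)]
    rfl
  | inv y hy ih =>
    obtain ⟨π, hπ⟩ := ih hy
    refine ⟨π⁻¹, fun a x hx => ?_⟩
    have h2 : y * (y⁻¹ * x * y⁻¹⁻¹) * y⁻¹ = x := by group
    have h3 : y⁻¹ * x * y⁻¹⁻¹ ∈ B.T := by
      rw [← N_T_aux B hy, h2]
      exact hx
    have h4 := hπ (fun i => a (π⁻¹ i)) _ h3
    rw [h2] at h4
    rw [← h4]
    have h5 : (fun i => a (π⁻¹ (π i))) = a := by
      funext i
      rw [← Perm.mul_apply, inv_mul_cancel]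
      rfl
    rw [h5]

end L02_aux

open L02_aux

theorem E0_mul (a a' : Fin n → Bool) : B.E0 k a * B.E0 k a' = if a = a' then B.E0 k a else 0 := by
  have he : B.e k * B.e k = B.e k := e_idem
  have h1 : B.E0 k a * B.E0 k a' = B.e k * (LieP.el k B.T (B.th a) * LieP.el k B.T (B.th a')) := by
    show B.e k * LieP.el k B.T (B.th a) * (B.e k * LieP.el k B.T (B.th a')) = _
    calc B.e k * LieP.el k B.T (B.th a) * (B.e k * LieP.el k B.T (B.th a'))
        = B.e k * (LieP.el k B.T (B.th a) * B.e k) * LieP.el k B.T (B.th a') := by simp only [mul_assoc]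
      _ = B.e k * B.e k * (LieP.el k B.T (B.th a) * LieP.el k B.T (B.th a')) := by
          rw [el_e]
          simp only [mul_assoc]
      _ = _ := by rw [he]
  rw [h1]
  by_cases h : a = a'
  · rw [if_pos h, ← h, LieP.el_idem (lin_th a)]
    rfl
  · rw [if_neg h, LieP.el_mul_el_ne (lin_th a) (lin_th a'), mul_zero]
    by_contra h2
    push Not at h2
    exact h (B.thd a a' h2)

theorem e_E0 (a : Fin n → Bool) : B.e k * B.E0 k a = B.E0 k a ∧ B.E0 k a * B.e k = B.E0 k a := by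
  have he : B.e k * B.e k = B.e k := e_idem
  constructor
  · show B.e k * (B.e k * LieP.el k B.T (B.th a)) = B.e k * LieP.el k B.T (B.th a)
    rw [← mul_assoc, he]
  · show B.e k * LieP.el k B.T (B.th a) * B.e k = B.e k * LieP.el k B.T (B.th a)
    rw [mul_assoc, el_e, ← mul_assoc, he]

theorem st_E0 (a : Fin n → Bool) : LieP.st (B.E0 k a) = B.E0 k a := by
  show LieP.st (B.e k * LieP.el k B.T (B.th a)) = B.e k * LieP.el k B.T (B.th a)
  rw [LieP.st_mul, LieP.st_el (lin_th a), e_st, el_e]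

theorem E0_ne (a : Fin n → Bool) : B.E0 k a ≠ 0 := by
  intro h0
  have := Fintype.ofFinite G
  have h1 : LieP.t (B.e k * LieP.el k B.T (B.th a)) = 0 := by
    have h2 : B.e k * LieP.el k B.T (B.th a) = 0 := h0
    rw [h2, LieP.t_zero]
  rw [LieP.t_mul_fin] at h1
  have h2 : ∀ x : G, (B.e k).coeff x * (LieP.el k B.T (B.th a)).coeff x⁻¹ =
      if x ∈ B.U ⊓ B.T then (Nat.card B.U : k)⁻¹ * (Nat.card B.T : k)⁻¹ else 0 := by
    intro x
    have e1 : (B.e k).coeff x = if x ∈ B.U then (Nat.card B.U : k)⁻¹ else 0 := LieP.coeff_av _ _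
    rw [e1, LieP.coeff_el]
    by_cases hU : x ∈ B.U
    · by_cases hT : x ∈ B.T
      · rw [if_pos hU, if_pos (B.T.inv_mem hT), if_pos (Subgroup.mem_inf.2 ⟨hU, hT⟩),
          th_one a (B.U.inv_mem hU) (B.T.inv_mem hT)]
        simp
      · rw [if_neg (fun h => hT (inv_mem_iff.1 h)), if_neg (fun h => hT (Subgroup.mem_inf.1 h).2), mul_zero]
    · rw [if_neg hU, if_neg (fun h => hU (Subgroup.mem_inf.1 h).1), zero_mul]
  rw [Finset.sum_congr rfl fun x _ => h2 x, LieP.A02_aux.sum_mem] at h1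
  have c1 := LieP.A02_aux.card_ne (k := k) B.U
  have c2 := LieP.A02_aux.card_ne (k := k) B.T
  have c3 := LieP.A02_aux.card_ne (k := k) (B.U ⊓ B.T)
  exact mul_ne_zero c3 (mul_ne_zero (inv_ne_zero c1) (inv_ne_zero c2)) h1

theorem b_E0 {x : G} (hx : x ∈ B.T) (a : Fin n → Bool) :
    B.b k x * B.E0 k a = (((B.th a x : ℤˣ) : ℤ) : k) • B.E0 k a ∧
      B.E0 k a * B.b k x = (((B.th a x : ℤˣ) : ℤ) : k) • B.E0 k a := by
  have he : B.e k * B.e k = B.e k := e_idem
  have hd := e_dl (k := k) hx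
  have h1 : B.b k x = B.e k * LieP.dl x := by
    show B.e k * LieP.dl x * B.e k = _
    rw [mul_assoc, hd, ← mul_assoc, he]
  have h2 : B.b k x * B.E0 k a = (((B.th a x : ℤˣ) : ℤ) : k) • B.E0 k a := by
    rw [h1]
    show B.e k * LieP.dl x * (B.e k * LieP.el k B.T (B.th a)) = _
    calc B.e k * LieP.dl x * (B.e k * LieP.el k B.T (B.th a))
        = B.e k * (LieP.dl x * B.e k) * LieP.el k B.T (B.th a) := by simp only [mul_assoc]
      _ = B.e k * B.e k * (LieP.dl x * LieP.el k B.T (B.th a)) := by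
          rw [hd]
          simp only [mul_assoc]
      _ = _ := by
          rw [he, LieP.dl_el (lin_th a) hx, mul_smul_comm]
          rfl
  refine ⟨h2, ?_⟩
  rw [h1]
  show B.e k * LieP.el k B.T (B.th a) * (B.e k * LieP.dl x) = _
  calc B.e k * LieP.el k B.T (B.th a) * (B.e k * LieP.dl x)
      = B.e k * (LieP.el k B.T (B.th a) * B.e k) * LieP.dl x := by simp only [mul_assoc]
    _ = B.e k * B.e k * (LieP.el k B.T (B.th a) * LieP.dl x) := by
        rw [el_e]
        simp only [mul_assoc]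
    _ = _ := by
        rw [he, LieP.el_dl (lin_th a) hx, mul_smul_comm]
        rfl

theorem N_T {m : G} (hm : m ∈ B.N) {x : G} : m * x * m⁻¹ ∈ B.T ↔ x ∈ B.T := N_T_aux B hm x

theorem N_perm {m : G} (hm : m ∈ B.N) :
    ∃ π : Perm (Fin n), ∀ a, ∀ x ∈ B.T, B.th (fun i => a (π i)) (m * x * m⁻¹) = B.th a x := N_perm_aux B hm

theorem N_E0 {m : G} (hm : m ∈ B.N) : ∃ π : Perm (Fin n), ∀ a,
    B.b k m * B.E0 k a = B.E0 k (fun i => a (π i)) * B.b k m := by
  obtain ⟨π, hπ⟩ := N_perm_aux B hm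
  exact ⟨π, fun a => b_E0_of (fun x => (N_T_aux B hm x).symm) (hπ a)⟩

theorem sl_E0 {i l : Fin n} (hl : (l : ℕ) = i + 1) (a : Fin n → Bool) :
    B.b k (B.s l) * B.E0 k a = B.E0 k (sq a i l) * B.b k (B.s l) :=
  b_E0_of (fun x => (N_T_aux B (Subgroup.subset_closure (Or.inl ⟨l, rfl⟩)) x).symm)
    (fun x hx => B.ths i l hl a x hx)

theorem s0_E0 {i : Fin n} (hi : (i : ℕ) = 0) (a : Fin n → Bool) :
    B.b k (B.s i) * B.E0 k a = B.E0 k a * B.b k (B.s i) :=
  b_E0_of (fun x => (N_T_aux B (Subgroup.subset_closure (Or.inl ⟨i, rfl⟩)) x).symm)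
    (fun x hx => B.th0 i hi a x hx)

end

end AO
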