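import Pool.Agent.AO.H01
import Pool.Agent.AO.L02
import Pool.Agent.LieP.A01
import Pool.Agent.LieP.A02

/-!
# MP_6c3636_al, AO, module H02: twisted intertwiners (helper7, proofs helper88)

`tw_inj`: the kernel of `Z` on the range of `e` is stable under all `[g]` (`tw`), so it is `0` or everything (`b_irr`, L08). `tw_sq`: `Z Z` commutes with all `[g]` on the range of `e` (`la g ^ 2 = 1`), so it is a scalar (an eigenspace is stable). `tw_prop`: `Z` is invertible on the range of `e` (`tw_inj`), `Z⁻¹ Z'` commutes with all `[g]`. `tw_E0`: `E0 a = |T|⁻¹ ∑ x ∈ T, th a x • [x]` and `Z [x] v = la x [x] Z v`, `th a x * la x = th (not a) x` (`thn`).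
-/

namespace AO

noncomputable section

open Classical Equiv

open AN (sq)

variable {k : Type} [Field k] [CharZero k] [Algebra k ℝ] {Ω : Type} [Field Ω] [IsAlgClosed Ω] [CharZero Ω]
  [Algebra k Ω] {G : Type} [Group G] [Finite G] {n : ℕ} {B : BN G n} {P : Par k}
  {D : HA P n (MonoidAlgebra k G)} {W : Type} [AddCommGroup W] [Module Ω W] [FiniteDimensional Ω W]
  {M : Representation Ω G W}

namespace H02_aux

/-- the coefficients, additive -/
def cf {k : Type} [Field k] {G : Type} [Group G] (x : G) : LieP.Al k G →+ k where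
  toFun a := a.coeff x
  map_zero' := rfl
  map_add' _ _ := rfl

/-- an element of the group algebra as a sum -/
theorem mk_sum {k : Type} [Field k] {G : Type} [Group G] [Fintype G] (f : G → k) :
    (LieP.mk f : LieP.Al k G) = ∑ g, f g • LieP.dl g := by
  refine LieP.al_ext fun x => ?_
  rw [LieP.coeff_mk]
  have h1 : (∑ g, f g • (LieP.dl g : LieP.Al k G)).coeff x = cf x (∑ g, f g • (LieP.dl g : LieP.Al k G)) := rfl
  rw [h1, map_sum, Finset.sum_eq_single x]
  · show f x = (f x • (LieP.dl x : LieP.Al k G)).coeff x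
    rw [LieP.coeff_smul, LieP.coeff_dl, if_pos rfl, mul_one]
  · intro g _ hg
    show (f g • (LieP.dl g : LieP.Al k G)).coeff x = 0
    rw [LieP.coeff_smul, LieP.coeff_dl, if_neg (Ne.symm hg), mul_zero]
  · intro hx
    exact absurd (Finset.mem_univ x) hx

/-- the idempotents of the weights as sums of the elements `[x]` -/
theorem E0_sum [Fintype G] (a : Fin n → Bool) :
    B.E0 k a = ∑ g, (if g ∈ B.T then (Nat.card B.T : k)⁻¹ * (((B.th a g : ℤˣ) : ℤ) : k) else 0) • B.b k g := by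
  have h1 : B.E0 k a = B.e k * LieP.el k B.T (B.th a) * B.e k := (e_E0 (B := B) (k := k) a).2.symm
  rw [h1, LieP.el, mk_sum, Finset.mul_sum, Finset.sum_mul]
  refine Finset.sum_congr rfl fun g _ => ?_
  rw [mul_smul_comm, smul_mul_assoc]
  rfl

/-- the fixed vectors of `e` -/
theorem mem_range_iff {w : W} : w ∈ LinearMap.range (ev M (B.e k)) ↔ ev M (B.e k) w = w := by
  constructor
  · rintro ⟨z, rfl⟩
    have h1 : ev M (B.e k) * ev M (B.e k) = ev M (B.e k) := by rw [← map_mul, e_idem]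
    exact LinearMap.congr_fun h1 z
  · intro h
    exact ⟨w, h⟩

theorem e_b (g : G) (v : W) : ev M (B.e k) (ev M (B.b k g) v) = ev M (B.b k g) v := by
  have h1 : ev M (B.e k) * ev M (B.b k g) = ev M (B.b k g) := by rw [← map_mul, (b_e g).1]
  exact LinearMap.congr_fun h1 v

/-- Schur's lemma on the range of `e` -/
theorem schur (hM : M.IsIrreducible) {Y : Module.End Ω W} (hm : ∀ v, ev M (B.e k) v = v → ev M (B.e k) (Y v) = Y v)
    (hY : ∀ g v, ev M (B.e k) v = v → Y (ev M (B.b k g) v) = ev M (B.b k g) (Y v)) :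
    ∃ c : Ω, ∀ v, ev M (B.e k) v = v → Y v = c • v := by
  by_cases hR : ∃ v, ev M (B.e k) v = v ∧ v ≠ 0
  · obtain ⟨v₀, hv₀, hv₀'⟩ := hR
    have hst : ∀ v ∈ LinearMap.range (ev M (B.e k)), Y v ∈ LinearMap.range (ev M (B.e k)) := by
      intro v hv
      rw [mem_range_iff] at hv ⊢
      exact hm v hv
    have hnt : Nontrivial (LinearMap.range (ev M (B.e k))) := by
      refine ⟨⟨⟨v₀, mem_range_iff.2 hv₀⟩, 0, fun h => hv₀' ?_⟩⟩
      exact congrArg Subtype.val h
    obtain ⟨c, hc⟩ := Module.End.exists_eigenvalue (Y.restrict hst)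
    obtain ⟨u, hu⟩ := hc.exists_hasEigenvector
    have hu1 : Y (u : W) = c • (u : W) := by
      have h1 := hu.apply_eq_smul
      exact congrArg Subtype.val h1
    have hu2 : (u : W) ≠ 0 := by
      intro h1
      exact hu.2 (Subtype.ext h1)
    let W' : Submodule Ω W :=
      { carrier := {v | ev M (B.e k) v = v ∧ Y v = c • v}
        add_mem' := by
          rintro x y ⟨h1, h2⟩ ⟨h3, h4⟩
          exact ⟨by rw [map_add, h1, h3], by rw [map_add, h2, h4, smul_add]⟩
        zero_mem' := ⟨map_zero _, by rw [map_zero, smul_zero]⟩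
        smul_mem' := by
          rintro r x ⟨h1, h2⟩
          exact ⟨by rw [map_smul, h1], by rw [map_smul, h2, smul_comm]⟩ }
    have hW1 : W' ≤ LinearMap.range (ev M (B.e k)) := fun v hv => mem_range_iff.2 hv.1
    have hW0 : W' ≠ ⊥ := by
      intro h1
      have h2 : (u : W) ∈ W' := ⟨mem_range_iff.1 u.2, hu1⟩
      rw [h1, Submodule.mem_bot] at h2
      exact hu2 h2
    have hW2 : ∀ g, ∀ w ∈ W', ev M (B.b k g) w ∈ W' := by
      rintro g w ⟨h1, h2⟩
      exact ⟨e_b g w, by rw [hY g w h1, h2, map_smul]⟩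
    have h3 := b_irr hM hW1 hW0 hW2
    refine ⟨c, fun v hv => ?_⟩
    have h4 : v ∈ W' := by
      rw [h3]
      exact mem_range_iff.2 hv
    exact h4.2
  · refine ⟨0, fun v hv => ?_⟩
    have h1 : v = 0 := by
      by_contra h2
      exact hR ⟨v, hv, h2⟩
    rw [h1, map_zero, smul_zero]

theorem la_sq (la : G →* ℤˣ) (g : G) (w : W) :
    (((la g : ℤˣ) : ℤ) : Ω) • (((la g : ℤˣ) : ℤ) : Ω) • w = w := by
  rcases Int.units_eq_one_or (la g) with h | h <;> rw [h, smul_smul] <;> simp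

end H02_aux

theorem tw_inj (hM : M.IsIrreducible) {la : G →* ℤˣ} {Z : Module.End Ω W} (h : Tw B k M la Z)
    (h0 : ∃ v, ev M (B.e k) v = v ∧ Z v ≠ 0) {v : W} (hv : ev M (B.e k) v = v) (hz : Z v = 0) :
    v = 0 := by
  by_contra hne
  let W' : Submodule Ω W :=
    { carrier := {v | ev M (B.e k) v = v ∧ Z v = 0}
      add_mem' := by
        rintro x y ⟨h1, h2⟩ ⟨h3, h4⟩
        exact ⟨by rw [map_add, h1, h3], by rw [map_add, h2, h4, add_zero]⟩
      zero_mem' := ⟨map_zero _, map_zero _⟩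
      smul_mem' := by
        rintro r x ⟨h1, h2⟩
        exact ⟨by rw [map_smul, h1], by rw [map_smul, h2, smul_zero]⟩ }
  have hW1 : W' ≤ LinearMap.range (ev M (B.e k)) := fun w hw => H02_aux.mem_range_iff.2 hw.1
  have hW0 : W' ≠ ⊥ := by
    intro h1
    have h2 : v ∈ W' := ⟨hv, hz⟩
    rw [h1, Submodule.mem_bot] at h2
    exact hne h2
  have hW2 : ∀ g, ∀ w ∈ W', ev M (B.b k g) w ∈ W' := by
    rintro g w ⟨h1, h2⟩
    exact ⟨H02_aux.e_b g w, by rw [h.tw g w h1, h2, map_zero, smul_zero]⟩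
  have h3 := b_irr hM hW1 hW0 hW2
  obtain ⟨u, hu1, hu2⟩ := h0
  have h4 : u ∈ W' := by
    rw [h3]
    exact H02_aux.mem_range_iff.2 hu1
  exact hu2 h4.2

theorem tw_sq (hM : M.IsIrreducible) {la : G →* ℤˣ} {Z : Module.End Ω W} (h : Tw B k M la Z) :
    ∃ c : Ω, ∀ v, ev M (B.e k) v = v → Z (Z v) = c • v := by
  refine H02_aux.schur hM (Y := Z * Z) (fun v hv => h.mem _ (h.mem v hv)) (fun g v hv => ?_)
  rw [Module.End.mul_apply, Module.End.mul_apply, h.tw g v hv, map_smul, h.tw g _ (h.mem v hv), H02_aux.la_sq]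

theorem tw_prop (hM : M.IsIrreducible) {la : G →* ℤˣ} {Z Z' : Module.End Ω W}
    (h : Tw B k M la Z) (h' : Tw B k M la Z') (h0 : ∃ v, ev M (B.e k) v = v ∧ Z v ≠ 0) :
    ∃ c : Ω, ∀ v, ev M (B.e k) v = v → Z' v = c • Z v := by
  obtain ⟨c0, hc0⟩ := tw_sq hM h
  obtain ⟨c1, hc1⟩ := H02_aux.schur hM (Y := Z * Z') (fun v hv => h.mem _ (h'.mem v hv)) (fun g v hv => by
    rw [Module.End.mul_apply, Module.End.mul_apply, h'.tw g v hv, map_smul, h.tw g _ (h'.mem v hv), H02_aux.la_sq])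
  have hne : c0 ≠ 0 := by
    intro h1
    obtain ⟨u, hu1, hu2⟩ := h0
    have h2 := hc0 u hu1
    rw [h1, zero_smul] at h2
    exact hu2 (tw_inj hM h ⟨u, hu1, hu2⟩ (h.mem u hu1) h2)
  refine ⟨c1 * c0⁻¹, fun v hv => ?_⟩
  rw [← sub_eq_zero]
  refine tw_inj hM h h0 ?_ ?_
  · rw [map_sub, map_smul, h'.mem v hv, h.mem v hv]
  · have h2 : Z (Z' v) = c1 • v := hc1 v hv
    rw [map_sub, map_smul, hc0 v hv, h2, smul_smul, mul_assoc, inv_mul_cancel₀ hne, mul_one, sub_self]

theorem tw_E0 {la : G →* ℤˣ} (h2 : ∀ x ∈ B.T, la x = B.th (fun _ => true) x)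
    {Z : Module.End Ω W} (h : Tw B k M la Z) (a : Fin n → Bool) {v : W}
    (hv : ev M (B.e k) v = v) :
    Z (ev M (B.E0 k a) v) = ev M (B.E0 k (fun i => !(a i))) (Z v) := by
  have := Fintype.ofFinite G
  rw [H02_aux.E0_sum, H02_aux.E0_sum, map_sum, map_sum, LinearMap.sum_apply, LinearMap.sum_apply, map_sum]
  refine Finset.sum_congr rfl fun g _ => ?_
  rw [ev_smul, ev_smul, LinearMap.smul_apply, LinearMap.smul_apply, map_smul, h.tw g v hv, smul_smul]
  by_cases hg : g ∈ B.T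
  · rw [if_pos hg, if_pos hg, B.thn a g hg, h2 g hg]
    congr 1
    rw [map_mul, map_mul, Units.val_mul, Int.cast_mul, map_mul, map_intCast, map_intCast]
    ring
  · rw [if_neg hg, if_neg hg, map_zero, zero_mul, zero_smul]

end

end AO
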