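import Pool.Agent.AO.S02

/-!
# MP_6c3636_al, AO, module S03: the minimal sequence (helper7)

As AN/C03.lean (read its docstring). `msT_lt`: `msT β` is the number of inversions (pairs `i < j` with `Lt (β j) (β i)`; `Lt` is a strict linear order on the boxes, the lexicographic order); the exchange of the adjacent entries with `Be (β l) (β k)` (so `Lt (β l) (β k)`) removes exactly the inversion `(k, l)`. `mi_uniqueT`: in a sequence with `MiT` the types are weakly increasing, `(β k).1 ≤ (β l).1` for `l = k + 1` and (if equal) `(β k).2 ≤ (β l).2 + 1`. Induction on `n` (for `n + 1`: the last boxes agree, remove them; `Fin.init`). The last boxes agree: the type of the last box is the largest type `y` which occurs (determined by `cnT_unique`), and its content is the largest `x` such that `F (y, x + 1) = 1`, `F (y, x) = 0`, by the argument of AN/C03 inside the final segment of the boxes of type `y`. `desc_inductT`, `exists_miT`: induction on `msT`.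
-/

namespace AO

noncomputable section

open Classical Equiv

open AN (sq)

variable {n : ℕ}

/-- minimal sequences -/
def MiT (β : Fin n → Et) : Prop := ∀ k l : Fin n, (l : ℕ) = k + 1 → ¬ Be (β l) (β k)

/-- the number of inversions -/
def msT (β : Fin n → Et) : ℕ :=
  (Finset.univ.filter (fun p : Fin n × Fin n => p.1 < p.2 ∧ Lt (β p.2) (β p.1))).card

namespace S03_aux

theorem lt_asymm' {x y : Et} (h : Lt x y) (h' : Lt y x) : False := by
  unfold Lt at h h'
  rcases h with h | ⟨h, h2⟩
  · rcases h' with h3 | ⟨h3, _⟩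
    · exact absurd h3 (not_lt.2 h.le)
    · rw [h3] at h
      exact lt_irrefl _ h
  · rcases h' with h3 | ⟨_, h4⟩
    · rw [h] at h3
      exact lt_irrefl _ h3
    · omega

theorem lt_total {x y : Et} (h : ¬ Lt x y) (h' : ¬ Lt y x) : x = y := by
  unfold Lt at h h'
  push Not at h h'
  have h1 : x.1 = y.1 := le_antisymm h'.1 h.1
  have h2 := h.2 h1
  have h3 := h'.2 h1.symm
  exact Prod.ext h1 (by omega)

theorem be_lt {x y : Et} (h : Be x y) : Lt x y := by
  rcases h with h | ⟨h, h2⟩
  · exact Or.inl h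
  · exact Or.inr ⟨h, by omega⟩

theorem cnT_split (β : Fin n → Et) (m : ℕ) (z : Et) :
    cnT β n z = cnT β m z + (Finset.univ.filter (fun k : Fin n => m ≤ (k : ℕ) ∧ β k = z)).card := by
  unfold cnT
  rw [← Finset.card_union_of_disjoint]
  · congr 1
    ext k
    simp only [Finset.mem_filter, Finset.mem_univ, true_and, Finset.mem_union]
    have := k.2
    constructor
    · rintro ⟨_, h⟩
      rcases Nat.lt_or_ge (k : ℕ) m with h1 | h1
      · exact Or.inl ⟨h1, h⟩
      · exact Or.inr ⟨h1, h⟩
    · rintro (⟨_, h⟩ | ⟨_, h⟩)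
      · exact ⟨this, h⟩
      · exact ⟨this, h⟩
  · rw [Finset.disjoint_filter]
    rintro k _ ⟨h1, _⟩ ⟨h2, _⟩
    omega

theorem cnT_init (β : Fin (n + 1) → Et) {k : ℕ} (hk : k ≤ n) (z : Et) :
    cnT (fun i : Fin n => β i.castSucc) k z = cnT β k z := by
  unfold cnT
  rw [Finset.card_filter, Finset.card_filter, Fin.sum_univ_castSucc]
  have h : ¬ ((Fin.last n : ℕ) < k ∧ β (Fin.last n) = z) := by
    rintro ⟨h, _⟩
    rw [Fin.val_last] at h
    omega
  rw [if_neg h, add_zero]
  rfl

theorem occT_init (β : Fin (n + 1) → Et) {k : ℕ} (hk : k ≤ n) (z : Et) :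
    occT (fun i : Fin n => β i.castSucc) k z = occT β k z := by
  unfold occT
  rw [cnT_init β hk, cnT_init β hk]

theorem ne_up (z : Et) : ((z.1, z.2 + 1) : Et) ≠ z := by
  intro h
  have := congrArg Prod.snd h
  simp only at this
  omega

theorem ne_up' (z : Et) : z ≠ (z.1, z.2 + 1) := (ne_up z).symm

/-- the last entry -/
theorem last_topT {β : Fin (n + 1) → Et} (hβ : LgT β) :
    occT β (n + 1) ((β (Fin.last n)).1, (β (Fin.last n)).2 + 1) = 1 ∧ occT β (n + 1) (β (Fin.last n)) = 0 := by
  have h := hβ (Fin.last n)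
  have h1 := occT_succ β (Fin.last n) ((β (Fin.last n)).1, (β (Fin.last n)).2 + 1)
  have h2 := occT_succ β (Fin.last n) (β (Fin.last n))
  rw [Fin.val_last] at h h1 h2
  rw [if_pos rfl, if_neg (ne_up _)] at h1
  rw [if_pos rfl, if_neg (ne_up' _)] at h2
  omega

/-- the last entry is the largest one -/
theorem last_maxT {β : Fin (n + 1) → Et} (hβ : LgT β) (hm : MiT β) {z : Et}
    (h1 : occT β (n + 1) (z.1, z.2 + 1) = 1) (h0 : occT β (n + 1) z = 0) : ¬ Lt (β (Fin.last n)) z := by
  intro hlt
  -- z is an entry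
  have hy : ∃ j, β j = z := by
    by_contra hno
    push Not at hno
    have hc : cnT β (n + 1) z = 0 := by
      unfold cnT
      rw [Finset.card_eq_zero, Finset.filter_eq_empty_iff]
      rintro k _ ⟨_, h⟩
      exact hno k h
    unfold occT at h1 h0
    simp only at h1
    rw [show z.2 + 1 - 1 = z.2 by ring] at h1
    have hz : ((z.1, z.2) : Et) = z := rfl
    rw [hz, hc] at h1
    rw [hc] at h0
    split_ifs at h1 h0 <;> omega
  obtain ⟨j, hj, hjmax⟩ : ∃ j, β j = z ∧ ∀ k, β k = z → k ≤ j := by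
    obtain ⟨j0, hj0⟩ := hy
    have hne : (Finset.univ.filter (fun k : Fin (n + 1) => β k = z)).Nonempty := ⟨j0, by simp [hj0]⟩
    refine ⟨(Finset.univ.filter (fun k : Fin (n + 1) => β k = z)).max' hne, ?_, fun k hk =>
      Finset.le_max' (Finset.univ.filter (fun k : Fin (n + 1) => β k = z)) k (by simp [hk])⟩
    exact (Finset.mem_filter.1 (Finset.max'_mem _ hne)).2
  have hL := hβ j
  rw [hj] at hL
  have s1 := occT_succ β j (z.1, z.2 + 1)
  have s0 := occT_succ β j z
  rw [hj, if_pos rfl, if_neg (ne_up _)] at s1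
  rw [hj, if_pos rfl, if_neg (ne_up' _)] at s0
  have c0 := cnT_split β ((j : ℕ) + 1) z
  have c1 := cnT_split β ((j : ℕ) + 1) (z.1, z.2 + 1)
  have c2 := cnT_split β ((j : ℕ) + 1) (z.1, z.2 - 1)
  have e0 : (Finset.univ.filter (fun k : Fin (n + 1) => (j : ℕ) + 1 ≤ (k : ℕ) ∧ β k = z)).card = 0 := by
    rw [Finset.card_eq_zero, Finset.filter_eq_empty_iff]
    rintro k _ ⟨h, h'⟩
    have := hjmax k h'
    rw [Fin.le_def] at this
    omega
  have o1 : occT β (n + 1) (z.1, z.2 + 1) = occT β ((j : ℕ) + 1) (z.1, z.2 + 1) +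
      (Finset.univ.filter (fun k : Fin (n + 1) => (j : ℕ) + 1 ≤ (k : ℕ) ∧ β k = z)).card -
      (Finset.univ.filter (fun k : Fin (n + 1) => (j : ℕ) + 1 ≤ (k : ℕ) ∧ β k = (z.1, z.2 + 1))).card := by
    unfold occT
    simp only
    rw [show z.2 + 1 - 1 = z.2 by ring]
    have hz : ((z.1, z.2) : Et) = z := rfl
    rw [hz, c0, c1]
    push_cast
    ring
  have o0 : occT β (n + 1) z = occT β ((j : ℕ) + 1) z +
      (Finset.univ.filter (fun k : Fin (n + 1) => (j : ℕ) + 1 ≤ (k : ℕ) ∧ β k = (z.1, z.2 - 1))).card -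
      (Finset.univ.filter (fun k : Fin (n + 1) => (j : ℕ) + 1 ≤ (k : ℕ) ∧ β k = z)).card := by
    unfold occT
    rw [c0, c2]
    push_cast
    ring
  have e1 : (Finset.univ.filter (fun k : Fin (n + 1) => (j : ℕ) + 1 ≤ (k : ℕ) ∧
      β k = (z.1, z.2 + 1))).card = 0 := by
    omega
  have e2 : (Finset.univ.filter (fun k : Fin (n + 1) => (j : ℕ) + 1 ≤ (k : ℕ) ∧
      β k = (z.1, z.2 - 1))).card = 0 := by
    omega
  rw [Finset.card_eq_zero, Finset.filter_eq_empty_iff] at e0 e1 e2
  have hne : ∀ k : Fin (n + 1), (j : ℕ) + 1 ≤ (k : ℕ) → (β k).1 = z.1 →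
      (β k).2 ≠ z.2 ∧ (β k).2 ≠ z.2 + 1 ∧ (β k).2 ≠ z.2 - 1 := fun k hk ht =>
    ⟨fun h => e0 (Finset.mem_univ k) ⟨hk, Prod.ext ht h⟩, fun h => e1 (Finset.mem_univ k) ⟨hk, Prod.ext ht h⟩,
      fun h => e2 (Finset.mem_univ k) ⟨hk, Prod.ext ht h⟩⟩
  -- all later entries are large
  have hbig : ∀ (i : ℕ) (hi : i < n + 1), (j : ℕ) + 1 ≤ i → Be z (β ⟨i, hi⟩) := by
    intro i
    induction i with
    | zero =>
      intro hi hji
      omega
    | succ i ih =>
      intro hi hji
      have h2 := hm ⟨i, by omega⟩ ⟨i + 1, hi⟩ rfl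
      have h3 := hne ⟨i + 1, hi⟩ hji
      unfold Be at h2 ⊢
      push Not at h2
      rcases Nat.lt_or_ge (j : ℕ) i with h4 | h4
      · have h5 := ih (by omega) h4
        rcases h5 with h5 | ⟨h5, h6⟩
        · exact Or.inl (lt_of_lt_of_le h5 h2.1)
        · rcases eq_or_lt_of_le h2.1 with h7 | h7
          · have h8 := h2.2 h7.symm
            have h9 := h3 (by rw [← h7, h5])
            exact Or.inr ⟨h5.trans h7, by omega⟩
          · exact Or.inl (by rw [h5]; exact h7)
      · have h5 : (⟨i, by omega⟩ : Fin (n + 1)) = j := Fin.ext (by show i = (j : ℕ); omega)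
        rw [h5, hj] at h2
        rcases eq_or_lt_of_le h2.1 with h7 | h7
        · have h8 := h2.2 h7.symm
          have h9 := h3 h7.symm
          exact Or.inr ⟨h7, by omega⟩
        · exact Or.inl h7
  have hjl : (j : ℕ) < n := by
    have h2 := j.2
    rcases Nat.lt_or_ge (j : ℕ) n with h3 | h3
    · exact h3
    · exfalso
      have h4 : j = Fin.last n := Fin.ext (by rw [Fin.val_last]; omega)
      rw [← h4, hj] at hlt
      exact lt_asymm' hlt hlt
  have := hbig n (by omega) hjl
  have e3 : (⟨n, by omega⟩ : Fin (n + 1)) = Fin.last n := rfl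
  rw [e3] at this
  exact lt_asymm' hlt (be_lt this)

end S03_aux

open S03_aux

theorem msT_lt {β : Fin n → Et} {k l : Fin n} (hl : (l : ℕ) = k + 1) (h : Be (β l) (β k)) :
    msT (sq β k l) < msT β := by
  have h := be_lt h
  have hkl : k ≠ l := by
    intro e
    rw [e] at hl
    omega
  unfold msT
  have hinj : Function.Injective (fun p : Fin n × Fin n => (swap k l p.1, swap k l p.2)) := by
    rintro ⟨a, b⟩ ⟨c, d⟩ hab
    simp only [Prod.mk.injEq, EmbeddingLike.apply_eq_iff_eq] at hab
    exact Prod.ext hab.1 hab.2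
  rw [← Finset.card_image_of_injective _ hinj]
  apply Finset.card_lt_card
  rw [Finset.ssubset_iff_of_subset]
  · refine ⟨(k, l), ?_, ?_⟩
    · rw [Finset.mem_filter]
      refine ⟨Finset.mem_univ _, ?_, h⟩
      rw [Fin.lt_def]
      show (k : ℕ) < l
      omega
    · rw [Finset.mem_image]
      rintro ⟨⟨p, q⟩, hp, he⟩
      rw [Finset.mem_filter] at hp
      simp only [Prod.mk.injEq] at he
      have h1 : p = l := by
        rw [swap_apply_eq_iff.1 he.1, swap_apply_left]
      have h2 : q = k := by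
        rw [swap_apply_eq_iff.1 he.2, swap_apply_right]
      have h3 := hp.2.1
      simp only at h3
      rw [h1, h2, Fin.lt_def] at h3
      omega
  · intro x hx
    rw [Finset.mem_image] at hx
    obtain ⟨⟨p, q⟩, hp, rfl⟩ := hx
    rw [Finset.mem_filter] at hp ⊢
    obtain ⟨_, h1, h2⟩ := hp
    simp only at h1 h2
    refine ⟨Finset.mem_univ _, AN.C03_aux.swap_lt hl h1 ?_, h2⟩
    rintro ⟨rfl, rfl⟩
    rw [sqT_k, sqT_l] at h2
    exact lt_asymm' h h2

theorem mi_uniqueT {F : Et → ℤ} {β γ : Fin n → Et} (hβ : β ∈ SqT n F) (hγ : γ ∈ SqT n F)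
    (h : MiT β) (h' : MiT γ) : β = γ := by
  induction n generalizing F with
  | zero =>
    funext i
    exact i.elim0
  | succ n ih =>
    obtain ⟨ha, ha'⟩ := hβ
    obtain ⟨hb, hb'⟩ := hγ
    have ta := last_topT ha
    have tb := last_topT hb
    have hlast : β (Fin.last n) = γ (Fin.last n) := by
      apply lt_total
      · apply last_maxT ha h
        · rw [ha', ← hb']
          exact tb.1
        · rw [ha', ← hb']
          exact tb.2
      · apply last_maxT hb h'
        · rw [hb', ← ha']
          exact ta.1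
        · rw [hb', ← ha']
          exact ta.2
    have hinit : (fun i : Fin n => β i.castSucc) = (fun i : Fin n => γ i.castSucc) := by
      apply ih (F := occT β n)
      · refine ⟨fun k => ?_, ?_⟩
        · rw [occT_init β k.2.le, occT_init β k.2.le]
          exact ha k.castSucc
        · funext x
          exact occT_init β le_rfl x
      · refine ⟨fun k => ?_, ?_⟩
        · rw [occT_init γ k.2.le, occT_init γ k.2.le]
          exact hb k.castSucc
        · funext x
          rw [occT_init γ le_rfl x]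
          have e1 := occT_succ β (Fin.last n) x
          have e2 := occT_succ γ (Fin.last n) x
          rw [Fin.val_last] at e1 e2
          rw [ha'] at e1
          rw [hb', ← hlast] at e2
          omega
      · intro k l hkl
        exact h k.castSucc l.castSucc hkl
      · intro k l hkl
        exact h' k.castSucc l.castSucc hkl
    funext i
    rcases Fin.eq_castSucc_or_eq_last i with ⟨j, rfl⟩ | rfl
    · exact congrFun hinit j
    · exact hlast

theorem desc_inductT {F : Et → ℤ} {R : (Fin n → Et) → Prop} (h0 : ∀ β ∈ SqT n F, MiT β → R β)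
    (h1 : ∀ β ∈ SqT n F, ∀ k l : Fin n, (l : ℕ) = k + 1 → Be (β l) (β k) → R (sq β k l) → R β) :
    ∀ β ∈ SqT n F, R β := by
  have key : ∀ (m : ℕ) (β : Fin n → Et), msT β = m → β ∈ SqT n F → R β := by
    intro m
    induction m using Nat.strong_induction_on with
    | _ m ih =>
      intro β hm hβ
      by_cases hmi : MiT β
      · exact h0 β hβ hmi
      · unfold MiT at hmi
        push Not at hmi
        obtain ⟨k, l, hkl, hlt⟩ := hmi
        refine h1 β hβ k l hkl hlt (ih (msT (sq β k l)) ?_ _ rfl (SqT_sq hβ hkl (Or.inr hlt)))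
        rw [← hm]
        exact msT_lt hkl hlt
  exact fun β hβ => key (msT β) β rfl hβ

theorem exists_miT {F : Et → ℤ} (h : (SqT n F).Nonempty) : ∃ β ∈ SqT n F, MiT β := by
  obtain ⟨β, hβ⟩ := h
  exact desc_inductT (R := fun _ => ∃ β ∈ SqT n F, MiT β) (fun γ hγ hm => ⟨γ, hγ, hm⟩)
    (fun _ _ _ _ _ _ h => h) β hβ

end

end AO
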