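import Pool.Agent.AO.K07
import Pool.Agent.AO.S03

/-!
# MP_6c3636_al, AO, module K09: properties of a seminormal basis (helper7)

As AN/J09.lean. `SN.E`: `v β ∈ Wt D β`, so `E a' (v β) = v β` for `a' k = lb (β k).1`, and `EE`. `SN.X`: `J0`. `SN.dn`: `γ = sq β k l` satisfies `Be (γ k) (γ l)`: `v β = T (v γ) - al (γ k) (γ l) • v γ` (`up`), and `(T - al (γ l) (γ k)) (v β) = nu • v γ` by `iw_iw` (K02) with `al_eq`, `nu_eq` (K07). `SN.li`: joint eigenvectors with different systems of eigenvalues (`x_ne`; if the labels differ: the ranges of different `E a`). `SN.spT` etc.: `one`, `neg`, `up`, `dn` (by `Lg_neT`, S02, `β k ≠ β l`; one of the four cases applies).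
-/

namespace AO

noncomputable section

open Classical Equiv

open AN (sq)

variable {K : Type} [Field K] [CharZero K] {V : Type} [AddCommGroup V] [Module K V] {P : Par K} {n : ℕ}
  {D : HA P n (Module.End K V)}

theorem SN.E {F : AO.Et → ℤ} {v : (Fin n → AO.Et) → V} (h : SN D F v) {β : Fin n → AO.Et}
    (hβ : β ∈ SqT n F) (a : Fin n → Bool) :
    D.E a (v β) = if (∀ k, a k = lb (β k).1) then v β else 0 := by
  have h1 : D.E (fun k => lb (β k).1) (v β) = v β := (h.wt β hβ).1
  have h2 : D.E a (D.E (fun k => lb (β k).1) (v β)) =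
      (if a = (fun k => lb (β k).1) then D.E a else 0) (v β) := by
    rw [← Module.End.mul_apply, D.EE]
  rw [h1] at h2
  rw [h2]
  by_cases hc : ∀ k, a k = lb (β k).1
  · have hc' : a = fun k => lb (β k).1 := funext hc
    rw [if_pos hc', if_pos hc, hc']
    exact h1
  · have hc' : ¬ a = fun k => lb (β k).1 := fun h' => hc (fun k => congrFun h' k)
    rw [if_neg hc', if_neg hc]
    rfl

theorem SN.X {F : AO.Et → ℤ} {v : (Fin n → AO.Et) → V} (h : SN D F v) {β : Fin n → AO.Et}
    (hβ : β ∈ SqT n F) (k : Fin n) (hk : (k : ℕ) = 0) : D.X (v β) = P.x (β k) • v β := by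
  rw [← D.J0 k hk]
  exact (h.wt β hβ).2 k

theorem SN.dn {F : AO.Et → ℤ} {v : (Fin n → AO.Et) → V} (h : SN D F v) {β : Fin n → AO.Et}
    (hβ : β ∈ SqT n F) {k l : Fin n} (hl : (l : ℕ) = k + 1) (hd : Be (β l) (β k)) :
    D.T k (v β) = ((P.al (β k) (β l) : ℚ) : K) • v β + ((P.nu (β l) (β k) : ℚ) : K) • v (sq β k l) := by
  have hγ : sq β k l ∈ SqT n F := SqT_sq hβ hl (Or.inr hd)
  have hne : β k ≠ β l := LgT_ne hβ.1 hl
  have h1 := h.up (sq β k l) hγ k l hl (by rw [sqT_k, sqT_l]; exact hd)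
  rw [sqT_k, sqT_l, sqT_sq] at h1
  have hk : (sq β k l) k = β l := sqT_k β k l
  have hll : (sq β k l) l = β k := sqT_l β k l
  have h2 := iw_iw (D := D) (h.wt (sq β k l) hγ) hl (fun hab => x_ne hab (by
    rw [hk, hll]
    exact hne.symm))
  simp only [hk, hll] at h2
  rw [← al_eq hne.symm, ← al_eq hne, ← nu_eq hne.symm] at h2
  have h3 : D.T k (v (sq β k l)) - ((P.al (β l) (β k) : ℚ) : K) • v (sq β k l) = v β := by
    rw [h1, add_sub_cancel_left]
  rw [h3] at h2
  rw [← h2]
  abel

namespace K09_aux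

theorem li_aux {B ι : Type} (op : ι → Module.End K V) (c : B → ι → K) {v : B → V} (s : Finset B) :
    (∀ β ∈ s, ∀ i, op i (v β) = c β i • v β) → (∀ β ∈ s, v β ≠ 0) →
    (∀ β ∈ s, ∀ γ ∈ s, β ≠ γ → ∃ i, c β i ≠ c γ i) →
    ∀ g : B → K, ∑ β ∈ s, g β • v β = 0 → ∀ β ∈ s, g β = 0 := by
  induction s using Finset.induction_on with
  | empty =>
    intro _ _ _ g _ α hα
    exact absurd hα (Finset.notMem_empty α)
  | insert a s ha ih =>
    intro hw hz hd g hg
    have ih' := ih (fun α hα => hw α (Finset.mem_insert_of_mem hα))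
      (fun α hα => hz α (Finset.mem_insert_of_mem hα))
      (fun α hα β hβ => hd α (Finset.mem_insert_of_mem hα) β (Finset.mem_insert_of_mem hβ))
    rw [Finset.sum_insert ha] at hg
    have hs : ∀ β ∈ s, g β = 0 := by
      intro β hβ
      have hne : β ≠ a := fun h => ha (h ▸ hβ)
      obtain ⟨i, hi⟩ := hd β (Finset.mem_insert_of_mem hβ) a (Finset.mem_insert_self a s) hne
      have h1 : ∑ α ∈ s, (g α * (c α i - c a i)) • v α = 0 := by
        have h2 : op i (g a • v a + ∑ α ∈ s, g α • v α) = 0 := by rw [hg, map_zero]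
        rw [map_add, map_smul, map_sum, hw a (Finset.mem_insert_self a s) i] at h2
        have h3 : ∑ α ∈ s, op i (g α • v α) = ∑ α ∈ s, (g α * c α i) • v α := by
          refine Finset.sum_congr rfl fun α hα => ?_
          rw [map_smul, hw α (Finset.mem_insert_of_mem hα) i, smul_smul]
        rw [h3] at h2
        have h4 : c a i • (g a • v a + ∑ α ∈ s, g α • v α) = 0 := by rw [hg, smul_zero]
        rw [smul_add, Finset.smul_sum] at h4
        have h5 : ∑ α ∈ s, (g α * (c α i - c a i)) • v α =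
            ∑ α ∈ s, (g α * c α i) • v α - ∑ α ∈ s, c a i • g α • v α := by
          rw [← Finset.sum_sub_distrib]
          refine Finset.sum_congr rfl fun α _ => ?_
          rw [mul_sub, sub_smul, smul_smul, mul_comm (c a i) (g α)]
        rw [h5, eq_neg_of_add_eq_zero_right h2, eq_neg_of_add_eq_zero_right h4, smul_smul,
          smul_smul, mul_comm (c a i) (g a), sub_self]
      have h6 := ih' (fun α => g α * (c α i - c a i)) h1 β hβ
      rcases mul_eq_zero.1 h6 with h7 | h7
      · exact h7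
      · exact absurd (sub_eq_zero.1 h7) hi
    intro α hα
    rcases Finset.mem_insert.1 hα with h | h
    · rw [h]
      rw [Finset.sum_eq_zero (fun β hβ => by rw [hs β hβ, zero_smul]), add_zero] at hg
      rcases smul_eq_zero.1 hg with h8 | h8
      · exact h8
      · exact absurd h8 (hz a (Finset.mem_insert_self a s))
    · exact hs α h

/-- the operators -/
def opr (D : HA P n (Module.End K V)) : (Fin n → Bool) ⊕ Fin n → Module.End K V :=
  Sum.elim D.E D.J

/-- the eigenvalues -/
def egv (P : Par K) (β : Fin n → AO.Et) : (Fin n → Bool) ⊕ Fin n → K :=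
  Sum.elim (fun a => if (∀ k, a k = lb (β k).1) then 1 else 0) (fun k => P.x (β k))

theorem egv_ne {β γ : Fin n → AO.Et} (h : β ≠ γ) : ∃ i, egv P β i ≠ egv P γ i := by
  by_cases hlab : ∀ k, lb (β k).1 = lb (γ k).1
  · obtain ⟨k, hk⟩ : ∃ k, β k ≠ γ k := by
      by_contra hcon
      push Not at hcon
      exact h (funext hcon)
    exact ⟨Sum.inr k, x_ne (hlab k) hk⟩
  · refine ⟨Sum.inl (fun k => lb (β k).1), ?_⟩
    have e1 : egv P β (Sum.inl (fun k => lb (β k).1)) = 1 := if_pos (fun _ => rfl)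
    have e2 : egv P γ (Sum.inl (fun k => lb (β k).1)) = 0 := if_neg hlab
    rw [e1, e2]
    exact one_ne_zero

end K09_aux

theorem SN.li {F : AO.Et → ℤ} {v : (Fin n → AO.Et) → V} (h : SN D F v) :
    LinearIndependent K (fun β : {β // β ∈ SFT n F} => v β) := by
  rw [Fintype.linearIndependent_iff]
  intro g hg α
  have h1 := K09_aux.li_aux (K09_aux.opr D) (K09_aux.egv P) (v := v) (SFT n F)
    (fun β hβ i => by
      have hβ' := mem_SFT.1 hβ
      cases i with
      | inl a =>
        show D.E a (v β) = (if (∀ k, a k = lb (β k).1) then (1 : K) else 0) • v β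
        rw [h.E hβ']
        split_ifs
        · rw [one_smul]
        · rw [zero_smul]
      | inr k => exact (h.wt β hβ').2 k)
    (fun α hα => h.nz α (mem_SFT.1 hα))
    (fun β _ γ _ hne => K09_aux.egv_ne hne)
    (fun α => if hα : α ∈ SFT n F then g ⟨α, hα⟩ else 0) (by
      rw [← hg, ← Finset.sum_coe_sort]
      refine Finset.sum_congr rfl fun β _ => ?_
      rw [dif_pos β.2])
    α.1 α.2
  rw [dif_pos α.2] at h1
  exact h1

theorem SN.spT {F : AO.Et → ℤ} {v : (Fin n → AO.Et) → V} (h : SN D F v) {k l : Fin n}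
    (hl : (l : ℕ) = k + 1) {x : V}
    (hx : x ∈ Submodule.span K (Set.range (fun β : {β // β ∈ SFT n F} => v β))) :
    D.T k x ∈ Submodule.span K (Set.range (fun β : {β // β ∈ SFT n F} => v β)) := by
  set S := Submodule.span K (Set.range (fun β : {β // β ∈ SFT n F} => v β)) with hS
  have hv : ∀ α ∈ SqT n F, v α ∈ S := fun α hα =>
    Submodule.subset_span ⟨⟨α, mem_SFT.2 hα⟩, rfl⟩
  induction hx using Submodule.span_induction with
  | mem x hx =>
    obtain ⟨⟨β, hβ'⟩, rfl⟩ := hx
    have hβ : β ∈ SqT n F := mem_SFT.1 hβ'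
    simp only
    rcases LgT_cases hβ.1 hl with ⟨h1, h2⟩ | ⟨h1, h2⟩ | h1 | h1
    · rw [h.one β hβ k l hl h1 h2]
      exact hv β hβ
    · rw [h.neg β hβ k l hl h1 h2]
      exact S.neg_mem (S.smul_mem _ (hv β hβ))
    · rw [h.up β hβ k l hl h1]
      exact S.add_mem (S.smul_mem _ (hv β hβ)) (hv _ (SqT_sq hβ hl (Or.inl h1)))
    · rw [h.dn hβ hl h1]
      exact S.add_mem (S.smul_mem _ (hv β hβ)) (S.smul_mem _ (hv _ (SqT_sq hβ hl (Or.inr h1))))
  | zero => rw [map_zero]; exact S.zero_mem
  | add x y _ _ hx hy => rw [map_add]; exact S.add_mem hx hy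
  | smul c x _ hx => rw [map_smul]; exact S.smul_mem c hx

theorem SN.spX {F : AO.Et → ℤ} {v : (Fin n → AO.Et) → V} (h : SN D F v) (hn : 0 < n) {x : V}
    (hx : x ∈ Submodule.span K (Set.range (fun β : {β // β ∈ SFT n F} => v β))) :
    D.X x ∈ Submodule.span K (Set.range (fun β : {β // β ∈ SFT n F} => v β)) := by
  set S := Submodule.span K (Set.range (fun β : {β // β ∈ SFT n F} => v β)) with hS
  induction hx using Submodule.span_induction with
  | mem x hx =>
    obtain ⟨⟨β, hβ'⟩, rfl⟩ := hx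
    simp only
    rw [h.X (mem_SFT.1 hβ') ⟨0, hn⟩ rfl]
    exact S.smul_mem _ (Submodule.subset_span ⟨⟨β, hβ'⟩, rfl⟩)
  | zero => rw [map_zero]; exact S.zero_mem
  | add x y _ _ hx hy => rw [map_add]; exact S.add_mem hx hy
  | smul c x _ hx => rw [map_smul]; exact S.smul_mem c hx

theorem SN.spE {F : AO.Et → ℤ} {v : (Fin n → AO.Et) → V} (h : SN D F v) (a : Fin n → Bool) {x : V}
    (hx : x ∈ Submodule.span K (Set.range (fun β : {β // β ∈ SFT n F} => v β))) :
    D.E a x ∈ Submodule.span K (Set.range (fun β : {β // β ∈ SFT n F} => v β)) := by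
  set S := Submodule.span K (Set.range (fun β : {β // β ∈ SFT n F} => v β)) with hS
  induction hx using Submodule.span_induction with
  | mem x hx =>
    obtain ⟨⟨β, hβ'⟩, rfl⟩ := hx
    simp only
    rw [h.E (mem_SFT.1 hβ') a]
    split_ifs
    · exact Submodule.subset_span ⟨⟨β, hβ'⟩, rfl⟩
    · exact S.zero_mem
  | zero => rw [map_zero]; exact S.zero_mem
  | add x y _ _ hx hy => rw [map_add]; exact S.add_mem hx hy
  | smul c x _ hx => rw [map_smul]; exact S.smul_mem c hx

end

end AO
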