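import Pool.Agent.AO.H02
import Pool.Agent.AO.K09

/-!
# MP_6c3636_al, AO, module H03: twisted intertwiners and the seminormal basis (helper7)

`B.gd = true` (otherwise `H = ⊤` by `ze2`, `la = 1` on `G`, contradiction to `exists_neg`), so all labels are good and `(D.on M).E a = ev M (B.E0 k a)`. Let `v = e v`. `Z E a v = E (not a) Z v` (`tw_E0`). `Z X v = la (s 0) X Z v`. `Z (T i) (E a v) = la (s l) * sgl a * sgl (not a) • (T i) (E (not a) (Z v))`, `l = i + 1`, and this sign does not change if `a` is replaced by `sq a i l`. So by induction on `i`: `Z J i v = la (s 0) • J i Z v` (`J l = Q T i J i T i`: the sign of `T i` occurs twice). So `Z (v β)` is in `WtR` for the labels `not a` and the eigenvalues `la (s 0) * P.x (β i) = P.x (dlS β i)` (`hr`; `P.x (y, c) = P.r y * Q ^ c`), `lb (dl2 y) = ! lb y`, so `Z (v β) ∈ Wt (dlS β)`; nonzero by `tw_inj`. It is a combination of the `v γ`, `γ ∈ SqT n F`, which are joint eigenvectors with different systems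 of eigenvalues (K09 `SN.li` and its proof), so it is a multiple of one of them, and this `γ` is `dlS β` (`x_ne`, K07: a box is determined by its label and eigenvalue).
-/

namespace AO

noncomputable section

open Classical Equiv

open AN (sq)

namespace H03_aux

section General

variable {K : Type} [Field K] [CharZero K] {V : Type} [AddCommGroup V] [Module K V] {P : Par K} {n : ℕ}
  {D : HA P n (Module.End K V)}

/-- a joint eigenvector in the span of a seminormal basis -/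
theorem joint {F : AO.Et → ℤ} {v : (Fin n → AO.Et) → V} (h : SN D F v) {w : V}
    (hw : w ∈ Submodule.span K (Set.range (fun β : {β // β ∈ SFT n F} => v β))) (h0 : w ≠ 0)
    {γ₀ : Fin n → AO.Et} (hγ : w ∈ Wt D γ₀) : γ₀ ∈ SqT n F ∧ ∃ c : K, c ≠ 0 ∧ w = c • v γ₀ := by
  obtain ⟨c, hc⟩ := (Submodule.mem_span_range_iff_exists_fun K).1 hw
  have hli := Fintype.linearIndependent_iff.1 h.li
  obtain ⟨hE, hJ⟩ := hγ
  have h1 : ∀ γ : {β // β ∈ SFT n F}, ∀ i, c γ * (P.x ((γ : Fin n → AO.Et) i) - P.x (γ₀ i)) = 0 := by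
    intro γ i
    refine hli (fun γ => c γ * (P.x ((γ : Fin n → AO.Et) i) - P.x (γ₀ i))) ?_ γ
    have h2 := hJ i
    rw [← hc, map_sum, Finset.smul_sum, ← sub_eq_zero, ← Finset.sum_sub_distrib] at h2
    rw [← h2]
    refine Finset.sum_congr rfl fun γ _ => ?_
    have h3 : D.J i (v γ) = P.x ((γ : Fin n → AO.Et) i) • v γ := (h.wt γ (mem_SFT.1 γ.2)).2 i
    rw [map_smul, h3, smul_smul, smul_smul, ← sub_smul]
    congr 1
    ring
  have h2 : ∀ γ : {β // β ∈ SFT n F}, c γ ≠ 0 → ∀ i, lb (γ₀ i).1 = lb ((γ : Fin n → AO.Et) i).1 := by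
    intro γ hγ0
    by_contra hne
    apply hγ0
    have h3 := hli (fun γ : {β // β ∈ SFT n F} =>
      (if (∀ i, lb (γ₀ i).1 = lb ((γ : Fin n → AO.Et) i).1) then c γ else 0) - c γ) (by
        have h4 := hE
        rw [← hc, map_sum, ← sub_eq_zero, ← Finset.sum_sub_distrib] at h4
        rw [← h4]
        refine Finset.sum_congr rfl fun γ _ => ?_
        rw [map_smul, h.E (mem_SFT.1 γ.2), sub_smul]
        split_ifs
        · rfl
        · rw [zero_smul, smul_zero]) γ
    rw [if_neg hne, zero_sub, neg_eq_zero] at h3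
    exact h3
  have h3 : ∀ γ : {β // β ∈ SFT n F}, c γ ≠ 0 → (γ : Fin n → AO.Et) = γ₀ := by
    intro γ hγ0
    funext i
    by_contra hne
    have h4 := h1 γ i
    rcases mul_eq_zero.1 h4 with h5 | h5
    · exact hγ0 h5
    · exact x_ne (P := P) (h2 γ hγ0 i).symm hne (sub_eq_zero.1 h5)
  obtain ⟨γ, hγ0⟩ : ∃ γ, c γ ≠ 0 := by
    by_contra hcon
    push Not at hcon
    apply h0
    rw [← hc]
    exact Finset.sum_eq_zero fun γ _ => by rw [hcon γ, zero_smul]
  have h4 := h3 γ hγ0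
  refine ⟨?_, c γ, hγ0, ?_⟩
  · rw [← h4]
    exact mem_SFT.1 γ.2
  · rw [← hc, Finset.sum_eq_single γ]
    · rw [h4]
    · intro γ' _ hne
      by_cases h5 : c γ' = 0
      · rw [h5, zero_smul]
      · exact absurd (Subtype.ext ((h3 γ' h5).trans h4.symm)) hne
    · intro h5
      exact absurd (Finset.mem_univ _) h5

end General

section Sg

variable {k : Type} [Field k] {Ω : Type} [Field Ω] [Algebra k Ω] {G : Type} [Group G] {n : ℕ} {B : BN G n}

theorem map_r (P : Par k) (y : Ty) : (P.map (algebraMap k Ω)).r y = algebraMap k Ω (P.r y) := by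
  show algebraMap k Ω (P.w (lb y)) * ((sg y : ℤ) : Ω) * (P.q : Ω) ^ (P.j y) =
    algebraMap k Ω (P.w (lb y) * ((sg y : ℤ) : k) * (P.q : k) ^ (P.j y))
  rw [map_mul, map_mul, map_intCast, map_zpow₀, map_natCast]

theorem x_dl (P : Par k) {c : k} (hc : ∀ y : Ty, P.r (dl2 y) = c * P.r y) (z : AO.Et) :
    (P.map (algebraMap k Ω)).x (dl2 z.1, z.2) =
      algebraMap k Ω c * (P.map (algebraMap k Ω)).x z := by
  show (P.map (algebraMap k Ω)).r (dl2 z.1) * (P.map (algebraMap k Ω)).Q ^ z.2 =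
    algebraMap k Ω c * ((P.map (algebraMap k Ω)).r z.1 * (P.map (algebraMap k Ω)).Q ^ z.2)
  rw [map_r, map_r, hc, map_mul, mul_assoc]

theorem unit_mul (e : ℤˣ) : (((e : ℤˣ) : ℤ) : Ω) * (((e : ℤˣ) : ℤ) : Ω) = 1 := by
  rcases Int.units_eq_one_or e with h | h
  · rw [h]
    simp
  · rw [h]
    simp

theorem sgl_sq (i j : Fin n) (a : Fin n → Bool) : B.sgl k i j (sq a i j) = B.sgl k i j a := by
  have h1 : sq a i j i = a j := by
    show a (swap i j i) = a j
    rw [swap_apply_left]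
  have h2 : sq a i j j = a i := by
    show a (swap i j j) = a i
    rw [swap_apply_right]
  rw [BN.sgl, BN.sgl, h1, h2]
  by_cases h3 : a i = true ∧ a j = true
  · rw [if_pos h3, if_pos ⟨h3.2, h3.1⟩]
  · rw [if_neg h3, if_neg (fun h => h3 ⟨h.2, h.1⟩)]

theorem sgl_mul (i j : Fin n) (a : Fin n → Bool) : B.sgl k i j a * B.sgl k i j a = 1 := by
  rw [BN.sgl]
  split_ifs
  · exact unit_mul (Ω := k) _
  · exact one_mul 1

/-- the sign -/
def tau (B : BN G n) (k : Type) [Field k] (Ω : Type) [Field Ω] [Algebra k Ω] (la : G →* ℤˣ) (i j : Fin n)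
    (a : Fin n → Bool) : Ω :=
  algebraMap k Ω (B.sgl k i j a) * (((la (B.s j) : ℤˣ) : ℤ) : Ω) *
    algebraMap k Ω (B.sgl k i j (fun l => !(a l)))

theorem tau_sq (la : G →* ℤˣ) (i j : Fin n) (a : Fin n → Bool) :
    tau B k Ω la i j (sq a i j) = tau B k Ω la i j a := by
  have h1 : (fun l => !(sq a i j l)) = sq (fun l => !(a l)) i j := rfl
  rw [tau, tau, h1, sgl_sq, sgl_sq]

theorem tau_mul (la : G →* ℤˣ) (i j : Fin n) (a : Fin n → Bool) :
    tau B k Ω la i j a * tau B k Ω la i j a = 1 := by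
  have h1 : algebraMap k Ω (B.sgl k i j a) * algebraMap k Ω (B.sgl k i j a) = 1 := by
    rw [← map_mul, sgl_mul, map_one]
  have h2 : algebraMap k Ω (B.sgl k i j (fun l => !(a l))) *
      algebraMap k Ω (B.sgl k i j (fun l => !(a l))) = 1 := by
    rw [← map_mul, sgl_mul, map_one]
  have h3 := unit_mul (Ω := Ω) (la (B.s j))
  rw [tau]
  calc _ = (algebraMap k Ω (B.sgl k i j a) * algebraMap k Ω (B.sgl k i j a)) *
        ((((la (B.s j) : ℤˣ) : ℤ) : Ω) * (((la (B.s j) : ℤˣ) : ℤ) : Ω)) *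
        (algebraMap k Ω (B.sgl k i j (fun l => !(a l))) *
          algebraMap k Ω (B.sgl k i j (fun l => !(a l)))) := by ring
    _ = 1 := by rw [h1, h2, h3, one_mul, one_mul]

end Sg

section Tw

variable {k : Type} [Field k] {Ω : Type} [Field Ω] [Algebra k Ω] {G : Type} [Group G] [Finite G] {n : ℕ}
  {B : BN G n} {P : Par k} {D : HA P n (MonoidAlgebra k G)} {W : Type} [AddCommGroup W] [Module Ω W]
  {M : Representation Ω G W}

theorem Eg_eq (hg : B.gd = true) (a : Fin n → Bool) : B.Eg k a = B.E0 k a :=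
  if_pos (show B.good a from Or.inl hg)

theorem onE (hD : Dg B P D) (hg : B.gd = true) (a : Fin n → Bool) :
    (D.on M).E a = ev M (B.E0 k a) := by
  show ev M (D.E a) = _
  rw [hD.E, Eg_eq hg]

theorem E0_app [CharZero k] {a : Fin n → Bool} {u : W} (hu : ev M (B.E0 k a) u = u) (c : Fin n → Bool) :
    ev M (B.E0 k c) u = if c = a then u else 0 := by
  have h1 : ev M (B.E0 k c) u = ev M (B.E0 k c * B.E0 k a) u := by
    rw [map_mul, Module.End.mul_apply, hu]
  rw [h1, E0_mul]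
  split_ifs with h
  · rw [h, hu]
  · rw [map_zero]
    rfl

theorem e_app [CharZero k] {a : Fin n → Bool} {u : W} (hu : ev M (B.E0 k a) u = u) : ev M (B.e k) u = u := by
  have h1 : ev M (B.e k) u = ev M (B.e k * B.E0 k a) u := by
    rw [map_mul, Module.End.mul_apply, hu]
  rw [h1, (e_E0 a).1, hu]

theorem T_app [CharZero k] (hD : Dg B P D) (hg : B.gd = true) {i j : Fin n} (hj : (j : ℕ) = i + 1)
    {a : Fin n → Bool} {u : W} (hu : ev M (B.E0 k a) u = u) :
    (D.on M).T i u = algebraMap k Ω (B.sgl k i j a) • ev M (B.b k (B.s j)) u := by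
  show ev M (D.T i) u = _
  rw [hD.T i j hj, BN.Tg, map_sum, LinearMap.sum_apply, Finset.sum_eq_single a]
  · rw [ev_smul, LinearMap.smul_apply, map_mul, Module.End.mul_apply, Eg_eq hg, hu]
  · intro c _ hc
    rw [ev_smul, LinearMap.smul_apply, map_mul, Module.End.mul_apply, Eg_eq hg,
      E0_app hu, if_neg hc, map_zero, smul_zero]
  · intro h
    exact absurd (Finset.mem_univ _) h

theorem X_app [CharZero k] (hD : Dg B P D) (hg : B.gd = true) {i : Fin n} (hi : (i : ℕ) = 0)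
    {a : Fin n → Bool} {u : W} (hu : ev M (B.E0 k a) u = u) :
    (D.on M).X u = ev M (B.b k (B.s i)) u := by
  have h1 : ∀ c, (∑ l : Fin n, if (l : ℕ) = 0 then B.b k (B.s l) * B.Eg k c else 0) =
      B.b k (B.s i) * B.E0 k c := by
    intro c
    rw [Finset.sum_eq_single i]
    · rw [if_pos hi, Eg_eq hg]
    · intro l _ hl
      rw [if_neg (fun h => hl (Fin.ext (h.trans hi.symm)))]
    · intro h
      exact absurd (Finset.mem_univ _) h
  show ev M D.X u = _
  rw [hD.X, BN.Xg, map_sum, LinearMap.sum_apply, Finset.sum_eq_single a]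
  · rw [h1, map_mul, Module.End.mul_apply, hu]
  · intro c _ hc
    rw [h1, map_mul, Module.End.mul_apply, E0_app hu, if_neg hc, map_zero]
  · intro h
    exact absurd (Finset.mem_univ _) h

end Tw

end H03_aux

open H03_aux

variable {k : Type} [Field k] [CharZero k] [Algebra k ℝ] {Ω : Type} [Field Ω] [IsAlgClosed Ω] [CharZero Ω]
  [Algebra k Ω] {G : Type} [Group G] [Finite G] {n : ℕ} {B : BN G n} {P : Par k}
  {D : HA P n (MonoidAlgebra k G)} {W : Type} [AddCommGroup W] [Module Ω W] [FiniteDimensional Ω W]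
  {M : Representation Ω G W}

/-- the labels of all boxes are exchanged -/
def dlS (β : Fin n → AO.Et) : Fin n → AO.Et := fun i => (dl2 (β i).1, (β i).2)

namespace H03_aux

theorem lb_dl2 (y : Ty) : lb (dl2 y) = !(lb y) := by
  revert y
  decide

theorem dl2_dl2 (y : Ty) : dl2 (dl2 y) = y := by
  revert y
  decide

theorem dl2_ne (y : Ty) : dl2 y ≠ y := by
  revert y
  decide

theorem gd_true (hn : 0 < n) {la : G →* ℤˣ} (h1 : ∀ h ∈ B.H, la h = 1)
    (h2 : ∀ x ∈ B.T, la x = B.th (fun _ => true) x) : B.gd = true := by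
  by_contra hg
  have hg' : B.gd = false := by
    rcases Bool.eq_false_or_eq_true B.gd with h | h
    · exact absurd h hg
    · exact h
  obtain ⟨-, -, hH⟩ := B.ze2 hg'
  obtain ⟨x, -, hx⟩ := exists_neg hn h2
  rw [h1 x (by rw [hH]; trivial)] at hx
  exact absurd hx (by decide)

theorem tw_T (hD : Dg B P D) (hg : B.gd = true) {la : G →* ℤˣ}
    (h2 : ∀ x ∈ B.T, la x = B.th (fun _ => true) x)
    {Z : Module.End Ω W} (h : Tw B k M la Z) {i j : Fin n} (hj : (j : ℕ) = i + 1) {a : Fin n → Bool} {u : W}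
    (hu : ev M (B.E0 k a) u = u) :
    Z ((D.on M).T i u) = tau B k Ω la i j a • (D.on M).T i (Z u) := by
  have he := e_app hu
  have hZ : ev M (B.E0 k (fun i => !(a i))) (Z u) = Z u := by
    rw [← tw_E0 h2 h a he, hu]
  rw [T_app hD hg hj hu, T_app hD hg hj hZ, map_smul, h.tw _ _ he, smul_smul, smul_smul, tau]
  congr 1
  have h1 : algebraMap k Ω (B.sgl k i j (fun l => !(a l))) *
      algebraMap k Ω (B.sgl k i j (fun l => !(a l))) = 1 := by
    rw [← map_mul, sgl_mul, map_one]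
  rw [mul_assoc _ (algebraMap k Ω (B.sgl k i j (fun l => !(a l)))), h1, mul_one]

theorem tw_X (hD : Dg B P D) (hg : B.gd = true) {la : G →* ℤˣ}
    (h2 : ∀ x ∈ B.T, la x = B.th (fun _ => true) x)
    {Z : Module.End Ω W} (h : Tw B k M la Z) {i : Fin n} (hi : (i : ℕ) = 0) {a : Fin n → Bool} {u : W}
    (hu : ev M (B.E0 k a) u = u) :
    Z ((D.on M).X u) = (((la (B.s i) : ℤˣ) : ℤ) : Ω) • (D.on M).X (Z u) := by
  have he := e_app hu
  have hZ : ev M (B.E0 k (fun i => !(a i))) (Z u) = Z u := by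
    rw [← tw_E0 h2 h a he, hu]
  rw [X_app hD hg hi hu, X_app hD hg hi hZ, h.tw _ _ he]

theorem tw_J (hD : Dg B P D) (hg : B.gd = true) (hn : 0 < n) {la : G →* ℤˣ}
    (h2 : ∀ x ∈ B.T, la x = B.th (fun _ => true) x)
    {Z : Module.End Ω W} (h : Tw B k M la Z) :
    (∀ (i : Fin n) (a : Fin n → Bool) (u : W), ev M (B.E0 k a) u = u →
      ev M (B.E0 k a) ((D.on M).J i u) = (D.on M).J i u) ∧
    ∀ (i : Fin n) (a : Fin n → Bool) (u : W), ev M (B.E0 k a) u = u →
      Z ((D.on M).J i u) = (((la (B.s ⟨0, hn⟩) : ℤˣ) : ℤ) : Ω) • (D.on M).J i (Z u) := by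
  have hJE : ∀ (i : Fin n) (a : Fin n → Bool) (u : W), ev M (B.E0 k a) u = u →
      ev M (B.E0 k a) ((D.on M).J i u) = (D.on M).J i u := by
    intro i a u hu
    have h3 := congrArg (fun f : Module.End Ω W => f u) (HA.JE (D.on M) i a)
    simp only [Module.End.mul_apply] at h3
    rw [onE hD hg, hu] at h3
    exact h3.symm
  have hTE : ∀ (i j : Fin n), (j : ℕ) = i + 1 → ∀ (a : Fin n → Bool) (u : W), ev M (B.E0 k a) u = u →
      ev M (B.E0 k (sq a i j)) ((D.on M).T i u) = (D.on M).T i u := by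
    intro i j hj a u hu
    have h3 := congrArg (fun f : Module.End Ω W => f u) ((D.on M).TE i j hj a)
    simp only [Module.End.mul_apply] at h3
    rw [onE hD hg, onE hD hg, hu] at h3
    exact h3.symm
  refine ⟨hJE, ?_⟩
  have hm : ∀ m : ℕ, ∀ hm : m < n, ∀ (a : Fin n → Bool) (u : W), ev M (B.E0 k a) u = u →
      Z ((D.on M).J ⟨m, hm⟩ u) = (((la (B.s ⟨0, hn⟩) : ℤˣ) : ℤ) : Ω) • (D.on M).J ⟨m, hm⟩ (Z u) := by
    intro m
    induction m with
    | zero =>
      intro hm a u hu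
      rw [HA.J0 (D.on M) ⟨0, hm⟩ rfl]
      exact tw_X hD hg h2 h rfl hu
    | succ m ih =>
      intro hm a u hu
      have hm' : m < n := by omega
      have hj : (((⟨m + 1, hm⟩ : Fin n)) : ℕ) = ((⟨m, hm'⟩ : Fin n) : ℕ) + 1 := rfl
      have hsqsq : sq (sq a ⟨m, hm'⟩ ⟨m + 1, hm⟩) ⟨m, hm'⟩ ⟨m + 1, hm⟩ = a := by
        funext l
        show a (swap _ _ (swap _ _ l)) = a l
        rw [swap_apply_self]
      have hu1 := hTE _ _ hj a u hu
      have hu2 := hJE ⟨m, hm'⟩ _ _ hu1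
      rw [HA.Js (D.on M) hj]
      simp only [LinearMap.smul_apply, Module.End.mul_apply]
      rw [map_smul, tw_T hD hg h2 h hj hu2, ih hm' _ _ hu1, tw_T hD hg h2 h hj hu, tau_sq]
      simp only [map_smul, smul_smul]
      congr 1
      calc _ = (P.map (algebraMap k Ω)).Q * (((la (B.s ⟨0, hn⟩) : ℤˣ) : ℤ) : Ω) *
            (tau B k Ω la ⟨m, hm'⟩ ⟨m + 1, hm⟩ a * tau B k Ω la ⟨m, hm'⟩ ⟨m + 1, hm⟩ a) := by ring
        _ = _ := by rw [tau_mul]; ring
  intro i a u hu
  exact hm i.1 i.2 a u hu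

end H03_aux

open H03_aux

theorem tw_sn (hM : M.IsIrreducible) (hP : Fit B P) (hD : Dg B P D) (hn : 0 < n)
    {la : G →* ℤˣ} (h1 : ∀ h ∈ B.H, la h = 1) (h2 : ∀ x ∈ B.T, la x = B.th (fun _ => true) x)
    (hr : ∀ (y : Ty) (i : Fin n), (i : ℕ) = 0 → P.r (dl2 y) = (((la (B.s i) : ℤˣ) : ℤ) : k) * P.r y)
    {F : AO.Et → ℤ} {v : (Fin n → AO.Et) → W} (hv : SN (D.on M) F v)
    (hs : Submodule.span Ω (Set.range (fun β : {β // β ∈ SFT n F} => v β)) =
      LinearMap.range (ev M (B.e k)))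
    {Z : Module.End Ω W} (h : Tw B k M la Z) (h0 : ∃ v, ev M (B.e k) v = v ∧ Z v ≠ 0) :
    ∃ κ : (Fin n → AO.Et) → Ω, ∀ β ∈ SqT n F, dlS β ∈ SqT n F ∧ κ β ≠ 0 ∧
      Z (v β) = κ β • v (dlS β) := by
  have hg : B.gd = true := gd_true hn h1 h2
  have key : ∀ β ∈ SqT n F, dlS β ∈ SqT n F ∧ ∃ c : Ω, c ≠ 0 ∧ Z (v β) = c • v (dlS β) := by
    intro β hβ
    have hE : ev M (B.E0 k (fun i => lb (β i).1)) (v β) = v β := by
      rw [← onE hD hg]
      exact (hv.wt β hβ).1
    have he := e_app hE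
    refine joint hv ?_ ?_ ?_
    · rw [hs]
      exact ⟨Z (v β), h.mem _ he⟩
    · intro h3
      exact hv.nz β hβ (tw_inj hM h h0 he h3)
    · obtain ⟨h3, h4⟩ := tw_J hD hg hn h2 h
      have hZ : ev M (B.E0 k (fun i => !(lb (β i).1))) (Z (v β)) = Z (v β) := by
        rw [← tw_E0 h2 h (fun i => lb (β i).1) he, hE]
      refine ⟨?_, fun i => ?_⟩
      · rw [onE hD hg]
        have h5 : (fun i => lb ((dlS β) i).1) = fun i => !(lb (β i).1) := by
          funext i
          exact lb_dl2 _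
        rw [h5]
        exact hZ
      · have h5 := h4 i (fun i => lb (β i).1) (v β) hE
        have h6 : (D.on M).J i (v β) = (P.map (algebraMap k Ω)).x (β i) • v β := (hv.wt β hβ).2 i
        rw [h6, map_smul] at h5
        have h7 : (P.map (algebraMap k Ω)).x ((dlS β) i) =
            (((la (B.s ⟨0, hn⟩) : ℤˣ) : ℤ) : Ω) * (P.map (algebraMap k Ω)).x (β i) := by
          have h8 := x_dl (Ω := Ω) P (c := (((la (B.s ⟨0, hn⟩) : ℤˣ) : ℤ) : k))
            (fun y => hr y ⟨0, hn⟩ rfl) (β i)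
          rw [map_intCast] at h8
          exact h8
        show (D.on M).J i (Z (v β)) = (P.map (algebraMap k Ω)).x ((dlS β) i) • Z (v β)
        rw [h7, mul_smul, h5, smul_smul, unit_mul, one_smul]
  refine ⟨fun β => if hβ : β ∈ SqT n F then (key β hβ).2.choose else 0, fun β hβ => ?_⟩
  have h3 := (key β hβ).2.choose_spec
  simp only [dif_pos hβ]
  exact ⟨(key β hβ).1, h3.1, h3.2⟩

theorem dlS_dlS (β : Fin n → AO.Et) : dlS (dlS β) = β := by
  funext i
  exact Prod.ext (dl2_dl2 _) rfl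

theorem dlS_ne (hn : 0 < n) (β : Fin n → AO.Et) : dlS β ≠ β := by
  intro h
  exact dl2_ne _ (congrArg Prod.fst (congrFun h ⟨0, hn⟩))

theorem dlS_F {F : AO.Et → ℤ} {β : Fin n → AO.Et} (h : β ∈ SqT n F) (h' : dlS β ∈ SqT n F) (y : Ty)
    (x : ℤ) : F (dl2 y, x) = F (y, x) := by
  have h1 : ∀ c : ℤ, cnT (dlS β) n (dl2 y, c) = cnT β n (y, c) := by
    intro c
    unfold cnT
    congr 1
    ext j
    simp only [Finset.mem_filter, Finset.mem_univ, true_and]
    refine and_congr_right fun _ => ?_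
    constructor
    · intro h3
      have h4 : dl2 (β j).1 = dl2 y := congrArg Prod.fst h3
      have h5 : (β j).2 = c := congrArg Prod.snd h3
      refine Prod.ext ?_ h5
      rw [← dl2_dl2 (β j).1, h4, dl2_dl2]
    · intro h3
      show (dl2 (β j).1, (β j).2) = (dl2 y, c)
      rw [h3]
  have h2 := congrFun h.2 (y, x)
  have h3 := congrFun h'.2 (dl2 y, x)
  rw [← h2, ← h3]
  unfold occT
  simp only
  rw [h1, h1]

end

end AO
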