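import Pool.Agent.AO.H03
import Pool.Agent.AO.L09

/-!
# MP_6c3636_al, AO, module H04: twisted intertwiners and the invariant form (helper7)

Let `B'` be the form of `M_orth` (L09). On the range of `e` the form `(x, y) ↦ B' (Z x) (Z y)` satisfies: `[g]` has the adjoint `[g⁻¹]` (`B' (Z [g] x) (Z y) = la g B' ([g] Z x) (Z y) = la g B' (Z x) ([g⁻¹] Z y) = B' (Z x) (Z [g⁻¹] y)`), as `B'`; `B'` is nondegenerate on the range of `e` (`eU_adj`, `Parker.nondeg_range`), so there is an operator `A` on the range with `B' (Z x) (Z y) = B' (A x) y`, which commutes with all `[g]`, so it is a scalar `c'` (`b_irr`, an eigenspace is stable). With `x = y = v β`: `κ β ^ 2 * nm (dlS β) = c' * nm β`. If `Z Z = 1` on the range of `e`: `κ β * κ (dlS β) = 1`; the relations for `β` and `dlS β` give `c' ^ 2 = 1`. `c' = 1` if `Z` is self adjoint: `B' (Z x) (Z y) = B' x (Z Z y) = B' x y`.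
-/

namespace AO

noncomputable section

open Classical Equiv

open AN (sq)

variable {k : Type} [Field k] [CharZero k] [Algebra k ℝ] {Ω : Type} [Field Ω] [IsAlgClosed Ω] [CharZero Ω]
  [Algebra k Ω] {G : Type} [Group G] [Finite G] {n : ℕ} {B : BN G n} {P : Par k}
  {D : HA P n (MonoidAlgebra k G)} {W : Type} [AddCommGroup W] [Module Ω W] [FiniteDimensional Ω W]
  {M : Representation Ω G W}

namespace H04_aux

theorem ev_adj {B' : LinearMap.BilinForm Ω W} (hB : Parker.InvForm M B') (x : MonoidAlgebra k G) (v w : W) :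
    B' (ev M x v) w = B' v (ev M (LieP.st x) w) := by
  rw [ev_act, ev_act, Parker.act_adj hB]
  rfl

theorem b_adj {B' : LinearMap.BilinForm Ω W} (hB : Parker.InvForm M B') (g : G) (v w : W) :
    B' (ev M (B.b k g) v) w = B' v (ev M (B.b k g⁻¹) w) := by
  rw [ev_adj hB, b_st]

theorem la_inv (la : G →* ℤˣ) (g : G) : la g⁻¹ = la g := by
  rw [map_inv]
  exact Int.units_inv_eq_self _

end H04_aux

open H04_aux

theorem tw_form (hM : M.IsIrreducible) {B' : LinearMap.BilinForm Ω W} (hB : Parker.InvForm M B')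
    {la : G →* ℤˣ} {Z : Module.End Ω W} (h : Tw B k M la Z) :
    ∃ c' : Ω, ∀ x y, ev M (B.e k) x = x → ev M (B.e k) y = y → B' (Z x) (Z y) = c' * B' x y := by
  have hEE : ∀ x, ev M (B.e k) (ev M (B.e k) x) = ev M (B.e k) x := by
    intro x
    rw [← Module.End.mul_apply, ← map_mul, e_idem]
  have hEg : ∀ g x, ev M (B.e k) (ev M (B.b k g) x) = ev M (B.b k g) x := by
    intro g x
    rw [← Module.End.mul_apply, ← map_mul, (b_e g).1]
  have hgE : ∀ g x, ev M (B.b k g) (ev M (B.e k) x) = ev M (B.b k g) x := by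
    intro g x
    rw [← Module.End.mul_apply, ← map_mul, (b_e g).2]
  obtain ⟨T, hT⟩ := Parker.P11_aux.exists_op (B := B')
    (J := LinearMap.compl₁₂ B' (Z * ev M (B.e k)) (Z * ev M (B.e k))) hB.nondeg
  have hT' : ∀ x y, B' (T x) y = B' (Z (ev M (B.e k) x)) (Z (ev M (B.e k) y)) := fun x y => hT x y
  have hcomm : ∀ g x, T (ev M (B.b k g) x) = ev M (B.b k g) (T x) := by
    intro g x
    rw [← sub_eq_zero]
    apply hB.nondeg
    intro y
    have e1 : B' (T (ev M (B.b k g) x)) y =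
        (((la g : ℤˣ) : ℤ) : Ω) * B' (Z (ev M (B.e k) x)) (ev M (B.b k g⁻¹) (Z (ev M (B.e k) y))) := by
      rw [hT', hEg, ← hgE g x, h.tw g _ (hEE x), map_smul, LinearMap.smul_apply, smul_eq_mul,
        b_adj hB]
    have e2 : B' (ev M (B.b k g) (T x)) y =
        (((la g : ℤˣ) : ℤ) : Ω) * B' (Z (ev M (B.e k) x)) (ev M (B.b k g⁻¹) (Z (ev M (B.e k) y))) := by
      rw [b_adj hB, hT', hEg, ← hgE g⁻¹ y, h.tw g⁻¹ _ (hEE y), map_smul, smul_eq_mul, la_inv]
    rw [map_sub, LinearMap.sub_apply, e1, e2, sub_self]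
  have hTE : ∀ x, ev M (B.e k) (T x) = T (ev M (B.e k) x) := by
    intro x
    rw [← b_one]
    exact (hcomm 1 x).symm
  by_cases hz : ∃ x, ev M (B.e k) x = x ∧ x ≠ 0
  · obtain ⟨x0, hx0, hne⟩ := hz
    have hR : ∀ w, w ∈ LinearMap.range (ev M (B.e k)) ↔ ev M (B.e k) w = w := by
      intro w
      constructor
      · rintro ⟨u, rfl⟩
        exact hEE u
      · intro hw
        exact ⟨w, hw⟩
    have hTR : ∀ w ∈ LinearMap.range (ev M (B.e k)), T w ∈ LinearMap.range (ev M (B.e k)) := by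
      intro w hw
      rw [hR] at hw ⊢
      rw [hTE, hw]
    have hnt : Nontrivial (LinearMap.range (ev M (B.e k))) :=
      ⟨⟨⟨x0, (hR x0).2 hx0⟩, 0, fun h0 => hne (congrArg Subtype.val h0)⟩⟩
    obtain ⟨c', hc'⟩ := Module.End.exists_eigenvalue (T.restrict hTR)
    obtain ⟨w, hw⟩ := hc'.exists_hasEigenvector
    have hw1 : T (w : W) = c' • (w : W) := by
      have h1 := congrArg Subtype.val hw.apply_eq_smul
      exact h1
    have hw2 : (w : W) ≠ 0 := fun h0 => hw.2 (Subtype.ext h0)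
    have hirr := b_irr (k := k) (B := B) hM
      (W' := LinearMap.range (ev M (B.e k)) ⊓ Module.End.eigenspace T c') inf_le_left
      (fun h0 => hw2 (by
        have h1 : (w : W) ∈ LinearMap.range (ev M (B.e k)) ⊓ Module.End.eigenspace T c' :=
          ⟨w.2, Module.End.mem_eigenspace_iff.2 hw1⟩
        rw [h0] at h1
        exact (Submodule.mem_bot Ω).1 h1))
      (fun g u hu => ⟨(hR _).2 (hEg g u), Module.End.mem_eigenspace_iff.2 (by
        rw [hcomm, Module.End.mem_eigenspace_iff.1 hu.2, map_smul])⟩)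
    refine ⟨c', fun x y hx hy => ?_⟩
    have hx1 : x ∈ LinearMap.range (ev M (B.e k)) ⊓ Module.End.eigenspace T c' := by
      rw [hirr]
      exact (hR x).2 hx
    have hx2 := Module.End.mem_eigenspace_iff.1 hx1.2
    have h1 := hT' x y
    rw [hx2, hx, hy, map_smul, LinearMap.smul_apply, smul_eq_mul] at h1
    exact h1.symm
  · refine ⟨0, fun x y hx hy => ?_⟩
    have hx0 : x = 0 := by
      by_contra h0
      exact hz ⟨x, hx, h0⟩
    rw [hx0, map_zero, map_zero, LinearMap.zero_apply, zero_mul]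

theorem kap_rel (hM : M.IsIrreducible) (hP : Fit B P) (hD : Dg B P D) (hn : 0 < n) {F : AO.Et → ℤ}
    {v : (Fin n → AO.Et) → W} (hv : SN (D.on M) F v)
    (hs : Submodule.span Ω (Set.range (fun β : {β // β ∈ SFT n F} => v β)) =
      LinearMap.range (ev M (B.e k)))
    {la : G →* ℤˣ} {Z : Module.End Ω W} (h : Tw B k M la Z)
    (hz : ∀ v, ev M (B.e k) v = v → Z (Z v) = v) {κ : (Fin n → AO.Et) → Ω}
    (hκ : ∀ β ∈ SqT n F, dlS β ∈ SqT n F ∧ κ β ≠ 0 ∧ Z (v β) = κ β • v (dlS β)) :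
    (∀ β ∈ SqT n F, κ β * κ (dlS β) = 1) ∧
      ((∀ β ∈ SqT n F, κ β ^ 2 * ((P.nm (dlS β) : ℚ) : Ω) = ((P.nm β : ℚ) : Ω)) ∨
        ∀ β ∈ SqT n F, κ β ^ 2 * ((P.nm (dlS β) : ℚ) : Ω) = -((P.nm β : ℚ) : Ω)) := by
  have hmem : ∀ β ∈ SqT n F, ev M (B.e k) (v β) = v β := by
    intro β hβ
    have h1 : v β ∈ LinearMap.range (ev M (B.e k)) := by
      rw [← hs]
      exact Submodule.subset_span ⟨⟨β, mem_SFT.2 hβ⟩, rfl⟩
    obtain ⟨u, hu⟩ := h1
    rw [← hu, ← Module.End.mul_apply, ← map_mul, e_idem]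
  have hone : ∀ β ∈ SqT n F, κ β * κ (dlS β) = 1 := by
    intro β hβ
    obtain ⟨h1, -, h3⟩ := hκ β hβ
    obtain ⟨-, -, h6⟩ := hκ (dlS β) h1
    have h7 := hz (v β) (hmem β hβ)
    rw [h3, map_smul, h6, dlS_dlS, smul_smul] at h7
    have h8 : (κ β * κ (dlS β) - 1) • v β = 0 := by
      rw [sub_smul, h7, one_smul, sub_self]
    rcases smul_eq_zero.1 h8 with h9 | h9
    · exact sub_eq_zero.1 h9
    · exact absurd h9 (hv.nz β hβ)
  refine ⟨hone, ?_⟩
  obtain ⟨B', μ, hB, -, hμ, hBv⟩ := M_orth hM hP hD hn hv hs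
  obtain ⟨c', hc'⟩ := tw_form hM hB h
  have hrel : ∀ β ∈ SqT n F, κ β ^ 2 * ((P.nm (dlS β) : ℚ) : Ω) = c' * ((P.nm β : ℚ) : Ω) := by
    intro β hβ
    obtain ⟨h1, -, h3⟩ := hκ β hβ
    have h4 := hc' (v β) (v β) (hmem β hβ) (hmem β hβ)
    rw [h3, map_smul, map_smul, LinearMap.smul_apply, smul_eq_mul, smul_eq_mul, hBv _ h1 _ h1,
      if_pos rfl, hBv _ hβ _ hβ, if_pos rfl] at h4
    refine mul_left_cancel₀ hμ ?_
    linear_combination h4
  obtain ⟨β0, hβ0⟩ := hv.ne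
  have hnz : ∀ β : Fin n → AO.Et, ((P.nm β : ℚ) : Ω) ≠ 0 := by
    intro β
    exact Rat.cast_ne_zero.2 (ne_of_gt (nm_posT β))
  have hsq : c' ^ 2 = 1 := by
    obtain ⟨h1, -, -⟩ := hκ β0 hβ0
    have h2 := hrel β0 hβ0
    have h3 := hrel (dlS β0) h1
    rw [dlS_dlS] at h3
    have h4 := hone β0 hβ0
    have h5 : c' ^ 2 * (((P.nm β0 : ℚ) : Ω) * ((P.nm (dlS β0) : ℚ) : Ω)) =
        1 * (((P.nm β0 : ℚ) : Ω) * ((P.nm (dlS β0) : ℚ) : Ω)) := by
      have h6 : (κ β0 ^ 2 * ((P.nm (dlS β0) : ℚ) : Ω)) * (κ (dlS β0) ^ 2 * ((P.nm β0 : ℚ) : Ω)) =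
          (c' * ((P.nm β0 : ℚ) : Ω)) * (c' * ((P.nm (dlS β0) : ℚ) : Ω)) := by
        rw [h2, h3]
      have h7 : (κ β0 * κ (dlS β0)) ^ 2 = 1 := by rw [h4, one_pow]
      linear_combination (((P.nm β0 : ℚ) : Ω) * ((P.nm (dlS β0) : ℚ) : Ω)) * h7 - h6
    exact mul_right_cancel₀ (mul_ne_zero (hnz _) (hnz _)) h5
  rcases sq_eq_one_iff.1 hsq with h1 | h1
  · left
    intro β hβ
    rw [hrel β hβ, h1, one_mul]
  · right
    intro β hβ
    rw [hrel β hβ, h1, neg_one_mul]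

end

end AO
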