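import Pool.Agent.AO.L02
import Pool.Agent.AO.A00

/-!
# MP_6c3636_al, AO, module W01: the weights of a representation of H (helper7)

`B.eH ρ` is the projection on the fixed points of `U` (A00 for the group `B.H` and the subgroup `B.U.subgroupOf B.H`). `wtH_mult`: apply to a nonzero vector. `wtH_sup`: the finite commutative group `T ⊓ H` acts on the range of `eH` (`TU`: the elements of `T` normalize `U`), diagonalizably; every vector of the range is a sum of joint eigenvectors. `wtH_N`: `ρ m` maps a vector `v` of weight `f` to a vector on which `x ∈ T ⊓ H` acts by `f (m⁻¹ x m)`; `eH` commutes with `ρ x`, `x ∈ T ⊓ H`. `wtH_conj`: let `f` be a weight, `W` the sum of the `wt ρ (f ∘ conj m⁻¹)` over `m ∈ N ⊓ H`. For `h ∈ H`: `h = u m u'` (`br`; `m ∈ H` as `U ≤ H`), `eH (ρ h v) = eH (ρ m v)` for `v = eH v`, so `W` is stable under the operators `eH ρ h`; the subspace generated by the `ρ h W` is `V` (irreducible), so `range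 eH ≤ W`. A vector of weight `f'` is in `W`: joint eigenvectors with different characters are linearly independent, so `f'` agrees on `T ⊓ H` with one of the `f ∘ conj m⁻¹`. `wtH_parity`: the range of `eH` is the direct sum of the `wt ρ f` over the finite set `O` of the functions `f` supported on `T ⊓ H` with `wt ρ f ≠ ⊥`; `τ` (followed by the restriction to `T ⊓ H`) acts on `O`, some power `2 ^ j` of it is the identity, the dimensions are constant on the orbits; so modulo `2` the dimension is the sum over the fixed points.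
-/

namespace AO

noncomputable section

open Classical Equiv

open AN (sq)

namespace W01_aux

section General

variable {Ω : Type} [Field Ω] {V : Type} [AddCommGroup V] [Module Ω V] [FiniteDimensional Ω V]

theorem finrank_biSup {ι : Type} {p : ι → Submodule Ω V} (h : iSupIndep p) (s : Finset ι) :
    Module.finrank Ω (⨆ i ∈ s, p i : Submodule Ω V) = ∑ i ∈ s, Module.finrank Ω (p i) := by
  induction s using Finset.induction_on with
  | empty => simp
  | insert a s ha ih =>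
    rw [Finset.iSup_insert, Finset.sum_insert ha, ← ih]
    have hd : Disjoint (p a) (⨆ i ∈ s, p i) :=
      h.disjoint_biSup (y := (s : Set ι)) (by simpa using ha)
    have h1 := Submodule.finrank_sup_add_finrank_inf_eq (p a) (⨆ i ∈ s, p i)
    rw [disjoint_iff.1 hd, finrank_bot, add_zero] at h1
    exact h1

variable [IsAlgClosed Ω] [CharZero Ω]

theorem gen_eq {f : Module.End Ω V} {n : ℕ} (hn : n ≠ 0) (hf : f ^ n = 1) (μ : Ω) :
    f.maxGenEigenspace μ = f.eigenspace μ := by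
  have hss : f.IsSemisimple := by
    have hsq : Squarefree (Polynomial.X ^ n - 1 : Polynomial Ω) := by
      apply Polynomial.Separable.squarefree
      have := Polynomial.separable_X_pow_sub_C (1 : Ω) (n := n) (by exact_mod_cast hn) one_ne_zero
      simpa using this
    refine Module.End.isSemisimple_of_squarefree_aeval_eq_zero hsq ?_
    rw [map_sub, map_pow, Polynomial.aeval_X, map_one, hf, sub_self]
  exact hss.isFinitelySemisimple.maxGenEigenspace_eq_eigenspace μ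

theorem mem_joint {ι : Type} {f : ι → Module.End Ω V} {n : ℕ} (hn : n ≠ 0)
    (hf : ∀ i, f i ^ n = 1) {χ : ι → Ω} {v : V} :
    v ∈ ⨅ i, (f i).maxGenEigenspace (χ i) ↔ ∀ i, f i v = χ i • v := by
  rw [Submodule.mem_iInf]
  refine forall_congr' fun i => ?_
  rw [gen_eq hn (hf i), Module.End.mem_eigenspace_iff]

theorem joint_indep {ι : Type} {f : ι → Module.End Ω V} (hc : ∀ i j, Commute (f i) (f j)) :
    iSupIndep fun χ : ι → Ω => ⨅ i, (f i).maxGenEigenspace (χ i) :=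
  Module.End.independent_iInf_maxGenEigenspace_of_forall_mapsTo f
    fun i j φ => Module.End.mapsTo_maxGenEigenspace_of_comm (hc j i) φ

theorem joint_top {ι : Type} {f : ι → Module.End Ω V} (hc : ∀ i j, Commute (f i) (f j)) :
    ⨆ χ : ι → Ω, ⨅ i, (f i).maxGenEigenspace (χ i) = ⊤ :=
  Module.End.iSup_iInf_maxGenEigenspace_eq_top_of_forall_mapsTo f
    (fun i j φ => Module.End.mapsTo_maxGenEigenspace_of_comm (hc j i) φ)
    fun i => Module.End.iSup_maxGenEigenspace_eq_top (f i)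

end General

section Par

/-- a map of order a power of two on a finite set with an invariant weight -/
theorem parity {X : Type} (O : Finset X) (σ : X → X) (d : X → ℕ) (hO : ∀ x ∈ O, σ x ∈ O)
    (hd : ∀ x ∈ O, d (σ x) = d x) {j : ℕ} (hj : ∀ x ∈ O, σ^[2 ^ j] x = x)
    (ho : Odd (∑ x ∈ O, d x)) : ∃ x ∈ O, σ x = x := by
  set S : Finset (Σ _ : X, ℕ) := O.sigma fun x => Finset.range (d x) with hS
  have hmem : ∀ p : Σ _ : X, ℕ, p ∈ S ↔ p.1 ∈ O ∧ p.2 < d p.1 := by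
    intro p
    rw [hS, Finset.mem_sigma, Finset.mem_range]
  have hmap : ∀ p ∈ S, (⟨σ p.1, p.2⟩ : Σ _ : X, ℕ) ∈ S := by
    intro p hp
    rw [hmem] at hp ⊢
    exact ⟨hO _ hp.1, by rw [hd _ hp.1]; exact hp.2⟩
  set F : Function.End S := fun p => ⟨⟨σ p.1.1, p.1.2⟩, hmap _ p.2⟩ with hF
  have hit : ∀ (m : ℕ) (p : S), ((F^[m] p : S) : Σ _ : X, ℕ) = ⟨σ^[m] p.1.1, p.1.2⟩ := by
    intro m
    induction m with
    | zero => intro p; rfl
    | succ m ih =>
      intro p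
      rw [Function.iterate_succ_apply, ih]
      rfl
  have hF1 : F ^ 2 ^ j = 1 := by
    have hp : ∀ (m : ℕ) (p : S), (F ^ m) p = F^[m] p := by
      intro m
      induction m with
      | zero => intro p; rfl
      | succ m ih =>
        intro p
        rw [pow_succ, Function.iterate_succ_apply, ← ih]
        rfl
    funext p
    rw [hp]
    refine Subtype.ext ?_
    rw [hit, hj _ ((hmem _).1 p.2).1]
    rfl
  have hc := Equiv.Perm.card_fixedPoints_modEq (p := 2) (n := j) hF1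
  have hcard : Fintype.card S = ∑ x ∈ O, d x := by
    rw [Fintype.card_coe, hS, Finset.card_sigma]
    exact Finset.sum_congr rfl fun x _ => Finset.card_range _
  by_contra hno
  push Not at hno
  have h0 : Fintype.card (Function.fixedPoints F) = 0 := by
    rw [Fintype.card_eq_zero_iff]
    refine ⟨fun p => ?_⟩
    have h1 : F p.1 = p.1 := p.2
    have h2 := congrArg (fun q : S => q.1.1) h1
    exact hno _ ((hmem _).1 p.1.2).1 h2
  rw [h0, hcard] at hc
  have h3 : (∑ x ∈ O, d x) % 2 = 0 := hc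
  rw [Nat.odd_iff] at ho
  omega

end Par

section Wt

variable {Ω : Type} [Field Ω] [IsAlgClosed Ω] [CharZero Ω] {G : Type} [Group G] [Finite G] {n : ℕ} {B : BN G n}
  {V : Type} [AddCommGroup V] [Module Ω V] [FiniteDimensional Ω V] {ρ : Representation Ω B.H V}

/-- the torus of `H` -/
abbrev A (B : BN G n) : Type := {x : G // x ∈ B.T ⊓ B.H}

/-- the operators of the torus of `H` -/
def ff (ρ : Representation Ω B.H V) (a : A B) : Module.End Ω V := ρ ⟨a.1, a.2.2⟩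

/-- extension by zero -/
def ext (B : BN G n) (χ : A B → Ω) : G → Ω := fun x => if h : x ∈ B.T ⊓ B.H then χ ⟨x, h⟩ else 0

omit [IsAlgClosed Ω] [CharZero Ω] [Finite G] in
theorem ext_apply (χ : A B → Ω) (a : A B) : ext B χ a.1 = χ a := by
  unfold ext
  rw [dif_pos a.2]

omit [IsAlgClosed Ω] [CharZero Ω] [Finite G] in
theorem ext_of (χ : A B → Ω) {x : G} (h : x ∈ B.T ⊓ B.H) : ext B χ x = χ ⟨x, h⟩ := by
  unfold ext
  rw [dif_pos h]

omit [IsAlgClosed Ω] [CharZero Ω] [FiniteDimensional Ω V] in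
theorem mem_wt {f : G → Ω} {v : V} :
    v ∈ B.wt ρ f ↔ B.eH ρ v = v ∧ ∀ a : A B, ff ρ a v = f a.1 • v :=
  ⟨fun h => ⟨h.1, fun a => h.2 a.1 a.2.2 a.2.1⟩, fun h => ⟨h.1, fun x hx hT => h.2 ⟨x, hT, hx⟩⟩⟩

omit [IsAlgClosed Ω] [CharZero Ω] [FiniteDimensional Ω V] in
theorem ff_comm (a b : A B) : Commute (ff ρ a) (ff ρ b) := by
  show ρ _ * ρ _ = ρ _ * ρ _
  rw [← map_mul, ← map_mul]
  congr 1
  exact Subtype.ext (B.Tc a.1 a.2.1 b.1 b.2.1)

omit [IsAlgClosed Ω] [CharZero Ω] [FiniteDimensional Ω V] in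
theorem ff_pow (a : A B) : ff ρ a ^ Nat.card B.H = 1 := by
  show ρ _ ^ _ = 1
  rw [← map_pow, pow_card_eq_one', map_one]

omit [IsAlgClosed Ω] [CharZero Ω] [FiniteDimensional Ω V] in
theorem eH_comm (a : A B) (v : V) : B.eH ρ (ff ρ a v) = ff ρ a (B.eH ρ v) := by
  have h := Parker.P15_aux.act_comm ρ (g := ⟨a.1, a.2.2⟩)
    (s := fun g => if g ∈ B.U.subgroupOf B.H then (Nat.card (B.U.subgroupOf B.H) : Ω)⁻¹ else 0) (by
      intro x
      have h1 : (⟨a.1, a.2.2⟩ * x * ⟨a.1, a.2.2⟩⁻¹ ∈ B.U.subgroupOf B.H) ↔ x ∈ B.U.subgroupOf B.H := by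
        rw [Subgroup.mem_subgroupOf, Subgroup.mem_subgroupOf]
        have e : ((⟨a.1, a.2.2⟩ * x * ⟨a.1, a.2.2⟩⁻¹ : B.H) : G) = a.1 * (x : G) * a.1⁻¹ := rfl
        rw [e]
        constructor
        · intro hx
          have h2 := B.TU a.1⁻¹ (B.T.inv_mem a.2.1) _ hx
          have h3 : a.1⁻¹ * (a.1 * (x : G) * a.1⁻¹) * a.1⁻¹⁻¹ = x := by group
          rwa [h3] at h2
        · exact B.TU a.1 a.2.1 _
      simp only [h1])
  exact (congrArg (fun T : Module.End Ω V => T v) h).symm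

end Wt

end W01_aux

variable {Ω : Type} [Field Ω] [IsAlgClosed Ω] [CharZero Ω] {G : Type} [Group G] [Finite G] {n : ℕ} {B : BN G n}
  {V : Type} [AddCommGroup V] [Module Ω V] [FiniteDimensional Ω V] {ρ : Representation Ω B.H V}

theorem eH_fix {v : V} : B.eH ρ v = v ↔ ∀ u (hu : u ∈ B.U), ρ ⟨u, B.UH hu⟩ v = v := by
  unfold BN.eH
  rw [eU_fix]
  constructor
  · intro h u hu
    exact h ⟨u, B.UH hu⟩ (Subgroup.mem_subgroupOf.2 hu)
  · rintro h ⟨u, hu⟩ hu'
    exact h u (Subgroup.mem_subgroupOf.1 hu')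

theorem wtH_congr {f g : G → Ω} (h : ∀ x ∈ B.T ⊓ B.H, f x = g x) : B.wt ρ f = B.wt ρ g := by
  ext v
  rw [W01_aux.mem_wt, W01_aux.mem_wt]
  refine and_congr_right fun _ => forall_congr' fun a => ?_
  rw [h a.1 a.2]

theorem wtH_mult {f : G → Ω} (h : B.wt ρ f ≠ ⊥) :
    (∀ x ∈ B.T ⊓ B.H, ∀ y ∈ B.T ⊓ B.H, f (x * y) = f x * f y) ∧ ∀ x ∈ B.T ⊓ B.H,
      f x ^ Nat.card G = 1 := by
  obtain ⟨v, hv, hv0⟩ := (Submodule.ne_bot_iff _).1 h
  have h1 : ∀ x (hx : x ∈ B.T ⊓ B.H), ρ ⟨x, hx.2⟩ v = f x • v := fun x hx => hv.2 x hx.2 hx.1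
  have hcancel : ∀ a b : Ω, a • v = b • v → a = b := fun a b hab => by
    have h2 : (a - b) • v = 0 := by rw [sub_smul, hab, sub_self]
    rcases smul_eq_zero.1 h2 with h3 | h3
    · exact sub_eq_zero.1 h3
    · exact absurd h3 hv0
  constructor
  · intro x hx y hy
    apply hcancel
    rw [← h1 _ ((B.T ⊓ B.H).mul_mem hx hy)]
    have e : (⟨x * y, ((B.T ⊓ B.H).mul_mem hx hy).2⟩ : B.H) = ⟨x, hx.2⟩ * ⟨y, hy.2⟩ := rfl
    rw [e, map_mul, Module.End.mul_apply, h1 y hy, map_smul, h1 x hx, smul_smul, mul_comm]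
  · intro x hx
    apply hcancel
    have h2 : ∀ m : ℕ, (ρ ⟨x, hx.2⟩ ^ m) v = f x ^ m • v := by
      intro m
      induction m with
      | zero => rw [pow_zero, pow_zero, one_smul]; rfl
      | succ m ih =>
        rw [pow_succ, Module.End.mul_apply, h1 x hx, map_smul, ih, smul_smul, pow_succ, mul_comm]
    rw [← h2, ← map_pow]
    have e : (⟨x, hx.2⟩ : B.H) ^ Nat.card G = 1 := by
      refine Subtype.ext ?_
      rw [Subgroup.coe_pow, pow_card_eq_one', Subgroup.coe_one]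
    rw [e, map_one, one_smul]
    rfl

theorem wtH_sup {W : Submodule Ω V} (h : ∀ f, B.wt ρ f ≤ W) : LinearMap.range (B.eH ρ) ≤ W := by
  have h1 : (⊤ : Submodule Ω V) ≤ W.comap (B.eH ρ) := by
    rw [← W01_aux.joint_top (f := W01_aux.ff ρ) W01_aux.ff_comm]
    refine iSup_le fun χ v hv => ?_
    rw [W01_aux.mem_joint Nat.card_pos.ne' W01_aux.ff_pow] at hv
    show B.eH ρ v ∈ W
    refine h (W01_aux.ext B χ) ?_
    rw [W01_aux.mem_wt]
    refine ⟨?_, fun a => ?_⟩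
    · exact congrArg (fun T : Module.End Ω V => T v) (eU_idem (ρ := ρ) (U := B.U.subgroupOf B.H))
    · rw [← W01_aux.eH_comm, hv a, map_smul, W01_aux.ext_apply]
  rintro _ ⟨v, rfl⟩
  exact h1 Submodule.mem_top

theorem wtH_N {m : G} (hm : m ∈ B.N) (hH : m ∈ B.H) {f : G → Ω} {v : V} (hv : v ∈ B.wt ρ f) :
    B.eH ρ (ρ ⟨m, hH⟩ v) ∈ B.wt ρ (fun x => f (m⁻¹ * x * m)) := by
  rw [W01_aux.mem_wt]
  refine ⟨?_, fun a => ?_⟩
  · exact congrArg (fun T : Module.End Ω V => T (ρ ⟨m, hH⟩ v))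
      (eU_idem (ρ := ρ) (U := B.U.subgroupOf B.H))
  · rw [← W01_aux.eH_comm]
    have hT : m⁻¹ * a.1 * m ∈ B.T := by
      have h1 := (N_T (B := B) (B.N.inv_mem hm) (x := a.1)).2 a.2.1
      rwa [inv_inv] at h1
    have hH' : m⁻¹ * a.1 * m ∈ B.H := by
      have h1 := B.hN.conj_mem a.1 a.2.2 m⁻¹
      rwa [inv_inv] at h1
    have e : (⟨a.1, a.2.2⟩ : B.H) * ⟨m, hH⟩ = ⟨m, hH⟩ * ⟨m⁻¹ * a.1 * m, hH'⟩ := by
      refine Subtype.ext ?_
      show a.1 * m = m * (m⁻¹ * a.1 * m)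
      group
    have e2 : W01_aux.ff ρ a (ρ ⟨m, hH⟩ v) = f (m⁻¹ * a.1 * m) • ρ ⟨m, hH⟩ v := by
      show (ρ ⟨a.1, a.2.2⟩ * ρ ⟨m, hH⟩) v = _
      rw [← map_mul, e, map_mul, Module.End.mul_apply, hv.2 _ hH' hT, map_smul]
    rw [e2, map_smul]

theorem wtH_conj (hρ : ρ.IsIrreducible) {f f' : G → Ω} (h : B.wt ρ f ≠ ⊥) (h' : B.wt ρ f' ≠ ⊥) :
    ∃ m ∈ B.N, m ∈ B.H ∧ ∀ x ∈ B.T ⊓ B.H, f' x = f (m⁻¹ * x * m) := by
  by_contra hno
  push Not at hno
  set W : Submodule Ω V := ⨆ m : {m : G // m ∈ B.N ∧ m ∈ B.H},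
    B.wt ρ (fun x => f ((m : G)⁻¹ * x * m)) with hW
  have hle : ∀ (m : G) (h1 : m ∈ B.N) (h2 : m ∈ B.H),
      B.wt ρ (fun x => f (m⁻¹ * x * m)) ≤ W := fun m h1 h2 =>
    le_iSup (fun m : {m : G // m ∈ B.N ∧ m ∈ B.H} => B.wt ρ (fun x => f ((m : G)⁻¹ * x * m)))
      ⟨m, h1, h2⟩
  have hf : B.wt ρ f ≤ W := by
    have h1 := hle 1 B.N.one_mem B.H.one_mem
    simpa using h1
  -- `W` is stable under the operators
  have hst : ∀ g : B.H, ∀ w ∈ W, B.eH ρ (ρ g w) ∈ W := by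
    intro g w hw
    obtain ⟨u, hu, m, hm, u', hu', hg⟩ := B.br g
    have hmH : m ∈ B.H := by
      have h1 : m = u⁻¹ * (g : G) * u'⁻¹ := by rw [hg]; group
      rw [h1]
      exact B.H.mul_mem (B.H.mul_mem (B.H.inv_mem (B.UH hu)) g.2) (B.H.inv_mem (B.UH hu'))
    have hg' : g = ⟨u, B.UH hu⟩ * ⟨m, hmH⟩ * ⟨u', B.UH hu'⟩ := Subtype.ext hg
    have hcomap : W ≤ W.comap (B.eH ρ * ρ g) := by
      conv_lhs => rw [hW]
      refine iSup_le fun m' w hw => ?_
      show B.eH ρ (ρ g w) ∈ W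
      have h1 : ρ g w = ρ ⟨u, B.UH hu⟩ (ρ ⟨m, hmH⟩ w) := by
        rw [hg', map_mul, map_mul, Module.End.mul_apply, Module.End.mul_apply,
          eH_fix.1 hw.1 u' hu']
      have h2 : B.eH ρ (ρ g w) = B.eH ρ (ρ ⟨m, hmH⟩ w) := by
        rw [h1]
        have h3 := (eU_mul (ρ := ρ) (U := B.U.subgroupOf B.H) (u := ⟨u, B.UH hu⟩)
          (Subgroup.mem_subgroupOf.2 hu)).2
        exact congrArg (fun T : Module.End Ω V => T (ρ ⟨m, hmH⟩ w)) h3
      rw [h2]
      have h4 := wtH_N hm hmH hw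
      refine hle (m * m') (B.N.mul_mem hm m'.2.1) (B.H.mul_mem hmH m'.2.2) ?_
      have e : (fun x => f ((m * (m' : G))⁻¹ * x * (m * m'))) =
          fun x => f ((m' : G)⁻¹ * (m⁻¹ * x * m) * m') := by
        funext x
        congr 1
        group
      rw [e]
      exact h4
    exact hcomap hw
  -- the subspace generated by the `ρ g W`
  set S : Submodule Ω V := Submodule.span Ω {v | ∃ (g : B.H) (w : V), w ∈ W ∧ v = ρ g w} with hS
  have hSst : ∀ g, ∀ v ∈ S, ρ g v ∈ S := by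
    intro g v hv
    have h1 : S ≤ S.comap (ρ g) := by
      conv_lhs => rw [hS]
      rw [Submodule.span_le]
      rintro _ ⟨g', w, hw, rfl⟩
      show ρ g (ρ g' w) ∈ S
      refine Submodule.subset_span ⟨g * g', w, hw, ?_⟩
      rw [map_mul, Module.End.mul_apply]
    exact h1 hv
  obtain ⟨v0, hv0, hv00⟩ := (Submodule.ne_bot_iff _).1 h
  have hStop : S = ⊤ := by
    rcases Parker.irr_sub hρ hSst with h1 | h1
    · exfalso
      have h2 : v0 ∈ S := Submodule.subset_span ⟨1, v0, hf hv0, by rw [map_one]; rfl⟩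
      rw [h1] at h2
      exact hv00 ((Submodule.mem_bot Ω).1 h2)
    · exact h1
  have hran : LinearMap.range (B.eH ρ) ≤ W := by
    have h1 : S ≤ W.comap (B.eH ρ) := by
      rw [hS, Submodule.span_le]
      rintro _ ⟨g, w, hw, rfl⟩
      exact hst g w hw
    rintro _ ⟨v, rfl⟩
    rw [hStop] at h1
    exact h1 Submodule.mem_top
  obtain ⟨v1, hv1, hv10⟩ := (Submodule.ne_bot_iff _).1 h'
  have hv1W : v1 ∈ W := hran ⟨v1, hv1.1⟩
  -- joint eigenspaces
  have hind := W01_aux.joint_indep (f := W01_aux.ff ρ) W01_aux.ff_comm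
  have hjle : ∀ g : G → Ω, B.wt ρ g ≤
      ⨅ a, (W01_aux.ff ρ a).maxGenEigenspace ((fun a : W01_aux.A B => g a.1) a) := by
    intro g v hv
    rw [W01_aux.mem_joint Nat.card_pos.ne' W01_aux.ff_pow]
    exact (W01_aux.mem_wt.1 hv).2
  have hdis := hind (fun a : W01_aux.A B => f' a.1)
  have hW2 : W ≤ ⨆ (χ : W01_aux.A B → Ω) (_ : χ ≠ fun a => f' a.1),
      ⨅ a, (W01_aux.ff ρ a).maxGenEigenspace (χ a) := by
    rw [hW]
    refine iSup_le fun m => (hjle _).trans ?_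
    refine le_iSup₂_of_le (fun a : W01_aux.A B => f ((m : G)⁻¹ * a.1 * m)) ?_ le_rfl
    intro he
    obtain ⟨x, hx, hne⟩ := hno m m.2.1 m.2.2
    exact hne (congrFun he ⟨x, hx⟩).symm
  have h9 := (Submodule.disjoint_def.1 hdis) v1 (hjle f' hv1) (hW2 hv1W)
  exact hv10 h9

theorem wtH_parity {τ : (G → Ω) → G → Ω}
    (h1 : ∀ f, Module.finrank Ω (B.wt ρ (τ f)) = Module.finrank Ω (B.wt ρ f))
    (h2 : ∃ j : ℕ, ∀ f, B.wt ρ f ≠ ⊥ → ∀ x ∈ B.T ⊓ B.H, τ^[2 ^ j] f x = f x)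
    (h3 : ∀ f g : G → Ω, (∀ x ∈ B.T ⊓ B.H, f x = g x) → ∀ x ∈ B.T ⊓ B.H, τ f x = τ g x)
    (ho : Odd (Module.finrank Ω (LinearMap.range (B.eH ρ)))) :
    ∃ f, B.wt ρ f ≠ ⊥ ∧ ∀ x ∈ B.T ⊓ B.H, τ f x = f x := by
  set p : (W01_aux.A B → Ω) → Submodule Ω V := fun χ => B.wt ρ (W01_aux.ext B χ) with hp
  have hind : iSupIndep p := by
    refine (W01_aux.joint_indep (f := W01_aux.ff ρ) W01_aux.ff_comm).mono fun χ v hv => ?_
    rw [W01_aux.mem_joint Nat.card_pos.ne' W01_aux.ff_pow]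
    intro a
    have h4 := (W01_aux.mem_wt.1 hv).2 a
    rwa [W01_aux.ext_apply] at h4
  have hres : ∀ f : G → Ω, B.wt ρ (W01_aux.ext B fun a => f a.1) = B.wt ρ f := fun f =>
    wtH_congr fun x hx => W01_aux.ext_of _ hx
  have hfin : {χ | p χ ≠ ⊥}.Finite := WellFoundedGT.finite_ne_bot_of_iSupIndep hind
  set O : Finset (W01_aux.A B → Ω) := hfin.toFinset with hO
  have hmem : ∀ χ, χ ∈ O ↔ p χ ≠ ⊥ := fun χ => by
    rw [hO, Set.Finite.mem_toFinset]
    rfl
  have hran : LinearMap.range (B.eH ρ) = ⨆ χ ∈ O, p χ := by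
    apply le_antisymm
    · refine wtH_sup fun f => ?_
      by_cases hb : B.wt ρ f = ⊥
      · rw [hb]
        exact bot_le
      · rw [← hres f] at hb ⊢
        exact le_iSup₂_of_le (fun a : W01_aux.A B => f a.1) ((hmem _).2 hb) le_rfl
    · refine iSup₂_le fun χ _ v hv => ⟨v, hv.1⟩
  set σ : (W01_aux.A B → Ω) → W01_aux.A B → Ω := fun χ a => τ (W01_aux.ext B χ) a.1 with hσ
  have hσp : ∀ χ, p (σ χ) = B.wt ρ (τ (W01_aux.ext B χ)) := fun χ => hres _
  have hd : ∀ χ, Module.finrank Ω (p (σ χ)) = Module.finrank Ω (p χ) := fun χ => by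
    rw [hσp, h1]
  have hpos : ∀ χ, p χ ≠ ⊥ ↔ Module.finrank Ω (p χ) ≠ 0 := fun χ => by
    rw [Ne, Ne, Submodule.finrank_eq_zero]
  have hst : ∀ χ ∈ O, σ χ ∈ O := fun χ hχ => by
    rw [hmem, hpos] at hχ ⊢
    rwa [hd]
  have hit : ∀ (m : ℕ) (χ : W01_aux.A B → Ω) (a : W01_aux.A B),
      σ^[m] χ a = τ^[m] (W01_aux.ext B χ) a.1 := by
    intro m
    induction m with
    | zero =>
      intro χ a
      exact (W01_aux.ext_apply χ a).symm
    | succ m ih =>
      intro χ a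
      rw [Function.iterate_succ_apply', Function.iterate_succ_apply']
      refine h3 _ _ (fun x hx => ?_) a.1 a.2
      rw [W01_aux.ext_of _ hx, ih]
  obtain ⟨j, hj⟩ := h2
  have hσj : ∀ χ ∈ O, σ^[2 ^ j] χ = χ := by
    intro χ hχ
    funext a
    rw [hit, hj _ ((hmem _).1 hχ) a.1 a.2, W01_aux.ext_apply]
  rw [hran, W01_aux.finrank_biSup hind] at ho
  obtain ⟨χ, hχ, hfix⟩ := W01_aux.parity O σ (fun χ => Module.finrank Ω (p χ)) hst
    (fun χ _ => hd χ) hσj ho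
  refine ⟨W01_aux.ext B χ, (hmem _).1 hχ, fun x hx => ?_⟩
  rw [W01_aux.ext_of _ hx]
  exact congrFun hfix ⟨x, hx⟩

end

end AO
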