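import Pool.Agent.AO.H02
import Pool.Agent.AO.L09
import Pool.Agent.AO.W01

/-!
# MP_6c3636_al, AO, module H05: the restriction to H (helper7)

Notation: `φ (ρ h v) = M h (φ v)`, `Zψ = act (rs H M) (es ρ.character)`, the central idempotent of `ρ`, acting on `W`: it commutes with `M h`, `h ∈ H`, is idempotent, `Zψ φ = φ` (`Parker.es`, P15). `φ` maps the range of `eH` into the range of `e`; it is nonzero (`hw`). For `x ∈ T` the subspace `M x (φ V)` is stable under `H` (`H` normal), irreducible, and `e (M x (φ V)) = M x (e (φ V)) ≠ 0`; as `G = H T` and `M` is irreducible, `W` is the sum of these subspaces. COMMUTANT: every `Z` which commutes with `M h`, `h ∈ H`, acts on the range of `e` as `c + Z₁` (H01), and by `tw_prop` (H02) the `Z₁` are multiples of one of them, so any two such `Z` commute on the range of `e`. MULTIPLICITY ONE: if `ρ` had multiplicity at least two in the restriction of `M` to `H` there were `i₁, i₂ : V → W`,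 `q₁, q₂ : W → V` equivariant with `q_a i_b = δ_ab`; then `i₁ q₁ = (i₁ q₂) (i₂ q₁)`, `i₂ q₂ = (i₂ q₁) (i₁ q₂)` agree on the range of `e`, but `(i₁ q₁) (i₂ q₂) = 0`, so `i₁ q₁ = 0` on the range of `e`, contradiction to `e (i₁ V) ≠ 0`. So the range of `Zψ` is `φ V`. DICHOTOMY: `Zψ = c + Z₁` on the range of `e` (in the first case of `Fit.half`: `Z₁ = 0`). From `Zψ Zψ = Zψ` and `Z₁ Z₁ = c''` (`tw_sq`): `c ^ 2 + c'' = c` and `2 c Z₁ = Z₁` (separate by conjugation with `x ∈ T`, `la x = -1`, `exists_neg`). If `Z₁ = 0` on the range of `e`: `c = 1` (`Zψ φ = φ`), so `Zψ = 1` on the range of `e`, `Zψ (M x (φ V)) ≠ 0` for all `x ∈ T`, so `M x (φ V) ≤ φ V` (irreducible, `Zψ` commutes with `H`; the range of `Zψ` is `φ V`), so `W = φ V`: `φ` is surjective. If `Z₁ ≠ 0`: `c = 1/2`, `Z₁ Z₁ = 1/4`, `Θ = 2 Z₁`.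
-/

namespace AO

noncomputable section

open Classical Equiv

open AN (sq)

variable {k : Type} [Field k] [CharZero k] [Algebra k ℝ] {Ω : Type} [Field Ω] [IsAlgClosed Ω] [CharZero Ω]
  [Algebra k Ω] {G : Type} [Group G] [Finite G] {n : ℕ} {B : BN G n} {P : Par k}
  {D : HA P n (MonoidAlgebra k G)} {W : Type} [AddCommGroup W] [Module Ω W] [FiniteDimensional Ω W]
  {M : Representation Ω G W} {V : Type} [AddCommGroup V] [Module Ω V] [FiniteDimensional Ω V]
  {ρ : Representation Ω B.H V}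

namespace H05_aux

omit [CharZero k] [Algebra k ℝ] [IsAlgClosed Ω] [CharZero Ω] [Finite G] [FiniteDimensional Ω W] in
theorem ev_dl (x : G) : ev M (LieP.dl x : MonoidAlgebra k G) = M x := by
  show ev M (MonoidAlgebra.single x 1) = _
  rw [ev_single, map_one, one_smul]

omit [Algebra k ℝ] in
theorem ev_eU : ev M (B.e k) = eU B.U M := by
  have h : ev M (B.e k) =
      Parker.act M (fun g => algebraMap k Ω ((LieP.av k B.U).coeff g)) := ev_act M _
  rw [h]
  unfold eU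
  congr 1
  funext g
  rw [LieP.coeff_av]
  split_ifs
  · rw [map_inv₀, map_natCast]
  · rw [map_zero]

omit [Algebra k ℝ] in
theorem e_fix {w : W} : ev M (B.e k) w = w ↔ ∀ u ∈ B.U, M u w = w := by
  rw [ev_eU]
  exact eU_fix

omit [Algebra k ℝ] in
theorem comm_mem {Z : Module.End Ω W} (hZ : ∀ h ∈ B.H, Z * M h = M h * Z) {w : W}
    (hw : ev M (B.e k) w = w) : ev M (B.e k) (Z w) = Z w := by
  rw [e_fix] at hw ⊢
  intro u hu
  have h1 := congrArg (fun f : Module.End Ω W => f w) (hZ u (B.UH hu))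
  have h2 : Z (M u w) = M u (Z w) := h1
  rw [← h2, hw u hu]

omit [Algebra k ℝ] in
theorem T_mem {x : G} (hx : x ∈ B.T) {w : W} (hw : ev M (B.e k) w = w) :
    ev M (B.e k) (M x w) = M x w ∧ ev M (B.b k x) w = M x w := by
  have h1 : ev M (B.e k) * M x = M x * ev M (B.e k) := by
    rw [← ev_dl (k := k) x, ← map_mul, ← map_mul, dl_e hx]
  have h2 : ev M (B.e k) (M x w) = M x (ev M (B.e k) w) :=
    congrArg (fun f : Module.End Ω W => f w) h1
  have h3 : ev M (B.b k x) = ev M (B.e k) * M x * ev M (B.e k) := by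
    show ev M (B.e k * LieP.dl x * B.e k) = _
    rw [map_mul, map_mul, ev_dl]
  refine ⟨by rw [h2, hw], ?_⟩
  rw [h3]
  show ev M (B.e k) (M x (ev M (B.e k) w)) = M x w
  rw [hw, h2, hw]

end H05_aux

open H05_aux

namespace H05_aux

section Retr

variable {H : Type} [Group H] [Finite H] {τ : Representation Ω H W} {ρ' : Representation Ω H V}

omit [IsAlgClosed Ω] [FiniteDimensional Ω V] [FiniteDimensional Ω W] in
/-- Maschke: an equivariant left inverse -/
theorem exists_retr (φ : V →ₗ[Ω] W) (hφ : Function.Injective φ)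
    (hφ' : ∀ h v, φ (ρ' h v) = τ h (φ v)) :
    ∃ q : W →ₗ[Ω] V, (∀ h w, q (τ h w) = ρ' h (q w)) ∧ ∀ v, q (φ v) = v := by
  have _ := Fintype.ofFinite H
  obtain ⟨q₀, hq₀⟩ := φ.exists_leftInverse_of_injective (LinearMap.ker_eq_bot.2 hφ)
  have hq1 : ∀ v, q₀ (φ v) = v := fun v => congrArg (fun f : V →ₗ[Ω] V => f v) hq₀
  have hc : (Fintype.card H : Ω) ≠ 0 := Nat.cast_ne_zero.2 Fintype.card_ne_zero
  let q : W →ₗ[Ω] V := (Fintype.card H : Ω)⁻¹ • ∑ g : H, (ρ' g⁻¹) ∘ₗ q₀ ∘ₗ (τ g)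
  have hq : ∀ w, q w = (Fintype.card H : Ω)⁻¹ • ∑ g : H, ρ' g⁻¹ (q₀ (τ g w)) := by
    intro w
    show ((Fintype.card H : Ω)⁻¹ • ∑ g : H, (ρ' g⁻¹) ∘ₗ q₀ ∘ₗ (τ g)) w = _
    rw [LinearMap.smul_apply, LinearMap.sum_apply]
    rfl
  refine ⟨q, fun h w => ?_, fun v => ?_⟩
  · rw [hq, hq, map_smul, map_sum]
    congr 1
    refine Fintype.sum_equiv (Equiv.mulRight h) _ _ fun g => ?_
    show ρ' g⁻¹ (q₀ (τ g (τ h w))) = ρ' h (ρ' (g * h)⁻¹ (q₀ (τ (g * h) w)))
    have e1 : τ (g * h) w = τ g (τ h w) := by rw [map_mul]; rfl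
    have e2 : ∀ y, ρ' h (ρ' (g * h)⁻¹ y) = ρ' g⁻¹ y := by
      intro y
      have e3 : g⁻¹ = h * (g * h)⁻¹ := by group
      rw [e3, map_mul]
      rfl
    rw [e1, e2]
  · rw [hq]
    have e : ∀ g : H, ρ' g⁻¹ (q₀ (τ g (φ v))) = v := by
      intro g
      rw [← hφ', hq1]
      have e3 : ρ' g⁻¹ (ρ' g v) = ρ' (g⁻¹ * g) v := by rw [map_mul]; rfl
      rw [e3, inv_mul_cancel, map_one]
      rfl
    rw [Finset.sum_congr rfl fun g _ => e g, Finset.sum_const, Finset.card_univ,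
      ← Nat.cast_smul_eq_nsmul Ω, smul_smul, inv_mul_cancel₀ hc, one_smul]

omit [IsAlgClosed Ω] [CharZero Ω] [FiniteDimensional Ω V] [FiniteDimensional Ω W] in
theorem act_eqv (φ : V →ₗ[Ω] W) (hφ' : ∀ h v, φ (ρ' h v) = τ h (φ v)) (s : H → Ω) (v : V) :
    Parker.act τ s (φ v) = φ (Parker.act ρ' s v) := by
  have _ := Fintype.ofFinite H
  rw [Parker.act_eq, Parker.act_eq, LinearMap.sum_apply, LinearMap.sum_apply, map_sum]
  refine Finset.sum_congr rfl fun g _ => ?_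
  rw [LinearMap.smul_apply, LinearMap.smul_apply, map_smul, hφ']

/-- if the range of the central idempotent is larger than the range of `φ` there is a second
embedding -/
theorem second (hρ : ρ'.IsIrreducible) (φ : V →ₗ[Ω] W) (hφ : Function.Injective φ)
    (hφ' : ∀ h v, φ (ρ' h v) = τ h (φ v)) {w : W}
    (hw : Parker.act τ (Parker.es ρ'.character) w = w) (hw' : ∀ x, φ x ≠ w) :
    ∃ A C : Module.End Ω W, (∀ h, A * τ h = τ h * A) ∧ (∀ h, C * τ h = τ h * C) ∧
      (∀ v, A (φ v) = 0) ∧ ∀ v, A (C (φ v)) = φ v := by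
  obtain ⟨q, hq, hq'⟩ := exists_retr φ hφ hφ'
  have hχ : ρ'.character ∈ Parker.irr Ω H := Parker.mem_irr.2 (Parker.mem_irrSet hρ)
  have hZφ : ∀ v, Parker.act τ (Parker.es ρ'.character) (φ v) = φ v := by
    intro v
    rw [act_eqv φ hφ', Parker.idem_irr hρ]
    rfl
  let L : Subrepresentation τ := ⟨
    { carrier := {x | Parker.act τ (Parker.es ρ'.character) x = x ∧ q x = 0}
      add_mem' := by
        rintro a b ⟨ha, ha'⟩ ⟨hb, hb'⟩
        exact ⟨by rw [map_add, ha, hb], by rw [map_add, ha', hb', add_zero]⟩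
      zero_mem' := ⟨map_zero _, map_zero _⟩
      smul_mem' := by
        rintro a x ⟨hx, hx'⟩
        exact ⟨by rw [map_smul, hx], by rw [map_smul, hx', smul_zero]⟩ }, by
    rintro h x ⟨hx, hx'⟩
    refine ⟨?_, ?_⟩
    · have h1 := congrArg (fun f : Module.End Ω W => f x) (Parker.idem_comm τ hχ h)
      have h2 : τ h (Parker.act τ (Parker.es ρ'.character) x) =
        Parker.act τ (Parker.es ρ'.character) (τ h x) := h1
      rw [← h2, hx]
    · rw [hq, hx', map_zero]⟩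
  have hL : L.toSubmodule ≠ ⊥ := by
    intro h0
    have h1 : w - φ (q w) ∈ L.toSubmodule := by
      refine ⟨?_, ?_⟩
      · rw [map_sub, hw, hZφ]
      · rw [map_sub, hq', sub_self]
    rw [h0, Submodule.mem_bot, sub_eq_zero] at h1
    exact hw' _ h1.symm
  obtain ⟨W', hWL, hW⟩ := Parker.P15_aux.exists_irr_le τ L
    (fun W h1 h2 => Parker.irr_of_sub h1 h2) hL
  have hpos := Parker.irr_pos hW
  haveI := Module.nontrivial_of_finrank_pos hpos
  obtain ⟨x, hx⟩ := exists_ne (0 : W'.toSubmodule)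
  have hx0 : (x : W) ≠ 0 := fun h => hx (Subtype.ext h)
  have hch : ρ'.character = W'.toRepresentation.character := by
    by_contra hne
    have h1 := Parker.P15_aux.es_apply hW hχ x.2
    rw [if_neg hne, zero_smul, (hWL x.2).1] at h1
    exact hx0 h1
  obtain ⟨e⟩ := Parker.equiv_of_char hρ hW hch
  let i : V →ₗ[Ω] W := W'.toSubmodule.subtype ∘ₗ e.toLinearEquiv.toLinearMap
  have hi0 : ∀ v, i v = ((e v : W'.toSubmodule) : W) := fun v => rfl
  have hi : Function.Injective i := by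
    intro a b hab
    exact e.toLinearEquiv.injective (Subtype.ext hab)
  have hi' : ∀ h v, i (ρ' h v) = τ h (i v) := by
    intro h v
    rw [hi0, hi0, Parker.P08_aux.equiv_comm e h v]
    rfl
  have hiL : ∀ v, q (i v) = 0 := fun v => (hWL (e v).2).2
  obtain ⟨r, hr, hr'⟩ := exists_retr i hi hi'
  refine ⟨φ ∘ₗ r ∘ₗ (1 - φ ∘ₗ q), i ∘ₗ q, fun h => ?_, fun h => ?_, fun v => ?_, fun v => ?_⟩
  · refine LinearMap.ext fun y => ?_
    show φ (r (τ h y - φ (q (τ h y)))) = τ h (φ (r (y - φ (q y))))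
    rw [hq, hφ', ← map_sub, hr, hφ']
  · refine LinearMap.ext fun y => ?_
    show i (q (τ h y)) = τ h (i (q y))
    rw [hq, hi']
  · show φ (r (φ v - φ (q (φ v)))) = 0
    rw [hq', sub_self, map_zero, map_zero]
  · show φ (r (i (q (φ v)) - φ (q (i (q (φ v)))))) = φ v
    rw [hq', hiL, map_zero, sub_zero, hr']

end Retr

/-- operators which commute with `H` commute on the range of `e` -/
theorem comm2 (hM : M.IsIrreducible) (hP : Fit B P) (hD : Dg B P D) (hE : (D.on M).Et ≠ 0)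
    (hn : 0 < n) {Z Z' : Module.End Ω W} (hZ : ∀ h ∈ B.H, Z * M h = M h * Z)
    (hZ' : ∀ h ∈ B.H, Z' * M h = M h * Z') {v : W} (hv : ev M (B.e k) v = v) :
    Z (Z' v) = Z' (Z v) := by
  rcases hP.half with hx | ⟨la, h1, h2, -⟩
  · obtain ⟨c, hc⟩ := comm_scalar hM hD hE hx hZ
    obtain ⟨c', hc'⟩ := comm_scalar hM hD hE hx hZ'
    rw [hc' v hv, hc v hv, map_smul, map_smul, hc v hv, hc' v hv, smul_comm]
  · obtain ⟨c, Z₁, ht, hc⟩ := comm_split hM hD hE hn h1 h2 hZ
    obtain ⟨c', Z₁', ht', hc'⟩ := comm_split hM hD hE hn h1 h2 hZ'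
    have h3 : ∀ u, ev M (B.e k) u = u → Z₁ (Z₁' u) = Z₁' (Z₁ u) := by
      intro u hu
      by_cases h0 : ∃ v, ev M (B.e k) v = v ∧ Z₁ v ≠ 0
      · obtain ⟨d, hd⟩ := tw_prop hM ht ht' h0
        rw [hd u hu, hd _ (ht.mem u hu), map_smul]
      · push Not at h0
        rw [h0 u hu, map_zero, h0 _ (ht'.mem u hu)]
    rw [hc' v hv, hc v hv, map_add, map_add, map_smul, map_smul, hc v hv, hc' v hv,
      hc _ (ht'.mem v hv), hc' _ (ht.mem v hv), h3 v hv, smul_add, smul_add, smul_smul, smul_smul,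
      mul_comm c' c]
    abel

/-- multiplicity one -/
theorem mult_one (hρ : ρ.IsIrreducible) (hM : M.IsIrreducible) (φ : V →ₗ[Ω] W)
    (hφ : Function.Injective φ) (hφ' : ∀ (h : B.H) v, φ (ρ h v) = M h (φ v)) (hP : Fit B P)
    (hD : Dg B P D) (hE : (D.on M).Et ≠ 0) (hn : 0 < n) {v₀ : V} (h0 : v₀ ≠ 0)
    (hv₀ : ev M (B.e k) (φ v₀) = φ v₀) {w : W}
    (hw : Parker.act (Parker.rs B.H M) (Parker.es ρ.character) w = w) : ∃ x, φ x = w := by
  by_contra hcon
  push Not at hcon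
  obtain ⟨A, C, hA, hC, h1, h2⟩ := second (τ := Parker.rs B.H M) hρ φ hφ hφ' hw hcon
  have h3 := comm2 hM hP hD hE hn (Z := A) (Z' := C) (fun h hh => hA ⟨h, hh⟩)
    (fun h hh => hC ⟨h, hh⟩) hv₀
  rw [h2, h1, map_zero] at h3
  apply h0
  apply hφ
  rw [h3, map_zero]

/-- surjectivity -/
theorem surj_of (hρ : ρ.IsIrreducible) (hM : M.IsIrreducible) (φ : V →ₗ[Ω] W)
    (hφ' : ∀ (h : B.H) v, φ (ρ h v) = M h (φ v)) {Z : Module.End Ω W} {v₀ : V} (h0 : φ v₀ ≠ 0)
    (hv₀ : ev M (B.e k) (φ v₀) = φ v₀) (h1 : ∀ w, ev M (B.e k) w = w → Z w = w)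
    (h2 : ∀ w, Z w = w → ∃ x, φ x = w) : Function.Surjective φ := by
  have hT : ∀ x ∈ B.T, ∀ v, ∃ y, φ y = M x (φ v) := by
    intro x hx
    let S : Submodule Ω V := (LinearMap.range φ).comap ((M x) ∘ₗ φ)
    have hS : ∀ h : B.H, ∀ v ∈ S, ρ h v ∈ S := by
      intro h v hv
      obtain ⟨y, hy⟩ := hv
      have hy' : φ y = M x (φ v) := hy
      have hc : x * (h : G) * x⁻¹ ∈ B.H := B.hN.conj_mem _ h.2 x
      refine ⟨ρ ⟨_, hc⟩ y, ?_⟩
      show φ (ρ ⟨_, hc⟩ y) = M x (φ (ρ h v))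
      rw [hφ', hφ', hy']
      have e1 : ∀ a b : G, M a (M b (φ v)) = M (a * b) (φ v) := by
        intro a b
        rw [map_mul]
        rfl
      show M (x * (h : G) * x⁻¹) (M x (φ v)) = M x (M h (φ v))
      rw [e1, e1]
      congr 2
      group
    have hS0 : v₀ ∈ S := by
      obtain ⟨y, hy⟩ := h2 _ (h1 _ (T_mem (k := k) hx hv₀).1)
      exact ⟨y, hy⟩
    have hv0 : v₀ ≠ 0 := fun h => h0 (by rw [h, map_zero])
    have hS1 : S = ⊤ := by
      rcases Parker.irr_sub hρ hS with h | h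
      · rw [h, Submodule.mem_bot] at hS0
        exact absurd hS0 hv0
      · exact h
    intro v
    have h3 : v ∈ S := by rw [hS1]; trivial
    exact h3
  have hR : ∀ g, ∀ w ∈ LinearMap.range φ, M g w ∈ LinearMap.range φ := by
    rintro g _ ⟨v, rfl⟩
    obtain ⟨h, hh, x, hx, rfl⟩ := B.HT g
    obtain ⟨y, hy⟩ := hT x hx v
    refine ⟨ρ ⟨h, hh⟩ y, ?_⟩
    rw [hφ', hy, map_mul]
    rfl
  rcases Parker.irr_sub hM hR with h | h
  · exfalso
    apply h0
    have h3 : φ v₀ ∈ LinearMap.range φ := ⟨v₀, rfl⟩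
    rw [h, Submodule.mem_bot] at h3
    exact h3
  · exact LinearMap.range_eq_top.1 h

end H05_aux

theorem dicho (hρ : ρ.IsIrreducible) (hM : M.IsIrreducible) (φ : V →ₗ[Ω] W)
    (hφ : Function.Injective φ) (hφ' : ∀ (h : B.H) v, φ (ρ h v) = M h (φ v)) (hP : Fit B P)
    (hD : Dg B P D) (hE : (D.on M).Et ≠ 0) (hn : 0 < n) (hw : B.eH ρ ≠ 0) :
    Function.Surjective φ ∨
      ∃ (la : G →* ℤˣ) (Θ : Module.End Ω W), (∀ h ∈ B.H, la h = 1) ∧
        (∀ x ∈ B.T, la x = B.th (fun _ => true) x) ∧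
        (∀ (y : Ty) (i : Fin n), (i : ℕ) = 0 →
          P.r (dl2 y) = (((la (B.s i) : ℤˣ) : ℤ) : k) * P.r y) ∧
        Tw B k M la Θ ∧ (∃ v, ev M (B.e k) v = v ∧ Θ v ≠ 0) ∧
        (∀ v, ev M (B.e k) v = v → Θ (Θ v) = v) ∧
        (∀ v, ev M (B.e k) v = v →
          (2 : Ω) • Parker.act (Parker.rs B.H M) (Parker.es ρ.character) v = v + Θ v) ∧
        ∀ w, (∃ x, φ x = w) ↔ Parker.act (Parker.rs B.H M) (Parker.es ρ.character) w = w := by
  have hχ : ρ.character ∈ Parker.irr Ω B.H := Parker.mem_irr.2 (Parker.mem_irrSet hρ)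
  have hZφ : ∀ v, Parker.act (Parker.rs B.H M) (Parker.es ρ.character) (φ v) = φ v := by
    intro v
    rw [act_eqv (τ := Parker.rs B.H M) φ hφ', Parker.idem_irr hρ]
    rfl
  have hZc : ∀ h ∈ B.H, Parker.act (Parker.rs B.H M) (Parker.es ρ.character) * M h =
      M h * Parker.act (Parker.rs B.H M) (Parker.es ρ.character) := fun h hh =>
    (Parker.idem_comm (Parker.rs B.H M) hχ ⟨h, hh⟩).symm
  have hZZ : ∀ v, Parker.act (Parker.rs B.H M) (Parker.es ρ.character)
      (Parker.act (Parker.rs B.H M) (Parker.es ρ.character) v) =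
        Parker.act (Parker.rs B.H M) (Parker.es ρ.character) v := fun v =>
    congrArg (fun f : Module.End Ω W => f v) (Parker.idem_idem (Parker.rs B.H M) hχ)
  obtain ⟨v₀, hv0, hv1⟩ : ∃ v₀, B.eH ρ v₀ = v₀ ∧ v₀ ≠ 0 := by
    by_contra hcon
    push Not at hcon
    apply hw
    refine LinearMap.ext fun y => ?_
    exact hcon _ (congrArg (fun f : Module.End Ω V => f y)
      (eU_idem (ρ := ρ) (U := B.U.subgroupOf B.H)))
  have hφ0 : φ v₀ ≠ 0 := fun h => hv1 (hφ (by rw [h, map_zero]))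
  have hφe : ev M (B.e k) (φ v₀) = φ v₀ := by
    rw [e_fix]
    intro u hu
    have h1 := eH_fix.1 hv0 u hu
    have h2 := hφ' ⟨u, B.UH hu⟩ v₀
    rw [h1] at h2
    exact h2.symm
  have hmult : ∀ w, Parker.act (Parker.rs B.H M) (Parker.es ρ.character) w = w →
      ∃ x, φ x = w := fun w hw' => mult_one hρ hM φ hφ hφ' hP hD hE hn hv1 hφe hw'
  generalize Parker.act (Parker.rs B.H M) (Parker.es ρ.character) = Z at *
  have hone : ∀ c : Ω, (∀ v, ev M (B.e k) v = v → Z v = c • v) → Function.Surjective φ := by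
    intro c hc
    have h1 := hc _ hφe
    rw [hZφ] at h1
    have h2 : (1 - c) • φ v₀ = 0 := by rw [sub_smul, one_smul, ← h1, sub_self]
    have h3 : c = 1 := by
      rcases smul_eq_zero.1 h2 with h | h
      · exact (sub_eq_zero.1 h).symm
      · exact absurd h hφ0
    refine surj_of hρ hM φ hφ' hφ0 hφe (fun w hw' => ?_) hmult
    rw [hc w hw', h3, one_smul]
  rcases hP.half with hx | ⟨la, h1, h2, h3⟩
  · obtain ⟨c, hc⟩ := comm_scalar hM hD hE hx hZc
    exact Or.inl (hone c hc)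
  obtain ⟨c, Z₁, ht, hc⟩ := comm_split hM hD hE hn h1 h2 hZc
  by_cases hz : ∀ v, ev M (B.e k) v = v → Z₁ v = 0
  · left
    refine hone c fun v hv => ?_
    rw [hc v hv, hz v hv, add_zero]
  right
  push Not at hz
  obtain ⟨v₁, hv₁, hz₁⟩ := hz
  obtain ⟨d, hd⟩ := tw_sq hM ht
  obtain ⟨x, hx, hlx⟩ := exists_neg hn h2
  have key : ∀ v, ev M (B.e k) v = v → (c * c + d - c) • v + (2 * c - 1) • Z₁ v = 0 := by
    intro v hv
    have e1 := hZZ v
    rw [hc v hv, map_add, map_smul, hc v hv, hc _ (ht.mem v hv), hd v hv] at e1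
    have e2 : (c * c + d - c) • v + (2 * c - 1) • Z₁ v =
      (c • (c • v + Z₁ v) + (c • Z₁ v + d • v)) - (c • v + Z₁ v) := by
      module
    rw [e2, e1, sub_self]
  have key2 : ∀ v, ev M (B.e k) v = v → (c * c + d - c) • v - (2 * c - 1) • Z₁ v = 0 := by
    intro v hv
    obtain ⟨e1, e2⟩ := T_mem (k := k) (B := B) (M := M) hx hv
    have e3 := ht.tw x v hv
    rw [e2, (T_mem (k := k) (B := B) (M := M) hx (ht.mem v hv)).2, hlx] at e3
    have e4 := key _ e1
    rw [e3] at e4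
    have e5 : M x ((c * c + d - c) • v - (2 * c - 1) • Z₁ v) = 0 := by
      rw [← e4, map_sub, map_smul, map_smul]
      simp only [Units.val_neg, Units.val_one, Int.cast_neg, Int.cast_one]
      module
    have e6 : M x⁻¹ (M x ((c * c + d - c) • v - (2 * c - 1) • Z₁ v)) =
        (c * c + d - c) • v - (2 * c - 1) • Z₁ v := by
      have e7 : ∀ y, M x⁻¹ (M x y) = y := by
        intro y
        have e8 : M x⁻¹ (M x y) = M (x⁻¹ * x) y := by rw [map_mul]; rfl
        rw [e8, inv_mul_cancel, map_one]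
        rfl
      exact e7 _
    rw [← e6, e5, map_zero]
  have hv1' : v₁ ≠ 0 := fun h => hz₁ (by rw [h, map_zero])
  have two : (2 : Ω) ≠ 0 := two_ne_zero
  have c1 : c * c + d - c = 0 := by
    have h4 : (2 * (c * c + d - c)) • v₁ = 0 := by
      have h5 := key v₁ hv₁
      have h6 := key2 v₁ hv₁
      have h7 : (2 * (c * c + d - c)) • v₁ = ((c * c + d - c) • v₁ + (2 * c - 1) • Z₁ v₁) +
        ((c * c + d - c) • v₁ - (2 * c - 1) • Z₁ v₁) := by module
      rw [h7, h5, h6, add_zero]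
    rcases smul_eq_zero.1 h4 with h | h
    · exact (mul_eq_zero.1 h).resolve_left two
    · exact absurd h hv1'
  have c2 : 2 * c - 1 = 0 := by
    have h4 := key v₁ hv₁
    rw [c1, zero_smul, zero_add] at h4
    exact (smul_eq_zero.1 h4).resolve_right hz₁
  have c3 : 4 * d = 1 := by linear_combination 4 * c1 + (1 - 2 * c) * c2 - 2 * c2 + 2 * c2
  refine ⟨la, (2 : Ω) • Z₁, h1, h2, h3, ⟨fun v hv => ?_, fun g v hv => ?_⟩, ⟨v₁, hv₁, ?_⟩,
    fun v hv => ?_, fun v hv => ?_, fun w => ⟨?_, hmult w⟩⟩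
  · rw [LinearMap.smul_apply, map_smul, ht.mem v hv]
  · rw [LinearMap.smul_apply, LinearMap.smul_apply, ht.tw g v hv, map_smul, smul_comm]
  · rw [LinearMap.smul_apply]
    exact smul_ne_zero two hz₁
  · rw [LinearMap.smul_apply, LinearMap.smul_apply, map_smul, hd v hv, smul_smul, smul_smul]
    have h4 : (2 : Ω) * (2 * d) = 1 := by linear_combination c3
    rw [← mul_assoc] at h4
    rw [h4, one_smul]
  · rw [hc v hv, LinearMap.smul_apply, smul_add, smul_smul]
    have h4 : (2 : Ω) * c = 1 := by linear_combination c2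
    rw [h4, one_smul]
  · rintro ⟨x, rfl⟩
    exact hZφ x

end

end AO
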