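import Pool.Agent.AO.H05
import Pool.Agent.AO.H04
import Pool.Agent.Parker.P15

/-!
# MP_6c3636_al, AO, module H06: the structure in the half case (helper7)

Let `Zψ`, `Θ` be as in `dicho` (H05) and `κ` as in `tw_sn` (H03) for `Z = Θ`. `half_kap`: `φ x = w` is solvable iff `Zψ w = w`; `Zψ (v β + Θ (v β)) = v β + Θ (v β)` from `2 Zψ = 1 + Θ`, `Θ Θ = 1`. `half_sd`: if the character `ψ` of `ρ` is real then `Zψ` is self adjoint for the form `B'` of `M_orth` (`es ψ h⁻¹ = es ψ h`), so `Θ` is self adjoint on the range of `e`: `κ β * nm (dlS β) = κ (dlS β) * nm β`, and with `κ β κ (dlS β) = 1`: the sign in `kap_rel` (H04) is `+`. `half_sig`: write `e (Zψ (v β)) = ∑ h, es ψ h • [h] (v β) = ∑ γ, (∑ h, es ψ h * m_h γ β) • v γ` with `m_h γ β ∈ k` (`M_coef`, L09; `Zψ` commutes with `e`), so `κ β = 2 ∑ h, es ψ h * m_h (dlS β) β`. Apply `σ`: `σ ψ` is an irreducible character of `H`, `σ (es ψ h) = es (σ ψ) h`. So `σ (κ β)` is the same coefficient for `σ ψ`.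 If `σ ψ = ψ`: `σ (κ β) = κ β`. Otherwise: `Z' = act (rs H M) (es (σ ψ))`; `Z' Zψ = 0`. `Z'` is not zero on the range of `e`: its matrix on the range of `e` is obtained from that of `Zψ` by `σ`, which has the diagonal entries `1/2`. `Z' = c + Z₁'`, `Z₁'` a multiple `c' Θ` (H01, H02), `c = 1/2` (diagonal entries), and `Z' (1 + Θ) = 0` on the range of `e`: `c + c' = 0`. So `2 Z' = 1 - Θ`, `σ (κ β) = - κ β`. `surj_sig`: if `φ` is surjective then `ψ` is the restriction of the character of `M`, `M_fx` (L09). `half_dim`: the range of `e Zψ` is `φ (range eH)`, and the trace of `2 Zψ = 1 + Θ` on the range of `e` is the dimension of the range of `e` (`Θ` has trace `0`: `dlS β ≠ β`), which is the number of the `β` (basis).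
-/

namespace AO

noncomputable section

open Classical Equiv

open AN (sq)

variable {k : Type} [Field k] [CharZero k] [Algebra k ℝ] {Ω : Type} [Field Ω] [IsAlgClosed Ω] [CharZero Ω]
  [Algebra k Ω] {G : Type} [Group G] [Finite G] {n : ℕ} {B : BN G n} {P : Par k}
  {D : HA P n (MonoidAlgebra k G)} {W : Type} [AddCommGroup W] [Module Ω W] [FiniteDimensional Ω W]
  {M : Representation Ω G W} {V : Type} [AddCommGroup V] [Module Ω V] [FiniteDimensional Ω V]
  {ρ : Representation Ω B.H V}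

namespace H06_aux

theorem e_e (w : W) : ev M (B.e k) (ev M (B.e k) w) = ev M (B.e k) w := by
  rw [← Module.End.mul_apply, ← map_mul, e_idem]

theorem e_v {F : AO.Et → ℤ} {v : (Fin n → AO.Et) → W}
    (hs : Submodule.span Ω (Set.range (fun β : {β // β ∈ SFT n F} => v β)) =
      LinearMap.range (ev M (B.e k))) {β : Fin n → AO.Et} (hβ : β ∈ SqT n F) :
    ev M (B.e k) (v β) = v β := by
  have h1 : v β ∈ LinearMap.range (ev M (B.e k)) := by
    rw [← hs]
    exact Submodule.subset_span ⟨⟨β, mem_SFT.2 hβ⟩, rfl⟩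
  obtain ⟨w, hw⟩ := h1
  rw [← hw, e_e]

theorem e_M (g : G) {w : W} (hw : ev M (B.e k) w = w) :
    ev M (B.b k g) w = ev M (B.e k) (M g w) := by
  have h1 : ev M (LieP.dl g : LieP.Al k G) = M g := by
    unfold LieP.dl
    rw [ev_single, map_one, one_smul]
  unfold BN.b
  rw [map_mul, map_mul, Module.End.mul_apply, Module.End.mul_apply, hw, h1]

theorem e_act [Fintype B.H] (s : B.H → Ω) {w : W} (hw : ev M (B.e k) w = w) :
    ev M (B.e k) (Parker.act (Parker.rs B.H M) s w) = ∑ h : B.H, s h • ev M (B.b k (h : G)) w := by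
  rw [Parker.act_eq, LinearMap.sum_apply, map_sum]
  refine Finset.sum_congr rfl fun h _ => ?_
  rw [LinearMap.smul_apply, map_smul, e_M (h : G) hw]
  rfl

/-- the matrices of the elements of the group algebra of the subgroup -/
theorem exists_m [Fintype B.H] (hM : M.IsIrreducible) (hP : Fit B P) (hD : Dg B P D) (hn : 0 < n)
    {F : AO.Et → ℤ} {v : (Fin n → AO.Et) → W} (hv : SN (D.on M) F v)
    (hs : Submodule.span Ω (Set.range (fun β : {β // β ∈ SFT n F} => v β)) =
      LinearMap.range (ev M (B.e k))) :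
    ∃ m : B.H → (Fin n → AO.Et) → (Fin n → AO.Et) → k, ∀ s : B.H → Ω, ∀ β ∈ SqT n F,
      ev M (B.e k) (Parker.act (Parker.rs B.H M) s (v β)) =
        ∑ γ ∈ SFT n F, (∑ h : B.H, s h * algebraMap k Ω (m h γ β)) • v γ := by
  choose m hm using fun h : B.H => M_coef hM hP hD hn hv hs (h : G)
  refine ⟨m, fun s β hβ => ?_⟩
  rw [e_act s (e_v hs hβ)]
  simp only [Finset.sum_smul]
  rw [Finset.sum_comm]
  refine Finset.sum_congr rfl fun h _ => ?_
  rw [hm h β hβ, Finset.smul_sum]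
  refine Finset.sum_congr rfl fun γ _ => ?_
  rw [smul_smul]

/-- coefficients of the seminormal basis -/
theorem li {F : AO.Et → ℤ} {v : (Fin n → AO.Et) → W} (hv : SN (D.on M) F v)
    {c : (Fin n → AO.Et) → Ω} {a b : Ω} {β δ : Fin n → AO.Et} (hβ : β ∈ SqT n F) (hδ : δ ∈ SqT n F)
    (hne : δ ≠ β) (h : ∑ γ ∈ SFT n F, c γ • v γ = a • v β + b • v δ) : c β = a ∧ c δ = b := by
  have h1 := hv.li
  rw [Fintype.linearIndependent_iff] at h1
  have e1 : ∀ (x : Ω) (α : Fin n → AO.Et), α ∈ SqT n F →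
      ∑ γ ∈ SFT n F, (if γ = α then x else 0) • v γ = x • v α := by
    intro x α hα
    rw [Finset.sum_eq_single α]
    · rw [if_pos rfl]
    · intro γ _ hγ
      rw [if_neg hγ, zero_smul]
    · intro hα'
      exact absurd (mem_SFT.2 hα) hα'
  have h2 : ∑ γ ∈ SFT n F, (c γ - (if γ = β then a else 0) - (if γ = δ then b else 0)) • v γ = 0 := by
    simp only [sub_smul, Finset.sum_sub_distrib]
    rw [e1 a β hβ, e1 b δ hδ, h]
    abel
  have h3 := h1 (fun γ => c γ - (if (γ : Fin n → AO.Et) = β then a else 0) -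
    (if (γ : Fin n → AO.Et) = δ then b else 0)) ((Finset.sum_coe_sort (SFT n F) (fun γ =>
      (c γ - (if γ = β then a else 0) - (if γ = δ then b else 0)) • v γ)).trans h2)
  have h4 := h3 ⟨β, mem_SFT.2 hβ⟩
  have h5 := h3 ⟨δ, mem_SFT.2 hδ⟩
  simp only [if_true, if_neg hne, if_neg (Ne.symm hne)] at h4 h5
  constructor
  · linear_combination h4
  · linear_combination h5

theorem Et_ne {F : AO.Et → ℤ} {v : (Fin n → AO.Et) → W} (hv : SN (D.on M) F v) :
    (D.on M).Et ≠ 0 := by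
  obtain ⟨β, hβ⟩ := hv.ne
  intro h0
  have h1 := (hv.wt β hβ).1
  have h2 := LinearMap.congr_fun ((D.on M).Et_mul (fun k => lb (β k).1)) (v β)
  rw [Module.End.mul_apply, h1, h0, LinearMap.zero_apply] at h2
  exact hv.nz β hβ h2.symm

end H06_aux

theorem half_kap (φ : V →ₗ[Ω] W) {Θ : Module.End Ω W}
    (hz : ∀ v, ev M (B.e k) v = v → Θ (Θ v) = v) {la : G →* ℤˣ} (hT : Tw B k M la Θ)
    (h2 : ∀ v, ev M (B.e k) v = v →
      (2 : Ω) • Parker.act (Parker.rs B.H M) (Parker.es ρ.character) v = v + Θ v)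
    (h3 : ∀ w, (∃ x, φ x = w) ↔ Parker.act (Parker.rs B.H M) (Parker.es ρ.character) w = w)
    {w : W} (hw : ev M (B.e k) w = w) : ∃ x, φ x = w + Θ w := by
  rw [h3]
  have e1 := h2 w hw
  have e2 := h2 (Θ w) (hT.mem w hw)
  rw [hz w hw] at e2
  have h20 : (2 : Ω) ≠ 0 := two_ne_zero
  have e3 : (2 : Ω) • Parker.act (Parker.rs B.H M) (Parker.es ρ.character) (w + Θ w) =
      (2 : Ω) • (w + Θ w) := by
    rw [map_add, smul_add, e1, e2, two_smul]
    abel
  exact smul_right_injective W h20 e3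

theorem half_sd (hρ : ρ.IsIrreducible) (hM : M.IsIrreducible) (hP : Fit B P) (hD : Dg B P D)
    (hn : 0 < n) {F : AO.Et → ℤ} {v : (Fin n → AO.Et) → W} (hv : SN (D.on M) F v)
    (hs : Submodule.span Ω (Set.range (fun β : {β // β ∈ SFT n F} => v β)) =
      LinearMap.range (ev M (B.e k)))
    {Θ : Module.End Ω W} {la : G →* ℤˣ} (hT : Tw B k M la Θ)
    (hz : ∀ v, ev M (B.e k) v = v → Θ (Θ v) = v)
    (h2 : ∀ v, ev M (B.e k) v = v →
      (2 : Ω) • Parker.act (Parker.rs B.H M) (Parker.es ρ.character) v = v + Θ v)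
    {κ : (Fin n → AO.Et) → Ω}
    (hκ : ∀ β ∈ SqT n F, dlS β ∈ SqT n F ∧ κ β ≠ 0 ∧ Θ (v β) = κ β • v (dlS β))
    (hsd : Parker.SD ρ) :
    ∀ β ∈ SqT n F, κ β ^ 2 * ((P.nm (dlS β) : ℚ) : Ω) = ((P.nm β : ℚ) : Ω) := by
  intro β hβ
  obtain ⟨B', μ, hB, -, hμ, hBv⟩ := M_orth hM hP hD hn hv hs
  obtain ⟨hβ', -, hΘ⟩ := hκ β hβ
  have hB2 : Parker.InvForm (Parker.rs B.H M) B' := ⟨hB.symm, hB.nondeg, fun h x y => hB.inv (h : G) x y⟩
  have hdu : Parker.du (Parker.es ρ.character) = Parker.es ρ.character := by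
    funext h
    unfold Parker.du Parker.es
    rw [hsd h⁻¹]
  have hadj : ∀ x y, B' (Parker.act (Parker.rs B.H M) (Parker.es ρ.character) x) y =
      B' x (Parker.act (Parker.rs B.H M) (Parker.es ρ.character) y) := by
    intro x y
    rw [Parker.act_adj hB2, hdu]
  have hev := H06_aux.e_v hs hβ
  have hev2 := hT.mem _ hev
  have e1 := h2 (v β) hev
  have e2 := h2 (Θ (v β)) hev2
  rw [hz _ hev] at e2
  have h3 := hadj (v β) (Θ (v β))
  have h4 : 2 * B' (Parker.act (Parker.rs B.H M) (Parker.es ρ.character) (v β)) (Θ (v β)) =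
      2 * B' (v β) (Parker.act (Parker.rs B.H M) (Parker.es ρ.character) (Θ (v β))) := by rw [h3]
  have e3 : 2 * B' (Parker.act (Parker.rs B.H M) (Parker.es ρ.character) (v β)) (Θ (v β)) =
      B' (v β) (Θ (v β)) + B' (Θ (v β)) (Θ (v β)) := by
    rw [← smul_eq_mul, ← LinearMap.smul_apply, ← map_smul, e1, map_add, LinearMap.add_apply]
  have e4 : 2 * B' (v β) (Parker.act (Parker.rs B.H M) (Parker.es ρ.character) (Θ (v β))) =
      B' (v β) (Θ (v β)) + B' (v β) (v β) := by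
    rw [← smul_eq_mul, ← map_smul, e2, map_add]
  rw [e3, e4] at h4
  have h5 := add_left_cancel h4
  rw [hΘ, map_smul, map_smul, LinearMap.smul_apply, hBv _ hβ' _ hβ', hBv _ hβ _ hβ, if_pos rfl, if_pos rfl,
    smul_eq_mul, smul_eq_mul] at h5
  apply mul_left_cancel₀ hμ
  rw [← h5]
  ring

theorem half_sig (hρ : ρ.IsIrreducible) (hM : M.IsIrreducible) (hP : Fit B P) (hD : Dg B P D)
    (hn : 0 < n) {F : AO.Et → ℤ} {v : (Fin n → AO.Et) → W} (hv : SN (D.on M) F v)
    (hs : Submodule.span Ω (Set.range (fun β : {β // β ∈ SFT n F} => v β)) =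
      LinearMap.range (ev M (B.e k)))
    {Θ : Module.End Ω W} {la : G →* ℤˣ} (h1 : ∀ h ∈ B.H, la h = 1)
    (hx : ∀ x ∈ B.T, la x = B.th (fun _ => true) x) (hT : Tw B k M la Θ)
    (hz : ∀ v, ev M (B.e k) v = v → Θ (Θ v) = v)
    (h2 : ∀ v, ev M (B.e k) v = v →
      (2 : Ω) • Parker.act (Parker.rs B.H M) (Parker.es ρ.character) v = v + Θ v)
    {κ : (Fin n → AO.Et) → Ω}
    (hκ : ∀ β ∈ SqT n F, dlS β ∈ SqT n F ∧ κ β ≠ 0 ∧ Θ (v β) = κ β • v (dlS β))
    {σ : RingAut Ω} (hσ : ∀ x : k, σ (algebraMap k Ω x) = algebraMap k Ω x) :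
    ∀ β ∈ SqT n F, σ (κ β) = if Parker.Fixes σ ρ then κ β else - κ β := by
  intro β hβ
  have := Fintype.ofFinite B.H
  obtain ⟨hβ', hκ0, hΘ⟩ := hκ β hβ
  have hne : dlS β ≠ β := dlS_ne hn β
  have hev := H06_aux.e_v hs hβ
  have hev' := H06_aux.e_v hs hβ'
  have hev2 := hT.mem _ hev
  have h20 : (2 : Ω) ≠ 0 := two_ne_zero
  obtain ⟨m, hm⟩ := H06_aux.exists_m hM hP hD hn hv hs
  have hψ : ρ.character ∈ Parker.irr Ω B.H := Parker.mem_irr.2 (Parker.mem_irrSet hρ)
  -- the matrix of the idempotent of the character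
  have e1 : Parker.act (Parker.rs B.H M) (Parker.es ρ.character) (v β) =
      (2 : Ω)⁻¹ • v β + ((2 : Ω)⁻¹ * κ β) • v (dlS β) := by
    have e0 := h2 (v β) hev
    rw [hΘ] at e0
    rw [← smul_smul, ← smul_add, ← e0, smul_smul, inv_mul_cancel₀ h20, one_smul]
  have e2 := hm (Parker.es ρ.character) β hβ
  rw [e1, map_add, map_smul, map_smul, hev, hev'] at e2
  obtain ⟨c1, c2⟩ := H06_aux.li hv hβ hβ' hne e2.symm
  -- the action of the automorphism
  have hsig : ∀ γ : Fin n → AO.Et, σ (∑ h : B.H, Parker.es ρ.character h * algebraMap k Ω (m h γ β)) =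
      ∑ h : B.H, Parker.es (fun g => σ (ρ.character g)) h * algebraMap k Ω (m h γ β) := by
    intro γ
    rw [map_sum]
    refine Finset.sum_congr rfl fun h _ => ?_
    rw [map_mul, hσ]
    congr 1
    simp [Parker.es]
  have hs1 := hsig β
  have hs2 := hsig (dlS β)
  rw [c1, map_inv₀, map_ofNat] at hs1
  rw [c2, map_mul, map_inv₀, map_ofNat] at hs2
  by_cases hf : Parker.Fixes σ ρ
  · rw [if_pos hf]
    have hf' : (fun g => σ (ρ.character g)) = ρ.character := funext hf
    rw [hf', c2] at hs2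
    exact mul_left_cancel₀ (inv_ne_zero h20) hs2
  · rw [if_neg hf]
    have hψ' := Parker.sigma_mem_irr hψ σ
    have hne' : (fun g => σ (ρ.character g)) ≠ ρ.character := fun h => hf fun g => congrFun h g
    have horth := Parker.idem_orth (Parker.rs B.H M) hψ' hψ hne'
    obtain ⟨c, Z₁, hT1, hZ⟩ := comm_split hM hD (H06_aux.Et_ne hv) hn h1 hx
      (Z := Parker.act (Parker.rs B.H M) (Parker.es (fun g => σ (ρ.character g)))) (fun h hh =>
        (Parker.idem_comm (Parker.rs B.H M) hψ' ⟨h, hh⟩).symm)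
    obtain ⟨c', hc'⟩ := tw_prop hM hT hT1 ⟨v β, hev, fun h0 => by
      have h3 := hz (v β) hev
      rw [h0, map_zero] at h3
      exact hv.nz β hβ h3.symm⟩
    have hZ' : ∀ w, ev M (B.e k) w = w →
        Parker.act (Parker.rs B.H M) (Parker.es (fun g => σ (ρ.character g))) w = c • w + c' • Θ w := by
      intro w hw
      rw [hZ w hw, hc' w hw]
    have e3 := hm (Parker.es (fun g => σ (ρ.character g))) β hβ
    rw [hZ' _ hev, hΘ, smul_smul, map_add, map_smul, map_smul, hev, hev'] at e3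
    obtain ⟨d1, d2⟩ := H06_aux.li hv hβ hβ' hne e3.symm
    rw [d1] at hs1
    rw [d2] at hs2
    -- the product of the idempotents
    have e4 : Parker.act (Parker.rs B.H M) (Parker.es (fun g => σ (ρ.character g))) (v β + Θ (v β)) = 0 := by
      rw [← h2 _ hev, map_smul, ← Module.End.mul_apply, horth, LinearMap.zero_apply, smul_zero]
    rw [map_add, hZ' _ hev, hZ' _ hev2, hz _ hev, hΘ] at e4
    have e5 : ∑ γ ∈ SFT n F, (fun _ => (0 : Ω)) γ • v γ =
        (c + c') • v β + ((c + c') * κ β) • v (dlS β) := by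
      simp only [zero_smul, Finset.sum_const_zero]
      rw [← e4]
      module
    obtain ⟨d3, -⟩ := H06_aux.li hv hβ hβ' hne e5
    have hcc : c' = -c := by linear_combination -d3
    rw [hcc, ← hs1] at hs2
    have h3 : (2 : Ω)⁻¹ * σ (κ β) = (2 : Ω)⁻¹ * (- κ β) := by rw [hs2]; ring
    exact mul_left_cancel₀ (inv_ne_zero h20) h3

theorem surj_sig (hM : M.IsIrreducible) (φ : V →ₗ[Ω] W) (hφ : Function.Injective φ)
    (hφ' : ∀ (h : B.H) v, φ (ρ h v) = M h (φ v)) (hsu : Function.Surjective φ) (hP : Fit B P)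
    (hD : Dg B P D) (hn : 0 < n) {F : AO.Et → ℤ} {v : (Fin n → AO.Et) → W} (hv : SN (D.on M) F v)
    (hs : Submodule.span Ω (Set.range (fun β : {β // β ∈ SFT n F} => v β)) =
      LinearMap.range (ev M (B.e k))) {σ : RingAut Ω}
    (hσ : ∀ x : k, σ (algebraMap k Ω x) = algebraMap k Ω x) : Parker.Fixes σ ρ := by
  have hfx := M_fx hM hP hD hn hv hs hσ
  intro h
  have he : ρ.character h = M.character (h : G) := by
    let E := LinearEquiv.ofBijective φ ⟨hφ, hsu⟩
    show LinearMap.trace Ω V (ρ h) = LinearMap.trace Ω W (M (h : G))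
    rw [← LinearMap.trace_conj' (ρ h) E]
    congr 1
    ext w
    rw [LinearEquiv.conj_apply_apply]
    show φ (ρ h (E.symm w)) = M (h : G) w
    rw [hφ']
    congr 1
    exact E.apply_symm_apply w
  rw [he]
  exact hfx (h : G)

end

end AO
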