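import Pool.Agent.AO.S06
import Pool.Agent.AO.S05

/-!
# MP_6c3636_al, AO, module S07: the parity theorem (helper7)

`par1`: `AN.vn_nm` (AN/V01.lean) and `AN.parity` (AN/C07.lean), sum over `i ∈ Icc 2 (m + 2)`. `sz`: a constant `c f` which works for all `m`: if `AN.SF m f` is nonempty then `m` is determined by `f` (the number of the entries of `α` is determined by `occ α m = f`: `AN.cn_unique` needs the same length; use: the sum over `x > 0` of `f x` plus the sum over `x ≤ 0` of `1 - f x` weighted, `m = ∑ (x * (f x - [x ≤ 0]))`, each step increases it by `1`); it is enough to choose for every pair `(m, f)` a constant `c m f` and to note that in `par2` the numbers `ct w y` are the same for all words `w` for which the set is nonempty: `ct w y` is determined by `F` (each step of type `y` increases `∑ x, x * (F (y, x) - [x ≤ 0])` by `1`). `par2`: fix a word `w`. By S06 the set of the `β ∈ SFT n F` with the types `w` is in bijection with the product over `y` of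 the sets `AN.SF (ct w y) (fun x => F (y, x))`, and `padicValRat 2 (nmT β) = ∑ y, padicValRat 2 (nm (α y))`. So the sum is `∑ y, (sum for y) * ∏ y' ≠ y, card = (∑ y, c y) * ∏ y, card` by `par1`, `c y` the constant for `(ct w y, F (y, ·))`. Let `C` be `∑ y, c y` (for a word for which the set is nonempty; it does not depend on the word). If `dl` is an involution of the types without fixed points with `F (dl y, x) = F (y, x)` then `ct w (dl y) = ct w y` (if nonempty), `c (dl y) = c y`, so `C = 0`. `parT`: sum over all words. `half_parT`: sum over the words with `w 0 ∈ R`.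
-/

namespace AO

noncomputable section

open Classical Equiv

open AN (sq)

variable {n : ℕ}

namespace S07_aux

theorem cn_len {m m' : ℕ} {α : Fin m → ℤ} {γ : Fin m' → ℤ} (h : AN.occ α m = AN.occ γ m') :
    AN.cn α m = AN.cn γ m' := by
  obtain ⟨M, hM⟩ : ∃ M : ℤ, (∀ i, α i < M) ∧ ∀ i, γ i < M := by
    refine ⟨1 + ∑ i, |α i| + ∑ i, |γ i|, fun i => ?_, fun i => ?_⟩
    · have h1 : |α i| ≤ ∑ i, |α i| :=
        Finset.single_le_sum (f := fun i => |α i|) (fun j _ => abs_nonneg _) (Finset.mem_univ i)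
      have h3 := le_abs_self (α i)
      have h6 : 0 ≤ ∑ i, |γ i| := Finset.sum_nonneg fun j _ => abs_nonneg _
      omega
    · have h2 : |γ i| ≤ ∑ i, |γ i| :=
        Finset.single_le_sum (f := fun i => |γ i|) (fun j _ => abs_nonneg _) (Finset.mem_univ i)
      have h4 := le_abs_self (γ i)
      have h5 : 0 ≤ ∑ i, |α i| := Finset.sum_nonneg fun j _ => abs_nonneg _
      omega
  have hz : ∀ x : ℤ, M ≤ x → AN.cn α m x = AN.cn γ m' x := by
    intro x hx
    rw [AN.C01_aux.cn_eq_zero (fun j => by have := hM.1 j; omega),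
      AN.C01_aux.cn_eq_zero (fun j => by have := hM.2 j; omega)]
  have hstep : ∀ x : ℤ, AN.cn α m x = AN.cn γ m' x → AN.cn α m (x - 1) = AN.cn γ m' (x - 1) := by
    intro x hx
    have h1 := congrFun h x
    unfold AN.occ at h1
    omega
  have hall : ∀ k : ℕ, AN.cn α m (M - k) = AN.cn γ m' (M - k) := by
    intro k
    induction k with
    | zero => exact hz _ (by simp)
    | succ k ih =>
      have h1 := hstep _ ih
      have h2 : M - (k : ℤ) - 1 = M - ((k + 1 : ℕ) : ℤ) := by push_cast; ring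
      rw [h2] at h1
      exact h1
  funext x
  rcases le_total M x with hx | hx
  · exact hz x hx
  · obtain ⟨k, hk⟩ := Int.eq_ofNat_of_zero_le (sub_nonneg.2 hx)
    have h1 := hall k
    rw [← hk] at h1
    rw [show M - (M - x) = x by ring] at h1
    exact h1

theorem len_sum {m : ℕ} (α : Fin m → ℤ) {N : ℤ} (h : ∀ i, α i ∈ Finset.Icc (-N) N) :
    m = ∑ x ∈ Finset.Icc (-N) N, AN.cn α m x := by
  have h1 := Finset.card_eq_sum_card_fiberwise (s := (Finset.univ : Finset (Fin m))) (t := Finset.Icc (-N) N)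
    (f := α) (fun i _ => h i)
  rw [Finset.card_univ, Fintype.card_fin] at h1
  have h2 : ∀ x, AN.cn α m x = (Finset.univ.filter (fun j : Fin m => α j = x)).card := by
    intro x
    unfold AN.cn
    congr 1
    ext j
    simp only [Finset.mem_filter, Finset.mem_univ, true_and]
    exact ⟨fun h => h.2, fun h => ⟨j.isLt, h⟩⟩
  rw [Finset.sum_congr rfl fun x _ => h2 x]
  exact h1

/-- the length is determined by the shape -/
theorem len {m m' : ℕ} {α : Fin m → ℤ} {γ : Fin m' → ℤ} (h : AN.occ α m = AN.occ γ m') : m = m' := by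
  obtain ⟨N, hN1, hN2⟩ : ∃ N : ℤ, (∀ i, α i ∈ Finset.Icc (-N) N) ∧ ∀ i, γ i ∈ Finset.Icc (-N) N := by
    refine ⟨∑ i, |α i| + ∑ i, |γ i|, fun i => ?_, fun i => ?_⟩
    · have h1 : |α i| ≤ ∑ i, |α i| :=
        Finset.single_le_sum (f := fun i => |α i|) (fun j _ => abs_nonneg _) (Finset.mem_univ i)
      have h6 : 0 ≤ ∑ i, |γ i| := Finset.sum_nonneg fun j _ => abs_nonneg _
      rw [Finset.mem_Icc, ← abs_le]
      omega
    · have h1 : |γ i| ≤ ∑ i, |γ i| :=
        Finset.single_le_sum (f := fun i => |γ i|) (fun j _ => abs_nonneg _) (Finset.mem_univ i)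
      have h6 : 0 ≤ ∑ i, |α i| := Finset.sum_nonneg fun j _ => abs_nonneg _
      rw [Finset.mem_Icc, ← abs_le]
      omega
  calc m = ∑ x ∈ Finset.Icc (-N) N, AN.cn α m x := len_sum α hN1
    _ = ∑ x ∈ Finset.Icc (-N) N, AN.cn γ m' x := by rw [cn_len h]
    _ = m' := (len_sum γ hN2).symm

/-- the sequences with the types `w` -/
theorem bw_mem {F : Et → ℤ} {w : Fin n → Ty} {β : Fin n → Et} (hw : ∀ k, (β k).1 = w k) :
    β ∈ SFT n F ↔ ∀ y, pr w β y ∈ AN.SF (ct w y) (fun x => F (y, x)) := by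
  rw [mem_SFT]
  constructor
  · rintro ⟨h1, h2⟩ y
    rw [AN.mem_SF]
    refine ⟨(LgT_pr hw).1 h1 y, ?_⟩
    funext x
    rw [← occT_pr hw y x, h2]
  · intro h
    refine ⟨(LgT_pr hw).2 fun y => (AN.mem_SF.1 (h y)).1, ?_⟩
    funext z
    obtain ⟨y, x⟩ := z
    rw [occT_pr hw y x, (AN.mem_SF.1 (h y)).2]

/-- the number of the letters is determined by the shape -/
theorem ct_eq {F : Et → ℤ} {w w' : Fin n → Ty} {β γ : Fin n → Et} (hw : ∀ k, (β k).1 = w k)
    (hw' : ∀ k, (γ k).1 = w' k) (hβ : β ∈ SFT n F) (hγ : γ ∈ SFT n F) {y y' : Ty}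
    (hy : ∀ x, F (y, x) = F (y', x)) : ct w y = ct w' y' := by
  have h1 := (AN.mem_SF.1 ((bw_mem hw).1 hβ y)).2
  have h2 := (AN.mem_SF.1 ((bw_mem hw').1 hγ y')).2
  refine len (α := pr w β y) (γ := pr w' γ y') ?_
  rw [h1, h2]
  funext x
  exact hy x

/-- sums over products of finite sets -/
theorem sum_pi {ι : Type} [Fintype ι] [DecidableEq ι] {X : ι → Type} [∀ i, DecidableEq (X i)] (T : ∀ i, Finset (X i))
    (h : ∀ i, X i → ZMod 2) (c : ι → ZMod 2) (hc : ∀ i, ∑ a ∈ T i, h i a = c i * ((T i).card : ZMod 2)) :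
    ∑ f ∈ Fintype.piFinset T, ∑ i, h i (f i) = (∑ i, c i) * ((Fintype.piFinset T).card : ZMod 2) := by
  rw [Finset.sum_comm, Finset.sum_mul]
  refine Finset.sum_congr rfl fun y _ => ?_
  have h1 : ∀ f : ∀ i, X i, h y (f y) = ∏ i, if i = y then h i (f i) else 1 := by
    intro f
    rw [Finset.prod_ite_eq' Finset.univ y, if_pos (Finset.mem_univ _)]
  have h2 : ∑ f ∈ Fintype.piFinset T, h y (f y) =
      ∏ i, ∑ a ∈ T i, (if i = y then h i a else 1) := by
    rw [Finset.prod_univ_sum]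
    exact Finset.sum_congr rfl fun f _ => h1 f
  have h3 : ∀ i, ∑ a ∈ T i, (if i = y then h i a else 1) = (if i = y then c i else 1) * ((T i).card : ZMod 2) := by
    intro i
    by_cases hi : i = y
    · simp only [if_pos hi]
      exact hc i
    · simp only [if_neg hi]
      rw [Finset.sum_const, nsmul_eq_mul, mul_one, one_mul]
  rw [h2, Finset.prod_congr rfl fun i _ => h3 i, Finset.prod_mul_distrib, Finset.prod_ite_eq' Finset.univ y,
    if_pos (Finset.mem_univ _), Fintype.card_piFinset, Nat.cast_prod]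

end S07_aux

open S07_aux

theorem par1 (m : ℕ) (f : ℤ → ℤ) :
    ∃ c : ZMod 2, ∑ α ∈ AN.SF m f, ((padicValRat 2 (AN.nm α) : ℤ) : ZMod 2) =
      c * ((AN.SF m f).card : ZMod 2) := by
  have h1 : ∀ i : ℕ, ∃ c : ZMod 2, 2 ≤ i → ∑ α ∈ AN.SF m f, ((AN.dq ((2 ^ i : ℕ) : ℤ) α : ℕ) : ZMod 2) =
      c * ((AN.SF m f).card : ZMod 2) := by
    intro i
    by_cases hi : 2 ≤ i
    · obtain ⟨c, hc⟩ := AN.parity m hi f
      exact ⟨c, fun _ => hc⟩
    · exact ⟨0, fun h => absurd h hi⟩
  choose c hc using h1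
  refine ⟨∑ i ∈ Finset.Icc 2 (m + 2), c i, ?_⟩
  have h2 : ∀ α ∈ AN.SF m f, ((padicValRat 2 (AN.nm α) : ℤ) : ZMod 2) =
      ∑ i ∈ Finset.Icc 2 (m + 2), ((AN.dq ((2 ^ i : ℕ) : ℤ) α : ℕ) : ZMod 2) := by
    intro α hα
    obtain ⟨z, hz⟩ := AN.vn_nm (AN.mem_SF.1 hα).1
    have h3 : (2 : ZMod 2) = 0 := rfl
    rw [hz, Int.cast_add, Int.cast_mul, Int.cast_ofNat, h3, zero_mul, zero_add, Int.cast_sum]
    refine Finset.sum_congr rfl fun i _ => ?_
    rw [Int.cast_natCast]
  rw [Finset.sum_congr rfl h2, Finset.sum_comm, Finset.sum_mul]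
  exact Finset.sum_congr rfl fun i hi => hc i (Finset.mem_Icc.1 hi).1

namespace S07_aux

/-- the constant -/
def cc (m : ℕ) (f : ℤ → ℤ) : ZMod 2 := (par1 m f).choose

theorem word (n : ℕ) (F : Et → ℤ) (w : Fin n → Ty) :
    ∑ β ∈ (SFT n F).filter (fun β => ∀ k, (β k).1 = w k), ((padicValRat 2 (nmT β) : ℤ) : ZMod 2) =
      (∑ y, cc (ct w y) (fun x => F (y, x))) *
        (((SFT n F).filter (fun β => ∀ k, (β k).1 = w k)).card : ZMod 2) := by
  have h1 := sum_pi (fun y => AN.SF (ct w y) (fun x => F (y, x)))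
    (fun y a => ((padicValRat 2 (AN.nm a) : ℤ) : ZMod 2)) (fun y => cc (ct w y) (fun x => F (y, x)))
    (fun y => (par1 (ct w y) (fun x => F (y, x))).choose_spec)
  have hmem : ∀ β ∈ (SFT n F).filter (fun β => ∀ k, (β k).1 = w k),
      (fun y => pr w β y) ∈ Fintype.piFinset (fun y => AN.SF (ct w y) (fun x => F (y, x))) := by
    intro β hβ
    rw [Finset.mem_filter] at hβ
    rw [Fintype.mem_piFinset]
    exact (bw_mem hβ.2).1 hβ.1
  have hinj : ∀ β ∈ (SFT n F).filter (fun β => ∀ k, (β k).1 = w k),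
      ∀ γ ∈ (SFT n F).filter (fun β => ∀ k, (β k).1 = w k),
      (fun y => pr w β y) = (fun y => pr w γ y) → β = γ := by
    intro β hβ γ hγ h
    exact pr_inj (Finset.mem_filter.1 hβ).2 (Finset.mem_filter.1 hγ).2 fun y => congrFun h y
  have hsurj : ∀ f ∈ Fintype.piFinset (fun y => AN.SF (ct w y) (fun x => F (y, x))),
      ∃ β, ∃ _ : β ∈ (SFT n F).filter (fun β => ∀ k, (β k).1 = w k), (fun y => pr w β y) = f := by
    intro f hf
    obtain ⟨β, hβ1, hβ2⟩ := pr_surj w f
    refine ⟨β, ?_, funext hβ2⟩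
    rw [Finset.mem_filter]
    refine ⟨(bw_mem hβ1).2 fun y => ?_, hβ1⟩
    rw [hβ2 y]
    exact Fintype.mem_piFinset.1 hf y
  have hcard : ((SFT n F).filter (fun β => ∀ k, (β k).1 = w k)).card =
      (Fintype.piFinset (fun y => AN.SF (ct w y) (fun x => F (y, x)))).card :=
    Finset.card_bij (fun β _ => fun y => pr w β y) hmem hinj hsurj
  have hsum : ∑ β ∈ (SFT n F).filter (fun β => ∀ k, (β k).1 = w k), ((padicValRat 2 (nmT β) : ℤ) : ZMod 2) =
      ∑ f ∈ Fintype.piFinset (fun y => AN.SF (ct w y) (fun x => F (y, x))),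
        ∑ y, ((padicValRat 2 (AN.nm (f y)) : ℤ) : ZMod 2) := by
    refine Finset.sum_bij (fun β _ => fun y => pr w β y) hmem hinj hsurj fun β hβ => ?_
    rw [nmT_pr (Finset.mem_filter.1 hβ).2, AN.V01_aux.val_prod _ _ fun y _ => (AN.nm_pos _).ne', Int.cast_sum]
  rw [hsum, hcard]
  exact h1

end S07_aux

theorem par2 (n : ℕ) (F : Et → ℤ) :
    ∃ C : ZMod 2, (∀ w : Fin n → Ty,
      ∑ β ∈ (SFT n F).filter (fun β => ∀ k, (β k).1 = w k), ((padicValRat 2 (nmT β) : ℤ) : ZMod 2) =
        C * (((SFT n F).filter (fun β => ∀ k, (β k).1 = w k)).card : ZMod 2)) ∧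
      ∀ dl : Ty → Ty, (∀ y, dl y ≠ y) → (∀ y, dl (dl y) = y) → (∀ y x, F (dl y, x) = F (y, x)) →
        (SFT n F).Nonempty → C = 0 := by
  rcases (SFT n F).eq_empty_or_nonempty with hE | ⟨β₀, hβ₀⟩
  · refine ⟨0, fun w => ?_, fun _ _ _ _ _ => rfl⟩
    rw [hE, Finset.filter_empty, Finset.sum_empty, zero_mul]
  have hw0 : ∀ k, (β₀ k).1 = (fun k => (β₀ k).1) k := fun _ => rfl
  refine ⟨∑ y, cc (ct (fun k => (β₀ k).1) y) (fun x => F (y, x)), fun w => ?_, ?_⟩
  · rcases ((SFT n F).filter (fun β => ∀ k, (β k).1 = w k)).eq_empty_or_nonempty with h0 | ⟨β, hβ⟩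
    · rw [h0, Finset.sum_empty, Finset.card_empty, Nat.cast_zero, mul_zero]
    · rw [Finset.mem_filter] at hβ
      rw [word]
      congr 1
      refine Finset.sum_congr rfl fun y _ => ?_
      rw [ct_eq hβ.2 hw0 hβ.1 hβ₀ (y := y) (y' := y) fun _ => rfl]
  · intro dl h1 h2 h3 _
    refine Finset.sum_involution (fun y _ => dl y) ?_ ?_ ?_ ?_
    · intro y _
      have h4 : (fun x => F (dl y, x)) = fun x => F (y, x) := funext fun x => h3 y x
      rw [h4, ct_eq hw0 hw0 hβ₀ hβ₀ (y := dl y) (y' := y) fun x => h3 y x]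
      exact CharTwo.add_self_eq_zero _
    · intro y _ _
      exact h1 y
    · intro y _
      exact Finset.mem_univ _
    · intro y _
      exact h2 y

namespace S07_aux

/-- the sum over the sequences whose word satisfies `R` -/
theorem sum_R (n : ℕ) (F : Et → ℤ) (R : (Fin n → Ty) → Prop) {C : ZMod 2} (hC : ∀ w : Fin n → Ty,
      ∑ β ∈ (SFT n F).filter (fun β => ∀ k, (β k).1 = w k), ((padicValRat 2 (nmT β) : ℤ) : ZMod 2) =
        C * (((SFT n F).filter (fun β => ∀ k, (β k).1 = w k)).card : ZMod 2)) :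
    ∑ β ∈ (SFT n F).filter (fun β => R (fun k => (β k).1)), ((padicValRat 2 (nmT β) : ℤ) : ZMod 2) =
      C * (((SFT n F).filter (fun β => R (fun k => (β k).1))).card : ZMod 2) := by
  have h1 : ∀ w : Fin n → Ty, ((SFT n F).filter (fun β => R (fun k => (β k).1))).filter
      (fun β => (fun k => (β k).1) = w) = if R w then (SFT n F).filter (fun β => ∀ k, (β k).1 = w k) else ∅ := by
    intro w
    ext β
    by_cases hR : R w
    · rw [if_pos hR, Finset.mem_filter, Finset.mem_filter, Finset.mem_filter]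
      constructor
      · rintro ⟨⟨h1, _⟩, h3⟩
        exact ⟨h1, fun k => congrFun h3 k⟩
      · rintro ⟨h1, h2⟩
        have h3 : (fun k => (β k).1) = w := funext h2
        refine ⟨⟨h1, ?_⟩, h3⟩
        rw [h3]
        exact hR
    · rw [if_neg hR, Finset.mem_filter, Finset.mem_filter]
      constructor
      · rintro ⟨⟨_, h2⟩, h3⟩
        rw [h3] at h2
        exact absurd h2 hR
      · intro h
        exact absurd h (Finset.notMem_empty _)
  have h2 : ∀ w : Fin n → Ty, ∑ β ∈ ((SFT n F).filter (fun β => R (fun k => (β k).1))).filter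
      (fun β => (fun k => (β k).1) = w), ((padicValRat 2 (nmT β) : ℤ) : ZMod 2) =
      C * ((((SFT n F).filter (fun β => R (fun k => (β k).1))).filter
        (fun β => (fun k => (β k).1) = w)).card : ZMod 2) := by
    intro w
    rw [h1]
    by_cases hR : R w
    · rw [if_pos hR]
      exact hC w
    · rw [if_neg hR, Finset.sum_empty, Finset.card_empty, Nat.cast_zero, mul_zero]
  rw [← Finset.sum_fiberwise _ (fun β : Fin n → Et => fun k => (β k).1), Finset.sum_congr rfl fun w _ => h2 w,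
    ← Finset.mul_sum, ← Nat.cast_sum]
  congr 2
  exact (Finset.card_eq_sum_card_fiberwise (f := fun β : Fin n → Et => fun k => (β k).1)
    (t := Finset.univ) fun β _ => Finset.mem_univ _).symm

theorem even_of {K : Type} [Field K] (P : Par K) (s : Finset (Fin n → Et))
    (h : ∑ β ∈ s, ((padicValRat 2 (nmT β) : ℤ) : ZMod 2) = 0) : Even (padicValRat 2 (∏ β ∈ s, P.nm β)) := by
  by_cases h0 : ∏ β ∈ s, P.nm β = 0
  · rw [h0, padicValRat.zero]
    exact Even.zero
  · rw [AN.V01_aux.val_prod _ _ fun β hβ => Finset.prod_ne_zero_iff.1 h0 β hβ]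
    have h1 : ((∑ β ∈ s, padicValRat 2 (P.nm β) : ℤ) : ZMod 2) = 0 := by
      rw [Int.cast_sum, ← h]
      refine Finset.sum_congr rfl fun β _ => ?_
      obtain ⟨z, hz⟩ := nm_val (P := P) β
      have h3 : (2 : ZMod 2) = 0 := rfl
      rw [hz, Int.cast_add, Int.cast_mul, Int.cast_ofNat, h3, zero_mul, zero_add]
    have h2 := (ZMod.intCast_zmod_eq_zero_iff_dvd _ 2).1 h1
    exact even_iff_two_dvd.2 h2

end S07_aux

theorem parT {K : Type} [Field K] (P : Par K) (n : ℕ) (F : Et → ℤ) (h : Even (SFT n F).card) :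
    Even (padicValRat 2 (∏ β : {β // β ∈ SFT n F}, P.nm (β : Fin n → Et))) := by
  obtain ⟨C, hC, -⟩ := par2 n F
  rw [Finset.prod_coe_sort (SFT n F) (fun β => P.nm β)]
  apply even_of
  have h1 := sum_R n F (fun _ => True) hC
  rw [Finset.filter_true] at h1
  rw [h1, (ZMod.natCast_eq_zero_iff _ 2).2 (even_iff_two_dvd.1 h), mul_zero]

theorem half_parT {K : Type} [Field K] (P : Par K) (n : ℕ) (F : Et → ℤ) (dl : Ty → Ty) (h1 : ∀ y, dl y ≠ y)
    (h2 : ∀ y, dl (dl y) = y) (h3 : ∀ y x, F (dl y, x) = F (y, x)) (R : (Fin n → Ty) → Prop) :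
    Even (padicValRat 2 (∏ β ∈ (SFT n F).filter (fun β => R (fun k => (β k).1)), P.nm β)) := by
  obtain ⟨C, hC, hC'⟩ := par2 n F
  apply even_of
  rw [sum_R n F R hC]
  rcases (SFT n F).eq_empty_or_nonempty with hE | hne
  · rw [hE, Finset.filter_empty, Finset.card_empty, Nat.cast_zero, mul_zero]
  · rw [hC' dl h1 h2 h3 hne, zero_mul]

end

end AO
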