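import Pool.Agent.AO.H05
import Pool.Agent.AO.H06
import Pool.Agent.AO.L10
import Pool.Agent.AO.S07
import Pool.Agent.AO.A04

/-!
# MP_6c3636_al, AO, module H07: property (A) for typed representations (helper7)

`L08` (`exists_snB`) gives `F`, `v`; `L09` (`M_orth`) the form `B'` and `μ`. Put `B_V x y = B' (φ x) (φ y)`: symmetric, invariant under `H`. `dicho` (H05). CASE 1, `φ` surjective: `B_V` is nondegenerate, the preimages of the `v β` are a basis of the range of `eH` (which is mapped onto the range of `e`), indexed by `{β // β ∈ SFT n F}`, `B_V = μ nm β` on the diagonal; the coordinates of `eH (ρ h (b β))` are those of `[h] (v β)`, in the image of `k` (`M_coef`, L09), fixed by `Γ` (`hk`). The number of the `β` is even by `hev`; `parT` (S07). `cut3` (A04). CASE 2: `half_kap`, `κ` from `tw_sn` (H03). Let `R` be the set of the `β ∈ SFT n F` with `lb (β 0).1 = false`; `dlS` exchanges `R` and its complement. Put `w β ∈ V` with `φ (w β) = v β + κ β • v (dlS β)`, `β ∈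 R`. They are a basis of the range of `eH`: linearly independent; they span: `φ x = w'`, `e w' = w'` implies `w' = Zψ w' = 1/2 (w' + Θ w')`, and `w'` is a combination of the `v β`, `w' + Θ w'` is a combination of the `v β + Θ (v β)`, and `v (dlS β) + Θ (v (dlS β)) = (κ β)⁻¹ • (v β + κ β • v (dlS β))` (`κ β κ (dlS β) = 1`). `B_V (w β) (w γ) = 0` for `β ≠ γ` in `R` and `B_V (w β) (w β) = μ (nm β + κ β ^ 2 nm (dlS β)) = 2 μ nm β` by `half_sd` (H06; `ρ` is orthogonal, so self dual: `Parker.sd_of_orth`). So `B_V` is not zero; it is nondegenerate as `ρ` is irreducible (its radical is stable). Use `2 μ` for `μ` and `d β = nm β`. The coordinates: `[h] (v β + Θ (v β)) = (1 + Θ) [h] (v β)` for `h ∈ H` (`la h = 1`), `[h] (v β) = ∑ m γ • v γ`, `m γ` in the image of `k`, and `(1 + Θ) (v γ) = w γ` or `(κ (dlS γ))⁻¹...`: a multiple of `w (dlS γ)` by `κ γ`-factors, fixed by `Γ` by `half_sig` (H06) as `Fixes σ ρ` for `σ ∈ Γ` (`hF`). The number of the elements of `R` is the dimension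 of the range of `eH`, even; `half_parT` (S07) with `dl = dl2` (`dlS_F`, H03) and the predicate `fun w => lb (w 0) = false` gives the parity of the product over `R`. `cut3`.
-/

namespace AO

noncomputable section

open Classical Equiv

open AN (sq)

variable {k : Type} [Field k] [CharZero k] [Algebra k ℝ] {Ω : Type} [Field Ω] [IsAlgClosed Ω] [CharZero Ω]
  [Algebra k Ω] {G : Type} [Group G] [Finite G] {n : ℕ} {B : BN G n} {P : Par k}
  {D : HA P n (MonoidAlgebra k G)} {W : Type} [AddCommGroup W] [Module Ω W] [FiniteDimensional Ω W]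
  {M : Representation Ω G W} {V : Type} [AddCommGroup V] [Module Ω V] [FiniteDimensional Ω V]
  {ρ : Representation Ω B.H V}

/-- the operator of the average of `U` -/
private theorem ev_e_eq (M : Representation Ω G W) : ev M (B.e k) = eU B.U M := by
  rw [ev_act]
  unfold eU
  congr 1
  funext g
  show algebraMap k Ω ((LieP.av k B.U).coeff g) = _
  rw [LieP.coeff_av]
  split_ifs
  · rw [map_inv₀, map_natCast]
  · rw [map_zero]

private theorem card_UH : Nat.card (B.U.subgroupOf B.H) = Nat.card B.U :=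
  Nat.card_congr (Subgroup.subgroupOfEquivOfLe B.UH).toEquiv

private theorem phi_e (φ : V →ₗ[Ω] W) (hφ' : ∀ (h : B.H) v, φ (ρ h v) = M h (φ v)) (x : V) :
    φ (B.eH ρ x) = ev M (B.e k) (φ x) := by
  rw [ev_e_eq]
  have h1 : eU B.U M (φ (B.eH ρ x)) = φ (B.eH ρ x) := by
    rw [eU_fix]
    intro u hu
    have h2 : ρ ⟨u, B.UH hu⟩ (B.eH ρ x) = B.eH ρ x := by
      have h3 := (eU_mul (ρ := ρ) (U := B.U.subgroupOf B.H) (u := ⟨u, B.UH hu⟩)
        (by rw [Subgroup.mem_subgroupOf]; exact hu)).1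
      exact congrArg (fun f : Module.End Ω V => f x) h3
    rw [← hφ' ⟨u, B.UH hu⟩, h2]
  rw [← h1]
  letI := Fintype.ofFinite B.H
  have h4 : B.eH ρ x = ∑ h : B.H, (if h ∈ B.U.subgroupOf B.H then
      (Nat.card (B.U.subgroupOf B.H) : Ω)⁻¹ else 0) • ρ h x := by
    show Parker.act ρ _ x = _
    rw [Parker.act_eq, LinearMap.sum_apply]
    rfl
  rw [h4, map_sum, map_sum]
  have h5 : ∀ h : B.H, eU B.U M (φ ((if h ∈ B.U.subgroupOf B.H then
      (Nat.card (B.U.subgroupOf B.H) : Ω)⁻¹ else 0) • ρ h x)) =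
      (if h ∈ B.U.subgroupOf B.H then (Nat.card (B.U.subgroupOf B.H) : Ω)⁻¹ else 0) •
        eU B.U M (φ x) := by
    intro h
    rw [map_smul, map_smul]
    split_ifs with hh
    · rw [hφ']
      have h6 := (eU_mul (ρ := M) (U := B.U) (u := (h : G))
        (by rw [Subgroup.mem_subgroupOf] at hh; exact hh)).2
      congr 1
      exact congrArg (fun f : Module.End Ω W => f (φ x)) h6
    · rw [zero_smul, zero_smul]
  rw [Finset.sum_congr rfl fun h _ => h5 h, ← Finset.sum_smul]
  have h7 : (∑ h : B.H, if h ∈ B.U.subgroupOf B.H then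
      (Nat.card (B.U.subgroupOf B.H) : Ω)⁻¹ else 0) = 1 := by
    rw [← Finset.sum_filter, Finset.sum_const, nsmul_eq_mul]
    have h8 : (Finset.univ.filter (fun h : B.H => h ∈ B.U.subgroupOf B.H)).card =
        Nat.card (B.U.subgroupOf B.H) := by
      rw [Nat.card_eq_fintype_card, Fintype.card_subtype]
    rw [h8, mul_inv_cancel₀]
    exact Nat.cast_ne_zero.mpr Nat.card_pos.ne'
  rw [h7, one_smul]

/-- the sequences whose types have the property `R` -/
private def RF (F : AO.Et → ℤ) (R : (Fin n → Ty) → Prop) : Finset (Fin n → AO.Et) :=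
  (SFT n F).filter (fun β => R (fun k => (β k).1))

private theorem mem_RF {F : AO.Et → ℤ} {R : (Fin n → Ty) → Prop} {β : Fin n → AO.Et} :
    β ∈ RF F R ↔ β ∈ SqT n F ∧ R (fun k => (β k).1) := by
  unfold RF
  rw [Finset.mem_filter, mem_SFT]

/-- the common part of the two cases -/
private theorem core {c : Parker.Ctx Ω} {Γ : Subgroup (RingAut Ω)} (hΓ : Parker.Ok c 1 Γ)
    (hρ : ρ.IsIrreducible) (hF : Parker.FxC Γ ρ)
    (φ : V →ₗ[Ω] W) (hφ : Function.Injective φ) (hφ' : ∀ (h : B.H) v, φ (ρ h v) = M h (φ v))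
    {B' : LinearMap.BilinForm Ω W} (hB' : Parker.InvForm M B') (hw : B.eH ρ ≠ 0)
    (hev : Even (Module.finrank Ω (LinearMap.range (B.eH ρ))))
    {ι : Type} [Fintype ι] (w : ι → W) (hw1 : ∀ i, ∃ x, φ x = w i)
    (hw2 : ∀ i, ev M (B.e k) (w i) = w i) {d : ι → ℚ} (hd : ∀ i, d i ≠ 0) {μ : Ω} (hμ : μ ≠ 0)
    (hw3 : ∀ i j, B' (w i) (w j) = if i = j then μ * (d i : Ω) else 0)
    (hw4 : ∀ x, ev M (B.e k) (φ x) = φ x → φ x ∈ Submodule.span Ω (Set.range w))
    (hw5 : ∀ (h : G), h ∈ B.H → ∀ j, ∃ m : ι → Ω, (∀ i, Parker.Fx Γ (m i)) ∧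
      ev M (B.e k) (M h (w j)) = ∑ i, m i • w i)
    (hv : Even (Fintype.card ι) → Even (padicValRat 2 (∏ i, d i))) : Parker.GoodV c Γ ρ := by
  choose x hx using hw1
  have hx1 : ∀ i, B.eH ρ (x i) = x i := by
    intro i
    apply hφ
    rw [phi_e (k := k) φ hφ', hx, hw2]
  have hli : ∀ m : ι → Ω, ∑ i, m i • w i = 0 → ∀ j, m j = 0 := by
    intro m hm j
    have h1 : B' (∑ i, m i • w i) (w j) = m j * (μ * (d j : Ω)) := by
      rw [map_sum, LinearMap.sum_apply, Finset.sum_eq_single j]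
      · rw [map_smul, LinearMap.smul_apply, smul_eq_mul, hw3, if_pos rfl]
      · intro i _ hij
        rw [map_smul, LinearMap.smul_apply, smul_eq_mul, hw3, if_neg hij, mul_zero]
      · intro h
        exact absurd (Finset.mem_univ j) h
    rw [hm, map_zero, LinearMap.zero_apply] at h1
    have h2 : μ * (d j : Ω) ≠ 0 := mul_ne_zero hμ (Rat.cast_ne_zero.mpr (hd j))
    exact (mul_eq_zero.mp h1.symm).resolve_right h2
  have hspan : ∀ y, B.eH ρ y = y → ∃ m : ι → Ω, y = ∑ i, m i • x i := by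
    intro y hy
    have h1 := hw4 y (by rw [← phi_e (k := k) φ hφ', hy])
    obtain ⟨m, hm⟩ := (Submodule.mem_span_range_iff_exists_fun Ω).mp h1
    refine ⟨m, hφ ?_⟩
    rw [map_sum, ← hm]
    exact Finset.sum_congr rfl fun i _ => by rw [map_smul, hx]
  -- the index type is nonempty
  have hne : Nonempty ι := by
    by_contra hne
    have hemp : IsEmpty ι := not_nonempty_iff.mp hne
    apply hw
    ext y
    have h1 : B.eH ρ (B.eH ρ y) = B.eH ρ y := by
      have h2 := eU_idem (ρ := ρ) (U := B.U.subgroupOf B.H)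
      exact congrArg (fun f : Module.End Ω V => f y) h2
    obtain ⟨m, hm⟩ := hspan _ h1
    rw [hm, Finset.univ_eq_empty, Finset.sum_empty]
    rfl
  obtain ⟨i₀⟩ := hne
  -- the form
  set BV : LinearMap.BilinForm Ω V := B'.comp φ φ with hBV
  have hBVa : ∀ a b, BV a b = B' (φ a) (φ b) := fun a b => rfl
  have hinv : ∀ (g : B.H) a b, BV (ρ g a) (ρ g b) = BV a b := by
    intro g a b
    rw [hBVa, hBVa, hφ', hφ', hB'.inv]
  have hnd : ∀ a, (∀ b, BV a b = 0) → a = 0 := by
    let rad : Submodule Ω V :=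
      { carrier := {a | ∀ b, BV a b = 0}
        add_mem' := by
          intro a a' ha ha' b
          rw [map_add, LinearMap.add_apply, ha b, ha' b, add_zero]
        zero_mem' := by
          intro b
          rw [map_zero, LinearMap.zero_apply]
        smul_mem' := by
          intro r a ha b
          rw [map_smul, LinearMap.smul_apply, ha b, smul_zero] }
    have hst : ∀ g a, a ∈ rad → ρ g a ∈ rad := by
      intro g a ha b
      have h1 := hinv g a (ρ g⁻¹ b)
      have h2 : ρ g (ρ g⁻¹ b) = b := by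
        rw [← Module.End.mul_apply, ← map_mul, mul_inv_cancel, map_one, Module.End.one_apply]
      rw [h2] at h1
      rw [h1]
      exact ha _
    have hrad : rad = ⊥ ∨ rad = ⊤ := Parker.irr_sub hρ hst
    rcases hrad with hr | hr
    · intro a ha
      have h1 : a ∈ rad := ha
      rw [hr] at h1
      exact (Submodule.mem_bot Ω).mp h1
    · exfalso
      have h1 : x i₀ ∈ rad := by
        rw [hr]
        exact Submodule.mem_top
      have h2 := h1 (x i₀)
      rw [hBVa, hx, hw3, if_pos rfl] at h2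
      exact mul_ne_zero hμ (Rat.cast_ne_zero.mpr (hd i₀)) h2
  have hBVi : Parker.InvForm ρ BV :=
    ⟨fun a b => by rw [hBVa, hBVa, hB'.symm], hnd, hinv⟩
  -- the basis
  have hmem : ∀ i, x i ∈ LinearMap.range (B.eH ρ) := fun i => ⟨x i, hx1 i⟩
  let b0 : ι → LinearMap.range (B.eH ρ) := fun i => ⟨x i, hmem i⟩
  have hb0 : LinearIndependent Ω b0 := by
    rw [Fintype.linearIndependent_iff]
    intro m hm
    apply hli m
    have h1 : ∑ i, m i • x i = 0 := by
      have h2 := congrArg (fun y : LinearMap.range (B.eH ρ) => (y : V)) hm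
      simp only [ZeroMemClass.coe_zero] at h2
      rw [← h2, Submodule.coe_sum]
      exact Finset.sum_congr rfl fun i _ => rfl
    have h3 := congrArg φ h1
    rw [map_sum, map_zero] at h3
    rw [← h3]
    exact Finset.sum_congr rfl fun i _ => by rw [map_smul, hx]
  have hb1 : ⊤ ≤ Submodule.span Ω (Set.range b0) := by
    rintro ⟨y, hy⟩ -
    rw [Submodule.mem_span_range_iff_exists_fun]
    obtain ⟨y', rfl⟩ := hy
    have h1 : B.eH ρ (B.eH ρ y') = B.eH ρ y' := by
      have h2 := eU_idem (ρ := ρ) (U := B.U.subgroupOf B.H)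
      exact congrArg (fun f : Module.End Ω V => f y') h2
    obtain ⟨m, hm⟩ := hspan _ h1
    refine ⟨m, Subtype.ext ?_⟩
    rw [Submodule.coe_sum]
    show ∑ i, ((m i • b0 i : LinearMap.range (B.eH ρ)) : V) = B.eH ρ y'
    rw [hm]
    exact Finset.sum_congr rfl fun i _ => rfl
  let b : Module.Basis ι Ω (LinearMap.range (eU (B.U.subgroupOf B.H) ρ)) := Module.Basis.mk hb0 hb1
  have hbc : ∀ i, (b i : V) = x i := by
    intro i
    have h1 : b i = b0 i := Module.Basis.mk_apply hb0 hb1 i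
    rw [h1]
  have hcard : Even (Fintype.card ι) := by
    rw [← Module.finrank_eq_card_basis b]
    exact hev
  have hU : Odd (Nat.card (B.U.subgroupOf B.H)) := by
    rw [card_UH]
    exact card_U B
  have hs : Group.IsSolvable (B.U.subgroupOf B.H) := by
    haveI := solv_U B
    exact Group.isSolvable_of_isSolvable_injective
      (f := (Subgroup.subgroupOfEquivOfLe B.UH).toMonoidHom)
      (Subgroup.subgroupOfEquivOfLe B.UH).injective
  refine cut3 hΓ hρ hF hBVi hU hs b hd hμ ?_ ?_ hcard (hv hcard)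
  · intro i j
    rw [hbc, hbc, hBVa, hx, hx, hw3]
  · intro g j
    obtain ⟨m, hm1, hm2⟩ := hw5 g g.2 j
    refine ⟨m, hm1, hφ ?_⟩
    have h1 : φ (eU (B.U.subgroupOf B.H) ρ (ρ g (b j : V))) = ev M (B.e k) (φ (ρ g (b j : V))) :=
      phi_e (k := k) φ hφ' _
    rw [h1, hbc, hφ', hx, hm2, map_sum]
    exact Finset.sum_congr rfl fun i _ => by rw [map_smul, hbc, hx]

theorem typed_good {c : Parker.Ctx Ω} {Γ : Subgroup (RingAut Ω)} (hΓ : Parker.Ok c 1 Γ)
    (hρ : ρ.IsIrreducible) (hO : Parker.Orth ρ) (hF : Parker.FxC Γ ρ) (hM : M.IsIrreducible)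
    (φ : V →ₗ[Ω] W) (hφ : Function.Injective φ) (hφ' : ∀ (h : B.H) v, φ (ρ h v) = M h (φ v))
    (hP : Fit B P) (hD : Dg B P D) (hE : (D.on M).Et ≠ 0) (hn : 0 < n) (hw : B.eH ρ ≠ 0)
    (hk : ∀ σ ∈ Γ, ∀ x : k, σ (algebraMap k Ω x) = algebraMap k Ω x)
    (hev : Even (Module.finrank Ω (LinearMap.range (B.eH ρ)))) : Parker.GoodV c Γ ρ := by
  obtain ⟨F, v, hv, hs⟩ := exists_snB hM hP hD hn hE
  obtain ⟨B', μ, hB', -, hμ, hBv⟩ := M_orth hM hP hD hn hv hs
  have hid : ∀ y, ev M (B.e k) (ev M (B.e k) y) = ev M (B.e k) y := by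
    intro y
    have h1 : ev M (B.e k) * ev M (B.e k) = ev M (B.e k) := by
      rw [← map_mul, e_idem]
    exact congrArg (fun f : Module.End Ω W => f y) h1
  have hrange : ∀ y, y ∈ LinearMap.range (ev M (B.e k)) → ev M (B.e k) y = y := by
    rintro _ ⟨y, rfl⟩
    exact hid y
  have hev1 : ∀ β ∈ SqT n F, ev M (B.e k) (v β) = v β := by
    intro β hβ
    apply hrange
    rw [← hs]
    exact Submodule.subset_span ⟨⟨β, mem_SFT.mpr hβ⟩, rfl⟩
  have hnm : ∀ β : Fin n → AO.Et, P.nm β ≠ 0 := fun β => (nm_posT β).ne'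
  have hbg : ∀ g y, ev M (B.e k) y = y → ev M (B.b k g) y = ev M (B.e k) (M g y) := by
    intro g y hy
    have h1 : ev M (B.b k g) = ev M (B.e k) * M g * ev M (B.e k) := by
      show ev M (B.e k * LieP.dl g * B.e k) = _
      rw [map_mul, map_mul]
      congr 2
      show ev M (MonoidAlgebra.single g 1) = M g
      rw [ev_single, map_one, one_smul]
    rw [h1, Module.End.mul_apply, Module.End.mul_apply, hy]
  rcases dicho hρ hM φ hφ hφ' hP hD hE hn hw with hsu | ⟨la, Θ, h1, h2, hr, hT, h0, hz, hz2, h3⟩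
  · -- case 1
    refine core (k := k) hΓ hρ hF φ hφ hφ' hB' hw hev
      (ι := {β // β ∈ SFT n F}) (fun β => v β) (fun β => hsu _)
      (fun β => hev1 _ (mem_SFT.mp β.2)) (d := fun β => P.nm β) (fun β => hnm _) hμ ?_ ?_ ?_ ?_
    · intro β γ
      rw [hBv β (mem_SFT.mp β.2) γ (mem_SFT.mp γ.2)]
      by_cases h : β = γ
      · rw [if_pos h, if_pos (congrArg Subtype.val h)]
      · rw [if_neg h, if_neg fun h' => h (Subtype.ext h')]
    · intro x hx
      rw [hs, ← hx]
      exact ⟨_, rfl⟩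
    · intro h _ β
      obtain ⟨m, hm⟩ := M_coef hM hP hD hn hv hs h
      refine ⟨fun γ => algebraMap k Ω (m γ β), fun γ σ hσ => hk σ hσ _, ?_⟩
      rw [← hbg h _ (hev1 _ (mem_SFT.mp β.2)), hm _ (mem_SFT.mp β.2), ← Finset.sum_coe_sort]
    · intro h
      apply parT
      rw [← Fintype.card_coe]
      convert h
  · -- case 2
    obtain ⟨κ, hκ⟩ := tw_sn hM hP hD hn h1 h2 hr hv hs hT h0
    have hκ1 := (kap_rel hM hP hD hn hv hs hT hz hκ).1
    have hκ2 := half_sd hρ hM hP hD hn hv hs hT hz hz2 hκ (Parker.sd_of_orth hO)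
    have hκ3 : ∀ β ∈ SqT n F, Parker.Fx Γ (κ β) := by
      intro β hβ σ hσ
      have h4 := half_sig hρ hM hP hD hn hv hs h1 h2 hT hz hz2 hκ (hk σ hσ) β hβ
      have h5 : Parker.Fixes σ ρ := fun g => hF g σ hσ
      rw [if_pos h5] at h4
      exact h4
    have hlb : ∀ y : Ty, lb (dl2 y) = !(lb y) := by decide
    have hdl1 : ∀ y : Ty, dl2 y ≠ y := by decide
    have hdl2 : ∀ y : Ty, dl2 (dl2 y) = y := by decide
    let i₀ : Fin n := ⟨0, hn⟩
    let RR : Finset (Fin n → AO.Et) := RF F (fun w => lb (w i₀) = false)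
    have hRR : ∀ β, β ∈ RR ↔ β ∈ SqT n F ∧ lb (β i₀).1 = false := fun β => mem_RF
    have hdR : ∀ β, β ∈ SqT n F → β ∉ RR → dlS β ∈ RR := by
      intro β hβ hβR
      rw [hRR]
      refine ⟨(hκ β hβ).1, ?_⟩
      show lb (dl2 (β i₀).1) = false
      rw [hlb]
      have h4 : ¬ lb (β i₀).1 = false := fun h => hβR ((hRR β).mpr ⟨hβ, h⟩)
      rw [Bool.not_eq_false] at h4
      rw [h4]
      rfl
    have hdR' : ∀ β, β ∈ RR → dlS β ∉ RR := by
      intro β hβ h4
      have h5 := ((hRR _).mp h4).2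
      have h6 : lb (dl2 (β i₀).1) = false := h5
      rw [hlb, ((hRR β).mp hβ).2] at h6
      exact absurd h6 (by decide)
    let w : {β // β ∈ RR} → W := fun β => v β + κ β • v (dlS β)
    have hwT : ∀ β : {β // β ∈ RR}, w β = v β + Θ (v β) := by
      intro β
      show v β + κ β • v (dlS β) = _
      rw [(hκ β ((hRR _).mp β.2).1).2.2]
    have hu : ∀ β (hβ : β ∈ SqT n F), (∃ h : β ∈ RR, v β + Θ (v β) = w ⟨β, h⟩) ∨
        ∃ h : dlS β ∈ RR, v β + Θ (v β) = κ β • w ⟨dlS β, h⟩ := by
      intro β hβ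
      by_cases h : β ∈ RR
      · exact Or.inl ⟨h, (hwT ⟨β, h⟩).symm⟩
      · refine Or.inr ⟨hdR β hβ h, ?_⟩
        show _ = κ β • (v (dlS β) + κ (dlS β) • v (dlS (dlS β)))
        rw [dlS_dlS, smul_add, smul_smul, hκ1 β hβ, one_smul, (hκ β hβ).2.2, add_comm]
    refine core (k := k) hΓ hρ hF φ hφ hφ' hB' hw hev
      (ι := {β // β ∈ RR}) w ?_ ?_ (d := fun β => P.nm β) (fun β => hnm _)
      (μ := 2 * μ) (mul_ne_zero two_ne_zero hμ) ?_ ?_ ?_ ?_
    · intro β
      rw [hwT]
      exact half_kap φ hz hT hz2 h3 (hev1 _ ((hRR _).mp β.2).1)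
    · intro β
      show ev M (B.e k) (v β + κ β • v (dlS β)) = v β + κ β • v (dlS β)
      have hβ := ((hRR _).mp β.2).1
      rw [map_add, map_smul, hev1 _ hβ, hev1 _ (hκ β hβ).1]
    · intro β γ
      have hβ := ((hRR _).mp β.2).1
      have hγ := ((hRR _).mp γ.2).1
      have hβ' := (hκ β hβ).1
      have hγ' := (hκ γ hγ).1
      have hexp : ∀ (a b c d : W) (r s : Ω), B' (a + r • b) (c + s • d) =
          B' a c + s * B' a d + r * B' b c + r * s * B' b d := by
        intro a b c d r s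
        simp only [map_add, map_smul, LinearMap.add_apply, LinearMap.smul_apply, smul_eq_mul]
        ring
      show B' (v β + κ β • v (dlS β)) (v γ + κ γ • v (dlS γ)) = _
      rw [hexp, hBv _ hβ _ hγ, hBv _ hβ _ hγ', hBv _ hβ' _ hγ, hBv _ hβ' _ hγ']
      have h4 : (β : Fin n → AO.Et) ≠ dlS γ := fun h => hdR' γ γ.2 (h ▸ β.2)
      have h5 : dlS (β : Fin n → AO.Et) ≠ γ := fun h => hdR' β β.2 (h ▸ γ.2)
      rw [if_neg h4, if_neg h5]
      by_cases h : β = γ
      · subst h
        rw [if_pos rfl, if_pos rfl, if_pos rfl, ← hκ2 β hβ]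
        ring
      · have h6 : (β : Fin n → AO.Et) ≠ γ := fun h' => h (Subtype.ext h')
        have h7 : dlS (β : Fin n → AO.Et) ≠ dlS (γ : Fin n → AO.Et) := fun h' => h6 (by
          rw [← dlS_dlS (β : Fin n → AO.Et), h', dlS_dlS])
        rw [if_neg h, if_neg h6, if_neg h7]
        simp
    · intro x hx
      have h4 : Θ (φ x) = φ x := by
        have h5 := hz2 (φ x) hx
        rw [(h3 (φ x)).mp ⟨x, rfl⟩, two_smul] at h5
        exact (add_left_cancel h5).symm
      have h5 : φ x = (2 : Ω)⁻¹ • (φ x + Θ (φ x)) := by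
        rw [h4, ← two_smul Ω, smul_smul, inv_mul_cancel₀ two_ne_zero, one_smul]
      rw [h5]
      apply Submodule.smul_mem
      have h6 : φ x ∈ Submodule.span Ω (Set.range (fun β : {β // β ∈ SFT n F} => v β)) := by
        rw [hs, ← hx]
        exact ⟨_, rfl⟩
      have h7 : Submodule.map (LinearMap.id + Θ)
          (Submodule.span Ω (Set.range (fun β : {β // β ∈ SFT n F} => v β))) ≤
            Submodule.span Ω (Set.range w) := by
        rw [Submodule.map_span_le]
        rintro _ ⟨β, rfl⟩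
        show v β + Θ (v β) ∈ _
        rcases hu β (mem_SFT.mp β.2) with ⟨h, h'⟩ | ⟨h, h'⟩
        · rw [h']
          exact Submodule.subset_span ⟨_, rfl⟩
        · rw [h']
          exact Submodule.smul_mem _ _ (Submodule.subset_span ⟨_, rfl⟩)
      exact h7 ⟨φ x, h6, rfl⟩
    · intro h hh β
      have hβ := ((hRR _).mp β.2).1
      obtain ⟨m, hm⟩ := M_coef hM hP hD hn hv hs h
      have h4 : ev M (B.e k) (w β) = w β := by
        show ev M (B.e k) (v β + κ β • v (dlS β)) = v β + κ β • v (dlS β)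
        rw [map_add, map_smul, hev1 _ hβ, hev1 _ (hκ β hβ).1]
      have h5 : ev M (B.e k) (M h (w β)) = ∑ γ ∈ SFT n F,
          algebraMap k Ω (m γ β) • (v γ + Θ (v γ)) := by
        rw [← hbg h _ h4, hwT, map_add]
        have h6 := hT.tw h (v β) (hev1 _ hβ)
        rw [h1 h hh] at h6
        have h7 : ((((1 : ℤˣ) : ℤˣ) : ℤ) : Ω) = 1 := by simp
        rw [h7, one_smul] at h6
        rw [← h6, hm _ hβ, map_sum, ← Finset.sum_add_distrib]
        refine Finset.sum_congr rfl fun γ _ => ?_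
        rw [map_smul, smul_add]
      rw [h5]
      refine Finset.sum_induction _ (fun y => ∃ m : {β // β ∈ RR} → Ω, (∀ i, Parker.Fx Γ (m i)) ∧
        y = ∑ i, m i • w i) ?_ ?_ ?_
      · rintro _ _ ⟨m1, hm1, rfl⟩ ⟨m2, hm2, rfl⟩
        refine ⟨fun i => m1 i + m2 i, fun i σ hσ => by rw [map_add, hm1 i σ hσ, hm2 i σ hσ], ?_⟩
        rw [← Finset.sum_add_distrib]
        exact Finset.sum_congr rfl fun i _ => by rw [add_smul]
      · exact ⟨fun _ => 0, fun i σ _ => map_zero σ, by simp⟩
      · intro γ hγ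
        rcases hu γ (mem_SFT.mp hγ) with ⟨h', h''⟩ | ⟨h', h''⟩
        · refine ⟨fun i => if i = ⟨γ, h'⟩ then algebraMap k Ω (m γ β) else 0, fun i σ hσ => ?_, ?_⟩
          · show σ (if i = ⟨γ, h'⟩ then algebraMap k Ω (m γ β) else 0) =
              if i = ⟨γ, h'⟩ then algebraMap k Ω (m γ β) else 0
            split_ifs
            · exact hk σ hσ _
            · exact map_zero σ
          · rw [h'', Finset.sum_eq_single (⟨γ, h'⟩ : {β // β ∈ RR})]
            · beta_reduce
              rw [if_pos rfl]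
            · intro i _ hi
              beta_reduce
              rw [if_neg hi, zero_smul]
            · intro hi
              exact absurd (Finset.mem_univ _) hi
        · refine ⟨fun i => if i = ⟨dlS γ, h'⟩ then algebraMap k Ω (m γ β) * κ γ else 0,
            fun i σ hσ => ?_, ?_⟩
          · show σ (if i = ⟨dlS γ, h'⟩ then algebraMap k Ω (m γ β) * κ γ else 0) =
              if i = ⟨dlS γ, h'⟩ then algebraMap k Ω (m γ β) * κ γ else 0
            split_ifs
            · rw [map_mul, hk σ hσ, hκ3 γ (mem_SFT.mp hγ) σ hσ]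
            · exact map_zero σ
          · rw [h'', Finset.sum_eq_single (⟨dlS γ, h'⟩ : {β // β ∈ RR})]
            · beta_reduce
              rw [if_pos rfl, smul_smul]
            · intro i _ hi
              beta_reduce
              rw [if_neg hi, zero_smul]
            · intro hi
              exact absurd (Finset.mem_univ _) hi
    · intro _
      obtain ⟨β₀, hβ₀⟩ := hv.ne
      have h4 := half_parT P n F dl2 hdl1 hdl2 (fun y x => dlS_F hβ₀ (hκ β₀ hβ₀).1 y x)
        (fun w => lb (w i₀) = false)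
      have h5 : ∏ i : {β // β ∈ RR}, P.nm (i : Fin n → AO.Et) = ∏ β ∈ RR, P.nm β :=
        Finset.prod_coe_sort RR P.nm
      rw [h5]
      exact h4

end

end AO
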