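import Pool.Agent.AO.Defs

/-!
# MP_6c3636_al, AO, module K01: relations of the Jucys-Murphy elements (helper7)

Write `Q = P.Q` (nonzero, as `K` has characteristic `0` and `P.q ≥ 3`), `T = D.T k`, `l = k + 1`. `Js`: the definition of `jn`. `ET1`: `TE` and the reindexing `a ↦ sq a k l` of the sum. `JE`: by induction on `k` from `XE` and `TE` (`sq (sq a k l) k l = a`). `TJ`: `J l * T * E a = Q • (T * J k * (T * T * E a))` and `Tq` (`a k = a l`): `= T * J k * E a + (1 - Q⁻¹) • (Q • T * J k * T * E a)`. `TJ'`: `T * J l * E a = Q • (T * T * J k * T * E a)`; `J k * T * E a = E (sq a k l) * J k * T` and `Tq` for `sq a k l`. `TJd`, `TJd'` in the same way (then `T * T * E a = Q⁻¹ • E a`). `TJo`: if `j < k`: `J j` is a product of elements `T i` with `i + 1 ≤ j < k` and `X`, which commute with `T` (`cm`, `XT`). If `j ≥ l + 1`: induction on `j`; for `j = l + 1`, `U = D.T l`: `J j = Q ^ 2 • (U * T * J k * T * U)`, by `br`: `T * U * T * J k * T * U = U * T * U * J k * T * U =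 U * T * J k * U * T * U = U * T * J k * T * U * T` (`U` commutes with `J k`, the first case for `U`); for `j > l + 1`: `J j = Q • (T' * J (j - 1) * T')` with `T' = D.T (j - 1)`, which commutes with `T` (`cm`). `JJ`: let `i < j`, induction on `j`. If `i + 1 < j`: `J j = Q • (T' * J (j - 1) * T')`, `T' = D.T (j - 1)` commutes with `J i` (`TJo`), and `J (j - 1)` by induction. If `i + 1 = j`, `i = 0`: `Xb`. If `i + 1 = j`, `i > 0`: `J i = Q • (T'' * J (i - 1) * T'')`, `T'' = D.T (i - 1)` commutes with `J j` (`TJo`), and `J (i - 1)` commutes with `J j` by the case before.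
-/

namespace AO

noncomputable section

open Classical Equiv

open AN (sq)

variable {K : Type} [Field K] [CharZero K] {P : Par K} {n : ℕ} {A : Type} [Ring A] [Algebra K A] (D : HA P n A)

theorem K01_aux.sqsq {n : ℕ} (a : Fin n → Bool) (k l : Fin n) : sq (sq a k l) k l = a := by
  funext i
  show a (swap k l (swap k l i)) = a i
  rw [swap_apply_self]

theorem K01_aux.sqk {n : ℕ} (a : Fin n → Bool) (k l : Fin n) : sq a k l k = a l := by
  show a (swap k l k) = a l
  rw [swap_apply_left]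

theorem K01_aux.sql {n : ℕ} (a : Fin n → Bool) (k l : Fin n) : sq a k l l = a k := by
  show a (swap k l l) = a k
  rw [swap_apply_right]

theorem Q_ne (P : Par K) : P.Q ≠ 0 := by
  have h := P.three
  exact pow_ne_zero _ (Nat.cast_ne_zero.mpr (by omega))

theorem Q_ne_one (P : Par K) : P.Q ≠ 1 := by
  have h := P.three
  have h2 := P.pos
  have h3 : 1 < P.q ^ P.e := Nat.one_lt_pow (by omega) (by omega)
  intro h4
  have h5 : ((P.q ^ P.e : ℕ) : K) = ((1 : ℕ) : K) := by
    rw [Nat.cast_pow, Nat.cast_one]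
    exact h4
  have h6 := Nat.cast_injective (R := K) h5
  omega

theorem HA.J0 (k : Fin n) (hk : (k : ℕ) = 0) : D.J k = D.X := by
  show D.jn k = D.X
  rw [hk]
  rfl

theorem HA.Js {k l : Fin n} (hl : (l : ℕ) = k + 1) : D.J l = P.Q • (D.T k * D.J k * D.T k) := by
  show D.jn l = P.Q • (D.T k * D.jn k * D.T k)
  rw [hl]
  show P.Q • (D.tn k * D.jn k * D.tn k) = _
  have h : D.tn k = D.T k := by
    show (if h : (k : ℕ) < n then D.T ⟨k, h⟩ else 0) = D.T k
    rw [dif_pos k.isLt]
  rw [h]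

theorem HA.Et_mul (a : Fin n → Bool) : D.Et * D.E a = D.E a := by
  show (∑ b, D.E b) * D.E a = D.E a
  rw [Finset.sum_mul]
  have h : ∀ b, D.E b * D.E a = if b = a then D.E a else 0 := by
    intro b
    rw [D.EE]
    split_ifs with h1
    · rw [h1]
    · rfl
  rw [Finset.sum_congr rfl (fun b _ => h b), Finset.sum_ite_eq' Finset.univ a]
  exact if_pos (Finset.mem_univ _)

theorem K01_aux.ET {K : Type} [Field K] {P : Par K} {n : ℕ} {A : Type} [Ring A] [Algebra K A]
    (D : HA P n A) {k l : Fin n} (hl : (l : ℕ) = k + 1) (a : Fin n → Bool) :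
    D.E a * D.T k = D.T k * D.E (sq a k l) := by
  rw [D.TE k l hl, K01_aux.sqsq]

theorem HA.ET1 {k l : Fin n} (hl : (l : ℕ) = k + 1) : D.Et * D.T k = D.T k := by
  have h1 := D.T1 k l hl
  show (∑ b, D.E b) * D.T k = D.T k
  rw [Finset.sum_mul, Finset.sum_congr rfl (fun b _ => K01_aux.ET D hl b), ← Finset.mul_sum]
  have h2 : ∑ b, D.E (sq b k l) = ∑ b, D.E b :=
    Fintype.sum_equiv ⟨fun b => sq b k l, fun b => sq b k l, fun b => K01_aux.sqsq b k l,
      fun b => K01_aux.sqsq b k l⟩ _ _ (fun _ => rfl)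
  rw [h2]
  exact h1

theorem HA.J1 (k : Fin n) : D.J k * D.Et = D.J k := by
  by_cases hk : (k : ℕ) = 0
  · rw [D.J0 k hk]
    exact D.X1
  · obtain ⟨m, hm⟩ := Nat.exists_eq_succ_of_ne_zero hk
    have hk' : (k : ℕ) = (⟨m, by omega⟩ : Fin n) + 1 := hm
    rw [D.Js hk', smul_mul_assoc, mul_assoc _ _ D.Et]
    have h1 := D.T1 _ _ hk'
    change _ * D.Et = _ at h1
    rw [h1]

theorem HA.EJ1 (k : Fin n) : D.Et * D.J k = D.J k := by
  by_cases hk : (k : ℕ) = 0
  · rw [D.J0 k hk]
    have h1 := D.X1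
    have h2 : D.X * ∑ a, D.E a = (∑ a, D.E a) * D.X := by
      rw [Finset.mul_sum, Finset.sum_mul]
      exact Finset.sum_congr rfl (fun a _ => D.XE a)
    show (∑ a, D.E a) * D.X = D.X
    rw [← h2, h1]
  · obtain ⟨m, hm⟩ := Nat.exists_eq_succ_of_ne_zero hk
    have hk' : (k : ℕ) = (⟨m, by omega⟩ : Fin n) + 1 := hm
    rw [D.Js hk', mul_smul_comm, ← mul_assoc, ← mul_assoc, D.ET1 hk']

theorem K01_aux.ind {n : ℕ} {p : Fin n → Prop} (h0 : ∀ k : Fin n, (k : ℕ) = 0 → p k)
    (hs : ∀ k l : Fin n, (l : ℕ) = k + 1 → p k → p l) : ∀ k, p k := by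
  have h : ∀ m : ℕ, ∀ k : Fin n, (k : ℕ) = m → p k := by
    intro m
    induction m with
    | zero => exact h0
    | succ m ih =>
      intro k hk
      have hm : m < n := by have := k.isLt; omega
      exact hs ⟨m, hm⟩ k hk (ih ⟨m, hm⟩ rfl)
  exact fun k => h k k rfl

theorem HA.JE (k : Fin n) (a : Fin n → Bool) : D.J k * D.E a = D.E a * D.J k := by
  revert k a
  refine K01_aux.ind ?_ ?_
  · intro k hk a
    rw [D.J0 k hk]
    exact D.XE a
  · intro k l hl ih a
    rw [D.Js hl, smul_mul_assoc, mul_smul_comm]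
    congr 1
    calc D.T k * D.J k * D.T k * D.E a = D.T k * D.J k * (D.T k * D.E a) := by rw [mul_assoc]
      _ = D.T k * (D.J k * D.E (sq a k l)) * D.T k := by rw [D.TE k l hl]; noncomm_ring
      _ = (D.T k * D.E (sq a k l)) * (D.J k * D.T k) := by rw [ih]; noncomm_ring
      _ = D.E a * (D.T k * D.J k * D.T k) := by
        rw [D.TE k l hl, K01_aux.sqsq]
        noncomm_ring

theorem HA.TJ {k l : Fin n} (hl : (l : ℕ) = k + 1) {a : Fin n → Bool} (h : a k = a l) :
    D.T k * D.J k * D.E a = D.J l * D.T k * D.E a - (1 - P.Q⁻¹) • (D.J l * D.E a) := by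
  have hQ := Q_ne P
  have h1 := D.Tq k l hl a
  rw [if_pos h] at h1
  have h2 : D.J l * D.T k * D.E a = D.T k * D.J k * D.E a + (1 - P.Q⁻¹) • (D.J l * D.E a) := by
    rw [D.Js hl]
    calc (P.Q • (D.T k * D.J k * D.T k)) * D.T k * D.E a
        = P.Q • (D.T k * D.J k * (D.T k * D.T k * D.E a)) := by
          rw [smul_mul_assoc, smul_mul_assoc]
          congr 1
          noncomm_ring
      _ = P.Q • (D.T k * D.J k * (P.Q⁻¹ • D.E a + (1 - P.Q⁻¹) • (D.T k * D.E a))) := by rw [h1]
      _ = P.Q • (P.Q⁻¹ • (D.T k * D.J k * D.E a) +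
          (1 - P.Q⁻¹) • (D.T k * D.J k * (D.T k * D.E a))) := by
          rw [mul_add, mul_smul_comm, mul_smul_comm]
      _ = D.T k * D.J k * D.E a + (1 - P.Q⁻¹) • (P.Q • (D.T k * D.J k * (D.T k * D.E a))) := by
          rw [smul_add, smul_smul, mul_inv_cancel₀ hQ, one_smul, smul_comm P.Q]
      _ = _ := by
          rw [smul_mul_assoc]
          congr 3
          noncomm_ring
  rw [h2, add_sub_cancel_right]

theorem K01_aux.TTE (D : HA P n A) {k l : Fin n} (hl : (l : ℕ) = k + 1) (a : Fin n → Bool) :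
    D.T k * D.J l * D.E a = P.Q • ((D.T k * D.T k * D.E (sq a k l)) * (D.J k * D.T k)) := by
  rw [D.Js hl]
  calc D.T k * (P.Q • (D.T k * D.J k * D.T k)) * D.E a
      = P.Q • (D.T k * D.T k * D.J k * (D.T k * D.E a)) := by
        rw [mul_smul_comm, smul_mul_assoc]
        congr 1
        noncomm_ring
    _ = P.Q • (D.T k * D.T k * (D.J k * D.E (sq a k l)) * D.T k) := by
        rw [D.TE k l hl]
        congr 1
        noncomm_ring
    _ = _ := by
        rw [D.JE]
        congr 1
        noncomm_ring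

theorem K01_aux.EJT (D : HA P n A) {k l : Fin n} (hl : (l : ℕ) = k + 1) (a : Fin n → Bool) :
    D.E (sq a k l) * (D.J k * D.T k) = D.J k * D.T k * D.E a := by
  rw [← mul_assoc, ← D.JE, mul_assoc, ← D.TE k l hl, mul_assoc]

theorem HA.TJ' {k l : Fin n} (hl : (l : ℕ) = k + 1) {a : Fin n → Bool} (h : a k = a l) :
    D.T k * D.J l * D.E a = D.J k * D.T k * D.E a + (1 - P.Q⁻¹) • (D.J l * D.E a) := by
  have hQ := Q_ne P
  have h1 := D.Tq k l hl (sq a k l)
  rw [if_pos (by rw [K01_aux.sqk, K01_aux.sql, h])] at h1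
  rw [K01_aux.TTE D hl, h1, add_mul, smul_mul_assoc, smul_mul_assoc, smul_add, smul_smul,
    mul_inv_cancel₀ hQ, one_smul, smul_comm P.Q, mul_assoc (D.T k), K01_aux.EJT D hl, D.Js hl,
    smul_mul_assoc]
  congr 3
  noncomm_ring

theorem HA.TJd {k l : Fin n} (hl : (l : ℕ) = k + 1) {a : Fin n → Bool} (h : a k ≠ a l) :
    D.T k * D.J k * D.E a = D.J l * D.T k * D.E a := by
  have hQ := Q_ne P
  have h1 := D.Tq k l hl a
  rw [if_neg h, add_zero] at h1
  rw [D.Js hl]
  symm
  calc (P.Q • (D.T k * D.J k * D.T k)) * D.T k * D.E a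
      = P.Q • (D.T k * D.J k * (D.T k * D.T k * D.E a)) := by
        rw [smul_mul_assoc, smul_mul_assoc]
        congr 1
        noncomm_ring
    _ = P.Q • (P.Q⁻¹ • (D.T k * D.J k * D.E a)) := by rw [h1, mul_smul_comm]
    _ = _ := by rw [smul_smul, mul_inv_cancel₀ hQ, one_smul]

theorem HA.TJd' {k l : Fin n} (hl : (l : ℕ) = k + 1) {a : Fin n → Bool} (h : a k ≠ a l) :
    D.T k * D.J l * D.E a = D.J k * D.T k * D.E a := by
  have hQ := Q_ne P
  have h1 := D.Tq k l hl (sq a k l)
  rw [if_neg (by rw [K01_aux.sqk, K01_aux.sql]; exact fun h2 => h h2.symm), add_zero] at h1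
  rw [K01_aux.TTE D hl, h1, smul_mul_assoc, smul_smul, mul_inv_cancel₀ hQ, one_smul,
    K01_aux.EJT D hl]

theorem K01_aux.lo (D : HA P n A) {k l : Fin n} (hl : (l : ℕ) = k + 1) (j : Fin n) :
    (j : ℕ) < k → Commute (D.T k) (D.J j) := by
  revert j
  refine K01_aux.ind ?_ ?_
  · intro j hj hjk
    rw [D.J0 j hj]
    exact (D.XT k l hl (by omega)).symm
  · intro i j hj ih hjk
    rw [D.Js hj]
    have h1 : Commute (D.T k) (D.T i) := (D.cm i j k l hj hl (by rw [Fin.lt_def]; exact hjk)).symm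
    exact ((h1.mul_right (ih (by omega))).mul_right h1).smul_right _

theorem K01_aux.hi1 (D : HA P n A) {k l j : Fin n} (hl : (l : ℕ) = k + 1) (hj : (j : ℕ) = l + 1) :
    Commute (D.T k) (D.J j) := by
  have hb := D.br k l j hl hj
  have hc : Commute (D.T l) (D.J k) := K01_aux.lo D hj k (by omega)
  have hc' : D.T l * D.J k = D.J k * D.T l := hc
  rw [D.Js hj, D.Js hl]
  have h1 : D.T l * (P.Q • (D.T k * D.J k * D.T k)) * D.T l =
      P.Q • (D.T l * (D.T k * D.J k * D.T k) * D.T l) := by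
    rw [mul_smul_comm, smul_mul_assoc]
  rw [h1]
  refine (Commute.smul_right ?_ _).smul_right _
  show D.T k * (D.T l * (D.T k * D.J k * D.T k) * D.T l) =
    D.T l * (D.T k * D.J k * D.T k) * D.T l * D.T k
  calc D.T k * (D.T l * (D.T k * D.J k * D.T k) * D.T l)
      = (D.T k * D.T l * D.T k) * D.J k * D.T k * D.T l := by noncomm_ring
    _ = D.T l * D.T k * (D.T l * D.J k) * D.T k * D.T l := by rw [hb]; noncomm_ring
    _ = D.T l * D.T k * D.J k * (D.T l * D.T k * D.T l) := by rw [hc']; noncomm_ring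
    _ = _ := by rw [← hb]; noncomm_ring

theorem K01_aux.hi (D : HA P n A) {k l : Fin n} (hl : (l : ℕ) = k + 1) (j : Fin n) :
    (l : ℕ) < j → Commute (D.T k) (D.J j) := by
  revert j
  refine K01_aux.ind ?_ ?_
  · intro j hj hjk
    omega
  · intro i j hj ih hjk
    by_cases h : (i : ℕ) = l
    · exact K01_aux.hi1 D hl (by omega)
    · rw [D.Js hj]
      have h1 : Commute (D.T k) (D.T i) := D.cm k l i j hl hj (by rw [Fin.lt_def]; omega)
      exact ((h1.mul_right (ih (by omega))).mul_right h1).smul_right _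

theorem HA.TJo {k l j : Fin n} (hl : (l : ℕ) = k + 1) (h1 : j ≠ k) (h2 : j ≠ l) :
    D.T k * D.J j = D.J j * D.T k := by
  rcases Nat.lt_trichotomy (j : ℕ) k with h | h | h
  · exact K01_aux.lo D hl j h
  · exact absurd (Fin.ext h) h1
  · have h3 : (j : ℕ) ≠ l := fun h4 => h2 (Fin.ext h4)
    exact K01_aux.hi D hl j (by omega)

theorem K01_aux.comm_T (D : HA P n A) {i j' j : Fin n} (hj : (j : ℕ) = j' + 1) (hi : (i : ℕ) < j') :
    Commute (D.J i) (D.T j') := (K01_aux.lo D hj i hi).symm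

theorem K01_aux.JJlt (D : HA P n A) (j : Fin n) : ∀ i : Fin n, (i : ℕ) < j → Commute (D.J i) (D.J j) := by
  have main : ∀ m : ℕ, ∀ i j : Fin n, (i : ℕ) + (j : ℕ) = m → (i : ℕ) < j → Commute (D.J i) (D.J j) := by
    intro m
    induction m using Nat.strong_induction_on with
    | _ m ih =>
      intro i j hm hij
      have hjn := j.isLt
      obtain ⟨j', hj'⟩ : ∃ j' : Fin n, (j : ℕ) = j' + 1 :=
        ⟨⟨(j : ℕ) - 1, by omega⟩, by
          show (j : ℕ) = (j : ℕ) - 1 + 1
          omega⟩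
      by_cases h : (i : ℕ) = j'
      · by_cases h0 : (i : ℕ) = 0
        · have hij' : i = j' := Fin.ext h
          rw [D.Js hj', ← hij', D.J0 i h0]
          refine Commute.smul_right ?_ _
          have h3 := D.Xb i j (by rw [h]; exact hj') h0
          show D.X * (D.T i * D.X * D.T i) = D.T i * D.X * D.T i * D.X
          rw [← h3]
          noncomm_ring
        · obtain ⟨i', hi'⟩ : ∃ i' : Fin n, (i : ℕ) = i' + 1 :=
            ⟨⟨(i : ℕ) - 1, by omega⟩, by
              show (i : ℕ) = (i : ℕ) - 1 + 1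
              omega⟩
          rw [D.Js hi']
          have h1 : Commute (D.T i') (D.J j) := K01_aux.hi D hi' j hij
          have h2 : Commute (D.J i') (D.J j) := ih _ (by omega) i' j rfl (by omega)
          exact ((h1.mul_left h2).mul_left h1).smul_left _
      · rw [D.Js hj']
        have h1 : Commute (D.J i) (D.T j') := K01_aux.comm_T D hj' (by omega)
        have h2 : Commute (D.J i) (D.J j') := ih _ (by omega) i j' rfl (by omega)
        exact ((h1.mul_right h2).mul_right h1).smul_right _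
  exact fun i hi => main _ i j rfl hi

theorem HA.JJ (i j : Fin n) : D.J i * D.J j = D.J j * D.J i := by
  rcases Nat.lt_trichotomy (i : ℕ) j with h | h | h
  · exact K01_aux.JJlt D j i h
  · rw [Fin.ext h]
  · exact (K01_aux.JJlt D i j h).symm

end

end AO
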