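import Pool.Agent.AO.K01

/-!
# MP_6c3636_al, AO, module K02: intertwiners and the Yang-Baxter relation (helper7)

`T = D.T k`. For `v ∈ WtR D a x`: `D.E a v = v`. `iw_mem`: by K01 (applied to `v = D.E a v`), if `a k = a l`: `J l (T v) = x k • T v + ((1 - Q⁻¹) * x l) • v` and `J k (T v) = x l • T v - ((1 - Q⁻¹) * x l) • v`, so with `α = (1 - Q⁻¹) * x l / (x l - x k)` the vector `T v - α • v` is an eigenvector of `J l` with eigenvalue `x k` and of `J k` with eigenvalue `x l`; the other `J j` commute with `T` (`TJo`); `E (sq a k l) (T v) = T (E a v)` (`TE`; here `sq a k l = a`). If `a k ≠ a l`: `J l (T v) = x k • T v`, `J k (T v) = x l • T v`. `iw_iw`: if `a k = a l`: `(T - α') (T - α) v` with `α + α' = 1 - Q⁻¹`, `T (T v) = Q⁻¹ • v + (1 - Q⁻¹) • T v` (`Tq`), so it is `(Q⁻¹ + α * α') • v`. If `a k ≠ a l`: `T (T v) = Q⁻¹ • v`. `yb`: the labels of `T j v`, ... are `sq a j k`, ... (`TE`), so `Tq` can be applied. If `a j = a k = a l`: expand both sides with `br` and `Tq`; write `z₁ = x k / x j`, `z₂ = x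 l / x k`, the claim is the identity `C * (A + B - (1 - Q⁻¹)) = A * B`, `A = (1 - Q⁻¹) z₁ / (z₁ - 1)`, `B = (1 - Q⁻¹) z₂ / (z₂ - 1)`, `C = (1 - Q⁻¹) z₁ z₂ / (z₁ z₂ - 1)` (`field_simp`, `ring`). If exactly two of the three labels are equal: only one of `A`, `B`, `C` is different from `0`: `A`: both sides are `T j T k T j v - A T j T k v`; `B`: `T j T k T j v - B • T k T j v`; `C`: `T j (T j v) = Q⁻¹ • v = T k (T k v)`.
-/

namespace AO

noncomputable section

open Classical Equiv

open AN (sq)

variable {K : Type} [Field K] [CharZero K] {V : Type} [AddCommGroup V] [Module K V] {P : Par K} {n : ℕ}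
  {D : HA P n (Module.End K V)}

namespace K02_aux

theorem sq_self_of_eq {X : Type} (a : Fin n → X) {k l : Fin n} (h : a k = a l) : sq a k l = a := by
  funext i
  unfold AN.sq
  by_cases h1 : i = k
  · rw [h1, swap_apply_left, h]
  · by_cases h2 : i = l
    · rw [h2, swap_apply_right, h]
    · rw [swap_apply_of_ne_of_ne h1 h2]

theorem te {a : Fin n → Bool} {v : V} (hE : D.E a v = v) {k l : Fin n} (hl : (l : ℕ) = k + 1) :
    D.E (sq a k l) (D.T k v) = D.T k v := by
  have h1 := congrArg (fun f : Module.End K V => f v) (D.TE k l hl a)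
  simp only [Module.End.mul_apply] at h1
  rw [← h1, hE]

theorem tq {a : Fin n → Bool} {v : V} (hE : D.E a v = v) {k l : Fin n} (hl : (l : ℕ) = k + 1) :
    D.T k (D.T k v) = P.Q⁻¹ • v + (if a k = a l then (1 - P.Q⁻¹) else 0) • D.T k v := by
  have h1 := congrArg (fun f : Module.End K V => f v) (D.Tq k l hl a)
  by_cases h : a k = a l
  · simp only [if_pos h, Module.End.mul_apply, LinearMap.add_apply, LinearMap.smul_apply, hE] at h1 ⊢
    exact h1
  · simp only [if_neg h, Module.End.mul_apply, LinearMap.add_apply, LinearMap.smul_apply, hE,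
      LinearMap.zero_apply] at h1 ⊢
    rw [h1, zero_smul]

theorem br' {v : V} {j k l : Fin n} (hk : (k : ℕ) = j + 1) (hl : (l : ℕ) = k + 1) :
    D.T j (D.T k (D.T j v)) = D.T k (D.T j (D.T k v)) := by
  have h1 := congrArg (fun f : Module.End K V => f v) (D.br j k l hk hl)
  simpa only [Module.End.mul_apply] using h1

theorem jt {a : Fin n → Bool} {v : V} (hE : D.E a v = v) {k l : Fin n} (hl : (l : ℕ) = k + 1)
    (h : a k = a l) :
    D.T k (D.J k v) = D.J l (D.T k v) - (1 - P.Q⁻¹) • D.J l v ∧
      D.T k (D.J l v) = D.J k (D.T k v) + (1 - P.Q⁻¹) • D.J l v := by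
  have h1 := congrArg (fun f : Module.End K V => f v) (HA.TJ D hl h)
  have h2 := congrArg (fun f : Module.End K V => f v) (HA.TJ' D hl h)
  simp only [Module.End.mul_apply, LinearMap.sub_apply, LinearMap.add_apply, LinearMap.smul_apply, hE] at h1 h2
  exact ⟨h1, h2⟩

theorem jtd {a : Fin n → Bool} {v : V} (hE : D.E a v = v) {k l : Fin n} (hl : (l : ℕ) = k + 1)
    (h : a k ≠ a l) :
    D.T k (D.J k v) = D.J l (D.T k v) ∧ D.T k (D.J l v) = D.J k (D.T k v) := by
  have h1 := congrArg (fun f : Module.End K V => f v) (HA.TJd D hl h)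
  have h2 := congrArg (fun f : Module.End K V => f v) (HA.TJd' D hl h)
  simp only [Module.End.mul_apply, hE] at h1 h2
  exact ⟨h1, h2⟩

theorem jto {v : V} {k l j : Fin n} (hl : (l : ℕ) = k + 1) (h1 : j ≠ k) (h2 : j ≠ l) :
    D.T k (D.J j v) = D.J j (D.T k v) := by
  have h3 := congrArg (fun f : Module.End K V => f v) (HA.TJo D hl h1 h2)
  simpa only [Module.End.mul_apply] using h3

theorem alR_eq {b b' : Bool} {x y : K} (hb : b = b') : P.alR b b' x y = (1 - P.Q⁻¹) * y / (y - x) := by
  unfold Par.alR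
  rw [if_pos hb]

theorem alR_ne {b b' : Bool} {x y : K} (hb : b ≠ b') : P.alR b b' x y = 0 := by
  unfold Par.alR
  rw [if_neg hb]

theorem alR_mul {b b' : Bool} {x y : K} (hb : b = b') (hxy : x ≠ y) :
    P.alR b b' x y * (y - x) = (1 - P.Q⁻¹) * y := by
  rw [alR_eq hb, div_mul_cancel₀ _ (sub_ne_zero.2 (Ne.symm hxy))]

end K02_aux

open K02_aux

theorem iw_mem {a : Fin n → Bool} {x : Fin n → K} {v : V} (hv : v ∈ WtR D a x) {k l : Fin n}
    (hl : (l : ℕ) = k + 1) (h : a k = a l → x k ≠ x l) :
    D.T k v - P.alR (a k) (a l) (x k) (x l) • v ∈ WtR D (sq a k l) (sq x k l) := by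
  obtain ⟨hE, hJ⟩ := hv
  have hkl : k ≠ l := by
    intro e
    rw [e] at hl
    omega
  by_cases hab : a k = a l
  · have hα := alR_mul (P := P) hab (h hab)
    generalize hA : P.alR (a k) (a l) (x k) (x l) = α at hα ⊢
    obtain ⟨h1, h2⟩ := jt hE hl hab
    rw [hJ, hJ, map_smul] at h1
    rw [hJ, map_smul] at h2
    refine ⟨?_, fun j => ?_⟩
    · rw [map_sub, te hE hl, map_smul, sq_self_of_eq a hab, hE]
    · by_cases hj : j = k
      · subst hj
        have e : sq x j l j = x l := by
          unfold AN.sq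
          rw [swap_apply_left]
        rw [e, map_sub, map_smul, hJ]
        have h3 : D.J j (D.T j v) = x l • D.T j v - (1 - P.Q⁻¹) • x l • v := by rw [h2]; abel
        have h4 : α * x j = x l * α - (1 - P.Q⁻¹) * x l := by linear_combination -hα
        rw [h3, smul_sub, smul_smul, smul_smul, smul_smul, h4]
        module
      · by_cases hj' : j = l
        · subst hj'
          have e : sq x k j j = x k := by
            unfold AN.sq
            rw [swap_apply_right]
          rw [e, map_sub, map_smul, hJ]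
          have h3 : D.J j (D.T k v) = x k • D.T k v + (1 - P.Q⁻¹) • x j • v := by rw [h1]; abel
          have h4 : α * x j = x k * α + (1 - P.Q⁻¹) * x j := by linear_combination hα
          rw [h3, smul_sub, smul_smul, smul_smul, smul_smul, h4]
          module
        · have e : sq x k l j = x j := by
            unfold AN.sq
            rw [swap_apply_of_ne_of_ne hj hj']
          rw [e, map_sub, map_smul, hJ, ← jto hl hj hj', hJ, map_smul, smul_sub, smul_comm]
  · rw [alR_ne hab, zero_smul, sub_zero]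
    obtain ⟨h1, h2⟩ := jtd hE hl hab
    rw [hJ, map_smul] at h1 h2
    refine ⟨te hE hl, fun j => ?_⟩
    by_cases hj : j = k
    · subst hj
      have e : sq x j l j = x l := by
        unfold AN.sq
        rw [swap_apply_left]
      rw [e, h2]
    · by_cases hj' : j = l
      · subst hj'
        have e : sq x k j j = x k := by
          unfold AN.sq
          rw [swap_apply_right]
        rw [e, h1]
      · have e : sq x k l j = x j := by
          unfold AN.sq
          rw [swap_apply_of_ne_of_ne hj hj']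
        rw [e, ← jto hl hj hj', hJ, map_smul]

theorem iw_iw {a : Fin n → Bool} {x : Fin n → K} {v : V} (hv : v ∈ WtR D a x) {k l : Fin n}
    (hl : (l : ℕ) = k + 1) (h : a k = a l → x k ≠ x l) :
    D.T k (D.T k v - P.alR (a k) (a l) (x k) (x l) • v) -
      P.alR (a l) (a k) (x l) (x k) • (D.T k v - P.alR (a k) (a l) (x k) (x l) • v) =
      P.nuR (a k) (a l) (x k) (x l) • v := by
  have hE := hv.1
  have hT := tq (D := D) hE hl
  by_cases hab : a k = a l
  · have hne : x l - x k ≠ 0 := sub_ne_zero.2 (Ne.symm (h hab))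
    have hne' : x k - x l ≠ 0 := sub_ne_zero.2 (h hab)
    have hQ := Q_ne P
    have e1 : P.alR (a k) (a l) (x k) (x l) + P.alR (a l) (a k) (x l) (x k) = 1 - P.Q⁻¹ := by
      rw [alR_eq hab, alR_eq hab.symm, ← neg_sub (x l) (x k)]
      field_simp
      ring
    have e2 : P.nuR (a k) (a l) (x k) (x l) = P.Q⁻¹ + P.alR (a k) (a l) (x k) (x l) *
        P.alR (a l) (a k) (x l) (x k) := by
      unfold Par.nuR
      rw [if_pos hab, alR_eq hab, alR_eq hab.symm, ← neg_sub (x l) (x k)]
      field_simp
      ring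
    rw [if_pos hab] at hT
    rw [e2, map_sub, map_smul, hT, ← e1]
    module
  · have e2 : P.nuR (a k) (a l) (x k) (x l) = P.Q⁻¹ := by
      unfold Par.nuR
      rw [if_neg hab]
    rw [if_neg hab] at hT
    rw [e2, alR_ne hab, alR_ne (Ne.symm hab), zero_smul, sub_zero, zero_smul, sub_zero, hT, zero_smul, add_zero]

theorem yb {a : Fin n → Bool} {x : Fin n → K} {v : V} (hv : v ∈ WtR D a x) {j k l : Fin n}
    (hk : (k : ℕ) = j + 1) (hl : (l : ℕ) = k + 1) (h1 : a j = a k → x j ≠ x k)
    (h2 : a k = a l → x k ≠ x l) (h3 : a j = a l → x j ≠ x l) {A B C : K}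
    (hA : A = P.alR (a j) (a k) (x j) (x k)) (hB : B = P.alR (a k) (a l) (x k) (x l))
    (hC : C = P.alR (a j) (a l) (x j) (x l)) :
    D.T j (D.T k (D.T j v - A • v) - C • (D.T j v - A • v)) -
      B • (D.T k (D.T j v - A • v) - C • (D.T j v - A • v)) =
    D.T k (D.T j (D.T k v - B • v) - C • (D.T k v - B • v)) -
      A • (D.T j (D.T k v - B • v) - C • (D.T k v - B • v)) := by
  have hE := hv.1
  have hTj := tq (D := D) hE hk
  have hTk := tq (D := D) hE hl
  have hb := br' (D := D) (v := v) hk hl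
  simp only [map_sub, map_smul]
  rw [hb, hTj, hTk]
  by_cases hjk : a j = a k
  · by_cases hkl : a k = a l
    · have hjl : a j = a l := hjk.trans hkl
      rw [if_pos hjk, if_pos hkl]
      have n1 : x k - x j ≠ 0 := sub_ne_zero.2 (Ne.symm (h1 hjk))
      have n2 : x l - x k ≠ 0 := sub_ne_zero.2 (Ne.symm (h2 hkl))
      have n3 : x l - x j ≠ 0 := sub_ne_zero.2 (Ne.symm (h3 hjl))
      rw [alR_eq hjk] at hA
      rw [alR_eq hkl] at hB
      rw [alR_eq hjl] at hC
      have key : A * C + B * C - A * B - C * (1 - P.Q⁻¹) = 0 := by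
        rw [hA, hB, hC]
        generalize 1 - P.Q⁻¹ = c
        field_simp
        ring
      have e : (A * C + B * C - A * B - C * (1 - P.Q⁻¹)) • (D.T j v - D.T k v) = 0 := by rw [key, zero_smul]
      rw [← sub_eq_zero, ← e]
      module
    · have hjl : a j ≠ a l := by rw [hjk]; exact hkl
      rw [alR_ne hkl] at hB
      rw [alR_ne hjl] at hC
      rw [hB, hC]
      module
  · by_cases hkl : a k = a l
    · have hjl : a j ≠ a l := by rw [← hkl]; exact hjk
      rw [alR_ne hjk] at hA
      rw [alR_ne hjl] at hC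
      rw [hA, hC]
      module
    · rw [alR_ne hjk] at hA
      rw [alR_ne hkl] at hB
      rw [hA, hB, if_neg hjk, if_neg hkl]
      module

end

end AO
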