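import Pool.Agent.AO.K02

/-!
# MP_6c3636_al, AO, module K03: the weights of real symmetric operators (helper7)

`J_symm`: induction on `k` (`J0`, `Js`). `T = D.T k`. `rw_zero`: apply `Xq` to `v = D.E a v`: `x k ^ 2 = (r₊ + r₋) x k - r₊ r₋`. `rw_nz`: `X` and the `T k` are injective on the range of `D.Et` (`Xq`, `r₊ r₋ ≠ 0`, as `P.w b ≠ 0`, `P.q ≠ 0`; `Tq`: `T (T u - (1 - Q⁻¹) • u) = Q⁻¹ • u` or `T (T u) = Q⁻¹ • u` for `u` in the range of `E a`; for `u` in the range of `Et` the operators `T` permutes the components `E a u`), so by induction all `J k` are injective on the range of `D.Et`. `rw_ne`: if `a k = a l` and `x k = x l = y` then `(J l - y) (T v) = ((1 - Q⁻¹) * y) • v` (K01 `TJ`), `(1 - Q⁻¹) * y * inner v v = inner ((J l - y) (T v)) v = inner (T v) ((J l - y) v) = 0`. `rw_one`, `rw_neg`: `u = T v - α • v ∈ WtR D (sq a k l) (sq x k l)` (K02) is orthogonal to `v` (eigenvectors of `J k` with different eigenvalues), `inner (T v) (T v) = inner (T (T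 v)) v = Q⁻¹ inner v v + (1 - Q⁻¹) inner (T v) v`, `inner (T v) v = α inner v v`, so `inner u u = nu * inner v v` with `nu = Q⁻¹ + α * (1 - Q⁻¹) - α ^ 2 = P.nuR ..`. It is zero if `x l = Q * x k` or `Q * x l = x k`; then `α = 1` or `α = - Q⁻¹`. `rw_sw`: otherwise `nu ≠ 0`; if the labels are different: `T v ≠ 0` as `T (T v) = Q⁻¹ • v`, and `sq a k l ≠ a`. `rw_pat`: with `S = D.T j`, `T = D.T k`: if `x k = Q * x j` we have `S v = v`, `T v = - Q⁻¹ • v` (as `Q * x l = x k`), `S T S v = - Q⁻¹ • v`, `T S T v = Q⁻¹ ^ 2 • v`, contradiction to `br` (`Q ≠ -1` as `Q > 0`). The other case in the same way.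
-/

namespace AO

noncomputable section

open Classical Equiv

open AN (sq)

variable {E : Type} [NormedAddCommGroup E] [InnerProductSpace ℝ E] {P : Par ℝ} {n : ℕ}
  {D : HA P n (Module.End ℝ E)}

/-- the operators are symmetric -/
structure SA (D : HA P n (Module.End ℝ E)) : Prop where
  E : ∀ a x y, inner ℝ (D.E a x) y = inner ℝ x (D.E a y)
  T : ∀ i x y, inner ℝ (D.T i x) y = inner ℝ x (D.T i y)
  X : ∀ x y, inner ℝ (D.X x) y = inner ℝ x (D.X y)

theorem J_symm (h : SA D) (k : Fin n) (x y : E) : inner ℝ (D.J k x) y = inner ℝ x (D.J k y) := by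
  have key : ∀ m : ℕ, ∀ k : Fin n, (k : ℕ) = m → ∀ x y : E,
      inner ℝ (D.J k x) y = inner ℝ x (D.J k y) := by
    intro m
    induction m with
    | zero =>
      intro k hk x y
      rw [D.J0 k hk]
      exact h.X x y
    | succ m ih =>
      intro l hl x y
      have hm : m < n := by omega
      have hl' : (l : ℕ) = (⟨m, hm⟩ : Fin n) + 1 := hl
      rw [D.Js hl']
      simp only [LinearMap.smul_apply, Module.End.mul_apply, inner_smul_left, inner_smul_right]
      rw [h.T, ih ⟨m, hm⟩ rfl, h.T]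
      simp
  exact key k k rfl x y

private theorem Qpos (P : Par ℝ) : 0 < P.Q := by
  have h3 := P.three
  have : (0 : ℝ) < (P.q : ℝ) := by
    have : 0 < P.q := by omega
    exact_mod_cast this
  exact pow_pos this _

private theorem Q_one_lt (P : Par ℝ) : 1 < P.Q := by
  have h3 := P.three
  have : (1 : ℝ) < (P.q : ℝ) := by
    have : 1 < P.q := by omega
    exact_mod_cast this
  exact one_lt_pow₀ this P.pos.ne'

private theorem Et_fix {a : Fin n → Bool} {x : Fin n → ℝ} {v : E} (hv : v ∈ WtR D a x) : D.Et v = v := by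
  have h := congrArg (fun f => f v) (D.Et_mul a)
  simp only [Module.End.mul_apply] at h
  rw [hv.1] at h
  exact h

private theorem Et_zero {u : E} (hu : D.Et u = u) (h : ∀ a, D.E a u = 0) : u = 0 := by
  rw [← hu]
  show (∑ a, D.E a) u = 0
  rw [LinearMap.sum_apply]
  exact Finset.sum_eq_zero fun a _ => h a

private theorem T_inj {u : E} (hu : D.Et u = u) {k l : Fin n} (hl : (l : ℕ) = k + 1) (h : D.T k u = 0) :
    u = 0 := by
  refine Et_zero hu fun a => ?_
  have h1 := congrArg (fun f => f u) (D.TE k l hl a)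
  simp only [Module.End.mul_apply] at h1
  rw [h, map_zero] at h1
  have h2 := congrArg (fun f => f u) (D.Tq k l hl a)
  simp only [Module.End.mul_apply, LinearMap.add_apply, LinearMap.smul_apply] at h2
  rw [h1, map_zero] at h2
  have h3 : (if a k = a l then (1 - P.Q⁻¹) • (D.T k * D.E a) else 0 : Module.End ℝ E) u = 0 := by
    split_ifs
    · rw [LinearMap.smul_apply, Module.End.mul_apply, h1, smul_zero]
    · rfl
  rw [h3, add_zero] at h2
  have h4 : P.Q⁻¹ ≠ 0 := inv_ne_zero (Qpos P).ne'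
  exact (smul_eq_zero.mp h2.symm).resolve_left h4

private theorem r_ne (y : Ty) : P.r y ≠ 0 := by
  have h3 := P.three
  have h0 : (P.q : ℝ) ≠ 0 := by
    have : P.q ≠ 0 := by omega
    exact_mod_cast this
  have h1 : ((sg y : ℤ) : ℝ) ≠ 0 := by
    unfold sg
    split_ifs <;> simp
  exact mul_ne_zero (mul_ne_zero (P.ne _) h1) (zpow_ne_zero _ h0)

private theorem X_inj {u : E} (hu : D.Et u = u) {k : Fin n} (hk : (k : ℕ) = 0) (h : D.X u = 0) :
    u = 0 := by
  refine Et_zero hu fun a => ?_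
  have h1 := congrArg (fun f => f u) (D.XE a)
  simp only [Module.End.mul_apply] at h1
  rw [h, map_zero] at h1
  have h2 := congrArg (fun f => f u) (D.Xq k hk a)
  simp only [Module.End.mul_apply, LinearMap.sub_apply, LinearMap.smul_apply] at h2
  rw [h1, map_zero, smul_zero, zero_sub] at h2
  have h3 : P.r (yp (a k)) * P.r (yn (a k)) ≠ 0 := mul_ne_zero (r_ne _) (r_ne _)
  have h4 := neg_eq_zero.mp h2.symm
  exact (smul_eq_zero.mp h4).resolve_left h3

private theorem J_inj (m : ℕ) : ∀ (k : Fin n), (k : ℕ) = m → ∀ u : E, D.Et u = u → D.J k u = 0 → u = 0 := by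
  induction m with
  | zero =>
    intro k hk u hu h
    rw [D.J0 k hk] at h
    exact X_inj hu hk h
  | succ m ih =>
    intro l hl u hu h
    have hm : m < n := by omega
    have hl' : (l : ℕ) = (⟨m, hm⟩ : Fin n) + 1 := hl
    rw [D.Js hl', LinearMap.smul_apply] at h
    have h1 := (smul_eq_zero.mp h).resolve_left (Qpos P).ne'
    rw [Module.End.mul_apply, Module.End.mul_apply] at h1
    have e1 : ∀ w : E, D.Et (D.T ⟨m, hm⟩ w) = D.T ⟨m, hm⟩ w := fun w => by
      rw [← Module.End.mul_apply, D.ET1 hl']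
    have e2 : ∀ w : E, D.Et (D.J ⟨m, hm⟩ w) = D.J ⟨m, hm⟩ w := fun w => by
      rw [← Module.End.mul_apply, D.EJ1]
    have h2 := T_inj (e2 _) hl' h1
    have h3 := ih ⟨m, hm⟩ rfl _ (e1 _) h2
    exact T_inj hu hl' h3

private theorem orth (h : SA D) {a b : Fin n → Bool} {x y : Fin n → ℝ} {u v : E} (hu : u ∈ WtR D b y)
    (hv : v ∈ WtR D a x) {k : Fin n} (hxy : y k ≠ x k) : inner ℝ u v = 0 := by
  have h1 := J_symm h k u v
  rw [hu.2 k, hv.2 k, inner_smul_left, inner_smul_right] at h1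
  have h2 : (y k - x k) * inner ℝ u v = 0 := by
    rw [sub_mul]
    simpa [sub_eq_zero] using h1
  exact (mul_eq_zero.mp h2).resolve_left (sub_ne_zero.mpr hxy)

private theorem TT {a : Fin n → Bool} {x : Fin n → ℝ} {v : E} (hv : v ∈ WtR D a x)
    {k l : Fin n} (hl : (l : ℕ) = k + 1) (ha : a k = a l) :
    D.T k (D.T k v) = P.Q⁻¹ • v + (1 - P.Q⁻¹) • D.T k v := by
  have h2 := congrArg (fun f => f v) (D.Tq k l hl a)
  rw [if_pos ha] at h2
  simp only [Module.End.mul_apply, LinearMap.add_apply, LinearMap.smul_apply] at h2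
  rw [hv.1] at h2
  exact h2

private theorem TTd {a : Fin n → Bool} {x : Fin n → ℝ} {v : E} (hv : v ∈ WtR D a x)
    {k l : Fin n} (hl : (l : ℕ) = k + 1) (ha : a k ≠ a l) :
    D.T k (D.T k v) = P.Q⁻¹ • v := by
  have h2 := congrArg (fun f => f v) (D.Tq k l hl a)
  rw [if_neg ha] at h2
  simp only [Module.End.mul_apply, LinearMap.add_apply, LinearMap.smul_apply, add_zero] at h2
  rw [hv.1] at h2
  exact h2

private theorem sq_k3 {X : Type} (α : Fin n → X) (k l : Fin n) : sq α k l k = α l := by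
  show α (swap k l k) = α l
  rw [swap_apply_left]

/-- the norm of the image under the intertwiner -/
private theorem nrm (h : SA D) {a : Fin n → Bool} {x : Fin n → ℝ} {v : E} (hv : v ∈ WtR D a x)
    {k l : Fin n} (hl : (l : ℕ) = k + 1) (ha : a k = a l) (hx : x k ≠ x l) {α : ℝ}
    (hα : α = P.alR (a k) (a l) (x k) (x l)) :
    inner ℝ (D.T k v - α • v) (D.T k v - α • v) =
      (P.Q⁻¹ + (1 - P.Q⁻¹) * α - α ^ 2) * inner ℝ v v := by
  have hu := iw_mem hv hl (fun _ => hx)
  rw [← hα] at hu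
  have h1 : inner ℝ (D.T k v - α • v) v = 0 := by
    refine orth h hu hv (k := k) ?_
    rw [sq_k3]
    exact hx.symm
  have h2 : inner ℝ (D.T k v) v = α * inner ℝ v v := by
    rw [inner_sub_left, inner_smul_left, sub_eq_zero] at h1
    simpa using h1
  have h3 : inner ℝ (D.T k v) (D.T k v) = P.Q⁻¹ * inner ℝ v v + (1 - P.Q⁻¹) * (α * inner ℝ v v) := by
    rw [← h.T, TT hv hl ha, inner_add_left, inner_smul_left, inner_smul_left, h2]
    simp
  have h4 : inner ℝ v (D.T k v) = α * inner ℝ v v := by rw [real_inner_comm, h2]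
  rw [inner_sub_right, inner_smul_right, h1, inner_sub_left, h3, inner_smul_left, h4]
  simp only [conj_trivial]
  ring

theorem rw_zero {a : Fin n → Bool} {x : Fin n → ℝ} {v : E} (hv : v ∈ WtR D a x) (h0 : v ≠ 0)
    {k : Fin n} (hk : (k : ℕ) = 0) : x k = P.r (yp (a k)) ∨ x k = P.r (yn (a k)) := by
  have h2 := congrArg (fun f => f v) (D.Xq k hk a)
  simp only [Module.End.mul_apply, LinearMap.sub_apply, LinearMap.smul_apply] at h2
  have hX : D.X v = x k • v := by
    rw [← D.J0 k hk]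
    exact hv.2 k
  rw [hv.1, hX, map_smul, hX] at h2
  have h3 : ((x k - P.r (yp (a k))) * (x k - P.r (yn (a k)))) • v = 0 := by
    have e : ((x k - P.r (yp (a k))) * (x k - P.r (yn (a k)))) • v =
        x k • x k • v - ((P.r (yp (a k)) + P.r (yn (a k))) • x k • v -
          (P.r (yp (a k)) * P.r (yn (a k))) • v) := by
      simp only [smul_smul, ← sub_smul]
      congr 1
      ring
    rw [e, h2, sub_self]
  have h4 := (smul_eq_zero.mp h3).resolve_right h0
  rcases mul_eq_zero.mp h4 with h5 | h5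
  · left
    exact sub_eq_zero.mp h5
  · right
    exact sub_eq_zero.mp h5

theorem rw_nz {a : Fin n → Bool} {x : Fin n → ℝ} {v : E} (hv : v ∈ WtR D a x) (h0 : v ≠ 0)
    (k : Fin n) : x k ≠ 0 := by
  intro hx
  apply h0
  refine J_inj (D := D) k k rfl v (Et_fix hv) ?_
  rw [hv.2 k, hx, zero_smul]

theorem rw_ne (h : SA D) {a : Fin n → Bool} {x : Fin n → ℝ} {v : E} (hv : v ∈ WtR D a x)
    (h0 : v ≠ 0) {k l : Fin n} (hl : (l : ℕ) = k + 1) (ha : a k = a l) : x k ≠ x l := by
  intro hx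
  have h1 := congrArg (fun f => f v) (D.TJ hl ha)
  simp only [Module.End.mul_apply, LinearMap.sub_apply, LinearMap.smul_apply] at h1
  rw [hv.1, hv.2 k, hv.2 l, map_smul] at h1
  have h2 : inner ℝ (x k • D.T k v) v = inner ℝ (D.J l (D.T k v) - (1 - P.Q⁻¹) • x l • v) v := by
    rw [h1]
  rw [inner_sub_left, J_symm h, hv.2 l] at h2
  simp only [inner_smul_left, inner_smul_right, conj_trivial] at h2
  rw [hx] at h2
  have h3 : (1 - P.Q⁻¹) * (x l * inner ℝ v v) = 0 := by linarith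
  have hQ := Q_one_lt P
  have h4 : (1 - P.Q⁻¹) ≠ 0 := by
    have : P.Q⁻¹ < 1 := inv_lt_one_of_one_lt₀ hQ
    linarith
  have h5 := (mul_eq_zero.mp h3).resolve_left h4
  have h6 := (mul_eq_zero.mp h5).resolve_left (rw_nz hv h0 l)
  exact h0 (inner_self_eq_zero.mp h6)

theorem rw_one (h : SA D) {a : Fin n → Bool} {x : Fin n → ℝ} {v : E} (hv : v ∈ WtR D a x)
    {k l : Fin n} (hl : (l : ℕ) = k + 1) (ha : a k = a l) (hx : x l = P.Q * x k) :
    D.T k v = v := by
  by_cases h0 : v = 0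
  · rw [h0, map_zero]
  have hQ := Q_one_lt P
  have hk := rw_nz hv h0 k
  have hne : x k ≠ x l := rw_ne h hv h0 hl ha
  have hα : (1 : ℝ) = P.alR (a k) (a l) (x k) (x l) := by
    unfold Par.alR
    rw [if_pos ha, hx]
    have h1 : P.Q * x k - x k ≠ 0 := by
      have : P.Q * x k - x k = (P.Q - 1) * x k := by ring
      rw [this]
      exact mul_ne_zero (by linarith) hk
    have h2 : P.Q ≠ 0 := by linarith
    rw [eq_div_iff h1]
    field_simp
  have h1 := nrm h hv hl ha hne hα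
  have h2 : (P.Q⁻¹ + (1 - P.Q⁻¹) * 1 - 1 ^ 2 : ℝ) = 0 := by ring
  rw [h2, zero_mul] at h1
  have h3 := inner_self_eq_zero.mp h1
  rw [one_smul] at h3
  exact sub_eq_zero.mp h3

theorem rw_neg (h : SA D) {a : Fin n → Bool} {x : Fin n → ℝ} {v : E} (hv : v ∈ WtR D a x)
    {k l : Fin n} (hl : (l : ℕ) = k + 1) (ha : a k = a l) (hx : P.Q * x l = x k) :
    D.T k v = - (P.Q⁻¹ • v) := by
  by_cases h0 : v = 0
  · rw [h0, map_zero, smul_zero, neg_zero]
  have hQ := Q_one_lt P
  have hk := rw_nz hv h0 l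
  have hne : x k ≠ x l := rw_ne h hv h0 hl ha
  have hα : (- P.Q⁻¹ : ℝ) = P.alR (a k) (a l) (x k) (x l) := by
    unfold Par.alR
    rw [if_pos ha, ← hx]
    have h1 : x l - P.Q * x l ≠ 0 := by
      have : x l - P.Q * x l = (1 - P.Q) * x l := by ring
      rw [this]
      exact mul_ne_zero (by linarith) hk
    have h2 : P.Q ≠ 0 := by linarith
    rw [eq_div_iff h1]
    field_simp
    ring
  have h1 := nrm h hv hl ha hne hα
  have h2 : (P.Q⁻¹ + (1 - P.Q⁻¹) * (- P.Q⁻¹) - (- P.Q⁻¹) ^ 2 : ℝ) = 0 := by ring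
  rw [h2, zero_mul] at h1
  have h3 := inner_self_eq_zero.mp h1
  rw [neg_smul, sub_neg_eq_add] at h3
  exact eq_neg_of_add_eq_zero_left h3

theorem rw_sw (h : SA D) {a : Fin n → Bool} {x : Fin n → ℝ} {v : E} (hv : v ∈ WtR D a x)
    (h0 : v ≠ 0) {k l : Fin n} (hl : (l : ℕ) = k + 1)
    (h1 : a k ≠ a l ∨ (x l ≠ P.Q * x k ∧ P.Q * x l ≠ x k)) :
    ∃ u, u ≠ 0 ∧ u ∈ WtR D (sq a k l) (sq x k l) := by
  have hQ := Q_one_lt P
  have hQ0 : P.Q ≠ 0 := by linarith
  by_cases ha : a k = a l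
  · have h2 := h1.resolve_left (fun c => c ha)
    have hne : x k ≠ x l := rw_ne h hv h0 hl ha
    refine ⟨_, ?_, iw_mem hv hl (fun _ => hne)⟩
    intro hz
    have h3 := nrm h hv hl ha hne rfl
    rw [hz, inner_zero_left] at h3
    have h4 : inner ℝ v v ≠ 0 := fun c => h0 (inner_self_eq_zero.mp c)
    have h5 := (mul_eq_zero.mp h3.symm).resolve_right h4
    unfold Par.alR at h5
    rw [if_pos ha] at h5
    have h6 : x l - x k ≠ 0 := sub_ne_zero.mpr hne.symm
    have h7 : (x l - P.Q * x k) * (P.Q * x l - x k) = 0 := by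
      have e : (x l - P.Q * x k) * (P.Q * x l - x k) = (P.Q ^ 2 * (x l - x k) ^ 2) *
          (P.Q⁻¹ + (1 - P.Q⁻¹) * ((1 - P.Q⁻¹) * x l / (x l - x k)) -
            ((1 - P.Q⁻¹) * x l / (x l - x k)) ^ 2) := by
        field_simp
        ring
      rw [e, h5, mul_zero]
    rcases mul_eq_zero.mp h7 with h8 | h8
    · exact h2.1 (sub_eq_zero.mp h8)
    · exact h2.2 (sub_eq_zero.mp h8)
  · refine ⟨_, ?_, iw_mem hv hl (fun c => (ha c).elim)⟩
    have e : P.alR (a k) (a l) (x k) (x l) = 0 := by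
      unfold Par.alR
      rw [if_neg ha]
    rw [e, zero_smul, sub_zero]
    intro hz
    have h2 := TTd hv hl ha
    rw [hz, map_zero] at h2
    exact h0 ((smul_eq_zero.mp h2.symm).resolve_left (inv_ne_zero hQ0))

theorem rw_pat (h : SA D) {a : Fin n → Bool} {x : Fin n → ℝ} {v : E} (hv : v ∈ WtR D a x)
    (h0 : v ≠ 0) {j k l : Fin n} (hk : (k : ℕ) = j + 1) (hl : (l : ℕ) = k + 1) (h1 : a j = a k)
    (h2 : a k = a l) (h3 : x l = x j) : ¬ (x k = P.Q * x j ∨ P.Q * x k = x j) := by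
  have hQ := Q_one_lt P
  have hb := congrArg (fun f => f v) (D.br j k l hk hl)
  simp only [Module.End.mul_apply] at hb
  have hfin : ∀ w : E, w ≠ 0 → - (P.Q⁻¹ • w) = P.Q⁻¹ • P.Q⁻¹ • w → False := by
    intro w hw he
    have e1 : (P.Q⁻¹ * P.Q⁻¹ + P.Q⁻¹) • w = 0 := by
      rw [add_smul, ← smul_smul, ← he, neg_add_cancel]
    have e2 := (smul_eq_zero.mp e1).resolve_right hw
    have e3 : 0 < P.Q⁻¹ := inv_pos.mpr (by linarith)
    nlinarith
  rintro (hx | hx)
  · have e1 := rw_one h hv hk h1 hx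
    have e2 := rw_neg h hv hl h2 (by rw [h3, hx])
    rw [e1, e2] at hb
    simp only [map_neg, map_smul] at hb
    rw [e1] at hb
    refine hfin v h0 ?_
    rw [hb, e2]
    simp
  · have e1 := rw_neg h hv hk h1 hx
    have e2 := rw_one h hv hl h2 (by rw [h3, hx])
    rw [e2, e1] at hb
    simp only [map_neg, map_smul] at hb
    rw [e2] at hb
    refine hfin v h0 ?_
    rw [← hb, e1]
    simp

end

end AO
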