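import Pool.Agent.AO.S02
import Pool.Agent.AO.K01

/-!
# MP_6c3636_al, AO, module K04: the weights are legal sequences of boxes (helper7)

The typed version of `AN.lg_of_set` (AN/J04.lean: read its docstring and proof; copy and adapt the proof). `P.x (y, c) = P.r y * Q ^ c`; for two types `y ≠ y'` with the same label `P.r y / P.r y' < 0`, so `P.x` is injective on the boxes with a given label, and `P.x z' = Q * P.x z` (same label) iff `z'.1 = z.1` and `z'.2 = z.2 + 1` (`x_inj`, `x_succ`). Claim for `m ≤ n`, by induction on `m`, for all `w = (a, x) ∈ W`: for all `k < m` there is a box `β k` with `lb (β k).1 = a k`, `P.x (β k) = x k` (unique by `x_inj`; use a choice function on pairs (label, eigenvalue)), and the steps `k < m` are legal (`occT β k (β k) = 1`, `occT β k ((β k).1, (β k).2 + 1) = 0`). `m = 1`: `h0`, content `0`. Step: `b = β (m - 1)` the box at `m - 1`, `x m` the next eigenvalue. (1) If the labels are different or `x m ≠ Q * x (m - 1)`,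 `Q * x m ≠ x (m - 1)`: use the claim for `sq w (m - 1) m ∈ W` (`hsw`) and `m`: there is a box `z` for position `m`, legal at the state before the step `m - 1`; `z` and `b` are far from each other (different types, or contents which differ by at least `2`, by `hne` and the assumption), so the step `z` is legal after the step `b`. (2) same label, `x m = Q * x (m - 1)`: `z = (b.1, b.2 + 1)`. After the step `b` there is a bead at `z`. If there is a bead at `(z.1, z.2 + 1)`: there is a `j < m - 1` with `β j = z`; take the last one; between `j` and `m - 1` there are no boxes of the type of `b` with contents `z.2 - 1`, `z.2`, `z.2 + 1`, so all entries between are far from `z` and by repeated use of `hsw` we can move `z` from `j` to `m - 2`, contradiction to `hpat`. (3) same label, `Q * x m = x (m - 1)`: `z = (b.1, b.2 - 1)`, as in AN/J04. (An alternative: move all entries of one class, label and eigenvalue modulo powers of `Q`, to the front by `hsw`, and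 apply `AN.lg_of_set` to the set of the initial segments.)
-/

namespace AO

noncomputable section

open Classical Equiv

open AN (sq)

namespace K04_aux

theorem q_pos (P : Par ℝ) : (0 : ℝ) < (P.q : ℝ) := by
  have := P.three
  exact_mod_cast (by omega : 0 < P.q)

theorem Q_gt (P : Par ℝ) : 1 < P.Q := by
  have h1 : (1 : ℝ) < (P.q : ℝ) := by
    have := P.three
    exact_mod_cast (by omega : 1 < P.q)
  exact one_lt_pow₀ h1 P.pos.ne'

theorem Q_pos (P : Par ℝ) : 0 < P.Q := lt_trans zero_lt_one (Q_gt P)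

theorem sg_cases (y : Ty) : sg y = 1 ∨ sg y = -1 := by
  revert y
  decide

theorem ty_eq {y z : Ty} (h : lb y = lb z) (h' : sg y = sg z) : y = z := by
  revert y z
  decide

theorem x_pos_ne {P : Par ℝ} (y z : Ty) (c d : ℤ) (h : lb y = lb z) (h1 : sg y = 1) (h2 : sg z = -1) :
    P.x (y, c) ≠ P.x (z, d) := by
  intro h'
  have h3 : P.w (lb y) * (((sg y : ℤ) : ℝ)) * (P.q : ℝ) ^ (P.j y) * P.Q ^ c =
      P.w (lb z) * (((sg z : ℤ) : ℝ)) * (P.q : ℝ) ^ (P.j z) * P.Q ^ d := h'
  rw [h1, h2, ← h] at h3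
  have h4 : (0 : ℝ) < (P.q : ℝ) ^ (P.j y) * P.Q ^ c := mul_pos (zpow_pos (q_pos P) _) (zpow_pos (Q_pos P) _)
  have h5 : (0 : ℝ) < (P.q : ℝ) ^ (P.j z) * P.Q ^ d := mul_pos (zpow_pos (q_pos P) _) (zpow_pos (Q_pos P) _)
  have h6 : P.w (lb y) * ((P.q : ℝ) ^ (P.j y) * P.Q ^ c + (P.q : ℝ) ^ (P.j z) * P.Q ^ d) = 0 := by
    push_cast at h3
    linear_combination h3
  rcases mul_eq_zero.1 h6 with h7 | h7
  · exact P.ne _ h7
  · linarith

end K04_aux

open K04_aux

theorem x_inj {P : Par ℝ} {x y : Et} (h : lb x.1 = lb y.1) (h' : P.x x = P.x y) : x = y := by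
  obtain ⟨a, c⟩ := x
  obtain ⟨b, d⟩ := y
  simp only at h
  rcases sg_cases a with h1 | h1 <;> rcases sg_cases b with h2 | h2
  case inl.inr => exact absurd h' (x_pos_ne a b c d h h1 h2)
  case inr.inl => exact absurd h'.symm (x_pos_ne b a d c h.symm h2 h1)
  all_goals
    have h3 : a = b := ty_eq h (h1.trans h2.symm)
    subst h3
    have h4 : P.r a ≠ 0 := by
      show P.w (lb a) * (((sg a : ℤ) : ℝ)) * (P.q : ℝ) ^ (P.j a) ≠ 0
      refine mul_ne_zero (mul_ne_zero (P.ne _) ?_) (zpow_pos (q_pos P) _).ne'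
      rw [h1]
      norm_num
    have h5 : P.Q ^ c = P.Q ^ d := mul_left_cancel₀ h4 h'
    have h6 : c = d := (zpow_right_strictMono₀ (Q_gt P)).injective h5
    rw [h6]

theorem x_succ {P : Par ℝ} {x y : Et} (h : lb x.1 = lb y.1) (h' : P.x y = P.Q * P.x x) :
    y.1 = x.1 ∧ y.2 = x.2 + 1 := by
  have h1 : P.x (x.1, x.2 + 1) = P.Q * P.x x := by
    show P.r x.1 * P.Q ^ (x.2 + 1) = P.Q * (P.r x.1 * P.Q ^ x.2)
    rw [zpow_add_one₀ (Q_pos P).ne']
    ring
  have h2 : y = (x.1, x.2 + 1) := x_inj h.symm (h'.trans h1.symm)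
  rw [h2]
  exact ⟨rfl, rfl⟩

namespace K04_aux

variable {n : ℕ}

/-- the box with given label and eigenvalue -/
def bx (P : Par ℝ) (b : Bool) (t : ℝ) : Et := if h : ∃ z : Et, lb z.1 = b ∧ P.x z = t then h.choose else (0, 0)

theorem bx_eq {P : Par ℝ} {b : Bool} {t : ℝ} {z : Et} (h1 : lb z.1 = b) (h2 : P.x z = t) : bx P b t = z := by
  have h : ∃ z : Et, lb z.1 = b ∧ P.x z = t := ⟨z, h1, h2⟩
  rw [bx, dif_pos h]
  exact x_inj (h.choose_spec.1.trans h1.symm) (h.choose_spec.2.trans h2.symm)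

theorem x_next {P : Par ℝ} (y : Ty) (c : ℤ) : P.x (y, c + 1) = P.Q * P.x (y, c) := by
  show P.r y * P.Q ^ (c + 1) = P.Q * (P.r y * P.Q ^ c)
  rw [zpow_add_one₀ (Q_pos P).ne']
  ring

theorem occ_congr {β γ : Fin n → Et} {k : ℕ} (h : ∀ j : Fin n, (j : ℕ) < k → β j = γ j) (x : Et) :
    occT β k x = occT γ k x := by
  have hc : ∀ y : Et, cnT β k y = cnT γ k y := by
    intro y
    unfold cnT
    congr 1
    ext j
    simp only [Finset.mem_filter, Finset.mem_univ, true_and]
    constructor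
    · rintro ⟨h1, h2⟩
      exact ⟨h1, by rw [← h j h1]; exact h2⟩
    · rintro ⟨h1, h2⟩
      exact ⟨h1, by rw [h j h1]; exact h2⟩
  unfold occT
  rw [hc x, hc (x.1, x.2 - 1)]

/-- the step `k` is legal -/
def st (β : Fin n → Et) (k : Fin n) : Prop := occT β k (β k) = 1 ∧ occT β k ((β k).1, (β k).2 + 1) = 0

theorem ne_succ (z : Et) : z ≠ (z.1, z.2 + 1) := by
  intro h
  have := congrArg Prod.snd h
  simp only at this
  omega

theorem occ_01' {β : Fin n → Et} {m : ℕ} (hm : m ≤ n) (h : ∀ k : Fin n, (k : ℕ) < m → st β k) :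
    ∀ k : ℕ, k ≤ m → ∀ x : Et, occT β k x = 0 ∨ occT β k x = 1 := by
  intro k
  induction k with
  | zero =>
    intro _ x
    rw [occT_zero]
    split_ifs
    · exact Or.inr rfl
    · exact Or.inl rfl
  | succ k ih =>
    intro hk x
    have hkn : k < n := by omega
    obtain ⟨h1, h1'⟩ := h ⟨k, hkn⟩ (by simpa using hk)
    have h2 := occT_succ β ⟨k, hkn⟩ x
    simp only at h1 h1' h2
    rw [h2]
    rcases ih (by omega) x with h3 | h3
    · rw [h3]
      by_cases hx : x = β ⟨k, hkn⟩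
      · exfalso
        rw [hx] at h3
        rw [h3] at h1
        exact zero_ne_one h1
      · rw [if_neg hx]
        split_ifs
        · exact Or.inr (by norm_num)
        · exact Or.inl (by norm_num)
    · rw [h3]
      by_cases hx : x = ((β ⟨k, hkn⟩).1, (β ⟨k, hkn⟩).2 + 1)
      · exfalso
        rw [hx] at h3
        rw [h3] at h1'
        exact one_ne_zero h1'
      · rw [if_neg hx]
        split_ifs
        · exact Or.inl (by norm_num)
        · exact Or.inr (by norm_num)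

theorem gap {β : Fin n → Et} (z : Et) : ∀ m : ℕ, m ≤ n →
    (∀ k : Fin n, (k : ℕ) < m → st β k) →
    occT β m z = 0 → occT β m (z.1, z.2 + 1) = 1 →
    ∃ j : Fin n, (j : ℕ) < m ∧ β j = z ∧
      ∀ i : Fin n, (j : ℕ) < i → (i : ℕ) < m → β i ≠ (z.1, z.2 - 1) ∧ β i ≠ (z.1, z.2 + 1) := by
  intro m
  induction m with
  | zero =>
    intro _ _ h1 h2
    exfalso
    rw [occT_zero] at h1 h2
    simp only at h1 h2
    split_ifs at h1 h2
    all_goals omega
  | succ m ih =>
    intro hm h h1 h2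
    have hmn : m < n := by omega
    obtain ⟨h3, h3'⟩ := h ⟨m, hmn⟩ (by simp)
    have h4 := occT_succ β ⟨m, hmn⟩ z
    have h5 := occT_succ β ⟨m, hmn⟩ (z.1, z.2 + 1)
    simp only at h3 h3' h4 h5
    rw [h4] at h1
    rw [h5] at h2
    by_cases c1 : β ⟨m, hmn⟩ = z
    · refine ⟨⟨m, hmn⟩, by simp, c1, fun i hi1 hi2 => ?_⟩
      exfalso
      simp only at hi1
      omega
    by_cases c2 : β ⟨m, hmn⟩ = (z.1, z.2 - 1)
    · exfalso
      have e : ((β ⟨m, hmn⟩).1, (β ⟨m, hmn⟩).2 + 1) = z := by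
        rw [c2]
        exact Prod.ext rfl (by simp)
      rw [e] at h3' h1
      rw [h3', if_pos rfl, if_neg (fun h => c1 h.symm)] at h1
      omega
    by_cases c3 : β ⟨m, hmn⟩ = (z.1, z.2 + 1)
    · exfalso
      rw [c3] at h3 h2
      rw [h3, if_pos rfl, if_neg (by
        intro h
        have := congrArg Prod.snd h
        simp only at this
        omega)] at h2
      omega
    have d1 : ¬ z = ((β ⟨m, hmn⟩).1, (β ⟨m, hmn⟩).2 + 1) := by
      intro e
      apply c2
      rw [e]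
      exact Prod.ext rfl (by simp)
    have d2 : ¬ ((z.1, z.2 + 1) : Et) = ((β ⟨m, hmn⟩).1, (β ⟨m, hmn⟩).2 + 1) := by
      intro e
      apply c1
      have e1 := congrArg Prod.fst e
      have e2 := congrArg Prod.snd e
      simp only at e1 e2
      exact Prod.ext e1.symm (by omega)
    rw [if_neg d1, if_neg (fun h => c1 h.symm)] at h1
    rw [if_neg d2, if_neg (fun h => c3 h.symm)] at h2
    obtain ⟨j, j1, j2, j3⟩ := ih (by omega) (fun k hk => h k (by omega)) (by omega) (by omega)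
    refine ⟨j, by omega, j2, fun i hi1 hi2 => ?_⟩
    by_cases hi : (i : ℕ) = m
    · have e : i = ⟨m, hmn⟩ := Fin.ext hi
      rw [e]
      exact ⟨c2, c3⟩
    · exact j3 i hi1 (by omega)

theorem sq_k' {X : Type} (a : Fin n → X) (k l : Fin n) : sq a k l k = a l := by
  unfold AN.sq
  rw [swap_apply_left]

theorem sq_l' {X : Type} (a : Fin n → X) (k l : Fin n) : sq a k l l = a k := by
  unfold AN.sq
  rw [swap_apply_right]

theorem sq_o' {X : Type} (a : Fin n → X) {k l j : Fin n} (hk : j ≠ k) (hl : j ≠ l) : sq a k l j = a j := by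
  unfold AN.sq
  rw [swap_apply_of_ne_of_ne hk hl]

theorem move {P : Par ℝ} {W : Set ((Fin n → Bool) × (Fin n → ℝ))}
    (hsw : ∀ w ∈ W, ∀ k l : Fin n, (l : ℕ) = k + 1 →
      (w.1 k ≠ w.1 l ∨ (w.2 l ≠ P.Q * w.2 k ∧ P.Q * w.2 l ≠ w.2 k)) →
        (sq w.1 k l, sq w.2 k l) ∈ W)
    (l : Fin n) : ∀ d : ℕ, ∀ k : Fin n, (l : ℕ) = k + d → ∀ w ∈ W,
      (∀ i : Fin n, (k : ℕ) < i → (i : ℕ) ≤ l →
        (w.1 k ≠ w.1 i ∨ (w.2 i ≠ P.Q * w.2 k ∧ P.Q * w.2 i ≠ w.2 k))) →
      ∃ w' ∈ W, w'.1 l = w.1 k ∧ w'.2 l = w.2 k ∧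
        ∀ i : Fin n, (l : ℕ) < i → w'.1 i = w.1 i ∧ w'.2 i = w.2 i := by
  intro d
  induction d with
  | zero =>
    intro k hk w hw _
    have e : l = k := Fin.ext (by simpa using hk)
    exact ⟨w, hw, by rw [e], by rw [e], fun _ _ => ⟨rfl, rfl⟩⟩
  | succ d ih =>
    intro k hk w hw h
    have hl : (k : ℕ) + 1 < n := by have := l.isLt; omega
    set p : Fin n := ⟨(k : ℕ) + 1, hl⟩ with hp
    have hp1 : (p : ℕ) = k + 1 := rfl
    have h1 := h p (by omega) (by omega)
    have h2 := hsw w hw k p hp1 h1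
    obtain ⟨w', a1, a2, a2', a3⟩ := ih p (by omega) (sq w.1 k p, sq w.2 k p) h2 (by
      intro i hi1 hi2
      have e1 : i ≠ k := by
        intro e
        rw [e] at hi1
        omega
      have e2 : i ≠ p := by
        intro e
        rw [e] at hi1
        omega
      simp only
      rw [sq_o' w.1 e1 e2, sq_o' w.2 e1 e2, sq_l', sq_l']
      exact h i (by omega) hi2)
    simp only at a2 a2' a3
    refine ⟨w', a1, ?_, ?_, ?_⟩
    · rw [a2, sq_l']
    · rw [a2', sq_l']
    · intro i hi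
      have e1 : i ≠ k := by
        intro e
        rw [e] at hi
        omega
      have e2 : i ≠ p := by
        intro e
        rw [e] at hi
        omega
      rw [(a3 i hi).1, (a3 i hi).2, sq_o' w.1 e1 e2, sq_o' w.2 e1 e2]
      exact ⟨rfl, rfl⟩

/-- the boxes of a weight -/
def bs (P : Par ℝ) (w : (Fin n → Bool) × (Fin n → ℝ)) : Fin n → Et := fun i => bx P (w.1 i) (w.2 i)

/-- the steps before `m` are legal -/
def gd (P : Par ℝ) (w : (Fin n → Bool) × (Fin n → ℝ)) (m : ℕ) : Prop := ∀ k : Fin n, (k : ℕ) < m →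
  lb (bs P w k).1 = w.1 k ∧ P.x (bs P w k) = w.2 k ∧ st (bs P w) k

/-- there is no gap at `z` below a bead at the next place if the next two entries are `z ± 1`, `z` -/
theorem nogap {P : Par ℝ} {W : Set ((Fin n → Bool) × (Fin n → ℝ))}
    (hsw : ∀ w ∈ W, ∀ k l : Fin n, (l : ℕ) = k + 1 →
      (w.1 k ≠ w.1 l ∨ (w.2 l ≠ P.Q * w.2 k ∧ P.Q * w.2 l ≠ w.2 k)) →
        (sq w.1 k l, sq w.2 k l) ∈ W)
    (hpat : ∀ w ∈ W, ∀ j k l : Fin n, (k : ℕ) = j + 1 → (l : ℕ) = k + 1 → w.1 j = w.1 k →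
      w.1 k = w.1 l → w.2 l = w.2 j → ¬ (w.2 k = P.Q * w.2 j ∨ P.Q * w.2 k = w.2 j))
    {w : (Fin n → Bool) × (Fin n → ℝ)} (hw : w ∈ W) {p l : Fin n}
    (hl : (l : ℕ) = p + 1) (hg : gd P w p) (z : Et) (hz1 : w.1 l = lb z.1) (hz2 : w.2 l = P.x z)
    (hp1 : w.1 p = lb z.1) (hb : w.2 p = P.Q * P.x z ∨ P.Q * w.2 p = P.x z)
    (h1 : occT (bs P w) p z = 0) (h2 : occT (bs P w) p (z.1, z.2 + 1) = 1) : False := by
  obtain ⟨j, j1, j2, j3⟩ := gap z (p : ℕ) (le_of_lt p.isLt) (fun k hk => (hg k hk).2.2) h1 h2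
  have hq : (p : ℕ) - 1 < n := by have := p.isLt; omega
  set q : Fin n := ⟨(p : ℕ) - 1, hq⟩ with hqd
  have hq1 : (q : ℕ) = p - 1 := rfl
  have hj1 : w.1 j = lb z.1 := by rw [← (hg j j1).1, j2]
  have hj2 : w.2 j = P.x z := by rw [← (hg j j1).2.1, j2]
  obtain ⟨w', a1, a2, a2', a3⟩ := move hsw q ((q : ℕ) - j) j (by omega) w hw (by
    intro i hi1 hi2
    obtain ⟨i1, i2⟩ := j3 i hi1 (by omega)
    obtain ⟨g1, g2, -⟩ := hg i (by omega)
    by_cases hlab : w.1 j = w.1 i
    · right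
      rw [hj2, ← g2]
      have hlab' : lb z.1 = lb (bs P w i).1 := by rw [← hj1, hlab, g1]
      constructor
      · intro e
        obtain ⟨e1, e2⟩ := x_succ hlab' e
        exact i2 (Prod.ext e1 e2)
      · intro e
        obtain ⟨e1, e2⟩ := x_succ hlab'.symm e.symm
        exact i1 (Prod.ext e1.symm (by rw [e2]; simp))
    · exact Or.inl hlab)
  obtain ⟨b1, b1'⟩ := a3 p (by omega)
  obtain ⟨b2, b2'⟩ := a3 l (by omega)
  apply hpat w' a1 q p l (by omega) hl
  · rw [a2, b1, hj1, hp1]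
  · rw [b1, b2, hp1, hz1]
  · rw [b2', a2', hz2, hj2]
  · rw [b1', a2', hj2]
    exact hb

theorem step {P : Par ℝ} {W : Set ((Fin n → Bool) × (Fin n → ℝ))}
    (h0 : ∀ w ∈ W, ∀ k : Fin n, (k : ℕ) = 0 → w.2 k = P.r (yp (w.1 k)) ∨ w.2 k = P.r (yn (w.1 k)))
    (hne : ∀ w ∈ W, ∀ k l : Fin n, (l : ℕ) = k + 1 → w.1 k = w.1 l → w.2 k ≠ w.2 l)
    (hsw : ∀ w ∈ W, ∀ k l : Fin n, (l : ℕ) = k + 1 →
      (w.1 k ≠ w.1 l ∨ (w.2 l ≠ P.Q * w.2 k ∧ P.Q * w.2 l ≠ w.2 k)) →
        (sq w.1 k l, sq w.2 k l) ∈ W)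
    (hpat : ∀ w ∈ W, ∀ j k l : Fin n, (k : ℕ) = j + 1 → (l : ℕ) = k + 1 → w.1 j = w.1 k →
      w.1 k = w.1 l → w.2 l = w.2 j → ¬ (w.2 k = P.Q * w.2 j ∨ P.Q * w.2 k = w.2 j))
    (m : ℕ) (ih : ∀ w ∈ W, gd P w m) : ∀ w ∈ W, gd P w (m + 1) := by
  intro w hw l hlm
  by_cases hlt : (l : ℕ) < m
  · exact ih w hw l hlt
  have hle : (l : ℕ) = m := by omega
  rcases Nat.eq_zero_or_pos m with hm | hm
  · have e0 : (l : ℕ) = 0 := by omega
    obtain ⟨y, y1, y2⟩ : ∃ y : Ty, lb y = w.1 l ∧ w.2 l = P.r y := by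
      rcases h0 w hw l e0 with h | h
      · exact ⟨_, lb_yp _, h⟩
      · exact ⟨_, lb_yn _, h⟩
    have hx : P.x (y, 0) = w.2 l := by
      rw [y2]
      show P.r y * P.Q ^ (0 : ℤ) = P.r y
      rw [zpow_zero, mul_one]
    have hb : bs P w l = (y, 0) := bx_eq y1 hx
    rw [hb]
    refine ⟨y1, hx, ?_⟩
    rw [st, hb, e0, occT_zero, occT_zero]
    exact ⟨if_pos le_rfl, if_neg (by simp)⟩
  -- the previous step
  have hp : m - 1 < n := by have := l.isLt; omega
  set p : Fin n := ⟨m - 1, hp⟩ with hpd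
  have hp1 : (p : ℕ) = m - 1 := rfl
  have hl : (l : ℕ) = p + 1 := by omega
  have hg := ih w hw
  have hgp : gd P w p := fun k hk => hg k (by omega)
  obtain ⟨hb0, hb0', hb1, hb2⟩ := hg p (by omega)
  set β : Fin n → Et := bs P w with hβ
  have h01 := occ_01' (β := β) (m := m) (by have := l.isLt; omega) (fun k hk => (hg k hk).2.2)
  have hs : ∀ x : Et, occT β l x = occT β p x + (if x = ((β p).1, (β p).2 + 1) then 1 else 0) -
      (if x = β p then 1 else 0) := by
    intro x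
    rw [hl]
    exact occT_succ β p x
  by_cases c1 : w.1 p = w.1 l ∧ w.2 l = P.Q * w.2 p
  · obtain ⟨c1, c1'⟩ := c1
    have hx : P.x ((β p).1, (β p).2 + 1) = w.2 l := by
      rw [c1', ← hb0']
      exact x_next _ _
    have hy : lb (β p).1 = w.1 l := by rw [hb0, c1]
    have hbl : β l = ((β p).1, (β p).2 + 1) := bx_eq (z := ((β p).1, (β p).2 + 1)) hy hx
    rw [hbl]
    refine ⟨hy, hx, ?_⟩
    rw [st, hbl]
    constructor
    · rw [hs, hb2, if_pos rfl, if_neg (fun h => ne_succ _ h.symm)]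
      norm_num
    · rcases h01 l (by omega) ((β p).1, (β p).2 + 1 + 1) with h | h
      · exact h
      · exfalso
        rw [hs, if_neg (by
          intro h
          have := congrArg Prod.snd h
          simp only at this
          omega), if_neg (by
          intro h
          have := congrArg Prod.snd h
          simp only at this
          omega)] at h
        refine nogap hsw hpat hw hl hgp ((β p).1, (β p).2 + 1) hy.symm hx.symm ?_ (Or.inr ?_) hb2 ?_
        · exact hb0.symm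
        · rw [hx, c1']
        · show occT β p ((β p).1, (β p).2 + 1 + 1) = 1
          omega
  by_cases c2 : w.1 p = w.1 l ∧ P.Q * w.2 l = w.2 p
  · obtain ⟨c2, c2'⟩ := c2
    have hx : P.x ((β p).1, (β p).2 - 1) = w.2 l := by
      have h1 := x_next (P := P) (β p).1 ((β p).2 - 1)
      rw [sub_add_cancel] at h1
      have h2 : P.x ((β p).1, (β p).2) = w.2 p := hb0'
      rw [h2, ← c2'] at h1
      exact (mul_left_cancel₀ (Q_pos P).ne' h1).symm
    have hy : lb (β p).1 = w.1 l := by rw [hb0, c2]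
    have hbl : β l = ((β p).1, (β p).2 - 1) := bx_eq (z := ((β p).1, (β p).2 - 1)) hy hx
    have hpp : (((β p).1, (β p).2 - 1 + 1) : Et) = β p := Prod.ext rfl (by simp)
    rw [hbl]
    refine ⟨hy, hx, ?_⟩
    rw [st, hbl]
    constructor
    · rcases h01 l (by omega) ((β p).1, (β p).2 - 1) with h | h
      · exfalso
        rw [hs, if_neg (by
          intro h
          have := congrArg Prod.snd h
          simp only at this
          omega), if_neg (by
          intro h
          have := congrArg Prod.snd h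
          simp only at this
          omega)] at h
        refine nogap hsw hpat hw hl hgp ((β p).1, (β p).2 - 1) hy.symm hx.symm ?_ (Or.inl ?_) ?_ ?_
        · exact hb0.symm
        · rw [hx, c2']
        · show occT β p ((β p).1, (β p).2 - 1) = 0
          omega
        · show occT β p ((β p).1, (β p).2 - 1 + 1) = 1
          rw [hpp]
          exact hb1
      · exact h
    · show occT β l ((β p).1, (β p).2 - 1 + 1) = 0
      rw [hpp, hs, hb1, if_pos rfl, if_neg (ne_succ _)]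
      norm_num
  -- the steps commute
  have hcond : w.1 p ≠ w.1 l ∨ (w.2 l ≠ P.Q * w.2 p ∧ P.Q * w.2 l ≠ w.2 p) := by
    by_cases hlab : w.1 p = w.1 l
    · exact Or.inr ⟨fun h => c1 ⟨hlab, h⟩, fun h => c2 ⟨hlab, h⟩⟩
    · exact Or.inl hlab
  have hw' := hsw w hw p l hl hcond
  have hpl : p ≠ l := by
    intro e
    rw [← e] at hl
    omega
  obtain ⟨g0, g0', g1, g2⟩ := ih _ hw' p (by omega)
  have hbp : bs P (sq w.1 p l, sq w.2 p l) p = β l := by
    show bx P (sq w.1 p l p) (sq w.2 p l p) = bx P (w.1 l) (w.2 l)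
    rw [sq_k', sq_k']
  rw [hbp] at g0 g0' g1 g2
  simp only at g0 g0'
  rw [sq_k'] at g0 g0'
  have hcg : ∀ x, occT (bs P (sq w.1 p l, sq w.2 p l)) p x = occT β p x := by
    intro x
    apply occ_congr
    intro j hj
    have e1 : j ≠ p := by
      intro e
      rw [e] at hj
      omega
    have e2 : j ≠ l := by
      intro e
      rw [e] at hj
      omega
    show bx P (sq w.1 p l j) (sq w.2 p l j) = bx P (w.1 j) (w.2 j)
    rw [sq_o' w.1 e1 e2, sq_o' w.2 e1 e2]
  rw [hcg] at g1 g2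
  have d1 : β l ≠ ((β p).1, (β p).2 + 1) := by
    intro e
    apply c1
    constructor
    · rw [← g0, ← hb0, e]
    · rw [← g0', ← hb0', e]
      exact x_next _ _
  have d2 : ((β l).1, (β l).2 + 1) ≠ β p := by
    intro e
    apply c2
    have e1 := congrArg Prod.fst e
    simp only at e1
    constructor
    · rw [← g0, ← hb0, e1]
    · rw [← g0', ← hb0', ← e]
      exact (x_next _ _).symm
  have d3 : β l ≠ β p := by
    intro e
    refine hne w hw p l hl ?_ ?_
    · rw [← g0, ← hb0, e]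
    · rw [← g0', ← hb0', e]
  refine ⟨g0, g0', ?_, ?_⟩
  · rw [hs, g1, if_neg d1, if_neg d3]
    norm_num
  · rw [hs, g2, if_neg (by
      intro h
      have e1 := congrArg Prod.fst h
      have e2 := congrArg Prod.snd h
      simp only at e1 e2
      exact d3 (Prod.ext e1 (by omega))), if_neg d2]
    norm_num

end K04_aux

theorem lg_of_setT {P : Par ℝ} {n : ℕ} (W : Set ((Fin n → Bool) × (Fin n → ℝ)))
    (h0 : ∀ w ∈ W, ∀ k : Fin n, (k : ℕ) = 0 → w.2 k = P.r (yp (w.1 k)) ∨ w.2 k = P.r (yn (w.1 k)))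
    (hne : ∀ w ∈ W, ∀ k l : Fin n, (l : ℕ) = k + 1 → w.1 k = w.1 l → w.2 k ≠ w.2 l)
    (hsw : ∀ w ∈ W, ∀ k l : Fin n, (l : ℕ) = k + 1 →
      (w.1 k ≠ w.1 l ∨ (w.2 l ≠ P.Q * w.2 k ∧ P.Q * w.2 l ≠ w.2 k)) →
        (sq w.1 k l, sq w.2 k l) ∈ W)
    (hpat : ∀ w ∈ W, ∀ j k l : Fin n, (k : ℕ) = j + 1 → (l : ℕ) = k + 1 → w.1 j = w.1 k →
      w.1 k = w.1 l → w.2 l = w.2 j → ¬ (w.2 k = P.Q * w.2 j ∨ P.Q * w.2 k = w.2 j)) :
    ∀ w ∈ W, ∃ β : Fin n → Et, LgT β ∧ ∀ k, w.1 k = lb (β k).1 ∧ w.2 k = P.x (β k) := by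
  have h : ∀ m : ℕ, ∀ w ∈ W, gd P w m := by
    intro m
    induction m with
    | zero =>
      intro w _ k hk
      exact absurd hk (Nat.not_lt_zero _)
    | succ m ih => exact K04_aux.step h0 hne hsw hpat m ih
  intro w hw
  refine ⟨bs P w, fun k => ?_, fun k => ?_⟩
  · exact (h n w hw k k.isLt).2.2
  · exact ⟨(h n w hw k k.isLt).1.symm, (h n w hw k k.isLt).2.1.symm⟩

end

end AO
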