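import Pool.Agent.AO.K03
import Pool.Agent.AO.K04

/-!
# MP_6c3636_al, AO, module K05: the weights of real symmetric operators are legal (helper7)

`real_lg`: `W` is the set of the `(a, x)` with `WtR D a x ≠ ⊥`: `lg_of_setT` (K04) with `rw_zero`, `rw_ne`, `rw_sw`, `rw_pat` (K03). `real_sup`: the operators `D.E a` (orthogonal idempotents) and `D.J k` are symmetric (`SA`, `J_symm`) and commute (`JE`, `JJ`, `EE`), so `E` is the sum of their joint eigenspaces (see the proof of `AN.real_sup` in AN/J05.lean: `LinearMap.IsSymmetric.iSup_iInf_eq_top_of_commute` or similar); apply it on the whole space: every vector `v` with `D.Et v = v` is a sum of joint eigenvectors of all `D.E a`, `D.J k`; the components with some `D.E a v = v` lie in some `WtR D a x`, which is `⊥` or `Wt D β` with `β` legal (`real_lg`; `WtR D a x = Wt D β` by definition if `a k = lb (β k).1`, `x k = P.x (β k)`), the components with `D.E a v = 0` for all `a` vanish as `D.Et v = v`. Conversely `Wt D β ≤ LinearMap.range D.Et` as `D.Et (D.E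 a v) = D.E a v` (`Et_mul`).
-/

namespace AO

noncomputable section

open Classical Equiv

open AN (sq)

variable {E : Type} [NormedAddCommGroup E] [InnerProductSpace ℝ E] {P : Par ℝ} {n : ℕ}
  {D : HA P n (Module.End ℝ E)}

/-- the family of the operators -/
def K05_aux.op (D : HA P n (Module.End ℝ E)) : (Fin n → Bool) ⊕ Fin n → Module.End ℝ E
  | Sum.inl a => D.E a
  | Sum.inr k => D.J k

theorem real_lg [FiniteDimensional ℝ E] (h : SA D) {a : Fin n → Bool} {x : Fin n → ℝ}
    (h0 : WtR D a x ≠ ⊥) : ∃ β : Fin n → AO.Et, LgT β ∧ ∀ k, a k = lb (β k).1 ∧ x k = P.x (β k) := by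
  have key : ∀ w ∈ {w : (Fin n → Bool) × (Fin n → ℝ) | WtR D w.1 w.2 ≠ ⊥},
      ∃ v ∈ WtR D w.1 w.2, v ≠ 0 :=
    fun w hw => Submodule.exists_mem_ne_zero_of_ne_bot hw
  refine lg_of_setT {w : (Fin n → Bool) × (Fin n → ℝ) | WtR D w.1 w.2 ≠ ⊥} ?_ ?_ ?_ ?_ (a, x) h0
  · intro w hw k hk
    obtain ⟨v, hv, hv0⟩ := key w hw
    exact rw_zero hv hv0 hk
  · intro w hw k l hl hab
    obtain ⟨v, hv, hv0⟩ := key w hw
    exact rw_ne h hv hv0 hl hab
  · intro w hw k l hl h1
    obtain ⟨v, hv, hv0⟩ := key w hw
    obtain ⟨u, hu0, hu⟩ := rw_sw h hv hv0 hl h1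
    exact (Submodule.ne_bot_iff _).2 ⟨u, hu, hu0⟩
  · intro w hw j k l hk hl h1 h2 h3
    obtain ⟨v, hv, hv0⟩ := key w hw
    exact rw_pat h hv hv0 hk hl h1 h2 h3

theorem real_sup [FiniteDimensional ℝ E] (h : SA D) :
    ⨆ β : {β : Fin n → AO.Et // LgT β}, Wt D (β : Fin n → AO.Et) = LinearMap.range D.Et := by
  apply le_antisymm
  · refine iSup_le fun β => ?_
    intro v hv
    refine ⟨v, ?_⟩
    have h1 : D.E (fun k => lb ((β : Fin n → AO.Et) k).1) v = v := hv.1
    have h2 := LinearMap.congr_fun (D.Et_mul (fun k => lb ((β : Fin n → AO.Et) k).1)) v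
    rw [Module.End.mul_apply, h1] at h2
    exact h2
  · have hEc : ∀ a b, D.E a * D.E b = D.E b * D.E a := by
      intro a b
      rw [D.EE, D.EE]
      by_cases hab : a = b
      · subst hab
        rfl
      · rw [if_neg hab, if_neg fun hba => hab hba.symm]
    have h1 : ∀ i, (K05_aux.op D i : E →ₗ[ℝ] E).IsSymmetric := by
      rintro (a | k) u v
      · exact h.E a u v
      · exact J_symm h k u v
    have h2 : Pairwise (Function.onFun Commute fun i => (K05_aux.op D i : E →ₗ[ℝ] E)) := by
      rintro (a | k) (b | l) -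
      · exact hEc a b
      · exact (D.JE l a).symm
      · exact D.JE k b
      · exact D.JJ k l
    have h3 := LinearMap.IsSymmetric.iSup_iInf_eq_top_of_commute h1 h2
    rw [LinearMap.range_eq_map, ← h3, Submodule.map_iSup]
    refine iSup_le fun χ => ?_
    rintro _ ⟨w, hw, rfl⟩
    have hw' : ∀ i, K05_aux.op D i w = χ i • w := by
      intro i
      have h4 := (Submodule.mem_iInf _).1 hw i
      exact Module.End.mem_eigenspace_iff.1 h4
    have h5 : D.Et w = ∑ a, D.E a w := by
      show (∑ a, D.E a) w = _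
      rw [LinearMap.sum_apply]
    rw [h5]
    refine Submodule.sum_mem _ fun a _ => ?_
    have h6 : D.E a w ∈ WtR D a (fun k => χ (Sum.inr k)) := by
      refine ⟨?_, fun k => ?_⟩
      · rw [← Module.End.mul_apply, D.EE, if_pos rfl]
      · rw [← Module.End.mul_apply, D.JE, Module.End.mul_apply]
        have h7 : D.J k w = χ (Sum.inr k) • w := hw' (Sum.inr k)
        rw [h7, map_smul]
    by_cases hb : WtR D a (fun k => χ (Sum.inr k)) = ⊥
    · rw [hb] at h6
      rw [(Submodule.mem_bot ℝ).1 h6]
      exact Submodule.zero_mem _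
    · obtain ⟨β, hβ, hk⟩ := real_lg h hb
      have e1 : a = fun k => lb (β k).1 := funext fun k => (hk k).1
      have e2 : (fun k => χ (Sum.inr k)) = fun k => P.x (β k) := funext fun k => (hk k).2
      have h8 : D.E a w ∈ Wt D β := by
        rw [e2] at h6
        have h9 : WtR D a (fun k => P.x (β k)) = Wt D β := by
          rw [e1]
          rfl
        rw [h9] at h6
        exact h6
      exact le_iSup (fun β : {β : Fin n → AO.Et // LgT β} => Wt D (β : Fin n → AO.Et)) ⟨β, hβ⟩ h8

end

end AO
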