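import Pool.Agent.AO.Defs

/-!
# MP_6c3636_al, AO, module S01: legal sequences of boxes (helper7)

As AN/C01.lean (read it). `occT_succ`: `cnT β (k + 1) z = cnT β k z + (if β k = z then 1 else 0)`. `occT_01`: induction on `k` with `occT_succ` and `LgT` (the step `k` removes a bead from `β k`, where there is one, and puts a bead at the next place of the same type, where there is none). `LgT_bd`: by induction on `k`: `occT β k z = 1` for `z.2 ≤ -k` and `occT β k z = 0` for `z.2 > k`. `LgT_zero`: `k = 0`. `mem_SFT`: from `LgT_bd`. `cnT_unique`: `cnT β n (y, x - 1) - cnT β n (y, x)` is determined by `occT β n`, and `cnT β n (y, x) = 0` for `x` large (or small).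
-/

namespace AO

noncomputable section

open Classical Equiv

open AN (sq)

variable {n : ℕ}

namespace S01_aux

theorem cn_zero (β : Fin n → Et) (z : Et) : cnT β 0 z = 0 := by
  unfold cnT
  rw [Finset.card_eq_zero, Finset.filter_eq_empty_iff]
  intro j _ hj
  exact Nat.not_lt_zero _ hj.1

theorem cn_succ (β : Fin n → Et) (k : Fin n) (z : Et) :
    cnT β (k + 1) z = cnT β k z + (if z = β k then 1 else 0) := by
  unfold cnT
  by_cases hx : z = β k
  · rw [if_pos hx]
    have h1 : (Finset.univ.filter (fun j : Fin n => (j : ℕ) < (k : ℕ) + 1 ∧ β j = z)) =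
        insert k (Finset.univ.filter (fun j : Fin n => (j : ℕ) < (k : ℕ) ∧ β j = z)) := by
      ext j
      simp only [Finset.mem_filter, Finset.mem_univ, true_and, Finset.mem_insert]
      constructor
      · rintro ⟨h1, h2⟩
        by_cases hj : j = k
        · exact Or.inl hj
        · right
          refine ⟨?_, h2⟩
          have : (j : ℕ) ≠ (k : ℕ) := fun h => hj (Fin.ext h)
          omega
      · rintro (h | ⟨h1, h2⟩)
        · subst h
          exact ⟨Nat.lt_succ_self _, hx.symm⟩
        · exact ⟨by omega, h2⟩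
    rw [h1, Finset.card_insert_of_notMem]
    intro hk
    exact absurd (Finset.mem_filter.1 hk).2.1 (lt_irrefl _)
  · rw [if_neg hx, add_zero]
    congr 1
    ext j
    simp only [Finset.mem_filter, Finset.mem_univ, true_and]
    constructor
    · rintro ⟨h1, h2⟩
      refine ⟨?_, h2⟩
      have : (j : ℕ) ≠ (k : ℕ) := by
        intro h
        have hj : j = k := Fin.ext h
        rw [hj] at h2
        exact hx h2.symm
      omega
    · rintro ⟨h1, h2⟩
      exact ⟨by omega, h2⟩

theorem cn_ge (β : Fin n → Et) {k : ℕ} (hk : n ≤ k) (z : Et) : cnT β (k + 1) z = cnT β k z := by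
  unfold cnT
  congr 1
  ext j
  simp only [Finset.mem_filter, Finset.mem_univ, true_and]
  have := j.isLt
  constructor
  · rintro ⟨_, h2⟩
    exact ⟨by omega, h2⟩
  · rintro ⟨_, h2⟩
    exact ⟨by omega, h2⟩

theorem cn_eq_zero {β : Fin n → Et} {k : ℕ} {z : Et} (h : ∀ j, β j ≠ z) : cnT β k z = 0 := by
  unfold cnT
  rw [Finset.card_eq_zero, Finset.filter_eq_empty_iff]
  intro j _ hj
  exact h j hj.2

end S01_aux

open S01_aux

theorem occT_zero (β : Fin n → Et) (z : Et) : occT β 0 z = if z.2 ≤ 0 then 1 else 0 := by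
  unfold occT
  rw [cn_zero, cn_zero]
  simp

theorem occT_succ (β : Fin n → Et) (k : Fin n) (z : Et) :
    occT β (k + 1) z = occT β k z + (if z = ((β k).1, (β k).2 + 1) then 1 else 0) -
      (if z = β k then 1 else 0) := by
  unfold occT
  rw [cn_succ, cn_succ]
  have h1 : ((z.1, z.2 - 1) = β k) ↔ (z = ((β k).1, (β k).2 + 1)) := by
    constructor
    · intro h
      rw [← h]
      exact Prod.ext rfl (by show z.2 = z.2 - 1 + 1; ring)
    · intro h
      rw [h]
      exact Prod.ext rfl (by show (β k).2 + 1 - 1 = (β k).2; ring)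
  simp only [h1]
  push_cast
  ring

theorem occT_01 {β : Fin n → Et} (h : LgT β) (k : ℕ) (z : Et) : occT β k z = 0 ∨ occT β k z = 1 := by
  induction k with
  | zero =>
    rw [occT_zero]
    split_ifs
    · exact Or.inr rfl
    · exact Or.inl rfl
  | succ k ih =>
    by_cases hk : k < n
    · have h1 := occT_succ β ⟨k, hk⟩ z
      have h2 := h ⟨k, hk⟩
      simp only at h1 h2
      rw [h1]
      by_cases hx1 : z = ((β ⟨k, hk⟩).1, (β ⟨k, hk⟩).2 + 1)
      · have hx2 : z ≠ β ⟨k, hk⟩ := by
          intro he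
          have h3 := congrArg Prod.snd (hx1.symm.trans he)
          simp only at h3
          omega
        rw [if_pos hx1, if_neg hx2, hx1, h2.2]
        right
        norm_num
      · by_cases hx2 : z = β ⟨k, hk⟩
        · rw [if_neg hx1, if_pos hx2, hx2, h2.1]
          left
          norm_num
        · rw [if_neg hx1, if_neg hx2, add_zero, sub_zero]
          exact ih
    · have h1 : occT β (k + 1) z = occT β k z := by
        unfold occT
        rw [cn_ge β (not_lt.1 hk), cn_ge β (not_lt.1 hk)]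
      rw [h1]
      exact ih

namespace S01_aux

theorem bd_step {β : Fin n → Et} (h : LgT β) {k : ℕ} (hk : k < n)
    (h1 : ∀ z : Et, z.2 ≤ -(k : ℤ) → occT β k z = 1) (h2 : ∀ z : Et, (k : ℤ) < z.2 → occT β k z = 0) :
    -(k : ℤ) ≤ (β ⟨k, hk⟩).2 ∧ (β ⟨k, hk⟩).2 ≤ (k : ℤ) := by
  have h3 := h ⟨k, hk⟩
  simp only at h3
  constructor
  · by_contra hc
    have := h1 ((β ⟨k, hk⟩).1, (β ⟨k, hk⟩).2 + 1) (by show (β ⟨k, hk⟩).2 + 1 ≤ _; omega)
    rw [h3.2] at this
    exact absurd this (by norm_num)
  · by_contra hc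
    have := h2 (β ⟨k, hk⟩) (by omega)
    rw [h3.1] at this
    exact absurd this (by norm_num)

theorem bd_all {β : Fin n → Et} (h : LgT β) (k : ℕ) (hk : k ≤ n) :
    (∀ z : Et, z.2 ≤ -(k : ℤ) → occT β k z = 1) ∧ (∀ z : Et, (k : ℤ) < z.2 → occT β k z = 0) := by
  induction k with
  | zero =>
    constructor
    · intro z hz
      rw [occT_zero, if_pos (by simpa using hz)]
    · intro z hz
      rw [occT_zero, if_neg (by simpa using hz)]
  | succ k ih =>
    have hk' : k < n := hk
    obtain ⟨i1, i2⟩ := ih (by omega)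
    obtain ⟨b1, b2⟩ := bd_step h hk' i1 i2
    have h1 := fun z => occT_succ β ⟨k, hk'⟩ z
    simp only at h1
    constructor
    · intro z hz
      push_cast at hz
      have n1 : z ≠ ((β ⟨k, hk'⟩).1, (β ⟨k, hk'⟩).2 + 1) := by
        intro he
        have h3 := congrArg Prod.snd he
        simp only at h3
        omega
      have n2 : z ≠ β ⟨k, hk'⟩ := by
        intro he
        have h3 := congrArg Prod.snd he
        omega
      rw [h1 z, if_neg n1, if_neg n2, add_zero, sub_zero]
      exact i1 z (by omega)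
    · intro z hz
      push_cast at hz
      have n1 : z ≠ ((β ⟨k, hk'⟩).1, (β ⟨k, hk'⟩).2 + 1) := by
        intro he
        have h3 := congrArg Prod.snd he
        simp only at h3
        omega
      have n2 : z ≠ β ⟨k, hk'⟩ := by
        intro he
        have h3 := congrArg Prod.snd he
        omega
      rw [h1 z, if_neg n1, if_neg n2, add_zero, sub_zero]
      exact i2 z (by omega)

end S01_aux

theorem LgT_bd {β : Fin n → Et} (h : LgT β) (k : Fin n) :
    -((k : ℕ) : ℤ) ≤ (β k).2 ∧ (β k).2 ≤ (k : ℕ) := by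
  obtain ⟨h1, h2⟩ := bd_all h k k.isLt.le
  exact bd_step h k.isLt h1 h2

theorem LgT_zero {β : Fin n → Et} (h : LgT β) (k : Fin n) (hk : (k : ℕ) = 0) : (β k).2 = 0 := by
  have := LgT_bd h k
  rw [hk] at this
  simp only [Nat.cast_zero, neg_zero] at this
  omega

theorem mem_SFT {F : Et → ℤ} {β : Fin n → Et} : β ∈ SFT n F ↔ β ∈ SqT n F := by
  unfold SFT
  rw [Finset.mem_filter]
  refine ⟨fun h => h.2, fun h => ⟨?_, h⟩⟩
  rw [Fintype.mem_piFinset]
  intro k
  rw [Finset.mem_product, Finset.mem_Icc]
  have h1 := LgT_bd h.1 k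
  have h2 := k.isLt
  refine ⟨Finset.mem_univ _, ?_⟩
  omega

theorem cnT_unique {β γ : Fin n → Et} (h : occT β n = occT γ n) : cnT β n = cnT γ n := by
  obtain ⟨M, hM⟩ : ∃ M : ℤ, ∀ i, (β i).2 < M ∧ (γ i).2 < M := by
    refine ⟨1 + ∑ i, |(β i).2| + ∑ i, |(γ i).2|, fun i => ?_⟩
    have h1 : |(β i).2| ≤ ∑ i, |(β i).2| :=
      Finset.single_le_sum (f := fun i => |(β i).2|) (fun j _ => abs_nonneg _) (Finset.mem_univ i)
    have h2 : |(γ i).2| ≤ ∑ i, |(γ i).2| :=
      Finset.single_le_sum (f := fun i => |(γ i).2|) (fun j _ => abs_nonneg _) (Finset.mem_univ i)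
    have h3 := le_abs_self (β i).2
    have h4 := le_abs_self (γ i).2
    have h5 : 0 ≤ ∑ i, |(β i).2| := Finset.sum_nonneg fun j _ => abs_nonneg _
    have h6 : 0 ≤ ∑ i, |(γ i).2| := Finset.sum_nonneg fun j _ => abs_nonneg _
    constructor <;> omega
  have hz : ∀ (y : Ty) (x : ℤ), M ≤ x → cnT β n (y, x) = cnT γ n (y, x) := by
    intro y x hx
    rw [cn_eq_zero (fun j he => by have h1 := (hM j).1; rw [he] at h1; simp only at h1; omega),
      cn_eq_zero (fun j he => by have h1 := (hM j).2; rw [he] at h1; simp only at h1; omega)]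
  have hstep : ∀ (y : Ty) (x : ℤ), cnT β n (y, x) = cnT γ n (y, x) →
      cnT β n (y, x - 1) = cnT γ n (y, x - 1) := by
    intro y x hx
    have h1 := congrFun h (y, x)
    unfold occT at h1
    simp only at h1
    omega
  have hall : ∀ (y : Ty) (m : ℕ), cnT β n (y, M - m) = cnT γ n (y, M - m) := by
    intro y m
    induction m with
    | zero => exact hz _ _ (by simp)
    | succ m ih =>
      have h1 := hstep _ _ ih
      have h2 : M - (m : ℤ) - 1 = M - ((m + 1 : ℕ) : ℤ) := by push_cast; ring
      rw [h2] at h1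
      exact h1
  funext z
  obtain ⟨y, x⟩ := z
  rcases le_total M x with hx | hx
  · exact hz y x hx
  · obtain ⟨m, hm⟩ := Int.eq_ofNat_of_zero_le (sub_nonneg.2 hx)
    have h1 := hall y m
    have h2 : M - (m : ℤ) = x := by omega
    rw [h2] at h1
    exact h1

end

end AO
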