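import Pool.Agent.AO.K05
import Pool.Agent.AO.S01

/-!
# MP_6c3636_al, AO, module K06: the weights over a field of characteristic zero (helper7)

As AN/J06.lean, AN/J07.lean (read them). `exists_regk`: `E = EuclideanSpace ℝ G`, `(ρ g f) h = f (g⁻¹ h)`; `ev ρ x` maps the basis vector of `1` to `∑ x_g e_g` (coefficients in `ℝ` by the injective `algebraMap k ℝ`). `on_sa`: for an orthogonal representation `ρ0` over `ℝ` and an element `x` with `x.coeff g⁻¹ = x.coeff g` the operator `ev ρ0 x` is symmetric. The operators `(D.on ρ).E a`, ... are `ev ρ (D.E a)`, ..., and `(D.on ρ).J k = ev ρ (D.J k)` (`ev_smul`), `(P.map f).x z = f (P.x z)`. Let `ρ0` be the representation of `exists_regk`. (1) An identity between elements of `MonoidAlgebra k G` holds if it holds for the operators on `E`. There are finitely many legal sequences (`SFT`, S01; the set of the `P.x z` with content in `[-n, n]` is finite). For `b : Bool` let `S b` be the finite set of the `P.x z`, `z.2 ∈ [-n, n]`, `lb z.1 =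 b`. In `MonoidAlgebra k G`: `(∏ s ∈ S (a k), (D.J k - s • 1)) * D.E a = 0` as it acts as zero on `E` (`real_sup`: `range D.Et` is the sum of the `Wt D β`). So in `V` the operators `J k` are diagonalizable on the range of `E a` with eigenvalues in the image of `S (a k)`, and the range of `Et` is the sum of the `WtR (D.on ρ) a x` with `x k` in the image of `S (a k)`, that is of the `Wt (D.on ρ) β`, `β` a sequence with contents in `[-n, n]`. (2) For such `β` put `Π β = (∏ k, ∏ s ∈ S (lb (β k).1) \ {P.x (β k)}, (D.J k - s • 1)) * D.E a` (`a k = lb (β k).1`; commuting factors). It acts as a nonzero scalar on `Wt _ β` and as zero on `Wt _ γ`, `γ ≠ β` (`P.x` is injective on the boxes with a given label, also in `K`: `algebraMap k K` is injective). If `β` is not legal then `Π β = 0` (`real_lg`), so `Wt (D.on ρ) β = ⊥`. If `(β l).1 = (β k).1`, `(β l).2 = (β k).2 + 1` then `(D.T k - 1) * Π β = 0` by `rw_one`, so `T k` is `1` on `Wt (D.on ρ) β`. In the same way `wt_neg`.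
-/

namespace AO

noncomputable section

open Classical Equiv

open AN (sq)

variable {k : Type} [Field k] [Algebra k ℝ] {K : Type} [Field K] [CharZero K] [Algebra k K] {G : Type} [Group G]
  [Finite G] {P : Par k} {n : ℕ} {D : HA P n (MonoidAlgebra k G)} {V : Type} [AddCommGroup V] [Module K V]
  {ρ : Representation K G V}

theorem exists_regk (k : Type) [Field k] [Algebra k ℝ] (G : Type) [Group G] [Finite G] :
    ∃ (E : Type) (_ : NormedAddCommGroup E) (_ : InnerProductSpace ℝ E) (_ : FiniteDimensional ℝ E)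
      (ρ : Representation ℝ G E), (∀ g x y, inner ℝ (ρ g x) (ρ g y) = inner ℝ x y) ∧
        ∀ x : MonoidAlgebra k G, ev ρ x = 0 → x = 0 := by
  have : Fintype G := Fintype.ofFinite G
  let ρ : Representation ℝ G (EuclideanSpace ℝ G) :=
    { toFun := fun g => ((LinearIsometryEquiv.piLpCongrLeft 2 ℝ ℝ (Equiv.mulLeft g)).toLinearEquiv :
        EuclideanSpace ℝ G →ₗ[ℝ] EuclideanSpace ℝ G)
      map_one' := by
        ext x h
        change x (1⁻¹ * h) = x h
        rw [inv_one, one_mul]
      map_mul' := by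
        intro a b
        ext x h
        change x ((a * b)⁻¹ * h) = x (b⁻¹ * (a⁻¹ * h))
        rw [_root_.mul_inv_rev, mul_assoc] }
  have hρ : ∀ g x h, (ρ g x) h = x (g⁻¹ * h) := by
    intro g x h
    rfl
  refine ⟨EuclideanSpace ℝ G, inferInstance, inferInstance, inferInstance, ρ, ?_, ?_⟩
  · intro g x y
    exact (LinearIsometryEquiv.piLpCongrLeft 2 ℝ ℝ (Equiv.mulLeft g)).inner_map_map x y
  · intro x hx
    have key : ∀ x : MonoidAlgebra k G, ∀ h,
        (ev ρ x (EuclideanSpace.single 1 (1 : ℝ))) h = algebraMap k ℝ (x.coeff h) := by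
      intro x
      induction x using MonoidAlgebra.induction_linear with
      | zero => intro h; simp
      | add f g hf hg =>
        intro h
        rw [map_add, LinearMap.add_apply, PiLp.add_apply, hf, hg]
        simp
      | single g c =>
        intro h
        rw [ev_single, LinearMap.smul_apply, PiLp.smul_apply, hρ, MonoidAlgebra.coeff_single,
          Finsupp.single_apply]
        by_cases hg : g = h
        · subst hg
          simp
        · have : g⁻¹ * h ≠ 1 := by
            intro h3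
            exact hg (inv_mul_eq_one.mp h3)
          simp [hg, this]
    ext h
    have h1 := key x h
    rw [hx] at h1
    have h2 : algebraMap k ℝ (x.coeff h) = algebraMap k ℝ 0 := by
      rw [map_zero, ← h1]
      rfl
    exact (algebraMap k ℝ).injective h2

namespace K06_aux

theorem ev_sum {L : Type} [Field L] [Algebra k L] {U : Type} [AddCommGroup U] [Module L U] [Fintype G]
    (ρ : Representation L G U) (x : MonoidAlgebra k G) (u : U) :
    ev ρ x u = ∑ g : G, algebraMap k L (x.coeff g) • ρ g u := by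
  induction x using MonoidAlgebra.induction_linear with
  | zero => simp
  | add f g hf hg =>
    rw [map_add, LinearMap.add_apply, hf, hg, ← Finset.sum_add_distrib]
    refine Finset.sum_congr rfl fun h _ => ?_
    rw [← add_smul, ← map_add]
    rfl
  | single g c =>
    rw [ev_single, LinearMap.smul_apply, Finset.sum_eq_single g]
    · rw [MonoidAlgebra.coeff_single, Finsupp.single_eq_same]
    · intro h _ hh
      rw [MonoidAlgebra.coeff_single, Finsupp.single_eq_of_ne hh, map_zero, zero_smul]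
    · intro h
      exact absurd (Finset.mem_univ _) h

theorem ev_symm {E : Type} [NormedAddCommGroup E] [InnerProductSpace ℝ E]
    {ρ : Representation ℝ G E} (hρ : ∀ g x y, inner ℝ (ρ g x) (ρ g y) = inner ℝ x y)
    {x : MonoidAlgebra k G} (hx : ∀ g, x.coeff g⁻¹ = x.coeff g) (u v : E) :
    inner ℝ (ev ρ x u) v = inner ℝ u (ev ρ x v) := by
  have : Fintype G := Fintype.ofFinite G
  rw [ev_sum, ev_sum, sum_inner, inner_sum, ← Equiv.sum_comp (Equiv.inv G)]
  refine Finset.sum_congr rfl fun g _ => ?_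
  rw [Equiv.inv_apply, hx, real_inner_smul_left, real_inner_smul_right]
  congr 1
  rw [← hρ g, ← Module.End.mul_apply, ← map_mul, mul_inv_cancel, map_one, Module.End.one_apply]

theorem map_Q {L : Type} [Field L] (P : Par k) (f : k →+* L) : (P.map f).Q = f P.Q := by
  show ((P.q : L)) ^ P.e = f ((P.q : k) ^ P.e)
  rw [map_pow, map_natCast]

theorem map_x {L : Type} [Field L] (P : Par k) (f : k →+* L) (z : AO.Et) : (P.map f).x z = f (P.x z) := by
  show f (P.w (lb z.1)) * ((sg z.1 : ℤ) : L) * (P.q : L) ^ (P.j z.1) * (P.map f).Q ^ z.2 =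
    f (P.w (lb z.1) * ((sg z.1 : ℤ) : k) * (P.q : k) ^ (P.j z.1) * P.Q ^ z.2)
  rw [map_Q, map_mul, map_mul, map_mul, map_intCast, map_zpow₀, map_zpow₀, map_natCast]

theorem x_injk {P : Par k} {x y : AO.Et} (h : lb x.1 = lb y.1) (h' : P.x x = P.x y) : x = y := by
  refine x_inj (P := P.map (algebraMap k ℝ)) h ?_
  rw [map_x, map_x, h']

end K06_aux

open K06_aux

theorem on_sa (hD : Sy D) {E : Type} [NormedAddCommGroup E] [InnerProductSpace ℝ E]
    {ρ : Representation ℝ G E} (hρ : ∀ g x y, inner ℝ (ρ g x) (ρ g y) = inner ℝ x y) :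
    SA (D.on ρ) :=
  ⟨fun a x y => ev_symm hρ (hD.E a) x y, fun i x y => ev_symm hρ (hD.T i) x y,
    fun x y => ev_symm hρ hD.X x y⟩

theorem on_J (i : Fin n) : (D.on ρ).J i = ev ρ (D.J i) := by
  have key : ∀ m : ℕ, (D.on ρ).jn m = ev ρ (D.jn m) := by
    intro m
    induction m with
    | zero => rfl
    | succ m ih =>
      have h1 : (D.on ρ).tn m = ev ρ (D.tn m) := by
        unfold HA.tn
        by_cases h : m < n
        · rw [dif_pos h, dif_pos h]
          rfl
        · rw [dif_neg h, dif_neg h, map_zero]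
      show (P.map (algebraMap k K)).Q • ((D.on ρ).tn m * (D.on ρ).jn m * (D.on ρ).tn m) =
        ev ρ (P.Q • (D.tn m * D.jn m * D.tn m))
      rw [ih, h1, ev_smul, map_Q, map_mul, map_mul]
  exact key i

namespace K06_aux

/-- the boxes with small contents -/
def Bx (n : ℕ) : Finset AO.Et := Finset.univ ×ˢ Finset.Icc (-(n : ℤ)) n

/-- the pairs of the factors for the labels `a` -/
def Sa (P : Par k) (a : Fin n → Bool) : Finset (Fin n × k) :=
  (Finset.univ ×ˢ Bx n).filter (fun p => lb p.2.1 = a p.1) |>.image (fun p => (p.1, P.x p.2))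

/-- the pairs of the factors of the projection onto the weight `β` -/
def S (P : Par k) (β : Fin n → AO.Et) : Finset (Fin n × k) :=
  (Sa P (fun i => lb (β i).1)).filter (fun p => p.2 ≠ P.x (β p.1))

/-- a product of factors -/
def PL (D : HA P n (MonoidAlgebra k G)) (L : List (Fin n × k)) (a : Fin n → Bool) : MonoidAlgebra k G :=
  (L.map (fun p => D.J p.1 - p.2 • (1 : MonoidAlgebra k G))).prod * D.E a

theorem ev_fac {L : Type} [Field L] [CharZero L] [Algebra k L] {U : Type} [AddCommGroup U] [Module L U]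
    (ρ : Representation L G U) (i : Fin n) (s : k) (u : U) :
    ev ρ (D.J i - s • (1 : MonoidAlgebra k G)) u = (D.on ρ).J i u - algebraMap k L s • u := by
  rw [map_sub, LinearMap.sub_apply, ev_smul, map_one, LinearMap.smul_apply, Module.End.one_apply, on_J]

theorem ev_PL {L : Type} [Field L] [CharZero L] [Algebra k L] {U : Type} [AddCommGroup U] [Module L U]
    (ρ : Representation L G U) {a b : Fin n → Bool} {x : Fin n → L} {u : U} (hu : u ∈ WtR (D.on ρ) b x)
    (M : List (Fin n × k)) : ev ρ (PL D M a) u =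
      (if a = b then (M.map (fun p => x p.1 - algebraMap k L p.2)).prod else 0) • u := by
  have hE : ev ρ (D.E a) u = (if a = b then (1 : L) else 0) • u := by
    have h1 : (D.on ρ).E a ((D.on ρ).E b u) = (D.on ρ).E a u := by rw [hu.1]
    have h2 := congrArg (fun f : Module.End L U => f u) ((D.on ρ).EE a b)
    have h3 : ((D.on ρ).E a * (D.on ρ).E b) u = (if a = b then (D.on ρ).E a else 0) u := h2
    rw [Module.End.mul_apply, h1] at h3
    show (D.on ρ).E a u = _
    rw [h3]
    by_cases h : a = b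
    · rw [if_pos h, if_pos h, one_smul, h, hu.1]
    · rw [if_neg h, if_neg h, zero_smul]
      rfl
  rw [PL, map_mul, Module.End.mul_apply, hE, map_smul]
  have key : ev ρ (M.map (fun p => D.J p.1 - p.2 • (1 : MonoidAlgebra k G))).prod u =
      (M.map (fun p => x p.1 - algebraMap k L p.2)).prod • u := by
    induction M with
    | nil => rw [List.map_nil, List.prod_nil, map_one, List.map_nil, List.prod_nil, one_smul,
        Module.End.one_apply]
    | cons p M ih =>
      rw [List.map_cons, List.prod_cons, map_mul, Module.End.mul_apply, ih, map_smul, ev_fac, hu.2 p.1,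
        List.map_cons, List.prod_cons, ← sub_smul, smul_smul, mul_comm]
  rw [key, smul_smul]
  congr 1
  by_cases h : a = b
  · rw [if_pos h, if_pos h, one_mul]
  · rw [if_neg h, if_neg h, zero_mul]

/-- the projection onto the weight `β` up to a scalar -/
def PI (D : HA P n (MonoidAlgebra k G)) (β : Fin n → AO.Et) : MonoidAlgebra k G :=
  PL D (S P β).toList (fun i => lb (β i).1)

/-- the scalar by which `PI β` acts on the weight `γ` -/
def cc (P : Par k) (β γ : Fin n → AO.Et) : k :=
  if (fun i => lb (β i).1) = (fun i => lb (γ i).1) then ∏ p ∈ S P β, (P.x (γ p.1) - p.2) else 0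

theorem ev_PI {L : Type} [Field L] [CharZero L] [Algebra k L] {U : Type} [AddCommGroup U] [Module L U]
    (ρ : Representation L G U) {γ : Fin n → AO.Et} {u : U} (hu : u ∈ Wt (D.on ρ) γ) (β : Fin n → AO.Et) :
    ev ρ (PI D β) u = algebraMap k L (cc P β γ) • u := by
  rw [PI, ev_PL ρ hu, cc]
  congr 1
  by_cases h : (fun i => lb (β i).1) = (fun i => lb (γ i).1)
  · rw [if_pos h, if_pos h, Finset.prod_map_toList, map_prod]
    exact Finset.prod_congr rfl fun p _ => by rw [map_sub, map_x]
  · rw [if_neg h, if_neg h, map_zero]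

theorem mem_Sa {P : Par k} {a : Fin n → Bool} {i : Fin n} {z : AO.Et} (hz : z ∈ Bx n) (h : lb z.1 = a i) :
    (i, P.x z) ∈ Sa P a := by
  rw [Sa, Finset.mem_image]
  refine ⟨(i, z), ?_, rfl⟩
  rw [Finset.mem_filter, Finset.mem_product]
  exact ⟨⟨Finset.mem_univ _, hz⟩, h⟩

theorem cc_ne {P : Par k} {β γ : Fin n → AO.Et} (h : γ ≠ β) (hb : ∀ i, γ i ∈ Bx n) : cc P β γ = 0 := by
  rw [cc]
  by_cases hl : (fun i => lb (β i).1) = (fun i => lb (γ i).1)
  · rw [if_pos hl]
    obtain ⟨i, hi⟩ : ∃ i, γ i ≠ β i := by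
      by_contra hc
      push Not at hc
      exact h (funext hc)
    have hli : lb (γ i).1 = lb (β i).1 := (congrFun hl i).symm
    refine Finset.prod_eq_zero (i := (i, P.x (γ i))) ?_ (sub_self _)
    rw [S, Finset.mem_filter]
    exact ⟨mem_Sa (hb i) hli, fun h2 => hi (x_injk hli h2)⟩
  · rw [if_neg hl]

theorem cc_self (P : Par k) (β : Fin n → AO.Et) : cc P β β ≠ 0 := by
  rw [cc, if_pos rfl, Finset.prod_ne_zero_iff]
  intro p hp
  rw [S, Finset.mem_filter] at hp
  exact sub_ne_zero.2 (Ne.symm hp.2)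

theorem Lg_mem {β : Fin n → AO.Et} (h : LgT β) (i : Fin n) : β i ∈ Bx n := by
  have h1 := LgT_bd h i
  have h2 : ((i : ℕ) : ℤ) < n := by exact_mod_cast i.2
  rw [Bx, Finset.mem_product, Finset.mem_Icc]
  refine ⟨Finset.mem_univ _, ?_, ?_⟩ <;> omega

/-- an element which kills all weight spaces of all real orthogonal representations is zero -/
theorem zero_of (hD : Sy D) {x : MonoidAlgebra k G} (h1 : x * D.Et = x)
    (hx : ∀ (E : Type) (_ : NormedAddCommGroup E) (_ : InnerProductSpace ℝ E) (_ : FiniteDimensional ℝ E)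
      (ρ : Representation ℝ G E), (∀ g x y, inner ℝ (ρ g x) (ρ g y) = inner ℝ x y) →
      ∀ β : Fin n → AO.Et, LgT β → ∀ w ∈ Wt (D.on ρ) β, ev ρ x w = 0) : x = 0 := by
  obtain ⟨E, i1, i2, i3, ρ, hρ, hz⟩ := exists_regk k G
  apply hz
  have h2 : ∀ w ∈ (⨆ α : {α : Fin n → AO.Et // LgT α}, Wt (D.on ρ) (α : Fin n → AO.Et)),
      ev ρ x w = 0 := by
    intro w hw
    refine Submodule.iSup_induction _ (motive := fun w => ev ρ x w = 0) hw ?_ (map_zero _) ?_
    · intro β w hw
      exact hx E i1 i2 i3 ρ hρ β.1 β.2 w hw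
    · intro a b ha hb
      rw [map_add, ha, hb, add_zero]
  rw [real_sup (on_sa hD hρ)] at h2
  apply LinearMap.ext
  intro w
  rw [LinearMap.zero_apply, ← h1, map_mul, Module.End.mul_apply]
  apply h2
  refine ⟨w, ?_⟩
  show (∑ a, ev ρ (D.E a)) w = ev ρ (∑ a, D.E a) w
  rw [map_sum]

/-- the sequences of small boxes -/
def AA (n : ℕ) : Finset (Fin n → AO.Et) := Fintype.piFinset fun _ : Fin n => Bx n

theorem mem_AA {β : Fin n → AO.Et} : β ∈ AA n ↔ ∀ i, β i ∈ Bx n := by
  rw [AA, Fintype.mem_piFinset]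

theorem E_Et (a : Fin n → Bool) : D.E a * D.Et = D.E a := by
  rw [HA.Et, Finset.mul_sum, Finset.sum_eq_single a]
  · rw [D.EE, if_pos rfl]
  · intro b _ hb
    rw [D.EE, if_neg (Ne.symm hb)]
  · intro h
    exact absurd (Finset.mem_univ _) h

theorem Et_E (a : Fin n → Bool) : D.Et * D.E a = D.E a := by
  rw [HA.Et, Finset.sum_mul, Finset.sum_eq_single a]
  · rw [D.EE, if_pos rfl]
  · intro b _ hb
    rw [D.EE, if_neg hb]
  · intro h
    exact absurd (Finset.mem_univ _) h

theorem PI_Et (β : Fin n → AO.Et) : PI D β * D.Et = PI D β := by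
  rw [PI, PL, mul_assoc, E_Et]

theorem Et_Et : D.Et * D.Et = D.Et := by
  conv_lhs => rw [HA.Et, Finset.sum_mul]
  conv_rhs => rw [HA.Et]
  exact Finset.sum_congr rfl fun a _ => E_Et a

theorem on_Et {L : Type} [Field L] [Algebra k L] {U : Type} [AddCommGroup U] [Module L U]
    (ρ : Representation L G U) (w : U) : (D.on ρ).Et w = ev ρ D.Et w := by
  show (∑ a, ev ρ (D.E a)) w = ev ρ (∑ a, D.E a) w
  rw [map_sum]

theorem Et_wt {L : Type} [Field L] [Algebra k L] {U : Type} [AddCommGroup U] [Module L U]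
    (ρ : Representation L G U) {a : Fin n → Bool} {x : Fin n → L} {w : U} (hw : w ∈ WtR (D.on ρ) a x) :
    ev ρ D.Et w = w := by
  have h1 : ev ρ (D.E a) w = w := hw.1
  have h2 := congrArg (fun y => ev ρ y w) (Et_E (D := D) a)
  have h3 : ev ρ (D.Et * D.E a) w = ev ρ (D.E a) w := h2
  rw [map_mul, Module.End.mul_apply, h1] at h3
  exact h3

theorem decomp (hD : Sy D) : D.Et = ∑ β ∈ AA n, (cc P β β)⁻¹ • PI D β := by
  rw [← sub_eq_zero]
  apply zero_of hD
  · rw [sub_mul, Et_Et, Finset.sum_mul]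
    congr 1
    refine Finset.sum_congr rfl fun β _ => ?_
    rw [smul_mul_assoc, PI_Et]
  · intro E i1 i2 i3 ρ hρ β hβ w hw
    have hb := Lg_mem hβ
    rw [map_sub, LinearMap.sub_apply, map_sum, LinearMap.sum_apply, Et_wt ρ hw]
    rw [Finset.sum_eq_single β]
    · rw [ev_smul, LinearMap.smul_apply, ev_PI ρ hw, smul_smul, ← map_mul, inv_mul_cancel₀ (cc_self P β),
        map_one, one_smul, sub_self]
    · intro α _ hα
      rw [ev_smul, LinearMap.smul_apply, ev_PI ρ hw, cc_ne (Ne.symm hα) hb, map_zero, zero_smul, smul_zero]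
    · intro h
      exact absurd (mem_AA.2 hb) h

theorem PI_not_Lg (hD : Sy D) {α : Fin n → AO.Et} (h : ¬ LgT α) : PI D α = 0 := by
  apply zero_of hD (PI_Et α)
  intro E i1 i2 i3 ρ hρ β hβ w hw
  rw [ev_PI ρ hw, cc_ne (by rintro rfl; exact h hβ) (Lg_mem hβ), map_zero, zero_smul]

theorem J_PI (hD : Sy D) (i : Fin n) (α : Fin n → AO.Et) :
    (D.J i - P.x (α i) • (1 : MonoidAlgebra k G)) * PI D α = 0 := by
  apply zero_of hD
  · rw [mul_assoc, PI_Et]
  intro E i1 i2 i3 ρ hρ β hβ w hw
  rw [map_mul, Module.End.mul_apply, ev_PI ρ hw, map_smul, ev_fac, hw.2 i]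
  by_cases h : β = α
  · rw [h]
    show algebraMap k ℝ (cc P α α) • ((P.map (algebraMap k ℝ)).x (α i) • w - algebraMap k ℝ (P.x (α i)) • w) = 0
    rw [map_x, sub_self, smul_zero]
  · rw [cc_ne h (Lg_mem hβ), map_zero, zero_smul]

theorem E_PI (hD : Sy D) (α : Fin n → AO.Et) :
    (D.E (fun i => lb (α i).1) - 1) * PI D α = 0 := by
  apply zero_of hD
  · rw [mul_assoc, PI_Et]
  intro E i1 i2 i3 ρ hρ β hβ w hw
  rw [map_mul, Module.End.mul_apply, ev_PI ρ hw, map_smul, map_sub, LinearMap.sub_apply, map_one,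
    Module.End.one_apply]
  by_cases h : β = α
  · have h1 : ev ρ (D.E (fun i => lb (α i).1)) w = w := by
      rw [← h]
      exact hw.1
    rw [h1, sub_self, smul_zero]
  · rw [cc_ne h (Lg_mem hβ), map_zero, zero_smul]

theorem PI_mem (hD : Sy D) (ρ : Representation K G V) (α : Fin n → AO.Et) (v : V) :
    ev ρ (PI D α) v ∈ Wt (D.on ρ) α := by
  constructor
  · have h := congrArg (fun x => ev ρ x v) (E_PI hD α)
    have h' : ev ρ ((D.E (fun i => lb (α i).1) - 1) * PI D α) v = ev ρ 0 v := h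
    rw [map_mul, Module.End.mul_apply, map_sub, LinearMap.sub_apply, map_one, Module.End.one_apply, map_zero,
      LinearMap.zero_apply, sub_eq_zero] at h'
    exact h'
  · intro i
    have h := congrArg (fun x => ev ρ x v) (J_PI hD i α)
    have h' : ev ρ ((D.J i - P.x (α i) • (1 : MonoidAlgebra k G)) * PI D α) v = ev ρ 0 v := h
    rw [map_mul, Module.End.mul_apply, ev_fac, map_zero, LinearMap.zero_apply, sub_eq_zero] at h'
    rw [h']
    show algebraMap k K (P.x (α i)) • _ = (P.map (algebraMap k K)).x (α i) • _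
    rw [map_x]

/-- the decomposition of a vector -/
theorem vec (hD : Sy D) (ρ : Representation K G V) {v : V} (hv : ev ρ D.Et v = v) :
    v = ∑ α ∈ AA n, (algebraMap k K (cc P α α)⁻¹) • ev ρ (PI D α) v := by
  conv_lhs => rw [← hv, decomp hD, map_sum, LinearMap.sum_apply]
  refine Finset.sum_congr rfl fun α _ => ?_
  rw [ev_smul, LinearMap.smul_apply]

/-- the weights are in the range -/
theorem range_of (hD : Sy D) {α : Fin n → AO.Et} {v : V} (hv : v ∈ Wt (D.on ρ) α) (h0 : v ≠ 0)
    (i : Fin n) : α i ∈ Bx n := by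
  obtain ⟨a, ha⟩ : ∃ a : Fin n → Bool, a = fun i => lb (α i).1 := ⟨_, rfl⟩
  obtain ⟨M, hM⟩ : ∃ M : List (Fin n × k), M = ((Sa P a).filter (fun p => p.1 = i)).toList := ⟨_, rfl⟩
  have h1 : PL D M a = 0 := by
    apply zero_of hD
    · rw [PL, mul_assoc, E_Et]
    intro E i1 i2 i3 ρ hρ β hβ w hw
    rw [ev_PL ρ hw]
    by_cases hl : a = fun i => lb (β i).1
    · have h2 : (M.map (fun p => (P.map (algebraMap k ℝ)).x (β p.1) - algebraMap k ℝ p.2)).prod = 0 := by
        rw [List.prod_eq_zero_iff, List.mem_map]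
        refine ⟨(i, P.x (β i)), ?_, ?_⟩
        · rw [hM, Finset.mem_toList, Finset.mem_filter]
          exact ⟨mem_Sa (Lg_mem hβ i) (congrFun hl i).symm, rfl⟩
        · rw [map_x, sub_self]
      rw [if_pos hl, h2, zero_smul]
    · rw [if_neg hl, zero_smul]
  have h2 := ev_PL ρ hv (a := a) M
  rw [h1, map_zero, LinearMap.zero_apply, if_pos ha] at h2
  rcases smul_eq_zero.1 h2.symm with h3 | h3
  · rw [List.prod_eq_zero_iff, List.mem_map] at h3
    obtain ⟨p, hp, hp2⟩ := h3
    rw [hM, Finset.mem_toList, Finset.mem_filter, Sa, Finset.mem_image] at hp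
    obtain ⟨⟨q, hq, hqp⟩, hpi⟩ := hp
    rw [Finset.mem_filter, Finset.mem_product] at hq
    obtain ⟨⟨-, hq1⟩, hq2⟩ := hq
    have e1 : q.1 = i := by
      rw [← hpi, ← hqp]
    have e2 : p.2 = P.x q.2 := by
      rw [← hqp]
    rw [map_x, sub_eq_zero] at hp2
    have h4 := (algebraMap k K).injective hp2
    rw [hpi, e2] at h4
    rw [e1, ha] at hq2
    have h5 : α i = q.2 := x_injk hq2.symm h4
    rw [h5]
    exact hq1
  · exact absurd h3 h0

theorem lg_of (hD : Sy D) {α : Fin n → AO.Et} {v : V} (hv : v ∈ Wt (D.on ρ) α) (h0 : v ≠ 0) : LgT α := by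
  by_contra hα
  have hr := range_of hD hv h0
  have h1 := vec hD ρ (Et_wt ρ hv)
  rw [Finset.sum_eq_zero] at h1
  · exact h0 h1
  · intro β _
    by_cases h : α = β
    · rw [← h, PI_not_Lg hD hα, map_zero, LinearMap.zero_apply, smul_zero]
    · rw [ev_PI ρ hv, cc_ne h hr, map_zero, zero_smul, smul_zero]

theorem T_of (hD : Sy D) {α : Fin n → AO.Et} {v : V} (hv : v ∈ Wt (D.on ρ) α) {i : Fin n} (c : k)
    (H : ∀ (E : Type) (_ : NormedAddCommGroup E) (_ : InnerProductSpace ℝ E) (_ : FiniteDimensional ℝ E)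
      (ρ : Representation ℝ G E), (∀ g x y, inner ℝ (ρ g x) (ρ g y) = inner ℝ x y) →
      ∀ w ∈ Wt (D.on ρ) α, (D.on ρ).T i w = (algebraMap k ℝ c) • w) :
    (D.on ρ).T i v = (algebraMap k K c) • v := by
  have h1 : (D.T i - c • (1 : MonoidAlgebra k G)) * PI D α = 0 := by
    apply zero_of hD
    · rw [mul_assoc, PI_Et]
    intro E i1 i2 i3 ρ hρ β hβ w hw
    rw [map_mul, Module.End.mul_apply, ev_PI ρ hw, map_smul, map_sub, LinearMap.sub_apply, ev_smul,
      map_one, LinearMap.smul_apply, Module.End.one_apply]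
    by_cases h : β = α
    · subst h
      have h2 : ev ρ (D.T i) w = (algebraMap k ℝ c) • w := H E i1 i2 i3 ρ hρ w hw
      rw [h2, sub_self, smul_zero]
    · rw [cc_ne h (Lg_mem hβ), map_zero, zero_smul]
  have h2 := congrArg (fun x => ev ρ x v) h1
  have h2' : ev ρ ((D.T i - c • (1 : MonoidAlgebra k G)) * PI D α) v = ev ρ 0 v := h2
  rw [map_mul, Module.End.mul_apply, ev_PI ρ hv, map_smul, map_sub, LinearMap.sub_apply, ev_smul,
    map_one, LinearMap.smul_apply, Module.End.one_apply, map_zero, LinearMap.zero_apply] at h2'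
  rcases smul_eq_zero.1 h2' with h3 | h3
  · exact absurd ((map_eq_zero _).1 h3) (cc_self P α)
  · exact sub_eq_zero.1 h3

theorem mapQ_ne {L : Type} [Field L] [CharZero L] (P : Par L) : P.Q ≠ 0 := Q_ne P

end K06_aux

theorem wt_lg (hD : Sy D) {β : Fin n → AO.Et} (h : Wt (D.on ρ) β ≠ ⊥) : LgT β := by
  obtain ⟨v, hv, h0⟩ := Submodule.exists_mem_ne_zero_of_ne_bot h
  exact lg_of hD hv h0

theorem wt_sup (hD : Sy D) :
    ⨆ β : {β : Fin n → AO.Et // LgT β}, Wt (D.on ρ) (β : Fin n → AO.Et) =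
      LinearMap.range (D.on ρ).Et := by
  apply le_antisymm
  · refine iSup_le fun β => ?_
    intro v hv
    refine ⟨v, ?_⟩
    rw [on_Et, Et_wt ρ hv]
  · rintro _ ⟨w, rfl⟩
    have h1 : ev ρ D.Et ((D.on ρ).Et w) = (D.on ρ).Et w := by
      rw [on_Et, ← Module.End.mul_apply, ← map_mul, Et_Et]
    rw [vec hD ρ h1]
    refine Submodule.sum_mem _ fun α _ => ?_
    refine Submodule.smul_mem _ _ ?_
    by_cases h : LgT α
    · exact Submodule.mem_iSup_of_mem (⟨α, h⟩ : {α : Fin n → AO.Et // LgT α}) (PI_mem hD ρ α _)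
    · rw [PI_not_Lg hD h, map_zero, LinearMap.zero_apply]
      exact Submodule.zero_mem _

theorem wt_one (hD : Sy D) {β : Fin n → AO.Et} {v : V} (hv : v ∈ Wt (D.on ρ) β) {i j : Fin n}
    (hj : (j : ℕ) = i + 1) (h : (β j).1 = (β i).1) (h' : (β j).2 = (β i).2 + 1) :
    (D.on ρ).T i v = v := by
  have h1 := T_of hD hv (i := i) 1 (by
    intro E i1 i2 i3 ρ hρ w hw
    rw [map_one, one_smul]
    refine rw_one (on_sa hD hρ) hw hj (by rw [h]) ?_
    show (P.map (algebraMap k ℝ)).r (β j).1 * (P.map (algebraMap k ℝ)).Q ^ (β j).2 =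
      (P.map (algebraMap k ℝ)).Q * ((P.map (algebraMap k ℝ)).r (β i).1 * (P.map (algebraMap k ℝ)).Q ^ (β i).2)
    rw [h, h', zpow_add_one₀ (Q_ne _)]
    ring)
  rw [map_one, one_smul] at h1
  exact h1

theorem wt_neg (hD : Sy D) {β : Fin n → AO.Et} {v : V} (hv : v ∈ Wt (D.on ρ) β) {i j : Fin n}
    (hj : (j : ℕ) = i + 1) (h : (β j).1 = (β i).1) (h' : (β j).2 = (β i).2 - 1) :
    (D.on ρ).T i v = - ((P.map (algebraMap k K)).Q⁻¹ • v) := by
  have h1 := T_of hD hv (i := i) (-(P.Q)⁻¹) (by
    intro E i1 i2 i3 ρ hρ w hw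
    rw [map_neg, map_inv₀, ← map_Q, neg_smul]
    refine rw_neg (on_sa hD hρ) hw hj (by rw [h]) ?_
    show (P.map (algebraMap k ℝ)).Q * ((P.map (algebraMap k ℝ)).r (β j).1 * (P.map (algebraMap k ℝ)).Q ^ (β j).2) =
      (P.map (algebraMap k ℝ)).r (β i).1 * (P.map (algebraMap k ℝ)).Q ^ (β i).2
    have hQ : (P.map (algebraMap k ℝ)).Q ≠ 0 := Q_ne _
    rw [h, h', zpow_sub_one₀ hQ]
    field_simp)
  rw [map_neg, map_inv₀, ← map_Q, neg_smul] at h1
  exact h1

end

end AO
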