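import Pool.Agent.AO.K02
import Pool.Agent.AO.S04

/-!
# MP_6c3636_al, AO, module K07: coefficients of boxes (helper7)

`zr_eq`: `P.x y / P.x x = (sg x.1 * sg y.1) * P.q ^ (P.j y.1 - P.j x.1 + P.e * (y.2 - x.2))` if the labels are equal (`P.w` cancels; `sg x.1` is `1` or `-1`, so `1 / sg = sg`; `P.Q ^ c = P.q ^ (P.e * c)`). `x_ne`: different boxes with the same label have different eigenvalues (`zr ≠ 1`: if the types are different then `sg x.1 * sg y.1 = -1`; else `P.q ^ (P.e * d) ≠ 1` for `d ≠ 0`). `al_eq`, `nu_eq`: from `zr_eq`. `nu_symm`: `(1/z - Q) (1/z - Q⁻¹) / (1/z - 1) ^ 2 = (z - Q⁻¹) (z - Q) / (z - 1) ^ 2`. `nu_one`: for `y = x + 1` or `y = x - 1` the factor vanishes; `al_one`, `al_neg`: `z = Q`, `z = Q⁻¹`.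
-/

namespace AO

noncomputable section

open Classical Equiv

open AN (sq)

variable {K : Type} [Field K] [CharZero K] {V : Type} [AddCommGroup V] [Module K V] {P : Par K} {n : ℕ}
  {D : HA P n (Module.End K V)}

namespace K07_aux

theorem sg_sq (y : Ty) : sg y * sg y = 1 := by
  unfold sg
  split_ifs <;> norm_num

theorem sg_ne (y : Ty) : sg y ≠ 0 := by
  unfold sg
  split_ifs <;> norm_num

theorem sg_mul_neg {x y : Ty} (h : lb x = lb y) (hne : x ≠ y) : sg x * sg y = -1 := by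
  revert x y
  unfold lb sg
  decide

theorem q_ne (P : Par K) : (P.q : K) ≠ 0 := by
  have h := P.three
  exact Nat.cast_ne_zero.mpr (by omega)

theorem q_pos (P : Par K) : (0 : ℚ) < (P.q : ℚ) := by
  have h := P.three
  exact_mod_cast (by omega : 0 < P.q)

theorem x_form (P : Par K) (z : AO.Et) :
    P.x z = P.w (lb z.1) * ((sg z.1 : ℤ) : K) * (P.q : K) ^ (P.j z.1 + P.e * z.2) := by
  have hq := q_ne P
  unfold Par.x Par.r Par.Q
  rw [zpow_add₀ hq, zpow_mul, zpow_natCast]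
  ring

theorem x_ne_zero (P : Par K) (z : AO.Et) : P.x z ≠ 0 := by
  rw [x_form]
  have h1 : ((sg z.1 : ℤ) : K) ≠ 0 := Int.cast_ne_zero.mpr (sg_ne _)
  exact mul_ne_zero (mul_ne_zero (P.ne _) h1) (zpow_ne_zero _ (q_ne P))

theorem zr_ne_one {x y : AO.Et} (h : lb x.1 = lb y.1) (hne : x ≠ y) : P.zr x y ≠ 1 := by
  unfold Par.zr
  by_cases ht : x.1 = y.1
  · have hc : x.2 ≠ y.2 := fun hc => hne (Prod.ext ht hc)
    rw [ht, sg_sq, sub_self, zero_add, Int.cast_one, one_mul]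
    intro h1
    have hq1 : (P.q : ℚ) ≠ 1 := by
      have h3 := P.three
      exact_mod_cast (by omega : P.q ≠ 1)
    rw [zpow_eq_one_iff_right₀ (q_pos P).le hq1] at h1
    have he := P.pos
    rcases mul_eq_zero.mp h1 with h2 | h2
    · omega
    · omega
  · rw [sg_mul_neg h ht]
    have hp : (0 : ℚ) < (P.q : ℚ) ^ (P.j y.1 - P.j x.1 + P.e * (y.2 - x.2)) := zpow_pos (q_pos P) _
    intro h1
    push_cast at h1
    linarith

theorem zr_pos_ne (P : Par K) (x y : AO.Et) : P.zr x y ≠ 0 := by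
  unfold Par.zr
  refine mul_ne_zero ?_ (zpow_ne_zero _ (q_pos P).ne')
  exact Int.cast_ne_zero.mpr (mul_ne_zero (sg_ne _) (sg_ne _))

theorem zr_inv (P : Par K) (x y : AO.Et) : P.zr y x = (P.zr x y)⁻¹ := by
  have h0 := zr_pos_ne P x y
  apply eq_inv_of_mul_eq_one_left
  unfold Par.zr
  have hq := (q_pos P).ne'
  have e1 : (P.j x.1 - P.j y.1 + P.e * (x.2 - y.2)) = -(P.j y.1 - P.j x.1 + P.e * (y.2 - x.2)) := by ring
  rw [e1, zpow_neg]
  have h2 : (P.q : ℚ) ^ (P.j y.1 - P.j x.1 + P.e * (y.2 - x.2)) ≠ 0 := zpow_ne_zero _ hq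
  have h3 : ((sg y.1 * sg x.1 : ℤ) : ℚ) * ((sg x.1 * sg y.1 : ℤ) : ℚ) = 1 := by
    have : sg y.1 * sg x.1 * (sg x.1 * sg y.1) = 1 := by
      have h4 := sg_sq x.1
      have h5 := sg_sq y.1
      calc sg y.1 * sg x.1 * (sg x.1 * sg y.1) = (sg x.1 * sg x.1) * (sg y.1 * sg y.1) := by ring
        _ = 1 := by rw [h4, h5, one_mul]
    exact_mod_cast this
  calc ((sg y.1 * sg x.1 : ℤ) : ℚ) * ((P.q : ℚ) ^ (P.j y.1 - P.j x.1 + P.e * (y.2 - x.2)))⁻¹ *
        (((sg x.1 * sg y.1 : ℤ) : ℚ) * (P.q : ℚ) ^ (P.j y.1 - P.j x.1 + P.e * (y.2 - x.2))) =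
      (((sg y.1 * sg x.1 : ℤ) : ℚ) * ((sg x.1 * sg y.1 : ℤ) : ℚ)) *
        (((P.q : ℚ) ^ (P.j y.1 - P.j x.1 + P.e * (y.2 - x.2)))⁻¹ *
          (P.q : ℚ) ^ (P.j y.1 - P.j x.1 + P.e * (y.2 - x.2))) := by ring
    _ = 1 := by rw [h3, inv_mul_cancel₀ h2, one_mul]

theorem Q_cast (P : Par K) : ((P.Qr : ℚ) : K) = P.Q := by
  unfold Par.Qr Par.Q
  push_cast
  rfl

theorem Q_ne (P : Par K) : P.Q ≠ 0 := pow_ne_zero _ (q_ne P)

end K07_aux

theorem zr_eq {x y : AO.Et} (h : lb x.1 = lb y.1) : ((P.zr x y : ℚ) : K) = P.x y / P.x x := by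
  have hx := K07_aux.x_ne_zero P x
  rw [eq_div_iff hx, K07_aux.x_form, K07_aux.x_form, ← h]
  unfold Par.zr
  push_cast
  have hq := K07_aux.q_ne P
  have e1 : P.j y.1 + P.e * y.2 = (P.j y.1 - P.j x.1 + P.e * (y.2 - x.2)) + (P.j x.1 + P.e * x.2) := by ring
  rw [e1, zpow_add₀ hq (P.j y.1 - P.j x.1 + P.e * (y.2 - x.2))]
  have h4 : ((sg x.1 : ℤ) : K) * ((sg x.1 : ℤ) : K) = 1 := by
    exact_mod_cast congrArg (fun t : ℤ => (t : K)) (K07_aux.sg_sq x.1)
  calc ((sg x.1 : ℤ) : K) * ((sg y.1 : ℤ) : K) * (P.q : K) ^ (P.j y.1 - P.j x.1 + P.e * (y.2 - x.2)) *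
        (P.w (lb x.1) * ((sg x.1 : ℤ) : K) * (P.q : K) ^ (P.j x.1 + P.e * x.2)) =
      (((sg x.1 : ℤ) : K) * ((sg x.1 : ℤ) : K)) * (P.w (lb x.1) * ((sg y.1 : ℤ) : K) *
        ((P.q : K) ^ (P.j y.1 - P.j x.1 + P.e * (y.2 - x.2)) * (P.q : K) ^ (P.j x.1 + P.e * x.2))) := by ring
    _ = _ := by rw [h4, one_mul]

theorem x_ne {x y : AO.Et} (h : lb x.1 = lb y.1) (hne : x ≠ y) : P.x x ≠ P.x y := by
  intro h1
  have h2 := zr_eq (P := P) h
  rw [h1, div_self (K07_aux.x_ne_zero P y)] at h2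
  have h3 : P.zr x y = 1 := by exact_mod_cast h2
  exact K07_aux.zr_ne_one h hne h3

theorem al_eq {x y : AO.Et} (hne : x ≠ y) :
    ((P.al x y : ℚ) : K) = P.alR (lb x.1) (lb y.1) (P.x x) (P.x y) := by
  unfold Par.al Par.alR
  by_cases h : lb x.1 = lb y.1
  · rw [if_pos h, if_pos h]
    have hx := K07_aux.x_ne_zero P x
    have hxy := x_ne (P := P) h hne
    have h1 : P.x y - P.x x ≠ 0 := sub_ne_zero.mpr (Ne.symm hxy)
    push_cast
    rw [zr_eq h, K07_aux.Q_cast]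
    have h2 : P.x y / P.x x - 1 = (P.x y - P.x x) / P.x x := by
      rw [sub_div, div_self hx]
    rw [h2]
    field_simp
  · rw [if_neg h, if_neg h, Rat.cast_zero]

theorem nu_eq {x y : AO.Et} (hne : x ≠ y) :
    ((P.nu x y : ℚ) : K) = P.nuR (lb x.1) (lb y.1) (P.x x) (P.x y) := by
  unfold Par.nu Par.nuR
  by_cases h : lb x.1 = lb y.1
  · rw [if_pos h, if_pos h]
    have hx := K07_aux.x_ne_zero P x
    have hQ := K07_aux.Q_ne P
    have hxy := x_ne (P := P) h hne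
    have h1 : P.x y - P.x x ≠ 0 := sub_ne_zero.mpr (Ne.symm hxy)
    push_cast
    rw [zr_eq h, K07_aux.Q_cast]
    have h2 : P.x y / P.x x - 1 = (P.x y - P.x x) / P.x x := by
      rw [sub_div, div_self hx]
    have h3 : P.x y / P.x x - P.Q = (P.x y - P.Q * P.x x) / P.x x := by
      rw [sub_div, mul_div_assoc, div_self hx, mul_one]
    have h4 : P.x y / P.x x - P.Q⁻¹ = (P.Q * P.x y - P.x x) / (P.Q * P.x x) := by
      field_simp
    rw [h2, h3, h4]
    field_simp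
  · rw [if_neg h, if_neg h, Rat.cast_inv, K07_aux.Q_cast]

theorem nu_symm (x y : AO.Et) : P.nu x y = P.nu y x := by
  unfold Par.nu
  by_cases h : lb x.1 = lb y.1
  · rw [if_pos h, if_pos h.symm, K07_aux.zr_inv P x y]
    have h0 := K07_aux.zr_pos_ne P x y
    have hQ : P.Qr ≠ 0 := pow_ne_zero _ (K07_aux.q_pos P).ne'
    generalize P.zr x y = z at h0
    generalize P.Qr = Q at hQ
    by_cases h1 : z = 1
    · rw [h1, inv_one]
    · have h2 : z - 1 ≠ 0 := sub_ne_zero.mpr h1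
      have h3 : z⁻¹ - 1 = -(z - 1) / z := by
        field_simp
        ring
      have h4 : z⁻¹ - Q = -(Q * (z - Q⁻¹)) / z := by
        field_simp
        ring
      have h5 : z⁻¹ - Q⁻¹ = -((z - Q)) / (Q * z) := by
        field_simp
        ring
      rw [h3, h4, h5]
      field_simp
  · rw [if_neg h, if_neg (fun h' => h h'.symm)]

end

end AO
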