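import Pool.Agent.AO.K06
import Pool.Agent.AO.K07
import Pool.Agent.AO.S03

/-!
# MP_6c3636_al, AO, module K08: existence of a seminormal basis (helper7)

As AN/J08.lean (read it). Define `v β` for `β ∈ SqT n F` by recursion on `msT β` (S03): if `β` has a descent, that is places `i`, `j = i + 1` with `Be (β j) (β i)`, choose one and put `v β = T i (v γ) - al • v γ`, `γ = sq β i j`, `al = P.al (γ i) (γ j)`; otherwise `β` is minimal (`MiT`), so `β = β₀` (`mi_uniqueT`) and `v β₀ = v₀`. CLAIM by strong induction on `msT β`: for every descent `(i, j)` of `β` one has `v β = T i (v γ) - al • v γ`. Let `(i, j)` be the chosen descent and `(i', j')` another one. If `i' ≥ i + 2` or `i ≥ i' + 2`: `δ = sq (sq β i j) i' j'`; by the induction hypothesis for `sq β i j` and `sq β i' j'` both sides are `(T i - al) (T i' - al') (v δ)` and the operators commute (`cm`). If `i' = i + 1`, boxes `x, y, z` at `i, i + 1, i + 2`, `Be y x`, `Be z y` (so `Be z x`): with `δ` the sequence with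 the boxes `z, y, x`: both sides are obtained from `v δ` by three steps, and agree by `yb` (K02) with `al_eq` (K07). Then `wt` (`iw_mem`), `nz` (`iw_iw`; `P.nu (γ i) (γ j) ≠ 0` for `Be (γ i) (γ j)`, S04), `one`, `neg` (`wt_one`, `wt_neg`), `up` (the claim for `sq β i j`, whose descent is `(i, j)`). The parameters of `D.on ρ` are `P.map (algebraMap k K)`, which has the same `al`, `nu` as `P` (`rfl`). `v₀` is in `Wt`; `Wt D β = WtR D a x` by definition.
-/

namespace AO

noncomputable section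

open Classical Equiv

open AN (sq)

namespace K08_aux

section

variable {K : Type} [Field K] {V : Type} [AddCommGroup V] [Module K V] {P : Par K} {n : ℕ}
  {D : HA P n (Module.End K V)}

theorem be_trans {x y z : AO.Et} (h : Be z y) (h' : Be y x) : Be z x := by
  rcases h with h | ⟨h, h2⟩ <;> rcases h' with h' | ⟨h', h2'⟩
  · exact Or.inl (h.trans h')
  · exact Or.inl (h' ▸ h)
  · exact Or.inl (h ▸ h')
  · exact Or.inr ⟨h.trans h', by omega⟩

theorem be_ne {x y : AO.Et} (h : Be x y) : x ≠ y := by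
  rintro rfl
  rcases h with h | ⟨-, h⟩
  · exact lt_irrefl _ h
  · omega

/-- the operator of a descent -/
def UU (D : HA P n (Module.End K V)) (k : Fin n) (A : K) : Module.End K V :=
  D.T k - algebraMap K (Module.End K V) A

theorem UU_apply (k : Fin n) (A : K) (w : V) : UU D k A w = D.T k w - A • w := by
  unfold UU
  rw [LinearMap.sub_apply, Module.algebraMap_end_apply]

/-- the vector of a sequence, by recursion over the descents -/
def vv (D : HA P n (Module.End K V)) (v₀ : V) (β : Fin n → AO.Et) : V :=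
  if h : ∃ p : Fin n × Fin n, (p.2 : ℕ) = p.1 + 1 ∧ Be (β p.2) (β p.1) then
    UU D h.choose.1 ((P.al (β h.choose.2) (β h.choose.1) : ℚ) : K)
      (vv D v₀ (sq β h.choose.1 h.choose.2))
  else v₀
termination_by msT β
decreasing_by
  exact msT_lt h.choose_spec.1 h.choose_spec.2

theorem vv_desc (v₀ : V) (β : Fin n → AO.Et)
    (h : ∃ p : Fin n × Fin n, (p.2 : ℕ) = p.1 + 1 ∧ Be (β p.2) (β p.1)) :
    ∃ k l : Fin n, (l : ℕ) = k + 1 ∧ Be (β l) (β k) ∧
      vv D v₀ β = UU D k ((P.al (β l) (β k) : ℚ) : K) (vv D v₀ (sq β k l)) := by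
  refine ⟨h.choose.1, h.choose.2, h.choose_spec.1, h.choose_spec.2, ?_⟩
  conv_lhs => rw [vv]
  rw [dif_pos h]

theorem vv_min (v₀ : V) (β : Fin n → AO.Et) (h : MiT β) : vv D v₀ β = v₀ := by
  rw [vv, dif_neg]
  rintro ⟨⟨k, l⟩, h1, h2⟩
  exact h k l h1 h2

theorem swap_comm' {k l k' l' : Fin n} (hl : (l : ℕ) = k + 1) (hl' : (l' : ℕ) = k' + 1)
    (h : (k : ℕ) + 2 ≤ k') : swap k l * swap k' l' = swap k' l' * swap k l := by
  have h1 : k ≠ k' := fun h' => by rw [h'] at h; omega
  have h2 : k ≠ l' := fun h' => by rw [h'] at h; omega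
  have h3 : l ≠ k' := fun h' => by rw [h'] at hl; omega
  have h4 : l ≠ l' := fun h' => by rw [h'] at hl; omega
  have hd : Equiv.Perm.Disjoint (swap k l) (swap k' l') := by
    intro i
    by_cases hi : i = k ∨ i = l
    · right
      rcases hi with rfl | rfl
      · exact swap_apply_of_ne_of_ne h1 h2
      · exact swap_apply_of_ne_of_ne h3 h4
    · left
      push Not at hi
      exact swap_apply_of_ne_of_ne hi.1 hi.2
  exact hd.commute

theorem UU_comm {k l k' l' : Fin n} (hl : (l : ℕ) = k + 1) (hl' : (l' : ℕ) = k' + 1)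
    (h : (k : ℕ) + 2 ≤ k') (r r' : K) (w : V) :
    UU D k r (UU D k' r' w) = UU D k' r' (UU D k r w) := by
  have h1 : D.T k * D.T k' = D.T k' * D.T k := D.cm k l k' l' hl hl' (by
    rw [Fin.lt_def]
    omega)
  have h2 : UU D k r * UU D k' r' = UU D k' r' * UU D k r := by
    unfold UU
    have c1 := Algebra.commutes r (D.T k')
    have c2 := Algebra.commutes r' (D.T k)
    have c3 := Algebra.commutes r (algebraMap K (Module.End K V) r')
    rw [sub_mul, sub_mul, mul_sub, mul_sub, mul_sub, mul_sub, h1, c1, ← c2, c3]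
    abel
  exact congrArg (fun T : Module.End K V => T w) h2

/-- the step -/
theorem step [CharZero K] {β : Fin n → AO.Et} {v : V} {k l : Fin n} (hl : (l : ℕ) = k + 1)
    (hd : Be (β l) (β k)) (hv : v ∈ Wt D (sq β k l)) :
    UU D k ((P.al (β l) (β k) : ℚ) : K) v ∈ Wt D β := by
  have e1 : sq β k l k = β l := sqT_k β k l
  have e2 : sq β k l l = β k := sqT_l β k l
  have h3 := iw_mem (D := D) hv hl (fun _ => by
    show P.x (sq β k l k) ≠ P.x (sq β k l l)
    rw [e1, e2]
    refine x_ne ?_ (be_ne hd)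
    rename_i h
    have h' : lb (sq β k l k).1 = lb (sq β k l l).1 := h
    rwa [e1, e2] at h')
  have h4 : WtR D (sq (fun i => lb (sq β k l i).1) k l) (sq (fun i => P.x (sq β k l i)) k l) =
      Wt D β := by
    have h5 : Wt D (sq (sq β k l) k l) = Wt D β := by rw [sqT_sq]
    exact h5
  rw [h4] at h3
  rw [UU_apply, al_eq (be_ne hd)]
  have h6 : P.alR (lb (sq β k l k).1) (lb (sq β k l l).1) (P.x (sq β k l k)) (P.x (sq β k l l)) =
      P.alR (lb (β l).1) (lb (β k).1) (P.x (β l)) (P.x (β k)) := by rw [e1, e2]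
  rw [← h6]
  exact h3

/-- the step does not give the zero vector -/
theorem step_ne [CharZero K] {β : Fin n → AO.Et} {v : V} {k l : Fin n} (hl : (l : ℕ) = k + 1)
    (hd : Be (β l) (β k)) (hv : v ∈ Wt D (sq β k l)) (h0 : v ≠ 0) :
    UU D k ((P.al (β l) (β k) : ℚ) : K) v ≠ 0 := by
  have e1 : sq β k l k = β l := sqT_k β k l
  have e2 : sq β k l l = β k := sqT_l β k l
  have h3 := iw_iw (D := D) hv hl (fun _ => by
    show P.x (sq β k l k) ≠ P.x (sq β k l l)
    rw [e1, e2]
    refine x_ne ?_ (be_ne hd)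
    rename_i h
    have h' : lb (sq β k l k).1 = lb (sq β k l l).1 := h
    rwa [e1, e2] at h')
  simp only [e1, e2] at h3
  rw [← al_eq (be_ne hd), ← nu_eq (be_ne hd)] at h3
  intro h4
  rw [UU_apply] at h4
  rw [h4, map_zero, smul_zero, sub_zero] at h3
  rcases smul_eq_zero.1 h3.symm with h5 | h5
  · exact (nu_pos (P := P) hd).ne' (by exact_mod_cast h5)
  · exact h0 h5

/-- the two ways from `β` give the same vector -/
theorem conf [CharZero K] {F : AO.Et → ℤ} (v : (Fin n → AO.Et) → V) {β : Fin n → AO.Et}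
    (hβ : β ∈ SqT n F)
    (IW : ∀ γ ∈ SqT n F, msT γ < msT β → v γ ∈ Wt D γ)
    (IH : ∀ γ ∈ SqT n F, msT γ < msT β → ∀ k l : Fin n, (l : ℕ) = k + 1 → Be (γ l) (γ k) →
      v γ = UU D k ((P.al (γ l) (γ k) : ℚ) : K) (v (sq γ k l)))
    {k l k' l' : Fin n} (hl : (l : ℕ) = k + 1) (hd : Be (β l) (β k)) (hl' : (l' : ℕ) = k' + 1)
    (hd' : Be (β l') (β k')) (hkk : (k : ℕ) < k') :
    UU D k ((P.al (β l) (β k) : ℚ) : K) (v (sq β k l)) =
      UU D k' ((P.al (β l') (β k') : ℚ) : K) (v (sq β k' l')) := by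
  have a1 : sq β k l ∈ SqT n F := SqT_sq hβ hl (Or.inr hd)
  have a2 : sq β k' l' ∈ SqT n F := SqT_sq hβ hl' (Or.inr hd')
  have m1 : msT (sq β k l) < msT β := msT_lt hl hd
  have m2 : msT (sq β k' l') < msT β := msT_lt hl' hd'
  by_cases hc : (k : ℕ) + 2 ≤ k'
  · -- disjoint transpositions
    have h1 : k ≠ k' := fun h' => by rw [h'] at hc; omega
    have h2 : k ≠ l' := fun h' => by rw [h'] at hc; omega
    have h3 : l ≠ k' := fun h' => by rw [h'] at hl; omega
    have h4 : l ≠ l' := fun h' => by rw [h'] at hl; omega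
    have e1 := IH _ a1 m1 k' l' hl' (by
      rw [sqT_other β h2.symm h4.symm, sqT_other β h1.symm h3.symm]
      exact hd')
    have e2 := IH _ a2 m2 k l hl (by
      rw [sqT_other β h1 h2, sqT_other β h3 h4]
      exact hd)
    rw [sqT_other β h2.symm h4.symm, sqT_other β h1.symm h3.symm] at e1
    rw [sqT_other β h1 h2, sqT_other β h3 h4] at e2
    have e3 : sq (sq β k l) k' l' = sq (sq β k' l') k l := by
      funext i
      show β (swap k l (swap k' l' i)) = β (swap k' l' (swap k l i))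
      have := congrArg (fun σ : Perm (Fin n) => σ i) (swap_comm' hl hl' hc)
      exact congrArg β this
    rw [e1, e2, e3]
    exact UU_comm hl hl' hc _ _ _
  · -- neighbouring transpositions
    have hk' : k' = l := Fin.ext (by omega)
    subst hk'
    have n1 : k ≠ k' := fun h' => by rw [h'] at hkk; omega
    have n2 : k ≠ l' := fun h' => by rw [h'] at hkk; omega
    have n3 : k' ≠ l' := fun h' => by rw [← h'] at hl'; omega
    -- the entries x, y, z
    obtain ⟨x, hx⟩ : ∃ x, x = β k := ⟨_, rfl⟩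
    obtain ⟨y, hy⟩ : ∃ y, y = β k' := ⟨_, rfl⟩
    obtain ⟨z, hz⟩ : ∃ z, z = β l' := ⟨_, rfl⟩
    have hyx : Be y x := by rw [hx, hy]; exact hd
    have hzy : Be z y := by rw [hy, hz]; exact hd'
    have hzx : Be z x := be_trans hzy hyx
    -- (y, x, z)
    have b1k : sq β k k' k = y := by rw [sqT_k, hy]
    have b1l : sq β k k' k' = x := by rw [sqT_l, hx]
    have b1z : sq β k k' l' = z := by rw [sqT_other β n2.symm n3.symm, hz]
    -- (y, z, x)
    have a3 : sq (sq β k k') k' l' ∈ SqT n F := SqT_sq a1 hl' (Or.inr (by rw [b1l, b1z]; exact hzx))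
    have m3 : msT (sq (sq β k k') k' l') < msT (sq β k k') := msT_lt hl' (by rw [b1l, b1z]; exact hzx)
    have b2k : sq (sq β k k') k' l' k = y := by rw [sqT_other _ n1 n2, b1k]
    have b2l : sq (sq β k k') k' l' k' = z := by rw [sqT_k, b1z]
    -- (x, z, y)
    have c1k : sq β k' l' k = x := by rw [sqT_other β n1 n2, hx]
    have c1l : sq β k' l' k' = z := by rw [sqT_k, hz]
    have c1z : sq β k' l' l' = y := by rw [sqT_l, hy]
    -- (z, x, y)
    have a4 : sq (sq β k' l') k k' ∈ SqT n F := SqT_sq a2 hl (Or.inr (by rw [c1k, c1l]; exact hzx))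
    have m4 : msT (sq (sq β k' l') k k') < msT (sq β k' l') := msT_lt hl (by rw [c1k, c1l]; exact hzx)
    have c2k : sq (sq β k' l') k k' k = z := by rw [sqT_k, c1l]
    have c2l : sq (sq β k' l') k k' k' = x := by rw [sqT_l, c1k]
    have c2z : sq (sq β k' l') k k' l' = y := by rw [sqT_other _ n2.symm n3.symm, c1z]
    -- (z, y, x)
    have a5 : sq (sq (sq β k' l') k k') k' l' ∈ SqT n F :=
      SqT_sq a4 hl' (Or.inr (by rw [c2l, c2z]; exact hyx))
    have m5 : msT (sq (sq (sq β k' l') k k') k' l') < msT (sq (sq β k' l') k k') :=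
      msT_lt hl' (by rw [c2l, c2z]; exact hyx)
    have c3k : sq (sq (sq β k' l') k k') k' l' k = z := by rw [sqT_other _ n1 n2, c2k]
    have c3l : sq (sq (sq β k' l') k k') k' l' k' = y := by rw [sqT_k, c2z]
    have c3z : sq (sq (sq β k' l') k k') k' l' l' = x := by rw [sqT_l, c2l]
    have e1 := IH _ a1 m1 k' l' hl' (by rw [b1l, b1z]; exact hzx)
    have e2 := IH _ a3 (by omega) k k' hl (by rw [b2k, b2l]; exact hzy)
    have e3 := IH _ a2 m2 k k' hl (by rw [c1k, c1l]; exact hzx)
    have e4 := IH _ a4 (by omega) k' l' hl' (by rw [c2l, c2z]; exact hyx)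
    have hw := IW _ a5 (by omega)
    rw [b1l, b1z] at e1
    rw [b2k, b2l] at e2
    rw [c1k, c1l] at e3
    rw [c2l, c2z] at e4
    have e5 : sq (sq (sq β k k') k' l') k k' = sq (sq (sq β k' l') k k') k' l' := by
      have hb : swap k k' * (swap k' l' * swap k k') = swap k' l' * (swap k k' * swap k' l') := by
        rw [← mul_assoc, ← mul_assoc]
        have h5 : swap k k' * swap k' l' * swap k k' = swap k l' := by
          have := swap_mul_swap_mul_swap (x := l') (y := k') (z := k) n3.symm n2.symm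
          rw [swap_comm k k', swap_comm k' l']
          exact this
        have h6 : swap k' l' * swap k k' * swap k' l' = swap k l' := by
          have := swap_mul_swap_mul_swap (x := k) (y := k') (z := l') n1 n2
          exact this.trans (swap_comm _ _)
        rw [h5, h6]
      funext i
      exact congrArg β (congrArg (fun σ : Perm (Fin n) => σ i) hb)
    rw [e1, e2, e3, e4, e5, ← hx, ← hy, ← hz]
    have h7 := yb (D := D) (A := ((P.al z y : ℚ) : K)) (B := ((P.al y x : ℚ) : K))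
      (C := ((P.al z x : ℚ) : K)) hw hl hl'
      (by rw [c3k, c3l]; exact fun h => x_ne h (be_ne hzy))
      (by rw [c3l, c3z]; exact fun h => x_ne h (be_ne hyx))
      (by rw [c3k, c3z]; exact fun h => x_ne h (be_ne hzx))
      (by rw [c3k, c3l]; exact al_eq (be_ne hzy))
      (by rw [c3l, c3z]; exact al_eq (be_ne hyx))
      (by rw [c3k, c3z]; exact al_eq (be_ne hzx))
    rw [UU_apply, UU_apply, UU_apply, UU_apply, UU_apply, UU_apply]
    exact h7

theorem claim [CharZero K] {F : AO.Et → ℤ} {β₀ : Fin n → AO.Et} (hβ : β₀ ∈ SqT n F) (hm : MiT β₀)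
    {v₀ : V} (hv : v₀ ∈ Wt D β₀) : ∀ m : ℕ, ∀ β ∈ SqT n F, msT β = m →
    vv D v₀ β ∈ Wt D β ∧ ∀ k l : Fin n, (l : ℕ) = k + 1 → Be (β l) (β k) →
      vv D v₀ β = UU D k ((P.al (β l) (β k) : ℚ) : K) (vv D v₀ (sq β k l)) := by
  intro m
  induction m using Nat.strong_induction_on with
  | _ m ih =>
    intro β hβ' hm'
    have IW : ∀ γ ∈ SqT n F, msT γ < msT β → vv D v₀ γ ∈ Wt D γ :=
      fun γ hγ hlt => (ih (msT γ) (hm' ▸ hlt) γ hγ rfl).1
    have IH : ∀ γ ∈ SqT n F, msT γ < msT β → ∀ k l : Fin n, (l : ℕ) = k + 1 → Be (γ l) (γ k) →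
        vv D v₀ γ = UU D k ((P.al (γ l) (γ k) : ℚ) : K) (vv D v₀ (sq γ k l)) :=
      fun γ hγ hlt => (ih (msT γ) (hm' ▸ hlt) γ hγ rfl).2
    by_cases hmin : MiT β
    · refine ⟨?_, fun k l hl hd => absurd hd (hmin k l hl)⟩
      rw [mi_uniqueT hβ' hβ hmin hm, vv_min v₀ β₀ hm]
      exact hv
    · have hex : ∃ p : Fin n × Fin n, (p.2 : ℕ) = p.1 + 1 ∧ Be (β p.2) (β p.1) := by
        unfold MiT at hmin
        push Not at hmin
        obtain ⟨k, l, h1, h2⟩ := hmin
        exact ⟨(k, l), h1, h2⟩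
      obtain ⟨k', l', hl', hd', he⟩ := vv_desc (D := D) v₀ β hex
      refine ⟨?_, ?_⟩
      · rw [he]
        exact step hl' hd' (IW _ (SqT_sq hβ' hl' (Or.inr hd')) (msT_lt hl' hd'))
      · intro k l hl hd
        rw [he]
        rcases lt_trichotomy (k : ℕ) k' with hlt | heq | hgt
        · exact (conf (vv D v₀) hβ' IW IH hl hd hl' hd' hlt).symm
        · have h1 : k = k' := Fin.ext heq
          have h2 : l = l' := Fin.ext (by omega)
          rw [h1, h2]
        · exact conf (vv D v₀) hβ' IW IH hl' hd' hl hd hgt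

end

end K08_aux

variable {k : Type} [Field k] [Algebra k ℝ] {K : Type} [Field K] [CharZero K] [Algebra k K] {G : Type} [Group G]
  [Finite G] {P : Par k} {n : ℕ} {D : HA P n (MonoidAlgebra k G)} {V : Type} [AddCommGroup V] [Module K V]
  {ρ : Representation K G V}

theorem exists_snT (hD : Sy D) {F : AO.Et → ℤ} {β₀ : Fin n → AO.Et} (hβ : β₀ ∈ SqT n F)
    (hm : MiT β₀) {v₀ : V} (hv : v₀ ∈ Wt (D.on ρ) β₀) (h0 : v₀ ≠ 0) :
    ∃ v : (Fin n → AO.Et) → V, SN (D.on ρ) F v ∧ v β₀ = v₀ := by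
  have hcl := K08_aux.claim (D := D.on ρ) hβ hm hv
  have hwt : ∀ β ∈ SqT n F, K08_aux.vv (D.on ρ) v₀ β ∈ Wt (D.on ρ) β :=
    fun β hβ' => (hcl _ β hβ' rfl).1
  have hup := fun β (hβ' : β ∈ SqT n F) => (hcl _ β hβ' rfl).2
  have hmin := K08_aux.vv_min (D := D.on ρ) v₀
  refine ⟨K08_aux.vv (D.on ρ) v₀, ⟨⟨β₀, hβ⟩, ?_, hwt, ?_, ?_, ?_⟩, hmin β₀ hm⟩
  · refine desc_inductT ?_ ?_
    · intro β h1 h2
      rw [hmin β h2]
      exact h0
    · intro β h1 i j hj hd h2
      rw [hup β h1 i j hj hd]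
      exact K08_aux.step_ne hj hd (hwt _ (SqT_sq h1 hj (Or.inr hd))) h2
  · intro β h1 i j hj h h'
    exact wt_one hD (hwt β h1) hj h h'
  · intro β h1 i j hj h h'
    exact wt_neg hD (hwt β h1) hj h h'
  · intro β h1 i j hj h
    have h2 : sq β i j ∈ SqT n F := SqT_sq h1 hj (Or.inl h)
    have h3 := hup _ h2 i j hj (by
      rw [sqT_k, sqT_l]
      exact h)
    rw [sqT_sq, sqT_k, sqT_l, K08_aux.UU_apply] at h3
    rw [h3]
    abel

end

end AO
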