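import Pool.Agent.AO.K08
import Pool.Agent.AO.K09

/-!
# MP_6c3636_al, AO, module K10: irreducible modules have a seminormal basis (helper7)

As AN/J10.lean. By `wt_sup` (K06) there is a legal `β` with `Wt (D.on ρ) β ≠ ⊥`; choose such a `β` with `msT β` (S03) minimal. Put `F = occT β n`. `β` is minimal (`MiT`): if `j = i + 1`, `Be (β j) (β i)` then for `0 ≠ v ∈ Wt (D.on ρ) β` the vector `T i v - al • v` is in `Wt (D.on ρ) (sq β i j)` (`iw_mem`, `al_eq`) and nonzero (`iw_iw`, `nu_eq`, `nu ≠ 0` by `nu_pos`, S04, `nu_symm`), and `msT (sq β i j) < msT β`. `exists_snT` (K08). The span of the `v β` is contained in the range of `Et` (`Wt ≤ range Et`), nonzero and stable (K09 `spT`, `spX`, `spE`), so it is the range of `Et` by `hir`. (For `T i` with `i + 1 = n`: not needed, `hir` only asks for `i + 1 < n`.) The basis: `SN.li`.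
-/

namespace AO

noncomputable section

open Classical Equiv

open AN (sq)

variable {k : Type} [Field k] [Algebra k ℝ] {K : Type} [Field K] [CharZero K] [Algebra k K] {G : Type} [Group G]
  [Finite G] {P : Par k} {n : ℕ} {D : HA P n (MonoidAlgebra k G)} {V : Type} [AddCommGroup V] [Module K V]
  {ρ : Representation K G V}

private theorem K10_aux_exists (hD : Sy D) (hne : (D.on ρ).Et ≠ 0) :
    ∃ β : Fin n → AO.Et, Wt (D.on ρ) β ≠ ⊥ := by
  by_contra hcon
  push Not at hcon
  have h1 : LinearMap.range (D.on ρ).Et = ⊥ := by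
    rw [← wt_sup hD]
    exact iSup_eq_bot.2 fun β => hcon β
  exact hne (LinearMap.range_eq_bot.1 h1)

private theorem K10_aux_sn (hD : Sy D) (m : ℕ) :
    (∃ β : Fin n → AO.Et, Wt (D.on ρ) β ≠ ⊥ ∧ msT β = m) →
    ∃ (F : AO.Et → ℤ) (v : (Fin n → AO.Et) → V), SN (D.on ρ) F v := by
  induction m using Nat.strong_induction_on with
  | _ m ih =>
    rintro ⟨β, hβ, hmβ⟩
    by_cases hmi : MiT β
    · obtain ⟨v, hv, hv0⟩ := Submodule.exists_mem_ne_zero_of_ne_bot hβ
      obtain ⟨w, hw, -⟩ := exists_snT hD (F := occT β n)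
        (⟨wt_lg hD hβ, rfl⟩ : β ∈ SqT n (occT β n)) hmi hv hv0
      exact ⟨_, w, hw⟩
    · unfold MiT at hmi
      push Not at hmi
      obtain ⟨i, j, hj, hij⟩ := hmi
      obtain ⟨v, hv, hv0⟩ := Submodule.exists_mem_ne_zero_of_ne_bot hβ
      have hlg : LgT β := wt_lg hD hβ
      have hne : β i ≠ β j := LgT_ne hlg hj
      have hx : lb (β i).1 = lb (β j).1 →
          (P.map (algebraMap k K)).x (β i) ≠ (P.map (algebraMap k K)).x (β j) := fun h => x_ne h hne
      have hu := iw_mem hv hj hx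
      have hlt : msT (sq β i j) < m := by
        rw [← hmβ]
        exact msT_lt hj hij
      refine ih _ hlt ⟨sq β i j, ?_, rfl⟩
      intro hbot
      have hu0 : (D.on ρ).T i v - (P.map (algebraMap k K)).alR (lb (β i).1) (lb (β j).1)
          ((P.map (algebraMap k K)).x (β i)) ((P.map (algebraMap k K)).x (β j)) • v = 0 := by
        have h4 : ((D.on ρ).T i v - (P.map (algebraMap k K)).alR (lb (β i).1) (lb (β j).1)
            ((P.map (algebraMap k K)).x (β i)) ((P.map (algebraMap k K)).x (β j)) • v) ∈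
            Wt (D.on ρ) (sq β i j) := hu
        rw [hbot] at h4
        exact (Submodule.mem_bot K).1 h4
      have h5 := iw_iw hv hj hx
      have h6 : (P.map (algebraMap k K)).nuR (lb (β i).1) (lb (β j).1)
          ((P.map (algebraMap k K)).x (β i)) ((P.map (algebraMap k K)).x (β j)) • v = 0 := by
        rw [← h5]
        beta_reduce
        rw [hu0, map_zero, smul_zero, sub_zero]
      have h7 := (smul_eq_zero.1 h6).resolve_right hv0
      rw [← nu_eq hne] at h7
      have h8 : (P.map (algebraMap k K)).nu (β i) (β j) = 0 := by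
        exact_mod_cast h7
      rw [nu_symm] at h8
      exact (ne_of_gt (nu_pos (P := P.map (algebraMap k K)) hij)) h8

private theorem K10_aux_mem (hD : Sy D) {F : AO.Et → ℤ} {v : (Fin n → AO.Et) → V}
    (h : SN (D.on ρ) F v) {β : Fin n → AO.Et} (hβ : β ∈ SqT n F) :
    v β ∈ LinearMap.range (D.on ρ).Et := by
  rw [← wt_sup hD]
  exact Submodule.mem_iSup_of_mem (⟨β, hβ.1⟩ : {β : Fin n → AO.Et // LgT β}) (h.wt β hβ)

theorem exists_sn_irrT (hD : Sy D) (hn : 0 < n) (hne : (D.on ρ).Et ≠ 0)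
    (hir : ∀ W : Submodule K V, W ≤ LinearMap.range (D.on ρ).Et → W ≠ ⊥ →
      (∀ i j : Fin n, (j : ℕ) = i + 1 → ∀ w ∈ W, (D.on ρ).T i w ∈ W) → (∀ w ∈ W, (D.on ρ).X w ∈ W) →
      (∀ a, ∀ w ∈ W, (D.on ρ).E a w ∈ W) → W = LinearMap.range (D.on ρ).Et) :
    ∃ (F : AO.Et → ℤ) (v : (Fin n → AO.Et) → V), SN (D.on ρ) F v ∧
      Submodule.span K (Set.range (fun β : {β // β ∈ SFT n F} => v β)) =
        LinearMap.range (D.on ρ).Et := by
  obtain ⟨β₀, hβ₀⟩ := K10_aux_exists hD hne
  obtain ⟨F, v, h⟩ := K10_aux_sn hD (msT β₀) ⟨β₀, hβ₀, rfl⟩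
  refine ⟨F, v, h, hir _ ?_ ?_ ?_ ?_ ?_⟩
  · rw [Submodule.span_le]
    rintro _ ⟨β, rfl⟩
    exact K10_aux_mem hD h (mem_SFT.1 β.2)
  · obtain ⟨β, hβ⟩ := h.ne
    intro hbot
    have h1 : v β ∈ Submodule.span K (Set.range (fun β : {β // β ∈ SFT n F} => v β)) :=
      Submodule.subset_span ⟨⟨β, mem_SFT.2 hβ⟩, rfl⟩
    rw [hbot] at h1
    exact h.nz β hβ ((Submodule.mem_bot K).1 h1)
  · intro i j hj w hw
    exact h.spT hj hw
  · intro w hw
    exact h.spX hn hw
  · intro a w hw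
    exact h.spE a hw

theorem SN.basisT {F : AO.Et → ℤ} {v : (Fin n → AO.Et) → V} (h : SN (D.on ρ) F v)
    (hs : Submodule.span K (Set.range (fun β : {β // β ∈ SFT n F} => v β)) =
      LinearMap.range (D.on ρ).Et) :
    ∃ b : Module.Basis {β // β ∈ SFT n F} K (LinearMap.range (D.on ρ).Et), ∀ β, (b β : V) = v β := by
  have hb : ∀ β : {β // β ∈ SFT n F},
      (((Module.Basis.span h.li).map (LinearEquiv.ofEq _ _ hs)) β : V) = v β := by
    intro β
    rw [Module.Basis.map_apply, LinearEquiv.coe_ofEq_apply, Module.Basis.span_apply]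
  exact ⟨(Module.Basis.span h.li).map (LinearEquiv.ofEq _ _ hs), hb⟩

end

end AO
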