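import Pool.Agent.AO.Defs2

/-!
# MP_6c3636_al, AO, module L01: the elements [g] (helper7)

API: LieP/A01.lean, LieP/A02.lean (`dl_mul`, `av_idem`, `dl_av`, `av_dl`, `av_eq_mul`, `av_conj`, `st_dl`, `st_mul`, ...). `e = B.e k` is the average of `U`. `dl_e`: `x U x⁻¹ = U` (finite group, `TU`). `b_xg`: `e dl x e dl g e = e e dl x dl g e`. `b_mul`: `e = av (C i) * av (R i)` (`av_eq_mul`, `CU`, `RU`, `CR`, `CRd`); `s = B.s i`: `[s] [m] = e dl s av(C) av(R) dl m e`, `dl s * av C = av (s C s⁻¹) * dl s` is absorbed by `e` (`sC`), `av R * dl m = dl m * av (m⁻¹ R m)` is absorbed by `e` on the right if `m⁻¹ R m ≤ U`. `rank1`: in the same way `[s] [s] = e dl s av(R) dl s e`, `|R| av R = ∑ r, dl r`, the term `r = 1` is `[s s]`, the other terms are `e dl (s r s) e = e dl (u (s h) u') e = [s h]` (`hU`).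
-/

namespace AO

noncomputable section

open Classical Equiv

open AN (sq)

variable {k : Type} [Field k] [CharZero k] {G : Type} [Group G] [Finite G] {n : ℕ} {B : BN G n}

theorem ev_act {k : Type} [Field k] {K : Type} [Field K] [Algebra k K] {G : Type} [Group G] [Finite G]
    {V : Type} [AddCommGroup V] [Module K V] (ρ : Representation K G V) (x : MonoidAlgebra k G) :
    ev ρ x = Parker.act ρ (fun g => algebraMap k K (x.coeff g)) := by
  have key : ∀ x : LieP.Al k G, x ∈ LieP.sb k (⊤ : Subgroup G) →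
      ev ρ x = Parker.act ρ (fun g => algebraMap k K (x.coeff g)) := by
    intro x hx
    let _ := Fintype.ofFinite G
    show ev ρ x = ∑ g, (algebraMap k K (x.coeff g)) • ρ g
    refine LieP.sb_induction
      (p := fun x => ev ρ x = ∑ g, (algebraMap k K (x.coeff g)) • ρ g) ?_ ?_ ?_ hx
    · rw [map_zero]
      symm
      refine Finset.sum_eq_zero fun g _ => ?_
      show (algebraMap k K (0 : k)) • ρ g = 0
      rw [map_zero, zero_smul]
    · intro a b ha hb
      rw [map_add, ha, hb, ← Finset.sum_add_distrib]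
      refine Finset.sum_congr rfl fun g _ => ?_
      rw [LieP.coeff_add, map_add, add_smul]
    · intro r g _
      rw [ev_smul]
      unfold LieP.dl
      rw [ev_single, map_one, one_smul, Finset.sum_eq_single g]
      · rw [MonoidAlgebra.coeff_smul_apply, MonoidAlgebra.coeff_single, Finsupp.single_eq_same,
          smul_eq_mul, mul_one]
      · intro h _ hne
        rw [MonoidAlgebra.coeff_smul_apply, MonoidAlgebra.coeff_single, Finsupp.single_apply,
          if_neg (Ne.symm hne), smul_zero, map_zero, zero_smul]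
      · intro h
        exact absurd (Finset.mem_univ g) h
  exact key x (LieP.sb_top x)

theorem e_idem : B.e k * B.e k = B.e k := LieP.av_idem B.U

theorem e_st : LieP.st (B.e k) = B.e k := LieP.st_av B.U

theorem b_one : B.b k 1 = B.e k := by
  unfold BN.b
  rw [LieP.dl_one, mul_one, e_idem]

theorem b_e (g : G) : B.e k * B.b k g = B.b k g ∧ B.b k g * B.e k = B.b k g := by
  unfold BN.b
  constructor
  · rw [← mul_assoc, ← mul_assoc, e_idem]
  · rw [mul_assoc, e_idem]

theorem b_U {u : G} (hu : u ∈ B.U) (g : G) : B.b k (u * g) = B.b k g ∧ B.b k (g * u) = B.b k g := by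
  have h1 : B.e k * LieP.dl u = B.e k := LieP.av_dl hu
  have h2 : LieP.dl u * B.e k = B.e k := LieP.dl_av hu
  unfold BN.b
  constructor
  · rw [LieP.dl_mul, ← mul_assoc, h1]
  · rw [LieP.dl_mul, mul_assoc, mul_assoc, h2, ← mul_assoc]

theorem b_st (g : G) : LieP.st (B.b k g) = B.b k g⁻¹ := by
  unfold BN.b
  rw [LieP.st_mul, LieP.st_mul, e_st, LieP.st_dl, ← mul_assoc]

theorem dl_e {x : G} (hx : x ∈ B.T) : LieP.dl x * B.e k = B.e k * LieP.dl x :=
  LieP.av_comm B.TU (LieP.dl_mem.2 hx)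

theorem b_xg {x : G} (hx : x ∈ B.T) (g : G) :
    B.b k x * B.b k g = B.b k (x * g) ∧ B.b k g * B.b k x = B.b k (g * x) := by
  have h1 : B.b k x = LieP.dl x * B.e k := by
    unfold BN.b
    rw [← dl_e hx, mul_assoc, e_idem]
  have h2 : B.b k x = B.e k * LieP.dl x := by
    rw [h1, dl_e hx]
  constructor
  · rw [h1, mul_assoc, (b_e g).1]
    unfold BN.b
    rw [LieP.dl_mul, ← mul_assoc, ← mul_assoc, ← mul_assoc, dl_e hx]
  · rw [h2, ← mul_assoc, (b_e g).2]
    unfold BN.b
    rw [LieP.dl_mul, mul_assoc, ← dl_e hx]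
    simp only [mul_assoc]

namespace L01_aux

theorem e_CR (i : Fin n) : B.e k = LieP.av k (B.C i) * LieP.av k (B.R i) :=
  LieP.av_eq_mul (B.CU i) (B.RU i) (B.CR i) (fun r hc hr => B.CRd i r hr hc)

theorem e_sC (i : Fin n) : B.e k * LieP.dl (B.s i) * LieP.av k (B.C i) = B.e k * LieP.dl (B.s i) := by
  refine LieP.A02_aux.mul_av_of fun c hc => ?_
  have h1 : B.s i * c = (B.s i * c * (B.s i)⁻¹) * B.s i := by group
  rw [mul_assoc, ← LieP.dl_mul, h1, LieP.dl_mul, ← mul_assoc]
  have h2 : B.e k * LieP.dl (B.s i * c * (B.s i)⁻¹) = B.e k := LieP.av_dl (B.sC i c hc)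
  rw [h2]

theorem R_me {i : Fin n} {m : G} (h : PO B.U (B.R i) m) :
    LieP.av k (B.R i) * (LieP.dl m * B.e k) = LieP.dl m * B.e k := by
  refine LieP.A02_aux.av_mul_of fun r hr => ?_
  have h1 : r * m = m * (m⁻¹ * r * m) := by group
  rw [← mul_assoc, ← LieP.dl_mul, h1, LieP.dl_mul, mul_assoc]
  have h2 : LieP.dl (m⁻¹ * r * m) * B.e k = B.e k := LieP.dl_av (h r hr)
  rw [h2]

theorem b_bR (i : Fin n) (m : G) : B.b k (B.s i) * B.b k m =
    B.e k * LieP.dl (B.s i) * (LieP.av k (B.R i) * (LieP.dl m * B.e k)) := by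
  have h1 : B.b k (B.s i) * B.b k m = B.e k * LieP.dl (B.s i) * (B.e k * (LieP.dl m * B.e k)) := by
    unfold BN.b
    have h2 := e_idem (k := k) (B := B)
    calc B.e k * LieP.dl (B.s i) * B.e k * (B.e k * LieP.dl m * B.e k)
        = B.e k * LieP.dl (B.s i) * (B.e k * B.e k) * (LieP.dl m * B.e k) := by
          simp only [mul_assoc]
      _ = _ := by
          rw [h2, mul_assoc]
  rw [h1]
  conv_lhs =>
    enter [2, 1]
    rw [e_CR i]
  rw [mul_assoc (LieP.av k (B.C i)), ← mul_assoc (B.e k * LieP.dl (B.s i)), e_sC]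

theorem card_av (H : Subgroup G) : (Nat.card H : k) • LieP.av k H = ∑ᶠ r : H, (LieP.dl (r : G) : LieP.Al k G) := by
  have := Fintype.ofFinite H
  rw [finsum_eq_sum_of_fintype]
  refine LieP.al_ext fun g => ?_
  have h1 : (∑ r : H, (LieP.dl (r : G) : LieP.Al k G)).coeff g = ∑ r : H, (LieP.dl (r : G) : LieP.Al k G).coeff g := by
    induction (Finset.univ : Finset H) using Finset.induction_on with
    | empty => simp
    | insert y s hy ih =>
      rw [Finset.sum_insert hy, Finset.sum_insert hy, LieP.coeff_add, ih]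
  rw [h1, LieP.coeff_smul, LieP.coeff_av]
  by_cases hg : g ∈ H
  · rw [if_pos hg, mul_inv_cancel₀ (LieP.A02_aux.card_ne H), Finset.sum_eq_single (⟨g, hg⟩ : H)]
    · rw [LieP.coeff_dl, if_pos rfl]
    · intro r _ hr
      rw [LieP.coeff_dl, if_neg]
      intro h
      exact hr (Subtype.ext h.symm)
    · intro h
      exact absurd (Finset.mem_univ _) h
  · rw [if_neg hg, mul_zero]
    symm
    refine Finset.sum_eq_zero fun r _ => ?_
    rw [LieP.coeff_dl, if_neg]
    intro h
    exact hg (h ▸ r.2)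

end L01_aux

open L01_aux

theorem b_mul {i : Fin n} {m : G} (h : PO B.U (B.R i) m) :
    B.b k (B.s i) * B.b k m = B.b k (B.s i * m) := by
  rw [b_bR, R_me h]
  unfold BN.b
  rw [LieP.dl_mul]
  simp only [mul_assoc]

theorem rank1 (i : Fin n) : (Nat.card (B.R i) : k) • (B.b k (B.s i) * B.b k (B.s i)) =
    B.b k (B.s i * B.s i) + ∑ᶠ r : B.R i, if (r : G) = 1 then 0 else B.b k (B.s i * B.hh i r) := by
  have := Fintype.ofFinite (B.R i)
  have h1 : (Nat.card (B.R i) : k) • (B.b k (B.s i) * B.b k (B.s i)) =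
      ∑ r : B.R i, B.b k (B.s i * r * B.s i) := by
    rw [b_bR, ← mul_smul_comm, ← smul_mul_assoc, card_av, finsum_eq_sum_of_fintype, Finset.sum_mul,
      Finset.mul_sum]
    refine Finset.sum_congr rfl fun r _ => ?_
    unfold BN.b
    rw [LieP.dl_mul, LieP.dl_mul]
    simp only [mul_assoc]
  rw [h1, finsum_eq_sum_of_fintype, ← Finset.add_sum_erase Finset.univ _ (Finset.mem_univ (1 : B.R i)),
    ← Finset.add_sum_erase Finset.univ
      (fun r : B.R i => if (r : G) = 1 then (0 : LieP.Al k G) else B.b k (B.s i * B.hh i r))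
      (Finset.mem_univ (1 : B.R i))]
  have h2 : ((1 : B.R i) : G) = 1 := rfl
  rw [h2, if_pos rfl, mul_one, zero_add]
  congr 1
  refine Finset.sum_congr rfl fun r hr => ?_
  have h3 : (r : G) ≠ 1 := fun h => (Finset.mem_erase.1 hr).1 (Subtype.ext h)
  rw [if_neg h3]
  obtain ⟨u, hu, u', hu', h4⟩ := B.hU i r r.2 h3
  rw [h4, (b_U hu' _).2, (b_U hu _).1]

end

end AO
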