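import Pool.Agent.AO.L02

/-!
# MP_6c3636_al, AO, module L03: the quadratic relations (helper7)

Multiply `rank1` (L01) by `E0 a` on the right: `[s h] E0 a = [s] [h] E0 a = th a h • [s] E0 a` for `h ∈ T` (`b_xg`, `b_E0`, `hT`), the sum of the `th a (hh r)` is `rsum` (`sum`, `es`). `B.s l * B.s l = 1` for `l > 0` (`s2o`), `ez` for the end node.
-/

namespace AO

noncomputable section

open Classical Equiv

open AN (sq)

variable {k : Type} [Field k] [CharZero k] {G : Type} [Group G] [Finite G] {n : ℕ} {B : BN G n}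

/-- the relation of rank one with the idempotent -/
private theorem L03_key (l : Fin n) (a : Fin n → Bool) :
    (Nat.card (B.R l) : k) • (B.b k (B.s l) * B.b k (B.s l) * B.E0 k a) =
      B.b k (B.s l * B.s l) * B.E0 k a +
        ((rsum (B.R l) (B.hh l) (B.th a) : ℤ) : k) • (B.b k (B.s l) * B.E0 k a) := by
  have := Fintype.ofFinite (B.R l)
  rw [← smul_mul_assoc, rank1 (k := k) (B := B) l, add_mul, finsum_eq_sum_of_fintype, Finset.sum_mul]
  congr 1
  unfold rsum
  rw [finsum_eq_sum_of_fintype, Int.cast_sum, Finset.sum_smul]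
  apply Finset.sum_congr rfl
  intro r _
  by_cases hr : (r : G) = 1
  · rw [if_pos hr, if_pos hr, zero_mul, Int.cast_zero, zero_smul]
  · have hx := B.hT l r r.2 hr
    rw [if_neg hr, if_neg hr, ← (b_xg hx (B.s l)).2, mul_assoc, (b_E0 hx a).1, mul_smul_comm]

private theorem L03_card (l : Fin n) : (Nat.card (B.R l) : k) ≠ 0 := by
  have h : Nat.card (B.R l) ≠ 0 := Nat.card_pos.ne'
  exact_mod_cast h

theorem Tq0 {i l : Fin n} (hl : (l : ℕ) = i + 1) (a : Fin n → Bool) :
    B.b k (B.s l) * B.b k (B.s l) * B.E0 k a = (Nat.card (B.R l) : k)⁻¹ • B.E0 k a +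
      (if a i = a l then ((((B.sn (a i) : ℤˣ) : ℤ) : k) * (1 - (Nat.card (B.R l) : k)⁻¹)) •
        (B.b k (B.s l) * B.E0 k a) else 0) := by
  have hc := L03_card (k := k) (B := B) l
  have h := L03_key (k := k) (B := B) l a
  rw [B.s2o l (by omega), b_one, (e_E0 a).1, B.sum i l hl a] at h
  have h2 := congrArg (fun x => (Nat.card (B.R l) : k)⁻¹ • x) h
  simp only [smul_add, smul_smul, inv_mul_cancel₀ hc, one_smul] at h2
  rw [h2]
  congr 1
  by_cases ha : a i = a l
  · rw [if_pos ha, if_pos ha]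
    congr 1
    push_cast
    field_simp
  · rw [if_neg ha, if_neg ha, Int.cast_zero, mul_zero, zero_smul]

theorem Xq0 {i : Fin n} (hi : (i : ℕ) = 0) (a : Fin n → Bool) :
    B.b k (B.s i) * B.b k (B.s i) * B.E0 k a =
      ((Nat.card (B.R i) : k)⁻¹ * (((B.ze (a i) : ℤˣ) : ℤ) : k)) • B.E0 k a +
        ((Nat.card (B.R i) : k)⁻¹ * ((B.su (a i) : ℤ) : k)) • (B.b k (B.s i) * B.E0 k a) := by
  have hc := L03_card (k := k) (B := B) i
  have h := L03_key (k := k) (B := B) i a
  rw [(b_E0 (B.s2 i) a).1, B.ez i hi a, B.es i hi a] at h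
  have h2 := congrArg (fun x => (Nat.card (B.R i) : k)⁻¹ • x) h
  simp only [smul_add, smul_smul, inv_mul_cancel₀ hc, one_smul] at h2
  exact h2

end

end AO
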