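import Pool.Agent.AO.L01

/-!
# MP_6c3636_al, AO, module L04: the braid relations (helper7)

`brb`: with `adj`, `b_mul`: `[s l] [s k] = [s l s k]` (`PO (R l) (s k)`), `[s k] [s l s k] = [s k s l s k]` (`PO (R k) (s l s k)`), and the same with `k`, `l` exchanged. `cmb`: `far`. `b2b`: the case `s k = 1`: `[1] = e`; otherwise four factors in the same way.
-/

namespace AO

noncomputable section

open Classical Equiv

open AN (sq)

variable {k : Type} [Field k] [CharZero k] {G : Type} [Group G] [Finite G] {n : ℕ} {B : BN G n}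

theorem brb {i l : Fin n} (hl : (l : ℕ) = i + 1) (hi : 0 < (i : ℕ)) :
    B.b k (B.s i) * B.b k (B.s l) * B.b k (B.s i) = B.b k (B.s l) * B.b k (B.s i) * B.b k (B.s l) := by
  obtain ⟨h0, h1, h2, h3, h4⟩ := B.adj i l hl hi
  rw [mul_assoc (B.b k (B.s i)), mul_assoc (B.b k (B.s l)), b_mul h2, b_mul h3, b_mul h1, b_mul h4,
    ← mul_assoc, ← mul_assoc, h0]

theorem cmb {i j : Fin n} (h : (i : ℕ) + 2 ≤ j) :
    B.b k (B.s i) * B.b k (B.s j) = B.b k (B.s j) * B.b k (B.s i) := by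
  obtain ⟨h0, h1, h2⟩ := B.far i j h
  rw [b_mul h1, b_mul h2, h0]

theorem b2b {i l : Fin n} (hi : (i : ℕ) = 0) (hl : (l : ℕ) = 1) :
    B.b k (B.s i) * B.b k (B.s l) * B.b k (B.s i) * B.b k (B.s l) =
      B.b k (B.s l) * B.b k (B.s i) * B.b k (B.s l) * B.b k (B.s i) := by
  rcases B.b2 i l hi hl with ⟨h, -⟩ | ⟨h0, h1, h2, h3, h4, h5, h6⟩
  · rw [h, b_one, (b_e (k := k) (B := B) (B.s l)).1, (b_e (k := k) (B := B) (B.s l)).2, mul_assoc,
      (b_e (k := k) (B := B) (B.s l)).2]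
  · have e1 : B.b k (B.s i) * B.b k (B.s l) * B.b k (B.s i) * B.b k (B.s l) =
        B.b k (B.s i) * (B.b k (B.s l) * (B.b k (B.s i) * B.b k (B.s l))) := by
      simp only [mul_assoc]
    have e2 : B.b k (B.s l) * B.b k (B.s i) * B.b k (B.s l) * B.b k (B.s i) =
        B.b k (B.s l) * (B.b k (B.s i) * (B.b k (B.s l) * B.b k (B.s i))) := by
      simp only [mul_assoc]
    have h5' : PO B.U (B.R i) (B.s l * (B.s i * B.s l)) := by
      rw [← mul_assoc]
      exact h5
    have h6' : PO B.U (B.R l) (B.s i * (B.s l * B.s i)) := by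
      rw [← mul_assoc]
      exact h6
    rw [e1, e2, b_mul h1, b_mul h4, b_mul h5', b_mul h2, b_mul h3, b_mul h6']
    congr 1
    rw [← mul_assoc, ← mul_assoc, ← mul_assoc, ← mul_assoc, h0]

end

end AO
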