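import Pool.Agent.AO.L03
import Pool.Agent.AO.L04

/-!
# MP_6c3636_al, AO, module L05: the Hecke algebra of the group (helper7)

Define `D` by `E a = Eg a`, `X = Xg`, `T i = Tg i l` for `l = i + 1` and `T i = 0` if `i + 1 = n`. `good` is invariant under permutations of the labels. `T i * Eg a = sgl a • [s l] * Eg a` (`E0_mul`). `EE`: `E0_mul`. `TE`: `sl_E0`, `sgl` is symmetric: `sgl i l (sq a i l) = sgl i l a`. `T1`, `X1`: `Eg a` are orthogonal idempotents. `Tq`: `T T Eg a = sgl a ^ 2 • [s l] [s l] Eg a = [s l] [s l] Eg a` (the labels after the first step are `sq a i l`), `Tq0`, `Fit.card`: `P.Q = |R l|`; if `a i = a l` then `sn (a i) = sgl a` (`sn0`), so `sn (a i) • [s l] Eg a = T Eg a`. `br`: apply both sides to `Eg a`: both are `c • [..] Eg a` with the same sign `c`: the product of the signs for the three pairs of the labels at `j`, `k`, `l`; `brb` for the indices `k = j + 1`, `l = k + 1` (the elements `s k`, `s l`, `0 < k`). Note `T j` belongs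 to `s k`, `T k` to `s l`. `cm`: `cmb`. `XE`: `s0_E0`. `Xq`: `Xq0`, `Fit.sum`, `Fit.prod` (with `b = a 0`; if `gd = false` then a good `a` is `false`; `ze = 1`), `|R 0| ≠ 0`. `XT`: `cmb` (`s 0` and `s l`, `l ≥ 2`). `Xb`: `b2b`, the signs on both sides are the product of the signs for the pair of labels at `0`, `1`, twice.
-/

namespace AO

noncomputable section

open Classical Equiv

open AN (sq)

variable {k : Type} [Field k] [CharZero k] {G : Type} [Group G] [Finite G] {n : ℕ} {B : BN G n}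

namespace L05_aux

theorem sqb_k (a : Fin n → Bool) (i l : Fin n) : sq a i l i = a l := by
  show a (swap i l i) = a l
  rw [swap_apply_left]

theorem sqb_l (a : Fin n → Bool) (i l : Fin n) : sq a i l l = a i := by
  show a (swap i l l) = a i
  rw [swap_apply_right]

theorem sqb_other (a : Fin n → Bool) {i l j : Fin n} (hi : j ≠ i) (hl : j ≠ l) : sq a i l j = a j := by
  show a (swap i l j) = a j
  rw [swap_apply_of_ne_of_ne hi hl]

theorem sqb_sq (a : Fin n → Bool) (i l : Fin n) : sq (sq a i l) i l = a := by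
  funext x
  show a (swap i l (swap i l x)) = a x
  rw [swap_apply_self]

omit [Finite G] in
theorem good_sq (a : Fin n → Bool) (i l : Fin n) : B.good (sq a i l) ↔ B.good a := by
  unfold BN.good
  constructor
  · rintro (h | h)
    · exact Or.inl h
    · refine Or.inr fun x => ?_
      have := h (swap i l x)
      rw [← this]
      show a x = a (swap i l (swap i l x))
      rw [swap_apply_self]
  · rintro (h | h)
    · exact Or.inl h
    · exact Or.inr fun x => h _

theorem Eg_mul (a a' : Fin n → Bool) : B.Eg k a * B.Eg k a' = if a = a' then B.Eg k a else 0 := by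
  unfold BN.Eg
  by_cases h : B.good a
  · by_cases h' : B.good a'
    · rw [if_pos h, if_pos h', E0_mul]
    · rw [if_pos h, if_neg h', mul_zero, if_neg]
      rintro rfl
      exact h' h
  · rw [if_neg h, zero_mul, ite_self]

theorem s_Eg {i l : Fin n} (hl : (l : ℕ) = i + 1) (a : Fin n → Bool) :
    B.b k (B.s l) * B.Eg k a = B.Eg k (sq a i l) * B.b k (B.s l) := by
  unfold BN.Eg
  by_cases h : B.good a
  · rw [if_pos h, if_pos ((good_sq a i l).2 h), sl_E0 hl]
  · rw [if_neg h, if_neg (fun h' => h ((good_sq a i l).1 h')), mul_zero, zero_mul]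

theorem s0_Eg {i : Fin n} (hi : (i : ℕ) = 0) (a : Fin n → Bool) :
    B.b k (B.s i) * B.Eg k a = B.Eg k a * B.b k (B.s i) := by
  unfold BN.Eg
  by_cases h : B.good a
  · rw [if_pos h, s0_E0 hi]
  · rw [if_neg h, mul_zero, zero_mul]

theorem Eg_sum (a : Fin n → Bool) : B.Eg k a * ∑ b, B.Eg k b = B.Eg k a := by
  rw [Finset.mul_sum, Finset.sum_eq_single a]
  · rw [Eg_mul, if_pos rfl]
  · intro b _ hb
    rw [Eg_mul, if_neg (Ne.symm hb)]
  · intro h
    exact absurd (Finset.mem_univ a) h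

theorem ext_Eg {x y : LieP.Al k G} (hx : x * ∑ b, B.Eg k b = x) (hy : y * ∑ b, B.Eg k b = y)
    (h : ∀ a, x * B.Eg k a = y * B.Eg k a) : x = y := by
  rw [← hx, ← hy, Finset.mul_sum, Finset.mul_sum]
  exact Finset.sum_congr rfl fun a _ => h a

theorem Tg_E {i l : Fin n} (a : Fin n → Bool) :
    B.Tg k i l * B.Eg k a = B.sgl k i l a • (B.b k (B.s l) * B.Eg k a) := by
  unfold BN.Tg
  rw [Finset.sum_mul, Finset.sum_eq_single a]
  · rw [smul_mul_assoc, mul_assoc, Eg_mul, if_pos rfl]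
  · intro b _ hb
    rw [smul_mul_assoc, mul_assoc, Eg_mul, if_neg hb, mul_zero, smul_zero]
  · intro h
    exact absurd (Finset.mem_univ a) h

theorem Tg_1 {i l : Fin n} : B.Tg k i l * ∑ b, B.Eg k b = B.Tg k i l := by
  unfold BN.Tg
  rw [Finset.sum_mul]
  apply Finset.sum_congr rfl
  intro a _
  rw [smul_mul_assoc, mul_assoc, Eg_sum]

omit [Finite G] in
theorem sgl_sq (i l : Fin n) (a : Fin n → Bool) : B.sgl k i l (sq a i l) = B.sgl k i l a := by
  unfold BN.sgl
  rw [sqb_k, sqb_l]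
  simp only [and_comm]

theorem E_Tg {i l : Fin n} (hl : (l : ℕ) = i + 1) (a : Fin n → Bool) :
    B.Eg k (sq a i l) * B.Tg k i l = B.sgl k i l a • (B.b k (B.s l) * B.Eg k a) := by
  unfold BN.Tg
  rw [Finset.mul_sum, Finset.sum_eq_single a]
  · rw [mul_smul_comm, ← mul_assoc, ← s_Eg hl, mul_assoc, Eg_mul, if_pos rfl]
  · intro b _ hb
    rw [mul_smul_comm, ← mul_assoc, ← s_Eg hl, mul_assoc, Eg_mul, if_neg (Ne.symm hb), mul_zero, smul_zero]
  · intro h
    exact absurd (Finset.mem_univ a) h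

theorem Xg_eq {i : Fin n} (hi : (i : ℕ) = 0) : B.Xg k = ∑ a, B.b k (B.s i) * B.Eg k a := by
  unfold BN.Xg
  apply Finset.sum_congr rfl
  intro a _
  rw [Finset.sum_eq_single i]
  · rw [if_pos hi]
  · intro j _ hj
    rw [if_neg]
    intro h
    exact hj (Fin.ext (by omega))
  · intro h
    exact absurd (Finset.mem_univ i) h

theorem Xg_E {i : Fin n} (hi : (i : ℕ) = 0) (a : Fin n → Bool) :
    B.Xg k * B.Eg k a = B.b k (B.s i) * B.Eg k a := by
  rw [Xg_eq hi, Finset.sum_mul, Finset.sum_eq_single a]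
  · rw [mul_assoc, Eg_mul, if_pos rfl]
  · intro b _ hb
    rw [mul_assoc, Eg_mul, if_neg hb, mul_zero]
  · intro h
    exact absurd (Finset.mem_univ a) h

theorem E_Xg {i : Fin n} (hi : (i : ℕ) = 0) (a : Fin n → Bool) :
    B.Eg k a * B.Xg k = B.b k (B.s i) * B.Eg k a := by
  rw [Xg_eq hi, Finset.mul_sum, Finset.sum_eq_single a]
  · rw [← mul_assoc, ← s0_Eg hi, mul_assoc, Eg_mul, if_pos rfl]
  · intro b _ hb
    rw [← mul_assoc, ← s0_Eg hi, mul_assoc, Eg_mul, if_neg (Ne.symm hb), mul_zero]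
  · intro h
    exact absurd (Finset.mem_univ a) h

theorem Xg_1 : B.Xg k * ∑ b, B.Eg k b = B.Xg k := by
  unfold BN.Xg
  rw [Finset.sum_mul]
  apply Finset.sum_congr rfl
  intro a _
  rw [Finset.sum_mul]
  apply Finset.sum_congr rfl
  intro i _
  split_ifs
  · rw [mul_assoc, Eg_sum]
  · rw [zero_mul]

omit [CharZero k] in
theorem Xg_0 (h : n = 0) : B.Xg k = 0 := by
  subst h
  unfold BN.Xg
  apply Finset.sum_eq_zero
  intro a _
  rfl

/-- `W` moves the label -/
def Mv (B : BN G n) (W : LieP.Al k G) (a a' : Fin n → Bool) : Prop := W * B.Eg k a = B.Eg k a' * W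

theorem Mv_s {i l : Fin n} (hl : (l : ℕ) = i + 1) {W : LieP.Al k G} {a a' : Fin n → Bool} (h : Mv B W a a') :
    Mv B (B.b k (B.s l) * W) a (sq a' i l) := by
  unfold Mv at h ⊢
  rw [mul_assoc, h, ← mul_assoc, s_Eg hl, mul_assoc]

theorem Mv_0 {i : Fin n} (hi : (i : ℕ) = 0) {W : LieP.Al k G} {a a' : Fin n → Bool} (h : Mv B W a a') :
    Mv B (B.b k (B.s i) * W) a a' := by
  unfold Mv at h ⊢
  rw [mul_assoc, h, ← mul_assoc, s0_Eg hi, mul_assoc]

theorem Mv_s1 {i l : Fin n} (hl : (l : ℕ) = i + 1) (a : Fin n → Bool) :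
    Mv B (B.b k (B.s l)) a (sq a i l) := s_Eg hl a

theorem Mv_01 {i : Fin n} (hi : (i : ℕ) = 0) (a : Fin n → Bool) :
    Mv B (B.b k (B.s i)) a a := s0_Eg hi a

theorem Tg_W {i l : Fin n} {W : LieP.Al k G} {a a' : Fin n → Bool} (h : Mv B W a a') :
    B.Tg k i l * (W * B.Eg k a) = B.sgl k i l a' • (B.b k (B.s l) * W * B.Eg k a) := by
  unfold Mv at h
  rw [mul_assoc, h, ← mul_assoc, Tg_E, smul_mul_assoc, mul_assoc]

theorem Xg_W {i : Fin n} (hi : (i : ℕ) = 0) {W : LieP.Al k G} {a a' : Fin n → Bool} (h : Mv B W a a') :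
    B.Xg k * (W * B.Eg k a) = B.b k (B.s i) * W * B.Eg k a := by
  unfold Mv at h
  rw [mul_assoc, h, ← mul_assoc, Xg_E hi, mul_assoc]

omit [CharZero k] [Finite G] in
theorem sgl_2 (i l : Fin n) (a : Fin n → Bool) : B.sgl k i l a * B.sgl k i l a = 1 := by
  unfold BN.sgl
  split_ifs
  · rcases Int.units_eq_one_or (B.sn true) with h | h
    · rw [h]; simp
    · rw [h]; simp
  · rw [mul_one]

theorem Tq1 {P : Par k} (hP : Fit B P) {i l : Fin n} (hl : (l : ℕ) = i + 1) (a : Fin n → Bool) :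
    B.Tg k i l * B.Tg k i l * B.Eg k a = P.Q⁻¹ • B.Eg k a +
      (if a i = a l then (1 - P.Q⁻¹) • (B.Tg k i l * B.Eg k a) else 0) := by
  have hQ : P.Q = (Nat.card (B.R l) : k) := by
    rw [hP.card l (by omega)]
    unfold Par.Q
    push_cast
    rfl
  rw [mul_assoc, Tg_E, mul_smul_comm, Tg_W (Mv_s1 hl a), smul_smul, sgl_sq, sgl_2, one_smul, hQ]
  by_cases hg : B.good a
  · have e : B.Eg k a = B.E0 k a := by
      unfold BN.Eg
      rw [if_pos hg]
    rw [e, Tq0 hl]
    congr 1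
    by_cases h : a i = a l
    · rw [if_pos h, if_pos h, smul_smul, mul_comm]
      congr 2
      unfold BN.sgl
      rw [← h]
      by_cases h2 : a i = true
      · rw [if_pos ⟨h2, h2⟩, h2]
      · have h3 : a i = false := by simpa using h2
        rw [if_neg (fun hh => h2 hh.1), h3, B.sn0]
        simp
    · rw [if_neg h, if_neg h]
  · have e : B.Eg k a = 0 := by
      unfold BN.Eg
      rw [if_neg hg]
    rw [e]
    simp

theorem Xq1 {P : Par k} (hP : Fit B P) {i : Fin n} (hi : (i : ℕ) = 0) (a : Fin n → Bool) :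
    B.Xg k * B.Xg k * B.Eg k a = (P.r (yp (a i)) + P.r (yn (a i))) • (B.Xg k * B.Eg k a) -
      (P.r (yp (a i)) * P.r (yn (a i))) • B.Eg k a := by
  rw [mul_assoc, Xg_E hi, Xg_W hi (Mv_01 hi a), mul_assoc]
  by_cases hg : B.good a
  · have e : B.Eg k a = B.E0 k a := by
      unfold BN.Eg
      rw [if_pos hg]
    have hb : a i = false ∨ B.gd = true := by
      rcases hg with h | h
      · exact Or.inr h
      · exact Or.inl (h i)
    have hz : B.ze (a i) = 1 := by
      rcases hb with h | h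
      · rw [h, B.ze0]
      · by_cases h2 : a i = true
        · rw [h2, B.ze1 h]
        · have h3 : a i = false := by simpa using h2
          rw [h3, B.ze0]
    have hR : (Nat.card (B.R i) : k) ≠ 0 := Nat.cast_ne_zero.2 Nat.card_pos.ne'
    have h1 := hP.sum (a i) hb i hi
    have h2 := hP.prod (a i) hb i hi
    have e1 : P.r (yp (a i)) + P.r (yn (a i)) = (Nat.card (B.R i) : k)⁻¹ * (B.su (a i) : k) := by
      rw [← h1, inv_mul_cancel_left₀ hR]
    have e2 : P.r (yp (a i)) * P.r (yn (a i)) = -(Nat.card (B.R i) : k)⁻¹ := by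
      have h3 : (Nat.card (B.R i) : k)⁻¹ * ((Nat.card (B.R i) : k) * (P.r (yp (a i)) * P.r (yn (a i)))) =
          (Nat.card (B.R i) : k)⁻¹ * (-1) := by rw [h2]
      rw [inv_mul_cancel_left₀ hR] at h3
      rw [h3]
      ring
    rw [e, ← mul_assoc, Xq0 hi, hz, e1, e2]
    simp only [Units.val_one, Int.cast_one, mul_one, neg_smul, sub_neg_eq_add]
    rw [add_comm]
  · have e : B.Eg k a = 0 := by
      unfold BN.Eg
      rw [if_neg hg]
    rw [e]
    simp

theorem br1 {j i l : Fin n} (hi : (i : ℕ) = j + 1) (hl : (l : ℕ) = i + 1) :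
    B.Tg k j i * B.Tg k i l * B.Tg k j i = B.Tg k i l * B.Tg k j i * B.Tg k i l := by
  have hji : j ≠ i := by
    intro h
    rw [h] at hi
    omega
  have hil : i ≠ l := by
    intro h
    rw [h] at hl
    omega
  have hjl : j ≠ l := by
    intro h
    rw [h] at hi
    omega
  apply ext_Eg
  · rw [mul_assoc, Tg_1]
  · rw [mul_assoc, Tg_1]
  · intro a
    have m1 : Mv B (B.b k (B.s i)) a (sq a j i) := Mv_s1 hi a
    have m2 : Mv B (B.b k (B.s l) * B.b k (B.s i)) a (sq (sq a j i) i l) := Mv_s hl m1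
    have m3 : Mv B (B.b k (B.s l)) a (sq a i l) := Mv_s1 hl a
    have m4 : Mv B (B.b k (B.s i) * B.b k (B.s l)) a (sq (sq a i l) j i) := Mv_s hi m3
    have L : B.Tg k j i * B.Tg k i l * B.Tg k j i * B.Eg k a = B.sgl k j i a • B.sgl k i l (sq a j i) •
        B.sgl k j i (sq (sq a j i) i l) • (B.b k (B.s i) * (B.b k (B.s l) * B.b k (B.s i)) * B.Eg k a) := by
      rw [mul_assoc, mul_assoc, Tg_E, mul_smul_comm, Tg_W m1, mul_smul_comm, mul_smul_comm, Tg_W m2]
    have R : B.Tg k i l * B.Tg k j i * B.Tg k i l * B.Eg k a = B.sgl k i l a • B.sgl k j i (sq a i l) •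
        B.sgl k i l (sq (sq a i l) j i) • (B.b k (B.s l) * (B.b k (B.s i) * B.b k (B.s l)) * B.Eg k a) := by
      rw [mul_assoc, mul_assoc, Tg_E, mul_smul_comm, Tg_W m3, mul_smul_comm, mul_smul_comm, Tg_W m4]
    rw [L, R]
    have hb := brb (k := k) (B := B) hl (by omega : 0 < (i : ℕ))
    have e1 : B.b k (B.s i) * (B.b k (B.s l) * B.b k (B.s i)) * B.Eg k a =
        B.b k (B.s l) * (B.b k (B.s i) * B.b k (B.s l)) * B.Eg k a := by
      rw [← mul_assoc (B.b k (B.s i)), hb, ← mul_assoc (B.b k (B.s l))]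
    rw [e1, smul_smul, smul_smul, smul_smul, smul_smul]
    congr 1
    have c1 : B.sgl k i l (sq a j i) = B.sgl k j l a := by
      unfold BN.sgl
      rw [sqb_l, sqb_other a hjl.symm hil.symm]
    have c2 : B.sgl k j i (sq (sq a j i) i l) = B.sgl k i l a := by
      unfold BN.sgl
      rw [sqb_other _ hji hjl, sqb_k, sqb_k, sqb_other a hjl.symm hil.symm]
    have c3 : B.sgl k j i (sq a i l) = B.sgl k j l a := by
      unfold BN.sgl
      rw [sqb_other a hji hjl, sqb_k]
    have c4 : B.sgl k i l (sq (sq a i l) j i) = B.sgl k j i a := by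
      unfold BN.sgl
      rw [sqb_l, sqb_other _ hjl.symm hil.symm, sqb_other a hji hjl, sqb_l]
    rw [c1, c2, c3, c4]
    ring

theorem cm1 {i j h l : Fin n} (hj : (j : ℕ) = i + 1) (hl : (l : ℕ) = h + 1) (hjh : j < h) :
    B.Tg k i j * B.Tg k h l = B.Tg k h l * B.Tg k i j := by
  rw [Fin.lt_def] at hjh
  have n1 : i ≠ h := fun e => by rw [e] at hj; omega
  have n2 : i ≠ l := fun e => by rw [e] at hj; omega
  have n3 : j ≠ h := fun e => by rw [e] at hjh; omega
  have n4 : j ≠ l := fun e => by rw [e] at hjh; omega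
  apply ext_Eg
  · rw [mul_assoc, Tg_1]
  · rw [mul_assoc, Tg_1]
  · intro a
    have L : B.Tg k i j * B.Tg k h l * B.Eg k a = B.sgl k h l a • B.sgl k i j (sq a h l) •
        (B.b k (B.s j) * B.b k (B.s l) * B.Eg k a) := by
      rw [mul_assoc, Tg_E, mul_smul_comm, Tg_W (Mv_s1 hl a)]
    have R : B.Tg k h l * B.Tg k i j * B.Eg k a = B.sgl k i j a • B.sgl k h l (sq a i j) •
        (B.b k (B.s l) * B.b k (B.s j) * B.Eg k a) := by
      rw [mul_assoc, Tg_E, mul_smul_comm, Tg_W (Mv_s1 hj a)]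
    rw [L, R]
    have c := cmb (k := k) (B := B) (i := j) (j := l) (by omega)
    rw [c, smul_smul, smul_smul]
    congr 1
    have c1 : B.sgl k i j (sq a h l) = B.sgl k i j a := by
      unfold BN.sgl
      rw [sqb_other a n1 n2, sqb_other a n3 n4]
    have c2 : B.sgl k h l (sq a i j) = B.sgl k h l a := by
      unfold BN.sgl
      rw [sqb_other a n1.symm n3.symm, sqb_other a n2.symm n4.symm]
    rw [c1, c2]
    ring

theorem XT1 {h l : Fin n} (hl : (l : ℕ) = h + 1) (h0 : 0 < (h : ℕ)) :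
    B.Xg k * B.Tg k h l = B.Tg k h l * B.Xg k := by
  have hn : 0 < n := lt_of_le_of_lt (Nat.zero_le _) h.2
  set z : Fin n := ⟨0, hn⟩ with hz
  have hz0 : (z : ℕ) = 0 := rfl
  apply ext_Eg
  · rw [mul_assoc, Tg_1]
  · rw [mul_assoc, Xg_1]
  · intro a
    have L : B.Xg k * B.Tg k h l * B.Eg k a = B.sgl k h l a •
        (B.b k (B.s z) * B.b k (B.s l) * B.Eg k a) := by
      rw [mul_assoc, Tg_E, mul_smul_comm, Xg_W hz0 (Mv_s1 hl a)]
    have R : B.Tg k h l * B.Xg k * B.Eg k a = B.sgl k h l a •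
        (B.b k (B.s l) * B.b k (B.s z) * B.Eg k a) := by
      rw [mul_assoc, Xg_E hz0, Tg_W (Mv_01 hz0 a)]
    rw [L, R]
    have c := cmb (k := k) (B := B) (i := z) (j := l) (by omega)
    rw [c]

theorem Xb1 {h l : Fin n} (hl : (l : ℕ) = h + 1) (h0 : (h : ℕ) = 0) :
    B.Xg k * B.Tg k h l * B.Xg k * B.Tg k h l = B.Tg k h l * B.Xg k * B.Tg k h l * B.Xg k := by
  apply ext_Eg
  · rw [mul_assoc, Tg_1]
  · rw [mul_assoc, Xg_1]
  · intro a
    have m1 : Mv B (B.b k (B.s l)) a (sq a h l) := Mv_s1 hl a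
    have m2 := Mv_0 h0 m1
    have m3 := Mv_s hl m2
    have p1 : Mv B (B.b k (B.s h)) a a := Mv_01 h0 a
    have p2 := Mv_s hl p1
    have p3 := Mv_0 h0 p2
    have L : B.Xg k * B.Tg k h l * B.Xg k * B.Tg k h l * B.Eg k a = B.sgl k h l a • B.sgl k h l (sq a h l) •
        (B.b k (B.s h) * (B.b k (B.s l) * (B.b k (B.s h) * B.b k (B.s l))) * B.Eg k a) := by
      rw [mul_assoc, mul_assoc, mul_assoc, Tg_E, mul_smul_comm, mul_smul_comm, mul_smul_comm, Xg_W h0 m1,
        Tg_W m2, mul_smul_comm, Xg_W h0 m3]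
    have R : B.Tg k h l * B.Xg k * B.Tg k h l * B.Xg k * B.Eg k a = B.sgl k h l a • B.sgl k h l (sq a h l) •
        (B.b k (B.s l) * (B.b k (B.s h) * (B.b k (B.s l) * B.b k (B.s h))) * B.Eg k a) := by
      rw [mul_assoc, mul_assoc, mul_assoc, Xg_E h0, Tg_W p1, mul_smul_comm, mul_smul_comm, Xg_W h0 p2, Tg_W p3]
    rw [L, R]
    have c := b2b (k := k) (B := B) h0 (by omega : (l : ℕ) = 1)
    have e1 : B.b k (B.s h) * (B.b k (B.s l) * (B.b k (B.s h) * B.b k (B.s l))) * B.Eg k a =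
        B.b k (B.s l) * (B.b k (B.s h) * (B.b k (B.s l) * B.b k (B.s h))) * B.Eg k a := by
      congr 1
      simp only [mul_assoc] at c
      exact c
    rw [e1]

end L05_aux

open L05_aux

theorem exists_D {P : Par k} (hP : Fit B P) : ∃ D : HA P n (MonoidAlgebra k G), Dg B P D := by
  set T : Fin n → LieP.Al k G := fun i => if h : (i : ℕ) + 1 < n then B.Tg k i ⟨i + 1, h⟩ else 0 with hT
  have hTl : ∀ i l : Fin n, (l : ℕ) = i + 1 → T i = B.Tg k i l := by
    intro i l hl
    have h : (i : ℕ) + 1 < n := hl ▸ l.2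
    rw [hT]
    simp only [dif_pos h]
    congr 1
    exact Fin.ext hl.symm
  refine ⟨⟨B.Eg k, T, B.Xg k, Eg_mul, ?_, ?_, ?_, ?_, ?_, ?_, ?_, ?_, ?_, ?_⟩, ?_⟩
  · intro i l hl a
    rw [hTl i l hl, Tg_E, E_Tg hl]
  · intro i l hl
    rw [hTl i l hl, Tg_1]
  · intro i l hl a
    rw [hTl i l hl]
    exact Tq1 hP hl a
  · intro j i l hi hl
    rw [hTl j i hi, hTl i l hl]
    exact br1 hi hl
  · intro i j h l hj hl hjh
    rw [hTl i j hj, hTl h l hl]
    exact cm1 hj hl hjh
  · intro a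
    rcases Nat.eq_zero_or_pos n with hn | hn
    · rw [Xg_0 hn, zero_mul, mul_zero]
    · rw [Xg_E (i := ⟨0, hn⟩) rfl, E_Xg (i := ⟨0, hn⟩) rfl]
  · exact Xg_1
  · intro i hi a
    exact Xq1 hP hi a
  · intro h l hl h0
    rw [hTl h l hl]
    exact XT1 hl h0
  · intro h l hl h0
    rw [hTl h l hl]
    exact Xb1 hl h0
  · refine ⟨fun a => rfl, fun i j hj => hTl i j hj, fun i hi => ?_, rfl⟩
    show T i = 0
    rw [hT]
    simp only [dif_neg (by omega : ¬ (i : ℕ) + 1 < n)]

end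

end AO
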