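import Pool.Agent.AO.L05

/-!
# MP_6c3636_al, AO, module L06: the elements are symmetric (helper7)

`x.coeff g⁻¹ = x.coeff g` for all `g` iff `LieP.st x = x` (`coeff_st`). `st (Eg a) = Eg a`. `st ([s l] Eg a) = Eg a [s l⁻¹] = Eg a [s l] = [s l] Eg (sq a i l)` for `l > 0` (`s2o`, `sl_E0`), reindex the sum over `a`. For `s = s 0`: `s⁻¹ = s (s s)⁻¹`, `[s⁻¹] Eg a = [s] [(s s)⁻¹] Eg a = th a (s s) • [s] Eg a = [s] Eg a` for a good `a` (`ez`, `ze0`, `ze1`).
-/

namespace AO

noncomputable section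

open Classical Equiv

open AN (sq)

variable {k : Type} [Field k] [CharZero k] {G : Type} [Group G] [Finite G] {n : ℕ} {B : BN G n}

namespace L06_aux

theorem st_zero : LieP.st (0 : LieP.Al k G) = 0 := by
  have h := LieP.st_smul (0 : k) (0 : LieP.Al k G)
  rwa [zero_smul, zero_smul] at h

theorem st_sum {ι : Type} (s : Finset ι) (f : ι → LieP.Al k G) :
    LieP.st (∑ i ∈ s, f i) = ∑ i ∈ s, LieP.st (f i) := by
  induction s using Finset.induction_on with
  | empty => rw [Finset.sum_empty, Finset.sum_empty, st_zero]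
  | insert a s ha ih => rw [Finset.sum_insert ha, Finset.sum_insert ha, LieP.st_add, ih]

theorem sq_sq (a : Fin n → Bool) (i l : Fin n) : sq (sq a i l) i l = a := by
  funext j
  show a (swap i l (swap i l j)) = a j
  rw [swap_apply_self]

theorem good_sq (a : Fin n → Bool) (i l : Fin n) : B.good (sq a i l) ↔ B.good a := by
  constructor
  · rintro (h | h)
    · exact Or.inl h
    · refine Or.inr fun j => ?_
      have := h (swap i l j)
      rw [← sq_sq a i l]
      exact this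
  · rintro (h | h)
    · exact Or.inl h
    · exact Or.inr fun j => h _

theorem st_Eg (a : Fin n → Bool) : LieP.st (B.Eg k a) = B.Eg k a := by
  unfold BN.Eg
  split_ifs
  · exact st_E0 a
  · exact st_zero

theorem Eg_sl {i l : Fin n} (hl : (l : ℕ) = i + 1) (a : Fin n → Bool) :
    B.Eg k a * B.b k (B.s l) = B.b k (B.s l) * B.Eg k (sq a i l) := by
  unfold BN.Eg
  rw [good_sq]
  split_ifs
  · rw [sl_E0 hl, sq_sq]
  · rw [zero_mul, mul_zero]

theorem sgl_sq (i l : Fin n) (a : Fin n → Bool) : B.sgl k i l (sq a i l) = B.sgl k i l a := by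
  have h1 : sq a i l i = a l := by
    show a (swap i l i) = a l
    rw [swap_apply_left]
  have h2 : sq a i l l = a i := by
    show a (swap i l l) = a i
    rw [swap_apply_right]
  unfold BN.sgl
  rw [h1, h2]
  by_cases ha : a i = true ∧ a l = true
  · rw [if_pos ha, if_pos ⟨ha.2, ha.1⟩]
  · rw [if_neg ha, if_neg fun h => ha ⟨h.2, h.1⟩]

theorem s_inv {l : Fin n} (hl : 0 < (l : ℕ)) : (B.s l)⁻¹ = B.s l := by
  rw [inv_eq_iff_mul_eq_one]
  exact B.s2o l hl

theorem st_Tg {i l : Fin n} (hl : (l : ℕ) = i + 1) : LieP.st (B.Tg k i l) = B.Tg k i l := by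
  have hl0 : 0 < (l : ℕ) := by omega
  unfold BN.Tg
  rw [st_sum]
  have h : ∀ a : Fin n → Bool, LieP.st (B.sgl k i l a • (B.b k (B.s l) * B.Eg k a)) =
      B.sgl k i l (sq a i l) • (B.b k (B.s l) * B.Eg k (sq a i l)) := by
    intro a
    rw [LieP.st_smul, LieP.st_mul, b_st, st_Eg, s_inv hl0, Eg_sl hl, sgl_sq]
  rw [Finset.sum_congr rfl fun a _ => h a]
  exact Finset.sum_nbij' (fun a => sq a i l) (fun a => sq a i l) (fun _ _ => Finset.mem_univ _)
    (fun _ _ => Finset.mem_univ _) (fun a _ => sq_sq a i l) (fun a _ => sq_sq a i l) (fun _ _ => rfl)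

theorem ze_good {i : Fin n} {a : Fin n → Bool} (ha : B.good a) : B.ze (a i) = 1 := by
  rcases ha with h | h
  · cases hb : a i
    · exact B.ze0
    · exact B.ze1 h
  · rw [h i]
    exact B.ze0

theorem E0_s0 {i : Fin n} (hi : (i : ℕ) = 0) {a : Fin n → Bool} (ha : B.good a) :
    B.E0 k a * B.b k (B.s i)⁻¹ = B.b k (B.s i) * B.E0 k a := by
  have hx : (B.s i * B.s i)⁻¹ ∈ B.T := B.T.inv_mem (B.s2 i)
  have hs : (B.s i)⁻¹ = B.s i * (B.s i * B.s i)⁻¹ := by group
  have ht : B.th a (B.s i * B.s i)⁻¹ = 1 := by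
    rw [LieP.lin_inv (U := B.T) (B.thm a) (B.s2 i), B.ez i hi a]
    exact ze_good ha
  have h1 : B.b k (B.s i)⁻¹ = B.b k (B.s i) * B.b k (B.s i * B.s i)⁻¹ := by
    rw [(b_xg hx (B.s i)).2, ← hs]
  rw [h1, ← mul_assoc, ← s0_E0 hi a, mul_assoc, (b_E0 hx a).2, ht]
  rw [Units.val_one, Int.cast_one, one_smul]

theorem Eg_s0 {i : Fin n} (hi : (i : ℕ) = 0) (a : Fin n → Bool) :
    B.Eg k a * B.b k (B.s i)⁻¹ = B.b k (B.s i) * B.Eg k a := by
  unfold BN.Eg
  split_ifs with h
  · exact E0_s0 hi h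
  · rw [zero_mul, mul_zero]

theorem st_Xg : LieP.st (B.Xg k) = B.Xg k := by
  unfold BN.Xg
  rw [st_sum]
  refine Finset.sum_congr rfl fun a _ => ?_
  rw [st_sum]
  refine Finset.sum_congr rfl fun i _ => ?_
  split_ifs with h
  · rw [LieP.st_mul, b_st, st_Eg, Eg_s0 h]
  · exact st_zero

theorem coeff_of {x : LieP.Al k G} (h : LieP.st x = x) (g : G) : x.coeff g⁻¹ = x.coeff g := by
  rw [← LieP.coeff_st, h]

end L06_aux

theorem sy_D {P : Par k} {D : HA P n (MonoidAlgebra k G)} (hD : Dg B P D) : Sy D := by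
  refine ⟨fun a g => ?_, fun i g => ?_, fun g => ?_⟩
  · rw [hD.E a]
    exact L06_aux.coeff_of (L06_aux.st_Eg a) g
  · by_cases hi : (i : ℕ) + 1 = n
    · rw [hD.T0 i hi]
      exact L06_aux.coeff_of L06_aux.st_zero g
    · have hj : (i : ℕ) + 1 < n := by
        have := i.2
        omega
      rw [hD.T i ⟨(i : ℕ) + 1, hj⟩ rfl]
      exact L06_aux.coeff_of (L06_aux.st_Tg rfl) g
  · rw [hD.X]
    exact L06_aux.coeff_of L06_aux.st_Xg g

end

end AO
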