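import Pool.Agent.AO.L05

/-!
# MP_6c3636_al, AO, module L07: generation (helper7)

`B.b k m * D.Et = D.Et * B.b k m` for `m ∈ B.N` (`N_E0`: `m` permutes the labels, and the good labels are stable). Claim for `m ∈ B.N`: `[m] Et ∈ D.gn`. Induction (`Subgroup.closure_induction_left` or similar), `m = y * m'`, `y` a generator or the inverse of a generator. `x ∈ T`: `[x m'] Et = ([x] Et) ([m'] Et)` and `[x] Et = ∑ th a x • Eg a`. `y = s = s i`: `[s] Et ∈ gn`: for `i > 0`: `[s i] Et = ∑ a, sgl a • T (i-1) * Eg a`, for `i = 0`: `X`. If `PO (R i) m'` then `[s m'] = [s] [m']`. Otherwise `PO (R i) (s m')` (`di`), `[s] [s m'] = [s s m'] = [s s] [m']`; `[s] Et` is invertible in the algebra of the `Et x Et` with inverse in `gn`: by `Tq0`, `Xq0`: `[s] ([s] - c_a) Eg a = c'_a • Eg a`, `c'_a ≠ 0`; so `[s m'] Et = ([s] Et)⁻¹ [s s] Et [m'] Et`. `y = s⁻¹ = s (s s)⁻¹`, reduce to `s` and an element of `T` (`T` is normalized by `m'`, or write `s⁻¹ = (s s)⁻¹ s`). `g = u m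 u'` (`br`, `b_U`).
-/

namespace AO

noncomputable section

open Classical Equiv

open AN (sq)

variable {k : Type} [Field k] [CharZero k] {G : Type} [Group G] [Finite G] {n : ℕ} {B : BN G n}

namespace L07_aux

theorem good_perm (a : Fin n → Bool) (π : Perm (Fin n)) : B.good (fun i => a (π i)) ↔ B.good a := by
  unfold BN.good
  constructor
  · rintro (h | h)
    · exact Or.inl h
    · refine Or.inr fun i => ?_
      have h' : a (π (π.symm i)) = false := h (π.symm i)
      rwa [Equiv.apply_symm_apply] at h'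
  · rintro (h | h)
    · exact Or.inl h
    · exact Or.inr fun i => h (π i)

/-- permutation of the labels -/
def pe (π : Perm (Fin n)) : (Fin n → Bool) ≃ (Fin n → Bool) where
  toFun := fun a i => a (π i)
  invFun := fun a i => a (π.symm i)
  left_inv := fun a => by
    funext i
    show a (π (π.symm i)) = a i
    rw [Equiv.apply_symm_apply]
  right_inv := fun a => by
    funext i
    show a (π.symm (π i)) = a i
    rw [Equiv.symm_apply_apply]

theorem Eg_perm {x : LieP.Al k G} {π : Perm (Fin n)} (h : ∀ a, x * B.E0 k a = B.E0 k (fun i => a (π i)) * x)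
    (a : Fin n → Bool) : x * B.Eg k a = B.Eg k (fun i => a (π i)) * x := by
  unfold BN.Eg
  by_cases hg : B.good a
  · rw [if_pos hg, if_pos ((good_perm a π).2 hg), h]
  · rw [if_neg hg, if_neg (fun h => hg ((good_perm a π).1 h)), mul_zero, zero_mul]

variable {P : Par k} {D : HA P n (MonoidAlgebra k G)}

theorem Et_eq (hD : Dg B P D) : D.Et = ∑ a, B.Eg k a := Finset.sum_congr rfl fun a _ => hD.E a

theorem EE (hD : Dg B P D) (a b : Fin n → Bool) : B.Eg k a * B.Eg k b = if a = b then B.Eg k a else 0 := by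
  have h := D.EE a b
  rw [hD.E, hD.E] at h
  exact h

theorem Et_mul (hD : Dg B P D) (a : Fin n → Bool) : D.Et * B.Eg k a = B.Eg k a := by
  rw [Et_eq hD, Finset.sum_mul, Finset.sum_eq_single a]
  · rw [EE hD, if_pos rfl]
  · intro b _ hb
    rw [EE hD, if_neg hb]
  · intro h
    exact absurd (Finset.mem_univ a) h

theorem mul_Et (hD : Dg B P D) (a : Fin n → Bool) : B.Eg k a * D.Et = B.Eg k a := by
  rw [Et_eq hD, Finset.mul_sum, Finset.sum_eq_single a]
  · rw [EE hD, if_pos rfl]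
  · intro b _ hb
    rw [EE hD, if_neg hb.symm]
  · intro h
    exact absurd (Finset.mem_univ a) h

theorem Et_idem (hD : Dg B P D) : D.Et * D.Et = D.Et := by
  nth_rewrite 2 [Et_eq hD]
  rw [Finset.mul_sum, Et_eq hD]
  apply Finset.sum_congr rfl
  intro a _
  rw [← Et_eq hD, Et_mul hD]

theorem comm_of {x : LieP.Al k G} {π : Perm (Fin n)} (hD : Dg B P D)
    (h : ∀ a, x * B.Eg k a = B.Eg k (fun i => a (π i)) * x) : x * D.Et = D.Et * x := by
  rw [Et_eq hD, Finset.mul_sum, Finset.sum_mul]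
  exact Fintype.sum_equiv (pe π) _ _ fun a => h a

theorem Eg_mem (hD : Dg B P D) (a : Fin n → Bool) : B.Eg k a ∈ D.gn := by
  rw [← hD.E]
  exact Algebra.subset_adjoin (Or.inl (Or.inl ⟨a, rfl⟩))

theorem Et_mem (hD : Dg B P D) : D.Et ∈ D.gn := by
  rw [Et_eq hD]
  exact Subalgebra.sum_mem _ fun a _ => Eg_mem hD a

theorem sgl_sq (i j : Fin n) (a : Fin n → Bool) : B.sgl k i j a * B.sgl k i j a = 1 := by
  unfold BN.sgl
  split_ifs
  · exact LieP.A02_aux.unit_sq _
  · exact mul_one _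

theorem s_mem (hD : Dg B P D) (i : Fin n) : B.b k (B.s i) * D.Et ∈ D.gn := by
  rcases Nat.eq_zero_or_pos (i : ℕ) with h0 | h0
  · have e : B.b k (B.s i) * D.Et = D.X := by
      rw [hD.X, Et_eq hD, Finset.mul_sum]
      unfold BN.Xg
      apply Finset.sum_congr rfl
      intro a _
      rw [Finset.sum_eq_single i]
      · rw [if_pos h0]
      · intro j _ hj
        rw [if_neg]
        intro h
        exact hj (Fin.ext (h.trans h0.symm))
      · intro h
        exact absurd (Finset.mem_univ i) h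
    rw [e]
    exact Algebra.subset_adjoin (Or.inr rfl)
  · have hj : ∃ j : Fin n, (i : ℕ) = j + 1 := ⟨⟨(i : ℕ) - 1, by have := i.2; omega⟩, by
      show (i : ℕ) = (i : ℕ) - 1 + 1
      omega⟩
    obtain ⟨j, hj⟩ := hj
    have e : B.b k (B.s i) * D.Et = ∑ a, B.sgl k j i a • (D.T j * B.Eg k a) := by
      rw [Et_eq hD, Finset.mul_sum]
      apply Finset.sum_congr rfl
      intro a _
      rw [hD.T j i hj]
      unfold BN.Tg
      rw [Finset.sum_mul, Finset.sum_eq_single a]
      · rw [smul_mul_assoc, mul_assoc, EE hD, if_pos rfl, smul_smul, sgl_sq, one_smul]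
      · intro b _ hb
        rw [smul_mul_assoc, mul_assoc, EE hD, if_neg hb, mul_zero, smul_zero]
      · intro h
        exact absurd (Finset.mem_univ a) h
    rw [e]
    apply Subalgebra.sum_mem
    intro a _
    apply Subalgebra.smul_mem
    exact Subalgebra.mul_mem _ (Algebra.subset_adjoin (Or.inl (Or.inr ⟨j, rfl⟩))) (Eg_mem hD a)

theorem card_ne (H : Subgroup G) : (Nat.card H : k) ≠ 0 := Nat.cast_ne_zero.2 Nat.card_pos.ne'

theorem unit_ne (u : ℤˣ) : (((u : ℤˣ) : ℤ) : k) ≠ 0 := by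
  intro h
  have := LieP.A02_aux.unit_sq (k := k) u
  rw [h, mul_zero] at this
  exact zero_ne_one this

/-- the quadratic relation -/
theorem quad0 (i : Fin n) : ∃ (π : Perm (Fin n)) (c d : (Fin n → Bool) → k), (∀ a, d a ≠ 0) ∧
    (∀ a, c (fun j => a (π j)) = c a) ∧
    (∀ a, B.b k (B.s i) * B.E0 k a = B.E0 k (fun j => a (π j)) * B.b k (B.s i)) ∧
    ∀ a, B.b k (B.s i) * B.b k (B.s i) * B.E0 k a = d a • B.E0 k a + c a • (B.b k (B.s i) * B.E0 k a) := by
  rcases Nat.eq_zero_or_pos (i : ℕ) with h0 | h0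
  · refine ⟨1, fun a => (Nat.card (B.R i) : k)⁻¹ * ((B.su (a i) : ℤ) : k),
      fun a => (Nat.card (B.R i) : k)⁻¹ * (((B.ze (a i) : ℤˣ) : ℤ) : k), ?_, ?_, ?_, ?_⟩
    · intro a
      exact mul_ne_zero (inv_ne_zero (card_ne _)) (unit_ne _)
    · intro a
      rfl
    · intro a
      exact s0_E0 h0 a
    · intro a
      exact Xq0 h0 a
  · obtain ⟨j, hj⟩ : ∃ j : Fin n, (i : ℕ) = j + 1 := ⟨⟨(i : ℕ) - 1, by have := i.2; omega⟩, by
      show (i : ℕ) = (i : ℕ) - 1 + 1
      omega⟩
    refine ⟨swap j i, fun a => if a j = a i then ((((B.sn (a j) : ℤˣ) : ℤ) : k) * (1 - (Nat.card (B.R i) : k)⁻¹))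
      else 0, fun _ => (Nat.card (B.R i) : k)⁻¹, ?_, ?_, ?_, ?_⟩
    · intro a
      exact inv_ne_zero (card_ne _)
    · intro a
      simp only [swap_apply_left, swap_apply_right]
      by_cases h : a j = a i
      · rw [if_pos h.symm, if_pos h, h]
      · rw [if_neg (fun h' => h h'.symm), if_neg h]
    · intro a
      exact sl_E0 hj a
    · intro a
      rw [Tq0 hj a]
      simp only
      split_ifs
      · rfl
      · rw [zero_smul]

/-- the inverse of a simple reflection -/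
theorem s_inv (hD : Dg B P D) (i : Fin n) : ∃ Z ∈ D.gn, Z * (B.b k (B.s i) * D.Et) = D.Et := by
  obtain ⟨π, c, d, hd, hc, hp, hq⟩ := quad0 (k := k) (B := B) i
  have hp' := Eg_perm hp
  have hcomm : B.b k (B.s i) * D.Et = D.Et * B.b k (B.s i) := comm_of hD hp'
  obtain ⟨A, hA⟩ : ∃ A, A = B.b k (B.s i) := ⟨_, rfl⟩
  rw [← hA] at hp' hq hcomm ⊢
  have hAmem : A * D.Et ∈ D.gn := by
    rw [hA]
    exact s_mem hD i
  have hq' : ∀ a, A * A * B.Eg k a = d a • B.Eg k a + c a • (A * B.Eg k a) := by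
    intro a
    unfold BN.Eg
    by_cases hg : B.good a
    · rw [if_pos hg]
      exact hq a
    · rw [if_neg hg, mul_zero, mul_zero, smul_zero, smul_zero, add_zero]
  obtain ⟨W, hW⟩ : ∃ W, W = ∑ a, c a • B.Eg k a := ⟨_, rfl⟩
  obtain ⟨V, hV⟩ : ∃ V, V = ∑ a, (d a)⁻¹ • B.Eg k a := ⟨_, rfl⟩
  have hWm : W ∈ D.gn := by
    rw [hW]
    exact Subalgebra.sum_mem _ fun a _ => Subalgebra.smul_mem _ (Eg_mem hD a) _
  have hVm : V ∈ D.gn := by
    rw [hV]
    exact Subalgebra.sum_mem _ fun a _ => Subalgebra.smul_mem _ (Eg_mem hD a) _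
  have hWE : W * D.Et = W := by
    rw [hW, Finset.sum_mul]
    apply Finset.sum_congr rfl
    intro a _
    rw [smul_mul_assoc, mul_Et hD]
  have hEW : D.Et * W = W := by
    rw [hW, Finset.mul_sum]
    apply Finset.sum_congr rfl
    intro a _
    rw [mul_smul_comm, Et_mul hD]
  have hAW : A * W = W * A := by
    rw [hW, Finset.mul_sum, Finset.sum_mul]
    apply Fintype.sum_equiv (pe π)
    intro a
    rw [mul_smul_comm, hp' a, smul_mul_assoc]
    show _ = c (fun j => a (π j)) • (B.Eg k (fun j => a (π j)) * A)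
    rw [hc]
  have hAA : A * D.Et * (A * D.Et) = ∑ a, d a • B.Eg k a + A * W := by
    have e1 : A * D.Et * (A * D.Et) = A * A * D.Et := by
      calc A * D.Et * (A * D.Et) = A * (D.Et * A) * D.Et := by simp only [mul_assoc]
        _ = A * (A * D.Et) * D.Et := by rw [hcomm]
        _ = A * A * D.Et := by
          simp only [mul_assoc, Et_idem hD]
    rw [e1, Et_eq hD, Finset.mul_sum, hW, Finset.mul_sum, ← Finset.sum_add_distrib]
    apply Finset.sum_congr rfl
    intro a _
    rw [hq' a, mul_smul_comm]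
  refine ⟨V * (A * D.Et - W), Subalgebra.mul_mem _ hVm (Subalgebra.sub_mem _ hAmem hWm), ?_⟩
  have e2 : W * (A * D.Et) = A * W := by
    rw [hcomm, ← mul_assoc, hWE, hAW]
  rw [mul_assoc, sub_mul, hAA, e2, add_sub_cancel_right, hV, Finset.sum_mul, Et_eq hD]
  apply Finset.sum_congr rfl
  intro a _
  rw [smul_mul_assoc, Finset.mul_sum, Finset.sum_eq_single a]
  · rw [mul_smul_comm, EE hD, if_pos rfl, smul_smul, inv_mul_cancel₀ (hd a), one_smul]
  · intro b _ hb
    rw [mul_smul_comm, EE hD, if_neg hb.symm, smul_zero]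
  · intro h
    exact absurd (Finset.mem_univ a) h

end L07_aux

open L07_aux

theorem N_Et {P : Par k} {D : HA P n (MonoidAlgebra k G)} (hD : Dg B P D) {m : G} (hm : m ∈ B.N) :
    B.b k m * D.Et = D.Et * B.b k m := by
  obtain ⟨π, hπ⟩ := N_E0 (k := k) hm
  exact comm_of hD (Eg_perm hπ)

theorem b_Et {P : Par k} {D : HA P n (MonoidAlgebra k G)} (hD : Dg B P D) (g : G) :
    B.b k g * D.Et = D.Et * B.b k g := by
  obtain ⟨u, hu, m, hm, u', hu', rfl⟩ := B.br g
  rw [(b_U hu' (u * m)).2, (b_U hu m).1]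
  exact N_Et hD hm

namespace L07_aux

variable {P : Par k} {D : HA P n (MonoidAlgebra k G)}

theorem A_mul (hD : Dg B P D) (g h : G) :
    B.b k g * D.Et * (B.b k h * D.Et) = B.b k g * B.b k h * D.Et := by
  rw [mul_assoc, ← mul_assoc D.Et, ← b_Et hD h]
  simp only [mul_assoc, Et_idem hD]

theorem T_mem (hD : Dg B P D) {x : G} (hx : x ∈ B.T) : B.b k x * D.Et ∈ D.gn := by
  rw [Et_eq hD, Finset.mul_sum]
  apply Subalgebra.sum_mem
  intro a _
  have h : B.b k x * B.Eg k a = (((B.th a x : ℤˣ) : ℤ) : k) • B.Eg k a := by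
    unfold BN.Eg
    split_ifs
    · exact (b_E0 hx a).1
    · rw [mul_zero, smul_zero]
  rw [h]
  exact Subalgebra.smul_mem _ (Eg_mem hD a) _

theorem T_step (hD : Dg B P D) {x : G} (hx : x ∈ B.T) {m : G} (hm : B.b k m * D.Et ∈ D.gn) :
    B.b k (x * m) * D.Et ∈ D.gn := by
  rw [← (b_xg hx m).1, ← A_mul hD]
  exact Subalgebra.mul_mem _ (T_mem hD hx) hm

theorem s_step (hD : Dg B P D) (i : Fin n) {m : G} (hmN : m ∈ B.N) (hm : B.b k m * D.Et ∈ D.gn) :
    B.b k (B.s i * m) * D.Et ∈ D.gn := by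
  rcases B.di m hmN i with h | h
  · rw [← b_mul h, ← A_mul hD]
    exact Subalgebra.mul_mem _ (s_mem hD i) hm
  · obtain ⟨Z, hZ, hZ'⟩ := s_inv hD i
    have h1 := b_mul (k := k) h
    have h2 : B.b k (B.s i) * D.Et * (B.b k (B.s i * m) * D.Et) = B.b k (B.s i * B.s i * m) * D.Et := by
      rw [A_mul hD, h1, mul_assoc (B.s i)]
    have h3 : B.b k (B.s i * m) * D.Et = Z * (B.b k (B.s i * B.s i * m) * D.Et) := by
      rw [← h2, ← mul_assoc, hZ', b_Et hD, ← mul_assoc, Et_idem hD]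
    rw [h3]
    exact Subalgebra.mul_mem _ hZ (T_step hD (B.s2 i) hm)

theorem N_mem (hD : Dg B P D) {m : G} (hm : m ∈ B.N) : B.b k m * D.Et ∈ D.gn := by
  have hm' : m ∈ Subgroup.closure (Set.range B.s ∪ (B.T : Set G)) := hm
  induction hm' using Subgroup.closure_induction_left with
  | one => exact T_mem hD B.T.one_mem
  | mul_left x hx y hy ih =>
    rcases hx with ⟨i, rfl⟩ | hx
    · exact s_step hD i hy (ih hy)
    · exact T_step hD hx (ih hy)
  | inv_mul_cancel x hx y hy ih =>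
    rcases hx with ⟨i, rfl⟩ | hx
    · have e : (B.s i)⁻¹ * y = (B.s i * B.s i)⁻¹ * (B.s i * y) := by group
      rw [e]
      exact T_step hD (B.T.inv_mem (B.s2 i)) (s_step hD i hy (ih hy))
    · exact T_step hD (B.T.inv_mem hx) (ih hy)

end L07_aux

theorem gen_b {P : Par k} (hP : Fit B P) {D : HA P n (MonoidAlgebra k G)} (hD : Dg B P D) (g : G) :
    B.b k g * D.Et ∈ D.gn := by
  obtain ⟨u, hu, m, hm, u', hu', rfl⟩ := B.br g
  rw [(b_U hu' (u * m)).2, (b_U hu m).1]
  exact N_mem hD hm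

end

end AO
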