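import Pool.Agent.AO.L07
import Pool.Agent.AO.L06
import Pool.Agent.AO.K10

/-!
# MP_6c3636_al, AO, module L08: irreducible representations (helper7)

`b_irr`: the subspace `∑ g, M g (W')` generated by `W'` is stable under `G`, so it is everything; apply `e`: `range e = ∑ g, e M g W' = ∑ g, [g] W' ≤ W'`. `et_eq`: the range of `Et` is stable under all `[g]` (`b_Et`), nonzero, contained in the range of `e`; both are idempotents with the same range, `e Et = Et = Et e`, so they are equal. `exists_snB`: K10 with `sy_D` (L06); `hir`: a subspace `W'` of the range of `Et` which is stable under `T i` (`i + 1 < n`), `X`, `E a` is stable under `D.gn` (`D.T i = 0` for `i + 1 = n`, `T0`; `Algebra.adjoin_induction`), so under `[g] Et` (`gen_b`), and on the range of `Et = e` the operator `[g] Et` is `[g]`; use `b_irr`.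
-/

namespace AO

noncomputable section

open Classical Equiv

open AN (sq)

variable {k : Type} [Field k] [CharZero k] [Algebra k ℝ] {Ω : Type} [Field Ω] [IsAlgClosed Ω] [CharZero Ω]
  [Algebra k Ω] {G : Type} [Group G] [Finite G] {n : ℕ} {B : BN G n} {P : Par k}
  {D : HA P n (MonoidAlgebra k G)} {W : Type} [AddCommGroup W] [Module Ω W] [FiniteDimensional Ω W]
  {M : Representation Ω G W}

namespace L08_aux

theorem ev_dl (M : Representation Ω G W) (g : G) : ev M (LieP.dl g : LieP.Al k G) = M g := by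
  have h : ev M (LieP.dl g : LieP.Al k G) = (algebraMap k Ω 1) • M g := ev_single M g 1
  rw [h, map_one, one_smul]

theorem e_fix {w : W} (hw : w ∈ LinearMap.range (ev M (B.e k))) : ev M (B.e k) w = w := by
  obtain ⟨v, rfl⟩ := hw
  have h : ev M (B.e k) (ev M (B.e k) v) = (ev M (B.e k) * ev M (B.e k)) v := rfl
  rw [h, ← map_mul, e_idem]

theorem Et_idem (D : HA P n (MonoidAlgebra k G)) : D.Et * D.Et = D.Et := by
  unfold HA.Et
  rw [Finset.sum_mul]
  refine Finset.sum_congr rfl fun a _ => ?_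
  rw [Finset.mul_sum]
  rw [Finset.sum_eq_single a]
  · rw [D.EE, if_pos rfl]
  · intro b _ hb
    rw [D.EE, if_neg (Ne.symm hb)]
  · intro h
    exact absurd (Finset.mem_univ a) h

theorem on_Et (D : HA P n (MonoidAlgebra k G)) (M : Representation Ω G W) : (D.on M).Et = ev M D.Et := by
  unfold HA.Et
  rw [map_sum]
  rfl

theorem e_Et (hD : Dg B P D) : B.e k * D.Et = D.Et ∧ D.Et * B.e k = D.Et := by
  have h : ∀ a, B.e k * D.E a = D.E a ∧ D.E a * B.e k = D.E a := by
    intro a
    rw [hD.E a]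
    unfold BN.Eg
    split_ifs
    · exact e_E0 a
    · exact ⟨mul_zero _, zero_mul _⟩
  unfold HA.Et
  rw [Finset.mul_sum, Finset.sum_mul]
  exact ⟨Finset.sum_congr rfl fun a _ => (h a).1, Finset.sum_congr rfl fun a _ => (h a).2⟩

theorem Et_fix {w : W} (hw : w ∈ LinearMap.range (ev M D.Et)) : ev M D.Et w = w := by
  obtain ⟨v, rfl⟩ := hw
  have h : ev M D.Et (ev M D.Et v) = (ev M D.Et * ev M D.Et) v := rfl
  rw [h, ← map_mul, Et_idem]

theorem gn_stable (hD : Dg B P D) {W' : Submodule Ω W}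
    (hT : ∀ i j : Fin n, (j : ℕ) = i + 1 → ∀ w ∈ W', (D.on M).T i w ∈ W')
    (hX : ∀ w ∈ W', (D.on M).X w ∈ W') (hE : ∀ a, ∀ w ∈ W', (D.on M).E a w ∈ W')
    {y : MonoidAlgebra k G} (hy : y ∈ D.gn) : ∀ w ∈ W', ev M y w ∈ W' := by
  refine Algebra.adjoin_induction (p := fun y _ => ∀ w ∈ W', ev M y w ∈ W') ?_ ?_ ?_ ?_ hy
  · rintro x ((⟨a, rfl⟩ | ⟨i, rfl⟩) | hx) w hw
    · exact hE a w hw
    · by_cases hi : (i : ℕ) + 1 = n
      · rw [hD.T0 i hi, map_zero]
        exact W'.zero_mem
      · exact hT i ⟨(i : ℕ) + 1, by omega⟩ rfl w hw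
    · rw [Set.mem_singleton_iff] at hx
      rw [hx]
      exact hX w hw
  · intro r w hw
    have h1 : (algebraMap k (MonoidAlgebra k G) r) = r • (1 : MonoidAlgebra k G) :=
      Algebra.algebraMap_eq_smul_one r
    rw [h1, ev_smul, map_one]
    exact W'.smul_mem _ hw
  · intro x y _ _ h1 h2 w hw
    rw [map_add]
    exact W'.add_mem (h1 w hw) (h2 w hw)
  · intro x y _ _ h1 h2 w hw
    rw [map_mul]
    exact h1 _ (h2 w hw)

end L08_aux

open L08_aux

theorem b_irr (hM : M.IsIrreducible) {W' : Submodule Ω W} (h1 : W' ≤ LinearMap.range (ev M (B.e k)))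
    (h0 : W' ≠ ⊥) (hs : ∀ g, ∀ w ∈ W', ev M (B.b k g) w ∈ W') : W' = LinearMap.range (ev M (B.e k)) := by
  obtain ⟨-, hirr⟩ := (Parker.P08_aux.irr_iff M).1 hM
  have hst : ∀ g, ∀ x ∈ (⨆ g, W'.map (M g) : Submodule Ω W), M g x ∈ (⨆ g, W'.map (M g) : Submodule Ω W) := by
    intro g x hx
    refine Submodule.iSup_induction _ (motive := fun x => M g x ∈ (⨆ g, W'.map (M g) : Submodule Ω W)) hx ?_ ?_ ?_
    · rintro h _ ⟨w, hw, rfl⟩
      refine Submodule.mem_iSup_of_mem (g * h) ⟨w, hw, ?_⟩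
      rw [map_mul]
      rfl
    · rw [map_zero]
      exact Submodule.zero_mem _
    · intro x y hx hy
      rw [map_add]
      exact Submodule.add_mem _ hx hy
  have hle : W' ≤ (⨆ g, W'.map (M g) : Submodule Ω W) := by
    intro w hw
    refine Submodule.mem_iSup_of_mem 1 ⟨w, hw, ?_⟩
    rw [map_one]
    rfl
  have htop : (⨆ g, W'.map (M g) : Submodule Ω W) = ⊤ := by
    rcases hirr _ hst with h | h
    · exfalso
      apply h0
      rw [eq_bot_iff, ← h]
      exact hle
    · exact h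
  have key : ∀ x ∈ (⨆ g, W'.map (M g) : Submodule Ω W), ev M (B.e k) x ∈ W' := by
    intro x hx
    refine Submodule.iSup_induction _ (motive := fun x => ev M (B.e k) x ∈ W') hx ?_ ?_ ?_
    · rintro g _ ⟨w, hw, rfl⟩
      have h2 := hs g w hw
      have h3 : ev M (B.b k g) w = ev M (B.e k) (M g (ev M (B.e k) w)) := by
        unfold BN.b
        rw [map_mul, map_mul, ev_dl]
        rfl
      rw [h3, e_fix (h1 hw)] at h2
      exact h2
    · rw [map_zero]
      exact W'.zero_mem
    · intro x y hx hy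
      rw [map_add]
      exact W'.add_mem hx hy
  refine le_antisymm h1 ?_
  rintro _ ⟨v, rfl⟩
  apply key
  rw [htop]
  trivial

theorem et_eq (hM : M.IsIrreducible) (hD : Dg B P D) (h : (D.on M).Et ≠ 0) :
    (D.on M).Et = ev M (B.e k) := by
  rw [on_Et] at h ⊢
  have he := e_Et hD
  have hr : LinearMap.range (ev M D.Et) = LinearMap.range (ev M (B.e k)) := by
    apply b_irr hM
    · rintro _ ⟨v, rfl⟩
      refine ⟨ev M D.Et v, ?_⟩
      have h2 : ev M (B.e k) (ev M D.Et v) = (ev M (B.e k) * ev M D.Et) v := rfl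
      rw [h2, ← map_mul, he.1]
    · intro hb
      exact h (LinearMap.range_eq_bot.1 hb)
    · rintro g _ ⟨v, rfl⟩
      refine ⟨ev M (B.b k g) v, ?_⟩
      have h2 : ev M (B.b k g) (ev M D.Et v) = (ev M (B.b k g) * ev M D.Et) v := rfl
      have h3 : ev M D.Et (ev M (B.b k g) v) = (ev M D.Et * ev M (B.b k g)) v := rfl
      rw [h2, h3, ← map_mul, ← map_mul, b_Et hD g]
  apply LinearMap.ext
  intro v
  have h4 : ev M (B.e k) v ∈ LinearMap.range (ev M D.Et) := by
    rw [hr]
    exact ⟨v, rfl⟩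
  have h5 := Et_fix h4
  have h6 : ev M D.Et (ev M (B.e k) v) = (ev M D.Et * ev M (B.e k)) v := rfl
  rw [h6, ← map_mul, he.2] at h5
  exact h5

theorem exists_snB (hM : M.IsIrreducible) (hP : Fit B P) (hD : Dg B P D) (hn : 0 < n)
    (h : (D.on M).Et ≠ 0) :
    ∃ (F : AO.Et → ℤ) (v : (Fin n → AO.Et) → W), SN (D.on M) F v ∧
      Submodule.span Ω (Set.range (fun β : {β // β ∈ SFT n F} => v β)) =
        LinearMap.range (ev M (B.e k)) := by
  have he := et_eq hM hD h
  rw [← he]
  apply exists_sn_irrT (sy_D hD) hn h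
  intro W' h1 h0 hT hX hE
  rw [he] at h1 ⊢
  apply b_irr hM h1 h0
  intro g w hw
  have hw2 : w ∈ LinearMap.range (ev M D.Et) := by
    rw [← on_Et, he]
    exact h1 hw
  have h3 := gn_stable hD hT hX hE (gen_b hP hD g) w hw
  rw [map_mul] at h3
  have h4 : (ev M (B.b k g) * ev M D.Et) w = ev M (B.b k g) (ev M D.Et w) := rfl
  rw [h4, Et_fix hw2] at h3
  exact h3

end

end AO
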