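import Pool.Agent.AO.GDefs
import Mathlib.LinearAlgebra.Matrix.Block
import Mathlib.Algebra.CharP.Lemmas
import Mathlib.GroupTheory.OrderOfElement

/-!
# MP_6c3636_al, AO, module M01: subgroups of the general linear group (helper7)

`mem_GS`, `mem_LS`, `mem_TW`, `inv_Pb`: `GL ι F` is finite, so `g⁻¹` is a power of `g`, and the conditions are stable under products (`UpM.mul`, ...). `mem_DG` in the same way (for a diagonal invertible matrix; without finiteness of `F`: the inverse of a diagonal matrix is diagonal). `det_GS`: `g = 1 + N`; after reordering of the indices by `y` the matrix is triangular: `Matrix.det_of_upperTriangular` for a block triangular matrix, or: `(g - 1)` is nilpotent (`N ^ card ι = 0`, chains of strictly increasing values of `y`; compare `I16_chain` in LieP/I16.lean), so the determinant minus one is nilpotent (`Matrix.isNilpotent_...`), or use `BlockTriangular`. `GS_pow`: `(1 + N) ^ (p ^ k) = 1 + N ^ (p ^ k)` in characteristic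 `p` (commuting elements: `add_pow_char_pow_of_commute` or similar), `N` nilpotent. `conj_apply`: entries of products with diagonal matrices. `LS_GS_conj`: `l (1 + N) l⁻¹ = 1 + l N l⁻¹` and `l N l⁻¹` has support in `y i < y j`. `LS_GS_one`: clear.
-/

namespace AO.MG

noncomputable section

open Classical Equiv Matrix

open AN (sq)

variable {ι : Type} [Fintype ι] [DecidableEq ι] {F : Type} [Field F]

namespace M01_aux

/-- in a finite group a multiplicative condition passes to the inverse -/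
theorem inv_of_mul [Finite F] (P : Matrix ι ι F → Prop) (h1 : P 1)
    (hm : ∀ A B, P A → P B → P (A * B)) {g : GL ι F} (hg : P (g : Matrix ι ι F)) :
    P ((g⁻¹ : GL ι F) : Matrix ι ι F) := by
  haveI : Finite (Matrix ι ι F) := inferInstance
  haveI : Finite (GL ι F) := inferInstance
  have hpow : ∀ k : ℕ, P ((g ^ k : GL ι F) : Matrix ι ι F) := by
    intro k
    induction k with
    | zero =>
      rw [pow_zero, Units.val_one]
      exact h1
    | succ k ih =>
      rw [pow_succ, Units.val_mul]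
      exact hm _ _ ih hg
  have hfin : 0 < orderOf g := orderOf_pos g
  have h2 : g * g ^ (orderOf g - 1) = 1 := by
    rw [← pow_succ', Nat.sub_add_cancel hfin, pow_orderOf_eq_one]
  rw [inv_eq_of_mul_eq_one_right h2]
  exact hpow _

theorem UpM_one {y : ι → ℤ} : UpM y (1 : Matrix ι ι F) := fun _ _ _ => rfl

theorem LvM_one {y : ι → ℤ} : LvM y (1 : Matrix ι ι F) := fun _ _ h =>
  Matrix.one_apply_ne (fun h' => h (congrArg y h'))

theorem PbM_one {y : ι → ℤ} : PbM y (1 : Matrix ι ι F) := fun _ _ h =>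
  Matrix.one_apply_ne (fun h' => by rw [h'] at h; exact lt_irrefl _ h)

theorem val_mul_inv (g : GL ι F) : (g : Matrix ι ι F) * ((g⁻¹ : GL ι F) : Matrix ι ι F) = 1 := by
  rw [← Units.val_mul, mul_inv_cancel, Units.val_one]

theorem diag_mul {A : Matrix ι ι F} (hA : DgM A) (B : Matrix ι ι F) (i j : ι) :
    (A * B) i j = A i i * B i j := by
  rw [Matrix.mul_apply, Finset.sum_eq_single i]
  · intro k _ hk
    rw [hA i k (Ne.symm hk), zero_mul]
  · exact fun h => absurd (Finset.mem_univ _) h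

theorem mul_diag {A : Matrix ι ι F} (hA : DgM A) (B : Matrix ι ι F) (i j : ι) :
    (B * A) i j = B i j * A j j := by
  rw [Matrix.mul_apply, Finset.sum_eq_single j]
  · intro k _ hk
    rw [hA k j hk, mul_zero]
  · exact fun h => absurd (Finset.mem_univ _) h

theorem DgM_inv {g : GL ι F} (hg : DgM (g : Matrix ι ι F)) :
    DgM ((g⁻¹ : GL ι F) : Matrix ι ι F) ∧ ∀ i, (g : Matrix ι ι F) i i ≠ 0 ∧
      ((g⁻¹ : GL ι F) : Matrix ι ι F) i i = ((g : Matrix ι ι F) i i)⁻¹ := by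
  have h1 : ∀ i j, (g : Matrix ι ι F) i i * ((g⁻¹ : GL ι F) : Matrix ι ι F) i j =
      (1 : Matrix ι ι F) i j := by
    intro i j
    rw [← diag_mul hg, val_mul_inv]
  have h2 : ∀ i, (g : Matrix ι ι F) i i * ((g⁻¹ : GL ι F) : Matrix ι ι F) i i = 1 := by
    intro i
    rw [h1, Matrix.one_apply_eq]
  have h3 : ∀ i, (g : Matrix ι ι F) i i ≠ 0 := by
    intro i h
    have := h2 i
    rw [h, zero_mul] at this
    exact zero_ne_one this
  refine ⟨?_, fun i => ⟨h3 i, ?_⟩⟩
  · intro i j hij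
    have := h1 i j
    rw [Matrix.one_apply_ne hij] at this
    exact (mul_eq_zero.1 this).resolve_left (h3 i)
  · exact eq_inv_of_mul_eq_one_right (h2 i)

theorem pow_supp {y : ι → ℤ} {N : Matrix ι ι F} (hN : ∀ i j, ¬ y i < y j → N i j = 0) (m : ℕ) :
    ∀ i j, y j < y i + (m : ℤ) → (N ^ m) i j = 0 := by
  induction m with
  | zero =>
    intro i j hij
    rw [pow_zero]
    exact Matrix.one_apply_ne (fun h => by rw [h] at hij; simp at hij)
  | succ m ih =>
    intro i j hij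
    rw [pow_succ, Matrix.mul_apply]
    refine Finset.sum_eq_zero fun k _ => ?_
    by_cases hk : y k < y i + (m : ℤ)
    · rw [ih i k hk, zero_mul]
    · rw [hN k j, mul_zero]
      push_cast at hij
      omega

end M01_aux

open M01_aux

theorem mem_GS [Finite F] {y : ι → ℤ} {g : GL ι F} : g ∈ GS F y ↔ UpM y (g : Matrix ι ι F) :=
  ⟨fun h => h.1, fun h => ⟨h, inv_of_mul (UpM y) UpM_one (fun _ _ hA hB => hA.mul hB) h⟩⟩

theorem mem_LS [Finite F] {y : ι → ℤ} {g : GL ι F} : g ∈ LS F y ↔ LvM y (g : Matrix ι ι F) :=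
  ⟨fun h => h.1, fun h => ⟨h, inv_of_mul (LvM y) LvM_one (fun _ _ hA hB => hA.mul hB) h⟩⟩

theorem mem_DG {g : GL ι F} : g ∈ DG ι F ↔ DgM (g : Matrix ι ι F) :=
  ⟨fun h => h.1, fun h => ⟨h, (DgM_inv h).1⟩⟩

theorem mem_TW [Finite F] {τ : F ≃+* F} {π : Perm ι} {g : GL ι F} :
    g ∈ TW τ π ↔ TwM τ π (g : Matrix ι ι F) :=
  ⟨fun h => h.1, fun h => ⟨h, inv_of_mul (TwM τ π) TwM.one (fun _ _ hA hB => hA.mul hB) h⟩⟩

theorem mem_IG {J : Matrix ι ι F} {σ : F ≃+* F} {g : GL ι F} :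
    g ∈ IG J σ ↔ ((g : Matrix ι ι F).map σ)ᵀ * J * (g : Matrix ι ι F) = J := Iff.rfl

theorem mem_DT {g : GL ι F} : g ∈ DT ι F ↔ (g : Matrix ι ι F).det = 1 := by
  rw [DT, MonoidHom.mem_ker, ← Units.val_inj, Matrix.GeneralLinearGroup.val_det_apply, Units.val_one]

theorem PbM.mul {y : ι → ℤ} {A B : Matrix ι ι F} (hA : PbM y A) (hB : PbM y B) : PbM y (A * B) := by
  intro i j hij
  rw [Matrix.mul_apply]
  refine Finset.sum_eq_zero fun k _ => ?_
  by_cases hk : y k < y i
  · rw [hA i k hk, zero_mul]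
  · rw [hB k j (lt_of_lt_of_le hij (not_lt.1 hk)), mul_zero]

theorem inv_Pb [Finite F] {y : ι → ℤ} {g : GL ι F} (hg : PbM y (g : Matrix ι ι F)) :
    PbM y ((g⁻¹ : GL ι F) : Matrix ι ι F) :=
  inv_of_mul (PbM y) PbM_one (fun _ _ hA hB => PbM.mul hA hB) hg

theorem det_GS {y : ι → ℤ} {g : GL ι F} (hg : g ∈ GS F y) : (g : Matrix ι ι F).det = 1 := by
  have h1 : UpM y (g : Matrix ι ι F) := hg.1
  have h2 : Matrix.BlockTriangular (g : Matrix ι ι F) y := by
    intro i j hij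
    rw [h1 i j (not_lt.2 hij.le)]
    exact Matrix.one_apply_ne (fun h => by rw [h] at hij; exact lt_irrefl _ hij)
  rw [h2.det]
  refine Finset.prod_eq_one fun a _ => ?_
  have h3 : (g : Matrix ι ι F).toSquareBlock y a = 1 := by
    ext i j
    rw [Matrix.toSquareBlock_def, Matrix.of_apply, h1 i.1 j.1 (by rw [i.2, j.2]; exact lt_irrefl _)]
    by_cases h : i = j
    · rw [h, Matrix.one_apply_eq, Matrix.one_apply_eq]
    · rw [Matrix.one_apply_ne h, Matrix.one_apply_ne (fun h' => h (Subtype.ext h'))]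
  rw [h3, Matrix.det_one]

theorem GS_le_DT {y : ι → ℤ} : GS F y ≤ DT ι F := fun _ hg => mem_DT.2 (det_GS hg)

theorem GS_pow {p : ℕ} [CharP F p] (hp : p.Prime) {y : ι → ℤ} {g : GL ι F} (hg : g ∈ GS F y) :
    ∃ k : ℕ, g ^ (p ^ k) = 1 := by
  have h1 : UpM y (g : Matrix ι ι F) := hg.1
  obtain ⟨N, hN⟩ : ∃ N : Matrix ι ι F, N = (g : Matrix ι ι F) - 1 := ⟨_, rfl⟩
  have hN0 : ∀ i j, ¬ y i < y j → N i j = 0 := by
    intro i j hij
    rw [hN, Matrix.sub_apply, h1 i j hij, sub_self]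
  obtain ⟨m, hm⟩ : ∃ m : ℕ, ∀ i j, y j < y i + (m : ℤ) := by
    refine ⟨(∑ i, ∑ j, (|y j - y i|).toNat) + 1, fun i j => ?_⟩
    have h3 : (|y j - y i|).toNat ≤ ∑ j', (|y j' - y i|).toNat :=
      Finset.single_le_sum (f := fun j' => (|y j' - y i|).toNat) (fun _ _ => Nat.zero_le _)
        (Finset.mem_univ j)
    have h4 : (∑ j', (|y j' - y i|).toNat) ≤ ∑ i', ∑ j', (|y j' - y i'|).toNat :=
      Finset.single_le_sum (f := fun i' => ∑ j', (|y j' - y i'|).toNat) (fun _ _ => Nat.zero_le _)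
        (Finset.mem_univ i)
    have h5 : y j - y i ≤ |y j - y i| := le_abs_self _
    have h6 : (|y j - y i|) ≤ (((|y j - y i|).toNat : ℕ) : ℤ) := Int.self_le_toNat _
    omega
  haveI : Fact p.Prime := ⟨hp⟩
  haveI : CharP (Matrix ι ι F) p ∨ IsEmpty ι := by
    by_cases hι : Nonempty ι
    · exact Or.inl inferInstance
    · exact Or.inr (not_nonempty_iff.1 hι)
  refine ⟨m, ?_⟩
  apply Units.ext
  rw [Units.val_pow_eq_pow_val, Units.val_one]
  rcases this with hc | he
  · have h7 : (g : Matrix ι ι F) = 1 + N := by rw [hN]; abel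
    rw [h7, add_pow_char_pow_of_commute p m (Commute.one_left N), one_pow]
    have h8 : N ^ p ^ m = 0 := by
      ext i j
      refine pow_supp hN0 _ i j (lt_of_lt_of_le (hm i j) ?_)
      have h9 : m < p ^ m := Nat.lt_pow_self hp.one_lt
      have h10 : (m : ℤ) ≤ ((p ^ m : ℕ) : ℤ) := Int.ofNat_le.2 h9.le
      exact add_le_add le_rfl h10
    rw [h8, add_zero]
  · ext i
    exact (he.false i).elim

theorem GS_mono {y y' : ι → ℤ} (h : ∀ i j, y i < y j → y' i < y' j) : GS F y ≤ GS F y' :=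
  fun _ hg => ⟨fun i j hij => hg.1 i j (fun h' => hij (h i j h')),
    fun i j hij => hg.2 i j (fun h' => hij (h i j h'))⟩

theorem DG_ne {t : GL ι F} (ht : t ∈ DG ι F) (i : ι) : (t : Matrix ι ι F) i i ≠ 0 :=
  ((DgM_inv ht.1).2 i).1

theorem DG_inv {t : GL ι F} (ht : t ∈ DG ι F) (i : ι) :
    ((t⁻¹ : GL ι F) : Matrix ι ι F) i i = ((t : Matrix ι ι F) i i)⁻¹ :=
  ((DgM_inv ht.1).2 i).2

theorem DG_mul {t t' : GL ι F} (ht : t ∈ DG ι F) (i : ι) :
    ((t * t' : GL ι F) : Matrix ι ι F) i i = (t : Matrix ι ι F) i i * (t' : Matrix ι ι F) i i := by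
  rw [Units.val_mul, diag_mul ht.1]

theorem conj_apply {t : GL ι F} (ht : t ∈ DG ι F) (g : GL ι F) (i j : ι) :
    ((t * g * t⁻¹ : GL ι F) : Matrix ι ι F) i j =
      (t : Matrix ι ι F) i i * (g : Matrix ι ι F) i j * ((t : Matrix ι ι F) j j)⁻¹ := by
  rw [Units.val_mul, mul_diag (DgM_inv ht.1).1, Units.val_mul, diag_mul ht.1, DG_inv ht]

theorem DG_comm {t t' : GL ι F} (ht : t ∈ DG ι F) (ht' : t' ∈ DG ι F) : t * t' = t' * t := by
  apply Units.ext
  ext i j
  rw [Units.val_mul, Units.val_mul, diag_mul ht.1, diag_mul ht'.1]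
  by_cases h : i = j
  · rw [h, mul_comm]
  · rw [ht.1 i j h, ht'.1 i j h, mul_zero, mul_zero]

theorem DG_ext {t t' : GL ι F} (ht : t ∈ DG ι F) (ht' : t' ∈ DG ι F)
    (h : ∀ i, (t : Matrix ι ι F) i i = (t' : Matrix ι ι F) i i) : t = t' := by
  apply Units.ext
  ext i j
  by_cases hij : i = j
  · rw [← hij, h]
  · rw [ht.1 i j hij, ht'.1 i j hij]

theorem DG_LS {y : ι → ℤ} : DG ι F ≤ LS F y :=
  fun _ ht => ⟨fun i j hij => ht.1 i j (fun h => hij (congrArg y h)),
    fun i j hij => ht.2 i j (fun h => hij (congrArg y h))⟩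

namespace M01_aux

theorem conj_Up {y : ι → ℤ} {l g : GL ι F} (hl : l ∈ LS F y) (hg : UpM y (g : Matrix ι ι F)) :
    UpM y ((l * g * l⁻¹ : GL ι F) : Matrix ι ι F) := by
  intro i j hij
  have h1 : ((l * g * l⁻¹ : GL ι F) : Matrix ι ι F) =
      1 + (l : Matrix ι ι F) * (((g : Matrix ι ι F) - 1) * ((l⁻¹ : GL ι F) : Matrix ι ι F)) := by
    rw [sub_mul, mul_sub, one_mul, val_mul_inv, Units.val_mul, Units.val_mul, Matrix.mul_assoc]
    abel
  rw [h1, Matrix.add_apply, Matrix.mul_apply, Finset.sum_eq_zero, add_zero]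
  intro k _
  by_cases hk : y i = y k
  · rw [Matrix.mul_apply, Finset.sum_eq_zero, mul_zero]
    intro m _
    by_cases hm : y m = y j
    · rw [Matrix.sub_apply, hg k m (by rw [← hk, hm]; exact hij), sub_self, zero_mul]
    · rw [hl.2 m j hm, mul_zero]
  · rw [hl.1 i k hk, zero_mul]

end M01_aux

theorem LS_GS_conj {y : ι → ℤ} {l g : GL ι F} (hl : l ∈ LS F y) (hg : g ∈ GS F y) :
    l * g * l⁻¹ ∈ GS F y := by
  refine ⟨conj_Up hl hg.1, ?_⟩
  have h1 : (l * g * l⁻¹)⁻¹ = l * g⁻¹ * l⁻¹ := by group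
  rw [h1]
  exact conj_Up hl hg.2

theorem DG_GS_conj {y : ι → ℤ} {l g : GL ι F} (hl : l ∈ DG ι F) (hg : g ∈ GS F y) :
    l * g * l⁻¹ ∈ GS F y :=
  LS_GS_conj (DG_LS hl) hg

theorem LS_GS_one {y : ι → ℤ} {g : GL ι F} (hl : g ∈ LS F y) (hg : g ∈ GS F y) : g = 1 := by
  apply Units.ext
  ext i j
  rw [Units.val_one]
  by_cases h : y i = y j
  · exact hg.1 i j (by rw [h]; exact lt_irrefl _)
  · rw [hl.1 i j h, Matrix.one_apply_ne (fun h' => h (congrArg y h'))]

end

end AO.MG
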