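import Pool.Agent.AO.N03
import Pool.Agent.CF.T01
import Mathlib.GroupTheory.Perm.Fin

/-!
# MP_6c3636_al, AO, module N04: generation of the general linear group (helper7)

Let `X` be the subgroup generated by the three sets. It contains all monomial matrices (`mo w c = mo w 1 * mo 1 c'`; the swaps of neighbours generate the symmetric group: for example `Equiv.Perm.mclosure_swap_castSucc_succ`, or see how LieP or CF modules do this). It contains all transvections: `CF.tv i j x` with `j < i` is in `GS F gr`; for `i < j` it is conjugate to `CF.tv j i x` by the monomial matrix of `swap i j`. `CF/T01.lean` (`closure` of the transvections contains `SLg`; name there) and `g = h * di 0 (det g)` give the claim (for `n = 0` the group is trivial). `mo_mem`: as said.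
-/

namespace AO.N04_aux

noncomputable section

open Classical Matrix

open CF (tv mv sv SLg mem_SLg mv_mul mv_ext)

variable {n : ℕ} {F : Type} [Field F]

theorem tv_coe {i j : Fin n} (h : i ≠ j) (c : F) :
    (tv i j c : Matrix (Fin n) (Fin n) F) = Matrix.transvection i j c := by
  have h1 : Matrix.transvection i j c * Matrix.transvection i j (-c) = 1 ∧
      Matrix.transvection i j (-c) * Matrix.transvection i j c = 1 := by
    rw [Matrix.transvection_mul_transvection_same _ _ h, Matrix.transvection_mul_transvection_same _ _ h,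
      add_neg_cancel, neg_add_cancel, Matrix.transvection_zero]
    exact ⟨rfl, rfl⟩
  rw [tv, dif_pos h1]

theorem tv_apply {i j : Fin n} (h : i ≠ j) (c : F) (a b : Fin n) :
    (tv i j c : Matrix (Fin n) (Fin n) F) a b =
      (1 : Matrix (Fin n) (Fin n) F) a b + if a = i ∧ b = j then c else 0 := by
  rw [tv_coe h, Matrix.transvection, Matrix.add_apply, Matrix.single_apply]
  congr 1
  by_cases h1 : i = a ∧ j = b
  · rw [if_pos h1, if_pos ⟨h1.1.symm, h1.2.symm⟩]
  · rw [if_neg h1, if_neg (fun h2 => h1 ⟨h2.1.symm, h2.2.symm⟩)]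

theorem mv_tv {i j : Fin n} (h : i ≠ j) (c : F) (v : Fin n → F) :
    mv (tv i j c) v = v + (c * v j) • sv i := by
  rw [mv, tv_coe h, Matrix.transvection, Matrix.add_mulVec, Matrix.one_mulVec, sv, Matrix.single_mulVec]
  congr 1
  ext k
  rw [Pi.smul_apply, smul_eq_mul]
  by_cases hk : k = i
  · subst hk
    rw [Function.update_self, Pi.single_eq_same, mul_one]
  · rw [Function.update_of_ne hk, Pi.single_eq_of_ne hk, mul_zero]
    rfl

theorem sl_gen (X : Subgroup (GL (Fin n) F)) (h : ∀ i j : Fin n, i ≠ j → ∀ c, tv i j c ∈ X) :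
    SLg n F ≤ X := by
  intro g hg
  rcases subsingleton_or_nontrivial (Fin n) with hs | hs
  · have hg1 : g = 1 := by
      apply Units.ext
      rw [Units.val_one]
      ext a b
      obtain rfl : a = b := Subsingleton.elim a b
      rw [mem_SLg] at hg
      rw [Matrix.one_apply_eq, ← hg]
      exact (Matrix.det_eq_elem_of_subsingleton _ a).symm
    rw [hg1]
    exact X.one_mem
  · have hd : ∀ (i j : Fin n) (hij : i ≠ j) (a : F), a ≠ 0 → ∀ v : Fin n → F,
        mv (tv i j a * tv j i (-a⁻¹) * tv i j a * tv i j (-1) * tv j i 1 * tv i j (-1)) v =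
          fun k => if k = i then a * v i else if k = j then a⁻¹ * v j else v k := by
      intro i j hij a ha v
      simp only [mv_mul, mv_tv hij, mv_tv hij.symm]
      ext k
      simp only [Pi.add_apply, Pi.smul_apply, smul_eq_mul, sv, Pi.single_apply, hij, if_true, if_false]
      by_cases hk : k = i
      · subst hk
        simp only [if_true, hij, hij.symm, if_false]
        field_simp
        ring
      · by_cases hk' : k = j
        · subst hk'
          simp only [hk, if_true, if_false]
          field_simp
          ring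
        · simp only [hk, hk', if_false]
          ring
    have hA : ∀ A : Matrix.SpecialLinearGroup (Fin n) F, ∀ u : GL (Fin n) F,
        (u : Matrix (Fin n) (Fin n) F) = (A : Matrix (Fin n) (Fin n) F) → u ∈ X := by
      intro A
      induction A using Matrix.SpecialLinearGroup.diagonal_transvection_induction' with
      | hdiag i j hij hc =>
        rename_i c
        intro u hu
        have h1 : u = tv i j c * tv j i (-c⁻¹) * tv i j c * tv i j (-1) * tv j i 1 * tv i j (-1) := by
          apply mv_ext
          intro l
          rw [hd i j hij c hc, mv, hu, Matrix.SpecialLinearGroup.diag2n_coe]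
          ext k
          rw [Matrix.mulVec_diagonal]
          by_cases hk : k = i
          · rw [if_pos hk, if_pos hk, hk]
          · rw [if_neg hk, if_neg hk]
            by_cases hk' : k = j
            · rw [if_pos hk', if_pos hk', hk']
            · rw [if_neg hk', if_neg hk', one_mul]
        rw [h1]
        exact X.mul_mem (X.mul_mem (X.mul_mem (X.mul_mem (X.mul_mem (h i j hij _) (h j i hij.symm _)) (h i j hij _))
          (h i j hij _)) (h j i hij.symm _)) (h i j hij _)
      | htransvec i j hij a =>
        intro u hu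
        have h1 : u = tv i j a := by
          apply Units.ext
          rw [hu, tv_coe hij]
          rfl
        rw [h1]
        exact h i j hij a
      | hmul A B hA hB =>
        intro u hu
        have h1 : u = Matrix.SpecialLinearGroup.toGL A * Matrix.SpecialLinearGroup.toGL B := by
          apply Units.ext
          rw [hu, Units.val_mul]
          rfl
        rw [h1]
        exact X.mul_mem (hA _ rfl) (hB _ rfl)
    exact hA ⟨(g : Matrix (Fin n) (Fin n) F), hg⟩ g rfl

end

end AO.N04_aux

namespace AO.MG

noncomputable section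

open Classical Equiv Matrix

open AN (sq)

variable {n : ℕ} {F : Type} [Field F]

theorem mo_gen (w : Perm (Fin n)) (c : Fin n → Fˣ) :
    mo w c ∈ NN (gls F) (DG (Fin n) F) := by
  have h1 : (mo w c : GL (Fin n) F) = mo w 1 * mo 1 c := by
    rw [mo_mul, mul_one]
    congr 1
    ext j
    rw [Pi.one_apply, one_mul]
  rw [h1]
  refine Subgroup.mul_mem _ ?_ (Subgroup.subset_closure (Or.inr (mo_DG c)))
  have hmul : ∀ w w' : Perm (Fin n), (mo (w * w') 1 : GL (Fin n) F) = mo w 1 * mo w' 1 := by
    intro w w'
    rw [mo_mul]
    congr 1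
    ext j
    rw [Pi.one_apply, Pi.one_apply, one_mul]
  obtain _ | m := n
  · have h2 : w = 1 := Equiv.ext fun x => x.elim0
    rw [h2, mo_one]
    exact Subgroup.one_mem _
  · have hw : w ∈ Submonoid.closure (Set.range fun i : Fin m ↦ swap i.castSucc i.succ) := by
      rw [Equiv.Perm.mclosure_swap_castSucc_succ]
      exact Submonoid.mem_top w
    refine Submonoid.closure_induction (motive := fun w _ => (mo w 1 : GL (Fin (m + 1)) F) ∈
      NN (gls F) (DG (Fin (m + 1)) F)) ?_ ?_ ?_ hw
    · rintro _ ⟨i, rfl⟩
      refine Subgroup.subset_closure (Or.inl ⟨i.succ, ?_⟩)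
      have h3 : 0 < ((i.succ : Fin (m + 1)) : ℕ) := Nat.succ_pos _
      have h4 : pr i.succ = i.castSucc := Fin.ext (Nat.succ_sub_one _)
      rw [gls, if_pos h3, h4]
    · rw [mo_one]
      exact Subgroup.one_mem _
    · intro x y _ _ hx hy
      rw [hmul]
      exact Subgroup.mul_mem _ hx hy

theorem gl_gen [Finite F] : (⊤ : Subgroup (GL (Fin n) F)) ≤
    Subgroup.closure (((GS F gr : Subgroup (GL (Fin n) F)) : Set (GL (Fin n) F)) ∪
      (DG (Fin n) F : Set (GL (Fin n) F)) ∪ Set.range (gls F)) := by
  intro g _
  set X : Subgroup (GL (Fin n) F) := Subgroup.closure (((GS F gr : Subgroup (GL (Fin n) F)) : Set (GL (Fin n) F)) ∪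
      (DG (Fin n) F : Set (GL (Fin n) F)) ∪ Set.range (gls F)) with hX
  have hG : GS F gr ≤ X := fun x hx => Subgroup.subset_closure (Or.inl (Or.inl hx))
  have hD : DG (Fin n) F ≤ X := fun x hx => Subgroup.subset_closure (Or.inl (Or.inr hx))
  have hN : NN (gls F) (DG (Fin n) F) ≤ X := by
    refine (Subgroup.closure_le _).2 ?_
    rintro x (hx | hx)
    · exact Subgroup.subset_closure (Or.inr hx)
    · exact hD hx
  have hlow : ∀ i j : Fin n, j < i → ∀ c : F, CF.tv i j c ∈ X := by
    intro i j hij c
    refine hG (mem_GS.2 ?_)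
    intro a b hab
    rw [N04_aux.tv_apply hij.ne', if_neg, add_zero]
    rintro ⟨rfl, rfl⟩
    refine hab ?_
    have h1 : (b : ℕ) < (a : ℕ) := hij
    show -(((a : ℕ) : ℤ) + 1) < -(((b : ℕ) : ℤ) + 1)
    omega
  have htv : ∀ i j : Fin n, i ≠ j → ∀ c : F, CF.tv i j c ∈ X := by
    intro i j hij c
    rcases lt_or_gt_of_ne hij with h | h
    · have h1 : CF.tv i j c = mo (swap i j) 1 * CF.tv j i c * (mo (swap i j) 1)⁻¹ := by
        apply Units.ext
        ext a b
        have h2 := mo_conj' (swap i j) (1 : Fin n → Fˣ) (CF.tv j i c : GL (Fin n) F) (swap i j a) (swap i j b)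
        rw [Equiv.swap_apply_self, Equiv.swap_apply_self] at h2
        rw [h2, N04_aux.tv_apply hij, N04_aux.tv_apply hij.symm, Pi.one_apply, Pi.one_apply, inv_one, Units.val_one,
          one_mul, mul_one]
        congr 1
        · by_cases hab : a = b
          · rw [hab, Matrix.one_apply_eq, Matrix.one_apply_eq]
          · rw [Matrix.one_apply_ne hab, Matrix.one_apply_ne (fun h' => hab ((swap i j).injective h'))]
        · have h3 : (swap i j a = j ∧ swap i j b = i) ↔ (a = i ∧ b = j) := by
            rw [Equiv.swap_apply_eq_iff, Equiv.swap_apply_eq_iff, Equiv.swap_apply_right, Equiv.swap_apply_left]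
          by_cases h4 : a = i ∧ b = j
          · rw [if_pos h4, if_pos (h3.2 h4)]
          · rw [if_neg h4, if_neg (fun h' => h4 (h3.1 h'))]
      rw [h1]
      exact X.mul_mem (X.mul_mem (hN (mo_gen _ _)) (hlow j i h c)) (X.inv_mem (hN (mo_gen _ _)))
    · exact hlow i j h c
  have hSL : CF.SLg n F ≤ X := N04_aux.sl_gen X htv
  obtain _ | m := n
  · have h1 : g = 1 := by
      apply Units.ext
      ext a
      exact a.elim0
    rw [h1]
    exact X.one_mem
  · set d : Fˣ := Matrix.GeneralLinearGroup.det g with hd
    have hdi : Matrix.GeneralLinearGroup.det (di 0 d : GL (Fin (m + 1)) F) = d := by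
      apply Units.ext
      show ((di 0 d : GL (Fin (m + 1)) F) : Matrix (Fin (m + 1)) (Fin (m + 1)) F).det = d
      rw [di, mo_det, Equiv.Perm.sign_one, Finset.prod_eq_single (0 : Fin (m + 1))]
      · rw [Function.update_self, Units.val_one, Int.cast_one, one_mul]
      · intro b _ hb
        rw [Function.update_of_ne hb, Pi.one_apply, Units.val_one]
      · exact fun h => absurd (Finset.mem_univ _) h
    have h1 : g * (di 0 d)⁻¹ ∈ CF.SLg (m + 1) F := by
      rw [CF.mem_SLg]
      have h2 : Matrix.GeneralLinearGroup.det (g * (di 0 d)⁻¹) = 1 := by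
        rw [map_mul, map_inv, hdi, ← hd, mul_inv_cancel]
      have h3 := congrArg (fun x : Fˣ => (x : F)) h2
      exact h3
    have h2 : g = g * (di 0 d)⁻¹ * di 0 d := by rw [inv_mul_cancel_right]
    rw [h2]
    exact X.mul_mem (hSL h1) (hD (mo_DG _))

end

end AO.MG
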