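import Pool.Agent.AO.N01

/-!
# MP_6c3636_al, AO, module N05: the dichotomy for the general linear group (helper7)

`gl_NN`: `Subgroup.closure_induction` with `mo_mul`, `mo_inv`, `gls_mo`, `DG_mo`. `gl_di`: `m = mo w c`; for `l = 0`: `glR_zero`. For `l > 0`: `gr (w.symm l) < gr (w.symm (pr l))` (then `gl_PO`) or `>`; `gls F l * m = mo (swap (pr l) l * w) _`, whose inverse maps `l` to `w.symm (pr l)`.
-/

namespace AO.MG

noncomputable section

open Classical Equiv Matrix

open AN (sq)

variable {n : ℕ} {F : Type} [Field F]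

theorem gl_NN {m : GL (Fin n) F} (hm : m ∈ NN (gls F) (DG (Fin n) F)) :
    ∃ (w : Perm (Fin n)) (c : Fin n → Fˣ), m = mo w c := by
  unfold NN at hm
  induction hm using Subgroup.closure_induction with
  | mem x hx =>
    rcases hx with ⟨l, rfl⟩ | hx
    · exact ⟨_, _, gls_mo l⟩
    · obtain ⟨c, hc⟩ := DG_mo hx
      exact ⟨_, _, hc⟩
  | one => exact ⟨1, 1, mo_one.symm⟩
  | mul x y _ _ hx hy =>
    obtain ⟨w, c, rfl⟩ := hx
    obtain ⟨w', c', rfl⟩ := hy
    exact ⟨_, _, mo_mul w w' c c'⟩
  | inv x _ hx =>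
    obtain ⟨w, c, rfl⟩ := hx
    exact ⟨_, _, mo_inv w c⟩

theorem gl_di [Finite F] {m : GL (Fin n) F} (hm : m ∈ NN (gls F) (DG (Fin n) F)) (l : Fin n) :
    PO (GS F gr) (glR F l) m ∨ PO (GS F gr) (glR F l) (gls F l * m) := by
  obtain ⟨w, c, rfl⟩ := gl_NN hm
  by_cases hl : 0 < (l : ℕ)
  · have hne : w.symm l ≠ w.symm (pr l) := by
      intro h
      have h1 := congrArg Fin.val (w.symm.injective h)
      have h2 : ((pr l : Fin n) : ℕ) = (l : ℕ) - 1 := rfl
      omega
    have hgr : gr (w.symm l) ≠ gr (w.symm (pr l)) := by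
      intro h
      apply hne
      apply Fin.ext
      unfold gr at h
      omega
    rcases lt_or_gt_of_ne hgr with h | h
    · exact Or.inl (gl_PO l fun _ => h)
    · right
      rw [gls_mo, if_pos hl, mo_mul]
      apply gl_PO
      intro _
      have e1 : (Equiv.swap (pr l) l * w).symm l = w.symm (pr l) := by
        rw [Equiv.symm_apply_eq, Equiv.Perm.mul_apply, Equiv.apply_symm_apply, Equiv.swap_apply_left]
      have e2 : (Equiv.swap (pr l) l * w).symm (pr l) = w.symm l := by
        rw [Equiv.symm_apply_eq, Equiv.Perm.mul_apply, Equiv.apply_symm_apply, Equiv.swap_apply_right]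
      rw [e1, e2]
      exact h
  · left
    intro r hr
    rw [glR_zero (by omega), Subgroup.mem_bot] at hr
    rw [hr, mul_one, inv_mul_cancel]
    exact one_mem _

end

end AO.MG
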