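import Pool.Agent.AO.N06

/-!
# MP_6c3636_al, AO, module N07: characters of the torus of the special linear group (helper7)

Let `h i x = di 0 x⁻¹ * di i x` for `i ≠ 0` (with `0 = ⟨0, hn⟩`), in `DG ⊓ DT`. `x ↦ f (h i x)` is a homomorphism `Fˣ → {1, -1}`, so it is trivial or `ch` (`ch_hom` for `RingEquiv.refl F`). Let `a i = true` if it is not trivial, `a 0 = false`. An element `x ∈ DG ⊓ DT` is the product of the `h i (x i i)`, `i ≠ 0` (`DG_ext`; the entry at `0` is the inverse of the product of the others). `gl_tw`: on `h i x` with `ch x = -1` the values are `-1` if and only if `a i ≠ a 0`.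
-/

namespace AO.MG

noncomputable section

open Classical Equiv Matrix

open AN (sq)

variable {n : ℕ} {F : Type} [Field F]

variable [Finite F]

namespace N07_aux

omit [Finite F] in
theorem mo_one_mul (c c' : Fin n → Fˣ) : (mo 1 (c * c') : GL (Fin n) F) = mo 1 c * mo 1 c' := by
  rw [mo_mul]
  congr 1

/-- the exponent corrected to determinant one -/
def cor (i0 : Fin n) (c : Fin n → Fˣ) : Fin n → Fˣ := c * Pi.mulSingle i0 (∏ i, c i)⁻¹

omit [Finite F] in
theorem cor_mul (i0 : Fin n) (c c' : Fin n → Fˣ) : cor i0 (c * c') = cor i0 c * cor i0 c' := by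
  unfold cor
  have h1 : ∏ i, (c * c') i = (∏ i, c i) * ∏ i, c' i := by
    simp only [Pi.mul_apply]
    exact Finset.prod_mul_distrib
  rw [h1, mul_inv, Pi.mulSingle_mul]
  exact mul_mul_mul_comm _ _ _ _

omit [Finite F] in
theorem cor_prod (i0 : Fin n) (c : Fin n → Fˣ) : ∏ i, cor i0 c i = 1 := by
  unfold cor
  simp only [Pi.mul_apply]
  rw [Finset.prod_mul_distrib, Finset.prod_pi_mulSingle']
  simp

omit [Finite F] in
theorem cor_eq (i0 : Fin n) {c : Fin n → Fˣ} (h : ∏ i, c i = 1) : cor i0 c = c := by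
  unfold cor
  rw [h, inv_one, Pi.mulSingle_one, mul_one]

omit [Finite F] in
theorem mo_one_mem {c : Fin n → Fˣ} (h : ∏ i, c i = 1) :
    (mo 1 c : GL (Fin n) F) ∈ DG (Fin n) F ⊓ DT (Fin n) F := by
  refine ⟨mo_DG c, mem_DT.2 ?_⟩
  rw [mo_det]
  have h1 : ∏ i, (c i : F) = 1 := by
    rw [← Units.coe_prod, h, Units.val_one]
  rw [h1, Equiv.Perm.sign_one, Units.val_one, Int.cast_one, one_mul]

omit [Finite F] in
theorem mem_prod {c : Fin n → Fˣ} (h : (mo 1 c : GL (Fin n) F) ∈ DG (Fin n) F ⊓ DT (Fin n) F) :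
    ∏ i, c i = 1 := by
  have h1 := mem_DT.1 h.2
  rw [mo_det, Equiv.Perm.sign_one, Units.val_one, Int.cast_one, one_mul] at h1
  apply Units.ext
  rw [Units.coe_prod, h1, Units.val_one]

/-- the homomorphism -/
def fh (i0 : Fin n) {f : GL (Fin n) F → ℤˣ}
    (hf : ∀ x ∈ DG (Fin n) F ⊓ DT (Fin n) F, ∀ y ∈ DG (Fin n) F ⊓ DT (Fin n) F, f (x * y) = f x * f y) :
    (Fin n → Fˣ) →* ℤˣ :=
  MonoidHom.mk' (fun c => f (mo 1 (cor i0 c))) (by
    intro c c'
    show f (mo 1 (cor i0 (c * c'))) = _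
    rw [cor_mul, mo_one_mul]
    exact hf _ (mo_one_mem (cor_prod i0 c)) _ (mo_one_mem (cor_prod i0 c')))

omit [Finite F] in
theorem glth_mo (a : Fin n → Bool) (c : Fin n → Fˣ) :
    glth a (mo 1 c) = ∏ i, if a i = true then ch (RingEquiv.refl F) (c i : F) else 1 := by
  unfold glth
  refine Finset.prod_congr rfl fun i _ => ?_
  rw [mo_apply, Equiv.Perm.one_apply, if_pos rfl]

omit [Finite F] in
theorem un_coe {x : F} (h : x ≠ 0) : ((un x : Fˣ) : F) = x := by
  unfold un
  rw [dif_pos h, Units.val_mk0]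

omit [Finite F] in
theorem un_mul {x y : F} (hx : x ≠ 0) (hy : y ≠ 0) : un (x * y) = un x * un y := by
  apply Units.ext
  rw [Units.val_mul, un_coe hx, un_coe hy, un_coe (mul_ne_zero hx hy)]

omit [Finite F] in
theorem un_val (u : Fˣ) : un (u : F) = u := by
  apply Units.ext
  rw [un_coe u.ne_zero]

theorem di_mem (i j : Fin n) (x : Fˣ) : di i x * di j x⁻¹ ∈ DG (Fin n) F ⊓ DT (Fin n) F := by
  refine ⟨mul_mem (mo_DG _) (mo_DG _), mem_DT.2 ?_⟩
  rw [Units.val_mul, Matrix.det_mul]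
  unfold di
  rw [mo_det, mo_det]
  have h1 : ∀ (i : Fin n) (x : Fˣ), ∏ k, ((Function.update (1 : Fin n → Fˣ) i x k : Fˣ) : F) = x := by
    intro i x
    rw [Finset.prod_eq_single i]
    · rw [Function.update_self]
    · intro k _ hk
      rw [Function.update_of_ne hk, Pi.one_apply, Units.val_one]
    · exact fun h => absurd (Finset.mem_univ _) h
  rw [h1, h1, Equiv.Perm.sign_one, Units.val_one, Int.cast_one, one_mul, one_mul, ← Units.val_mul,
    mul_inv_cancel, Units.val_one]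

theorem glth_two (h2 : (2 : F) ≠ 0) (a : Fin n → Bool) (i j : Fin n) {x : Fˣ}
    (hx : ch (RingEquiv.refl F) (x : F) = -1) :
    glth a (di i x * di j x⁻¹) = (if a i = true then -1 else 1) * (if a j = true then -1 else 1) := by
  have e : ((x⁻¹ : Fˣ) : F) = (x : F)⁻¹ := Units.val_inv_eq_inv_val x
  have h1 : ∀ (i : Fin n) (x : Fˣ), di i x ∈ DG (Fin n) F := fun i x => mo_DG _
  rw [glth_mul h2 a (h1 i x) (h1 j x⁻¹), glth_di, glth_di, e, ch_inv h2 rfl, hx]

end N07_aux

open N07_aux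

theorem gl_re (h2 : (2 : F) ≠ 0) (hn : 0 < n) {f : GL (Fin n) F → ℤˣ}
    (hf : ∀ x ∈ DG (Fin n) F ⊓ DT (Fin n) F, ∀ y ∈ DG (Fin n) F ⊓ DT (Fin n) F, f (x * y) = f x * f y) :
    ∃ a, ∀ x ∈ DG (Fin n) F ⊓ DT (Fin n) F, f x = glth a x := by
  have key : ∀ i : Fin n, ∃ b : Bool, ∀ u : Fˣ, fh ⟨0, hn⟩ hf (Pi.mulSingle i u) =
      if b = true then ch (RingEquiv.refl F) (u : F) else 1 := by
    intro i
    have h1 := ch_hom (τ := RingEquiv.refl F) h2 (f := fun x => fh ⟨0, hn⟩ hf (Pi.mulSingle i (un x)))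
      (by
        intro x y _ hx _ hy
        show fh ⟨0, hn⟩ hf (Pi.mulSingle i (un (x * y))) = _
        rw [un_mul hx hy, Pi.mulSingle_mul, map_mul])
    rcases h1 with h1 | h1
    · refine ⟨false, fun u => ?_⟩
      have h3 := h1 (u : F) rfl u.ne_zero
      rw [if_neg (by decide)]
      have h4 : fh ⟨0, hn⟩ hf (Pi.mulSingle i (un (u : F))) = 1 := h3
      rwa [un_val] at h4
    · refine ⟨true, fun u => ?_⟩
      have h3 := h1 (u : F) rfl u.ne_zero
      rw [if_pos rfl]
      have h4 : fh ⟨0, hn⟩ hf (Pi.mulSingle i (un (u : F))) = ch (RingEquiv.refl F) (u : F) := h3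
      rwa [un_val] at h4
  choose a ha using key
  refine ⟨a, fun x hx => ?_⟩
  obtain ⟨c, rfl⟩ := DG_mo hx.1
  have h3 : fh ⟨0, hn⟩ hf c = f (mo 1 c) := by
    show f (mo 1 (cor ⟨0, hn⟩ c)) = _
    rw [cor_eq _ (mem_prod hx)]
  rw [← h3, glth_mo]
  have h4 : c = ∏ i, Pi.mulSingle i (c i) := (Finset.univ_prod_mulSingle c).symm
  conv_lhs => rw [h4]
  rw [map_prod]
  exact Finset.prod_congr rfl fun i _ => ha i (c i)

theorem gl_tw (h2 : (2 : F) ≠ 0) {a b : Fin n → Bool}
    (h : ∀ x ∈ DG (Fin n) F ⊓ DT (Fin n) F, glth a x = glth b x) : b = a ∨ b = fun i => !(a i) := by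
  obtain ⟨x, _, hx0, hx⟩ := exists_ch h2 (RingEquiv.refl F)
  have key : ∀ i j : Fin n, (if a i = true then (-1 : ℤˣ) else 1) * (if a j = true then -1 else 1) =
      (if b i = true then -1 else 1) * (if b j = true then -1 else 1) := by
    intro i j
    have h1 := h _ (di_mem i j (Units.mk0 x hx0))
    rwa [glth_two h2 a i j (by rw [Units.val_mk0]; exact hx), glth_two h2 b i j (by rw [Units.val_mk0]; exact hx)] at h1
  have key2 : ∀ p q r s : Bool, (if p = true then (-1 : ℤˣ) else 1) * (if q = true then -1 else 1) =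
      (if r = true then -1 else 1) * (if s = true then -1 else 1) → s = q → r = p := by
    decide
  have key3 : ∀ p q r s : Bool, (if p = true then (-1 : ℤˣ) else 1) * (if q = true then -1 else 1) =
      (if r = true then -1 else 1) * (if s = true then -1 else 1) → s ≠ q → r = !p := by
    decide
  rcases Nat.eq_zero_or_pos n with hn | hn
  · subst hn
    exact Or.inl (Subsingleton.elim _ _)
  · by_cases hb : b ⟨0, hn⟩ = a ⟨0, hn⟩
    · left
      funext i
      exact key2 _ _ _ _ (key i ⟨0, hn⟩) hb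
    · right
      funext i
      exact key3 _ _ _ _ (key i ⟨0, hn⟩) hb

end

end AO.MG
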