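import Pool.Agent.AO.N02
import Pool.Agent.AO.N04
import Pool.Agent.AO.N05
import Pool.Agent.AO.N07

/-!
# MP_6c3636_al, AO, module N08: the BN-pair of the general linear group (helper7)

Assembly of N01 to N07. `pU`: `GS_pow`. `HT`: `g = h * di 0 (det g)` for `n > 0`. `b2`: `gls F k = 1` and `glR_zero` (for `k = 0`). `es`: `glR_zero`. `ntN`: `1 = gls F k * 1` for `k = 0`. `hU`: `gl_rank`.
-/

namespace AO.MG

noncomputable section

open Classical Equiv Matrix

open AN (sq)

variable {n : ℕ} {F : Type} [Field F]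

variable [Finite F]

private theorem N08_gls0 {k : Fin n} (hk : (k : ℕ) = 0) : gls F k = 1 := by
  unfold gls
  rw [if_neg (by omega)]

private theorem N08_DG_conj (i : Fin n) {x : GL (Fin n) F} (hx : x ∈ DG (Fin n) F) :
    gls F i * x * (gls F i)⁻¹ ∈ DG (Fin n) F ∧ (gls F i)⁻¹ * x * gls F i ∈ DG (Fin n) F := by
  rw [gls_mo]
  exact mo_conj_DG _ _ hx

private theorem N08_glth_one (h2 : (2 : F) ≠ 0) (a : Fin n → Bool) : glth a (1 : GL (Fin n) F) = 1 := by
  have h := glth_mul h2 a (one_mem (DG (Fin n) F)) (one_mem (DG (Fin n) F))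
  rw [mul_one] at h
  exact (left_eq_mul.1 h)

/-- the BN-pair of the general linear group -/
def glB (n : ℕ) (F : Type) [Field F] [Finite F] (h2 : (2 : F) ≠ 0) (hn : 0 < n) {p : ℕ} [CharP F p]
    (hp : p.Prime) (ho : Odd p) : BNin (⊤ : Subgroup (GL (Fin n) F)) n where
  pc := p
  U := GS F gr
  T := DG (Fin n) F
  H := DT (Fin n) F
  s := gls F
  C := fun l => GS F (gy (l : ℕ))
  R := glR F
  hh := fun l g => glh l (un (gle l (g : Matrix (Fin n) (Fin n) F)))
  th := glth
  gd := true
  sn := fun b => if b = true then ch (RingEquiv.refl F) (-1 : F) else 1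
  ze := fun _ => 1
  su := fun _ => 0
  nt := 1
  prime := hp
  odd := ho
  UI := le_top
  TI := le_top
  HI := le_top
  sI := fun _ => Subgroup.mem_top _
  pU := by
    intro u hu
    exact GS_pow hp hu
  hN := by
    intro g _ h hh
    exact (inferInstance : ((Matrix.GeneralLinearGroup.det : GL (Fin n) F →* Fˣ).ker).Normal).conj_mem h hh g
  UH := GS_le_DT
  HT := by
    intro g _
    have hd : di (⟨0, hn⟩ : Fin n) (Matrix.GeneralLinearGroup.det g) ∈ DG (Fin n) F := mo_DG _
    refine ⟨g * (di ⟨0, hn⟩ (Matrix.GeneralLinearGroup.det g))⁻¹, ?_, _, hd, by rw [inv_mul_cancel_right]⟩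
    have h1 : Matrix.GeneralLinearGroup.det (di (⟨0, hn⟩ : Fin n) (Matrix.GeneralLinearGroup.det g)) =
        Matrix.GeneralLinearGroup.det g := by
      apply Units.ext
      show (di (⟨0, hn⟩ : Fin n) (Matrix.GeneralLinearGroup.det g) : Matrix (Fin n) (Fin n) F).det = _
      unfold di
      rw [mo_det]
      rw [Finset.prod_eq_single (⟨0, hn⟩ : Fin n)]
      · rw [Function.update_self, Equiv.Perm.sign_one, Units.val_one, Int.cast_one, one_mul]
      · intro b _ hb
        rw [Function.update_of_ne hb, Pi.one_apply, Units.val_one]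
      · exact fun h => absurd (Finset.mem_univ _) h
    show Matrix.GeneralLinearGroup.det (g * (di ⟨0, hn⟩ (Matrix.GeneralLinearGroup.det g))⁻¹) = 1
    rw [map_mul, map_inv, h1, mul_inv_cancel]
  Tc := by
    intro x hx y hy
    exact DG_comm hx hy
  TU := by
    intro x hx u hu
    exact DG_GS_conj hx hu
  sT := by
    intro i x hx
    exact (N08_DG_conj i hx).1
  sT' := by
    intro i x hx
    exact (N08_DG_conj i hx).2
  s2 := by
    intro i
    rw [gls_sq]
    exact one_mem _
  s2o := by
    intro i _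
    exact gls_sq i
  CU := by
    intro i
    exact gy_le i
  RU := by
    intro i
    exact inf_le_left
  TR := by
    intro i x hx r hr
    exact gl_TR i hx hr
  CR := by
    intro i u hu
    exact gl_CR i hu
  CRd := by
    intro i r hr hc
    exact gl_CRd hr hc
  sC := by
    intro i c hc
    exact gy_le i (gl_sC i hc)
  hT := by
    intro i r _ _
    exact glh_DG _ _
  hU := by
    intro i r hr hr1
    by_cases hi : 0 < (i : ℕ)
    · obtain ⟨x, rfl⟩ := (glR_iff hi).1 hr
      have hx : x ≠ 0 := fun h => hr1 ((glr_one hi).2 h)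
      have h3 : glr i x⁻¹ ∈ glR F i := (glR_iff hi).2 ⟨_, rfl⟩
      refine ⟨glr i x⁻¹, inf_le_left (a := GS F gr) h3, glr i x⁻¹, h3, ?_⟩
      rw [gle_glr hi]
      exact gl_rank hi hx
    · rw [glR_zero (by omega), Subgroup.mem_bot] at hr
      exact absurd hr hr1
  gen := gl_gen
  di := by
    intro m hm i
    exact gl_di hm i
  thm := by
    intro a x hx y hy
    exact glth_mul h2 a hx hy
  thd := by
    intro a b h
    exact glth_ext h2 h
  ths := by
    intro k l hl a x hx
    exact glth_s hl a hx
  th0 := by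
    intro k hk a x _
    rw [N08_gls0 hk, one_mul, inv_one, mul_one]
  thn := by
    intro a x _
    exact glth_not a x
  sn0 := if_neg Bool.false_ne_true
  sum := by
    intro k l hl a
    exact gl_sum h2 hl a
  ez := by
    intro k _ a
    rw [gls_sq]
    exact N08_glth_one h2 a
  es := by
    intro k hk a
    unfold rsum
    apply finsum_eq_zero_of_forall_eq_zero
    rintro ⟨r, hr⟩
    rw [glR_zero hk, Subgroup.mem_bot] at hr
    exact if_pos hr
  ze0 := rfl
  ze1 := fun _ => rfl
  ze2 := fun h => absurd h.symm Bool.false_ne_true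
  far := by
    intro i j h
    exact ⟨gls_comm h, gl_far h⟩
  adj := by
    intro k l hl hk
    exact ⟨gls_braid hl hk, gl_adj hl hk⟩
  b2 := by
    intro k l hk _
    exact Or.inl ⟨N08_gls0 hk, glR_zero hk⟩
  ntN := by
    intro k hk
    exact ⟨1, one_mem _, by rw [N08_gls0 hk, one_mul]⟩
  ntH := one_mem _
  re := by
    intro f hf
    exact Or.inl (gl_re h2 hn hf)
  tw := by
    intro a b h
    exact gl_tw h2 h

end

end AO.MG
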