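import Pool.Agent.AO.N08
import Pool.Agent.AO.G01
import Pool.Agent.AO.Z01
import Pool.Agent.CF.Defs

/-!
# MP_6c3636_al, AO, module N09: (A) and (B) for special linear groups in odd characteristic (helper7)

`B = (glB n F ..).toBN`, `k = ℚ`, `P`: `q = Nat.card F`, `e = 1`, `j = 0`, `w = 1` (`Nat.card F` is odd and at least `3`; `Algebra ℚ ℝ`, `Algebra ℚ Ω`). `Fit`: `card`: `card_in`, `card_glR`. `sum`, `prod`: `Nat.card (R 0) = 1` (`glR_zero`), the eigenvalues are `1`, `-1`, `su = 0`. `half`: second alternative with `la g = ch refl (det g)` (a homomorphism by `ch_mul`; on the torus: the determinant is the product of the diagonal entries), `la (s 0) = 1` as `s 0 = 1`. `FixOK`: `R₀ = 1`; automorphisms fix the rational numbers; `gd = true`. `bn_propA`, `bn_propB` (Z01), `propA_in`, `propB_in` (G01) for `H = DT (Fin n) F`; `DT (Fin n) F = CF.SLg n F` (`mem_DT`, `CF.mem_SLg`).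
-/

namespace AO.MG

noncomputable section

open Classical Equiv Matrix

open AN (sq)


namespace N09_aux

section Par

/-- the parameters of the general linear group -/
def gp (F : Type) [Field F] (h3 : 3 ≤ Nat.card F) (ho : Odd (Nat.card F)) : Par ℚ where
  q := Nat.card F
  e := 1
  j := fun _ => 0
  w := fun _ => 1
  three := h3
  odd := ho
  pos := Nat.one_pos
  ne := fun _ => one_ne_zero

theorem gp_r (F : Type) [Field F] (h3 : 3 ≤ Nat.card F) (ho : Odd (Nat.card F)) (y : Ty) :
    (gp F h3 ho).r y = ((sg y : ℤ) : ℚ) := by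
  show (1 : ℚ) * ((sg y : ℤ) : ℚ) * ((Nat.card F : ℕ) : ℚ) ^ (0 : ℤ) = _
  rw [one_mul, zpow_zero, mul_one]

theorem sg_yp (b : Bool) : sg (yp b) = 1 := by
  cases b <;> decide

theorem sg_yn (b : Bool) : sg (yn b) = -1 := by
  cases b <;> decide

theorem sg_dl (y : Ty) : sg (dl2 y) = sg y := by
  revert y
  decide

end Par

section Field

variable (F : Type) [Field F] [Finite F]

theorem exists_char (h2 : (2 : F) ≠ 0) : ∃ (p : ℕ) (_ : CharP F p), p.Prime ∧ Odd p := by
  obtain ⟨p, hp⟩ := CharP.exists F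
  have hpp : p.Prime := CharP.char_is_prime F p
  refine ⟨p, hp, hpp, hpp.odd_of_ne_two ?_⟩
  rintro rfl
  exact h2 (by exact_mod_cast CharP.cast_eq_zero F 2)

theorem card_odd (h2 : (2 : F) ≠ 0) : Odd (Nat.card F) := by
  obtain ⟨p, hp, hpp, ho⟩ := exists_char F h2
  have := Fintype.ofFinite F
  obtain ⟨k, _, hk⟩ := FiniteField.card F p
  rw [Nat.card_eq_fintype_card, hk]
  exact ho.pow

theorem card_three (h2 : (2 : F) ≠ 0) : 3 ≤ Nat.card F := by
  have h1 : 1 < Nat.card F := Finite.one_lt_card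
  have h3 := card_odd F h2
  obtain ⟨k, hk⟩ := h3
  omega

end Field

section La

variable {n : ℕ} (F : Type) [Field F] [Finite F]

/-- the quadratic character of the determinant -/
def la (h2 : (2 : F) ≠ 0) : (⊤ : Subgroup (GL (Fin n) F)) →* ℤˣ where
  toFun g := ch (RingEquiv.refl F) ((g : GL (Fin n) F) : Matrix (Fin n) (Fin n) F).det
  map_one' := by
    rw [Subgroup.coe_one, Units.val_one, Matrix.det_one]
    exact ch_one
  map_mul' := by
    intro a b
    have h0 : ∀ g : GL (Fin n) F, (g : Matrix (Fin n) (Fin n) F).det ≠ 0 := by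
      intro g
      have h1 := (Matrix.isUnit_iff_isUnit_det (g : Matrix (Fin n) (Fin n) F)).1 g.isUnit
      exact h1.ne_zero
    rw [Subgroup.coe_mul, Units.val_mul, Matrix.det_mul]
    exact ch_mul h2 rfl (h0 _) rfl (h0 _)

theorem la_T (h2 : (2 : F) ≠ 0) {x : GL (Fin n) F} (hx : x ∈ DG (Fin n) F) :
    ch (RingEquiv.refl F) (x : Matrix (Fin n) (Fin n) F).det = glth (fun _ => true) x := by
  obtain ⟨c, rfl⟩ := DG_mo hx
  have h1 : ∀ s : Finset (Fin n), ch (RingEquiv.refl F) (∏ i ∈ s, (c i : F)) =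
      ∏ i ∈ s, ch (RingEquiv.refl F) (c i : F) := by
    intro s
    induction s using Finset.induction_on with
    | empty => rw [Finset.prod_empty, Finset.prod_empty]; exact ch_one
    | insert i s hi ih =>
      rw [Finset.prod_insert hi, Finset.prod_insert hi, ← ih]
      exact ch_mul h2 rfl (c i).ne_zero rfl (Finset.prod_ne_zero_iff.2 fun j _ => (c j).ne_zero)
  rw [mo_det, Equiv.Perm.sign_one, Units.val_one, Int.cast_one, one_mul, h1]
  unfold glth
  refine Finset.prod_congr rfl fun i _ => ?_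
  rw [if_pos rfl, mo_apply, if_pos (Equiv.Perm.one_apply i).symm]

theorem DT_eq : DT (Fin n) F = CF.SLg n F := by
  ext g
  rw [mem_DT, CF.mem_SLg]

end La

section Main

variable {n : ℕ} {F : Type} [Field F] [Finite F] (h2 : (2 : F) ≠ 0) (hn : 0 < n) {p : ℕ} [CharP F p]
  (hp : p.Prime) (ho : Odd p)

theorem gl_fit : Fit (glB n F h2 hn hp ho).toBN (gp F (card_three F h2) (card_odd F h2)) where
  card := fun l hl => by
    rw [card_in]
    show Nat.card (glR F l) = Nat.card F ^ 1
    rw [card_glR hl, pow_one]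
  sum := fun b _ i _ => by
    rw [gp_r, gp_r, sg_yp, sg_yn]
    show _ = ((0 : ℤ) : ℚ)
    push_cast
    ring
  prod := fun b _ i hi => by
    rw [gp_r, gp_r, sg_yp, sg_yn, card_in]
    have h1 : Nat.card ((glB n F h2 hn hp ho).R i) = 1 := by
      show Nat.card (glR F i) = 1
      rw [glR_zero hi, Subgroup.card_bot]
    rw [h1]
    push_cast
    ring
  half := Or.inr ⟨la F h2, fun h hh => by
      have h1 : (h : GL (Fin n) F) ∈ DT (Fin n) F := Subgroup.mem_subgroupOf.1 hh
      show ch (RingEquiv.refl F) ((h : GL (Fin n) F) : Matrix (Fin n) (Fin n) F).det = 1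
      rw [mem_DT.1 h1]
      exact ch_one,
    fun x hx => by
      have h1 : (x : GL (Fin n) F) ∈ DG (Fin n) F := Subgroup.mem_subgroupOf.1 hx
      exact la_T F h2 h1,
    fun y i hi => by
      have h1 : la F h2 ((glB n F h2 hn hp ho).toBN.s i) = 1 := by
        show ch (RingEquiv.refl F) ((gls F i : GL (Fin n) F) : Matrix (Fin n) (Fin n) F).det = 1
        have h3 : (gls F i : GL (Fin n) F) = 1 := if_neg (by omega)
        rw [h3, Units.val_one, Matrix.det_one]
        exact ch_one
      rw [gp_r, gp_r, sg_dl, h1]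
      push_cast
      ring⟩

theorem gl_fix (Ω : Type) [Field Ω] [CharZero Ω] : FixOK Ω (glB n F h2 hn hp ho).toBN ℚ :=
  ⟨1, odd_one, fun σ _ => ⟨fun x => by
      rw [eq_ratCast, map_ratCast], fun h => absurd h (by
      show ¬ (true = false)
      decide)⟩⟩

end Main

end N09_aux

variable {Ω : Type} [Field Ω] [IsAlgClosed Ω] [CharZero Ω] {c : Parker.Ctx Ω}

theorem gl_propA {n : ℕ} (hn : 0 < n) (F : Type) [Field F] [Finite F] (h2 : (2 : F) ≠ 0) :
    Parker.PropA c 1 (CF.SLg n F) := by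
  obtain ⟨p, hpc, hp, ho⟩ := N09_aux.exists_char F h2
  have h1 := propA_in (c := c) (glB n F h2 hn hp ho)
    (bn_propA (N09_aux.gl_fit h2 hn hp ho) hn (N09_aux.gl_fix h2 hn hp ho Ω))
  rw [← N09_aux.DT_eq F]
  exact h1

theorem gl_propB {n : ℕ} (hn : 0 < n) (F : Type) [Field F] [Finite F] (h2 : (2 : F) ≠ 0) :
    Parker.PropB c 1 (CF.SLg n F) := by
  obtain ⟨p, hpc, hp, ho⟩ := N09_aux.exists_char F h2
  have h1 := propB_in (c := c) (glB n F h2 hn hp ho)
    (bn_propB (N09_aux.gl_fit h2 hn hp ho) hn (N09_aux.gl_fix h2 hn hp ho Ω))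
  rw [← N09_aux.DT_eq F]
  exact h1

end

end AO.MG
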