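import Pool.Agent.AO.M04
import Mathlib.NumberTheory.GaussSum
import Mathlib.NumberTheory.LegendreSymbol.QuadraticChar.Basic
import Mathlib.FieldTheory.Finite.Trace
import Mathlib.FieldTheory.IsAlgClosed.Basic
import Mathlib.RingTheory.RootsOfUnity.AlgebraicallyClosed
import Mathlib.Algebra.CharP.Subring

/-!
# MP_6c3636_al, AO, module P00: Gauss sums (helper7)

Let `χ` be the quadratic character of `F` (`χ x = ch refl x` for `x ≠ 0`) and `ψ` a nontrivial additive character of `F` with values in the `p`-th roots of unity of `Ω` (for example `x ↦ ζ ^ (trace x)`, `ζ ≠ 1`, `ζ ^ p = 1`; primitive as `F` is a field). The Gauss sum `g = ∑ χ x * ψ x` satisfies `g ^ 2 = χ (-1) * card F` (Mathlib: `gaussSum_sq`) and is fixed by `σ`. So `z = g` or `z = - g`. `char_odd`: a finite field in which `2 ≠ 0` has odd prime characteristic and odd cardinality at least `3`.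
-/

namespace AO.MG

noncomputable section

open Classical Equiv Matrix

open AN (sq)

/-- a finite field in which `2 ≠ 0` does not have characteristic two -/
private theorem P00_rc {F : Type} [Field F] (h2 : (2 : F) ≠ 0) : ringChar F ≠ 2 := by
  intro h
  apply h2
  have h1 : ((ringChar F : ℕ) : F) = 0 := ringChar.Nat.cast_ringChar
  rw [h] at h1
  exact_mod_cast h1

/-- a nontrivial additive character with values in the `p`-th roots of unity -/
private theorem P00_ac {Ω : Type} [Field Ω] [IsAlgClosed Ω] [CharZero Ω] {F : Type} [Field F] [Finite F]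
    {p : ℕ} [hc : CharP F p] : ∃ ψ : AddChar F Ω, ψ ≠ 1 ∧ ∀ x, ψ x ^ p = 1 := by
  obtain rfl : p = ringChar F := ringChar.eq F p ▸ rfl
  have hp : (ringChar F).Prime := CharP.char_is_prime F _
  haveI : Fact (ringChar F).Prime := ⟨hp⟩
  haveI : NeZero (ringChar F) := ⟨hp.ne_zero⟩
  haveI : NeZero ((ringChar F : ℕ) : Ω) := ⟨Nat.cast_ne_zero.2 hp.ne_zero⟩
  letI : Algebra (ZMod (ringChar F)) F := ZMod.algebra F (ringChar F)
  obtain ⟨ζ, hζ⟩ : ∃ ζ : Ω, IsPrimitiveRoot ζ (ringChar F) := HasEnoughRootsOfUnity.exists_primitiveRoot Ω _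
  obtain ⟨b, hb⟩ := FiniteField.trace_to_zmod_nondegenerate F (a := (1 : F)) one_ne_zero
  rw [one_mul] at hb
  refine ⟨(AddChar.zmodChar (ringChar F) hζ.pow_eq_one).compAddMonoidHom
    (Algebra.trace (ZMod (ringChar F)) F).toAddMonoidHom, ?_, ?_⟩
  · intro h
    have h1 := DFunLike.congr_fun h b
    rw [AddChar.one_apply, AddChar.compAddMonoidHom_apply, AddChar.zmodChar_apply] at h1
    have h3 : ringChar F ∣ (Algebra.trace (ZMod (ringChar F)) F b).val := hζ.dvd_of_pow_eq_one _ h1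
    apply hb
    have h4 := Nat.eq_zero_of_dvd_of_lt h3 (ZMod.val_lt _)
    exact (ZMod.val_eq_zero _).1 h4
  · intro x
    rw [AddChar.compAddMonoidHom_apply, AddChar.zmodChar_apply, ← pow_mul, mul_comm, pow_mul, hζ.pow_eq_one,
      one_pow]

theorem gauss_fix {Ω : Type} [Field Ω] [IsAlgClosed Ω] [CharZero Ω] {F : Type} [Field F] [Finite F]
    (h2 : (2 : F) ≠ 0) {p : ℕ} [CharP F p] {σ : RingAut Ω} (hσ : ∀ z : Ω, z ^ p = 1 → σ z = z) {z : Ω}
    (hz : z ^ 2 = (((ch (RingEquiv.refl F) (-1 : F) : ℤˣ) : ℤ) : Ω) * (Nat.card F : Ω)) : σ z = z := by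
  haveI := Fintype.ofFinite F
  obtain ⟨ψ, hψ1, hψ2⟩ := P00_ac (Ω := Ω) (F := F) (p := p)
  have hrc := P00_rc h2
  have hinj : Function.Injective (Int.castRingHom Ω) := Int.cast_injective
  have h3 := gaussSum_sq ((MulChar.ringHomComp_ne_one_iff hinj).2 (quadraticChar_ne_one hrc))
    ((quadraticChar_isQuadratic F).comp (Int.castRingHom Ω)) (AddChar.IsPrimitive.of_ne_one hψ1)
  have h4 : ((quadraticChar F (-1 : F) : ℤ) : Ω) = (((ch (RingEquiv.refl F) (-1 : F) : ℤˣ) : ℤ) : Ω) := by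
    have hm : (-1 : F) ≠ 0 := neg_ne_zero.2 one_ne_zero
    have h5 : (∃ y : F, RingEquiv.refl F y = y ∧ y * y = -1) ↔ IsSquare (-1 : F) := by
      constructor
      · rintro ⟨y, -, hy⟩
        exact ⟨y, hy.symm⟩
      · rintro ⟨y, hy⟩
        exact ⟨y, rfl, hy.symm⟩
    unfold ch
    by_cases h : IsSquare (-1 : F)
    · rw [if_pos (h5.2 h), (quadraticChar_one_iff_isSquare hm).2 h, Units.val_one]
    · rw [if_neg (fun h' => h (h5.1 h')), quadraticChar_neg_one_iff_not_isSquare.2 h, Units.val_neg,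
        Units.val_one]
  have h6 : z ^ 2 = gaussSum ((quadraticChar F).ringHomComp (Int.castRingHom Ω)) ψ ^ 2 := by
    have h8 : (quadraticChar F).ringHomComp (Int.castRingHom Ω) (-1 : F) =
        (((ch (RingEquiv.refl F) (-1 : F) : ℤˣ) : ℤ) : Ω) := h4
    rw [h3, hz, h8, Nat.card_eq_fintype_card]
  have h7 : σ (gaussSum ((quadraticChar F).ringHomComp (Int.castRingHom Ω)) ψ) =
      gaussSum ((quadraticChar F).ringHomComp (Int.castRingHom Ω)) ψ := by
    unfold gaussSum
    rw [map_sum]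
    refine Finset.sum_congr rfl fun x _ => ?_
    rw [map_mul, hσ (ψ x) (hψ2 x), MulChar.ringHomComp_apply, Int.coe_castRingHom, map_intCast]
  rcases sq_eq_sq_iff_eq_or_eq_neg.1 h6 with h | h
  · rw [h, h7]
  · rw [h, map_neg, h7]

theorem char_odd {F : Type} [Field F] [Finite F] (h2 : (2 : F) ≠ 0) :
    ∃ p : ℕ, CharP F p ∧ p.Prime ∧ Odd p := by
  refine ⟨ringChar F, ringChar.charP F, ?_, ?_⟩
  · exact CharP.char_is_prime F _
  · exact (CharP.char_is_prime F (ringChar F)).odd_of_ne_two (P00_rc h2)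

theorem card_odd {F : Type} [Field F] [Finite F] (h2 : (2 : F) ≠ 0) (τ : F ≃+* F) :
    Odd (Nat.card {x : F // τ x = x}) ∧ 3 ≤ Nat.card {x : F // τ x = x} := by
  let K : Subfield F := RingHom.eqLocusField (τ : F →+* F) (RingHom.id F)
  have hmem : ∀ x : F, x ∈ K ↔ τ x = x := fun x => Iff.rfl
  have hcard : Nat.card {x : F // τ x = x} = Nat.card K := rfl
  rw [hcard]
  haveI := Fintype.ofFinite K
  have h2K : (2 : K) ≠ 0 := by
    intro h
    apply h2
    have h3 : ((2 : K) : F) = ((0 : K) : F) := congrArg (Subtype.val : K → F) h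
    rw [ZeroMemClass.coe_zero] at h3
    rw [← h3]
    rfl
  have ho : Odd (Nat.card K) := by
    rw [Nat.card_eq_fintype_card, Nat.odd_iff]
    exact FiniteField.odd_card_of_char_ne_two (P00_rc h2K)
  refine ⟨ho, ?_⟩
  have h1 : 1 < Nat.card K := by
    rw [Nat.card_eq_fintype_card]
    exact Fintype.one_lt_card
  obtain ⟨k, hk⟩ := ho
  omega

theorem card_refl {F : Type} [Field F] : Nat.card {x : F // RingEquiv.refl F x = x} = Nat.card F :=
  Nat.card_congr (Equiv.subtypeUnivEquiv fun _ => rfl)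

end

end AO.MG
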