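import Pool.Agent.AO.F16
import Pool.Agent.AO.P00

/-!
# MP_6c3636_al, AO, module P01: symplectic groups: the data (helper7)

`D = fSp n F h2`, `ep = -1`, `σ = τ = refl`, `a = 0`. `es`: `rsum_zero`; `D.PR` is in bijection with `F` by `p ↦ p.1.2` (the condition is `- β + β + 0 = 0`); `∑ over β ≠ 0 of ch (- β)` is `0` (`sum_ch`, reindex), of `1` is `card F - 1`. `HT`: `g = g * 1`. `re`: first alternative. All elements of `T` are `tor x` (`T_tor`, `a = 0`). For every `i` the map `x ↦ f (tor (update 1 i x))` is trivial or `ch` (`ch_hom`); `a' i = true` if it is not trivial; `f` and `th a'` (`th_tor`) are multiplicative (`tor_mul`). `tw`: `th_ext`. `T ⊓ G = T`.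
-/

namespace AO.MG

noncomputable section

open Classical Equiv Matrix

open AN (sq)

variable {F : Type} [Field F] [Finite F]

namespace P01_aux

/-- the parameters of the root subgroup of the end node -/
def prE (n : ℕ) (F : Type) [Field F] (h2 : (2 : F) ≠ 0) : (fSp n F h2).PR ≃ F where
  toFun p := p.1.2
  invFun x := ⟨(Fin.elim0, x), by
    refine ⟨fun j => j.elim0, rfl, ?_⟩
    show ((-1 : Fˣ) : F) * x + x + ((1 : Fˣ) : F) * ∑ j : Fin 0, _ = 0
    rw [Units.val_neg, Units.val_one, Finset.univ_eq_empty, Finset.sum_empty]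
    ring⟩
  left_inv := by
    rintro ⟨⟨v, x⟩, h⟩
    apply Subtype.ext
    show ((Fin.elim0, x) : (Fin 0 → F) × F) = (v, x)
    exact Prod.ext (Subsingleton.elim _ _) rfl
  right_inv := fun _ => rfl

theorem sum_refl (h2 : (2 : F) ≠ 0) :
    ∑ᶠ x : F, (if x = 0 then (0 : ℤ) else ((ch (RingEquiv.refl F) (-1 * x) : ℤˣ) : ℤ)) = 0 := by
  have h1 := (finsum_subtype_eq_finsum_cond (f := fun x : F => ((ch (RingEquiv.refl F) x : ℤˣ) : ℤ))
    (fun x => RingEquiv.refl F x = x ∧ x ≠ 0)).symm.trans (sum_ch h2 (RingEquiv.refl F))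
  refine Eq.trans ?_ h1
  refine Eq.trans ?_ (finsum_comp_equiv (Equiv.neg F))
  apply finsum_congr
  intro x
  rw [finsum_eq_if]
  have h3 : (Equiv.neg F) x = -x := rfl
  rw [h3]
  by_cases h : x = 0
  · rw [if_pos h, if_neg (fun h' => h'.2 (neg_eq_zero.2 h))]
  · rw [if_neg h, if_pos ⟨rfl, fun h' => h (neg_eq_zero.1 h')⟩, neg_one_mul]

theorem sum_one : ∑ᶠ x : F, (if x = 0 then (0 : ℤ) else 1) = (Nat.card F : ℤ) - 1 := by
  have : Fintype F := Fintype.ofFinite F
  rw [finsum_eq_sum_of_fintype, Nat.card_eq_fintype_card]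
  have h1 : ∀ x : F, (if x = 0 then (0 : ℤ) else 1) = 1 - (if x = 0 then 1 else 0) := by
    intro x
    by_cases h : x = 0
    · rw [if_pos h, if_pos h, sub_self]
    · rw [if_neg h, if_neg h, sub_zero]
  rw [Finset.sum_congr rfl (fun x _ => h1 x), Finset.sum_sub_distrib, Finset.sum_const, Finset.card_univ,
    Finset.sum_ite_eq' Finset.univ (0 : F), if_pos (Finset.mem_univ _), nsmul_eq_mul, mul_one]

end P01_aux

open P01_aux

/-- the data of the symplectic group -/
def kSp (n : ℕ) (F : Type) [Field F] [Finite F] (h2 : (2 : F) ≠ 0) : (fSp n F h2).KD where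
  H := (fSp n F h2).G
  gd := decide (ch (RingEquiv.refl F) (-1 : F) = 1)
  su := fun b => if b = true then 0 else (Nat.card F : ℤ) - 1
  nt := if h : 0 < n then (fSp n F h2).s ⟨0, h⟩ else 1
  HG := le_rfl
  hN := fun g hg h hh => Subgroup.mul_mem _ (Subgroup.mul_mem _ hg hh) (Subgroup.inv_mem _ hg)
  UH := U_le
  HT := fun g hg => ⟨g, hg, 1, Subgroup.one_mem _, (mul_one g).symm⟩
  es := by
    intro k hk a'
    rw [rsum_zero hk a']
    by_cases h : a' k = true
    · rw [if_pos h]
      refine Eq.trans ?_ (sum_refl h2)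
      refine Eq.trans ?_ (finsum_comp_equiv (prE n F h2))
      apply finsum_congr
      intro p
      have h4 : (((fSp n F h2).ep : Fˣ) : F) = -1 := by
        show ((-1 : Fˣ) : F) = -1
        rw [Units.val_neg, Units.val_one]
      have h3 : (prE n F h2) p = p.1.2 := rfl
      rw [h3, if_pos h]
      generalize p.1.2 = β
      rw [h4]
      rfl
    · rw [if_neg h]
      refine Eq.trans ?_ (sum_one (F := F))
      refine Eq.trans ?_ (finsum_comp_equiv (prE n F h2))
      apply finsum_congr
      intro p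
      have h3 : (prE n F h2) p = p.1.2 := rfl
      rw [h3, if_neg h]
      rfl
  ze1 := by
    intro h
    have h1 := of_decide_eq_true h
    have h4 : (((fSp n F h2).ep : Fˣ) : F) = -1 := by
      show ((-1 : Fˣ) : F) = -1
      rw [Units.val_neg, Units.val_one]
    rw [h4]
    exact h1
  ze2 := by
    intro h
    have h1 := of_decide_eq_false h
    have h4 : (((fSp n F h2).ep : Fˣ) : F) = -1 := by
      show ((-1 : Fˣ) : F) = -1
      rw [Units.val_neg, Units.val_one]
    rw [h4]
    exact ⟨(Int.units_eq_one_or _).resolve_left h1, if_pos rfl, rfl⟩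
  ntN := by
    intro k hk
    have hn : 0 < n := lt_of_le_of_lt (Nat.zero_le _) k.2
    refine ⟨1, Subgroup.one_mem _, ?_⟩
    rw [dif_pos hn, mul_one]
    congr 1
    exact Fin.ext hk.symm
  ntH := by
    by_cases h : 0 < n
    · rw [dif_pos h]
      exact s_mem _
    · rw [dif_neg h]
      exact Subgroup.one_mem _
  re := by
    intro f hf
    left
    have hm : ∀ z : Fin n → Fˣ, (fSp n F h2).tor z ∈ (fSp n F h2).T ⊓ (fSp n F h2).G := fun z =>
      ⟨tor_mem (fun _ => rfl), (tor_mem (D := fSp n F h2) (x := z) (fun _ => rfl)).1⟩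
    let φ : (Fin n → Fˣ) →* ℤˣ := MonoidHom.mk' (fun z => f ((fSp n F h2).tor z)) (fun z z' => by
      rw [tor_mul, hf _ (hm z) _ (hm z')])
    have hφ : ∀ z, φ z = f ((fSp n F h2).tor z) := fun _ => rfl
    have hun : ∀ x y : F, x ≠ 0 → y ≠ 0 → un (x * y) = un x * un y := by
      intro x y hx hy
      apply Units.ext
      rw [Units.val_mul, un, un, un, dif_pos (mul_ne_zero hx hy), dif_pos hx, dif_pos hy]
      rfl
    have hc : ∀ i : Fin n, (∀ x : F, RingEquiv.refl F x = x → x ≠ 0 → φ (Pi.mulSingle i (un x)) = 1) ∨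
        ∀ x : F, RingEquiv.refl F x = x → x ≠ 0 → φ (Pi.mulSingle i (un x)) = ch (RingEquiv.refl F) x := by
      intro i
      apply ch_hom h2
      intro x y _ hx _ hy
      rw [hun x y hx hy, Pi.mulSingle_mul, map_mul]
    refine ⟨fun i => decide (¬ ∀ x : F, RingEquiv.refl F x = x → x ≠ 0 → φ (Pi.mulSingle i (un x)) = 1), ?_⟩
    intro t ht
    obtain ⟨z, _, rfl⟩ := T_tor ht.1 (fun j => j.elim0)
    rw [th_tor, ← hφ]
    have hz : z = ∏ i, Pi.mulSingle i (z i) := (Finset.univ_prod_mulSingle z).symm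
    conv_lhs => rw [hz]
    rw [map_prod]
    apply Finset.prod_congr rfl
    intro i _
    have hu : un ((z i : Fˣ) : F) = z i := by
      apply Units.ext
      rw [un, dif_pos (z i).ne_zero]
      rfl
    by_cases h : ∀ x : F, RingEquiv.refl F x = x → x ≠ 0 → φ (Pi.mulSingle i (un x)) = 1
    · rw [if_neg (by rw [decide_eq_true_iff]; exact fun h' => h' h)]
      have := h (z i : F) rfl (z i).ne_zero
      rwa [hu] at this
    · rw [if_pos (by rw [decide_eq_true_iff]; exact h)]
      have := (hc i).resolve_left h (z i : F) rfl (z i).ne_zero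
      rw [hu] at this
      exact this
  tw := by
    intro a' b' h
    left
    symm
    exact th_ext (fun x hx => h x ⟨hx, hx.1⟩)

end

end AO.MG
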