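import Pool.Agent.AO.P01
import Pool.Agent.AO.G01
import Pool.Agent.AO.Z01

/-!
# MP_6c3636_al, AO, module P02: (A) and (B) for symplectic groups in odd characteristic (helper7)

`p` from `char_odd`, `X = (kSp n F h2).bn`, `B = X.toBN`, `q = Nat.card F`. Case `gd = true`, that is `ch refl (-1) = 1`: `k = IntermediateField.adjoin ℚ {√q}` in `ℝ` with the inclusion as `Algebra k ℝ` and an embedding `k → Ω` (`IsAlgClosed.lift`, `k` is algebraic) as `Algebra k Ω`. `P`: `q`, `e = 1`, `j = (0, -1, 0, 0)`, `w false = 1`, `w true = (√q)⁻¹`. `Fit`: `card`: `card_in`, `card_R_pos`, `card_refl`; `Nat.card (R 0) = q` (`card_zero`, `PR` in bijection with `F`); `sum`: `q * (1 - q⁻¹) = q - 1`, `q * (w - w) = 0`; `prod`: `q * (1 * (- q⁻¹)) = -1`, `q * (- w ^ 2) = -1`. `half`: first alternative: `tor` of a nonsquare at the coordinate `0` (`n > 0`) (`H = G`). `FixOK`: `R₀ = p`: the image of `√q` in `Ω` has square `q`, it is fixed (`gauss_fix`), so all elements of `k` are fixed; the second condition is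 empty. Case `gd = false`, `ch refl (-1) = -1`: `k = ℚ`, `w = 1`, the same `P`; `sum` and `prod` only for `b = false`; `FixOK`: `R₀ = p`: the elements `z` with `z ^ 2 = - q` are fixed (`gauss_fix`). Then `bn_propA`, `bn_propB` (Z01) and `propA_in`, `propB_in` (G01).
-/

namespace AO.MG

noncomputable section

open Classical Equiv Matrix

open AN (sq)


variable {Ω : Type} [Field Ω] [IsAlgClosed Ω] [CharZero Ω] {c : Parker.Ctx Ω}

namespace P02_aux

section Par0

variable {k : Type} [Field k]

/-- the parameters -/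
def par (q : ℕ) (h3 : 3 ≤ q) (ho : Odd q) (w : k) (hw : w ≠ 0) : Par k where
  q := q
  e := 1
  j := fun y => if y = 1 then -1 else 0
  w := fun b => if b = true then w else 1
  three := h3
  odd := ho
  pos := Nat.one_pos
  ne := fun b => by
    cases b
    · simp
    · simpa using hw

theorem par_r0 {q : ℕ} (h3 : 3 ≤ q) (ho : Odd q) {w : k} (hw : w ≠ 0) :
    (par q h3 ho w hw).r (yp false) = 1 := by
  have h1 : lb (yp false) = false := by decide
  have h2 : sg (yp false) = 1 := by decide
  have h3' : (yp false : Ty) ≠ 1 := by decide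
  unfold Par.r par
  simp only
  rw [h1, h2, if_neg h3']
  simp

theorem par_r1 {q : ℕ} (h3 : 3 ≤ q) (ho : Odd q) {w : k} (hw : w ≠ 0) :
    (par q h3 ho w hw).r (yn false) = - (q : k)⁻¹ := by
  have h1 : lb (yn false) = false := by decide
  have h2 : sg (yn false) = -1 := by decide
  have h3' : (yn false : Ty) = 1 := by decide
  unfold Par.r par
  simp only
  rw [h1, h2, if_pos h3']
  simp

theorem par_r2 {q : ℕ} (h3 : 3 ≤ q) (ho : Odd q) {w : k} (hw : w ≠ 0) :
    (par q h3 ho w hw).r (yp true) = w := by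
  have h1 : lb (yp true) = true := by decide
  have h2 : sg (yp true) = 1 := by decide
  have h3' : (yp true : Ty) ≠ 1 := by decide
  unfold Par.r par
  simp only
  rw [h1, h2, if_neg h3']
  simp

theorem par_r3 {q : ℕ} (h3 : 3 ≤ q) (ho : Odd q) {w : k} (hw : w ≠ 0) :
    (par q h3 ho w hw).r (yn true) = - w := by
  have h1 : lb (yn true) = true := by decide
  have h2 : sg (yn true) = -1 := by decide
  have h3' : (yn true : Ty) ≠ 1 := by decide
  unfold Par.r par
  simp only
  rw [h1, h2, if_neg h3']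
  simp

end Par0

section Card0

variable {n : ℕ} {F : Type} [Field F] [Finite F]

theorem card_PR (h2 : (2 : F) ≠ 0) : Nat.card (fSp n F h2).PR = Nat.card F := by
  refine Nat.card_congr ⟨fun p => p.1.2, fun x => ⟨(fun j => Fin.elim0 j, x), ?_, ?_, ?_⟩, ?_, ?_⟩
  · exact fun j => Fin.elim0 j
  · rfl
  · have h1 : ∀ f : Fin 0 → F, ∑ j, f j = 0 := fun f => Finset.sum_eq_zero fun j _ => Fin.elim0 j
    rw [h1, mul_zero, add_zero]
    show ((-1 : Fˣ) : F) * x + x = 0
    rw [Units.val_neg, Units.val_one, neg_one_mul, neg_add_cancel]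
  · rintro ⟨⟨f, x⟩, h⟩
    apply Subtype.ext
    exact Prod.ext (funext fun j => Fin.elim0 j) rfl
  · intro x
    rfl

end Card0

theorem main {n : ℕ} (hn : 0 < n) (F : Type) [Field F] [Finite F] (h2 : (2 : F) ≠ 0) {p : ℕ}
    [CharP F p] (hp : p.Prime) (ho : Odd p) {k : Type} [Field k] [CharZero k] [Algebra k ℝ]
    [Algebra k Ω] {w : k} (hw0 : w ≠ 0)
    (hw : ch (RingEquiv.refl F) (-1 : F) = 1 → (Nat.card F : k) * (w * w) = 1)
    (hfix : ∀ σ : RingAut Ω, (∀ z : Ω, z ^ p = 1 → σ z = z) →
      ∀ x : k, σ (algebraMap k Ω x) = algebraMap k Ω x) :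
    Parker.PropA c 1 (fSp n F h2).G ∧ Parker.PropB c 1 (fSp n F h2).G := by
  obtain ⟨hodd, hthree⟩ := card_odd h2 (RingEquiv.refl F)
  rw [card_refl] at hodd hthree
  have hR0 : ∀ i : Fin n, (i : ℕ) = 0 →
      Nat.card (((kSp n F h2).bn hp ho).toBN.R i) = Nat.card F := by
    intro i hi
    rw [card_in]
    exact (card_zero hi).trans (card_PR h2)
  have hR : ∀ l : Fin n, 0 < (l : ℕ) →
      Nat.card (((kSp n F h2).bn hp ho).toBN.R l) = Nat.card F := by
    intro l hl
    rw [card_in]
    exact (card_R_pos hl).trans card_refl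
  have hgd : ((kSp n F h2).bn hp ho).toBN.gd = true → ch (RingEquiv.refl F) (-1 : F) = 1 := by
    intro h
    exact of_decide_eq_true h
  have hgd' : ((kSp n F h2).bn hp ho).toBN.gd = false → ch (RingEquiv.refl F) (-1 : F) = -1 := by
    intro h
    have h1 : ¬ ch (RingEquiv.refl F) (-1 : F) = 1 := of_decide_eq_false h
    exact (Int.units_eq_one_or _).resolve_left h1
  have hq : (Nat.card F : k) ≠ 0 := by
    have h1 : Nat.card F ≠ 0 := by omega
    exact_mod_cast h1
  have hsu0 : ((kSp n F h2).bn hp ho).toBN.su false = (Nat.card F : ℤ) - 1 := rfl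
  have hsu1 : ((kSp n F h2).bn hp ho).toBN.su true = 0 := rfl
  have hP : Fit ((kSp n F h2).bn hp ho).toBN (par (Nat.card F) hthree hodd w hw0) := by
    refine ⟨?_, ?_, ?_, Or.inl ?_⟩
    · intro l hl
      rw [hR l hl]
      exact (pow_one _).symm
    · intro b hb i hi
      rw [hR0 i hi]
      cases b
      · rw [par_r0, par_r1, hsu0]
        push_cast
        field_simp
        ring
      · rw [par_r2, par_r3, hsu1]
        simp
    · intro b hb i hi
      rw [hR0 i hi]
      cases b
      · rw [par_r0, par_r1]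
        field_simp
      · have h1 := hw (hgd (hb.resolve_left (by decide)))
        rw [par_r2, par_r3]
        linear_combination -h1
    · obtain ⟨x, _, hx0, hx⟩ := exists_ch h2 (RingEquiv.refl F)
      have hT : (fSp n F h2).tor (Function.update 1 ⟨0, hn⟩ (Units.mk0 x hx0)) ∈ (fSp n F h2).T :=
        tor_mem (fun i => rfl)
      have hG : (fSp n F h2).tor (Function.update 1 ⟨0, hn⟩ (Units.mk0 x hx0)) ∈ (fSp n F h2).G :=
        hT.1
      refine ⟨⟨_, hG⟩, ⟨Subgroup.mem_subgroupOf.2 hT, Subgroup.mem_subgroupOf.2 hG⟩, ?_⟩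
      show (fSp n F h2).th (fun _ => true)
        ((fSp n F h2).tor (Function.update 1 ⟨0, hn⟩ (Units.mk0 x hx0))) ≠ 1
      rw [th_tor, Finset.prod_eq_single (⟨0, hn⟩ : Fin n)]
      · rw [if_pos rfl, Function.update_self, Units.val_mk0]
        show ch (RingEquiv.refl F) x ≠ 1
        rw [hx]
        decide
      · intro i _ hi
        rw [if_pos rfl, Function.update_of_ne hi]
        exact ch_one
      · exact fun h => absurd (Finset.mem_univ _) h
  have hF : FixOK Ω ((kSp n F h2).bn hp ho).toBN k := by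
    refine ⟨p, ho, fun σ hσ => ⟨hfix σ hσ, ?_⟩⟩
    intro hg i z hi hz
    refine gauss_fix h2 (p := p) hσ ?_
    rw [hz, hR0 i hi, hgd' hg]
    simp
  exact ⟨propA_in _ (bn_propA hP hn hF), propB_in _ (bn_propB hP hn hF)⟩

theorem both {n : ℕ} (hn : 0 < n) (F : Type) [Field F] [Finite F] (h2 : (2 : F) ≠ 0) :
    Parker.PropA c 1 (fSp n F h2).G ∧ Parker.PropB c 1 (fSp n F h2).G := by
  obtain ⟨p, hp1, hp2, hp3⟩ := char_odd h2
  by_cases hc : ch (RingEquiv.refl F) (-1 : F) = 1
  · obtain ⟨r, hr⟩ : ∃ r : ℝ, r = Real.sqrt (Nat.card F : ℝ) := ⟨_, rfl⟩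
    have hrr : r * r = (Nat.card F : ℝ) := by
      rw [hr]
      exact Real.mul_self_sqrt (Nat.cast_nonneg _)
    have hq : (Nat.card F : ℝ) ≠ 0 := by
      have h1 : Nat.card F ≠ 0 := Nat.card_pos.ne'
      exact_mod_cast h1
    have hr0 : r ≠ 0 := by
      rintro rfl
      rw [mul_zero] at hrr
      exact hq hrr.symm
    have hint : ∀ x ∈ ({r} : Set ℝ), IsIntegral ℚ x := by
      intro x hx
      rw [Set.mem_singleton_iff] at hx
      subst hx
      refine ⟨Polynomial.X ^ 2 - Polynomial.C (Nat.card F : ℚ),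
        Polynomial.monic_X_pow_sub_C _ two_ne_zero, ?_⟩
      rw [Polynomial.eval₂_sub, Polynomial.eval₂_X_pow, Polynomial.eval₂_C, pow_two, hrr]
      simp
    have _ : Algebra.IsAlgebraic ℚ (IntermediateField.adjoin ℚ ({r} : Set ℝ)) :=
      IntermediateField.isAlgebraic_adjoin hint
    let φ : IntermediateField.adjoin ℚ ({r} : Set ℝ) →ₐ[ℚ] Ω := IsAlgClosed.lift
    let _ : Algebra (IntermediateField.adjoin ℚ ({r} : Set ℝ)) Ω := φ.toRingHom.toAlgebra
    have hmap : ∀ x : IntermediateField.adjoin ℚ ({r} : Set ℝ),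
        algebraMap (IntermediateField.adjoin ℚ ({r} : Set ℝ)) Ω x = φ x := fun x => rfl
    have hmem : r ∈ IntermediateField.adjoin ℚ ({r} : Set ℝ) :=
      IntermediateField.subset_adjoin _ _ (Set.mem_singleton r)
    obtain ⟨s, hs⟩ : ∃ s : IntermediateField.adjoin ℚ ({r} : Set ℝ), s = ⟨r, hmem⟩ := ⟨_, rfl⟩
    have hss : s * s = (Nat.card F : IntermediateField.adjoin ℚ ({r} : Set ℝ)) := by
      apply Subtype.ext
      rw [hs]
      show r * r = ((Nat.card F : IntermediateField.adjoin ℚ ({r} : Set ℝ)) : ℝ)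
      rw [hrr]
      simp
    have hs0 : s ≠ 0 := by
      intro h
      apply hr0
      have h1 := congrArg (fun x : IntermediateField.adjoin ℚ ({r} : Set ℝ) => (x : ℝ)) h
      rw [hs] at h1
      exact h1
    refine main hn F h2 hp2 hp3 (k := IntermediateField.adjoin ℚ ({r} : Set ℝ)) (w := s⁻¹)
      (inv_ne_zero hs0) (fun _ => ?_) (fun σ hσ => ?_)
    · rw [← hss]
      field_simp
    · have h1 : σ (φ s) = φ s := by
        refine gauss_fix h2 (p := p) hσ ?_
        rw [hc, pow_two, ← map_mul, hss]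
        simp
      let φ' : IntermediateField.adjoin ℚ ({r} : Set ℝ) →ₐ[ℚ] Ω :=
        { (σ : Ω →+* Ω).comp φ.toRingHom with
          commutes' := fun x => by
            show σ (φ (algebraMap ℚ _ x)) = algebraMap ℚ Ω x
            rw [φ.commutes]
            exact map_ratCast σ x }
      have h2 : φ' = φ := by
        refine IntermediateField.adjoin_algHom_ext ℚ ?_
        intro x hx
        have h3 : x = r := hx
        subst h3
        show σ (φ ⟨x, _⟩) = φ ⟨x, _⟩
        rw [← hs]
        exact h1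
      intro x
      rw [hmap]
      have h3 : φ' x = φ x := by rw [h2]
      exact h3
  · refine main hn F h2 hp2 hp3 (k := ℚ) (w := 1) one_ne_zero (fun h => absurd h hc)
      (fun σ _ x => ?_)
    rw [eq_ratCast]
    exact map_ratCast σ x

end P02_aux

theorem sp_propA {n : ℕ} (hn : 0 < n) (F : Type) [Field F] [Finite F] (h2 : (2 : F) ≠ 0) :
    Parker.PropA c 1 (fSp n F h2).G :=
  (P02_aux.both hn F h2).1

theorem sp_propB {n : ℕ} (hn : 0 < n) (F : Type) [Field F] [Finite F] (h2 : (2 : F) ≠ 0) :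
    Parker.PropB c 1 (fSp n F h2).G :=
  (P02_aux.both hn F h2).2

end

end AO.MG
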