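import Pool.Agent.AO.M04

/-!
# MP_6c3636_al, AO, module P03: elements of norm one (helper7)

`hilbert`: `z σ(z) = 1`: if `z ≠ -1` take `x = 1 + z` (`z σ(1 + z) = z + z σ(z) = z + 1`), if `z = -1` an `x ≠ 0` with `σ x = - x` (`x = y - σ y` with `σ y ≠ y`). `sqn_of`: `x`, `x'` with `z σ(x) = x`, `z σ(x') = x'`: `x / x'` is fixed by `σ`, `ch_sub`, `ch_mul`. `tr_zero`: the elements with `x + σ x = 0`: `-1 * σ x = x`. `card_tr`: `x ↦ x + σ x` is additive and surjective onto the fixed field `K`, `card F = (card K) ^ 2` (`card_fix`); surjective: `σ y ≠ y` gives... `x + σ x ≠ 0` for some `x` (for example `x = 1`, `2 ≠ 0`) and `K`-linearity.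
-/

namespace AO.MG

noncomputable section

open Classical Equiv Matrix

open AN (sq)

variable {F : Type} [Field F] [Finite F]

variable {σ : F ≃+* F}

/-- the quadratic character of the elements of norm one -/
def sqn (σ : F ≃+* F) (z : F) : ℤˣ :=
  if ∃ x, x ≠ 0 ∧ ch (RingEquiv.refl F) x = 1 ∧ z * σ x = x then 1 else -1

omit [Finite F] in
private theorem anti (hss : ∀ x, σ (σ x) = x) (hne : ∃ x, σ x ≠ x) : ∃ w, w ≠ 0 ∧ σ w = - w := by
  obtain ⟨y, hy⟩ := hne
  refine ⟨y - σ y, sub_ne_zero.2 (Ne.symm hy), ?_⟩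
  rw [map_sub, hss, neg_sub]

theorem hilbert (h2 : (2 : F) ≠ 0) (hss : ∀ x, σ (σ x) = x) (hne : ∃ x, σ x ≠ x) {z : F}
    (hz : z * σ z = 1) : ∃ x, x ≠ 0 ∧ z * σ x = x := by
  by_cases h : z = -1
  · obtain ⟨w, hw, hw'⟩ := anti hss hne
    refine ⟨w, hw, ?_⟩
    rw [h, hw']
    ring
  · refine ⟨1 + z, fun h' => h ?_, ?_⟩
    · linear_combination h'
    · rw [map_add, map_one]
      linear_combination hz

omit [Finite F] in
private theorem ch_or (τ : F ≃+* F) (x : F) : ch τ x = 1 ∨ ch τ x = -1 := by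
  unfold ch
  split_ifs
  · exact Or.inl rfl
  · exact Or.inr rfl

theorem sqn_of (h2 : (2 : F) ≠ 0) (hss : ∀ x, σ (σ x) = x) (hne : ∃ x, σ x ≠ x) {z x : F} (hx : x ≠ 0)
    (h : z * σ x = x) : sqn σ z = ch (RingEquiv.refl F) x := by
  unfold sqn
  split_ifs with h1
  · obtain ⟨x', hx', hc, h'⟩ := h1
    have hz : z ≠ 0 := by
      rintro rfl
      rw [zero_mul] at h
      exact hx h.symm
    have hσ : σ x' ≠ 0 := fun h3 => hx' ((map_eq_zero σ).1 h3)
    have hu : σ (x / x') = x / x' := by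
      have h5 : x / x' = (z * σ x) / (z * σ x') := by rw [h, h']
      rw [map_div₀, h5, mul_div_mul_left _ _ hz]
    have h3 : x / x' * x' = x := div_mul_cancel₀ _ hx'
    rw [← h3, ch_mul h2 rfl (div_ne_zero hx hx') rfl hx', ch_sub hss hne hu, hc, one_mul]
  · rcases ch_or (RingEquiv.refl F) x with h3 | h3
    · exact absurd ⟨x, hx, h3, h⟩ h1
    · exact h3.symm

theorem sqn_mul (h2 : (2 : F) ≠ 0) (hss : ∀ x, σ (σ x) = x) (hne : ∃ x, σ x ≠ x) {z z' : F}
    (hz : z * σ z = 1) (hz' : z' * σ z' = 1) : sqn σ (z * z') = sqn σ z * sqn σ z' := by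
  obtain ⟨x, hx, h⟩ := hilbert h2 hss hne hz
  obtain ⟨x', hx', h'⟩ := hilbert h2 hss hne hz'
  rw [sqn_of h2 hss hne hx h, sqn_of h2 hss hne hx' h', ← ch_mul h2 rfl hx rfl hx']
  apply sqn_of h2 hss hne (mul_ne_zero hx hx')
  rw [map_mul]
  calc z * z' * (σ x * σ x') = (z * σ x) * (z' * σ x') := by ring
    _ = x * x' := by rw [h, h']

theorem tr_zero (h2 : (2 : F) ≠ 0) (hss : ∀ x, σ (σ x) = x) (hne : ∃ x, σ x ≠ x) {x : F} (hx : x ≠ 0)
    (h : x + σ x = 0) : ch (RingEquiv.refl F) x = sqn σ (-1) := by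
  refine (sqn_of h2 hss hne hx ?_).symm
  linear_combination -h

theorem card_tr (h2 : (2 : F) ≠ 0) (hss : ∀ x, σ (σ x) = x) (hne : ∃ x, σ x ≠ x) {y : F}
    (hy : σ y = y) : Nat.card {x : F // x + σ x = y} = Nat.card {x : F // σ x = x} := by
  obtain ⟨w, hw, hw'⟩ := anti hss hne
  have hy2 : σ (y / 2) = y / 2 := by
    rw [map_div₀, hy, map_ofNat]
  have hyy : y / 2 + y / 2 = y := by
    field_simp
    ring
  refine Nat.card_congr
    { toFun := fun x => ⟨((x : F) - y / 2) / w, ?_⟩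
      invFun := fun u => ⟨(u : F) * w + y / 2, ?_⟩
      left_inv := ?_
      right_inv := ?_ }
  · have h1 : σ (x : F) = y - x := by
      rw [eq_sub_iff_add_eq, add_comm]
      exact x.2
    rw [map_div₀, map_sub, hy2, hw', h1, div_neg, ← neg_div]
    congr 1
    linear_combination hyy
  · have h1 : σ (u : F) = u := u.2
    rw [map_add, map_mul, hy2, hw', h1]
    linear_combination hyy
  · intro x
    apply Subtype.ext
    show ((x : F) - y / 2) / w * w + y / 2 = x
    rw [div_mul_cancel₀ _ hw, sub_add_cancel]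
  · intro u
    apply Subtype.ext
    show ((u : F) * w + y / 2 - y / 2) / w = u
    rw [add_sub_cancel_right, mul_div_cancel_right₀ _ hw]

end

end AO.MG
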