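import Pool.Agent.AO.F16
import Pool.Agent.AO.P03

/-!
# MP_6c3636_al, AO, module P04: unitary groups in even dimension: the data (helper7)

`D = fU n (a := 0) _ h2 σ hs`, `τ = refl`, `ep = 1`, `n ≥ 2`, `K` = the fixed field of `σ`, `q` its cardinality. `UH`: `GS_le_DT`. `HT`: `HT_of`. `es`: `rsum_zero`; `D.PR` is in bijection with the `β` with `β + σ β = 0` (there are `q`: `card_tr`); for `β ≠ 0`: `ch β = sqn σ (-1)` (`tr_zero`). `nt = s 0 * hh 0 r`, `r ∈ R 0`, `r ≠ 1` (`R0_equiv`, `exists_R0`): `nt_mem`, `s_sq_one`. All elements of `T` are `tor x` (`T_tor`), `det (tor x) = ∏ x i / σ (x i)`, so `tor x ∈ H` if and only if `∏ x i ∈ K`. `re`: let `f` be multiplicative on `T ⊓ H`. For `y ∈ K` the element `tor (update 1 i y)` is in `H`; `y ↦ f` of it is a homomorphism `ψ i : Kˣ → {1, -1}`; `ψ i = ψ j`, as `tor` with `y` at `i` and `y⁻¹` at `j` is the square of `tor` with `w` at `i` and `w⁻¹` at `j`,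 `w ^ 2 = y` (`ch_sub`). By `ch_hom` (with the automorphism `σ`) `ψ = 1` or `ψ = ch σ`. If `ψ = 1`: first alternative: `x ↦ f (tor with x⁻¹ at 0 and x at i)` is trivial or `ch refl` (`ch_hom`), `a' i = true` if it is not trivial, `a' 0 = false`; `tor x ∈ H` is the product of these elements and of `tor (update 1 0 (∏ x i))`. If `ψ = ch σ` (for `f`): let `m ∈ N ⊓ H`; `f' x = f (m⁻¹ x m)` is multiplicative on `T ⊓ H` (`H` normal, `T` normalised by `N`) and has `ψ' = ψ` (`m = mo w c`, `w ∈ WP`: `m⁻¹ (tor (update 1 i y)) m` is `tor (update 1 i' y)` or `tor (update 1 i' (σ y)⁻¹)`). Let `x = tor` with `y` at `0` and `y⁻¹` at `1`, `y ∈ F` with `ch refl y = -1`: `nt⁻¹ x nt = (s 0)⁻¹ x (s 0)` (`T` is commutative) has the coordinate `(σ y)⁻¹` at `0`, so it is `x * tor (update 1 0 (y σ(y))⁻¹)`, and `f' (nt⁻¹ x nt) = f' x * ψ (y σ y)⁻¹ = - f' x` by `norm_ch`. `tw`: on `tor` with `y⁻¹` at `0` and `y` at `i`, `ch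 refl y = -1`, the values are `-1` if and only if `a' i ≠ a' 0`.
-/

namespace AO.P04_aux

noncomputable section

open Classical Equiv Matrix AO.MG

variable {n : ℕ} {F : Type} [Field F] [Finite F] {σ : F ≃+* F}

/-- the product of the coordinates is in the fixed field -/
def S (σ : F ≃+* F) (x : Fin n → Fˣ) : Prop := σ ((∏ i, x i : Fˣ) : F) = ((∏ i, x i : Fˣ) : F)

theorem S_mul {x y : Fin n → Fˣ} (hx : S σ x) (hy : S σ y) : S σ (x * y) := by
  unfold S at *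
  rw [show (∏ i, (x * y) i) = (∏ i, x i) * ∏ i, y i from Finset.prod_mul_distrib, Units.val_mul, map_mul, hx, hy]

theorem S_one : S σ (1 : Fin n → Fˣ) := by
  unfold S
  rw [show (∏ i, (1 : Fin n → Fˣ) i) = 1 from Finset.prod_const_one, Units.val_one, map_one]

theorem prod_single (i : Fin n) (y : Fˣ) : (∏ j, (Pi.mulSingle i y : Fin n → Fˣ) j) = y :=
  Fintype.prod_pi_mulSingle' i y

theorem S_single {i : Fin n} {y : Fˣ} (hy : σ (y : F) = y) : S σ (Pi.mulSingle i y : Fin n → Fˣ) := by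
  unfold S
  rw [prod_single, hy]

theorem S_pair (i j : Fin n) (y : Fˣ) :
    S σ ((Pi.mulSingle i y : Fin n → Fˣ) * Pi.mulSingle j y⁻¹) := by
  unfold S
  have h : (∏ k, (Pi.mulSingle i y * Pi.mulSingle j y⁻¹ : Fin n → Fˣ) k) = 1 := by
    have h1 : (∏ k, (Pi.mulSingle i y * Pi.mulSingle j y⁻¹ : Fin n → Fˣ) k) =
      (∏ k, (Pi.mulSingle i y : Fin n → Fˣ) k) * ∏ k, (Pi.mulSingle j y⁻¹ : Fin n → Fˣ) k :=
      Finset.prod_mul_distrib
    rw [h1, prod_single, prod_single, mul_inv_cancel]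
  rw [h, Units.val_one, map_one]

variable {g : (Fin n → Fˣ) → ℤˣ}

theorem un_coe {x : F} (hx : x ≠ 0) : ((un x : Fˣ) : F) = x := by
  unfold un
  rw [dif_pos hx, Units.val_mk0]

theorem un_mul {x y : F} (hx : x ≠ 0) (hy : y ≠ 0) : (un (x * y) : Fˣ) = un x * un y := by
  apply Units.ext
  rw [Units.val_mul, un_coe hx, un_coe hy, un_coe (mul_ne_zero hx hy)]

theorem un_un (x : Fˣ) : (un (x : F) : Fˣ) = x := by
  apply Units.ext
  rw [un_coe x.ne_zero]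

theorem g_sq (hg : ∀ x y, S σ x → S σ y → g (x * y) = g x * g y) {x : Fin n → Fˣ} (hx : S σ x) :
    g (x * x) = 1 := by
  rw [hg x x hx hx, Int.units_mul_self]

theorem g_one (hg : ∀ x y, S σ x → S σ y → g (x * y) = g x * g y) : g 1 = 1 := by
  have h := g_sq hg (S_one (σ := σ) (n := n))
  rwa [mul_one] at h

/-- the characters of the coordinates agree on the fixed field -/
theorem g_indep (hss : ∀ x, σ (σ x) = x) (hne : ∃ x, σ x ≠ x)
    (hg : ∀ x y, S σ x → S σ y → g (x * y) = g x * g y) (i j : Fin n) {y : Fˣ} (hy : σ (y : F) = y) :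
    g (Pi.mulSingle i y) = g (Pi.mulSingle j y) := by
  have h1 : ch (RingEquiv.refl F) (y : F) = 1 := ch_sub hss hne hy
  have h2 : ∃ w : F, w * w = y := by
    by_contra h
    have h3 : ¬ ∃ w : F, RingEquiv.refl F w = w ∧ w * w = y := fun ⟨w, _, hw⟩ => h ⟨w, hw⟩
    unfold ch at h1
    rw [if_neg h3] at h1
    exact absurd h1 (by decide)
  obtain ⟨w, hw⟩ := h2
  have hw0 : w ≠ 0 := by
    rintro rfl
    exact y.ne_zero (by rw [← hw, mul_zero])
  have hy' : y = Units.mk0 w hw0 * Units.mk0 w hw0 := Units.ext hw.symm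
  have h3 : (Pi.mulSingle i y : Fin n → Fˣ) = ((Pi.mulSingle i (Units.mk0 w hw0) *
      Pi.mulSingle j (Units.mk0 w hw0)⁻¹) * (Pi.mulSingle i (Units.mk0 w hw0) *
      Pi.mulSingle j (Units.mk0 w hw0)⁻¹)) * Pi.mulSingle j y := by
    rw [mul_mul_mul_comm, ← Pi.mulSingle_mul, ← Pi.mulSingle_mul, ← hy', mul_assoc, ← Pi.mulSingle_mul, ← mul_inv,
      ← hy', inv_mul_cancel, Pi.mulSingle_one, mul_one]
  have h4 := S_pair (σ := σ) i j (Units.mk0 w hw0)
  rw [h3, hg _ _ (S_mul h4 h4) (S_single hy), g_sq hg h4, one_mul]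

/-- the character on the fixed field -/
theorem g_alt (h2 : (2 : F) ≠ 0) (hss : ∀ x, σ (σ x) = x) (hne : ∃ x, σ x ≠ x)
    (hg : ∀ x y, S σ x → S σ y → g (x * y) = g x * g y) (i0 : Fin n) :
    (∀ i, ∀ y : Fˣ, σ (y : F) = y → g (Pi.mulSingle i y) = 1) ∨
      ∀ i, ∀ y : Fˣ, σ (y : F) = y → g (Pi.mulSingle i y) = ch σ (y : F) := by
  have h1 : ∀ x y : F, σ x = x → x ≠ 0 → σ y = y → y ≠ 0 →
      (fun z : F => g (Pi.mulSingle i0 (un z))) (x * y) =
        (fun z : F => g (Pi.mulSingle i0 (un z))) x * (fun z : F => g (Pi.mulSingle i0 (un z))) y := by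
    intro x y hx hx0 hy hy0
    show g _ = g _ * g _
    rw [un_mul hx0 hy0, Pi.mulSingle_mul, hg]
    · exact S_single (by rw [un_coe hx0, hx])
    · exact S_single (by rw [un_coe hy0, hy])
  rcases ch_hom (τ := σ) (f := fun z : F => g (Pi.mulSingle i0 (un z))) h2 h1 with h | h
  · left
    intro i y hy
    rw [g_indep hss hne hg i i0 hy]
    have h3 := h (y : F) hy y.ne_zero
    rw [un_un] at h3
    exact h3
  · right
    intro i y hy
    rw [g_indep hss hne hg i i0 hy]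
    have h3 := h (y : F) hy y.ne_zero
    rw [un_un] at h3
    exact h3

theorem g_prod (hg : ∀ x y, S σ x → S σ y → g (x * y) = g x * g y) (s : Finset (Fin n))
    (v : Fin n → Fin n → Fˣ) (hv : ∀ i, S σ (v i)) :
    g (∏ i ∈ s, v i) = ∏ i ∈ s, g (v i) ∧ S σ (∏ i ∈ s, v i) := by
  induction s using Finset.induction_on with
  | empty => exact ⟨by rw [Finset.prod_empty, Finset.prod_empty, g_one hg], by rw [Finset.prod_empty]; exact S_one⟩
  | insert i s hi ih =>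
    rw [Finset.prod_insert hi, Finset.prod_insert hi]
    exact ⟨by rw [hg _ _ (hv i) ih.2, ih.1], S_mul (hv i) ih.2⟩

/-- the characters which are trivial on the fixed field -/
theorem g_char (h2 : (2 : F) ≠ 0)
    (hg : ∀ x y, S σ x → S σ y → g (x * y) = g x * g y) (i0 : Fin n)
    (h1 : ∀ y : Fˣ, σ (y : F) = y → g (Pi.mulSingle i0 y) = 1) :
    ∃ a' : Fin n → Bool, ∀ x, S σ x → g x = ∏ i, if a' i = true then ch (RingEquiv.refl F) (x i : F) else 1 := by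
  have h3 : ∀ i, ∃ b : Bool, ∀ y : Fˣ, g (Pi.mulSingle i0 y⁻¹ * Pi.mulSingle i y) =
      if b = true then ch (RingEquiv.refl F) (y : F) else 1 := by
    intro i
    have h4 : ∀ x y : F, RingEquiv.refl F x = x → x ≠ 0 → RingEquiv.refl F y = y → y ≠ 0 →
        (fun z : F => g (Pi.mulSingle i0 (un z)⁻¹ * Pi.mulSingle i (un z))) (x * y) =
        (fun z : F => g (Pi.mulSingle i0 (un z)⁻¹ * Pi.mulSingle i (un z))) x *
        (fun z : F => g (Pi.mulSingle i0 (un z)⁻¹ * Pi.mulSingle i (un z))) y := by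
      intro x y _ hx0 _ hy0
      show g _ = g _ * g _
      rw [← hg]
      · congr 1
        rw [un_mul hx0 hy0, mul_inv, Pi.mulSingle_mul, Pi.mulSingle_mul]
        exact mul_mul_mul_comm _ _ _ _
      · rw [mul_comm]
        exact S_pair i i0 _
      · rw [mul_comm]
        exact S_pair i i0 _
    rcases ch_hom (τ := RingEquiv.refl F) (f := fun z : F => g (Pi.mulSingle i0 (un z)⁻¹ * Pi.mulSingle i (un z)))
      h2 h4 with h | h
    · refine ⟨false, fun y => ?_⟩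
      have h5 := h (y : F) rfl y.ne_zero
      rw [if_neg Bool.false_ne_true]
      rw [un_un] at h5
      exact h5
    · refine ⟨true, fun y => ?_⟩
      have h5 := h (y : F) rfl y.ne_zero
      rw [if_pos rfl]
      rw [un_un] at h5
      exact h5
  choose a' ha' using h3
  refine ⟨a', fun x hx => ?_⟩
  have h5 : x = Pi.mulSingle i0 (∏ i, x i) * ∏ i, (Pi.mulSingle i0 (x i)⁻¹ * Pi.mulSingle i (x i)) := by
    rw [Finset.prod_mul_distrib, Finset.univ_prod_mulSingle]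
    have h6 : (∏ i, (Pi.mulSingle i0 (x i)⁻¹ : Fin n → Fˣ)) = Pi.mulSingle i0 (∏ i, (x i)⁻¹) :=
      (map_prod (MonoidHom.mulSingle (fun _ : Fin n => Fˣ) i0) (fun i => (x i)⁻¹) Finset.univ).symm
    rw [h6, ← mul_assoc, ← Pi.mulSingle_mul, Finset.prod_inv_distrib, mul_inv_cancel, Pi.mulSingle_one, one_mul]
  have h7 := g_prod hg Finset.univ (fun i => Pi.mulSingle i0 (x i)⁻¹ * Pi.mulSingle i (x i))
    (fun i => by rw [mul_comm]; exact S_pair i i0 _)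
  calc g x = g (Pi.mulSingle i0 (∏ i, x i) * ∏ i, (Pi.mulSingle i0 (x i)⁻¹ * Pi.mulSingle i (x i))) := by rw [← h5]
    _ = g (Pi.mulSingle i0 (∏ i, x i)) * g (∏ i, (Pi.mulSingle i0 (x i)⁻¹ * Pi.mulSingle i (x i))) :=
      hg _ _ (S_single hx) h7.2
    _ = ∏ i, if a' i = true then ch (RingEquiv.refl F) (x i : F) else 1 := by
      rw [h1 _ hx, one_mul, h7.1]
      exact Finset.prod_congr rfl fun i _ => ha' i (x i)

/-- the unitary group -/
abbrev D (n : ℕ) (h2 : (2 : F) ≠ 0) (σ : F ≃+* F) (hs : ∀ x, σ (σ x) = x) : FD n 0 F :=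
  fU n (a := 0) (Nat.zero_le 1) h2 σ hs

section

variable {h2 : (2 : F) ≠ 0} {hs : ∀ x, σ (σ x) = x}

theorem tor_T (x : Fin n → Fˣ) : (D n h2 σ hs).tor x ∈ (D n h2 σ hs).T := tor_mem fun _ => rfl

theorem T_ex {t : GL (Ix n 0) F} (ht : t ∈ (D n h2 σ hs).T) : ∃ x, t = (D n h2 σ hs).tor x := by
  obtain ⟨x, -, hx⟩ := T_tor ht (fun j => j.elim0)
  exact ⟨x, hx⟩

theorem T_eq {t : GL (Ix n 0) F} (ht : t ∈ (D n h2 σ hs).T) {x : Fin n → Fˣ}
    (h : ∀ i, (t : Matrix (Ix n 0) (Ix n 0) F) (ei i) (ei i) = x i) : t = (D n h2 σ hs).tor x := by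
  obtain ⟨x', rfl⟩ := T_ex ht
  have h1 : x' = x := by
    funext i
    apply Units.ext
    rw [← h i, tor_e]
  rw [h1]

theorem pw_one : (pw 0 1 : Perm (Ix n 0)) = 1 := by
  ext x
  rcases x with ⟨i, b⟩ | j
  · rfl
  · rfl

theorem det_tor (x : Fin n → Fˣ) : ((D n h2 σ hs).tor x : Matrix (Ix n 0) (Ix n 0) F).det =
    ((∏ i, x i : Fˣ) : F) * (σ ((∏ i, x i : Fˣ) : F))⁻¹ := by
  have h1 : (D n h2 σ hs).tor x = mo (pw 0 1) (hyc (D n h2 σ hs).σ x) := hy_mo 1 x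
  rw [h1, mo_det, pw_one, Equiv.Perm.sign_one, Units.val_one, Int.cast_one, one_mul, Fintype.prod_sum_type,
    Fintype.prod_prod_type, Finset.univ_eq_empty (α := Fin 0), Finset.prod_empty, mul_one]
  have h3 : ∀ i : Fin n, ∏ b : Bool, ((hyc (D n h2 σ hs).σ x (Sum.inl (i, b) : Ix n 0) : Fˣ) : F) =
      (x i : F) * (σ (x i : F))⁻¹ := by
    intro i
    rw [Fintype.prod_bool, mul_comm]
    show (x i : F) * (((Units.map (σ : F →* F) (x i))⁻¹ : Fˣ) : F) = _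
    rw [Units.val_inv_eq_inv_val, Units.coe_map]
    rfl
  rw [Finset.prod_congr rfl fun i _ => h3 i, Finset.prod_mul_distrib, Units.coe_prod, map_prod,
    Finset.prod_inv_distrib]

theorem mem_TH (x : Fin n → Fˣ) : (D n h2 σ hs).tor x ∈ (D n h2 σ hs).T ⊓ ((D n h2 σ hs).G ⊓ DT (Ix n 0) F) ↔
    S σ x := by
  have h1 : (D n h2 σ hs).tor x ∈ (D n h2 σ hs).G := (tor_T x : _ ∈ (D n h2 σ hs).G ⊓ _).1
  have h3 : (D n h2 σ hs).tor x ∈ DT (Ix n 0) F ↔ S σ x := by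
    rw [mem_DT, det_tor, S, mul_inv_eq_one₀]
    · exact eq_comm
    · exact (map_ne_zero σ).2 (Units.ne_zero _)
  rw [Subgroup.mem_inf, Subgroup.mem_inf, h3]
  exact ⟨fun h => h.2.2, fun h => ⟨tor_T x, h1, h⟩⟩

theorem conj_T {m t : GL (Ix n 0) F} (hm : m ∈ NN (D n h2 σ hs).s (D n h2 σ hs).T) (ht : t ∈ (D n h2 σ hs).T) :
    m⁻¹ * t * m ∈ (D n h2 σ hs).T := by
  obtain ⟨w, _, c, hmc⟩ := NN_mo hm
  have h1 : m ∈ (D n h2 σ hs).G := NN_le hm
  have h3 : t ∈ (D n h2 σ hs).G := (ht : _ ∈ (D n h2 σ hs).G ⊓ _).1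
  refine ⟨Subgroup.mul_mem _ (Subgroup.mul_mem _ (Subgroup.inv_mem _ h1) h3) h1, ?_⟩
  rw [hmc]
  exact (mo_conj_DG w c (T_DG ht)).2

theorem conj_app {w : Perm (Ix n 0)} {c : Ix n 0 → Fˣ} (t : GL (Ix n 0) F) (x : Ix n 0) :
    (((mo w c)⁻¹ * t * mo w c : GL (Ix n 0) F) : Matrix (Ix n 0) (Ix n 0) F) x x =
      (t : Matrix (Ix n 0) (Ix n 0) F) (w x) (w x) := by
  rw [mo_conj, mul_comm ((((c x)⁻¹ : Fˣ) : F)), mul_assoc, ← Units.val_mul, inv_mul_cancel, Units.val_one, mul_one]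

theorem conj_single {m : GL (Ix n 0) F} (hm : m ∈ NN (D n h2 σ hs).s (D n h2 σ hs).T) (i : Fin n) {y : Fˣ}
    (hy : σ (y : F) = y) : ∃ j, m⁻¹ * (D n h2 σ hs).tor (Pi.mulSingle i y) * m =
      (D n h2 σ hs).tor (Pi.mulSingle j y) ∨ m⁻¹ * (D n h2 σ hs).tor (Pi.mulSingle i y) * m =
      (D n h2 σ hs).tor (Pi.mulSingle j y⁻¹) := by
  have h0 := conj_T hm (tor_T (h2 := h2) (hs := hs) (Pi.mulSingle i y))
  obtain ⟨w, hw, c, rfl⟩ := NN_mo hm
  have he : ∀ k, ((D n h2 σ hs).tor (Pi.mulSingle i y) : Matrix (Ix n 0) (Ix n 0) F) (ei k) (ei k) =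
      (Pi.mulSingle i y : Fin n → Fˣ) k := fun k => tor_e _ k
  have hf : ∀ k, ((D n h2 σ hs).tor (Pi.mulSingle i y) : Matrix (Ix n 0) (Ix n 0) F) (fi k) (fi k) =
      (((Pi.mulSingle i y⁻¹ : Fin n → Fˣ) k : Fˣ) : F) := by
    intro k
    rw [tor_f]
    show (σ ((Pi.mulSingle i y : Fin n → Fˣ) k : F))⁻¹ = _
    by_cases hk : k = i
    · rw [hk, Pi.mulSingle_eq_same, Pi.mulSingle_eq_same, hy, Units.val_inv_eq_inv_val]
    · rw [Pi.mulSingle_eq_of_ne hk, Pi.mulSingle_eq_of_ne hk, Units.val_one, map_one, inv_one]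
  have hdd : ∀ x : Ix n 0, du (du x) = x := du_du
  have hde : ∀ k : Fin n, du (ei k : Ix n 0) = fi k := fun _ => rfl
  have hdf : ∀ k : Fin n, du (fi k : Ix n 0) = ei k := fun _ => rfl
  have hcase : ∀ x : Ix n 0, (∃ k, x = ei k) ∨ ∃ k, x = fi k := by
    rintro (⟨k, b⟩ | j)
    · cases b
      · exact Or.inl ⟨k, rfl⟩
      · exact Or.inr ⟨k, rfl⟩
    · exact j.elim0
  have hei : ∀ {k k' : Fin n}, (ei k : Ix n 0) = ei k' → k = k' := fun h => (Prod.mk.inj (Sum.inl.inj h)).1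
  have hfi : ∀ {k k' : Fin n}, (fi k : Ix n 0) = fi k' → k = k' := fun h => (Prod.mk.inj (Sum.inl.inj h)).1
  have hef : ∀ {k k' : Fin n}, (ei k : Ix n 0) ≠ fi k' := fun h =>
    Bool.false_ne_true (Prod.mk.inj (Sum.inl.inj h)).2
  rcases hcase (w.symm (ei i)) with ⟨j, hj⟩ | ⟨j, hj⟩
  · have hj' : w (ei j) = ei i := by rw [← hj, Equiv.apply_symm_apply]
    refine ⟨j, Or.inl (T_eq h0 fun k => ?_)⟩
    rw [conj_app]
    by_cases hk : k = j
    · rw [hk, hj', he, Pi.mulSingle_eq_same, Pi.mulSingle_eq_same]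
    · rw [Pi.mulSingle_eq_of_ne hk]
      rcases hcase (w (ei k)) with ⟨k', hk'⟩ | ⟨k', hk'⟩
      · rw [hk', he, Pi.mulSingle_eq_of_ne]
        rintro rfl
        exact hk (hei (w.injective (hk'.trans hj'.symm)))
      · rw [hk', hf, Pi.mulSingle_eq_of_ne]
        rintro rfl
        have h5 : w (ei k) = w (fi j) := by
          rw [hk', ← hde j, hw.1, hj', hde]
        exact hef (w.injective h5)
  · have hj' : w (fi j) = ei i := by rw [← hj, Equiv.apply_symm_apply]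
    have hj2 : w (ei j) = fi i := by rw [← hdf j, hw.1, hj', hde]
    refine ⟨j, Or.inr (T_eq h0 fun k => ?_)⟩
    rw [conj_app]
    by_cases hk : k = j
    · rw [hk, hj2, hf, Pi.mulSingle_eq_same, Pi.mulSingle_eq_same]
    · rw [Pi.mulSingle_eq_of_ne hk]
      rcases hcase (w (ei k)) with ⟨k', hk'⟩ | ⟨k', hk'⟩
      · rw [hk', he, Pi.mulSingle_eq_of_ne]
        rintro rfl
        exact hef (w.injective (hk'.trans hj'.symm))
      · rw [hk', hf, Pi.mulSingle_eq_of_ne]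
        rintro rfl
        exact hk (hei (w.injective (hk'.trans hj2.symm)))

theorem s_conj {l : Fin n} (hl : (l : ℕ) = 0) {x x' : Fin n → Fˣ}
    (h0 : ((x' l : Fˣ) : F) = (σ (x l : F))⁻¹) (h1 : ∀ k, k ≠ l → x' k = x k) :
    ((D n h2 σ hs).s l)⁻¹ * (D n h2 σ hs).tor x * (D n h2 σ hs).s l = (D n h2 σ hs).tor x' := by
  have h3 : (D n h2 σ hs).s l ∈ NN (D n h2 σ hs).s (D n h2 σ hs).T :=
    Subgroup.subset_closure (Or.inl ⟨l, rfl⟩)
  have h4 := conj_T h3 (tor_T (h2 := h2) (hs := hs) x)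
  refine T_eq h4 fun k => ?_
  rw [s_mo, conj_app]
  have hw := ws_0 (a := 0) hl
  by_cases hk : k = l
  · rw [hk, hw.1, tor_f, h0]
    rfl
  · rw [(hw.2.2.1 k hk).1, tor_e, h1 k hk]

/-- the second alternative -/
theorem second (hne : ∃ x, σ x ≠ x) (hn : 2 ≤ n) {f : GL (Ix n 0) F → ℤˣ}
    (hf : ∀ x ∈ (D n h2 σ hs).T ⊓ ((D n h2 σ hs).G ⊓ DT (Ix n 0) F),
      ∀ y ∈ (D n h2 σ hs).T ⊓ ((D n h2 σ hs).G ⊓ DT (Ix n 0) F), f (x * y) = f x * f y)
    (hψ : ∀ i, ∀ y : Fˣ, σ (y : F) = y → f ((D n h2 σ hs).tor (Pi.mulSingle i y)) = ch σ (y : F))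
    {nt : GL (Ix n 0) F} {k0 : Fin n} (hk0 : (k0 : ℕ) = 0)
    (hnt : ∃ x ∈ (D n h2 σ hs).T, nt = (D n h2 σ hs).s k0 * x)
    {m : GL (Ix n 0) F} (hm : m ∈ NN (D n h2 σ hs).s (D n h2 σ hs).T) :
    ∃ x ∈ (D n h2 σ hs).T ⊓ ((D n h2 σ hs).G ⊓ DT (Ix n 0) F),
      f (m⁻¹ * (nt⁻¹ * x * nt) * m) ≠ f (m⁻¹ * x * m) := by
  have hmG : m ∈ (D n h2 σ hs).G := NN_le hm
  have hTG : ∀ t ∈ (D n h2 σ hs).T, t ∈ (D n h2 σ hs).G := fun t ht => (ht : t ∈ (D n h2 σ hs).G ⊓ _).1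
  have hDT : ∀ t ∈ DT (Ix n 0) F, m⁻¹ * t * m ∈ DT (Ix n 0) F := by
    intro t ht
    have h1 : (Matrix.GeneralLinearGroup.det (m⁻¹ * t * m) : Fˣ) = 1 := by
      rw [map_mul, map_mul, map_inv, show Matrix.GeneralLinearGroup.det t = 1 from ht, mul_one, inv_mul_cancel]
    exact h1
  have hcl : ∀ t ∈ (D n h2 σ hs).T ⊓ ((D n h2 σ hs).G ⊓ DT (Ix n 0) F),
      m⁻¹ * t * m ∈ (D n h2 σ hs).T ⊓ ((D n h2 σ hs).G ⊓ DT (Ix n 0) F) := by
    intro t ht
    rw [Subgroup.mem_inf, Subgroup.mem_inf] at ht ⊢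
    have h1 := conj_T hm ht.1
    exact ⟨h1, hTG _ h1, hDT t ht.2.2⟩
  have hmul : ∀ x y : Fin n → Fˣ, S σ x → S σ y →
      f (m⁻¹ * (D n h2 σ hs).tor (x * y) * m) = f (m⁻¹ * (D n h2 σ hs).tor x * m) *
        f (m⁻¹ * (D n h2 σ hs).tor y * m) := by
    intro x y hx hy
    rw [← hf _ (hcl _ ((mem_TH x).2 hx)) _ (hcl _ ((mem_TH y).2 hy)), tor_mul]
    congr 1
    group
  have hψ' : ∀ i, ∀ y : Fˣ, σ (y : F) = y → f (m⁻¹ * (D n h2 σ hs).tor (Pi.mulSingle i y) * m) = ch σ (y : F) := by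
    intro i y hy
    obtain ⟨j, h | h⟩ := conj_single (h2 := h2) (hs := hs) hm i hy
    · rw [h, hψ j y hy]
    · have hy' : σ ((y⁻¹ : Fˣ) : F) = ((y⁻¹ : Fˣ) : F) := by
        rw [Units.val_inv_eq_inv_val, map_inv₀, hy]
      rw [h, hψ j y⁻¹ hy', Units.val_inv_eq_inv_val, ch_inv h2 hy]
  obtain ⟨y0, -, hy0, hch⟩ := exists_ch h2 (RingEquiv.refl F)
  let y : Fˣ := Units.mk0 y0 hy0
  have hσy : σ y0 ≠ 0 := (map_ne_zero σ).2 hy0
  let z : Fˣ := (Units.mk0 (y0 * σ y0) (mul_ne_zero hy0 hσy))⁻¹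
  have hzn : (z : F) = (y0 * σ y0)⁻¹ := Units.val_inv_eq_inv_val _
  have hfix : σ (y0 * σ y0) = y0 * σ y0 := by rw [map_mul, hs, mul_comm]
  have hz : σ (z : F) = z := by rw [hzn, map_inv₀, hfix]
  have hchz : ch σ (z : F) = -1 := by
    rw [hzn, ch_inv h2 hfix, norm_ch h2 hs hne hy0, hch]
  let k1 : Fin n := ⟨1, by omega⟩
  have hk01 : k1 ≠ k0 := fun h => by
    have := congrArg Fin.val h
    rw [hk0] at this
    exact absurd this one_ne_zero
  let x : Fin n → Fˣ := Pi.mulSingle k0 y * Pi.mulSingle k1 y⁻¹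
  have hxS : S σ x := S_pair k0 k1 y
  have hxk0 : x k0 = y := by
    show (Pi.mulSingle k0 y : Fin n → Fˣ) k0 * (Pi.mulSingle k1 y⁻¹ : Fin n → Fˣ) k0 = y
    rw [Pi.mulSingle_eq_same, Pi.mulSingle_eq_of_ne hk01.symm, mul_one]
  have hconj : nt⁻¹ * (D n h2 σ hs).tor x * nt = (D n h2 σ hs).tor (x * Pi.mulSingle k0 z) := by
    obtain ⟨t, ht, hnt'⟩ := hnt
    have h3 : ((D n h2 σ hs).s k0)⁻¹ * (D n h2 σ hs).tor x * (D n h2 σ hs).s k0 =
        (D n h2 σ hs).tor (x * Pi.mulSingle k0 z) := by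
      refine s_conj hk0 ?_ ?_
      · show ((x k0 * (Pi.mulSingle k0 z : Fin n → Fˣ) k0 : Fˣ) : F) = _
        rw [Pi.mulSingle_eq_same, hxk0, Units.val_mul, hzn]
        show y0 * (y0 * σ y0)⁻¹ = (σ y0)⁻¹
        rw [mul_inv, ← mul_assoc, mul_inv_cancel₀ hy0, one_mul]
      · intro k hk
        show x k * (Pi.mulSingle k0 z : Fin n → Fˣ) k = x k
        rw [Pi.mulSingle_eq_of_ne hk, mul_one]
    have h4 : nt⁻¹ * (D n h2 σ hs).tor x * nt =
        t⁻¹ * (((D n h2 σ hs).s k0)⁻¹ * (D n h2 σ hs).tor x * (D n h2 σ hs).s k0) * t := by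
      rw [hnt']
      group
    rw [h4, h3, mul_assoc, T_comm (tor_T _) ht, ← mul_assoc, inv_mul_cancel, one_mul]
  refine ⟨(D n h2 σ hs).tor x, (mem_TH x).2 hxS, ?_⟩
  rw [hconj, hmul x _ hxS (S_single hz), hψ' k0 z hz, hchz]
  intro h
  rcases Int.units_eq_one_or (f (m⁻¹ * (D n h2 σ hs).tor x * m)) with h5 | h5 <;> rw [h5] at h <;>
    exact absurd h (by decide)

/-- the first alternative -/
theorem first {f : GL (Ix n 0) F → ℤˣ}
    (hf : ∀ x ∈ (D n h2 σ hs).T ⊓ ((D n h2 σ hs).G ⊓ DT (Ix n 0) F),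
      ∀ y ∈ (D n h2 σ hs).T ⊓ ((D n h2 σ hs).G ⊓ DT (Ix n 0) F), f (x * y) = f x * f y) (i0 : Fin n)
    (hψ : ∀ y : Fˣ, σ (y : F) = y → f ((D n h2 σ hs).tor (Pi.mulSingle i0 y)) = 1) :
    ∃ a', ∀ x ∈ (D n h2 σ hs).T ⊓ ((D n h2 σ hs).G ⊓ DT (Ix n 0) F), f x = (D n h2 σ hs).th a' x := by
  obtain ⟨a', ha'⟩ := g_char (g := fun x => f ((D n h2 σ hs).tor x)) (σ := σ) h2 (by
    intro x y hx hy
    show f _ = f _ * f _
    rw [tor_mul, hf _ ((mem_TH x).2 hx) _ ((mem_TH y).2 hy)]) i0 hψ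
  refine ⟨a', fun t ht => ?_⟩
  obtain ⟨x, rfl⟩ := T_ex (Subgroup.mem_inf.1 ht).1
  rw [th_tor]
  exact ha' x ((mem_TH x).1 ht)

theorem tw_aux (hn : 2 ≤ n) (a' b' : Fin n → Bool)
    (h : ∀ x ∈ (D n h2 σ hs).T ⊓ ((D n h2 σ hs).G ⊓ DT (Ix n 0) F),
      (D n h2 σ hs).th a' x = (D n h2 σ hs).th b' x) : b' = a' ∨ b' = fun i => !(a' i) := by
  obtain ⟨y0, -, hy0, hch⟩ := exists_ch h2 (RingEquiv.refl F)
  let y : Fˣ := Units.mk0 y0 hy0
  have hchy : ch (RingEquiv.refl F) ((y : Fˣ) : F) = -1 := hch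
  have hchy' : ch (RingEquiv.refl F) (((y⁻¹ : Fˣ)) : F) = -1 := by
    rw [Units.val_inv_eq_inv_val, ch_inv h2 rfl]
    exact hch
  let k0 : Fin n := ⟨0, by omega⟩
  have key : ∀ i, i ≠ k0 → ∀ c : Fin n → Bool,
      (D n h2 σ hs).th c ((D n h2 σ hs).tor (Pi.mulSingle k0 y * Pi.mulSingle i y⁻¹)) =
        (if c k0 = true then -1 else 1) * (if c i = true then -1 else 1) := by
    intro i hi c
    rw [th_tor]
    have h1 : ∀ j, (if c j = true then ch (D n h2 σ hs).τ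
        (((Pi.mulSingle k0 y * Pi.mulSingle i y⁻¹ : Fin n → Fˣ) j : Fˣ) : F) else 1) =
        (if j = k0 then (if c k0 = true then (-1 : ℤˣ) else 1) else 1) *
        (if j = i then (if c i = true then (-1 : ℤˣ) else 1) else 1) := by
      intro j
      have hj : (Pi.mulSingle k0 y * Pi.mulSingle i y⁻¹ : Fin n → Fˣ) j =
        (Pi.mulSingle k0 y : Fin n → Fˣ) j * (Pi.mulSingle i y⁻¹ : Fin n → Fˣ) j := rfl
      by_cases h3 : j = k0
      · rw [h3, if_pos rfl, if_neg hi.symm, mul_one]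
        rw [h3] at hj
        rw [hj, Pi.mulSingle_eq_same, Pi.mulSingle_eq_of_ne hi.symm, mul_one]
        show (if c k0 = true then ch (RingEquiv.refl F) ((y : Fˣ) : F) else 1) = _
        rw [hchy]
      · rw [if_neg h3, one_mul]
        by_cases h4 : j = i
        · rw [h4, if_pos rfl]
          rw [h4] at hj
          rw [hj, Pi.mulSingle_eq_same, Pi.mulSingle_eq_of_ne hi, one_mul]
          show (if c i = true then ch (RingEquiv.refl F) ((y⁻¹ : Fˣ) : F) else 1) = _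
          rw [hchy']
        · rw [if_neg h4, hj, Pi.mulSingle_eq_of_ne h3, Pi.mulSingle_eq_of_ne h4, mul_one, Units.val_one]
          show (if c j = true then ch (RingEquiv.refl F) (1 : F) else 1) = 1
          rw [ch_one]
          exact ite_self _
    rw [Finset.prod_congr rfl fun j _ => h1 j, Finset.prod_mul_distrib, Finset.prod_ite_eq' Finset.univ k0,
      Finset.prod_ite_eq' Finset.univ i, if_pos (Finset.mem_univ _), if_pos (Finset.mem_univ _)]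
  have key2 : ∀ i, i ≠ k0 → ((a' i = a' k0) ↔ (b' i = b' k0)) := by
    intro i hi
    have h3 := h _ ((mem_TH _).2 (S_pair k0 i y))
    rw [key i hi, key i hi] at h3
    cases ha0 : a' k0 <;> cases hai : a' i <;> cases hb0 : b' k0 <;> cases hbi : b' i <;>
      simp [ha0, hai, hb0, hbi] at h3 ⊢
  by_cases h0 : b' k0 = a' k0
  · left
    funext i
    by_cases hi : i = k0
    · rw [hi, h0]
    · have h3 := key2 i hi
      cases ha0 : a' k0 <;> cases hai : a' i <;> cases hb0 : b' k0 <;> cases hbi : b' i <;>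
        simp [ha0, hai, hb0, hbi] at h3 h0 ⊢
  · right
    funext i
    by_cases hi : i = k0
    · rw [hi]
      cases ha0 : a' k0 <;> cases hb0 : b' k0 <;> simp [ha0, hb0] at h0 ⊢
    · have h3 := key2 i hi
      cases ha0 : a' k0 <;> cases hai : a' i <;> cases hb0 : b' k0 <;> cases hbi : b' i <;>
        simp [ha0, hai, hb0, hbi] at h3 h0 ⊢

theorem pr_of {x : F} (hx : x + σ x = 0) : ∃ p : (D n h2 σ hs).PR, p.1.2 = x :=
  ⟨⟨(fun j => j.elim0, x), fun j => j.elim0, rfl, by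
    show ((1 : Fˣ) : F) * x + σ x + ((1 : Fˣ) : F) * ∑ j : Fin 0, _ = 0
    rw [Finset.univ_eq_empty (α := Fin 0), Finset.sum_empty, mul_zero, add_zero, Units.val_one, one_mul, hx]⟩, rfl⟩

theorem pr_add (p : (D n h2 σ hs).PR) : p.1.2 + σ p.1.2 = 0 := by
  have h := p.2.2.2
  have h' : ((1 : Fˣ) : F) * p.1.2 + σ p.1.2 + ((1 : Fˣ) : F) * ∑ j : Fin 0, σ (p.1.1 j) * p.1.1 (Fin.rev j) = 0 := h
  have h3 : (∑ j : Fin 0, σ (p.1.1 j) * p.1.1 (Fin.rev j)) = 0 := Fin.sum_univ_zero _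
  rw [h3, mul_zero, add_zero, Units.val_one, one_mul] at h'
  exact h'

theorem pr_ne (hne : ∃ x, σ x ≠ x) : ∃ p : (D n h2 σ hs).PR, p.1.2 ≠ 0 := by
  obtain ⟨y, hy⟩ := hne
  obtain ⟨p, hp⟩ := pr_of (n := n) (h2 := h2) (hs := hs) (x := y - σ y) (by rw [map_sub, hs]; ring)
  exact ⟨p, by rw [hp]; exact sub_ne_zero.2 (Ne.symm hy)⟩

theorem r_ex (hne : ∃ x, σ x ≠ x) {l : Fin n} (hl : (l : ℕ) = 0) : ∃ r ∈ (D n h2 σ hs).R l, r ≠ 1 := by
  obtain ⟨p, hp⟩ := pr_ne (n := n) (h2 := h2) (hs := hs) hne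
  obtain ⟨r, hr, -, h1⟩ := exists_R0 hl p
  refine ⟨r, hr, fun h => hp ?_⟩
  rw [← h1, h, Units.val_one, Matrix.one_apply_ne]
  exact fun h3 => Bool.false_ne_true (Prod.mk.inj (Sum.inl.inj h3)).2

/-- the parameters of the root subgroup of the end node -/
def prE : (D n h2 σ hs).PR ≃ {x : F // x + σ x = 0} where
  toFun p := ⟨p.1.2, pr_add p⟩
  invFun x := (pr_of (n := n) (h2 := h2) (hs := hs) x.2).choose
  left_inv p := by
    have h := (pr_of (n := n) (h2 := h2) (hs := hs) (pr_add p)).choose_spec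
    apply Subtype.ext
    exact Prod.ext (Subsingleton.elim _ _) h
  right_inv x := by
    have h := (pr_of (n := n) (h2 := h2) (hs := hs) x.2).choose_spec
    exact Subtype.ext h

theorem sum_aux {X : Type} [Finite X] (v : ℤ) (x0 : X) (f : X → ℤ) (h0 : f x0 = 0) (h : ∀ x, x ≠ x0 → f x = v) :
    ∑ᶠ x, f x = v * ((Nat.card X : ℤ) - 1) := by
  haveI := Fintype.ofFinite X
  rw [finsum_eq_sum_of_fintype, Nat.card_eq_fintype_card]
  have h1 : ∀ x, f x = v - if x = x0 then v else 0 := by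
    intro x
    by_cases hx : x = x0
    · rw [if_pos hx, hx, h0, sub_self]
    · rw [if_neg hx, h x hx, sub_zero]
  rw [Finset.sum_congr rfl fun x _ => h1 x, Finset.sum_sub_distrib, Finset.sum_ite_eq' Finset.univ x0,
    if_pos (Finset.mem_univ _), Finset.sum_const, Finset.card_univ, nsmul_eq_mul]
  ring

theorem es_aux (hne : ∃ x, σ x ≠ x) {k : Fin n} (hk : (k : ℕ) = 0) (a' : Fin n → Bool) :
    rsum ((D n h2 σ hs).R k) ((D n h2 σ hs).hh k) ((D n h2 σ hs).th a') =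
      (if a' k = true then ((sqn σ (-1) : ℤˣ) : ℤ) else 1) * ((Nat.card {x : F // σ x = x} : ℤ) - 1) := by
  rw [rsum_zero hk]
  have h1 : Nat.card {x : F // σ x = x} = Nat.card (D n h2 σ hs).PR := by
    rw [← card_tr h2 hs hne (map_zero σ)]
    exact (Nat.card_congr prE).symm
  have hz : (0 : F) + σ 0 = 0 := by rw [map_zero, add_zero]
  rw [h1]
  haveI : Finite {x : F // x + σ x = 0} := inferInstance
  haveI : Finite (D n h2 σ hs).PR := Finite.of_equiv _ (prE (n := n) (h2 := h2) (hs := hs)).symm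
  refine sum_aux _ ((prE (n := n) (h2 := h2) (hs := hs)).symm ⟨0, hz⟩) _ ?_ ?_
  · have h3 := (prE (n := n) (h2 := h2) (hs := hs)).apply_symm_apply ⟨0, hz⟩
    have h4 : ((prE (n := n) (h2 := h2) (hs := hs)).symm ⟨0, hz⟩).1.2 = 0 := congrArg Subtype.val h3
    exact if_pos h4
  · intro p hp
    have h5 : p.1.2 ≠ 0 := by
      intro h
      apply hp
      rw [Equiv.eq_symm_apply]
      exact Subtype.ext h
    rw [if_neg h5]
    by_cases hb : a' k = true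
    · rw [if_pos hb, if_pos hb]
      have h6 : ((D n h2 σ hs).ep : F) * p.1.2 = p.1.2 := by
        show ((1 : Fˣ) : F) * p.1.2 = p.1.2
        rw [Units.val_one, one_mul]
      rw [h6]
      exact congrArg (fun u : ℤˣ => (u : ℤ)) (tr_zero h2 hs hne h5 (pr_add p))
    · rw [if_neg hb, if_neg hb, Units.val_one]

theorem hN_aux : ∀ g ∈ (D n h2 σ hs).G, ∀ h ∈ (D n h2 σ hs).G ⊓ DT (Ix n 0) F,
    g * h * g⁻¹ ∈ (D n h2 σ hs).G ⊓ DT (Ix n 0) F := by
  intro g hg h hh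
  rw [Subgroup.mem_inf] at hh ⊢
  refine ⟨Subgroup.mul_mem _ (Subgroup.mul_mem _ hg hh.1) (Subgroup.inv_mem _ hg), ?_⟩
  have h1 : (Matrix.GeneralLinearGroup.det (g * h * g⁻¹) : Fˣ) = 1 := by
    rw [map_mul, map_mul, map_inv, show Matrix.GeneralLinearGroup.det h = 1 from hh.2, mul_one, mul_inv_cancel]
  exact h1

theorem UH_aux : (D n h2 σ hs).U ≤ (D n h2 σ hs).G ⊓ DT (Ix n 0) F := fun u hu =>
  ⟨U_le hu, GS_le_DT (hu : u ∈ (D n h2 σ hs).G ⊓ _).2⟩

theorem nt_aux (hne : ∃ x, σ x ≠ x) {l : Fin n} (hl : (l : ℕ) = 0) :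
    (∃ x ∈ (D n h2 σ hs).T, (if h : ∃ r ∈ (D n h2 σ hs).R l, r ≠ 1 then
      (D n h2 σ hs).s l * (D n h2 σ hs).hh l h.choose else 1) = (D n h2 σ hs).s l * x) ∧
    (if h : ∃ r ∈ (D n h2 σ hs).R l, r ≠ 1 then
      (D n h2 σ hs).s l * (D n h2 σ hs).hh l h.choose else 1) ∈ (D n h2 σ hs).G ⊓ DT (Ix n 0) F := by
  have h := r_ex (h2 := h2) (hs := hs) hne hl
  rw [dif_pos h]
  have h1 := h.choose_spec
  exact ⟨⟨_, (hh_zero hl h1.1 h1.2).1, rfl⟩, nt_mem hN_aux UH_aux hl h1.1 h1.2 (s_sq_one rfl (Or.inl rfl) l)⟩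

end

end

end AO.P04_aux

namespace AO.MG

noncomputable section

open Classical Equiv Matrix

open AN (sq)


/-- the data of the unitary group in dimension `2 n` -/
def kU0 {n : ℕ} (hn : 2 ≤ n) {F : Type} [Field F] [Finite F] (h2 : (2 : F) ≠ 0) (σ : F ≃+* F)
    (hs : ∀ x, σ (σ x) = x) (hne : ∃ x, σ x ≠ x) :
    (fU n (a := 0) (Nat.zero_le 1) h2 σ hs).KD where
  H := (fU n (a := 0) (Nat.zero_le 1) h2 σ hs).G ⊓ DT (Ix n 0) F
  gd := true
  su := fun b => (if b = true then ((sqn σ (-1) : ℤˣ) : ℤ) else 1) * ((Nat.card {x : F // σ x = x} : ℤ) - 1)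
  nt := if h : ∃ r ∈ (fU n (a := 0) (Nat.zero_le 1) h2 σ hs).R ⟨0, by omega⟩, r ≠ 1 then
    (fU n (a := 0) (Nat.zero_le 1) h2 σ hs).s ⟨0, by omega⟩ *
      (fU n (a := 0) (Nat.zero_le 1) h2 σ hs).hh ⟨0, by omega⟩ h.choose else 1
  HG := inf_le_left
  hN := P04_aux.hN_aux
  UH := P04_aux.UH_aux
  HT := HT_of inf_le_left P04_aux.hN_aux P04_aux.UH_aux (P04_aux.pr_ne hne)
  es := fun _ hk a' => P04_aux.es_aux hne hk a'
  ze1 := fun _ => ch_one
  ze2 := fun h => absurd h.symm Bool.false_ne_true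
  ntN := by
    intro k hk
    have hk' : k = ⟨0, by omega⟩ := Fin.ext hk
    rw [hk']
    exact (P04_aux.nt_aux (h2 := h2) (hs := hs) (l := (⟨0, by omega⟩ : Fin n)) hne rfl).1
  ntH := (P04_aux.nt_aux (h2 := h2) (hs := hs) (l := (⟨0, by omega⟩ : Fin n)) hne rfl).2
  re := by
    intro f hf
    have hg : ∀ x y, P04_aux.S σ x → P04_aux.S σ y →
        (fun x => f ((P04_aux.D n h2 σ hs).tor x)) (x * y) = (fun x => f ((P04_aux.D n h2 σ hs).tor x)) x *
        (fun x => f ((P04_aux.D n h2 σ hs).tor x)) y := by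
      intro x y hx hy
      show f _ = f _ * f _
      rw [tor_mul]
      exact hf _ ((P04_aux.mem_TH x).2 hx) _ ((P04_aux.mem_TH y).2 hy)
    rcases P04_aux.g_alt (g := fun x => f ((P04_aux.D n h2 σ hs).tor x)) h2 hs hne hg (⟨0, by omega⟩ : Fin n)
      with h | h
    · exact Or.inl (P04_aux.first hf (⟨0, by omega⟩ : Fin n) (h _))
    · exact Or.inr fun m hm _ => P04_aux.second hne hn hf h (k0 := (⟨0, by omega⟩ : Fin n)) rfl
        (P04_aux.nt_aux (h2 := h2) (hs := hs) (l := (⟨0, by omega⟩ : Fin n)) hne rfl).1 hm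
  tw := fun a' b' h => P04_aux.tw_aux hn a' b' h

end

end AO.MG
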