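import Pool.Agent.AO.P00
import Pool.Agent.AO.P04
import Pool.Agent.AO.G01
import Pool.Agent.AO.Z01

/-!
# MP_6c3636_al, AO, module P05: (A) and (B) for special unitary groups in even dimension, odd characteristic (helper7)

`X = (kU0 ..).bn`, `B = X.toBN`, `k = ℚ`, `q` = the cardinality of the fixed field of `σ` (`card_odd` for `τ = σ`). `P`: `q`, `e = 2`, `j = (0, -1, 0, -1)`, `w true = sqn σ (-1)`, `w false = 1`. `Fit`: `card`: `card_in`, `card_R_pos`, `card_refl`, `card_fix`. `Nat.card (R 0) = q` (`card_zero`, `card_tr` for `y = 0`). `sum`: `q * (w - w * q⁻¹) = w * (q - 1)`. `prod`: `q * (w * (- w * q⁻¹)) = -1`. `half`: second alternative: `la g = sqn σ (det g)` (`det g * σ (det g) = 1` from the isometry condition; `sqn_mul`), `la = 1` on `H`; on `T`: `x = tor x'`, `det = y / σ y` with `y = ∏ x' i`, `sqn_of`: `ch y`; `det (s 0) = -1` (`mo_det`), so `la (s 0) = sqn σ (-1)`. `FixOK`: `R₀ = 1`.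
-/

namespace AO.MG

noncomputable section

open Classical Equiv Matrix

open AN (sq)


section P05_aux

variable {n : ℕ} {F : Type} [Field F] [Finite F] {σ : F ≃+* F}

/-- the form -/
private abbrev D5 (n : ℕ) {F : Type} [Field F] (h2 : (2 : F) ≠ 0) (σ : F ≃+* F)
    (hs : ∀ x, σ (σ x) = x) : FD n 0 F := fU n (a := 0) (Nat.zero_le 1) h2 σ hs

omit [Finite F] in
private theorem map_det (σ : F ≃+* F) (A : Matrix (Ix n 0) (Ix n 0) F) : (A.map σ).det = σ A.det := by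
  have h := RingHom.map_det (σ : F →+* F) A
  exact h.symm

private theorem det_norm (h2 : (2 : F) ≠ 0) (hs : ∀ x, σ (σ x) = x) {g : GL (Ix n 0) F}
    (hg : g ∈ (D5 n h2 σ hs).G) :
    (g : Matrix (Ix n 0) (Ix n 0) F).det * σ (g : Matrix (Ix n 0) (Ix n 0) F).det = 1 := by
  have h1 : ((g : Matrix (Ix n 0) (Ix n 0) F).map σ)ᵀ * (D5 n h2 σ hs).J *
      (g : Matrix (Ix n 0) (Ix n 0) F) = (D5 n h2 σ hs).J := (mem_G.1 hg).1
  have hJ : (D5 n h2 σ hs).J.det ≠ 0 := by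
    have h3 : (D5 n h2 σ hs).J = ((mo du (D5 n h2 σ hs).c : GL (Ix n 0) F) :
        Matrix (Ix n 0) (Ix n 0) F)ᵀ := by
      ext x y
      rw [Matrix.transpose_apply, mo_apply]
      rfl
    rw [h3, Matrix.det_transpose]
    exact ((Matrix.isUnit_iff_isUnit_det _).1 (Units.isUnit _)).ne_zero
  have h4 := congrArg Matrix.det h1
  rw [Matrix.det_mul, Matrix.det_mul, Matrix.det_transpose, map_det] at h4
  have h5 : (D5 n h2 σ hs).J.det * ((g : Matrix (Ix n 0) (Ix n 0) F).det *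
      σ (g : Matrix (Ix n 0) (Ix n 0) F).det) = (D5 n h2 σ hs).J.det * 1 := by
    rw [mul_one]
    linear_combination h4
  exact mul_left_cancel₀ hJ h5

private theorem sqn_one (h2 : (2 : F) ≠ 0) (hs : ∀ x, σ (σ x) = x) (hne : ∃ x, σ x ≠ x) :
    sqn σ (1 : F) = 1 := by
  have h := sqn_mul h2 hs hne (z := 1) (z' := 1) (by rw [map_one, mul_one]) (by rw [map_one, mul_one])
  rw [mul_one, Int.units_mul_self] at h
  exact h

/-- the homomorphism `la` -/
private def la5 (h2 : (2 : F) ≠ 0) (hs : ∀ x, σ (σ x) = x) (hne : ∃ x, σ x ≠ x) :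
    (D5 n h2 σ hs).G →* ℤˣ where
  toFun g := sqn σ ((g : GL (Ix n 0) F) : Matrix (Ix n 0) (Ix n 0) F).det
  map_one' := by
    rw [Subgroup.coe_one, Units.val_one, Matrix.det_one]
    exact sqn_one h2 hs hne
  map_mul' := by
    intro g h
    rw [Subgroup.coe_mul, Units.val_mul, Matrix.det_mul]
    exact sqn_mul h2 hs hne (det_norm h2 hs g.2) (det_norm h2 hs h.2)

private theorem prod_ch (h2 : (2 : F) ≠ 0) (x : Fin n → Fˣ) (S : Finset (Fin n)) :
    ch (RingEquiv.refl F) (∏ i ∈ S, (x i : F)) = ∏ i ∈ S, ch (RingEquiv.refl F) (x i : F) := by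
  induction S using Finset.induction_on with
  | empty => rw [Finset.prod_empty, Finset.prod_empty, ch_one]
  | insert i S hi ih =>
    rw [Finset.prod_insert hi, Finset.prod_insert hi, ch_mul h2 rfl (x i).ne_zero rfl
      (Finset.prod_ne_zero_iff.2 fun j _ => (x j).ne_zero), ih]

omit [Finite F] in
private theorem det_DG {t : GL (Ix n 0) F} (ht : t ∈ DG (Ix n 0) F) :
    (t : Matrix (Ix n 0) (Ix n 0) F).det =
      ∏ x : Ix n 0, (t : Matrix (Ix n 0) (Ix n 0) F) x x := by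
  have h : (t : Matrix (Ix n 0) (Ix n 0) F) = Matrix.diagonal
      (fun x => (t : Matrix (Ix n 0) (Ix n 0) F) x x) := by
    ext x y
    by_cases hxy : x = y
    · rw [hxy, Matrix.diagonal_apply_eq]
    · rw [Matrix.diagonal_apply_ne _ hxy, mem_DG.1 ht x y hxy]
  rw [h, Matrix.det_diagonal]
  exact Finset.prod_congr rfl fun x _ => by rw [Matrix.diagonal_apply_eq]

private theorem det_tor (h2 : (2 : F) ≠ 0) (hs : ∀ x, σ (σ x) = x) (x : Fin n → Fˣ)
    (ht : (D5 n h2 σ hs).tor x ∈ (D5 n h2 σ hs).T) :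
    (((D5 n h2 σ hs).tor x : GL (Ix n 0) F) : Matrix (Ix n 0) (Ix n 0) F).det =
      (∏ i, (x i : F)) * (σ (∏ i, (x i : F)))⁻¹ := by
  rw [det_DG (T_DG ht), Fintype.prod_sum_type, Fintype.prod_prod_type]
  rw [Finset.univ_eq_empty (α := Fin 0), Finset.prod_empty, mul_one, map_prod, ← Finset.prod_inv_distrib,
    ← Finset.prod_mul_distrib]
  refine Finset.prod_congr rfl fun i _ => ?_
  rw [Fintype.prod_bool, mul_comm]
  exact congrArg₂ _ (tor_e x i) (tor_f x i)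

private theorem la_T (h2 : (2 : F) ≠ 0) (hs : ∀ x, σ (σ x) = x) (hne : ∃ x, σ x ≠ x)
    {t : GL (Ix n 0) F} (ht : t ∈ (D5 n h2 σ hs).T) :
    sqn σ (t : Matrix (Ix n 0) (Ix n 0) F).det = (D5 n h2 σ hs).th (fun _ => true) t := by
  obtain ⟨x, -, rfl⟩ := T_tor ht (fun j => j.elim0)
  have hp : (∏ i, (x i : F)) ≠ 0 := Finset.prod_ne_zero_iff.2 fun j _ => (x j).ne_zero
  rw [th_tor, det_tor h2 hs x ht, sqn_of h2 hs hne hp, prod_ch h2 x]
  · refine Finset.prod_congr rfl fun i _ => ?_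
    rw [if_pos rfl]
    rfl
  · rw [mul_assoc, inv_mul_cancel₀ ((map_ne_zero σ).2 hp), mul_one]

private theorem det_s0 (h2 : (2 : F) ≠ 0) (hs : ∀ x, σ (σ x) = x) {l : Fin n} (hl : (l : ℕ) = 0) :
    (((D5 n h2 σ hs).s l : GL (Ix n 0) F) : Matrix (Ix n 0) (Ix n 0) F).det = -1 := by
  have h1 : ws 0 l = Equiv.swap (ei l) (fi l) := by
    obtain ⟨a1, a2, a3, -⟩ := ws_0 (a := 0) hl
    ext x
    rcases x with ⟨i, b⟩ | j
    · by_cases hi : i = l
      · subst hi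
        cases b
        · exact a1.trans (Equiv.swap_apply_left _ _).symm
        · exact a2.trans (Equiv.swap_apply_right _ _).symm
      · cases b
        · refine (a3 i hi).1.trans (Equiv.swap_apply_of_ne_of_ne ?_ ?_).symm
          · intro h
            exact hi (congrArg Prod.fst (Sum.inl.inj h))
          · intro h
            exact hi (congrArg Prod.fst (Sum.inl.inj h))
        · refine (a3 i hi).2.trans (Equiv.swap_apply_of_ne_of_ne ?_ ?_).symm
          · intro h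
            exact hi (congrArg Prod.fst (Sum.inl.inj h))
          · intro h
            exact hi (congrArg Prod.fst (Sum.inl.inj h))
    · exact j.elim0
  have h3 : (ei l : Ix n 0) ≠ fi l := fun h =>
    Bool.false_ne_true (congrArg Prod.snd (Sum.inl.inj h))
  have h4 : ∀ x, (D5 n h2 σ hs).cs l x = 1 := by
    intro x
    have h5 : (D5 n h2 σ hs).cs l = (D5 n h2 σ hs).c0 := if_neg (by omega)
    rw [h5]
    rcases x with ⟨i, b⟩ | j
    · cases b
      · show (if (i : ℕ) = 0 then (1 : Fˣ) else 1) = 1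
        exact ite_self _
      · rfl
    · exact j.elim0
  rw [s_mo, mo_det, h1, Equiv.Perm.sign_swap h3]
  rw [Finset.prod_congr rfl fun x _ => by rw [h4 x, Units.val_one], Finset.prod_const_one, mul_one]
  push_cast
  rfl

private theorem card_R0 (h2 : (2 : F) ≠ 0) (hs : ∀ x, σ (σ x) = x) (hne : ∃ x, σ x ≠ x) {l : Fin n}
    (hl : (l : ℕ) = 0) : Nat.card ((D5 n h2 σ hs).R l) = Nat.card {x : F // σ x = x} := by
  rw [card_zero hl, ← card_tr h2 hs hne (y := 0) (map_zero σ)]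
  refine Nat.card_congr
    { toFun := fun p => ⟨p.1.2, by
        have h := p.2.2.2
        rw [Fin.sum_univ_zero, mul_zero, add_zero] at h
        have h' : ((1 : Fˣ) : F) * p.1.2 + σ p.1.2 = 0 := h
        rwa [Units.val_one, one_mul] at h'⟩
      invFun := fun x => ⟨(Fin.elim0, (x : F)), fun j => j.elim0, rfl, by
        rw [Fin.sum_univ_zero, mul_zero, add_zero]
        show ((1 : Fˣ) : F) * (x : F) + σ (x : F) = 0
        rw [Units.val_one, one_mul]
        exact x.2⟩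
      left_inv := fun p => Subtype.ext (Prod.ext (Subsingleton.elim _ _) rfl)
      right_inv := fun x => rfl }

/-- the parameters -/
private def P5 (h2 : (2 : F) ≠ 0) (σ : F ≃+* F) : Par ℚ where
  q := Nat.card {x : F // σ x = x}
  e := 2
  j := ![0, -1, 0, -1]
  w := fun b => if b = true then (((sqn σ (-1) : ℤˣ) : ℤ) : ℚ) else 1
  three := (card_odd h2 σ).2
  odd := (card_odd h2 σ).1
  pos := two_pos
  ne := by
    intro b
    split_ifs
    · rcases Int.units_eq_one_or (sqn σ (-1 : F)) with h | h <;> rw [h] <;> norm_num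
    · exact one_ne_zero

private theorem P5_sq (h2 : (2 : F) ≠ 0) (σ : F ≃+* F) (b : Bool) : (P5 h2 σ).w b * (P5 h2 σ).w b = 1 := by
  show (if b = true then (((sqn σ (-1) : ℤˣ) : ℤ) : ℚ) else 1) *
    (if b = true then (((sqn σ (-1) : ℤˣ) : ℤ) : ℚ) else 1) = 1
  split_ifs
  · rcases Int.units_eq_one_or (sqn σ (-1 : F)) with h | h <;> rw [h] <;> norm_num
  · exact one_mul 1

private theorem P5_yp (h2 : (2 : F) ≠ 0) (σ : F ≃+* F) (b : Bool) :
    (P5 h2 σ).r (yp b) = (P5 h2 σ).w b := by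
  cases b
  · show (P5 h2 σ).w false * ((1 : ℤ) : ℚ) * ((P5 h2 σ).q : ℚ) ^ (0 : ℤ) = _
    rw [zpow_zero, Int.cast_one, mul_one, mul_one]
  · show (P5 h2 σ).w true * ((1 : ℤ) : ℚ) * ((P5 h2 σ).q : ℚ) ^ (0 : ℤ) = _
    rw [zpow_zero, Int.cast_one, mul_one, mul_one]

private theorem P5_yn (h2 : (2 : F) ≠ 0) (σ : F ≃+* F) (b : Bool) :
    (P5 h2 σ).r (yn b) = -((P5 h2 σ).w b * ((P5 h2 σ).q : ℚ)⁻¹) := by
  cases b
  · show (P5 h2 σ).w false * ((-1 : ℤ) : ℚ) * ((P5 h2 σ).q : ℚ) ^ (-1 : ℤ) = _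
    rw [_root_.zpow_neg_one, Int.cast_neg, Int.cast_one]
    ring
  · show (P5 h2 σ).w true * ((-1 : ℤ) : ℚ) * ((P5 h2 σ).q : ℚ) ^ (-1 : ℤ) = _
    rw [_root_.zpow_neg_one, Int.cast_neg, Int.cast_one]
    ring

private theorem P5_dl (h2 : (2 : F) ≠ 0) (σ : F ≃+* F) (y : Ty) :
    (P5 h2 σ).r (dl2 y) = (((sqn σ (-1) : ℤˣ) : ℤ) : ℚ) * (P5 h2 σ).r y := by
  have hw : (P5 h2 σ).w true = (((sqn σ (-1) : ℤˣ) : ℤ) : ℚ) := rfl
  have hf : (P5 h2 σ).w false = 1 := rfl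
  have hsq := P5_sq h2 σ true
  rw [← hw]
  fin_cases y
  · show (P5 h2 σ).r (yp true) = (P5 h2 σ).w true * (P5 h2 σ).r (yp false)
    rw [P5_yp, P5_yp, hf, mul_one]
  · show (P5 h2 σ).r (yn true) = (P5 h2 σ).w true * (P5 h2 σ).r (yn false)
    rw [P5_yn, P5_yn, hf]
    ring
  · show (P5 h2 σ).r (yp false) = (P5 h2 σ).w true * (P5 h2 σ).r (yp true)
    rw [P5_yp, P5_yp, hf, hsq]
  · show (P5 h2 σ).r (yn false) = (P5 h2 σ).w true * (P5 h2 σ).r (yn true)
    rw [P5_yn, P5_yn, hf]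
    linear_combination (((P5 h2 σ).q : ℚ)⁻¹) * hsq

/-- the BN-pair -/
private abbrev X5 (hn : 2 ≤ n) (h2 : (2 : F) ≠ 0) (hs : ∀ x, σ (σ x) = x) (hne : ∃ x, σ x ≠ x) {p : ℕ}
    [CharP F p] (hp : p.Prime) (ho : Odd p) : BNin (D5 n h2 σ hs).G n := (kU0 hn h2 σ hs hne).bn hp ho

private theorem fit5 (hn : 2 ≤ n) (h2 : (2 : F) ≠ 0) (hs : ∀ x, σ (σ x) = x) (hne : ∃ x, σ x ≠ x) {p : ℕ}
    [CharP F p] (hp : p.Prime) (ho : Odd p) : Fit (X5 hn h2 hs hne hp ho).toBN (P5 h2 σ) where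
  card := by
    intro l hl
    rw [card_in]
    show Nat.card ((D5 n h2 σ hs).R l) = _
    rw [card_R_pos hl]
    show Nat.card {x : F // RingEquiv.refl F x = x} = _
    rw [card_refl, card_fix hs hne]
    rfl
  sum := by
    intro b _ i hi
    have hq : ((P5 h2 σ).q : ℚ) ≠ 0 := by
      have := (P5 h2 σ).three
      positivity
    rw [card_in]
    show (Nat.card ((D5 n h2 σ hs).R i) : ℚ) * _ = (((if b = true then ((sqn σ (-1) : ℤˣ) : ℤ) else 1) *
      ((Nat.card {x : F // σ x = x} : ℤ) - 1) : ℤ) : ℚ)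
    rw [card_R0 h2 hs hne hi, P5_yp, P5_yn]
    show ((P5 h2 σ).q : ℚ) * _ = (((if b = true then ((sqn σ (-1) : ℤˣ) : ℤ) else 1) *
      (((P5 h2 σ).q : ℤ) - 1) : ℤ) : ℚ)
    have hw : (P5 h2 σ).w b = (((if b = true then ((sqn σ (-1) : ℤˣ) : ℤ) else 1 : ℤ)) : ℚ) := by
      show (if b = true then (((sqn σ (-1) : ℤˣ) : ℤ) : ℚ) else 1) = _
      split_ifs
      · rfl
      · rw [Int.cast_one]
    rw [Int.cast_mul, ← hw]
    push_cast
    field_simp
    ring
  prod := by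
    intro b _ i hi
    have hq : ((P5 h2 σ).q : ℚ) ≠ 0 := by
      have := (P5 h2 σ).three
      positivity
    rw [card_in]
    show (Nat.card ((D5 n h2 σ hs).R i) : ℚ) * _ = -1
    rw [card_R0 h2 hs hne hi, P5_yp, P5_yn]
    show ((P5 h2 σ).q : ℚ) * _ = -1
    have hsq := P5_sq h2 σ b
    have h3 : ((P5 h2 σ).q : ℚ) * ((P5 h2 σ).w b * -((P5 h2 σ).w b * ((P5 h2 σ).q : ℚ)⁻¹)) =
        -(((P5 h2 σ).q : ℚ) * ((P5 h2 σ).q : ℚ)⁻¹) * ((P5 h2 σ).w b * (P5 h2 σ).w b) := by ring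
    rw [h3, hsq, mul_inv_cancel₀ hq, mul_one]
  half := by
    refine Or.inr ⟨la5 h2 hs hne, ?_, ?_, ?_⟩
    · intro h hh
      have h1 : ((h : GL (Ix n 0) F) : Matrix (Ix n 0) (Ix n 0) F).det = 1 :=
        mem_DT.1 (Subgroup.mem_subgroupOf.1 hh).2
      show sqn σ _ = 1
      rw [h1]
      exact sqn_one h2 hs hne
    · intro x hx
      exact la_T h2 hs hne (Subgroup.mem_subgroupOf.1 hx)
    · intro y i hi
      have h1 : la5 h2 hs hne ((X5 hn h2 hs hne hp ho).toBN.s i) = sqn σ (-1) := by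
        show sqn σ (((D5 n h2 σ hs).s i : GL (Ix n 0) F) : Matrix (Ix n 0) (Ix n 0) F).det = _
        rw [det_s0 h2 hs hi]
      rw [h1]
      exact P5_dl h2 σ y

private theorem fix5 {Ω : Type} [Field Ω] [CharZero Ω] (hn : 2 ≤ n) (h2 : (2 : F) ≠ 0)
    (hs : ∀ x, σ (σ x) = x) (hne : ∃ x, σ x ≠ x) {p : ℕ} [CharP F p] (hp : p.Prime) (ho : Odd p) :
    FixOK Ω (X5 hn h2 hs hne hp ho).toBN ℚ := by
  refine ⟨1, odd_one, fun τ _ => ⟨fun x => ?_, fun h => absurd h ?_⟩⟩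
  · rw [eq_ratCast]
    exact map_ratCast τ x
  · show ¬ true = false
    exact fun h' => Bool.noConfusion h'

end P05_aux

variable {Ω : Type} [Field Ω] [IsAlgClosed Ω] [CharZero Ω] {c : Parker.Ctx Ω}

theorem su_even_propA {n : ℕ} (hn : 2 ≤ n) {F : Type} [Field F] [Finite F] (h2 : (2 : F) ≠ 0)
    (σ : F ≃+* F) (hs : ∀ x, σ (σ x) = x) (hne : ∃ x, σ x ≠ x) :
    Parker.PropA c 1
      ((fU n (a := 0) (Nat.zero_le 1) h2 σ hs).G ⊓ DT (Ix n 0) F : Subgroup (GL (Ix n 0) F)) := by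
  obtain ⟨p, hc, hp, ho⟩ := char_odd h2
  exact propA_in (X5 hn h2 hs hne hp ho)
    (bn_propA (fit5 hn h2 hs hne hp ho) (by omega) (fix5 hn h2 hs hne hp ho))

theorem su_even_propB {n : ℕ} (hn : 2 ≤ n) {F : Type} [Field F] [Finite F] (h2 : (2 : F) ≠ 0)
    (σ : F ≃+* F) (hs : ∀ x, σ (σ x) = x) (hne : ∃ x, σ x ≠ x) :
    Parker.PropB c 1
      ((fU n (a := 0) (Nat.zero_le 1) h2 σ hs).G ⊓ DT (Ix n 0) F : Subgroup (GL (Ix n 0) F)) := by
  obtain ⟨p, hc, hp, ho⟩ := char_odd h2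
  exact propB_in (X5 hn h2 hs hne hp ho)
    (bn_propB (fit5 hn h2 hs hne hp ho) (by omega) (fix5 hn h2 hs hne hp ho))

end

end AO.MG
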