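import Pool.Agent.AO.F16
import Pool.Agent.AO.P03

/-!
# MP_6c3636_al, AO, module P06: unitary groups in odd dimension: the data (helper63)
-/

namespace AO.MG

noncomputable section

open Classical Equiv Matrix

open AN (sq)

namespace P06_aux

variable {n : ℕ} {F : Type} [Field F] [Finite F] (h2 : (2 : F) ≠ 0) (σ : F ≃+* F)
    (hs : ∀ x, σ (σ x) = x) (hne : ∃ x, σ x ≠ x)

/-- the form -/
abbrev DD (n : ℕ) {F : Type} [Field F] (h2 : (2 : F) ≠ 0) (σ : F ≃+* F)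
    (hs : ∀ x, σ (σ x) = x) : FD n 1 F := fU n (a := 1) le_rfl h2 σ hs

/-! ### the torus elements -/

/-- the coefficients of the torus element with the coordinates `x` -/
def cc (σ : F ≃+* F) (x : Fin n → Fˣ) : Ix n 1 → Fˣ
  | Sum.inl (i, false) => x i
  | Sum.inl (i, true) => (Units.map (σ : F →* F) (x i))⁻¹
  | Sum.inr _ => ∏ i, (Units.map (σ : F →* F) (x i)) * (x i)⁻¹

theorem cc_e (x : Fin n → Fˣ) (i : Fin n) : cc σ x (ei i) = x i := rfl

theorem cc_f (x : Fin n → Fˣ) (i : Fin n) : cc σ x (fi i) = (Units.map (σ : F →* F) (x i))⁻¹ := rfl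

theorem cc_m (x : Fin n → Fˣ) (j : Fin 1) :
    cc σ x (mi j) = ∏ i, (Units.map (σ : F →* F) (x i)) * (x i)⁻¹ := rfl

theorem cc_mul (x y : Fin n → Fˣ) (z : Ix n 1) : cc σ (x * y) z = cc σ x z * cc σ y z := by
  rcases z with ⟨i, b⟩ | j
  · cases b
    · rfl
    · show (Units.map (σ : F →* F) (x i * y i))⁻¹ = (Units.map (σ : F →* F) (x i))⁻¹ *
        (Units.map (σ : F →* F) (y i))⁻¹
      rw [map_mul, mul_inv]
  · show (∏ i, (Units.map (σ : F →* F) (x i * y i)) * (x i * y i)⁻¹) = (∏ i, _) * ∏ i, _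
    rw [← Finset.prod_mul_distrib]
    refine Finset.prod_congr rfl fun i _ => ?_
    rw [map_mul, mul_inv]
    exact mul_mul_mul_comm _ _ _ _

theorem prod_Ix (c : Ix n 1 → Fˣ) : ∏ z, c z = (∏ i, c (ei i) * c (fi i)) * c (mi 0) := by
  rw [Fintype.prod_sum_type, Fintype.prod_prod_type, Fin.prod_univ_one]
  congr 1
  refine Finset.prod_congr rfl fun i _ => ?_
  rw [Fintype.prod_bool, mul_comm]
  rfl

theorem prod_cc (x : Fin n → Fˣ) : ∏ z, cc σ x z = 1 := by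
  rw [prod_Ix, cc_m, ← Finset.prod_mul_distrib]
  refine Finset.prod_eq_one fun i _ => ?_
  rw [cc_e, cc_f]
  group

/-- the torus element with the coordinates `x` -/
def te (σ : F ≃+* F) (x : Fin n → Fˣ) : GL (Ix n 1) F := mo 1 (cc σ x)

theorem te_mul (x y : Fin n → Fˣ) : te σ (x * y) = te σ x * te σ y := by
  unfold te
  rw [mo_mul]
  congr 1
  funext z
  exact cc_mul σ x y z

theorem det_mo_one (c : Ix n 1 → Fˣ) : (mo 1 c : Matrix (Ix n 1) (Ix n 1) F).det = ((∏ z, c z : Fˣ) : F) := by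
  rw [mo_det, Equiv.Perm.sign_one, Units.coe_prod]
  simp

theorem mo_diag (c : Ix n 1 → Fˣ) (z : Ix n 1) : (mo 1 c : Matrix (Ix n 1) (Ix n 1) F) z z = c z := by
  rw [mo_apply]
  exact if_pos rfl

theorem te_DT (x : Fin n → Fˣ) : te σ x ∈ DT (Ix n 1) F := by
  rw [mem_DT]
  unfold te
  rw [det_mo_one, prod_cc, Units.val_one]

theorem te_G (hs : ∀ x, σ (σ x) = x) (h2 : (2 : F) ≠ 0) (x : Fin n → Fˣ) : te σ x ∈ (DD n h2 σ hs).G := by
  rw [mem_G]
  refine ⟨?_, ?_, fun h => absurd h Bool.false_ne_true⟩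
  · refine mo_IG (fun _ => rfl) ?_
    intro z
    rcases z with ⟨i, b⟩ | j
    · cases b
      · show σ (x i : F) * ((1 : Fˣ) : F) * (((Units.map (σ : F →* F) (x i))⁻¹ : Fˣ) : F) = ((1 : Fˣ) : F)
        rw [Units.val_one, mul_one]
        have h1 : σ (x i : F) = ((Units.map (σ : F →* F) (x i) : Fˣ) : F) := rfl
        rw [h1, ← Units.val_mul, mul_inv_cancel, Units.val_one]
      · show σ (((Units.map (σ : F →* F) (x i))⁻¹ : Fˣ) : F) * ((1 : Fˣ) : F) * (x i : F) = ((1 : Fˣ) : F)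
        rw [Units.val_one, mul_one, Units.val_inv_eq_inv_val, map_inv₀]
        have h1 : σ ((Units.map (σ : F →* F) (x i) : Fˣ) : F) = (x i : F) := hs _
        rw [h1]
        exact inv_mul_cancel₀ (Units.ne_zero _)
    · show σ (cc σ x (mi j) : F) * ((1 : Fˣ) : F) * (cc σ x (du (mi j)) : F) = ((1 : Fˣ) : F)
      have h3 : cc σ x (du (mi j)) = cc σ x (mi j) := rfl
      rw [Units.val_one, mul_one, h3, cc_m, Units.coe_prod, map_prod, ← Finset.prod_mul_distrib]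
      refine Finset.prod_eq_one fun i _ => ?_
      rw [Units.val_mul, Units.val_inv_eq_inv_val, map_mul, map_inv₀]
      have h1 : σ ((Units.map (σ : F →* F) (x i) : Fˣ) : F) = (x i : F) := hs _
      have h4 : ((Units.map (σ : F →* F) (x i) : Fˣ) : F) = σ (x i : F) := rfl
      rw [h1, h4]
      have h5 : σ (x i : F) ≠ 0 := (map_ne_zero σ).2 (Units.ne_zero _)
      have h6 : (x i : F) ≠ 0 := Units.ne_zero _
      field_simp
  · have h1 : te σ x ∈ TW (RingEquiv.refl F) (pm : Perm (Ix n 1)) := by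
      refine mo_TW (fun _ => rfl) ?_
      intro z
      rcases z with ⟨i, b⟩ | j
      · rfl
      · rfl
    exact mem_TW.1 h1

theorem te_T (x : Fin n → Fˣ) : te σ x ∈ (DD n h2 σ hs).T ⊓
    ((DD n h2 σ hs).G ⊓ DT (Ix n 1) F) :=
  ⟨⟨te_G σ hs h2 x, mo_DG _⟩, te_G σ hs h2 x, te_DT σ x⟩

theorem te_e (x : Fin n → Fˣ) (i : Fin n) :
    (te σ x : Matrix (Ix n 1) (Ix n 1) F) (ei i) (ei i) = x i := by
  unfold te
  rw [mo_diag, cc_e]

theorem exists_te {t : GL (Ix n 1) F} (ht : t ∈ (DD n h2 σ hs).T ⊓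
    ((DD n h2 σ hs).G ⊓ DT (Ix n 1) F)) : ∃ x, t = te σ x := by
  have ht1 : t ∈ (DD n h2 σ hs).T := ht.1
  have ht2 : t ∈ DT (Ix n 1) F := ht.2.2
  obtain ⟨c, rfl⟩ := DG_mo (T_DG ht1)
  refine ⟨fun i => c (ei i), ?_⟩
  have hf : ∀ i, c (fi i) = (Units.map (σ : F →* F) (c (ei i)))⁻¹ := by
    intro i
    have h1 := T_f ht1 i
    rw [mo_diag, mo_diag] at h1
    apply Units.ext
    rw [h1, Units.val_inv_eq_inv_val]
    rfl
  have hm : c (mi 0) = ∏ i, (Units.map (σ : F →* F) (c (ei i))) * (c (ei i))⁻¹ := by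
    rw [mem_DT, det_mo_one, prod_Ix] at ht2
    have h1 : (∏ i, c (ei i) * c (fi i)) * c (mi 0) = 1 := Units.ext ht2
    have h3 : (∏ i, c (ei i) * c (fi i)) *
        ∏ i, (Units.map (σ : F →* F) (c (ei i))) * (c (ei i))⁻¹ = 1 := by
      rw [← Finset.prod_mul_distrib]
      refine Finset.prod_eq_one fun i _ => ?_
      rw [hf]
      group
    exact mul_left_cancel (h1.trans h3.symm)
  unfold te
  congr 1
  funext z
  rcases z with ⟨i, b⟩ | j
  · cases b
    · rfl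
    · exact hf i
  · rw [Subsingleton.elim j 0]
    exact hm

theorem th_te (a' : Fin n → Bool) (x : Fin n → Fˣ) : (DD n h2 σ hs).th a' (te σ x) =
    ∏ i, if a' i = true then ch (RingEquiv.refl F) (x i : F) else 1 := by
  refine Finset.prod_congr rfl fun i _ => ?_
  rw [te_e]
  rfl

/-! ### the characters of the torus -/

theorem re_aux (f : GL (Ix n 1) F → ℤˣ)
    (hf : ∀ x ∈ (DD n h2 σ hs).T ⊓ ((DD n h2 σ hs).G ⊓ DT (Ix n 1) F),
      ∀ y ∈ (DD n h2 σ hs).T ⊓ ((DD n h2 σ hs).G ⊓ DT (Ix n 1) F), f (x * y) = f x * f y) :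
    ∃ a', ∀ x ∈ (DD n h2 σ hs).T ⊓ ((DD n h2 σ hs).G ⊓ DT (Ix n 1) F),
      f x = (DD n h2 σ hs).th a' x := by
  obtain ⟨Φ, hΦ⟩ : ∃ Φ : (Fin n → Fˣ) →* ℤˣ, ∀ x, Φ x = f (te σ x) :=
    ⟨MonoidHom.mk' (fun x => f (te σ x)) (fun x y => by
      show f (te σ (x * y)) = f (te σ x) * f (te σ y)
      rw [te_mul]
      exact hf _ (te_T h2 σ hs x) _ (te_T h2 σ hs y)), fun _ => rfl⟩
  have h1 : ∀ i : Fin n, ∃ b : Bool, ∀ x : Fˣ, Φ (Pi.mulSingle i x) =
      if b = true then ch (RingEquiv.refl F) (x : F) else 1 := by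
    intro i
    have h3 := ch_hom (τ := RingEquiv.refl F) h2
      (f := fun y => if h : y ≠ 0 then Φ (Pi.mulSingle i (Units.mk0 y h)) else 1) (by
        intro x y _ hx _ hy
        show (if h : x * y ≠ 0 then Φ (Pi.mulSingle i (Units.mk0 (x * y) h)) else 1) =
          (if h : x ≠ 0 then Φ (Pi.mulSingle i (Units.mk0 x h)) else 1) *
          (if h : y ≠ 0 then Φ (Pi.mulSingle i (Units.mk0 y h)) else 1)
        rw [dif_pos (mul_ne_zero hx hy), dif_pos hx, dif_pos hy, ← map_mul, ← Pi.mulSingle_mul]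
        congr 2
        exact Units.ext rfl)
    have key : ∀ x : Fˣ, (if h : (x : F) ≠ 0 then Φ (Pi.mulSingle i (Units.mk0 (x : F) h)) else 1) =
        Φ (Pi.mulSingle i x) := by
      intro x
      rw [dif_pos (Units.ne_zero x), Units.mk0_val]
    rcases h3 with h3 | h3
    · refine ⟨false, fun x => ?_⟩
      rw [if_neg Bool.false_ne_true, ← key]
      exact h3 x rfl (Units.ne_zero x)
    · refine ⟨true, fun x => ?_⟩
      rw [if_pos rfl, ← key]
      exact h3 x rfl (Units.ne_zero x)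
  choose a' ha' using h1
  refine ⟨a', fun t ht => ?_⟩
  obtain ⟨x, rfl⟩ := exists_te h2 σ hs ht
  rw [th_te, ← hΦ]
  conv_lhs => rw [← Finset.univ_prod_mulSingle x]
  rw [map_prod]
  exact Finset.prod_congr rfl fun i _ => ha' i (x i)

theorem tw_aux {a' b' : Fin n → Bool}
    (h : ∀ x ∈ (DD n h2 σ hs).T ⊓ ((DD n h2 σ hs).G ⊓ DT (Ix n 1) F),
      (DD n h2 σ hs).th a' x = (DD n h2 σ hs).th b' x) : b' = a' := by
  obtain ⟨y, -, hy0, hy⟩ := exists_ch h2 (RingEquiv.refl F)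
  have key : ∀ (c : Fin n → Bool) (i : Fin n), (DD n h2 σ hs).th c (te σ (Pi.mulSingle i (Units.mk0 y hy0))) =
      if c i = true then -1 else 1 := by
    intro c i
    rw [th_te, Finset.prod_eq_single i]
    · rw [Pi.mulSingle_eq_same, Units.val_mk0, hy]
    · intro j _ hj
      rw [Pi.mulSingle_eq_of_ne hj, Units.val_one, ch_one, ite_self]
    · exact fun h => absurd (Finset.mem_univ _) h
  funext i
  have h1 := h _ (te_T h2 σ hs (Pi.mulSingle i (Units.mk0 y hy0)))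
  rw [key, key] at h1
  by_cases ha : a' i = true
  · by_cases hb : b' i = true
    · rw [ha, hb]
    · rw [if_pos ha, if_neg hb] at h1
      exact absurd h1 (by decide)
  · by_cases hb : b' i = true
    · rw [if_neg ha, if_pos hb] at h1
      exact absurd h1 (by decide)
    · rw [Bool.not_eq_true] at ha hb
      rw [ha, hb]

/-! ### sums -/

theorem sum_sub (P : F → Prop) (h : F → ℤ) [Fintype F] :
    ∑ᶠ x : {x : F // P x}, h x = ∑ x : F, if P x then h x else 0 := by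
  let _ : Fintype {x : F // P x} := Fintype.ofFinite _
  rw [finsum_eq_sum_of_fintype, ← Finset.sum_filter]
  exact (Finset.sum_subtype _ (fun x => by simp) h).symm

/-- the pairs with given second entry -/
def fib (h2 : (2 : F) ≠ 0) (β : F) : {p : (DD n h2 σ hs).PR // p.1.2 = β} ≃ {z : F // z * σ z = -(β + σ β)} where
  toFun p := ⟨p.1.1.1 0, by
    have h1 := p.1.2.2.2
    have h3 : ((1 : Fˣ) : F) * p.1.1.2 + σ p.1.1.2 + ((1 : Fˣ) : F) *
      ∑ j : Fin 1, σ (p.1.1.1 j) * p.1.1.1 (Fin.rev j) = 0 := h1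
    rw [Fin.sum_univ_one, p.2, Units.val_one] at h3
    have h4 : p.1.1.1 (Fin.rev 0) = p.1.1.1 0 := rfl
    rw [h4] at h3
    linear_combination h3⟩
  invFun z := ⟨⟨(fun _ => z.1, β), fun _ => rfl, rfl, by
    show ((1 : Fˣ) : F) * β + σ β + ((1 : Fˣ) : F) * ∑ j : Fin 1, σ z.1 * z.1 = 0
    rw [Fin.sum_univ_one, Units.val_one]
    linear_combination z.2⟩, rfl⟩
  left_inv p := by
    apply Subtype.ext
    apply Subtype.ext
    apply Prod.ext
    · funext j
      show p.1.1.1 0 = p.1.1.1 j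
      rw [Subsingleton.elim j 0]
    · exact p.2.symm
  right_inv z := Subtype.ext rfl

theorem card_N (hs : ∀ x, σ (σ x) = x) (hne : ∃ x, σ x ≠ x) (β : F) :
    Nat.card {z : F // z * σ z = -(β + σ β)} =
      if β + σ β = 0 then 1 else Nat.card {x : F // σ x = x} + 1 := by
  split_ifs with h
  · rw [h, neg_zero]
    rw [Nat.card_eq_one_iff_unique]
    refine ⟨⟨?_⟩, ⟨⟨0, by rw [zero_mul]⟩⟩⟩
    rintro ⟨x, hx⟩ ⟨y, hy⟩
    have key : ∀ z : F, z * σ z = 0 → z = 0 := by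
      intro z hz
      rcases mul_eq_zero.1 hz with h1 | h1
      · exact h1
      · exact (map_eq_zero σ).1 h1
    exact Subtype.ext ((key x hx).trans (key y hy).symm)
  · refine card_norm hs hne ?_ ?_
    · rw [map_neg, map_add, hs, add_comm]
    · exact neg_ne_zero.2 h

theorem sum_PR (h2 : (2 : F) ≠ 0) (hne : ∃ x, σ x ≠ x) [Fintype F] (h : F → ℤ) :
    ∑ᶠ p : (DD n h2 σ hs).PR, h p.1.2 =
      ((Nat.card {x : F // σ x = x} : ℤ) + 1) * ∑ β : F, h β -
        (Nat.card {x : F // σ x = x} : ℤ) * ∑ᶠ β : {β : F // β + σ β = 0}, h β := by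
  let _ : Fintype (DD n h2 σ hs).PR := Fintype.ofFinite _
  rw [finsum_eq_sum_of_fintype, ← Finset.sum_fiberwise Finset.univ
    (fun p : (DD n h2 σ hs).PR => p.1.2), sum_sub, Finset.mul_sum, Finset.mul_sum,
    ← Finset.sum_sub_distrib]
  refine Finset.sum_congr rfl fun β _ => ?_
  have h1 : ∑ p : (DD n h2 σ hs).PR with p.1.2 = β, h p.1.2 =
      (Nat.card {p : (DD n h2 σ hs).PR // p.1.2 = β} : ℤ) * h β := by
    rw [Finset.sum_congr rfl (g := fun _ => h β) (fun p hp => by rw [(Finset.mem_filter.1 hp).2]),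
      Finset.sum_const, nsmul_eq_mul, Nat.card_eq_fintype_card, Fintype.card_subtype]
  rw [h1, Nat.card_congr (fib σ hs h2 β), card_N σ hs hne]
  split_ifs with h3
  · push_cast
    ring
  · push_cast
    ring

theorem sum_tr (h2 : (2 : F) ≠ 0) (hs : ∀ x, σ (σ x) = x) (hne : ∃ x, σ x ≠ x) (h : F → ℤ) (s : ℤ)
    (h0 : h 0 = 0) (h1 : ∀ β, β ≠ 0 → β + σ β = 0 → h β = s) :
    ∑ᶠ β : {β : F // β + σ β = 0}, h β = s * ((Nat.card {x : F // σ x = x} : ℤ) - 1) := by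
  let _ : Fintype {β : F // β + σ β = 0} := Fintype.ofFinite _
  have h3 : (Nat.card {x : F // σ x = x}) = Fintype.card {β : F // β + σ β = 0} := by
    rw [← card_tr h2 hs hne (map_zero σ), Nat.card_eq_fintype_card]
  have h4 : ∀ β : {β : F // β + σ β = 0}, h β = s - if β = ⟨0, by rw [map_zero, add_zero]⟩ then s else 0 := by
    rintro ⟨β, hβ⟩
    by_cases h5 : β = 0
    · subst h5
      rw [if_pos rfl, sub_self, h0]
    · rw [if_neg (fun h6 => h5 (congrArg Subtype.val h6)), sub_zero]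
      exact h1 β h5 hβ
  rw [finsum_eq_sum_of_fintype, Finset.sum_congr rfl (fun β _ => h4 β), Finset.sum_sub_distrib,
    Finset.sum_const, Finset.sum_ite_eq' , if_pos (Finset.mem_univ _), h3, nsmul_eq_mul, Finset.card_univ]
  ring

theorem sum_all (h2 : (2 : F) ≠ 0) (b : Bool) [Fintype F] :
    ∑ β : F, (if β = 0 then (0 : ℤ) else
      (((if b = true then ch (RingEquiv.refl F) β else 1 : ℤˣ) : ℤˣ) : ℤ)) =
      if b = true then 0 else (Nat.card F : ℤ) - 1 := by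
  cases b
  · have h1 : ∀ β : F, (if β = 0 then (0 : ℤ) else
      (((if false = true then ch (RingEquiv.refl F) β else 1 : ℤˣ) : ℤˣ) : ℤ)) =
        1 - if β = 0 then 1 else 0 := by
      intro β
      by_cases h : β = 0
      · rw [if_pos h, if_pos h, sub_self]
      · rw [if_neg h, if_neg h, if_neg Bool.false_ne_true, sub_zero, Units.val_one]
    rw [Finset.sum_congr rfl (fun β _ => h1 β), Finset.sum_sub_distrib, Finset.sum_const,
      Finset.sum_ite_eq', if_pos (Finset.mem_univ _), if_neg Bool.false_ne_true, Finset.card_univ,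
      Nat.card_eq_fintype_card, nsmul_eq_mul, mul_one]
  · have h1 := sum_ch h2 (RingEquiv.refl F)
    rw [sum_sub (fun x : F => RingEquiv.refl F x = x ∧ x ≠ 0)
      (fun x => ((ch (RingEquiv.refl F) x : ℤˣ) : ℤ))] at h1
    rw [if_pos rfl]
    refine Eq.trans (Finset.sum_congr rfl fun β _ => ?_) h1
    by_cases h : β = 0
    · rw [if_pos h, if_neg (fun h3 => h3.2 h)]
    · have h3 : RingEquiv.refl F β = β ∧ β ≠ 0 := ⟨rfl, h⟩
      rw [if_neg h, if_pos h3, if_pos rfl]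

theorem es_aux (h2 : (2 : F) ≠ 0) (hne : ∃ x, σ x ≠ x) {k : Fin n} (hk : (k : ℕ) = 0) (a' : Fin n → Bool) :
    rsum ((DD n h2 σ hs).R k) ((DD n h2 σ hs).hh k) ((DD n h2 σ hs).th a') =
      if a' k = true then -((Nat.card {x : F // σ x = x} : ℤ) *
    ((Nat.card {x : F // σ x = x} : ℤ) - 1) * ((sqn σ (-1) : ℤˣ) : ℤ)) else
    (Nat.card {x : F // σ x = x} : ℤ) ^ 3 - 1 := by
  let _ : Fintype F := Fintype.ofFinite F
  obtain ⟨h, hh⟩ : ∃ h : F → ℤ, h = fun β => if β = 0 then (0 : ℤ) else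
      (((if a' k = true then ch (RingEquiv.refl F) β else 1 : ℤˣ) : ℤˣ) : ℤ) := ⟨_, rfl⟩
  have h1 : rsum ((DD n h2 σ hs).R k) ((DD n h2 σ hs).hh k) ((DD n h2 σ hs).th a') =
      ∑ᶠ p : (DD n h2 σ hs).PR, h p.1.2 := by
    rw [rsum_zero hk, hh]
    refine finsum_congr fun p => ?_
    show (if p.1.2 = 0 then (0 : ℤ) else
      (((if a' k = true then ch (RingEquiv.refl F) (((1 : Fˣ) : F) * p.1.2) else 1 : ℤˣ) : ℤˣ) : ℤ)) = _
    rw [Units.val_one, one_mul]
  have h3 : ∑ β : F, h β = if a' k = true then 0 else (Nat.card F : ℤ) - 1 := by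
    rw [hh]
    exact sum_all h2 (a' k)
  have h4 : ∑ᶠ β : {β : F // β + σ β = 0}, h β = (if a' k = true then ((sqn σ (-1) : ℤˣ) : ℤ) else 1) *
      ((Nat.card {x : F // σ x = x} : ℤ) - 1) := by
    refine sum_tr σ h2 hs hne h _ ?_ ?_
    · rw [hh]
      exact if_pos rfl
    · intro β hβ hβ'
      rw [hh]
      show (if β = 0 then (0 : ℤ) else
        (((if a' k = true then ch (RingEquiv.refl F) β else 1 : ℤˣ) : ℤˣ) : ℤ)) = _
      rw [if_neg hβ]
      by_cases h5 : a' k = true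
      · rw [if_pos h5, if_pos h5, tr_zero h2 hs hne hβ hβ']
      · rw [if_neg h5, if_neg h5, Units.val_one]
  rw [h1, sum_PR σ hs h2 hne, h3, h4]
  by_cases h5 : a' k = true
  · rw [if_pos h5, if_pos h5, if_pos h5]
    ring
  · rw [if_neg h5, if_neg h5, if_neg h5, card_fix hs hne]
    push_cast
    ring

theorem card_aux (n : ℕ) (h2 : (2 : F) ≠ 0) (hne : ∃ x, σ x ≠ x) :
    Nat.card (DD n h2 σ hs).PR = Nat.card {x : F // σ x = x} ^ 3 := by
  let _ : Fintype F := Fintype.ofFinite F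
  let _ : Fintype (DD n h2 σ hs).PR := Fintype.ofFinite _
  have h1 := sum_PR (n := n) σ hs h2 hne (fun _ => 1)
  have h3 : ∑ᶠ β : {β : F // β + σ β = 0}, (fun _ : F => (1 : ℤ)) β = (Nat.card {x : F // σ x = x} : ℤ) := by
    let _ : Fintype {β : F // β + σ β = 0} := Fintype.ofFinite _
    rw [finsum_eq_sum_of_fintype, Finset.sum_const, nsmul_eq_mul, mul_one, Finset.card_univ,
      ← card_tr h2 hs hne (map_zero σ), Nat.card_eq_fintype_card]
  rw [h3, finsum_eq_sum_of_fintype, Finset.sum_const, Finset.sum_const, nsmul_eq_mul, nsmul_eq_mul,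
    Finset.card_univ, Finset.card_univ, ← Nat.card_eq_fintype_card, ← Nat.card_eq_fintype_card,
    card_fix hs hne] at h1
  have h4 : (Nat.card (DD n h2 σ hs).PR : ℤ) = (Nat.card {x : F // σ x = x} : ℤ) ^ 3 := by
    push_cast at h1
    linear_combination h1
  exact_mod_cast h4

/-! ### the unipotent radical -/

theorem exists_p (n : ℕ) (h2 : (2 : F) ≠ 0) (hne : ∃ x, σ x ≠ x) : ∃ p : (DD n h2 σ hs).PR, p.1.2 ≠ 0 := by
  obtain ⟨y, hy⟩ := hne
  refine ⟨⟨(0, y - σ y), fun _ => rfl, rfl, ?_⟩, ?_⟩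
  · show ((1 : Fˣ) : F) * (y - σ y) + σ (y - σ y) + ((1 : Fˣ) : F) *
      ∑ j : Fin 1, σ ((0 : Fin 1 → F) j) * (0 : Fin 1 → F) (Fin.rev j) = 0
    rw [Fin.sum_univ_one, Units.val_one, Pi.zero_apply, map_zero, zero_mul, map_sub, hs]
    ring
  · exact fun h => hy (sub_eq_zero.1 h).symm

theorem exists_r (h2 : (2 : F) ≠ 0) (hne : ∃ x, σ x ≠ x) {l : Fin n} (hl : (l : ℕ) = 0) :
    ∃ r ∈ (DD n h2 σ hs).R l, r ≠ 1 := by
  obtain ⟨p, hp⟩ := exists_p σ hs n h2 hne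
  obtain ⟨r, hr, -, hr2⟩ := exists_R0 hl p
  refine ⟨r, hr, ?_⟩
  rintro rfl
  apply hp
  rw [← hr2, Units.val_one, Matrix.one_apply_ne]
  intro h
  injection h with h
  injection h with _ h
  exact Bool.false_ne_true h

theorem H_normal (h2 : (2 : F) ≠ 0) : ∀ g ∈ (DD n h2 σ hs).G,
    ∀ h ∈ ((DD n h2 σ hs).G ⊓ DT (Ix n 1) F), g * h * g⁻¹ ∈ ((DD n h2 σ hs).G ⊓ DT (Ix n 1) F) := by
  rintro g hg h ⟨h1, h3⟩
  refine ⟨Subgroup.mul_mem _ (Subgroup.mul_mem _ hg h1) (Subgroup.inv_mem _ hg), ?_⟩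
  exact (MonoidHom.normal_ker (Matrix.GeneralLinearGroup.det : GL (Ix n 1) F →* Fˣ)).conj_mem h h3 g

theorem U_H (h2 : (2 : F) ≠ 0) : (DD n h2 σ hs).U ≤ (DD n h2 σ hs).G ⊓ DT (Ix n 1) F :=
  fun _ hu => ⟨hu.1, GS_le_DT hu.2⟩

theorem exists_r0 (hn : 1 ≤ n) (h2 : (2 : F) ≠ 0) (hne : ∃ x, σ x ≠ x) :
    ∃ r ∈ (DD n h2 σ hs).R ⟨0, by omega⟩, r ≠ 1 := exists_r σ hs h2 hne rfl

theorem s_sq1 (h2 : (2 : F) ≠ 0) (l : Fin n) : (DD n h2 σ hs).s l * (DD n h2 σ hs).s l = 1 :=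
  s_sq_one rfl (Or.inl rfl) l

end P06_aux

/-- the data of the unitary group in dimension `2 n + 1` -/
def kU1 {n : ℕ} (hn : 1 ≤ n) {F : Type} [Field F] [Finite F] (h2 : (2 : F) ≠ 0) (σ : F ≃+* F)
    (hs : ∀ x, σ (σ x) = x) (hne : ∃ x, σ x ≠ x) : (fU n (a := 1) le_rfl h2 σ hs).KD where
  H := (fU n (a := 1) le_rfl h2 σ hs).G ⊓ DT (Ix n 1) F
  gd := true
  su := fun b => if b = true then -((Nat.card {x : F // σ x = x} : ℤ) *
    ((Nat.card {x : F // σ x = x} : ℤ) - 1) * ((sqn σ (-1) : ℤˣ) : ℤ)) else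
    (Nat.card {x : F // σ x = x} : ℤ) ^ 3 - 1
  nt := if h : ∃ r ∈ (fU n (a := 1) le_rfl h2 σ hs).R ⟨0, by omega⟩, r ≠ 1 then
    (fU n (a := 1) le_rfl h2 σ hs).s ⟨0, by omega⟩ *
      (fU n (a := 1) le_rfl h2 σ hs).hh ⟨0, by omega⟩ h.choose else 1
  HG := inf_le_left
  hN := P06_aux.H_normal σ hs h2
  UH := P06_aux.U_H σ hs h2
  HT := HT_of inf_le_left (P06_aux.H_normal σ hs h2) (P06_aux.U_H σ hs h2)
    (P06_aux.exists_p σ hs n h2 hne)
  es := fun _ hk a' => P06_aux.es_aux σ hs h2 hne hk a'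
  ze1 := fun _ => ch_one
  ze2 := fun h => absurd h.symm Bool.false_ne_true
  ntN := by
    intro k hk
    have h0 : 0 < n := hn
    have hk' : k = ⟨0, h0⟩ := Fin.ext hk
    have h := P06_aux.exists_r0 σ hs hn h2 hne
    rw [hk']
    rw [dif_pos h]
    exact ⟨_, (hh_zero rfl h.choose_spec.1 h.choose_spec.2).1, rfl⟩
  ntH := by
    have h := P06_aux.exists_r0 σ hs hn h2 hne
    rw [dif_pos h]
    exact nt_mem (P06_aux.H_normal σ hs h2) (P06_aux.U_H σ hs h2) rfl h.choose_spec.1 h.choose_spec.2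
      (P06_aux.s_sq1 σ hs h2 _)
  re := fun f hf => Or.inl (P06_aux.re_aux h2 σ hs f hf)
  tw := fun _ _ h => Or.inl (P06_aux.tw_aux h2 σ hs h)

theorem card_PR1 {n : ℕ} {F : Type} [Field F] [Finite F] (h2 : (2 : F) ≠ 0) (σ : F ≃+* F)
    (hs : ∀ x, σ (σ x) = x) (hne : ∃ x, σ x ≠ x) :
    Nat.card (fU n (a := 1) le_rfl h2 σ hs).PR = Nat.card {x : F // σ x = x} ^ 3 :=
  P06_aux.card_aux σ hs n h2 hne

end

end AO.MG
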