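import Pool.Agent.AO.P00
import Pool.Agent.AO.P06
import Pool.Agent.AO.G01
import Pool.Agent.AO.Z01

/-!
# MP_6c3636_al, AO, module P07: (A) and (B) for special unitary groups in odd dimension, odd characteristic (helper7)

`X = (kU1 ..).bn`, `B = X.toBN`, `k = ℚ`, `q` = the cardinality of the fixed field of `σ`. `P`: `q`, `e = 2`, `j = (0, -3, -2, -1)`, `w true = sqn σ (-1)`, `w false = 1`. `Fit`: `card` as in P05; `Nat.card (R 0) = q ^ 3` (`card_zero`, `card_PR1`); `sum`: `q ^ 3 * (1 - q ^ (-3)) = q ^ 3 - 1`; `q ^ 3 * (w * q ^ (-2) - w * q ^ (-1)) = - w * q * (q - 1)`; `prod`: `-1`. `half`: first alternative: an element of `T ⊓ H` with the coordinate `x` at `0`, `ch x = -1`, `1` at the other coordinates (middle entry `σ x / x`). `FixOK`: `R₀ = 1`.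
-/

namespace AO.MG

noncomputable section

open Classical Equiv Matrix

open AN (sq)


namespace P07_aux

section Par

/-- the exponents of the eigenvalues -/
def jj (y : Ty) : ℤ := if y = 0 then 0 else if y = 1 then -3 else if y = 2 then -2 else -1

/-- the parameters of the unitary group in odd dimension -/
def up {F : Type} [Field F] (σ : F ≃+* F) (h3 : 3 ≤ Nat.card {x : F // σ x = x})
    (ho : Odd (Nat.card {x : F // σ x = x})) : Par ℚ where
  q := Nat.card {x : F // σ x = x}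
  e := 2
  j := jj
  w := fun b => if b = true then (((sqn σ (-1) : ℤˣ) : ℤ) : ℚ) else 1
  three := h3
  odd := ho
  pos := Nat.two_pos
  ne := fun b => by
    by_cases hb : b = true
    · rw [if_pos hb]
      exact_mod_cast (sqn σ (-1)).ne_zero
    · rw [if_neg hb]
      exact one_ne_zero

variable {F : Type} [Field F] (σ : F ≃+* F) (h3 : 3 ≤ Nat.card {x : F // σ x = x})
    (ho : Odd (Nat.card {x : F // σ x = x}))

theorem up_r (y : Ty) : (up σ h3 ho).r y = (if lb y = true then (((sqn σ (-1) : ℤˣ) : ℤ) : ℚ) else 1) *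
    ((sg y : ℤ) : ℚ) * ((Nat.card {x : F // σ x = x} : ℕ) : ℚ) ^ (jj y) := rfl

theorem up_r_pf : (up σ h3 ho).r (yp false) = 1 := by
  rw [up_r]
  have h1 : lb (yp false) = false := by decide
  have h2 : sg (yp false) = 1 := by decide
  have h4 : jj (yp false) = 0 := by decide
  rw [h1, h2, h4, if_neg (by decide)]
  simp

theorem up_r_nf : (up σ h3 ho).r (yn false) = -((Nat.card {x : F // σ x = x} : ℕ) : ℚ) ^ (-3 : ℤ) := by
  rw [up_r]
  have h1 : lb (yn false) = false := by decide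
  have h2 : sg (yn false) = -1 := by decide
  have h4 : jj (yn false) = -3 := by decide
  rw [h1, h2, h4, if_neg (by decide)]
  push_cast
  ring

theorem up_r_pt : (up σ h3 ho).r (yp true) = (((sqn σ (-1) : ℤˣ) : ℤ) : ℚ) *
    ((Nat.card {x : F // σ x = x} : ℕ) : ℚ) ^ (-2 : ℤ) := by
  rw [up_r]
  have h1 : lb (yp true) = true := by decide
  have h2 : sg (yp true) = 1 := by decide
  have h4 : jj (yp true) = -2 := by decide
  rw [h1, h2, h4, if_pos rfl]
  push_cast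
  ring

theorem up_r_nt : (up σ h3 ho).r (yn true) = -((((sqn σ (-1) : ℤˣ) : ℤ) : ℚ) *
    ((Nat.card {x : F // σ x = x} : ℕ) : ℚ) ^ (-1 : ℤ)) := by
  rw [up_r]
  have h1 : lb (yn true) = true := by decide
  have h2 : sg (yn true) = -1 := by decide
  have h4 : jj (yn true) = -1 := by decide
  rw [h1, h2, h4, if_pos rfl]
  push_cast
  ring

theorem sq_unit (u : ℤˣ) : (((u : ℤˣ) : ℤ) : ℚ) * (((u : ℤˣ) : ℤ) : ℚ) = 1 := by
  rcases Int.units_eq_one_or u with h | h <;> rw [h] <;> norm_num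

end Par

section El

variable {n : ℕ} {F : Type} [Field F] [Finite F] (h2 : (2 : F) ≠ 0) (σ : F ≃+* F)
  (hs : ∀ x, σ (σ x) = x)

/-- the coordinates of the torus element -/
def cc (σ : F ≃+* F) (l : Fin n) (x : Fˣ) : Ix n 1 → Fˣ
  | Sum.inl (i, false) => if i = l then x else 1
  | Sum.inl (i, true) => if i = l then (Units.map (σ : F →* F) x)⁻¹ else 1
  | Sum.inr _ => Units.map (σ : F →* F) x * x⁻¹

/-- the torus element -/
def tt (σ : F ≃+* F) (l : Fin n) (x : Fˣ) : GL (Ix n 1) F := mo 1 (cc σ l x)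

theorem tt_ee (l : Fin n) (x : Fˣ) (i : Fin n) :
    (tt σ l x : Matrix (Ix n 1) (Ix n 1) F) (ei i) (ei i) = if i = l then (x : F) else 1 := by
  rw [tt, mo_apply, if_pos (Equiv.Perm.one_apply _).symm]
  show (((if i = l then x else 1 : Fˣ)) : F) = _
  split_ifs
  · rfl
  · rfl

theorem tt_IG (l : Fin n) (x : Fˣ) :
    tt σ l x ∈ IG (fU n (a := 1) le_rfl h2 σ hs).J (fU n (a := 1) le_rfl h2 σ hs).σ := by
  have hx : (x : F) ≠ 0 := x.ne_zero
  have hsx : σ (x : F) ≠ 0 := fun h => hx ((map_eq_zero σ).1 h)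
  have h := mo_IG (σ := σ) (d := (fU n (a := 1) le_rfl h2 σ hs).c) (δ := du) (w := 1)
    (c := cc σ l x) (fun _ => rfl) ?_
  · exact h
  · rintro (⟨i, b⟩ | j)
    · cases b
      · show σ (((if i = l then x else 1 : Fˣ)) : F) * ((1 : Fˣ) : F) *
          (((if i = l then (Units.map (σ : F →* F) x)⁻¹ else 1 : Fˣ)) : F) = ((1 : Fˣ) : F)
        by_cases hi : i = l
        · rw [if_pos hi, if_pos hi, Units.val_inv_eq_inv_val]
          show σ (x : F) * 1 * (σ (x : F))⁻¹ = 1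
          rw [mul_one, mul_inv_cancel₀ hsx]
        · rw [if_neg hi, if_neg hi]
          simp
      · show σ (((if i = l then (Units.map (σ : F →* F) x)⁻¹ else 1 : Fˣ)) : F) * ((1 : Fˣ) : F) *
          (((if i = l then x else 1 : Fˣ)) : F) = ((1 : Fˣ) : F)
        by_cases hi : i = l
        · rw [if_pos hi, if_pos hi, Units.val_inv_eq_inv_val]
          show σ ((σ (x : F))⁻¹) * 1 * (x : F) = 1
          rw [map_inv₀, hs, mul_one, inv_mul_cancel₀ hx]
        · rw [if_neg hi, if_neg hi]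
          simp
    · show σ ((Units.map (σ : F →* F) x * x⁻¹ : Fˣ) : F) * ((1 : Fˣ) : F) *
        ((Units.map (σ : F →* F) x * x⁻¹ : Fˣ) : F) = ((1 : Fˣ) : F)
      rw [Units.val_mul, Units.val_inv_eq_inv_val]
      show σ (σ (x : F) * (x : F)⁻¹) * 1 * (σ (x : F) * (x : F)⁻¹) = 1
      rw [map_mul, map_inv₀, hs]
      field_simp

theorem tt_TW (l : Fin n) (x : Fˣ) :
    tt σ l x ∈ TW (fU n (a := 1) le_rfl h2 σ hs).τ (pm : Perm (Ix n 1)) := by
  refine mo_TW (fun _ => rfl) ?_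
  rintro (p | j)
  · rfl
  · rfl

theorem tt_det (l : Fin n) (x : Fˣ) : (tt σ l x : Matrix (Ix n 1) (Ix n 1) F).det = 1 := by
  have hx : (x : F) ≠ 0 := x.ne_zero
  have hsx : σ (x : F) ≠ 0 := fun h => hx ((map_eq_zero σ).1 h)
  rw [tt, mo_det, Equiv.Perm.sign_one, Units.val_one, Int.cast_one, one_mul, Fintype.prod_sum_type,
    Fintype.prod_prod_type, Finset.prod_eq_single l]
  · rw [Fintype.prod_bool, Fin.prod_univ_one]
    show (((if l = l then (Units.map (σ : F →* F) x)⁻¹ else 1 : Fˣ)) : F) *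
      (((if l = l then x else 1 : Fˣ)) : F) * ((Units.map (σ : F →* F) x * x⁻¹ : Fˣ) : F) = 1
    rw [if_pos rfl, if_pos rfl, Units.val_inv_eq_inv_val, Units.val_mul, Units.val_inv_eq_inv_val]
    show (σ (x : F))⁻¹ * (x : F) * (σ (x : F) * (x : F)⁻¹) = 1
    field_simp
  · intro i _ hi
    rw [Fintype.prod_bool]
    show (((if i = l then (Units.map (σ : F →* F) x)⁻¹ else 1 : Fˣ)) : F) *
      (((if i = l then x else 1 : Fˣ)) : F) = 1
    rw [if_neg hi, if_neg hi]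
    simp
  · exact fun h => absurd (Finset.mem_univ _) h

theorem tt_G (l : Fin n) (x : Fˣ) : tt σ l x ∈ (fU n (a := 1) le_rfl h2 σ hs).G := by
  refine mem_G.2 ⟨tt_IG h2 σ hs l x, mem_TW.1 (tt_TW h2 σ hs l x), fun _ => tt_det σ l x⟩

theorem tt_T (l : Fin n) (x : Fˣ) : tt σ l x ∈ (fU n (a := 1) le_rfl h2 σ hs).T :=
  ⟨tt_G h2 σ hs l x, mo_DG _⟩

end El

section Main

variable {n : ℕ} (hn : 1 ≤ n) {F : Type} [Field F] [Finite F] (h2 : (2 : F) ≠ 0) (σ : F ≃+* F)
  (hs : ∀ x, σ (σ x) = x) (hne : ∃ x, σ x ≠ x) {p : ℕ} [CharP F p] (hp : p.Prime) (ho : Odd p)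

theorem u_card0 {i : Fin n} (hi : (i : ℕ) = 0) :
    Nat.card ((((kU1 hn h2 σ hs hne).bn hp ho).toBN).R i) = Nat.card {x : F // σ x = x} ^ 3 := by
  rw [card_in]
  show Nat.card ((fU n (a := 1) le_rfl h2 σ hs).R i) = _
  rw [card_zero hi, card_PR1 h2 σ hs hne]

theorem u_fit : Fit ((kU1 hn h2 σ hs hne).bn hp ho).toBN
    (up σ (card_odd h2 σ).2 (card_odd h2 σ).1) where
  card := fun l hl => by
    rw [card_in]
    show Nat.card ((fU n (a := 1) le_rfl h2 σ hs).R l) = Nat.card {x : F // σ x = x} ^ 2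
    rw [card_R_pos hl, ← card_fix hs hne]
    exact card_refl
  sum := fun b _ i hi => by
    have hq : ((Nat.card {x : F // σ x = x} : ℕ) : ℚ) ≠ 0 := by
      have h := (card_odd h2 σ).2
      exact_mod_cast (show (Nat.card {x : F // σ x = x}) ≠ 0 by omega)
    rw [u_card0 hn h2 σ hs hne hp ho hi]
    cases b
    · rw [up_r_pf, up_r_nf]
      show _ = (((Nat.card {x : F // σ x = x} : ℤ) ^ 3 - 1 : ℤ) : ℚ)
      push_cast
      rw [_root_.zpow_neg]
      have h5 : ((Nat.card {x : F // σ x = x} : ℕ) : ℚ) ^ (3 : ℤ) = ((Nat.card {x : F // σ x = x} : ℕ) : ℚ) ^ 3 := by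
        norm_cast
      rw [h5]
      field_simp
      ring
    · rw [up_r_pt, up_r_nt]
      show _ = ((-((Nat.card {x : F // σ x = x} : ℤ) *
        ((Nat.card {x : F // σ x = x} : ℤ) - 1) * ((sqn σ (-1) : ℤˣ) : ℤ)) : ℤ) : ℚ)
      push_cast
      rw [_root_.zpow_neg, _root_.zpow_neg, zpow_one]
      have h5 : ((Nat.card {x : F // σ x = x} : ℕ) : ℚ) ^ (2 : ℤ) = ((Nat.card {x : F // σ x = x} : ℕ) : ℚ) ^ 2 := by
        norm_cast
      rw [h5]
      field_simp
      ring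
  prod := fun b _ i hi => by
    have hq : ((Nat.card {x : F // σ x = x} : ℕ) : ℚ) ≠ 0 := by
      have h := (card_odd h2 σ).2
      exact_mod_cast (show (Nat.card {x : F // σ x = x}) ≠ 0 by omega)
    rw [u_card0 hn h2 σ hs hne hp ho hi]
    cases b
    · rw [up_r_pf, up_r_nf]
      push_cast
      rw [_root_.zpow_neg]
      have h5 : ((Nat.card {x : F // σ x = x} : ℕ) : ℚ) ^ (3 : ℤ) = ((Nat.card {x : F // σ x = x} : ℕ) : ℚ) ^ 3 := by
        norm_cast
      rw [h5]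
      field_simp
    · rw [up_r_pt, up_r_nt]
      push_cast
      rw [_root_.zpow_neg, _root_.zpow_neg, zpow_one]
      have h5 : ((Nat.card {x : F // σ x = x} : ℕ) : ℚ) ^ (2 : ℤ) = ((Nat.card {x : F // σ x = x} : ℕ) : ℚ) ^ 2 := by
        norm_cast
      rw [h5]
      have h6 := sq_unit (sqn σ (-1))
      field_simp
      linear_combination -h6
  half := by
    left
    obtain ⟨x, -, hx0, hx⟩ := exists_ch h2 (RingEquiv.refl F)
    have hT := tt_T h2 σ hs (⟨0, hn⟩ : Fin n) (Units.mk0 x hx0)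
    have hG := tt_G h2 σ hs (⟨0, hn⟩ : Fin n) (Units.mk0 x hx0)
    refine ⟨⟨tt σ ⟨0, hn⟩ (Units.mk0 x hx0), hG⟩, ⟨Subgroup.mem_subgroupOf.2 hT, Subgroup.mem_subgroupOf.2
      ⟨hG, mem_DT.2 (tt_det σ _ _)⟩⟩, ?_⟩
    show (fU n (a := 1) le_rfl h2 σ hs).th (fun _ => true) (tt σ ⟨0, hn⟩ (Units.mk0 x hx0)) ≠ 1
    have h1 : (fU n (a := 1) le_rfl h2 σ hs).th (fun _ => true) (tt σ ⟨0, hn⟩ (Units.mk0 x hx0)) = -1 := by
      unfold FD.th
      rw [Finset.prod_eq_single (⟨0, hn⟩ : Fin n)]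
      · rw [if_pos rfl, tt_ee, if_pos rfl]
        exact hx
      · intro i _ hi
        rw [if_pos rfl, tt_ee, if_neg hi]
        exact ch_one
      · exact fun h => absurd (Finset.mem_univ _) h
    rw [h1]
    decide

theorem u_fix (Ω : Type) [Field Ω] [CharZero Ω] :
    FixOK Ω ((kU1 hn h2 σ hs hne).bn hp ho).toBN ℚ :=
  ⟨1, odd_one, fun σ _ => ⟨fun x => by
      rw [eq_ratCast, map_ratCast], fun h => absurd h (by
      show ¬ (true = false)
      decide)⟩⟩

end Main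

end P07_aux

variable {Ω : Type} [Field Ω] [IsAlgClosed Ω] [CharZero Ω] {c : Parker.Ctx Ω}

theorem su_odd_propA {n : ℕ} (hn : 1 ≤ n) {F : Type} [Field F] [Finite F] (h2 : (2 : F) ≠ 0)
    (σ : F ≃+* F) (hs : ∀ x, σ (σ x) = x) (hne : ∃ x, σ x ≠ x) :
    Parker.PropA c 1
      ((fU n (a := 1) le_rfl h2 σ hs).G ⊓ DT (Ix n 1) F : Subgroup (GL (Ix n 1) F)) := by
  obtain ⟨p, hpc, hp, ho⟩ := char_odd h2
  exact propA_in (c := c) ((kU1 hn h2 σ hs hne).bn hp ho)
    (bn_propA (P07_aux.u_fit hn h2 σ hs hne hp ho) hn (P07_aux.u_fix hn h2 σ hs hne hp ho Ω))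

theorem su_odd_propB {n : ℕ} (hn : 1 ≤ n) {F : Type} [Field F] [Finite F] (h2 : (2 : F) ≠ 0)
    (σ : F ≃+* F) (hs : ∀ x, σ (σ x) = x) (hne : ∃ x, σ x ≠ x) :
    Parker.PropB c 1
      ((fU n (a := 1) le_rfl h2 σ hs).G ⊓ DT (Ix n 1) F : Subgroup (GL (Ix n 1) F)) := by
  obtain ⟨p, hpc, hp, ho⟩ := char_odd h2
  exact propB_in (c := c) ((kU1 hn h2 σ hs hne).bn hp ho)
    (bn_propB (P07_aux.u_fit hn h2 σ hs hne hp ho) hn (P07_aux.u_fix hn h2 σ hs hne hp ho Ω))

end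

end AO.MG
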