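import Pool.Agent.AO.F16

/-!
# MP_6c3636_al, AO, module P08: orthogonal groups: the unipotent radical is in the commutator subgroup (helper7)

`so = true`, so `σ = id`, `ep = 1`. Claim: for all `j ≤ n`: every `u ∈ U` with `Fo j u` is in `⁅G, G⁆`; induction on `j`. `j = 0`: `u = 1` (`LS_GS_one` for `rk`). Step (`j : Fin n`, `Fo (j + 1) u`): `e = sv (ei j)`, `f = sv (fi j)`; `u e = e` and the coordinate of `u f` at `fi j` is `1` (unitriangular). `exists_eich`: `E ∈ U` with `E f = u f`, `E e = e`; `E⁻¹ u` fixes `e` and `f`, so by isometry `Fo j (E⁻¹ u)`. It remains: `E ∈ ⁅G, G⁆`. `u f = f + z + γ • e`. Let `z' = - (1/2) • z`, `γ' = - B z' z' / 2`, `E'` the Eichler element of `f + z' + γ' • e` (isotropic), `t = tor` with `-1` at `j` (it maps `e`, `f` to `- e`, `- f` and fixes `z'`). Then `t E' t⁻¹ E'⁻¹ = E` by `eich_unique`: `E'⁻¹ f = f - z' + γ' • e` (as `E' (f - z' + γ' e) = f`), and `t E' t⁻¹ (f - z' + γ' e) = f - 2 • z' + (..) • e`; the coefficient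 of `e` is determined by the isotropy. The matrix of `t E' t⁻¹ E'⁻¹` has trivial entries outside of the row of `ei j` and the column of `fi j`.
-/

namespace AO.MG

noncomputable section

open Classical Equiv Matrix

open AN (sq)

open scoped commutatorElement

variable {n a : ℕ} {F : Type} [Field F] [Finite F] {D : FD n a F}

namespace P08_aux

theorem ei_ne_fi (i j : Fin n) : (ei i : Ix n a) ≠ fi j := by
  intro h
  have h1 := congrArg (fun x : Ix n a => match x with | Sum.inl (_, b) => b | Sum.inr _ => false) h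
  exact Bool.false_ne_true h1

theorem mv_eq (g : GL (Ix n a) F) (y : Ix n a) (w : Ix n a → F) (h : mv g (sv y) = w) (x : Ix n a) :
    (g : Matrix (Ix n a) (Ix n a) F) x y = w x := by
  rw [← h, mv_apply]

/-- the action of a diagonal matrix -/
theorem mv_diag {t : GL (Ix n a) F} (ht : t ∈ DG (Ix n a) F) (w : Ix n a → F) (x : Ix n a) :
    mv t w x = (t : Matrix (Ix n a) (Ix n a) F) x x * w x := by
  rw [mv_sum, Finset.sum_eq_single x]
  · intro y _ hy
    rw [mem_DG.1 ht x y hy.symm, zero_mul]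
  · exact fun h => absurd (Finset.mem_univ _) h

/-- matrices which are trivial outside of the row of `ei j` and the column of `fi j` -/
def Ri (j : Fin n) (A : Matrix (Ix n a) (Ix n a) F) : Prop :=
  ∀ x y, x ≠ ei j → y ≠ fi j → A x y = (1 : Matrix (Ix n a) (Ix n a) F) x y

theorem Ri.mul {j : Fin n} {A B : Matrix (Ix n a) (Ix n a) F} (hA : Ri j A) (hB : Ri j B) : Ri j (A * B) := by
  intro x y hx hy
  have h1 : A * B = (A - 1) * (B - 1) + (A - 1) + (B - 1) + 1 := by
    rw [sub_mul, mul_sub, one_mul, mul_one]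
    abel
  have h2 : (A - 1) x y = 0 := by rw [Matrix.sub_apply, hA x y hx hy, sub_self]
  have h3 : (B - 1) x y = 0 := by rw [Matrix.sub_apply, hB x y hx hy, sub_self]
  rw [h1, Matrix.add_apply, Matrix.add_apply, Matrix.add_apply, h2, h3, add_zero, add_zero,
    Matrix.mul_apply, Finset.sum_eq_zero, zero_add]
  intro k _
  by_cases hk : k = fi j
  · have hk' : k ≠ ei j := by
      rw [hk]
      exact (ei_ne_fi j j).symm
    rw [Matrix.sub_apply B, hB k y hk' hy, sub_self, mul_zero]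
  · rw [Matrix.sub_apply A, hA x k hx hk, sub_self, zero_mul]

theorem Ri.inv {j : Fin n} {g : GL (Ix n a) F} (hg : g ∈ D.G) (h : Ri j (g : Matrix (Ix n a) (Ix n a) F)) :
    Ri j ((g⁻¹ : GL (Ix n a) F) : Matrix (Ix n a) (Ix n a) F) := by
  intro x y hx hy
  rw [inv_apply hg, h (du y) (du x)]
  · by_cases hxy : x = y
    · rw [hxy, Matrix.one_apply_eq, Matrix.one_apply_eq, map_one, mul_one, inv_mul_cancel₀ (Units.ne_zero _)]
    · rw [Matrix.one_apply_ne hxy, Matrix.one_apply_ne (fun h' => hxy (du.injective h').symm), map_zero, mul_zero,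
        zero_mul]
  · intro h'
    refine hy ?_
    rw [← du_du y, h']
    rfl
  · intro h'
    refine hx ?_
    rw [← du_du x, h']
    rfl

theorem Ri.conj {j : Fin n} {g t : GL (Ix n a) F} (ht : t ∈ DG (Ix n a) F)
    (h : Ri j (g : Matrix (Ix n a) (Ix n a) F)) : Ri j ((t * g * t⁻¹ : GL (Ix n a) F) : Matrix (Ix n a) (Ix n a) F) := by
  intro x y hx hy
  rw [conj_apply ht, h x y hx hy]
  by_cases hxy : x = y
  · rw [hxy, Matrix.one_apply_eq, mul_one, mul_inv_cancel₀ (DG_ne ht y)]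
  · rw [Matrix.one_apply_ne hxy, mul_zero, zero_mul]

/-- vectors without the coordinate `fi j` -/
theorem Ri.mv {j : Fin n} {g : GL (Ix n a) F} (h : Ri j (g : Matrix (Ix n a) (Ix n a) F)) {w : Ix n a → F}
    (hw : w (fi j) = 0) : ∃ δ : F, MG.mv g w = w + δ • sv (ei j) := by
  refine ⟨MG.mv g w (ei j) - w (ei j), ?_⟩
  ext x
  rw [Pi.add_apply, Pi.smul_apply, smul_eq_mul, sv]
  by_cases hx : x = ei j
  · rw [hx, Pi.single_eq_same, mul_one]
    ring
  · rw [Pi.single_eq_of_ne hx, mul_zero, add_zero, mv_sum, Finset.sum_eq_single x]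
    · by_cases hx' : x = fi j
      · rw [hx', hw, mul_zero]
      · rw [h x x hx hx', Matrix.one_apply_eq, one_mul]
    · intro y _ hy
      by_cases hy' : y = fi j
      · rw [hy', hw, mul_zero]
      · rw [h x y hx hy', Matrix.one_apply_ne hy.symm, zero_mul]
    · exact fun h' => absurd (Finset.mem_univ _) h'

theorem B_e (j : Fin n) (w : Ix n a → F) : D.B (sv (ei j)) w = w (fi j) := by
  rw [B_sv_left]
  show ((1 : Fˣ) : F) * w (fi j) = w (fi j)
  rw [Units.val_one, one_mul]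

theorem B_f' (j : Fin n) (w : Ix n a → F) : D.B w (sv (fi j)) = D.σ (w (ei j)) := by
  rw [B_sv_right]
  show ((1 : Fˣ) : F) * D.σ (w (ei j)) = D.σ (w (ei j))
  rw [Units.val_one, one_mul]

theorem B_f (hep : D.ep = 1) (j : Fin n) (w : Ix n a → F) : D.B (sv (fi j)) w = w (ei j) := by
  rw [B_sv_left]
  show (D.ep : F) * w (ei j) = w (ei j)
  rw [hep, Units.val_one, one_mul]

theorem B_e' (hep : D.ep = 1) (j : Fin n) (w : Ix n a → F) : D.B w (sv (ei j)) = D.σ (w (fi j)) := by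
  rw [B_sv_right]
  show (D.ep : F) * D.σ (w (fi j)) = D.σ (w (fi j))
  rw [hep, Units.val_one, one_mul]

theorem sv_same (x : Ix n a) : (sv x : Ix n a → F) x = 1 := by
  rw [sv, Pi.single_eq_same]

theorem sv_ne {x y : Ix n a} (h : x ≠ y) : (sv y : Ix n a → F) x = 0 := by
  rw [sv, Pi.single_eq_of_ne h]

end P08_aux

open P08_aux

/-- an Eichler element is a commutator -/
theorem eich_comm (hso : D.so = true) (j : Fin n) {E : GL (Ix n a) F} (hE : E ∈ D.U) {v : Ix n a → F}
    (hB : D.B v v = 0) (hj : v (fi j) = 1)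
    (hv : Bd ((j : ℕ) + 1) v) (ht : ∀ x, v (pm x) = D.τ (v x)) (hEf : mv E (sv (fi j)) = v)
    (hEe : mv E (sv (ei j)) = sv (ei j)) (hR : ∀ x y, x ≠ ei j → y ≠ fi j → (E : Matrix (Ix n a) (Ix n a) F) x y =
        (1 : Matrix (Ix n a) (Ix n a) F) x y) : E ∈ ⁅D.G, D.G⁆ := by
  obtain ⟨hσ, hep, -⟩ := D.sos hso
  have h2 : (2 : F) ≠ 0 := D.two
  have hne : (ei j : Ix n a) ≠ fi j := ei_ne_fi j j
  obtain ⟨γ, hγ⟩ : ∃ γ, γ = v (ei j) := ⟨_, rfl⟩
  obtain ⟨z, hz⟩ : ∃ z : Ix n a → F, z = v - sv (fi j) - γ • sv (ei j) := ⟨_, rfl⟩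
  have hvz : v = sv (fi j) + z + γ • sv (ei j) := by
    rw [hz]
    abel
  have hze : z (ei j) = 0 := by
    rw [hz, Pi.sub_apply, Pi.sub_apply, Pi.smul_apply, smul_eq_mul, sv_same, sv_ne hne, hγ]
    ring
  have hzf : z (fi j) = 0 := by
    rw [hz, Pi.sub_apply, Pi.sub_apply, Pi.smul_apply, smul_eq_mul, sv_same, sv_ne hne.symm, hj]
    ring
  have hpe : (pm (ei j) : Ix n a) = ei j := rfl
  have hτγ : D.τ γ = γ := by
    rw [hγ, ← ht, hpe]
  have htz : ∀ x, z (pm x) = D.τ (z x) := by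
    intro x
    rw [hz, Pi.sub_apply, Pi.sub_apply, Pi.smul_apply, smul_eq_mul, Pi.sub_apply, Pi.sub_apply, Pi.smul_apply,
      smul_eq_mul, ht, (sv_tw j).2, (sv_tw j).1, map_sub, map_sub, map_mul, hτγ]
  have hBf : ∀ x : Ix n a → F, D.B (sv (fi j)) x = x (ei j) := B_f hep j
  have hBe : ∀ x : Ix n a → F, D.B (sv (ei j)) x = x (fi j) := B_e j
  have hBf' : ∀ x : Ix n a → F, D.B x (sv (fi j)) = x (ei j) := fun x => (B_f' j x).trans (hσ _)
  have hBe' : ∀ x : Ix n a → F, D.B x (sv (ei j)) = x (fi j) := fun x => (B_e' hep j x).trans (hσ _)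
  have hBBv : ∀ (y : Ix n a → F) (g : F), y (ei j) = 0 → y (fi j) = 0 →
      D.B (sv (fi j) + y + g • sv (ei j)) (sv (fi j) + y + g • sv (ei j)) = 2 * g + D.B y y := by
    intro y g hy1 hy2
    simp only [B_add_left, B_add_right, B_smul_left, B_smul_right, hBf, hBe, hBf', hBe', hσ, hy1, hy2, sv_same,
      sv_ne hne, sv_ne hne.symm, Pi.add_apply, Pi.smul_apply, smul_eq_mul]
    ring
  have hγz : 2 * γ + D.B z z = 0 := by
    rw [← hBBv z γ hze hzf, ← hvz, hB]
  obtain ⟨z', hz'⟩ : ∃ z' : Ix n a → F, z' = (-(2 : F)⁻¹) • z := ⟨_, rfl⟩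
  obtain ⟨γ', hγ'⟩ : ∃ γ', γ' = -(D.B z' z' * (2 : F)⁻¹) := ⟨_, rfl⟩
  obtain ⟨v', hv'⟩ : ∃ v' : Ix n a → F, v' = sv (fi j) + z' + γ' • sv (ei j) := ⟨_, rfl⟩
  have hze' : z' (ei j) = 0 := by
    rw [hz', Pi.smul_apply, hze, smul_zero]
  have hzf' : z' (fi j) = 0 := by
    rw [hz', Pi.smul_apply, hzf, smul_zero]
  have hBz' : D.B z' z' = (2 : F)⁻¹ * (2 : F)⁻¹ * D.B z z := by
    rw [hz', B_smul_left, B_smul_right, hσ]
    ring
  have hγ'2 : 2 * γ' + D.B z' z' = 0 := by
    rw [hγ']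
    field_simp
    ring
  have hτ2 : D.τ ((2 : F)⁻¹) = (2 : F)⁻¹ := by
    rw [map_inv₀, map_ofNat]
  have htz' : ∀ x, z' (pm x) = D.τ (z' x) := by
    intro x
    rw [hz', Pi.smul_apply, Pi.smul_apply, smul_eq_mul, smul_eq_mul, map_mul, map_neg, hτ2, htz]
  have hτγ' : D.τ γ' = γ' := by
    rw [hγ', map_neg, map_mul, hτ2, B_tau htz' htz']
  have hB' : D.B v' v' = 0 := by
    rw [hv', hBBv z' γ' hze' hzf', hγ'2]
  have hj' : v' (fi j) = 1 := by
    rw [hv', Pi.add_apply, Pi.add_apply, Pi.smul_apply, smul_eq_mul, sv_same, sv_ne hne.symm, hzf']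
    ring
  have hbd : Bd ((j : ℕ) + 1) v' := by
    intro x hx
    have h1 : x ≠ ei j := by
      rintro rfl
      exact hx (Nat.lt_succ_self _)
    have h3 : x ≠ fi j := by
      rintro rfl
      exact hx (Nat.lt_succ_self _)
    have h4 : z x = 0 := by
      rw [hz, Pi.sub_apply, Pi.sub_apply, Pi.smul_apply, smul_eq_mul, sv_ne h1, sv_ne h3, hv x hx]
      ring
    rw [hv', hz', Pi.add_apply, Pi.add_apply, Pi.smul_apply, Pi.smul_apply, smul_eq_mul, smul_eq_mul, sv_ne h1,
      sv_ne h3, h4]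
    ring
  have htv' : ∀ x, v' (pm x) = D.τ (v' x) := by
    intro x
    rw [hv', Pi.add_apply, Pi.add_apply, Pi.smul_apply, smul_eq_mul, Pi.add_apply, Pi.add_apply, Pi.smul_apply,
      smul_eq_mul, htz', (sv_tw j).2, (sv_tw j).1, map_add, map_add, map_mul, hτγ']
  obtain ⟨E', hE'U, hE'f, hE'e, hE'R, -⟩ := exists_eich j hB' hj' hbd htv'
  have hE'G : E' ∈ D.G := U_le hE'U
  -- the torus element
  have hxτ : ∀ i, D.τ (((if i = j then -1 else 1 : Fˣ)) : F) = ((if i = j then -1 else 1 : Fˣ) : F) := by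
    intro i
    split_ifs
    · rw [Units.val_neg, Units.val_one, map_neg, map_one]
    · rw [Units.val_one, map_one]
  obtain ⟨t, htt⟩ : ∃ t : GL (Ix n a) F, t = D.tor (fun i => if i = j then -1 else 1) := ⟨_, rfl⟩
  have htT : t ∈ D.T := by
    rw [htt]
    exact tor_mem hxτ
  have htG : t ∈ D.G := htT.1
  have htD : t ∈ DG (Ix n a) F := T_DG htT
  have hte : (t : Matrix (Ix n a) (Ix n a) F) (ei j) (ei j) = -1 := by
    rw [htt, tor_e, if_pos rfl, Units.val_neg, Units.val_one]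
  have htf : (t : Matrix (Ix n a) (Ix n a) F) (fi j) (fi j) = -1 := by
    rw [htt, tor_f, if_pos rfl, Units.val_neg, Units.val_one, map_neg, map_one, inv_neg, inv_one]
  have hto : ∀ x : Ix n a, x ≠ ei j → x ≠ fi j → (t : Matrix (Ix n a) (Ix n a) F) x x = 1 := by
    rintro (⟨i, b⟩ | i) h1 h3
    · have hij : i ≠ j := by
        rintro rfl
        cases b
        · exact h1 rfl
        · exact h3 rfl
      cases b
      · have h4 := tor_e (D := D) (fun i => if i = j then -1 else 1) i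
        rw [if_neg hij, Units.val_one, ← htt] at h4
        exact h4
      · have h4 := tor_f (D := D) (fun i => if i = j then -1 else 1) i
        rw [if_neg hij, Units.val_one, map_one, inv_one, ← htt] at h4
        exact h4
    · have h4 := tor_m (D := D) (fun i => if i = j then -1 else 1) i
      rw [← htt] at h4
      exact h4
  have hmte : mv t (sv (ei j)) = -(sv (ei j) : Ix n a → F) := by
    ext x
    rw [mv_diag htD, Pi.neg_apply]
    by_cases hx : x = ei j
    · rw [hx, hte, sv_same, mul_one]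
    · rw [sv_ne hx, mul_zero, neg_zero]
  have hmtf : mv t (sv (fi j)) = -(sv (fi j) : Ix n a → F) := by
    ext x
    rw [mv_diag htD, Pi.neg_apply]
    by_cases hx : x = fi j
    · rw [hx, htf, sv_same, mul_one]
    · rw [sv_ne hx, mul_zero, neg_zero]
  have hmtz : mv t z' = z' := by
    ext x
    rw [mv_diag htD]
    by_cases hx : x = ei j
    · rw [hx, hze', mul_zero]
    by_cases hx' : x = fi j
    · rw [hx', hzf', mul_zero]
    · rw [hto x hx hx', one_mul]
  have mvneg : ∀ (g : GL (Ix n a) F) (w : Ix n a → F), mv g (-w) = - mv g w := by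
    intro g w
    have h1 := mv_smul g (-1) w
    rw [neg_one_smul, neg_one_smul] at h1
    exact h1
  have minv : ∀ (g : GL (Ix n a) F) (w w' : Ix n a → F), mv g w = w' → mv g⁻¹ w' = w := by
    intro g w w' h
    rw [← h, mv_inv]
  have hmte' : mv t⁻¹ (sv (ei j)) = -(sv (ei j) : Ix n a → F) := by
    apply minv
    rw [mvneg, hmte, neg_neg]
  have hmtf' : mv t⁻¹ (sv (fi j)) = -(sv (fi j) : Ix n a → F) := by
    apply minv
    rw [mvneg, hmtf, neg_neg]
  have hmtz' : mv t⁻¹ z' = z' := minv _ _ _ hmtz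
  -- the action of E'
  obtain ⟨δ, hδ⟩ := Ri.mv hE'R hzf'
  have hδγ : δ = 2 * γ' := by
    have h1 := B_mv hE'G z' (sv (fi j))
    rw [hδ, hE'f, hv', hBf', hze'] at h1
    simp only [B_add_left, B_add_right, B_smul_left, B_smul_right, hBf, hBe, hBf', hBe', hσ, hze', hzf', sv_same,
      sv_ne hne, sv_ne hne.symm, Pi.add_apply, Pi.smul_apply, smul_eq_mul] at h1
    linear_combination h1 - hγ'2
  have hE'z : mv E' z' = z' + (2 * γ') • sv (ei j) := by
    rw [hδ, hδγ]
  have hE'i : mv E'⁻¹ (sv (fi j)) = sv (fi j) - z' + γ' • sv (ei j) := by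
    apply minv
    rw [sub_eq_add_neg, mv_add, mv_add, mvneg, mv_smul, hE'f, hE'z, hE'e, hv']
    ext x
    simp only [Pi.add_apply, Pi.smul_apply, Pi.neg_apply, smul_eq_mul]
    ring
  have hE'ie : mv E'⁻¹ (sv (ei j)) = sv (ei j) := minv _ _ _ hE'e
  have hmain : E = ⁅t, E'⁆ := by
    rw [commutatorElement_def]
    refine eich_unique j (U_le hE) (D.G.mul_mem (D.G.mul_mem (D.G.mul_mem htG hE'G) (D.G.inv_mem htG))
      (D.G.inv_mem hE'G)) ?_ hEe ?_ hR ?_
    · rw [hEf, mv_mul, mv_mul, mv_mul, hE'i, sub_eq_add_neg]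
      simp only [mv_add, mvneg, mv_smul, smul_neg, hmtf', hmtz', hmte', hE'f, hE'z, hE'e, hv', hmtf, hmtz, hmte]
      rw [hvz]
      have h5 : γ = 4 * γ' := by
        have h6 : γ = -(D.B z z * (2 : F)⁻¹) := by
          field_simp
          linear_combination hγz
        rw [h6, hγ', hBz']
        field_simp
        ring
      ext x
      simp only [Pi.add_apply, Pi.smul_apply, Pi.neg_apply, smul_eq_mul]
      rw [h5]
      have h7 : z' x = -(2 : F)⁻¹ * z x := by rw [hz', Pi.smul_apply, smul_eq_mul]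
      rw [h7]
      field_simp
      ring
    · rw [mv_mul, mv_mul, mv_mul, hE'ie, hmte', mvneg, hE'e, mvneg, hmte, neg_neg]
    · have h1 : Ri j ((t * E' * t⁻¹ : GL (Ix n a) F) : Matrix (Ix n a) (Ix n a) F) := Ri.conj htD hE'R
      have h3 : Ri j ((E'⁻¹ : GL (Ix n a) F) : Matrix (Ix n a) (Ix n a) F) := Ri.inv hE'G hE'R
      have h4 := Ri.mul h1 h3
      rw [← Units.val_mul] at h4
      exact h4
  rw [hmain]
  exact Subgroup.commutator_mem_commutator htG hE'G

theorem U_comm (hso : D.so = true) : D.U ≤ ⁅D.G, D.G⁆ := by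
  obtain ⟨hσ, hep, -⟩ := D.sos hso
  have key : ∀ j : ℕ, j ≤ n → ∀ u ∈ D.U, Fo j (u : Matrix (Ix n a) (Ix n a) F) → u ∈ ⁅D.G, D.G⁆ := by
    intro j
    induction j with
    | zero =>
      intro _ u hu hF
      have h1 : u = 1 := by
        apply Units.ext
        ext x y
        rw [Units.val_one]
        by_cases h : In 0 x ∧ In 0 y
        · refine hu.2.1 x y ?_
          obtain ⟨hx, hy⟩ := h
          rcases x with ⟨i, b⟩ | i
          · exact absurd hx (Nat.not_lt_zero _)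
          · rcases y with ⟨i', b⟩ | i'
            · exact absurd hy (Nat.not_lt_zero _)
            · exact lt_irrefl _
        · exact hF x y h
      rw [h1]
      exact Subgroup.one_mem _
    | succ k ih =>
      intro hk u hu hF
      obtain ⟨j, rfl⟩ : ∃ j : Fin n, (j : ℕ) = k := ⟨⟨k, hk⟩, rfl⟩
      have huG : u ∈ D.G := U_le hu
      have hne : (ei j : Ix n a) ≠ fi j := ei_ne_fi j j
      have hue : mv u (sv (ei j)) = sv (ei j) := by
        ext x
        rw [mv_apply]
        have h1 : (u : Matrix (Ix n a) (Ix n a) F) x (ei j) = (1 : Matrix (Ix n a) (Ix n a) F) x (ei j) := by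
          by_cases h : In ((j : ℕ) + 1) x
          · refine hu.2.1 x _ ?_
            rcases x with ⟨i, b⟩ | i
            · have hi : (i : ℕ) < (j : ℕ) + 1 := h
              cases b
              · show ¬ (-(((i : ℕ) : ℤ) + 1) < -(((j : ℕ) : ℤ) + 1))
                omega
              · show ¬ ((((i : ℕ) : ℤ) + 1) < -(((j : ℕ) : ℤ) + 1))
                omega
            · show ¬ ((0 : ℤ) < -(((j : ℕ) : ℤ) + 1))
              omega
          · exact hF x _ (fun h' => h h'.1)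
        rw [h1, sv, Pi.single_apply, Matrix.one_apply]
      obtain ⟨v, hv⟩ : ∃ v, v = mv u (sv (fi j)) := ⟨_, rfl⟩
      have hB : D.B v v = 0 := by
        rw [hv, B_mv huG, B_f hep, sv_ne hne]
      have hj : v (fi j) = 1 := by
        rw [hv, mv_apply, hu.2.1 _ _ (lt_irrefl _), Matrix.one_apply_eq]
      have hbd : Bd ((j : ℕ) + 1) v := by
        intro x hx
        have h3 : x ≠ fi j := by
          rintro rfl
          exact hx (Nat.lt_succ_self _)
        rw [hv, mv_apply, hF x _ (fun h' => hx h'.1), Matrix.one_apply_ne h3]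
      have htv : ∀ x, v (pm x) = D.τ (v x) := by
        rw [hv]
        exact mv_tw huG (sv_tw j).2
      obtain ⟨E, hEU, hEf, hEe, hER, hEF⟩ := exists_eich j hB hj hbd htv
      have hEc : E ∈ ⁅D.G, D.G⁆ := eich_comm hso j hEU hB hj hbd htv hEf hEe hER
      have hEG : E ∈ D.G := U_le hEU
      have hgU : E⁻¹ * u ∈ D.U := D.U.mul_mem (D.U.inv_mem hEU) hu
      have hgG : E⁻¹ * u ∈ D.G := U_le hgU
      have hge : mv (E⁻¹ * u) (sv (ei j)) = sv (ei j) := by
        rw [mv_mul, hue]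
        conv_lhs => rw [← hEe]
        rw [mv_inv]
      have hgf : mv (E⁻¹ * u) (sv (fi j)) = sv (fi j) := by
        rw [mv_mul, ← hv, ← hEf, mv_inv]
      have hgF' : Fo ((j : ℕ) + 1) ((E⁻¹ * u : GL (Ix n a) F) : Matrix (Ix n a) (Ix n a) F) := by
        rw [Units.val_mul]
        exact Fo_mul (Fo_inv hEF) hF
      have hcol : ∀ x y : Ix n a, (y = ei j ∨ y = fi j) →
          ((E⁻¹ * u : GL (Ix n a) F) : Matrix (Ix n a) (Ix n a) F) x y = (1 : Matrix (Ix n a) (Ix n a) F) x y := by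
        rintro x y (rfl | rfl)
        · rw [mv_eq _ _ _ hge, sv, Pi.single_apply, Matrix.one_apply]
        · rw [mv_eq _ _ _ hgf, sv, Pi.single_apply, Matrix.one_apply]
      have hrow : ∀ x y : Ix n a, (x = ei j ∨ x = fi j) →
          ((E⁻¹ * u : GL (Ix n a) F) : Matrix (Ix n a) (Ix n a) F) x y = (1 : Matrix (Ix n a) (Ix n a) F) x y := by
        rintro x y (rfl | rfl)
        · have h := B_mv hgG (sv (fi j)) (sv y)
          rw [hgf, B_f hep, B_f hep] at h
          rw [← mv_apply, h, sv, Pi.single_apply, Matrix.one_apply]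
        · have h := B_mv hgG (sv (ei j)) (sv y)
          rw [hge, B_e, B_e] at h
          rw [← mv_apply, h, sv, Pi.single_apply, Matrix.one_apply]
      have hgF : Fo (j : ℕ) ((E⁻¹ * u : GL (Ix n a) F) : Matrix (Ix n a) (Ix n a) F) := by
        have hIn : ∀ x : Ix n a, In ((j : ℕ) + 1) x → ¬ In (j : ℕ) x → x = ei j ∨ x = fi j := by
          rintro (⟨i, b⟩ | i) h1 h2
          · have h3 : (i : ℕ) < (j : ℕ) + 1 := h1
            have h4 : ¬ (i : ℕ) < (j : ℕ) := h2
            have h5 : i = j := Fin.ext (by omega)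
            rw [h5]
            cases b
            · exact Or.inl rfl
            · exact Or.inr rfl
          · exact absurd trivial h2
        intro x y hxy
        by_cases h : In ((j : ℕ) + 1) x ∧ In ((j : ℕ) + 1) y
        · by_cases hx : In (j : ℕ) x
          · have hy : ¬ In (j : ℕ) y := fun hy => hxy ⟨hx, hy⟩
            exact hcol x y (hIn y h.2 hy)
          · exact hrow x y (hIn x h.1 hx)
        · exact hgF' x y h
      have h9 := Subgroup.mul_mem _ hEc (ih (by omega) _ hgU hgF)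
      rw [mul_inv_cancel_left] at h9
      exact h9
  intro u hu
  refine key n le_rfl u hu ?_
  intro x y hxy
  refine absurd ?_ hxy
  have hIn : ∀ x : Ix n a, In n x := by
    rintro (⟨i, b⟩ | i)
    · exact i.2
    · exact trivial
  exact ⟨hIn x, hIn y⟩

theorem comm_le : ⁅D.G, D.G⁆ ≤ D.G := by
  rw [Subgroup.commutator_le]
  intro g hg h hh
  rw [commutatorElement_def]
  exact D.G.mul_mem (D.G.mul_mem (D.G.mul_mem hg hh) (D.G.inv_mem hg)) (D.G.inv_mem hh)

theorem comm_normal : ∀ g ∈ D.G, ∀ h ∈ ⁅D.G, D.G⁆, g * h * g⁻¹ ∈ ⁅D.G, D.G⁆ := by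
  intro g hg h hh
  have h1 : g * h * g⁻¹ = ⁅g, h⁆ * h := by
    rw [commutatorElement_def, inv_mul_cancel_right]
  rw [h1]
  exact Subgroup.mul_mem _ (Subgroup.commutator_mem_commutator hg (comm_le hh)) hh

theorem la_comm (la : D.G →* ℤˣ) : ∀ h ∈ ⁅D.G, D.G⁆, ∀ hh : h ∈ D.G, la ⟨h, hh⟩ = 1 := by
  have h1 : ⁅D.G, D.G⁆ ≤ la.ker.map D.G.subtype := by
    rw [Subgroup.commutator_le]
    intro g hg h hh
    refine ⟨⁅(⟨g, hg⟩ : D.G), ⟨h, hh⟩⁆, ?_, rfl⟩
    show la _ = 1
    rw [map_commutatorElement, commutatorElement_eq_one_iff_mul_comm, mul_comm]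
  intro h hh hG
  obtain ⟨x, hx, hxe⟩ := h1 hh
  have h2 : (⟨h, hG⟩ : D.G) = x := Subtype.ext hxe.symm
  rw [h2]
  exact hx

theorem tor_comm {x y : Fin n → Fˣ} (hx : ∀ i, D.τ (x i : F) = x i) {π : Perm (Fin n)}
    (hy : ∀ i, y i = x i * (x (π i))⁻¹) : D.tor y ∈ ⁅D.G, D.G⁆ := by
  have h1 : (mo 1 y : GL (Fin n) F) = ⁅(mo 1 x : GL (Fin n) F), mo π⁻¹ 1⁆ := by
    rw [commutatorElement_def, mo_inv, mo_inv, mo_mul, mo_mul, mo_mul]
    have h2 : (1 * π⁻¹ * 1⁻¹ * (π⁻¹)⁻¹ : Perm (Fin n)) = 1 := by group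
    rw [h2]
    congr 1
    funext i
    rw [hy]
    simp
  have h3 : D.tor y = ⁅D.tor x, D.hy (mo π⁻¹ 1)⁆ := by
    rw [FD.tor, h1, map_commutatorElement]
    rfl
  rw [h3]
  refine Subgroup.commutator_mem_commutator (tor_mem hx).1 (hy_mem ?_)
  intro i j
  rw [mo_apply]
  split_ifs
  · rw [Pi.one_apply, Units.val_one, map_one]
  · exact map_zero _

end

end AO.MG
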