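import Pool.Agent.AO.F16
import Pool.Agent.AO.P00

/-!
# MP_6c3636_al, AO, module P09: orthogonal groups: the spinor norm (helper7)

`so = true`, so `σ = id`, `ep = 1`. Let `V` be the set of the `v` with `v (pm x) = τ (v x)` for all `x`, `X = {v ∈ V : B v v = 1}`, finite; `G` acts on `X` (`mv_tw`, `B_mv`); `la g` is the sign of the permutation of `X`. It is enough to prove `la (tor x) = ch x` for `tor` with the coordinate `x` at one `i`. `X` is the disjoint union of the sets `X w`, `w` the coordinates outside of `ei i`, `fi i`: `v = (y, z, w)`, `y, z ∈ K` (`K` the fixed field of `τ`), `2 y z + Q w = 1`; `tor` maps `(y, z, w)` to `(x y, x⁻¹ z, w)`. If `Q w ≠ 1`: `X w` is in bijection with `Kˣ` by `y`, and the sign of the multiplication by `x` on `Kˣ` is `ch x` (for a generator `x` it is a cycle of even length `card K - 1`). If `Q w = 1`: `X w` is the union of `{(y, 0)}`, `{(0, z)}`, `y, z ≠ 0`, and `(0, 0)`; the sign is `ch x * ch x⁻¹ = 1`. So the sign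 is `(ch x) ^ m`, `m` the number of the `w` with `Q w ≠ 1`, which is odd: the number of all `w` is a power of `card K` or of `card F`, odd; the number of the `w` with `Q w = 1` is even by `w ↦ - w`.
-/

namespace AO.MG

noncomputable section

open Classical Equiv Matrix

open AN (sq)

namespace P09_aux

section sgn

variable {H : Type} [Group H] [Finite H]

/-- the sign of the permutations of the finite set `X` -/
def sgP (X : Type) [Finite X] : Perm X →* ℤˣ :=
  @Equiv.Perm.sign X (fun x y => Classical.propDecidable (x = y)) (Fintype.ofFinite X)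

theorem sgP_eq (X : Type) [Finite X] [i : Fintype X] [j : DecidableEq X] (f : Perm X) :
    sgP X f = Equiv.Perm.sign f := by
  unfold sgP
  have h1 : Fintype.ofFinite X = i := Subsingleton.elim _ _
  have h2 : (fun x y => Classical.propDecidable (x = y) : DecidableEq X) = j := Subsingleton.elim _ _
  rw [h1, h2]

theorem sgP_equiv {X Y : Type} [Finite X] [Finite Y] (e : X ≃ Y) (f : Perm X) (g : Perm Y)
    (h : ∀ x, e (f x) = g (e x)) : sgP X f = sgP Y g := by
  let _ := Fintype.ofFinite X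
  let _ := Fintype.ofFinite Y
  exact Equiv.Perm.sign_eq_sign_of_equiv f g e h

theorem sgP_sum {X Y : Type} [Finite X] [Finite Y] (f : Perm X) (g : Perm Y) :
    sgP (X ⊕ Y) (Equiv.Perm.sumCongr f g) = sgP X f * sgP Y g := by
  let _ := Fintype.ofFinite X
  let _ := Fintype.ofFinite Y
  rw [sgP_eq, sgP_eq, sgP_eq]
  exact Equiv.Perm.sign_sumCongr f g

/-- the sign on a product -/
theorem sgP_prod {X Y : Type} [Finite X] [Finite Y] (g : Perm Y) :
    sgP (X × Y) (Equiv.prodCongrRight fun _ => g) = sgP Y g ^ Nat.card X := by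
  let _ := Fintype.ofFinite X
  let _ := Fintype.ofFinite Y
  rw [sgP_eq, sgP_eq, Equiv.Perm.sign_prodCongrRight, Finset.prod_const, Finset.card_univ, Nat.card_eq_fintype_card]

theorem sgP_gen {g : H} (hg : ∀ x, x ∈ Subgroup.zpowers g) (he : Even (Nat.card H)) :
    sgP H (MulAction.toPermHom H H g) = -1 := by
  let _ := Fintype.ofFinite H
  have hg1 : g ≠ 1 := by
    rintro rfl
    have h1 : Nat.card H = 1 := by
      rw [Nat.card_eq_one_iff_exists]
      refine ⟨1, fun x => ?_⟩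
      have := hg x
      rwa [Subgroup.zpowers_one_eq_bot, Subgroup.mem_bot] at this
    rw [h1] at he
    exact absurd he (by decide)
  have hne : ∀ x : H, MulAction.toPermHom H H g x ≠ x := by
    intro x h
    apply hg1
    have h1 : g * x = x := h
    exact mul_eq_right.1 h1
  have hc : (MulAction.toPermHom H H g).IsCycle := by
    refine ⟨1, hne 1, fun y _ => ?_⟩
    obtain ⟨k, hk⟩ := hg y
    refine ⟨k, ?_⟩
    rw [← map_zpow]
    show g ^ k * 1 = y
    rw [mul_one]
    exact hk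
  rw [sgP_eq, hc.sign]
  have hs : (MulAction.toPermHom H H g).support = Finset.univ := by
    ext x
    simp only [Equiv.Perm.mem_support, Finset.mem_univ, iff_true]
    exact hne x
  rw [hs, Finset.card_univ, ← Nat.card_eq_fintype_card, he.neg_one_pow]

end sgn

/-- an involution without fixed points -/
theorem even_inv {X : Type} [Finite X] (f : X → X) (hf : ∀ x, f (f x) = x) (hx : ∀ x, f x ≠ x) :
    Even (Nat.card X) := by
  let _ := Fintype.ofFinite X
  rw [Nat.card_eq_fintype_card, even_iff_two_dvd, ← ZMod.natCast_eq_zero_iff]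
  have h1 : ∑ x : X, (1 : ZMod 2) = 0 := by
    refine Finset.sum_involution (fun x _ => f x) ?_ ?_ ?_ ?_
    · intro a _
      decide
    · intro a _ _
      exact hx a
    · intro a _
      exact Finset.mem_univ _
    · intro a _
      exact hf a
  rw [Finset.sum_const, Finset.card_univ, nsmul_eq_mul, mul_one] at h1
  exact h1

/-- an involution with exactly one fixed point -/
theorem odd_inv {X : Type} [Finite X] (f : X → X) (hf : ∀ x, f (f x) = x) (x0 : X)
    (hx : ∀ x, f x = x ↔ x = x0) : Odd (Nat.card X) := by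
  have h1 : Even (Nat.card {x : X // x ≠ x0}) := by
    refine even_inv (fun x => ⟨f x.1, fun h => x.2 ?_⟩) ?_ ?_
    · have h2 : f x0 = x0 := (hx x0).2 rfl
      rw [← hf x.1, h, h2]
    · intro x
      exact Subtype.ext (hf x.1)
    · intro x h
      exact x.2 ((hx x.1).1 (congrArg Subtype.val h))
  have h2 : Nat.card X = Nat.card {x : X // x ≠ x0} + 1 := by
    let _ := Fintype.ofFinite X
    have h3 := Fintype.card_subtype_compl (fun x => x = x0)
    rw [Fintype.card_subtype_eq] at h3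
    rw [Nat.card_eq_fintype_card, Nat.card_eq_fintype_card]
    have h4 : 0 < Fintype.card X := Fintype.card_pos_iff.2 ⟨x0⟩
    have h5 : Fintype.card {x // x ≠ x0} = Fintype.card X - 1 := h3
    omega
  rw [h2]
  exact h1.add_one

section KU

variable {F : Type} [Field F]

/-- the units fixed by `τ` -/
def KU (τ : F ≃+* F) : Subgroup Fˣ where
  carrier := {u | τ (u : F) = u}
  mul_mem' := by
    intro u v hu hv
    have hu' : τ (u : F) = u := hu
    have hv' : τ (v : F) = v := hv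
    show τ ((u * v : Fˣ) : F) = ((u * v : Fˣ) : F)
    rw [Units.val_mul, map_mul, hu', hv']
  one_mem' := by
    show τ ((1 : Fˣ) : F) = ((1 : Fˣ) : F)
    rw [Units.val_one, map_one]
  inv_mem' := by
    intro u hu
    have hu' : τ (u : F) = u := hu
    show τ ((u⁻¹ : Fˣ) : F) = ((u⁻¹ : Fˣ) : F)
    rw [Units.val_inv_eq_inv_val, map_inv₀, hu']

theorem KU_mem {τ : F ≃+* F} {u : Fˣ} : u ∈ KU τ ↔ τ (u : F) = u := Iff.rfl

/-- the sign of the multiplication by `u` -/
def sgm (τ : F ≃+* F) [Finite F] : KU τ →* ℤˣ :=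
  (sgP (KU τ)).comp (MulAction.toPermHom (KU τ) (KU τ))

variable [Finite F]

theorem KU_even (h2 : (2 : F) ≠ 0) (τ : F ≃+* F) : Even (Nat.card (KU τ)) := by
  have h1 : (-1 : Fˣ) ∈ KU τ := by
    rw [KU_mem, Units.val_neg, Units.val_one, map_neg, map_one]
  have h3 : orderOf (⟨-1, h1⟩ : KU τ) = 2 := by
    refine orderOf_eq_prime ?_ ?_
    · apply Subtype.ext
      apply Units.ext
      show ((-1 : Fˣ) ^ 2 : Fˣ) = (1 : F)
      rw [neg_one_sq, Units.val_one]
    · intro h
      have h4 : ((-1 : Fˣ) : F) = ((1 : Fˣ) : F) := congrArg (fun x : KU τ => ((x : Fˣ) : F)) h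
      rw [Units.val_neg, Units.val_one] at h4
      apply h2
      linear_combination (-1 : F) * h4
  rw [even_iff_two_dvd, ← h3]
  exact orderOf_dvd_natCard _

theorem sgm_ch (h2 : (2 : F) ≠ 0) {τ : F ≃+* F} (u : KU τ) : sgm τ u = ch τ ((u : Fˣ) : F) := by
  obtain ⟨g, hg⟩ := IsCyclic.exists_generator (α := KU τ)
  have hg1 : sgm τ g = -1 := sgP_gen hg (KU_even h2 τ)
  unfold ch
  split_ifs with h
  · obtain ⟨y, hy, hyy⟩ := h
    have hy0 : y ≠ 0 := by
      rintro rfl
      rw [mul_zero] at hyy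
      exact (u : Fˣ).ne_zero hyy.symm
    have h3 : u = ⟨Units.mk0 y hy0, hy⟩ * ⟨Units.mk0 y hy0, hy⟩ := by
      apply Subtype.ext
      apply Units.ext
      exact hyy.symm
    rw [h3, map_mul, Int.units_mul_self]
  · obtain ⟨k, hk⟩ := hg u
    have hk' : g ^ k = u := hk
    rcases Int.even_or_odd k with he | ho
    · exfalso
      apply h
      obtain ⟨m, hm⟩ := he
      refine ⟨((g ^ m : KU τ) : Fˣ), (g ^ m).2, ?_⟩
      rw [← hk', hm, _root_.zpow_add]
      rfl
    · rw [← hk', map_zpow, hg1, ho.neg_one_zpow]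

end KU


section main

variable {n a : ℕ} {F : Type} [Field F] {D : FD n a F}

/-- the vectors of norm one -/
abbrev XS (D : FD n a F) : Type := {v : Ix n a → F // (∀ x, v (pm x) = D.τ (v x)) ∧ D.B v v = 1}

/-- the vectors of the complement of a hyperbolic plane -/
abbrev WS (D : FD n a F) (i : Fin n) : Type :=
  {w : Ix n a → F // (∀ x, w (pm x) = D.τ (w x)) ∧ w (ei i) = 0 ∧ w (fi i) = 0}

/-- the vectors of norm one of the complement of a hyperbolic plane -/
abbrev W1 (D : FD n a F) (i : Fin n) : Type := {w : WS D i // D.B w.1 w.1 = 1}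

/-- the fixed field -/
abbrev KF (τ : F ≃+* F) : Type := {z : F // τ z = z}

/-- multiplication by the inverse of `u` -/
def mK (τ : F ≃+* F) (u : KU τ) : Perm (KF τ) where
  toFun z := ⟨((u : Fˣ) : F)⁻¹ * z.1, by rw [map_mul, map_inv₀, z.2, KU_mem.1 u.2]⟩
  invFun z := ⟨((u : Fˣ) : F) * z.1, by rw [map_mul, z.2, KU_mem.1 u.2]⟩
  left_inv := by
    intro z
    apply Subtype.ext
    show ((u : Fˣ) : F) * (((u : Fˣ) : F)⁻¹ * z.1) = z.1
    rw [← mul_assoc, mul_inv_cancel₀ (u : Fˣ).ne_zero, one_mul]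
  right_inv := by
    intro z
    apply Subtype.ext
    show ((u : Fˣ) : F)⁻¹ * (((u : Fˣ) : F) * z.1) = z.1
    rw [← mul_assoc, inv_mul_cancel₀ (u : Fˣ).ne_zero, one_mul]

/-- the vector with given coordinates -/
def cv (i : Fin n) (y z : F) (w : Ix n a → F) : Ix n a → F := w + (y • sv (ei i) + z • sv (fi i))

theorem cv_apply (i : Fin n) (y z : F) (w : Ix n a → F) (p : Ix n a) :
    cv i y z w p = w p + ((if p = ei i then y else 0) + (if p = fi i then z else 0)) := by
  unfold cv sv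
  rw [Pi.add_apply, Pi.add_apply, Pi.smul_apply, Pi.smul_apply, Pi.single_apply, Pi.single_apply,
    smul_eq_mul, smul_eq_mul, mul_ite, mul_ite, mul_one, mul_zero, mul_one, mul_zero]

theorem ei_ne_fi (i j : Fin n) : (ei i : Ix n a) ≠ fi j := by
  intro h
  have h1 := congrArg Prod.snd (Sum.inl.inj h)
  exact Bool.false_ne_true h1

theorem ei_inj {i j : Fin n} (h : (ei i : Ix n a) = ei j) : i = j := congrArg Prod.fst (Sum.inl.inj h)

theorem fi_inj {i j : Fin n} (h : (fi i : Ix n a) = fi j) : i = j := congrArg Prod.fst (Sum.inl.inj h)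

theorem cv_e {i : Fin n} {y z : F} {w : Ix n a → F} (h : w (ei i) = 0) : cv i y z w (ei i) = y := by
  rw [cv_apply, if_pos rfl, if_neg (ei_ne_fi i i), h, zero_add, add_zero]

theorem cv_f {i : Fin n} {y z : F} {w : Ix n a → F} (h : w (fi i) = 0) : cv i y z w (fi i) = z := by
  rw [cv_apply, if_pos rfl, if_neg (fun h' => ei_ne_fi i i h'.symm), h, zero_add, zero_add]

theorem cv_ne {i : Fin n} {y z : F} {w : Ix n a → F} {p : Ix n a} (h1 : p ≠ ei i) (h2 : p ≠ fi i) :
    cv i y z w p = w p := by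
  rw [cv_apply, if_neg h1, if_neg h2, add_zero, add_zero]

theorem cv_inj {i : Fin n} {y z y' z' : F} {w w' : Ix n a → F} (h1 : w (ei i) = 0) (h2 : w (fi i) = 0)
    (h1' : w' (ei i) = 0) (h2' : w' (fi i) = 0) (h : cv i y z w = cv i y' z' w') :
    y = y' ∧ z = z' ∧ w = w' := by
  refine ⟨?_, ?_, ?_⟩
  · rw [← cv_e (y := y) (z := z) h1, h, cv_e h1']
  · rw [← cv_f (y := y) (z := z) h2, h, cv_f h2']
  · funext p
    by_cases hp1 : p = ei i
    · rw [hp1, h1, h1']
    · by_cases hp2 : p = fi i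
      · rw [hp2, h2, h2']
      · rw [← cv_ne (y := y) (z := z) (w := w) hp1 hp2, h, cv_ne hp1 hp2]

theorem pm_e (i : Fin n) : pm (ei i : Ix n a) = ei i := rfl

theorem pm_f (i : Fin n) : pm (fi i : Ix n a) = fi i := rfl

theorem cv_tw {i : Fin n} {y z : F} {w : Ix n a → F} (hy : D.τ y = y) (hz : D.τ z = z)
    (hw : ∀ x, w (pm x) = D.τ (w x)) : ∀ x, cv i y z w (pm x) = D.τ (cv i y z w x) := by
  intro x
  have he : pm x = ei i ↔ x = ei i := by
    constructor
    · intro h
      exact pm.injective (h.trans (pm_e i).symm)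
    · intro h
      rw [h, pm_e]
  have hf : pm x = fi i ↔ x = fi i := by
    constructor
    · intro h
      exact pm.injective (h.trans (pm_f i).symm)
    · intro h
      rw [h, pm_f]
  rw [cv_apply, cv_apply, map_add, map_add, hw]
  congr 2
  · by_cases h : x = ei i
    · rw [if_pos h, if_pos (he.2 h), hy]
    · rw [if_neg h, if_neg (fun h' => h (he.1 h')), map_zero]
  · by_cases h : x = fi i
    · rw [if_pos h, if_pos (hf.2 h), hz]
    · rw [if_neg h, if_neg (fun h' => h (hf.1 h')), map_zero]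

variable [Finite F]

theorem B_cv (hσ : ∀ x, D.σ x = x) (hep : D.ep = 1) {i : Fin n} {y z : F} {w : Ix n a → F}
    (h1 : w (ei i) = 0) (h2 : w (fi i) = 0) : D.B (cv i y z w) (cv i y z w) = D.B w w + 2 * (y * z) := by
  have c1 : (D.c (ei i) : F) = 1 := by
    show ((1 : Fˣ) : F) = 1
    exact Units.val_one
  have c2 : (D.c (fi i) : F) = 1 := by
    show ((D.ep : Fˣ) : F) = 1
    rw [hep, Units.val_one]
  have d1 : du (ei i : Ix n a) = fi i := rfl
  have d2 : du (fi i : Ix n a) = ei i := rfl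
  have s1 : (sv (ei i) : Ix n a → F) (ei i) = 1 := by
    unfold sv
    rw [Pi.single_apply, if_pos rfl]
  have s2 : (sv (ei i) : Ix n a → F) (fi i) = 0 := by
    unfold sv
    rw [Pi.single_apply, if_neg (fun h => ei_ne_fi i i h.symm)]
  have s3 : (sv (fi i) : Ix n a → F) (ei i) = 0 := by
    unfold sv
    rw [Pi.single_apply, if_neg (ei_ne_fi i i)]
  have s4 : (sv (fi i) : Ix n a → F) (fi i) = 1 := by
    unfold sv
    rw [Pi.single_apply, if_pos rfl]
  unfold cv
  simp only [B_add_left, B_add_right, B_smul_left, B_smul_right, B_sv_left, B_sv_right, hσ, c1, c2, d1, d2,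
    Pi.add_apply, Pi.smul_apply, smul_eq_mul, s1, s2, s3, s4, h1, h2]
  ring

/-- the map from the coordinates to the vectors -/
def jm (hσ : ∀ x, D.σ x = x) (hep : D.ep = 1) (i : Fin n) :
    (WS D i × KU D.τ) ⊕ (W1 D i × KF D.τ) → XS D
  | Sum.inl (w, y) => ⟨cv i ((y : Fˣ) : F) ((1 - D.B w.1 w.1) * (2 * ((y : Fˣ) : F))⁻¹) w.1,
      cv_tw (KU_mem.1 y.2) (by
        rw [map_mul, map_sub, map_one, B_tau w.2.1 w.2.1, map_inv₀, map_mul, KU_mem.1 y.2, map_ofNat]) w.2.1, by
        rw [B_cv hσ hep w.2.2.1 w.2.2.2]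
        have h3 : (2 : F) * ((y : Fˣ) : F) ≠ 0 := mul_ne_zero D.two (y : Fˣ).ne_zero
        have h4 : (2 : F) * (((y : Fˣ) : F) * ((1 - D.B w.1 w.1) * (2 * ((y : Fˣ) : F))⁻¹)) =
            1 - D.B w.1 w.1 := by
          calc (2 : F) * (((y : Fˣ) : F) * ((1 - D.B w.1 w.1) * (2 * ((y : Fˣ) : F))⁻¹)) =
              (2 * ((y : Fˣ) : F)) * (2 * ((y : Fˣ) : F))⁻¹ * (1 - D.B w.1 w.1) := by ring
            _ = 1 - D.B w.1 w.1 := by rw [mul_inv_cancel₀ h3, one_mul]
        rw [h4]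
        ring⟩
  | Sum.inr (w, z) => ⟨cv i 0 z.1 w.1.1, cv_tw (map_zero _) z.2 w.1.2.1, by
        rw [B_cv hσ hep w.1.2.2.1 w.1.2.2.2, w.2, zero_mul, mul_zero, add_zero]⟩

theorem cv_rest {i : Fin n} (v : Ix n a → F) (hv : ∀ x, v (pm x) = D.τ (v x)) :
    ∃ w : WS D i, v = cv i (v (ei i)) (v (fi i)) w.1 := by
  have he : D.τ (v (ei i)) = v (ei i) := (hv (ei i)).symm
  have hf : D.τ (v (fi i)) = v (fi i) := (hv (fi i)).symm
  refine ⟨⟨cv i (-(v (ei i))) (-(v (fi i))) v, cv_tw (by rw [map_neg, he]) (by rw [map_neg, hf]) hv, ?_, ?_⟩, ?_⟩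
  · rw [cv_apply, if_pos rfl, if_neg (ei_ne_fi i i), add_zero, add_neg_cancel]
  · rw [cv_apply, if_pos rfl, if_neg (fun h' => ei_ne_fi i i h'.symm), zero_add, add_neg_cancel]
  · funext p
    show v p = cv i (v (ei i)) (v (fi i)) (cv i (-(v (ei i))) (-(v (fi i))) v) p
    rw [cv_apply, cv_apply]
    by_cases h1 : p = ei i
    · rw [if_pos h1, if_pos h1]
      by_cases h2 : p = fi i
      · rw [if_pos h2, if_pos h2]
        ring
      · rw [if_neg h2, if_neg h2]
        ring
    · rw [if_neg h1, if_neg h1]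
      by_cases h2 : p = fi i
      · rw [if_pos h2, if_pos h2]
        ring
      · rw [if_neg h2, if_neg h2]
        ring

theorem jm_inj (hσ : ∀ x, D.σ x = x) (hep : D.ep = 1) (i : Fin n) : Function.Injective (jm hσ hep i) := by
  rintro (⟨w, y⟩ | ⟨w, z⟩) (⟨w', y'⟩ | ⟨w', z'⟩) h
  · have h1 := cv_inj w.2.2.1 w.2.2.2 w'.2.2.1 w'.2.2.2 (congrArg Subtype.val h)
    have e1 : w = w' := Subtype.ext h1.2.2
    have e2 : y = y' := Subtype.ext (Units.ext h1.1)
    rw [e1, e2]
  · have h1 := cv_inj w.2.2.1 w.2.2.2 w'.1.2.2.1 w'.1.2.2.2 (congrArg Subtype.val h)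
    exact absurd h1.1 (y : Fˣ).ne_zero
  · have h1 := cv_inj w.1.2.2.1 w.1.2.2.2 w'.2.2.1 w'.2.2.2 (congrArg Subtype.val h)
    exact absurd h1.1.symm (y' : Fˣ).ne_zero
  · have h1 := cv_inj w.1.2.2.1 w.1.2.2.2 w'.1.2.2.1 w'.1.2.2.2 (congrArg Subtype.val h)
    have e1 : w = w' := Subtype.ext (Subtype.ext h1.2.2)
    have e2 : z = z' := Subtype.ext h1.2.1
    rw [e1, e2]

theorem jm_surj (hσ : ∀ x, D.σ x = x) (hep : D.ep = 1) (i : Fin n) : Function.Surjective (jm hσ hep i) := by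
  rintro ⟨v, hv, hB⟩
  obtain ⟨w, hw⟩ := cv_rest (i := i) v hv
  have he : D.τ (v (ei i)) = v (ei i) := (hv (ei i)).symm
  have hf : D.τ (v (fi i)) = v (fi i) := (hv (fi i)).symm
  have hB' : D.B w.1 w.1 + 2 * (v (ei i) * v (fi i)) = 1 := by
    rw [← B_cv hσ hep w.2.2.1 w.2.2.2, ← hw, hB]
  by_cases h0 : v (ei i) = 0
  · have h1 : D.B w.1 w.1 = 1 := by
      rw [← hB', h0]
      ring
    refine ⟨Sum.inr (⟨w, h1⟩, ⟨v (fi i), hf⟩), ?_⟩
    apply Subtype.ext
    show cv i 0 (v (fi i)) w.1 = v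
    conv_rhs => rw [hw]
    rw [h0]
  · refine ⟨Sum.inl (w, ⟨Units.mk0 (v (ei i)) h0, he⟩), ?_⟩
    apply Subtype.ext
    show cv i (v (ei i)) ((1 - D.B w.1 w.1) * (2 * v (ei i))⁻¹) w.1 = v
    conv_rhs => rw [hw]
    have h3 : (2 : F) * v (ei i) ≠ 0 := mul_ne_zero D.two h0
    have h4 : (1 - D.B w.1 w.1) * (2 * v (ei i))⁻¹ = v (fi i) := by
      rw [← hB']
      calc (D.B w.1 w.1 + 2 * (v (ei i) * v (fi i)) - D.B w.1 w.1) * (2 * v (ei i))⁻¹ =
          (2 * v (ei i)) * (2 * v (ei i))⁻¹ * v (fi i) := by ring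
        _ = v (fi i) := by rw [mul_inv_cancel₀ h3, one_mul]
    rw [h4]

/-- the action on the vectors of norm one -/
def acX (D : FD n a F) : D.G →* Perm (XS D) where
  toFun g := 
    { toFun := fun v => ⟨mv (g : GL (Ix n a) F) v.1, mv_tw g.2 v.2.1, by rw [B_mv g.2]; exact v.2.2⟩
      invFun := fun v => ⟨mv (g : GL (Ix n a) F)⁻¹ v.1, mv_tw (D.G.inv_mem g.2) v.2.1, by
        rw [B_mv (D.G.inv_mem g.2)]; exact v.2.2⟩
      left_inv := by
        intro v
        apply Subtype.ext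
        exact mv_inv _ _
      right_inv := by
        intro v
        apply Subtype.ext
        show mv (g : GL (Ix n a) F) (mv (g : GL (Ix n a) F)⁻¹ v.1) = v.1
        rw [← mv_mul, mul_inv_cancel, mv_one] }
  map_one' := by
    ext v
    apply congrFun
    exact mv_one _
  map_mul' g h := by
    ext v
    apply congrFun
    exact mv_mul _ _ _

theorem mv_diag {t : GL (Ix n a) F} (ht : t ∈ D.T) (v : Ix n a → F) (p : Ix n a) :
    mv t v p = (t : Matrix (Ix n a) (Ix n a) F) p p * v p := by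
  rw [mv_sum, Finset.sum_eq_single p]
  · intro q _ hq
    rw [mem_DG.1 (T_DG ht) p q hq.symm, zero_mul]
  · exact fun h => absurd (Finset.mem_univ _) h

theorem mv_tor {x : Fin n → Fˣ} (hx : ∀ i, D.τ (x i : F) = x i) (hσ : ∀ x, D.σ x = x) {i : Fin n}
    (h1 : ∀ j, j ≠ i → x j = 1) {y z : F} {w : Ix n a → F} (he : w (ei i) = 0) (hf : w (fi i) = 0) :
    mv (D.tor x) (cv i y z w) = cv i ((x i : F) * y) ((x i : F)⁻¹ * z) w := by
  funext p
  rw [mv_diag (tor_mem hx)]
  rcases p with ⟨j, b⟩ | j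
  · by_cases hj : j = i
    · subst hj
      cases b
      · show (D.tor x : Matrix (Ix n a) (Ix n a) F) (ei j) (ei j) * cv j y z w (ei j) = cv j _ _ w (ei j)
        rw [tor_e, cv_e he, cv_e he]
      · show (D.tor x : Matrix (Ix n a) (Ix n a) F) (fi j) (fi j) * cv j y z w (fi j) = cv j _ _ w (fi j)
        rw [tor_f, cv_f hf, cv_f hf, hσ]
    · cases b
      · show (D.tor x : Matrix (Ix n a) (Ix n a) F) (ei j) (ei j) * cv i y z w (ei j) = cv i _ _ w (ei j)
        rw [tor_e, h1 j hj, Units.val_one, one_mul, cv_ne (fun h => hj (ei_inj h)) (ei_ne_fi j i),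
          cv_ne (fun h => hj (ei_inj h)) (ei_ne_fi j i)]
      · show (D.tor x : Matrix (Ix n a) (Ix n a) F) (fi j) (fi j) * cv i y z w (fi j) = cv i _ _ w (fi j)
        rw [tor_f, h1 j hj, Units.val_one, map_one, inv_one, one_mul,
          cv_ne (fun h => ei_ne_fi i j h.symm) (fun h => hj (fi_inj h)),
          cv_ne (fun h => ei_ne_fi i j h.symm) (fun h => hj (fi_inj h))]
  · show (D.tor x : Matrix (Ix n a) (Ix n a) F) (mi j) (mi j) * cv i y z w (mi j) = cv i _ _ w (mi j)
    have e1 : (mi j : Ix n a) ≠ ei i := fun h => Sum.inr_ne_inl h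
    have e2 : (mi j : Ix n a) ≠ fi i := fun h => Sum.inr_ne_inl h
    rw [tor_m, one_mul, cv_ne e1 e2, cv_ne e1 e2]

theorem WS_odd (D : FD n a F) (i : Fin n) : Odd (Nat.card (WS D i)) := by
  refine odd_inv (fun w => ⟨-w.1, fun x => ?_, ?_, ?_⟩) ?_ ⟨0, fun x => ?_, rfl, rfl⟩ ?_
  · rw [Pi.neg_apply, Pi.neg_apply, map_neg, w.2.1]
  · rw [Pi.neg_apply, w.2.2.1, neg_zero]
  · rw [Pi.neg_apply, w.2.2.2, neg_zero]
  · intro w
    apply Subtype.ext
    exact neg_neg _
  · rw [Pi.zero_apply, Pi.zero_apply, map_zero]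
  · intro w
    constructor
    · intro h
      apply Subtype.ext
      have h1 : -w.1 = w.1 := congrArg Subtype.val h
      funext p
      have h2 := congrFun h1 p
      rw [Pi.neg_apply] at h2
      have h3 : (2 : F) * w.1 p = 0 := by linear_combination -h2
      exact (mul_eq_zero.1 h3).resolve_left D.two
    · intro h
      rw [h]
      apply Subtype.ext
      exact neg_zero

theorem W1_even (D : FD n a F) (i : Fin n) : Even (Nat.card (W1 D i)) := by
  refine even_inv (fun w => ⟨⟨-w.1.1, fun x => ?_, ?_, ?_⟩, ?_⟩) ?_ ?_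
  · rw [Pi.neg_apply, Pi.neg_apply, map_neg, w.1.2.1]
  · rw [Pi.neg_apply, w.1.2.2.1, neg_zero]
  · rw [Pi.neg_apply, w.1.2.2.2, neg_zero]
  · show D.B (-w.1.1) (-w.1.1) = 1
    have h1 : -w.1.1 = (-1 : F) • w.1.1 := by
      rw [neg_smul, one_smul]
    rw [h1, B_smul_left, B_smul_right, w.2, map_neg, map_one]
    ring
  · intro w
    apply Subtype.ext
    apply Subtype.ext
    exact neg_neg _
  · intro w h
    have h1 : -w.1.1 = w.1.1 := congrArg (fun x : W1 D i => x.1.1) h
    have h4 : w.1.1 = 0 := by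
      funext p
      have h2 := congrFun h1 p
      rw [Pi.neg_apply] at h2
      have h3 : (2 : F) * w.1.1 p = 0 := by linear_combination -h2
      exact (mul_eq_zero.1 h3).resolve_left D.two
    have h5 := w.2
    rw [h4] at h5
    have h6 : D.B (0 : Ix n a → F) 0 = 0 := by
      have h7 := B_smul_left (D := D) 0 (0 : Ix n a → F) 0
      rw [zero_smul, map_zero, zero_mul] at h7
      exact h7
    rw [h6] at h5
    exact zero_ne_one h5

theorem sg_tor (hσ : ∀ x, D.σ x = x) (hep : D.ep = 1) {x : Fin n → Fˣ} (hx : ∀ i, D.τ (x i : F) = x i)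
    {i : Fin n} (h1 : ∀ j, j ≠ i → x j = 1) :
    sgP (XS D) (acX D ⟨D.tor x, (tor_mem hx).1⟩) = ch D.τ (x i : F) := by
  have key := sgP_equiv (Equiv.ofBijective (jm hσ hep i) ⟨jm_inj hσ hep i, jm_surj hσ hep i⟩)
    (Equiv.Perm.sumCongr (Equiv.prodCongrRight fun _ => MulAction.toPermHom (KU D.τ) (KU D.τ) ⟨x i, hx i⟩)
      (Equiv.prodCongrRight fun _ => mK D.τ ⟨x i, hx i⟩)) (acX D ⟨D.tor x, (tor_mem hx).1⟩) ?_
  · rw [← key, sgP_sum, sgP_prod, sgP_prod]
    obtain ⟨m, hm⟩ := WS_odd D i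
    obtain ⟨m', hm'⟩ := W1_even D i
    rw [hm, hm', ← two_mul, pow_mul, Int.units_sq, one_pow, mul_one, pow_succ, pow_mul, Int.units_sq, one_pow,
      one_mul]
    exact sgm_ch D.two ⟨x i, hx i⟩
  · rintro (⟨w, y⟩ | ⟨w, z⟩)
    · apply Subtype.ext
      show cv i ((x i : F) * ((y : Fˣ) : F)) ((1 - D.B w.1 w.1) * (2 * ((x i : F) * ((y : Fˣ) : F)))⁻¹) w.1 =
        mv (D.tor x) (cv i ((y : Fˣ) : F) ((1 - D.B w.1 w.1) * (2 * ((y : Fˣ) : F))⁻¹) w.1)
      rw [mv_tor hx hσ h1 w.2.2.1 w.2.2.2]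
      congr 1
      have e0 : (x i : F) ≠ 0 := (x i).ne_zero
      have e1 : ((y : Fˣ) : F) ≠ 0 := (y : Fˣ).ne_zero
      have e2 : (2 : F) ≠ 0 := D.two
      rw [mul_inv, mul_inv, mul_inv]
      ring
    · apply Subtype.ext
      show cv i 0 ((x i : F)⁻¹ * z.1) w.1.1 = mv (D.tor x) (cv i 0 z.1 w.1.1)
      rw [mv_tor hx hσ h1 w.1.2.2.1 w.1.2.2.2, mul_zero]

end main

end P09_aux

variable {n a : ℕ} {F : Type} [Field F] [Finite F] {D : FD n a F}

theorem exists_spin (hso : D.so = true) : ∃ la : D.G →* ℤˣ, ∀ (x : Fin n → Fˣ)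
    (hx : ∀ i, D.τ (x i : F) = x i), la ⟨D.tor x, (tor_mem hx).1⟩ = ∏ i, ch D.τ (x i : F) := by
  obtain ⟨hσ, hep, -⟩ := D.sos hso
  refine ⟨(P09_aux.sgP (P09_aux.XS D)).comp (P09_aux.acX D), fun x hx => ?_⟩
  -- the two homomorphisms
  let φ : (Fin n → P09_aux.KU D.τ) →* D.G :=
    { toFun := fun y => ⟨D.tor (fun i => (y i : Fˣ)), (tor_mem (fun i => (y i).2)).1⟩
      map_one' := by
        apply Subtype.ext
        show D.tor (fun i => (((1 : Fin n → P09_aux.KU D.τ) i : P09_aux.KU D.τ) : Fˣ)) = 1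
        have h1 : D.tor (1 : Fin n → Fˣ) * D.tor (1 : Fin n → Fˣ) = D.tor (1 : Fin n → Fˣ) := by
          rw [← tor_mul, mul_one]
        exact mul_eq_left.1 h1
      map_mul' := by
        intro y y'
        apply Subtype.ext
        exact tor_mul (fun i => (y i : Fˣ)) (fun i => (y' i : Fˣ)) }
  let ψ : (Fin n → P09_aux.KU D.τ) →* ℤˣ :=
    { toFun := fun y => ∏ i, P09_aux.sgm D.τ (y i)
      map_one' := by
        refine Finset.prod_eq_one fun i _ => ?_
        rw [Pi.one_apply, map_one]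
      map_mul' := by
        intro y y'
        rw [← Finset.prod_mul_distrib]
        refine Finset.prod_congr rfl fun i _ => ?_
        rw [Pi.mul_apply, map_mul] }
  have h : ((P09_aux.sgP (P09_aux.XS D)).comp (P09_aux.acX D)).comp φ = ψ := by
    refine MonoidHom.functions_ext _ _ _ fun i y => ?_
    have h1 := P09_aux.sg_tor hσ hep (x := fun j => ((Pi.mulSingle i y : Fin n → P09_aux.KU D.τ) j : Fˣ))
      (fun j => ((Pi.mulSingle i y : Fin n → P09_aux.KU D.τ) j).2) (i := i) (fun j hj => by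
        rw [Pi.mulSingle_eq_of_ne hj]
        rfl)
    have h2 : ψ (Pi.mulSingle i y) = P09_aux.sgm D.τ y := by
      show ∏ j, P09_aux.sgm D.τ ((Pi.mulSingle i y : Fin n → P09_aux.KU D.τ) j) = _
      rw [Finset.prod_eq_single i]
      · rw [Pi.mulSingle_eq_same]
      · intro j _ hj
        rw [Pi.mulSingle_eq_of_ne hj, map_one]
      · exact fun h => absurd (Finset.mem_univ _) h
    rw [h2, P09_aux.sgm_ch D.two]
    refine Eq.trans h1 ?_
    rw [Pi.mulSingle_eq_same]
  have h3 := congrArg (fun f : (Fin n → P09_aux.KU D.τ) →* ℤˣ => f (fun i => ⟨x i, hx i⟩)) h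
  refine Eq.trans h3 ?_
  show ∏ i, P09_aux.sgm D.τ (⟨x i, hx i⟩ : P09_aux.KU D.τ) = _
  refine Finset.prod_congr rfl fun i _ => ?_
  rw [P09_aux.sgm_ch D.two]

end

end AO.MG
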