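import Pool.Agent.AO.P08
import Pool.Agent.AO.P09

/-!
# MP_6c3636_al, AO, module P10: orthogonal groups in odd dimension: the data (helper7)

`D = fSO n F h2`, `σ = τ = refl`, `ep = cm = 1`, `om = -1`, `so = true`, `n ≥ 2`, `q = card F`. `UH`: `U_comm`. `HT`: `HT_of`. `es`: `D.PR` is in bijection with `F` by `p ↦ z = p.1.1 0`, `β = - z ^ 2 / 2`; for `z ≠ 0`: `ch β = ch (-2)` (`ch_mul`, `ch_inv`, `ch_sq`). `nt` as in P04. All elements of `T` are `tor x` (`T_so`, `T_tor`). By `exists_spin` and `la_comm`: `tor x ∈ H` implies that `∏ ch (x i) = 1`, so `∏ x i` is a square (`ch_mul`). Elements of `T ⊓ H`: `h i j x = tor` with `x` at `i` and `x⁻¹` at `j` (`tor_comm`), `d i x = tor` with `x ^ 2` at `i` (`= h i j x * (m * h i j x * m⁻¹)` for the monomial element `m` of `G` which exchanges `ei j` and `fi j` and fixes the other `ei`: conjugate of `s 0` by a permutation; so it is in `H`). `re`: as in P04: `ψ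 i x = f (d i x)` is a homomorphism in `x`; `ψ i = ψ j`: `d i x * d j x = (tor with x at i, j) ^ 2` where `tor with x at i and j = h i j x * d j x ∈ H`. `ψ = 1` or `ψ = ch` (`ch_hom`). If `ψ = 1`: first alternative: `x ↦ f (h i 0 x)` is trivial or `ch`, `a' i = true` if it is not trivial, `a' 0 = false`; an element of `T ⊓ H` is a product of elements `h i 0 (x i)` and `d 0 y` (`∏ x i = y ^ 2`). If `ψ = ch`: for `m ∈ N ⊓ H` let `f' x = f (m⁻¹ x m)`, `ψ' = ψ` (`m⁻¹ (d i x) m` is `d i' x` or `d i' x⁻¹`); for `x = h 0 1 y` with `ch y = -1`: `nt⁻¹ x nt = (s 0)⁻¹ x (s 0) = x * d 0 y⁻¹`, so `f' (nt⁻¹ x nt) = - f' x`. `tw` as in P04 with the `h i 0 y`.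
-/

namespace AO.MG

noncomputable section

open Classical Equiv Matrix

open AN (sq)


section P10

variable {n : ℕ} {F : Type} [Field F] [Finite F]

/-- the torus elements as a homomorphism -/
def P10_t (n : ℕ) {F : Type} [Field F] [Finite F] (h2 : (2 : F) ≠ 0) : (Fin n → Fˣ) →* GL (Ix n 1) F :=
  MonoidHom.mk' (fSO n F h2).tor (fun x y => tor_mul x y)

theorem P10_t_apply (h2 : (2 : F) ≠ 0) (x : Fin n → Fˣ) : P10_t n h2 x = (fSO n F h2).tor x := rfl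

/-- the coordinates of the torus elements in the commutator group -/
def P10_S (n : ℕ) {F : Type} [Field F] [Finite F] (h2 : (2 : F) ≠ 0) : Subgroup (Fin n → Fˣ) :=
  Subgroup.comap (P10_t n h2) ⁅(fSO n F h2).G, (fSO n F h2).G⁆

theorem P10_mem {h2 : (2 : F) ≠ 0} {x : Fin n → Fˣ} : x ∈ P10_S n h2 ↔
    (fSO n F h2).tor x ∈ ⁅(fSO n F h2).G, (fSO n F h2).G⁆ := Iff.rfl

theorem P10_tor_T (h2 : (2 : F) ≠ 0) (x : Fin n → Fˣ) : (fSO n F h2).tor x ∈ (fSO n F h2).T :=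
  tor_mem (fun _ => rfl)

theorem P10_T {h2 : (2 : F) ≠ 0} {t : GL (Ix n 1) F} (ht : t ∈ (fSO n F h2).T) :
    ∃ x : Fin n → Fˣ, t = (fSO n F h2).tor x := by
  obtain ⟨x, -, hx⟩ := T_tor ht (fun j => T_so ht rfl rfl j)
  exact ⟨x, hx⟩

theorem P10_h (h2 : (2 : F) ≠ 0) (i j : Fin n) (x : Fˣ) :
    (Pi.mulSingle i x * Pi.mulSingle j x⁻¹ : Fin n → Fˣ) ∈ P10_S n h2 := by
  by_cases hij : i = j
  · subst hij
    rw [← Pi.mulSingle_mul, mul_inv_cancel, Pi.mulSingle_one]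
    exact one_mem _
  · rw [P10_mem]
    refine tor_comm (x := Pi.mulSingle i x) (π := Equiv.swap i j) (fun _ => rfl) ?_
    intro k
    rw [Pi.mul_apply]
    congr 1
    by_cases h1 : k = j
    · rw [h1, Equiv.swap_apply_right, Pi.mulSingle_eq_same, Pi.mulSingle_eq_same]
    · rw [Pi.mulSingle_eq_of_ne h1]
      by_cases h3 : k = i
      · rw [h3, Equiv.swap_apply_left, Pi.mulSingle_eq_of_ne (Ne.symm hij), inv_one]
      · rw [Equiv.swap_apply_of_ne_of_ne h3 h1, Pi.mulSingle_eq_of_ne h3, inv_one]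

theorem P10_NN_T {h2 : (2 : F) ≠ 0} {m : GL (Ix n 1) F}
    (hm : m ∈ NN (fSO n F h2).s (fSO n F h2).T) {t : GL (Ix n 1) F} (ht : t ∈ (fSO n F h2).T) :
    m⁻¹ * t * m ∈ (fSO n F h2).T := by
  obtain ⟨w, hw, c, rfl⟩ := NN_mo hm
  have hG := NN_le hm
  exact ⟨(fSO n F h2).G.mul_mem ((fSO n F h2).G.mul_mem ((fSO n F h2).G.inv_mem hG) ht.1) hG,
    (mo_conj_DG w c ht.2).2⟩

theorem P10_conj {h2 : (2 : F) ≠ 0} {w : Perm (Ix n 1)} {c : Ix n 1 → Fˣ}
    (hm : mo w c ∈ NN (fSO n F h2).s (fSO n F h2).T) (x : Fin n → Fˣ) :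
    ∃ y : Fin n → Fˣ, (mo w c)⁻¹ * (fSO n F h2).tor x * mo w c = (fSO n F h2).tor y ∧
      ∀ i, (y i : F) = ((fSO n F h2).tor x : Matrix (Ix n 1) (Ix n 1) F) (w (ei i)) (w (ei i)) := by
  obtain ⟨y, hy⟩ := P10_T (P10_NN_T hm (P10_tor_T h2 x))
  refine ⟨y, hy, fun i => ?_⟩
  rw [← tor_e (D := fSO n F h2) y i, ← hy, mo_conj, mul_right_comm, Units.inv_mul, one_mul]

omit [Finite F] in
theorem P10_s_NN (h2 : (2 : F) ≠ 0) (k : Fin n) :
    (fSO n F h2).s k ∈ NN (fSO n F h2).s (fSO n F h2).T := by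
  unfold NN
  exact Subgroup.subset_closure (Or.inl ⟨k, rfl⟩)

theorem P10_s0 {h2 : (2 : F) ≠ 0} {k : Fin n} (hk : (k : ℕ) = 0) (x : Fin n → Fˣ) :
    ((fSO n F h2).s k)⁻¹ * (fSO n F h2).tor x * (fSO n F h2).s k =
      (fSO n F h2).tor (Function.update x k (x k)⁻¹) := by
  have h1 := P10_s_NN h2 k
  rw [s_mo] at h1 ⊢
  obtain ⟨y, hy, hy'⟩ := P10_conj h1 x
  rw [hy]
  congr 1
  funext i
  apply Units.ext
  rw [hy' i]
  obtain ⟨w1, w2, w3, w4⟩ := ws_0 (a := 1) hk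
  by_cases hi : i = k
  · rw [hi, w1, tor_f, Function.update_self, Units.val_inv_eq_inv_val]
    rfl
  · rw [(w3 i hi).1, tor_e, Function.update_of_ne hi]

theorem P10_upd {h2 : (2 : F) ≠ 0} {k : Fin n} (hk : (k : ℕ) = 0) {x : Fin n → Fˣ} (hx : x ∈ P10_S n h2) :
    Function.update x k (x k)⁻¹ ∈ P10_S n h2 := by
  rw [P10_mem, ← P10_s0 hk]
  have h := comm_normal (D := fSO n F h2) ((fSO n F h2).s k)⁻¹ (inv_mem (s_mem k)) _ hx
  rw [inv_inv] at h
  exact h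

theorem P10_d0 (h2 : (2 : F) ≠ 0) {k : Fin n} (hk : (k : ℕ) = 0) {j : Fin n} (hj : j ≠ k) (x : Fˣ) :
    (Pi.mulSingle k (x ^ 2) : Fin n → Fˣ) ∈ P10_S n h2 := by
  have h1 := P10_h h2 k j x
  have h3 := mul_mem h1 (inv_mem (P10_upd hk h1))
  have e : (Pi.mulSingle k x * Pi.mulSingle j x⁻¹ : Fin n → Fˣ) *
      (Function.update (Pi.mulSingle k x * Pi.mulSingle j x⁻¹ : Fin n → Fˣ) k
        ((Pi.mulSingle k x * Pi.mulSingle j x⁻¹ : Fin n → Fˣ) k)⁻¹)⁻¹ = Pi.mulSingle k (x ^ 2) := by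
    funext i
    rw [Pi.mul_apply, Pi.inv_apply]
    by_cases hi : i = k
    · rw [hi, Function.update_self, inv_inv, Pi.mul_apply, Pi.mulSingle_eq_same, Pi.mulSingle_eq_same,
        Pi.mulSingle_eq_of_ne (Ne.symm hj), mul_one, pow_two]
    · rw [Function.update_of_ne hi, mul_inv_cancel, Pi.mulSingle_eq_of_ne hi]
  rw [e] at h3
  exact h3

theorem P10_d (hn : 2 ≤ n) (h2 : (2 : F) ≠ 0) (i : Fin n) (x : Fˣ) :
    (Pi.mulSingle i (x ^ 2) : Fin n → Fˣ) ∈ P10_S n h2 := by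
  have h0 : (Pi.mulSingle (⟨0, by omega⟩ : Fin n) (x ^ 2) : Fin n → Fˣ) ∈ P10_S n h2 :=
    P10_d0 h2 rfl (j := ⟨1, by omega⟩) (by simp [Fin.ext_iff]) x
  have h1 := mul_mem (P10_h h2 i ⟨0, by omega⟩ (x ^ 2)) h0
  rw [mul_assoc, ← Pi.mulSingle_mul, inv_mul_cancel, Pi.mulSingle_one, mul_one] at h1
  exact h1

theorem P10_ch_mul (h2 : (2 : F) ≠ 0) (x y : Fˣ) : ch (RingEquiv.refl F) ((x * y : Fˣ) : F) =
    ch (RingEquiv.refl F) (x : F) * ch (RingEquiv.refl F) (y : F) := by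
  rw [Units.val_mul]
  exact ch_mul h2 rfl x.ne_zero rfl y.ne_zero

theorem P10_ch_prod (h2 : (2 : F) ≠ 0) (s : Finset (Fin n)) (x : Fin n → Fˣ) :
    ch (RingEquiv.refl F) ((∏ i ∈ s, x i : Fˣ) : F) = ∏ i ∈ s, ch (RingEquiv.refl F) (x i : F) := by
  induction s using Finset.induction_on with
  | empty => rw [Finset.prod_empty, Finset.prod_empty, Units.val_one, ch_one]
  | insert a s ha ih => rw [Finset.prod_insert ha, Finset.prod_insert ha, P10_ch_mul h2, ih]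

omit [Finite F] in
theorem P10_ch_one {x : Fˣ} (h : ch (RingEquiv.refl F) (x : F) = 1) : ∃ y : Fˣ, x = y ^ 2 := by
  unfold ch at h
  by_cases h1 : ∃ y, RingEquiv.refl F y = y ∧ y * y = (x : F)
  · obtain ⟨y, -, hy⟩ := h1
    have h0 : y ≠ 0 := by
      rintro rfl
      rw [mul_zero] at hy
      exact x.ne_zero hy.symm
    refine ⟨Units.mk0 y h0, Units.ext ?_⟩
    rw [Units.val_pow_eq_pow_val, Units.val_mk0, pow_two, hy]
  · rw [if_neg h1] at h
    exact absurd h (by decide)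

theorem P10_spin {h2 : (2 : F) ≠ 0} {x : Fin n → Fˣ} (hx : x ∈ P10_S n h2) :
    ∃ y : Fˣ, ∏ i, x i = y ^ 2 := by
  apply P10_ch_one
  rw [P10_ch_prod h2]
  obtain ⟨la, hla⟩ := exists_spin (D := fSO n F h2) rfl
  have h1 := hla x (fun _ => rfl)
  rw [la_comm la ((fSO n F h2).tor x) hx] at h1
  exact h1.symm

omit [Finite F] in
theorem P10_decomp (x : Fin n → Fˣ) (k : Fin n) :
    x = (∏ i, (Pi.mulSingle i (x i) * Pi.mulSingle k (x i)⁻¹ : Fin n → Fˣ)) *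
      Pi.mulSingle k (∏ i, x i) := by
  rw [Finset.prod_mul_distrib, Finset.univ_prod_mulSingle]
  have h1 : (∏ i, (Pi.mulSingle k (x i)⁻¹ : Fin n → Fˣ)) = Pi.mulSingle k (∏ i, x i)⁻¹ := by
    rw [← Finset.prod_inv_distrib]
    exact (map_prod (MonoidHom.mulSingle (fun _ : Fin n => Fˣ) k) (fun i => (x i)⁻¹) Finset.univ).symm
  rw [h1, mul_assoc, ← Pi.mulSingle_mul, inv_mul_cancel, Pi.mulSingle_one, mul_one]

theorem P10_hom (h2 : (2 : F) ≠ 0) {g : Fˣ → ℤˣ} (hg : ∀ x y, g (x * y) = g x * g y) :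
    (∀ x, g x = 1) ∨ ∀ x, g x = ch (RingEquiv.refl F) (x : F) := by
  have hun : ∀ x : Fˣ, un (x : F) = x := by
    intro x
    unfold un
    rw [dif_pos x.ne_zero]
    exact Units.mk0_val _ _
  have key := ch_hom (τ := RingEquiv.refl F) h2 (f := fun x => g (un x)) (by
    intro x y _ hx _ hy
    have h1 := hun (Units.mk0 x hx * Units.mk0 y hy)
    rw [Units.val_mul, Units.val_mk0, Units.val_mk0] at h1
    have h3 := hun (Units.mk0 x hx)
    have h4 := hun (Units.mk0 y hy)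
    rw [Units.val_mk0] at h3 h4
    show g (un (x * y)) = g (un x) * g (un y)
    rw [h1, h3, h4, hg])
  rcases key with h | h
  · left
    intro x
    have h1 := h (x : F) rfl x.ne_zero
    rw [← h1]
    show g x = g (un (x : F))
    rw [hun]
  · right
    intro x
    have h1 := h (x : F) rfl x.ne_zero
    rw [← h1]
    show g x = g (un (x : F))
    rw [hun]

theorem P10_sum (h2 : (2 : F) ≠ 0) {k : Fin n} (hk : (k : ℕ) = 0) (a' : Fin n → Bool) :
    rsum ((fSO n F h2).R k) ((fSO n F h2).hh k) ((fSO n F h2).th a') =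
      (if a' k = true then ((ch (RingEquiv.refl F) (-2 : F) : ℤˣ) : ℤ) else 1) * ((Nat.card F : ℤ) - 1) := by
  rw [rsum_zero hk]
  let E : F ≃ (fSO n F h2).PR :=
    { toFun := fun z => ⟨(fun _ => z, -(z * z) / 2), fun _ => rfl, rfl, by
        show ((1 : Fˣ) : F) * (-(z * z) / 2) + -(z * z) / 2 + ((1 : Fˣ) : F) * ∑ j : Fin 1, z * z = 0
        rw [Units.val_one, Fin.sum_univ_one]
        field_simp
        ring⟩
      invFun := fun p => p.1.1 0
      left_inv := fun z => rfl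
      right_inv := fun p => by
        obtain ⟨hp1, hp2, hp3⟩ := p.2
        have h4 : ((1 : Fˣ) : F) * p.1.2 + p.1.2 + ((1 : Fˣ) : F) * ∑ j : Fin 1, p.1.1 j * p.1.1 (Fin.rev j) = 0 := hp3
        rw [Units.val_one, Fin.sum_univ_one] at h4
        have h5 : p.1.1 (Fin.rev 0) = p.1.1 0 := hp1 0
        rw [h5] at h4
        apply Subtype.ext
        apply Prod.ext
        · funext j
          show p.1.1 0 = p.1.1 j
          rw [Fin.fin_one_eq_zero j]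
        · show -(p.1.1 0 * p.1.1 0) / 2 = p.1.2
          rw [div_eq_iff h2]
          linear_combination (-1 : F) * h4 }
  rw [← finsum_comp_equiv E]
  have := Fintype.ofFinite F
  rw [finsum_eq_sum_of_fintype]
  set C : ℤ := (if a' k = true then ((ch (RingEquiv.refl F) (-2 : F) : ℤˣ) : ℤ) else 1) with hC
  have h3 : ∀ z : F, (if (E z).1.2 = 0 then (0 : ℤ) else
      (((if a' k = true then ch (fSO n F h2).τ ((fSO n F h2).ep * (E z).1.2) else 1 : ℤˣ) : ℤˣ) : ℤ)) =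
      C - if z = 0 then C else 0 := by
    intro z
    have h4 : (E z).1.2 = -(z * z) / 2 := rfl
    by_cases hz : z = 0
    · rw [h4, hz, mul_zero, neg_zero, zero_div, if_pos rfl, if_pos rfl, sub_self]
    · have h5 : -(z * z) / 2 ≠ 0 := div_ne_zero (neg_ne_zero.2 (mul_ne_zero hz hz)) h2
      rw [h4, if_neg h5, if_neg hz, sub_zero, hC]
      by_cases ha : a' k = true
      · rw [if_pos ha, if_pos ha]
        have h6 : ((fSO n F h2).ep : F) * (-(z * z) / 2) = (-2) * (z / 2 * (z / 2)) := by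
          show ((1 : Fˣ) : F) * (-(z * z) / 2) = (-2) * (z / 2 * (z / 2))
          rw [Units.val_one]
          field_simp
        rw [h6]
        have h7 := ch_mul (τ := RingEquiv.refl F) h2 (x := -2) (y := z / 2 * (z / 2)) rfl (neg_ne_zero.2 h2) rfl
          (mul_ne_zero (div_ne_zero hz h2) (div_ne_zero hz h2))
        have h8 : ch (RingEquiv.refl F) (z / 2 * (z / 2)) = 1 := ch_sq rfl
        rw [h8, mul_one] at h7
        show ((ch (RingEquiv.refl F) ((-2) * (z / 2 * (z / 2))) : ℤˣ) : ℤ) = _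
        rw [h7]
      · rw [if_neg ha, if_neg ha, Units.val_one]
  rw [Finset.sum_congr rfl (fun z _ => h3 z), Finset.sum_sub_distrib, Finset.sum_const, Finset.card_univ,
    Finset.sum_ite_eq', if_pos (Finset.mem_univ _), Nat.card_eq_fintype_card, nsmul_eq_mul]
  ring

omit [Finite F] in
theorem P10_PR (n : ℕ) (h2 : (2 : F) ≠ 0) : ∃ p : (fSO n F h2).PR, p.1.2 ≠ 0 := by
  refine ⟨⟨(fun _ => 1, -1 / 2), fun _ => rfl, rfl, ?_⟩, ?_⟩
  · show ((1 : Fˣ) : F) * (-1 / 2) + -1 / 2 + ((1 : Fˣ) : F) * ∑ j : Fin 1, (1 : F) * 1 = 0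
    rw [Units.val_one, Fin.sum_univ_one]
    field_simp
    ring
  · show (-1 / 2 : F) ≠ 0
    exact div_ne_zero (neg_ne_zero.2 one_ne_zero) h2

theorem P10_r (h2 : (2 : F) ≠ 0) {k : Fin n} (hk : (k : ℕ) = 0) : ∃ r ∈ (fSO n F h2).R k, r ≠ 1 := by
  obtain ⟨p, hp⟩ := P10_PR n h2
  obtain ⟨r, hr, -, h3⟩ := exists_R0 hk p
  refine ⟨r, hr, ?_⟩
  rintro rfl
  apply hp
  rw [← h3, Units.val_one, Matrix.one_apply_ne]
  simp [ei, fi]

theorem P10_ss (h2 : (2 : F) ≠ 0) (k : Fin n) : (fSO n F h2).s k * (fSO n F h2).s k = 1 :=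
  s_sq_one rfl (Or.inr rfl) k

theorem P10_tw (hn : 2 ≤ n) (h2 : (2 : F) ≠ 0) (a' b' : Fin n → Bool)
    (h : ∀ x ∈ (fSO n F h2).T ⊓ ⁅(fSO n F h2).G, (fSO n F h2).G⁆,
      (fSO n F h2).th a' x = (fSO n F h2).th b' x) : b' = a' ∨ b' = fun i => !(a' i) := by
  obtain ⟨y, -, hy0, hy⟩ := exists_ch h2 (RingEquiv.refl F)
  have k : Fin n := ⟨0, by omega⟩
  have key : ∀ (d : Fin n → Bool) (i : Fin n), i ≠ k →
      (fSO n F h2).th d ((fSO n F h2).tor
        (Pi.mulSingle i (Units.mk0 y hy0) * Pi.mulSingle k (Units.mk0 y hy0)⁻¹ : Fin n → Fˣ)) =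
      (if d i = true then (-1 : ℤˣ) else 1) * (if d k = true then (-1 : ℤˣ) else 1) := by
    intro d i hi
    rw [th_tor, Finset.prod_eq_mul i k hi]
    · rw [Pi.mul_apply, Pi.mul_apply, Pi.mulSingle_eq_same, Pi.mulSingle_eq_same, Pi.mulSingle_eq_of_ne hi,
        Pi.mulSingle_eq_of_ne (Ne.symm hi), mul_one, one_mul, Units.val_inv_eq_inv_val, Units.val_mk0]
      have h1 : ch (fSO n F h2).τ y = -1 := hy
      have h3 : ch (fSO n F h2).τ y⁻¹ = -1 := by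
        rw [ch_inv h2 rfl]
        exact hy
      rw [h1, h3]
    · intro j _ hj
      rw [Pi.mul_apply, Pi.mulSingle_eq_of_ne hj.1, Pi.mulSingle_eq_of_ne hj.2, mul_one, Units.val_one,
        ch_one, ite_self]
    · intro h1
      exact absurd (Finset.mem_univ _) h1
    · intro h1
      exact absurd (Finset.mem_univ _) h1
  have key2 : ∀ i : Fin n, (if a' i = true then (-1 : ℤˣ) else 1) * (if a' k = true then (-1 : ℤˣ) else 1) =
      (if b' i = true then (-1 : ℤˣ) else 1) * (if b' k = true then (-1 : ℤˣ) else 1) := by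
    intro i
    by_cases hi : i = k
    · rw [hi]
      cases a' k <;> cases b' k <;> simp
    · rw [← key a' i hi, ← key b' i hi]
      exact h _ ⟨P10_tor_T h2 _, P10_h h2 i k _⟩
  by_cases hk : a' k = b' k
  · left
    funext i
    have h1 := key2 i
    rw [hk] at h1
    have h3 := mul_right_cancel h1
    cases ha : a' i <;> cases hb : b' i <;> simp [ha, hb] at h3 ⊢
  · right
    funext i
    have h1 := key2 i
    cases ha : a' i <;> cases hb : b' i <;> cases hak : a' k <;> cases hbk : b' k <;>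
      simp_all

theorem P10_tor_off (h2 : (2 : F) ≠ 0) (k : Fin n) (d : Fˣ) {z : Ix n 1} (h1 : z ≠ ei k) (h3 : z ≠ fi k) :
    ((fSO n F h2).tor (Pi.mulSingle k d : Fin n → Fˣ) : Matrix (Ix n 1) (Ix n 1) F) z z = 1 := by
  rcases z with ⟨i, _ | _⟩ | j
  · have hi : i ≠ k := by
      rintro rfl
      exact h1 rfl
    show ((fSO n F h2).tor (Pi.mulSingle k d : Fin n → Fˣ) : Matrix (Ix n 1) (Ix n 1) F) (ei i) (ei i) = 1
    rw [tor_e, Pi.mulSingle_eq_of_ne hi, Units.val_one]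
  · have hi : i ≠ k := by
      rintro rfl
      exact h3 rfl
    show ((fSO n F h2).tor (Pi.mulSingle k d : Fin n → Fˣ) : Matrix (Ix n 1) (Ix n 1) F) (fi i) (fi i) = 1
    rw [tor_f, Pi.mulSingle_eq_of_ne hi, Units.val_one, map_one, inv_one]
  · exact tor_m _ j

theorem P10_m (h2 : (2 : F) ≠ 0) {k : Fin n} {w : Perm (Ix n 1)} {c : Ix n 1 → Fˣ} (hw : w ∈ WP n 1)
    (hm : mo w c ∈ NN (fSO n F h2).s (fSO n F h2).T) (Y : Fˣ) :
    ∃ (i : Fin n) (Z : Fˣ), (Z = Y ∨ Z = Y⁻¹) ∧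
      (mo w c)⁻¹ * (fSO n F h2).tor (Pi.mulSingle k (Y ^ 2) : Fin n → Fˣ) * mo w c =
        (fSO n F h2).tor (Pi.mulSingle i (Z ^ 2) : Fin n → Fˣ) := by
  obtain ⟨y, hy, hy'⟩ := P10_conj hm (Pi.mulSingle k (Y ^ 2) : Fin n → Fˣ)
  have hdu : ∀ i : Fin n, du (ei i : Ix n 1) = fi i := fun i => rfl
  have hdu' : ∀ i : Fin n, du (fi i : Ix n 1) = ei i := fun i => rfl
  have key : ∀ (i0 : Fin n) (Z : Fˣ), (y i0 : F) = ((Z ^ 2 : Fˣ) : F) →
      (∀ i, i ≠ i0 → w (ei i) ≠ ei k ∧ w (ei i) ≠ fi k) → y = Pi.mulSingle i0 (Z ^ 2) := by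
    intro i0 Z h1 h3
    funext i
    apply Units.ext
    by_cases hi : i = i0
    · rw [hi, Pi.mulSingle_eq_same, h1]
    · rw [Pi.mulSingle_eq_of_ne hi, Units.val_one, hy']
      exact P10_tor_off h2 k _ (h3 i hi).1 (h3 i hi).2
  have hwp : w (w.symm (ei k)) = ei k := w.apply_symm_apply _
  rcases hp : w.symm (ei k) with ⟨i0, _ | _⟩ | j
  · rw [hp] at hwp
    have e1 : w (ei i0) = ei k := hwp
    have e2 : w (fi i0) = fi k := by
      rw [← hdu, hw.1, e1, hdu]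
    refine ⟨i0, Y, Or.inl rfl, ?_⟩
    rw [hy]
    congr 1
    refine key i0 Y ?_ ?_
    · rw [hy', e1, tor_e, Pi.mulSingle_eq_same]
    · intro i hi
      constructor
      · intro h
        rw [← e1] at h
        apply hi
        have h3 := w.injective h
        simpa [ei] using h3
      · intro h
        rw [← e2] at h
        have h3 := w.injective h
        simp [ei, fi] at h3
  · rw [hp] at hwp
    have e1 : w (fi i0) = ei k := hwp
    have e2 : w (ei i0) = fi k := by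
      rw [← hdu', hw.1, e1, hdu]
    refine ⟨i0, Y⁻¹, Or.inr rfl, ?_⟩
    rw [hy]
    congr 1
    refine key i0 Y⁻¹ ?_ ?_
    · rw [hy', e2, tor_f, Pi.mulSingle_eq_same, inv_pow, Units.val_inv_eq_inv_val]
      rfl
    · intro i hi
      constructor
      · intro h
        rw [← e1] at h
        have h3 := w.injective h
        simp [ei, fi] at h3
      · intro h
        rw [← e2] at h
        apply hi
        have h3 := w.injective h
        simpa [ei] using h3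
  · exfalso
    obtain ⟨j', hj'⟩ := hw.2 j
    rw [hp] at hwp
    have h1 : w (mi j) = ei k := hwp
    rw [hj'] at h1
    simp [mi, ei] at h1

theorem P10_re (hn : 2 ≤ n) (h2 : (2 : F) ≠ 0) {nt : GL (Ix n 1) F} {k : Fin n} (hk : (k : ℕ) = 0)
    (hnt : ∃ x ∈ (fSO n F h2).T, nt = (fSO n F h2).s k * x) (f : GL (Ix n 1) F → ℤˣ)
    (hf : ∀ x ∈ (fSO n F h2).T ⊓ ⁅(fSO n F h2).G, (fSO n F h2).G⁆,
      ∀ y ∈ (fSO n F h2).T ⊓ ⁅(fSO n F h2).G, (fSO n F h2).G⁆, f (x * y) = f x * f y) :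
    (∃ a' : Fin n → Bool, ∀ x ∈ (fSO n F h2).T ⊓ ⁅(fSO n F h2).G, (fSO n F h2).G⁆,
      f x = (fSO n F h2).th a' x) ∨
      ∀ m ∈ NN (fSO n F h2).s (fSO n F h2).T, m ∈ ⁅(fSO n F h2).G, (fSO n F h2).G⁆ →
        ∃ x ∈ (fSO n F h2).T ⊓ ⁅(fSO n F h2).G, (fSO n F h2).G⁆,
          f (m⁻¹ * (nt⁻¹ * x * nt) * m) ≠ f (m⁻¹ * x * m) := by
  have hφ : ∀ x ∈ P10_S n h2, ∀ y ∈ P10_S n h2, f ((fSO n F h2).tor (x * y)) =
      f ((fSO n F h2).tor x) * f ((fSO n F h2).tor y) := by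
    intro x hx y hy
    rw [tor_mul]
    exact hf _ ⟨P10_tor_T h2 x, hx⟩ _ ⟨P10_tor_T h2 y, hy⟩
  have hφ1 : f ((fSO n F h2).tor 1) = 1 := by
    have h1 := hφ 1 (one_mem _) 1 (one_mem _)
    rw [mul_one] at h1
    exact (left_eq_mul.1 h1)
  have hprod : ∀ (s : Finset (Fin n)) (X : Fin n → (Fin n → Fˣ)), (∀ i, X i ∈ P10_S n h2) →
      f ((fSO n F h2).tor (∏ i ∈ s, X i)) = ∏ i ∈ s, f ((fSO n F h2).tor (X i)) := by
    intro s X hX
    induction s using Finset.induction_on with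
    | empty => rw [Finset.prod_empty, Finset.prod_empty, hφ1]
    | insert a s ha ih =>
      rw [Finset.prod_insert ha, Finset.prod_insert ha, hφ _ (hX a) _ (prod_mem fun i _ => hX i), ih]
  have hg : ∀ (i : Fin n) (x y : Fˣ),
      f ((fSO n F h2).tor (Pi.mulSingle i (x * y) * Pi.mulSingle k (x * y)⁻¹ : Fin n → Fˣ)) =
      f ((fSO n F h2).tor (Pi.mulSingle i x * Pi.mulSingle k x⁻¹ : Fin n → Fˣ)) *
      f ((fSO n F h2).tor (Pi.mulSingle i y * Pi.mulSingle k y⁻¹ : Fin n → Fˣ)) := by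
    intro i x y
    rw [← hφ _ (P10_h h2 i k x) _ (P10_h h2 i k y), mul_inv, Pi.mulSingle_mul, Pi.mulSingle_mul]
    congr 2
    exact mul_mul_mul_comm _ _ _ _
  have hψ : ∀ x y : Fˣ, f ((fSO n F h2).tor (Pi.mulSingle k ((x * y) ^ 2) : Fin n → Fˣ)) =
      f ((fSO n F h2).tor (Pi.mulSingle k (x ^ 2) : Fin n → Fˣ)) *
      f ((fSO n F h2).tor (Pi.mulSingle k (y ^ 2) : Fin n → Fˣ)) := by
    intro x y
    rw [← hφ _ (P10_d hn h2 k x) _ (P10_d hn h2 k y), mul_pow, Pi.mulSingle_mul]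
  rcases P10_hom h2 (g := fun x => f ((fSO n F h2).tor (Pi.mulSingle k (x ^ 2) : Fin n → Fˣ))) hψ with h | h
  · left
    refine ⟨fun i => decide (∃ x : Fˣ, f ((fSO n F h2).tor
      (Pi.mulSingle i x * Pi.mulSingle k x⁻¹ : Fin n → Fˣ)) ≠ 1), ?_⟩
    rintro t ⟨ht, htH⟩
    obtain ⟨x, rfl⟩ := P10_T ht
    have hx : x ∈ P10_S n h2 := htH
    obtain ⟨y, hy⟩ := P10_spin hx
    rw [th_tor]
    have h1 := P10_decomp x k
    rw [hy] at h1
    rw [show f ((fSO n F h2).tor x) = f ((fSO n F h2).tor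
      ((∏ i, (Pi.mulSingle i (x i) * Pi.mulSingle k (x i)⁻¹ : Fin n → Fˣ)) * Pi.mulSingle k (y ^ 2))) by
        rw [← h1], hφ _ (prod_mem fun i _ => P10_h h2 i k _) _ (P10_d hn h2 k y),
      hprod _ _ (fun i => P10_h h2 i k _), h y, mul_one]
    refine Finset.prod_congr rfl fun i _ => ?_
    by_cases hi : ∃ x : Fˣ, f ((fSO n F h2).tor (Pi.mulSingle i x * Pi.mulSingle k x⁻¹ : Fin n → Fˣ)) ≠ 1
    · rw [if_pos (decide_eq_true hi)]
      rcases P10_hom h2 (g := fun x => f ((fSO n F h2).tor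
        (Pi.mulSingle i x * Pi.mulSingle k x⁻¹ : Fin n → Fˣ))) (hg i) with h3 | h3
      · obtain ⟨x', hx'⟩ := hi
        exact absurd (h3 x') hx'
      · exact h3 (x i)
    · rw [if_neg (fun h3 => hi (of_decide_eq_true h3))]
      by_contra h3
      exact hi ⟨x i, h3⟩
  · right
    intro m hm hmH
    obtain ⟨y, -, hy0, hy⟩ := exists_ch h2 (RingEquiv.refl F)
    obtain ⟨Y, hY⟩ : ∃ Y : Fˣ, (Y : F) = y := ⟨Units.mk0 y hy0, rfl⟩
    have hYc : ch (RingEquiv.refl F) (Y : F) = -1 := by rw [hY, hy]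
    have hYi : ch (RingEquiv.refl F) ((Y⁻¹ : Fˣ) : F) = -1 := by
      rw [Units.val_inv_eq_inv_val, ch_inv h2 rfl, hYc]
    obtain ⟨j, hj⟩ : ∃ j : Fin n, j ≠ k := by
      by_cases h0 : k = ⟨1, by omega⟩
      · rw [h0] at hk
        simp at hk
      · exact ⟨_, fun h3 => h0 h3.symm⟩
    obtain ⟨w, hw, c, rfl⟩ := NN_mo hm
    have hmG := NN_le hm
    set X : Fin n → Fˣ := Pi.mulSingle k Y * Pi.mulSingle j Y⁻¹ with hX
    have hXS : X ∈ P10_S n h2 := P10_h h2 k j Y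
    have hXk : X k = Y := by
      rw [hX, Pi.mul_apply, Pi.mulSingle_eq_same, Pi.mulSingle_eq_of_ne (Ne.symm hj), mul_one]
    have hDS : (Pi.mulSingle k ((Y⁻¹) ^ 2) : Fin n → Fˣ) ∈ P10_S n h2 := P10_d hn h2 k Y⁻¹
    have hconjH : ∀ x ∈ P10_S n h2, (mo w c)⁻¹ * (fSO n F h2).tor x * mo w c ∈
        (fSO n F h2).T ⊓ ⁅(fSO n F h2).G, (fSO n F h2).G⁆ := by
      intro x hx
      refine ⟨P10_NN_T hm (P10_tor_T h2 x), ?_⟩
      have h3 := comm_normal (D := fSO n F h2) (mo w c)⁻¹ ((fSO n F h2).G.inv_mem hmG) _ hx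
      rw [inv_inv] at h3
      exact h3
    refine ⟨(fSO n F h2).tor X, ⟨P10_tor_T h2 X, hXS⟩, ?_⟩
    obtain ⟨t, ht, rfl⟩ := hnt
    have e1 : ((fSO n F h2).s k * t)⁻¹ * (fSO n F h2).tor X * ((fSO n F h2).s k * t) =
        (fSO n F h2).tor X * (fSO n F h2).tor (Pi.mulSingle k ((Y⁻¹) ^ 2) : Fin n → Fˣ) := by
      have h3 : ((fSO n F h2).s k * t)⁻¹ * (fSO n F h2).tor X * ((fSO n F h2).s k * t) =
          t⁻¹ * (((fSO n F h2).s k)⁻¹ * (fSO n F h2).tor X * (fSO n F h2).s k) * t := by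
        rw [_root_.mul_inv_rev]
        simp only [mul_assoc]
      rw [h3, P10_s0 hk, mul_assoc, T_comm (P10_tor_T h2 _) ht, ← mul_assoc, inv_mul_cancel, one_mul, ← tor_mul]
      congr 1
      funext i
      by_cases hi : i = k
      · rw [hi, Function.update_self, Pi.mul_apply, hXk, Pi.mulSingle_eq_same, pow_two, mul_inv_cancel_left]
      · rw [Function.update_of_ne hi, Pi.mul_apply, Pi.mulSingle_eq_of_ne hi, mul_one]
    rw [e1]
    have e2 : (mo w c)⁻¹ * ((fSO n F h2).tor X * (fSO n F h2).tor (Pi.mulSingle k ((Y⁻¹) ^ 2) : Fin n → Fˣ)) *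
        mo w c = ((mo w c)⁻¹ * (fSO n F h2).tor X * mo w c) *
          ((mo w c)⁻¹ * (fSO n F h2).tor (Pi.mulSingle k ((Y⁻¹) ^ 2) : Fin n → Fˣ) * mo w c) := by
      simp only [mul_assoc, mul_inv_cancel_left]
    rw [e2, hf _ (hconjH X hXS) _ (hconjH _ hDS)]
    obtain ⟨i, Z, hZ, hiZ⟩ := P10_m h2 (k := k) hw hm Y⁻¹
    have hZc : ch (RingEquiv.refl F) (Z : F) = -1 := by
      rcases hZ with hZ | hZ
      · rw [hZ, hYi]
      · rw [hZ, inv_inv, hYc]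
    have h4 : f ((fSO n F h2).tor (Pi.mulSingle i (Z ^ 2) : Fin n → Fˣ)) = -1 := by
      have h5 : (Pi.mulSingle i (Z ^ 2) : Fin n → Fˣ) =
          (Pi.mulSingle i (Z * Z) * Pi.mulSingle k (Z * Z)⁻¹) * Pi.mulSingle k (Z ^ 2) := by
        rw [mul_assoc, ← Pi.mulSingle_mul, ← pow_two, inv_mul_cancel, Pi.mulSingle_one, mul_one]
      rw [h5, hφ _ (P10_h h2 i k _) _ (P10_d hn h2 k Z), hg i Z Z, Int.units_mul_self, one_mul, h Z, hZc]
    rw [hiZ, h4]
    intro h6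
    have h7 : (-1 : ℤˣ) = 1 := mul_eq_left.1 h6
    exact absurd h7 (by decide)

/-- the element of the nu-case -/
def P10_nt {n : ℕ} (hn : 2 ≤ n) (F : Type) [Field F] [Finite F] (h2 : (2 : F) ≠ 0) : GL (Ix n 1) F :=
  if h : ∃ r ∈ (fSO n F h2).R ⟨0, by omega⟩, r ≠ 1 then
    (fSO n F h2).s ⟨0, by omega⟩ * (fSO n F h2).hh ⟨0, by omega⟩ h.choose else 1

theorem P10_nt_eq (hn : 2 ≤ n) (h2 : (2 : F) ≠ 0) : ∃ r ∈ (fSO n F h2).R ⟨0, by omega⟩, r ≠ 1 ∧
    P10_nt hn F h2 = (fSO n F h2).s ⟨0, by omega⟩ * (fSO n F h2).hh ⟨0, by omega⟩ r := by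
  have h := P10_r (n := n) h2 (k := ⟨0, by omega⟩) rfl
  refine ⟨h.choose, h.choose_spec.1, h.choose_spec.2, ?_⟩
  unfold P10_nt
  rw [dif_pos h]

theorem P10_ntN (hn : 2 ≤ n) (h2 : (2 : F) ≠ 0) {k : Fin n} (hk : (k : ℕ) = 0) :
    ∃ x ∈ (fSO n F h2).T, P10_nt hn F h2 = (fSO n F h2).s k * x := by
  have hk' : k = ⟨0, by omega⟩ := Fin.ext hk
  rw [hk']
  obtain ⟨r, hr, h1, h3⟩ := P10_nt_eq hn h2
  exact ⟨_, (hh_zero rfl hr h1).1, h3⟩

theorem P10_ntH (hn : 2 ≤ n) (h2 : (2 : F) ≠ 0) :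
    P10_nt hn F h2 ∈ ⁅(fSO n F h2).G, (fSO n F h2).G⁆ := by
  obtain ⟨r, hr, h1, h3⟩ := P10_nt_eq hn h2
  rw [h3]
  exact nt_mem comm_normal (U_comm rfl) rfl hr h1 (P10_ss h2 _)

end P10

/-- the data of the orthogonal group in dimension `2 n + 1` -/
def kSO {n : ℕ} (hn : 2 ≤ n) (F : Type) [Field F] [Finite F] (h2 : (2 : F) ≠ 0) : (fSO n F h2).KD where
  H := ⁅(fSO n F h2).G, (fSO n F h2).G⁆
  gd := true
  su := fun b => (if b = true then ((ch (RingEquiv.refl F) (-2 : F) : ℤˣ) : ℤ) else 1) *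
    ((Nat.card F : ℤ) - 1)
  nt := if h : ∃ r ∈ (fSO n F h2).R ⟨0, by omega⟩, r ≠ 1 then
    (fSO n F h2).s ⟨0, by omega⟩ * (fSO n F h2).hh ⟨0, by omega⟩ h.choose else 1
  HG := comm_le
  hN := comm_normal
  UH := U_comm rfl
  HT := HT_of comm_le comm_normal (U_comm rfl) (P10_PR n h2)
  es := fun k hk a' => P10_sum h2 hk a'
  ze1 := fun _ => by
    show ch (RingEquiv.refl F) ((1 : Fˣ) : F) = 1
    rw [Units.val_one, ch_one]
  ze2 := fun h => absurd h (by decide)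
  ntN := fun k hk => P10_ntN hn h2 hk
  ntH := P10_ntH hn h2
  re := fun f hf => P10_re hn h2 (k := ⟨0, by omega⟩) rfl (P10_ntN hn h2 rfl) f hf
  tw := fun a' b' h => P10_tw hn h2 a' b' h

end

end AO.MG
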