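import Pool.Agent.AO.P10
import Pool.Agent.AO.G01
import Pool.Agent.AO.Z01

/-!
# MP_6c3636_al, AO, module P11: (A) and (B) for orthogonal groups in odd dimension (helper7)

`X = (kSO ..).bn`, `B = X.toBN`, `k = ℚ`, `q = Nat.card F`. `P`: `q`, `e = 1`, `j = (0, -1, 0, -1)`, `w true = ch refl (-2)`, `w false = 1`. `Fit`: `card`: `card_in`, `card_R_pos`, `card_refl`; `Nat.card (R 0) = q` (`card_zero`; `PR` in bijection with `F`); `sum`, `prod` as in P05. `half`: second alternative with `la` of `exists_spin`: `la = 1` on `H` (`la_comm`), `la (tor x) = ∏ ch (x i) = th (fun _ => true) (tor x)` (`th_tor`; all elements of `T` are `tor x`), `la (s 0) = ch (-2)`: take `r ∈ R 0`, `r ≠ 1`: `s 0 * hh 0 r ∈ H` (`nt_mem`, `s_sq_one`), so `la (s 0) = la (hh 0 r) = th (fun _ => true) (hh 0 r) = ch β` (`th_hh`) with `2 β + z ^ 2 = 0` (`R0_par`), `ch β = ch (-2)`. `FixOK`: `R₀ = 1`.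
-/

namespace AO.MG

noncomputable section

open Classical Equiv Matrix

open AN (sq)


namespace P11_aux

/-- the quadratic character at `-2` -/
def cm2 (F : Type) [Field F] : ℤˣ := ch (RingEquiv.refl F) (-2 : F)

/-- the parameters -/
def pSO (F : Type) [Field F] [Finite F] (h2 : (2 : F) ≠ 0) : Par ℚ where
  q := Nat.card F
  e := 1
  j := ![0, -1, 0, -1]
  w := fun b => if b = true then ((cm2 F : ℤ) : ℚ) else 1
  three := by
    have h := (card_odd h2 (RingEquiv.refl F)).2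
    rwa [card_refl] at h
  odd := by
    have h := (card_odd h2 (RingEquiv.refl F)).1
    rwa [card_refl] at h
  pos := Nat.one_pos
  ne := by
    intro b
    cases b
    · rw [if_neg Bool.false_ne_true]
      exact one_ne_zero
    · rw [if_pos rfl]
      exact_mod_cast Units.ne_zero (cm2 F)

section One

variable {F : Type} [Field F] [Finite F] (h2 : (2 : F) ≠ 0)

/-- the square of a sign -/
theorem sq_sign (u : ℤˣ) : ((u : ℤ) : ℚ) * ((u : ℤ) : ℚ) = 1 := by
  rcases Int.units_eq_one_or u with h | h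
  · rw [h]
    norm_num
  · rw [h]
    norm_num

theorem q_ne : ((pSO F h2).q : ℚ) ≠ 0 := by
  have h := (pSO F h2).three
  exact_mod_cast (by omega : (pSO F h2).q ≠ 0)

theorem w_false : (pSO F h2).w false = 1 := by
  show (if false = true then ((cm2 F : ℤ) : ℚ) else 1) = 1
  rw [if_neg Bool.false_ne_true]

theorem w_true : (pSO F h2).w true = ((cm2 F : ℤ) : ℚ) := by
  show (if true = true then ((cm2 F : ℤ) : ℚ) else 1) = _
  rw [if_pos rfl]

theorem r0 : (pSO F h2).r (yp false) = 1 := by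
  have h1 : lb (yp false) = false := by decide
  have h2' : sg (yp false) = 1 := by decide
  have h3 : (pSO F h2).j (yp false) = 0 := rfl
  have h4 : (pSO F h2).w false = 1 := w_false h2
  unfold Par.r
  rw [h1, h2', h3, h4]
  norm_num

theorem r1 : (pSO F h2).r (yn false) = -((pSO F h2).q : ℚ)⁻¹ := by
  have h1 : lb (yn false) = false := by decide
  have h2' : sg (yn false) = -1 := by decide
  have h3 : (pSO F h2).j (yn false) = -1 := rfl
  have h4 : (pSO F h2).w false = 1 := w_false h2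
  unfold Par.r
  rw [h1, h2', h3, h4, _root_.zpow_neg_one]
  norm_num

theorem r2 : (pSO F h2).r (yp true) = ((cm2 F : ℤ) : ℚ) := by
  have h1 : lb (yp true) = true := by decide
  have h2' : sg (yp true) = 1 := by decide
  have h3 : (pSO F h2).j (yp true) = 0 := rfl
  have h4 : (pSO F h2).w true = ((cm2 F : ℤ) : ℚ) := w_true h2
  unfold Par.r
  rw [h1, h2', h3, h4]
  norm_num

theorem r3 : (pSO F h2).r (yn true) = -(((cm2 F : ℤ) : ℚ) * ((pSO F h2).q : ℚ)⁻¹) := by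
  have h1 : lb (yn true) = true := by decide
  have h2' : sg (yn true) = -1 := by decide
  have h3 : (pSO F h2).j (yn true) = -1 := rfl
  have h4 : (pSO F h2).w true = ((cm2 F : ℤ) : ℚ) := w_true h2
  unfold Par.r
  rw [h1, h2', h3, h4, _root_.zpow_neg_one]
  push_cast
  ring

theorem r_dl (y : Ty) : (pSO F h2).r (dl2 y) = ((cm2 F : ℤ) : ℚ) * (pSO F h2).r y := by
  have h0 : (0 : Ty) = yp false := rfl
  have h1 : (1 : Ty) = yn false := rfl
  have h2' : (2 : Ty) = yp true := rfl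
  have h3 : (3 : Ty) = yn true := rfl
  have hs := sq_sign (cm2 F)
  fin_cases y
  · have h : dl2 (0 : Ty) = 2 := by decide
    show (pSO F h2).r (dl2 0) = ((cm2 F : ℤ) : ℚ) * (pSO F h2).r 0
    rw [h, h2', h0, r2, r0, mul_one]
  · have h : dl2 (1 : Ty) = 3 := by decide
    show (pSO F h2).r (dl2 1) = ((cm2 F : ℤ) : ℚ) * (pSO F h2).r 1
    rw [h, h3, h1, r3, r1]
    ring
  · have h : dl2 (2 : Ty) = 0 := by decide
    show (pSO F h2).r (dl2 2) = ((cm2 F : ℤ) : ℚ) * (pSO F h2).r 2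
    rw [h, h2', h0, r2, r0, hs]
  · have h : dl2 (3 : Ty) = 1 := by decide
    show (pSO F h2).r (dl2 3) = ((cm2 F : ℤ) : ℚ) * (pSO F h2).r 3
    rw [h, h3, h1, r3, r1]
    linear_combination (((pSO F h2).q : ℚ)⁻¹) * hs

variable (n : ℕ)

omit [Finite F] in
include h2 in
theorem half_two : (2 : F) * (-(2 : F)⁻¹) = -1 := by
  rw [mul_neg, mul_inv_cancel₀ h2]

/-- the parameter with the coordinate `z` -/
def prm (z : F) : (fSO n F h2).PR :=
  ⟨(fun _ => z, -((2 : F)⁻¹) * (z * z)), fun _ => rfl, rfl, by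
    show ((1 : Fˣ) : F) * (-((2 : F)⁻¹) * (z * z)) + -((2 : F)⁻¹) * (z * z) +
      ((1 : Fˣ) : F) * ∑ _j : Fin 1, z * z = 0
    rw [Fin.sum_univ_one, Units.val_one]
    linear_combination (z * z) * half_two h2⟩

theorem par_eq (p : (fSO n F h2).PR) : p.1.2 = -((2 : F)⁻¹) * (p.1.1 0 * p.1.1 0) := by
  have h : ((1 : Fˣ) : F) * p.1.2 + p.1.2 + ((1 : Fˣ) : F) * ∑ j : Fin 1, p.1.1 j * p.1.1 (Fin.rev j) = 0 :=
    p.2.2.2
  rw [Fin.sum_univ_one, Units.val_one] at h
  have h3 : Fin.rev (0 : Fin 1) = 0 := rfl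
  rw [h3] at h
  have h4 : (2 : F) * p.1.2 = 2 * (-((2 : F)⁻¹) * (p.1.1 0 * p.1.1 0)) := by
    linear_combination h + (-(p.1.1 0 * p.1.1 0)) * half_two h2
  exact mul_left_cancel₀ h2 h4

/-- the parameters are the elements of the field -/
def eqv : (fSO n F h2).PR ≃ F where
  toFun p := p.1.1 0
  invFun z := prm h2 n z
  left_inv := by
    intro p
    apply Subtype.ext
    apply Prod.ext
    · funext j
      show p.1.1 0 = p.1.1 j
      rw [Subsingleton.elim j 0]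
    · exact (par_eq h2 n p).symm
  right_inv := fun _ => rfl

theorem card_PR : Nat.card (fSO n F h2).PR = Nat.card F := Nat.card_congr (eqv h2 n)

include h2 in
/-- the sign of the parameter -/
theorem ch_half : ch (RingEquiv.refl F) (-((2 : F)⁻¹)) = cm2 F := by
  have h0 : (2 : F)⁻¹ ≠ 0 := inv_ne_zero h2
  have h1 : (-((2 : F)⁻¹)) = (-2 : F) * ((2 : F)⁻¹ * (2 : F)⁻¹) := by
    rw [neg_mul, ← mul_assoc, mul_inv_cancel₀ h2, one_mul]
  rw [h1, ch_mul h2 rfl (neg_ne_zero.2 h2) rfl (mul_ne_zero h0 h0), ch_sq rfl, mul_one]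
  rfl

end One

section Two

variable {n : ℕ} (hn : 2 ≤ n) {F : Type} [Field F] [Finite F] (h2 : (2 : F) ≠ 0) {p : ℕ} [CharP F p]
  (hp : p.Prime) (ho : Odd p)

/-- the BN-pair -/
abbrev Xs : BNin (fSO n F h2).G n := (kSO hn F h2).bn hp ho

theorem card_R0 (i : Fin n) (hi : (i : ℕ) = 0) : Nat.card ((Xs hn h2 hp ho).toBN.R i) = Nat.card F := by
  rw [card_in]
  show Nat.card ((fSO n F h2).R i) = _
  rw [card_zero hi, card_PR]

/-- the spinor norm of the end node -/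
theorem la_s (la : (fSO n F h2).G →* ℤˣ) (hla : ∀ (x : Fin n → Fˣ)
    (hx : ∀ i, (fSO n F h2).τ (x i : F) = x i), la ⟨(fSO n F h2).tor x, (tor_mem hx).1⟩ =
      ∏ i, ch (fSO n F h2).τ (x i : F)) {t : GL (Ix n 1) F} (ht : t ∈ (fSO n F h2).T) :
    la ⟨t, ht.1⟩ = (fSO n F h2).th (fun _ => true) t := by
  obtain ⟨x, hx, hxt⟩ := T_tor ht (fun j => T_so ht rfl rfl j)
  subst hxt
  have h1 := hla x hx
  rw [th_tor]
  simp only [if_true]
  exact h1

theorem la_s0 (la : (fSO n F h2).G →* ℤˣ) (hla : ∀ (x : Fin n → Fˣ)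
    (hx : ∀ i, (fSO n F h2).τ (x i : F) = x i), la ⟨(fSO n F h2).tor x, (tor_mem hx).1⟩ =
      ∏ i, ch (fSO n F h2).τ (x i : F)) (i : Fin n) (hi : (i : ℕ) = 0)
    (hs : (fSO n F h2).s i ∈ (fSO n F h2).G) : la ⟨(fSO n F h2).s i, hs⟩ = cm2 F := by
  obtain ⟨r, hr, _, hr2⟩ := exists_R0 hi (prm h2 n 1)
  have hb : (r : Matrix (Ix n 1) (Ix n 1) F) (ei i) (fi i) = -((2 : F)⁻¹) := by
    rw [hr2]
    show -((2 : F)⁻¹) * (1 * 1) = _
    rw [mul_one, mul_one]
  have hr1 : r ≠ 1 := by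
    intro h
    rw [h, Units.val_one, Matrix.one_apply_ne (by
      intro h'
      have h3 := congrArg Prod.snd (Sum.inl.inj h')
      exact Bool.false_ne_true h3)] at hb
    exact neg_ne_zero.2 (inv_ne_zero h2) hb.symm
  have hss := s_sq_one (D := fSO n F h2) rfl (Or.inr rfl) i
  have hm := nt_mem (D := fSO n F h2) comm_normal (U_comm rfl) hi hr hr1 hss
  have hT := (hh_zero hi hr hr1).1
  have h1 := la_comm la _ hm (comm_le hm)
  have h3 : (⟨(fSO n F h2).s i * (fSO n F h2).hh i r, comm_le hm⟩ : (fSO n F h2).G) =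
      ⟨(fSO n F h2).s i, hs⟩ * ⟨(fSO n F h2).hh i r, hT.1⟩ := rfl
  rw [h3, map_mul, la_s h2 la hla hT, th_hh hi _ hr hr1, if_pos rfl, hb] at h1
  have h4 : ch (fSO n F h2).τ (((fSO n F h2).ep : F) * -((2 : F)⁻¹)) = cm2 F := by
    show ch (RingEquiv.refl F) (((1 : Fˣ) : F) * -((2 : F)⁻¹)) = cm2 F
    rw [Units.val_one, one_mul, ch_half h2]
  rw [h4] at h1
  have h5 : cm2 F * cm2 F = 1 := Int.units_mul_self _
  calc _ = la ⟨(fSO n F h2).s i, hs⟩ * (cm2 F * cm2 F) := by rw [h5, mul_one]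
    _ = cm2 F := by rw [← mul_assoc, h1, one_mul]

theorem fit : Fit (Xs hn h2 hp ho).toBN (pSO F h2) where
  card := by
    intro l hl
    rw [card_in]
    show Nat.card ((fSO n F h2).R l) = Nat.card F ^ 1
    rw [card_R_pos hl, pow_one]
    exact card_refl
  sum := by
    intro b _ i hi
    rw [card_R0 hn h2 hp ho i hi]
    have hq : ((Nat.card F : ℕ) : ℚ) ≠ 0 := q_ne h2
    cases b
    · rw [r0, r1]
      show ((Nat.card F : ℕ) : ℚ) * (1 + -((Nat.card F : ℕ) : ℚ)⁻¹) =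
        (((if false = true then ((cm2 F : ℤˣ) : ℤ) else 1) * ((Nat.card F : ℤ) - 1) : ℤ) : ℚ)
      rw [if_neg Bool.false_ne_true]
      push_cast
      field_simp
      ring
    · rw [r2, r3]
      show ((Nat.card F : ℕ) : ℚ) * (((cm2 F : ℤ) : ℚ) + -(((cm2 F : ℤ) : ℚ) * ((Nat.card F : ℕ) : ℚ)⁻¹)) =
        (((if true = true then ((cm2 F : ℤˣ) : ℤ) else 1) * ((Nat.card F : ℤ) - 1) : ℤ) : ℚ)
      rw [if_pos rfl]
      push_cast
      field_simp
      ring
  prod := by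
    intro b _ i hi
    rw [card_R0 hn h2 hp ho i hi]
    have hq : ((Nat.card F : ℕ) : ℚ) ≠ 0 := q_ne h2
    cases b
    · rw [r0, r1]
      show ((Nat.card F : ℕ) : ℚ) * (1 * -((Nat.card F : ℕ) : ℚ)⁻¹) = -1
      field_simp
    · rw [r2, r3]
      show ((Nat.card F : ℕ) : ℚ) * (((cm2 F : ℤ) : ℚ) * -(((cm2 F : ℤ) : ℚ) * ((Nat.card F : ℕ) : ℚ)⁻¹)) = -1
      have hs := sq_sign (cm2 F)
      calc _ = -((((cm2 F : ℤ) : ℚ) * ((cm2 F : ℤ) : ℚ)) *
            (((Nat.card F : ℕ) : ℚ) * ((Nat.card F : ℕ) : ℚ)⁻¹)) := by ring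
        _ = -1 := by rw [hs, mul_inv_cancel₀ hq, one_mul]
  half := by
    right
    obtain ⟨la, hla⟩ := exists_spin (D := fSO n F h2) rfl
    refine ⟨la, ?_, ?_, ?_⟩
    · intro h hh
      exact la_comm la _ (Subgroup.mem_subgroupOf.1 hh) h.2
    · intro x hx
      exact la_s h2 la hla (Subgroup.mem_subgroupOf.1 hx)
    · intro y i hi
      rw [r_dl]
      have h1 : la ((Xs hn h2 hp ho).toBN.s i) = cm2 F := la_s0 h2 la hla i hi (s_mem i)
      rw [h1]

theorem fix {Ω : Type} [Field Ω] [CharZero Ω] : FixOK Ω (Xs hn h2 hp ho).toBN ℚ := by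
  refine ⟨1, odd_one, fun σ _ => ⟨fun x => ?_, fun h => ?_⟩⟩
  · rw [eq_ratCast, map_ratCast]
  · exact absurd h (by
      show ¬ true = false
      exact Bool.noConfusion)

end Two

end P11_aux

open P11_aux

variable {Ω : Type} [Field Ω] [IsAlgClosed Ω] [CharZero Ω] {c : Parker.Ctx Ω}

theorem so_propA {n : ℕ} (hn : 2 ≤ n) (F : Type) [Field F] [Finite F] (h2 : (2 : F) ≠ 0) :
    Parker.PropA c 1 (⁅(fSO n F h2).G, (fSO n F h2).G⁆ : Subgroup (GL (Ix n 1) F)) := by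
  obtain ⟨p, hc, hp, ho⟩ := char_odd h2
  exact propA_in (Xs hn h2 hp ho) (bn_propA (fit hn h2 hp ho) (by omega) (fix hn h2 hp ho))

theorem so_propB {n : ℕ} (hn : 2 ≤ n) (F : Type) [Field F] [Finite F] (h2 : (2 : F) ≠ 0) :
    Parker.PropB c 1 (⁅(fSO n F h2).G, (fSO n F h2).G⁆ : Subgroup (GL (Ix n 1) F)) := by
  obtain ⟨p, hc, hp, ho⟩ := char_odd h2
  exact propB_in (Xs hn h2 hp ho) (bn_propB (fit hn h2 hp ho) (by omega) (fix hn h2 hp ho))

end

end AO.MG
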