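import Pool.Agent.AO.P08
import Pool.Agent.AO.P09
import Pool.Agent.AO.P03

/-!
# MP_6c3636_al, AO, module P12: orthogonal groups of minus type: the torus (helper7)

`D = fOm n h2 τ ht`, `σ = refl`, `ep = cm = om = 1`, `n ≥ 1`, `l = 0`, `K` the fixed field of `τ`, `q = card K`. `hh_mid`: the relation `s r s = u (s t) u'` (`hh_zero`), `t = hh l r`, `z = r (m 0) (f)` (`m 0 = mi 0`, `m 1 = mi 1`); entries of `r`: `r (m 1) (f) = τ z`, `r f = f + z m₀ + τ(z) m₁ + β e`, `β = - z τ(z)`, `r m₀ = m₀ - τ(z) e`, `r m₁ = m₁ - z e` (isometry). Compare the columns of `m₀`: left side: `s r s m₀ = s r m₁ = m₀ - z f`. Right side: `u' m₀ = m₀ + ζ e`, so it is `u (t₀ m₁ + ζ λ f)` with `t m₀ = t₀ m₀`, `t e = λ e`, `u m₁ = m₁ + _ e`: the coordinate at `f` is `ζ λ = - z`; at `m₀`: `ζ λ * (u f)_{m₀} = 1`; at `m₁`: `t₀ + ζ λ * (u f)_{m₁} = 0`; `(u f)_{m₁} = τ ((u f)_{m₀}) = - (τ z)⁻¹`, so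 `t₀ = - z / τ(z)`. `gw_mem`: `g w = hh l r_w * (hh l r_1)⁻¹` where `r_w` is the element of `R l` with `z = w` (`exists_R0`), is in `H = ⁅G, G⁆`: `nt_mem` for both. Its coordinate at `0` is `w τ(w)`, `1` at the others, the entry at `m₀` is `w / τ(w)`. `T_H`: let `T₀` be the group of the elements of `T` with coordinates `1` at all `i ≠ l`; an element is determined by `(x, y)`, `x ∈ Kˣ`, `y τ(y) = 1` (entry at `m₀`), so `card T₀ = (q - 1) * (q + 1)` (`card_norm`, `hilbert`-like). The elements `g w`, `w ∈ Fˣ`, form a subgroup `A` of `T₀ ⊓ H` with `(q ^ 2 - 1) / 2` elements (kernel of `w ↦ g w`: `w = τ w`, `w ^ 2 = 1`). By `exists_spin`, `la_comm` `T₀ ⊓ H ≠ T₀` (`tor` with a nonsquare of `K` at `l`). So `T₀ ⊓ H = A`.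
-/

namespace AO.MG

noncomputable section

open Classical Equiv Matrix

open AN (sq)


variable {n : ℕ} {F : Type} [Field F] [Finite F]

namespace P12_aux

theorem mv_mo (w : Perm (Ix n 2)) (c : Ix n 2 → Fˣ) (x : Ix n 2) :
    mv (mo w c) (sv x) = (c x : F) • sv (w x) := by
  funext y
  rw [mv_apply, mo_apply, Pi.smul_apply, smul_eq_mul]
  unfold sv
  by_cases h : y = w x
  · rw [if_pos h, h, Pi.single_eq_same, mul_one]
  · rw [if_neg h, Pi.single_eq_of_ne h, mul_zero]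

theorem mv_diag {t : GL (Ix n 2) F} (ht : t ∈ DG (Ix n 2) F) (x : Ix n 2) :
    mv t (sv x) = (t : Matrix (Ix n 2) (Ix n 2) F) x x • sv x := by
  funext y
  rw [mv_apply, Pi.smul_apply, smul_eq_mul]
  unfold sv
  by_cases h : y = x
  · rw [h, Pi.single_eq_same, mul_one]
  · rw [Pi.single_eq_of_ne h, mul_zero]
    exact mem_DG.1 ht y x h

theorem mv_mid {D : FD n 2 F} {l : Fin n} (hl : (l : ℕ) = 0) {r : GL (Ix n 2) F} (hr : r ∈ D.R l)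
    (j : Fin 2) : mv r (sv (mi j)) =
      sv (mi j) + (r : Matrix (Ix n 2) (Ix n 2) F) (ei l) (mi j) • sv (ei l) := by
  funext y
  rw [mv_apply, Pi.add_apply, Pi.smul_apply, smul_eq_mul]
  unfold sv
  by_cases h : y = ei l
  · rw [h, Pi.single_eq_same, mul_one, Pi.single_eq_of_ne (show (ei l : Ix n 2) ≠ mi j from fun h => Sum.inl_ne_inr h), zero_add]
  · rw [Pi.single_eq_of_ne h, mul_zero, add_zero, (R0_supp hl hr).1 y (mi j) h (fun h => Sum.inr_ne_inl h)]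
    by_cases h3 : y = mi j
    · rw [h3, Pi.single_eq_same, Matrix.one_apply_eq]
    · rw [Pi.single_eq_of_ne h3, Matrix.one_apply_ne h3]

theorem s_m (h2 : (2 : F) ≠ 0) {τ : F ≃+* F} (ht : ∀ x, τ (τ x) = x) {l : Fin n} (hl : (l : ℕ) = 0)
    (j : Fin 2) : mv ((fOm n h2 τ ht).s l) (sv (mi j)) = sv (mi (Fin.rev j)) := by
  have h : ¬ 0 < (l : ℕ) := by omega
  rw [s_mo, mv_mo, (ws_0 hl).2.2.2 j]
  have e : (((fOm n h2 τ ht).cs l (mi j) : Fˣ) : F) = 1 := by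
    unfold FD.cs
    rw [if_neg h]
    rfl
  rw [e, one_smul]

theorem s_e (h2 : (2 : F) ≠ 0) {τ : F ≃+* F} (ht : ∀ x, τ (τ x) = x) {l : Fin n} (hl : (l : ℕ) = 0) :
    mv ((fOm n h2 τ ht).s l) (sv (ei l)) = sv (fi l) := by
  have h : ¬ 0 < (l : ℕ) := by omega
  rw [s_mo, mv_mo, (ws_0 hl).1]
  have e : (((fOm n h2 τ ht).cs l (ei l) : Fˣ) : F) = 1 := by
    unfold FD.cs
    rw [if_neg h]
    show (((if (l : ℕ) = 0 then (1 : Fˣ) else 1) : Fˣ) : F) = 1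
    rw [ite_self, Units.val_one]
  rw [e, one_smul]

end P12_aux

theorem hh_mid (h2 : (2 : F) ≠ 0) {τ : F ≃+* F} (ht : ∀ x, τ (τ x) = x) {l : Fin n} (hl : (l : ℕ) = 0)
    {r : GL (Ix n 2) F} (hr : r ∈ (fOm n h2 τ ht).R l) (h1 : r ≠ 1) :
    ((fOm n h2 τ ht).hh l r : Matrix (Ix n 2) (Ix n 2) F) (mi 0) (mi 0) *
      τ ((r : Matrix (Ix n 2) (Ix n 2) F) (mi 0) (fi l)) =
        -((r : Matrix (Ix n 2) (Ix n 2) F) (mi 0) (fi l)) := by
  have hD := hh_zero hl hr h1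
  obtain ⟨hT, ⟨u, hu, u', hu', hrel⟩, -, -⟩ := hD
  set D := fOm n h2 τ ht with hDdef
  set t := D.hh l r with htdef
  obtain ⟨hr1, -, hr3, hr4⟩ := R0_supp hl hr
  obtain ⟨hu1, -, hu3, hu4⟩ := R0_supp hl hu
  -- the entry of `r` at `(e, m 1)`
  have hy : (r : Matrix (Ix n 2) (Ix n 2) F) (ei l) (mi 1) =
      -((r : Matrix (Ix n 2) (Ix n 2) F) (mi 0) (fi l)) := by
    have h3 := B_mv hr.1.1 (sv (mi 1)) (sv (fi l))
    rw [P12_aux.mv_mid hl hr 1, B_add_left, B_smul_left, B_sv_left, B_sv_left, B_sv_left] at h3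
    have c1 : ((D.c (mi 1) : Fˣ) : F) = 1 := rfl
    have c2 : ((D.c (ei l) : Fˣ) : F) = 1 := rfl
    have d1 : (du (mi 1) : Ix n 2) = mi 0 := rfl
    have d2 : (du (ei l) : Ix n 2) = fi l := rfl
    have s1 : (sv (fi l) : Ix n 2 → F) (mi 0) = 0 := Pi.single_eq_of_ne (fun h => Sum.inr_ne_inl h) _
    rw [c1, c2, d1, d2, mv_apply, mv_apply, s1, hr4] at h3
    have h4 : D.σ ((r : Matrix (Ix n 2) (Ix n 2) F) (ei l) (mi 1)) =
      (r : Matrix (Ix n 2) (Ix n 2) F) (ei l) (mi 1) := rfl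
    rw [h4] at h3
    linear_combination h3
  -- the two sides at `m 0`
  have hL : mv (D.s l * r * D.s l) (sv (mi 0)) =
      sv (mi 0) + (r : Matrix (Ix n 2) (Ix n 2) F) (ei l) (mi 1) • sv (fi l) := by
    rw [mv_mul, mv_mul, P12_aux.s_m h2 ht hl 0]
    show mv (D.s l) (mv r (sv (mi 1))) = _
    rw [P12_aux.mv_mid hl hr 1, mv_add, mv_smul, P12_aux.s_m h2 ht hl 1, P12_aux.s_e h2 ht hl]
    rfl
  have hR : mv (u * (D.s l * t) * u') (sv (mi 0)) =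
      (t : Matrix (Ix n 2) (Ix n 2) F) (mi 0) (mi 0) • mv u (sv (mi 1)) +
      ((u' : Matrix (Ix n 2) (Ix n 2) F) (ei l) (mi 0) *
        (t : Matrix (Ix n 2) (Ix n 2) F) (ei l) (ei l)) • mv u (sv (fi l)) := by
    rw [mv_mul, mv_mul, mv_mul, P12_aux.mv_mid hl hu' 0, mv_add, mv_smul, P12_aux.mv_diag (T_DG hT),
      P12_aux.mv_diag (T_DG hT), mv_add, mv_smul, mv_smul, mv_smul, P12_aux.s_m h2 ht hl 0,
      P12_aux.s_e h2 ht hl, mv_add, mv_smul, mv_smul, mv_smul, smul_smul]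
    rfl
  rw [hrel, hR] at hL
  have e1 := congrFun hL (fi l)
  have e2 := congrFun hL (mi 0)
  have e3 := congrFun hL (mi 1)
  have n1 : (fi l : Ix n 2) ≠ ei l := fun h => by
    have := congrArg Prod.snd (Sum.inl_injective h); exact absurd this.symm Bool.false_ne_true
  have n2 : ∀ j : Fin 2, (mi j : Ix n 2) ≠ fi l := fun j h => Sum.inr_ne_inl h
  have n3 : ∀ j : Fin 2, (mi j : Ix n 2) ≠ ei l := fun j h => Sum.inr_ne_inl h
  have n4 : (mi 0 : Ix n 2) ≠ mi 1 := fun h => absurd (Sum.inr_injective h) (by decide)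
  have a1 : ∀ (x y : F), (x • mv u (sv (mi 1)) + y • mv u (sv (fi l))) (fi l) = y := by
    intro x y
    rw [Pi.add_apply, Pi.smul_apply, Pi.smul_apply, mv_apply, mv_apply, hu4, hu1 _ _ n1 (n2 1),
      Matrix.one_apply_ne (n2 1).symm, smul_zero, zero_add, smul_eq_mul, mul_one]
  have a2 : ∀ (x y : F), (x • mv u (sv (mi 1)) + y • mv u (sv (fi l))) (mi 0) =
      y * (u : Matrix (Ix n 2) (Ix n 2) F) (mi 0) (fi l) := by
    intro x y
    rw [Pi.add_apply, Pi.smul_apply, Pi.smul_apply, mv_apply, mv_apply, hu1 _ _ (n3 0) (n2 1),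
      Matrix.one_apply_ne n4, smul_zero, zero_add, smul_eq_mul]
  have a3 : ∀ (x y : F), (x • mv u (sv (mi 1)) + y • mv u (sv (fi l))) (mi 1) =
      x + y * (u : Matrix (Ix n 2) (Ix n 2) F) (mi 1) (fi l) := by
    intro x y
    rw [Pi.add_apply, Pi.smul_apply, Pi.smul_apply, mv_apply, mv_apply, hu1 _ _ (n3 1) (n2 1),
      Matrix.one_apply_eq, smul_eq_mul, smul_eq_mul, mul_one]
  have b1 : ∀ y : F, ((sv (mi 0) + y • sv (fi l) : Ix n 2 → F)) (fi l) = y := by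
    intro y
    have s1 : (sv (mi 0) : Ix n 2 → F) (fi l) = 0 := Pi.single_eq_of_ne (n2 0).symm _
    have s2 : (sv (fi l) : Ix n 2 → F) (fi l) = 1 := Pi.single_eq_same _ _
    rw [Pi.add_apply, Pi.smul_apply, s1, s2, zero_add, smul_eq_mul, mul_one]
  have b2 : ∀ y : F, ((sv (mi 0) + y • sv (fi l) : Ix n 2 → F)) (mi 0) = 1 := by
    intro y
    have s1 : (sv (mi 0) : Ix n 2 → F) (mi 0) = 1 := Pi.single_eq_same _ _
    have s2 : (sv (fi l) : Ix n 2 → F) (mi 0) = 0 := Pi.single_eq_of_ne (n2 0) _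
    rw [Pi.add_apply, Pi.smul_apply, s1, s2, smul_zero, add_zero]
  have b3 : ∀ y : F, ((sv (mi 0) + y • sv (fi l) : Ix n 2 → F)) (mi 1) = 0 := by
    intro y
    have s1 : (sv (mi 0) : Ix n 2 → F) (mi 1) = 0 := Pi.single_eq_of_ne n4.symm _
    have s2 : (sv (fi l) : Ix n 2 → F) (mi 1) = 0 := Pi.single_eq_of_ne (n2 1) _
    rw [Pi.add_apply, Pi.smul_apply, s1, s2, smul_zero, add_zero]
  rw [a1, b1, hy] at e1
  rw [a2, b2, e1] at e2
  rw [a3, b3, e1] at e3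
  have htw : (u : Matrix (Ix n 2) (Ix n 2) F) (mi 1) (fi l) =
      τ ((u : Matrix (Ix n 2) (Ix n 2) F) (mi 0) (fi l)) := (mem_G.1 hu.1.1).2.1 (mi 0) (fi l)
  have e4 := congrArg τ e2
  rw [map_mul, map_neg, map_one, ← htw] at e4
  linear_combination τ ((r : Matrix (Ix n 2) (Ix n 2) F) (mi 0) (fi l)) * e3 -
    ((r : Matrix (Ix n 2) (Ix n 2) F) (mi 0) (fi l)) * e4

theorem gw_mem (h2 : (2 : F) ≠ 0) {τ : F ≃+* F} (ht : ∀ x, τ (τ x) = x) {l : Fin n} (hl : (l : ℕ) = 0)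
    {w : F} (hw : w ≠ 0) : ∃ t ∈ (fOm n h2 τ ht).T, t ∈ ⁅(fOm n h2 τ ht).G, (fOm n h2 τ ht).G⁆ ∧
      (t : Matrix (Ix n 2) (Ix n 2) F) (ei l) (ei l) = w * τ w ∧
      (∀ i : Fin n, i ≠ l → (t : Matrix (Ix n 2) (Ix n 2) F) (ei i) (ei i) = 1) ∧
      (t : Matrix (Ix n 2) (Ix n 2) F) (mi 0) (mi 0) * τ w = w := by
  -- the elements of the root subgroup
  have hex : ∀ x : F, x ≠ 0 → ∃ r ∈ (fOm n h2 τ ht).R l, r ≠ 1 ∧
      (r : Matrix (Ix n 2) (Ix n 2) F) (mi 0) (fi l) = x ∧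
      (r : Matrix (Ix n 2) (Ix n 2) F) (ei l) (fi l) = -(x * τ x) := by
    intro x hx
    obtain ⟨r, hr, h3, h4⟩ := exists_R0 (D := fOm n h2 τ ht) hl ⟨(![x, τ x], -(x * τ x)), by
      refine ⟨?_, ?_, ?_⟩
      · intro j
        fin_cases j
        · rfl
        · exact (ht x).symm
      · show τ (-(x * τ x)) = -(x * τ x)
        rw [map_neg, map_mul, ht, mul_comm]
      · rw [Fin.sum_univ_two]
        show (1 : F) * (-(x * τ x)) + -(x * τ x) + (1 : F) * (x * τ x + τ x * x) = 0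
        ring⟩
    refine ⟨r, hr, ?_, h3 0, h4⟩
    rintro rfl
    have h5 := h3 0
    rw [Units.val_one, Matrix.one_apply_ne (show (mi 0 : Ix n 2) ≠ fi l from fun h => Sum.inr_ne_inl h)] at h5
    exact hx h5.symm
  have hs : (fOm n h2 τ ht).s l * (fOm n h2 τ ht).s l = 1 := s_sq_one rfl (Or.inl rfl) l
  have hH : ∀ r ∈ (fOm n h2 τ ht).R l, r ≠ 1 →
      (fOm n h2 τ ht).s l * (fOm n h2 τ ht).hh l r ∈ ⁅(fOm n h2 τ ht).G, (fOm n h2 τ ht).G⁆ :=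
    fun r hr h1 => nt_mem comm_normal (U_comm rfl) hl hr h1 hs
  obtain ⟨r, hr, hr1, hr2, hr3⟩ := hex w hw
  obtain ⟨r', hr', hr1', hr2', hr3'⟩ := hex 1 one_ne_zero
  obtain ⟨hT, -, h5, h6⟩ := hh_zero hl hr hr1
  obtain ⟨hT', -, h5', h6'⟩ := hh_zero hl hr' hr1'
  have h7 := hh_mid h2 ht hl hr hr1
  have h7' := hh_mid h2 ht hl hr' hr1'
  rw [hr2] at h7
  rw [hr2', map_one, mul_one] at h7'
  rw [hr3] at h5
  rw [hr3', map_one, mul_one] at h5'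
  have hep : (((fOm n h2 τ ht).ep : Fˣ) : F) = 1 := rfl
  rw [hep, one_mul] at h5 h5'
  have hd : ∀ x : Ix n 2, ((((fOm n h2 τ ht).hh l r')⁻¹ * (fOm n h2 τ ht).hh l r : GL (Ix n 2) F) :
      Matrix (Ix n 2) (Ix n 2) F) x x = ((((fOm n h2 τ ht).hh l r' : GL (Ix n 2) F) :
      Matrix (Ix n 2) (Ix n 2) F) x x)⁻¹ * (((fOm n h2 τ ht).hh l r : GL (Ix n 2) F) :
      Matrix (Ix n 2) (Ix n 2) F) x x := by
    intro x
    rw [DG_mul ((DG (Ix n 2) F).inv_mem (T_DG hT')), DG_inv (T_DG hT')]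
  refine ⟨((fOm n h2 τ ht).hh l r')⁻¹ * (fOm n h2 τ ht).hh l r,
    (fOm n h2 τ ht).T.mul_mem ((fOm n h2 τ ht).T.inv_mem hT') hT, ?_, ?_, ?_, ?_⟩
  · have h8 := (⁅(fOm n h2 τ ht).G, (fOm n h2 τ ht).G⁆).mul_mem
      ((⁅(fOm n h2 τ ht).G, (fOm n h2 τ ht).G⁆).inv_mem (hH r' hr' hr1')) (hH r hr hr1)
    have h9 : ((fOm n h2 τ ht).s l * (fOm n h2 τ ht).hh l r')⁻¹ *
        ((fOm n h2 τ ht).s l * (fOm n h2 τ ht).hh l r) =
        ((fOm n h2 τ ht).hh l r')⁻¹ * (fOm n h2 τ ht).hh l r := by group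
    rw [h9] at h8
    exact h8
  · rw [hd, h5, h5']
    field_simp
  · intro i hi
    rw [hd, h6 i hi, h6' i hi, inv_one, one_mul]
  · rw [hd, h7']
    have h8 : ((-1 : F))⁻¹ = -1 := by rw [inv_neg, inv_one]
    rw [h8]
    linear_combination (-1 : F) * h7

theorem T_H (h2 : (2 : F) ≠ 0) {τ : F ≃+* F} (ht : ∀ x, τ (τ x) = x) (hne : ∃ x, τ x ≠ x) {l : Fin n}
    (hl : (l : ℕ) = 0) {t : GL (Ix n 2) F} (hT : t ∈ (fOm n h2 τ ht).T)
    (hH : t ∈ ⁅(fOm n h2 τ ht).G, (fOm n h2 τ ht).G⁆)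
    (h : ∀ i : Fin n, i ≠ l → (t : Matrix (Ix n 2) (Ix n 2) F) (ei i) (ei i) = 1) :
    ∃ w : F, w ≠ 0 ∧ (t : Matrix (Ix n 2) (Ix n 2) F) (ei l) (ei l) = w * τ w ∧
      (t : Matrix (Ix n 2) (Ix n 2) F) (mi 0) (mi 0) * τ w = w := by
  have hso : (fOm n h2 τ ht).so = true := rfl
  -- the entry at `m 0`
  have hm1 : (t : Matrix (Ix n 2) (Ix n 2) F) (mi 0) (mi 0) *
      τ ((t : Matrix (Ix n 2) (Ix n 2) F) (mi 0) (mi 0)) = 1 := by
    have h3 : (t : Matrix (Ix n 2) (Ix n 2) F) (mi 0) (mi 0) *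
      (t : Matrix (Ix n 2) (Ix n 2) F) (mi 1) (mi 1) = 1 := T_m1 hT 0
    have h4 : (t : Matrix (Ix n 2) (Ix n 2) F) (mi 1) (mi 1) =
      τ ((t : Matrix (Ix n 2) (Ix n 2) F) (mi 0) (mi 0)) := T_m2 hT 0
    rw [← h4, h3]
  obtain ⟨x, hx, hxt⟩ := hilbert h2 ht hne hm1
  obtain ⟨g, hgT, hgH, hg1, hg2, hg3⟩ := gw_mem (n := n) h2 ht hl hx
  have hτx : τ x ≠ 0 := fun h => hx (by rw [← ht x, h, map_zero])
  -- the quotient
  have hqT : t * g⁻¹ ∈ (fOm n h2 τ ht).T := (fOm n h2 τ ht).T.mul_mem hT ((fOm n h2 τ ht).T.inv_mem hgT)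
  have hqH : t * g⁻¹ ∈ ⁅(fOm n h2 τ ht).G, (fOm n h2 τ ht).G⁆ :=
    (⁅(fOm n h2 τ ht).G, (fOm n h2 τ ht).G⁆).mul_mem hH ((⁅(fOm n h2 τ ht).G, (fOm n h2 τ ht).G⁆).inv_mem hgH)
  have hqd : ∀ y : Ix n 2, ((t * g⁻¹ : GL (Ix n 2) F) : Matrix (Ix n 2) (Ix n 2) F) y y =
      (t : Matrix (Ix n 2) (Ix n 2) F) y y * ((g : Matrix (Ix n 2) (Ix n 2) F) y y)⁻¹ := by
    intro y
    rw [DG_mul (T_DG hT), DG_inv (T_DG hgT)]
  have hgm : (g : Matrix (Ix n 2) (Ix n 2) F) (mi 0) (mi 0) = (t : Matrix (Ix n 2) (Ix n 2) F) (mi 0) (mi 0) :=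
    mul_right_cancel₀ hτx (hg3.trans hxt.symm)
  have hm0 : (t : Matrix (Ix n 2) (Ix n 2) F) (mi 0) (mi 0) ≠ 0 := DG_ne (T_DG hT) _
  have hq0 : ((t * g⁻¹ : GL (Ix n 2) F) : Matrix (Ix n 2) (Ix n 2) F) (mi 0) (mi 0) = 1 := by
    rw [hqd, hgm, mul_inv_cancel₀ hm0]
  have hqm : ∀ j : Fin 2, ((t * g⁻¹ : GL (Ix n 2) F) : Matrix (Ix n 2) (Ix n 2) F) (mi j) (mi j) = 1 := by
    intro j
    fin_cases j
    · exact hq0
    · have h4 : ((t * g⁻¹ : GL (Ix n 2) F) : Matrix (Ix n 2) (Ix n 2) F) (mi 1) (mi 1) =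
        τ (((t * g⁻¹ : GL (Ix n 2) F) : Matrix (Ix n 2) (Ix n 2) F) (mi 0) (mi 0)) := T_m2 hqT 0
      rw [hq0, map_one] at h4
      exact h4
  obtain ⟨y, hy, hqy⟩ := T_tor hqT hqm
  have hye : ∀ i, ((t * g⁻¹ : GL (Ix n 2) F) : Matrix (Ix n 2) (Ix n 2) F) (ei i) (ei i) = y i := by
    intro i
    rw [hqy, tor_e]
  -- the spinor norm
  obtain ⟨la, hla⟩ := exists_spin hso (D := fOm n h2 τ ht)
  have hla1 := la_comm la _ hqH hqT.1
  have hla2 : la ⟨t * g⁻¹, hqT.1⟩ = ∏ i, ch (fOm n h2 τ ht).τ (y i : F) := by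
    rw [← hla y hy]
    exact congrArg la (Subtype.ext hqy)
  rw [hla1, Finset.prod_eq_single l] at hla2
  · have hc : ∃ d : F, τ d = d ∧ d * d = y l := by
      by_contra hcon
      have h8 : ch (fOm n h2 τ ht).τ (y l : F) = -1 := if_neg hcon
      rw [h8] at hla2
      exact absurd hla2 (by decide)
    obtain ⟨d, hd1, hd2⟩ := hc
    have hyl := hye l
    rw [hqd, hg1] at hyl
    have hn : x * τ x ≠ 0 := mul_ne_zero hx hτx
    have hte : (t : Matrix (Ix n 2) (Ix n 2) F) (ei l) (ei l) = x * τ x * (d * d) := by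
      rw [hd2, ← hyl, mul_comm, mul_assoc, inv_mul_cancel₀ hn, mul_one]
    refine ⟨x * d, mul_ne_zero hx (fun h0 => (y l).ne_zero (by rw [← hd2, h0, mul_zero])), ?_, ?_⟩
    · rw [hte, map_mul, hd1]
      ring
    · rw [map_mul, hd1, ← mul_assoc, hxt]
  · intro i _ hi
    have h8 : (y i : F) = 1 := by
      rw [← hye i, hqd, h i hi, hg2 i hi, inv_one, mul_one]
    rw [h8]
    exact ch_one
  · exact fun h => absurd (Finset.mem_univ _) h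

theorem T_ext2 (h2 : (2 : F) ≠ 0) {τ : F ≃+* F} (ht : ∀ x, τ (τ x) = x) {t t' : GL (Ix n 2) F}
    (hT : t ∈ (fOm n h2 τ ht).T) (hT' : t' ∈ (fOm n h2 τ ht).T)
    (h : ∀ i : Fin n, (t : Matrix (Ix n 2) (Ix n 2) F) (ei i) (ei i) =
      (t' : Matrix (Ix n 2) (Ix n 2) F) (ei i) (ei i))
    (hm : (t : Matrix (Ix n 2) (Ix n 2) F) (mi 0) (mi 0) = (t' : Matrix (Ix n 2) (Ix n 2) F) (mi 0) (mi 0)) :
    t = t' := by
  refine DG_ext (T_DG hT) (T_DG hT') (fun x => ?_)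
  rcases x with ⟨i, b⟩ | j
  · cases b
    · exact h i
    · have h3 := T_f hT i
      have h4 := T_f hT' i
      rw [h i, ← h4] at h3
      exact h3
  · fin_cases j
    · exact hm
    · have h3 : (t : Matrix (Ix n 2) (Ix n 2) F) (mi 1) (mi 1) =
        τ ((t : Matrix (Ix n 2) (Ix n 2) F) (mi 0) (mi 0)) := T_m2 hT 0
      have h4 : (t' : Matrix (Ix n 2) (Ix n 2) F) (mi 1) (mi 1) =
        τ ((t' : Matrix (Ix n 2) (Ix n 2) F) (mi 0) (mi 0)) := T_m2 hT' 0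
      show (t : Matrix (Ix n 2) (Ix n 2) F) (mi 1) (mi 1) = (t' : Matrix (Ix n 2) (Ix n 2) F) (mi 1) (mi 1)
      rw [h3, h4, hm]

end

end AO.MG
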