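import Pool.Agent.AO.P12

/-!
# MP_6c3636_al, AO, module P13: orthogonal groups of minus type: the data (helper7)

`D = fOm n h2 τ ht`, `n ≥ 1`, notation of P12. `UH`: `U_comm`; `HT`: `HT_of`; `es`: `D.PR` is in bijection with `F` by `p ↦ z = p.1.1 0` (`p.1.1 1 = τ z`, `β = - z τ(z)`); the sum of `ch τ β` over `z ≠ 0` is `0`: `ch τ (- z τ(z)) = ch τ (-1) * ch refl z` (`norm_ch`), `sum_ch`. `nt` as in P04 (`nt_mem`, `s_sq_one`). `re`: first alternative. `w ↦ f (g w)` (`gw_mem`; the element is determined by `T_ext2`, so `g (w w') = g w * g w'`) is a homomorphism `Fˣ → {1, -1}`, trivial or `ch refl` (`ch_hom`); `ch refl w = ch τ (w τ(w))` (`norm_ch`). `a' 0 = true` if it is not trivial. For `i ≠ 0`: `h i x = tor` with `x⁻¹` at `0` and `x` at `i`, `x ∈ K`, in `H` (`tor_comm`); `x ↦ f (h i x)` is trivial or `ch τ`; `a' i = true` if and only if exactly one of the two homomorphisms (for `0`, for `i`) is not trivial. An element `t` of `T ⊓ H`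 is the product of the `h i (t i)` and of an element of `T ⊓ H` with coordinates `1` at `i ≠ 0`, which is `g w` by `T_H`. `tw`: on `h i x`, `ch τ x = -1`.
-/

namespace AO.MG

noncomputable section

open Classical Equiv Matrix

open AN (sq)


namespace P13_aux

section Coord

variable {n a : ℕ} {F : Type} [Field F]

/-- the coordinates of the elements `h i x` -/
def yy (l i : Fin n) (x : Fˣ) : Fin n → Fˣ :=
  fun j => Function.update (1 : Fin n → Fˣ) i x j *
    (Function.update (1 : Fin n → Fˣ) i x (Equiv.swap l i j))⁻¹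

theorem yy_l {l i : Fin n} (h : i ≠ l) (x : Fˣ) : yy l i x l = x⁻¹ := by
  unfold yy
  rw [Equiv.swap_apply_left, Function.update_self, Function.update_of_ne h.symm, Pi.one_apply, one_mul]

theorem yy_i {l i : Fin n} (h : i ≠ l) (x : Fˣ) : yy l i x i = x := by
  unfold yy
  rw [Equiv.swap_apply_right, Function.update_self, Function.update_of_ne h.symm, Pi.one_apply,
    inv_one, mul_one]

theorem yy_o {l i j : Fin n} (hl : j ≠ l) (hi : j ≠ i) (x : Fˣ) : yy l i x j = 1 := by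
  unfold yy
  rw [Equiv.swap_apply_of_ne_of_ne hl hi, Function.update_of_ne hi, Pi.one_apply, inv_one, mul_one]

theorem up_mul (i j : Fin n) (x y : Fˣ) : Function.update (1 : Fin n → Fˣ) i (x * y) j =
    Function.update (1 : Fin n → Fˣ) i x j * Function.update (1 : Fin n → Fˣ) i y j := by
  by_cases h : j = i
  · rw [h, Function.update_self, Function.update_self, Function.update_self]
  · rw [Function.update_of_ne h, Function.update_of_ne h, Function.update_of_ne h, Pi.one_apply,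
      mul_one]

theorem yy_mul (l i : Fin n) (x y : Fˣ) : yy l i (x * y) = yy l i x * yy l i y := by
  funext j
  rw [Pi.mul_apply]
  unfold yy
  rw [up_mul, up_mul, _root_.mul_inv]
  exact mul_mul_mul_comm _ _ _ _

theorem up_tau {τ : F ≃+* F} {x : Fˣ} (hx : τ (x : F) = x) (i j : Fin n) :
    τ ((Function.update (1 : Fin n → Fˣ) i x j : Fˣ) : F) = Function.update (1 : Fin n → Fˣ) i x j := by
  by_cases h : j = i
  · rw [h, Function.update_self, hx]
  · rw [Function.update_of_ne h, Pi.one_apply, Units.val_one, map_one]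

theorem yy_tau {τ : F ≃+* F} {x : Fˣ} (hx : τ (x : F) = x) (l i j : Fin n) :
    τ ((yy l i x j : Fˣ) : F) = yy l i x j := by
  unfold yy
  rw [Units.val_mul, Units.val_inv_eq_inv_val, map_mul, map_inv₀, up_tau hx, up_tau hx]

theorem un_val {x : F} (h : x ≠ 0) : ((un x : Fˣ) : F) = x := by
  unfold un
  rw [dif_pos h, Units.val_mk0]

theorem un_mul {x y : F} (h : x ≠ 0) (h' : y ≠ 0) : un (x * y) = un x * un y := by
  apply Units.ext
  rw [Units.val_mul, un_val h, un_val h', un_val (mul_ne_zero h h')]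

end Coord

section Th

variable {n a : ℕ} {F : Type} [Field F] [Finite F] {D : FD n a F}

theorem tor_TH {l i : Fin n} {x : Fˣ} (hx : D.τ (x : F) = x) :
    D.tor (yy l i x) ∈ D.T ⊓ ⁅D.G, D.G⁆ :=
  ⟨tor_mem (yy_tau hx l i), tor_comm (x := Function.update (1 : Fin n → Fˣ) i x) (up_tau hx i)
    (π := Equiv.swap l i) (fun _ => rfl)⟩

theorem th_h {l i : Fin n} (h : i ≠ l) {x : Fˣ} (hx : D.τ (x : F) = x) (a' : Fin n → Bool) :
    D.th a' (D.tor (yy l i x)) = (if a' l = true then ch D.τ (x : F) else 1) *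
      (if a' i = true then ch D.τ (x : F) else 1) := by
  rw [th_tor, Finset.prod_eq_mul l i h.symm]
  · rw [yy_l h, yy_i h, Units.val_inv_eq_inv_val, ch_inv D.two hx]
  · intro j _ hj
    rw [yy_o hj.1 hj.2, Units.val_one, ch_one, ite_self]
  · exact fun h' => absurd (Finset.mem_univ _) h'
  · exact fun h' => absurd (Finset.mem_univ _) h'

theorem th_one_of {a' : Fin n → Bool} {l : Fin n} {t : GL (Ix n a) F}
    (h : ∀ i, i ≠ l → (t : Matrix (Ix n a) (Ix n a) F) (ei i) (ei i) = 1) :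
    D.th a' t = if a' l = true then ch D.τ ((t : Matrix (Ix n a) (Ix n a) F) (ei l) (ei l)) else 1 := by
  unfold FD.th
  rw [Finset.prod_eq_single l]
  · intro j _ hj
    rw [h j hj, ch_one, ite_self]
  · exact fun h' => absurd (Finset.mem_univ _) h'

theorem tw_main (l : Fin n) {a' b' : Fin n → Bool}
    (h : ∀ x ∈ D.T ⊓ ⁅D.G, D.G⁆, D.th a' x = D.th b' x) : b' = a' ∨ b' = fun i => !(a' i) := by
  obtain ⟨x, hx, hx0, hc⟩ := exists_ch D.two D.τ
  have hu : D.τ ((un x : Fˣ) : F) = un x := by rw [un_val hx0, hx]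
  have key : ∀ i, i ≠ l → (xor (a' l) (a' i)) = (xor (b' l) (b' i)) := by
    intro i hi
    have h1 := h _ (tor_TH (l := l) (i := i) hu)
    rw [th_h hi hu, th_h hi hu, un_val hx0, hc] at h1
    have h3 : (-1 : ℤˣ) ≠ 1 := by decide
    cases h4 : a' l <;> cases h5 : a' i <;> cases h6 : b' l <;> cases h7 : b' i <;>
      simp_all
  by_cases hl : b' l = a' l
  · left
    funext i
    by_cases hi : i = l
    · rw [hi, hl]
    · have h1 := key i hi
      rw [hl] at h1
      cases h4 : a' l <;> cases h5 : a' i <;> cases h7 : b' i <;> simp_all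
  · right
    have hl' : b' l = !(a' l) := by
      cases h4 : a' l <;> cases h6 : b' l <;> simp_all
    funext i
    by_cases hi : i = l
    · rw [hi, hl']
    · have h1 := key i hi
      rw [hl'] at h1
      cases h4 : a' l <;> cases h5 : a' i <;> cases h7 : b' i <;> simp_all

end Th

section Om

variable {n : ℕ} {F : Type} [Field F] [Finite F] (h2 : (2 : F) ≠ 0) (τ : F ≃+* F)
  (ht : ∀ x, τ (τ x) = x)

theorem par_ok (z : F) : (∀ j : Fin 2, (![z, τ z] : Fin 2 → F) (Fin.rev j) = τ ((![z, τ z] : Fin 2 → F) j)) ∧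
    τ (-(z * τ z)) = -(z * τ z) ∧
    (((fOm n h2 τ ht).ep : Fˣ) : F) * (-(z * τ z)) + (fOm n h2 τ ht).σ (-(z * τ z)) +
      (((fOm n h2 τ ht).cm : Fˣ) : F) * ∑ j : Fin 2, (fOm n h2 τ ht).σ ((![z, τ z] : Fin 2 → F) j) *
        (![z, τ z] : Fin 2 → F) (Fin.rev j) = 0 := by
  refine ⟨?_, ?_, ?_⟩
  · intro j
    fin_cases j
    · rfl
    · exact (ht z).symm
  · rw [map_neg, map_mul, ht, mul_comm]
  · have h1 : (∑ j : Fin 2, (fOm n h2 τ ht).σ ((![z, τ z] : Fin 2 → F) j) *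
        (![z, τ z] : Fin 2 → F) (Fin.rev j)) = z * τ z + τ z * z := Fin.sum_univ_two _
    rw [h1]
    show (1 : F) * (-(z * τ z)) + (-(z * τ z)) + (1 : F) * (z * τ z + τ z * z) = 0
    ring

/-- the parameters of the root subgroup of the end node -/
def ePR : F ≃ (fOm n h2 τ ht).PR where
  toFun z := ⟨(![z, τ z], -(z * τ z)), par_ok h2 τ ht z⟩
  invFun p := p.1.1 0
  left_inv z := rfl
  right_inv p := by
    obtain ⟨⟨v, β⟩, h1, h3, h4⟩ := p
    have hv : v 1 = τ (v 0) := h1 0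
    apply Subtype.ext
    show ((![v 0, τ (v 0)] : Fin 2 → F), -(v 0 * τ (v 0))) = (v, β)
    refine Prod.ext ?_ ?_
    · show (![v 0, τ (v 0)] : Fin 2 → F) = v
      funext j
      fin_cases j
      · rfl
      · exact hv.symm
    · show -(v 0 * τ (v 0)) = β
      have h5 : (∑ j : Fin 2, (fOm n h2 τ ht).σ (v j) * v (Fin.rev j)) = v 0 * v 1 + v 1 * v 0 :=
        Fin.sum_univ_two _
      have h6 : (1 : F) * β + β + (1 : F) * (v 0 * v 1 + v 1 * v 0) = 0 := by
        rw [← h5]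
        exact h4
      rw [hv] at h6
      have h7 : (2 : F) * (β + v 0 * τ (v 0)) = 0 := by linear_combination h6
      have h8 := (mul_eq_zero.1 h7).resolve_left h2
      linear_combination -h8

theorem sum_all (h2 : (2 : F) ≠ 0) :
    ∑ᶠ z : F, (if z = 0 then (0 : ℤ) else ((ch (RingEquiv.refl F) z : ℤˣ) : ℤ)) = 0 := by
  have h := sum_ch h2 (RingEquiv.refl F)
  rw [finsum_subtype_eq_finsum_cond (f := fun x : F => ((ch (RingEquiv.refl F) x : ℤˣ) : ℤ))
    (fun x => RingEquiv.refl F x = x ∧ x ≠ 0)] at h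
  refine Eq.trans (finsum_congr fun z => ?_) h
  rw [finsum_eq_if]
  by_cases hz : z = 0
  · rw [if_pos hz, if_neg (fun h' => h'.2 hz)]
  · rw [if_neg hz, if_pos ⟨rfl, hz⟩]

theorem sum_one : ∑ᶠ z : F, (if z = 0 then (0 : ℤ) else 1) = (Nat.card F : ℤ) - 1 := by
  have := Fintype.ofFinite F
  rw [finsum_eq_sum_of_fintype]
  have h1 : ∀ z : F, (if z = 0 then (0 : ℤ) else 1) = 1 - (if z = 0 then 1 else 0) := by
    intro z
    by_cases hz : z = 0
    · rw [if_pos hz, if_pos hz, sub_self]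
    · rw [if_neg hz, if_neg hz, sub_zero]
  rw [Finset.sum_congr rfl fun z _ => h1 z, Finset.sum_sub_distrib, Finset.sum_const,
    Finset.sum_ite_eq' Finset.univ (0 : F) (fun _ => (1 : ℤ)), if_pos (Finset.mem_univ _),
    Nat.card_eq_fintype_card, Finset.card_univ, nsmul_eq_mul, mul_one]

theorem es_main (hne : ∃ x, τ x ≠ x) {k : Fin n} (hk : (k : ℕ) = 0) (a' : Fin n → Bool) :
    rsum ((fOm n h2 τ ht).R k) ((fOm n h2 τ ht).hh k) ((fOm n h2 τ ht).th a') =
      if a' k = true then 0 else (Nat.card {x : F // τ x = x} : ℤ) ^ 2 - 1 := by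
  rw [rsum_zero hk, ← finsum_comp_equiv (ePR h2 τ ht)]
  have h1 : ∀ z : F, (((ePR h2 τ ht (n := n)) z).1.2 = 0) ↔ z = 0 := by
    intro z
    show -(z * τ z) = 0 ↔ z = 0
    rw [neg_eq_zero, mul_eq_zero, map_eq_zero, or_self]
  by_cases h : a' k = true
  · rw [if_pos h]
    have h3 : ∀ z : F, (if ((ePR h2 τ ht (n := n)) z).1.2 = 0 then (0 : ℤ) else
        (((if a' k = true then ch (fOm n h2 τ ht).τ ((fOm n h2 τ ht).ep * ((ePR h2 τ ht (n := n)) z).1.2) else 1 : ℤˣ) : ℤˣ) : ℤ)) =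
        ((ch τ (-1 : F) : ℤˣ) : ℤ) * (if z = 0 then (0 : ℤ) else ((ch (RingEquiv.refl F) z : ℤˣ) : ℤ)) := by
      intro z
      by_cases hz : z = 0
      · rw [if_pos ((h1 z).2 hz), if_pos hz, mul_zero]
      · rw [if_neg (fun h' => hz ((h1 z).1 h')), if_neg hz, if_pos h]
        have h4 : ((((fOm n h2 τ ht).ep : Fˣ) : F) * ((ePR h2 τ ht (n := n)) z).1.2) = (-1) * (z * τ z) := by
          show (1 : F) * (-(z * τ z)) = _
          ring
        rw [h4]
        show ((ch τ ((-1) * (z * τ z)) : ℤˣ) : ℤ) = _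
        rw [ch_mul h2 (by rw [map_neg, map_one]) (neg_ne_zero.2 one_ne_zero)
          (by rw [map_mul, ht, mul_comm]) (mul_ne_zero hz ((map_ne_zero τ).2 hz)),
          norm_ch h2 ht hne hz, Units.val_mul]
    rw [finsum_congr h3, ← mul_finsum, sum_all h2, mul_zero]
  · rw [if_neg h]
    have h3 : ∀ z : F, (if ((ePR h2 τ ht (n := n)) z).1.2 = 0 then (0 : ℤ) else
        (((if a' k = true then ch (fOm n h2 τ ht).τ ((fOm n h2 τ ht).ep * ((ePR h2 τ ht (n := n)) z).1.2) else 1 : ℤˣ) : ℤˣ) : ℤ)) =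
        (if z = 0 then (0 : ℤ) else 1) := by
      intro z
      by_cases hz : z = 0
      · rw [if_pos ((h1 z).2 hz), if_pos hz]
      · rw [if_neg (fun h' => hz ((h1 z).1 h')), if_neg hz, if_neg h, Units.val_one]
    rw [finsum_congr h3, sum_one, card_fix ht hne, Nat.cast_pow]

theorem exists_p : ∃ p : (fOm n h2 τ ht).PR, p.1.2 ≠ 0 :=
  ⟨ePR h2 τ ht 1, by
    show -(1 * τ 1) ≠ 0
    rw [map_one, one_mul]
    exact neg_ne_zero.2 one_ne_zero⟩

theorem exists_r {k : Fin n} (hk : (k : ℕ) = 0) : ∃ r ∈ (fOm n h2 τ ht).R k, r ≠ 1 := by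
  obtain ⟨e, he⟩ := R0_equiv (D := fOm n h2 τ ht) hk
  obtain ⟨p, hp⟩ := exists_p (n := n) h2 τ ht
  refine ⟨(e.symm p : _), (e.symm p).2, fun h => ?_⟩
  have h1 := (he (e.symm p)).2.2.2 h
  rw [Equiv.apply_symm_apply] at h1
  exact hp h1

/-- the elements `g w` -/
def gw {l : Fin n} (hl : (l : ℕ) = 0) (w : F) : GL (Ix n 2) F :=
  if h : w ≠ 0 then (gw_mem h2 ht hl h).choose else 1

theorem gw_spec {l : Fin n} (hl : (l : ℕ) = 0) {w : F} (hw : w ≠ 0) :
    gw h2 τ ht hl w ∈ (fOm n h2 τ ht).T ∧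
      gw h2 τ ht hl w ∈ ⁅(fOm n h2 τ ht).G, (fOm n h2 τ ht).G⁆ ∧
      (gw h2 τ ht hl w : Matrix (Ix n 2) (Ix n 2) F) (ei l) (ei l) = w * τ w ∧
      (∀ i : Fin n, i ≠ l → (gw h2 τ ht hl w : Matrix (Ix n 2) (Ix n 2) F) (ei i) (ei i) = 1) ∧
      (gw h2 τ ht hl w : Matrix (Ix n 2) (Ix n 2) F) (mi 0) (mi 0) * τ w = w := by
  unfold gw
  rw [dif_pos hw]
  exact (gw_mem h2 ht hl hw).choose_spec

theorem gw_mul {l : Fin n} (hl : (l : ℕ) = 0) {w w' : F} (hw : w ≠ 0) (hw' : w' ≠ 0) :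
    gw h2 τ ht hl (w * w') = gw h2 τ ht hl w * gw h2 τ ht hl w' := by
  obtain ⟨a1, -, a3, a4, a5⟩ := gw_spec h2 τ ht hl hw
  obtain ⟨b1, -, b3, b4, b5⟩ := gw_spec h2 τ ht hl hw'
  obtain ⟨c1, -, c3, c4, c5⟩ := gw_spec h2 τ ht hl (mul_ne_zero hw hw')
  refine T_ext2 h2 ht c1 (Subgroup.mul_mem _ a1 b1) (fun i => ?_) ?_
  · rw [DG_mul (T_DG a1)]
    by_cases hi : i = l
    · rw [hi, c3, a3, b3, map_mul]
      ring
    · rw [c4 i hi, a4 i hi, b4 i hi, one_mul]
  · rw [DG_mul (T_DG a1)]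
    refine mul_right_cancel₀ (b := τ (w * w')) ((map_ne_zero τ).2 (mul_ne_zero hw hw')) ?_
    rw [c5, map_mul]
    linear_combination -(w' * a5 + (gw h2 τ ht hl w : Matrix (Ix n 2) (Ix n 2) F) (mi 0) (mi 0) * τ w * b5)

theorem re_main (hne : ∃ x, τ x ≠ x) (l : Fin n) (hl : (l : ℕ) = 0) {f : GL (Ix n 2) F → ℤˣ}
    (hf : ∀ x ∈ (fOm n h2 τ ht).T ⊓ ⁅(fOm n h2 τ ht).G, (fOm n h2 τ ht).G⁆,
      ∀ y ∈ (fOm n h2 τ ht).T ⊓ ⁅(fOm n h2 τ ht).G, (fOm n h2 τ ht).G⁆, f (x * y) = f x * f y) :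
    ∃ a', ∀ x ∈ (fOm n h2 τ ht).T ⊓ ⁅(fOm n h2 τ ht).G, (fOm n h2 τ ht).G⁆,
      f x = (fOm n h2 τ ht).th a' x := by
  have hτ : ∀ x, (fOm n h2 τ ht).τ x = τ x := fun _ => rfl
  have hτ' : (fOm n h2 τ ht).τ = τ := rfl
  -- the homomorphism of the elements `g w`
  have hφ := ch_hom (τ := RingEquiv.refl F) h2 (f := fun w => f (gw h2 τ ht hl w)) (by
    intro x y _ hx _ hy
    show f (gw h2 τ ht hl (x * y)) = f (gw h2 τ ht hl x) * f (gw h2 τ ht hl y)
    obtain ⟨a1, a2, -⟩ := gw_spec h2 τ ht hl hx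
    obtain ⟨b1, b2, -⟩ := gw_spec h2 τ ht hl hy
    rw [gw_mul h2 τ ht hl hx hy]
    exact hf _ ⟨a1, a2⟩ _ ⟨b1, b2⟩)
  -- the homomorphisms of the elements `h i x`
  have hψ : ∀ i : Fin n, _ := fun i =>
    ch_hom (τ := τ) h2 (f := fun x => f ((fOm n h2 τ ht).tor (yy l i (un x)))) (by
    intro x y hx hx0 hy hy0
    show f ((fOm n h2 τ ht).tor (yy l i (un (x * y)))) = f ((fOm n h2 τ ht).tor (yy l i (un x))) *
      f ((fOm n h2 τ ht).tor (yy l i (un y)))
    rw [un_mul hx0 hy0, yy_mul, tor_mul]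
    exact hf _ (tor_TH (by rw [hτ, un_val hx0, hx])) _ (tor_TH (by rw [hτ, un_val hy0, hy])))
  have hφ' : ∃ b : Bool, ∀ w, w ≠ 0 → f (gw h2 τ ht hl w) =
      if b = true then ch (RingEquiv.refl F) w else 1 := by
    rcases hφ with h | h
    · exact ⟨false, fun w hw => h w rfl hw⟩
    · exact ⟨true, fun w hw => h w rfl hw⟩
  have hψ' : ∀ i : Fin n, ∃ b : Bool, ∀ x, τ x = x → x ≠ 0 →
      f ((fOm n h2 τ ht).tor (yy l i (un x))) = if b = true then ch τ x else 1 := by
    intro i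
    rcases hψ i with h | h
    · exact ⟨false, fun x hx hx0 => h x hx hx0⟩
    · exact ⟨true, fun x hx hx0 => h x hx hx0⟩
  obtain ⟨b₀, hb₀⟩ := hφ'
  choose b hb using hψ'
  refine ⟨fun i => if i = l then b₀ else xor b₀ (b i), ?_⟩
  set a' : Fin n → Bool := fun i => if i = l then b₀ else xor b₀ (b i) with ha'
  have hal : a' l = b₀ := if_pos rfl
  have hai : ∀ i, i ≠ l → a' i = xor b₀ (b i) := fun i hi => if_neg hi
  have main : ∀ (s : Finset (Fin n)) (t : GL (Ix n 2) F),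
      t ∈ (fOm n h2 τ ht).T ⊓ ⁅(fOm n h2 τ ht).G, (fOm n h2 τ ht).G⁆ →
      (∀ i, i ≠ l → i ∉ s → (t : Matrix (Ix n 2) (Ix n 2) F) (ei i) (ei i) = 1) →
      f t = (fOm n h2 τ ht).th a' t := by
    intro s
    induction s using Finset.induction_on with
    | empty =>
      intro t htm h1
      have h1' : ∀ i : Fin n, i ≠ l → (t : Matrix (Ix n 2) (Ix n 2) F) (ei i) (ei i) = 1 :=
        fun i hi => h1 i hi (Finset.notMem_empty i)
      obtain ⟨w, hw, h3, h4⟩ := T_H h2 ht hne hl htm.1 htm.2 h1'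
      obtain ⟨a1, a2, a3, a4, a5⟩ := gw_spec h2 τ ht hl hw
      have h5 : t = gw h2 τ ht hl w := by
        refine T_ext2 h2 ht htm.1 a1 (fun i => ?_) ?_
        · by_cases hi : i = l
          · rw [hi, h3, a3]
          · rw [h1' i hi, a4 i hi]
        · refine mul_right_cancel₀ (b := τ w) ((map_ne_zero τ).2 hw) ?_
          rw [h4, a5]
      rw [th_one_of h1', h3, h5, hb₀ w hw, hal, hτ', norm_ch h2 ht hne hw]
    | insert i s hi ih =>
      intro t htm h1
      by_cases hil : i = l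
      · refine ih t htm fun j hj hjs => h1 j hj ?_
        rw [Finset.mem_insert, not_or]
        exact ⟨fun h => hj (h.trans hil), hjs⟩
      · set x : F := (t : Matrix (Ix n 2) (Ix n 2) F) (ei i) (ei i) with hx
        have hx0 : x ≠ 0 := DG_ne (T_DG htm.1) _
        have hxt : τ x = x := T_tau htm.1 i
        have hu : (fOm n h2 τ ht).τ ((un x : Fˣ) : F) = un x := by rw [hτ, un_val hx0, hxt]
        have hm := tor_TH (l := l) (i := i) hu
        have hm' := Subgroup.inv_mem _ hm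
        have h3 : t = (fOm n h2 τ ht).tor (yy l i (un x)) *
            (((fOm n h2 τ ht).tor (yy l i (un x)))⁻¹ * t) := by group
        have h4 := Subgroup.mul_mem _ hm' htm
        have h5 : f (((fOm n h2 τ ht).tor (yy l i (un x)))⁻¹ * t) =
            (fOm n h2 τ ht).th a' (((fOm n h2 τ ht).tor (yy l i (un x)))⁻¹ * t) := by
          refine ih _ h4 fun j hj hjs => ?_
          rw [DG_mul (T_DG hm'.1), DG_inv (T_DG hm.1), tor_e]
          by_cases hji : j = i
          · rw [hji, yy_i hil, un_val hx0, ← hx, inv_mul_cancel₀ hx0]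
          · rw [yy_o hj hji, Units.val_one, inv_one, one_mul]
            refine h1 j hj ?_
            rw [Finset.mem_insert, not_or]
            exact ⟨hji, hjs⟩
        have h6 : f ((fOm n h2 τ ht).tor (yy l i (un x))) =
            (fOm n h2 τ ht).th a' ((fOm n h2 τ ht).tor (yy l i (un x))) := by
          rw [hb i x hxt hx0, th_h hil hu, hal, hai i hil, hτ', un_val hx0]
          have h7 : ch τ x * ch τ x = 1 := Int.units_mul_self _
          cases b₀ <;> cases b i <;> simp [h7]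
        rw [h3, hf _ hm _ h4, h5, h6, th_mul a' hm.1 h4.1]
  intro t htm
  exact main Finset.univ t htm fun i _ hi => absurd (Finset.mem_univ i) hi

end Om

end P13_aux

/-- the data of the orthogonal group of minus type in dimension `2 n + 2` -/
def kOm {n : ℕ} (hn : 1 ≤ n) {F : Type} [Field F] [Finite F] (h2 : (2 : F) ≠ 0) (τ : F ≃+* F)
    (ht : ∀ x, τ (τ x) = x) (hne : ∃ x, τ x ≠ x) : (fOm n h2 τ ht).KD where
  H := ⁅(fOm n h2 τ ht).G, (fOm n h2 τ ht).G⁆
  gd := true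
  su := fun b => if b = true then 0 else (Nat.card {x : F // τ x = x} : ℤ) ^ 2 - 1
  nt := if h : ∃ r ∈ (fOm n h2 τ ht).R ⟨0, by omega⟩, r ≠ 1 then
    (fOm n h2 τ ht).s ⟨0, by omega⟩ * (fOm n h2 τ ht).hh ⟨0, by omega⟩ h.choose else 1
  HG := comm_le
  hN := comm_normal
  UH := U_comm rfl
  HT := HT_of comm_le comm_normal (U_comm rfl) (P13_aux.exists_p h2 τ ht)
  es := fun k hk a' => P13_aux.es_main h2 τ ht hne hk a'
  ze1 := fun _ => ch_one
  ze2 := fun h => absurd h (by decide)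
  ntN := fun k hk => by
    have h := P13_aux.exists_r (n := n) (k := ⟨0, by omega⟩) h2 τ ht rfl
    have hk' : k = ⟨0, by omega⟩ := Fin.ext hk
    refine ⟨(fOm n h2 τ ht).hh ⟨0, by omega⟩ h.choose,
      (hh_zero rfl h.choose_spec.1 h.choose_spec.2).1, ?_⟩
    rw [dif_pos h, hk']
  ntH := by
    have h := P13_aux.exists_r (n := n) (k := ⟨0, by omega⟩) h2 τ ht rfl
    rw [dif_pos h]
    exact nt_mem comm_normal (U_comm rfl) rfl h.choose_spec.1 h.choose_spec.2
      (s_sq_one rfl (Or.inl rfl) _)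
  re := fun f hf => Or.inl (P13_aux.re_main h2 τ ht hne ⟨0, by omega⟩ rfl hf)
  tw := fun a' b' h => P13_aux.tw_main (⟨0, by omega⟩ : Fin n) h

end

end AO.MG
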