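import Pool.Agent.AO.P13
import Pool.Agent.AO.G01
import Pool.Agent.AO.Z01

/-!
# MP_6c3636_al, AO, module P14: (A) and (B) for orthogonal groups of minus type (helper7)

`X = (kOm ..).bn`, `B = X.toBN`, `k = ℚ`, `q` = the cardinality of the fixed field of `τ` (`card_odd`). `P`: `q`, `e = 1`, `j = (0, -2, -1, -1)`, `w = 1`. `Fit`: `card`: `card_in`, `card_R_pos`; `Nat.card (R 0) = q ^ 2` (`card_zero`, `PR` in bijection with `F`, `card_fix`); `sum`: `q ^ 2 * (1 - q ^ (-2)) = q ^ 2 - 1`, `q ^ 2 * (q⁻¹ - q⁻¹) = 0`; `prod`: `q ^ 2 * (- q ^ (-2)) = -1` (both). `half`: first alternative: `gw_mem` with `ch refl w = -1`: `ch τ (w τ(w)) = -1` (`norm_ch`). `FixOK`: `R₀ = 1`.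
-/

namespace AO.MG

noncomputable section

open Classical Equiv Matrix

open AN (sq)


namespace P14_aux

/-- the parameters -/
def par {F : Type} [Field F] [Finite F] (h2 : (2 : F) ≠ 0) (τ : F ≃+* F) : Par ℚ where
  q := Nat.card {x : F // τ x = x}
  e := 1
  j := ![0, -2, -1, -1]
  w := fun _ => 1
  three := (card_odd h2 τ).2
  odd := (card_odd h2 τ).1
  pos := Nat.one_pos
  ne := fun _ => one_ne_zero

theorem par_r {F : Type} [Field F] [Finite F] (h2 : (2 : F) ≠ 0) (τ : F ≃+* F) (y : Ty) :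
    (par h2 τ).r y = ((sg y : ℤ) : ℚ) * (Nat.card {x : F // τ x = x} : ℚ) ^ ((![0, -2, -1, -1] : Fin 4 → ℤ) y) := by
  show (1 : ℚ) * ((sg y : ℤ) : ℚ) * (Nat.card {x : F // τ x = x} : ℚ) ^ ((![0, -2, -1, -1] : Fin 4 → ℤ) y) = _
  rw [one_mul]

theorem card_PR {n : ℕ} {F : Type} [Field F] [Finite F] (h2 : (2 : F) ≠ 0) (τ : F ≃+* F)
    (ht : ∀ x, τ (τ x) = x) : Nat.card (fOm n h2 τ ht).PR = Nat.card F := by
  refine Nat.card_eq_of_bijective (fun p : (fOm n h2 τ ht).PR => p.1.1 0) ⟨?_, ?_⟩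
  · intro p p' h
    have h0 : p.1.1 0 = p'.1.1 0 := h
    have h1 : p.1.1 1 = τ (p.1.1 0) := p.2.1 0
    have h1' : p'.1.1 1 = τ (p'.1.1 0) := p'.2.1 0
    have e1 : p.1.1 = p'.1.1 := by
      ext j
      fin_cases j
      · exact h0
      · show p.1.1 1 = p'.1.1 1
        rw [h1, h1', h0]
    have h3 : (1 : F) * p.1.2 + p.1.2 + 1 * ∑ j, p.1.1 j * p.1.1 (Fin.rev j) = 0 := p.2.2.2
    have h3' : (1 : F) * p'.1.2 + p'.1.2 + 1 * ∑ j, p'.1.1 j * p'.1.1 (Fin.rev j) = 0 := p'.2.2.2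
    rw [e1] at h3
    have h4 : (2 : F) * (p.1.2 - p'.1.2) = 0 := by linear_combination h3 - h3'
    have e2 : p.1.2 = p'.1.2 := sub_eq_zero.1 ((mul_eq_zero.1 h4).resolve_left h2)
    exact Subtype.ext (Prod.ext e1 e2)
  · intro z
    refine ⟨⟨(![z, τ z], -(z * τ z)), ?_, ?_, ?_⟩, rfl⟩
    · intro j
      fin_cases j
      · rfl
      · exact (ht z).symm
    · show τ (-(z * τ z)) = -(z * τ z)
      rw [map_neg, map_mul, ht, mul_comm]
    · show (1 : F) * (-(z * τ z)) + (-(z * τ z)) + 1 * ∑ j : Fin 2, (![z, τ z] : Fin 2 → F) j *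
        (![z, τ z] : Fin 2 → F) (Fin.rev j) = 0
      rw [Fin.sum_univ_two]
      show (1 : F) * (-(z * τ z)) + (-(z * τ z)) + 1 * (z * τ z + τ z * z) = 0
      ring

section

variable {n : ℕ} (hn : 1 ≤ n) {F : Type} [Field F] [Finite F] (h2 : (2 : F) ≠ 0) (τ : F ≃+* F)
    (ht : ∀ x, τ (τ x) = x) (hne : ∃ x, τ x ≠ x) {p : ℕ} [CharP F p] (hp : p.Prime) (ho : Odd p)

theorem card_l {l : Fin n} (hl : 0 < (l : ℕ)) :
    Nat.card (((kOm hn h2 τ ht hne).bn hp ho).toBN.R l) = Nat.card {x : F // τ x = x} := by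
  rw [card_in]
  exact card_R_pos (D := fOm n h2 τ ht) hl

theorem card_0 {l : Fin n} (hl : (l : ℕ) = 0) :
    Nat.card (((kOm hn h2 τ ht hne).bn hp ho).toBN.R l) = Nat.card {x : F // τ x = x} ^ 2 := by
  rw [card_in]
  have h1 := card_zero (D := fOm n h2 τ ht) hl
  rw [card_PR, card_fix ht hne] at h1
  exact h1

theorem half : ∃ x ∈ ((kOm hn h2 τ ht hne).bn hp ho).toBN.T ⊓ ((kOm hn h2 τ ht hne).bn hp ho).toBN.H,
    ((kOm hn h2 τ ht hne).bn hp ho).toBN.th (fun _ => true) x ≠ 1 := by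
  obtain ⟨w, -, hw0, hw⟩ := exists_ch h2 (RingEquiv.refl F)
  obtain ⟨t, hT, hH, h1, h3, -⟩ := gw_mem (n := n) h2 ht (l := ⟨0, hn⟩) rfl hw0
  refine ⟨⟨t, hT.1⟩, Subgroup.mem_inf.2 ⟨Subgroup.mem_subgroupOf.2 hT, Subgroup.mem_subgroupOf.2 hH⟩, ?_⟩
  have h4 : (fOm n h2 τ ht).th (fun _ => true) t = -1 := by
    show (∏ i : Fin n, if (true = true) then ch τ ((t : Matrix (Ix n 2) (Ix n 2) F) (ei i) (ei i)) else 1) = -1
    rw [Finset.prod_eq_single (⟨0, hn⟩ : Fin n)]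
    · rw [if_pos rfl, h1, norm_ch h2 ht hne hw0, hw]
    · intro i _ hi
      rw [if_pos rfl, h3 i hi, ch_one]
    · intro h
      exact absurd (Finset.mem_univ _) h
  intro h5
  have h6 : (fOm n h2 τ ht).th (fun _ => true) t = 1 := h5
  rw [h4] at h6
  exact absurd h6 (by decide)

theorem fit : Fit ((kOm hn h2 τ ht hne).bn hp ho).toBN (par h2 τ) where
  card l hl := by
    rw [card_l hn h2 τ ht hne hp ho hl]
    exact (pow_one _).symm
  sum b _ i hi := by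
    have hq : ((Nat.card {x : F // τ x = x} : ℕ) : ℚ) ≠ 0 := by
      have := (card_odd h2 τ).2
      positivity
    rw [card_0 hn h2 τ ht hne hp ho hi, par_r, par_r]
    cases b
    · show _ = (((Nat.card {x : F // τ x = x} : ℤ) ^ 2 - 1 : ℤ) : ℚ)
      show ((Nat.card {x : F // τ x = x} ^ 2 : ℕ) : ℚ) * (((1 : ℤ) : ℚ) * (Nat.card {x : F // τ x = x} : ℚ) ^ (0 : ℤ) +
        ((-1 : ℤ) : ℚ) * (Nat.card {x : F // τ x = x} : ℚ) ^ (-2 : ℤ)) = _
      push_cast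
      rw [_root_.zpow_neg, _root_.zpow_zero]
      field_simp
      ring
    · show _ = ((0 : ℤ) : ℚ)
      show ((Nat.card {x : F // τ x = x} ^ 2 : ℕ) : ℚ) * (((1 : ℤ) : ℚ) * (Nat.card {x : F // τ x = x} : ℚ) ^ (-1 : ℤ) +
        ((-1 : ℤ) : ℚ) * (Nat.card {x : F // τ x = x} : ℚ) ^ (-1 : ℤ)) = _
      push_cast
      ring
  prod b _ i hi := by
    have hq : ((Nat.card {x : F // τ x = x} : ℕ) : ℚ) ≠ 0 := by
      have := (card_odd h2 τ).2
      positivity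
    rw [card_0 hn h2 τ ht hne hp ho hi, par_r, par_r]
    cases b
    · show ((Nat.card {x : F // τ x = x} ^ 2 : ℕ) : ℚ) * ((((1 : ℤ) : ℚ) * (Nat.card {x : F // τ x = x} : ℚ) ^ (0 : ℤ)) *
        (((-1 : ℤ) : ℚ) * (Nat.card {x : F // τ x = x} : ℚ) ^ (-2 : ℤ))) = _
      push_cast
      rw [_root_.zpow_neg, _root_.zpow_zero]
      field_simp
    · show ((Nat.card {x : F // τ x = x} ^ 2 : ℕ) : ℚ) * ((((1 : ℤ) : ℚ) * (Nat.card {x : F // τ x = x} : ℚ) ^ (-1 : ℤ)) *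
        (((-1 : ℤ) : ℚ) * (Nat.card {x : F // τ x = x} : ℚ) ^ (-1 : ℤ))) = _
      push_cast
      rw [_root_.zpow_neg, _root_.zpow_one]
      field_simp
  half := Or.inl (half hn h2 τ ht hne hp ho)

theorem fixOK (Ω : Type) [Field Ω] [CharZero Ω] : FixOK Ω ((kOm hn h2 τ ht hne).bn hp ho).toBN ℚ := by
  refine ⟨1, odd_one, fun σ _ => ⟨fun x => ?_, fun h => ?_⟩⟩
  · rw [eq_ratCast, map_ratCast]
  · exact absurd h.symm Bool.false_ne_true

end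

end P14_aux

variable {Ω : Type} [Field Ω] [IsAlgClosed Ω] [CharZero Ω] {c : Parker.Ctx Ω}

theorem om_propA {n : ℕ} (hn : 1 ≤ n) {F : Type} [Field F] [Finite F] (h2 : (2 : F) ≠ 0) (τ : F ≃+* F)
    (ht : ∀ x, τ (τ x) = x) (hne : ∃ x, τ x ≠ x) :
    Parker.PropA c 1 (⁅(fOm n h2 τ ht).G, (fOm n h2 τ ht).G⁆ : Subgroup (GL (Ix n 2) F)) := by
  obtain ⟨p, hc, hp, ho⟩ := char_odd h2
  exact propA_in ((kOm hn h2 τ ht hne).bn hp ho)
    (bn_propA (P14_aux.fit hn h2 τ ht hne hp ho) hn (P14_aux.fixOK hn h2 τ ht hne hp ho Ω))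

theorem om_propB {n : ℕ} (hn : 1 ≤ n) {F : Type} [Field F] [Finite F] (h2 : (2 : F) ≠ 0) (τ : F ≃+* F)
    (ht : ∀ x, τ (τ x) = x) (hne : ∃ x, τ x ≠ x) :
    Parker.PropB c 1 (⁅(fOm n h2 τ ht).G, (fOm n h2 τ ht).G⁆ : Subgroup (GL (Ix n 2) F)) := by
  obtain ⟨p, hc, hp, ho⟩ := char_odd h2
  exact propB_in ((kOm hn h2 τ ht hne).bn hp ho)
    (bn_propB (P14_aux.fit hn h2 τ ht hne hp ho) hn (P14_aux.fixOK hn h2 τ ht hne hp ho Ω))

end

end AO.MG
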