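import Pool.Agent.AO.QDefs

/-!
# MP_6c3636_al, AO, module Q01: type D: weights (helper7)

As W01 (AO/W01.lean; read its proofs and adapt them; they do not use `HT`), with `X.H` for `B.H`. `s0U`: for `u ∈ U`: `u = c * r` (`B.CR`), `r = 1` (`X.R0`), `B.sC`. `cover`: the set of the `h x`, `h x s₀` (`h ∈ X.H`, `x ∈ T`): given `g` choose `x ∈ {1, x₀}` and `ε ∈ {1, s₀}` with `X.l x = X.l g`, `X.d ε = X.d g` (`exists_T`: `x₀ ∈ T` with `X.l x₀ = -1`: `exists_neg` of H01 or `B.thd` for `fun _ => true`, `fun _ => false`, `n > 0`). `wt_N`: `m ∈ N ⊓ X.H`. `wt_conj`: the span of the `e m` (weight space) for `m ∈ N ⊓ X.H`; every `g ∈ X.H` is `u m u'` with `m ∈ N`, and `m ∈ X.H`.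
-/

namespace AO

noncomputable section

open Classical Equiv

open AN (sq)

namespace Q01_aux

section Wt

variable {Ω : Type} [Field Ω] [IsAlgClosed Ω] [CharZero Ω] {G : Type} [Group G] [Finite G] {n : ℕ} {B : BN G n}
  {X : BD B}  {V : Type} [AddCommGroup V] [Module Ω V] [FiniteDimensional Ω V] {ρ : Representation Ω X.H V}

/-- the torus of `H` -/
abbrev A (X : BD B) : Type := {x : G // x ∈ B.T ⊓ X.H}

/-- the operators of the torus of `H` -/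
def ff (ρ : Representation Ω X.H V) (a : A X) : Module.End Ω V := ρ ⟨a.1, a.2.2⟩

/-- extension by zero -/
def ext (X : BD B) (χ : A X → Ω) : G → Ω := fun x => if h : x ∈ B.T ⊓ X.H then χ ⟨x, h⟩ else 0

omit [IsAlgClosed Ω] [CharZero Ω] [Finite G] in
theorem ext_apply (χ : A X → Ω) (a : A X) : ext X χ a.1 = χ a := by
  unfold ext
  rw [dif_pos a.2]

omit [IsAlgClosed Ω] [CharZero Ω] [Finite G] in
theorem ext_of (χ : A X → Ω) {x : G} (h : x ∈ B.T ⊓ X.H) : ext X χ x = χ ⟨x, h⟩ := by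
  unfold ext
  rw [dif_pos h]

omit [IsAlgClosed Ω] [CharZero Ω] [FiniteDimensional Ω V] in
theorem mem_wt {f : G → Ω} {v : V} :
    v ∈ X.wt ρ f ↔ X.eH ρ v = v ∧ ∀ a : A X, ff ρ a v = f a.1 • v :=
  ⟨fun h => ⟨h.1, fun a => h.2 a.1 a.2.2 a.2.1⟩, fun h => ⟨h.1, fun x hx hT => h.2 ⟨x, hT, hx⟩⟩⟩

omit [IsAlgClosed Ω] [CharZero Ω] [FiniteDimensional Ω V] in
theorem ff_comm (a b : A X) : Commute (ff ρ a) (ff ρ b) := by
  show ρ _ * ρ _ = ρ _ * ρ _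
  rw [← map_mul, ← map_mul]
  congr 1
  exact Subtype.ext (B.Tc a.1 a.2.1 b.1 b.2.1)

omit [IsAlgClosed Ω] [CharZero Ω] [FiniteDimensional Ω V] in
theorem ff_pow (a : A X) : ff ρ a ^ Nat.card X.H = 1 := by
  show ρ _ ^ _ = 1
  rw [← map_pow, pow_card_eq_one', map_one]

omit [IsAlgClosed Ω] [CharZero Ω] [FiniteDimensional Ω V] in
theorem eH_comm (a : A X) (v : V) : X.eH ρ (ff ρ a v) = ff ρ a (X.eH ρ v) := by
  have h := Parker.P15_aux.act_comm ρ (g := ⟨a.1, a.2.2⟩)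
    (s := fun g => if g ∈ B.U.subgroupOf X.H then (Nat.card (B.U.subgroupOf X.H) : Ω)⁻¹ else 0) (by
      intro x
      have h1 : (⟨a.1, a.2.2⟩ * x * ⟨a.1, a.2.2⟩⁻¹ ∈ B.U.subgroupOf X.H) ↔ x ∈ B.U.subgroupOf X.H := by
        rw [Subgroup.mem_subgroupOf, Subgroup.mem_subgroupOf]
        have e : ((⟨a.1, a.2.2⟩ * x * ⟨a.1, a.2.2⟩⁻¹ : X.H) : G) = a.1 * (x : G) * a.1⁻¹ := rfl
        rw [e]
        constructor
        · intro hx
          have h2 := B.TU a.1⁻¹ (B.T.inv_mem a.2.1) _ hx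
          have h3 : a.1⁻¹ * (a.1 * (x : G) * a.1⁻¹) * a.1⁻¹⁻¹ = x := by group
          rwa [h3] at h2
        · exact B.TU a.1 a.2.1 _
      simp only [h1])
  exact (congrArg (fun T : Module.End Ω V => T v) h).symm

end Wt

end Q01_aux

variable {Ω : Type} [Field Ω] [IsAlgClosed Ω] [CharZero Ω] {G : Type} [Group G] [Finite G] {n : ℕ} {B : BN G n}
  {X : BD B} {V : Type} [AddCommGroup V] [Module Ω V] [FiniteDimensional Ω V] {ρ : Representation Ω X.H V}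

theorem s0U {i : Fin n} (hi : (i : ℕ) = 0) (X : BD B) : ∀ u ∈ B.U, B.s i * u * (B.s i)⁻¹ ∈ B.U := by
  intro u hu
  obtain ⟨c, hc, r, hr, rfl⟩ := B.CR i u hu
  rw [X.R0 i hi] at hr
  rw [(Subgroup.mem_bot.1 hr), mul_one]
  exact B.sC i c hc

theorem exists_T (X : BD B) : ∃ x ∈ B.T, X.l x = -1 :=
  exists_neg (by have := X.n2; omega) X.lT

theorem cover (X : BD B) (g : G) {i : Fin n} (hi : (i : ℕ) = 0) : ∃ h ∈ X.H, ∃ x ∈ B.T,
    g = h * x ∨ g = h * (x * B.s i) := by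
  obtain ⟨x, hx, hlx⟩ : ∃ x ∈ B.T, X.l x = X.l g := by
    rcases Int.units_eq_one_or (X.l g) with h | h
    · exact ⟨1, B.T.one_mem, by rw [map_one, h]⟩
    · obtain ⟨x, hx, h1⟩ := exists_T X
      exact ⟨x, hx, by rw [h1, h]⟩
  rcases Int.units_eq_one_or (X.d g) with h | h
  · refine ⟨g * x⁻¹, (X.mem _).2 ⟨?_, ?_⟩, x, hx, Or.inl (by group)⟩
    · rw [map_mul, map_inv, X.dT x hx, h]
      rfl
    · rw [map_mul, map_inv, hlx, mul_inv_cancel]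
  · refine ⟨g * (x * B.s i)⁻¹, (X.mem _).2 ⟨?_, ?_⟩, x, hx, Or.inr (by group)⟩
    · rw [map_mul, map_inv, map_mul, X.dT x hx, X.d0 i hi, h]
      rfl
    · rw [map_mul, map_inv, map_mul, X.l0 i hi, hlx, mul_one, mul_inv_cancel]

theorem X_Nm (X : BD B) {g : G} (hg : g ∈ X.H) : ∃ u ∈ B.U, ∃ m ∈ B.N, ∃ u' ∈ B.U, g = u * m * u' ∧
    m ∈ X.H := by
  obtain ⟨u, hu, m, hm, u', hu', h⟩ := B.br g
  refine ⟨u, hu, m, hm, u', hu', h, ?_⟩
  have h1 : m = u⁻¹ * g * u'⁻¹ := by rw [h]; group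
  rw [h1]
  exact X.H.mul_mem (X.H.mul_mem (X.H.inv_mem (X.UH hu)) hg) (X.H.inv_mem (X.UH hu'))

theorem eX_fix {v : V} : X.eH ρ v = v ↔ ∀ u (hu : u ∈ B.U), ρ ⟨u, X.UH hu⟩ v = v := by
  unfold BD.eH
  rw [eU_fix]
  constructor
  · intro h u hu
    exact h ⟨u, X.UH hu⟩ (Subgroup.mem_subgroupOf.2 hu)
  · rintro h ⟨u, hu⟩ hu'
    exact h u (Subgroup.mem_subgroupOf.1 hu')

theorem wtX_congr {f g : G → Ω} (h : ∀ x ∈ B.T ⊓ X.H, f x = g x) : X.wt ρ f = X.wt ρ g := by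
  ext v
  rw [Q01_aux.mem_wt, Q01_aux.mem_wt]
  refine and_congr_right fun _ => forall_congr' fun a => ?_
  rw [h a.1 a.2]

theorem wtX_mult {f : G → Ω} (h : X.wt ρ f ≠ ⊥) :
    (∀ x ∈ B.T ⊓ X.H, ∀ y ∈ B.T ⊓ X.H, f (x * y) = f x * f y) ∧ ∀ x ∈ B.T ⊓ X.H,
      f x ^ Nat.card G = 1 := by
  obtain ⟨v, hv, hv0⟩ := (Submodule.ne_bot_iff _).1 h
  have h1 : ∀ x (hx : x ∈ B.T ⊓ X.H), ρ ⟨x, hx.2⟩ v = f x • v := fun x hx => hv.2 x hx.2 hx.1
  have hcancel : ∀ a b : Ω, a • v = b • v → a = b := fun a b hab => by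
    have h2 : (a - b) • v = 0 := by rw [sub_smul, hab, sub_self]
    rcases smul_eq_zero.1 h2 with h3 | h3
    · exact sub_eq_zero.1 h3
    · exact absurd h3 hv0
  constructor
  · intro x hx y hy
    apply hcancel
    rw [← h1 _ ((B.T ⊓ X.H).mul_mem hx hy)]
    have e : (⟨x * y, ((B.T ⊓ X.H).mul_mem hx hy).2⟩ : X.H) = ⟨x, hx.2⟩ * ⟨y, hy.2⟩ := rfl
    rw [e, map_mul, Module.End.mul_apply, h1 y hy, map_smul, h1 x hx, smul_smul, mul_comm]
  · intro x hx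
    apply hcancel
    have h2 : ∀ m : ℕ, (ρ ⟨x, hx.2⟩ ^ m) v = f x ^ m • v := by
      intro m
      induction m with
      | zero => rw [pow_zero, pow_zero, one_smul]; rfl
      | succ m ih =>
        rw [pow_succ, Module.End.mul_apply, h1 x hx, map_smul, ih, smul_smul, pow_succ, mul_comm]
    rw [← h2, ← map_pow]
    have e : (⟨x, hx.2⟩ : X.H) ^ Nat.card G = 1 := by
      refine Subtype.ext ?_
      rw [Subgroup.coe_pow, pow_card_eq_one', Subgroup.coe_one]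
    rw [e, map_one, one_smul]
    rfl

theorem wtX_sup {W : Submodule Ω V} (h : ∀ f, X.wt ρ f ≤ W) : LinearMap.range (X.eH ρ) ≤ W := by
  have h1 : (⊤ : Submodule Ω V) ≤ W.comap (X.eH ρ) := by
    rw [← W01_aux.joint_top (f := Q01_aux.ff ρ) Q01_aux.ff_comm]
    refine iSup_le fun χ v hv => ?_
    rw [W01_aux.mem_joint Nat.card_pos.ne' Q01_aux.ff_pow] at hv
    show X.eH ρ v ∈ W
    refine h (Q01_aux.ext X χ) ?_
    rw [Q01_aux.mem_wt]
    refine ⟨?_, fun a => ?_⟩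
    · exact congrArg (fun T : Module.End Ω V => T v) (eU_idem (ρ := ρ) (U := B.U.subgroupOf X.H))
    · rw [← Q01_aux.eH_comm, hv a, map_smul, Q01_aux.ext_apply]
  rintro _ ⟨v, rfl⟩
  exact h1 Submodule.mem_top

theorem wtX_N {m : G} (hm : m ∈ B.N) (hH : m ∈ X.H) {f : G → Ω} {v : V} (hv : v ∈ X.wt ρ f) :
    X.eH ρ (ρ ⟨m, hH⟩ v) ∈ X.wt ρ (fun x => f (m⁻¹ * x * m)) := by
  rw [Q01_aux.mem_wt]
  refine ⟨?_, fun a => ?_⟩
  · exact congrArg (fun T : Module.End Ω V => T (ρ ⟨m, hH⟩ v))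
      (eU_idem (ρ := ρ) (U := B.U.subgroupOf X.H))
  · rw [← Q01_aux.eH_comm]
    have hT : m⁻¹ * a.1 * m ∈ B.T := by
      have h1 := (N_T (B := B) (B.N.inv_mem hm) (x := a.1)).2 a.2.1
      rwa [inv_inv] at h1
    have hH' : m⁻¹ * a.1 * m ∈ X.H := by
      have h1 := X.normal.conj_mem a.1 a.2.2 m⁻¹
      rwa [inv_inv] at h1
    have e : (⟨a.1, a.2.2⟩ : X.H) * ⟨m, hH⟩ = ⟨m, hH⟩ * ⟨m⁻¹ * a.1 * m, hH'⟩ := by
      refine Subtype.ext ?_
      show a.1 * m = m * (m⁻¹ * a.1 * m)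
      group
    have e2 : Q01_aux.ff ρ a (ρ ⟨m, hH⟩ v) = f (m⁻¹ * a.1 * m) • ρ ⟨m, hH⟩ v := by
      show (ρ ⟨a.1, a.2.2⟩ * ρ ⟨m, hH⟩) v = _
      rw [← map_mul, e, map_mul, Module.End.mul_apply, hv.2 _ hH' hT, map_smul]
    rw [e2, map_smul]

theorem wtX_conj (hρ : ρ.IsIrreducible) {f f' : G → Ω} (h : X.wt ρ f ≠ ⊥) (h' : X.wt ρ f' ≠ ⊥) :
    ∃ m ∈ B.N, m ∈ X.H ∧ ∀ x ∈ B.T ⊓ X.H, f' x = f (m⁻¹ * x * m) := by
  by_contra hno
  push Not at hno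
  set W : Submodule Ω V := ⨆ m : {m : G // m ∈ B.N ∧ m ∈ X.H},
    X.wt ρ (fun x => f ((m : G)⁻¹ * x * m)) with hW
  have hle : ∀ (m : G) (h1 : m ∈ B.N) (h2 : m ∈ X.H),
      X.wt ρ (fun x => f (m⁻¹ * x * m)) ≤ W := fun m h1 h2 =>
    le_iSup (fun m : {m : G // m ∈ B.N ∧ m ∈ X.H} => X.wt ρ (fun x => f ((m : G)⁻¹ * x * m)))
      ⟨m, h1, h2⟩
  have hf : X.wt ρ f ≤ W := by
    have h1 := hle 1 B.N.one_mem X.H.one_mem
    simpa using h1
  -- `W` is stable under the operators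
  have hst : ∀ g : X.H, ∀ w ∈ W, X.eH ρ (ρ g w) ∈ W := by
    intro g w hw
    obtain ⟨u, hu, m, hm, u', hu', hg⟩ := B.br g
    have hmH : m ∈ X.H := by
      have h1 : m = u⁻¹ * (g : G) * u'⁻¹ := by rw [hg]; group
      rw [h1]
      exact X.H.mul_mem (X.H.mul_mem (X.H.inv_mem (X.UH hu)) g.2) (X.H.inv_mem (X.UH hu'))
    have hg' : g = ⟨u, X.UH hu⟩ * ⟨m, hmH⟩ * ⟨u', X.UH hu'⟩ := Subtype.ext hg
    have hcomap : W ≤ W.comap (X.eH ρ * ρ g) := by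
      conv_lhs => rw [hW]
      refine iSup_le fun m' w hw => ?_
      show X.eH ρ (ρ g w) ∈ W
      have h1 : ρ g w = ρ ⟨u, X.UH hu⟩ (ρ ⟨m, hmH⟩ w) := by
        rw [hg', map_mul, map_mul, Module.End.mul_apply, Module.End.mul_apply,
          eX_fix.1 hw.1 u' hu']
      have h2 : X.eH ρ (ρ g w) = X.eH ρ (ρ ⟨m, hmH⟩ w) := by
        rw [h1]
        have h3 := (eU_mul (ρ := ρ) (U := B.U.subgroupOf X.H) (u := ⟨u, X.UH hu⟩)
          (Subgroup.mem_subgroupOf.2 hu)).2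
        exact congrArg (fun T : Module.End Ω V => T (ρ ⟨m, hmH⟩ w)) h3
      rw [h2]
      have h4 := wtX_N hm hmH hw
      refine hle (m * m') (B.N.mul_mem hm m'.2.1) (X.H.mul_mem hmH m'.2.2) ?_
      have e : (fun x => f ((m * (m' : G))⁻¹ * x * (m * m'))) =
          fun x => f ((m' : G)⁻¹ * (m⁻¹ * x * m) * m') := by
        funext x
        congr 1
        group
      rw [e]
      exact h4
    exact hcomap hw
  -- the subspace generated by the `ρ g W`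
  set S : Submodule Ω V := Submodule.span Ω {v | ∃ (g : X.H) (w : V), w ∈ W ∧ v = ρ g w} with hS
  have hSst : ∀ g, ∀ v ∈ S, ρ g v ∈ S := by
    intro g v hv
    have h1 : S ≤ S.comap (ρ g) := by
      conv_lhs => rw [hS]
      rw [Submodule.span_le]
      rintro _ ⟨g', w, hw, rfl⟩
      show ρ g (ρ g' w) ∈ S
      refine Submodule.subset_span ⟨g * g', w, hw, ?_⟩
      rw [map_mul, Module.End.mul_apply]
    exact h1 hv
  obtain ⟨v0, hv0, hv00⟩ := (Submodule.ne_bot_iff _).1 h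
  have hStop : S = ⊤ := by
    rcases Parker.irr_sub hρ hSst with h1 | h1
    · exfalso
      have h2 : v0 ∈ S := Submodule.subset_span ⟨1, v0, hf hv0, by rw [map_one]; rfl⟩
      rw [h1] at h2
      exact hv00 ((Submodule.mem_bot Ω).1 h2)
    · exact h1
  have hran : LinearMap.range (X.eH ρ) ≤ W := by
    have h1 : S ≤ W.comap (X.eH ρ) := by
      rw [hS, Submodule.span_le]
      rintro _ ⟨g, w, hw, rfl⟩
      exact hst g w hw
    rintro _ ⟨v, rfl⟩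
    rw [hStop] at h1
    exact h1 Submodule.mem_top
  obtain ⟨v1, hv1, hv10⟩ := (Submodule.ne_bot_iff _).1 h'
  have hv1W : v1 ∈ W := hran ⟨v1, hv1.1⟩
  -- joint eigenspaces
  have hind := W01_aux.joint_indep (f := Q01_aux.ff ρ) Q01_aux.ff_comm
  have hjle : ∀ g : G → Ω, X.wt ρ g ≤
      ⨅ a, (Q01_aux.ff ρ a).maxGenEigenspace ((fun a : Q01_aux.A X => g a.1) a) := by
    intro g v hv
    rw [W01_aux.mem_joint Nat.card_pos.ne' Q01_aux.ff_pow]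
    exact (Q01_aux.mem_wt.1 hv).2
  have hdis := hind (fun a : Q01_aux.A X => f' a.1)
  have hW2 : W ≤ ⨆ (χ : Q01_aux.A X → Ω) (_ : χ ≠ fun a => f' a.1),
      ⨅ a, (Q01_aux.ff ρ a).maxGenEigenspace (χ a) := by
    rw [hW]
    refine iSup_le fun m => (hjle _).trans ?_
    refine le_iSup₂_of_le (fun a : Q01_aux.A X => f ((m : G)⁻¹ * a.1 * m)) ?_ le_rfl
    intro he
    obtain ⟨x, hx, hne⟩ := hno m m.2.1 m.2.2
    exact hne (congrFun he ⟨x, hx⟩).symm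
  have h9 := (Submodule.disjoint_def.1 hdis) v1 (hjle f' hv1) (hW2 hv1W)
  exact hv10 h9

theorem wtX_parity {τ : (G → Ω) → G → Ω}
    (h1 : ∀ f, Module.finrank Ω (X.wt ρ (τ f)) = Module.finrank Ω (X.wt ρ f))
    (h2 : ∃ j : ℕ, ∀ f, X.wt ρ f ≠ ⊥ → ∀ x ∈ B.T ⊓ X.H, τ^[2 ^ j] f x = f x)
    (h3 : ∀ f g : G → Ω, (∀ x ∈ B.T ⊓ X.H, f x = g x) → ∀ x ∈ B.T ⊓ X.H, τ f x = τ g x)
    (ho : Odd (Module.finrank Ω (LinearMap.range (X.eH ρ)))) :
    ∃ f, X.wt ρ f ≠ ⊥ ∧ ∀ x ∈ B.T ⊓ X.H, τ f x = f x := by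
  set p : (Q01_aux.A X → Ω) → Submodule Ω V := fun χ => X.wt ρ (Q01_aux.ext X χ) with hp
  have hind : iSupIndep p := by
    refine (W01_aux.joint_indep (f := Q01_aux.ff ρ) Q01_aux.ff_comm).mono fun χ v hv => ?_
    rw [W01_aux.mem_joint Nat.card_pos.ne' Q01_aux.ff_pow]
    intro a
    have h4 := (Q01_aux.mem_wt.1 hv).2 a
    rwa [Q01_aux.ext_apply] at h4
  have hres : ∀ f : G → Ω, X.wt ρ (Q01_aux.ext X fun a => f a.1) = X.wt ρ f := fun f =>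
    wtX_congr fun x hx => Q01_aux.ext_of _ hx
  have hfin : {χ | p χ ≠ ⊥}.Finite := WellFoundedGT.finite_ne_bot_of_iSupIndep hind
  set O : Finset (Q01_aux.A X → Ω) := hfin.toFinset with hO
  have hmem : ∀ χ, χ ∈ O ↔ p χ ≠ ⊥ := fun χ => by
    rw [hO, Set.Finite.mem_toFinset]
    rfl
  have hran : LinearMap.range (X.eH ρ) = ⨆ χ ∈ O, p χ := by
    apply le_antisymm
    · refine wtX_sup fun f => ?_
      by_cases hb : X.wt ρ f = ⊥
      · rw [hb]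
        exact bot_le
      · rw [← hres f] at hb ⊢
        exact le_iSup₂_of_le (fun a : Q01_aux.A X => f a.1) ((hmem _).2 hb) le_rfl
    · refine iSup₂_le fun χ _ v hv => ⟨v, hv.1⟩
  set σ : (Q01_aux.A X → Ω) → Q01_aux.A X → Ω := fun χ a => τ (Q01_aux.ext X χ) a.1 with hσ
  have hσp : ∀ χ, p (σ χ) = X.wt ρ (τ (Q01_aux.ext X χ)) := fun χ => hres _
  have hd : ∀ χ, Module.finrank Ω (p (σ χ)) = Module.finrank Ω (p χ) := fun χ => by
    rw [hσp, h1]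
  have hpos : ∀ χ, p χ ≠ ⊥ ↔ Module.finrank Ω (p χ) ≠ 0 := fun χ => by
    rw [Ne, Ne, Submodule.finrank_eq_zero]
  have hst : ∀ χ ∈ O, σ χ ∈ O := fun χ hχ => by
    rw [hmem, hpos] at hχ ⊢
    rwa [hd]
  have hit : ∀ (m : ℕ) (χ : Q01_aux.A X → Ω) (a : Q01_aux.A X),
      σ^[m] χ a = τ^[m] (Q01_aux.ext X χ) a.1 := by
    intro m
    induction m with
    | zero =>
      intro χ a
      exact (Q01_aux.ext_apply χ a).symm
    | succ m ih =>
      intro χ a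
      rw [Function.iterate_succ_apply', Function.iterate_succ_apply']
      refine h3 _ _ (fun x hx => ?_) a.1 a.2
      rw [Q01_aux.ext_of _ hx, ih]
  obtain ⟨j, hj⟩ := h2
  have hσj : ∀ χ ∈ O, σ^[2 ^ j] χ = χ := by
    intro χ hχ
    funext a
    rw [hit, hj _ ((hmem _).1 hχ) a.1 a.2, Q01_aux.ext_apply]
  rw [hran, W01_aux.finrank_biSup hind] at ho
  obtain ⟨χ, hχ, hfix⟩ := W01_aux.parity O σ (fun χ => Module.finrank Ω (p χ)) hst
    (fun χ _ => hd χ) hσj ho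
  refine ⟨Q01_aux.ext X χ, (hmem _).1 hχ, fun x hx => ?_⟩
  rw [Q01_aux.ext_of _ hx]
  exact congrFun hfix ⟨x, hx⟩

end

end AO
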