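import Pool.Agent.AO.QDefs

/-!
# MP_6c3636_al, AO, module Q02: type D: an irreducible representation of G above a representation of X.H (helper7)

As W02 (`exists_M`, AO/W02.lean), with `X.H` for `B.H` (`X.UH`, `X.normal`): an irreducible constituent `M` of the induced representation. If `E0 a` acts as zero on `M` then the weight vector has the other extension `fun i => !(a i)` of the weight to `T` (as `T ⊓ X.H` is the kernel of `X.l` on `T` and `X.l = th (fun _ => true)` there, `B.thn`); replace `M` by its twist with `X.l` (`φ` remains `X.H`-linear).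
-/

namespace AO

noncomputable section

open Classical Equiv

open AN (sq)

variable {Ω : Type} [Field Ω] [IsAlgClosed Ω] [CharZero Ω] {G : Type} [Group G] [Finite G] {n : ℕ} {B : BN G n}
  {X : BD B} {V : Type} [AddCommGroup V] [Module Ω V] [FiniteDimensional Ω V] {ρ : Representation Ω X.H V}

namespace Q02_aux

theorem fixX {v : V} : X.eH ρ v = v ↔ ∀ u (hu : u ∈ B.U), ρ ⟨u, X.UH hu⟩ v = v := by
  unfold BD.eH
  rw [eU_fix]
  constructor
  · intro h u hu
    exact h ⟨u, X.UH hu⟩ (Subgroup.mem_subgroupOf.2 hu)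
  · rintro h ⟨u, hu⟩ hu'
    exact h u (Subgroup.mem_subgroupOf.1 hu')

/-- a character of `T` which is trivial on the kernel of `l` is trivial or `l` -/
theorem ext_l {ψ : G → Ω} (hm : ∀ x ∈ B.T, ∀ y ∈ B.T, ψ (x * y) = ψ x * ψ y)
    (h1 : ∀ x ∈ B.T, x ∈ X.H → ψ x = 1) :
    ∃ δ : G →* Ω, (∀ h ∈ X.H, δ h = 1) ∧ ∀ x ∈ B.T, δ x = ψ x := by
  by_cases hall : ∀ x ∈ B.T, ψ x = 1
  · exact ⟨1, fun h _ => rfl, fun x hx => (hall x hx).symm⟩
  · push Not at hall
    obtain ⟨x₁, hx₁, hne⟩ := hall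
    have hl : ∀ x ∈ B.T, X.l x = 1 → x ∈ X.H := fun x hx h => (X.mem x).2 ⟨X.dT x hx, h⟩
    have hl1 : X.l x₁ = -1 := by
      rcases Int.units_eq_one_or (X.l x₁) with h | h
      · exact absurd (h1 x₁ hx₁ (hl x₁ hx₁ h)) hne
      · exact h
    have hsq : ψ x₁ * ψ x₁ = 1 := by
      rw [← hm x₁ hx₁ x₁ hx₁]
      refine h1 _ (B.T.mul_mem hx₁ hx₁) (hl _ (B.T.mul_mem hx₁ hx₁) ?_)
      rw [map_mul, hl1]
      rfl
    have hm1 : ψ x₁ = -1 := by
      rcases mul_self_eq_one_iff.1 hsq with h | h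
      · exact absurd h hne
      · exact h
    refine ⟨((Int.castRingHom Ω : ℤ →* Ω).comp (Units.coeHom ℤ)).comp X.l, ?_, ?_⟩
    · intro h hh
      show (((X.l h : ℤˣ) : ℤ) : Ω) = 1
      rw [((X.mem h).1 hh).2, Units.val_one, Int.cast_one]
    · intro x hx
      show (((X.l x : ℤˣ) : ℤ) : Ω) = ψ x
      rcases Int.units_eq_one_or (X.l x) with h | h
      · rw [h, Units.val_one, Int.cast_one, h1 x hx (hl x hx h)]
      · have e1 : ψ (x * x₁) = 1 := by
          refine h1 _ (B.T.mul_mem hx hx₁) (hl _ (B.T.mul_mem hx hx₁) ?_)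
          rw [map_mul, h, hl1]
          rfl
        rw [hm x hx x₁ hx₁, hm1] at e1
        rw [h, Units.val_neg, Units.val_one, Int.cast_neg, Int.cast_one]
        linear_combination e1

end Q02_aux

theorem exists_MX (hρ : ρ.IsIrreducible) {a : Fin n → Bool}
    (h : X.wt ρ (fun x => (((B.th a x : ℤˣ) : ℤ) : Ω)) ≠ ⊥) :
    ∃ (W : Type) (_ : AddCommGroup W) (_ : Module Ω W) (_ : FiniteDimensional Ω W)
      (M : Representation Ω G W) (φ : V →ₗ[Ω] W), M.IsIrreducible ∧ Function.Injective φ ∧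
        (∀ (h : X.H) v, φ (ρ h v) = M h (φ v)) ∧
        ∀ (k : Type) [Field k] [CharZero k] [Algebra k Ω], ev M (B.E0 k a) ≠ 0 := by
  obtain ⟨v, hv, hv0⟩ := (Submodule.ne_bot_iff _).1 h
  obtain ⟨W, _, _, _, M₀, φ, hM₀, hφ, hφe⟩ := W02_aux.exists_ind hρ
  obtain ⟨hv1, hv2⟩ := hv
  rw [Q02_aux.fixX] at hv1
  -- the vectors of the weight
  let S : Submodule Ω W :=
    { carrier := {w | (∀ u ∈ B.U, M₀ u w = w) ∧
        ∀ x ∈ B.T, x ∈ X.H → M₀ x w = (((B.th a x : ℤˣ) : ℤ) : Ω) • w}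
      add_mem' := by
        rintro v w ⟨h1, h2⟩ ⟨h3, h4⟩
        refine ⟨fun u hu => by rw [map_add, h1 u hu, h3 u hu], fun x hx hH => ?_⟩
        rw [map_add, h2 x hx hH, h4 x hx hH, smul_add]
      zero_mem' := ⟨fun u _ => map_zero _, fun x _ _ => by rw [map_zero, smul_zero]⟩
      smul_mem' := by
        rintro c v ⟨h1, h2⟩
        refine ⟨fun u hu => by rw [map_smul, h1 u hu], fun x hx hH => ?_⟩
        rw [map_smul, h2 x hx hH, smul_comm] }
  have hS : ∀ w, w ∈ S ↔ (∀ u ∈ B.U, M₀ u w = w) ∧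
      ∀ x ∈ B.T, x ∈ X.H → M₀ x w = (((B.th a x : ℤˣ) : ℤ) : Ω) • w := fun w => Iff.rfl
  have hφv : φ v ∈ S := by
    refine (hS _).2 ⟨fun u hu => ?_, fun x hx hH => ?_⟩
    · have h1 := hφe ⟨u, X.UH hu⟩ v
      rw [hv1 u hu] at h1
      exact h1.symm
    · have h1 := hφe ⟨x, hH⟩ v
      have h2 : ρ ⟨x, hH⟩ v = (((B.th a x : ℤˣ) : ℤ) : Ω) • v := hv2 x hH hx
      rw [h2, map_smul] at h1
      exact h1.symm
  have hφv0 : φ v ≠ 0 := by
    intro h0
    exact hv0 (hφ (by rw [h0, map_zero]))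
  have hSb : S ≠ ⊥ := (Submodule.ne_bot_iff S).2 ⟨φ v, hφv, hφv0⟩
  have hMM : ∀ (g g' : G) (w : W), M₀ g (M₀ g' w) = M₀ (g * g') w := by
    intro g g' w
    rw [map_mul, Module.End.mul_apply]
  have hST : ∀ y ∈ B.T, ∀ w ∈ S, M₀ y w ∈ S := by
    intro y hy w hw
    obtain ⟨h1, h2⟩ := (hS w).1 hw
    refine (hS _).2 ⟨fun u hu => ?_, fun x hx hH => ?_⟩
    · have e1 : y⁻¹ * u * y ∈ B.U := by
        have := B.TU y⁻¹ (B.T.inv_mem hy) u hu
        rwa [inv_inv] at this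
      have e2 : u * y = y * (y⁻¹ * u * y) := by group
      rw [hMM, e2, ← hMM, h1 _ e1]
    · rw [hMM, B.Tc x hx y hy, ← hMM, h2 x hx hH, map_smul]
  obtain ⟨w, hw, hw0, hwc⟩ := W02_aux.joint B.Tc (M := M₀) _ S le_rfl hSb hST
  obtain ⟨hwU, hwT⟩ := (hS w).1 hw
  -- the character
  have hcw : ∀ {c c' : Ω}, c • w = c' • w → c = c' := fun h => smul_left_injective Ω hw0 h
  let χ : G → Ω := fun y => if hy : y ∈ B.T then (hwc y hy).choose else 0
  have hχ : ∀ y ∈ B.T, M₀ y w = χ y • w := by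
    intro y hy
    have e : χ y = (hwc y hy).choose := dif_pos hy
    rw [e]
    exact (hwc y hy).choose_spec
  have hχm : ∀ x ∈ B.T, ∀ y ∈ B.T, χ (x * y) = χ x * χ y := by
    intro x hx y hy
    apply hcw
    rw [← hχ _ (B.T.mul_mem hx hy), ← hMM, hχ y hy, map_smul, hχ x hx, smul_smul, mul_comm]
  have hχ1 : χ 1 = 1 := by
    apply hcw
    rw [← hχ _ B.T.one_mem, map_one, one_smul]
    rfl
  have hth1 : ∀ x, (((B.th a x : ℤˣ) : ℤ) : Ω) * (((B.th a x : ℤˣ) : ℤ) : Ω) = 1 :=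
    fun x => LieP.A02_aux.unit_sq _
  obtain ⟨δ, hδH, hδT⟩ := Q02_aux.ext_l (X := X) (ψ := fun x => χ x * (((B.th a x : ℤˣ) : ℤ) : Ω)) (by
      intro x hx y hy
      show χ (x * y) * (((B.th a (x * y) : ℤˣ) : ℤ) : Ω) = χ x * (((B.th a x : ℤˣ) : ℤ) : Ω) *
        (χ y * (((B.th a y : ℤˣ) : ℤ) : Ω))
      rw [hχm x hx y hy, B.thm a x hx y hy, Units.val_mul, Int.cast_mul]
      ring) (by
      intro x hx hH
      show χ x * (((B.th a x : ℤˣ) : ℤ) : Ω) = 1
      have e1 : χ x = (((B.th a x : ℤˣ) : ℤ) : Ω) := by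
        apply hcw
        rw [← hχ x hx, hwT x hx hH]
      rw [e1, hth1])
  have hδδ : ∀ g, δ g * δ g⁻¹ = 1 := fun g => by rw [← map_mul, mul_inv_cancel, map_one]
  let M : Representation Ω G W :=
    { toFun := fun g => δ g⁻¹ • M₀ g
      map_one' := by rw [inv_one, map_one, map_one, one_smul]
      map_mul' := fun g g' => by
        rw [mul_inv_rev, map_mul, map_mul, smul_mul_smul_comm, mul_comm (δ g'⁻¹)] }
  have hM : ∀ g w, M g w = δ g⁻¹ • M₀ g w := fun g w => rfl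
  have hM' : ∀ g w, M₀ g w = δ g • M g w := fun g w => by
    rw [hM, smul_smul, hδδ, one_smul]
  have hMw : ∀ x ∈ B.T, M x w = (((B.th a x : ℤˣ) : ℤ) : Ω) • w := by
    intro x hx
    have hx' : x⁻¹ ∈ B.T := B.T.inv_mem hx
    have e1 : δ x⁻¹ = χ x⁻¹ * (((B.th a x⁻¹ : ℤˣ) : ℤ) : Ω) := hδT _ hx'
    have e2 : B.th a x⁻¹ = B.th a x := LieP.lin_inv (U := B.T) (B.thm a) hx
    have e3 : χ x⁻¹ * χ x = 1 := by rw [← hχm _ hx' _ hx, inv_mul_cancel, hχ1]
    rw [hM, hχ x hx, smul_smul, e1, e2, mul_right_comm, e3, one_mul]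
  have hMu : ∀ u ∈ B.U, M u w = w := by
    intro u hu
    rw [hM, hδH _ (X.H.inv_mem (X.UH hu)), one_smul, hwU u hu]
  refine ⟨W, inferInstance, inferInstance, inferInstance, M, φ, ?_, hφ, ?_, ?_⟩
  · refine Parker.irr_of_sub (Parker.irr_pos hM₀) fun Z hZ => ?_
    refine Parker.irr_sub hM₀ fun g x hx => ?_
    rw [hM']
    exact Z.smul_mem _ (hZ g x hx)
  · intro h v
    rw [hM, hδH _ (X.H.inv_mem h.2), one_smul]
    exact hφe h v
  · intro k _ _ _ h0
    apply hw0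
    have e1 : ev M (LieP.el k B.T (B.th a)) w = w := W02_aux.ev_el M B.T (B.th a) hMw
    have e2 : ev M (B.e k) w = w := by
      have e3 : B.e k = LieP.el k B.U (fun _ => 1) := (LieP.A02_aux.el_av B.U).symm
      rw [e3]
      refine W02_aux.ev_el M B.U _ fun g hg => ?_
      rw [hMu g hg, Units.val_one, Int.cast_one, one_smul]
    have e4 : ev M (B.E0 k a) w = w := by
      unfold BN.E0
      rw [map_mul, Module.End.mul_apply, e1, e2]
    rw [← e4, h0]
    rfl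

end

end AO
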