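import Pool.Agent.AO.Q01

/-!
# MP_6c3636_al, AO, module Q03: type D: the nu-case: the operators of the two reflections (helper7)

Let `i = 0`, `j = 1` (as elements of `Fin n`, `X.n2`), `s = B.s j`, `s' = B.s i * B.s j * B.s i`, `R' = s_i (R j) s_i ≤ U` (`s0U`). `X.l s` may be `-1` (then `s` is not in `X.H`), so we use `mm X b = s * x₁` resp. `s_i * (s * x₁) * s_i`, where `x₁ = tx X ∈ T` has `X.l x₁ = X.l s` (`exists_T`; `x₁ = 1` if `X.l s = 1`). `mm_sq`: as `nt_sq` in W03: `|R j| [s x₁] [s x₁] = [s x₁ s x₁] + ∑ r ≠ 1, [s x₁ y_r]` (`rank1`, L01), and the weights of `[s x₁ y_r] v` are moved; for `b = true` conjugate by `s_i`, which normalises `U`, `T`, `X.H` (`s0U`, `B.sT`): for example apply the case `b = false` to the representation `h ↦ ρ (s_i h s_i⁻¹)` of `X.H`. `jj f`: `false` if `f` is moved by `mm false` (that is `∃ x ∈ T ⊓ X.H, f (m⁻¹ x m) ≠ f x` for `m = mm X false`), else `true`. `jj_inv`: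 `s` and `s'` commute (`B.b2`: `s_i s_j s_i s_j = s_j s_i s_j s_i`; the first case `s_i = 1` is excluded by `X.d0`), conjugation by elements of `T` is trivial on `T`; so if `g = f` conjugated by `mm b` then `jj g = jj f`. `nuD_even`: the involution `τ f = f ∘ conj (mm (jj f))⁻¹` on the weights, `mm_sq` gives injectivity on the weight spaces (as in `nt_even`, W03), `wtX_parity`; all weights are conjugate to `f` (`wtX_conj`), and by `hν` they are moved by one of the two (`m ∈ N ⊓ X.H ≤ N`).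
-/

namespace AO

noncomputable section

open Classical Equiv

open AN (sq)

variable {Ω : Type} [Field Ω] [IsAlgClosed Ω] [CharZero Ω] {G : Type} [Group G] [Finite G] {n : ℕ} {B : BN G n}
  {X : BD B} {V : Type} [AddCommGroup V] [Module Ω V] [FiniteDimensional Ω V] {ρ : Representation Ω X.H V}

/-- an element of the torus with `X.l x = X.l (s 1)` -/
def tx (X : BD B) : G := if h : ∃ x ∈ B.T, X.l x = X.l (B.s ⟨1, X.n2⟩) then h.choose else 1

/-- the two reflections -/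
def mm (X : BD B) (b : Bool) : G :=
  if b = true then B.s ⟨0, lt_of_lt_of_le two_pos X.n2⟩ * (B.s ⟨1, X.n2⟩ * tx X) *
    B.s ⟨0, lt_of_lt_of_le two_pos X.n2⟩ else B.s ⟨1, X.n2⟩ * tx X

namespace Q03_aux

/-- the two nodes -/
def k0 (X : BD B) : Fin n := ⟨0, lt_of_lt_of_le two_pos X.n2⟩

/-- the two nodes -/
def k1 (X : BD B) : Fin n := ⟨1, X.n2⟩

theorem s0_inv (X : BD B) : (B.s (k0 X))⁻¹ = B.s (k0 X) := inv_eq_of_mul_eq_one_left (X.s0 _ rfl)

theorem tx_spec (X : BD B) : tx X ∈ B.T ∧ X.l (tx X) = X.l (B.s (k1 X)) := by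
  have h : ∃ x ∈ B.T, X.l x = X.l (B.s (k1 X)) := by
    rcases Int.units_eq_one_or (X.l (B.s (k1 X))) with h | h
    · exact ⟨1, B.T.one_mem, by rw [map_one, h]⟩
    · obtain ⟨x, hx, hl⟩ := exists_T X
      exact ⟨x, hx, by rw [hl, h]⟩
  have h2 : tx X = h.choose := dif_pos h
  rw [h2]
  exact h.choose_spec

theorem mm_false (X : BD B) : mm X false = B.s (k1 X) * tx X := if_neg (by decide)

theorem mm_true (X : BD B) : mm X true = B.s (k0 X) * mm X false * B.s (k0 X) := by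
  rw [mm_false]
  exact if_pos rfl

theorem mm_true' (X : BD B) : mm X true = B.s (k0 X) * mm X false * (B.s (k0 X))⁻¹ := by
  rw [s0_inv, mm_true]

end Q03_aux

open Q03_aux

theorem mm_H (X : BD B) (b : Bool) : mm X b ∈ X.H := by
  have h0 : mm X false ∈ X.H := by
    rw [mm_false, X.mem]
    constructor
    · rw [map_mul, X.ds _ Nat.one_pos, X.dT _ (tx_spec X).1, mul_one]
    · rw [map_mul, (tx_spec X).2]
      rcases Int.units_eq_one_or (X.l (B.s (k1 X))) with h | h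
      · rw [h, mul_one]
      · rw [h]
        rfl
  cases b
  · exact h0
  · rw [mm_true']
    exact X.normal.conj_mem _ h0 _

namespace Q03_aux

theorem s_N (B : BN G n) (i : Fin n) : B.s i ∈ B.N := Subgroup.subset_closure (Or.inl ⟨_, rfl⟩)

theorem T_N (B : BN G n) {x : G} (hx : x ∈ B.T) : x ∈ B.N := Subgroup.subset_closure (Or.inr hx)

theorem mm_mem_N (X : BD B) (b : Bool) : mm X b ∈ B.N := by
  have h0 : mm X false ∈ B.N := by
    rw [mm_false]
    exact B.N.mul_mem (s_N B _) (T_N B (tx_spec X).1)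
  cases b
  · exact h0
  · rw [mm_true]
    exact B.N.mul_mem (B.N.mul_mem (s_N B _) h0) (s_N B _)

theorem mm_mul_T (X : BD B) (b : Bool) : mm X b * mm X b ∈ B.T := by
  have h0 : mm X false * mm X false ∈ B.T := by
    have h1 : mm X false * mm X false =
        B.s (k1 X) * B.s (k1 X) * ((B.s (k1 X))⁻¹ * tx X * B.s (k1 X) * tx X) := by
      rw [mm_false]
      group
    rw [h1]
    exact B.T.mul_mem (B.s2 _) (B.T.mul_mem (B.sT' _ _ (tx_spec X).1) (tx_spec X).1)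
  cases b
  · exact h0
  · have h1 : mm X true * mm X true =
        B.s (k0 X) * (mm X false * mm X false) * (B.s (k0 X))⁻¹ := by
      rw [mm_true']
      group
    rw [h1]
    exact B.sT _ _ h0

end Q03_aux

theorem mm_N (X : BD B) (b : Bool) : mm X b ∈ B.N ∧ mm X b * mm X b ∈ B.T ⊓ X.H :=
  ⟨mm_mem_N X b, mm_mul_T X b, X.H.mul_mem (mm_H X b) (mm_H X b)⟩

namespace Q03_aux

/-- conjugation by an element of `T` is trivial on `T` -/
theorem conj_T (B : BN G n) {x y : G} (hx : x ∈ B.T) (hy : y ∈ B.T) : x⁻¹ * y * x = y := by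
  rw [mul_assoc, B.Tc y hy x hx, inv_mul_cancel_left]

theorem conjF (X : BD B) {x : G} (hx : x ∈ B.T) :
    (mm X false)⁻¹ * x * mm X false = (B.s (k1 X))⁻¹ * x * B.s (k1 X) := by
  have h1 : (mm X false)⁻¹ * x * mm X false =
      (tx X)⁻¹ * ((B.s (k1 X))⁻¹ * x * B.s (k1 X)) * tx X := by
    rw [mm_false]
    group
  rw [h1, conj_T B (tx_spec X).1 (B.sT' _ _ hx)]

theorem conjS (X : BD B) {x : G} (hx : x ∈ B.T) :
    (mm X true)⁻¹ * x * mm X true =
      (B.s (k0 X) * B.s (k1 X) * B.s (k0 X))⁻¹ * x * (B.s (k0 X) * B.s (k1 X) * B.s (k0 X)) := by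
  have h1 : (mm X true)⁻¹ * x * mm X true =
      (B.s (k0 X))⁻¹ * ((mm X false)⁻¹ * ((B.s (k0 X))⁻¹ * x * B.s (k0 X)) * mm X false) *
        B.s (k0 X) := by
    rw [mm_true]
    group
  rw [h1, conjF X (B.sT' _ _ hx)]
  group

theorem conj_TX (X : BD B) (b : Bool) {y : G} (hy : y ∈ B.T ⊓ X.H) :
    (mm X b)⁻¹ * y * mm X b ∈ B.T ⊓ X.H := by
  refine ⟨?_, X.H.mul_mem (X.H.mul_mem (X.H.inv_mem (mm_H X b)) hy.2) (mm_H X b)⟩
  cases b
  · rw [conjF X hy.1]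
    exact B.sT' _ _ hy.1
  · rw [conjS X hy.1]
    have h1 : (B.s (k0 X) * B.s (k1 X) * B.s (k0 X))⁻¹ * y *
        (B.s (k0 X) * B.s (k1 X) * B.s (k0 X)) = (B.s (k0 X))⁻¹ * ((B.s (k1 X))⁻¹ *
          ((B.s (k0 X))⁻¹ * y * B.s (k0 X)) * B.s (k1 X)) * B.s (k0 X) := by
      group
    rw [h1]
    exact B.sT' _ _ (B.sT' _ _ (B.sT' _ _ hy.1))

theorem conj2 (X : BD B) (b : Bool) {y : G} (hy : y ∈ B.T ⊓ X.H) :
    (mm X b)⁻¹ * ((mm X b)⁻¹ * y * mm X b) * mm X b = y := by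
  have h1 : (mm X b)⁻¹ * ((mm X b)⁻¹ * y * mm X b) * mm X b =
      (mm X b * mm X b)⁻¹ * y * (mm X b * mm X b) := by
    group
  rw [h1, conj_T B (mm_mul_T X b) hy.1]

theorem conj_comm (X : BD B) (b : Bool) {y : G} (hy : y ∈ B.T ⊓ X.H) :
    (mm X false)⁻¹ * ((mm X b)⁻¹ * y * mm X b) * mm X false =
      (mm X b)⁻¹ * ((mm X false)⁻¹ * y * mm X false) * mm X b := by
  cases b
  · rfl
  · have hb : B.s (k0 X) * B.s (k1 X) * B.s (k0 X) * B.s (k1 X) =
        B.s (k1 X) * B.s (k0 X) * B.s (k1 X) * B.s (k0 X) := by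
      rcases B.b2 (k0 X) (k1 X) rfl rfl with h | h
      · have h1 := X.d0 (k0 X) rfl
        rw [h.1, map_one] at h1
        exact absurd h1 (by decide)
      · exact h.1
    rw [conjF X (conj_TX X true hy).1, conjS X (conj_TX X false hy).1, conjS X hy.1, conjF X hy.1]
    have h1 : (B.s (k1 X))⁻¹ * ((B.s (k0 X) * B.s (k1 X) * B.s (k0 X))⁻¹ * y *
        (B.s (k0 X) * B.s (k1 X) * B.s (k0 X))) * B.s (k1 X) =
        (B.s (k0 X) * B.s (k1 X) * B.s (k0 X) * B.s (k1 X))⁻¹ * y *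
          (B.s (k0 X) * B.s (k1 X) * B.s (k0 X) * B.s (k1 X)) := by
      group
    have h2 : (B.s (k0 X) * B.s (k1 X) * B.s (k0 X))⁻¹ * ((B.s (k1 X))⁻¹ * y * B.s (k1 X)) *
        (B.s (k0 X) * B.s (k1 X) * B.s (k0 X)) =
        (B.s (k1 X) * B.s (k0 X) * B.s (k1 X) * B.s (k0 X))⁻¹ * y *
          (B.s (k1 X) * B.s (k0 X) * B.s (k1 X) * B.s (k0 X)) := by
      group
    rw [h1, h2, hb]

/-- the vector of an element of the group -/
def ph (X : BD B) (ρ : Representation Ω X.H V) (v : V) (g : G) : V :=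
  if h : g ∈ X.H then X.eH ρ (ρ ⟨g, h⟩ v) else 0

theorem ph_pos (ρ : Representation Ω X.H V) (v : V) {g : G} (h : g ∈ X.H) :
    ph X ρ v g = X.eH ρ (ρ ⟨g, h⟩ v) := dif_pos h

theorem ph_left (ρ : Representation Ω X.H V) (v : V) {u : G} (hu : u ∈ B.U) (g : G) :
    ph X ρ v (u * g) = ph X ρ v g := by
  by_cases h : g ∈ X.H
  · have h1 : u * g ∈ X.H := X.H.mul_mem (X.UH hu) h
    rw [ph_pos ρ v h, ph_pos ρ v h1]
    have h2 : (⟨u * g, h1⟩ : X.H) = ⟨u, X.UH hu⟩ * ⟨g, h⟩ := rfl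
    rw [h2, map_mul, Module.End.mul_apply]
    have h3 := (eU_mul (ρ := ρ) (U := B.U.subgroupOf X.H) (u := ⟨u, X.UH hu⟩)
      (by rw [Subgroup.mem_subgroupOf]; exact hu)).2
    exact congrArg (fun F : Module.End Ω V => F (ρ ⟨g, h⟩ v)) h3
  · have h1 : u * g ∉ X.H := fun h2 => h (by
      have h3 := X.H.mul_mem (X.H.inv_mem (X.UH hu)) h2
      rwa [inv_mul_cancel_left] at h3)
    rw [ph, ph, dif_neg h, dif_neg h1]

theorem ph_right (ρ : Representation Ω X.H V) {v : V} (hv : X.eH ρ v = v) {u : G} (hu : u ∈ B.U)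
    (g : G) : ph X ρ v (g * u) = ph X ρ v g := by
  by_cases h : g ∈ X.H
  · have h1 : g * u ∈ X.H := X.H.mul_mem h (X.UH hu)
    rw [ph_pos ρ v h, ph_pos ρ v h1]
    have h2 : (⟨g * u, h1⟩ : X.H) = ⟨g, h⟩ * ⟨u, X.UH hu⟩ := rfl
    rw [h2, map_mul, Module.End.mul_apply, eX_fix.1 hv u hu]
  · have h1 : g * u ∉ X.H := fun h2 => h (by
      have h3 := X.H.mul_mem h2 (X.H.inv_mem (X.UH hu))
      rwa [mul_inv_cancel_right] at h3)
    rw [ph, ph, dif_neg h, dif_neg h1]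

theorem ph_T {g : G → Ω} {v : V} (hv : v ∈ X.wt ρ g) {y : G} (hy : y ∈ B.T) (hH : y ∈ X.H) {m : G}
    (hm : m ∈ X.H) : ph X ρ v (m * y) = g y • ph X ρ v m := by
  have h1 : m * y ∈ X.H := X.H.mul_mem hm hH
  rw [ph_pos ρ v hm, ph_pos ρ v h1]
  have h2 : (⟨m * y, h1⟩ : X.H) = ⟨m, hm⟩ * ⟨y, hH⟩ := rfl
  rw [h2, map_mul, Module.End.mul_apply, hv.2 y hH hy, map_smul, map_smul]

/-- the projection as a sum over `U` -/
theorem eX_eq (ρ : Representation Ω X.H V) (v : V) [Fintype B.U] :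
    (Nat.card B.U : Ω) • X.eH ρ v = ∑ u : B.U, ρ ⟨u, X.UH u.2⟩ v := by
  let _ := Fintype.ofFinite X.H
  have hc : Nat.card (B.U.subgroupOf X.H) = Nat.card B.U :=
    Nat.card_congr (Subgroup.subgroupOfEquivOfLe X.UH).toEquiv
  have hne : (Nat.card B.U : Ω) ≠ 0 := by
    have : 0 < Nat.card B.U := Nat.card_pos
    exact_mod_cast this.ne'
  have h1 : X.eH ρ v = ∑ g : X.H, (if g ∈ B.U.subgroupOf X.H then (Nat.card B.U : Ω)⁻¹ else 0) • ρ g v := by
    show eU (B.U.subgroupOf X.H) ρ v = _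
    rw [eU, Parker.act_eq, LinearMap.sum_apply, hc]
    rfl
  rw [h1, Finset.smul_sum]
  have h2 : ∀ g : X.H, (Nat.card B.U : Ω) • ((if g ∈ B.U.subgroupOf X.H then (Nat.card B.U : Ω)⁻¹
      else 0) • ρ g v) = if g ∈ B.U.subgroupOf X.H then ρ g v else 0 := by
    intro g
    split_ifs
    · rw [smul_smul, mul_inv_cancel₀ hne, one_smul]
    · rw [zero_smul, smul_zero]
  rw [Finset.sum_congr rfl fun g _ => h2 g, ← Finset.sum_filter]
  symm
  refine Finset.sum_bij (fun (u : B.U) _ => (⟨u, X.UH u.2⟩ : X.H)) ?_ ?_ ?_ ?_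
  · intro u _
    rw [Finset.mem_filter]
    refine ⟨Finset.mem_univ _, ?_⟩
    rw [Subgroup.mem_subgroupOf]
    exact u.2
  · intro u _ u' _ h
    exact Subtype.ext (congrArg (fun z : X.H => (z : G)) h)
  · intro g hg
    rw [Finset.mem_filter, Subgroup.mem_subgroupOf] at hg
    exact ⟨⟨g, hg.2⟩, Finset.mem_univ _, rfl⟩
  · intro u _
    rfl

theorem sum_ph (ρ : Representation Ω X.H V) (v : V) [Fintype B.U] {a b : G} (ha : a ∈ X.H)
    (hb : b ∈ X.H) : (Nat.card B.U : Ω) • X.eH ρ (ρ ⟨a, ha⟩ (X.eH ρ (ρ ⟨b, hb⟩ v))) =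
      ∑ u : B.U, ph X ρ v (a * u * b) := by
  rw [← map_smul, ← map_smul, eX_eq, map_sum, map_sum]
  refine Finset.sum_congr rfl fun u _ => ?_
  have h1 : a * u * b ∈ X.H := X.H.mul_mem (X.H.mul_mem ha (X.UH u.2)) hb
  rw [ph_pos ρ v h1]
  have h2 : (⟨a * u * b, h1⟩ : X.H) = ⟨a, ha⟩ * ⟨u, X.UH u.2⟩ * ⟨b, hb⟩ := rfl
  rw [h2, map_mul, map_mul, Module.End.mul_apply, Module.End.mul_apply]

/-- reindexing by the conjugation with an element which normalises `U` -/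
theorem sum_conj [Fintype B.U] (F : G → V) {x : G} (hx : ∀ u ∈ B.U, x * u * x⁻¹ ∈ B.U) :
    ∑ u : B.U, F (x * u * x⁻¹) = ∑ u : B.U, F u := by
  have hinj : Function.Injective (fun u : B.U => (⟨x * u * x⁻¹, hx u u.2⟩ : B.U)) := by
    intro u u' h
    have h1 : x * (u : G) * x⁻¹ = x * (u' : G) * x⁻¹ := congrArg (fun z : B.U => (z : G)) h
    exact Subtype.ext (mul_left_cancel (mul_right_cancel h1))
  have hbij : Function.Bijective (fun u : B.U => (⟨x * u * x⁻¹, hx u u.2⟩ : B.U)) :=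
    Finite.injective_iff_bijective.1 hinj
  exact hbij.sum_comp (fun u : B.U => F u)

/-- reindexing by the product of `C` and `R` -/
theorem sum_CR [Fintype B.U] (i : Fin n) [Fintype (B.C i)] [Fintype (B.R i)] (F : G → V) :
    ∑ u : B.U, F u = ∑ c : B.C i, ∑ r : B.R i, F (c * r) := by
  rw [← Fintype.sum_prod_type' (fun (c : B.C i) (r : B.R i) => F (c * r))]
  symm
  refine Finset.sum_bij (fun (z : B.C i × B.R i) _ =>
    (⟨z.1 * z.2, B.U.mul_mem (B.CU i z.1.2) (B.RU i z.2.2)⟩ : B.U)) ?_ ?_ ?_ ?_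
  · intro z _
    exact Finset.mem_univ _
  · rintro ⟨c, r⟩ _ ⟨c', r'⟩ _ h
    have h1 : (c : G) * r = c' * r' := congrArg (fun z : B.U => (z : G)) h
    have h2 : (r : G) * (r' : G)⁻¹ = (c : G)⁻¹ * c' := by
      have h3 : (c : G)⁻¹ * ((c : G) * r) * (r' : G)⁻¹ = (c : G)⁻¹ * (c' * r') * (r' : G)⁻¹ := by
        rw [h1]
      rw [inv_mul_cancel_left] at h3
      rw [h3]
      group
    have h4 : (r : G) * (r' : G)⁻¹ = 1 := by
      refine B.CRd i _ ((B.R i).mul_mem r.2 ((B.R i).inv_mem r'.2)) ?_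
      rw [h2]
      exact (B.C i).mul_mem ((B.C i).inv_mem c.2) c'.2
    have h5 : (r : G) = r' := by
      rwa [mul_inv_eq_one] at h4
    have h6 : (c : G) = c' := by
      rw [h5] at h1
      exact mul_right_cancel h1
    exact Prod.ext (Subtype.ext h6) (Subtype.ext h5)
  · intro u _
    obtain ⟨c, hc, r, hr, h⟩ := B.CR i u u.2
    exact ⟨(⟨c, hc⟩, ⟨r, hr⟩), Finset.mem_univ _, Subtype.ext h.symm⟩
  · intro u _
    rfl

theorem card_CR (B : BN G n) (i : Fin n) :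
    Nat.card B.U = Nat.card (B.C i) * Nat.card (B.R i) := by
  let _ := Fintype.ofFinite B.U
  let _ := Fintype.ofFinite (B.C i)
  let _ := Fintype.ofFinite (B.R i)
  have h := sum_CR (V := ℚ) (B := B) i (fun _ => (1 : ℚ))
  rw [Finset.sum_const, Finset.sum_const, Finset.sum_const, Finset.card_univ, Finset.card_univ,
    Finset.card_univ, ← Nat.card_eq_fintype_card, ← Nat.card_eq_fintype_card,
    ← Nat.card_eq_fintype_card] at h
  simp only [nsmul_eq_mul, mul_one] at h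
  exact_mod_cast h

theorem sq_gen {i : Fin n} {x nt : G} (hx : x ∈ B.T) (hnt : nt = B.s i * x) (hN : nt ∈ B.N)
    (hmH : nt ∈ X.H) (hmm : nt * nt ∈ B.T ⊓ X.H)
    (hcc : ∀ y, y ∈ B.T ⊓ X.H → nt⁻¹ * (nt⁻¹ * y * nt) * nt = y) {g : G → Ω} {v : V}
    (hv : v ∈ X.wt ρ g) (hne : ∃ x ∈ B.T ⊓ X.H, g (nt⁻¹ * x * nt) ≠ g x) :
    X.eH ρ (ρ ⟨nt, hmH⟩ (X.eH ρ (ρ ⟨nt, hmH⟩ v))) =
      ((Nat.card (B.R i) : Ω)⁻¹ * g (nt * nt)) • v := by
  let _ := Fintype.ofFinite B.U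
  let _ := Fintype.ofFinite (B.C i)
  let _ := Fintype.ofFinite (B.R i)
  have hC0 : (Nat.card (B.C i) : Ω) ≠ 0 := by
    have : 0 < Nat.card (B.C i) := Nat.card_pos
    exact_mod_cast this.ne'
  have hR0 : (Nat.card (B.R i) : Ω) ≠ 0 := by
    have : 0 < Nat.card (B.R i) := Nat.card_pos
    exact_mod_cast this.ne'
  have hss : nt * nt = B.s i * B.s i * ((B.s i)⁻¹ * x * B.s i * x) := by
    rw [hnt]
    group
  have hy : (B.s i)⁻¹ * x * B.s i ∈ B.T := B.sT' i x hx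
  set w1 : V := X.eH ρ (ρ ⟨nt, hmH⟩ v) with hw1
  set w2 : V := X.eH ρ (ρ ⟨nt, hmH⟩ w1) with hw2
  have m1 : w1 ∈ X.wt ρ (fun x => g (nt⁻¹ * x * nt)) := wtX_N hN hmH hv
  have m2 : w2 ∈ X.wt ρ g := by
    have h1 : w2 ∈ X.wt ρ (fun x => g (nt⁻¹ * (nt⁻¹ * x * nt) * nt)) :=
      wtX_N hN hmH m1
    rwa [wtX_congr (g := g) fun z hz => by rw [hcc z hz]] at h1
  -- the sum
  have hyT : (B.s i)⁻¹ * x * B.s i * x ∈ B.T := B.T.mul_mem hy hx
  set y : G := (B.s i)⁻¹ * x * B.s i * x with hydef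
  have e1 : ∀ u : G, nt * u * nt = B.s i * (x * u * x⁻¹) * B.s i * y := by
    intro u
    rw [hnt, hydef]
    group
  have hterm : ∀ r : B.R i, (r : G) ≠ 1 → ∃ κ : Ω,
      ph X ρ v (B.s i * (r : G) * B.s i * y) = κ • w1 := by
    intro r hr
    obtain ⟨u, hu, u', hu', h⟩ := B.hU i r r.2 hr
    have hh := B.hT i r r.2 hr
    have h2 : B.s i * (r : G) * B.s i * y =
        u * (B.s i * B.hh i r * y * (y⁻¹ * u' * y)) := by
      rw [h]
      group
    have hu2 : y⁻¹ * u' * y ∈ B.U := by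
      have h3 := B.TU y⁻¹ (B.T.inv_mem hyT) u' hu'
      rwa [inv_inv] at h3
    rw [h2, ph_left ρ v hu, ph_right ρ hv.1 hu2]
    by_cases hH : B.s i * B.hh i r * y ∈ X.H
    · have h4 : B.s i * B.hh i r * y = nt * (x⁻¹ * B.hh i r * y) := by
        rw [hnt]
        group
      have h5 : x⁻¹ * B.hh i r * y ∈ B.T :=
        B.T.mul_mem (B.T.mul_mem (B.T.inv_mem hx) hh) hyT
      have h6 : x⁻¹ * B.hh i r * y ∈ X.H := by
        have h7 := X.H.mul_mem (X.H.inv_mem hmH) hH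
        rwa [h4, inv_mul_cancel_left] at h7
      refine ⟨g (x⁻¹ * B.hh i r * y), ?_⟩
      rw [h4, ph_T hv h5 h6 hmH, ph_pos ρ v hmH]
    · refine ⟨0, ?_⟩
      rw [zero_smul]
      exact dif_neg hH
  have hone : ph X ρ v (B.s i * ((1 : B.R i) : G) * B.s i * y) = g (nt * nt) • v := by
    have h1 : B.s i * ((1 : B.R i) : G) * B.s i * y = 1 * (nt * nt) := by
      rw [hss, one_mul]
      show B.s i * 1 * B.s i * _ = _
      rw [mul_one]
    rw [h1, ph_T hv hmm.1 hmm.2 X.H.one_mem, ph_pos ρ v X.H.one_mem]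
    have h3 : (⟨1, X.H.one_mem⟩ : X.H) = 1 := rfl
    rw [h3, map_one, Module.End.one_apply, hv.1]
  have hsum : ∃ κ : Ω, ∑ r : B.R i, ph X ρ v (B.s i * (r : G) * B.s i * y) =
      g (nt * nt) • v + κ • w1 := by
    have h1 : ∀ r : B.R i, ∃ κ : Ω, ph X ρ v (B.s i * (r : G) * B.s i * y) =
        (if r = 1 then g (nt * nt) • v else 0) + κ • w1 := by
      intro r
      by_cases hr : r = 1
      · refine ⟨0, ?_⟩
        rw [if_pos hr, hr, hone, zero_smul, add_zero]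
      · obtain ⟨κ, h⟩ := hterm r (fun h => hr (Subtype.ext h))
        exact ⟨κ, by rw [if_neg hr, h, zero_add]⟩
    choose κ hκ using h1
    refine ⟨∑ r : B.R i, κ r, ?_⟩
    rw [Finset.sum_congr rfl fun r _ => hκ r, Finset.sum_add_distrib, Finset.sum_smul,
      Finset.sum_ite_eq' Finset.univ (1 : B.R i), if_pos (Finset.mem_univ _)]
  obtain ⟨κ, hκ⟩ := hsum
  have hmain : (Nat.card B.U : Ω) • w2 =
      (Nat.card (B.C i) : Ω) • (g (nt * nt) • v + κ • w1) := by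
    rw [hw2, hw1, sum_ph ρ v hmH hmH, Finset.sum_congr rfl fun u _ => by rw [e1 u],
      sum_conj (fun z => ph X ρ v (B.s i * z * B.s i * y)) (B.TU x hx),
      sum_CR i (fun z => ph X ρ v (B.s i * z * B.s i * y)), ← hκ]
    have h1 : ∀ c : B.C i, ∑ r : B.R i, ph X ρ v (B.s i * ((c : G) * r) * B.s i * y) =
        ∑ r : B.R i, ph X ρ v (B.s i * (r : G) * B.s i * y) := by
      intro c
      refine Finset.sum_congr rfl fun r _ => ?_
      have h2 : B.s i * ((c : G) * r) * B.s i * y =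
          B.s i * c * (B.s i)⁻¹ * (B.s i * (r : G) * B.s i * y) := by
        group
      rw [h2, ph_left ρ v (B.sC i c c.2)]
    rw [Finset.sum_congr rfl fun c _ => h1 c, Finset.sum_const, Finset.card_univ,
      ← Nat.card_eq_fintype_card, Nat.cast_smul_eq_nsmul]
  have hmain2 : (Nat.card (B.R i) : Ω) • w2 = g (nt * nt) • v + κ • w1 := by
    rw [card_CR B i, Nat.cast_mul, mul_smul] at hmain
    have h1 := congrArg (fun z : V => (Nat.card (B.C i) : Ω)⁻¹ • z) hmain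
    simp only [inv_smul_smul₀ hC0] at h1
    exact h1
  -- the second term vanishes
  have hz : κ • w1 = 0 := by
    have h1 : κ • w1 ∈ X.wt ρ g := by
      have h2 : κ • w1 = (Nat.card (B.R i) : Ω) • w2 - g (nt * nt) • v := by
        rw [hmain2]
        abel
      rw [h2]
      exact Submodule.sub_mem _ (Submodule.smul_mem _ _ m2) (Submodule.smul_mem _ _ hv)
    have h2 : κ • w1 ∈ X.wt ρ (fun x => g (nt⁻¹ * x * nt)) := Submodule.smul_mem _ _ m1
    obtain ⟨z, hz, hz'⟩ := hne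
    have h3 := h1.2 z hz.2 hz.1
    rw [h2.2 z hz.2 hz.1] at h3
    have h4 : (g (nt⁻¹ * z * nt) - g z) • (κ • w1) = 0 := by
      rw [sub_smul, h3, sub_self]
    rcases smul_eq_zero.1 h4 with h5 | h5
    · exact absurd (sub_eq_zero.1 h5) hz'
    · exact h5
  rw [hz, add_zero] at hmain2
  rw [mul_smul, ← hmain2, inv_smul_smul₀ hR0]

theorem sq_false {g : G → Ω} {v : V} (hv : v ∈ X.wt ρ g)
    (hne : ∃ x ∈ B.T ⊓ X.H, g ((mm X false)⁻¹ * x * mm X false) ≠ g x) :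
    X.eH ρ (ρ ⟨mm X false, mm_H X false⟩ (X.eH ρ (ρ ⟨mm X false, mm_H X false⟩ v))) =
      ((Nat.card (B.R (k1 X)) : Ω)⁻¹ * g (mm X false * mm X false)) • v :=
  sq_gen (tx_spec X).1 (mm_false X) (mm_mem_N X false) (mm_H X false) (mm_N X false).2
    (fun _ hy => conj2 X false hy) hv hne

/-- the conjugation by the reflection of the end node -/
def cj (X : BD B) : X.H →* X.H where
  toFun h := ⟨B.s (k0 X) * h * (B.s (k0 X))⁻¹, X.normal.conj_mem _ h.2 _⟩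
  map_one' := Subtype.ext (by
    show B.s (k0 X) * 1 * (B.s (k0 X))⁻¹ = 1
    group)
  map_mul' h k := Subtype.ext (by
    show B.s (k0 X) * ((h : G) * k) * (B.s (k0 X))⁻¹ =
      B.s (k0 X) * h * (B.s (k0 X))⁻¹ * (B.s (k0 X) * k * (B.s (k0 X))⁻¹)
    group)

theorem cj_coe (X : BD B) (h : X.H) : (cj X h : G) = B.s (k0 X) * h * (B.s (k0 X))⁻¹ := rfl

/-- the conjugate representation -/
def rc (X : BD B) (ρ : Representation Ω X.H V) : Representation Ω X.H V := ρ.comp (cj X)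

theorem rc_apply (X : BD B) (ρ : Representation Ω X.H V) (h : X.H) : rc X ρ h = ρ (cj X h) := rfl

theorem eH_rc (X : BD B) (ρ : Representation Ω X.H V) : X.eH (rc X ρ) = X.eH ρ := by
  let _ := Fintype.ofFinite B.U
  have hne : (Nat.card B.U : Ω) ≠ 0 := by
    have : 0 < Nat.card B.U := Nat.card_pos
    exact_mod_cast this.ne'
  refine LinearMap.ext fun v => ?_
  have h1 : (Nat.card B.U : Ω) • X.eH (rc X ρ) v = (Nat.card B.U : Ω) • X.eH ρ v := by
    rw [eX_eq, eX_eq]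
    have h2 := sum_conj (B := B) (V := V)
      (fun g => if h : g ∈ X.H then ρ ⟨g, h⟩ v else 0) (s0U (i := k0 X) rfl X)
    have h3 : ∀ u : B.U, rc X ρ ⟨u, X.UH u.2⟩ v =
        (fun g => if h : g ∈ X.H then ρ ⟨g, h⟩ v else 0)
          (B.s (k0 X) * u * (B.s (k0 X))⁻¹) := by
      intro u
      have h4 : B.s (k0 X) * u * (B.s (k0 X))⁻¹ ∈ X.H := X.normal.conj_mem _ (X.UH u.2) _
      show _ = (if h : B.s (k0 X) * u * (B.s (k0 X))⁻¹ ∈ X.H then
        ρ ⟨B.s (k0 X) * u * (B.s (k0 X))⁻¹, h⟩ v else 0)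
      rw [dif_pos h4]
      rfl
    have h5 : ∀ u : B.U, ρ ⟨u, X.UH u.2⟩ v =
        (fun g => if h : g ∈ X.H then ρ ⟨g, h⟩ v else 0) (u : G) := by
      intro u
      show _ = (if h : (u : G) ∈ X.H then ρ ⟨u, h⟩ v else 0)
      rw [dif_pos (X.UH u.2)]
    rw [Finset.sum_congr rfl fun u _ => h3 u, Finset.sum_congr rfl fun u _ => h5 u]
    exact h2
  have h2 := congrArg (fun z : V => (Nat.card B.U : Ω)⁻¹ • z) h1
  simp only [inv_smul_smul₀ hne] at h2
  exact h2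

theorem wt_rc (X : BD B) {ρ : Representation Ω X.H V} {g : G → Ω} {v : V} (hv : v ∈ X.wt ρ g) :
    v ∈ X.wt (rc X ρ) (fun x => g (B.s (k0 X) * x * (B.s (k0 X))⁻¹)) := by
  refine ⟨?_, fun x hx hT => ?_⟩
  · rw [eH_rc]
    exact hv.1
  · rw [rc_apply]
    exact hv.2 _ (X.normal.conj_mem _ hx _) (B.sT _ _ hT)

theorem rc_mm (X : BD B) (ρ : Representation Ω X.H V) :
    rc X ρ ⟨mm X false, mm_H X false⟩ = ρ ⟨mm X true, mm_H X true⟩ := by
  rw [rc_apply]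
  exact congrArg (fun z : X.H => ρ z) (Subtype.ext (mm_true' X).symm)

theorem sq_true {g : G → Ω} {v : V} (hv : v ∈ X.wt ρ g)
    (hne : ∃ x ∈ B.T ⊓ X.H, g ((mm X true)⁻¹ * x * mm X true) ≠ g x) :
    X.eH ρ (ρ ⟨mm X true, mm_H X true⟩ (X.eH ρ (ρ ⟨mm X true, mm_H X true⟩ v))) =
      ((Nat.card (B.R (k1 X)) : Ω)⁻¹ * g (mm X true * mm X true)) • v := by
  have h1 := sq_false (ρ := rc X ρ) (wt_rc X hv) (by
    obtain ⟨x, hx, h⟩ := hne
    refine ⟨(B.s (k0 X))⁻¹ * x * B.s (k0 X), ⟨B.sT' _ _ hx.1, ?_⟩, ?_⟩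
    · have h2 := X.normal.conj_mem _ hx.2 (B.s (k0 X))⁻¹
      rwa [inv_inv] at h2
    · have h3 : B.s (k0 X) * ((mm X false)⁻¹ * ((B.s (k0 X))⁻¹ * x * B.s (k0 X)) * mm X false) *
          (B.s (k0 X))⁻¹ = (mm X true)⁻¹ * x * mm X true := by
        rw [mm_true']
        group
      have h4 : B.s (k0 X) * ((B.s (k0 X))⁻¹ * x * B.s (k0 X)) * (B.s (k0 X))⁻¹ = x := by
        group
      show g (B.s (k0 X) * ((mm X false)⁻¹ * ((B.s (k0 X))⁻¹ * x * B.s (k0 X)) * mm X false) *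
        (B.s (k0 X))⁻¹) ≠ g (B.s (k0 X) * ((B.s (k0 X))⁻¹ * x * B.s (k0 X)) * (B.s (k0 X))⁻¹)
      rw [h3, h4]
      exact h)
  rw [eH_rc, rc_mm] at h1
  have h2 : B.s (k0 X) * (mm X false * mm X false) * (B.s (k0 X))⁻¹ = mm X true * mm X true := by
    rw [mm_true']
    group
  rw [h1, h2]

end Q03_aux

theorem mm_sq {g : G → Ω} {v : V} (hv : v ∈ X.wt ρ g) (b : Bool)
    (hne : ∃ x ∈ B.T ⊓ X.H, g ((mm X b)⁻¹ * x * mm X b) ≠ g x) :
    X.eH ρ (ρ ⟨mm X b, mm_H X b⟩ (X.eH ρ (ρ ⟨mm X b, mm_H X b⟩ v))) =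
      ((Nat.card (B.R ⟨1, X.n2⟩) : Ω)⁻¹ * g (mm X b * mm X b)) • v := by
  cases b
  · exact sq_false hv hne
  · exact sq_true hv hne

/-- the choice of the reflection -/
def jj {A : Type} (X : BD B) (f : G → A) : Bool :=
  if ∃ x ∈ B.T ⊓ X.H, f ((mm X false)⁻¹ * x * mm X false) ≠ f x then false else true

namespace Q03_aux

theorem jj_of {A : Type} (X : BD B) {f g : G → A}
    (h : (∃ x ∈ B.T ⊓ X.H, f ((mm X false)⁻¹ * x * mm X false) ≠ f x) ↔
      ∃ x ∈ B.T ⊓ X.H, g ((mm X false)⁻¹ * x * mm X false) ≠ g x) : jj X f = jj X g := by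
  unfold jj
  by_cases h1 : ∃ x ∈ B.T ⊓ X.H, f ((mm X false)⁻¹ * x * mm X false) ≠ f x
  · rw [if_pos h1, if_pos (h.1 h1)]
  · rw [if_neg h1, if_neg fun h2 => h1 (h.2 h2)]

end Q03_aux

theorem jj_inv {A : Type} (X : BD B) (f : G → A) (b : Bool) :
    jj X (fun x => f ((mm X b)⁻¹ * x * mm X b)) = jj X f := by
  refine jj_of X ⟨?_, ?_⟩
  · rintro ⟨x, hx, h⟩
    refine ⟨(mm X b)⁻¹ * x * mm X b, conj_TX X b hx, ?_⟩
    rw [conj_comm X b hx]
    exact h
  · rintro ⟨x, hx, h⟩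
    refine ⟨(mm X b)⁻¹ * x * mm X b, conj_TX X b hx, ?_⟩
    show f ((mm X b)⁻¹ * ((mm X false)⁻¹ * ((mm X b)⁻¹ * x * mm X b) * mm X false) * mm X b) ≠
      f ((mm X b)⁻¹ * ((mm X b)⁻¹ * x * mm X b) * mm X b)
    rw [← conj_comm X b (conj_TX X b hx), conj2 X b hx]
    exact h

theorem jj_congr {A : Type} (X : BD B) {f g : G → A} (h : ∀ x ∈ B.T ⊓ X.H, f x = g x) :
    jj X f = jj X g := by
  refine jj_of X ⟨?_, ?_⟩
  · rintro ⟨x, hx, h1⟩
    refine ⟨x, hx, ?_⟩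
    rw [← h x hx, ← h _ (conj_TX X false hx)]
    exact h1
  · rintro ⟨x, hx, h1⟩
    refine ⟨x, hx, ?_⟩
    rw [h x hx, h _ (conj_TX X false hx)]
    exact h1

/-- all conjugates of `f` are moved by one of the two reflections -/
def Nu {A : Type} (X : BD B) (f : G → A) : Prop :=
  ∀ m ∈ B.N, ∃ b : Bool, ∃ x ∈ B.T ⊓ X.H, f (m⁻¹ * ((mm X b)⁻¹ * x * mm X b) * m) ≠ f (m⁻¹ * x * m)

theorem nu_of (X : BD B) {f : G → ℤˣ} (h : ∀ m ∈ B.N, ∀ i j : Fin n, (i : ℕ) = 0 → (j : ℕ) = 1 →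
        (∃ x ∈ B.T ⊓ X.H, f (m⁻¹ * ((B.s j)⁻¹ * x * B.s j) * m) ≠ f (m⁻¹ * x * m)) ∨
        ∃ x ∈ B.T ⊓ X.H, f (m⁻¹ * ((B.s i * B.s j * B.s i)⁻¹ * x * (B.s i * B.s j * B.s i)) * m) ≠
          f (m⁻¹ * x * m)) : Nu X f := by
  intro m hm
  rcases h m hm (k0 X) (k1 X) rfl rfl with ⟨x, hx, h1⟩ | ⟨x, hx, h1⟩
  · refine ⟨false, x, hx, ?_⟩
    rw [conjF X hx.1]
    exact h1
  · refine ⟨true, x, hx, ?_⟩
    rw [conjS X hx.1]
    exact h1

namespace Q03_aux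

/-- the operators of the reflections are injective on the weight spaces -/
theorem le_rank (b : Bool) {g : G → Ω} (hg : X.wt ρ g ≠ ⊥)
    (hne : ∃ x ∈ B.T ⊓ X.H, g ((mm X b)⁻¹ * x * mm X b) ≠ g x) :
    Module.finrank Ω (X.wt ρ g) ≤
      Module.finrank Ω (X.wt ρ (fun x => g ((mm X b)⁻¹ * x * mm X b))) := by
  have hN := mm_N X b
  have hc : ((Nat.card (B.R ⟨1, X.n2⟩) : Ω)⁻¹ * g (mm X b * mm X b)) ≠ 0 := by
    have h1 : 0 < Nat.card (B.R ⟨1, X.n2⟩) := Nat.card_pos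
    have h2 : (Nat.card (B.R ⟨1, X.n2⟩) : Ω) ≠ 0 := by exact_mod_cast h1.ne'
    refine mul_ne_zero (inv_ne_zero h2) fun h3 => ?_
    have h4 := (wtX_mult hg).2 _ hN.2
    have h5 : 0 < Nat.card G := Nat.card_pos
    rw [h3, zero_pow h5.ne'] at h4
    exact zero_ne_one h4
  let F : X.wt ρ g →ₗ[Ω] X.wt ρ (fun x => g ((mm X b)⁻¹ * x * mm X b)) :=
    (((X.eH ρ).comp (ρ ⟨mm X b, mm_H X b⟩)).comp (X.wt ρ g).subtype).codRestrict _
      (fun v => wtX_N hN.1 (mm_H X b) v.2)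
  refine LinearMap.finrank_le_finrank_of_injective (f := F) ?_
  rw [← LinearMap.ker_eq_bot, LinearMap.ker_eq_bot']
  intro v hv
  have h1 : X.eH ρ (ρ ⟨mm X b, mm_H X b⟩ v) = 0 := congrArg Subtype.val hv
  have h2 := mm_sq v.2 b hne
  rw [h1, map_zero, map_zero] at h2
  rcases smul_eq_zero.1 h2.symm with h3 | h3
  · exact absurd h3 hc
  · exact Subtype.ext h3

/-- the involution of the weights -/
def tau {A : Type} (X : BD B) (g : G → A) : G → A :=
  fun x => g ((mm X (jj X g))⁻¹ * x * mm X (jj X g))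

theorem tau_tau {A : Type} (X : BD B) (g : G → A) {x : G} (hx : x ∈ B.T ⊓ X.H) :
    tau X (tau X g) x = g x := by
  have h1 : jj X (tau X g) = jj X g := jj_inv X g (jj X g)
  show g ((mm X (jj X g))⁻¹ * ((mm X (jj X (tau X g)))⁻¹ * x * mm X (jj X (tau X g))) *
    mm X (jj X g)) = g x
  rw [h1, conj2 X _ hx]

end Q03_aux

theorem nuD_even (hρ : ρ.IsIrreducible) {f : G → Ω} (h : X.wt ρ f ≠ ⊥) (hν : Nu X f) :
    Even (Module.finrank Ω (LinearMap.range (X.eH ρ))) := by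
  by_contra ho
  rw [Nat.not_even_iff_odd] at ho
  have hw : ∀ g : G → Ω, X.wt ρ g ≠ ⊥ →
      ∃ x ∈ B.T ⊓ X.H, g ((mm X (jj X g))⁻¹ * x * mm X (jj X g)) ≠ g x := by
    intro g hg
    obtain ⟨m, hm, hH, h1⟩ := wtX_conj hρ h hg
    obtain ⟨b, x, hx, h2⟩ := hν m hm
    have h3 : ∃ x ∈ B.T ⊓ X.H, g ((mm X b)⁻¹ * x * mm X b) ≠ g x := by
      refine ⟨x, hx, ?_⟩
      rw [h1 _ (conj_TX X b hx), h1 x hx]
      exact h2
    by_cases h4 : ∃ x ∈ B.T ⊓ X.H, g ((mm X false)⁻¹ * x * mm X false) ≠ g x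
    · have h5 : jj X g = false := if_pos h4
      rw [h5]
      exact h4
    · have h5 : jj X g = true := if_neg h4
      rw [h5]
      cases b
      · exact absurd h3 h4
      · exact h3
  have hle : ∀ g : G → Ω, Module.finrank Ω (X.wt ρ g) ≤ Module.finrank Ω (X.wt ρ (tau X g)) := by
    intro g
    by_cases hg : X.wt ρ g = ⊥
    · rw [hg, finrank_bot]
      exact Nat.zero_le _
    · exact le_rank (jj X g) hg (hw g hg)
  have hge : ∀ g : G → Ω, Module.finrank Ω (X.wt ρ (tau X g)) ≤ Module.finrank Ω (X.wt ρ g) := by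
    intro g
    have h1 := hle (tau X g)
    rwa [wtX_congr (f := tau X (tau X g)) (g := g) fun z hz => tau_tau X g hz] at h1
  obtain ⟨f', hf', h1⟩ := wtX_parity (ρ := ρ) (X := X) (B := B)
    (τ := tau X) (fun g => le_antisymm (hge g) (hle g))
    ⟨1, fun g _ x hx => tau_tau X g hx⟩
    (fun g g' hgg x hx => by
      have h2 : jj X g = jj X g' := jj_congr X hgg
      show g ((mm X (jj X g))⁻¹ * x * mm X (jj X g)) = g' ((mm X (jj X g'))⁻¹ * x * mm X (jj X g'))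
      rw [h2]
      exact hgg _ (conj_TX X _ hx)) ho
  obtain ⟨x, hx, h2⟩ := hw f' hf'
  exact h2 (h1 x hx)

end

end AO
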