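import Pool.Agent.AO.Q03
import Pool.Agent.AO.A02
import Pool.Agent.AO.L10
import Pool.Agent.AO.W04

/-!
# MP_6c3636_al, AO, module Q04: type D: the nu-case: the skew element (helper7)

As `nu_good` (W04, AO/W04.lean): `O` = the finite set of the `g : G → ℤˣ`, `g = 1` outside of `T ⊓ X.H`, with `wt ρ g ≠ ⊥`; `τ g = g ∘ conj (mm (jj g))⁻¹` is an involution of `O` without fixed points (`jj_inv`, `hν`, `wtX_conj`). `ε_g = g (mm b * mm b)`, `b = jj g`, `ε_(τ g) = ε_g`. Signs `d_g` with `d_(τ g) = - ε_g d_g`. The element `D' = ∑ b, ∑ g ∈ O with jj g = b, d_(τ g) π_(τ g) [mm b] π_g` of the rational group algebra of `X.H` (`[m] = e m e`, `π_g` the rational projection on the weight space of `g`) acts on `wt ρ g` as `d_(τ g) [mm (jj g)]`; its square is `d_g d_(τ g) [mm b] [mm b] = - ε_g * |R 1|⁻¹ * ε_g = - |R 1|⁻¹` (`mm_sq`). Skewness as in W04: `st D'` acts as `- D'`; take `s` the function of `½ (D' - st D')`. `|R 1|` is odd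 (`card_R`, L10). Then `good_unit` (A02) for the group `X.H`, `U = B.U.subgroupOf X.H`.
-/

namespace AO

noncomputable section

open Classical Equiv

open AN (sq)

variable {Ω : Type} [Field Ω] [IsAlgClosed Ω] [CharZero Ω] {G : Type} [Group G] [Finite G] {n : ℕ} {B : BN G n}
  {X : BD B} {V : Type} [AddCommGroup V] [Module Ω V] [FiniteDimensional Ω V] {ρ : Representation Ω X.H V}

namespace Q04_aux

/-- extension by one -/
def ex (X : BD B) (l : X.H → ℤˣ) : G → ℤˣ := fun x => if h : x ∈ X.H then l ⟨x, h⟩ else 1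

omit [Finite G] in
theorem ex_of (X : BD B) (l : X.H → ℤˣ) (x : X.H) : ex X l (x : G) = l x := by
  unfold ex
  rw [dif_pos x.2]

theorem two_sum {M : Type} [AddCommGroup M] (φ : Bool → M) (b0 : Bool) (h : ∀ b, b ≠ b0 → φ b = 0) :
    φ false + φ true = φ b0 := by
  cases b0
  · rw [h true (by simp), add_zero]
  · rw [h false (by simp), zero_add]

end Q04_aux

open W04_aux Q04_aux in
theorem nuD_good {c : Parker.Ctx Ω} {Γ : Subgroup (RingAut Ω)} (hΓ : Parker.Ok c 1 Γ)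
    (hρ : ρ.IsIrreducible) (hO : Parker.Orth ρ) (hF : Parker.FxC Γ ρ) {f : G → ℤˣ}
    (h : X.wt ρ (fun x => (((f x : ℤˣ) : ℤ) : Ω)) ≠ ⊥) (hν : Nu X f) : Parker.GoodV c Γ ρ := by
  obtain ⟨B', hB'⟩ := hO
  obtain ⟨i, hid⟩ : ∃ i : Fin n, i = ⟨1, X.n2⟩ := ⟨_, rfl⟩
  obtain ⟨S, hSd⟩ : ∃ S : Subgroup X.H, S = B.T.subgroupOf X.H := ⟨_, rfl⟩
  obtain ⟨U, hUd⟩ : ∃ U : Subgroup X.H, U = B.U.subgroupOf X.H := ⟨_, rfl⟩
  obtain ⟨ν, hνd⟩ : ∃ ν : Bool → X.H, ν = fun b => ⟨mm X b, mm_H X b⟩ := ⟨_, rfl⟩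
  have hνc : ∀ b, ((ν b : X.H) : G) = mm X b := by
    intro b
    rw [hνd]
  have hνρ : ∀ b, ρ ⟨mm X b, mm_H X b⟩ = ρ (ν b) := by
    intro b
    rw [hνd]
  have hN : ∀ b, mm X b ∈ B.N := fun b => (mm_N X b).1
  have memS : ∀ x : X.H, x ∈ S ↔ (x : G) ∈ B.T := by
    intro x
    rw [hSd, Subgroup.mem_subgroupOf]
  have memU : ∀ x : X.H, x ∈ U ↔ (x : G) ∈ B.U := by
    intro x
    rw [hUd, Subgroup.mem_subgroupOf]
  have eHd : X.eH ρ = eU U ρ := by
    rw [hUd]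
    rfl
  have hc : ∀ x ∈ S, ∀ y ∈ S, x * y = y * x := by
    intro x hx y hy
    exact Subtype.ext (B.Tc x ((memS x).1 hx) y ((memS y).1 hy))
  have h2 : ∀ b, ν b * ν b ∈ S := by
    intro b
    rw [memS, Subgroup.coe_mul, hνc]
    exact (mm_N X b).2.1
  have hconj : ∀ b, ∀ x : G, (mm X b)⁻¹ * x * mm X b ∈ B.T ↔ x ∈ B.T := by
    intro b x
    have h3 := N_T (B := B) (B.N.inv_mem (hN b)) (x := x)
    rwa [inv_inv] at h3
  have hS : ∀ b, ∀ x, (ν b)⁻¹ * x * ν b ∈ S ↔ x ∈ S := by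
    intro b x
    rw [memS, memS, Subgroup.coe_mul, Subgroup.coe_mul, Subgroup.coe_inv, hνc]
    exact hconj b x
  have hSU : ∀ x ∈ S, ∀ u ∈ U, x * u * x⁻¹ ∈ U := by
    intro x hx u hu
    rw [memU, Subgroup.coe_mul, Subgroup.coe_mul, Subgroup.coe_inv]
    exact B.TU x ((memS x).1 hx) u ((memU u).1 hu)
  -- the extension and the conjugation
  have hexc : ∀ b, ∀ l : X.H → ℤˣ, ∀ x : X.H, ex X l ((mm X b)⁻¹ * (x : G) * mm X b) = tau (ν b) l x := by
    intro b l x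
    have h3 : (mm X b)⁻¹ * (x : G) * mm X b = (((ν b)⁻¹ * x * ν b : X.H) : G) := by
      rw [Subgroup.coe_mul, Subgroup.coe_mul, Subgroup.coe_inv, hνc]
    rw [h3, ex_of]
    rfl
  obtain ⟨J, hJd⟩ : ∃ J : (X.H → ℤˣ) → Bool, J = fun l => jj X (ex X l) := ⟨_, rfl⟩
  have hJ : ∀ b, ∀ l : X.H → ℤˣ, J (tau (ν b) l) = J l := by
    intro b l
    rw [hJd]
    show jj X (ex X (tau (ν b) l)) = jj X (ex X l)
    rw [← jj_inv X (ex X l) b]
    refine jj_congr X fun x hx => ?_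
    have h3 := ex_of X (tau (ν b) l) ⟨x, hx.2⟩
    have h4 := hexc b l ⟨x, hx.2⟩
    rw [← h4] at h3
    exact h3
  have hd0 := fun b => exists_d hc (h2 b) (hS b)
  choose d0 hd0 using hd0
  obtain ⟨d, hdd⟩ : ∃ d : Bool → (X.H → ℤˣ) → ℚ, d = fun b l => if J l = b then d0 b l else 0 := ⟨_, rfl⟩
  have hd1 : ∀ b l, J l = b → d b l = d0 b l := by
    intro b l h3
    rw [hdd]
    show (if J l = b then d0 b l else 0) = d0 b l
    rw [if_pos h3]
  have hd2 : ∀ b l, J l ≠ b → d b l = 0 := by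
    intro b l h3
    rw [hdd]
    show (if J l = b then d0 b l else 0) = 0
    rw [if_neg h3]
  obtain ⟨Y, hY⟩ : ∃ Y : LieP.Al ℚ X.H, Y = YY S U (ν false) (d false) + YY S U (ν true) (d true) := ⟨_, rfl⟩
  have hact : Parker.act ρ (fun g => ((Y.coeff g : ℚ) : Ω)) = ev ρ Y := by
    rw [ev_act]
    refine congrArg _ (funext fun g => ?_)
    rw [eq_ratCast]
  have hc' : ((Nat.card (B.R i) : ℚ))⁻¹ ≠ 0 := inv_ne_zero (Nat.cast_ne_zero.2 Nat.card_pos.ne')
  -- the images of the weight vectors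
  have himg : ∀ b, ∀ l : X.H → ℤˣ, ∀ v : V, eU U ρ v = v → (∀ x ∈ S, ρ x v = (((l x : ℤˣ) : ℤ) : Ω) • v) →
      eU U ρ (eU U ρ (ρ (ν b) v)) = eU U ρ (ρ (ν b) v) ∧
      ∀ x ∈ S, ρ x (eU U ρ (ρ (ν b) v)) = (((tau (ν b) l x : ℤˣ) : ℤ) : Ω) • eU U ρ (ρ (ν b) v) := by
    intro b l v hvE hvw
    have hv : v ∈ X.wt ρ (fun x => (((ex X l x : ℤˣ) : ℤ) : Ω)) := by
      refine ⟨by rw [eHd]; exact hvE, fun x hx hT => ?_⟩
      have h3 := hvw ⟨x, hx⟩ ((memS _).2 hT)
      rw [← ex_of X l ⟨x, hx⟩] at h3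
      exact h3
    have h3 := wtX_N (ρ := ρ) (hN b) (mm_H X b) hv
    refine ⟨?_, fun x hx => ?_⟩
    · have h4 := h3.1
      rw [hνρ, eHd] at h4
      exact h4
    · have h4 := h3.2 x x.2 ((memS x).1 hx)
      rw [hνρ, eHd] at h4
      simp only at h4
      rw [hexc b l x] at h4
      exact h4
  -- the action of the element on the weight vectors
  have hgen : ∀ l ∈ LieP.lins S, tau (ν (J l)) l ≠ l → ∀ v : V, eU U ρ v = v →
      (∀ x ∈ S, ρ x v = (((l x : ℤˣ) : ℤ) : Ω) • v) →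
      ev ρ Y v = (algebraMap ℚ Ω (d0 (J l) (tau (ν (J l)) l))) • eU U ρ (ρ (ν (J l)) v) := by
    intro l hl hne v hvE hvw
    have h3 : ∀ b, ev ρ (YY S U (ν b) (d b)) v =
        (algebraMap ℚ Ω (d b (tau (ν b) l))) • eU U ρ (ρ (ν b) v) := by
      intro b
      refine ev_Y ρ U (h2 b) hl (hS b) ?_ hvE hvw (himg b l v hvE hvw).2
      by_cases hb : J l = b
      · rw [hd1 b l hb, hd1 b _ ((hJ b l).trans hb)]
        subst hb
        exact (hd0 _ l hl hne).1
      · rw [hd2 b l hb, hd2 b _ (by rw [hJ b l]; exact hb), mul_zero, neg_zero]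
    have h4 : ev ρ Y v = ev ρ (YY S U (ν false) (d false)) v + ev ρ (YY S U (ν true) (d true)) v := by
      rw [hY, map_add, LinearMap.add_apply]
    rw [h4, two_sum (fun b => ev ρ (YY S U (ν b) (d b)) v) (J l) ?_]
    · show ev ρ (YY S U (ν (J l)) (d (J l))) v = _
      rw [h3, hd1 _ _ (hJ _ l)]
    · intro b hb
      show ev ρ (YY S U (ν b) (d b)) v = 0
      rw [h3, hd2 b _ (by rw [hJ b l]; exact fun h5 => hb h5.symm), map_zero, zero_smul]
  -- the square on the range of the projection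
  have hcore : LinearMap.range (X.eH ρ) ≤
      LinearMap.ker (ev ρ Y * ev ρ Y + (algebraMap ℚ Ω ((Nat.card (B.R i) : ℚ))⁻¹) • 1) := by
    refine wtX_sup fun g v hv => ?_
    by_cases hg : X.wt ρ g = ⊥
    · rw [hg, Submodule.mem_bot] at hv
      rw [hv]
      exact Submodule.zero_mem _
    obtain ⟨m, hm, hmH, hm2⟩ := wtX_conj hρ h hg
    obtain ⟨g', hg'⟩ : ∃ g' : G → ℤˣ, g' = fun x => f (m⁻¹ * x * m) := ⟨_, rfl⟩
    have hgg : ∀ x ∈ B.T ⊓ X.H, g x = (((g' x : ℤˣ) : ℤ) : Ω) := by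
      intro x hx
      rw [hm2 x hx, hg']
    obtain ⟨l, hld⟩ : ∃ l : X.H → ℤˣ, l = fun x => if x ∈ S then g' x else 1 := ⟨_, rfl⟩
    have hl1 : ∀ x ∈ S, l x = g' x := by
      intro x hx
      rw [hld]
      show (if x ∈ S then g' x else 1) = g' x
      rw [if_pos hx]
    have hxT : ∀ x ∈ S, (x : G) ∈ B.T ⊓ X.H := fun x hx => ⟨(memS x).1 hx, x.2⟩
    have hl : l ∈ LieP.lins S := by
      rw [LieP.mem_lins]
      refine ⟨?_, ?_⟩
      · intro x hx y hy
        rw [hl1 x hx, hl1 y hy, hl1 _ (S.mul_mem hx hy)]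
        have h3 := (wtX_mult hg).1 x (hxT x hx) y (hxT y hy)
        rw [hgg _ (hxT x hx), hgg _ (hxT y hy), ← Subgroup.coe_mul, hgg _ (hxT _ (S.mul_mem hx hy))] at h3
        have h4 : (((g' ((x * y : X.H) : G) : ℤˣ) : ℤ)) = ((g' x : ℤˣ) : ℤ) * ((g' y : ℤˣ) : ℤ) := by
          exact_mod_cast h3
        rw [← Units.val_mul] at h4
        exact Units.ext h4
      · intro x hx
        rw [hld]
        show (if x ∈ S then g' x else 1) = 1
        rw [if_neg hx]
    obtain ⟨b, hb⟩ : ∃ b, b = J l := ⟨_, rfl⟩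
    have hbj : jj X g' = b := by
      rw [hb, hJd]
      refine jj_congr X fun x hx => ?_
      have h3 := ex_of X l ⟨x, hx.2⟩
      rw [hl1 _ ((memS _).2 hx.1)] at h3
      exact h3.symm
    have hne : ∃ x ∈ B.T ⊓ X.H, g' ((mm X b)⁻¹ * x * mm X b) ≠ g' x := by
      have h4 : ∃ b : Bool, ∃ x ∈ B.T ⊓ X.H, g' ((mm X b)⁻¹ * x * mm X b) ≠ g' x := by
        obtain ⟨b', x, hx, h3⟩ := hν m hm
        refine ⟨b', x, hx, ?_⟩
        rw [hg']
        exact h3
      by_cases h3 : ∃ x ∈ B.T ⊓ X.H, g' ((mm X false)⁻¹ * x * mm X false) ≠ g' x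
      · have h5 : b = false := by
          rw [← hbj]
          unfold jj
          rw [if_pos h3]
        rw [h5]
        exact h3
      · have h5 : b = true := by
          rw [← hbj]
          unfold jj
          rw [if_neg h3]
        rw [h5]
        obtain ⟨b', hb'⟩ := h4
        cases b'
        · exact absurd hb' h3
        · exact hb'
    have hcT : ∀ x ∈ B.T ⊓ X.H, (mm X b)⁻¹ * x * mm X b ∈ B.T ⊓ X.H := by
      intro x hx
      refine ⟨(hconj b x).2 hx.1, ?_⟩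
      exact X.H.mul_mem (X.H.mul_mem (X.H.inv_mem (mm_H X b)) hx.2) (mm_H X b)
    have htau : ∀ x ∈ S, tau (ν b) l x = g' ((mm X b)⁻¹ * x * mm X b) := by
      intro x hx
      show l ((ν b)⁻¹ * x * ν b) = _
      rw [hl1 _ ((hS b x).2 hx), Subgroup.coe_mul, Subgroup.coe_mul, Subgroup.coe_inv, hνc]
    have htne : tau (ν b) l ≠ l := by
      obtain ⟨x, hx, h3⟩ := hne
      intro h4
      have hxS : (⟨x, hx.2⟩ : X.H) ∈ S := (memS _).2 hx.1
      have h5 := congrFun h4 ⟨x, hx.2⟩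
      rw [htau _ hxS, hl1 _ hxS] at h5
      exact h3 h5
    have htt := tau_tau hc (h2 b) (hS b) hl
    have htne' : tau (ν b) (tau (ν b) l) ≠ tau (ν b) l := by
      rw [htt]
      exact htne.symm
    -- the vectors
    have hvE : eU U ρ v = v := by
      rw [← eHd]
      exact hv.1
    have hvw : ∀ x ∈ S, ρ x v = (((l x : ℤˣ) : ℤ) : Ω) • v := by
      intro x hx
      have h3 := hv.2 x x.2 ((memS x).1 hx)
      rw [hgg _ (hxT x hx), ← hl1 x hx] at h3
      exact h3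
    obtain ⟨hwE, hww⟩ := himg b l v hvE hvw
    have hsq := mm_sq (ρ := ρ) hv b (by
      obtain ⟨x, hx, h3⟩ := hne
      refine ⟨x, hx, ?_⟩
      rw [hgg _ hx, hgg _ (hcT x hx)]
      intro h4
      apply h3
      exact Units.ext (by exact_mod_cast h4))
    rw [eHd, hνρ, hgg _ (mm_N X b).2, ← hid] at hsq
    have hεl : l (ν b * ν b) = g' (mm X b * mm X b) := by
      rw [hl1 _ (h2 b), Subgroup.coe_mul, hνc]
    rw [← hεl] at hsq
    have hY1 := hgen l hl (by rw [← hb]; exact htne) v hvE hvw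
    rw [← hb] at hY1
    have hJt : J (tau (ν b) l) = b := by rw [hJ b l, hb]
    have hY2 := hgen (tau (ν b) l) (tau_lins (hS b) hl) (by rw [hJt]; exact htne') _ hwE hww
    rw [hJt] at hY2
    rw [LinearMap.mem_ker, LinearMap.add_apply, Module.End.mul_apply, hY1, map_smul, hY2, htt, hsq,
      LinearMap.smul_apply, Module.End.one_apply, smul_smul, smul_smul, ← add_smul]
    have h6 : algebraMap ℚ Ω (d0 b (tau (ν b) l)) * (algebraMap ℚ Ω (d0 b l) *
        ((Nat.card (B.R i) : Ω)⁻¹ * (((l (ν b * ν b) : ℤˣ) : ℤ) : Ω))) +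
        algebraMap ℚ Ω ((Nat.card (B.R i) : ℚ))⁻¹ = 0 := by
      have h7 := (hd0 b l hl htne).2
      have h8 := LieP.A02_aux.unit_sq (k := Ω) (l (ν b * ν b))
      have h9 := congrArg (algebraMap ℚ Ω) h7
      rw [map_mul, map_one] at h9
      rw [(hd0 b l hl htne).1, map_neg, map_mul, map_intCast, map_inv₀, map_natCast]
      linear_combination (-(Nat.card (B.R i) : Ω)⁻¹ * (algebraMap ℚ Ω (d0 b l) * algebraMap ℚ Ω (d0 b l))) * h8 -
        (Nat.card (B.R i) : Ω)⁻¹ * h9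
    simp only [mul_assoc] at h6 ⊢
    rw [h6, zero_smul]
  have hodd : Odd (Nat.card U) := by
    rw [hUd, Nat.card_congr (Subgroup.subgroupOfEquivOfLe X.UH).toEquiv]
    exact card_U B
  have hsolv : Group.IsSolvable U := by
    have h3 := solv_U B
    rw [hUd]
    exact Group.isSolvable_of_surjective (f := (Subgroup.subgroupOfEquivOfLe X.UH).symm.toMonoidHom)
      (Subgroup.subgroupOfEquivOfLe X.UH).symm.surjective
  have hYe : LieP.av ℚ U * Y = Y := by
    rw [hY, mul_add, e_Y U hSU, e_Y U hSU]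
  have hYe' : Y * LieP.av ℚ U = Y := by
    rw [hY, add_mul, Y_e U hSU, Y_e U hSU]
  have hst : LieP.st Y = -Y := by
    rw [hY, LieP.st_add, st_Y, st_Y, neg_add]
  refine good_unit (s := fun g => Y.coeff g) hΓ hF hB' hodd hsolv ?_ ?_ ?_ hc' ?_ ?_
  · intro g
    have h3 := congrArg (fun a : LieP.Al ℚ X.H => a.coeff g) hst
    rw [LieP.coeff_st] at h3
    exact h3
  · rw [hact, ← ev_av ρ U, ← map_mul, hYe]
  · rw [hact, ← ev_av ρ U, ← map_mul, hYe']
  · rw [padicValRat.inv, padicValRat.of_nat, padicValNat.eq_zero_of_not_dvd]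
    · rfl
    · intro h3
      have h4 := card_R B i
      rw [← Nat.not_even_iff_odd] at h4
      exact h4 (even_iff_two_dvd.2 h3)
  · rw [hact]
    have hYE : ev ρ Y * eU U ρ = ev ρ Y := by
      rw [← ev_av ρ U, ← map_mul, hYe']
    refine LinearMap.ext fun v => ?_
    have h3 : eU U ρ v ∈ LinearMap.range (X.eH ρ) := ⟨v, by rw [eHd]⟩
    have h4 := hcore h3
    rw [LinearMap.mem_ker, LinearMap.add_apply, Module.End.mul_apply, LinearMap.smul_apply, Module.End.one_apply,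
      ← Module.End.mul_apply (ev ρ Y) (eU U ρ), hYE] at h4
    rw [Module.End.mul_apply, LinearMap.neg_apply, LinearMap.smul_apply, eq_neg_iff_add_eq_zero]
    rw [eq_ratCast] at h4
    exact h4

end

end AO
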