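import Pool.Agent.AO.QDefs
import Pool.Agent.AO.H03

/-!
# MP_6c3636_al, AO, module Q05: type D: twisted intertwiners in the seminormal basis (helper7)

As `tw_sn` in H03 (AO/H03.lean; read its proof and generalise: the character `X.ch p` is trivial on `U`, it is `1` or `th (fun _ => true)` on `T` according to `p.2`, `X.ch p (s i)` is `1` or `sn true` for `i > 0` (`ds`, `ls`), and `(-1) ^ p.1` for `i = 0`). `Z` maps `E0 a` to `E0 (a xor p.2)`; `Z T_k = (sign) T_k Z` on each label with a sign that is the same for `a` and `sq a`; `Z X = ± X Z` with the sign `(-1) ^ p.1`; so `Z (J_k v) = ± J_k (Z v)`, and `Z (v β)` is in the weight space of `dpS p β` (`P.x (dp p y, c) = (-1) ^ p.1 * P.x (y, c)` as `P.r y = sg y` by `PD P`, `sg_dp`, `lb_dp`), which is spanned by `v (dpS p β)` in the range of `e`.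
-/

namespace AO

noncomputable section

open Classical Equiv

open AN (sq)

variable {k : Type} [Field k] [CharZero k] [Algebra k ℝ] {Ω : Type} [Field Ω] [IsAlgClosed Ω] [CharZero Ω]
  [Algebra k Ω] {G : Type} [Group G] [Finite G] {n : ℕ} {B : BN G n} {P : Par k}
  {D : HA P n (MonoidAlgebra k G)} {W : Type} [AddCommGroup W] [Module Ω W] [FiniteDimensional Ω W]
  {M : Representation Ω G W} {X : BD B}

namespace Q05_aux

open H03_aux

/-- the labels after the twist -/
def xr (p : Bool × Bool) (a : Fin n → Bool) : Fin n → Bool := fun i => xor (a i) p.2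

theorem xr_sq (p : Bool × Bool) (i j : Fin n) (a : Fin n → Bool) : xr p (sq a i j) = sq (xr p a) i j := rfl

/-- the sign of the twist -/
def tau (B : BN G n) (k : Type) [Field k] (Ω : Type) [Field Ω] [Algebra k Ω] (la : G →* ℤˣ)
    (p : Bool × Bool) (i j : Fin n) (a : Fin n → Bool) : Ω :=
  algebraMap k Ω (B.sgl k i j a) * (((la (B.s j) : ℤˣ) : ℤ) : Ω) *
    algebraMap k Ω (B.sgl k i j (xr p a))

theorem tau_sq (la : G →* ℤˣ) (p : Bool × Bool) (i j : Fin n) (a : Fin n → Bool) :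
    tau B k Ω la p i j (sq a i j) = tau B k Ω la p i j a := by
  rw [tau, tau, xr_sq, sgl_sq, sgl_sq]

theorem tau_mul (la : G →* ℤˣ) (p : Bool × Bool) (i j : Fin n) (a : Fin n → Bool) :
    tau B k Ω la p i j a * tau B k Ω la p i j a = 1 := by
  have h1 : algebraMap k Ω (B.sgl k i j a) * algebraMap k Ω (B.sgl k i j a) = 1 := by
    rw [← map_mul, sgl_mul, map_one]
  have h2 : algebraMap k Ω (B.sgl k i j (xr p a)) * algebraMap k Ω (B.sgl k i j (xr p a)) = 1 := by
    rw [← map_mul, sgl_mul, map_one]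
  have h3 := unit_mul (Ω := Ω) (la (B.s j))
  rw [tau]
  calc _ = (algebraMap k Ω (B.sgl k i j a) * algebraMap k Ω (B.sgl k i j a)) *
        ((((la (B.s j) : ℤˣ) : ℤ) : Ω) * (((la (B.s j) : ℤˣ) : ℤ) : Ω)) *
        (algebraMap k Ω (B.sgl k i j (xr p a)) * algebraMap k Ω (B.sgl k i j (xr p a))) := by ring
    _ = 1 := by rw [h1, h2, h3, one_mul, one_mul]

theorem tw_E0' {p : Bool × Bool} {Z : Module.End Ω W} (h : Tw B k M (X.ch p) Z) (a : Fin n → Bool) {v : W}
    (hv : ev M (B.e k) v = v) :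
    Z (ev M (B.E0 k a) v) = ev M (B.E0 k (xr p a)) (Z v) := by
  rcases Bool.eq_false_or_eq_true p.2 with hp | hp
  · have h2 : ∀ x ∈ B.T, X.ch p x = B.th (fun _ => true) x := by
      intro x hx
      rw [BD.ch_apply, X.dT x hx, X.lT x hx, if_pos hp, ite_self, one_mul]
    have h3 : xr p a = fun i => !(a i) := by
      funext i
      show xor (a i) p.2 = !(a i)
      rw [hp, Bool.xor_true]
    rw [h3]
    exact tw_E0 h2 h a hv
  · have h2 : ∀ x ∈ B.T, X.ch p x = 1 := by
      intro x hx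
      rw [BD.ch_apply, X.dT x hx, hp, ite_self, one_mul]
      rfl
    have h3 : xr p a = a := by
      funext i
      show xor (a i) p.2 = a i
      rw [hp, Bool.xor_false]
    rw [h3]
    have := Fintype.ofFinite G
    rw [H02_aux.E0_sum, map_sum, LinearMap.sum_apply, LinearMap.sum_apply, map_sum]
    refine Finset.sum_congr rfl fun g _ => ?_
    rw [ev_smul, LinearMap.smul_apply, LinearMap.smul_apply, map_smul, h.tw g v hv]
    by_cases hg : g ∈ B.T
    · rw [h2 g hg, Units.val_one, Int.cast_one, one_smul]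
    · rw [if_neg hg, map_zero, zero_smul, zero_smul]

theorem tw_T (hD : Dg B P D) {p : Bool × Bool} {Z : Module.End Ω W} (h : Tw B k M (X.ch p) Z)
    {i j : Fin n} (hj : (j : ℕ) = i + 1) {a : Fin n → Bool} {u : W}
    (hu : ev M (B.E0 k a) u = u) :
    Z ((D.on M).T i u) = tau B k Ω (X.ch p) p i j a • (D.on M).T i (Z u) := by
  have he := e_app hu
  have hZ : ev M (B.E0 k (xr p a)) (Z u) = Z u := by
    rw [← tw_E0' h a he, hu]
  rw [T_app hD X.gd hj hu, T_app hD X.gd hj hZ, map_smul, h.tw _ _ he, smul_smul, smul_smul, tau]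
  congr 1
  have h1 : algebraMap k Ω (B.sgl k i j (xr p a)) * algebraMap k Ω (B.sgl k i j (xr p a)) = 1 := by
    rw [← map_mul, sgl_mul, map_one]
  rw [mul_assoc _ (algebraMap k Ω (B.sgl k i j (xr p a))), h1, mul_one]

theorem tw_X (hD : Dg B P D) {p : Bool × Bool} {Z : Module.End Ω W} (h : Tw B k M (X.ch p) Z)
    {i : Fin n} (hi : (i : ℕ) = 0) {a : Fin n → Bool} {u : W} (hu : ev M (B.E0 k a) u = u) :
    Z ((D.on M).X u) = (((X.ch p (B.s i) : ℤˣ) : ℤ) : Ω) • (D.on M).X (Z u) := by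
  have he := e_app hu
  have hZ : ev M (B.E0 k (xr p a)) (Z u) = Z u := by
    rw [← tw_E0' h a he, hu]
  rw [X_app hD X.gd hi hu, X_app hD X.gd hi hZ, h.tw _ _ he]

theorem tw_J (hD : Dg B P D) (hn : 0 < n) {p : Bool × Bool} {Z : Module.End Ω W}
    (h : Tw B k M (X.ch p) Z) :
    (∀ (i : Fin n) (a : Fin n → Bool) (u : W), ev M (B.E0 k a) u = u →
      ev M (B.E0 k a) ((D.on M).J i u) = (D.on M).J i u) ∧
    ∀ (i : Fin n) (a : Fin n → Bool) (u : W), ev M (B.E0 k a) u = u →
      Z ((D.on M).J i u) = (((X.ch p (B.s ⟨0, hn⟩) : ℤˣ) : ℤ) : Ω) • (D.on M).J i (Z u) := by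
  have hJE : ∀ (i : Fin n) (a : Fin n → Bool) (u : W), ev M (B.E0 k a) u = u →
      ev M (B.E0 k a) ((D.on M).J i u) = (D.on M).J i u := by
    intro i a u hu
    have h3 := congrArg (fun f : Module.End Ω W => f u) (HA.JE (D.on M) i a)
    simp only [Module.End.mul_apply] at h3
    rw [onE hD X.gd, hu] at h3
    exact h3.symm
  have hTE : ∀ (i j : Fin n), (j : ℕ) = i + 1 → ∀ (a : Fin n → Bool) (u : W), ev M (B.E0 k a) u = u →
      ev M (B.E0 k (sq a i j)) ((D.on M).T i u) = (D.on M).T i u := by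
    intro i j hj a u hu
    have h3 := congrArg (fun f : Module.End Ω W => f u) ((D.on M).TE i j hj a)
    simp only [Module.End.mul_apply] at h3
    rw [onE hD X.gd, onE hD X.gd, hu] at h3
    exact h3.symm
  refine ⟨hJE, ?_⟩
  have hm : ∀ m : ℕ, ∀ hm : m < n, ∀ (a : Fin n → Bool) (u : W), ev M (B.E0 k a) u = u →
      Z ((D.on M).J ⟨m, hm⟩ u) = (((X.ch p (B.s ⟨0, hn⟩) : ℤˣ) : ℤ) : Ω) • (D.on M).J ⟨m, hm⟩ (Z u) := by
    intro m
    induction m with
    | zero =>
      intro hm a u hu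
      rw [HA.J0 (D.on M) ⟨0, hm⟩ rfl]
      exact tw_X hD h rfl hu
    | succ m ih =>
      intro hm a u hu
      have hm' : m < n := by omega
      have hj : (((⟨m + 1, hm⟩ : Fin n)) : ℕ) = ((⟨m, hm'⟩ : Fin n) : ℕ) + 1 := rfl
      have hu1 := hTE _ _ hj a u hu
      have hu2 := hJE ⟨m, hm'⟩ _ _ hu1
      rw [HA.Js (D.on M) hj]
      simp only [LinearMap.smul_apply, Module.End.mul_apply]
      rw [map_smul, tw_T hD h hj hu2, ih hm' _ _ hu1, tw_T hD h hj hu, tau_sq]
      simp only [map_smul, smul_smul]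
      congr 1
      calc _ = (P.map (algebraMap k Ω)).Q * (((X.ch p (B.s ⟨0, hn⟩) : ℤˣ) : ℤ) : Ω) *
            (tau B k Ω (X.ch p) p ⟨m, hm'⟩ ⟨m + 1, hm⟩ a *
              tau B k Ω (X.ch p) p ⟨m, hm'⟩ ⟨m + 1, hm⟩ a) := by ring
        _ = _ := by rw [tau_mul]; ring
  intro i a u hu
  exact hm i.1 i.2 a u hu

theorem ch_s0 (X : BD B) (p : Bool × Bool) {i : Fin n} (hi : (i : ℕ) = 0) :
    X.ch p (B.s i) = if p.1 = true then -1 else 1 := by
  rw [BD.ch_apply, X.d0 i hi, X.l0 i hi, ite_self, mul_one]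

theorem x_dp (hpd : PD P) (p : Bool × Bool) (z : AO.Et) :
    (P.map (algebraMap k Ω)).x (dp p z.1, z.2) =
      (if p.1 = true then -1 else 1) * (P.map (algebraMap k Ω)).x z := by
  have hr : ∀ y : Ty, (P.map (algebraMap k Ω)).r y = ((sg y : ℤ) : Ω) := by
    intro y
    rw [map_r]
    show algebraMap k Ω (P.w (lb y) * ((sg y : ℤ) : k) * (P.q : k) ^ (P.j y)) = _
    rw [hpd.1, hpd.2, one_mul, zpow_zero, mul_one, map_intCast]
  show (P.map (algebraMap k Ω)).r (dp p z.1) * (P.map (algebraMap k Ω)).Q ^ z.2 =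
    (if p.1 = true then -1 else 1) * ((P.map (algebraMap k Ω)).r z.1 * (P.map (algebraMap k Ω)).Q ^ z.2)
  rw [hr, hr, sg_dp]
  split_ifs
  · push_cast
    ring
  · ring

end Q05_aux

open H03_aux Q05_aux

theorem tw_snD (hM : M.IsIrreducible) (hP : Fit B P) (hpd : PD P) (hD : Dg B P D)
    {F : AO.Et → ℤ} {v : (Fin n → AO.Et) → W} (hv : SN (D.on M) F v)
    (hs : Submodule.span Ω (Set.range (fun β : {β // β ∈ SFT n F} => v β)) =
      LinearMap.range (ev M (B.e k))) (p : Bool × Bool)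
    {Z : Module.End Ω W} (h : Tw B k M (X.ch p) Z) (h0 : ∃ v, ev M (B.e k) v = v ∧ Z v ≠ 0) :
    ∃ κ : (Fin n → AO.Et) → Ω, ∀ β ∈ SqT n F, dpS p β ∈ SqT n F ∧ κ β ≠ 0 ∧
      Z (v β) = κ β • v (dpS p β) := by
  have hn : 0 < n := lt_of_lt_of_le (by norm_num) X.n2
  have key : ∀ β ∈ SqT n F, dpS p β ∈ SqT n F ∧ ∃ c : Ω, c ≠ 0 ∧ Z (v β) = c • v (dpS p β) := by
    intro β hβ
    have hE : ev M (B.E0 k (fun i => lb (β i).1)) (v β) = v β := by
      rw [← onE hD X.gd]
      exact (hv.wt β hβ).1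
    have he := e_app hE
    refine joint hv ?_ ?_ ?_
    · rw [hs]
      exact ⟨Z (v β), h.mem _ he⟩
    · intro h3
      exact hv.nz β hβ (tw_inj hM h h0 he h3)
    · obtain ⟨h3, h4⟩ := tw_J hD hn h
      have hZ : ev M (B.E0 k (xr p (fun i => lb (β i).1))) (Z (v β)) = Z (v β) := by
        rw [← tw_E0' h (fun i => lb (β i).1) he, hE]
      refine ⟨?_, fun i => ?_⟩
      · rw [onE hD X.gd]
        have h5 : (fun i => lb ((dpS p β) i).1) = xr p (fun i => lb (β i).1) := by
          funext i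
          exact lb_dp p _
        rw [h5]
        exact hZ
      · have h5 := h4 i (fun i => lb (β i).1) (v β) hE
        have h6 : (D.on M).J i (v β) = (P.map (algebraMap k Ω)).x (β i) • v β := (hv.wt β hβ).2 i
        rw [h6, map_smul] at h5
        have h8 : (((X.ch p (B.s ⟨0, hn⟩) : ℤˣ) : ℤ) : Ω) = if p.1 = true then -1 else 1 := by
          rw [ch_s0 X p rfl]
          split_ifs
          · simp
          · simp
        have h7 : (P.map (algebraMap k Ω)).x ((dpS p β) i) =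
            (((X.ch p (B.s ⟨0, hn⟩) : ℤˣ) : ℤ) : Ω) * (P.map (algebraMap k Ω)).x (β i) := by
          rw [h8]
          exact x_dp hpd p (β i)
        show (D.on M).J i (Z (v β)) = (P.map (algebraMap k Ω)).x ((dpS p β) i) • Z (v β)
        rw [h7, mul_smul, h5, smul_smul, unit_mul, one_smul]
  refine ⟨fun β => if hβ : β ∈ SqT n F then (key β hβ).2.choose else 0, fun β hβ => ?_⟩
  have h3 := (key β hβ).2.choose_spec
  simp only [dif_pos hβ]
  exact ⟨(key β hβ).1, h3.1, h3.2⟩

theorem dpS_F {F : AO.Et → ℤ} {p : Bool × Bool} {β : Fin n → AO.Et} (h : β ∈ SqT n F)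
    (h' : dpS p β ∈ SqT n F) (y : Ty) (x : ℤ) : F (dp p y, x) = F (y, x) := by
  have h1 : ∀ c : ℤ, cnT (dpS p β) n (dp p y, c) = cnT β n (y, c) := by
    intro c
    unfold cnT
    congr 1
    ext j
    simp only [Finset.mem_filter, Finset.mem_univ, true_and]
    refine and_congr_right fun _ => ?_
    constructor
    · intro h3
      have h4 : dp p (β j).1 = dp p y := congrArg Prod.fst h3
      have h5 : (β j).2 = c := congrArg Prod.snd h3
      refine Prod.ext ?_ h5
      rw [← dp_dp p (β j).1, h4, dp_dp]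
    · intro h3
      show (dp p (β j).1, (β j).2) = (dp p y, c)
      rw [h3]
  have h2 := congrFun h.2 (y, x)
  have h3 := congrFun h'.2 (dp p y, x)
  rw [← h2, ← h3]
  unfold occT
  simp only
  rw [h1, h1]

end

end AO
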