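import Pool.Agent.AO.Q05

/-!
# MP_6c3636_al, AO, module Q06: type D: signs of the coefficients (helper7)

Let `β, γ = sq β i l ∈ SqT n F`, `l = i + 1`, `Be (β i) (β l)`: `T i (v β) = al • v β + v γ` (`hv.up`). Let `δ = dpS p`. Apply `Z`: `Z T = t T Z` on the labels of `β`, where `t = 1` if `p.2 = false` or the labels of `β i`, `β l` are equal, `t = sn true` if `p.2 = true` and they are different (`Tg`, `sgl`: `sgl` is `sn true` if both labels are true, else `1`; `X.ch p (s l)` is `sn true` for `p.2 = true`). If `Be (δ β i) (δ β l)`: `T (v (δ β)) = al' • v (δ β) + v (δ γ)`, so `κ γ = t κ β`. Otherwise `Be (δ β l) (δ β i)` (the types are different), `T (v (δ γ)) = al'' • v (δ γ) + v (δ β)` and `T (v (δ β)) = .. • v (δ β) + nu • v (δ γ)` (from `T T`), `nu = P.nu (δ β l) (δ β i)`, a positive rational number (`nm`-positivity: see K-series `nu_pos` or so), so `κ γ = t nu κ β`. `lin` changes by one in the case of different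 labels and not otherwise. All elements of `SqT n F` are connected by such moves (see the S or K series: the induction used for `exists_sn`, `SN.orth`, ...). So `κ β = q * (sn true) ^ lin β * c`. `kap_cmp`: `Z Z' = c₀ Z' Z`: `tw_prop` (H02) for `Z * Z'`, `Z' * Z`, both twisted by `X.ch (pa p p')`; `Z (Z v) = a • v`, `a ≠ 0` (`tw_sq`, `tw_inj`), so `c₀ ^ 2 = 1`. `κ' β κ (δ' β) = c₀ κ β κ' (δ β)`: by `kap_pos` `κ (δ' β) / κ β` is a positive rational number times `(sn true) ^ (lin (δ' β) - lin β)` if `p.2 = true`, and `lin (δ' β) = lin β` if `p'.2 = false`, `lin (δ' β) + lin β = (number of the pairs with different labels)` if `p'.2 = true`; the same for `κ'`; if `p.2 = p'.2 = true` both sides have the same sign. So `c₀ > 0`, `c₀ = 1`.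
-/

namespace AO

noncomputable section

open Classical Equiv

open AN (sq)

namespace Q06_aux

section General

variable {K : Type} [Field K] [CharZero K] {V : Type} [AddCommGroup V] [Module K V] {P : Par K} {n : ℕ}
  {D : HA P n (Module.End K V)}

/-- two different vectors of a seminormal basis are linearly independent -/
theorem Q06_pair {F : AO.Et → ℤ} {v : (Fin n → AO.Et) → V} (h : SN D F v) {β γ : Fin n → AO.Et}
    (hβ : β ∈ SqT n F) (hγ : γ ∈ SqT n F) (hne : β ≠ γ) {a b a' b' : K}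
    (hab : a • v β + b • v γ = a' • v β + b' • v γ) : a = a' ∧ b = b' := by
  have hli := h.li
  have hinj : Function.Injective
      (![⟨β, mem_SFT.2 hβ⟩, ⟨γ, mem_SFT.2 hγ⟩] : Fin 2 → {β // β ∈ SFT n F}) := by
    intro i j hij
    fin_cases i <;> fin_cases j
    · rfl
    · exact absurd (congrArg Subtype.val hij) hne
    · exact absurd (congrArg Subtype.val hij).symm hne
    · rfl
  have h2 := hli.comp _ hinj
  have h3 : LinearIndependent K ![v β, v γ] := by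
    have he : ((fun β : {β // β ∈ SFT n F} => v β) ∘
        (![⟨β, mem_SFT.2 hβ⟩, ⟨γ, mem_SFT.2 hγ⟩] : Fin 2 → {β // β ∈ SFT n F})) = ![v β, v γ] := by
      funext i
      fin_cases i <;> rfl
    rw [he] at h2
    exact h2
  have h4 := LinearIndependent.pair_iff.1 h3 (a - a') (b - b') (by
    rw [sub_smul, sub_smul]
    have h5 : a • v β - a' • v β + (b • v γ - b' • v γ) =
        (a • v β + b • v γ) - (a' • v β + b' • v γ) := by abel
    rw [h5, hab, sub_self])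
  exact ⟨sub_eq_zero.1 h4.1, sub_eq_zero.1 h4.2⟩

end General

section Comb

variable {n : ℕ}

theorem Q06_dp_inj {p : Bool × Bool} {x y : Ty} (h : dp p x = dp p y) : x = y := by
  rw [← dp_dp p x, h, dp_dp]

theorem Q06_dpS_inj {p : Bool × Bool} {β γ : Fin n → AO.Et} (h : dpS p β = dpS p γ) : β = γ := by
  funext i
  have h1 := congrFun h i
  have h2 : dp p (β i).1 = dp p (γ i).1 := congrArg Prod.fst h1
  have h3 : (dpS p β i).2 = (dpS p γ i).2 := by rw [h1]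
  exact Prod.ext (Q06_dp_inj h2) h3

theorem Q06_dpS_sq (p : Bool × Bool) (β : Fin n → AO.Et) (i l : Fin n) :
    dpS p (sq β i l) = sq (dpS p β) i l := rfl

theorem Q06_dpS_comm (p q : Bool × Bool) (β : Fin n → AO.Et) : dpS p (dpS q β) = dpS q (dpS p β) := by
  rw [← dpS_pa, ← dpS_pa]
  congr 1
  exact Prod.ext (Bool.xor_comm _ _) (Bool.xor_comm _ _)

/-- the relation of the labels of an inversion -/
def Rr (x y : AO.Et) : Prop := lb y.1 = true ∧ lb x.1 = false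

theorem Q06_lin_pow (s : ℚ) (β : Fin n → AO.Et) :
    s ^ lin β = ∏ i : Fin n, ∏ j : Fin n, if i < j ∧ Rr (β j) (β i) then s else 1 := by
  unfold lin
  rw [← Finset.prod_pow_eq_pow_sum]
  refine Finset.prod_congr rfl fun i _ => ?_
  rw [← Finset.prod_pow_eq_pow_sum]
  refine Finset.prod_congr rfl fun j _ => ?_
  by_cases h : i < j ∧ Rr (β j) (β i)
  · have h' : i < j ∧ lb (β i).1 = true ∧ lb (β j).1 = false := h
    rw [if_pos h, if_pos h', pow_one]
  · have h' : ¬ (i < j ∧ lb (β i).1 = true ∧ lb (β j).1 = false) := h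
    rw [if_neg h, if_neg h', pow_zero]

theorem Q06_lin_congr {β γ : Fin n → AO.Et} (h : ∀ i, lb (β i).1 = lb (γ i).1) : lin β = lin γ := by
  unfold lin
  simp only [h]

theorem Q06_lin_two {β : Fin n → AO.Et} {k l : Fin n} (hl : (l : ℕ) = k + 1)
    (h1 : lb (β k).1 = true) (h2 : lb (β l).1 = false) : lin β = lin (sq β k l) + 1 := by
  have h3 := S04_aux.prod_sq Rr (fun _ _ => (2 : ℚ)) β hl (show Rr (β l) (β k) from ⟨h1, h2⟩)
    (by
      rintro ⟨h3, -⟩
      rw [h2] at h3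
      exact absurd h3 (by decide))
  rw [← Q06_lin_pow, ← Q06_lin_pow] at h3
  have h4 : (2 : ℚ) ^ lin β = 2 ^ (lin (sq β k l) + 1) := by
    rw [h3, pow_succ, mul_comm]
  exact (pow_right_injective₀ (by norm_num) (by norm_num)) h4

theorem Q06_be_lb {x y : AO.Et} (h : Be x y) (hne : lb x.1 ≠ lb y.1) : lb y.1 = true ∧ lb x.1 = false := by
  rcases h with h | ⟨h, -⟩
  · revert h hne
    obtain ⟨x, c⟩ := x
    obtain ⟨y, d⟩ := y
    show lb x ≠ lb y → x < y → lb y = true ∧ lb x = false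
    revert x y
    decide
  · exact absurd (congrArg lb h) hne

theorem Q06_lin_same {β : Fin n → AO.Et} {k l : Fin n} (h : lb (β l).1 = lb (β k).1) :
    lin β = lin (sq β k l) := by
  refine Q06_lin_congr fun i => ?_
  by_cases h1 : i = k
  · rw [h1, sqT_k, h]
  · by_cases h2 : i = l
    · rw [h2, sqT_l, h]
    · rw [sqT_other β h1 h2]

end Comb

end Q06_aux

open Q06_aux

variable {k : Type} [Field k] [CharZero k] [Algebra k ℝ] {Ω : Type} [Field Ω] [IsAlgClosed Ω] [CharZero Ω]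
  [Algebra k Ω] {G : Type} [Group G] [Finite G] {n : ℕ} {B : BN G n} {P : Par k}
  {D : HA P n (MonoidAlgebra k G)} {W : Type} [AddCommGroup W] [Module Ω W] [FiniteDimensional Ω W]
  {M : Representation Ω G W} {X : BD B}

namespace Q06_aux

/-- the sign of the commutation of a twisted intertwiner with `T` -/
def tg (B : BN G n) (p : Bool × Bool) (x y : AO.Et) : ℤˣ :=
  if p.2 = true ∧ lb x.1 ≠ lb y.1 then B.sn true else 1

/-- the sign of a sequence -/
def sS (B : BN G n) (p : Bool × Bool) (β : Fin n → AO.Et) : ℤˣ :=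
  if p.2 = true then B.sn true ^ lin β else 1

theorem Q06_usq (e : ℤˣ) : e * e = 1 := Int.units_mul_self e

theorem Q06_ch (X : BD B) (p : Bool × Bool) {l : Fin n} (hl : 0 < (l : ℕ)) :
    X.ch p (B.s l) = if p.2 = true then B.sn true else 1 := by
  rw [BD.ch_apply, X.ds l hl, X.ls l hl, ite_self, one_mul]

theorem Q06_sgl (B : BN G n) (i j : Fin n) (a : Fin n → Bool) :
    algebraMap k Ω (B.sgl k i j a) =
      ((((if a i = true ∧ a j = true then B.sn true else 1 : ℤˣ) : ℤˣ) : ℤ) : Ω) := by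
  unfold BN.sgl
  split_ifs
  · rw [map_intCast]
  · rw [map_one]
    simp

theorem Q06_tsign (X : BD B) (p : Bool × Bool) {i l : Fin n} (hl : 0 < (l : ℕ)) (β : Fin n → AO.Et) :
    algebraMap k Ω (B.sgl k i l (fun j => lb (β j).1)) * (((X.ch p (B.s l) : ℤˣ) : ℤ) : Ω) =
      (((tg B p (β i) (β l) : ℤˣ) : ℤ) : Ω) *
        algebraMap k Ω (B.sgl k i l (fun j => lb (dpS p β j).1)) := by
  rw [Q06_sgl, Q06_sgl, Q06_ch X p hl]
  have h1 : ∀ j, lb (dpS p β j).1 = xor (lb (β j).1) p.2 := fun j => lb_dp p _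
  rw [h1, h1]
  rw [← Int.cast_mul, ← Int.cast_mul, ← Units.val_mul, ← Units.val_mul]
  congr 2
  unfold tg
  have h2 := Q06_usq (B.sn true)
  cases hp : p.2 <;> cases hi : lb (β i).1 <;> cases hj : lb (β l).1 <;> simp [h2]

/-- the commutation of a twisted intertwiner with `T` -/
theorem Q06_T (hD : Dg B P D) {F : AO.Et → ℤ} {v : (Fin n → AO.Et) → W} (hv : SN (D.on M) F v)
    (p : Bool × Bool) {Z : Module.End Ω W} (h : Tw B k M (X.ch p) Z) {κ : (Fin n → AO.Et) → Ω}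
    (hκ : ∀ β ∈ SqT n F, dpS p β ∈ SqT n F ∧ κ β ≠ 0 ∧ Z (v β) = κ β • v (dpS p β))
    {β : Fin n → AO.Et} (hβ : β ∈ SqT n F) {i l : Fin n} (hl : (l : ℕ) = i + 1) :
    Z ((D.on M).T i (v β)) = ((((tg B p (β i) (β l) : ℤˣ) : ℤ) : Ω) * κ β) •
      (D.on M).T i (v (dpS p β)) := by
  obtain ⟨hδ, -, hZ⟩ := hκ β hβ
  have h1 : ev M (B.E0 k (fun j => lb (β j).1)) (v β) = v β := by
    rw [← H03_aux.onE hD X.gd]
    exact (hv.wt β hβ).1
  have h2 : ev M (B.E0 k (fun j => lb (dpS p β j).1)) (v (dpS p β)) = v (dpS p β) := by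
    rw [← H03_aux.onE hD X.gd]
    exact (hv.wt _ hδ).1
  rw [H03_aux.T_app hD X.gd hl h1, H03_aux.T_app hD X.gd hl h2, map_smul, h.tw _ _ (H03_aux.e_app h1),
    hZ, map_smul, smul_smul, smul_smul, smul_smul, Q06_tsign X p (by omega) β]
  congr 1
  ring

theorem Q06_step (hD : Dg B P D) {F : AO.Et → ℤ} {v : (Fin n → AO.Et) → W} (hv : SN (D.on M) F v)
    (p : Bool × Bool) {Z : Module.End Ω W} (h : Tw B k M (X.ch p) Z) {κ : (Fin n → AO.Et) → Ω}
    (hκ : ∀ β ∈ SqT n F, dpS p β ∈ SqT n F ∧ κ β ≠ 0 ∧ Z (v β) = κ β • v (dpS p β))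
    {β : Fin n → AO.Et} (hβ : β ∈ SqT n F) {i l : Fin n} (hl : (l : ℕ) = i + 1)
    (hd : Be (β l) (β i)) :
    ∃ q : ℚ, 0 < q ∧ κ β = (q : Ω) * (((tg B p (β l) (β i) : ℤˣ) : ℤ) : Ω) * κ (sq β i l) := by
  have hγ : sq β i l ∈ SqT n F := SqT_sq hβ hl (Or.inr hd)
  obtain ⟨hδβ, -, hZβ⟩ := hκ β hβ
  obtain ⟨hδγ, -, hZγ⟩ := hκ _ hγ
  have hne : sq β i l ≠ β := by
    intro hc
    have h1 := congrFun hc i
    rw [sqT_k] at h1
    exact LgT_ne hβ.1 hl h1.symm
  have hne' : dpS p (sq β i l) ≠ dpS p β := fun hc => hne (Q06_dpS_inj hc)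
  have h1 := hv.up (sq β i l) hγ i l hl (by rw [sqT_k, sqT_l]; exact hd)
  rw [sqT_k, sqT_l, sqT_sq] at h1
  have h2 := Q06_T hD hv p h hκ hγ hl
  rw [h1, map_add, map_smul, hZβ, hZγ, sqT_k, sqT_l] at h2
  have hty : ∀ j, (dpS p (sq β i l) j).1 = dp p (sq β i l j).1 := fun _ => rfl
  have hco : ∀ j, (dpS p (sq β i l) j).2 = (sq β i l j).2 := fun _ => rfl
  rcases LgT_cases hδγ.1 hl with h3 | h3 | h3 | h3
  · exfalso
    rw [hty, hty, hco, hco, sqT_k, sqT_l] at h3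
    have h4 := Q06_dp_inj h3.1
    rcases hd with h5 | ⟨-, h5⟩
    · rw [h4] at h5
      exact lt_irrefl _ h5
    · have := h3.2
      omega
  · exfalso
    rw [hty, hty, hco, hco, sqT_k, sqT_l] at h3
    have h4 := Q06_dp_inj h3.1
    rcases hd with h5 | ⟨-, h5⟩
    · rw [h4] at h5
      exact lt_irrefl _ h5
    · have := h3.2
      omega
  · have h4 := hv.up _ hδγ i l hl h3
    rw [← Q06_dpS_sq, sqT_sq] at h4
    rw [h4, smul_add, smul_smul, smul_smul] at h2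
    have h5 := Q06_pair hv hδγ hδβ hne' h2
    refine ⟨1, one_pos, ?_⟩
    rw [h5.2, Rat.cast_one, one_mul]
  · have h4 := hv.dn hδγ hl h3
    rw [← Q06_dpS_sq, sqT_sq] at h4
    rw [h4, smul_add, smul_smul, smul_smul, smul_smul] at h2
    have h5 := Q06_pair hv hδγ hδβ hne' h2
    refine ⟨(P.map (algebraMap k Ω)).nu (dpS p (sq β i l) l) (dpS p (sq β i l) i), nu_pos h3, ?_⟩
    rw [h5.2]
    ring

theorem Q06_sS (B : BN G n) (p : Bool × Bool) {β : Fin n → AO.Et} {i l : Fin n} (hl : (l : ℕ) = i + 1)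
    (hd : Be (β l) (β i)) : sS B p β = tg B p (β l) (β i) * sS B p (sq β i l) := by
  unfold sS tg
  by_cases hp : p.2 = true
  · rw [if_pos hp, if_pos hp]
    by_cases hb : lb (β l).1 = lb (β i).1
    · rw [if_neg (fun h => h.2 hb), one_mul, ← Q06_lin_same hb]
    · rw [if_pos ⟨hp, hb⟩]
      obtain ⟨h1, h2⟩ := Q06_be_lb hd hb
      rw [Q06_lin_two hl h1 h2, pow_succ, mul_comm]
  · rw [if_neg hp, if_neg hp, if_neg (fun h => hp h.1), one_mul]

theorem Q06_ucast (e : ℤˣ) : (((e : ℤˣ) : ℤ) : Ω) ≠ 0 := by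
  rcases Int.units_eq_one_or e with h | h <;> rw [h] <;> simp

theorem Q06_sS_pm (B : BN G n) (p p' : Bool × Bool) (β : Fin n → AO.Et) :
    sS B p β * sS B p (dpS p' β) * (sS B p' β * sS B p' (dpS p β)) = 1 := by
  have h1 : ∀ q : Bool × Bool, q.2 = false → lin (dpS q β) = lin β := by
    intro q hq
    refine Q06_lin_congr fun i => ?_
    show lb (dp q (β i).1) = lb (β i).1
    rw [lb_dp, hq, Bool.xor_false]
  have h2 : p.2 = p'.2 → lin (dpS p β) = lin (dpS p' β) := by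
    intro hq
    refine Q06_lin_congr fun i => ?_
    show lb (dp p (β i).1) = lb (dp p' (β i).1)
    rw [lb_dp, lb_dp, hq]
  unfold sS
  rcases Bool.eq_false_or_eq_true p.2 with hp | hp
  · rcases Bool.eq_false_or_eq_true p'.2 with hp' | hp'
    · rw [if_pos hp, if_pos hp, if_pos hp', if_pos hp', h2 (hp.trans hp'.symm), Q06_usq]
    · rw [if_pos hp, if_pos hp, if_neg (by rw [hp']; decide), if_neg (by rw [hp']; decide), h1 p' hp',
        Q06_usq, one_mul, one_mul]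
  · rcases Bool.eq_false_or_eq_true p'.2 with hp' | hp'
    · rw [if_neg (by rw [hp]; decide), if_neg (by rw [hp]; decide), if_pos hp', if_pos hp', h1 p hp,
        one_mul, one_mul, Q06_usq]
    · rw [if_neg (by rw [hp]; decide), if_neg (by rw [hp]; decide), if_neg (by rw [hp']; decide),
        if_neg (by rw [hp']; decide), one_mul, one_mul]

end Q06_aux

open Q06_aux

theorem kap_pos (hM : M.IsIrreducible) (hP : Fit B P) (hpd : PD P) (hD : Dg B P D)
    {F : AO.Et → ℤ} {v : (Fin n → AO.Et) → W} (hv : SN (D.on M) F v) (p : Bool × Bool)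
    {Z : Module.End Ω W} (h : Tw B k M (X.ch p) Z) {κ : (Fin n → AO.Et) → Ω}
    (hκ : ∀ β ∈ SqT n F, dpS p β ∈ SqT n F ∧ κ β ≠ 0 ∧ Z (v β) = κ β • v (dpS p β)) :
    ∃ c : Ω, c ≠ 0 ∧ ∀ β ∈ SqT n F, ∃ q : ℚ, 0 < q ∧ κ β = (q : Ω) *
      ((((if p.2 = true then B.sn true ^ lin β else 1 : ℤˣ) : ℤˣ) : ℤ) : Ω) * c := by
  obtain ⟨μ, hμ, hm⟩ := exists_miT hv.ne
  have hU : ∀ e : ℤˣ, (((e : ℤˣ) : ℤ) : Ω) * (((e : ℤˣ) : ℤ) : Ω) = 1 := fun e =>
    H03_aux.unit_mul (Ω := Ω) e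
  refine ⟨κ μ * (((sS B p μ : ℤˣ) : ℤ) : Ω), mul_ne_zero (hκ μ hμ).2.1 (Q06_ucast _), ?_⟩
  refine desc_inductT ?_ ?_
  · intro β hβ hm'
    have h1 : β = μ := mi_uniqueT hβ hμ hm' hm
    refine ⟨1, one_pos, ?_⟩
    have h2 := hU (sS B p μ)
    rw [h1, Rat.cast_one, one_mul]
    show κ μ = (((sS B p μ : ℤˣ) : ℤ) : Ω) * (κ μ * (((sS B p μ : ℤˣ) : ℤ) : Ω))
    linear_combination (-(κ μ)) * h2
  · intro β hβ i l hl hd ih
    obtain ⟨q, hq, h1⟩ := ih
    obtain ⟨q', hq', h2⟩ := Q06_step hD hv p h hκ hβ hl hd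
    refine ⟨q' * q, mul_pos hq' hq, ?_⟩
    have h1' : κ (sq β i l) = (q : Ω) * (((sS B p (sq β i l) : ℤˣ) : ℤ) : Ω) *
        (κ μ * (((sS B p μ : ℤˣ) : ℤ) : Ω)) := h1
    show κ β = ((q' * q : ℚ) : Ω) * (((sS B p β : ℤˣ) : ℤ) : Ω) *
        (κ μ * (((sS B p μ : ℤˣ) : ℤ) : Ω))
    rw [h2, h1', Q06_sS B p hl hd, Units.val_mul, Int.cast_mul, Rat.cast_mul]
    ring

theorem tw_comm (hM : M.IsIrreducible) (hP : Fit B P) (hpd : PD P) (hD : Dg B P D)
    {F : AO.Et → ℤ} {v : (Fin n → AO.Et) → W} (hv : SN (D.on M) F v)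
    (hs : Submodule.span Ω (Set.range (fun β : {β // β ∈ SFT n F} => v β)) =
      LinearMap.range (ev M (B.e k))) (p p' : Bool × Bool) {Z Z' : Module.End Ω W}
    (h : Tw B k M (X.ch p) Z) (h' : Tw B k M (X.ch p') Z') :
    ∀ v, ev M (B.e k) v = v → Z (Z' v) = Z' (Z v) := by
  by_cases h0 : ∃ v, ev M (B.e k) v = v ∧ Z v ≠ 0
  swap
  · intro v hv'
    have h1 : ∀ w, ev M (B.e k) w = w → Z w = 0 := by
      intro w hw
      by_contra hne
      exact h0 ⟨w, hw, hne⟩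
    rw [h1 _ (h'.mem v hv'), h1 v hv', map_zero]
  by_cases h0' : ∃ v, ev M (B.e k) v = v ∧ Z' v ≠ 0
  swap
  · intro v hv'
    have h1 : ∀ w, ev M (B.e k) w = w → Z' w = 0 := by
      intro w hw
      by_contra hne
      exact h0' ⟨w, hw, hne⟩
    rw [h1 _ (h.mem v hv'), h1 v hv', map_zero]
  obtain ⟨κ, hκ⟩ := tw_snD hM hP hpd hD hv hs p h h0
  obtain ⟨κ', hκ'⟩ := tw_snD hM hP hpd hD hv hs p' h' h0'
  obtain ⟨c, hc, hκc⟩ := kap_pos hM hP hpd hD hv p h hκ
  obtain ⟨c', hc', hκc'⟩ := kap_pos hM hP hpd hD hv p' h' hκ'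
  have hU : ∀ e : ℤˣ, (((e : ℤˣ) : ℤ) : Ω) * (((e : ℤˣ) : ℤ) : Ω) = 1 := fun e =>
    H03_aux.unit_mul (Ω := Ω) e
  -- the products
  have hZZ : Tw B k M (X.ch p * X.ch p') (Z * Z') := by
    refine ⟨fun w hw => h.mem _ (h'.mem w hw), fun g w hw => ?_⟩
    rw [Module.End.mul_apply, Module.End.mul_apply, h'.tw g w hw, map_smul, h.tw g _ (h'.mem w hw),
      smul_smul, MonoidHom.mul_apply, Units.val_mul, Int.cast_mul, mul_comm]
  have hZZ' : Tw B k M (X.ch p * X.ch p') (Z' * Z) := by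
    refine ⟨fun w hw => h'.mem _ (h.mem w hw), fun g w hw => ?_⟩
    rw [Module.End.mul_apply, Module.End.mul_apply, h.tw g w hw, map_smul, h'.tw g _ (h.mem w hw),
      smul_smul, MonoidHom.mul_apply, Units.val_mul, Int.cast_mul]
  have hne : ∃ v, ev M (B.e k) v = v ∧ (Z * Z') v ≠ 0 := by
    obtain ⟨u, hu, hu'⟩ := h0'
    exact ⟨u, hu, fun h1 => hu' (tw_inj hM h h0 (h'.mem u hu) h1)⟩
  obtain ⟨c₀, hc₀⟩ := tw_prop hM hZZ hZZ' hne
  -- the square of the scalar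
  have hsq : c₀ * c₀ = 1 := by
    obtain ⟨a, ha⟩ := tw_sq hM h
    obtain ⟨u, hu, hu'⟩ := h0'
    have ha0 : a ≠ 0 := by
      intro h1
      have h2 := ha (Z' u) (h'.mem u hu)
      rw [h1, zero_smul] at h2
      exact hu' (tw_inj hM h h0 (h'.mem u hu) (tw_inj hM h h0 (h.mem _ (h'.mem u hu)) h2))
    have h1 : Z' (Z (Z u)) = c₀ • Z (Z' (Z u)) := hc₀ (Z u) (h.mem u hu)
    have h2 : Z' (Z u) = c₀ • Z (Z' u) := hc₀ u hu
    rw [h2, map_smul, ha u hu, map_smul, ha (Z' u) (h'.mem u hu), smul_smul, smul_smul] at h1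
    have h3 : (a - c₀ * c₀ * a) • Z' u = 0 := by
      rw [sub_smul, ← h1, sub_self]
    rcases smul_eq_zero.1 h3 with h4 | h4
    · have h5 : (c₀ * c₀ - 1) * a = 0 := by linear_combination -h4
      rcases mul_eq_zero.1 h5 with h6 | h6
      · exact sub_eq_zero.1 h6
      · exact absurd h6 ha0
    · exact absurd h4 hu'
  -- the sign of the scalar
  obtain ⟨q, hq, hqc⟩ : ∃ q : ℚ, 0 < q ∧ c₀ = (q : Ω) := by
    obtain ⟨β, hβ⟩ := hv.ne
    obtain ⟨hδ, -, hZ⟩ := hκ β hβ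
    obtain ⟨hδ', -, hZ'⟩ := hκ' β hβ
    have hw : ev M (B.e k) (v β) = v β := by
      refine H03_aux.e_app (a := fun j => lb (β j).1) ?_
      rw [← H03_aux.onE hD X.gd]
      exact (hv.wt β hβ).1
    have h1 : Z' (Z (v β)) = c₀ • Z (Z' (v β)) := hc₀ (v β) hw
    obtain ⟨hδδ, -, hZδ⟩ := hκ _ hδ'
    obtain ⟨hδδ', -, hZδ'⟩ := hκ' _ hδ
    rw [hZ, hZ', map_smul, map_smul, hZδ, hZδ', Q06_dpS_comm p' p, smul_smul, smul_smul, smul_smul] at h1
    have h2 : (κ β * κ' (dpS p β) - c₀ * (κ' β * κ (dpS p' β))) • v (dpS p (dpS p' β)) = 0 := by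
      rw [sub_smul, h1, mul_assoc, sub_self]
    have h3 : κ β * κ' (dpS p β) = c₀ * (κ' β * κ (dpS p' β)) := by
      rcases smul_eq_zero.1 h2 with h4 | h4
      · exact sub_eq_zero.1 h4
      · exact absurd h4 (hv.nz _ hδδ)
    obtain ⟨q1, hq1, e1⟩ := hκc β hβ
    obtain ⟨q2, hq2, e2⟩ := hκc' _ hδ
    obtain ⟨q3, hq3, e3⟩ := hκc' β hβ
    obtain ⟨q4, hq4, e4⟩ := hκc _ hδ'
    have e1' : κ β = (q1 : Ω) * (((sS B p β : ℤˣ) : ℤ) : Ω) * c := e1
    have e2' : κ' (dpS p β) = (q2 : Ω) * (((sS B p' (dpS p β) : ℤˣ) : ℤ) : Ω) * c' := e2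
    have e3' : κ' β = (q3 : Ω) * (((sS B p' β : ℤˣ) : ℤ) : Ω) * c' := e3
    have e4' : κ (dpS p' β) = (q4 : Ω) * (((sS B p (dpS p' β) : ℤˣ) : ℤ) : Ω) * c := e4
    have hs1 := congrArg (fun e : ℤˣ => (((e : ℤˣ) : ℤ) : Ω)) (Q06_sS_pm B p p' β)
    simp only [Units.val_mul, Int.cast_mul, Units.val_one, Int.cast_one] at hs1
    have u1 := hU (sS B p β)
    have u2 := hU (sS B p' β)
    have u3 := hU (sS B p (dpS p' β))
    have u4 := hU (sS B p' (dpS p β))
    rw [e1', e2', e3', e4'] at h3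
    generalize (((sS B p β : ℤˣ) : ℤ) : Ω) = s1 at *
    generalize (((sS B p' β : ℤˣ) : ℤ) : Ω) = s2 at *
    generalize (((sS B p (dpS p' β) : ℤˣ) : ℤ) : Ω) = s3 at *
    generalize (((sS B p' (dpS p β) : ℤˣ) : ℤ) : Ω) = s4 at *
    have hq3' : (q3 : Ω) ≠ 0 := Rat.cast_ne_zero.2 hq3.ne'
    have hq4' : (q4 : Ω) ≠ 0 := Rat.cast_ne_zero.2 hq4.ne'
    refine ⟨q1 * q2 / (q3 * q4), div_pos (mul_pos hq1 hq2) (mul_pos hq3 hq4), ?_⟩
    rw [Rat.cast_div, Rat.cast_mul, Rat.cast_mul, eq_div_iff (mul_ne_zero hq3' hq4')]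
    have h5 : (q1 : Ω) * q2 * (s1 * s4) = c₀ * (q3 * q4) * (s2 * s3) := by
      apply mul_right_cancel₀ (mul_ne_zero hc hc')
      linear_combination h3
    have h6 : s1 * s4 = s2 * s3 := by
      linear_combination s2 * s3 * hs1 - (s1 * s3 * s3 * s4) * u2 - s1 * s4 * u3
    rw [h6] at h5
    have h7 : s2 * s3 ≠ 0 := by
      intro h8
      have h9 : (s2 * s2) * (s3 * s3) = 0 := by
        linear_combination (s2 * s3) * h8
      rw [u2, u3, one_mul] at h9
      exact one_ne_zero h9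
    exact (mul_right_cancel₀ h7 h5).symm
  have hq1 : q = 1 := by
    rw [hqc] at hsq
    have h1 : q * q = 1 := by exact_mod_cast hsq
    nlinarith
  have hc1 : c₀ = 1 := by rw [hqc, hq1, Rat.cast_one]
  intro w hw
  have h1 : Z' (Z w) = c₀ • Z (Z' w) := hc₀ w hw
  rw [h1, hc1, one_smul]

end

end AO
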