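import Pool.Agent.AO.Q06
import Pool.Agent.AO.Q01
import Pool.Agent.AO.H05

/-!
# MP_6c3636_al, AO, module Q07: type D: the structure of the restriction (helper7)

`TwW X M p Z`: `Z` is twisted by `X.ch p` on all of `W`. `twW_tw`: `X.ch p` is trivial on `U`, so `Z` preserves the fixed points of `U`. `comm_splitD`: let `R = {1, x₀, s₀, x₀ s₀}` (`x₀ ∈ T`, `X.l x₀ = -1`, `s₀ = s 0`), representatives of the cosets of `X.H` (`cover`, `exists_T`); `Zs p = ¼ ∑ g ∈ R, X.ch p g • M g * Z * M g⁻¹` satisfies `M g * Zs p * M g⁻¹ = X.ch p g • Zs p` for all `g ∈ G`, and `∑ p, Zs p = Z`. `structD`: let `C` be the set of the operators commuting with all `M h`, `h ∈ X.H`. On the range of `e` they commute with each other (`comm_splitD`, `twW_tw`, `tw_comm`). If `w` has `act (es ρ.character) w = w` and is not in the range of `φ`: `H05_aux.second` gives `A, C'` in the commutant with `A ∘ φ = 0`, `A ∘ C' ∘ φ = φ`; on the range of `X.eH ρ` (nonzero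 by `hw`), which `φ` maps into the range of `e`, this contradicts `A C' = C' A`. So the last claim holds. Let `Ψ = act (rs X.H M) (es ρ.character) ∈ C`, `Ψ Ψ = Ψ`, not zero on the range of `e`. Let `L` be the set of the `p` for which there is `Z` with `TwW X M p Z`, not zero on the range of `e` (`1 ∈ L`; `L` is closed under `pa`: products, `tw_inj`). For `A ∈ C` and `v` in the range of `X.eH ρ`: `A (φ v) = A (Ψ (φ v)) = Ψ (A (φ v))`, so `A (φ v)` is in the range of `φ`; as `ρ` is irreducible these `v` generate `V`, so `A φ = φ A'`, `A'` commutes with `ρ`, a scalar. So for `p ∈ L` (and `Z` as above, `Z ∈ C`) there is `ε ≠ 0` (`tw_inj`) with `Z φ = ε φ`; put `Θ p = ε⁻¹ Z`, so `Θ p Ψ = Ψ` on the range of `e` (`Ψ v` is in the range of `φ`). `Θ p Θ q` and `Θ (pa p q)` are proportional on the range of `e` (`tw_prop`), and agree on the range of `φ`, so they are equal on the range of `e`; `Θ 1 = 1` there. `Ψ = ∑ Zs p` (`comm_splitD`),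 `Zs p = a p • Θ p` on the range of `e` for `p ∈ L` (`tw_prop`), `Zs p = 0` on the range of `e` for `p` not in `L`. Let `q ∈ L`: `Θ q Ψ = Ψ` on the range of `e` gives `∑ a p Θ (pa q p) = ∑ a p Θ p`; the components are unique (apply the averaging of `comm_splitD` again, or: `M g` conjugation for `g ∈ R` separates the characters `X.ch p`), so `a (pa q p) = a p`: all `a p`, `p ∈ L`, are equal to `a`; `Ψ Ψ = Ψ` on the range of `e` gives `a * |L| = 1`.
-/

namespace AO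

noncomputable section

open Classical Equiv

open AN (sq)

variable {k : Type} [Field k] [CharZero k] [Algebra k ℝ] {Ω : Type} [Field Ω] [IsAlgClosed Ω] [CharZero Ω]
  [Algebra k Ω] {G : Type} [Group G] [Finite G] {n : ℕ} {B : BN G n} {P : Par k}
  {D : HA P n (MonoidAlgebra k G)} {W : Type} [AddCommGroup W] [Module Ω W] [FiniteDimensional Ω W]
  {M : Representation Ω G W} {X : BD B} {V : Type} [AddCommGroup V] [Module Ω V] [FiniteDimensional Ω V]
  {ρ : Representation Ω X.H V}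

/-- operators twisted by `X.ch p` -/
def TwW (X : BD B) (M : Representation Ω G W) (p : Bool × Bool) (Z : Module.End Ω W) : Prop :=
  ∀ g, M g * Z = (((X.ch p g : ℤˣ) : ℤ) : Ω) • (Z * M g)

namespace Q07_aux

/-- the value of the character in the field -/
def cv {Ω : Type} [Field Ω] {G : Type} [Group G] {n : ℕ} {B : BN G n} (X : BD B) (p : Bool × Bool)
    (g : G) : Ω := (((X.ch p g : ℤˣ) : ℤ) : Ω)

theorem cv_mul (X : BD B) (p : Bool × Bool) (g h : G) : (cv X p (g * h) : Ω) = cv X p g * cv X p h := by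
  unfold cv
  rw [map_mul, Units.val_mul, Int.cast_mul]

theorem cv_sq (X : BD B) (p : Bool × Bool) (g : G) : (cv X p g : Ω) * cv X p g = 1 :=
  LieP.A02_aux.unit_sq _

theorem cv_H (X : BD B) (p : Bool × Bool) {g : G} (hg : g ∈ X.H) : (cv X p g : Ω) = 1 := by
  obtain ⟨h1, h2⟩ := (X.mem g).1 hg
  unfold cv
  rw [X.ch_apply, h1, h2, ite_self, ite_self]
  simp

theorem cv_pa (X : BD B) (p q : Bool × Bool) (g : G) :
    (cv X (pa p q) g : Ω) = cv X p g * cv X q g := by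
  unfold cv
  rw [← Int.cast_mul, ← Units.val_mul]
  congr 2
  rw [X.ch_apply, X.ch_apply, X.ch_apply]
  obtain ⟨a, b⟩ := p
  obtain ⟨c, d⟩ := q
  show (if (xor a c) = true then X.d g else 1) * (if (xor b d) = true then X.l g else 1) = _
  rcases Int.units_eq_one_or (X.d g) with h1 | h1 <;> rcases Int.units_eq_one_or (X.l g) with h2 | h2 <;>
    rw [h1, h2] <;> cases a <;> cases b <;> cases c <;> cases d <;> decide

theorem cv_one (X : BD B) (g : G) : (cv X (false, false) g : Ω) = 1 := by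
  unfold cv
  rw [X.ch_apply]
  simp

theorem sum_cv (X : BD B) (g : G) : ∑ p, (cv X p g : Ω) = if g ∈ X.H then 4 else 0 := by
  rw [Fintype.sum_prod_type]
  simp only [Fintype.sum_bool]
  unfold cv
  simp only [X.ch_apply]
  by_cases hg : g ∈ X.H
  · rw [if_pos hg]
    obtain ⟨h1, h2⟩ := (X.mem g).1 hg
    rw [h1, h2]
    norm_num
  · rw [if_neg hg]
    rcases Int.units_eq_one_or (X.d g) with h1 | h1 <;> rcases Int.units_eq_one_or (X.l g) with h2 | h2
    · exact absurd ((X.mem g).2 ⟨h1, h2⟩) hg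
    all_goals
      rw [h1, h2]
      norm_num

theorem exists_cv (X : BD B) {p : Bool × Bool} (hp : p ≠ (false, false)) :
    ∃ g, (cv X p g : Ω) = -1 := by
  obtain ⟨a, b⟩ := p
  have hn : 0 < n := by
    have := X.n2
    omega
  by_cases ha : a = true
  · subst ha
    refine ⟨B.s ⟨0, hn⟩, ?_⟩
    unfold cv
    rw [X.ch_apply, X.d0 ⟨0, hn⟩ rfl, X.l0 ⟨0, hn⟩ rfl]
    simp
  · have hb : b = true := by
      by_contra hb
      apply hp
      rw [Bool.not_eq_true] at ha hb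
      rw [ha, hb]
    rw [Bool.not_eq_true] at ha
    subst ha hb
    obtain ⟨x, hx, hlx⟩ := exists_T X
    refine ⟨x, ?_⟩
    unfold cv
    rw [X.ch_apply, hlx]
    simp

theorem sum_g (X : BD B) [Fintype G] {p : Bool × Bool} (hp : p ≠ (false, false)) :
    ∑ g : G, (cv X p g : Ω) = 0 := by
  obtain ⟨g₀, h0⟩ := exists_cv (Ω := Ω) X hp
  have h1 : ∑ g : G, (cv X p g : Ω) = ∑ g : G, (cv X p (g₀ * g) : Ω) :=
    (Fintype.sum_equiv (Equiv.mulLeft g₀) _ _ fun g => rfl).symm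
  have h2 : ∑ g : G, (cv X p (g₀ * g) : Ω) = - ∑ g : G, (cv X p g : Ω) := by
    rw [← Finset.sum_neg_distrib]
    refine Finset.sum_congr rfl fun g _ => ?_
    rw [cv_mul, h0, neg_one_mul]
  rw [h2] at h1
  have h3 : (2 : Ω) * ∑ g : G, (cv X p g : Ω) = 0 := by linear_combination h1
  exact (mul_eq_zero.1 h3).resolve_left two_ne_zero

theorem card_four (X : BD B) [Fintype G] :
    (Fintype.card G : Ω) = ∑ g : G, if g ∈ X.H then (4 : Ω) else 0 := by
  have h1 : ∑ p, ∑ g : G, (cv X p g : Ω) = ∑ g : G, if g ∈ X.H then (4 : Ω) else 0 := by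
    rw [Finset.sum_comm]
    exact Finset.sum_congr rfl fun g _ => sum_cv X g
  rw [← h1, Finset.sum_eq_single (false, false)]
  · rw [Finset.sum_congr rfl fun g _ => cv_one X g, Finset.sum_const, Finset.card_univ, nsmul_eq_mul,
      mul_one]
  · intro p _ hp
    exact sum_g X hp
  · intro h
    exact absurd (Finset.mem_univ _) h

theorem tw_flip {p : Bool × Bool} {Z : Module.End Ω W} (h : TwW X M p Z) (g : G) :
    Z * M g = (cv X p g : Ω) • (M g * Z) := by
  rw [h g]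
  show Z * M g = (cv X p g : Ω) • (cv X p g : Ω) • (Z * M g)
  rw [smul_smul, cv_sq, one_smul]

theorem tw_one : TwW X M (false, false) (1 : Module.End Ω W) := by
  intro g
  show M g * 1 = (cv X (false, false) g : Ω) • (1 * M g)
  rw [cv_one, one_smul, mul_one, one_mul]

theorem tw_mul {p q : Bool × Bool} {Y Z : Module.End Ω W} (hY : TwW X M p Y) (hZ : TwW X M q Z) :
    TwW X M (pa p q) (Y * Z) := by
  intro g
  show M g * (Y * Z) = (cv X (pa p q) g : Ω) • (Y * Z * M g)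
  have h1 : M g * Y = (cv X p g : Ω) • (Y * M g) := hY g
  have h2 : M g * Z = (cv X q g : Ω) • (Z * M g) := hZ g
  rw [← mul_assoc, h1, smul_mul_assoc, mul_assoc, h2, mul_smul_comm, smul_smul, cv_pa, mul_assoc]

theorem tw_smul {p : Bool × Bool} {Z : Module.End Ω W} (h : TwW X M p Z) (a : Ω) :
    TwW X M p (a • Z) := by
  intro g
  rw [mul_smul_comm, h g, smul_mul_assoc, smul_comm]

end Q07_aux

open Q07_aux

theorem twW_tw {p : Bool × Bool} {Z : Module.End Ω W} (h : TwW X M p Z) : Tw B k M (X.ch p) Z := by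
  have hZ : ∀ u ∈ B.U, Z * M u = M u * Z := by
    intro u hu
    rw [tw_flip h u, cv_H X p (X.UH hu), one_smul]
  have he : Z * ev M (B.e k) = ev M (B.e k) * Z := H01_aux.comm_sb hZ (LieP.av_mem le_rfl)
  have he' : ∀ w, Z (ev M (B.e k) w) = ev M (B.e k) (Z w) := fun w =>
    congrArg (fun f : Module.End Ω W => f w) he
  refine ⟨fun v hv => ?_, fun g v hv => ?_⟩
  · rw [← he', hv]
  · rw [H01_aux.ev_b]
    show Z (ev M (B.e k) (M g (ev M (B.e k) v))) =
      (cv X p g : Ω) • ev M (B.e k) (M g (ev M (B.e k) (Z v)))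
    have h1 : ∀ w, Z (M g w) = (cv X p g : Ω) • M g (Z w) := fun w =>
      congrArg (fun f : Module.End Ω W => f w) (tw_flip h g)
    rw [he', h1, map_smul, he']

theorem twW_comm {p : Bool × Bool} {Z : Module.End Ω W} (h : TwW X M p Z) :
    ∀ g ∈ X.H, Z * M g = M g * Z := by
  intro g hg
  rw [tw_flip h g, cv_H X p hg, one_smul]

theorem comm_splitD {Z : Module.End Ω W} (hZ : ∀ h ∈ X.H, Z * M h = M h * Z) :
    ∃ Zs : Bool × Bool → Module.End Ω W, (∀ p, TwW X M p (Zs p)) ∧ Z = ∑ p, Zs p := by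
  have _ := Fintype.ofFinite G
  have hc : (Fintype.card G : Ω) ≠ 0 := Nat.cast_ne_zero.2 Fintype.card_ne_zero
  refine ⟨fun p => (Fintype.card G : Ω)⁻¹ • ∑ g : G, (cv X p g : Ω) • (M g * Z * M g⁻¹),
    fun p h => ?_, ?_⟩
  · show M h * ((Fintype.card G : Ω)⁻¹ • ∑ g : G, (cv X p g : Ω) • (M g * Z * M g⁻¹)) =
      (cv X p h : Ω) • (((Fintype.card G : Ω)⁻¹ • ∑ g : G, (cv X p g : Ω) • (M g * Z * M g⁻¹)) * M h)
    rw [mul_smul_comm, smul_mul_assoc, smul_comm]
    congr 1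
    rw [Finset.mul_sum, Finset.sum_mul, Finset.smul_sum]
    refine Fintype.sum_equiv (Equiv.mulLeft h) _ _ fun g => ?_
    show M h * ((cv X p g : Ω) • (M g * Z * M g⁻¹)) =
      (cv X p h : Ω) • ((cv X p (h * g) : Ω) • (M (h * g) * Z * M (h * g)⁻¹) * M h)
    have e1 : M (h * g)⁻¹ * M h = M g⁻¹ := by
      rw [← map_mul]
      congr 1
      group
    rw [mul_smul_comm, smul_mul_assoc, smul_smul, cv_mul, ← mul_assoc (cv X p h), cv_sq, one_mul,
      mul_assoc (M (h * g) * Z), e1, map_mul]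
    simp only [mul_assoc]
  · show Z = ∑ p, (Fintype.card G : Ω)⁻¹ • ∑ g : G, (cv X p g : Ω) • (M g * Z * M g⁻¹)
    rw [← Finset.smul_sum, Finset.sum_comm]
    have e1 : ∀ g : G, ∑ p, (cv X p g : Ω) • (M g * Z * M g⁻¹) =
        (if g ∈ X.H then (4 : Ω) else 0) • Z := by
      intro g
      rw [← Finset.sum_smul, sum_cv]
      by_cases hg : g ∈ X.H
      · rw [if_pos hg, ← hZ g hg, mul_assoc, ← map_mul, mul_inv_cancel, map_one, mul_one]
      · rw [if_neg hg, zero_smul, zero_smul]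
    rw [Finset.sum_congr rfl fun g _ => e1 g, ← Finset.sum_smul, ← card_four, smul_smul,
      inv_mul_cancel₀ hc, one_smul]

namespace Q07_aux

/-- operators which commute with `X.H` commute on the range of `e` -/
theorem comm2D (hM : M.IsIrreducible) (hP : Fit B P) (hpd : PD P) (hD : Dg B P D)
    (hE : (D.on M).Et ≠ 0) {Z Z' : Module.End Ω W} (hZ : ∀ h ∈ X.H, Z * M h = M h * Z)
    (hZ' : ∀ h ∈ X.H, Z' * M h = M h * Z') {v : W} (hv : ev M (B.e k) v = v) :
    Z (Z' v) = Z' (Z v) := by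
  have hn : 0 < n := by
    have := X.n2
    omega
  obtain ⟨F, b, hb, hs⟩ := exists_snB hM hP hD hn hE
  obtain ⟨Y, hY, rfl⟩ := comm_splitD hZ
  obtain ⟨Y', hY', rfl⟩ := comm_splitD hZ'
  have e1 : (∑ p, Y p) ((∑ p, Y' p) v) = ∑ p, ∑ q, Y p (Y' q v) := by
    rw [LinearMap.sum_apply]
    refine Finset.sum_congr rfl fun p _ => ?_
    rw [LinearMap.sum_apply, map_sum]
  have e2 : (∑ p, Y' p) ((∑ p, Y p) v) = ∑ q, ∑ p, Y' q (Y p v) := by
    rw [LinearMap.sum_apply]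
    refine Finset.sum_congr rfl fun p _ => ?_
    rw [LinearMap.sum_apply, map_sum]
  rw [e1, e2, Finset.sum_comm]
  refine Finset.sum_congr rfl fun q _ => Finset.sum_congr rfl fun p _ => ?_
  exact tw_comm hM hP hpd hD hb hs p q (twW_tw (hY p)) (twW_tw (hY' q)) v hv

/-- multiplicity one -/
theorem mult_oneD (hρ : ρ.IsIrreducible) (hM : M.IsIrreducible) (φ : V →ₗ[Ω] W)
    (hφ : Function.Injective φ) (hφ' : ∀ (h : X.H) v, φ (ρ h v) = M h (φ v)) (hP : Fit B P)
    (hpd : PD P) (hD : Dg B P D) (hE : (D.on M).Et ≠ 0) {v₀ : V} (h0 : v₀ ≠ 0)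
    (hv₀ : ev M (B.e k) (φ v₀) = φ v₀) {w : W}
    (hw : Parker.act (Parker.rs X.H M) (Parker.es ρ.character) w = w) : ∃ x, φ x = w := by
  by_contra hcon
  push Not at hcon
  obtain ⟨A, C, hA, hC, h1, h2⟩ := H05_aux.second (τ := Parker.rs X.H M) hρ φ hφ hφ' hw hcon
  have h3 := comm2D hM hP hpd hD hE (Z := A) (Z' := C) (fun h hh => hA ⟨h, hh⟩)
    (fun h hh => hC ⟨h, hh⟩) hv₀
  rw [h2, h1, map_zero] at h3
  apply h0
  apply hφ
  rw [h3, map_zero]

/-- the operators which commute with `X.H` are scalars on the range of `φ` -/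
theorem scalD (hρ : ρ.IsIrreducible) (hM : M.IsIrreducible) (φ : V →ₗ[Ω] W)
    (hφ : Function.Injective φ) (hφ' : ∀ (h : X.H) v, φ (ρ h v) = M h (φ v)) (hP : Fit B P)
    (hpd : PD P) (hD : Dg B P D) (hE : (D.on M).Et ≠ 0) {v₀ : V} (h0 : v₀ ≠ 0)
    (hv₀ : ev M (B.e k) (φ v₀) = φ v₀) {A : Module.End Ω W} (hA : ∀ h ∈ X.H, A * M h = M h * A) :
    ∃ c : Ω, ∀ v, A (φ v) = c • φ v := by
  have hχ : ρ.character ∈ Parker.irr Ω X.H := Parker.mem_irr.2 (Parker.mem_irrSet hρ)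
  have hZφ : ∀ v, Parker.act (Parker.rs X.H M) (Parker.es ρ.character) (φ v) = φ v := by
    intro v
    rw [H05_aux.act_eqv (τ := Parker.rs X.H M) φ hφ', Parker.idem_irr hρ]
    rfl
  have hZc : ∀ h ∈ X.H, Parker.act (Parker.rs X.H M) (Parker.es ρ.character) * M h =
      M h * Parker.act (Parker.rs X.H M) (Parker.es ρ.character) := fun h hh =>
    (Parker.idem_comm (Parker.rs X.H M) hχ ⟨h, hh⟩).symm
  have hA' : ∀ (h : X.H) w, A (M h w) = M h (A w) := fun h w =>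
    congrArg (fun f : Module.End Ω W => f w) (hA h h.2)
  let S : Submodule Ω V := (LinearMap.range φ).comap (A ∘ₗ φ)
  have hS : ∀ h : X.H, ∀ v ∈ S, ρ h v ∈ S := by
    intro h v hv
    obtain ⟨y, hy⟩ := hv
    have hy' : φ y = A (φ v) := hy
    refine ⟨ρ h y, ?_⟩
    show φ (ρ h y) = A (φ (ρ h v))
    rw [hφ', hφ', hy', hA']
  have hS0 : v₀ ∈ S := by
    have h1 := comm2D hM hP hpd hD hE hA hZc hv₀
    rw [hZφ] at h1
    obtain ⟨y, hy⟩ := mult_oneD hρ hM φ hφ hφ' hP hpd hD hE h0 hv₀ h1.symm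
    exact ⟨y, hy⟩
  have hS1 : S = ⊤ := by
    rcases Parker.irr_sub hρ hS with h | h
    · rw [h, Submodule.mem_bot] at hS0
      exact absurd hS0 h0
    · exact h
  obtain ⟨q, hq, hq'⟩ := H05_aux.exists_retr (τ := Parker.rs X.H M) φ hφ hφ'
  have h2 : ∀ v, φ (q (A (φ v))) = A (φ v) := by
    intro v
    have h3 : v ∈ S := by rw [hS1]; trivial
    obtain ⟨y, hy⟩ := h3
    have hy' : φ y = A (φ v) := hy
    rw [← hy', hq']
  obtain ⟨c, hc⟩ := Parker.schur hρ (T := q ∘ₗ A ∘ₗ φ) (by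
    intro g
    refine LinearMap.ext fun v => ?_
    show q (A (φ (ρ g v))) = ρ g (q (A (φ v)))
    rw [hφ', hA']
    exact hq g _)
  refine ⟨c, fun v => ?_⟩
  have h4 : q (A (φ v)) = c • v := congrArg (fun f : Module.End Ω V => f v) hc
  rw [← h2, h4, map_smul]

theorem pa_pa (p q : Bool × Bool) : pa p (pa p q) = q := by
  revert p q
  decide

theorem pa_one (p : Bool × Bool) : pa (false, false) p = p := by
  revert p
  decide

end Q07_aux

theorem structD (hρ : ρ.IsIrreducible) (hM : M.IsIrreducible) (φ : V →ₗ[Ω] W)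
    (hφ : Function.Injective φ) (hφ' : ∀ (h : X.H) v, φ (ρ h v) = M h (φ v)) (hP : Fit B P)
    (hpd : PD P) (hD : Dg B P D) (hE : (D.on M).Et ≠ 0) (hw : X.eH ρ ≠ 0) :
    ∃ (L : Finset (Bool × Bool)) (Θ : Bool × Bool → Module.End Ω W),
      (false, false) ∈ L ∧ (∀ p ∈ L, ∀ q ∈ L, pa p q ∈ L) ∧
      (∀ p ∈ L, TwW X M p (Θ p)) ∧
      (∀ p ∈ L, ∃ v, ev M (B.e k) v = v ∧ Θ p v ≠ 0) ∧
      (∀ v, ev M (B.e k) v = v → Θ (false, false) v = v) ∧
      (∀ p ∈ L, ∀ q ∈ L, ∀ v, ev M (B.e k) v = v → Θ p (Θ q v) = Θ (pa p q) v) ∧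
      (∀ p Z, TwW X M p Z → (∃ v, ev M (B.e k) v = v ∧ Z v ≠ 0) → p ∈ L) ∧
      (∀ v, ev M (B.e k) v = v →
        (L.card : Ω) • Parker.act (Parker.rs X.H M) (Parker.es ρ.character) v = ∑ p ∈ L, Θ p v) ∧
      ∀ w, (∃ x, φ x = w) ↔ Parker.act (Parker.rs X.H M) (Parker.es ρ.character) w = w := by
  have hχ : ρ.character ∈ Parker.irr Ω X.H := Parker.mem_irr.2 (Parker.mem_irrSet hρ)
  have hZφ : ∀ v, Parker.act (Parker.rs X.H M) (Parker.es ρ.character) (φ v) = φ v := by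
    intro v
    rw [H05_aux.act_eqv (τ := Parker.rs X.H M) φ hφ', Parker.idem_irr hρ]
    rfl
  have hZc : ∀ h ∈ X.H, Parker.act (Parker.rs X.H M) (Parker.es ρ.character) * M h =
      M h * Parker.act (Parker.rs X.H M) (Parker.es ρ.character) := fun h hh =>
    (Parker.idem_comm (Parker.rs X.H M) hχ ⟨h, hh⟩).symm
  have hZZ : ∀ v, Parker.act (Parker.rs X.H M) (Parker.es ρ.character)
      (Parker.act (Parker.rs X.H M) (Parker.es ρ.character) v) =
        Parker.act (Parker.rs X.H M) (Parker.es ρ.character) v := fun v =>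
    congrArg (fun f : Module.End Ω W => f v) (Parker.idem_idem (Parker.rs X.H M) hχ)
  obtain ⟨v₀, hv0, hv1⟩ : ∃ v₀, X.eH ρ v₀ = v₀ ∧ v₀ ≠ 0 := by
    by_contra hcon
    push Not at hcon
    apply hw
    refine LinearMap.ext fun y => ?_
    exact hcon _ (congrArg (fun f : Module.End Ω V => f y)
      (eU_idem (ρ := ρ) (U := B.U.subgroupOf X.H)))
  have hφ0 : φ v₀ ≠ 0 := fun h => hv1 (hφ (by rw [h, map_zero]))
  have hφe : ev M (B.e k) (φ v₀) = φ v₀ := by
    rw [H05_aux.e_fix]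
    intro u hu
    have h1 := eX_fix.1 hv0 u hu
    have h2 := hφ' ⟨u, X.UH hu⟩ v₀
    rw [h1] at h2
    exact h2.symm
  have hmult : ∀ w, Parker.act (Parker.rs X.H M) (Parker.es ρ.character) w = w →
      ∃ x, φ x = w := fun w hw' => mult_oneD hρ hM φ hφ hφ' hP hpd hD hE hv1 hφe hw'
  generalize Parker.act (Parker.rs X.H M) (Parker.es ρ.character) = Z at *
  -- the normalised operators are unique on the range of `e`
  have huniq : ∀ (p : Bool × Bool) (Y Y' : Module.End Ω W), TwW X M p Y → TwW X M p Y' →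
      Y (φ v₀) = φ v₀ → Y' (φ v₀) = φ v₀ → ∀ v, ev M (B.e k) v = v → Y v = Y' v := by
    intro p Y Y' hY hY' h1 h1' v hv
    obtain ⟨c, hc⟩ := tw_prop hM (twW_tw (k := k) hY) (twW_tw hY') ⟨φ v₀, hφe, by rw [h1]; exact hφ0⟩
    have h2 := hc _ hφe
    rw [h1, h1'] at h2
    have h3 : (1 - c) • φ v₀ = 0 := by rw [sub_smul, one_smul, ← h2, sub_self]
    have h4 : c = 1 := by
      rcases smul_eq_zero.1 h3 with h | h
      · exact (sub_eq_zero.1 h).symm
      · exact absurd h hφ0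
    rw [hc v hv, h4, one_smul]
  have hnorm : ∀ p : Bool × Bool, ∃ Θ : Module.End Ω W,
      (∃ Y : Module.End Ω W, TwW X M p Y ∧ ∃ v, ev M (B.e k) v = v ∧ Y v ≠ 0) →
        TwW X M p Θ ∧ ∀ v, Θ (φ v) = φ v := by
    intro p
    by_cases hp : ∃ Y : Module.End Ω W, TwW X M p Y ∧ ∃ v, ev M (B.e k) v = v ∧ Y v ≠ 0
    · obtain ⟨Y, hY, h0⟩ := hp
      obtain ⟨c, hc⟩ := scalD hρ hM φ hφ hφ' hP hpd hD hE hv1 hφe (twW_comm hY)
      have hc0 : c ≠ 0 := by
        intro h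
        apply hφ0
        refine tw_inj hM (twW_tw (k := k) hY) h0 hφe ?_
        rw [hc, h, zero_smul]
      refine ⟨c⁻¹ • Y, fun _ => ⟨tw_smul hY _, fun v => ?_⟩⟩
      rw [LinearMap.smul_apply, hc, smul_smul, inv_mul_cancel₀ hc0, one_smul]
    · exact ⟨0, fun h => absurd h hp⟩
  choose Θ hΘ using hnorm
  obtain ⟨L, hL⟩ : ∃ L : Finset (Bool × Bool), ∀ p, p ∈ L ↔
      ∃ Y : Module.End Ω W, TwW X M p Y ∧ ∃ v, ev M (B.e k) v = v ∧ Y v ≠ 0 :=
    ⟨Finset.univ.filter fun p => ∃ Y : Module.End Ω W, TwW X M p Y ∧ ∃ v, ev M (B.e k) v = v ∧ Y v ≠ 0,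
      fun p => by rw [Finset.mem_filter]; exact ⟨fun h => h.2, fun h => ⟨Finset.mem_univ _, h⟩⟩⟩
  have h1 : ∀ p ∈ L, TwW X M p (Θ p) := fun p hp => (hΘ p ((hL p).1 hp)).1
  have h2 : ∀ p ∈ L, ∀ v, Θ p (φ v) = φ v := fun p hp => (hΘ p ((hL p).1 hp)).2
  have hmem : ∀ (p : Bool × Bool) (Y : Module.End Ω W), TwW X M p Y → Y (φ v₀) = φ v₀ → p ∈ L := by
    intro p Y hY h
    exact (hL p).2 ⟨Y, hY, φ v₀, hφe, by rw [h]; exact hφ0⟩
  have h3 : ∀ p ∈ L, ∀ q ∈ L, TwW X M (pa p q) (Θ p * Θ q) ∧ (Θ p * Θ q) (φ v₀) = φ v₀ := by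
    intro p hp q hq
    refine ⟨tw_mul (h1 p hp) (h1 q hq), ?_⟩
    rw [Module.End.mul_apply, h2 q hq, h2 p hp]
  have hone : (false, false) ∈ L := hmem _ 1 tw_one rfl
  have hpa : ∀ p ∈ L, ∀ q ∈ L, pa p q ∈ L := fun p hp q hq =>
    hmem _ _ (h3 p hp q hq).1 (h3 p hp q hq).2
  have hΘΘ : ∀ p ∈ L, ∀ q ∈ L, ∀ v, ev M (B.e k) v = v → Θ p (Θ q v) = Θ (pa p q) v := by
    intro p hp q hq v hv
    exact huniq _ _ _ (h3 p hp q hq).1 (h1 _ (hpa p hp q hq)) (h3 p hp q hq).2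
      (h2 _ (hpa p hp q hq) _) v hv
  refine ⟨L, Θ, hone, hpa, h1, fun p hp => ⟨φ v₀, hφe, by rw [h2 p hp]; exact hφ0⟩,
    fun v hv => huniq _ _ _ (h1 _ hone) tw_one (h2 _ hone _) rfl v hv, hΘΘ,
    fun p Y hY h0 => (hL p).2 ⟨Y, hY, h0⟩, fun v hv => ?_, fun w => ⟨?_, hmult w⟩⟩
  · obtain ⟨Zs, hZs, hsum⟩ := comm_splitD hZc
    have ha : ∀ p, ∃ a : Ω, ∀ w, ev M (B.e k) w = w → Zs p w = if p ∈ L then a • Θ p w else 0 := by
      intro p
      by_cases hp : p ∈ L
      · obtain ⟨a, ha⟩ := tw_prop hM (twW_tw (k := k) (h1 p hp)) (twW_tw (hZs p))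
          ⟨φ v₀, hφe, by rw [h2 p hp]; exact hφ0⟩
        exact ⟨a, fun w hw' => by rw [if_pos hp, ha w hw']⟩
      · refine ⟨0, fun w hw' => ?_⟩
        rw [if_neg hp]
        by_contra hne
        exact hp ((hL p).2 ⟨_, hZs p, w, hw', hne⟩)
    choose a ha using ha
    have hΨ : ∀ w, ev M (B.e k) w = w → Z w = ∑ p ∈ L, a p • Θ p w := by
      intro w hw'
      have e1 : Z w = ∑ p, Zs p w := by rw [hsum, LinearMap.sum_apply]
      rw [e1, Finset.sum_congr rfl fun p _ => ha p w hw', Finset.sum_ite_mem, Finset.univ_inter]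
    have hS : ∀ w, ev M (B.e k) w = w → ev M (B.e k) (∑ p ∈ L, Θ p w) = ∑ p ∈ L, Θ p w := by
      intro w hw'
      rw [map_sum]
      exact Finset.sum_congr rfl fun p hp => (twW_tw (k := k) (h1 p hp)).mem w hw'
    have hΘS : ∀ q ∈ L, ∀ w, ev M (B.e k) w = w → Θ q (∑ p ∈ L, Θ p w) = ∑ p ∈ L, Θ p w := by
      intro q hq w hw'
      rw [map_sum, Finset.sum_congr rfl fun p hp => hΘΘ q hq p hp w hw']
      refine Finset.sum_nbij' (fun p => pa q p) (fun p => pa q p) (fun p hp => hpa q hq p hp)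
        (fun p hp => hpa q hq p hp) (fun p _ => pa_pa q p) (fun p _ => pa_pa q p) (fun p _ => rfl)
    have e1 : ∀ w, ev M (B.e k) w = w → Z (∑ p ∈ L, Θ p w) = (∑ p ∈ L, a p) • ∑ p ∈ L, Θ p w := by
      intro w hw'
      rw [hΨ _ (hS w hw'), Finset.sum_smul]
      exact Finset.sum_congr rfl fun q hq => by rw [hΘS q hq w hw']
    have e2 : ∀ w, ev M (B.e k) w = w → Z (∑ p ∈ L, Θ p w) = (L.card : Ω) • Z w := by
      intro w hw'
      rw [map_sum]
      have e3 : ∀ p ∈ L, Z (Θ p w) = Z w := by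
        intro p hp
        rw [comm2D hM hP hpd hD hE hZc (twW_comm (h1 p hp)) hw']
        obtain ⟨x, hx⟩ := hmult _ (hZZ w)
        rw [← hx, h2 p hp]
      rw [Finset.sum_congr rfl e3, Finset.sum_const, Nat.cast_smul_eq_nsmul]
    have e4 : ∀ w, ev M (B.e k) w = w → (L.card : Ω) • Z w = (∑ p ∈ L, a p) • ∑ p ∈ L, Θ p w :=
      fun w hw' => (e2 w hw').symm.trans (e1 w hw')
    have hL0 : (L.card : Ω) ≠ 0 := by
      rw [Nat.cast_ne_zero, Finset.card_ne_zero]
      exact ⟨_, hone⟩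
    have e5 := e4 _ hφe
    rw [hZφ, Finset.sum_congr rfl fun p hp => h2 p hp v₀, Finset.sum_const,
      ← Nat.cast_smul_eq_nsmul Ω, smul_smul] at e5
    have e6 : ((L.card : Ω) - (∑ p ∈ L, a p) * L.card) • φ v₀ = 0 := by
      rw [sub_smul, ← e5, sub_self]
    have e7 : (L.card : Ω) - (∑ p ∈ L, a p) * L.card = 0 := (smul_eq_zero.1 e6).resolve_right hφ0
    have e8 : (∑ p ∈ L, a p) = 1 := by
      have e9 : (1 - ∑ p ∈ L, a p) * (L.card : Ω) = 0 := by linear_combination e7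
      exact (sub_eq_zero.1 ((mul_eq_zero.1 e9).resolve_right hL0)).symm
    rw [e4 v hv, e8, one_smul]
  · rintro ⟨x, rfl⟩
    exact hZφ x

end

end AO
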