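import Pool.Agent.AO.Q07
import Pool.Agent.AO.H04
import Pool.Agent.AO.L09

/-!
# MP_6c3636_al, AO, module Q08: type D: the coefficients: relations and forms (helper7)

Hypotheses: the output of `structD`. `kapD`: `tw_snD` for every `p ∈ L`, `κ (false, false) = 1`; `Θ p (Θ q (v β)) = Θ (pa p q) (v β)`. `kapD_av`: `tw_form` (H04) for `Θ p` and the form `B'` of `M_orth` (L09): `κ p β ^ 2 * nm (dpS p β) = c' * nm β`, and `κ p β * κ p (dpS p β) = 1` gives `c' ^ 2 = 1`. `kapD_sd`: if `ρ` is self dual `Ψ = act (rs X.H M) (es ρ.character)` is self adjoint for `B'`; `|L| B' (Ψ (v β)) (v (dpS p β)) = κ p β * μ * nm (dpS p β)` (the `dpS q β`, `q ∈ L`, are pairwise different: `dp_ne`, `n > 0`) and `|L| B' (v β) (Ψ (v (dpS p β))) = κ p (dpS p β) * μ * nm β`.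
-/

namespace AO

noncomputable section

open Classical Equiv

open AN (sq)

variable {k : Type} [Field k] [CharZero k] [Algebra k ℝ] {Ω : Type} [Field Ω] [IsAlgClosed Ω] [CharZero Ω]
  [Algebra k Ω] {G : Type} [Group G] [Finite G] {n : ℕ} {B : BN G n} {P : Par k}
  {D : HA P n (MonoidAlgebra k G)} {W : Type} [AddCommGroup W] [Module Ω W] [FiniteDimensional Ω W]
  {M : Representation Ω G W} {X : BD B} {V : Type} [AddCommGroup V] [Module Ω V] [FiniteDimensional Ω V]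
  {ρ : Representation Ω X.H V}

/-- the output of `structD` -/
structure St (B : BN G n) (X : BD B) (k : Type) [Field k] [Algebra k Ω] (M : Representation Ω G W)
    (ρ : Representation Ω X.H V) (L : Finset (Bool × Bool)) (Θ : Bool × Bool → Module.End Ω W) :
    Prop where
  one : (false, false) ∈ L
  cl : ∀ p ∈ L, ∀ q ∈ L, pa p q ∈ L
  tw : ∀ p ∈ L, TwW X M p (Θ p)
  ne : ∀ p ∈ L, ∃ v, ev M (B.e k) v = v ∧ Θ p v ≠ 0
  full : ∀ p Z, TwW X M p Z → (∃ v, ev M (B.e k) v = v ∧ Z v ≠ 0) → p ∈ L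
  id : ∀ v, ev M (B.e k) v = v → Θ (false, false) v = v
  mul : ∀ p ∈ L, ∀ q ∈ L, ∀ v, ev M (B.e k) v = v → Θ p (Θ q v) = Θ (pa p q) v
  es : ∀ v, ev M (B.e k) v = v →
    (L.card : Ω) • Parker.act (Parker.rs X.H M) (Parker.es ρ.character) v = ∑ p ∈ L, Θ p v

namespace Q08_aux

theorem pa_self (p : Bool × Bool) : pa p p = (false, false) := by
  revert p
  decide

theorem pa_eq {p q : Bool × Bool} (h : pa p q = (false, false)) : q = p := by
  revert h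
  revert p q
  decide

theorem dpS_dpS {n : ℕ} (p : Bool × Bool) (β : Fin n → AO.Et) : dpS p (dpS p β) = β := by
  rw [← dpS_pa, pa_self, dpS_one]

theorem dpS_eq {n : ℕ} (hn : 0 < n) {p : Bool × Bool} {β : Fin n → AO.Et} (h : dpS p β = β) :
    p = (false, false) := by
  by_contra h1
  have h2 : (dp p (β ⟨0, hn⟩).1, (β ⟨0, hn⟩).2) = β ⟨0, hn⟩ := congrFun h ⟨0, hn⟩
  exact dp_ne h1 _ (congrArg Prod.fst h2)

theorem dpS_inj {n : ℕ} (hn : 0 < n) {p q : Bool × Bool} {β : Fin n → AO.Et} (h : dpS q β = dpS p β) :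
    q = p := by
  refine pa_eq (dpS_eq hn (β := β) ?_)
  rw [dpS_pa, h, dpS_dpS]

theorem ev_v {F : AO.Et → ℤ} {v : (Fin n → AO.Et) → W}
    (hs : Submodule.span Ω (Set.range (fun β : {β // β ∈ SFT n F} => v β)) =
      LinearMap.range (ev M (B.e k))) {β : Fin n → AO.Et} (hβ : β ∈ SqT n F) :
    ev M (B.e k) (v β) = v β := by
  have h1 : v β ∈ LinearMap.range (ev M (B.e k)) := by
    rw [← hs]
    exact Submodule.subset_span ⟨⟨β, mem_SFT.2 hβ⟩, rfl⟩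
  obtain ⟨u, hu⟩ := h1
  rw [← hu, ← Module.End.mul_apply, ← map_mul, e_idem]

theorem kap_mul {F : AO.Et → ℤ} {v : (Fin n → AO.Et) → W} (hv : SN (D.on M) F v)
    (hs : Submodule.span Ω (Set.range (fun β : {β // β ∈ SFT n F} => v β)) =
      LinearMap.range (ev M (B.e k))) {L : Finset (Bool × Bool)} {Θ : Bool × Bool → Module.End Ω W}
    (hS : St B X k M ρ L Θ) {p q : Bool × Bool} (hp : p ∈ L) (hq : q ∈ L)
    {κp κq κr : (Fin n → AO.Et) → Ω}
    (hκp : ∀ β ∈ SqT n F, dpS p β ∈ SqT n F ∧ κp β ≠ 0 ∧ Θ p (v β) = κp β • v (dpS p β))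
    (hκq : ∀ β ∈ SqT n F, dpS q β ∈ SqT n F ∧ κq β ≠ 0 ∧ Θ q (v β) = κq β • v (dpS q β))
    (hκr : ∀ β ∈ SqT n F, dpS (pa p q) β ∈ SqT n F ∧ Θ (pa p q) (v β) = κr β • v (dpS (pa p q) β))
    {β : Fin n → AO.Et} (hβ : β ∈ SqT n F) : κq β * κp (dpS q β) = κr β := by
  obtain ⟨h1, -, h2⟩ := hκq β hβ
  obtain ⟨-, -, h3⟩ := hκp (dpS q β) h1
  obtain ⟨h4, h5⟩ := hκr β hβ
  have h6 := hS.mul p hp q hq (v β) (ev_v hs hβ)
  rw [h2, map_smul, h3, h5, smul_smul, ← dpS_pa, ← sub_eq_zero, ← sub_smul] at h6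
  rcases smul_eq_zero.1 h6 with h7 | h7
  · exact sub_eq_zero.1 h7
  · exact absurd h7 (hv.nz _ h4)

theorem kap_self {F : AO.Et → ℤ} {v : (Fin n → AO.Et) → W} (hv : SN (D.on M) F v)
    (hs : Submodule.span Ω (Set.range (fun β : {β // β ∈ SFT n F} => v β)) =
      LinearMap.range (ev M (B.e k))) {L : Finset (Bool × Bool)} {Θ : Bool × Bool → Module.End Ω W}
    (hS : St B X k M ρ L Θ) {p : Bool × Bool} (hp : p ∈ L) {κ : (Fin n → AO.Et) → Ω}
    (hκ : ∀ β ∈ SqT n F, dpS p β ∈ SqT n F ∧ κ β ≠ 0 ∧ Θ p (v β) = κ β • v (dpS p β))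
    {β : Fin n → AO.Et} (hβ : β ∈ SqT n F) : κ β * κ (dpS p β) = 1 := by
  refine kap_mul hv hs hS hp hp (κr := fun _ => 1) hκ hκ (fun γ hγ => ?_) hβ
  rw [pa_self, dpS_one]
  refine ⟨hγ, ?_⟩
  rw [one_smul]
  exact hS.id _ (ev_v hs hγ)

end Q08_aux

open Q08_aux

theorem kapD (hM : M.IsIrreducible) (hP : Fit B P) (hpd : PD P) (hD : Dg B P D)
    {F : AO.Et → ℤ} {v : (Fin n → AO.Et) → W} (hv : SN (D.on M) F v)
    (hs : Submodule.span Ω (Set.range (fun β : {β // β ∈ SFT n F} => v β)) =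
      LinearMap.range (ev M (B.e k))) {L : Finset (Bool × Bool)} {Θ : Bool × Bool → Module.End Ω W}
    (hS : St B X k M ρ L Θ) : ∃ κ : Bool × Bool → (Fin n → AO.Et) → Ω,
      (∀ p ∈ L, ∀ β ∈ SqT n F, dpS p β ∈ SqT n F ∧ κ p β ≠ 0 ∧ Θ p (v β) = κ p β • v (dpS p β)) ∧
      (∀ β ∈ SqT n F, κ (false, false) β = 1) ∧
      ∀ p ∈ L, ∀ q ∈ L, ∀ β ∈ SqT n F, κ q β * κ p (dpS q β) = κ (pa p q) β := by
  have h1 : ∀ p ∈ L, ∃ κ : (Fin n → AO.Et) → Ω, ∀ β ∈ SqT n F, dpS p β ∈ SqT n F ∧ κ β ≠ 0 ∧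
      Θ p (v β) = κ β • v (dpS p β) := fun p hp =>
    tw_snD hM hP hpd hD hv hs p (twW_tw (hS.tw p hp)) (hS.ne p hp)
  refine ⟨fun p => if hp : p ∈ L then (h1 p hp).choose else fun _ => 0, ?_, ?_, ?_⟩
  · intro p hp β hβ
    have h2 := (h1 p hp).choose_spec β hβ
    rw [← dif_pos (c := p ∈ L) (t := fun hp => (h1 p hp).choose) (e := fun _ => fun _ => 0) hp] at h2
    exact h2
  · intro β hβ
    have h2 := (h1 _ hS.one).choose_spec β hβ
    have h3 := h2.2.2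
    rw [hS.id _ (ev_v hs hβ), dpS_one, ← sub_eq_zero] at h3
    have h4 : (1 - (h1 _ hS.one).choose β) • v β = 0 := by
      rw [sub_smul, one_smul]
      exact h3
    show (if hp : (false, false) ∈ L then (h1 _ hp).choose else fun _ => 0) β = 1
    rw [dif_pos hS.one]
    rcases smul_eq_zero.1 h4 with h5 | h5
    · exact (sub_eq_zero.1 h5).symm
    · exact absurd h5 (hv.nz β hβ)
  · intro p hp q hq β hβ
    have h2 := (h1 p hp).choose_spec
    have h3 := (h1 q hq).choose_spec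
    have h4 := (h1 _ (hS.cl p hp q hq)).choose_spec
    show (if hq : q ∈ L then (h1 _ hq).choose else fun _ => 0) β *
      (if hp : p ∈ L then (h1 _ hp).choose else fun _ => 0) (dpS q β) =
      (if hr : pa p q ∈ L then (h1 _ hr).choose else fun _ => 0) β
    rw [dif_pos hp, dif_pos hq, dif_pos (hS.cl p hp q hq)]
    exact kap_mul hv hs hS hp hq h2 h3 (fun γ hγ => ⟨(h4 γ hγ).1, (h4 γ hγ).2.2⟩) hβ

theorem kapD_av (hM : M.IsIrreducible) (hP : Fit B P) (hpd : PD P) (hD : Dg B P D)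
    {F : AO.Et → ℤ} {v : (Fin n → AO.Et) → W} (hv : SN (D.on M) F v)
    (hs : Submodule.span Ω (Set.range (fun β : {β // β ∈ SFT n F} => v β)) =
      LinearMap.range (ev M (B.e k))) {L : Finset (Bool × Bool)} {Θ : Bool × Bool → Module.End Ω W}
    (hS : St B X k M ρ L Θ) {p : Bool × Bool} (hp : p ∈ L) {κ : (Fin n → AO.Et) → Ω}
    (hκ : ∀ β ∈ SqT n F, dpS p β ∈ SqT n F ∧ κ β ≠ 0 ∧ Θ p (v β) = κ β • v (dpS p β)) :
    (∀ β ∈ SqT n F, κ β ^ 2 * ((P.nm (dpS p β) : ℚ) : Ω) = ((P.nm β : ℚ) : Ω)) ∨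
      ∀ β ∈ SqT n F, κ β ^ 2 * ((P.nm (dpS p β) : ℚ) : Ω) = -((P.nm β : ℚ) : Ω) := by
  have hn : 0 < n := lt_of_lt_of_le two_pos X.n2
  obtain ⟨B', μ, hB, -, hμ, hBv⟩ := M_orth hM hP hD hn hv hs
  obtain ⟨c', hc'⟩ := tw_form hM hB (twW_tw (k := k) (hS.tw p hp))
  have hrel : ∀ β ∈ SqT n F, κ β ^ 2 * ((P.nm (dpS p β) : ℚ) : Ω) = c' * ((P.nm β : ℚ) : Ω) := by
    intro β hβ
    obtain ⟨h1, -, h3⟩ := hκ β hβ
    have h4 := hc' (v β) (v β) (ev_v hs hβ) (ev_v hs hβ)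
    rw [h3, map_smul, map_smul, LinearMap.smul_apply, smul_eq_mul, smul_eq_mul, hBv _ h1 _ h1,
      if_pos rfl, hBv _ hβ _ hβ, if_pos rfl] at h4
    refine mul_left_cancel₀ hμ ?_
    linear_combination h4
  obtain ⟨β0, hβ0⟩ := hv.ne
  have hnz : ∀ β : Fin n → AO.Et, ((P.nm β : ℚ) : Ω) ≠ 0 := by
    intro β
    exact Rat.cast_ne_zero.2 (ne_of_gt (nm_posT β))
  have hsq : c' ^ 2 = 1 := by
    obtain ⟨h1, -, -⟩ := hκ β0 hβ0
    have h2 := hrel β0 hβ0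
    have h3 := hrel (dpS p β0) h1
    rw [dpS_dpS] at h3
    have h4 := kap_self hv hs hS hp hκ hβ0
    have h5 : c' ^ 2 * (((P.nm β0 : ℚ) : Ω) * ((P.nm (dpS p β0) : ℚ) : Ω)) =
        1 * (((P.nm β0 : ℚ) : Ω) * ((P.nm (dpS p β0) : ℚ) : Ω)) := by
      have h6 : (κ β0 ^ 2 * ((P.nm (dpS p β0) : ℚ) : Ω)) *
          (κ (dpS p β0) ^ 2 * ((P.nm β0 : ℚ) : Ω)) =
          (c' * ((P.nm β0 : ℚ) : Ω)) * (c' * ((P.nm (dpS p β0) : ℚ) : Ω)) := by
        rw [h2, h3]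
      have h7 : (κ β0 * κ (dpS p β0)) ^ 2 = 1 := by rw [h4, one_pow]
      linear_combination (((P.nm β0 : ℚ) : Ω) * ((P.nm (dpS p β0) : ℚ) : Ω)) * h7 - h6
    exact mul_right_cancel₀ (mul_ne_zero (hnz _) (hnz _)) h5
  rcases sq_eq_one_iff.1 hsq with h1 | h1
  · left
    intro β hβ
    rw [hrel β hβ, h1, one_mul]
  · right
    intro β hβ
    rw [hrel β hβ, h1, neg_one_mul]

theorem kapD_sd (hρ : ρ.IsIrreducible) (hM : M.IsIrreducible) (hP : Fit B P) (hpd : PD P)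
    (hD : Dg B P D) {F : AO.Et → ℤ} {v : (Fin n → AO.Et) → W} (hv : SN (D.on M) F v)
    (hs : Submodule.span Ω (Set.range (fun β : {β // β ∈ SFT n F} => v β)) =
      LinearMap.range (ev M (B.e k))) {L : Finset (Bool × Bool)} {Θ : Bool × Bool → Module.End Ω W}
    (hS : St B X k M ρ L Θ) {κ : Bool × Bool → (Fin n → AO.Et) → Ω}
    (hκ : ∀ p ∈ L, ∀ β ∈ SqT n F, dpS p β ∈ SqT n F ∧ κ p β ≠ 0 ∧
      Θ p (v β) = κ p β • v (dpS p β)) (hsd : Parker.SD ρ) :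
    ∀ p ∈ L, ∀ β ∈ SqT n F, κ p β ^ 2 * ((P.nm (dpS p β) : ℚ) : Ω) = ((P.nm β : ℚ) : Ω) := by
  intro p hp β hβ
  have hn : 0 < n := lt_of_lt_of_le two_pos X.n2
  obtain ⟨B', μ, hB, -, hμ, hBv⟩ := M_orth hM hP hD hn hv hs
  have hB1 : Parker.InvForm (Parker.rs X.H M) B' := ⟨hB.symm, hB.nondeg, fun g x y => hB.inv g x y⟩
  have hdu : Parker.du (Parker.es ρ.character) = Parker.es ρ.character := by
    funext g
    show ρ.character 1 * (Nat.card X.H : Ω)⁻¹ * ρ.character g⁻¹⁻¹ =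
      ρ.character 1 * (Nat.card X.H : Ω)⁻¹ * ρ.character g⁻¹
    rw [inv_inv, hsd g]
  have hadj : B' (Parker.act (Parker.rs X.H M) (Parker.es ρ.character) (v β)) (v (dpS p β)) =
      B' (v β) (Parker.act (Parker.rs X.H M) (Parker.es ρ.character) (v (dpS p β))) := by
    rw [Parker.act_adj hB1, hdu]
  obtain ⟨h1, h2, h3⟩ := hκ p hp β hβ
  have h4 := hS.es (v β) (ev_v hs hβ)
  have h5 := hS.es (v (dpS p β)) (ev_v hs h1)
  have h6 : (L.card : Ω) * B' (Parker.act (Parker.rs X.H M) (Parker.es ρ.character) (v β))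
      (v (dpS p β)) = κ p β * (μ * ((P.nm (dpS p β) : ℚ) : Ω)) := by
    rw [← smul_eq_mul, ← LinearMap.smul_apply, ← map_smul, h4, map_sum, LinearMap.sum_apply,
      Finset.sum_eq_single p]
    · rw [h3, map_smul, LinearMap.smul_apply, smul_eq_mul, hBv _ h1 _ h1, if_pos rfl]
    · intro q hq hne
      obtain ⟨h7, -, h8⟩ := hκ q hq β hβ
      rw [h8, map_smul, LinearMap.smul_apply, smul_eq_mul, hBv _ h7 _ h1,
        if_neg (fun h => hne (dpS_inj hn h)), mul_zero]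
    · exact fun h => absurd hp h
  have h7 : (L.card : Ω) * B' (v β) (Parker.act (Parker.rs X.H M) (Parker.es ρ.character)
      (v (dpS p β))) = κ p (dpS p β) * (μ * ((P.nm β : ℚ) : Ω)) := by
    rw [← smul_eq_mul, ← map_smul, h5, map_sum, Finset.sum_eq_single p]
    · rw [(hκ p hp _ h1).2.2, dpS_dpS, map_smul, smul_eq_mul, hBv _ hβ _ hβ, if_pos rfl]
    · intro q hq hne
      obtain ⟨h8, -, h9⟩ := hκ q hq _ h1
      rw [h9, map_smul, smul_eq_mul, hBv _ hβ _ h8, if_neg (fun h => hne ?_), mul_zero]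
      refine pa_eq ?_
      rw [← dpS_pa] at h
      have h10 := dpS_eq hn h.symm
      have h11 := pa_eq h10
      rw [h11, pa_self]
    · exact fun h => absurd hp h
  have h8 := kap_self hv hs hS hp (hκ p hp) hβ
  have h9 : κ p β * (μ * ((P.nm (dpS p β) : ℚ) : Ω)) =
      κ p (dpS p β) * (μ * ((P.nm β : ℚ) : Ω)) := by
    rw [← h6, ← h7, hadj]
  refine mul_left_cancel₀ hμ ?_
  linear_combination κ p β * h9 + (μ * ((P.nm β : ℚ) : Ω)) * h8

end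

end AO
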