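import Pool.Agent.AO.Q08
import Pool.Agent.AO.H06

/-!
# MP_6c3636_al, AO, module Q09: type D: the coefficients: automorphisms (helper7)

As `half_sig` (H06, AO/H06.lean). `M_coef` (L09): `[h] (v β) = ∑ γ, m_h γ β • v γ`, `m_h γ β ∈ k`, so for `Ψ = act (rs X.H M) (es ψ)`, `ψ = ρ.character`: `Ψ (v β) = e Ψ (v β) = ∑ γ, (∑ h, es ψ h * m_h γ β) • v γ`, and `κ p β / |L|` is the coefficient at `dpS p β`. Apply `σ`: the operator `Ψ' = act (rs X.H M) (es (σ ψ))` has the coefficients `σ (κ p β) / |L|` at `dpS p β`, `p ∈ L`, and zero elsewhere. If `σ ψ = ψ`: `σ (κ p β) = κ p β`. In general `Ψ'` is in the commutant of `X.H`; by `comm_splitD`, `St.full`, `twW_tw`, `tw_prop`: `Ψ' = ∑ c p Θ p` (sum over `p ∈ L`) on the range of `e`, so `σ (κ p β) = |L| c p κ p β` with `c p` independent of `β`; `ε p = |L| c p`; from `κ q β * κ p (dpS q β) = κ (pa p q) β`: `ε p ε q = ε (pa p q)`, `ε (false, false) = 1`, so `ε p ^ 2 = 1` (`pa p p = (false, false)`). If all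 `ε p = 1` then `Ψ' = Ψ` on the range of `e`; as `Ψ' Ψ = 0` for `σ ψ ≠ ψ` (different central idempotents) and `Ψ ≠ 0` on the range of `e`: `σ ψ = ψ`.
-/

namespace AO

noncomputable section

open Classical Equiv

open AN (sq)

variable {k : Type} [Field k] [CharZero k] [Algebra k ℝ] {Ω : Type} [Field Ω] [IsAlgClosed Ω] [CharZero Ω]
  [Algebra k Ω] {G : Type} [Group G] [Finite G] {n : ℕ} {B : BN G n} {P : Par k}
  {D : HA P n (MonoidAlgebra k G)} {W : Type} [AddCommGroup W] [Module Ω W] [FiniteDimensional Ω W]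
  {M : Representation Ω G W} {X : BD B} {V : Type} [AddCommGroup V] [Module Ω V] [FiniteDimensional Ω V]
  {ρ : Representation Ω X.H V}

namespace Q09_aux

open Q08_aux

theorem e_actX [Fintype X.H] (s : X.H → Ω) {w : W} (hw : ev M (B.e k) w = w) :
    ev M (B.e k) (Parker.act (Parker.rs X.H M) s w) = ∑ h : X.H, s h • ev M (B.b k (h : G)) w := by
  rw [Parker.act_eq, LinearMap.sum_apply, map_sum]
  refine Finset.sum_congr rfl fun h _ => ?_
  rw [LinearMap.smul_apply, map_smul, H06_aux.e_M (h : G) hw]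
  rfl

/-- the matrices of the elements of the group algebra of the subgroup -/
theorem exists_mX [Fintype X.H] (hM : M.IsIrreducible) (hP : Fit B P) (hD : Dg B P D) (hn : 0 < n)
    {F : AO.Et → ℤ} {v : (Fin n → AO.Et) → W} (hv : SN (D.on M) F v)
    (hs : Submodule.span Ω (Set.range (fun β : {β // β ∈ SFT n F} => v β)) =
      LinearMap.range (ev M (B.e k))) :
    ∃ m : X.H → (Fin n → AO.Et) → (Fin n → AO.Et) → k, ∀ s : X.H → Ω, ∀ β ∈ SqT n F,
      ev M (B.e k) (Parker.act (Parker.rs X.H M) s (v β)) =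
        ∑ γ ∈ SFT n F, (∑ h : X.H, s h * algebraMap k Ω (m h γ β)) • v γ := by
  choose m hm using fun h : X.H => M_coef hM hP hD hn hv hs (h : G)
  refine ⟨m, fun s β hβ => ?_⟩
  rw [e_actX s (ev_v hs hβ)]
  simp only [Finset.sum_smul]
  rw [Finset.sum_comm]
  refine Finset.sum_congr rfl fun h _ => ?_
  rw [hm h β hβ, Finset.smul_sum]
  refine Finset.sum_congr rfl fun γ _ => ?_
  rw [smul_smul]

/-- coefficients of the seminormal basis -/
theorem coefL {F : AO.Et → ℤ} {v : (Fin n → AO.Et) → W} (hv : SN (D.on M) F v) (hn : 0 < n)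
    {L : Finset (Bool × Bool)} {β : Fin n → AO.Et} (hL : ∀ p ∈ L, dpS p β ∈ SqT n F)
    {c : (Fin n → AO.Et) → Ω} {a : Bool × Bool → Ω}
    (h : ∑ γ ∈ SFT n F, c γ • v γ = ∑ p ∈ L, a p • v (dpS p β)) {p : Bool × Bool} (hp : p ∈ L) :
    c (dpS p β) = a p := by
  have h1 := hv.li
  rw [Fintype.linearIndependent_iff] at h1
  have e1 : ∀ (x : Ω) (α : Fin n → AO.Et), α ∈ SqT n F →
      ∑ γ ∈ SFT n F, (if γ = α then x else 0) • v γ = x • v α := by
    intro x α hα
    rw [Finset.sum_eq_single α]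
    · rw [if_pos rfl]
    · intro γ _ hγ
      rw [if_neg hγ, zero_smul]
    · intro hα'
      exact absurd (mem_SFT.2 hα) hα'
  have e2 : ∑ γ ∈ SFT n F, (∑ q ∈ L, if γ = dpS q β then a q else 0) • v γ =
      ∑ q ∈ L, a q • v (dpS q β) := by
    simp only [Finset.sum_smul]
    rw [Finset.sum_comm]
    exact Finset.sum_congr rfl fun q hq => e1 _ _ (hL q hq)
  have h2 : ∑ γ ∈ SFT n F, (c γ - ∑ q ∈ L, if γ = dpS q β then a q else 0) • v γ = 0 := by
    simp only [sub_smul, Finset.sum_sub_distrib]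
    rw [h, e2, sub_self]
  have h3 := h1 (fun γ => c γ - ∑ q ∈ L, if (γ : Fin n → AO.Et) = dpS q β then a q else 0)
    ((Finset.sum_coe_sort (SFT n F) (fun γ =>
      (c γ - ∑ q ∈ L, if γ = dpS q β then a q else 0) • v γ)).trans h2)
  have h4 := h3 ⟨dpS p β, mem_SFT.2 (hL p hp)⟩
  have h5 : (∑ q ∈ L, if dpS p β = dpS q β then a q else 0) = a p := by
    rw [Finset.sum_eq_single p]
    · rw [if_pos rfl]
    · intro q _ hq
      exact if_neg fun h6 => hq (dpS_inj hn h6).symm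
    · intro h6
      exact absurd hp h6
  have h6 : c (dpS p β) - (∑ q ∈ L, if dpS p β = dpS q β then a q else 0) = 0 := h4
  rw [h5] at h6
  exact sub_eq_zero.1 h6

end Q09_aux

open Q08_aux Q09_aux

theorem sigD (hρ : ρ.IsIrreducible) (hM : M.IsIrreducible) (hP : Fit B P) (hpd : PD P)
    (hD : Dg B P D) {F : AO.Et → ℤ} {v : (Fin n → AO.Et) → W} (hv : SN (D.on M) F v)
    (hs : Submodule.span Ω (Set.range (fun β : {β // β ∈ SFT n F} => v β)) =
      LinearMap.range (ev M (B.e k))) {L : Finset (Bool × Bool)} {Θ : Bool × Bool → Module.End Ω W}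
    (hS : St B X k M ρ L Θ) {κ : Bool × Bool → (Fin n → AO.Et) → Ω}
    (hκ : ∀ p ∈ L, ∀ β ∈ SqT n F, dpS p β ∈ SqT n F ∧ κ p β ≠ 0 ∧
      Θ p (v β) = κ p β • v (dpS p β)) {σ : RingAut Ω}
    (hσ : ∀ x : k, σ (algebraMap k Ω x) = algebraMap k Ω x) :
    ∃ ε : Bool × Bool → ℤˣ, (∀ p ∈ L, ∀ β ∈ SqT n F, σ (κ p β) = (((ε p : ℤˣ) : ℤ) : Ω) * κ p β) ∧
      (Parker.Fixes σ ρ ↔ ∀ p ∈ L, ε p = 1) := by
  have hn : 0 < n := by
    have := X.n2
    omega
  have := Fintype.ofFinite X.H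
  have hN : (L.card : Ω) ≠ 0 := Nat.cast_ne_zero.2 (Finset.card_ne_zero_of_mem hS.one)
  obtain ⟨m, hm⟩ := exists_mX (X := X) hM hP hD hn hv hs
  obtain ⟨β₀, hβ₀⟩ := hv.ne
  have hψ : ρ.character ∈ Parker.irr Ω X.H := Parker.mem_irr.2 (Parker.mem_irrSet hρ)
  have hψ' := Parker.sigma_mem_irr hψ σ
  -- the operator of the character
  have e1 : ∀ β ∈ SqT n F, Parker.act (Parker.rs X.H M) (Parker.es ρ.character) (v β) =
      ∑ p ∈ L, ((L.card : Ω)⁻¹ * κ p β) • v (dpS p β) := by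
    intro β hβ
    have e0 := hS.es (v β) (ev_v hs hβ)
    have e2 : Parker.act (Parker.rs X.H M) (Parker.es ρ.character) (v β) =
        (L.card : Ω)⁻¹ • ∑ p ∈ L, Θ p (v β) := by
      rw [← e0, smul_smul, inv_mul_cancel₀ hN, one_smul]
    rw [e2, Finset.smul_sum]
    refine Finset.sum_congr rfl fun p hp => ?_
    rw [(hκ p hp β hβ).2.2, smul_smul]
  have hcoef : ∀ β ∈ SqT n F, ∀ p ∈ L, (∑ h : X.H, Parker.es ρ.character h *
      algebraMap k Ω (m h (dpS p β) β)) = (L.card : Ω)⁻¹ * κ p β := by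
    intro β hβ p hp
    have e2 := hm (Parker.es ρ.character) β hβ
    rw [e1 β hβ, map_sum] at e2
    have e3 : ∑ q ∈ L, ev M (B.e k) (((L.card : Ω)⁻¹ * κ q β) • v (dpS q β)) =
        ∑ q ∈ L, ((L.card : Ω)⁻¹ * κ q β) • v (dpS q β) := by
      refine Finset.sum_congr rfl fun q hq => ?_
      rw [map_smul, ev_v hs (hκ q hq β hβ).1]
    rw [e3] at e2
    exact coefL hv hn (fun q hq => (hκ q hq β hβ).1) e2.symm hp
  -- the conjugate operator
  have hcomm : ∀ h ∈ X.H, Parker.act (Parker.rs X.H M) (Parker.es (fun g => σ (ρ.character g))) * M h =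
      M h * Parker.act (Parker.rs X.H M) (Parker.es (fun g => σ (ρ.character g))) := fun h hh =>
    (Parker.idem_comm (Parker.rs X.H M) hψ' ⟨h, hh⟩).symm
  obtain ⟨Zs, hZs, hsum⟩ := comm_splitD hcomm
  have ha : ∀ p, ∃ a : Ω, ∀ w, ev M (B.e k) w = w → Zs p w = if p ∈ L then a • Θ p w else 0 := by
    intro p
    by_cases hp : p ∈ L
    · obtain ⟨a, ha⟩ := tw_prop hM (twW_tw (k := k) (hS.tw p hp)) (twW_tw (hZs p)) (hS.ne p hp)
      exact ⟨a, fun w hw' => by rw [if_pos hp, ha w hw']⟩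
    · refine ⟨0, fun w hw' => ?_⟩
      rw [if_neg hp]
      by_contra h0
      exact hp (hS.full p _ (hZs p) ⟨w, hw', h0⟩)
  choose a ha using ha
  have hΨ : ∀ w, ev M (B.e k) w = w →
      Parker.act (Parker.rs X.H M) (Parker.es (fun g => σ (ρ.character g))) w =
        ∑ p ∈ L, a p • Θ p w := by
    intro w hw
    rw [hsum, LinearMap.sum_apply, Finset.sum_congr rfl fun p _ => ha p w hw, Finset.sum_ite_mem,
      Finset.univ_inter]
  have hΨv : ∀ β ∈ SqT n F,
      Parker.act (Parker.rs X.H M) (Parker.es (fun g => σ (ρ.character g))) (v β) =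
        ∑ p ∈ L, (a p * κ p β) • v (dpS p β) := by
    intro β hβ
    rw [hΨ _ (ev_v hs hβ)]
    refine Finset.sum_congr rfl fun p hp => ?_
    rw [(hκ p hp β hβ).2.2, smul_smul]
  have hsig : ∀ β γ : Fin n → AO.Et, σ (∑ h : X.H, Parker.es ρ.character h * algebraMap k Ω (m h γ β)) =
      ∑ h : X.H, Parker.es (fun g => σ (ρ.character g)) h * algebraMap k Ω (m h γ β) := by
    intro β γ
    rw [map_sum]
    refine Finset.sum_congr rfl fun h _ => ?_
    rw [map_mul, hσ]
    congr 1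
    simp [Parker.es]
  have hE : ∀ β ∈ SqT n F, ∀ p ∈ L, σ (κ p β) = ((L.card : Ω) * a p) * κ p β := by
    intro β hβ p hp
    have e2 := hm (Parker.es (fun g => σ (ρ.character g))) β hβ
    rw [hΨv β hβ, map_sum] at e2
    have e3 : ∑ q ∈ L, ev M (B.e k) ((a q * κ q β) • v (dpS q β)) =
        ∑ q ∈ L, (a q * κ q β) • v (dpS q β) := by
      refine Finset.sum_congr rfl fun q hq => ?_
      rw [map_smul, ev_v hs (hκ q hq β hβ).1]
    rw [e3] at e2
    have e4 := coefL hv hn (fun q hq => (hκ q hq β hβ).1) e2.symm hp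
    rw [← hsig, hcoef β hβ p hp, map_mul, map_inv₀, map_natCast] at e4
    have e5 : σ (κ p β) = (L.card : Ω) * ((L.card : Ω)⁻¹ * σ (κ p β)) := by
      rw [← mul_assoc, mul_inv_cancel₀ hN, one_mul]
    rw [e5, e4]
    ring
  -- the values are multiplicative
  have hmul : ∀ p ∈ L, ∀ q ∈ L, κ q β₀ * κ p (dpS q β₀) = κ (pa p q) β₀ := by
    intro p hp q hq
    exact kap_mul hv hs hS hp hq (hκ p hp) (hκ q hq)
      (fun γ hγ => ⟨(hκ _ (hS.cl p hp q hq) γ hγ).1, (hκ _ (hS.cl p hp q hq) γ hγ).2.2⟩) hβ₀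
  have hone : κ (false, false) β₀ = 1 := by
    have h3 := (hκ _ hS.one β₀ hβ₀).2.2
    rw [hS.id _ (ev_v hs hβ₀), dpS_one, ← sub_eq_zero] at h3
    have h4 : (1 - κ (false, false) β₀) • v β₀ = 0 := by
      rw [sub_smul, one_smul]
      exact h3
    rcases smul_eq_zero.1 h4 with h5 | h5
    · exact (sub_eq_zero.1 h5).symm
    · exact absurd h5 (hv.nz β₀ hβ₀)
  have hE1 : (L.card : Ω) * a (false, false) = 1 := by
    have h1 := hE β₀ hβ₀ _ hS.one
    rw [hone, map_one, mul_one] at h1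
    exact h1.symm
  have hEm : ∀ p ∈ L, ∀ q ∈ L, ((L.card : Ω) * a p) * ((L.card : Ω) * a q) =
      (L.card : Ω) * a (pa p q) := by
    intro p hp q hq
    have hq' := (hκ q hq β₀ hβ₀)
    have hp' := (hκ p hp _ hq'.1)
    have h1 := congrArg σ (hmul p hp q hq)
    rw [map_mul, hE β₀ hβ₀ q hq, hE _ hq'.1 p hp, hE β₀ hβ₀ _ (hS.cl p hp q hq), ← hmul p hp q hq] at h1
    have h2 : κ q β₀ * κ p (dpS q β₀) ≠ 0 := mul_ne_zero hq'.2.1 hp'.2.1
    apply mul_right_cancel₀ h2
    linear_combination h1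
  have hEs : ∀ p ∈ L, (L.card : Ω) * a p = 1 ∨ (L.card : Ω) * a p = -1 := by
    intro p hp
    have h1 := hEm p hp p hp
    rw [pa_self, hE1] at h1
    exact mul_self_eq_one_iff.1 h1
  have hcast : ∀ p ∈ L, ((((if (L.card : Ω) * a p = 1 then (1 : ℤˣ) else -1 : ℤˣ) : ℤ) : Ω)) =
      (L.card : Ω) * a p := by
    intro p hp
    by_cases h1 : (L.card : Ω) * a p = 1
    · rw [if_pos h1, h1]
      simp
    · rw [if_neg h1]
      rcases hEs p hp with h2 | h2
      · exact absurd h2 h1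
      · rw [h2]
        simp
  refine ⟨fun p => if (L.card : Ω) * a p = 1 then 1 else -1, ?_, ?_, ?_⟩
  · intro p hp β hβ
    rw [hE β hβ p hp, ← hcast p hp]
  · intro hf p hp
    have hf' : (fun g => σ (ρ.character g)) = ρ.character := funext hf
    have h1 := hsig β₀ (dpS p β₀)
    rw [hf', hcoef β₀ hβ₀ p hp, map_mul, map_inv₀, map_natCast] at h1
    have h2 := mul_left_cancel₀ (inv_ne_zero hN) h1
    rw [hE β₀ hβ₀ p hp] at h2
    have h3 : (L.card : Ω) * a p = 1 := by
      apply mul_right_cancel₀ (hκ p hp β₀ hβ₀).2.1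
      rw [h2, one_mul]
    exact if_pos h3
  · intro h1
    by_contra hf
    have hne' : (fun g => σ (ρ.character g)) ≠ ρ.character := fun h => hf fun g => congrFun h g
    have horth := Parker.idem_orth (Parker.rs X.H M) hψ' hψ hne'
    have hap : ∀ p ∈ L, (L.card : Ω) * a p = 1 := by
      intro p hp
      by_contra h2
      have h3 := h1 p hp
      have h4 : (if (L.card : Ω) * a p = 1 then (1 : ℤˣ) else -1) = 1 := h3
      rw [if_neg h2] at h4
      exact absurd h4 (by decide)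
    have hsame : ∀ w, ev M (B.e k) w = w →
        Parker.act (Parker.rs X.H M) (Parker.es (fun g => σ (ρ.character g))) w =
          Parker.act (Parker.rs X.H M) (Parker.es ρ.character) w := by
      intro w hw
      rw [hΨ w hw]
      have e0 := hS.es w hw
      have e2 : Parker.act (Parker.rs X.H M) (Parker.es ρ.character) w =
          (L.card : Ω)⁻¹ • ∑ p ∈ L, Θ p w := by
        rw [← e0, smul_smul, inv_mul_cancel₀ hN, one_smul]
      rw [e2, Finset.smul_sum]
      refine Finset.sum_congr rfl fun p hp => ?_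
      congr 1
      have h2 := hap p hp
      apply mul_left_cancel₀ hN
      rw [h2, mul_inv_cancel₀ hN]
    have hmem : ev M (B.e k) (Parker.act (Parker.rs X.H M) (Parker.es ρ.character) (v β₀)) =
        Parker.act (Parker.rs X.H M) (Parker.es ρ.character) (v β₀) := by
      rw [e1 β₀ hβ₀, map_sum]
      refine Finset.sum_congr rfl fun q hq => ?_
      rw [map_smul, ev_v hs (hκ q hq β₀ hβ₀).1]
    have h2 : Parker.act (Parker.rs X.H M) (Parker.es ρ.character) (v β₀) = 0 := by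
      have h3 : Parker.act (Parker.rs X.H M) (Parker.es (fun g => σ (ρ.character g)))
          (Parker.act (Parker.rs X.H M) (Parker.es ρ.character) (v β₀)) = 0 := by
        rw [← Module.End.mul_apply, horth, LinearMap.zero_apply]
      rw [hsame _ hmem, ← Module.End.mul_apply, Parker.idem_idem (Parker.rs X.H M) hψ] at h3
      exact h3
    rw [e1 β₀ hβ₀] at h2
    have h3 : ∑ γ ∈ SFT n F, (fun _ : Fin n → AO.Et => (0 : Ω)) γ • v γ =
        ∑ p ∈ L, ((L.card : Ω)⁻¹ * κ p β₀) • v (dpS p β₀) := by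
      rw [h2]
      simp only [zero_smul, Finset.sum_const_zero]
    have h4 := coefL hv hn (fun q hq => (hκ q hq β₀ hβ₀).1) h3 hS.one
    have h5 : (L.card : Ω)⁻¹ * κ (false, false) β₀ = 0 := h4.symm
    rw [hone, mul_one] at h5
    exact inv_ne_zero hN h5

end

end AO
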