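import Pool.Agent.AO.Q09
import Pool.Agent.AO.S07
import Pool.Agent.AO.A04
import Pool.Agent.AO.L10

/-!
# MP_6c3636_al, AO, module Q10: type D: property (A) for typed representations (helper7)

As `typed_good` (H07, AO/H07.lean). `exists_snB` (L08): `F`, `v`; `M_orth`: `B'`, `μ`; `structD`, `kapD`, `kapD_sd`, `sigD`. Let `R` be the set of the `β ∈ SFT n F` with `r L (β 0).1`, where the predicate `r L` on the types is a set of representatives of the orbits of `dp p`, `p ∈ L`: `L = {1}`: all; `L = {1, (true, false)}`: `{0, 2}`; `L = {1, (false, true)}` or `{1, (true, true)}`: `{0, 1}`; `L` everything: `{0}` (by the closure property these are all cases; `(false, false) ∈ L`). Put `w β = ∑ p ∈ L, κ p β • v (dpS p β)` for `β ∈ R`: `= |L| Ψ (v β)`, in the range of `φ`, pairwise orthogonal, `B' (w β) (w β) = μ ∑ κ p β ^ 2 nm (dpS p β) = |L| μ nm β`. They span `Ψ (range e)` = the range of `φ` on the range of `X.eH ρ` (as `Ψ (v (dpS p β))` is a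 multiple of `Ψ (v β)`: `Θ p Ψ = Ψ` on the range of `e`, from `St.mul`, `St.es`). The coordinates of `[h] (w β) = ∑ γ ∈ SFT, m γ β • |L| Ψ (v γ)`, `m γ β ∈ k`, and `|L| Ψ (v γ) = (κ p γ')⁻¹ • w γ'` for `γ = dpS p γ'`, `γ' ∈ R`; they are fixed by `Γ` (`sigD`, `hF`). The number of the elements of `R` is the dimension of the range of `X.eH ρ`, even (`hev`). The parity of the norms: `L = {1}`: `parT` (S07); otherwise `half_parT` (S07) for `dp p`, `p ∈ L`, `p ≠ 1` (`dp_ne`, `dp_dp`, `dpS_F`) and the predicate on the word at `0`. `cut3` (A04) for the group `X.H`, with `|L| μ` for `μ` and `d β = nm β`.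
-/

namespace AO

noncomputable section

open Classical Equiv

open AN (sq)

variable {k : Type} [Field k] [CharZero k] [Algebra k ℝ] {Ω : Type} [Field Ω] [IsAlgClosed Ω] [CharZero Ω]
  [Algebra k Ω] {G : Type} [Group G] [Finite G] {n : ℕ} {B : BN G n} {P : Par k}
  {D : HA P n (MonoidAlgebra k G)} {W : Type} [AddCommGroup W] [Module Ω W] [FiniteDimensional Ω W]
  {M : Representation Ω G W} {X : BD B} {V : Type} [AddCommGroup V] [Module Ω V] [FiniteDimensional Ω V]
  {ρ : Representation Ω X.H V}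

namespace Q10_aux

/-- the operator of the average of `U` -/
theorem ev_e_eq (M : Representation Ω G W) : ev M (B.e k) = eU B.U M := by
  rw [ev_act]
  unfold eU
  congr 1
  funext g
  show algebraMap k Ω ((LieP.av k B.U).coeff g) = _
  rw [LieP.coeff_av]
  split_ifs
  · rw [map_inv₀, map_natCast]
  · rw [map_zero]

theorem card_UH (X : BD B) : Nat.card (B.U.subgroupOf X.H) = Nat.card B.U :=
  Nat.card_congr (Subgroup.subgroupOfEquivOfLe X.UH).toEquiv

theorem phi_e (φ : V →ₗ[Ω] W) (hφ' : ∀ (h : X.H) v, φ (ρ h v) = M h (φ v)) (x : V) :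
    φ (X.eH ρ x) = ev M (B.e k) (φ x) := by
  rw [ev_e_eq]
  have h1 : eU B.U M (φ (X.eH ρ x)) = φ (X.eH ρ x) := by
    rw [eU_fix]
    intro u hu
    have h2 : ρ ⟨u, X.UH hu⟩ (X.eH ρ x) = X.eH ρ x := by
      have h3 := (eU_mul (ρ := ρ) (U := B.U.subgroupOf X.H) (u := ⟨u, X.UH hu⟩)
        (by rw [Subgroup.mem_subgroupOf]; exact hu)).1
      exact congrArg (fun f : Module.End Ω V => f x) h3
    rw [← hφ' ⟨u, X.UH hu⟩, h2]
  rw [← h1]
  letI := Fintype.ofFinite X.H
  have h4 : X.eH ρ x = ∑ h : X.H, (if h ∈ B.U.subgroupOf X.H then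
      (Nat.card (B.U.subgroupOf X.H) : Ω)⁻¹ else 0) • ρ h x := by
    show Parker.act ρ _ x = _
    rw [Parker.act_eq, LinearMap.sum_apply]
    rfl
  rw [h4, map_sum, map_sum]
  have h5 : ∀ h : X.H, eU B.U M (φ ((if h ∈ B.U.subgroupOf X.H then
      (Nat.card (B.U.subgroupOf X.H) : Ω)⁻¹ else 0) • ρ h x)) =
      (if h ∈ B.U.subgroupOf X.H then (Nat.card (B.U.subgroupOf X.H) : Ω)⁻¹ else 0) •
        eU B.U M (φ x) := by
    intro h
    rw [map_smul, map_smul]
    split_ifs with hh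
    · rw [hφ']
      have h6 := (eU_mul (ρ := M) (U := B.U) (u := (h : G))
        (by rw [Subgroup.mem_subgroupOf] at hh; exact hh)).2
      congr 1
      exact congrArg (fun f : Module.End Ω W => f (φ x)) h6
    · rw [zero_smul, zero_smul]
  rw [Finset.sum_congr rfl fun h _ => h5 h, ← Finset.sum_smul]
  have h7 : (∑ h : X.H, if h ∈ B.U.subgroupOf X.H then
      (Nat.card (B.U.subgroupOf X.H) : Ω)⁻¹ else 0) = 1 := by
    rw [← Finset.sum_filter, Finset.sum_const, nsmul_eq_mul]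
    have h8 : (Finset.univ.filter (fun h : X.H => h ∈ B.U.subgroupOf X.H)).card =
        Nat.card (B.U.subgroupOf X.H) := by
      rw [Nat.card_eq_fintype_card, Fintype.card_subtype]
    rw [h8, mul_inv_cancel₀]
    exact Nat.cast_ne_zero.mpr Nat.card_pos.ne'
  rw [h7, one_smul]

/-- the sequences whose types have the property `R` -/
def RF (F : AO.Et → ℤ) (R : (Fin n → Ty) → Prop) : Finset (Fin n → AO.Et) :=
  (SFT n F).filter (fun β => R (fun k => (β k).1))

theorem mem_RF {F : AO.Et → ℤ} {R : (Fin n → Ty) → Prop} {β : Fin n → AO.Et} :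
    β ∈ RF F R ↔ β ∈ SqT n F ∧ R (fun k => (β k).1) := by
  unfold RF
  rw [Finset.mem_filter, mem_SFT]

/-- the common part of the two cases -/
theorem core {c : Parker.Ctx Ω} {Γ : Subgroup (RingAut Ω)} (hΓ : Parker.Ok c 1 Γ)
    (hρ : ρ.IsIrreducible) (hF : Parker.FxC Γ ρ)
    (φ : V →ₗ[Ω] W) (hφ : Function.Injective φ) (hφ' : ∀ (h : X.H) v, φ (ρ h v) = M h (φ v))
    {B' : LinearMap.BilinForm Ω W} (hB' : Parker.InvForm M B') (hw : X.eH ρ ≠ 0)
    (hev : Even (Module.finrank Ω (LinearMap.range (X.eH ρ))))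
    {ι : Type} [Fintype ι] (w : ι → W) (hw1 : ∀ i, ∃ x, φ x = w i)
    (hw2 : ∀ i, ev M (B.e k) (w i) = w i) {d : ι → ℚ} (hd : ∀ i, d i ≠ 0) {μ : Ω} (hμ : μ ≠ 0)
    (hw3 : ∀ i j, B' (w i) (w j) = if i = j then μ * (d i : Ω) else 0)
    (hw4 : ∀ x, ev M (B.e k) (φ x) = φ x → φ x ∈ Submodule.span Ω (Set.range w))
    (hw5 : ∀ (h : G), h ∈ X.H → ∀ j, ∃ m : ι → Ω, (∀ i, Parker.Fx Γ (m i)) ∧
      ev M (B.e k) (M h (w j)) = ∑ i, m i • w i)
    (hv : Even (Fintype.card ι) → Even (padicValRat 2 (∏ i, d i))) : Parker.GoodV c Γ ρ := by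
  choose x hx using hw1
  have hx1 : ∀ i, X.eH ρ (x i) = x i := by
    intro i
    apply hφ
    rw [phi_e (k := k) φ hφ', hx, hw2]
  have hli : ∀ m : ι → Ω, ∑ i, m i • w i = 0 → ∀ j, m j = 0 := by
    intro m hm j
    have h1 : B' (∑ i, m i • w i) (w j) = m j * (μ * (d j : Ω)) := by
      rw [map_sum, LinearMap.sum_apply, Finset.sum_eq_single j]
      · rw [map_smul, LinearMap.smul_apply, smul_eq_mul, hw3, if_pos rfl]
      · intro i _ hij
        rw [map_smul, LinearMap.smul_apply, smul_eq_mul, hw3, if_neg hij, mul_zero]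
      · intro h
        exact absurd (Finset.mem_univ j) h
    rw [hm, map_zero, LinearMap.zero_apply] at h1
    have h2 : μ * (d j : Ω) ≠ 0 := mul_ne_zero hμ (Rat.cast_ne_zero.mpr (hd j))
    exact (mul_eq_zero.mp h1.symm).resolve_right h2
  have hspan : ∀ y, X.eH ρ y = y → ∃ m : ι → Ω, y = ∑ i, m i • x i := by
    intro y hy
    have h1 := hw4 y (by rw [← phi_e (k := k) φ hφ', hy])
    obtain ⟨m, hm⟩ := (Submodule.mem_span_range_iff_exists_fun Ω).mp h1
    refine ⟨m, hφ ?_⟩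
    rw [map_sum, ← hm]
    exact Finset.sum_congr rfl fun i _ => by rw [map_smul, hx]
  -- the index type is nonempty
  have hne : Nonempty ι := by
    by_contra hne
    have hemp : IsEmpty ι := not_nonempty_iff.mp hne
    apply hw
    ext y
    have h1 : X.eH ρ (X.eH ρ y) = X.eH ρ y := by
      have h2 := eU_idem (ρ := ρ) (U := B.U.subgroupOf X.H)
      exact congrArg (fun f : Module.End Ω V => f y) h2
    obtain ⟨m, hm⟩ := hspan _ h1
    rw [hm, Finset.univ_eq_empty, Finset.sum_empty]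
    rfl
  obtain ⟨i₀⟩ := hne
  -- the form
  set BV : LinearMap.BilinForm Ω V := B'.comp φ φ with hBV
  have hBVa : ∀ a b, BV a b = B' (φ a) (φ b) := fun a b => rfl
  have hinv : ∀ (g : X.H) a b, BV (ρ g a) (ρ g b) = BV a b := by
    intro g a b
    rw [hBVa, hBVa, hφ', hφ', hB'.inv]
  have hnd : ∀ a, (∀ b, BV a b = 0) → a = 0 := by
    let rad : Submodule Ω V :=
      { carrier := {a | ∀ b, BV a b = 0}
        add_mem' := by
          intro a a' ha ha' b
          rw [map_add, LinearMap.add_apply, ha b, ha' b, add_zero]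
        zero_mem' := by
          intro b
          rw [map_zero, LinearMap.zero_apply]
        smul_mem' := by
          intro r a ha b
          rw [map_smul, LinearMap.smul_apply, ha b, smul_zero] }
    have hst : ∀ g a, a ∈ rad → ρ g a ∈ rad := by
      intro g a ha b
      have h1 := hinv g a (ρ g⁻¹ b)
      have h2 : ρ g (ρ g⁻¹ b) = b := by
        rw [← Module.End.mul_apply, ← map_mul, mul_inv_cancel, map_one, Module.End.one_apply]
      rw [h2] at h1
      rw [h1]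
      exact ha _
    have hrad : rad = ⊥ ∨ rad = ⊤ := Parker.irr_sub hρ hst
    rcases hrad with hr | hr
    · intro a ha
      have h1 : a ∈ rad := ha
      rw [hr] at h1
      exact (Submodule.mem_bot Ω).mp h1
    · exfalso
      have h1 : x i₀ ∈ rad := by
        rw [hr]
        exact Submodule.mem_top
      have h2 := h1 (x i₀)
      rw [hBVa, hx, hw3, if_pos rfl] at h2
      exact mul_ne_zero hμ (Rat.cast_ne_zero.mpr (hd i₀)) h2
  have hBVi : Parker.InvForm ρ BV :=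
    ⟨fun a b => by rw [hBVa, hBVa, hB'.symm], hnd, hinv⟩
  -- the basis
  have hmem : ∀ i, x i ∈ LinearMap.range (X.eH ρ) := fun i => ⟨x i, hx1 i⟩
  let b0 : ι → LinearMap.range (X.eH ρ) := fun i => ⟨x i, hmem i⟩
  have hb0 : LinearIndependent Ω b0 := by
    rw [Fintype.linearIndependent_iff]
    intro m hm
    apply hli m
    have h1 : ∑ i, m i • x i = 0 := by
      have h2 := congrArg (fun y : LinearMap.range (X.eH ρ) => (y : V)) hm
      simp only [ZeroMemClass.coe_zero] at h2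
      rw [← h2, Submodule.coe_sum]
      exact Finset.sum_congr rfl fun i _ => rfl
    have h3 := congrArg φ h1
    rw [map_sum, map_zero] at h3
    rw [← h3]
    exact Finset.sum_congr rfl fun i _ => by rw [map_smul, hx]
  have hb1 : ⊤ ≤ Submodule.span Ω (Set.range b0) := by
    rintro ⟨y, hy⟩ -
    rw [Submodule.mem_span_range_iff_exists_fun]
    obtain ⟨y', rfl⟩ := hy
    have h1 : X.eH ρ (X.eH ρ y') = X.eH ρ y' := by
      have h2 := eU_idem (ρ := ρ) (U := B.U.subgroupOf X.H)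
      exact congrArg (fun f : Module.End Ω V => f y') h2
    obtain ⟨m, hm⟩ := hspan _ h1
    refine ⟨m, Subtype.ext ?_⟩
    rw [Submodule.coe_sum]
    show ∑ i, ((m i • b0 i : LinearMap.range (X.eH ρ)) : V) = X.eH ρ y'
    rw [hm]
    exact Finset.sum_congr rfl fun i _ => rfl
  let b : Module.Basis ι Ω (LinearMap.range (eU (B.U.subgroupOf X.H) ρ)) := Module.Basis.mk hb0 hb1
  have hbc : ∀ i, (b i : V) = x i := by
    intro i
    have h1 : b i = b0 i := Module.Basis.mk_apply hb0 hb1 i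
    rw [h1]
  have hcard : Even (Fintype.card ι) := by
    rw [← Module.finrank_eq_card_basis b]
    exact hev
  have hU : Odd (Nat.card (B.U.subgroupOf X.H)) := by
    rw [card_UH X]
    exact card_U B
  have hs : Group.IsSolvable (B.U.subgroupOf X.H) := by
    haveI := solv_U B
    exact Group.isSolvable_of_isSolvable_injective
      (f := (Subgroup.subgroupOfEquivOfLe X.UH).toMonoidHom)
      (Subgroup.subgroupOfEquivOfLe X.UH).injective
  refine cut3 hΓ hρ hF hBVi hU hs b hd hμ ?_ ?_ hcard (hv hcard)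
  · intro i j
    rw [hbc, hbc, hBVa, hx, hx, hw3]
  · intro g j
    obtain ⟨m, hm1, hm2⟩ := hw5 g g.2 j
    refine ⟨m, hm1, hφ ?_⟩
    have h1 : φ (eU (B.U.subgroupOf X.H) ρ (ρ g (b j : V))) = ev M (B.e k) (φ (ρ g (b j : V))) :=
      phi_e (k := k) φ hφ' _
    rw [h1, hbc, hφ', hx, hm2, map_sum]
    exact Finset.sum_congr rfl fun i _ => by rw [map_smul, hbc, hx]

end Q10_aux

open Q10_aux

theorem typed_goodD {c : Parker.Ctx Ω} {Γ : Subgroup (RingAut Ω)} (hΓ : Parker.Ok c 1 Γ)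
    (hρ : ρ.IsIrreducible) (hO : Parker.Orth ρ) (hF : Parker.FxC Γ ρ) (hM : M.IsIrreducible)
    (φ : V →ₗ[Ω] W) (hφ : Function.Injective φ) (hφ' : ∀ (h : X.H) v, φ (ρ h v) = M h (φ v))
    (hP : Fit B P) (hpd : PD P) (hD : Dg B P D) (hE : (D.on M).Et ≠ 0) (hw : X.eH ρ ≠ 0)
    (hk : ∀ σ ∈ Γ, ∀ x : k, σ (algebraMap k Ω x) = algebraMap k Ω x)
    (hev : Even (Module.finrank Ω (LinearMap.range (X.eH ρ)))) : Parker.GoodV c Γ ρ := by
  have hn : 0 < n := lt_of_lt_of_le two_pos X.n2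
  obtain ⟨F, v, hv, hs⟩ := exists_snB hM hP hD hn hE
  obtain ⟨B', μ, hB', -, hμ, hBv⟩ := M_orth hM hP hD hn hv hs
  obtain ⟨L, Θ, hone, hcl, htw, hne, hidt, hmul, hfull, hes, hrg⟩ :=
    structD hρ hM φ hφ hφ' hP hpd hD hE hw
  have hS : St B X k M ρ L Θ := ⟨hone, hcl, htw, hne, hfull, hidt, hmul, hes⟩
  obtain ⟨κ, hκ, hκ1, hκ2⟩ := kapD hM hP hpd hD hv hs hS
  have hκ3 := kapD_sd hρ hM hP hpd hD hv hs hS hκ (Parker.sd_of_orth hO)
  have hid : ∀ y, ev M (B.e k) (ev M (B.e k) y) = ev M (B.e k) y := by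
    intro y
    have h1 : ev M (B.e k) * ev M (B.e k) = ev M (B.e k) := by
      rw [← map_mul, e_idem]
    exact congrArg (fun f : Module.End Ω W => f y) h1
  have hrange : ∀ y, y ∈ LinearMap.range (ev M (B.e k)) → ev M (B.e k) y = y := by
    rintro _ ⟨y, rfl⟩
    exact hid y
  have hev1 : ∀ β ∈ SqT n F, ev M (B.e k) (v β) = v β := by
    intro β hβ
    apply hrange
    rw [← hs]
    exact Submodule.subset_span ⟨⟨β, mem_SFT.mpr hβ⟩, rfl⟩
  have hnm : ∀ β : Fin n → AO.Et, P.nm β ≠ 0 := fun β => (nm_posT β).ne'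
  have hbg : ∀ g y, ev M (B.e k) y = y → ev M (B.b k g) y = ev M (B.e k) (M g y) := by
    intro g y hy
    have h1 : ev M (B.b k g) = ev M (B.e k) * M g * ev M (B.e k) := by
      show ev M (B.e k * LieP.dl g * B.e k) = _
      rw [map_mul, map_mul]
      congr 2
      show ev M (MonoidAlgebra.single g 1) = M g
      rw [ev_single, map_one, one_smul]
    rw [h1, Module.End.mul_apply, Module.End.mul_apply, hy]
  have hκF : ∀ p ∈ L, ∀ β ∈ SqT n F, Parker.Fx Γ (κ p β) := by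
    intro p hp β hβ σ hσ
    obtain ⟨ε, hε1, hε2⟩ := sigD hρ hM hP hpd hD hv hs hS hκ (hk σ hσ)
    have h5 : Parker.Fixes σ ρ := fun g => hF g σ hσ
    rw [hε1 p hp β hβ, hε2.mp h5 p hp]
    simp
  have hLc : (L.card : Ω) ≠ 0 := Nat.cast_ne_zero.mpr (Finset.card_ne_zero_of_mem hone)
  have hpp : ∀ p : Bool × Bool, pa p p = (false, false) := by decide
  have hpaq : ∀ p q : Bool × Bool, pa (pa p q) q = p := by decide
  have hpa0 : ∀ p q : Bool × Bool, pa p q = (false, false) → q = p := by decide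
  -- the sum of the twists
  let Φ : W → W := fun y => ∑ p ∈ L, Θ p y
  have hΦe : ∀ y, ev M (B.e k) y = y → ev M (B.e k) (Φ y) = Φ y := by
    intro y hy
    show ev M (B.e k) (∑ p ∈ L, Θ p y) = ∑ p ∈ L, Θ p y
    rw [map_sum]
    exact Finset.sum_congr rfl fun p hp => (twW_tw (k := k) (htw p hp)).mem y hy
  have hΦq : ∀ q ∈ L, ∀ y, ev M (B.e k) y = y → ∑ p ∈ L, Θ p (Θ q y) = Φ y := by
    intro q hq y hy
    rw [Finset.sum_congr rfl fun p hp => hmul p hp q hq y hy]
    refine Finset.sum_bij' (fun p _ => pa p q) (fun p _ => pa p q) (fun p hp => hcl p hp q hq)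
      (fun p hp => hcl p hp q hq) (fun p _ => hpaq p q) (fun p _ => hpaq p q) (fun p _ => rfl)
  have hΦΦ : ∀ y, ev M (B.e k) y = y →
      Parker.act (Parker.rs X.H M) (Parker.es ρ.character) (Φ y) = Φ y := by
    intro y hy
    have h1 := hes (Φ y) (hΦe y hy)
    have h2 : ∑ p ∈ L, Θ p (Φ y) = (L.card : Ω) • Φ y := by
      have h3 : ∀ p ∈ L, Θ p (Φ y) = ∑ q ∈ L, Θ p (Θ q y) := fun p _ => map_sum _ _ _
      rw [Finset.sum_congr rfl h3, Finset.sum_comm,
        Finset.sum_congr rfl fun q hq => hΦq q hq y hy, Finset.sum_const, Nat.cast_smul_eq_nsmul]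
    rw [h2] at h1
    exact smul_right_injective W hLc h1
  -- representatives
  let i₀ : Fin n := ⟨0, hn⟩
  let r : Ty → Prop := fun y => ∀ p ∈ L, y ≤ dp p y
  have hr1 : ∀ y, ∃ p ∈ L, r (dp p y) := by
    intro y
    obtain ⟨p, hp, hmin⟩ := Finset.exists_min_image L (fun p => dp p y) ⟨_, hone⟩
    refine ⟨p, hp, fun q hq => ?_⟩
    rw [← dp_pa]
    exact hmin _ (hcl q hq p hp)
  have hr2 : ∀ y, ∀ p ∈ L, r y → r (dp p y) → p = (false, false) := by
    intro y p hp h1 h2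
    by_contra h3
    have h4 := h1 p hp
    have h5 := h2 p hp
    rw [dp_dp] at h5
    exact dp_ne h3 y (le_antisymm h5 h4)
  let RR : Finset (Fin n → AO.Et) := RF F (fun w => r (w i₀))
  have hRR : ∀ β, β ∈ RR ↔ β ∈ SqT n F ∧ r (β i₀).1 := fun β => mem_RF
  have hRR2 : ∀ β ∈ RR, ∀ γ ∈ RR, ∀ p ∈ L, ∀ q ∈ L, dpS p β = dpS q γ → q = p ∧ β = γ := by
    intro β hβ γ hγ p hp q hq h
    have h1 : dpS (pa q p) β = γ := by
      rw [dpS_pa, h, ← dpS_pa, hpp, dpS_one]
    have h2 : dp (pa q p) (β i₀).1 = (γ i₀).1 := by rw [← h1]; rfl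
    have h3 := hr2 (β i₀).1 (pa q p) (hcl q hq p hp) ((hRR β).mp hβ).2
      (by rw [h2]; exact ((hRR γ).mp hγ).2)
    refine ⟨(hpa0 q p h3).symm, ?_⟩
    rw [← h1, h3, dpS_one]
  let w : {β // β ∈ RR} → W := fun β => Φ (v β)
  have hΦv : ∀ β ∈ SqT n F, Φ (v β) = ∑ p ∈ L, κ p β • v (dpS p β) := by
    intro β hβ
    exact Finset.sum_congr rfl fun p hp => (hκ p hp β hβ).2.2
  have hu : ∀ β (hβ : β ∈ SqT n F), ∃ (q : Bool × Bool) (_ : q ∈ L) (h : dpS q β ∈ RR),
      Φ (v β) = κ q β • w ⟨dpS q β, h⟩ := by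
    intro β hβ
    obtain ⟨q, hq, hrq⟩ := hr1 (β i₀).1
    have h1 : dpS q β ∈ RR := (hRR _).mpr ⟨(hκ q hq β hβ).1, hrq⟩
    refine ⟨q, hq, h1, ?_⟩
    rw [← hΦq q hq (v β) (hev1 β hβ)]
    show ∑ p ∈ L, Θ p (Θ q (v β)) = κ q β • ∑ p ∈ L, Θ p (v (dpS q β))
    rw [Finset.smul_sum]
    refine Finset.sum_congr rfl fun p _ => ?_
    rw [(hκ q hq β hβ).2.2, map_smul]
  refine core (k := k) hΓ hρ hF φ hφ hφ' hB' hw hev
    (ι := {β // β ∈ RR}) w ?_ ?_ (d := fun β => P.nm β) (fun β => hnm _)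
    (μ := (L.card : Ω) * μ) (mul_ne_zero hLc hμ) ?_ ?_ ?_ ?_
  · intro β
    rw [hrg]
    exact hΦΦ _ (hev1 _ ((hRR _).mp β.2).1)
  · intro β
    exact hΦe _ (hev1 _ ((hRR _).mp β.2).1)
  · intro β γ
    have hβ := ((hRR _).mp β.2).1
    have hγ := ((hRR _).mp γ.2).1
    show B' (Φ (v β)) (Φ (v γ)) = _
    rw [hΦv _ hβ, hΦv _ hγ]
    have h1 : B' (∑ p ∈ L, κ p β • v (dpS p β)) (∑ q ∈ L, κ q γ • v (dpS q γ)) =
        ∑ p ∈ L, ∑ q ∈ L, κ p β * κ q γ * B' (v (dpS p β)) (v (dpS q γ)) := by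
      have h2 : B' (∑ p ∈ L, κ p β • v (dpS p β)) = ∑ p ∈ L, B' (κ p β • v (dpS p β)) :=
        map_sum B' _ _
      rw [h2, LinearMap.sum_apply]
      refine Finset.sum_congr rfl fun p _ => ?_
      rw [map_sum]
      refine Finset.sum_congr rfl fun q _ => ?_
      simp only [map_smul, LinearMap.smul_apply, smul_eq_mul]
      ring
    rw [h1]
    by_cases h : β = γ
    · subst h
      rw [if_pos rfl]
      have h2 : ∀ p ∈ L, ∑ q ∈ L, κ p β * κ q β * B' (v (dpS p β)) (v (dpS q β)) =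
          μ * ((P.nm (β : Fin n → AO.Et) : ℚ) : Ω) := by
        intro p hp
        rw [Finset.sum_eq_single p]
        · rw [hBv _ (hκ p hp β hβ).1 _ (hκ p hp β hβ).1, if_pos rfl, ← hκ3 p hp β hβ]
          ring
        · intro q hq hqp
          rw [hBv _ (hκ p hp β hβ).1 _ (hκ q hq β hβ).1, if_neg, mul_zero]
          intro h3
          exact hqp (hRR2 β β.2 β β.2 p hp q hq h3).1
        · intro h3
          exact absurd hp h3
      rw [Finset.sum_congr rfl h2, Finset.sum_const, nsmul_eq_mul]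
      ring
    · rw [if_neg h]
      refine Finset.sum_eq_zero fun p hp => Finset.sum_eq_zero fun q hq => ?_
      rw [hBv _ (hκ p hp β hβ).1 _ (hκ q hq γ hγ).1, if_neg, mul_zero]
      intro h3
      exact h (Subtype.ext (hRR2 β β.2 γ γ.2 p hp q hq h3).2)
  · intro x hx
    have h4 : (L.card : Ω) • φ x = Φ (φ x) := by
      have h5 := hes (φ x) hx
      rw [(hrg (φ x)).mp ⟨x, rfl⟩] at h5
      exact h5
    have h5 : φ x = (L.card : Ω)⁻¹ • Φ (φ x) := by
      rw [← h4, smul_smul, inv_mul_cancel₀ hLc, one_smul]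
    rw [h5]
    apply Submodule.smul_mem
    have h6 : φ x ∈ Submodule.span Ω (Set.range (fun β : {β // β ∈ SFT n F} => v β)) := by
      rw [hs, ← hx]
      exact ⟨_, rfl⟩
    have h7 : Submodule.map (∑ p ∈ L, Θ p)
        (Submodule.span Ω (Set.range (fun β : {β // β ∈ SFT n F} => v β))) ≤
          Submodule.span Ω (Set.range w) := by
      rw [Submodule.map_span_le]
      rintro _ ⟨β, rfl⟩
      have h8 : (∑ p ∈ L, Θ p) (v β) = Φ (v β) := LinearMap.sum_apply _ _ _
      rw [h8]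
      obtain ⟨q, hq, h, h'⟩ := hu β (mem_SFT.mp β.2)
      rw [h']
      exact Submodule.smul_mem _ _ (Submodule.subset_span ⟨_, rfl⟩)
    have h8 : (∑ p ∈ L, Θ p) (φ x) = Φ (φ x) := LinearMap.sum_apply _ _ _
    rw [← h8]
    exact h7 ⟨φ x, h6, rfl⟩
  · intro h hh β
    have hβ := ((hRR _).mp β.2).1
    obtain ⟨m, hm⟩ := M_coef hM hP hD hn hv hs h
    have h4 : ev M (B.e k) (w β) = w β := hΦe _ (hev1 _ hβ)
    have h5 : ev M (B.e k) (M h (w β)) = ∑ γ ∈ SFT n F, algebraMap k Ω (m γ β) • Φ (v γ) := by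
      rw [← hbg h _ h4]
      show ev M (B.b k h) (∑ p ∈ L, Θ p (v β)) = _
      have h6 : ∀ p ∈ L, ev M (B.b k h) (Θ p (v β)) =
          ∑ γ ∈ SFT n F, algebraMap k Ω (m γ β) • Θ p (v γ) := by
        intro p hp
        have h7 := (twW_tw (k := k) (htw p hp)).tw h (v β) (hev1 _ hβ)
        have h8 : (((X.ch p h : ℤˣ) : ℤ) : Ω) = 1 := by
          obtain ⟨h9, h10⟩ := (X.mem h).mp hh
          rw [X.ch_apply, h9, h10]
          simp
        rw [h8, one_smul] at h7
        rw [← h7, hm _ hβ, map_sum]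
        exact Finset.sum_congr rfl fun γ _ => map_smul _ _ _
      rw [map_sum, Finset.sum_congr rfl h6, Finset.sum_comm]
      refine Finset.sum_congr rfl fun γ _ => ?_
      rw [← Finset.smul_sum]
    rw [h5]
    refine Finset.sum_induction _ (fun y => ∃ m : {β // β ∈ RR} → Ω, (∀ i, Parker.Fx Γ (m i)) ∧
      y = ∑ i, m i • w i) ?_ ?_ ?_
    · rintro _ _ ⟨m1, hm1, rfl⟩ ⟨m2, hm2, rfl⟩
      refine ⟨fun i => m1 i + m2 i, fun i σ hσ => by rw [map_add, hm1 i σ hσ, hm2 i σ hσ], ?_⟩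
      rw [← Finset.sum_add_distrib]
      exact Finset.sum_congr rfl fun i _ => by rw [add_smul]
    · exact ⟨fun _ => 0, fun i σ _ => map_zero σ, by simp⟩
    · intro γ hγ
      obtain ⟨q, hq, h', h''⟩ := hu γ (mem_SFT.mp hγ)
      refine ⟨fun i => if i = ⟨dpS q γ, h'⟩ then algebraMap k Ω (m γ β) * κ q γ else 0,
        fun i σ hσ => ?_, ?_⟩
      · show σ (if i = ⟨dpS q γ, h'⟩ then algebraMap k Ω (m γ β) * κ q γ else 0) =
          if i = ⟨dpS q γ, h'⟩ then algebraMap k Ω (m γ β) * κ q γ else 0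
        split_ifs
        · rw [map_mul, hk σ hσ, hκF q hq γ (mem_SFT.mp hγ) σ hσ]
        · exact map_zero σ
      · rw [h'', Finset.sum_eq_single (⟨dpS q γ, h'⟩ : {β // β ∈ RR})]
        · beta_reduce
          rw [if_pos rfl, smul_smul]
        · intro i _ hi
          beta_reduce
          rw [if_neg hi, zero_smul]
        · intro hi
          exact absurd (Finset.mem_univ _) hi
  · intro hev2
    by_cases hL : ∃ p ∈ L, p ≠ (false, false)
    · obtain ⟨p, hp, hp1⟩ := hL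
      obtain ⟨β₀, hβ₀⟩ := hv.ne
      have h4 := half_parT P n F (dp p) (fun y => dp_ne hp1 y) (fun y => dp_dp p y)
        (fun y x => dpS_F hβ₀ (hκ p hp β₀ hβ₀).1 y x) (fun w => r (w i₀))
      have h5 : ∏ i : {β // β ∈ RR}, P.nm (i : Fin n → AO.Et) = ∏ β ∈ RR, P.nm β :=
        Finset.prod_coe_sort RR P.nm
      rw [h5]
      exact h4
    · have hL1 : ∀ p ∈ L, p = (false, false) := fun p hp => by
        by_contra h
        exact hL ⟨p, hp, h⟩
      have hRS : RR = SFT n F := by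
        ext β
        rw [hRR, mem_SFT]
        refine ⟨fun h => h.1, fun h => ⟨h, fun p hp => ?_⟩⟩
        rw [hL1 p hp, dp_one]
      have h5 : ∏ i : {β // β ∈ RR}, P.nm (i : Fin n → AO.Et) = ∏ β ∈ RR, P.nm β :=
        Finset.prod_coe_sort RR P.nm
      have h6 : ∏ i : {β // β ∈ SFT n F}, P.nm (i : Fin n → AO.Et) = ∏ β ∈ SFT n F, P.nm β :=
        Finset.prod_coe_sort (SFT n F) P.nm
      rw [h5, hRS, ← h6]
      apply parT
      rw [Fintype.card_coe, hRS] at hev2
      exact hev2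

end

end AO
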