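import Pool.Agent.AO.Q09
import Pool.Agent.AO.B04

/-!
# MP_6c3636_al, AO, module Q11: type D: property (B) for typed representations (helper7)

As `typed_B` (B04, AO/B04.lean). If all `σ ∈ Γ` fix `ρ` then `d` is fixed by `Γ` (`Parker.inV_of_fx`). Otherwise let `σ₀ ∈ Γ` not fix `ρ`; by `sigD` there is `p ∈ L` with `σ₀ (κ p β) = - κ p β` (all `β`). For `σ ∈ Γ` which does not fix `ρ`: `σ₀⁻¹ σ d = d`, `d ≠ - d`, so `σ₀⁻¹ σ` fixes `ρ` (`hσ`), so it fixes `κ p β` (`sigD`), `σ (κ p β) = - κ p β`; if `σ` fixes `ρ` it fixes `κ p β`. So `d / κ p β` is fixed by `Γ`, and `c.av (κ p β) = c.av (2 ^ m)` (`kapD_av`; the `2`-adic valuation of `nm β / nm (dpS p β)` is even: as in `b04_av` of B04: `padicValRat 2 (P.nm β)` is that of `nmT β` up to an even number depending only on..., see how B04 does it; `nmT (dpS p β) = nmT β`).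
-/

namespace AO

noncomputable section

open Classical Equiv

open AN (sq)

variable {k : Type} [Field k] [CharZero k] [Algebra k ℝ] {Ω : Type} [Field Ω] [IsAlgClosed Ω] [CharZero Ω]
  [Algebra k Ω] {G : Type} [Group G] [Finite G] {n : ℕ} {B : BN G n} {P : Par k}
  {D : HA P n (MonoidAlgebra k G)} {W : Type} [AddCommGroup W] [Module Ω W] [FiniteDimensional Ω W]
  {M : Representation Ω G W} {X : BD B} {V : Type} [AddCommGroup V] [Module Ω V] [FiniteDimensional Ω V]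
  {ρ : Representation Ω X.H V}

private theorem q11_nmT (p : Bool × Bool) (β : Fin n → AO.Et) : nmT (dpS p β) = nmT β := by
  unfold nmT dpS
  refine Finset.prod_congr rfl fun i _ => Finset.prod_congr rfl fun j _ => ?_
  have h : (dp p (β j).1 = dp p (β i).1) ↔ ((β j).1 = (β i).1) := by
    constructor
    · intro h
      rw [← dp_dp p (β j).1, h, dp_dp]
    · intro h
      rw [h]
  simp only [h]

/-- the absolute value of the coefficient -/
private theorem q11_av (c : Parker.Ctx Ω) (p : Bool × Bool) (β : Fin n → AO.Et) {x : Ω}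
    (hx : x ^ 2 * ((P.nm (dpS p β) : ℚ) : Ω) = ((P.nm β : ℚ) : Ω) ∨
      x ^ 2 * ((P.nm (dpS p β) : ℚ) : Ω) = -((P.nm β : ℚ) : Ω)) :
    ∃ m : ℤ, c.av x = c.av ((2 : Ω) ^ m) := by
  have h1 : P.nm β ≠ 0 := (nm_posT β).ne'
  have h2 : P.nm (dpS p β) ≠ 0 := (nm_posT (dpS p β)).ne'
  have hav : c.av x ^ 2 * c.av ((P.nm (dpS p β) : ℚ) : Ω) = c.av ((P.nm β : ℚ) : Ω) := by
    rcases hx with h | h
    · rw [← h, map_mul, map_pow]
    · rw [← map_neg_eq_map c.av ((P.nm β : ℚ) : Ω), ← h, map_mul, map_pow]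
  have hc : 0 < c.av (2 : Ω) := c.av.pos two_ne_zero
  rw [AN.av_rat c h1, AN.av_rat c h2] at hav
  obtain ⟨z1, hz1⟩ := nm_val (P := P) β
  obtain ⟨z2, hz2⟩ := nm_val (P := P) (dpS p β)
  rw [q11_nmT] at hz2
  refine ⟨z1 - z2, ?_⟩
  have h3 : c.av x ^ 2 = (c.av (2 : Ω) ^ (z1 - z2)) ^ 2 := by
    have h4 : c.av x ^ 2 = c.av (2 : Ω) ^ (padicValRat 2 (P.nm β)) / c.av (2 : Ω) ^ (padicValRat 2 (P.nm (dpS p β))) := by
      rw [eq_div_iff (zpow_ne_zero _ hc.ne')]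
      exact hav
    rw [h4, hz1, hz2, ← zpow_sub₀ hc.ne', ← zpow_natCast, ← zpow_mul]
    congr 1
    push_cast
    ring
  rw [map_zpow₀]
  exact (pow_left_inj₀ (c.av.nonneg x) (zpow_pos hc _).le two_ne_zero).1 h3

theorem typed_BD {c : Parker.Ctx Ω} {Γ : Subgroup (RingAut Ω)} (hρ : ρ.IsIrreducible)
    (hM : M.IsIrreducible) (φ : V →ₗ[Ω] W) (hφ : Function.Injective φ)
    (hφ' : ∀ (h : X.H) v, φ (ρ h v) = M h (φ v)) (hP : Fit B P) (hpd : PD P) (hD : Dg B P D)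
    (hE : (D.on M).Et ≠ 0) (hw : X.eH ρ ≠ 0)
    (hk : ∀ σ ∈ Γ, ∀ x : k, σ (algebraMap k Ω x) = algebraMap k Ω x) {d : Ω} (hd : d ≠ 0)
    (hσ : ∀ σ ∈ Γ, σ d = if Parker.Fixes σ ρ then d else - d) : Parker.InV c Γ (c.av d) := by
  have hn : 0 < n := by have := X.n2; omega
  obtain ⟨F, v, hv, hs⟩ := exists_snB hM hP hD hn hE
  obtain ⟨L, Θ, h1, h2, h3, h4, h5, h6, h7, h8, -⟩ :=
    structD hρ hM φ hφ hφ' hP hpd hD hE hw
  have hS : St B X k M ρ L Θ := ⟨h1, h2, h3, h4, h7, h5, h6, h8⟩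
  obtain ⟨κ, hκ, hκ1, hκ2⟩ := kapD hM hP hpd hD hv hs hS
  obtain ⟨β, hβ⟩ := hv.ne
  by_cases hall : ∀ σ ∈ Γ, Parker.Fixes σ ρ
  · refine Parker.inV_of_fx hd fun σ hs' => ?_
    rw [hσ σ hs', if_pos (hall σ hs')]
  · push Not at hall
    obtain ⟨σ₀, hs₀, hf₀⟩ := hall
    obtain ⟨ε₀, hε₀, hε₀'⟩ := sigD hρ hM hP hpd hD hv hs hS hκ (hk σ₀ hs₀)
    have hex : ∃ p ∈ L, ε₀ p ≠ 1 := by
      by_contra hcon
      push Not at hcon
      exact hf₀ (hε₀'.2 hcon)
    obtain ⟨p, hp, hpε⟩ := hex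
    have hpε' : ε₀ p = -1 := (Int.units_eq_one_or (ε₀ p)).resolve_left hpε
    have hκ0 : κ p β ≠ 0 := (hκ p hp β hβ).2.1
    have hk0 : σ₀ (κ p β) = -κ p β := by
      rw [hε₀ p hp β hβ, hpε']
      simp
    have hd0 : σ₀ d = -d := by rw [hσ σ₀ hs₀, if_neg hf₀]
    have key : ∀ σ ∈ Γ, σ (κ p β) = if Parker.Fixes σ ρ then κ p β else -κ p β := by
      intro σ hs'
      by_cases hf : Parker.Fixes σ ρ
      · rw [if_pos hf]
        obtain ⟨ε, hε, hε'⟩ := sigD hρ hM hP hpd hD hv hs hS hκ (hk σ hs')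
        rw [hε p hp β hβ, hε'.1 hf p hp]
        simp
      · rw [if_neg hf]
        have hτ : σ₀⁻¹ * σ ∈ Γ := Γ.mul_mem (Γ.inv_mem hs₀) hs'
        have hτd : (σ₀⁻¹ * σ) d = d := by
          have e1 : σ d = σ₀ d := by rw [hσ σ hs', if_neg hf, hd0]
          rw [RingAut.mul_apply, e1]
          exact σ₀.symm_apply_apply d
        have hfτ : Parker.Fixes (σ₀⁻¹ * σ) ρ := by
          by_contra hcon
          have e2 := hσ _ hτ
          rw [if_neg hcon, hτd] at e2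
          exact hd (self_eq_neg.1 e2)
        obtain ⟨ε, hε, hε'⟩ := sigD hρ hM hP hpd hD hv hs hS hκ (hk _ hτ)
        have e3 : (σ₀⁻¹ * σ) (κ p β) = κ p β := by
          rw [hε p hp β hβ, hε'.1 hfτ p hp]
          simp
        rw [RingAut.mul_apply] at e3
        have e4 : σ (κ p β) = σ₀ (κ p β) := by
          have e5 := congrArg σ₀ e3
          rw [← e5]
          exact (σ₀.apply_symm_apply (σ (κ p β))).symm
        rw [e4, hk0]
    have hfx : Parker.Fx Γ (d / κ p β) := by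
      intro σ hs'
      rw [map_div₀, hσ σ hs', key σ hs']
      by_cases hf : Parker.Fixes σ ρ
      · rw [if_pos hf, if_pos hf]
      · rw [if_neg hf, if_neg hf, neg_div_neg_eq]
    obtain ⟨m, hm⟩ := q11_av (P := P) c p β (x := κ p β) (by
      rcases kapD_av hM hP hpd hD hv hs hS hp (hκ p hp) with h | h
      · exact Or.inl (h β hβ)
      · exact Or.inr (h β hβ))
    have h9 : c.av d = c.av (d / κ p β) * c.av ((2 : Ω) ^ m) := by
      rw [← hm, ← map_mul, div_mul_cancel₀ _ hκ0]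
    rw [h9]
    refine Parker.inV_mul (Parker.inV_of_fx (div_ne_zero hd hκ0) hfx)
      (Parker.inV_of_fx (zpow_ne_zero _ two_ne_zero) fun σ _ => ?_)
    rw [map_zpow₀, map_ofNat]

end

end AO
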