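import Pool.Agent.AO.Q10
import Pool.Agent.AO.Q11
import Pool.Agent.AO.Q04
import Pool.Agent.AO.Q02
import Pool.Agent.AO.A03
import Pool.Agent.AO.B01
import Pool.Agent.AO.B03
import Pool.Agent.AO.Z01

/-!
# MP_6c3636_al, AO, module Q12: type D: properties (A) and (B) (helper7)

As Z01 (AO/Z01.lean; read it), with `k = ℚ` and `X.H` for `B.H`. `bd_good`: `L05`: `D` with `Dg B P D`. `ρ` orthogonal, so the dimension of the range of `X.eH ρ` is even (`even_E`, A00). If there is no `f : G → ℤˣ`, multiplicative on `T ⊓ X.H`, with `wt ρ f ≠ ⊥`: `good_noreal` (A03). Otherwise `X.re`: second case: `nu_of`, `nuD_good`. First case: `wtX_congr`, `exists_MX`, all labels are good (`X.gd`), `typed_goodD`. `bd_B`: as `bn_B` in Z01 with `nuD_even`, `typed_BD`, `nonreal_I` (B03). `bd_propB`: `propB_of` (B01). Automorphisms of `Ω` fix the image of `ℚ`.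
-/

namespace AO

noncomputable section

open Classical Equiv

open AN (sq)

namespace Q12_aux

section S1

variable {Ω : Type} [Field Ω] [IsAlgClosed Ω] [CharZero Ω] {G : Type} [Group G] [Finite G] {n : ℕ} {B : BN G n}
  {X : BD B} {V : Type} [AddCommGroup V] [Module Ω V] [FiniteDimensional Ω V] {ρ : Representation Ω X.H V}

/-- `f` is multiplicative and nonzero on the torus of `H` -/
def Gd (X : BD B) (f : G → Ω) : Prop :=
  (∀ x ∈ B.T ⊓ X.H, ∀ y ∈ B.T ⊓ X.H, f (x * y) = f x * f y) ∧ ∀ x ∈ B.T ⊓ X.H, f x ≠ 0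

theorem Gd.one {f : G → Ω} (h : Gd X f) : f 1 = 1 := by
  have h1 := h.1 1 (Subgroup.one_mem _) 1 (Subgroup.one_mem _)
  rw [one_mul] at h1
  exact (mul_eq_left₀ (h.2 1 (Subgroup.one_mem _))).1 h1.symm

theorem Gd.inv {f : G → Ω} (h : Gd X f) {x : G} (hx : x ∈ B.T ⊓ X.H) : f x⁻¹ = (f x)⁻¹ := by
  have h1 := h.1 x hx x⁻¹ (Subgroup.inv_mem _ hx)
  rw [mul_inv_cancel, h.one] at h1
  exact eq_inv_of_mul_eq_one_right h1.symm

theorem gd_of {f : G → Ω} (h : X.wt ρ f ≠ ⊥) : Gd X f := by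
  obtain ⟨h1, h2⟩ := wtX_mult h
  refine ⟨h1, fun x hx h0 => ?_⟩
  have h3 := h2 x hx
  rw [h0, zero_pow Nat.card_pos.ne'] at h3
  exact zero_ne_one h3

/-- the trace sum -/
def ts [Fintype X.H] (B' : Representation Ω X.H V) (f : G → Ω) : Ω :=
  ∑ x : X.H, ∑ u : X.H, (if (x : G) ∈ B.T then (f x)⁻¹ else 0) * (if (u : G) ∈ B.U then 1 else 0) *
    B'.character (x * u)

/-- the coefficients of the projection on the weight space -/
def pc (X : BD B) (f : G → Ω) (x : X.H) : Ω :=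
  if (x : G) ∈ B.T then (Nat.card (B.T.subgroupOf X.H) : Ω)⁻¹ * (f x)⁻¹ else 0

theorem dim_eq [Fintype X.H] {f : G → Ω} (hf : Gd X f) : (Module.finrank Ω (X.wt ρ f) : Ω) =
    (Nat.card (B.T.subgroupOf X.H) : Ω)⁻¹ * (Nat.card (B.U.subgroupOf X.H) : Ω)⁻¹ * ts ρ f := by
  have hNT : (Nat.card (B.T.subgroupOf X.H) : Ω) ≠ 0 := Nat.cast_ne_zero.2 Nat.card_pos.ne'
  have hTH : ∀ x : X.H, (x : G) ∈ B.T → (x : G) ∈ B.T ⊓ X.H := fun x hx => ⟨hx, x.2⟩
  have hact : ∀ v, Parker.act ρ (pc X f) v = ∑ x : X.H, pc X f x • ρ x v := by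
    intro v
    rw [Parker.act_eq, LinearMap.sum_apply]
    rfl
  have hee : ∀ v, X.eH ρ (X.eH ρ v) = X.eH ρ v := by
    intro v
    have h1 : (X.eH ρ * X.eH ρ) v = X.eH ρ v := by
      unfold BD.eH
      rw [eU_idem]
    exact h1
  -- the torus operators preserve the fixed points of `U`
  have hUT : ∀ w, X.eH ρ w = w → X.eH ρ (Parker.act ρ (pc X f) w) = Parker.act ρ (pc X f) w := by
    intro w hw
    rw [eX_fix] at hw ⊢
    intro u hu
    rw [hact, map_sum]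
    refine Finset.sum_congr rfl fun x _ => ?_
    rw [map_smul]
    by_cases hx : (x : G) ∈ B.T
    · congr 1
      have hu' : (x : G)⁻¹ * u * x ∈ B.U := by
        have h1 := B.TU (x : G)⁻¹ (Subgroup.inv_mem _ hx) u hu
        rwa [inv_inv] at h1
      have h2 : (⟨u, X.UH hu⟩ : X.H) * x = x * ⟨(x : G)⁻¹ * u * x, X.UH hu'⟩ := by
        apply Subtype.ext
        show u * (x : G) = (x : G) * ((x : G)⁻¹ * u * x)
        group
      calc ρ ⟨u, X.UH hu⟩ (ρ x w) = ρ (⟨u, X.UH hu⟩ * x) w := by rw [map_mul]; rfl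
        _ = ρ x (ρ ⟨(x : G)⁻¹ * u * x, X.UH hu'⟩ w) := by rw [h2, map_mul]; rfl
        _ = ρ x w := by rw [hw _ hu']
    · unfold pc
      rw [if_neg hx, zero_smul, zero_smul]
  have hproj : LinearMap.IsProj (X.wt ρ f) (Parker.act ρ (pc X f) * X.eH ρ) := by
    constructor
    · intro v
      refine ⟨hUT _ (hee v), fun y hy hyT => ?_⟩
      rw [Module.End.mul_apply, hact, map_sum, Finset.smul_sum]
      refine Fintype.sum_equiv (Equiv.mulLeft (⟨y, hy⟩ : X.H)) _ _ fun x => ?_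
      rw [Equiv.coe_mulLeft, map_smul]
      have h1 : ρ ⟨y, hy⟩ (ρ x (X.eH ρ v)) = ρ (⟨y, hy⟩ * x) (X.eH ρ v) := by
        rw [map_mul]
        rfl
      rw [h1, smul_smul]
      congr 1
      unfold pc
      by_cases hx : (x : G) ∈ B.T
      · have hyx : ((⟨y, hy⟩ * x : X.H) : G) ∈ B.T := Subgroup.mul_mem _ hyT hx
        have h2 : f ((⟨y, hy⟩ * x : X.H) : G) = f y * f x := hf.1 y ⟨hyT, hy⟩ x (hTH x hx)
        have h3 := hf.2 y ⟨hyT, hy⟩
        have h4 := hf.2 x (hTH x hx)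
        rw [if_pos hx, if_pos hyx, h2]
        field_simp
      · have hyx : ¬ ((⟨y, hy⟩ * x : X.H) : G) ∈ B.T := by
          intro h
          apply hx
          have h2 := Subgroup.mul_mem _ (Subgroup.inv_mem _ hyT) h
          have h3 : y⁻¹ * ((⟨y, hy⟩ * x : X.H) : G) = x := by
            show y⁻¹ * (y * (x : G)) = x
            group
          rwa [h3] at h2
        rw [if_neg hx, if_neg hyx, mul_zero]
    · intro v hv
      rw [Module.End.mul_apply, hv.1, hact]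
      have h1 : ∀ x : X.H, pc X f x • ρ x v =
          (if (x : G) ∈ B.T then (Nat.card (B.T.subgroupOf X.H) : Ω)⁻¹ else 0) • v := by
        intro x
        unfold pc
        by_cases hx : (x : G) ∈ B.T
        · rw [if_pos hx, if_pos hx]
          have h2 := hv.2 x x.2 hx
          have h3 : (⟨(x : G), x.2⟩ : X.H) = x := rfl
          rw [h3] at h2
          rw [h2, smul_smul, mul_assoc, inv_mul_cancel₀ (hf.2 x (hTH x hx)), mul_one]
        · rw [if_neg hx, if_neg hx, zero_smul, zero_smul]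
      rw [Finset.sum_congr rfl (fun x _ => h1 x), ← Finset.sum_smul, Finset.sum_ite, Finset.sum_const_zero,
        add_zero, Finset.sum_const, nsmul_eq_mul]
      have h4 : (Finset.univ.filter (fun x : X.H => (x : G) ∈ B.T)).card = Nat.card (B.T.subgroupOf X.H) := by
        rw [Nat.card_eq_fintype_card]
        symm
        apply Fintype.card_of_subtype
        intro x
        rw [Finset.mem_filter]
        exact ⟨fun h => h.2, fun h => ⟨Finset.mem_univ _, h⟩⟩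
      rw [h4, mul_inv_cancel₀ hNT, one_smul]
  have htr := hproj.trace
  rw [← htr]
  have hE : X.eH ρ = ∑ u : X.H, (if (u : G) ∈ B.U then (Nat.card (B.U.subgroupOf X.H) : Ω)⁻¹ else 0) • ρ u := by
    unfold BD.eH eU
    rw [Parker.act_eq]
    rfl
  rw [hE, Parker.act_eq, Finset.sum_mul_sum, map_sum]
  unfold ts
  rw [Finset.mul_sum]
  refine Finset.sum_congr rfl fun x _ => ?_
  rw [map_sum, Finset.mul_sum]
  refine Finset.sum_congr rfl fun u _ => ?_
  rw [smul_mul_smul_comm, map_smul, ← map_mul, smul_eq_mul]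
  show _ * ρ.character (x * u) = _
  unfold pc
  split_ifs <;> ring

/-- equal dimensions -/
theorem fin_eq [Fintype X.H] {f g : G → Ω} (hf : Gd X f) (hg : Gd X g) {σ : RingAut Ω}
    (h : σ (ts ρ f) = ts ρ g) : Module.finrank Ω (X.wt ρ g) = Module.finrank Ω (X.wt ρ f) := by
  have h1 := congrArg σ (dim_eq (ρ := ρ) hf)
  rw [map_mul, map_mul, map_inv₀, map_inv₀, map_natCast, map_natCast, map_natCast, h, ← dim_eq hg] at h1
  exact_mod_cast h1.symm

theorem fin_bot {f : G → Ω} (hf : ¬ Gd X f) : Module.finrank Ω (X.wt ρ f) = 0 := by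
  have h1 : X.wt ρ f = ⊥ := by
    by_contra h
    exact hf (gd_of h)
  rw [h1, finrank_bot]

theorem Gd.comp {f : G → Ω} (h : Gd X f) (σ : RingAut Ω) : Gd X (fun x => σ (f x)) := by
  refine ⟨fun x hx y hy => ?_, fun x hx h0 => ?_⟩
  · show σ (f (x * y)) = σ (f x) * σ (f y)
    rw [h.1 x hx y hy, map_mul]
  · exact h.2 x hx ((map_eq_zero σ).1 h0)

theorem Gd.comp' {f : G → Ω} {σ : RingAut Ω} (h : Gd X (fun x => σ (f x))) : Gd X f := by
  refine ⟨fun x hx y hy => ?_, fun x hx h0 => ?_⟩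
  · apply σ.injective
    rw [map_mul]
    exact h.1 x hx y hy
  · apply h.2 x hx
    show σ (f x) = 0
    rw [h0, map_zero]

theorem Gd.ninv {f : G → Ω} (h : Gd X f) : Gd X (fun x => (f x)⁻¹) := by
  refine ⟨fun x hx y hy => ?_, fun x hx h0 => ?_⟩
  · show (f (x * y))⁻¹ = (f x)⁻¹ * (f y)⁻¹
    rw [h.1 x hx y hy, mul_inv]
  · exact h.2 x hx (inv_eq_zero.1 h0)

theorem ts_comp [Fintype X.H] {f : G → Ω} {σ : RingAut Ω} (hσ : Parker.Fixes σ ρ) :
    σ (ts ρ f) = ts ρ (fun x => σ (f x)) := by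
  unfold ts
  rw [map_sum]
  refine Finset.sum_congr rfl fun x _ => ?_
  rw [map_sum]
  refine Finset.sum_congr rfl fun u _ => ?_
  rw [map_mul, map_mul, hσ (x * u)]
  congr 2
  · split_ifs
    · rw [map_inv₀]
    · rw [map_zero]
  · split_ifs
    · rw [map_one]
    · rw [map_zero]

theorem ts_inv [Fintype X.H] {f : G → Ω} {σ : RingAut Ω} (hf : Gd X f)
    (hσ : ∀ h, σ (ρ.character h) = ρ.character h⁻¹) :
    σ (ts ρ f) = ts ρ (fun x => (σ (f x))⁻¹) := by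
  unfold ts
  rw [map_sum]
  refine Fintype.sum_equiv (Equiv.inv X.H) _ _ fun x => ?_
  rw [map_sum]
  refine Fintype.sum_equiv (Equiv.inv X.H) _ _ fun u => ?_
  show σ ((if (x : G) ∈ B.T then (f x)⁻¹ else 0) * (if (u : G) ∈ B.U then 1 else 0) * ρ.character (x * u)) =
    (if ((x⁻¹ : X.H) : G) ∈ B.T then ((σ (f ((x⁻¹ : X.H) : G)))⁻¹)⁻¹ else 0) *
      (if ((u⁻¹ : X.H) : G) ∈ B.U then 1 else 0) * ρ.character (x⁻¹ * u⁻¹)
  rw [map_mul, map_mul, hσ (x * u), ρ.char_mul_comm, ← mul_inv_rev]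
  congr 2
  · have hx : ((x⁻¹ : X.H) : G) ∈ B.T ↔ (x : G) ∈ B.T := by
      rw [Subgroup.coe_inv, Subgroup.inv_mem_iff]
    by_cases h : (x : G) ∈ B.T
    · rw [if_pos h, if_pos (hx.2 h), map_inv₀, Subgroup.coe_inv, hf.inv ⟨h, x.2⟩, map_inv₀, inv_inv]
    · rw [if_neg h, if_neg (fun h' => h (hx.1 h')), map_zero]
  · have hu : ((u⁻¹ : X.H) : G) ∈ B.U ↔ (u : G) ∈ B.U := by
      rw [Subgroup.coe_inv, Subgroup.inv_mem_iff]
    by_cases h : (u : G) ∈ B.U
    · rw [if_pos h, if_pos (hu.2 h), map_one]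
    · rw [if_neg h, if_neg (fun h' => h (hu.1 h')), map_zero]

theorem iter_comp (σ : RingAut Ω) (m : ℕ) (f : G → Ω) (x : G) :
    (fun (f : G → Ω) x => σ (f x))^[m] f x = (fun w => σ w)^[m] (f x) := by
  induction m with
  | zero => rfl
  | succ m ih =>
    rw [Function.iterate_succ_apply', Function.iterate_succ_apply']
    exact congrArg σ ih

theorem iter_inv (σ : RingAut Ω) (m : ℕ) (f : G → Ω) (x : G) :
    (fun (f : G → Ω) x => (σ (f x))⁻¹)^[2 * m] f x = (fun w => σ w)^[2 * m] (f x) := by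
  induction m with
  | zero => rfl
  | succ m ih =>
    rw [show 2 * (m + 1) = 2 * m + 1 + 1 by ring, Function.iterate_succ_apply',
      Function.iterate_succ_apply', Function.iterate_succ_apply', Function.iterate_succ_apply']
    show (σ (σ _)⁻¹)⁻¹ = σ (σ _)
    rw [map_inv₀, inv_inv]
    exact congrArg (fun w => σ (σ w)) ih


theorem wt_fixedX (ho : Odd (Module.finrank Ω (LinearMap.range (X.eH ρ)))) {σ : RingAut Ω}
    (hr : ∀ (r : ℕ) (z : Ω), Odd r → r ∣ Nat.card G → z ^ r = 1 → σ z = z)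
    (hσ : Parker.Fixes σ ρ) : ∃ f, X.wt ρ f ≠ ⊥ ∧ ∀ x ∈ B.T ⊓ X.H, σ (f x) = f x := by
  letI : Fintype X.H := Fintype.ofFinite X.H
  obtain ⟨a, ha⟩ := B02_aux.iter_root (Nat.card_pos (α := G)).ne' hr
  refine wtX_parity (τ := fun f x => σ (f x)) ?_ ⟨a, ?_⟩ ?_ ho
  · intro f
    by_cases hf : Gd X f
    · exact fin_eq hf (hf.comp σ) (ts_comp hσ)
    · rw [fin_bot hf, fin_bot (fun h => hf h.comp')]
  · intro f hf x hx
    rw [iter_comp]
    exact ha a le_rfl _ ((wtX_mult hf).2 x hx)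
  · intro f g h x hx
    show σ (f x) = σ (g x)
    rw [h x hx]

theorem wt_invX (ho : Odd (Module.finrank Ω (LinearMap.range (X.eH ρ)))) {σ : RingAut Ω}
    (hr : ∀ (r : ℕ) (z : Ω), Odd r → r ∣ Nat.card G → z ^ r = 1 → σ z = z)
    (hσ : ∀ h, σ (ρ.character h) = ρ.character h⁻¹) :
    ∃ f, X.wt ρ f ≠ ⊥ ∧ ∀ x ∈ B.T ⊓ X.H, σ (f x) = (f x)⁻¹ := by
  letI : Fintype X.H := Fintype.ofFinite X.H
  obtain ⟨a, ha⟩ := B02_aux.iter_root (Nat.card_pos (α := G)).ne' hr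
  obtain ⟨f, hf, hx⟩ := wtX_parity (ρ := ρ) (τ := fun f x => (σ (f x))⁻¹) (by
    intro f
    by_cases hf : Gd X f
    · exact fin_eq hf (hf.comp σ).ninv (ts_inv hf hσ)
    · refine (fin_bot (fun h => hf ?_)).trans (fin_bot hf).symm
      have h1 := h.ninv
      simp only [inv_inv] at h1
      exact h1.comp') ⟨a + 1, by
    intro f hf x hx
    rw [pow_succ, mul_comm, iter_inv, mul_comm, ← pow_succ]
    exact ha (a + 1) (Nat.le_succ a) _ ((wtX_mult hf).2 x hx)⟩ (by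
    intro f g h x hx
    show (σ (f x))⁻¹ = (σ (g x))⁻¹
    rw [h x hx]) ho
  refine ⟨f, hf, fun x h => ?_⟩
  have h1 : (σ (f x))⁻¹ = f x := hx x h
  rw [← h1, inv_inv, h1]

theorem wt_realX (ho : Odd (Module.finrank Ω (LinearMap.range (X.eH ρ)))) (hρ : Parker.SD ρ) :
    ∃ f, X.wt ρ f ≠ ⊥ ∧ ∀ x ∈ B.T ⊓ X.H, f x = (f x)⁻¹ :=
  wt_invX (σ := 1) ho (fun _ _ _ _ _ => rfl) (fun h => (hρ h).symm)

theorem odd_EX (ho : Odd (Module.finrank Ω V)) (hσ : Parker.SD ρ ∨ ∃ σ : RingAut Ω,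
    (∀ (r : ℕ) (z : Ω), Odd r → r ∣ Nat.card G → z ^ r = 1 → σ z = z) ∧
      ∀ h, σ (ρ.character h) = ρ.character h⁻¹) :
    Odd (Module.finrank Ω (LinearMap.range (X.eH ρ))) := by
  have hp : Fact B.pc.Prime := ⟨B.prime⟩
  have hP : IsPGroup B.pc (B.U.subgroupOf X.H) := by
    intro u
    obtain ⟨k, hk⟩ := B.pU (((u : X.H) : G)) u.2
    refine ⟨k, ?_⟩
    apply Subtype.ext
    apply Subtype.ext
    exact hk
  have hU : Odd (Nat.card (B.U.subgroupOf X.H)) := by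
    obtain ⟨k, hk⟩ := IsPGroup.iff_card.1 hP
    rw [hk]
    exact B.odd.pow
  have h : ∀ u ∈ B.U.subgroupOf X.H, ρ.character u⁻¹ = ρ.character u := by
    intro u hu
    rcases hσ with h1 | ⟨σ, h1, h2⟩
    · exact h1 u
    · rw [← h2 u]
      have h3 : orderOf u ∣ Nat.card (B.U.subgroupOf X.H) := by
        have h4 := orderOf_dvd_natCard (⟨u, hu⟩ : B.U.subgroupOf X.H)
        rwa [Subgroup.orderOf_mk] at h4
      have h5 : Odd (orderOf u) := Odd.of_dvd_nat hU h3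
      have h6 : orderOf u ∣ Nat.card G := (orderOf_dvd_natCard u).trans (Subgroup.card_subgroup_dvd_card X.H)
      refine Parker.char_fixed ρ (n := orderOf u) ?_ (pow_orderOf_eq_one u) fun z hz => h1 _ z h5 h6 hz
      rintro h0
      rw [h0] at h5
      exact absurd h5 (by decide)
  have hE := even_E (ρ := ρ) hU h
  rw [← Nat.not_even_iff_odd] at ho ⊢
  exact fun h' => ho (hE.2 h')

theorem nonreal_IX (hρ : ρ.IsIrreducible) (ho : Odd (Module.finrank Ω (LinearMap.range (X.eH ρ))))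
    (hnr : ∀ f, X.wt ρ f ≠ ⊥ → ∃ x ∈ B.T ⊓ X.H, f x ≠ (f x)⁻¹) {σ₀ : RingAut Ω}
    (hr₀ : ∀ (r : ℕ) (z : Ω), Odd r → r ∣ Nat.card G → z ^ r = 1 → σ₀ z = z)
    (h₀ : ∀ h, σ₀ (ρ.character h) = ρ.character h⁻¹) {σ : RingAut Ω}
    (hr : ∀ (r : ℕ) (z : Ω), Odd r → r ∣ Nat.card G → z ^ r = 1 → σ z = z) {I : Ω}
    (hI : I * I = -1) : (Parker.Fixes σ ρ → σ I = I) ∧
      ((∀ h, σ (ρ.character h) = ρ.character h⁻¹) → σ I = -I) := by
  have hN : 0 < Nat.card G := Nat.card_pos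
  have hconj : ∀ m ∈ B.N, m ∈ X.H → ∀ x ∈ B.T ⊓ X.H, m⁻¹ * x * m ∈ B.T ⊓ X.H := by
    intro m hm _ x hx
    constructor
    · have h1 := (N_T (B.N.inv_mem hm) (x := x)).2 hx.1
      rwa [inv_inv] at h1
    · have h1 := X.normal.conj_mem x hx.2 m⁻¹
      rwa [inv_inv] at h1
  have claim : ∀ f, X.wt ρ f ≠ ⊥ → ∃ x ∈ B.T ⊓ X.H, 4 ∣ orderOf (f x) := by
    intro f0 hf0
    by_contra hcon
    push Not at hcon
    obtain ⟨f, hf, hf1⟩ := wt_invX ho hr₀ h₀
    obtain ⟨x, hx, hx1⟩ := hnr f hf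
    apply hx1
    rw [← hf1 x hx]
    symm
    apply B03_aux.odd_part ((wtX_mult hf).2 x hx) ?_ hr₀
    obtain ⟨m, hm, hmH, hm1⟩ := wtX_conj hρ hf0 hf
    rw [hm1 x hx]
    exact hcon _ (hconj m hm hmH x hx)
  have hpos : ∀ f, X.wt ρ f ≠ ⊥ → ∀ x ∈ B.T ⊓ X.H, 0 < orderOf (f x) := by
    intro f hf x hx
    exact orderOf_pos_iff.2 (isOfFinOrder_iff_pow_eq_one.2 ⟨_, hN, (wtX_mult hf).2 x hx⟩)
  have hyI : ∀ y : Ω, y * y = -1 → y = I ∨ y = -I := by
    intro y hy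
    have h1 : y * y = I * I := by rw [hy, hI]
    exact mul_self_eq_mul_self_iff.1 h1
  have hI0 : I ≠ 0 := by
    intro h
    rw [h, mul_zero] at hI
    exact one_ne_zero (neg_eq_zero.1 hI.symm)
  have hII : I⁻¹ = -I := by
    rw [inv_eq_iff_eq_inv, eq_comm, inv_eq_iff_eq_inv]
    apply eq_inv_of_mul_eq_one_left
    rw [neg_mul, hI, neg_neg]
  constructor
  · intro hσ
    obtain ⟨f, hf, hf1⟩ := wt_fixedX ho hr hσ
    obtain ⟨x, hx, hx1⟩ := claim f hf
    have h1 := B03_aux.four rfl (hpos f hf x hx) hx1 rfl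
    have h2 : σ (f x ^ (orderOf (f x) / 4)) = f x ^ (orderOf (f x) / 4) := by rw [map_pow, hf1 x hx]
    rcases hyI _ h1 with h | h
    · rwa [h] at h2
    · rw [h, map_neg] at h2
      exact neg_injective h2
  · intro hσ
    obtain ⟨f, hf, hf1⟩ := wt_invX ho hr hσ
    obtain ⟨x, hx, hx1⟩ := claim f hf
    have h1 := B03_aux.four rfl (hpos f hf x hx) hx1 rfl
    have h2 : σ (f x ^ (orderOf (f x) / 4)) = (f x ^ (orderOf (f x) / 4))⁻¹ := by
      rw [map_pow, hf1 x hx, inv_pow]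
    rcases hyI _ h1 with h | h
    · rw [h, hII] at h2
      exact h2
    · rw [h, map_neg, inv_neg, hII] at h2
      exact neg_injective h2

theorem odd_U (X : BD B) : Odd (Nat.card (B.U.subgroupOf X.H)) := by
  rw [Nat.card_congr (Subgroup.subgroupOfEquivOfLe X.UH).toEquiv]
  exact card_U B

theorem solv_U' (X : BD B) : Group.IsSolvable (B.U.subgroupOf X.H) := by
  have h := solv_U B
  exact Group.isSolvable_of_surjective (f := (Subgroup.subgroupOfEquivOfLe X.UH).symm.toMonoidHom)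
    (Subgroup.subgroupOfEquivOfLe X.UH).symm.surjective

theorem wt_ne {f : G → Ω} {v : V} (hv : v ∈ X.wt ρ f) (h0 : v ≠ 0) : X.wt ρ f ≠ ⊥ := by
  intro h
  rw [h] at hv
  exact h0 ((Submodule.mem_bot Ω).1 hv)

theorem eH_ne {f : G → Ω} (h : X.wt ρ f ≠ ⊥) : X.eH ρ ≠ 0 := by
  intro h0
  obtain ⟨v, hv, hne⟩ := Submodule.exists_mem_ne_zero_of_ne_bot h
  have h1 : X.eH ρ v = v := hv.1
  rw [h0, LinearMap.zero_apply] at h1
  exact hne h1.symm

theorem no_real (hn : ¬ ∃ f : G → ℤˣ, (∀ x ∈ B.T ⊓ X.H, ∀ y ∈ B.T ⊓ X.H, f (x * y) = f x * f y) ∧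
      X.wt ρ (Z01_aux.cs Ω f) ≠ ⊥) (f : X.H → ℤˣ)
    (hf : ∀ x ∈ B.T.subgroupOf X.H, ∀ y ∈ B.T.subgroupOf X.H, f (x * y) = f x * f y) (v : V)
    (hv : eU (B.U.subgroupOf X.H) ρ v = v)
    (hx : ∀ x ∈ B.T.subgroupOf X.H, ρ x v = (((f x : ℤˣ) : ℤ) : Ω) • v) : v = 0 := by
  by_contra h0
  refine hn ⟨fun g => if hg : g ∈ X.H then f ⟨g, hg⟩ else 1, ?_, ?_⟩
  · rintro x ⟨h1, h2⟩ y ⟨h3, h4⟩
    have h1' : x ∈ B.T := h1
    have h2' : x ∈ X.H := h2
    have h3' : y ∈ B.T := h3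
    have h4' : y ∈ X.H := h4
    simp only
    rw [dif_pos h2', dif_pos h4', dif_pos (X.H.mul_mem h2' h4')]
    exact hf ⟨x, h2'⟩ (Subgroup.mem_subgroupOf.2 h1') ⟨y, h4'⟩ (Subgroup.mem_subgroupOf.2 h3')
  · refine wt_ne (v := v) ⟨hv, fun x hx' hT => ?_⟩ h0
    rw [hx ⟨x, hx'⟩ (Subgroup.mem_subgroupOf.2 hT)]
    unfold Z01_aux.cs
    simp only
    rw [dif_pos hx']

theorem exists_sign {f : G → Ω} (h : X.wt ρ f ≠ ⊥) (hr : ∀ x ∈ B.T ⊓ X.H, f x = (f x)⁻¹) :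
    ∃ f' : G → ℤˣ, (∀ x ∈ B.T ⊓ X.H, f x = Z01_aux.cs Ω f' x) ∧
      (∀ x ∈ B.T ⊓ X.H, ∀ y ∈ B.T ⊓ X.H, f' (x * y) = f' x * f' y) ∧
        X.wt ρ (Z01_aux.cs Ω f') ≠ ⊥ := by
  have hm := wtX_mult h
  have h1 : ∀ x ∈ B.T ⊓ X.H, f x = Z01_aux.cs Ω (fun x => if f x = 1 then (1 : ℤˣ) else -1) x := by
    intro x hx
    have h2 : f x ≠ 0 := by
      intro h3
      have h4 := hm.2 x hx
      rw [h3, zero_pow Nat.card_pos.ne'] at h4
      exact zero_ne_one h4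
    have h3 : f x * f x = 1 := by
      nth_rewrite 2 [hr x hx]
      exact mul_inv_cancel₀ h2
    unfold Z01_aux.cs
    simp only
    rcases mul_self_eq_one_iff.1 h3 with h4 | h4
    · rw [if_pos h4, h4]
      simp
    · have h5 : f x ≠ 1 := by
        rw [h4]
        intro h6
        have h7 : (2 : Ω) = 0 := by linear_combination -h6
        exact two_ne_zero h7
      rw [if_neg h5, h4]
      simp
  refine ⟨fun x => if f x = 1 then (1 : ℤˣ) else -1, h1, ?_, ?_⟩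
  · intro x hx y hy
    have h2 := hm.1 x hx y hy
    rw [h1 x hx, h1 y hy, h1 (x * y) ((B.T ⊓ X.H).mul_mem hx hy)] at h2
    unfold Z01_aux.cs at h2
    apply Z01_aux.cs_inj (Ω := Ω)
    rw [h2]
    push_cast
    rfl
  · rw [← wtX_congr h1]
    exact h

theorem Nu_cs {f : G → ℤˣ} (h : Nu X f) : Nu X (Z01_aux.cs Ω f) := by
  intro m hm
  obtain ⟨b, x, hx, hne⟩ := h m hm
  exact ⟨b, x, hx, fun h3 => hne (Z01_aux.cs_inj h3)⟩

end S1

theorem rat_fix {Ω : Type} [Field Ω] [CharZero Ω] (σ : RingAut Ω) (x : ℚ) :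
    σ (algebraMap ℚ Ω x) = algebraMap ℚ Ω x := by
  rw [eq_ratCast]
  exact map_ratCast σ x

end Q12_aux

variable {Ω : Type} [Field Ω] [IsAlgClosed Ω] [CharZero Ω] {c : Parker.Ctx Ω} {G : Type} [Group G]
  [Finite G] {n : ℕ} {B : BN G n} {P : Par ℚ}

open Q12_aux

private theorem bd_good (X : BD B) (hP : Fit B P) (hpd : PD P) {Γ : Subgroup (RingAut Ω)}
    (hΓ : Parker.Ok c 1 Γ) {V : Type} [AddCommGroup V] [Module Ω V] [FiniteDimensional Ω V]
    {ρ : Representation Ω X.H V} (hρ : ρ.IsIrreducible)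
    (he : Even (Module.finrank Ω V)) (hO : Parker.Orth ρ) (hF : Parker.FxC Γ ρ) :
    Parker.GoodV c Γ ρ := by
  obtain ⟨D, hD⟩ := exists_D (B := B) hP
  have hSD : Parker.SD ρ := Parker.sd_of_orth hO
  have hU := odd_U X
  have hs := solv_U' X
  have hev : Even (Module.finrank Ω (LinearMap.range (X.eH ρ))) :=
    (even_E (ρ := ρ) (U := B.U.subgroupOf X.H) hU (fun u _ => hSD u)).1 he
  by_cases h : ∃ f : G → ℤˣ, (∀ x ∈ B.T ⊓ X.H, ∀ y ∈ B.T ⊓ X.H, f (x * y) = f x * f y) ∧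
      X.wt ρ (Z01_aux.cs Ω f) ≠ ⊥
  · obtain ⟨f, hf, hw⟩ := h
    rcases X.re f hf with ⟨a, ha⟩ | hν
    · have hw' : X.wt ρ (fun x => (((B.th a x : ℤˣ) : ℤ) : Ω)) ≠ ⊥ := by
        rw [← wtX_congr (f := Z01_aux.cs Ω f) (fun x hx => by
          unfold Z01_aux.cs
          rw [ha x hx])]
        exact hw
      obtain ⟨W, _, _, _, M, φ, hM, hφ, hφ', hE0⟩ := exists_MX hρ hw'
      exact typed_goodD hΓ hρ hO hF hM φ hφ hφ' hP hpd hD
        (Z01_aux.et_ne hD (Or.inl X.gd) (hE0 ℚ)) (eH_ne hw) (fun σ _ => rat_fix σ) hev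
    · exact nuD_good hΓ hρ hO hF hw (nu_of X hν)
  · refine good_noreal hΓ hO hF (U := B.U.subgroupOf X.H) (S := B.T.subgroupOf X.H) hU hs ?_ ?_
      (no_real h)
    · intro x hx y hy
      exact Subtype.ext (B.Tc x (Subgroup.mem_subgroupOf.1 hx) y (Subgroup.mem_subgroupOf.1 hy))
    · intro x hx u hu
      exact Subgroup.mem_subgroupOf.2
        (B.TU x (Subgroup.mem_subgroupOf.1 hx) u (Subgroup.mem_subgroupOf.1 hu))

theorem bd_propA (X : BD B) (hP : Fit B P) (hpd : PD P) : Parker.PropA c 1 X.H := by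
  intro Γ hΓ n' ρ hρ he hO hF s hs hk hd
  refine Parker.sqV_of_good hρ hF ?_ hs hk hd
  refine bd_good X hP hpd hΓ hρ ?_ hO hF
  rw [Module.finrank_fin_fun]
  exact he

/-- property (B) after the reduction -/
private theorem bd_B (X : BD B) (hP : Fit B P) (hpd : PD P) {Γ : Subgroup (RingAut Ω)}
    (hr : ∀ σ ∈ Γ, ∀ (r : ℕ) (z : Ω), Odd r → r ∣ Nat.card G → z ^ r = 1 → σ z = z)
    {V : Type} [AddCommGroup V] [Module Ω V] [FiniteDimensional Ω V] {ρ : Representation Ω X.H V}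
    (hρ : ρ.IsIrreducible) (ho : Odd (Module.finrank Ω V))
    (h : Parker.SD ρ ∨ ∀ σ ∈ Γ, Parker.Fixes σ ρ ∨ ∀ g, σ (ρ.character g) = ρ.character g⁻¹)
    {d : Ω} (hd : d ≠ 0) (hσ : ∀ σ ∈ Γ, σ d = if Parker.Fixes σ ρ then d else - d) :
    Parker.InV c Γ (c.av d) := by
  by_cases hall : ∀ σ ∈ Γ, Parker.Fixes σ ρ
  · exact ⟨d, hd, fun σ hσ' => by rw [hσ σ hσ', if_pos (hall σ hσ')], rfl⟩
  · push Not at hall
    obtain ⟨σ₀, hσ₀, hnf⟩ := hall
    obtain ⟨D, hD⟩ := exists_D (B := B) hP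
    have hoE : Odd (Module.finrank Ω (LinearMap.range (X.eH ρ))) := by
      refine odd_EX ho ?_
      rcases h with h | h
      · exact Or.inl h
      · exact Or.inr ⟨σ₀, hr σ₀ hσ₀, (h σ₀ hσ₀).resolve_left hnf⟩
    by_cases hreal : ∃ f, X.wt ρ f ≠ ⊥ ∧ ∀ x ∈ B.T ⊓ X.H, f x = (f x)⁻¹
    · obtain ⟨f₀, hf₀, hf₀r⟩ := hreal
      obtain ⟨f, _, hf, hw⟩ := exists_sign hf₀ hf₀r
      rcases X.re f hf with ⟨a, ha⟩ | hν
      · have hw' : X.wt ρ (fun x => (((B.th a x : ℤˣ) : ℤ) : Ω)) ≠ ⊥ := by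
          rw [← wtX_congr (f := Z01_aux.cs Ω f) (fun x hx => by
            unfold Z01_aux.cs
            rw [ha x hx])]
          exact hw
        obtain ⟨W, _, _, _, M, φ, hM, hφ, hφ', hE0⟩ := exists_MX hρ hw'
        exact typed_BD hρ hM φ hφ hφ' hP hpd hD (Z01_aux.et_ne hD (Or.inl X.gd) (hE0 ℚ))
          (eH_ne hw) (fun σ _ => rat_fix σ) hd hσ
      · exact absurd (nuD_even hρ hw (Nu_cs (nu_of X hν))) (Nat.not_even_iff_odd.2 hoE)
    · have hnr : ∀ f, X.wt ρ f ≠ ⊥ → ∃ x ∈ B.T ⊓ X.H, f x ≠ (f x)⁻¹ := by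
        intro f hf
        by_contra h1
        push Not at h1
        exact hreal ⟨f, hf, h1⟩
      have hnsd : ¬ Parker.SD ρ := by
        intro h1
        obtain ⟨f, hf, hx⟩ := wt_realX hoE h1
        exact hreal ⟨f, hf, hx⟩
      have h' := h.resolve_left hnsd
      have h₀ := (h' σ₀ hσ₀).resolve_left hnf
      obtain ⟨I, hI⟩ := IsAlgClosed.exists_eq_mul_self (-1 : Ω)
      have hI0 : I ≠ 0 := by
        intro h1
        rw [h1, mul_zero] at hI
        exact (neg_ne_zero.2 one_ne_zero) hI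
      have hav : c.av I = 1 := by
        have h1 : c.av I * c.av I = 1 := by
          rw [← map_mul, ← hI, AbsoluteValue.map_neg, map_one]
        rcases mul_self_eq_one_iff.1 h1 with h2 | h2
        · exact h2
        · have h3 := c.av.nonneg I
          rw [h2] at h3
          norm_num at h3
      refine ⟨d / I, div_ne_zero hd hI0, fun σ hσ' => ?_, ?_⟩
      · obtain ⟨h1, h2⟩ := nonreal_IX hρ hoE hnr (hr σ₀ hσ₀) h₀ (hr σ hσ') hI.symm
        rw [map_div₀, hσ σ hσ']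
        by_cases h3 : Parker.Fixes σ ρ
        · rw [if_pos h3, h1 h3]
        · rw [if_neg h3, h2 ((h' σ hσ').resolve_left h3), neg_div_neg_eq]
      · rw [map_div₀, hav, div_one]

theorem bd_propB (X : BD B) (hP : Fit B P) (hpd : PD P) : Parker.PropB c 1 X.H := by
  obtain ⟨j, r₁, hr₁, hc⟩ := Nat.exists_eq_two_pow_mul_odd (n := Nat.card G) Nat.card_pos.ne'
  refine propB_of (r := r₁) hr₁ fun Γ _ hΓr m ρ hρ ho h d hd hσ => ?_
  refine bd_B X hP hpd ?_ hρ ?_ h hd hσ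
  · intro σ hσ' r z hro hrd hz
    refine hΓr σ hσ' z ?_
    have h1 : r ∣ r₁ := by
      rw [hc] at hrd
      exact (Nat.Coprime.pow_right j (Nat.coprime_two_right.2 hro)).dvd_of_dvd_mul_left hrd
    obtain ⟨t, ht⟩ := h1
    rw [ht, pow_mul, hz, one_pow]
  · rw [Module.finrank_fin_fun]
    exact ho

end

end AO
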