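import Pool.Agent.AO.F16
import Pool.Agent.AO.P00
import Pool.Agent.AO.P08
import Pool.Agent.AO.P09

/-!
# MP_6c3636_al, AO, module Q13: orthogonal groups of plus type: the data (helper7)

`D = fOp n F h2`: `ep = cm = om = 1`, `σ = τ = refl`, `so = false`, `a = 0`. `D.PR`: `2 β = 0`, so `β = 0`, `R 0 = ⊥` (`R0_equiv`). `kOp`: as `kSp` (P01). `HT`: `g = g * 1`. `spin`: as in P09 (adapt the proof: `X = {v : B v v = 1}`; there `so = true` was only used for `σ = id`, `ep = 1`): a homomorphism `la` with `la (tor x) = ∏ ch (x i)`; multiply it by the determinant if `la (s 0) = -1` (the determinant is `1` or `-1` on `D.G`, `-1` at `s 0`, `1` on `T` and at `s i`, `i > 0`, and on `U`). `la = 1` on `U`: the elements of `U` have odd order (`GS_pow`).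
-/

namespace AO.MG

noncomputable section

open Classical Equiv Matrix

open AN (sq)


/-- orthogonal groups of plus type -/
def fOp (n : ℕ) (F : Type) [Field F] (h2 : (2 : F) ≠ 0) : FD n 0 F where
  σ := RingEquiv.refl F
  τ := RingEquiv.refl F
  ep := 1
  cm := 1
  om := 1
  so := false
  two := h2
  ss := fun _ => rfl
  tt := fun _ => rfl
  st := fun _ => rfl
  ep2 := Or.inl rfl
  cms := fun h => absurd h (lt_irrefl 0)
  cmt := rfl
  oms := one_unit
  omt := rfl
  ani := fun x _ _ => Subsingleton.elim _ _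
  a2 := Or.inl (Nat.zero_le 1)
  sos := fun h => absurd h Bool.false_ne_true

namespace Q13_aux

section

variable {n : ℕ} {F : Type} [Field F]

theorem PR_zero (h2 : (2 : F) ≠ 0) (p : (fOp n F h2).PR) : p.1.2 = 0 := by
  have h := p.2.2.2
  rw [Fin.sum_univ_zero, mul_zero, add_zero] at h
  have h' : ((1 : Fˣ) : F) * p.1.2 + p.1.2 = 0 := h
  rw [Units.val_one, one_mul, ← two_mul] at h'
  exact (mul_eq_zero.1 h').resolve_left h2

theorem ch_refl_one : ch (RingEquiv.refl F) (1 : F) = 1 := if_pos ⟨1, rfl, mul_one 1⟩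

theorem neg_one_ne (h2 : (2 : F) ≠ 0) : (-1 : F) ≠ 1 := by
  intro h
  apply h2
  linear_combination -h

variable [Finite F]

theorem ws_swap {l : Fin n} (hl : (l : ℕ) = 0) : ws 0 l = Equiv.swap (ei l) (fi l) := by
  obtain ⟨a1, a2, a3, -⟩ := ws_0 (a := 0) hl
  ext x
  rcases x with ⟨i, b⟩ | j
  · by_cases hi : i = l
    · subst hi
      cases b
      · exact a1.trans (Equiv.swap_apply_left _ _).symm
      · exact a2.trans (Equiv.swap_apply_right _ _).symm
    · cases b
      · refine (a3 i hi).1.trans (Equiv.swap_apply_of_ne_of_ne ?_ ?_).symm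
        · intro h
          exact hi (congrArg Prod.fst (Sum.inl.inj h))
        · intro h
          exact hi (congrArg Prod.fst (Sum.inl.inj h))
      · refine (a3 i hi).2.trans (Equiv.swap_apply_of_ne_of_ne ?_ ?_).symm
        · intro h
          exact hi (congrArg Prod.fst (Sum.inl.inj h))
        · intro h
          exact hi (congrArg Prod.fst (Sum.inl.inj h))
  · exact j.elim0

theorem det_s (h2 : (2 : F) ≠ 0) {l : Fin n} (hl : (l : ℕ) = 0) :
    (((fOp n F h2).s l : GL (Ix n 0) F) : Matrix (Ix n 0) (Ix n 0) F).det = -1 := by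
  have h3 : (ei l : Ix n 0) ≠ fi l := fun h =>
    Bool.false_ne_true (congrArg Prod.snd (Sum.inl.inj h))
  have h4 : ∀ x, (fOp n F h2).cs l x = 1 := by
    intro x
    have h5 : (fOp n F h2).cs l = (fOp n F h2).c0 := if_neg (by omega)
    rw [h5]
    rcases x with ⟨i, b⟩ | j
    · cases b
      · show (if (i : ℕ) = 0 then (1 : Fˣ) else 1) = 1
        exact ite_self _
      · rfl
    · exact j.elim0
  rw [s_mo, mo_det, ws_swap hl, Equiv.Perm.sign_swap h3]
  rw [Finset.prod_congr rfl fun x _ => by rw [h4 x, Units.val_one], Finset.prod_const_one, mul_one]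
  push_cast
  rfl

theorem det_norm (h2 : (2 : F) ≠ 0) {g : GL (Ix n 0) F} (hg : g ∈ (fOp n F h2).G) :
    (g : Matrix (Ix n 0) (Ix n 0) F).det * (g : Matrix (Ix n 0) (Ix n 0) F).det = 1 := by
  have h1 : ((g : Matrix (Ix n 0) (Ix n 0) F).map (RingEquiv.refl F))ᵀ * (fOp n F h2).J *
      (g : Matrix (Ix n 0) (Ix n 0) F) = (fOp n F h2).J := (mem_G.1 hg).1
  have h0 : (g : Matrix (Ix n 0) (Ix n 0) F).map (RingEquiv.refl F) = (g : Matrix (Ix n 0) (Ix n 0) F) := by
    ext x y
    rfl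
  rw [h0] at h1
  have hJ : (fOp n F h2).J.det ≠ 0 := by
    have h3 : (fOp n F h2).J = ((mo du (fOp n F h2).c : GL (Ix n 0) F) :
        Matrix (Ix n 0) (Ix n 0) F)ᵀ := by
      ext x y
      rw [Matrix.transpose_apply, mo_apply]
      rfl
    rw [h3, Matrix.det_transpose]
    exact ((Matrix.isUnit_iff_isUnit_det _).1 (Units.isUnit _)).ne_zero
  have h4 := congrArg Matrix.det h1
  rw [Matrix.det_mul, Matrix.det_mul, Matrix.det_transpose] at h4
  have h5 : (fOp n F h2).J.det * ((g : Matrix (Ix n 0) (Ix n 0) F).det *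
      (g : Matrix (Ix n 0) (Ix n 0) F).det) = (fOp n F h2).J.det * 1 := by
    rw [mul_one]
    linear_combination h4
  exact mul_left_cancel₀ hJ h5

theorem det_pm (h2 : (2 : F) ≠ 0) {g : GL (Ix n 0) F} (hg : g ∈ (fOp n F h2).G) :
    (g : Matrix (Ix n 0) (Ix n 0) F).det = 1 ∨ (g : Matrix (Ix n 0) (Ix n 0) F).det = -1 :=
  mul_self_eq_one_iff.1 (det_norm h2 hg)

/-- the determinant -/
def dt (h2 : (2 : F) ≠ 0) : (fOp n F h2).G →* ℤˣ where
  toFun g := if ((g : GL (Ix n 0) F) : Matrix (Ix n 0) (Ix n 0) F).det = 1 then 1 else -1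
  map_one' := by
    rw [Subgroup.coe_one, Units.val_one, Matrix.det_one, if_pos rfl]
  map_mul' := by
    intro g h
    rw [Subgroup.coe_mul, Units.val_mul, Matrix.det_mul]
    have hn := neg_one_ne h2
    rcases det_pm h2 g.2 with hg | hg <;> rcases det_pm h2 h.2 with hh | hh
    · rw [hg, hh, mul_one, if_pos rfl, mul_one]
    · rw [hg, hh, one_mul, if_neg hn, if_pos rfl, one_mul]
    · rw [hg, hh, mul_one, if_neg hn, if_pos rfl, mul_one]
    · rw [hg, hh, neg_mul_neg, one_mul, if_pos rfl, if_neg hn, neg_mul_neg, one_mul]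

theorem dt_one (h2 : (2 : F) ≠ 0) (g : (fOp n F h2).G) :
    dt h2 g = 1 ↔ ((g : GL (Ix n 0) F) : Matrix (Ix n 0) (Ix n 0) F).det = 1 := by
  show (if ((g : GL (Ix n 0) F) : Matrix (Ix n 0) (Ix n 0) F).det = 1 then (1 : ℤˣ) else -1) = 1 ↔ _
  by_cases h : ((g : GL (Ix n 0) F) : Matrix (Ix n 0) (Ix n 0) F).det = 1
  · rw [if_pos h]
    exact ⟨fun _ => h, fun _ => rfl⟩
  · rw [if_neg h]
    exact ⟨fun h' => absurd h' (by decide), fun h' => absurd h' h⟩

omit [Finite F] in
theorem det_DG {t : GL (Ix n 0) F} (ht : t ∈ DG (Ix n 0) F) :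
    (t : Matrix (Ix n 0) (Ix n 0) F).det =
      ∏ x : Ix n 0, (t : Matrix (Ix n 0) (Ix n 0) F) x x := by
  have h : (t : Matrix (Ix n 0) (Ix n 0) F) = Matrix.diagonal
      (fun x => (t : Matrix (Ix n 0) (Ix n 0) F) x x) := by
    ext x y
    by_cases hxy : x = y
    · rw [hxy, Matrix.diagonal_apply_eq]
    · rw [Matrix.diagonal_apply_ne _ hxy, mem_DG.1 ht x y hxy]
  rw [h, Matrix.det_diagonal]
  exact Finset.prod_congr rfl fun x _ => by rw [Matrix.diagonal_apply_eq]

theorem det_tor (h2 : (2 : F) ≠ 0) (x : Fin n → Fˣ) (ht : (fOp n F h2).tor x ∈ (fOp n F h2).T) :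
    (((fOp n F h2).tor x : GL (Ix n 0) F) : Matrix (Ix n 0) (Ix n 0) F).det = 1 := by
  rw [det_DG (T_DG ht), Fintype.prod_sum_type, Fintype.prod_prod_type]
  rw [Finset.univ_eq_empty (α := Fin 0), Finset.prod_empty, mul_one]
  refine Finset.prod_eq_one fun i _ => ?_
  rw [Fintype.prod_bool]
  have e1 : (((fOp n F h2).tor x : GL (Ix n 0) F) : Matrix (Ix n 0) (Ix n 0) F) (Sum.inl (i, false))
      (Sum.inl (i, false)) = x i := tor_e x i
  have e2 : (((fOp n F h2).tor x : GL (Ix n 0) F) : Matrix (Ix n 0) (Ix n 0) F) (Sum.inl (i, true))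
      (Sum.inl (i, true)) = (x i : F)⁻¹ := tor_f x i
  rw [e1, e2, inv_mul_cancel₀ (x i).ne_zero]

theorem exists_la (h2 : (2 : F) ≠ 0) : ∃ la : (fOp n F h2).G →* ℤˣ, ∀ (x : Fin n → Fˣ)
    (hx : ∀ i, (fOp n F h2).τ (x i : F) = x i),
    la ⟨(fOp n F h2).tor x, (tor_mem hx).1⟩ = ∏ i, ch (fOp n F h2).τ (x i : F) := by
  refine ⟨(P09_aux.sgP (P09_aux.XS (fOp n F h2))).comp (P09_aux.acX (fOp n F h2)), fun x hx => ?_⟩
  -- the two homomorphisms
  let φ : (Fin n → P09_aux.KU (fOp n F h2).τ) →* (fOp n F h2).G :=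
    { toFun := fun y => ⟨(fOp n F h2).tor (fun i => (y i : Fˣ)), (tor_mem (fun i => (y i).2)).1⟩
      map_one' := by
        apply Subtype.ext
        show (fOp n F h2).tor (fun i => (((1 : Fin n → P09_aux.KU (fOp n F h2).τ) i :
          P09_aux.KU (fOp n F h2).τ) : Fˣ)) = 1
        have h1 : (fOp n F h2).tor (1 : Fin n → Fˣ) * (fOp n F h2).tor (1 : Fin n → Fˣ) =
            (fOp n F h2).tor (1 : Fin n → Fˣ) := by
          rw [← tor_mul, mul_one]
        exact mul_eq_left.1 h1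
      map_mul' := by
        intro y y'
        apply Subtype.ext
        exact tor_mul (fun i => (y i : Fˣ)) (fun i => (y' i : Fˣ)) }
  let ψ : (Fin n → P09_aux.KU (fOp n F h2).τ) →* ℤˣ :=
    { toFun := fun y => ∏ i, P09_aux.sgm (fOp n F h2).τ (y i)
      map_one' := by
        refine Finset.prod_eq_one fun i _ => ?_
        rw [Pi.one_apply, map_one]
      map_mul' := by
        intro y y'
        rw [← Finset.prod_mul_distrib]
        refine Finset.prod_congr rfl fun i _ => ?_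
        rw [Pi.mul_apply, map_mul] }
  have h : ((P09_aux.sgP (P09_aux.XS (fOp n F h2))).comp (P09_aux.acX (fOp n F h2))).comp φ = ψ := by
    refine MonoidHom.functions_ext _ _ _ fun i y => ?_
    have h1 := P09_aux.sg_tor (D := fOp n F h2) (fun _ => rfl) rfl
      (x := fun j => ((Pi.mulSingle i y : Fin n → P09_aux.KU (fOp n F h2).τ) j : Fˣ))
      (fun j => ((Pi.mulSingle i y : Fin n → P09_aux.KU (fOp n F h2).τ) j).2) (i := i) (fun j hj => by
        rw [Pi.mulSingle_eq_of_ne hj]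
        rfl)
    have h3 : ψ (Pi.mulSingle i y) = P09_aux.sgm (fOp n F h2).τ y := by
      show ∏ j, P09_aux.sgm (fOp n F h2).τ ((Pi.mulSingle i y : Fin n → P09_aux.KU (fOp n F h2).τ) j) = _
      rw [Finset.prod_eq_single i]
      · rw [Pi.mulSingle_eq_same]
      · intro j _ hj
        rw [Pi.mulSingle_eq_of_ne hj, map_one]
      · exact fun h => absurd (Finset.mem_univ _) h
    rw [h3, P09_aux.sgm_ch h2]
    refine Eq.trans h1 ?_
    rw [Pi.mulSingle_eq_same]
  have h3 := congrArg (fun f : (Fin n → P09_aux.KU (fOp n F h2).τ) →* ℤˣ => f (fun i => ⟨x i, hx i⟩)) h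
  refine Eq.trans h3 ?_
  show ∏ i, P09_aux.sgm (fOp n F h2).τ (⟨x i, hx i⟩ : P09_aux.KU (fOp n F h2).τ) = _
  refine Finset.prod_congr rfl fun i _ => ?_
  rw [P09_aux.sgm_ch h2]

end

end Q13_aux

open Q13_aux

/-- the data of the orthogonal group of plus type -/
def kOp (n : ℕ) (F : Type) [Field F] [Finite F] (h2 : (2 : F) ≠ 0) : (fOp n F h2).KD where
  H := (fOp n F h2).G
  gd := true
  su := fun _ => 0
  nt := if h : 0 < n then (fOp n F h2).s ⟨0, h⟩ else 1
  HG := le_rfl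
  hN := fun g hg h hh => Subgroup.mul_mem _ (Subgroup.mul_mem _ hg hh) (Subgroup.inv_mem _ hg)
  UH := U_le
  HT := fun g hg => ⟨g, hg, 1, Subgroup.one_mem _, (mul_one g).symm⟩
  es := by
    intro k hk a'
    rw [rsum_zero hk a']
    refine Eq.trans (finsum_congr fun p => ?_) finsum_zero
    rw [if_pos (PR_zero h2 p)]
  ze1 := by
    intro _
    have h4 : (((fOp n F h2).ep : Fˣ) : F) = 1 := Units.val_one
    rw [h4]
    exact ch_refl_one
  ze2 := fun h => absurd h (by decide)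
  ntN := by
    intro k hk
    have hn : 0 < n := lt_of_le_of_lt (Nat.zero_le _) k.2
    refine ⟨1, Subgroup.one_mem _, ?_⟩
    rw [dif_pos hn, mul_one]
    congr 1
    exact Fin.ext hk.symm
  ntH := by
    by_cases h : 0 < n
    · rw [dif_pos h]
      exact s_mem _
    · rw [dif_neg h]
      exact Subgroup.one_mem _
  re := by
    intro f hf
    left
    have hm : ∀ z : Fin n → Fˣ, (fOp n F h2).tor z ∈ (fOp n F h2).T ⊓ (fOp n F h2).G := fun z =>
      ⟨tor_mem (fun _ => rfl), (tor_mem (D := fOp n F h2) (x := z) (fun _ => rfl)).1⟩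
    let φ : (Fin n → Fˣ) →* ℤˣ := MonoidHom.mk' (fun z => f ((fOp n F h2).tor z)) (fun z z' => by
      rw [tor_mul, hf _ (hm z) _ (hm z')])
    have hφ : ∀ z, φ z = f ((fOp n F h2).tor z) := fun _ => rfl
    have hun : ∀ x y : F, x ≠ 0 → y ≠ 0 → un (x * y) = un x * un y := by
      intro x y hx hy
      apply Units.ext
      rw [Units.val_mul, un, un, un, dif_pos (mul_ne_zero hx hy), dif_pos hx, dif_pos hy]
      rfl
    have hc : ∀ i : Fin n, (∀ x : F, RingEquiv.refl F x = x → x ≠ 0 → φ (Pi.mulSingle i (un x)) = 1) ∨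
        ∀ x : F, RingEquiv.refl F x = x → x ≠ 0 → φ (Pi.mulSingle i (un x)) = ch (RingEquiv.refl F) x := by
      intro i
      apply ch_hom h2
      intro x y _ hx _ hy
      rw [hun x y hx hy, Pi.mulSingle_mul, map_mul]
    refine ⟨fun i => decide (¬ ∀ x : F, RingEquiv.refl F x = x → x ≠ 0 → φ (Pi.mulSingle i (un x)) = 1), ?_⟩
    intro t ht
    obtain ⟨z, _, rfl⟩ := T_tor ht.1 (fun j => j.elim0)
    rw [th_tor, ← hφ]
    have hz : z = ∏ i, Pi.mulSingle i (z i) := (Finset.univ_prod_mulSingle z).symm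
    conv_lhs => rw [hz]
    rw [map_prod]
    apply Finset.prod_congr rfl
    intro i _
    have hu : un ((z i : Fˣ) : F) = z i := by
      apply Units.ext
      rw [un, dif_pos (z i).ne_zero]
      rfl
    by_cases h : ∀ x : F, RingEquiv.refl F x = x → x ≠ 0 → φ (Pi.mulSingle i (un x)) = 1
    · rw [if_neg (by rw [decide_eq_true_iff]; exact fun h' => h' h)]
      have := h (z i : F) rfl (z i).ne_zero
      rwa [hu] at this
    · rw [if_pos (by rw [decide_eq_true_iff]; exact h)]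
      have := (hc i).resolve_left h (z i : F) rfl (z i).ne_zero
      rw [hu] at this
      exact this
  tw := by
    intro a' b' h
    left
    symm
    exact th_ext (fun x hx => h x ⟨hx, hx.1⟩)

theorem R0_bot {n : ℕ} {F : Type} [Field F] [Finite F] (h2 : (2 : F) ≠ 0) {i : Fin n}
    (hi : (i : ℕ) = 0) : (fOp n F h2).R i = ⊥ := by
  obtain ⟨e, he⟩ := R0_equiv (D := fOp n F h2) hi
  rw [eq_bot_iff]
  intro r hr
  rw [Subgroup.mem_bot]
  exact (he ⟨r, hr⟩).2.2.1 (PR_zero h2 _)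

theorem det_Op {n : ℕ} {F : Type} [Field F] [Finite F] (h2 : (2 : F) ≠ 0) {g : GL (Ix n 0) F}
    (hg : g ∈ (fOp n F h2).G) : (g : Matrix (Ix n 0) (Ix n 0) F).det = 1 ∨
      (g : Matrix (Ix n 0) (Ix n 0) F).det = -1 :=
  det_pm h2 hg

theorem spin_Op {n : ℕ} {F : Type} [Field F] [Finite F] (h2 : (2 : F) ≠ 0) :
    ∃ (d l : (fOp n F h2).G →* ℤˣ), (∀ g : (fOp n F h2).G, d g = 1 ↔
        ((g : GL (Ix n 0) F) : Matrix (Ix n 0) (Ix n 0) F).det = 1) ∧
      (∀ (x : Fin n → Fˣ) (hx : ∀ i, (fOp n F h2).τ (x i : F) = x i),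
        l ⟨(fOp n F h2).tor x, (tor_mem hx).1⟩ = ∏ i, ch (RingEquiv.refl F) (x i : F)) ∧
      ∀ i : Fin n, (i : ℕ) = 0 → l ⟨(fOp n F h2).s i, s_mem i⟩ = 1 := by
  obtain ⟨la, hla⟩ := exists_la (n := n) h2
  by_cases h : ∀ i : Fin n, (i : ℕ) = 0 → la ⟨(fOp n F h2).s i, s_mem i⟩ = 1
  · exact ⟨dt h2, la, dt_one h2, hla, h⟩
  · push Not at h
    obtain ⟨i, hi, h1⟩ := h
    have h3 : la ⟨(fOp n F h2).s i, s_mem i⟩ = -1 := (Int.units_eq_one_or _).resolve_left h1
    refine ⟨dt h2, la * dt h2, dt_one h2, fun x hx => ?_, fun j hj => ?_⟩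
    · have h4 : dt h2 ⟨(fOp n F h2).tor x, (tor_mem hx).1⟩ = 1 :=
        (dt_one h2 _).2 (det_tor h2 x (tor_mem hx))
      rw [MonoidHom.mul_apply, h4, mul_one]
      exact hla x hx
    · have hji : j = i := Fin.ext (by rw [hj, hi])
      subst hji
      have h5 : dt h2 ⟨(fOp n F h2).s j, s_mem j⟩ = -1 := by
        refine (Int.units_eq_one_or _).resolve_left fun h6 => ?_
        have h7 := (dt_one h2 _).1 h6
        have h8 : ((((fOp n F h2).s j : GL (Ix n 0) F)) : Matrix (Ix n 0) (Ix n 0) F).det = 1 := h7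
        rw [det_s h2 hj] at h8
        exact neg_one_ne h2 h8
      rw [MonoidHom.mul_apply, h3, h5]
      decide

end

end AO.MG
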