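import Pool.Agent.AO.Q13
import Pool.Agent.AO.Q12
import Pool.Agent.AO.G01

/-!
# MP_6c3636_al, AO, module Q14: orthogonal groups of plus type: (A) and (B) (helper7)

`n ≥ 3`, `D = fOp n F h2`, `p` from `char_odd`, `B = ((kOp n F h2).bn ..).toBN`, a BN-pair of `D.G`. `exists_BD`: `d`, `l` of `spin_Op`, `H` = the intersection of the kernels. `dU`: `det_GS`; `lU`: the elements of `U` have odd order. `dT`: `det (tor x) = 1`. `lT`: `th_tor`. `d0`, `ds`: `mo_det`. `ls`: `l (s i)` for `i > 0`: by `hU_pos`: `s r s = u (s h) u'` with `h = hy (glh i (un x))`, so `l (s i) = l h = ch x * ch (- x⁻¹) = ch (-1) = sn true`. `R0`: `R0_bot`. `s0`: `s_sq_one`. `re`: all elements of `T` are `tor x`; `tor x ∈ H` if and only if `∏ x i` is a square. As in P10: `ψ i x = f (tor (update 1 i (x ^ 2)))` is a homomorphism, `ψ i = ψ j`; `ψ = 1`: first alternative; `ψ = ch`: let `m ∈ N`, `f' x = f (m⁻¹ x m)`, `ψ' = ch` too. Let `h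 i j x = tor` with `x` at `i`, `x⁻¹` at `j`, in `H`. Conjugation by `s 1` exchanges the coordinates `0` and `1`, conjugation by `s 0 s 1 s 0` maps `(x 0, x 1)` to `(x 1⁻¹, x 0⁻¹)`. Suppose that both fix `f'` on `T ⊓ H`. Then `f' (h 0 2 y) = f' (h 1 2 y)` (first), and `f' (h 0 2 y) = f' (tor with y⁻¹ at 1, y⁻¹ at 2)` (second), and `h 1 2 y * (tor with y⁻¹ at 1 and y⁻¹ at 2)⁻¹ = tor with y ^ 2 at 1`, so `ψ' y = 1` for all `y`, a contradiction. `Fit` for `P`: `q = Nat.card F`, `e = 1`, `j = 0`, `w = 1`: `card`: `card_in`, `card_R_pos`; `sum`: `1 * (1 - 1) = 0`; `prod`: `1 * (1 * -1) = -1` (`R 0 = ⊥`); `half`: first alternative: `tor` of a nonsquare at one coordinate (`B.H = ⊤`). `op_AB`: `bd_propA`, `bd_propB` and the isomorphism of `X.H` (a subgroup of the type `D.G`) with the subgroup of `GL`. `op_comm`: `⁅S, S⁆` for `S = D.G ⊓ DT`: `X.H` has index at most two in `S` (kernel of `l` on `S`), so `⁅S, S⁆ ≤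 X.H`. Conversely: `U ≤ ⁅S, S⁆` (the proof of `U_comm`, P08, works: the element `tor` with `-1` at `j` is in `S`). Modulo `⁅S, S⁆`: `S` is generated by `U`, `T`, the `s l`, `s 0 s l s 0` for `l > 0` (`D.G` is generated by `U`, `T`, the `s l`, `s 0` and `s 0` normalises `U`, `T`; `s 0 ^ 2 = 1`), `s l ∈ ⁅S, S⁆ T` by `hU_pos`, and the same for `s 0 s l s 0`; so `S = ⁅S, S⁆ T`. For `T`: `h i j x ∈ ⁅S, S⁆` (commutator with the monomial matrix of the transposition of `i`, `j`, which is `hy` of a matrix, in `S`), and `tor` with `x ^ 2` at `i` is `h i j x * (m h i j x m⁻¹)` with `m ∈ S` which exchanges `ei j`, `fi j` and `ei k`, `fi k` (`n ≥ 3`; `i, j, k` different). So an element of `T` with `l = 1` (`∏ x i` a square) is in `⁅S, S⁆`, and `X.H ≤ ⁅S, S⁆`.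
-/

namespace AO.MG

noncomputable section

open Classical Equiv Matrix

open AN (sq)

namespace Q14_aux

section Eich

open P08_aux

open scoped commutatorElement

variable {n a : ℕ} {F : Type} [Field F] [Finite F] {D : FD n a F}

/-- an Eichler element is a commutator -/
theorem eichS (hσ : ∀ x, D.σ x = x) (hep : D.ep = 1) {S : Subgroup (GL (Ix n a) F)} (hUS : D.U ≤ S)
    (hTS : D.T ≤ S) (j : Fin n) {E : GL (Ix n a) F} (hE : E ∈ D.U) {v : Ix n a → F}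
    (hB : D.B v v = 0) (hj : v (fi j) = 1)
    (hv : Bd ((j : ℕ) + 1) v) (ht : ∀ x, v (pm x) = D.τ (v x)) (hEf : mv E (sv (fi j)) = v)
    (hEe : mv E (sv (ei j)) = sv (ei j)) (hR : ∀ x y, x ≠ ei j → y ≠ fi j → (E : Matrix (Ix n a) (Ix n a) F) x y =
        (1 : Matrix (Ix n a) (Ix n a) F) x y) : E ∈ ⁅S, S⁆ := by
  have h2 : (2 : F) ≠ 0 := D.two
  have hne : (ei j : Ix n a) ≠ fi j := ei_ne_fi j j
  obtain ⟨γ, hγ⟩ : ∃ γ, γ = v (ei j) := ⟨_, rfl⟩
  obtain ⟨z, hz⟩ : ∃ z : Ix n a → F, z = v - sv (fi j) - γ • sv (ei j) := ⟨_, rfl⟩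
  have hvz : v = sv (fi j) + z + γ • sv (ei j) := by
    rw [hz]
    abel
  have hze : z (ei j) = 0 := by
    rw [hz, Pi.sub_apply, Pi.sub_apply, Pi.smul_apply, smul_eq_mul, sv_same, sv_ne hne, hγ]
    ring
  have hzf : z (fi j) = 0 := by
    rw [hz, Pi.sub_apply, Pi.sub_apply, Pi.smul_apply, smul_eq_mul, sv_same, sv_ne hne.symm, hj]
    ring
  have hpe : (pm (ei j) : Ix n a) = ei j := rfl
  have hτγ : D.τ γ = γ := by
    rw [hγ, ← ht, hpe]
  have htz : ∀ x, z (pm x) = D.τ (z x) := by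
    intro x
    rw [hz, Pi.sub_apply, Pi.sub_apply, Pi.smul_apply, smul_eq_mul, Pi.sub_apply, Pi.sub_apply, Pi.smul_apply,
      smul_eq_mul, ht, (sv_tw j).2, (sv_tw j).1, map_sub, map_sub, map_mul, hτγ]
  have hBf : ∀ x : Ix n a → F, D.B (sv (fi j)) x = x (ei j) := B_f hep j
  have hBe : ∀ x : Ix n a → F, D.B (sv (ei j)) x = x (fi j) := B_e j
  have hBf' : ∀ x : Ix n a → F, D.B x (sv (fi j)) = x (ei j) := fun x => (B_f' j x).trans (hσ _)
  have hBe' : ∀ x : Ix n a → F, D.B x (sv (ei j)) = x (fi j) := fun x => (B_e' hep j x).trans (hσ _)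
  have hBBv : ∀ (y : Ix n a → F) (g : F), y (ei j) = 0 → y (fi j) = 0 →
      D.B (sv (fi j) + y + g • sv (ei j)) (sv (fi j) + y + g • sv (ei j)) = 2 * g + D.B y y := by
    intro y g hy1 hy2
    simp only [B_add_left, B_add_right, B_smul_left, B_smul_right, hBf, hBe, hBf', hBe', hσ, hy1, hy2, sv_same,
      sv_ne hne, sv_ne hne.symm, Pi.add_apply, Pi.smul_apply, smul_eq_mul]
    ring
  have hγz : 2 * γ + D.B z z = 0 := by
    rw [← hBBv z γ hze hzf, ← hvz, hB]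
  obtain ⟨z', hz'⟩ : ∃ z' : Ix n a → F, z' = (-(2 : F)⁻¹) • z := ⟨_, rfl⟩
  obtain ⟨γ', hγ'⟩ : ∃ γ', γ' = -(D.B z' z' * (2 : F)⁻¹) := ⟨_, rfl⟩
  obtain ⟨v', hv'⟩ : ∃ v' : Ix n a → F, v' = sv (fi j) + z' + γ' • sv (ei j) := ⟨_, rfl⟩
  have hze' : z' (ei j) = 0 := by
    rw [hz', Pi.smul_apply, hze, smul_zero]
  have hzf' : z' (fi j) = 0 := by
    rw [hz', Pi.smul_apply, hzf, smul_zero]
  have hBz' : D.B z' z' = (2 : F)⁻¹ * (2 : F)⁻¹ * D.B z z := by
    rw [hz', B_smul_left, B_smul_right, hσ]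
    ring
  have hγ'2 : 2 * γ' + D.B z' z' = 0 := by
    rw [hγ']
    field_simp
    ring
  have hτ2 : D.τ ((2 : F)⁻¹) = (2 : F)⁻¹ := by
    rw [map_inv₀, map_ofNat]
  have htz' : ∀ x, z' (pm x) = D.τ (z' x) := by
    intro x
    rw [hz', Pi.smul_apply, Pi.smul_apply, smul_eq_mul, smul_eq_mul, map_mul, map_neg, hτ2, htz]
  have hτγ' : D.τ γ' = γ' := by
    rw [hγ', map_neg, map_mul, hτ2, B_tau htz' htz']
  have hB' : D.B v' v' = 0 := by
    rw [hv', hBBv z' γ' hze' hzf', hγ'2]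
  have hj' : v' (fi j) = 1 := by
    rw [hv', Pi.add_apply, Pi.add_apply, Pi.smul_apply, smul_eq_mul, sv_same, sv_ne hne.symm, hzf']
    ring
  have hbd : Bd ((j : ℕ) + 1) v' := by
    intro x hx
    have h1 : x ≠ ei j := by
      rintro rfl
      exact hx (Nat.lt_succ_self _)
    have h3 : x ≠ fi j := by
      rintro rfl
      exact hx (Nat.lt_succ_self _)
    have h4 : z x = 0 := by
      rw [hz, Pi.sub_apply, Pi.sub_apply, Pi.smul_apply, smul_eq_mul, sv_ne h1, sv_ne h3, hv x hx]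
      ring
    rw [hv', hz', Pi.add_apply, Pi.add_apply, Pi.smul_apply, Pi.smul_apply, smul_eq_mul, smul_eq_mul, sv_ne h1,
      sv_ne h3, h4]
    ring
  have htv' : ∀ x, v' (pm x) = D.τ (v' x) := by
    intro x
    rw [hv', Pi.add_apply, Pi.add_apply, Pi.smul_apply, smul_eq_mul, Pi.add_apply, Pi.add_apply, Pi.smul_apply,
      smul_eq_mul, htz', (sv_tw j).2, (sv_tw j).1, map_add, map_add, map_mul, hτγ']
  obtain ⟨E', hE'U, hE'f, hE'e, hE'R, -⟩ := exists_eich j hB' hj' hbd htv'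
  have hE'G : E' ∈ D.G := U_le hE'U
  -- the torus element
  have hxτ : ∀ i, D.τ (((if i = j then -1 else 1 : Fˣ)) : F) = ((if i = j then -1 else 1 : Fˣ) : F) := by
    intro i
    split_ifs
    · rw [Units.val_neg, Units.val_one, map_neg, map_one]
    · rw [Units.val_one, map_one]
  obtain ⟨t, htt⟩ : ∃ t : GL (Ix n a) F, t = D.tor (fun i => if i = j then -1 else 1) := ⟨_, rfl⟩
  have htT : t ∈ D.T := by
    rw [htt]
    exact tor_mem hxτ
  have htG : t ∈ D.G := htT.1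
  have htD : t ∈ DG (Ix n a) F := T_DG htT
  have hte : (t : Matrix (Ix n a) (Ix n a) F) (ei j) (ei j) = -1 := by
    rw [htt, tor_e, if_pos rfl, Units.val_neg, Units.val_one]
  have htf : (t : Matrix (Ix n a) (Ix n a) F) (fi j) (fi j) = -1 := by
    rw [htt, tor_f, if_pos rfl, Units.val_neg, Units.val_one, map_neg, map_one, inv_neg, inv_one]
  have hto : ∀ x : Ix n a, x ≠ ei j → x ≠ fi j → (t : Matrix (Ix n a) (Ix n a) F) x x = 1 := by
    rintro (⟨i, b⟩ | i) h1 h3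
    · have hij : i ≠ j := by
        rintro rfl
        cases b
        · exact h1 rfl
        · exact h3 rfl
      cases b
      · have h4 := tor_e (D := D) (fun i => if i = j then -1 else 1) i
        rw [if_neg hij, Units.val_one, ← htt] at h4
        exact h4
      · have h4 := tor_f (D := D) (fun i => if i = j then -1 else 1) i
        rw [if_neg hij, Units.val_one, map_one, inv_one, ← htt] at h4
        exact h4
    · have h4 := tor_m (D := D) (fun i => if i = j then -1 else 1) i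
      rw [← htt] at h4
      exact h4
  have hmte : mv t (sv (ei j)) = -(sv (ei j) : Ix n a → F) := by
    ext x
    rw [mv_diag htD, Pi.neg_apply]
    by_cases hx : x = ei j
    · rw [hx, hte, sv_same, mul_one]
    · rw [sv_ne hx, mul_zero, neg_zero]
  have hmtf : mv t (sv (fi j)) = -(sv (fi j) : Ix n a → F) := by
    ext x
    rw [mv_diag htD, Pi.neg_apply]
    by_cases hx : x = fi j
    · rw [hx, htf, sv_same, mul_one]
    · rw [sv_ne hx, mul_zero, neg_zero]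
  have hmtz : mv t z' = z' := by
    ext x
    rw [mv_diag htD]
    by_cases hx : x = ei j
    · rw [hx, hze', mul_zero]
    by_cases hx' : x = fi j
    · rw [hx', hzf', mul_zero]
    · rw [hto x hx hx', one_mul]
  have mvneg : ∀ (g : GL (Ix n a) F) (w : Ix n a → F), mv g (-w) = - mv g w := by
    intro g w
    have h1 := mv_smul g (-1) w
    rw [neg_one_smul, neg_one_smul] at h1
    exact h1
  have minv : ∀ (g : GL (Ix n a) F) (w w' : Ix n a → F), mv g w = w' → mv g⁻¹ w' = w := by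
    intro g w w' h
    rw [← h, mv_inv]
  have hmte' : mv t⁻¹ (sv (ei j)) = -(sv (ei j) : Ix n a → F) := by
    apply minv
    rw [mvneg, hmte, neg_neg]
  have hmtf' : mv t⁻¹ (sv (fi j)) = -(sv (fi j) : Ix n a → F) := by
    apply minv
    rw [mvneg, hmtf, neg_neg]
  have hmtz' : mv t⁻¹ z' = z' := minv _ _ _ hmtz
  -- the action of E'
  obtain ⟨δ, hδ⟩ := Ri.mv hE'R hzf'
  have hδγ : δ = 2 * γ' := by
    have h1 := B_mv hE'G z' (sv (fi j))
    rw [hδ, hE'f, hv', hBf', hze'] at h1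
    simp only [B_add_left, B_add_right, B_smul_left, B_smul_right, hBe, hBf', hBe', hσ, hze', hzf', sv_same,
      sv_ne hne.symm, Pi.add_apply, Pi.smul_apply, smul_eq_mul] at h1
    linear_combination h1 - hγ'2
  have hE'z : mv E' z' = z' + (2 * γ') • sv (ei j) := by
    rw [hδ, hδγ]
  have hE'i : mv E'⁻¹ (sv (fi j)) = sv (fi j) - z' + γ' • sv (ei j) := by
    apply minv
    rw [sub_eq_add_neg, mv_add, mv_add, mvneg, mv_smul, hE'f, hE'z, hE'e, hv']
    ext x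
    simp only [Pi.add_apply, Pi.smul_apply, Pi.neg_apply, smul_eq_mul]
    ring
  have hE'ie : mv E'⁻¹ (sv (ei j)) = sv (ei j) := minv _ _ _ hE'e
  have hmain : E = ⁅t, E'⁆ := by
    rw [commutatorElement_def]
    refine eich_unique j (U_le hE) (D.G.mul_mem (D.G.mul_mem (D.G.mul_mem htG hE'G) (D.G.inv_mem htG))
      (D.G.inv_mem hE'G)) ?_ hEe ?_ hR ?_
    · rw [hEf, mv_mul, mv_mul, mv_mul, hE'i, sub_eq_add_neg]
      simp only [mv_add, mvneg, mv_smul, smul_neg, hmtf', hmtz', hmte', hE'f, hE'z, hE'e, hv', hmtf, hmtz, hmte]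
      rw [hvz]
      have h5 : γ = 4 * γ' := by
        have h6 : γ = -(D.B z z * (2 : F)⁻¹) := by
          field_simp
          linear_combination hγz
        rw [h6, hγ', hBz']
        field_simp
        ring
      ext x
      simp only [Pi.add_apply, Pi.smul_apply, Pi.neg_apply, smul_eq_mul]
      rw [h5]
      have h7 : z' x = -(2 : F)⁻¹ * z x := by rw [hz', Pi.smul_apply, smul_eq_mul]
      rw [h7]
      field_simp
      ring
    · rw [mv_mul, mv_mul, mv_mul, hE'ie, hmte', mvneg, hE'e, mvneg, hmte, neg_neg]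
    · have h1 : Ri j ((t * E' * t⁻¹ : GL (Ix n a) F) : Matrix (Ix n a) (Ix n a) F) := Ri.conj htD hE'R
      have h3 : Ri j ((E'⁻¹ : GL (Ix n a) F) : Matrix (Ix n a) (Ix n a) F) := Ri.inv hE'G hE'R
      have h4 := Ri.mul h1 h3
      rw [← Units.val_mul] at h4
      exact h4
  rw [hmain]
  exact Subgroup.commutator_mem_commutator (hTS htT) (hUS hE'U)

theorem U_commS (hσ : ∀ x, D.σ x = x) (hep : D.ep = 1) {S : Subgroup (GL (Ix n a) F)} (hUS : D.U ≤ S)
    (hTS : D.T ≤ S) : D.U ≤ ⁅S, S⁆ := by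
  have key : ∀ j : ℕ, j ≤ n → ∀ u ∈ D.U, Fo j (u : Matrix (Ix n a) (Ix n a) F) → u ∈ ⁅S, S⁆ := by
    intro j
    induction j with
    | zero =>
      intro _ u hu hF
      have h1 : u = 1 := by
        apply Units.ext
        ext x y
        rw [Units.val_one]
        by_cases h : In 0 x ∧ In 0 y
        · refine hu.2.1 x y ?_
          obtain ⟨hx, hy⟩ := h
          rcases x with ⟨i, b⟩ | i
          · exact absurd hx (Nat.not_lt_zero _)
          · rcases y with ⟨i', b⟩ | i'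
            · exact absurd hy (Nat.not_lt_zero _)
            · exact lt_irrefl _
        · exact hF x y h
      rw [h1]
      exact Subgroup.one_mem _
    | succ k ih =>
      intro hk u hu hF
      obtain ⟨j, rfl⟩ : ∃ j : Fin n, (j : ℕ) = k := ⟨⟨k, hk⟩, rfl⟩
      have huG : u ∈ D.G := U_le hu
      have hne : (ei j : Ix n a) ≠ fi j := ei_ne_fi j j
      have hue : mv u (sv (ei j)) = sv (ei j) := by
        ext x
        rw [mv_apply]
        have h1 : (u : Matrix (Ix n a) (Ix n a) F) x (ei j) = (1 : Matrix (Ix n a) (Ix n a) F) x (ei j) := by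
          by_cases h : In ((j : ℕ) + 1) x
          · refine hu.2.1 x _ ?_
            rcases x with ⟨i, b⟩ | i
            · have hi : (i : ℕ) < (j : ℕ) + 1 := h
              cases b
              · show ¬ (-(((i : ℕ) : ℤ) + 1) < -(((j : ℕ) : ℤ) + 1))
                omega
              · show ¬ ((((i : ℕ) : ℤ) + 1) < -(((j : ℕ) : ℤ) + 1))
                omega
            · show ¬ ((0 : ℤ) < -(((j : ℕ) : ℤ) + 1))
              omega
          · exact hF x _ (fun h' => h h'.1)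
        rw [h1, sv, Pi.single_apply, Matrix.one_apply]
      obtain ⟨v, hv⟩ : ∃ v, v = mv u (sv (fi j)) := ⟨_, rfl⟩
      have hB : D.B v v = 0 := by
        rw [hv, B_mv huG, B_f hep, sv_ne hne]
      have hj : v (fi j) = 1 := by
        rw [hv, mv_apply, hu.2.1 _ _ (lt_irrefl _), Matrix.one_apply_eq]
      have hbd : Bd ((j : ℕ) + 1) v := by
        intro x hx
        have h3 : x ≠ fi j := by
          rintro rfl
          exact hx (Nat.lt_succ_self _)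
        rw [hv, mv_apply, hF x _ (fun h' => hx h'.1), Matrix.one_apply_ne h3]
      have htv : ∀ x, v (pm x) = D.τ (v x) := by
        rw [hv]
        exact mv_tw huG (sv_tw j).2
      obtain ⟨E, hEU, hEf, hEe, hER, hEF⟩ := exists_eich j hB hj hbd htv
      have hEc : E ∈ ⁅S, S⁆ := eichS hσ hep hUS hTS j hEU hB hj hbd htv hEf hEe hER
      have hEG : E ∈ D.G := U_le hEU
      have hgU : E⁻¹ * u ∈ D.U := D.U.mul_mem (D.U.inv_mem hEU) hu
      have hgG : E⁻¹ * u ∈ D.G := U_le hgU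
      have hge : mv (E⁻¹ * u) (sv (ei j)) = sv (ei j) := by
        rw [mv_mul, hue]
        conv_lhs => rw [← hEe]
        rw [mv_inv]
      have hgf : mv (E⁻¹ * u) (sv (fi j)) = sv (fi j) := by
        rw [mv_mul, ← hv, ← hEf, mv_inv]
      have hgF' : Fo ((j : ℕ) + 1) ((E⁻¹ * u : GL (Ix n a) F) : Matrix (Ix n a) (Ix n a) F) := by
        rw [Units.val_mul]
        exact Fo_mul (Fo_inv hEF) hF
      have hcol : ∀ x y : Ix n a, (y = ei j ∨ y = fi j) →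
          ((E⁻¹ * u : GL (Ix n a) F) : Matrix (Ix n a) (Ix n a) F) x y = (1 : Matrix (Ix n a) (Ix n a) F) x y := by
        rintro x y (rfl | rfl)
        · rw [mv_eq _ _ _ hge, sv, Pi.single_apply, Matrix.one_apply]
        · rw [mv_eq _ _ _ hgf, sv, Pi.single_apply, Matrix.one_apply]
      have hrow : ∀ x y : Ix n a, (x = ei j ∨ x = fi j) →
          ((E⁻¹ * u : GL (Ix n a) F) : Matrix (Ix n a) (Ix n a) F) x y = (1 : Matrix (Ix n a) (Ix n a) F) x y := by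
        rintro x y (rfl | rfl)
        · have h := B_mv hgG (sv (fi j)) (sv y)
          rw [hgf, B_f hep, B_f hep] at h
          rw [← mv_apply, h, sv, Pi.single_apply, Matrix.one_apply]
        · have h := B_mv hgG (sv (ei j)) (sv y)
          rw [hge, B_e, B_e] at h
          rw [← mv_apply, h, sv, Pi.single_apply, Matrix.one_apply]
      have hgF : Fo (j : ℕ) ((E⁻¹ * u : GL (Ix n a) F) : Matrix (Ix n a) (Ix n a) F) := by
        have hIn : ∀ x : Ix n a, In ((j : ℕ) + 1) x → ¬ In (j : ℕ) x → x = ei j ∨ x = fi j := by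
          rintro (⟨i, b⟩ | i) h1 h2
          · have h3 : (i : ℕ) < (j : ℕ) + 1 := h1
            have h4 : ¬ (i : ℕ) < (j : ℕ) := h2
            have h5 : i = j := Fin.ext (by omega)
            rw [h5]
            cases b
            · exact Or.inl rfl
            · exact Or.inr rfl
          · exact absurd trivial h2
        intro x y hxy
        by_cases h : In ((j : ℕ) + 1) x ∧ In ((j : ℕ) + 1) y
        · by_cases hx : In (j : ℕ) x
          · have hy : ¬ In (j : ℕ) y := fun hy => hxy ⟨hx, hy⟩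
            exact hcol x y (hIn y h.2 hy)
          · exact hrow x y (hIn x h.1 hx)
        · exact hgF' x y h
      have h9 := Subgroup.mul_mem _ hEc (ih (by omega) _ hgU hgF)
      rw [mul_inv_cancel_left] at h9
      exact h9
  intro u hu
  refine key n le_rfl u hu ?_
  intro x y hxy
  refine absurd ?_ hxy
  have hIn : ∀ x : Ix n a, In n x := by
    rintro (⟨i, b⟩ | i)
    · exact i.2
    · exact trivial
  exact ⟨hIn x, hIn y⟩

/-- a torus element in the commutator group -/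
theorem torS {S : Subgroup (GL (Ix n a) F)} (hTS : D.T ≤ S) (hPS : ∀ π : Perm (Fin n), D.hy (mo π 1) ∈ S)
    {x y : Fin n → Fˣ} (hx : ∀ i, D.τ (x i : F) = x i) {π : Perm (Fin n)}
    (hy : ∀ i, y i = x i * (x (π i))⁻¹) : D.tor y ∈ ⁅S, S⁆ := by
  have h1 : (mo 1 y : GL (Fin n) F) = ⁅(mo 1 x : GL (Fin n) F), mo π⁻¹ 1⁆ := by
    rw [commutatorElement_def, mo_inv, mo_inv, mo_mul, mo_mul, mo_mul]
    have h2 : (1 * π⁻¹ * 1⁻¹ * (π⁻¹)⁻¹ : Perm (Fin n)) = 1 := by group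
    rw [h2]
    congr 1
    funext i
    rw [hy]
    simp
  have h3 : D.tor y = ⁅D.tor x, D.hy (mo π⁻¹ 1)⁆ := by
    rw [FD.tor, h1, map_commutatorElement]
    rfl
  rw [h3]
  exact Subgroup.commutator_mem_commutator (hTS (tor_mem hx)) (hPS _)

end Eich

open F05_aux

section Op

variable {n : ℕ} {F : Type} [Field F] [Finite F]

theorem torT (h2 : (2 : F) ≠ 0) (x : Fin n → Fˣ) : (fOp n F h2).tor x ∈ (fOp n F h2).T :=
  tor_mem (fun _ => rfl)

theorem T_ex {h2 : (2 : F) ≠ 0} {t : GL (Ix n 0) F} (ht : t ∈ (fOp n F h2).T) :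
    ∃ x : Fin n → Fˣ, t = (fOp n F h2).tor x := by
  obtain ⟨x, -, hx⟩ := T_tor ht (fun j => j.elim0)
  exact ⟨x, hx⟩

omit [Finite F] in
theorem det_hyM {a : ℕ} (A A' : Matrix (Fin n) (Fin n) F) :
    (FD.hyM a A A').det = A.det * A'.det := by
  have h1 : FD.hyM a A A' = Matrix.fromBlocks
      (Matrix.blockDiagonal (fun b : Bool => if b = true then A' else A)) 0 0 1 := by
    ext x y
    rcases x with ⟨i, b⟩ | i <;> rcases y with ⟨j, b'⟩ | j
    · cases b <;> cases b' <;> simp [FD.hyM, Matrix.blockDiagonal_apply]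
    · cases b <;> simp [FD.hyM]
    · cases b' <;> simp [FD.hyM]
    · simp [FD.hyM, Matrix.one_apply]
  rw [h1, Matrix.det_fromBlocks_zero₂₁, Matrix.det_one, mul_one, Matrix.det_blockDiagonal]
  simp [mul_comm]

theorem det_hy (h2 : (2 : F) ≠ 0) (A : GL (Fin n) F) :
    (((fOp n F h2).hy A : GL (Ix n 0) F) : Matrix (Ix n 0) (Ix n 0) F).det = 1 := by
  rw [FD.hy_coe, det_hyM, Matrix.det_transpose]
  have h1 : (((A⁻¹ : GL (Fin n) F) : Matrix (Fin n) (Fin n) F).map (fOp n F h2).σ) =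
      ((A⁻¹ : GL (Fin n) F) : Matrix (Fin n) (Fin n) F) := by
    ext i j
    rfl
  rw [h1, ← Matrix.det_mul, ← Units.val_mul, mul_inv_cancel, Units.val_one, Matrix.det_one]

theorem hyG (h2 : (2 : F) ≠ 0) (A : GL (Fin n) F) : (fOp n F h2).hy A ∈ (fOp n F h2).G :=
  hy_mem (fun _ _ => rfl)

theorem detT {h2 : (2 : F) ≠ 0} {t : GL (Ix n 0) F} (ht : t ∈ (fOp n F h2).T) :
    (t : Matrix (Ix n 0) (Ix n 0) F).det = 1 := by
  obtain ⟨x, rfl⟩ := T_ex ht
  exact det_hy h2 _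

theorem detU {h2 : (2 : F) ≠ 0} {t : GL (Ix n 0) F} (ht : t ∈ (fOp n F h2).U) :
    (t : Matrix (Ix n 0) (Ix n 0) F).det = 1 := det_GS ht.2

theorem det_pos {h2 : (2 : F) ≠ 0} {l : Fin n} (hl : 0 < (l : ℕ)) :
    ((fOp n F h2).s l : Matrix (Ix n 0) (Ix n 0) F).det = 1 := by
  rw [s_pos hl]
  exact det_hy h2 _

theorem w0_zero {l : Fin n} (hl : (l : ℕ) = 0) : w0 n 0 = Equiv.swap (ei l) (fi l) := by
  ext x : 1
  rcases x with ⟨i, b⟩ | j
  · by_cases hi : (i : ℕ) = 0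
    · have h1 : i = l := Fin.ext (by rw [hi, hl])
      subst h1
      rw [w0_e hi]
      cases b
      · exact (Equiv.swap_apply_left _ _).symm
      · exact (Equiv.swap_apply_right _ _).symm
    · rw [w0_e' hi, Equiv.swap_apply_of_ne_of_ne]
      · intro h
        have h2 : (i, b) = (l, false) := Sum.inl_injective h
        exact hi (by rw [(Prod.mk.inj h2).1, hl])
      · intro h
        have h2 : (i, b) = (l, true) := Sum.inl_injective h
        exact hi (by rw [(Prod.mk.inj h2).1, hl])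
  · exact j.elim0

theorem det_zero {h2 : (2 : F) ≠ 0} {l : Fin n} (hl : (l : ℕ) = 0) :
    ((fOp n F h2).s l : Matrix (Ix n 0) (Ix n 0) F).det = -1 := by
  rw [s_zero hl, mo_det, prod_c0 rfl, w0_zero hl, Equiv.Perm.sign_swap (by intro h'; cases h')]
  norm_num

theorem neg_ne (h2 : (2 : F) ≠ 0) : (-1 : F) ≠ 1 := by
  intro h
  apply h2
  have h1 : (2 : F) = 1 - -1 := by ring
  rw [h1, h, sub_self]

theorem ss (h2 : (2 : F) ≠ 0) (k : Fin n) : (fOp n F h2).s k * (fOp n F h2).s k = 1 :=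
  s_sq_one rfl (Or.inl rfl) k

/-- the unit as a value -/
theorem un_val (x : Fˣ) : un (x : F) = x := by
  unfold un
  rw [dif_pos x.ne_zero]
  exact Units.mk0_val _ _

theorem glh_one (h2 : (2 : F) ≠ 0) {l : Fin n} (hl : 0 < (l : ℕ)) :
    (fOp n F h2).hy (glh l (un (1 : F))) = (fOp n F h2).tor (Function.update 1 (pr l) (-1)) := by
  have h1 : un (1 : F) = 1 := by
    have h := un_val (1 : Fˣ)
    rwa [Units.val_one] at h
  have h3 : (di l (1 : Fˣ) : GL (Fin n) F) = 1 := by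
    unfold di
    rw [Function.update_eq_self_iff.2 (by rfl), mo_one]
  have h4 : (glh l (1 : Fˣ) : GL (Fin n) F) = mo 1 (Function.update 1 (pr l) (-1)) := by
    unfold glh
    rw [if_pos hl, h3, one_mul, inv_one]
    rfl
  rw [h1, h4]
  rfl

/-- the values of characters of the group at the simple reflections -/
theorem l_pos (h2 : (2 : F) ≠ 0) {l : (fOp n F h2).G →* ℤˣ}
    (hl : ∀ (x : Fin n → Fˣ) (hx : ∀ i, (fOp n F h2).τ (x i : F) = x i),
        l ⟨(fOp n F h2).tor x, (tor_mem hx).1⟩ = ∏ i, ch (RingEquiv.refl F) (x i : F))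
    (hU : ∀ u (hu : u ∈ (fOp n F h2).U), l ⟨u, hu.1⟩ = 1) {i : Fin n} (hi : 0 < (i : ℕ)) :
    l ⟨(fOp n F h2).s i, s_mem i⟩ = ch (RingEquiv.refl F) (-1 : F) := by
  have hr : (fOp n F h2).hy (glr i (1 : F)) ∈ (fOp n F h2).R i := (R_pos hi).2 ⟨1, rfl, rfl⟩
  have hr1 : (fOp n F h2).hy (glr i (1 : F)) ≠ 1 := F15_aux.glr_ne hi
  obtain ⟨u, hu, u', hu', he⟩ := hU_pos hi hr hr1
  rw [hh_pos hi, glh_one h2 hi] at he
  have hrU := R_le i hr
  have huU := R_le i hu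
  have hu'U := R_le i hu'
  have hT := torT h2 (Function.update 1 (pr i) (-1 : Fˣ))
  have h3 : (⟨(fOp n F h2).s i, s_mem i⟩ * ⟨_, hrU.1⟩ * ⟨(fOp n F h2).s i, s_mem i⟩ : (fOp n F h2).G) =
      ⟨u, huU.1⟩ * (⟨(fOp n F h2).s i, s_mem i⟩ * ⟨_, hT.1⟩) * ⟨u', hu'U.1⟩ := Subtype.ext he
  have h4 := congrArg l h3
  rw [map_mul, map_mul, map_mul, map_mul, map_mul, hU _ hrU, hU _ huU, hU _ hu'U, mul_one, one_mul, mul_one,
    Int.units_mul_self] at h4
  have h5 := hl (Function.update 1 (pr i) (-1 : Fˣ)) (fun _ => rfl)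
  have h6 : l ⟨(fOp n F h2).tor (Function.update 1 (pr i) (-1 : Fˣ)), hT.1⟩ = ch (RingEquiv.refl F) (-1 : F) := by
    refine h5.trans ?_
    rw [Finset.prod_eq_single (pr i)]
    · rw [Function.update_self, Units.val_neg, Units.val_one]
    · intro j _ hj
      rw [Function.update_of_ne hj, Pi.one_apply, Units.val_one, ch_one]
    · intro h
      exact absurd (Finset.mem_univ _) h
  rw [h6] at h4
  have h7 : ch (RingEquiv.refl F) (-1 : F) * ch (RingEquiv.refl F) (-1 : F) = 1 := Int.units_mul_self _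
  calc _ = l ⟨(fOp n F h2).s i, s_mem i⟩ *
        (ch (RingEquiv.refl F) (-1 : F) * ch (RingEquiv.refl F) (-1 : F)) := by rw [h7, mul_one]
    _ = _ := by rw [← mul_assoc, ← h4, one_mul]

/-- characters of order two are trivial on the unipotent radical -/
theorem l_U (h2 : (2 : F) ≠ 0) (l : (fOp n F h2).G →* ℤˣ) (u : GL (Ix n 0) F) (hu : u ∈ (fOp n F h2).U) :
    l ⟨u, hu.1⟩ = 1 := by
  obtain ⟨p, hc, hp, ho⟩ := char_odd h2
  obtain ⟨k, hk⟩ := GS_pow hp hu.2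
  have h1 : (⟨u, hu.1⟩ : (fOp n F h2).G) ^ (p ^ k) = 1 := Subtype.ext (by
    rw [Subgroup.coe_pow, hk, Subgroup.coe_one])
  have h3 := congrArg l h1
  rw [map_pow, map_one] at h3
  rcases Int.units_eq_one_or (l ⟨u, hu.1⟩) with h | h
  · exact h
  · rw [h, (ho.pow).neg_one_pow] at h3
    exact absurd h3 (by decide)

end Op

section Re

variable {n : ℕ} {F : Type} [Field F] [Finite F]

/-- the product of the characters of the coordinates -/
def cp (x : Fin n → Fˣ) : ℤˣ := ∏ i, ch (RingEquiv.refl F) (x i : F)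

theorem ch_mul' (h2 : (2 : F) ≠ 0) (x y : Fˣ) : ch (RingEquiv.refl F) ((x * y : Fˣ) : F) =
    ch (RingEquiv.refl F) (x : F) * ch (RingEquiv.refl F) (y : F) := by
  rw [Units.val_mul]
  exact ch_mul h2 rfl x.ne_zero rfl y.ne_zero

theorem cp_mul (h2 : (2 : F) ≠ 0) (x y : Fin n → Fˣ) : cp (x * y) = cp x * cp y := by
  unfold cp
  rw [← Finset.prod_mul_distrib]
  exact Finset.prod_congr rfl fun i _ => ch_mul' h2 _ _

theorem cp_one : cp (1 : Fin n → Fˣ) = 1 := by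
  unfold cp
  exact Finset.prod_eq_one fun i _ => ch_one

theorem cp_single (i : Fin n) (x : Fˣ) : cp (Pi.mulSingle i x : Fin n → Fˣ) =
    ch (RingEquiv.refl F) (x : F) := by
  unfold cp
  rw [Finset.prod_eq_single i]
  · rw [Pi.mulSingle_eq_same]
  · intro j _ hj
    rw [Pi.mulSingle_eq_of_ne hj, Units.val_one, ch_one]
  · intro h
    exact absurd (Finset.mem_univ _) h

theorem cp_h (h2 : (2 : F) ≠ 0) (i j : Fin n) (x : Fˣ) :
    cp (Pi.mulSingle i x * Pi.mulSingle j x⁻¹ : Fin n → Fˣ) = 1 := by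
  rw [cp_mul h2, cp_single, cp_single, ← ch_mul' h2, mul_inv_cancel, Units.val_one, ch_one]

theorem cp_d (h2 : (2 : F) ≠ 0) (i : Fin n) (x : Fˣ) : cp (Pi.mulSingle i (x ^ 2) : Fin n → Fˣ) = 1 := by
  rw [cp_single, pow_two, ch_mul' h2]
  exact Int.units_mul_self _

theorem ch_prod' (h2 : (2 : F) ≠ 0) (x : Fin n → Fˣ) :
    ch (RingEquiv.refl F) ((∏ i, x i : Fˣ) : F) = cp x := by
  unfold cp
  have h : ∀ s : Finset (Fin n), ch (RingEquiv.refl F) ((∏ i ∈ s, x i : Fˣ) : F) =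
      ∏ i ∈ s, ch (RingEquiv.refl F) (x i : F) := by
    intro s
    induction s using Finset.induction_on with
    | empty => rw [Finset.prod_empty, Finset.prod_empty, Units.val_one, ch_one]
    | insert a s ha ih => rw [Finset.prod_insert ha, Finset.prod_insert ha, ch_mul' h2, ih]
  exact h _

omit [Finite F] in
theorem ch_sqr {x : Fˣ} (h : ch (RingEquiv.refl F) (x : F) = 1) : ∃ y : Fˣ, x = y ^ 2 := by
  unfold ch at h
  by_cases h1 : ∃ y, RingEquiv.refl F y = y ∧ y * y = (x : F)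
  · obtain ⟨y, -, hy⟩ := h1
    have h0 : y ≠ 0 := by
      rintro rfl
      rw [mul_zero] at hy
      exact x.ne_zero hy.symm
    refine ⟨Units.mk0 y h0, Units.ext ?_⟩
    rw [Units.val_pow_eq_pow_val, Units.val_mk0, pow_two, hy]
  · rw [if_neg h1] at h
    exact absurd h (by decide)

theorem prod_sq (h2 : (2 : F) ≠ 0) {x : Fin n → Fˣ} (hx : cp x = 1) : ∃ y : Fˣ, ∏ i, x i = y ^ 2 := by
  apply ch_sqr
  rw [ch_prod' h2, hx]

omit [Finite F] in
theorem decomp (x : Fin n → Fˣ) (k : Fin n) :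
    x = (∏ i, (Pi.mulSingle i (x i) * Pi.mulSingle k (x i)⁻¹ : Fin n → Fˣ)) *
      Pi.mulSingle k (∏ i, x i) := by
  rw [Finset.prod_mul_distrib, Finset.univ_prod_mulSingle]
  have h1 : (∏ i, (Pi.mulSingle k (x i)⁻¹ : Fin n → Fˣ)) = Pi.mulSingle k (∏ i, x i)⁻¹ := by
    rw [← Finset.prod_inv_distrib]
    exact (map_prod (MonoidHom.mulSingle (fun _ : Fin n => Fˣ) k) (fun i => (x i)⁻¹) Finset.univ).symm
  rw [h1, mul_assoc, ← Pi.mulSingle_mul, inv_mul_cancel, Pi.mulSingle_one, mul_one]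

theorem hom' (h2 : (2 : F) ≠ 0) {g : Fˣ → ℤˣ} (hg : ∀ x y, g (x * y) = g x * g y) :
    (∀ x, g x = 1) ∨ ∀ x, g x = ch (RingEquiv.refl F) (x : F) := by
  have hun : ∀ x : Fˣ, un (x : F) = x := by
    intro x
    unfold un
    rw [dif_pos x.ne_zero]
    exact Units.mk0_val _ _
  have key := ch_hom (τ := RingEquiv.refl F) h2 (f := fun x => g (un x)) (by
    intro x y _ hx _ hy
    have h1 := hun (Units.mk0 x hx * Units.mk0 y hy)
    rw [Units.val_mul, Units.val_mk0, Units.val_mk0] at h1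
    have h3 := hun (Units.mk0 x hx)
    have h4 := hun (Units.mk0 y hy)
    rw [Units.val_mk0] at h3 h4
    show g (un (x * y)) = g (un x) * g (un y)
    rw [h1, h3, h4, hg])
  rcases key with h | h
  · left
    intro x
    have h1 := h (x : F) rfl x.ne_zero
    rw [← h1]
    show g x = g (un (x : F))
    rw [hun]
  · right
    intro x
    have h1 := h (x : F) rfl x.ne_zero
    rw [← h1]
    show g x = g (un (x : F))
    rw [hun]

theorem NN_T {h2 : (2 : F) ≠ 0} {m : GL (Ix n 0) F}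
    (hm : m ∈ NN (fOp n F h2).s (fOp n F h2).T) {t : GL (Ix n 0) F} (ht : t ∈ (fOp n F h2).T) :
    m⁻¹ * t * m ∈ (fOp n F h2).T := by
  obtain ⟨w, hw, c, rfl⟩ := NN_mo hm
  have hG := NN_le hm
  exact ⟨(fOp n F h2).G.mul_mem ((fOp n F h2).G.mul_mem ((fOp n F h2).G.inv_mem hG) ht.1) hG,
    (mo_conj_DG w c ht.2).2⟩

theorem conj_ex {h2 : (2 : F) ≠ 0} {w : Perm (Ix n 0)} {c : Ix n 0 → Fˣ}
    (hm : mo w c ∈ NN (fOp n F h2).s (fOp n F h2).T) (x : Fin n → Fˣ) :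
    ∃ y : Fin n → Fˣ, (mo w c)⁻¹ * (fOp n F h2).tor x * mo w c = (fOp n F h2).tor y ∧
      ∀ i, (y i : F) = ((fOp n F h2).tor x : Matrix (Ix n 0) (Ix n 0) F) (w (ei i)) (w (ei i)) := by
  obtain ⟨y, hy⟩ := T_ex (NN_T hm (torT h2 x))
  refine ⟨y, hy, fun i => ?_⟩
  rw [← tor_e (D := fOp n F h2) y i, ← hy, mo_conj, mul_right_comm, Units.inv_mul, one_mul]

omit [Finite F] in
theorem s_NN (h2 : (2 : F) ≠ 0) (k : Fin n) :
    (fOp n F h2).s k ∈ NN (fOp n F h2).s (fOp n F h2).T := by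
  unfold NN
  exact Subgroup.subset_closure (Or.inl ⟨k, rfl⟩)

theorem s0_conj {h2 : (2 : F) ≠ 0} {k : Fin n} (hk : (k : ℕ) = 0) (x : Fin n → Fˣ) :
    ((fOp n F h2).s k)⁻¹ * (fOp n F h2).tor x * (fOp n F h2).s k =
      (fOp n F h2).tor (Function.update x k (x k)⁻¹) := by
  have h1 := s_NN h2 k
  rw [s_mo] at h1 ⊢
  obtain ⟨y, hy, hy'⟩ := conj_ex h1 x
  rw [hy]
  congr 1
  funext i
  apply Units.ext
  rw [hy' i]
  obtain ⟨w1, w2, w3, w4⟩ := ws_0 (a := 0) hk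
  by_cases hi : i = k
  · rw [hi, w1, tor_f, Function.update_self, Units.val_inv_eq_inv_val]
    rfl
  · rw [(w3 i hi).1, tor_e, Function.update_of_ne hi]

theorem s1_conj {h2 : (2 : F) ≠ 0} {k : Fin n} (hk : 0 < (k : ℕ)) (x : Fin n → Fˣ) :
    ((fOp n F h2).s k)⁻¹ * (fOp n F h2).tor x * (fOp n F h2).s k =
      (fOp n F h2).tor (fun i => x (Equiv.swap (pr k) k i)) := by
  have h1 := s_NN h2 k
  rw [s_mo] at h1 ⊢
  obtain ⟨y, hy, hy'⟩ := conj_ex h1 x
  rw [hy]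
  congr 1
  funext i
  apply Units.ext
  rw [hy' i, (ws_e hk i).1, tor_e]

theorem tor_off (h2 : (2 : F) ≠ 0) (k : Fin n) (d : Fˣ) {z : Ix n 0} (h1 : z ≠ ei k) (h3 : z ≠ fi k) :
    ((fOp n F h2).tor (Pi.mulSingle k d : Fin n → Fˣ) : Matrix (Ix n 0) (Ix n 0) F) z z = 1 := by
  rcases z with ⟨i, _ | _⟩ | j
  · have hi : i ≠ k := by
      rintro rfl
      exact h1 rfl
    show ((fOp n F h2).tor (Pi.mulSingle k d : Fin n → Fˣ) : Matrix (Ix n 0) (Ix n 0) F) (ei i) (ei i) = 1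
    rw [tor_e, Pi.mulSingle_eq_of_ne hi, Units.val_one]
  · have hi : i ≠ k := by
      rintro rfl
      exact h3 rfl
    show ((fOp n F h2).tor (Pi.mulSingle k d : Fin n → Fˣ) : Matrix (Ix n 0) (Ix n 0) F) (fi i) (fi i) = 1
    rw [tor_f, Pi.mulSingle_eq_of_ne hi, Units.val_one, map_one, inv_one]
  · exact j.elim0

theorem m_conj (h2 : (2 : F) ≠ 0) {k : Fin n} {w : Perm (Ix n 0)} {c : Ix n 0 → Fˣ} (hw : w ∈ WP n 0)
    (hm : mo w c ∈ NN (fOp n F h2).s (fOp n F h2).T) (Y : Fˣ) :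
    ∃ (i : Fin n) (Z : Fˣ), (Z = Y ∨ Z = Y⁻¹) ∧
      (mo w c)⁻¹ * (fOp n F h2).tor (Pi.mulSingle k (Y ^ 2) : Fin n → Fˣ) * mo w c =
        (fOp n F h2).tor (Pi.mulSingle i (Z ^ 2) : Fin n → Fˣ) := by
  obtain ⟨y, hy, hy'⟩ := conj_ex hm (Pi.mulSingle k (Y ^ 2) : Fin n → Fˣ)
  have hdu : ∀ i : Fin n, du (ei i : Ix n 0) = fi i := fun i => rfl
  have hdu' : ∀ i : Fin n, du (fi i : Ix n 0) = ei i := fun i => rfl
  have key : ∀ (i0 : Fin n) (Z : Fˣ), (y i0 : F) = ((Z ^ 2 : Fˣ) : F) →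
      (∀ i, i ≠ i0 → w (ei i) ≠ ei k ∧ w (ei i) ≠ fi k) → y = Pi.mulSingle i0 (Z ^ 2) := by
    intro i0 Z h1 h3
    funext i
    apply Units.ext
    by_cases hi : i = i0
    · rw [hi, Pi.mulSingle_eq_same, h1]
    · rw [Pi.mulSingle_eq_of_ne hi, Units.val_one, hy']
      exact tor_off h2 k _ (h3 i hi).1 (h3 i hi).2
  have hwp : w (w.symm (ei k)) = ei k := w.apply_symm_apply _
  rcases hp : w.symm (ei k) with ⟨i0, _ | _⟩ | j
  · rw [hp] at hwp
    have e1 : w (ei i0) = ei k := hwp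
    have e2 : w (fi i0) = fi k := by
      rw [← hdu, hw.1, e1, hdu]
    refine ⟨i0, Y, Or.inl rfl, ?_⟩
    rw [hy]
    congr 1
    refine key i0 Y ?_ ?_
    · rw [hy', e1, tor_e, Pi.mulSingle_eq_same]
    · intro i hi
      constructor
      · intro h
        rw [← e1] at h
        apply hi
        have h3 := w.injective h
        simpa [ei] using h3
      · intro h
        rw [← e2] at h
        have h3 := w.injective h
        simp [ei, fi] at h3
  · rw [hp] at hwp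
    have e1 : w (fi i0) = ei k := hwp
    have e2 : w (ei i0) = fi k := by
      rw [← hdu', hw.1, e1, hdu]
    refine ⟨i0, Y⁻¹, Or.inr rfl, ?_⟩
    rw [hy]
    congr 1
    refine key i0 Y⁻¹ ?_ ?_
    · rw [hy', e2, tor_f, Pi.mulSingle_eq_same, inv_pow, Units.val_inv_eq_inv_val]
      rfl
    · intro i hi
      constructor
      · intro h
        rw [← e1] at h
        have h3 := w.injective h
        simp [ei, fi] at h3
      · intro h
        rw [← e2] at h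
        apply hi
        have h3 := w.injective h
        simpa [ei] using h3
  · exact j.elim0

theorem re_aux (hn : 3 ≤ n) (h2 : (2 : F) ≠ 0) {HH : Subgroup (GL (Ix n 0) F)}
    (hS : ∀ x : Fin n → Fˣ, (fOp n F h2).tor x ∈ HH ↔ cp x = 1)
    (hN : ∀ g ∈ (fOp n F h2).G, ∀ h ∈ HH, g * h * g⁻¹ ∈ HH) (f : GL (Ix n 0) F → ℤˣ)
    (hf : ∀ x ∈ (fOp n F h2).T ⊓ HH, ∀ y ∈ (fOp n F h2).T ⊓ HH, f (x * y) = f x * f y) :
    (∃ a' : Fin n → Bool, ∀ x ∈ (fOp n F h2).T ⊓ HH, f x = (fOp n F h2).th a' x) ∨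
      ∀ m ∈ NN (fOp n F h2).s (fOp n F h2).T, ∀ i j : Fin n, (i : ℕ) = 0 → (j : ℕ) = 1 →
        (∃ x ∈ (fOp n F h2).T ⊓ HH, f (m⁻¹ * (((fOp n F h2).s j)⁻¹ * x * (fOp n F h2).s j) * m) ≠
          f (m⁻¹ * x * m)) ∨
        ∃ x ∈ (fOp n F h2).T ⊓ HH, f (m⁻¹ * (((fOp n F h2).s i * (fOp n F h2).s j * (fOp n F h2).s i)⁻¹ *
          x * ((fOp n F h2).s i * (fOp n F h2).s j * (fOp n F h2).s i)) * m) ≠ f (m⁻¹ * x * m) := by
  have k : Fin n := ⟨0, by omega⟩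
  have hφ : ∀ x y : Fin n → Fˣ, cp x = 1 → cp y = 1 → f ((fOp n F h2).tor (x * y)) =
      f ((fOp n F h2).tor x) * f ((fOp n F h2).tor y) := by
    intro x y hx hy
    rw [tor_mul]
    exact hf _ ⟨torT h2 x, (hS x).2 hx⟩ _ ⟨torT h2 y, (hS y).2 hy⟩
  have hφ1 : f ((fOp n F h2).tor 1) = 1 := by
    have h1 := hφ 1 1 cp_one cp_one
    rw [mul_one] at h1
    exact (left_eq_mul.1 h1)
  have hprod : ∀ (s : Finset (Fin n)) (X : Fin n → (Fin n → Fˣ)), (∀ i, cp (X i) = 1) →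
      cp (∏ i ∈ s, X i) = 1 ∧ f ((fOp n F h2).tor (∏ i ∈ s, X i)) = ∏ i ∈ s, f ((fOp n F h2).tor (X i)) := by
    intro s X hX
    induction s using Finset.induction_on with
    | empty => exact ⟨by rw [Finset.prod_empty, cp_one], by rw [Finset.prod_empty, Finset.prod_empty, hφ1]⟩
    | insert a s ha ih =>
      refine ⟨?_, ?_⟩
      · rw [Finset.prod_insert ha, cp_mul h2, hX a, ih.1, mul_one]
      · rw [Finset.prod_insert ha, Finset.prod_insert ha, hφ _ _ (hX a) ih.1, ih.2]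
  have hg : ∀ (i : Fin n) (x y : Fˣ),
      f ((fOp n F h2).tor (Pi.mulSingle i (x * y) * Pi.mulSingle k (x * y)⁻¹ : Fin n → Fˣ)) =
      f ((fOp n F h2).tor (Pi.mulSingle i x * Pi.mulSingle k x⁻¹ : Fin n → Fˣ)) *
      f ((fOp n F h2).tor (Pi.mulSingle i y * Pi.mulSingle k y⁻¹ : Fin n → Fˣ)) := by
    intro i x y
    rw [← hφ _ _ (cp_h h2 i k x) (cp_h h2 i k y), mul_inv, Pi.mulSingle_mul, Pi.mulSingle_mul]
    congr 2
    exact mul_mul_mul_comm _ _ _ _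
  have hψ : ∀ x y : Fˣ, f ((fOp n F h2).tor (Pi.mulSingle k ((x * y) ^ 2) : Fin n → Fˣ)) =
      f ((fOp n F h2).tor (Pi.mulSingle k (x ^ 2) : Fin n → Fˣ)) *
      f ((fOp n F h2).tor (Pi.mulSingle k (y ^ 2) : Fin n → Fˣ)) := by
    intro x y
    rw [← hφ _ _ (cp_d h2 k x) (cp_d h2 k y), mul_pow, Pi.mulSingle_mul]
  rcases hom' h2 (g := fun x => f ((fOp n F h2).tor (Pi.mulSingle k (x ^ 2) : Fin n → Fˣ))) hψ with h | h
  · left
    refine ⟨fun i => decide (∃ x : Fˣ, f ((fOp n F h2).tor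
      (Pi.mulSingle i x * Pi.mulSingle k x⁻¹ : Fin n → Fˣ)) ≠ 1), ?_⟩
    rintro t ⟨ht, htH⟩
    obtain ⟨x, rfl⟩ := T_ex ht
    obtain ⟨y, hy⟩ := prod_sq h2 ((hS x).1 htH)
    rw [th_tor]
    have h1 := decomp x k
    rw [hy] at h1
    rw [show f ((fOp n F h2).tor x) = f ((fOp n F h2).tor
      ((∏ i, (Pi.mulSingle i (x i) * Pi.mulSingle k (x i)⁻¹ : Fin n → Fˣ)) * Pi.mulSingle k (y ^ 2))) by
        rw [← h1], hφ _ _ (hprod _ _ (fun i => cp_h h2 i k _)).1 (cp_d h2 k y),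
      (hprod _ _ (fun i => cp_h h2 i k _)).2, h y, mul_one]
    refine Finset.prod_congr rfl fun i _ => ?_
    by_cases hi : ∃ x : Fˣ, f ((fOp n F h2).tor (Pi.mulSingle i x * Pi.mulSingle k x⁻¹ : Fin n → Fˣ)) ≠ 1
    · rw [if_pos (decide_eq_true hi)]
      rcases hom' h2 (g := fun x => f ((fOp n F h2).tor
        (Pi.mulSingle i x * Pi.mulSingle k x⁻¹ : Fin n → Fˣ))) (hg i) with h3 | h3
      · obtain ⟨x', hx'⟩ := hi
        exact absurd (h3 x') hx'
      · exact h3 (x i)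
    · rw [if_neg (fun h3 => hi (of_decide_eq_true h3))]
      by_contra h3
      exact hi ⟨x i, h3⟩
  · right
    intro m hm i j hi hj
    by_contra hcon
    push Not at hcon
    obtain ⟨hA, hB⟩ := hcon
    obtain ⟨y, -, hy0, hy⟩ := exists_ch h2 (RingEquiv.refl F)
    obtain ⟨Y, hY⟩ : ∃ Y : Fˣ, (Y : F) = y := ⟨Units.mk0 y hy0, rfl⟩
    have hYc : ch (RingEquiv.refl F) (Y : F) = -1 := by rw [hY, hy]
    have hYi : ch (RingEquiv.refl F) ((Y⁻¹ : Fˣ) : F) = -1 := by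
      rw [Units.val_inv_eq_inv_val, ch_inv h2 rfl, hYc]
    obtain ⟨e, he⟩ : ∃ e : Fin n, (e : ℕ) = 2 := ⟨⟨2, by omega⟩, rfl⟩
    have hij : i ≠ j := fun h => by
      rw [h, hj] at hi
      exact absurd hi (by decide)
    have hie : i ≠ e := fun h => by
      rw [h, he] at hi
      exact absurd hi (by decide)
    have hje : j ≠ e := fun h => by
      rw [h, he] at hj
      exact absurd hj (by decide)
    have hpj : pr j = i := Fin.ext (by
      show (j : ℕ) - 1 = (i : ℕ)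
      omega)
    obtain ⟨w, hw, c, rfl⟩ := NN_mo hm
    have hmG := NN_le hm
    -- values of the vectors
    have v0 : ∀ (i e : Fin n) (x y : Fˣ), i ≠ e → (Pi.mulSingle i x * Pi.mulSingle e y : Fin n → Fˣ) i = x := by
      intro i e x y hie
      rw [Pi.mul_apply, Pi.mulSingle_eq_same, Pi.mulSingle_eq_of_ne hie, mul_one]
    have v1 : ∀ (i e : Fin n) (x y : Fˣ), i ≠ e → (Pi.mulSingle i x * Pi.mulSingle e y : Fin n → Fˣ) e = y := by
      intro i e x y hie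
      rw [Pi.mul_apply, Pi.mulSingle_eq_same, Pi.mulSingle_eq_of_ne hie.symm, one_mul]
    have v2 : ∀ (i e l : Fin n) (x y : Fˣ), l ≠ i → l ≠ e →
        (Pi.mulSingle i x * Pi.mulSingle e y : Fin n → Fˣ) l = 1 := by
      intro i e l x y h1 h3
      rw [Pi.mul_apply, Pi.mulSingle_eq_of_ne h1, Pi.mulSingle_eq_of_ne h3, mul_one]
    have sw : ∀ x y : Fˣ, (fun l => (Pi.mulSingle i x * Pi.mulSingle e y : Fin n → Fˣ) (Equiv.swap (pr j) j l)) =
        (Pi.mulSingle j x * Pi.mulSingle e y : Fin n → Fˣ) := by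
      intro x y
      funext l
      rw [hpj]
      by_cases h1 : l = i
      · rw [h1, Equiv.swap_apply_left, v2 i e j x y hij.symm hje, v2 j e i x y hij hie]
      by_cases h3 : l = j
      · rw [h3, Equiv.swap_apply_right, v0 i e x y hie, v0 j e x y hje]
      · rw [Equiv.swap_apply_of_ne_of_ne h1 h3, Pi.mul_apply, Pi.mul_apply, Pi.mulSingle_eq_of_ne h1,
          Pi.mulSingle_eq_of_ne h3]
    have c1 : ∀ x y : Fˣ, ((fOp n F h2).s j)⁻¹ * (fOp n F h2).tor (Pi.mulSingle i x * Pi.mulSingle e y : Fin n → Fˣ) *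
        (fOp n F h2).s j = (fOp n F h2).tor (Pi.mulSingle j x * Pi.mulSingle e y : Fin n → Fˣ) := by
      intro x y
      rw [s1_conj (by omega), sw]
    have c0 : ((fOp n F h2).s i)⁻¹ * (fOp n F h2).tor (Pi.mulSingle i Y * Pi.mulSingle e Y⁻¹ : Fin n → Fˣ) *
        (fOp n F h2).s i = (fOp n F h2).tor (Pi.mulSingle i Y⁻¹ * Pi.mulSingle e Y⁻¹ : Fin n → Fˣ) := by
      rw [s0_conj hi]
      congr 1
      funext l
      by_cases h1 : l = i
      · rw [h1, Function.update_self, v0 i e _ _ hie, v0 i e _ _ hie]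
      · rw [Function.update_of_ne h1, Pi.mul_apply, Pi.mul_apply, Pi.mulSingle_eq_of_ne h1,
          Pi.mulSingle_eq_of_ne h1]
    have c2 : ((fOp n F h2).s i)⁻¹ * (fOp n F h2).tor (Pi.mulSingle j Y⁻¹ * Pi.mulSingle e Y⁻¹ : Fin n → Fˣ) *
        (fOp n F h2).s i = (fOp n F h2).tor (Pi.mulSingle j Y⁻¹ * Pi.mulSingle e Y⁻¹ : Fin n → Fˣ) := by
      rw [s0_conj hi]
      congr 1
      funext l
      by_cases h1 : l = i
      · rw [h1, Function.update_self, v2 j e i _ _ hij hie, inv_one]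
      · rw [Function.update_of_ne h1]
    have cc : ((fOp n F h2).s i * (fOp n F h2).s j * (fOp n F h2).s i)⁻¹ *
        (fOp n F h2).tor (Pi.mulSingle i Y * Pi.mulSingle e Y⁻¹ : Fin n → Fˣ) *
        ((fOp n F h2).s i * (fOp n F h2).s j * (fOp n F h2).s i) =
        (fOp n F h2).tor (Pi.mulSingle j Y⁻¹ * Pi.mulSingle e Y⁻¹ : Fin n → Fˣ) := by
      have h1 : ((fOp n F h2).s i * (fOp n F h2).s j * (fOp n F h2).s i)⁻¹ *
        (fOp n F h2).tor (Pi.mulSingle i Y * Pi.mulSingle e Y⁻¹ : Fin n → Fˣ) *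
        ((fOp n F h2).s i * (fOp n F h2).s j * (fOp n F h2).s i) =
        ((fOp n F h2).s i)⁻¹ * (((fOp n F h2).s j)⁻¹ * (((fOp n F h2).s i)⁻¹ *
          (fOp n F h2).tor (Pi.mulSingle i Y * Pi.mulSingle e Y⁻¹ : Fin n → Fˣ) * (fOp n F h2).s i) *
          (fOp n F h2).s j) * (fOp n F h2).s i := by group
      rw [h1, c0, c1, c2]
    have hX0 : (fOp n F h2).tor (Pi.mulSingle i Y * Pi.mulSingle e Y⁻¹ : Fin n → Fˣ) ∈ (fOp n F h2).T ⊓ HH :=
      ⟨torT h2 _, (hS _).2 (cp_h h2 i e Y)⟩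
    have hA1 := hA _ hX0
    have hB1 := hB _ hX0
    rw [c1] at hA1
    rw [cc] at hB1
    have hconjH : ∀ x : Fin n → Fˣ, cp x = 1 → (mo w c)⁻¹ * (fOp n F h2).tor x * mo w c ∈
        (fOp n F h2).T ⊓ HH := by
      intro x hx
      refine ⟨NN_T hm (torT h2 x), ?_⟩
      have h3 := hN (mo w c)⁻¹ ((fOp n F h2).G.inv_mem hmG) _ ((hS x).2 hx)
      rw [inv_inv] at h3
      exact h3
    have e1 : (Pi.mulSingle j Y * Pi.mulSingle e Y⁻¹ : Fin n → Fˣ) =
        (Pi.mulSingle j Y⁻¹ * Pi.mulSingle e Y⁻¹) * Pi.mulSingle j (Y ^ 2) := by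
      rw [mul_right_comm, ← Pi.mulSingle_mul, pow_two, inv_mul_cancel_left]
    have hc2 : cp (Pi.mulSingle j Y⁻¹ * Pi.mulSingle e Y⁻¹ : Fin n → Fˣ) = 1 := by
      rw [cp_mul h2, cp_single, cp_single, hYi]
      decide
    have e2 : (mo w c)⁻¹ * (fOp n F h2).tor (Pi.mulSingle j Y * Pi.mulSingle e Y⁻¹ : Fin n → Fˣ) * mo w c =
        ((mo w c)⁻¹ * (fOp n F h2).tor (Pi.mulSingle j Y⁻¹ * Pi.mulSingle e Y⁻¹ : Fin n → Fˣ) * mo w c) *
        ((mo w c)⁻¹ * (fOp n F h2).tor (Pi.mulSingle j (Y ^ 2) : Fin n → Fˣ) * mo w c) := by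
      rw [e1, tor_mul]
      simp only [mul_assoc, mul_inv_cancel_left]
    rw [e2, hf _ (hconjH _ hc2) _ (hconjH _ (cp_d h2 j Y)), hB1] at hA1
    obtain ⟨i', Z, hZ, hiZ⟩ := m_conj h2 (k := j) hw hm Y
    have hZc : ch (RingEquiv.refl F) (Z : F) = -1 := by
      rcases hZ with hZ | hZ
      · rw [hZ, hYc]
      · rw [hZ, hYi]
    have h4 : f ((fOp n F h2).tor (Pi.mulSingle i' (Z ^ 2) : Fin n → Fˣ)) = -1 := by
      have h5 : (Pi.mulSingle i' (Z ^ 2) : Fin n → Fˣ) =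
          (Pi.mulSingle i' (Z * Z) * Pi.mulSingle k (Z * Z)⁻¹) * Pi.mulSingle k (Z ^ 2) := by
        rw [mul_assoc, ← Pi.mulSingle_mul, ← pow_two, inv_mul_cancel, Pi.mulSingle_one, mul_one]
      rw [h5, hφ _ _ (cp_h h2 i' k _) (cp_d h2 k Z), hg i' Z Z, Int.units_mul_self, one_mul, h Z, hZc]
    rw [hiZ, h4] at hA1
    have h7 : (-1 : ℤˣ) = 1 := mul_eq_left.1 hA1
    exact absurd h7 (by decide)

end Re

section Comm

open scoped commutatorElement

variable {n : ℕ} {F : Type} [Field F] [Finite F]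

/-- the elements of determinant one -/
abbrev SS (n : ℕ) (F : Type) [Field F] (h2 : (2 : F) ≠ 0) : Subgroup (GL (Ix n 0) F) :=
  (fOp n F h2).G ⊓ DT (Ix n 0) F

theorem U_SS (h2 : (2 : F) ≠ 0) : (fOp n F h2).U ≤ SS n F h2 := fun _ hu => ⟨hu.1, mem_DT.2 (detU hu)⟩

theorem T_SS (h2 : (2 : F) ≠ 0) : (fOp n F h2).T ≤ SS n F h2 := fun _ ht => ⟨ht.1, mem_DT.2 (detT ht)⟩

theorem hy_SS (h2 : (2 : F) ≠ 0) (A : GL (Fin n) F) : (fOp n F h2).hy A ∈ SS n F h2 :=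
  ⟨hyG h2 A, mem_DT.2 (det_hy h2 A)⟩

omit [Finite F] in
theorem comm_N (h2 : (2 : F) ≠ 0) : ∀ g ∈ (fOp n F h2).G, ∀ h ∈ ⁅SS n F h2, SS n F h2⁆,
    g * h * g⁻¹ ∈ ⁅SS n F h2, SS n F h2⁆ := by
  intro g hg h hh
  have h1 : (⁅SS n F h2, SS n F h2⁆).map (MulAut.conj g).toMonoidHom ≤ ⁅SS n F h2, SS n F h2⁆ := by
    rw [Subgroup.map_commutator]
    have h3 : (SS n F h2).map (MulAut.conj g).toMonoidHom ≤ SS n F h2 := by
      rintro _ ⟨x, hx, rfl⟩
      refine ⟨(fOp n F h2).G.mul_mem ((fOp n F h2).G.mul_mem hg hx.1) ((fOp n F h2).G.inv_mem hg), ?_⟩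
      exact (MonoidHom.normal_ker (Matrix.GeneralLinearGroup.det : GL (Ix n 0) F →* Fˣ)).conj_mem x hx.2 g
    exact Subgroup.commutator_mono h3 h3
  exact h1 ⟨h, hh, rfl⟩

/-- the coordinates of the torus elements in the commutator group -/
def TC (n : ℕ) (F : Type) [Field F] [Finite F] (h2 : (2 : F) ≠ 0) : Subgroup (Fin n → Fˣ) :=
  Subgroup.comap (MonoidHom.mk' (fOp n F h2).tor (fun x y => tor_mul x y)) ⁅SS n F h2, SS n F h2⁆

theorem TC_mem {h2 : (2 : F) ≠ 0} {x : Fin n → Fˣ} : x ∈ TC n F h2 ↔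
    (fOp n F h2).tor x ∈ ⁅SS n F h2, SS n F h2⁆ := Iff.rfl

theorem TC_h (h2 : (2 : F) ≠ 0) (i j : Fin n) (x : Fˣ) :
    (Pi.mulSingle i x * Pi.mulSingle j x⁻¹ : Fin n → Fˣ) ∈ TC n F h2 := by
  by_cases hij : i = j
  · subst hij
    rw [← Pi.mulSingle_mul, mul_inv_cancel, Pi.mulSingle_one]
    exact one_mem _
  · rw [TC_mem]
    refine torS (T_SS h2) (fun π => hy_SS h2 _) (x := Pi.mulSingle i x) (π := Equiv.swap i j) (fun _ => rfl) ?_
    intro k
    rw [Pi.mul_apply]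
    congr 1
    by_cases h1 : k = j
    · rw [h1, Equiv.swap_apply_right, Pi.mulSingle_eq_same, Pi.mulSingle_eq_same]
    · rw [Pi.mulSingle_eq_of_ne h1]
      by_cases h3 : k = i
      · rw [h3, Equiv.swap_apply_left, Pi.mulSingle_eq_of_ne (Ne.symm hij), inv_one]
      · rw [Equiv.swap_apply_of_ne_of_ne h3 h1, Pi.mulSingle_eq_of_ne h3, inv_one]

theorem TC_upd {h2 : (2 : F) ≠ 0} {k : Fin n} (hk : (k : ℕ) = 0) {x : Fin n → Fˣ} (hx : x ∈ TC n F h2) :
    Function.update x k (x k)⁻¹ ∈ TC n F h2 := by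
  rw [TC_mem, ← s0_conj hk]
  have h := comm_N h2 ((fOp n F h2).s k)⁻¹ (inv_mem (s_mem k)) _ hx
  rw [inv_inv] at h
  exact h

theorem TC_d0 (h2 : (2 : F) ≠ 0) {k : Fin n} (hk : (k : ℕ) = 0) {j : Fin n} (hj : j ≠ k) (x : Fˣ) :
    (Pi.mulSingle k (x ^ 2) : Fin n → Fˣ) ∈ TC n F h2 := by
  have h1 := TC_h h2 k j x
  have h3 := mul_mem h1 (inv_mem (TC_upd hk h1))
  have e : (Pi.mulSingle k x * Pi.mulSingle j x⁻¹ : Fin n → Fˣ) *
      (Function.update (Pi.mulSingle k x * Pi.mulSingle j x⁻¹ : Fin n → Fˣ) k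
        ((Pi.mulSingle k x * Pi.mulSingle j x⁻¹ : Fin n → Fˣ) k)⁻¹)⁻¹ = Pi.mulSingle k (x ^ 2) := by
    funext i
    rw [Pi.mul_apply, Pi.inv_apply]
    by_cases hi : i = k
    · rw [hi, Function.update_self, inv_inv, Pi.mul_apply, Pi.mulSingle_eq_same, Pi.mulSingle_eq_same,
        Pi.mulSingle_eq_of_ne (Ne.symm hj), mul_one, pow_two]
    · rw [Function.update_of_ne hi, mul_inv_cancel, Pi.mulSingle_eq_of_ne hi]
  rw [e] at h3
  exact h3

theorem TC_all (hn : 3 ≤ n) (h2 : (2 : F) ≠ 0) {x : Fin n → Fˣ} (hx : cp x = 1) :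
    (fOp n F h2).tor x ∈ ⁅SS n F h2, SS n F h2⁆ := by
  rw [← TC_mem]
  obtain ⟨y, hy⟩ := prod_sq h2 hx
  have h1 := decomp x ⟨0, by omega⟩
  rw [hy] at h1
  rw [h1]
  refine mul_mem (prod_mem fun i _ => TC_h h2 i _ _) ?_
  exact TC_d0 h2 rfl (j := ⟨1, by omega⟩) (by simp [Fin.ext_iff]) y

/-- the group is generated by the commutator group, the torus and the first reflection -/
theorem dec (h2 : (2 : F) ≠ 0) {k : Fin n} (hk : (k : ℕ) = 0) {g : GL (Ix n 0) F}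
    (hg : g ∈ (fOp n F h2).G) : ∃ c ∈ ⁅SS n F h2, SS n F h2⁆, ∃ t ∈ (fOp n F h2).T,
      g = c * t ∨ g = c * t * (fOp n F h2).s k := by
  have hU : (fOp n F h2).U ≤ ⁅SS n F h2, SS n F h2⁆ :=
    U_commS (D := fOp n F h2) (fun _ => rfl) rfl (U_SS h2) (T_SS h2)
  have hC : ∀ c ∈ ⁅SS n F h2, SS n F h2⁆, ∀ g : GL (Ix n 0) F,
      (∃ c ∈ ⁅SS n F h2, SS n F h2⁆, ∃ t ∈ (fOp n F h2).T, g = c * t ∨ g = c * t * (fOp n F h2).s k) →
      ∃ c' ∈ ⁅SS n F h2, SS n F h2⁆, ∃ t ∈ (fOp n F h2).T, c * g = c' * t ∨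
        c * g = c' * t * (fOp n F h2).s k := by
    rintro c hc g ⟨c', hc', t, ht, h | h⟩
    · exact ⟨c * c', mul_mem hc hc', t, ht, Or.inl (by rw [h]; group)⟩
    · exact ⟨c * c', mul_mem hc hc', t, ht, Or.inr (by rw [h]; group)⟩
  have hT : ∀ x ∈ (fOp n F h2).T, ∀ g : GL (Ix n 0) F,
      (∃ c ∈ ⁅SS n F h2, SS n F h2⁆, ∃ t ∈ (fOp n F h2).T, g = c * t ∨ g = c * t * (fOp n F h2).s k) →
      ∃ c' ∈ ⁅SS n F h2, SS n F h2⁆, ∃ t ∈ (fOp n F h2).T, x * g = c' * t ∨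
        x * g = c' * t * (fOp n F h2).s k := by
    rintro x hx g ⟨c', hc', t, ht, h | h⟩
    · exact ⟨x * c' * x⁻¹, comm_N h2 x hx.1 c' hc', x * t, mul_mem hx ht, Or.inl (by rw [h]; group)⟩
    · exact ⟨x * c' * x⁻¹, comm_N h2 x hx.1 c' hc', x * t, mul_mem hx ht, Or.inr (by rw [h]; group)⟩
  have hs : ∀ (l : Fin n) (g : GL (Ix n 0) F),
      (∃ c ∈ ⁅SS n F h2, SS n F h2⁆, ∃ t ∈ (fOp n F h2).T, g = c * t ∨ g = c * t * (fOp n F h2).s k) →
      ∃ c' ∈ ⁅SS n F h2, SS n F h2⁆, ∃ t ∈ (fOp n F h2).T, (fOp n F h2).s l * g = c' * t ∨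
        (fOp n F h2).s l * g = c' * t * (fOp n F h2).s k := by
    intro l g hg
    rcases Nat.eq_zero_or_pos (l : ℕ) with hl | hl
    · have hlk : l = k := Fin.ext (by rw [hl, hk])
      subst hlk
      have hi : ((fOp n F h2).s l)⁻¹ = (fOp n F h2).s l := inv_eq_of_mul_eq_one_left (ss h2 l)
      obtain ⟨c', hc', t, ht, h | h⟩ := hg
      · refine ⟨_, comm_N h2 _ (s_mem l) c' hc', _, (s_T ht l).1, Or.inr ?_⟩
        rw [h]
        group
      · refine ⟨_, comm_N h2 _ (s_mem l) c' hc', _, (s_T ht l).1, Or.inl ?_⟩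
        rw [h]
        calc (fOp n F h2).s l * (c' * t * (fOp n F h2).s l) =
            (fOp n F h2).s l * c' * ((fOp n F h2).s l)⁻¹ * ((fOp n F h2).s l * t * (fOp n F h2).s l) := by group
          _ = _ := by rw [hi]
    · have hr : (fOp n F h2).hy (glr l (1 : F)) ∈ (fOp n F h2).R l := (R_pos hl).2 ⟨1, rfl, rfl⟩
      have hr1 : (fOp n F h2).hy (glr l (1 : F)) ≠ 1 := F15_aux.glr_ne hl
      obtain ⟨u, hu, u', hu', he⟩ := hU_pos hl hr hr1
      have hhT := hh_T hl hr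
      have hi : ((fOp n F h2).s l)⁻¹ = (fOp n F h2).s l := inv_eq_of_mul_eq_one_left (ss h2 l)
      have h1 : (fOp n F h2).s l * (fOp n F h2).hh l ((fOp n F h2).hy (glr l (1 : F))) ∈
          ⁅SS n F h2, SS n F h2⁆ := by
        have h3 : (fOp n F h2).s l * (fOp n F h2).hh l ((fOp n F h2).hy (glr l (1 : F))) =
            u⁻¹ * ((fOp n F h2).s l * (fOp n F h2).hy (glr l (1 : F)) * ((fOp n F h2).s l)⁻¹) * u'⁻¹ := by
          rw [hi, he]
          group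
        rw [h3]
        exact mul_mem (mul_mem (inv_mem (hU (R_le l hu))) (comm_N h2 _ (s_mem l) _ (hU (R_le l hr))))
          (inv_mem (hU (R_le l hu')))
      have h5 := hC _ h1 _ (hT _ (inv_mem hhT) g hg)
      rw [← mul_assoc, mul_inv_cancel_right] at h5
      exact h5
  have hg' : g ∈ (fOp n F h2).K := gen_K hg
  unfold FD.K at hg'
  refine Subgroup.closure_induction_left (p := fun g _ => ∃ c ∈ ⁅SS n F h2, SS n F h2⁆,
    ∃ t ∈ (fOp n F h2).T, g = c * t ∨ g = c * t * (fOp n F h2).s k) ?_ ?_ ?_ hg'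
  · exact ⟨1, one_mem _, 1, one_mem _, Or.inl (mul_one 1).symm⟩
  · rintro x ((hx | hx) | ⟨i, rfl⟩) y _ hy
    · exact hC x (hU hx) y hy
    · exact hT x hx y hy
    · exact hs i y hy
  · rintro x ((hx | hx) | ⟨i, rfl⟩) y _ hy
    · exact hC _ (inv_mem (hU hx)) y hy
    · exact hT _ (inv_mem hx) y hy
    · rw [inv_eq_of_mul_eq_one_left (ss h2 i)]
      exact hs i y hy

end Comm

section Data

open scoped commutatorElement

variable {n : ℕ} {F : Type} [Field F] [Finite F]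

/-- the properties of the two characters -/
structure Ch (h2 : (2 : F) ≠ 0) (d l : (fOp n F h2).G →* ℤˣ) : Prop where
  d1 : ∀ g : (fOp n F h2).G, d g = 1 ↔ ((g : GL (Ix n 0) F) : Matrix (Ix n 0) (Ix n 0) F).det = 1
  l1 : ∀ (x : Fin n → Fˣ) (hx : ∀ i, (fOp n F h2).τ (x i : F) = x i),
        l ⟨(fOp n F h2).tor x, (tor_mem hx).1⟩ = ∏ i, ch (RingEquiv.refl F) (x i : F)
  l0 : ∀ i : Fin n, (i : ℕ) = 0 → l ⟨(fOp n F h2).s i, s_mem i⟩ = 1

theorem Ch.lT {h2 : (2 : F) ≠ 0} {d l : (fOp n F h2).G →* ℤˣ} (h : Ch h2 d l) (x : Fin n → Fˣ)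
    (hx : (fOp n F h2).tor x ∈ (fOp n F h2).G) : l ⟨(fOp n F h2).tor x, hx⟩ = cp x :=
  h.l1 x (fun _ => rfl)

theorem Ch.dT {h2 : (2 : F) ≠ 0} {d l : (fOp n F h2).G →* ℤˣ} (h : Ch h2 d l) {t : GL (Ix n 0) F}
    (ht : t ∈ (fOp n F h2).T) (hx : t ∈ (fOp n F h2).G) : d ⟨t, hx⟩ = 1 :=
  (h.d1 _).2 (detT ht)

theorem tr {G : Type} [Group G] {I : Subgroup G} (f : I → ℤˣ) (m a : I) (x : G) (hx : x ∈ I)
    (F' : G → ℤˣ) (hF : ∀ g (hg : g ∈ I), F' g = f ⟨g, hg⟩)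
    (heq : f (m⁻¹ * (a⁻¹ * ⟨x, hx⟩ * a) * m) = f (m⁻¹ * ⟨x, hx⟩ * m)) :
    F' ((m : G)⁻¹ * ((a : G)⁻¹ * x * (a : G)) * (m : G)) = F' ((m : G)⁻¹ * x * (m : G)) := by
  have h1 := hF ((m⁻¹ * (a⁻¹ * ⟨x, hx⟩ * a) * m : I) : G) (Subtype.prop _)
  have h3 := hF ((m⁻¹ * ⟨x, hx⟩ * m : I) : G) (Subtype.prop _)
  exact h1.trans (heq.trans h3.symm)

/-- the simple reflections in the group -/
abbrev sG (h2 : (2 : F) ≠ 0) (i : Fin n) : (fOp n F h2).G := ⟨(fOp n F h2).s i, s_mem i⟩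

/-- the torus in the group -/
abbrev TG (n : ℕ) (F : Type) [Field F] (h2 : (2 : F) ≠ 0) : Subgroup (fOp n F h2).G :=
  (fOp n F h2).T.subgroupOf (fOp n F h2).G

theorem re_bd (hn : 3 ≤ n) {h2 : (2 : F) ≠ 0} {d l : (fOp n F h2).G →* ℤˣ} (h : Ch h2 d l)
    (f : (fOp n F h2).G → ℤˣ)
    (hf : ∀ x ∈ TG n F h2 ⊓ (d.ker ⊓ l.ker), ∀ y ∈ TG n F h2 ⊓ (d.ker ⊓ l.ker), f (x * y) = f x * f y) :
    (∃ a, ∀ x ∈ TG n F h2 ⊓ (d.ker ⊓ l.ker), f x = (fOp n F h2).th a (x : GL (Ix n 0) F)) ∨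
      ∀ m ∈ NN (sG h2) (TG n F h2), ∀ i j : Fin n, (i : ℕ) = 0 → (j : ℕ) = 1 →
        (∃ x ∈ TG n F h2 ⊓ (d.ker ⊓ l.ker),
          f (m⁻¹ * ((sG h2 j)⁻¹ * x * sG h2 j) * m) ≠ f (m⁻¹ * x * m)) ∨
        ∃ x ∈ TG n F h2 ⊓ (d.ker ⊓ l.ker),
          f (m⁻¹ * ((sG h2 i * sG h2 j * sG h2 i)⁻¹ * x * (sG h2 i * sG h2 j * sG h2 i)) * m) ≠
          f (m⁻¹ * x * m) := by
  have hF : ∀ (g : GL (Ix n 0) F) (hg : g ∈ (fOp n F h2).G),
      (if h : g ∈ (fOp n F h2).G then f ⟨g, h⟩ else 1) = f ⟨g, hg⟩ := by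
    intro g hg
    rw [dif_pos hg]
  have hS : ∀ x : Fin n → Fˣ, (fOp n F h2).tor x ∈ (d.ker ⊓ l.ker).map (fOp n F h2).G.subtype ↔ cp x = 1 := by
    intro x
    have hG := (torT h2 x).1
    constructor
    · rintro ⟨y, hy, hyx⟩
      have h1 : y = ⟨(fOp n F h2).tor x, hG⟩ := Subtype.ext hyx
      have h3 : l y = 1 := hy.2
      rw [h1, h.lT] at h3
      exact h3
    · intro hx
      refine ⟨⟨(fOp n F h2).tor x, hG⟩, ⟨?_, ?_⟩, rfl⟩
      · exact h.dT (torT h2 x) hG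
      · show l ⟨(fOp n F h2).tor x, hG⟩ = 1
        rw [h.lT, hx]
  have hN : ∀ g ∈ (fOp n F h2).G, ∀ k ∈ (d.ker ⊓ l.ker).map (fOp n F h2).G.subtype,
      g * k * g⁻¹ ∈ (d.ker ⊓ l.ker).map (fOp n F h2).G.subtype := by
    rintro g hg _ ⟨k, hk, rfl⟩
    refine ⟨⟨g, hg⟩ * k * ⟨g, hg⟩⁻¹, ⟨?_, ?_⟩, by rw [map_mul, map_mul, map_inv]; rfl⟩
    · exact (MonoidHom.normal_ker d).conj_mem k hk.1 _
    · exact (MonoidHom.normal_ker l).conj_mem k hk.2 _
  have hin : ∀ {x : GL (Ix n 0) F}, x ∈ (fOp n F h2).T ⊓ (d.ker ⊓ l.ker).map (fOp n F h2).G.subtype →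
      ∃ hx : x ∈ (fOp n F h2).G, (⟨x, hx⟩ : (fOp n F h2).G) ∈ TG n F h2 ⊓ (d.ker ⊓ l.ker) := by
    rintro x ⟨hx, y, hy, rfl⟩
    exact ⟨y.2, hx, hy⟩
  have hout : ∀ {x : (fOp n F h2).G}, x ∈ TG n F h2 ⊓ (d.ker ⊓ l.ker) →
      (x : GL (Ix n 0) F) ∈ (fOp n F h2).T ⊓ (d.ker ⊓ l.ker).map (fOp n F h2).G.subtype := by
    rintro x ⟨hx, hy⟩
    exact ⟨hx, x, hy, rfl⟩
  have hNN : ∀ m : (fOp n F h2).G, m ∈ NN (sG h2) (TG n F h2) →
      (m : GL (Ix n 0) F) ∈ NN (fOp n F h2).s (fOp n F h2).T := by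
    obtain ⟨p, hc, hp, ho⟩ := char_odd h2
    exact fun m hm => (G01_aux.NN_in ((kOp n F h2).bn hp ho) m).1 hm
  rcases re_aux hn h2 hS hN (fun g => if h : g ∈ (fOp n F h2).G then f ⟨g, h⟩ else 1) (by
    intro x hx y hy
    obtain ⟨hx1, hx2⟩ := hin hx
    obtain ⟨hy1, hy2⟩ := hin hy
    show (if h : x * y ∈ (fOp n F h2).G then f ⟨x * y, h⟩ else 1) =
      (if h : x ∈ (fOp n F h2).G then f ⟨x, h⟩ else 1) * (if h : y ∈ (fOp n F h2).G then f ⟨y, h⟩ else 1)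
    rw [hF x hx1, hF y hy1, hF (x * y) (mul_mem hx1 hy1)]
    exact hf _ hx2 _ hy2) with ⟨a, ha⟩ | hr
  · left
    refine ⟨a, fun x hx => ?_⟩
    have h1 := ha x (hout hx)
    have h3 : (if h : (x : GL (Ix n 0) F) ∈ (fOp n F h2).G then f ⟨x, h⟩ else 1) = f x := hF x x.2
    rw [← h3]
    exact h1
  · right
    intro m hm i j hi hj
    rcases hr m (hNN m hm) i j hi hj with ⟨x, hx, hne⟩ | ⟨x, hx, hne⟩
    · left
      obtain ⟨hx1, hx2⟩ := hin hx
      exact ⟨⟨x, hx1⟩, hx2, fun heq => hne (tr f m (sG h2 j) x hx1 _ hF heq)⟩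
    · right
      obtain ⟨hx1, hx2⟩ := hin hx
      exact ⟨⟨x, hx1⟩, hx2, fun heq => hne (tr f m (sG h2 i * sG h2 j * sG h2 i) x hx1 _ hF heq)⟩

/-- the data of type D -/
def bd (hn : 3 ≤ n) {h2 : (2 : F) ≠ 0} {d l : (fOp n F h2).G →* ℤˣ} (h : Ch h2 d l)
    {p : ℕ} [CharP F p] (hp : p.Prime) (ho : Odd p) : BD ((kOp n F h2).bn hp ho).toBN where
  H := d.ker ⊓ l.ker
  d := d
  l := l
  mem := fun g => Iff.rfl
  dU := fun u hu => (h.d1 u).2 (detU (h2 := h2) (t := (u : GL (Ix n 0) F)) hu)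
  lU := fun u hu => l_U h2 l u hu
  dT := fun x hx => h.dT (t := (x : GL (Ix n 0) F)) hx x.2
  lT := fun x hx => by
    obtain ⟨y, hy⟩ := T_ex (h2 := h2) (t := (x : GL (Ix n 0) F)) hx
    have h1 : x = ⟨(fOp n F h2).tor y, (torT h2 y).1⟩ := Subtype.ext hy
    rw [h1, h.lT]
    show cp y = (fOp n F h2).th (fun _ => true) ((fOp n F h2).tor y)
    rw [th_tor]
    unfold cp
    exact Finset.prod_congr rfl fun i _ => (if_pos rfl).symm
  d0 := fun i hi => by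
    rcases Int.units_eq_one_or (d (((kOp n F h2).bn hp ho).toBN.s i)) with h1 | h1
    · exfalso
      have h3 := (h.d1 _).1 h1
      have h4 := det_zero (h2 := h2) hi
      exact neg_ne h2 (h4.symm.trans h3)
    · exact h1
  ds := fun i hi => (h.d1 _).2 (det_pos (h2 := h2) hi)
  l0 := fun i hi => h.l0 i hi
  ls := fun i hi => by
    have h1 := l_pos h2 h.l1 (fun u hu => l_U h2 l u hu) hi
    refine h1.trans ?_
    show ch (RingEquiv.refl F) (-1 : F) = if true = true then ch (fOp n F h2).τ (-1 : F) else 1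
    rw [if_pos rfl]
    rfl
  R0 := fun i hi => by
    show ((fOp n F h2).R i).subgroupOf (fOp n F h2).G = ⊥
    rw [R0_bot h2 hi, Subgroup.bot_subgroupOf]
  s0 := fun i _ => Subtype.ext (ss h2 i)
  gd := rfl
  n2 := by omega
  re := fun f hf => re_bd hn h f hf

/-- the parameters -/
def pOp (F : Type) [Field F] [Finite F] (h2 : (2 : F) ≠ 0) : Par ℚ where
  q := Nat.card F
  e := 1
  j := fun _ => 0
  w := fun _ => 1
  three := by
    have h := (card_odd h2 (RingEquiv.refl F)).2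
    rwa [card_refl] at h
  odd := by
    have h := (card_odd h2 (RingEquiv.refl F)).1
    rwa [card_refl] at h
  pos := Nat.one_pos
  ne := fun _ => one_ne_zero

theorem pOp_r (h2 : (2 : F) ≠ 0) (y : Ty) : (pOp F h2).r y = ((sg y : ℤ) : ℚ) := by
  show (1 : ℚ) * ((sg y : ℤ) : ℚ) * ((Nat.card F : ℕ) : ℚ) ^ (0 : ℤ) = _
  rw [_root_.zpow_zero, one_mul, mul_one]

theorem card_R0 {h2 : (2 : F) ≠ 0} {p : ℕ} [CharP F p] (hp : p.Prime) (ho : Odd p) {i : Fin n}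
    (hi : (i : ℕ) = 0) : Nat.card (((kOp n F h2).bn hp ho).toBN.R i) = 1 := by
  rw [card_in]
  have h1 : ((kOp n F h2).bn hp ho).R i = ⊥ := R0_bot h2 hi
  rw [h1]
  exact Subgroup.card_bot

theorem fit (hn : 3 ≤ n) {h2 : (2 : F) ≠ 0} {p : ℕ} [CharP F p] (hp : p.Prime) (ho : Odd p) :
    Fit ((kOp n F h2).bn hp ho).toBN (pOp F h2) where
  card := by
    intro l hl
    rw [card_in]
    show Nat.card ((fOp n F h2).R l) = Nat.card F ^ 1
    rw [card_R_pos hl, pow_one]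
    exact card_refl
  sum := by
    intro b _ i hi
    rw [card_R0 hp ho hi, pOp_r, pOp_r]
    have h1 : ∀ b, sg (yp b) = 1 := by decide
    have h3 : ∀ b, sg (yn b) = -1 := by decide
    rw [h1, h3]
    show _ = ((0 : ℤ) : ℚ)
    push_cast
    ring
  prod := by
    intro b _ i hi
    rw [card_R0 hp ho hi, pOp_r, pOp_r]
    have h1 : ∀ b, sg (yp b) = 1 := by decide
    have h3 : ∀ b, sg (yn b) = -1 := by decide
    rw [h1, h3]
    push_cast
    ring
  half := by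
    left
    obtain ⟨y, -, hy0, hy⟩ := exists_ch h2 (RingEquiv.refl F)
    obtain ⟨k, hk⟩ : ∃ k : Fin n, (k : ℕ) = 0 := ⟨⟨0, by omega⟩, rfl⟩
    have hT := torT h2 (Pi.mulSingle k (Units.mk0 y hy0) : Fin n → Fˣ)
    refine ⟨⟨_, hT.1⟩, ⟨hT, hT.1⟩, ?_⟩
    show (fOp n F h2).th (fun _ => true) ((fOp n F h2).tor (Pi.mulSingle k (Units.mk0 y hy0) : Fin n → Fˣ)) ≠ 1
    have h1 : (fOp n F h2).th (fun _ => true) ((fOp n F h2).tor
        (Pi.mulSingle k (Units.mk0 y hy0) : Fin n → Fˣ)) = cp (Pi.mulSingle k (Units.mk0 y hy0) : Fin n → Fˣ) := by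
      rw [th_tor]
      unfold cp
      exact Finset.prod_congr rfl fun i _ => if_pos rfl
    rw [h1, cp_single, Units.val_mk0, hy]
    decide

/-- the commutator group is the group of the elements with trivial characters -/
theorem op_comm (hn : 3 ≤ n) {h2 : (2 : F) ≠ 0} {d l : (fOp n F h2).G →* ℤˣ} (h : Ch h2 d l) :
    (d.ker ⊓ l.ker).map (fOp n F h2).G.subtype = ⁅SS n F h2, SS n F h2⁆ := by
  have hle : ⁅SS n F h2, SS n F h2⁆ ≤ (d.ker ⊓ l.ker).map (fOp n F h2).G.subtype := by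
    rw [Subgroup.commutator_le]
    intro g hg k hk
    refine ⟨⁅(⟨g, hg.1⟩ : (fOp n F h2).G), ⟨k, hk.1⟩⁆, ⟨?_, ?_⟩, rfl⟩
    · show d _ = 1
      rw [map_commutatorElement, commutatorElement_eq_one_iff_mul_comm, mul_comm]
    · show l _ = 1
      rw [map_commutatorElement, commutatorElement_eq_one_iff_mul_comm, mul_comm]
  refine le_antisymm ?_ hle
  rintro _ ⟨g, hg, rfl⟩
  obtain ⟨k, hk⟩ : ∃ k : Fin n, (k : ℕ) = 0 := ⟨⟨0, by omega⟩, rfl⟩
  obtain ⟨c, hc, t, ht, hgt⟩ := dec h2 hk g.2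
  obtain ⟨c', hc', hce⟩ := hle hc
  have hdc : d c' = 1 := hc'.1
  have hlc : l c' = 1 := hc'.2
  have hdg : d g = 1 := hg.1
  have hlg : l g = 1 := hg.2
  have hdt : d ⟨t, ht.1⟩ = 1 := h.dT ht ht.1

  rcases hgt with hgt | hgt
  · have h1 : g = c' * ⟨t, ht.1⟩ := Subtype.ext (by
      rw [hgt, ← hce]
      rfl)
    have h3 : l ⟨t, ht.1⟩ = 1 := by
      have h4 := congrArg l h1
      rw [map_mul, hlg, hlc, one_mul] at h4
      exact h4.symm
    obtain ⟨x, hx⟩ := T_ex ht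
    subst hx
    rw [h.lT] at h3
    show (g : GL (Ix n 0) F) ∈ _
    rw [hgt]
    exact mul_mem hc (TC_all hn h2 h3)
  · exfalso
    have h1 : g = c' * ⟨t, ht.1⟩ * ⟨(fOp n F h2).s k, s_mem k⟩ := Subtype.ext (by
      rw [hgt, ← hce]
      rfl)
    have h4 := congrArg d h1
    rw [map_mul, map_mul, hdg, hdc, hdt, one_mul, one_mul] at h4
    have h5 := (h.d1 _).1 h4.symm
    exact neg_ne h2 ((det_zero (h2 := h2) hk).symm.trans h5)

end Data

end Q14_aux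

open Q14_aux in
theorem op_AB {Ω : Type} [Field Ω] [IsAlgClosed Ω] [CharZero Ω] {c : Parker.Ctx Ω} {n : ℕ} (hn : 3 ≤ n)
    (F : Type) [Field F] [Finite F] (h2 : (2 : F) ≠ 0) :
    Parker.PropA c 1 (⁅(fOp n F h2).G ⊓ DT (Ix n 0) F, (fOp n F h2).G ⊓ DT (Ix n 0) F⁆ :
      Subgroup (GL (Ix n 0) F)) ∧
    Parker.PropB c 1 (⁅(fOp n F h2).G ⊓ DT (Ix n 0) F, (fOp n F h2).G ⊓ DT (Ix n 0) F⁆ :
      Subgroup (GL (Ix n 0) F)) := by
  obtain ⟨p, hc, hp, ho⟩ := char_odd h2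
  obtain ⟨d, l, h1, h3, h4⟩ := spin_Op (n := n) h2
  have h : Ch h2 d l := ⟨h1, h3, h4⟩
  have hpd : PD (pOp F h2) := ⟨fun _ => rfl, fun _ => rfl⟩
  have hA := bd_propA (c := c) (bd hn h hp ho) (fit hn hp ho) hpd
  have hB := bd_propB (c := c) (bd hn h hp ho) (fit hn hp ho) hpd
  have e := op_comm hn h
  have iso : (bd hn h hp ho).H ≃* (⁅SS n F h2, SS n F h2⁆ : Subgroup (GL (Ix n 0) F)) :=
    (Subgroup.equivMapOfInjective _ _ (Subgroup.subtype_injective _)).trans (MulEquiv.subgroupCongr e)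
  exact ⟨Parker.propA_congr iso hA, Parker.propB_congr iso hB⟩

end

end AO.MG
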