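import Pool.Agent.AO.M01

/-!
# MP_6c3636_al, AO, module V01: congruence of forms (helper7)

`cong_symm`: from `σ(P)ᵀ J P = J'` multiply with `Q`: `σ(Q)ᵀ J' Q = J`. `cj`: `g ↦ P g Q`. `cj_det`: `det (P g Q) = det g` (`Matrix.det_comm'`-like: `det (P * (g * Q)) = det ((g * Q) * P)` for `P : ι' × ι`, `Q : ι × ι'` with `Q P = 1`; the cardinalities are equal; Mathlib: `Matrix.det_mul_comm'`, `Matrix.det_comm'` or reindexing). `map_IG`: `σ(P g Q)ᵀ J (P g Q) = σ(Q)ᵀ σ(g)ᵀ J' g Q`. `map_comm`: `Subgroup.map_commutator`. `IG_smul`: clear. `cong_IG`: the group isomorphism restricted to the subgroups.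
-/

namespace AO.MG

noncomputable section

open Classical Equiv Matrix

open AN (sq)


variable {ι ι' ι'' : Type} [Fintype ι] [DecidableEq ι] [Fintype ι'] [DecidableEq ι'] [Fintype ι'']
  [DecidableEq ι''] {F : Type} [Field F]

/-- the forms `J` and `J'` are congruent with respect to `σ` -/
def Cong (σ : F ≃+* F) (J : Matrix ι ι F) (J' : Matrix ι' ι' F) : Prop :=
  ∃ (P : Matrix ι ι' F) (Q : Matrix ι' ι F), P * Q = 1 ∧ Q * P = 1 ∧ (P.map σ)ᵀ * J * P = J'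

private theorem ct_mul (σ : F ≃+* F) (A : Matrix ι ι' F) (B : Matrix ι' ι'' F) :
    ((A * B).map σ)ᵀ = (B.map σ)ᵀ * (A.map σ)ᵀ := by
  rw [Matrix.map_mul, Matrix.transpose_mul]

private theorem ct_one (σ : F ≃+* F) : ((1 : Matrix ι ι F).map σ)ᵀ = 1 := by
  rw [Matrix.map_one σ (map_zero σ) (map_one σ), Matrix.transpose_one]

theorem cong_refl (σ : F ≃+* F) (J : Matrix ι ι F) : Cong σ J J :=
  ⟨1, 1, Matrix.one_mul 1, Matrix.one_mul 1, by rw [ct_one, Matrix.one_mul, Matrix.mul_one]⟩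

theorem cong_symm {σ : F ≃+* F} {J : Matrix ι ι F} {J' : Matrix ι' ι' F} (h : Cong σ J J') :
    Cong σ J' J := by
  obtain ⟨P, Q, h1, h2, h3⟩ := h
  refine ⟨Q, P, h2, h1, ?_⟩
  rw [← h3]
  calc (Q.map σ)ᵀ * ((P.map σ)ᵀ * J * P) * Q = ((Q.map σ)ᵀ * (P.map σ)ᵀ) * J * (P * Q) := by
        simp only [Matrix.mul_assoc]
    _ = J := by rw [← ct_mul, h1, ct_one, Matrix.one_mul, Matrix.mul_one]

theorem cong_trans {σ : F ≃+* F} {J : Matrix ι ι F} {J' : Matrix ι' ι' F} {J'' : Matrix ι'' ι'' F}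
    (h : Cong σ J J') (h' : Cong σ J' J'') : Cong σ J J'' := by
  obtain ⟨P, Q, h1, h2, h3⟩ := h
  obtain ⟨P', Q', h1', h2', h3'⟩ := h'
  refine ⟨P * P', Q' * Q, ?_, ?_, ?_⟩
  · calc P * P' * (Q' * Q) = P * (P' * Q') * Q := by simp only [Matrix.mul_assoc]
      _ = 1 := by rw [h1', Matrix.mul_one, h1]
  · calc Q' * Q * (P * P') = Q' * (Q * P) * P' := by simp only [Matrix.mul_assoc]
      _ = 1 := by rw [h2, Matrix.mul_one, h2']
  · rw [ct_mul, ← h3', ← h3]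
    simp only [Matrix.mul_assoc]

theorem cong_reindex (σ : F ≃+* F) (J : Matrix ι ι F) (e : ι ≃ ι') : Cong σ J (Matrix.reindex e e J) := by
  refine ⟨(1 : Matrix ι ι F).submatrix (Equiv.refl ι) e.symm,
    (1 : Matrix ι ι F).submatrix e.symm (Equiv.refl ι), ?_, ?_, ?_⟩
  · rw [Matrix.submatrix_mul_equiv, Matrix.one_mul]
    exact Matrix.submatrix_id_id _
  · rw [Matrix.submatrix_mul_equiv, Matrix.one_mul, Matrix.submatrix_one_equiv]
  · have h1 : (((1 : Matrix ι ι F).submatrix (Equiv.refl ι) e.symm).map σ)ᵀ =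
        (1 : Matrix ι ι F).submatrix e.symm (Equiv.refl ι) := by
      rw [← Matrix.submatrix_map, Matrix.transpose_submatrix, ct_one]
    have h2 : J = J.submatrix (Equiv.refl ι) (Equiv.refl ι) := (Matrix.submatrix_id_id _).symm
    rw [h1]
    nth_rewrite 1 [h2]
    rw [Matrix.submatrix_mul_equiv, Matrix.submatrix_mul_equiv, Matrix.one_mul, Matrix.mul_one,
      Matrix.reindex_apply]

private theorem cj_aux {P : Matrix ι ι' F} {Q : Matrix ι' ι F} (h1 : P * Q = 1) (h2 : Q * P = 1)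
    (A B : Matrix ι' ι' F) : P * A * Q * (P * B * Q) = P * (A * B) * Q := by
  calc P * A * Q * (P * B * Q) = P * A * (Q * P) * B * Q := by simp only [Matrix.mul_assoc]
    _ = _ := by
      rw [h2, Matrix.mul_one]
      simp only [Matrix.mul_assoc]

private theorem cj_aux' {P : Matrix ι ι' F} {Q : Matrix ι' ι F} (h2 : Q * P = 1) (A : Matrix ι' ι' F) :
    Q * (P * A * Q) * P = A := by
  calc Q * (P * A * Q) * P = (Q * P) * A * (Q * P) := by simp only [Matrix.mul_assoc]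
    _ = A := by rw [h2, Matrix.one_mul, Matrix.mul_one]

/-- conjugation -/
def cj (P : Matrix ι ι' F) (Q : Matrix ι' ι F) (h1 : P * Q = 1) (h2 : Q * P = 1) :
    GL ι' F ≃* GL ι F where
  toFun g := ⟨P * (g : Matrix ι' ι' F) * Q, P * ((g⁻¹ : GL ι' F) : Matrix ι' ι' F) * Q, by
    rw [cj_aux h1 h2, ← Units.val_mul, mul_inv_cancel, Units.val_one, Matrix.mul_one, h1], by
    rw [cj_aux h1 h2, ← Units.val_mul, inv_mul_cancel, Units.val_one, Matrix.mul_one, h1]⟩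
  invFun g := ⟨Q * (g : Matrix ι ι F) * P, Q * ((g⁻¹ : GL ι F) : Matrix ι ι F) * P, by
    rw [cj_aux h2 h1, ← Units.val_mul, mul_inv_cancel, Units.val_one, Matrix.mul_one, h2], by
    rw [cj_aux h2 h1, ← Units.val_mul, inv_mul_cancel, Units.val_one, Matrix.mul_one, h2]⟩
  left_inv := by
    intro g
    apply Units.ext
    exact cj_aux' h2 _
  right_inv := by
    intro g
    apply Units.ext
    exact cj_aux' h1 _
  map_mul' := by
    intro g g'
    apply Units.ext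
    show P * ((g * g' : GL ι' F) : Matrix ι' ι' F) * Q =
      P * (g : Matrix ι' ι' F) * Q * (P * (g' : Matrix ι' ι' F) * Q)
    rw [cj_aux h1 h2, Units.val_mul]

theorem cj_coe (P : Matrix ι ι' F) (Q : Matrix ι' ι F) (h1 : P * Q = 1) (h2 : Q * P = 1)
    (g : GL ι' F) : (cj P Q h1 h2 g : Matrix ι ι F) = P * (g : Matrix ι' ι' F) * Q := rfl

theorem cj_det (P : Matrix ι ι' F) (Q : Matrix ι' ι F) (h1 : P * Q = 1) (h2 : Q * P = 1)
    (g : GL ι' F) : (cj P Q h1 h2 g : Matrix ι ι F).det = (g : Matrix ι' ι' F).det := by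
  rw [cj_coe, Matrix.det_conj_of_mul_eq_one h1 h2]

private theorem symm_coe (P : Matrix ι ι' F) (Q : Matrix ι' ι F) (h1 : P * Q = 1) (h2 : Q * P = 1)
    (g : GL ι F) : ((cj P Q h1 h2).symm g : Matrix ι' ι' F) = Q * (g : Matrix ι ι F) * P := rfl

private theorem symm_IG {σ : F ≃+* F} {J : Matrix ι ι F} {J' : Matrix ι' ι' F} (P : Matrix ι ι' F)
    (Q : Matrix ι' ι F) (h1 : P * Q = 1) (h2 : Q * P = 1) (h : (P.map σ)ᵀ * J * P = J') (g : GL ι F) :
    (cj P Q h1 h2).symm g ∈ IG J' σ ↔ g ∈ IG J σ := by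
  rw [mem_IG, mem_IG, symm_coe]
  have h3 : ((Q * (g : Matrix ι ι F) * P).map σ)ᵀ * J' * (Q * (g : Matrix ι ι F) * P) =
      (P.map σ)ᵀ * (((g : Matrix ι ι F).map σ)ᵀ * J * (g : Matrix ι ι F)) * P := by
    rw [ct_mul, ct_mul, ← h]
    calc _ = (P.map σ)ᵀ * (((g : Matrix ι ι F).map σ)ᵀ * ((Q.map σ)ᵀ * (P.map σ)ᵀ) * J * (P * Q) *
          (g : Matrix ι ι F)) * P := by simp only [Matrix.mul_assoc]
      _ = _ := by rw [← ct_mul, h1, ct_one, Matrix.mul_one, Matrix.mul_one]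
  rw [h3]
  constructor
  · intro h4
    have h5 : ∀ A : Matrix ι ι F, (Q.map σ)ᵀ * ((P.map σ)ᵀ * A * P) * Q = A := by
      intro A
      calc (Q.map σ)ᵀ * ((P.map σ)ᵀ * A * P) * Q = ((Q.map σ)ᵀ * (P.map σ)ᵀ) * A * (P * Q) := by
            simp only [Matrix.mul_assoc]
        _ = A := by rw [← ct_mul, h1, ct_one, Matrix.one_mul, Matrix.mul_one]
    rw [← h5 (((g : Matrix ι ι F).map σ)ᵀ * J * (g : Matrix ι ι F)), h4, ← h, h5]
  · intro h4
    rw [h4, h]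

theorem map_IG {σ : F ≃+* F} {J : Matrix ι ι F} {J' : Matrix ι' ι' F} (P : Matrix ι ι' F)
    (Q : Matrix ι' ι F) (h1 : P * Q = 1) (h2 : Q * P = 1) (h : (P.map σ)ᵀ * J * P = J') :
    (IG J' σ).map (cj P Q h1 h2).toMonoidHom = IG J σ ∧
      (IG J' σ ⊓ DT ι' F).map (cj P Q h1 h2).toMonoidHom = IG J σ ⊓ DT ι F := by
  constructor
  · ext g
    rw [Subgroup.mem_map_equiv]
    exact symm_IG P Q h1 h2 h g
  · ext g
    rw [Subgroup.mem_map_equiv, Subgroup.mem_inf, Subgroup.mem_inf, symm_IG P Q h1 h2 h g, mem_DT, mem_DT,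
      symm_coe, Matrix.det_conj_of_mul_eq_one h2 h1]

theorem IG_smul {σ : F ≃+* F} {J : Matrix ι ι F} {c : F} (hc : c ≠ 0) : IG (c • J) σ = IG J σ := by
  ext g
  rw [mem_IG, mem_IG, Matrix.mul_smul, Matrix.smul_mul]
  constructor
  · intro h
    exact smul_right_injective _ hc h
  · intro h
    rw [h]

theorem cong_G {σ : F ≃+* F} {J : Matrix ι ι F} {J' : Matrix ι' ι' F} (h : Cong σ J J') :
    Nonempty (IG J' σ ≃* IG J σ) := by
  obtain ⟨P, Q, h1, h2, h3⟩ := h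
  exact ⟨((cj P Q h1 h2).subgroupMap (IG J' σ)).trans
    (MulEquiv.subgroupCongr (map_IG P Q h1 h2 h3).1)⟩

theorem cong_S {σ : F ≃+* F} {J : Matrix ι ι F} {J' : Matrix ι' ι' F} (h : Cong σ J J') :
    Nonempty ((IG J' σ ⊓ DT ι' F : Subgroup (GL ι' F)) ≃* (IG J σ ⊓ DT ι F : Subgroup (GL ι F))) := by
  obtain ⟨P, Q, h1, h2, h3⟩ := h
  exact ⟨((cj P Q h1 h2).subgroupMap (IG J' σ ⊓ DT ι' F)).trans
    (MulEquiv.subgroupCongr (map_IG P Q h1 h2 h3).2)⟩

theorem cong_C {σ : F ≃+* F} {J : Matrix ι ι F} {J' : Matrix ι' ι' F} (h : Cong σ J J') :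
    Nonempty ((⁅IG J' σ ⊓ DT ι' F, IG J' σ ⊓ DT ι' F⁆ : Subgroup (GL ι' F)) ≃*
      (⁅IG J σ ⊓ DT ι F, IG J σ ⊓ DT ι F⁆ : Subgroup (GL ι F))) := by
  obtain ⟨P, Q, h1, h2, h3⟩ := h
  refine ⟨((cj P Q h1 h2).subgroupMap _).trans (MulEquiv.subgroupCongr ?_)⟩
  have h4 := (map_IG P Q h1 h2 h3).2
  have h5 := Subgroup.map_commutator (IG J' σ ⊓ DT ι' F) (IG J' σ ⊓ DT ι' F)
    (cj P Q h1 h2).toMonoidHom
  rw [h4] at h5
  exact h5

end

end AO.MG
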