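import Pool.Agent.AO.V02
import Pool.Agent.AO.M04

/-!
# MP_6c3636_al, AO, module V03: hermitian and symmetric forms (helper7)

`cong_herm`: `cong_diag`; `d i = x i * σ (x i)` (`norm_surj`, M04); the diagonal matrix `x⁻¹` gives `Cong σ (diagonal d) 1`. For `ι`, `ι'` of the same cardinality: `cong_reindex`. `cong_symm_form`: in two dimensions `diagonal (a, b)` represents `1`: `a x ^ 2 + b y ^ 2 = 1` has a solution (`FiniteField.exists_root_sum_quadratic` or counting squares), so it is congruent to `diagonal (1, a b)`; by induction every diagonal form is congruent to `diagonal (1, ..., 1, δ)`, where `δ` is the determinant up to squares (the determinant changes by a square under congruence); `δ` can be changed by squares.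
-/

namespace AO.MG

noncomputable section

open Classical Equiv Matrix

open AN (sq)


variable {ι ι' : Type} [Fintype ι] [DecidableEq ι] [Fintype ι'] [DecidableEq ι'] {F : Type} [Field F]
  [Finite F]

namespace V03_aux

omit [Fintype ι] [DecidableEq ι] [Fintype ι'] [DecidableEq ι'] [Finite F] in
theorem map_refl (P : Matrix ι ι' F) : P.map (RingEquiv.refl F) = P := by
  ext a b
  rfl

omit [Finite F] in
theorem diag_cong {σ : F ≃+* F} (d x : ι → F) (hx : ∀ i, x i ≠ 0) :
    Cong σ (Matrix.diagonal d) (Matrix.diagonal (fun i => σ (x i) * d i * x i)) := by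
  refine ⟨Matrix.diagonal x, Matrix.diagonal (fun i => (x i)⁻¹), ?_, ?_, ?_⟩
  · rw [Matrix.diagonal_mul_diagonal, ← Matrix.diagonal_one]
    congr 1
    funext i
    exact mul_inv_cancel₀ (hx i)
  · rw [Matrix.diagonal_mul_diagonal, ← Matrix.diagonal_one]
    congr 1
    funext i
    exact inv_mul_cancel₀ (hx i)
  · rw [Matrix.diagonal_map (map_zero σ), Matrix.diagonal_transpose, Matrix.diagonal_mul_diagonal,
      Matrix.diagonal_mul_diagonal]

theorem herm_one (h2 : (2 : F) ≠ 0) {σ : F ≃+* F} (hs : ∀ x, σ (σ x) = x) (hne : ∃ x, σ x ≠ x)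
    {J : Matrix ι ι F} (hJ : (J.map σ)ᵀ = J) (hd : J.det ≠ 0) : Cong σ J (1 : Matrix ι ι F) := by
  obtain ⟨d, hd1, hd2⟩ := cong_diag h2 hs hJ hd
  have h3 : ∀ i, ∃ x, x * σ x = (d i)⁻¹ := fun i =>
    norm_surj hs hne (by rw [map_inv₀, (hd1 i).2])
  choose x hx using h3
  have hx0 : ∀ i, x i ≠ 0 := by
    intro i h
    have := hx i
    rw [h, zero_mul] at this
    exact inv_ne_zero (hd1 i).1 this.symm
  have h4 := diag_cong (σ := σ) d x hx0
  have h5 : (fun i => σ (x i) * d i * x i) = fun _ => (1 : F) := by
    funext i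
    rw [mul_right_comm, mul_comm (σ (x i)) (x i), hx i, inv_mul_cancel₀ (hd1 i).1]
  rw [h5, Matrix.diagonal_one] at h4
  exact cong_trans hd2 h4

theorem two_sq (h2 : (2 : F) ≠ 0) {a b : F} (ha : a ≠ 0) (hb : b ≠ 0) :
    ∃ x y : F, a * x ^ 2 + b * y ^ 2 = 1 := by
  have : Fintype F := Fintype.ofFinite F
  have h1 : ringChar F ≠ 2 := by
    intro h
    have h3 := ringChar.Nat.cast_ringChar (R := F)
    rw [h] at h3
    exact h2 (by exact_mod_cast h3)
  obtain ⟨x, y, hxy⟩ := FiniteField.exists_root_sum_quadratic
    (f := Polynomial.C a * Polynomial.X ^ 2) (g := Polynomial.C b * Polynomial.X ^ 2 - 1)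
    (Polynomial.degree_C_mul_X_pow 2 ha)
    (by
      rw [Polynomial.degree_sub_eq_left_of_degree_lt]
      · exact Polynomial.degree_C_mul_X_pow 2 hb
      · rw [Polynomial.degree_C_mul_X_pow 2 hb, Polynomial.degree_one]
        decide)
    (FiniteField.odd_card_of_char_ne_two h1)
  refine ⟨x, y, ?_⟩
  rw [Polynomial.eval_mul, Polynomial.eval_sub, Polynomial.eval_mul, Polynomial.eval_C, Polynomial.eval_C,
    Polynomial.eval_pow, Polynomial.eval_pow, Polynomial.eval_X, Polynomial.eval_X, Polynomial.eval_one] at hxy
  linear_combination hxy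

/-- the diagonal form -/
def B (d u w : ι → F) : F := ∑ a, d a * (u a * w a)

omit [DecidableEq ι] [Finite F] in
theorem B_add_left (d u u' w : ι → F) : B d (u + u') w = B d u w + B d u' w := by
  unfold B
  rw [← Finset.sum_add_distrib]
  refine Finset.sum_congr rfl fun a _ => ?_
  rw [Pi.add_apply]
  ring

omit [DecidableEq ι] [Finite F] in
theorem B_add_right (d u w w' : ι → F) : B d u (w + w') = B d u w + B d u w' := by
  unfold B
  rw [← Finset.sum_add_distrib]
  refine Finset.sum_congr rfl fun a _ => ?_
  rw [Pi.add_apply]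
  ring

omit [Finite F] in
theorem B_single (d : ι → F) (a b : ι) (s t : F) :
    B d (Pi.single a s) (Pi.single b t) = if a = b then d a * (s * t) else 0 := by
  unfold B
  rw [Finset.sum_eq_single a]
  · rw [Pi.single_eq_same]
    by_cases h : a = b
    · subst h
      rw [Pi.single_eq_same, if_pos rfl]
    · rw [if_neg h, Pi.single_eq_of_ne h, mul_zero, mul_zero]
  · intro c _ hc
    rw [Pi.single_eq_of_ne hc, zero_mul, mul_zero]
  · exact fun h => absurd (Finset.mem_univ a) h

theorem cong_of (v : ι → ι → F) (d d' : ι → F) (hd' : ∀ i, d' i ≠ 0)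
    (h : ∀ b c, B d (v b) (v c) = if b = c then d' b else 0) :
    Cong (RingEquiv.refl F) (Matrix.diagonal d) (Matrix.diagonal d') := by
  have h1 : (Matrix.of v) * Matrix.diagonal d * (Matrix.of v)ᵀ = Matrix.diagonal d' := by
    ext b c
    rw [Matrix.mul_apply, Matrix.diagonal_apply, ← h b c]
    refine Finset.sum_congr rfl fun a _ => ?_
    rw [Matrix.mul_diagonal, Matrix.transpose_apply, Matrix.of_apply, Matrix.of_apply]
    ring
  have h2 : (Matrix.diagonal (fun i => (d' i)⁻¹) * (Matrix.of v) * Matrix.diagonal d) * (Matrix.of v)ᵀ =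
      1 := by
    rw [Matrix.mul_assoc, Matrix.mul_assoc, ← Matrix.mul_assoc (Matrix.of v), h1,
      Matrix.diagonal_mul_diagonal, ← Matrix.diagonal_one]
    congr 1
    funext i
    exact inv_mul_cancel₀ (hd' i)
  refine ⟨(Matrix.of v)ᵀ, Matrix.diagonal (fun i => (d' i)⁻¹) * (Matrix.of v) * Matrix.diagonal d,
    mul_eq_one_comm.1 h2, h2, ?_⟩
  rw [map_refl, Matrix.transpose_transpose, h1]

theorem step (h2 : (2 : F) ≠ 0) {i j : ι} (hij : i ≠ j) {d : ι → F} (hd : ∀ k, d k ≠ 0) :
    Cong (RingEquiv.refl F) (Matrix.diagonal d)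
      (Matrix.diagonal (fun k => if k = i then d i * d j else if k = j then 1 else d k)) := by
  obtain ⟨x, y, hxy⟩ := two_sq h2 (hd i) (hd j)
  refine cong_of (fun b => if b = i then Pi.single i (-(d j * y)) + Pi.single j (d i * x) else
    if b = j then Pi.single i x + Pi.single j y else Pi.single b 1) d _ ?_ ?_
  · intro k
    show (if k = i then d i * d j else if k = j then 1 else d k) ≠ 0
    split_ifs
    · exact mul_ne_zero (hd i) (hd j)
    · exact one_ne_zero
    · exact hd k
  · intro b c
    have hji : j ≠ i := hij.symm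
    by_cases hb : b = i
    · subst hb
      by_cases hc : c = b
      · subst hc
        simp only [if_true, B_add_left, B_add_right, B_single, if_neg hij, if_neg hji]
        linear_combination (d c * d j) * hxy
      · by_cases hc' : c = j
        · subst hc'
          simp only [if_true, if_neg hc, B_add_left, B_add_right, B_single, if_neg hij]
          ring
        · simp only [if_true, if_neg hc, if_neg hc', B_add_left, B_single, if_neg (Ne.symm hc),
            if_neg (Ne.symm hc')]
          ring
    · by_cases hb' : b = j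
      · subst hb'
        by_cases hc : c = i
        · subst hc
          simp only [if_true, if_neg hb, B_add_left, B_add_right, B_single, if_neg hij]
          ring
        · by_cases hc' : c = b
          · subst hc'
            simp only [if_true, if_neg hc, B_add_left, B_add_right, B_single, if_neg hij]
            linear_combination hxy
          · simp only [if_true, if_neg hc, if_neg hb, if_neg hc', B_add_left, B_single,
              if_neg (Ne.symm hc), if_neg (Ne.symm hc')]
            ring
      · by_cases hc : c = i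
        · subst hc
          simp only [if_true, if_neg hb, if_neg hb', B_add_right, B_single]
          ring
        · by_cases hc' : c = j
          · subst hc'
            simp only [if_true, if_neg hc, if_neg hb, if_neg hb', B_add_right, B_single]
            ring
          · simp only [if_neg hc, if_neg hb, if_neg hb', if_neg hc', B_single]
            split_ifs
            · ring
            · rfl

theorem diag_all (h2 : (2 : F) ≠ 0) (i : ι) {d : ι → F} (hd : ∀ k, d k ≠ 0) (s : Finset ι) (hs : i ∉ s) :
    Cong (RingEquiv.refl F) (Matrix.diagonal d)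
      (Matrix.diagonal (fun k => if k = i then d i * ∏ j ∈ s, d j else if k ∈ s then 1 else d k)) := by
  induction s using Finset.induction_on with
  | empty =>
    have h1 : (fun k => if k = i then d i * ∏ j ∈ (∅ : Finset ι), d j else if k ∈ (∅ : Finset ι) then 1 else d k) =
        d := by
      funext k
      by_cases hk : k = i
      · rw [if_pos hk, Finset.prod_empty, mul_one, hk]
      · rw [if_neg hk, if_neg (Finset.notMem_empty k)]
    rw [h1]
    exact cong_refl _ _
  | insert j s hj ih =>
    have hi : i ∉ s := fun h => hs (Finset.mem_insert_of_mem h)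
    have hij : i ≠ j := by
      rintro rfl
      exact hs (Finset.mem_insert_self _ _)
    refine cong_trans (ih hi) ?_
    have h3 := step h2 hij (d := fun k => if k = i then d i * ∏ j ∈ s, d j else if k ∈ s then 1 else d k) (by
      intro k
      show (if k = i then d i * ∏ j ∈ s, d j else if k ∈ s then 1 else d k) ≠ 0
      split_ifs
      · exact mul_ne_zero (hd i) (Finset.prod_ne_zero_iff.2 fun j _ => hd j)
      · exact one_ne_zero
      · exact hd k)
    have h4 : (fun k => if k = i then d i * ∏ j ∈ insert j s, d j else if k ∈ insert j s then 1 else d k) =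
        fun k => if k = i then (fun k => if k = i then d i * ∏ j ∈ s, d j else if k ∈ s then 1 else d k) i *
          (fun k => if k = i then d i * ∏ j ∈ s, d j else if k ∈ s then 1 else d k) j else
          if k = j then 1 else (fun k => if k = i then d i * ∏ j ∈ s, d j else if k ∈ s then 1 else d k) k := by
      funext k
      by_cases hk : k = i
      · rw [if_pos hk, if_pos hk]
        show _ = (if i = i then d i * ∏ j ∈ s, d j else if i ∈ s then 1 else d i) *
          (if j = i then d i * ∏ j ∈ s, d j else if j ∈ s then 1 else d j)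
        rw [if_pos rfl, if_neg hij.symm, if_neg hj, Finset.prod_insert hj]
        ring
      · rw [if_neg hk, if_neg hk]
        by_cases hkj : k = j
        · rw [if_pos hkj, if_pos (by rw [hkj]; exact Finset.mem_insert_self _ _)]
        · rw [if_neg hkj]
          show _ = (if k = i then d i * ∏ j ∈ s, d j else if k ∈ s then 1 else d k)
          rw [if_neg hk]
          by_cases hks : k ∈ s
          · rw [if_pos hks, if_pos (Finset.mem_insert_of_mem hks)]
          · rw [if_neg hks, if_neg (fun h => by
              rcases Finset.mem_insert.1 h with h | h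
              · exact hkj h
              · exact hks h)]
    rw [h4]
    exact h3

/-- the standard form with the determinant `δ` -/
def st (i : ι) (δ : F) : Matrix ι ι F := Matrix.diagonal (fun k => if k = i then δ else 1)

theorem diag_st (h2 : (2 : F) ≠ 0) (i : ι) {d : ι → F} (hd : ∀ k, d k ≠ 0) :
    Cong (RingEquiv.refl F) (Matrix.diagonal d) (st i (∏ k, d k)) := by
  have h1 := diag_all h2 i hd (Finset.univ.erase i) (Finset.notMem_erase i _)
  rw [Finset.mul_prod_erase Finset.univ d (Finset.mem_univ i)] at h1
  have h3 : (fun k => if k = i then ∏ k, d k else if k ∈ Finset.univ.erase i then 1 else d k) =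
      fun k => if k = i then ∏ k, d k else 1 := by
    funext k
    by_cases hk : k = i
    · rw [if_pos hk, if_pos hk]
    · rw [if_neg hk, if_neg hk, if_pos (Finset.mem_erase.2 ⟨hk, Finset.mem_univ k⟩)]
  rw [h3] at h1
  exact h1

omit [Finite F] in
theorem det_cong {J J' : Matrix ι ι F} (h : Cong (RingEquiv.refl F) J J') :
    ∃ c : F, c ≠ 0 ∧ J'.det = J.det * c ^ 2 := by
  obtain ⟨P, Q, h1, _, h3⟩ := h
  refine ⟨P.det, ?_, ?_⟩
  · intro h0
    have h4 := congrArg Matrix.det h1
    rw [Matrix.det_mul, h0, zero_mul, Matrix.det_one] at h4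
    exact zero_ne_one h4
  · rw [← h3, map_refl, Matrix.det_mul, Matrix.det_mul, Matrix.det_transpose]
    ring

theorem symm_st (h2 : (2 : F) ≠ 0) (i : ι) {J : Matrix ι ι F} (hJ : Jᵀ = J) (hd : J.det ≠ 0) :
    ∃ c : F, c ≠ 0 ∧ Cong (RingEquiv.refl F) J (st i (J.det * c ^ 2)) := by
  obtain ⟨d, hd1, hd2⟩ := cong_diag (σ := RingEquiv.refl F) h2 (fun _ => rfl)
    (by rw [map_refl]; exact hJ) hd
  obtain ⟨c, hc, hc2⟩ := det_cong hd2
  refine ⟨c, hc, ?_⟩
  rw [← hc2, Matrix.det_diagonal]
  exact cong_trans hd2 (diag_st h2 i fun k => (hd1 k).1)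

theorem st_sq (i : ι) (δ : F) {c : F} (hc : c ≠ 0) :
    Cong (RingEquiv.refl F) (st i δ) (st i (δ * c ^ 2)) := by
  have h1 := diag_cong (σ := RingEquiv.refl F) (fun k => if k = i then δ else 1)
    (fun k => if k = i then c else 1) (by
      intro k
      show (if k = i then c else 1) ≠ 0
      split_ifs
      · exact hc
      · exact one_ne_zero)
  have h3 : (fun k => RingEquiv.refl F ((fun k => if k = i then c else 1) k) *
      (fun k => if k = i then δ else 1) k * (fun k => if k = i then c else 1) k) =
      fun k => if k = i then δ * c ^ 2 else 1 := by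
    funext k
    show (if k = i then c else 1) * (if k = i then δ else 1) * (if k = i then c else 1) = _
    by_cases hk : k = i
    · rw [if_pos hk, if_pos hk, if_pos hk]
      ring
    · rw [if_neg hk, if_neg hk, if_neg hk, mul_one, mul_one]
  rw [h3] at h1
  exact h1

theorem symm_same (h2 : (2 : F) ≠ 0) (i : ι) {J J' : Matrix ι ι F} (hJ : Jᵀ = J) (hd : J.det ≠ 0)
    (hJ' : J'ᵀ = J') (hd' : J'.det ≠ 0) {c : F} (hdet : J'.det = J.det * c ^ 2) :
    Cong (RingEquiv.refl F) J J' := by
  obtain ⟨a, ha, h3⟩ := symm_st h2 i hJ hd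
  obtain ⟨b, hb, h4⟩ := symm_st h2 i hJ' hd'
  have hc : c ≠ 0 := by
    rintro rfl
    apply hd'
    rw [hdet]
    ring
  have h5 := st_sq i (J.det * a ^ 2) (c := c * b / a) (div_ne_zero (mul_ne_zero hc hb) ha)
  have h6 : J.det * a ^ 2 * (c * b / a) ^ 2 = J'.det * b ^ 2 := by
    rw [hdet]
    field_simp
  rw [h6] at h5
  exact cong_trans (cong_trans h3 h5) (cong_symm h4)

end V03_aux

open V03_aux

theorem cong_herm (h2 : (2 : F) ≠ 0) {σ : F ≃+* F} (hs : ∀ x, σ (σ x) = x) (hne : ∃ x, σ x ≠ x)
    {J : Matrix ι ι F} {J' : Matrix ι' ι' F} (hJ : (J.map σ)ᵀ = J) (hd : J.det ≠ 0)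
    (hJ' : (J'.map σ)ᵀ = J') (hd' : J'.det ≠ 0) (hc : Fintype.card ι = Fintype.card ι') :
    Cong σ J J' := by
  have h1 := herm_one h2 hs hne hJ hd
  have h3 := herm_one h2 hs hne hJ' hd'
  have h4 := cong_reindex σ (1 : Matrix ι ι F) (Fintype.equivOfCardEq hc)
  rw [Matrix.reindex_apply, Matrix.submatrix_one_equiv] at h4
  exact cong_trans (cong_trans h1 h4) (cong_symm h3)

theorem cong_symm_form (h2 : (2 : F) ≠ 0) {J : Matrix ι ι F} {J' : Matrix ι' ι' F} (hJ : Jᵀ = J)
    (hd : J.det ≠ 0) (hJ' : J'ᵀ = J') (hd' : J'.det ≠ 0) (hc : Fintype.card ι = Fintype.card ι')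
    {c : F} (hdet : J'.det = J.det * c ^ 2) : Cong (RingEquiv.refl F) J J' := by
  have e := Fintype.equivOfCardEq hc
  have h1 := cong_reindex (RingEquiv.refl F) J' e.symm
  refine cong_trans ?_ (cong_symm h1)
  have h3 : (Matrix.reindex e.symm e.symm J').det = J'.det := Matrix.det_reindex_self _ _
  have h4 : (Matrix.reindex e.symm e.symm J')ᵀ = Matrix.reindex e.symm e.symm J' := by
    rw [Matrix.transpose_reindex, hJ']
  rcases isEmpty_or_nonempty ι with h | ⟨⟨i⟩⟩
  · have h5 : J = Matrix.reindex e.symm e.symm J' := Subsingleton.elim _ _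
    rw [← h5]
    exact cong_refl _ _
  · exact symm_same h2 i hJ hd h4 (by rw [h3]; exact hd') (by rw [h3]; exact hdet)

end

end AO.MG
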