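import Pool.Agent.AO.V01

/-!
# MP_6c3636_al, AO, module V04: alternating forms (helper7)

Induction: if `ι` is not empty there are `v`, `w` with `b v w = 1` (`b v w = ∑ v i * J i j * w j`), `b v v = b w w = 0` (`2 ≠ 0`); the complement of the span has dimension two less and the restriction of `b` is nondegenerate and alternating. So `J` is congruent to a standard form on `Fin m × Bool` (values `1`, `-1`), and `card ι = 2 m`. For `J'` the same.
-/

namespace AO.MG

noncomputable section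

open Classical Equiv Matrix

open AN (sq)


variable {ι ι' : Type} [Fintype ι] [DecidableEq ι] [Fintype ι'] [DecidableEq ι'] {F : Type} [Field F]

namespace V04_aux

theorem map_refl {α β : Type} (P : Matrix α β F) : P.map (RingEquiv.refl F) = P := by
  ext i j
  rfl

theorem cong_of {J : Matrix ι ι F} {J' : Matrix ι' ι' F} (P : Matrix ι ι' F) (Q : Matrix ι' ι F)
    (h1 : P * Q = 1) (h2 : Q * P = 1) (h3 : Pᵀ * J * P = J') : Cong (RingEquiv.refl F) J J' :=
  ⟨P, Q, h1, h2, by rw [map_refl]; exact h3⟩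

theorem cong_elim {J : Matrix ι ι F} {J' : Matrix ι' ι' F} (h : Cong (RingEquiv.refl F) J J') :
    ∃ (P : Matrix ι ι' F) (Q : Matrix ι' ι F), P * Q = 1 ∧ Q * P = 1 ∧ Pᵀ * J * P = J' := by
  obtain ⟨P, Q, h1, h2, h3⟩ := h
  rw [map_refl] at h3
  exact ⟨P, Q, h1, h2, h3⟩

theorem cong_det {J : Matrix ι ι F} {J' : Matrix ι' ι' F} (h : Cong (RingEquiv.refl F) J J')
    (hd : J.det ≠ 0) : J'.det ≠ 0 := by
  obtain ⟨P, Q, h1, h2, h3⟩ := cong_elim h
  have h4 : J * J⁻¹ = 1 := Matrix.mul_nonsing_inv _ (isUnit_iff_ne_zero.2 hd)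
  have h5 : J' * (Q * J⁻¹ * Qᵀ) = 1 := by
    calc J' * (Q * J⁻¹ * Qᵀ) = Pᵀ * (J * ((P * Q) * (J⁻¹ * Qᵀ))) := by
          rw [← h3]
          simp only [Matrix.mul_assoc]
      _ = Pᵀ * ((J * J⁻¹) * Qᵀ) := by rw [h1, Matrix.one_mul, Matrix.mul_assoc]
      _ = 1 := by rw [h4, Matrix.one_mul, ← Matrix.transpose_mul, h2, Matrix.transpose_one]
  intro h6
  have h7 := congrArg Matrix.det h5
  rw [Matrix.det_mul, h6, zero_mul, Matrix.det_one] at h7
  exact zero_ne_one h7

/-- the standard form in dimension two -/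
def EE (F : Type) [Field F] : Matrix (Fin 2) (Fin 2) F := !![0, 1; -1, 0]

theorem cong_sum {κ κ' : Type} [Fintype κ] [DecidableEq κ] [Fintype κ'] [DecidableEq κ']
    {A A' : Matrix (Fin 2) (Fin 2) F} {D : Matrix κ κ F} {D' : Matrix κ' κ' F}
    (hA : Cong (RingEquiv.refl F) A A')
    (h : Cong (RingEquiv.refl F) D D') :
    Cong (RingEquiv.refl F) (Matrix.fromBlocks A 0 0 D) (Matrix.fromBlocks A' 0 0 D') := by
  obtain ⟨P, Q, h1, h2, h3⟩ := cong_elim h
  obtain ⟨P', Q', h1', h2', h3'⟩ := cong_elim hA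
  refine cong_of (Matrix.fromBlocks P' 0 0 P) (Matrix.fromBlocks Q' 0 0 Q) ?_ ?_ ?_
  · rw [Matrix.fromBlocks_multiply, h1, h1']
    simp
  · rw [Matrix.fromBlocks_multiply, h2, h2']
    simp
  · rw [Matrix.fromBlocks_transpose, Matrix.fromBlocks_multiply, Matrix.fromBlocks_multiply]
    simp [h3, h3']

theorem schur {κ : Type} [Fintype κ] [DecidableEq κ] {A Ai : Matrix (Fin 2) (Fin 2) F}
    {B : Matrix (Fin 2) κ F} {D : Matrix κ κ F} (h1 : A * Ai = 1) (h2 : Ai * A = 1) (h3 : Aiᵀ = -Ai) :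
    Cong (RingEquiv.refl F) (Matrix.fromBlocks A B (-Bᵀ) D)
      (Matrix.fromBlocks A 0 0 (D + Bᵀ * Ai * B)) := by
  refine cong_of (Matrix.fromBlocks 1 (-(Ai * B)) 0 1) (Matrix.fromBlocks 1 (Ai * B) 0 1) ?_ ?_ ?_
  · rw [Matrix.fromBlocks_multiply]
    simp
  · rw [Matrix.fromBlocks_multiply]
    simp
  · have e1 : A * (-(Ai * B)) + B * (1 : Matrix κ κ F) = 0 := by
      rw [Matrix.mul_neg, ← Matrix.mul_assoc, h1, Matrix.one_mul, Matrix.mul_one, neg_add_cancel]
    have e2 : -Bᵀ * (-(Ai * B)) + D * (1 : Matrix κ κ F) = D + Bᵀ * Ai * B := by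
      rw [Matrix.neg_mul, Matrix.mul_neg, neg_neg, Matrix.mul_one, ← Matrix.mul_assoc, add_comm]
    have e3 : (-(Ai * B))ᵀ * A = Bᵀ := by
      rw [Matrix.transpose_neg, Matrix.transpose_mul, h3, Matrix.mul_neg, neg_neg, Matrix.mul_assoc, h2,
        Matrix.mul_one]
    rw [Matrix.mul_assoc, Matrix.fromBlocks_transpose, Matrix.fromBlocks_multiply, e1, e2,
      Matrix.fromBlocks_multiply]
    simp only [Matrix.transpose_one, Matrix.transpose_zero, Matrix.one_mul, Matrix.mul_one,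
      Matrix.zero_mul, Matrix.mul_zero, add_zero, zero_add, e3, add_neg_cancel]

theorem scale {x : F} (hx : x ≠ 0) : Cong (RingEquiv.refl F) !![0, x; -x, 0] (EE F) := by
  refine cong_of !![x⁻¹, 0; 0, 1] !![x, 0; 0, 1] ?_ ?_ ?_
  · rw [Matrix.mul_fin_two, Matrix.one_fin_two]
    simp [hx]
  · rw [Matrix.mul_fin_two, Matrix.one_fin_two]
    simp [hx]
  · have h1 : (!![x⁻¹, 0; 0, 1] : Matrix (Fin 2) (Fin 2) F)ᵀ = !![x⁻¹, 0; 0, 1] := by
      ext i j
      fin_cases i <;> fin_cases j <;> rfl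
    rw [h1, Matrix.mul_fin_two, Matrix.mul_fin_two]
    unfold EE
    simp [hx]

theorem step (h2 : (2 : F) ≠ 0) {J : Matrix ι ι F} (hJ : Jᵀ = -J) (hd : J.det ≠ 0)
    (hne : 0 < Fintype.card ι) : ∃ (κ : Type) (_ : Fintype κ) (_ : DecidableEq κ)
      (D : Matrix κ κ F), Dᵀ = -D ∧ D.det ≠ 0 ∧ Fintype.card ι = Fintype.card κ + 2 ∧
      Cong (RingEquiv.refl F) J (Matrix.fromBlocks (EE F) 0 0 D) := by
  have hxy : ∀ x y, J y x = - J x y := fun x y => by
    have h := congrFun (congrFun hJ x) y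
    exact h
  have hxx : ∀ x, J x x = 0 := fun x => by
    have h := hxy x x
    have h' : (2 : F) * J x x = 0 := by linear_combination h
    exact (mul_eq_zero.1 h').resolve_left h2
  have hex : ∃ a b, J a b ≠ 0 := by
    by_contra hcon
    push Not at hcon
    apply hd
    have h1 : J = 0 := by
      ext i j
      exact hcon i j
    have h3 : Nonempty ι := Fintype.card_pos_iff.1 hne
    rw [h1]
    exact Matrix.det_zero
  obtain ⟨a, b, hab⟩ := hex
  have hab' : a ≠ b := by
    rintro rfl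
    exact hab (hxx a)
  let f : Fin 2 ⊕ {x : ι // x ≠ a ∧ x ≠ b} → ι := Sum.elim (fun i => if i = 0 then a else b) Subtype.val
  have hf : Function.Bijective f := by
    constructor
    · rintro (i | x) (j | y) h
      · have h' : (if i = 0 then a else b) = if j = 0 then a else b := h
        by_cases hi : i = 0
        · by_cases hj : j = 0
          · rw [hi, hj]
          · rw [if_pos hi, if_neg hj] at h'
            exact absurd h' hab'
        · by_cases hj : j = 0
          · rw [if_neg hi, if_pos hj] at h'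
            exact absurd h'.symm hab'
          · congr 1
            omega
      · exfalso
        have h' : (if i = 0 then a else b) = (y : ι) := h
        by_cases hi : i = 0
        · rw [if_pos hi] at h'
          exact y.2.1 h'.symm
        · rw [if_neg hi] at h'
          exact y.2.2 h'.symm
      · exfalso
        have h' : (x : ι) = if j = 0 then a else b := h
        by_cases hj : j = 0
        · rw [if_pos hj] at h'
          exact x.2.1 h'
        · rw [if_neg hj] at h'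
          exact x.2.2 h'
      · exact congrArg Sum.inr (Subtype.ext h)
    · intro x
      by_cases h1 : x = a
      · exact ⟨Sum.inl 0, h1.symm⟩
      · by_cases h3 : x = b
        · exact ⟨Sum.inl 1, h3.symm⟩
        · exact ⟨Sum.inr ⟨x, h1, h3⟩, rfl⟩
  let e : Fin 2 ⊕ {x : ι // x ≠ a ∧ x ≠ b} ≃ ι := Equiv.ofBijective f hf
  have hc : Fintype.card ι = Fintype.card {x : ι // x ≠ a ∧ x ≠ b} + 2 := by
    rw [← Fintype.card_congr e, Fintype.card_sum, Fintype.card_fin, add_comm]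
  obtain ⟨B, hB⟩ : ∃ B : Matrix (Fin 2) {x : ι // x ≠ a ∧ x ≠ b} F,
    B = fun i (x : {x : ι // x ≠ a ∧ x ≠ b}) => J (f (Sum.inl i)) (x : ι) := ⟨_, rfl⟩
  obtain ⟨D, hD⟩ : ∃ D : Matrix {x : ι // x ≠ a ∧ x ≠ b} {x : ι // x ≠ a ∧ x ≠ b} F,
    D = fun (x y : {x : ι // x ≠ a ∧ x ≠ b}) => J (x : ι) (y : ι) := ⟨_, rfl⟩
  have hM : Matrix.reindex e.symm e.symm J =
      Matrix.fromBlocks !![0, J a b; -(J a b), 0] B (-Bᵀ) D := by
    ext i j
    rw [Matrix.reindex_apply, Matrix.submatrix_apply, Equiv.symm_symm]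
    show J (f i) (f j) = _
    rcases i with i | i <;> rcases j with j | j
    · rw [Matrix.fromBlocks_apply₁₁]
      fin_cases i <;> fin_cases j
      · exact hxx a
      · rfl
      · exact hxy a b
      · exact hxx b
    · rw [Matrix.fromBlocks_apply₁₂, hB]
      rfl
    · rw [Matrix.fromBlocks_apply₂₁, hB]
      exact hxy _ _
    · rw [Matrix.fromBlocks_apply₂₂, hD]
      rfl
  have hDt : Dᵀ = -D := by
    ext i j
    rw [hD]
    exact hxy _ _
  obtain ⟨Ai, hAi⟩ : ∃ Ai : Matrix (Fin 2) (Fin 2) F, Ai = !![0, -(J a b)⁻¹; (J a b)⁻¹, 0] := ⟨_, rfl⟩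
  have hA1 : !![0, J a b; -(J a b), 0] * Ai = 1 := by
    rw [hAi, Matrix.mul_fin_two, Matrix.one_fin_two]
    simp [hab]
  have hA2 : Ai * !![0, J a b; -(J a b), 0] = 1 := by
    rw [hAi, Matrix.mul_fin_two, Matrix.one_fin_two]
    simp [hab]
  have hA3 : Aiᵀ = -Ai := by
    rw [hAi]
    ext i j
    fin_cases i <;> fin_cases j <;> simp
  have h3 : Cong (RingEquiv.refl F) J (Matrix.fromBlocks (EE F) 0 0 (D + Bᵀ * Ai * B)) := by
    refine cong_trans (cong_reindex _ J e.symm) ?_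
    rw [hM]
    exact cong_trans (schur hA1 hA2 hA3) (cong_sum (scale hab) (cong_refl _ _))
  refine ⟨_, _, _, D + Bᵀ * Ai * B, ?_, ?_, hc, h3⟩
  · rw [Matrix.transpose_add, Matrix.transpose_mul, Matrix.transpose_mul, Matrix.transpose_transpose, hDt,
      hA3, neg_add, Matrix.neg_mul, Matrix.mul_neg, Matrix.mul_assoc]
  · have h4 := cong_det h3 hd
    rw [Matrix.det_fromBlocks_zero₂₁] at h4
    exact (mul_ne_zero_iff.1 h4).2

theorem main (h2 : (2 : F) ≠ 0) (m : ℕ) : ∀ (ι ι' : Type) [Fintype ι] [DecidableEq ι] [Fintype ι']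
    [DecidableEq ι'] (J : Matrix ι ι F) (J' : Matrix ι' ι' F), Jᵀ = -J → J.det ≠ 0 → J'ᵀ = -J' →
    J'.det ≠ 0 → Fintype.card ι = m → Fintype.card ι' = m → Cong (RingEquiv.refl F) J J' := by
  induction m using Nat.strong_induction_on with
  | _ m ih =>
    intro ι ι' _ _ _ _ J J' hJ hd hJ' hd' hc hc'
    rcases Nat.eq_zero_or_pos m with h0 | h0
    · subst h0
      have h1 : IsEmpty ι := Fintype.card_eq_zero_iff.1 hc
      have h1' : IsEmpty ι' := Fintype.card_eq_zero_iff.1 hc'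
      refine cong_of 0 0 ?_ ?_ ?_
      · ext i
        exact h1.elim i
      · ext i
        exact h1'.elim i
      · ext i
        exact h1'.elim i
    · obtain ⟨κ, _, _, D, hD1, hD2, hD3, hD4⟩ := step h2 hJ hd (by omega)
      obtain ⟨κ', _, _, D', hD1', hD2', hD3', hD4'⟩ := step h2 hJ' hd' (by omega)
      have h := ih (m - 2) (by omega) κ κ' D D' hD1 hD2 hD1' hD2' (by omega) (by omega)
      exact cong_trans hD4 (cong_trans (cong_sum (cong_refl _ _) h) (cong_symm hD4'))

end V04_aux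

theorem cong_alt (h2 : (2 : F) ≠ 0) {J : Matrix ι ι F} {J' : Matrix ι' ι' F} (hJ : Jᵀ = -J)
    (hd : J.det ≠ 0) (hJ' : J'ᵀ = -J') (hd' : J'.det ≠ 0) (hc : Fintype.card ι = Fintype.card ι') :
    Cong (RingEquiv.refl F) J J' :=
  V04_aux.main h2 _ ι ι' J J' hJ hd hJ' hd' rfl hc.symm

theorem alt_even (h2 : (2 : F) ≠ 0) {J : Matrix ι ι F} (hJ : Jᵀ = -J) (hd : J.det ≠ 0) :
    Even (Fintype.card ι) := by
  have h1 : J.det = (-1) ^ Fintype.card ι * J.det := by
    rw [← Matrix.det_neg, ← hJ, Matrix.det_transpose]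
  by_contra h
  rw [Nat.not_even_iff_odd] at h
  rw [h.neg_one_pow] at h1
  have h3 : (2 : F) * J.det = 0 := by linear_combination h1
  exact (mul_ne_zero h2 hd) h3

end

end AO.MG
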