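import Pool.Agent.AO.V03
import Pool.Agent.AO.V04
import Pool.Agent.AO.N09
import Pool.Agent.AO.P02
import Pool.Agent.AO.P05
import Pool.Agent.AO.P07
import Pool.Agent.AO.P11
import Pool.Agent.Parker.P13

/-!
# MP_6c3636_al, AO, module V06: isometry groups of arbitrary forms (helper7)

`iso_sp`: `d` is even (`alt_even`), `d = 2 n`, `n > 0` if `d > 0`; the matrix `(fSp n F h2).J` is alternating and invertible (a monomial matrix), `cong_alt`, `cong_G`; `(fSp n F h2).G = IG (fSp n F h2).J _` (`TW refl pm` is everything as `pm = 1` for `a = 0`; `so = false`). Then `sp_propA`, `sp_propB` and invariance of `PropA`, `PropB` under isomorphisms (see G01, LieP/Z03). `iso_su`: `d = 2 n`, `n ≥ 2`, or `d = 2 n + 1`, `n ≥ 1` for `d ≥ 3`: `(fU n ..).J` is hermitian and invertible; `cong_herm`, `cong_S`, `su_even_propA`, `su_odd_propA`. `iso_so`: `d = 2 n + 1`, `n ≥ 2`: let `J'` be the matrix of `fSO n F h2`; choose `c ≠ 0` with `J'.det = (c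 • J).det * square`: `(c • J).det = c ^ d * J.det`, `c = J'.det * J.det`; `cong_symm_form`, `IG_smul`, `cong_C`; `(fSO n F h2).G = IG J' refl ⊓ DT`.
-/

namespace AO.MG

noncomputable section

open Classical Equiv Matrix

open AN (sq)


variable {Ω : Type} [Field Ω] [IsAlgClosed Ω] [CharZero Ω] {c : Parker.Ctx Ω} {F : Type} [Field F]
  [Finite F] {d : ℕ}

namespace V06_aux

variable {n a : ℕ}

theorem du_du (x : Ix n a) : du (du x) = x := by
  rcases x with ⟨i, b⟩ | j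
  · show (Sum.inl (i, !(!b)) : Ix n a) = Sum.inl (i, b)
    rw [Bool.not_not]
  · show (Sum.inr (Fin.rev (Fin.rev j)) : Ix n a) = Sum.inr j
    rw [Fin.rev_rev]

theorem eq_du {x y : Ix n a} : y = du x ↔ x = du y := by
  constructor
  · rintro rfl
    rw [du_du]
  · rintro rfl
    rw [du_du]

theorem pm_eq (ha : a ≤ 1) (x : Ix n a) : pm x = x := by
  rcases x with p | j
  · rfl
  · show (Sum.inr (Fin.rev j) : Ix n a) = Sum.inr j
    have h : Fin.rev j = j := Fin.ext (by have := (Fin.rev j).2; have := j.2; omega)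
    rw [h]

theorem TW_top (ha : a ≤ 1) : TW (RingEquiv.refl F) (pm : Perm (Ix n a)) = ⊤ := by
  rw [eq_top_iff]
  intro g _
  refine ⟨fun i j => ?_, fun i j => ?_⟩
  · rw [pm_eq ha, pm_eq ha]
    rfl
  · rw [pm_eq ha, pm_eq ha]
    rfl

theorem J_mo (D : FD n a F) : D.J = ((mo du (fun x => D.c (du x)) : GL (Ix n a) F) :
    Matrix (Ix n a) (Ix n a) F) := by
  ext x y
  show (if y = du x then ((D.c x : Fˣ) : F) else 0) = if x = du y then ((D.c (du y) : Fˣ) : F) else 0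
  by_cases h : x = du y
  · rw [if_pos h, if_pos (eq_du.2 h), ← h]
  · rw [if_neg h, if_neg (fun h' => h (eq_du.1 h'))]

theorem J_det (D : FD n a F) : D.J.det ≠ 0 := by
  rw [J_mo]
  have h := (Matrix.isUnit_iff_isUnit_det ((mo du (fun x => D.c (du x)) : GL (Ix n a) F) :
    Matrix (Ix n a) (Ix n a) F)).1 (Units.isUnit _)
  exact h.ne_zero

theorem J_transpose (D : FD n a F) (x y : Ix n a) :
    D.J y x = if y = du x then ((D.c (du x) : Fˣ) : F) else 0 := by
  show (if x = du y then ((D.c y : Fˣ) : F) else 0) = _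
  by_cases h : y = du x
  · rw [if_pos h, if_pos (eq_du.1 h), ← h]
  · rw [if_neg h, if_neg (fun h' => h (eq_du.2 h'))]

theorem J_alt (h2 : (2 : F) ≠ 0) : ((fSp n F h2).J)ᵀ = -(fSp n F h2).J := by
  ext x y
  rw [Matrix.transpose_apply, J_transpose, Matrix.neg_apply]
  show _ = -(if y = du x then (((fSp n F h2).c x : Fˣ) : F) else 0)
  by_cases h : y = du x
  · rw [if_pos h, if_pos h]
    rcases x with ⟨i, b⟩ | j
    · cases b
      · show (((-1 : Fˣ)) : F) = -((1 : Fˣ) : F)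
        rw [Units.val_neg]
      · show (((1 : Fˣ)) : F) = -((-1 : Fˣ) : F)
        rw [Units.val_neg, neg_neg]
    · exact j.elim0
  · rw [if_neg h, if_neg h, neg_zero]

theorem J_herm {σ : F ≃+* F} (D : FD n a F) (h : ∀ x, D.c x = 1) : (D.J.map σ)ᵀ = D.J := by
  ext x y
  rw [Matrix.transpose_apply, Matrix.map_apply, J_transpose]
  show _ = if y = du x then ((D.c x : Fˣ) : F) else 0
  by_cases h' : y = du x
  · rw [if_pos h', if_pos h', h, h, Units.val_one, map_one]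
  · rw [if_neg h', if_neg h', map_zero]

theorem c_fU {ha : a ≤ 1} {h2 : (2 : F) ≠ 0} {σ : F ≃+* F} {hs : ∀ x, σ (σ x) = x} (x : Ix n a) :
    (fU n ha h2 σ hs).c x = 1 := by
  rcases x with ⟨i, b⟩ | j
  · cases b <;> rfl
  · rfl

theorem c_fSO {h2 : (2 : F) ≠ 0} (x : Ix n 1) : (fSO n F h2).c x = 1 := by
  rcases x with ⟨i, b⟩ | j
  · cases b <;> rfl
  · rfl

theorem G_fSp (h2 : (2 : F) ≠ 0) : (fSp n F h2).G = IG (fSp n F h2).J (RingEquiv.refl F) := by
  show IG (fSp n F h2).J (RingEquiv.refl F) ⊓ TW (RingEquiv.refl F) pm ⊓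
    (if false = true then DT (Ix n 0) F else ⊤) = _
  rw [TW_top (Nat.zero_le 1), if_neg Bool.false_ne_true, inf_top_eq, inf_top_eq]

theorem G_fU (ha : a ≤ 1) (h2 : (2 : F) ≠ 0) (σ : F ≃+* F) (hs : ∀ x, σ (σ x) = x) :
    (fU n ha h2 σ hs).G = IG (fU n ha h2 σ hs).J σ := by
  show IG (fU n ha h2 σ hs).J σ ⊓ TW (RingEquiv.refl F) pm ⊓
    (if false = true then DT (Ix n a) F else ⊤) = _
  rw [TW_top ha, if_neg Bool.false_ne_true, inf_top_eq, inf_top_eq]

theorem G_fSO (h2 : (2 : F) ≠ 0) :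
    (fSO n F h2).G = IG (fSO n F h2).J (RingEquiv.refl F) ⊓ DT (Ix n 1) F := by
  show IG (fSO n F h2).J (RingEquiv.refl F) ⊓ TW (RingEquiv.refl F) pm ⊓
    (if true = true then DT (Ix n 1) F else ⊤) = _
  rw [TW_top le_rfl, if_pos rfl, inf_top_eq]

theorem card_Ix : Fintype.card (Ix n a) = n * 2 + a := by
  rw [Fintype.card_sum, Fintype.card_prod, Fintype.card_fin, Fintype.card_fin, Fintype.card_bool]

end V06_aux

open V06_aux

theorem iso_sp (h2 : (2 : F) ≠ 0) {J : Matrix (Fin d) (Fin d) F} (hd : 0 < d) (hJ : Jᵀ = -J)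
    (hdet : J.det ≠ 0) : Parker.PropA c 1 (IG J (RingEquiv.refl F)) ∧
      Parker.PropB c 1 (IG J (RingEquiv.refl F)) := by
  have h1 : Even d := by
    have h := alt_even h2 hJ hdet
    rwa [Fintype.card_fin] at h
  obtain ⟨n, hn⟩ := h1
  have hn0 : 0 < n := by omega
  have hc : Fintype.card (Fin d) = Fintype.card (Ix n 0) := by
    rw [card_Ix, Fintype.card_fin]
    omega
  obtain ⟨e⟩ := cong_G (cong_alt h2 hJ hdet (J_alt h2) (J_det (fSp n F h2)) hc)
  have hA : Parker.PropA c 1 (fSp n F h2).G := sp_propA hn0 F h2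
  have hB : Parker.PropB c 1 (fSp n F h2).G := sp_propB hn0 F h2
  rw [G_fSp] at hA hB
  exact ⟨Parker.propA_congr e hA, Parker.propB_congr e hB⟩

theorem iso_su (h2 : (2 : F) ≠ 0) {σ : F ≃+* F} (hs : ∀ x, σ (σ x) = x) (hne : ∃ x, σ x ≠ x)
    {J : Matrix (Fin d) (Fin d) F} (hd : 3 ≤ d) (hJ : (J.map σ)ᵀ = J) (hdet : J.det ≠ 0) :
    Parker.PropA c 1 (IG J σ ⊓ DT (Fin d) F : Subgroup (GL (Fin d) F)) ∧
      Parker.PropB c 1 (IG J σ ⊓ DT (Fin d) F : Subgroup (GL (Fin d) F)) := by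
  rcases Nat.even_or_odd' d with ⟨n, hn | hn⟩
  · have hc : Fintype.card (Fin d) = Fintype.card (Ix n 0) := by
      rw [card_Ix, Fintype.card_fin]
      omega
    have hn2 : 2 ≤ n := by omega
    obtain ⟨e⟩ := cong_S (cong_herm h2 hs hne hJ hdet
      (J_herm (fU n (a := 0) (Nat.zero_le 1) h2 σ hs) c_fU)
      (J_det (fU n (a := 0) (Nat.zero_le 1) h2 σ hs)) hc)
    have hA : Parker.PropA c 1
      ((fU n (a := 0) (Nat.zero_le 1) h2 σ hs).G ⊓ DT (Ix n 0) F : Subgroup (GL (Ix n 0) F)) :=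
      su_even_propA hn2 h2 σ hs hne
    have hB : Parker.PropB c 1
      ((fU n (a := 0) (Nat.zero_le 1) h2 σ hs).G ⊓ DT (Ix n 0) F : Subgroup (GL (Ix n 0) F)) :=
      su_even_propB hn2 h2 σ hs hne
    rw [G_fU] at hA hB
    exact ⟨Parker.propA_congr e hA, Parker.propB_congr e hB⟩
  · have hc : Fintype.card (Fin d) = Fintype.card (Ix n 1) := by
      rw [card_Ix, Fintype.card_fin]
      omega
    have hn1 : 1 ≤ n := by omega
    obtain ⟨e⟩ := cong_S (cong_herm h2 hs hne hJ hdet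
      (J_herm (fU n (a := 1) le_rfl h2 σ hs) c_fU)
      (J_det (fU n (a := 1) le_rfl h2 σ hs)) hc)
    have hA : Parker.PropA c 1
      ((fU n (a := 1) le_rfl h2 σ hs).G ⊓ DT (Ix n 1) F : Subgroup (GL (Ix n 1) F)) :=
      su_odd_propA hn1 h2 σ hs hne
    have hB : Parker.PropB c 1
      ((fU n (a := 1) le_rfl h2 σ hs).G ⊓ DT (Ix n 1) F : Subgroup (GL (Ix n 1) F)) :=
      su_odd_propB hn1 h2 σ hs hne
    rw [G_fU] at hA hB
    exact ⟨Parker.propA_congr e hA, Parker.propB_congr e hB⟩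

theorem iso_so (h2 : (2 : F) ≠ 0) {J : Matrix (Fin d) (Fin d) F} (hd : 5 ≤ d) (ho : Odd d)
    (hJ : Jᵀ = J) (hdet : J.det ≠ 0) :
    Parker.PropA c 1 (⁅IG J (RingEquiv.refl F) ⊓ DT (Fin d) F, IG J (RingEquiv.refl F) ⊓ DT (Fin d) F⁆ :
      Subgroup (GL (Fin d) F)) ∧
    Parker.PropB c 1 (⁅IG J (RingEquiv.refl F) ⊓ DT (Fin d) F, IG J (RingEquiv.refl F) ⊓ DT (Fin d) F⁆ :
      Subgroup (GL (Fin d) F)) := by
  obtain ⟨n, hn⟩ := ho
  have hc : Fintype.card (Fin d) = Fintype.card (Ix n 1) := by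
    rw [card_Ix, Fintype.card_fin]
    omega
  have hn2 : 2 ≤ n := by omega
  have hJ' : ((fSO n F h2).J)ᵀ = (fSO n F h2).J := by
    have h := J_herm (σ := RingEquiv.refl F) (fSO n F h2) c_fSO
    have h3 : (fSO n F h2).J.map (RingEquiv.refl F) = (fSO n F h2).J := by
      ext x y
      rfl
    rwa [h3] at h
  have hd' := J_det (fSO n F h2)
  set t : F := (fSO n F h2).J.det * J.det with ht
  have ht0 : t ≠ 0 := mul_ne_zero hd' hdet
  have h3 : (t • J).det = t ^ d * J.det := by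
    rw [Matrix.det_smul, Fintype.card_fin]
  have h4 : (t • J).det ≠ 0 := by
    rw [h3]
    exact mul_ne_zero (pow_ne_zero _ ht0) hdet
  have h5 : (fSO n F h2).J.det = (t • J).det * (t ^ (n + 1) / (t • J).det) ^ 2 := by
    have h6 : (fSO n F h2).J.det * (t • J).det = (t ^ (n + 1)) ^ 2 := by
      rw [h3]
      have h7 : (fSO n F h2).J.det * (t ^ d * J.det) = t ^ d * t := by
        rw [ht]
        ring
      rw [h7, ← pow_succ, ← pow_mul]
      congr 1
      omega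
    rw [div_pow, ← h6]
    field_simp
  have h8 : (t • J)ᵀ = t • J := by rw [Matrix.transpose_smul, hJ]
  obtain ⟨e⟩ := cong_C (cong_symm_form h2 h8 h4 hJ' hd' hc h5)
  have hA : Parker.PropA c 1 (⁅(fSO n F h2).G, (fSO n F h2).G⁆ : Subgroup (GL (Ix n 1) F)) :=
    so_propA hn2 F h2
  have hB : Parker.PropB c 1 (⁅(fSO n F h2).G, (fSO n F h2).G⁆ : Subgroup (GL (Ix n 1) F)) :=
    so_propB hn2 F h2
  rw [G_fSO] at hA hB
  have hA' := Parker.propA_congr e hA
  have hB' := Parker.propB_congr e hB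
  rw [IG_smul ht0] at hA' hB'
  exact ⟨hA', hB'⟩

end

end AO.MG
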