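import Pool.Agent.AO.Q14
import Pool.Agent.AO.V03
import Pool.Agent.AO.V01
import Pool.Agent.AO.V06

/-!
# MP_6c3636_al, AO, module Q15: orthogonal groups of plus type of arbitrary forms (helper7)

`J' = (fOp n F h2).J` is symmetric with `det J' = (-1) ^ n` (up to nothing: the matrix has the entries `1` at `(ei, fi)`, `(fi, ei)`; `Matrix.det` of a monomial matrix, or `J'` is congruent to `diagonal (2, -2, ...)`), so `J'.det = J.det * c ^ 2` for some `c` (`(-1) ^ n * J.det` is a nonzero square). `cong_symm_form`, `cong_C`; `(fOp n F h2).G = IG J' refl` (`TW refl pm` is everything: `pm = 1` for `a = 0`; `so = false`).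
-/

namespace AO.MG

noncomputable section

open Classical Equiv Matrix

open AN (sq)

namespace Q15_aux

variable {F : Type} [Field F]

/-- the matrix of a hyperbolic plane -/
def hS (K : Type) [Field K] : Matrix Bool Bool K := fun b b' => if b' = !b then 1 else 0

theorem hS_det (K : Type) [Field K] : (hS K).det = -1 := by
  rw [← Matrix.det_submatrix_equiv_self finTwoEquiv, Matrix.det_fin_two]
  simp [hS, finTwoEquiv]

theorem J_eq {n : ℕ} (h2 : (2 : F) ≠ 0) : (fOp n F h2).J =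
    Matrix.fromBlocks (Matrix.kroneckerMap (fun x y => x * y) (1 : Matrix (Fin n) (Fin n) F) (hS F)) 0 0
      (1 : Matrix (Fin 0) (Fin 0) F) := by
  ext x y
  rcases x with ⟨k, b⟩ | k
  · rcases y with ⟨l, b'⟩ | l
    · have e1 : (fOp n F h2).J (Sum.inl (k, b)) (Sum.inl (l, b')) =
          if (Sum.inl (l, b') : Ix n 0) = Sum.inl (k, !b) then 1 else 0 := by
        unfold FD.J
        cases b <;> rfl
      rw [e1, Matrix.fromBlocks_apply₁₁]
      simp only [hS, Matrix.kroneckerMap_apply, Matrix.one_apply, Sum.inl.injEq, Prod.mk.injEq]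
      by_cases h : k = l
      · subst h
        simp
      · have h' : ¬ l = k := fun e => h e.symm
        simp [h, h']
    · exact l.elim0
  · exact k.elim0

theorem J_det' {n : ℕ} (h2 : (2 : F) ≠ 0) : (fOp n F h2).J.det = (-1) ^ n := by
  rw [J_eq, Matrix.det_fromBlocks_zero₂₁, Matrix.det_kronecker, Matrix.det_one, hS_det, one_pow, one_mul,
    Fintype.card_fin, Matrix.det_one, mul_one]

theorem c_fOp {n : ℕ} {h2 : (2 : F) ≠ 0} (x : Ix n 0) : (fOp n F h2).c x = 1 := by
  rcases x with ⟨i, b⟩ | j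
  · cases b <;> rfl
  · rfl

theorem G_fOp [Finite F] {n : ℕ} (h2 : (2 : F) ≠ 0) : (fOp n F h2).G = IG (fOp n F h2).J (RingEquiv.refl F) := by
  show IG (fOp n F h2).J (RingEquiv.refl F) ⊓ TW (RingEquiv.refl F) pm ⊓
    (if false = true then DT (Ix n 0) F else ⊤) = _
  rw [V06_aux.TW_top (Nat.zero_le 1), if_neg Bool.false_ne_true, inf_top_eq, inf_top_eq]

end Q15_aux

open Q15_aux

theorem iso_op {Ω : Type} [Field Ω] [IsAlgClosed Ω] [CharZero Ω] {c : Parker.Ctx Ω} {F : Type}
    [Field F] [Finite F] (h2 : (2 : F) ≠ 0) {n d : ℕ} (hn : 3 ≤ n) (hd : d = 2 * n)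
    {J : Matrix (Fin d) (Fin d) F} (hJ : Jᵀ = J) (hdet : J.det ≠ 0)
    (hns : IsSquare ((-1) ^ n * J.det)) :
    Parker.PropA c 1 (⁅IG J (RingEquiv.refl F) ⊓ DT (Fin d) F, IG J (RingEquiv.refl F) ⊓ DT (Fin d) F⁆ :
      Subgroup (GL (Fin d) F)) ∧
    Parker.PropB c 1 (⁅IG J (RingEquiv.refl F) ⊓ DT (Fin d) F, IG J (RingEquiv.refl F) ⊓ DT (Fin d) F⁆ :
      Subgroup (GL (Fin d) F)) := by
  obtain ⟨r, hr⟩ := hns
  have hc : Fintype.card (Fin d) = Fintype.card (Ix n 0) := by
    rw [V06_aux.card_Ix, Fintype.card_fin]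
    omega
  have hJ' : ((fOp n F h2).J)ᵀ = (fOp n F h2).J := by
    have h := V06_aux.J_herm (σ := RingEquiv.refl F) (fOp n F h2) c_fOp
    have h3 : (fOp n F h2).J.map (RingEquiv.refl F) = (fOp n F h2).J := by
      ext x y
      rfl
    rwa [h3] at h
  have hd' := V06_aux.J_det (fOp n F h2)
  have h5 : (fOp n F h2).J.det = J.det * (r / J.det) ^ 2 := by
    rw [J_det', div_pow, sq r, ← hr]
    field_simp
  obtain ⟨e⟩ := cong_C (cong_symm_form h2 hJ hdet hJ' hd' hc h5)
  obtain ⟨hA, hB⟩ := op_AB (c := c) hn F h2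
  rw [G_fOp] at hA hB
  exact ⟨Parker.propA_congr e hA, Parker.propB_congr e hB⟩

end

end AO.MG
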