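import Pool.Agent.AO.Z01

/-!
# MP_6c3636_al, AO (classical groups in odd characteristic): definitions, part 4: groups of type D (helper7)

`X : BD B`: the group `G` of `B : BN G n` (for example the orthogonal group of plus type; the end node has `R 0 = ⊥`) has the
two characters `d` (determinant) and `l` (spinor norm with `l (s 0) = 1`), `X.H` is the intersection of their kernels.
`X.ch p` is the character `d ^ p.1 * l ^ p.2`. The twist by `X.ch p` moves the types of the boxes by `dp p`.
-/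

namespace AO

noncomputable section

open Classical Equiv

open AN (sq)

section Types

/-- the involution of the types which changes the sign -/
def sf (y : Ty) : Ty := if (y : ℕ) % 2 = 0 then y + 1 else y - 1

/-- the involution of the types of the twist `p` -/
def dp (p : Bool × Bool) (y : Ty) : Ty :=
  (if p.1 = true then sf else id) ((if p.2 = true then dl2 else id) y)

theorem dp_dp (p : Bool × Bool) (y : Ty) : dp p (dp p y) = y := by
  revert p y
  decide

theorem dp_ne {p : Bool × Bool} (hp : p ≠ (false, false)) (y : Ty) : dp p y ≠ y := by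
  revert hp y
  revert p
  decide

theorem dp_one (y : Ty) : dp (false, false) y = y := rfl

/-- the product of the twists -/
def pa (p q : Bool × Bool) : Bool × Bool := (xor p.1 q.1, xor p.2 q.2)

theorem dp_pa (p q : Bool × Bool) (y : Ty) : dp (pa p q) y = dp p (dp q y) := by
  revert p q y
  decide

theorem lb_dp (p : Bool × Bool) (y : Ty) : lb (dp p y) = xor (lb y) p.2 := by
  revert p y
  decide

theorem sg_dp (p : Bool × Bool) (y : Ty) : sg (dp p y) = if p.1 = true then - sg y else sg y := by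
  revert p y
  decide

variable {n : ℕ}

/-- the twist of a sequence of boxes -/
def dpS (p : Bool × Bool) (β : Fin n → Et) : Fin n → Et := fun i => (dp p (β i).1, (β i).2)

theorem dpS_one (β : Fin n → Et) : dpS (false, false) β = β := rfl

theorem dpS_pa (p q : Bool × Bool) (β : Fin n → Et) : dpS (pa p q) β = dpS p (dpS q β) := by
  funext i
  show (dp (pa p q) (β i).1, (β i).2) = (dp p (dp q (β i).1), (β i).2)
  rw [dp_pa]

/-- the number of the inversions of the labels -/
def lin (β : Fin n → Et) : ℕ :=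
  ∑ i : Fin n, ∑ j : Fin n, if i < j ∧ lb (β i).1 = true ∧ lb (β j).1 = false then 1 else 0

/-- the parameters of type D -/
def PD {K : Type} [Field K] (P : Par K) : Prop := (∀ b, P.w b = 1) ∧ ∀ y, P.j y = 0

end Types

/-- the data of type D -/
structure BD {G : Type} [Group G] {n : ℕ} (B : BN G n) where
  /-- the normal subgroup -/
  H : Subgroup G
  /-- the determinant -/
  d : G →* ℤˣ
  /-- the spinor norm -/
  l : G →* ℤˣ
  mem : ∀ g, g ∈ H ↔ d g = 1 ∧ l g = 1
  dU : ∀ u ∈ B.U, d u = 1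
  lU : ∀ u ∈ B.U, l u = 1
  dT : ∀ x ∈ B.T, d x = 1
  lT : ∀ x ∈ B.T, l x = B.th (fun _ => true) x
  d0 : ∀ i : Fin n, (i : ℕ) = 0 → d (B.s i) = -1
  ds : ∀ i : Fin n, 0 < (i : ℕ) → d (B.s i) = 1
  l0 : ∀ i : Fin n, (i : ℕ) = 0 → l (B.s i) = 1
  ls : ∀ i : Fin n, 0 < (i : ℕ) → l (B.s i) = B.sn true
  R0 : ∀ i : Fin n, (i : ℕ) = 0 → B.R i = ⊥
  s0 : ∀ i : Fin n, (i : ℕ) = 0 → B.s i * B.s i = 1
  gd : B.gd = true
  n2 : 2 ≤ n
  re : ∀ f : G → ℤˣ, (∀ x ∈ B.T ⊓ H, ∀ y ∈ B.T ⊓ H, f (x * y) = f x * f y) →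
    (∃ a, ∀ x ∈ B.T ⊓ H, f x = B.th a x) ∨
      ∀ m ∈ B.N, ∀ i j : Fin n, (i : ℕ) = 0 → (j : ℕ) = 1 →
        (∃ x ∈ B.T ⊓ H, f (m⁻¹ * ((B.s j)⁻¹ * x * B.s j) * m) ≠ f (m⁻¹ * x * m)) ∨
        ∃ x ∈ B.T ⊓ H, f (m⁻¹ * ((B.s i * B.s j * B.s i)⁻¹ * x * (B.s i * B.s j * B.s i)) * m) ≠
          f (m⁻¹ * x * m)

namespace BD

variable {G : Type} [Group G] {n : ℕ} {B : BN G n} (X : BD B)

/-- the characters of `G` with kernel containing `H` -/
def ch (p : Bool × Bool) : G →* ℤˣ := (if p.1 = true then X.d else 1) * (if p.2 = true then X.l else 1)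

theorem ch_apply (p : Bool × Bool) (g : G) :
    X.ch p g = (if p.1 = true then X.d g else 1) * (if p.2 = true then X.l g else 1) := by
  show (if p.1 = true then X.d else 1) g * (if p.2 = true then X.l else 1) g = _
  congr 1
  · split_ifs <;> rfl
  · split_ifs <;> rfl

theorem UH : B.U ≤ X.H := fun u hu => (X.mem u).2 ⟨X.dU u hu, X.lU u hu⟩

theorem normal : X.H.Normal where
  conj_mem := by
    intro h hh g
    obtain ⟨h1, h2⟩ := (X.mem h).1 hh
    refine (X.mem _).2 ⟨?_, ?_⟩
    · rw [map_mul, map_mul, h1, mul_one, ← map_mul, mul_inv_cancel, map_one]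
    · rw [map_mul, map_mul, h2, mul_one, ← map_mul, mul_inv_cancel, map_one]

variable {Ω : Type} [Field Ω] {V : Type} [AddCommGroup V] [Module Ω V]

/-- the projection on the fixed points of `U` in a representation of `X.H` -/
def eH [Finite G] (ρ : Representation Ω X.H V) : Module.End Ω V := eU (B.U.subgroupOf X.H) ρ

/-- the weight spaces of a representation of `X.H` -/
def wt [Finite G] (ρ : Representation Ω X.H V) (f : G → Ω) : Submodule Ω V where
  carrier := {v | X.eH ρ v = v ∧ ∀ x (hx : x ∈ X.H), x ∈ B.T → ρ ⟨x, hx⟩ v = f x • v}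
  add_mem' := by
    rintro v w ⟨h1, h2⟩ ⟨h3, h4⟩
    refine ⟨by rw [map_add, h1, h3], fun x hx hT => ?_⟩
    rw [map_add, h2 x hx hT, h4 x hx hT, smul_add]
  zero_mem' := ⟨map_zero _, fun x hx _ => by rw [map_zero, smul_zero]⟩
  smul_mem' := by
    rintro r v ⟨h1, h2⟩
    refine ⟨by rw [map_smul, h1], fun x hx hT => ?_⟩
    rw [map_smul, h2 x hx hT, smul_comm]

end BD

end

end AO
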