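import Pool.Agent.AO.S01

/-!
# MP_6c3636_al, AO, module S02: exchange of two boxes (helper7)

As AN/C02.lean. `AN.sq_k`, `AN.sq_l`, `AN.sq_other`, `AN.sq_sq` are stated for integral sequences; here the same for boxes (any type). `cnT (sq β k l) j = cnT β j` for `j ≤ k` and for `j ≥ l + 1`. `LgT_ne`: after the step `k` there is no bead at `β k`. `LgT_sq`: the steps `β k` and `β l` do not interact (`Be` or its converse: different types, or the four places `a, a + 1, b, b + 1` of the same type are different). `LgT_cases`: for a legal `β` and `l = k + 1`: `β k ≠ β l` (`LgT_ne`).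
-/

namespace AO

noncomputable section

open Classical Equiv

open AN (sq)

variable {n : ℕ}

theorem sqT_k (β : Fin n → Et) (k l : Fin n) : sq β k l k = β l := by
  unfold AN.sq
  rw [swap_apply_left]

theorem sqT_l (β : Fin n → Et) (k l : Fin n) : sq β k l l = β k := by
  unfold AN.sq
  rw [swap_apply_right]

theorem sqT_other (β : Fin n → Et) {k l j : Fin n} (hk : j ≠ k) (hl : j ≠ l) : sq β k l j = β j := by
  unfold AN.sq
  rw [swap_apply_of_ne_of_ne hk hl]

theorem sqT_sq (β : Fin n → Et) (k l : Fin n) : sq (sq β k l) k l = β := by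
  funext i
  unfold AN.sq
  rw [swap_apply_self]

namespace S02_aux

theorem swap_lt {k l j : Fin n} {m : ℕ} (h : (k : ℕ) < m ↔ (l : ℕ) < m) (hj : (j : ℕ) < m) :
    ((swap k l j : Fin n) : ℕ) < m := by
  rcases eq_or_ne j k with rfl | h1
  · rw [swap_apply_left]
    exact h.mp hj
  · rcases eq_or_ne j l with rfl | h2
    · rw [swap_apply_right]
      exact h.mpr hj
    · rw [swap_apply_of_ne_of_ne h1 h2]
      exact hj

theorem cn_sq (β : Fin n → Et) (k l : Fin n) {m : ℕ} (h : (k : ℕ) < m ↔ (l : ℕ) < m) (z : Et) :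
    cnT (sq β k l) m z = cnT β m z := by
  unfold cnT
  apply Finset.card_bij (fun j _ => swap k l j)
  · intro j hj
    rw [Finset.mem_filter] at hj ⊢
    exact ⟨Finset.mem_univ _, swap_lt h hj.2.1, hj.2.2⟩
  · intro i _ j _ hij
    exact (swap k l).injective hij
  · intro j hj
    rw [Finset.mem_filter] at hj
    refine ⟨swap k l j, ?_, swap_apply_self _ _ _⟩
    rw [Finset.mem_filter]
    refine ⟨Finset.mem_univ _, swap_lt h hj.2.1, ?_⟩
    unfold AN.sq
    rw [swap_apply_self]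
    exact hj.2.2

theorem occ_sq' (β : Fin n → Et) (k l : Fin n) {m : ℕ} (h : (k : ℕ) < m ↔ (l : ℕ) < m) :
    occT (sq β k l) m = occT β m := by
  funext z
  unfold occT
  rw [cn_sq β k l h, cn_sq β k l h]

theorem ne_of_Be {x y : Et} (h : Be x y ∨ Be y x) :
    y ≠ (x.1, x.2 + 1) ∧ y ≠ x ∧ ((y.1, y.2 + 1) : Et) ≠ (x.1, x.2 + 1) ∧ ((y.1, y.2 + 1) : Et) ≠ x := by
  have key : ∀ u v : ℤ, ((y.1, y.2 + u) : Et) = (x.1, x.2 + v) → (u = 0 ∨ u = 1) → (v = 0 ∨ v = 1) → False := by
    intro u v e hu hv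
    have e1 : y.1 = x.1 := (Prod.mk.inj e).1
    have e2 : y.2 + u = x.2 + v := (Prod.mk.inj e).2
    rcases h with (h | ⟨_, h⟩) | (h | ⟨_, h⟩)
    · rw [e1] at h
      exact lt_irrefl _ h
    · omega
    · rw [e1] at h
      exact lt_irrefl _ h
    · omega
  have hx : ((x.1, x.2 + 0) : Et) = x := by rw [add_zero]
  have hy : ((y.1, y.2 + 0) : Et) = y := by rw [add_zero]
  refine ⟨fun e => ?_, fun e => ?_, fun e => ?_, fun e => ?_⟩
  · exact key 0 1 (by rw [hy]; exact e) (Or.inl rfl) (Or.inr rfl)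
  · exact key 0 0 (by rw [hy, hx]; exact e) (Or.inl rfl) (Or.inl rfl)
  · exact key 1 1 e (Or.inr rfl) (Or.inr rfl)
  · exact key 1 0 (by rw [hx]; exact e) (Or.inr rfl) (Or.inl rfl)

theorem ne_succ (x : Et) : x ≠ (x.1, x.2 + 1) := by
  intro e
  have e2 : x.2 = x.2 + 1 := congrArg Prod.snd e
  omega

end S02_aux

theorem occT_sq (β : Fin n → Et) (k l : Fin n) : occT (sq β k l) n = occT β n :=
  S02_aux.occ_sq' β k l ⟨fun _ => l.2, fun _ => k.2⟩

theorem LgT_ne {β : Fin n → Et} (h : LgT β) {k l : Fin n} (hl : (l : ℕ) = k + 1) : β k ≠ β l := by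
  intro he
  have h1 := (h l).1
  rw [hl, ← he, occT_succ, (h k).1, if_neg (S02_aux.ne_succ _), if_pos rfl] at h1
  omega

theorem LgT_cases {β : Fin n → Et} (h : LgT β) {k l : Fin n} (hl : (l : ℕ) = k + 1) :
    ((β l).1 = (β k).1 ∧ (β l).2 = (β k).2 + 1) ∨ ((β l).1 = (β k).1 ∧ (β l).2 = (β k).2 - 1) ∨
      Be (β k) (β l) ∨ Be (β l) (β k) := by
  have hne := LgT_ne h hl
  rcases lt_trichotomy (β k).1 (β l).1 with h1 | h1 | h1
  · exact Or.inr (Or.inr (Or.inl (Or.inl h1)))
  · have h2 : (β k).2 ≠ (β l).2 := fun h3 => hne (Prod.ext h1 h3)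
    by_cases h3 : (β l).2 = (β k).2 + 1
    · exact Or.inl ⟨h1.symm, h3⟩
    by_cases h4 : (β l).2 = (β k).2 - 1
    · exact Or.inr (Or.inl ⟨h1.symm, h4⟩)
    by_cases h5 : (β k).2 + 2 ≤ (β l).2
    · exact Or.inr (Or.inr (Or.inl (Or.inr ⟨h1, h5⟩)))
    · exact Or.inr (Or.inr (Or.inr (Or.inr ⟨h1.symm, by omega⟩)))
  · exact Or.inr (Or.inr (Or.inr (Or.inl h1)))

theorem LgT_sq {β : Fin n → Et} (h : LgT β) {k l : Fin n} (hl : (l : ℕ) = k + 1)
    (hd : Be (β k) (β l) ∨ Be (β l) (β k)) : LgT (sq β k l) := by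
  have ha := h k
  have hb := h l
  obtain ⟨n1, n2, n3, n4⟩ := S02_aux.ne_of_Be hd
  obtain ⟨m1, m2, m3, m4⟩ := S02_aux.ne_of_Be hd.symm
  rw [hl, occT_succ, occT_succ, if_neg n1, if_neg n2, if_neg n3, if_neg n4] at hb
  intro j
  rcases lt_trichotomy (j : ℕ) (k : ℕ) with hj | hj | hj
  · have e1 : sq β k l j = β j :=
      sqT_other β (fun e => by rw [e] at hj; omega) (fun e => by rw [e] at hj; omega)
    rw [e1, S02_aux.occ_sq' β k l (by omega)]
    exact h j
  · have ejk : j = k := Fin.ext hj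
    rw [ejk, sqT_k, S02_aux.occ_sq' β k l (by omega)]
    constructor
    · have := hb.1
      omega
    · have := hb.2
      omega
  · rcases eq_or_lt_of_le (show (l : ℕ) ≤ j by omega) with hj2 | hj2
    · have ejl : j = l := Fin.ext hj2.symm
      rw [ejl, sqT_l, hl, occT_succ, occT_succ, sqT_k, S02_aux.occ_sq' β k l (by omega),
        if_neg m1, if_neg m2, if_neg m3, if_neg m4]
      constructor
      · have := ha.1
        omega
      · have := ha.2
        omega
    · have e1 : sq β k l j = β j :=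
        sqT_other β (fun e => by rw [e] at hj; omega) (fun e => by rw [e] at hj2; omega)
      rw [e1, S02_aux.occ_sq' β k l (by omega)]
      exact h j

theorem SqT_sq {F : Et → ℤ} {β : Fin n → Et} (h : β ∈ SqT n F) {k l : Fin n}
    (hl : (l : ℕ) = k + 1) (hd : Be (β k) (β l) ∨ Be (β l) (β k)) : sq β k l ∈ SqT n F :=
  ⟨LgT_sq h.1 hl hd, (occT_sq β k l).trans h.2⟩

end

end AO
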