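import Pool.Agent.AO.S01

/-!
# MP_6c3636_al, AO, module S06: the words of a sequence (helper7)

`w : Fin n → Ty` is a word; `ct w y` the number of its letters `y`; `po w y` the increasing enumeration of the places of the letter `y` (`Finset.orderEmbOfFin`). `pr w β y` is the sequence of the contents of the boxes of `β` at the places of the letter `y`. If `β` has the types `w`: the steps of type `y` only change the beads of type `y`, so `occT β (po w y i) (y, x) = occ (pr w β y) i x` (the number of the `j < po w y i` with `β j = z = (y, x)` is the number of the `i' < i` with `pr w β y i' = x`), `occT β n (y, x) = occ (pr w β y) (ct w y) x`. `LgT_pr`: the conditions of `LgT` at the places of the letter `y` are those of `Lg (pr w β y)`. `nmT_pr`: only the pairs of the same type contribute. `mk_pr`: the map `β ↦ pr w β` from the sequences with the types `w` to the families of sequences is a bijection.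
-/

namespace AO

noncomputable section

open Classical Equiv

open AN (sq)

variable {n : ℕ}

/-- the number of the letters `y` -/
def ct (w : Fin n → Ty) (y : Ty) : ℕ := (Finset.univ.filter (fun k : Fin n => w k = y)).card

/-- the places of the letter `y` -/
def po (w : Fin n → Ty) (y : Ty) : Fin (ct w y) ↪o Fin n :=
  (Finset.univ.filter (fun k : Fin n => w k = y)).orderEmbOfFin rfl

/-- the sequence of the contents at the places of the letter `y` -/
def pr (w : Fin n → Ty) (β : Fin n → Et) (y : Ty) : Fin (ct w y) → ℤ := fun i => (β (po w y i)).2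

namespace S06_aux

theorem po_mem (w : Fin n → Ty) (y : Ty) (i : Fin (ct w y)) : w (po w y i) = y :=
  (Finset.mem_filter.1 (Finset.orderEmbOfFin_mem _ rfl i)).2

theorem po_ex (w : Fin n → Ty) {y : Ty} {k : Fin n} (h : w k = y) :
    ∃ i : Fin (ct w y), po w y i = k := by
  have h1 : k ∈ Set.range (po w y) := by
    have h2 := Finset.range_orderEmbOfFin (Finset.univ.filter (fun k : Fin n => w k = y)) rfl
    have h3 : k ∈ ((Finset.univ.filter (fun k : Fin n => w k = y) : Finset (Fin n)) :
        Set (Fin n)) := by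
      rw [Finset.mem_coe, Finset.mem_filter]
      exact ⟨Finset.mem_univ _, h⟩
    rw [← h2] at h3
    exact h3
  exact h1

theorem prod_po {M : Type*} [CommMonoid M] (w : Fin n → Ty) (y : Ty) (g : Fin n → M) :
    ∏ i ∈ Finset.univ.filter (fun k : Fin n => w k = y), g i = ∏ i : Fin (ct w y), g (po w y i) := by
  have h := Finset.map_orderEmbOfFin_univ (Finset.univ.filter (fun k : Fin n => w k = y)) rfl
  conv_lhs => rw [← h]
  rw [Finset.prod_map]
  rfl

theorem cnT_pr {w : Fin n → Ty} {β : Fin n → Et} (h : ∀ k, (β k).1 = w k) (y : Ty) (x : ℤ)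
    (t s : ℕ) (hts : ∀ i : Fin (ct w y), ((po w y i : Fin n) : ℕ) < t ↔ (i : ℕ) < s) :
    cnT β t (y, x) = AN.cn (pr w β y) s x := by
  unfold cnT AN.cn
  symm
  apply Finset.card_bij (fun i _ => po w y i)
  · intro i hi
    rw [Finset.mem_filter] at hi ⊢
    refine ⟨Finset.mem_univ _, (hts i).2 hi.2.1, ?_⟩
    apply Prod.ext
    · show (β (po w y i)).1 = y
      rw [h]
      exact po_mem w y i
    · exact hi.2.2
  · intro i _ j _ hij
    exact (po w y).injective hij
  · intro k hk
    rw [Finset.mem_filter] at hk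
    have h1 : w k = y := by
      rw [← h, hk.2.2]
    obtain ⟨i, hi⟩ := po_ex w h1
    refine ⟨i, ?_, hi⟩
    rw [Finset.mem_filter]
    refine ⟨Finset.mem_univ _, (hts i).1 ?_, ?_⟩
    · rw [hi]
      exact hk.2.1
    · show (β (po w y i)).2 = x
      rw [hi, hk.2.2]

theorem occT_pr' {w : Fin n → Ty} {β : Fin n → Et} (h : ∀ k, (β k).1 = w k) (y : Ty) (x : ℤ)
    (t s : ℕ) (hts : ∀ i : Fin (ct w y), ((po w y i : Fin n) : ℕ) < t ↔ (i : ℕ) < s) :
    occT β t (y, x) = AN.occ (pr w β y) s x := by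
  unfold occT AN.occ
  rw [cnT_pr h y x t s hts, cnT_pr h y (x - 1) t s hts]

theorem po_lt (w : Fin n → Ty) (y : Ty) (i j : Fin (ct w y)) :
    ((po w y j : Fin n) : ℕ) < ((po w y i : Fin n) : ℕ) ↔ (j : ℕ) < (i : ℕ) := by
  rw [← Fin.lt_def, ← Fin.lt_def]
  exact (po w y).lt_iff_lt

theorem be_po {w : Fin n → Ty} {β : Fin n → Et} (h : ∀ k, (β k).1 = w k) (y : Ty)
    (i : Fin (ct w y)) : β (po w y i) = (y, pr w β y i) := by
  apply Prod.ext
  · show (β (po w y i)).1 = y
    rw [h]
    exact po_mem w y i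
  · rfl

end S06_aux

open S06_aux

theorem LgT_pr {w : Fin n → Ty} {β : Fin n → Et} (h : ∀ k, (β k).1 = w k) :
    LgT β ↔ ∀ y, AN.Lg (pr w β y) := by
  constructor
  · intro hL y i
    have h1 := hL (po w y i)
    rw [be_po h] at h1
    rw [occT_pr' h y _ _ i (fun j => po_lt w y i j), occT_pr' h y _ _ i (fun j => po_lt w y i j)] at h1
    exact h1
  · intro hL k
    obtain ⟨i, hi⟩ := po_ex w (rfl : w k = w k)
    have h1 := hL (w k) i
    rw [← occT_pr' h (w k) _ _ i (fun j => po_lt w (w k) i j),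
      ← occT_pr' h (w k) _ _ i (fun j => po_lt w (w k) i j), hi] at h1
    have h2 : β k = (w k, pr w β (w k) i) := by
      have h3 := be_po h (w k) i
      rw [hi] at h3
      exact h3
    rw [h2]
    exact h1

theorem occT_pr {w : Fin n → Ty} {β : Fin n → Et} (h : ∀ k, (β k).1 = w k) (y : Ty) (x : ℤ) :
    occT β n (y, x) = AN.occ (pr w β y) (ct w y) x :=
  occT_pr' h y x n (ct w y) (fun i => ⟨fun _ => i.2, fun _ => (po w y i).2⟩)

theorem nmT_pr {w : Fin n → Ty} {β : Fin n → Et} (h : ∀ k, (β k).1 = w k) :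
    nmT β = ∏ y, AN.nm (pr w β y) := by
  unfold nmT
  rw [← Finset.prod_fiberwise Finset.univ w]
  refine Finset.prod_congr rfl (fun y _ => ?_)
  rw [prod_po]
  unfold AN.nm
  refine Finset.prod_congr rfl (fun i _ => ?_)
  have h1 : ∏ j : Fin n, (if po w y i < j ∧ (β j).1 = (β (po w y i)).1 ∧
      (β j).2 + 2 ≤ (β (po w y i)).2 then
        1 - 1 / ((((β (po w y i)).2 - (β j).2 : ℤ) : ℚ) ^ 2) else 1) =
      ∏ j ∈ Finset.univ.filter (fun k : Fin n => w k = y), (if po w y i < j ∧
        (β j).1 = (β (po w y i)).1 ∧ (β j).2 + 2 ≤ (β (po w y i)).2 then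
          1 - 1 / ((((β (po w y i)).2 - (β j).2 : ℤ) : ℚ) ^ 2) else 1) := by
    rw [Finset.prod_filter]
    refine Finset.prod_congr rfl (fun j _ => ?_)
    by_cases hj : w j = y
    · rw [if_pos hj]
    · rw [if_neg hj, if_neg]
      rintro ⟨_, h2, _⟩
      rw [h, h] at h2
      exact hj (h2.trans (po_mem w y i))
  rw [h1, prod_po]
  refine Finset.prod_congr rfl (fun j _ => ?_)
  rw [be_po h, be_po h]
  have h2 : (po w y i < po w y j ∧ y = y ∧ pr w β y j + 2 ≤ pr w β y i) ↔
      (i < j ∧ pr w β y j + 2 ≤ pr w β y i) := by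
    rw [(po w y).lt_iff_lt]
    constructor
    · rintro ⟨a, _, b⟩
      exact ⟨a, b⟩
    · rintro ⟨a, b⟩
      exact ⟨a, rfl, b⟩
  by_cases h3 : i < j ∧ pr w β y j + 2 ≤ pr w β y i
  · rw [if_pos h3, if_pos (h2.2 h3)]
  · rw [if_neg h3, if_neg (fun h4 => h3 (h2.1 h4))]

theorem pr_inj {w : Fin n → Ty} {β γ : Fin n → Et} (h : ∀ k, (β k).1 = w k)
    (h' : ∀ k, (γ k).1 = w k) (he : ∀ y, pr w β y = pr w γ y) : β = γ := by
  funext k
  obtain ⟨i, hi⟩ := po_ex w (rfl : w k = w k)
  have h1 := be_po h (w k) i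
  have h2 := be_po h' (w k) i
  rw [hi] at h1 h2
  rw [h1, h2, he]

theorem pr_surj (w : Fin n → Ty) (f : ∀ y, Fin (ct w y) → ℤ) :
    ∃ β : Fin n → Et, (∀ k, (β k).1 = w k) ∧ ∀ y, pr w β y = f y := by
  have hex : ∀ k : Fin n, ∃ i : Fin (ct w (w k)), po w (w k) i = k := fun k => po_ex w rfl
  choose idx hidx using hex
  refine ⟨fun k => (w k, f (w k) (idx k)), fun k => rfl, ?_⟩
  intro y
  funext i
  have key : ∀ (k : Fin n) (y : Ty) (hy : w k = y) (i : Fin (ct w y)), po w y i = k →
      f (w k) (idx k) = f y i := by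
    intro k y hy i hi
    subst hy
    have : idx k = i := (po w (w k)).injective (by rw [hidx, hi])
    rw [this]
  exact key (po w y i) y (po_mem w y i) i rfl

end

end AO
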