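import Pool.Agent.AO.V01

/-!
# MP_6c3636_al, AO, module V02: diagonalisation (helper7)

Induction on the cardinality of `ι` (for all `ι`), or by Mathlib (`LinearMap.BilinForm`, `LinearMap.IsSymm` orthogonal bases: `LinearMap.exists_orthogonal_basis` or similar for sesquilinear forms; otherwise directly): `b v w = ∑ σ (v i) * J i j * w j`. If `J ≠ 0` there is `v` with `b v v ≠ 0`: some `b v w ≠ 0`; if all `b v v = 0` then `c • b w v`-terms: `b (v + c w) (v + c w) = c * b v w + σ (c * b v w) = 0` for all `c`, so `x + σ x = 0` for all `x`, false for `x = 1`. Split off `v`: the complement `{w : b v w = 0}` has dimension one less and the restriction of `b` is nondegenerate. `cong_one`: `σ ≠ id`: the `d i` are fixed by `σ`, `d i = x * σ x` (`norm_surj`, M04), scale the basis vector by `x⁻¹`.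
-/

namespace AO.MG

noncomputable section

open Classical Equiv Matrix

open AN (sq)

namespace V02_aux

variable {F : Type} [Field F]

/-- the transformed matrix is hermitian -/
theorem herm {ι ι' : Type} [Fintype ι] [Fintype ι'] {σ : F ≃+* F} (hs : ∀ x, σ (σ x) = x)
    {J : Matrix ι ι F} (hJ : (J.map σ)ᵀ = J) (P : Matrix ι ι' F) :
    (((P.map σ)ᵀ * J * P).map σ)ᵀ = (P.map σ)ᵀ * J * P := by
  have h1 : ((P.map σ).map σ) = P := by
    ext i j
    exact hs _
  rw [Matrix.map_mul, Matrix.map_mul, Matrix.transpose_mul, Matrix.transpose_mul, Matrix.transpose_map,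
    Matrix.transpose_transpose, h1, hJ, Matrix.mul_assoc]

theorem herm_reindex {ι ι' : Type} {σ : F ≃+* F} {J : Matrix ι ι F} (hJ : (J.map σ)ᵀ = J) (e : ι ≃ ι') :
    ((Matrix.reindex e e J).map σ)ᵀ = Matrix.reindex e e J := by
  ext i j
  have h1 := congrFun (congrFun hJ (e.symm i)) (e.symm j)
  exact h1

/-- splitting off a nonisotropic basis vector -/
theorem step {κ μ : Type} [Fintype κ] [DecidableEq κ] [Unique κ] [Fintype μ] [DecidableEq μ]
    {σ : F ≃+* F} (hs : ∀ x, σ (σ x) = x)
    (hμ : ∀ J : Matrix μ μ F, (J.map σ)ᵀ = J → ∃ d : μ → F, Cong σ J (Matrix.diagonal d))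
    (J : Matrix (κ ⊕ μ) (κ ⊕ μ) F) (hJ : (J.map σ)ᵀ = J)
    (h0 : J (Sum.inl default) (Sum.inl default) ≠ 0) :
    ∃ d : κ ⊕ μ → F, Cong σ J (Matrix.diagonal d) := by
  set a : F := J (Sum.inl default) (Sum.inl default) with ha
  have hsa : σ a = a := congrFun (congrFun hJ (Sum.inl default)) (Sum.inl default)
  set B := J.toBlocks₁₂ with hB
  set C := J.toBlocks₂₁ with hC
  set E := J.toBlocks₂₂ with hE
  have hA : J.toBlocks₁₁ = a • (1 : Matrix κ κ F) := by
    ext i j
    rw [Subsingleton.elim i default, Subsingleton.elim j default, Matrix.smul_apply, Matrix.one_apply_eq,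
      smul_eq_mul, mul_one]
    rfl
  have hJb : J = Matrix.fromBlocks (a • (1 : Matrix κ κ F)) B C E := by
    rw [← hA]
    exact (Matrix.fromBlocks_toBlocks J).symm
  have hBC : (B.map σ)ᵀ = C := by
    ext i j
    exact congrFun (congrFun hJ (Sum.inr i)) (Sum.inl j)
  set X : Matrix κ μ F := -(a⁻¹ • B) with hX
  have hXC : a • (X.map σ)ᵀ = -C := by
    rw [← hBC]
    ext i j
    show a * σ (-(a⁻¹ * B j i)) = -σ (B j i)
    rw [map_neg, map_mul, map_inv₀, hsa, mul_neg, mul_inv_cancel_left₀ h0]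
  have hXB : a • X + B = 0 := by
    rw [hX, smul_neg, smul_smul, mul_inv_cancel₀ h0, one_smul, neg_add_cancel]
  -- the elementary transformation
  set P : Matrix (κ ⊕ μ) (κ ⊕ μ) F := Matrix.fromBlocks 1 X 0 1 with hP
  set Q : Matrix (κ ⊕ μ) (κ ⊕ μ) F := Matrix.fromBlocks 1 (-X) 0 1 with hQ
  have hPQ : P * Q = 1 := by
    rw [hP, hQ, Matrix.fromBlocks_multiply]
    simp
  have hQP : Q * P = 1 := by
    rw [hP, hQ, Matrix.fromBlocks_multiply]
    simp
  have hPJ : (P.map σ)ᵀ * J * P = Matrix.fromBlocks (a • (1 : Matrix κ κ F)) 0 0 ((X.map σ)ᵀ * B + E) := by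
    have h1 : (P.map σ)ᵀ = Matrix.fromBlocks 1 0 ((X.map σ)ᵀ) 1 := by
      rw [hP, Matrix.fromBlocks_map, Matrix.fromBlocks_transpose]
      congr 1
      · rw [Matrix.map_one σ (map_zero σ) (map_one σ), Matrix.transpose_one]
      · ext i j
        exact map_zero σ
      · rw [Matrix.map_one σ (map_zero σ) (map_one σ), Matrix.transpose_one]
    have h2 : (X.map σ)ᵀ * (a • (1 : Matrix κ κ F)) + C = 0 := by
      rw [Matrix.mul_smul, Matrix.mul_one, hXC, neg_add_cancel]
    rw [h1, hJb, hP, Matrix.fromBlocks_multiply, Matrix.fromBlocks_multiply]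
    congr 1
    · simp
    · rw [Matrix.one_mul, Matrix.zero_mul, add_zero, Matrix.one_mul, Matrix.zero_mul, add_zero, Matrix.mul_one,
        Matrix.smul_mul, Matrix.one_mul]
      exact hXB
    · rw [Matrix.one_mul, Matrix.mul_zero, add_zero, Matrix.mul_one]
      exact h2
    · rw [Matrix.one_mul, Matrix.one_mul, h2, Matrix.zero_mul, zero_add, Matrix.mul_one]
  have hH := herm hs hJ P
  rw [hPJ] at hH
  have hE' : ((((X.map σ)ᵀ * B + E)).map σ)ᵀ = (X.map σ)ᵀ * B + E := by
    ext i j
    exact congrFun (congrFun hH (Sum.inr i)) (Sum.inr j)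
  obtain ⟨d, P', Q', hPQ', hQP', hd⟩ := hμ _ hE'
  refine ⟨Sum.elim (fun _ => a) d, cong_trans ⟨P, Q, hPQ, hQP, hPJ⟩
    ⟨Matrix.fromBlocks 1 0 0 P', Matrix.fromBlocks 1 0 0 Q', ?_, ?_, ?_⟩⟩
  · rw [Matrix.fromBlocks_multiply]
    simp [hPQ']
  · rw [Matrix.fromBlocks_multiply]
    simp [hQP']
  · have h1 : ((Matrix.fromBlocks (1 : Matrix κ κ F) 0 0 P').map σ)ᵀ = Matrix.fromBlocks 1 0 0 ((P'.map σ)ᵀ) := by
      rw [Matrix.fromBlocks_map, Matrix.fromBlocks_transpose]
      congr 1
      · rw [Matrix.map_one σ (map_zero σ) (map_one σ), Matrix.transpose_one]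
      · ext i j
        exact map_zero σ
      · ext i j
        exact map_zero σ
    have h2 : (Matrix.diagonal fun _ : κ => a) = a • (1 : Matrix κ κ F) := by
      ext i j
      rw [Matrix.diagonal_apply, Matrix.smul_apply, Matrix.one_apply, smul_eq_mul]
      split_ifs <;> simp
    have h3 : Matrix.diagonal (Sum.elim (fun _ : κ => a) d) =
        Matrix.fromBlocks (Matrix.diagonal fun _ : κ => a) 0 0 (Matrix.diagonal d) :=
      (Matrix.fromBlocks_diagonal (fun _ : κ => a) d).symm
    rw [h1, Matrix.fromBlocks_multiply, Matrix.fromBlocks_multiply, h3, h2, ← hd]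
    simp

/-- a nonzero hermitian form has a vector which is not isotropic -/
theorem exists_ne {ι : Type} [Fintype ι] [DecidableEq ι] (h2 : (2 : F) ≠ 0) {σ : F ≃+* F}
    {J : Matrix ι ι F} (hJ : (J.map σ)ᵀ = J) (h0 : J ≠ 0) :
    ∃ (k : ι) (P Q : Matrix ι ι F), P * Q = 1 ∧ Q * P = 1 ∧ ((P.map σ)ᵀ * J * P) k k ≠ 0 := by
  by_cases hd : ∃ i, J i i ≠ 0
  · obtain ⟨i, hi⟩ := hd
    refine ⟨i, 1, 1, Matrix.mul_one 1, Matrix.mul_one 1, ?_⟩
    rw [Matrix.map_one σ (map_zero σ) (map_one σ), Matrix.transpose_one, Matrix.one_mul, Matrix.mul_one]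
    exact hi
  · push Not at hd
    have h1 : ∃ i j, J i j ≠ 0 := by
      by_contra h
      push Not at h
      exact h0 (by ext i j; exact h i j)
    obtain ⟨i, j, hij⟩ := h1
    have hne : i ≠ j := by
      rintro rfl
      exact hij (hd i)
    have hji : J j i = σ (J i j) := (congrFun (congrFun hJ j) i).symm
    set c : F := (J i j)⁻¹ with hc
    refine ⟨i, Matrix.transvection j i c, Matrix.transvection j i (-c), ?_, ?_, ?_⟩
    · rw [Matrix.transvection_mul_transvection_same _ _ hne.symm, add_neg_cancel, Matrix.transvection_zero]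
    · rw [Matrix.transvection_mul_transvection_same _ _ hne.symm, neg_add_cancel, Matrix.transvection_zero]
    · have h3 : ((Matrix.transvection j i c).map σ)ᵀ = 1 + Matrix.single i j (σ c) := by
        ext x y
        show σ ((Matrix.transvection j i c) y x) = _
        rw [Matrix.transvection, Matrix.add_apply, Matrix.add_apply, map_add, Matrix.one_apply, Matrix.one_apply,
          Matrix.single_apply, Matrix.single_apply]
        congr 1
        · by_cases hxy : x = y
          · rw [if_pos hxy, if_pos hxy.symm, map_one]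
          · rw [if_neg hxy, if_neg (fun h => hxy h.symm), map_zero]
        · by_cases hxy : j = y ∧ i = x
          · rw [if_pos hxy, if_pos ⟨hxy.2, hxy.1⟩]
          · rw [if_neg hxy, if_neg (fun h => hxy ⟨h.2, h.1⟩), map_zero]
      rw [h3, Matrix.transvection, add_mul, add_mul, mul_add, Matrix.one_mul, Matrix.mul_one, mul_add, Matrix.mul_one,
        Matrix.add_apply, Matrix.add_apply, Matrix.add_apply, Matrix.single_mul_apply_same,
        Matrix.mul_single_apply_same, Matrix.mul_single_apply_same, Matrix.single_mul_apply_same, hd i, hd j, hji,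
        ← map_mul, hc, inv_mul_cancel₀ hij, mul_inv_cancel₀ hij, map_one]
      simp only [mul_zero, zero_mul, zero_add, add_zero]
      rw [one_add_one_eq_two]
      exact h2

theorem main (h2 : (2 : F) ≠ 0) {σ : F ≃+* F} (hs : ∀ x, σ (σ x) = x) (n : ℕ) :
    ∀ (ι : Type) [Fintype ι] [DecidableEq ι], Fintype.card ι = n → ∀ J : Matrix ι ι F, (J.map σ)ᵀ = J →
      ∃ d : ι → F, Cong σ J (Matrix.diagonal d) := by
  induction n with
  | zero =>
    intro ι _ _ hn J _
    refine ⟨0, 1, 1, Matrix.mul_one 1, Matrix.mul_one 1, ?_⟩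
    ext i j
    exact ((Fintype.card_eq_zero_iff.1 hn).false i).elim
  | succ n ih =>
    intro ι _ _ hn J hJ
    by_cases h0 : J = 0
    · refine ⟨0, 1, 1, Matrix.mul_one 1, Matrix.mul_one 1, ?_⟩
      rw [h0, Matrix.mul_zero, Matrix.zero_mul]
      ext i j
      simp [Matrix.diagonal_apply]
    · obtain ⟨k, P, Q, hPQ, hQP, hk⟩ := exists_ne h2 hJ h0
      set J1 := (P.map σ)ᵀ * J * P with hJ1
      have hH1 : (J1.map σ)ᵀ = J1 := herm hs hJ P
      have c1 : Cong σ J J1 := ⟨P, Q, hPQ, hQP, rfl⟩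
      let e : ι ≃ {i // i = k} ⊕ {i // ¬ i = k} := (Equiv.sumCompl (fun i => i = k)).symm
      have c2 : Cong σ J1 (Matrix.reindex e e J1) := cong_reindex σ J1 e
      have hcard : Fintype.card {i // ¬ i = k} = n := by
        have h1 : Fintype.card {i // ¬ i = k} = Fintype.card ι - 1 := by
          have h3 := Fintype.card_subtype_compl (fun i => i = k)
          rw [Fintype.card_subtype_eq] at h3
          exact h3
        rw [h1, hn, Nat.add_sub_cancel]
      obtain ⟨d, hd⟩ := step (κ := {i // i = k}) hs (ih {i // ¬ i = k} hcard) (Matrix.reindex e e J1)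
        (herm_reindex hH1 e) hk
      have c3 := cong_reindex σ (Matrix.diagonal d) e.symm
      refine ⟨d ∘ e, ?_⟩
      have h4 : Matrix.reindex e.symm e.symm (Matrix.diagonal d) = Matrix.diagonal (d ∘ e) := by
        rw [Matrix.reindex_apply]
        exact Matrix.submatrix_diagonal_equiv d e
      rw [h4] at c3
      exact cong_trans c1 (cong_trans c2 (cong_trans hd c3))

end V02_aux

variable {ι : Type} [Fintype ι] [DecidableEq ι] {F : Type} [Field F] [Finite F]

theorem cong_diag (h2 : (2 : F) ≠ 0) {σ : F ≃+* F} (hs : ∀ x, σ (σ x) = x) {J : Matrix ι ι F}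
    (hJ : (J.map σ)ᵀ = J) (hd : J.det ≠ 0) :
    ∃ d : ι → F, (∀ i, d i ≠ 0 ∧ σ (d i) = d i) ∧ Cong σ J (Matrix.diagonal d) := by
  obtain ⟨d, P, Q, hPQ, hQP, h⟩ := V02_aux.main h2 hs (Fintype.card ι) ι rfl J hJ
  refine ⟨d, fun i => ⟨?_, ?_⟩, P, Q, hPQ, hQP, h⟩
  · have h1 : (Matrix.diagonal d).det ≠ 0 := by
      rw [← h, Matrix.det_mul, Matrix.det_mul, Matrix.det_transpose]
      have hP : P.det ≠ 0 := by
        intro h3
        have h4 := congrArg Matrix.det hPQ
        rw [Matrix.det_mul, h3, zero_mul, Matrix.det_one] at h4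
        exact zero_ne_one h4
      have hP' : (P.map σ).det ≠ 0 := by
        have h5 : (P.map σ).det = σ P.det := ((σ : F →+* F).map_det P).symm
        rw [h5]
        exact fun h6 => hP ((map_eq_zero σ).1 h6)
      exact mul_ne_zero (mul_ne_zero hP' hd) hP
    rw [Matrix.det_diagonal] at h1
    exact fun h3 => h1 (Finset.prod_eq_zero (Finset.mem_univ i) h3)
  · have h1 := V02_aux.herm hs hJ P
    rw [h] at h1
    have h3 := congrFun (congrFun h1 i) i
    rw [Matrix.transpose_apply, Matrix.map_apply, Matrix.diagonal_apply_eq] at h3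
    exact h3

end

end AO.MG
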