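import Pool.Agent.AO.M04
import Mathlib.RingTheory.AdjoinRoot
import Mathlib.FieldTheory.KummerPolynomial

/-!
# MP_6c3636_al, AO, module V05: quadratic extensions of finite fields (helper7)

`F = K[x] / (x² - δ)` (`AdjoinRoot`) is a field with `(card K) ^ 2` elements, `θ` the class of `x`, `τ` the automorphism with `τ θ = - θ` (or `GaloisField`, `FiniteField.Extension`, Frobenius `x ↦ x ^ card K`: its fixed elements are the roots of `x ^ card K = x`, the image of `K`; `θ` a root of `x² = δ` exists in the extension of degree two).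
-/

namespace AO.MG

noncomputable section

open Classical Equiv Matrix

open AN (sq)


namespace V05_aux

open Polynomial

variable {K : Type} [Field K]

/-- the polynomial -/
def qf (δ : K) : K[X] := X ^ 2 - C δ

theorem qf_irr {δ : K} (hδ : ¬ IsSquare δ) : Irreducible (qf δ) := by
  unfold qf
  rw [X_pow_sub_C_irreducible_iff_of_prime Nat.prime_two]
  intro b hb
  exact hδ ⟨b, by rw [← hb, pow_two]⟩

theorem qf_monic (δ : K) : (qf δ).Monic := monic_X_pow_sub_C δ two_ne_zero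

theorem qf_deg (δ : K) : (qf δ).natDegree = 2 := natDegree_X_pow_sub_C

theorem root_sq (δ : K) : (AdjoinRoot.root (qf δ)) ^ 2 = AdjoinRoot.of (qf δ) δ := by
  have h := AdjoinRoot.eval₂_root (qf δ)
  unfold qf at h
  rw [eval₂_sub, eval₂_pow, eval₂_X, eval₂_C, sub_eq_zero] at h
  exact h

/-- the conjugation -/
def cjg (δ : K) : AdjoinRoot (qf δ) →+* AdjoinRoot (qf δ) :=
  AdjoinRoot.lift (AdjoinRoot.of (qf δ)) (-AdjoinRoot.root (qf δ)) (by
    have h := root_sq δ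
    have h2 : (qf δ).eval₂ (AdjoinRoot.of (qf δ)) (-AdjoinRoot.root (qf δ)) =
        (-AdjoinRoot.root (qf δ)) ^ 2 - AdjoinRoot.of (qf δ) δ := by
      show (X ^ 2 - C δ : K[X]).eval₂ _ _ = _
      rw [eval₂_sub, eval₂_pow, eval₂_X, eval₂_C]
    rw [h2, neg_sq, h, sub_self])

theorem cjg_of (δ x : K) : cjg δ (AdjoinRoot.of (qf δ) x) = AdjoinRoot.of (qf δ) x := AdjoinRoot.lift_of _

theorem cjg_root (δ : K) : cjg δ (AdjoinRoot.root (qf δ)) = -AdjoinRoot.root (qf δ) := AdjoinRoot.lift_root _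

theorem repr (δ : K) (x : AdjoinRoot (qf δ)) :
    ∃ a b : K, x = AdjoinRoot.of (qf δ) a + AdjoinRoot.of (qf δ) b * AdjoinRoot.root (qf δ) := by
  obtain ⟨p, rfl⟩ := AdjoinRoot.mk_surjective x
  have h1 : AdjoinRoot.mk (qf δ) p = AdjoinRoot.mk (qf δ) (p %ₘ qf δ) := by
    rw [AdjoinRoot.mk_eq_mk]
    refine ⟨p /ₘ qf δ, ?_⟩
    have h2 := modByMonic_add_div p (qf δ)
    linear_combination -h2
  have h2 : (p %ₘ qf δ).natDegree ≤ 1 := by
    have h3 := natDegree_modByMonic_lt p (qf_monic δ) (by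
      intro h4
      have h5 := qf_deg δ
      rw [h4, natDegree_one] at h5
      exact absurd h5 (by decide))
    rw [qf_deg] at h3
    omega
  obtain ⟨b, a, hab⟩ := exists_eq_X_add_C_of_natDegree_le_one h2
  refine ⟨a, b, ?_⟩
  rw [h1, hab, map_add, map_mul, AdjoinRoot.mk_X, AdjoinRoot.mk_C, AdjoinRoot.mk_C, add_comm]

theorem cjg_cjg (δ : K) (x : AdjoinRoot (qf δ)) : cjg δ (cjg δ x) = x := by
  obtain ⟨a, b, rfl⟩ := repr δ x
  rw [map_add, map_mul, cjg_of, cjg_of, cjg_root, map_add, map_mul, cjg_of, cjg_of, map_neg, cjg_root, neg_neg]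

end V05_aux

theorem quad_ext {K : Type} [Field K] [Finite K] (h2 : (2 : K) ≠ 0) {δ : K} (hδ : ¬ IsSquare δ) :
    ∃ (F : Type) (_ : Field F) (_ : Finite F) (i : K →+* F) (τ : F ≃+* F) (θ : F),
      (∀ x, τ (τ x) = x) ∧ (∀ x, τ x = x ↔ ∃ y, i y = x) ∧ θ ^ 2 = i δ ∧ τ θ = -θ ∧ θ ≠ 0 := by
  have hI : Fact (Irreducible (V05_aux.qf δ)) := ⟨V05_aux.qf_irr hδ⟩
  let i : K →+* AdjoinRoot (V05_aux.qf δ) := AdjoinRoot.of (V05_aux.qf δ)
  let θ : AdjoinRoot (V05_aux.qf δ) := AdjoinRoot.root (V05_aux.qf δ)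
  have hF : Finite (AdjoinRoot (V05_aux.qf δ)) := by
    refine Finite.of_surjective (fun p : K × K => i p.1 + i p.2 * θ) ?_
    intro x
    obtain ⟨a, b, h⟩ := V05_aux.repr δ x
    exact ⟨(a, b), h.symm⟩
  let τ : AdjoinRoot (V05_aux.qf δ) ≃+* AdjoinRoot (V05_aux.qf δ) :=
    RingEquiv.ofRingHom (V05_aux.cjg δ) (V05_aux.cjg δ)
      (RingHom.ext fun x => V05_aux.cjg_cjg δ x) (RingHom.ext fun x => V05_aux.cjg_cjg δ x)
  have hδ0 : δ ≠ 0 := by
    rintro rfl
    exact hδ ⟨0, (mul_zero 0).symm⟩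
  have hsq : θ ^ 2 = i δ := V05_aux.root_sq δ
  have hθ : θ ≠ 0 := by
    intro h
    rw [h] at hsq
    have h3 : i δ = 0 := by rw [← hsq]; ring
    exact hδ0 ((map_eq_zero i).1 h3)
  refine ⟨AdjoinRoot (V05_aux.qf δ), inferInstance, hF, i, τ, θ, V05_aux.cjg_cjg δ, ?_, hsq,
    V05_aux.cjg_root δ, hθ⟩
  intro x
  constructor
  · intro hx
    obtain ⟨a, b, rfl⟩ := V05_aux.repr δ x
    have h3 : V05_aux.cjg δ (i a + i b * θ) = i a + i b * θ := hx
    rw [map_add, map_mul, V05_aux.cjg_of, V05_aux.cjg_of, V05_aux.cjg_root] at h3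
    have h4 : (2 : AdjoinRoot (V05_aux.qf δ)) * (i b * θ) = 0 := by
      have h5 : i a + i b * -θ = i a + i b * θ := h3
      linear_combination -h5
    have h5 : (2 : AdjoinRoot (V05_aux.qf δ)) ≠ 0 := by
      intro h6
      have h7 : i 2 = 0 := by rw [map_ofNat]; exact h6
      exact h2 ((map_eq_zero i).1 h7)
    have h6 : i b = 0 := (mul_eq_zero.1 ((mul_eq_zero.1 h4).resolve_left h5)).resolve_right hθ
    refine ⟨a, ?_⟩
    show i a = i a + i b * θ
    rw [h6, zero_mul, add_zero]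
  · rintro ⟨y, rfl⟩
    exact V05_aux.cjg_of δ y

end

end AO.MG
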