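import Pool.Agent.AO.V03
import Pool.Agent.AO.V05
import Pool.Agent.AO.P14

/-!
# MP_6c3636_al, AO, module V07: orthogonal groups of minus type of arbitrary forms (helper7)

`d = 2 n + 2`, `n ≥ 1`. `δ = (-1) ^ (n + 1) * J.det` is not a square in `K`. `quad_ext`: `F`, `i`, `τ`, `θ`. `D = fOm n h2' τ _`. The matrix `P` over `F`, rows `Ix n 2`, columns `Ix n 2`: identity on the `ei`, `fi`, and the columns of `mi 0`, `mi 1` are `m₀ + m₁` and `θ m₀ - θ m₁`; it is invertible (`det P = - 2 θ`), `P (pm x) y = τ (P x y)`. `J₀ = Pᵀ D.J P` has entries in the image of `K`: `1` at `(ei, fi)`, `(fi, ei)`, `2` and `- 2 δ` on the diagonal of the middle part; its determinant is `(-1) ^ n * (- 4 δ) = 4 (-1) ^ (n + 1) δ = J.det * square`. So `J` is congruent over `K` to the matrix `J₁` over `K` with `i (J₁) = J₀` (`cong_symm_form`), so `IG J refl ⊓ DT` is isomorphic to `IG J₁ refl ⊓ DT` (`cong_S`; for the commutator subgroups `cong_C`), and `g ↦ P i(g) P⁻¹` is an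 isomorphism of `IG J₁ refl ⊓ DT` onto `D.G`: it is an isometry of `D.J`, the determinant is one, and `TwM τ pm` holds if and only if `P⁻¹ g P` has `τ`-fixed entries. `om_propA`, `om_propB`.
-/

namespace AO.MG

noncomputable section

open Classical Equiv Matrix

open AN (sq)


section Aux

variable {n : ℕ}

/-- the matrix of a hyperbolic plane -/
private def v07S (K : Type) [Field K] : Matrix Bool Bool K := fun b b' => if b' = !b then 1 else 0

/-- the matrix of the sum of hyperbolic planes -/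
private def v07H (n : ℕ) (K : Type) [Field K] : Matrix (Fin n × Bool) (Fin n × Bool) K :=
  Matrix.kroneckerMap (fun x y => x * y) (1 : Matrix (Fin n) (Fin n) K) (v07S K)

/-- the form over the small field -/
private def v07J (n : ℕ) {K : Type} [Field K] (δ : K) : Matrix (Ix n 2) (Ix n 2) K :=
  Matrix.fromBlocks (v07H n K) 0 0 !![2, 0; 0, -2 * δ]

/-- the change of the basis -/
private def v07P (n : ℕ) {F : Type} [Field F] (θ : F) : Matrix (Ix n 2) (Ix n 2) F :=
  Matrix.fromBlocks 1 0 0 !![1, θ; 1, -θ]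

private theorem v07S_det (K : Type) [Field K] : (v07S K).det = -1 := by
  rw [← Matrix.det_submatrix_equiv_self finTwoEquiv, Matrix.det_fin_two]
  simp [v07S, finTwoEquiv]

private theorem v07H_det (n : ℕ) (K : Type) [Field K] : (v07H n K).det = (-1) ^ n := by
  unfold v07H
  rw [Matrix.det_kronecker, Matrix.det_one, v07S_det, one_pow, one_mul, Fintype.card_fin]

private theorem v07J_det {K : Type} [Field K] (δ : K) : (v07J n δ).det = (-1) ^ n * (2 * (-2 * δ)) := by
  unfold v07J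
  rw [Matrix.det_fromBlocks_zero₂₁, v07H_det, Matrix.det_fin_two_of]
  ring

private theorem v07P_det {F : Type} [Field F] (θ : F) : (v07P n θ).det = -2 * θ := by
  unfold v07P
  rw [Matrix.det_fromBlocks_zero₂₁, Matrix.det_one, Matrix.det_fin_two_of]
  ring

private theorem v07S_symm (K : Type) [Field K] : (v07S K)ᵀ = v07S K := by
  ext b b'
  cases b <;> cases b' <;> simp [v07S]

private theorem v07H_symm (n : ℕ) (K : Type) [Field K] : (v07H n K)ᵀ = v07H n K := by
  unfold v07H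
  rw [← Matrix.kroneckerMap_transpose, v07S_symm, Matrix.transpose_one]

private theorem v07J_symm {K : Type} [Field K] (δ : K) : (v07J n δ)ᵀ = v07J n δ := by
  unfold v07J
  rw [Matrix.fromBlocks_transpose, v07H_symm, Matrix.transpose_zero, Matrix.transpose_zero]
  congr 1
  ext i j
  fin_cases i <;> fin_cases j <;> simp

private theorem v07H_map {K F : Type} [Field K] [Field F] (i : K →+* F) : (v07H n K).map i = v07H n F := by
  ext ⟨k, b⟩ ⟨l, b'⟩
  simp only [v07H, v07S, Matrix.map_apply, Matrix.kroneckerMap_apply, map_mul, Matrix.one_apply]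
  split_ifs <;> simp

private theorem v07_DJ {F : Type} [Field F] (h2 : (2 : F) ≠ 0) (τ : F ≃+* F) (ht : ∀ x, τ (τ x) = x) :
    (fOm n h2 τ ht).J = Matrix.fromBlocks (v07H n F) 0 0 !![0, 1; 1, 0] := by
  ext x y
  rcases x with ⟨k, b⟩ | k
  · rcases y with ⟨l, b'⟩ | l
    · have e1 : (fOm n h2 τ ht).J (Sum.inl (k, b)) (Sum.inl (l, b')) =
          if (Sum.inl (l, b') : Ix n 2) = Sum.inl (k, !b) then 1 else 0 := by
        unfold FD.J
        cases b <;> rfl
      rw [e1, Matrix.fromBlocks_apply₁₁]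
      simp only [v07H, v07S, Matrix.kroneckerMap_apply, Matrix.one_apply, Sum.inl.injEq, Prod.mk.injEq]
      by_cases h : k = l
      · subst h
        simp
      · have h' : ¬ l = k := fun e => h e.symm
        simp [h, h']
    · have e1 : (fOm n h2 τ ht).J (Sum.inl (k, b)) (Sum.inr l) = 0 := by
        unfold FD.J
        rw [if_neg]
        cases b <;> exact fun h => by simp [du] at h
      rw [e1, Matrix.fromBlocks_apply₁₂, Matrix.zero_apply]
  · rcases y with ⟨l, b'⟩ | l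
    · have e1 : (fOm n h2 τ ht).J (Sum.inr k) (Sum.inl (l, b')) = 0 := by
        unfold FD.J
        rw [if_neg]
        exact fun h => by simp [du] at h
      rw [e1, Matrix.fromBlocks_apply₂₁, Matrix.zero_apply]
    · have e1 : (fOm n h2 τ ht).J (Sum.inr k) (Sum.inr l) =
          if (Sum.inr l : Ix n 2) = Sum.inr (Fin.rev k) then 1 else 0 := rfl
      rw [e1, Matrix.fromBlocks_apply₂₂]
      fin_cases k <;> fin_cases l <;> simp [Fin.rev]

private theorem v07_PJP {F K : Type} [Field F] [Field K] (h2 : (2 : F) ≠ 0) (τ : F ≃+* F) (ht : ∀ x, τ (τ x) = x)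
    (i : K →+* F) {δ : K} {θ : F} (hθ : θ ^ 2 = i δ) :
    ((v07P n θ).map (RingEquiv.refl F))ᵀ * (fOm n h2 τ ht).J * v07P n θ = (v07J n δ).map i := by
  have e0 : (v07P n θ).map (RingEquiv.refl F) = v07P n θ := by
    ext x y
    rfl
  rw [e0, v07_DJ]
  unfold v07P v07J
  rw [Matrix.fromBlocks_transpose, Matrix.fromBlocks_multiply, Matrix.fromBlocks_multiply, Matrix.fromBlocks_map,
    v07H_map]
  have e1 : (!![1, θ; 1, -θ] : Matrix (Fin 2) (Fin 2) F)ᵀ * !![0, 1; 1, 0] * !![1, θ; 1, -θ] =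
      (!![2, 0; 0, -2 * δ] : Matrix (Fin 2) (Fin 2) K).map i := by
    ext k l
    fin_cases k <;> fin_cases l <;> simp [Matrix.mul_apply, Fin.sum_univ_two]
    · rw [map_ofNat]
      norm_num
    · rw [← hθ, map_ofNat]
      ring
  simp only [Matrix.transpose_one, Matrix.transpose_zero, Matrix.one_mul, Matrix.mul_one, Matrix.zero_mul,
    Matrix.mul_zero, add_zero, zero_add]
  rw [e1]
  congr 1
  · ext x y
    simp
  · ext x y
    simp

private theorem v07_P_tw {F : Type} [Field F] {τ : F ≃+* F} {θ : F} (hθ : τ θ = -θ) :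
    (v07P n θ).submatrix pm id = (v07P n θ).map τ := by
  ext x y
  rw [Matrix.submatrix_apply, Matrix.map_apply, id]
  rcases x with p | k
  · rcases y with q | l
    · show (v07P n θ) (Sum.inl p) (Sum.inl q) = _
      unfold v07P
      rw [Matrix.fromBlocks_apply₁₁]
      by_cases h : p = q
      · rw [h, Matrix.one_apply_eq, map_one]
      · rw [Matrix.one_apply_ne h, map_zero]
    · show (v07P n θ) (Sum.inl p) (Sum.inr l) = _
      unfold v07P
      rw [Matrix.fromBlocks_apply₁₂, Matrix.zero_apply, map_zero]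
  · rcases y with q | l
    · show (v07P n θ) (Sum.inr (Fin.rev k)) (Sum.inl q) = _
      unfold v07P
      rw [Matrix.fromBlocks_apply₂₁, Matrix.fromBlocks_apply₂₁, Matrix.zero_apply, Matrix.zero_apply, map_zero]
    · show (v07P n θ) (Sum.inr (Fin.rev k)) (Sum.inr l) = _
      unfold v07P
      rw [Matrix.fromBlocks_apply₂₂, Matrix.fromBlocks_apply₂₂]
      fin_cases k <;> fin_cases l <;> simp [Fin.rev, hθ]

/-- the twisted real matrices are the conjugates of the real matrices -/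
private theorem v07_tw {F : Type} [Field F] {τ : F ≃+* F} {P Q : Matrix (Ix n 2) (Ix n 2) F}
    (h1 : P * Q = 1) (h2 : Q * P = 1) (hP : P.submatrix pm id = P.map τ) (h : Matrix (Ix n 2) (Ix n 2) F) :
    TwM τ pm (P * h * Q) ↔ h.map τ = h := by
  have hτ1 : P.map τ * Q.map τ = 1 := by
    rw [← Matrix.map_mul, h1, Matrix.map_one _ (map_zero _) (map_one _)]
  have hτ2 : Q.map τ * P.map τ = 1 := by
    rw [← Matrix.map_mul, h2, Matrix.map_one _ (map_zero _) (map_one _)]
  have hQ : Q.submatrix id pm = Q.map τ := by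
    have h3 : Q.submatrix id pm * P.submatrix pm id = 1 := by
      rw [Matrix.submatrix_mul_equiv, h2]
      exact Matrix.submatrix_one_equiv (Equiv.refl _)
    rw [hP] at h3
    calc Q.submatrix id pm = Q.submatrix id pm * (P.map τ * Q.map τ) := by rw [hτ1, Matrix.mul_one]
      _ = Q.map τ := by rw [← Matrix.mul_assoc, h3, Matrix.one_mul]
  have e1 : (P * h * Q).submatrix pm pm = P.map τ * h * Q.map τ := by
    rw [← hP, ← hQ]
    rfl
  have e2 : (P * h * Q).map τ = P.map τ * h.map τ * Q.map τ := by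
    rw [Matrix.map_mul, Matrix.map_mul]
  constructor
  · intro h3
    have h4 : (P * h * Q).submatrix pm pm = (P * h * Q).map τ := by
      ext x y
      exact h3 x y
    rw [e1, e2] at h4
    have h5 := congrArg (fun M => Q.map τ * M * P.map τ) h4
    have e3 : ∀ M : Matrix (Ix n 2) (Ix n 2) F, Q.map τ * (P.map τ * M * Q.map τ) * P.map τ = M := by
      intro M
      calc Q.map τ * (P.map τ * M * Q.map τ) * P.map τ = (Q.map τ * P.map τ) * M * (Q.map τ * P.map τ) := by
            simp only [Matrix.mul_assoc]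
        _ = M := by rw [hτ2, Matrix.one_mul, Matrix.mul_one]
    rw [e3, e3] at h5
    exact h5.symm
  · intro h3 x y
    have h4 : (P * h * Q).submatrix pm pm = (P * h * Q).map τ := by
      rw [e1, e2, h3]
    exact congrFun (congrFun h4 x) y

/-- matrices with fixed entries come from the small field -/
private theorem v07_lift {F K : Type} [Field F] [Field K] {i : K →+* F} {τ : F ≃+* F}
    (hfix : ∀ x, τ x = x ↔ ∃ y, i y = x) {h : GL (Ix n 2) F}
    (hh : (h : Matrix (Ix n 2) (Ix n 2) F).map τ = h) :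
    ∃ g : GL (Ix n 2) K, Matrix.GeneralLinearGroup.map i g = h := by
  have hinj : Function.Injective (fun M : Matrix (Ix n 2) (Ix n 2) K => M.map i) := by
    intro M N hMN
    ext x y
    exact i.injective (congrFun (congrFun hMN x) y)
  have hh' : ((h⁻¹ : GL (Ix n 2) F) : Matrix (Ix n 2) (Ix n 2) F).map τ = ((h⁻¹ : GL (Ix n 2) F) : Matrix _ _ F) := by
    have e1 : ((h⁻¹ : GL (Ix n 2) F) : Matrix (Ix n 2) (Ix n 2) F).map τ * (h : Matrix (Ix n 2) (Ix n 2) F) = 1 := by
      have e3 : ((h⁻¹ : GL (Ix n 2) F) : Matrix (Ix n 2) (Ix n 2) F).map τ *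
          (h : Matrix (Ix n 2) (Ix n 2) F).map τ = 1 := by
        rw [← Matrix.map_mul, ← Units.val_mul, inv_mul_cancel, Units.val_one,
          Matrix.map_one _ (map_zero _) (map_one _)]
      rwa [hh] at e3
    have e2 : (h : Matrix (Ix n 2) (Ix n 2) F) * ((h⁻¹ : GL (Ix n 2) F) : Matrix _ _ F) = 1 := by
      rw [← Units.val_mul, mul_inv_cancel, Units.val_one]
    calc ((h⁻¹ : GL (Ix n 2) F) : Matrix (Ix n 2) (Ix n 2) F).map τ =
        ((h⁻¹ : GL (Ix n 2) F) : Matrix (Ix n 2) (Ix n 2) F).map τ * ((h : Matrix (Ix n 2) (Ix n 2) F) *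
          ((h⁻¹ : GL (Ix n 2) F) : Matrix _ _ F)) := by rw [e2, Matrix.mul_one]
      _ = ((h⁻¹ : GL (Ix n 2) F) : Matrix _ _ F) := by rw [← Matrix.mul_assoc, e1, Matrix.one_mul]
  have key : ∀ M : Matrix (Ix n 2) (Ix n 2) F, M.map τ = M → ∃ N : Matrix (Ix n 2) (Ix n 2) K, N.map i = M := by
    intro M hM
    have h1 : ∀ x y, ∃ z, i z = M x y := fun x y => (hfix _).1 (congrFun (congrFun hM x) y)
    choose N hN using h1
    exact ⟨N, by
      ext x y
      exact hN x y⟩
  obtain ⟨A, hA⟩ := key _ hh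
  obtain ⟨B, hB⟩ := key _ hh'
  have hAB : A * B = 1 := by
    apply hinj
    show (A * B).map i = (1 : Matrix _ _ K).map i
    rw [Matrix.map_mul, hA, hB, ← Units.val_mul, mul_inv_cancel, Units.val_one,
      Matrix.map_one _ (map_zero _) (map_one _)]
  have hBA : B * A = 1 := by
    apply hinj
    show (B * A).map i = (1 : Matrix _ _ K).map i
    rw [Matrix.map_mul, hA, hB, ← Units.val_mul, inv_mul_cancel, Units.val_one,
      Matrix.map_one _ (map_zero _) (map_one _)]
  refine ⟨⟨A, B, hAB, hBA⟩, ?_⟩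
  apply Units.ext
  exact hA

private theorem v07_map_mem {F K : Type} [Field F] [Field K] (i : K →+* F) (J₁ : Matrix (Ix n 2) (Ix n 2) K)
    (g : GL (Ix n 2) K) :
    Matrix.GeneralLinearGroup.map i g ∈ IG (J₁.map i) (RingEquiv.refl F) ⊓ DT (Ix n 2) F ↔
      g ∈ IG J₁ (RingEquiv.refl K) ⊓ DT (Ix n 2) K := by
  have hinj : Function.Injective (fun M : Matrix (Ix n 2) (Ix n 2) K => M.map i) := by
    intro M N hMN
    ext x y
    exact i.injective (congrFun (congrFun hMN x) y)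
  rw [Subgroup.mem_inf, Subgroup.mem_inf, mem_IG, mem_IG, mem_DT, mem_DT]
  have e0 : ((Matrix.GeneralLinearGroup.map i g : GL (Ix n 2) F) : Matrix (Ix n 2) (Ix n 2) F) =
      (g : Matrix (Ix n 2) (Ix n 2) K).map i := rfl
  have e1 : (((g : Matrix (Ix n 2) (Ix n 2) K).map i).map (RingEquiv.refl F))ᵀ * J₁.map i *
      (g : Matrix (Ix n 2) (Ix n 2) K).map i =
      (((g : Matrix (Ix n 2) (Ix n 2) K).map (RingEquiv.refl K))ᵀ * J₁ * (g : Matrix (Ix n 2) (Ix n 2) K)).map i := by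
    rw [Matrix.map_mul, Matrix.map_mul]
    rfl
  have e2 : ((g : Matrix (Ix n 2) (Ix n 2) K).map i).det = i (g : Matrix (Ix n 2) (Ix n 2) K).det :=
    (RingHom.map_det i _).symm
  rw [e0, e1, e2]
  constructor
  · rintro ⟨h1, h2⟩
    exact ⟨hinj h1, i.injective (by rw [h2, map_one])⟩
  · rintro ⟨h1, h2⟩
    exact ⟨by rw [h1], by rw [h2, map_one]⟩

end Aux

variable {Ω : Type} [Field Ω] [IsAlgClosed Ω] [CharZero Ω] {c : Parker.Ctx Ω} {K : Type} [Field K]
  [Finite K]

theorem iso_om (h2 : (2 : K) ≠ 0) {n d : ℕ} (hn : 1 ≤ n) (hd : d = 2 * n + 2)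
    {J : Matrix (Fin d) (Fin d) K} (hJ : Jᵀ = J) (hdet : J.det ≠ 0)
    (hns : ¬ IsSquare ((-1) ^ (n + 1) * J.det)) :
    Parker.PropA c 1 (⁅IG J (RingEquiv.refl K) ⊓ DT (Fin d) K, IG J (RingEquiv.refl K) ⊓ DT (Fin d) K⁆ :
      Subgroup (GL (Fin d) K)) ∧
    Parker.PropB c 1 (⁅IG J (RingEquiv.refl K) ⊓ DT (Fin d) K, IG J (RingEquiv.refl K) ⊓ DT (Fin d) K⁆ :
      Subgroup (GL (Fin d) K)) := by
  obtain ⟨F, _, _, i, τ, θ, ht, hfix, hθ2, hτθ, hθ0⟩ := quad_ext h2 hns
  obtain ⟨δ, hδ⟩ : ∃ δ, δ = (-1) ^ (n + 1) * J.det := ⟨_, rfl⟩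
  rw [← hδ] at hθ2
  have h2F : (2 : F) ≠ 0 := by
    rw [← map_ofNat i 2]
    exact (map_ne_zero i).2 h2
  have hne : ∃ x, τ x ≠ x := by
    refine ⟨θ, ?_⟩
    rw [hτθ]
    intro h
    have h1 : (2 : F) * θ = 0 := by linear_combination -h
    rcases mul_eq_zero.1 h1 with h3 | h3
    · exact h2F h3
    · exact hθ0 h3
  have hP : IsUnit (v07P n θ).det := by
    rw [v07P_det, isUnit_iff_ne_zero]
    exact mul_ne_zero (neg_ne_zero.2 h2F) hθ0
  have h1 : v07P n θ * (v07P n θ)⁻¹ = 1 := Matrix.mul_nonsing_inv _ hP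
  have h2' : (v07P n θ)⁻¹ * v07P n θ = 1 := Matrix.nonsing_inv_mul _ hP
  have hJ' := v07_PJP (n := n) h2F τ ht i hθ2
  have hmap := (map_IG (σ := RingEquiv.refl F) (v07P n θ) (v07P n θ)⁻¹ h1 h2' hJ').2
  have hDG : (fOm n h2F τ ht).G = (IG (fOm n h2F τ ht).J (RingEquiv.refl F) ⊓ TW τ pm) ⊓ DT (Ix n 2) F := by
    have hso : (fOm n h2F τ ht).so = true := rfl
    unfold FD.G
    rw [if_pos hso]
    rfl
  obtain ⟨φ, hφ⟩ : ∃ φ : GL (Ix n 2) K →* GL (Ix n 2) F, φ =
    (cj (v07P n θ) (v07P n θ)⁻¹ h1 h2').toMonoidHom.comp (Matrix.GeneralLinearGroup.map i) := ⟨_, rfl⟩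
  have hφ' : ∀ g, φ g = cj (v07P n θ) (v07P n θ)⁻¹ h1 h2' (Matrix.GeneralLinearGroup.map i g) := by
    intro g
    rw [hφ]
    rfl
  have hinj : Function.Injective φ := by
    intro g g' h
    rw [hφ', hφ'] at h
    have h3 := (cj (v07P n θ) (v07P n θ)⁻¹ h1 h2').injective h
    apply Units.ext
    ext x y
    have h4 := congrArg (fun M : GL (Ix n 2) F => (M : Matrix (Ix n 2) (Ix n 2) F) x y) h3
    exact i.injective h4
  have hG : (IG (v07J n δ) (RingEquiv.refl K) ⊓ DT (Ix n 2) K).map φ = (fOm n h2F τ ht).G := by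
    rw [hDG]
    ext g
    constructor
    · rintro ⟨h, hh, rfl⟩
      have h3 : φ h ∈ IG (fOm n h2F τ ht).J (RingEquiv.refl F) ⊓ DT (Ix n 2) F := by
        rw [← hmap, hφ']
        exact Subgroup.mem_map_of_mem _ ((v07_map_mem i _ h).2 hh)
      obtain ⟨h4, h5⟩ := Subgroup.mem_inf.1 h3
      refine Subgroup.mem_inf.2 ⟨Subgroup.mem_inf.2 ⟨h4, ?_⟩, h5⟩
      rw [mem_TW, hφ', cj_coe, v07_tw h1 h2' (v07_P_tw hτθ)]
      ext x y
      exact (hfix _).2 ⟨_, rfl⟩
    · intro hg
      obtain ⟨h3, h5⟩ := Subgroup.mem_inf.1 hg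
      obtain ⟨h3, h4⟩ := Subgroup.mem_inf.1 h3
      have h6 : g ∈ IG (fOm n h2F τ ht).J (RingEquiv.refl F) ⊓ DT (Ix n 2) F := Subgroup.mem_inf.2 ⟨h3, h5⟩
      rw [← hmap] at h6
      obtain ⟨h, hh, hhg⟩ := h6
      have hhg' : cj (v07P n θ) (v07P n θ)⁻¹ h1 h2' h = g := hhg
      rw [mem_TW, ← hhg', cj_coe, v07_tw h1 h2' (v07_P_tw hτθ)] at h4
      obtain ⟨k, hk⟩ := v07_lift hfix h4
      refine ⟨k, ?_, ?_⟩
      · rw [← hk] at hh
        exact (v07_map_mem i _ k).1 hh
      · rw [hφ', hk, hhg']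
  have hcom : (⁅(fOm n h2F τ ht).G, (fOm n h2F τ ht).G⁆ : Subgroup (GL (Ix n 2) F)) =
      (⁅IG (v07J n δ) (RingEquiv.refl K) ⊓ DT (Ix n 2) K, IG (v07J n δ) (RingEquiv.refl K) ⊓ DT (Ix n 2) K⁆ :
        Subgroup (GL (Ix n 2) K)).map φ := by
    rw [Subgroup.map_commutator, hG]
  have e1 := Subgroup.equivMapOfInjective
    (⁅IG (v07J n δ) (RingEquiv.refl K) ⊓ DT (Ix n 2) K, IG (v07J n δ) (RingEquiv.refl K) ⊓ DT (Ix n 2) K⁆ :
      Subgroup (GL (Ix n 2) K)) φ hinj
  have hc : Cong (RingEquiv.refl K) J (v07J n δ) := by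
    have hJd : (v07J n δ).det = J.det * 2 ^ 2 := by
      rw [v07J_det, hδ]
      have h3 : ((-1 : K) ^ n) * (-1) ^ n = 1 := by
        rw [← mul_pow, neg_one_mul, neg_neg, one_pow]
      rw [pow_succ]
      linear_combination (4 * J.det) * h3
    refine cong_symm_form h2 hJ hdet (v07J_symm δ) ?_ ?_ hJd
    · rw [hJd]
      exact mul_ne_zero hdet (pow_ne_zero _ h2)
    · rw [Fintype.card_sum, Fintype.card_prod, Fintype.card_fin, Fintype.card_fin, Fintype.card_fin,
        Fintype.card_bool, hd]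
      ring
  obtain ⟨e2⟩ := cong_C hc
  have hA : Parker.PropA c 1 (⁅(fOm n h2F τ ht).G, (fOm n h2F τ ht).G⁆ : Subgroup (GL (Ix n 2) F)) :=
    om_propA hn h2F τ ht hne
  have hB : Parker.PropB c 1 (⁅(fOm n h2F τ ht).G, (fOm n h2F τ ht).G⁆ : Subgroup (GL (Ix n 2) F)) :=
    om_propB hn h2F τ ht hne
  rw [hcom] at hA hB
  exact ⟨Parker.propA_congr (e1.symm.trans e2) hA, Parker.propB_congr (e1.symm.trans e2) hB⟩

end

end AO.MG
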