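import Pool.Agent.AO.W01
import Pool.Agent.Parker.N04

/-!
# MP_6c3636_al, AO, module W02: a representation of G with a given weight (helper7)

First: there are an irreducible representation `M₀` of `G` and an injective `H`-equivariant map `φ : V → M₀` (induction; the Parker library contains induced characters or: `ρ.character` is a constituent of the restriction of some irreducible character of `G`, by Frobenius reciprocity / because the regular representation of `G` restricted to `H` contains `V`; then `φ` exists as `V` is irreducible, `Parker.exists_sub_of_mul`). Let `0 ≠ v` have weight `th a` on `T ⊓ H`. The subspace of `M₀` spanned by the `M₀ x (φ v)`, `x ∈ T`, is stable under the commutative group `T`, consists of vectors fixed by `U` (`TU`) on which `T ⊓ H` acts by `th a`; choose a joint eigenvector `w` of `T` in it: `M₀ x w = χ x • w`, `χ` multiplicative on `T`, `χ = th a` on `T ⊓ H`. So `χ / th a` is trivial on `T ⊓ H`; as `G = H T` (`HT`), `δ (h x)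 = χ x / th a x` is a well defined homomorphism `δ : G →* Ωˣ`, trivial on `H`. Put `M g = δ(g)⁻¹ • M₀ g`: irreducible, `φ` is still `H`-equivariant, and `w` is fixed by `U` with `M x w = th a x • w`, so `ev M (E0 a) w = w`. (`B.E0 k a` for any field `k` with `Algebra k Ω`: use `ev_act` (L01).)
-/

namespace AO

noncomputable section

open Classical Equiv

open AN (sq)

variable {Ω : Type} [Field Ω] [IsAlgClosed Ω] [CharZero Ω] {G : Type} [Group G] [Finite G] {n : ℕ} {B : BN G n}
  {V : Type} [AddCommGroup V] [Module Ω V] [FiniteDimensional Ω V] {ρ : Representation Ω B.H V}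

namespace W02_aux

/-! ### functions on `G` with values in `V` -/

section Ind

variable {Ω : Type} [Field Ω] {G : Type} [Group G] {H : Subgroup G}
  {V : Type} [AddCommGroup V] [Module Ω V]

/-- right translation of functions -/
def rt (V : Type) [AddCommGroup V] [Module Ω V] (g : G) : Module.End Ω (G → V) where
  toFun f := fun x => f (x * g)
  map_add' _ _ := rfl
  map_smul' _ _ := rfl

/-- the representation on the functions with values in `V` -/
def fn (Ω : Type) [Field Ω] (G : Type) [Group G] (V : Type) [AddCommGroup V] [Module Ω V] :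
    Representation Ω G (G → V) where
  toFun g := rt V g
  map_one' := by
    refine LinearMap.ext fun f => funext fun x => ?_
    show f (x * 1) = f x
    rw [mul_one]
  map_mul' g h := by
    refine LinearMap.ext fun f => funext fun x => ?_
    show f (x * (g * h)) = f (x * g * h)
    rw [mul_assoc]

/-- the embedding of `V` -/
def em (ρ : Representation Ω H V) : V →ₗ[Ω] (G → V) where
  toFun v := fun x => if h : x ∈ H then ρ ⟨x, h⟩ v else 0
  map_add' v w := by
    funext x
    show (if h : x ∈ H then ρ ⟨x, h⟩ (v + w) else 0) =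
      (if h : x ∈ H then ρ ⟨x, h⟩ v else 0) + (if h : x ∈ H then ρ ⟨x, h⟩ w else 0)
    split_ifs with h
    · exact map_add _ _ _
    · rw [add_zero]
  map_smul' c v := by
    funext x
    show (if h : x ∈ H then ρ ⟨x, h⟩ (c • v) else 0) = c • (if h : x ∈ H then ρ ⟨x, h⟩ v else 0)
    split_ifs with h
    · exact map_smul _ _ _
    · rw [smul_zero]

theorem em_apply (ρ : Representation Ω H V) (v : V) (x : G) :
    em ρ v x = if h : x ∈ H then ρ ⟨x, h⟩ v else 0 := rfl

theorem em_eq (ρ : Representation Ω H V) (h : H) (v : V) : em ρ (ρ h v) = fn Ω G V h (em ρ v) := by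
  funext x
  show (if hx : x ∈ H then ρ ⟨x, hx⟩ (ρ h v) else 0) =
    (if hx : x * (h : G) ∈ H then ρ ⟨x * h, hx⟩ v else 0)
  by_cases hx : x ∈ H
  · rw [dif_pos hx, dif_pos (H.mul_mem hx h.2)]
    have h1 : (⟨x * (h : G), H.mul_mem hx h.2⟩ : H) = ⟨x, hx⟩ * h := rfl
    rw [h1, map_mul]
    rfl
  · rw [dif_neg hx, dif_neg]
    intro h2
    apply hx
    have := H.mul_mem h2 (H.inv_mem h.2)
    rwa [mul_inv_cancel_right] at this

theorem em_one (ρ : Representation Ω H V) (v : V) : em ρ v (1 : G) = v := by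
  rw [em_apply, dif_pos H.one_mem]
  have h1 : (⟨1, H.one_mem⟩ : H) = 1 := rfl
  rw [h1, map_one]
  rfl

end Ind

section Min

variable {Ω : Type} [Field Ω] [IsAlgClosed Ω] [CharZero Ω] {G : Type} [Group G] [Finite G]
  {H : Subgroup G} {V : Type} [AddCommGroup V] [Module Ω V] [FiniteDimensional Ω V]

theorem inj_of {ρ : Representation Ω H V} (hρ : ρ.IsIrreducible) {W : Type} [AddCommGroup W]
    [Module Ω W] {M : Representation Ω G W} {φ : V →ₗ[Ω] W} (h0 : φ ≠ 0)
    (hφ : ∀ (h : H) v, φ (ρ h v) = M h (φ v)) : Function.Injective φ := by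
  rw [← LinearMap.ker_eq_bot]
  rcases Parker.irr_sub hρ (U := LinearMap.ker φ) (fun g x hx => by
    rw [LinearMap.mem_ker] at hx ⊢
    rw [hφ, hx, map_zero]) with h | h
  · exact h
  · exact absurd (LinearMap.ker_eq_top.1 h) h0

theorem exists_min {ρ : Representation Ω H V} (hρ : ρ.IsIrreducible) : ∀ (d : ℕ) (W : Type)
    [AddCommGroup W] [Module Ω W] [FiniteDimensional Ω W] (M : Representation Ω G W)
    (φ : V →ₗ[Ω] W), Module.finrank Ω W ≤ d → φ ≠ 0 → (∀ (h : H) v, φ (ρ h v) = M h (φ v)) →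
    ∃ (W' : Type) (_ : AddCommGroup W') (_ : Module Ω W') (_ : FiniteDimensional Ω W')
      (M' : Representation Ω G W') (φ' : V →ₗ[Ω] W'), M'.IsIrreducible ∧ Function.Injective φ' ∧
        ∀ (h : H) v, φ' (ρ h v) = M' h (φ' v) := by
  intro d
  induction d with
  | zero =>
    intro W _ _ _ M φ hd h0 _
    exfalso
    apply h0
    have hs : Subsingleton W := Module.finrank_zero_iff.1 (Nat.le_zero.1 hd)
    exact LinearMap.ext fun v => hs.elim _ _
  | succ d ih =>
    intro W _ _ _ M φ hd h0 hφ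
    by_cases hM : M.IsIrreducible
    · exact ⟨W, inferInstance, inferInstance, inferInstance, M, φ, hM, inj_of hρ h0 hφ, hφ⟩
    · have hpos : 0 < Module.finrank Ω W := by
        rw [Module.finrank_pos_iff_exists_ne_zero]
        by_contra hcon
        push Not at hcon
        exact h0 (LinearMap.ext fun v => hcon (φ v))
      have hU : ∃ U : Submodule Ω W, (∀ g, ∀ x ∈ U, M g x ∈ U) ∧ U ≠ ⊥ ∧ U ≠ ⊤ := by
        by_contra hcon
        push Not at hcon
        apply hM
        refine Parker.irr_of_sub hpos fun U hU => ?_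
        by_cases hb : U = ⊥
        · exact Or.inl hb
        · exact Or.inr (hcon U hU hb)
      obtain ⟨U, hU, hb, ht⟩ := hU
      obtain ⟨U', hc⟩ := Parker.P09_aux.exists_compl (ρ := M) ⟨U, fun g x hx => hU g x hx⟩
      have hc' : IsCompl U U'.toSubmodule := hc
      have hb' : U'.toSubmodule ≠ ⊥ := by
        intro hb'
        apply ht
        have := hc'.sup_eq_top
        rwa [hb', sup_bot_eq] at this
      -- the quotient by one of the two
      have key : ∀ Z : Submodule Ω W, (∀ g, ∀ x ∈ Z, M g x ∈ Z) → Z ≠ ⊥ →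
          Z.mkQ ∘ₗ φ ≠ 0 → ∃ (W' : Type) (_ : AddCommGroup W') (_ : Module Ω W')
          (_ : FiniteDimensional Ω W') (M' : Representation Ω G W') (φ' : V →ₗ[Ω] W'),
          M'.IsIrreducible ∧ Function.Injective φ' ∧ ∀ (h : H) v, φ' (ρ h v) = M' h (φ' v) := by
        intro Z hZ hZb hne
        have hZ' : ∀ g, Z ≤ Z.comap (M g) := fun g x hx => hZ g x hx
        have hlt : Module.finrank Ω (W ⧸ Z) ≤ d := by
          have h1 := Submodule.finrank_quotient_add_finrank Z
          have h2 : 0 < Module.finrank Ω Z := by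
            rw [Module.finrank_pos_iff]
            exact Submodule.nontrivial_iff_ne_bot.2 hZb
          omega
        refine ih (W ⧸ Z) (Parker.N04_aux.quoR M Z hZ') (Z.mkQ ∘ₗ φ) hlt hne fun h v => ?_
        show Z.mkQ (φ (ρ h v)) = Z.mapQ Z (M h) (hZ' h) (Z.mkQ (φ v))
        rw [hφ]
        rfl
      by_cases h1 : U.mkQ ∘ₗ φ = 0
      · have h2 : U'.toSubmodule.mkQ ∘ₗ φ ≠ 0 := by
          intro h2
          apply h0
          refine LinearMap.ext fun v => ?_
          have e1 : φ v ∈ U := by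
            have := LinearMap.congr_fun h1 v
            rwa [LinearMap.comp_apply, LinearMap.zero_apply, Submodule.mkQ_apply,
              Submodule.Quotient.mk_eq_zero] at this
          have e2 : φ v ∈ U'.toSubmodule := by
            have := LinearMap.congr_fun h2 v
            rwa [LinearMap.comp_apply, LinearMap.zero_apply, Submodule.mkQ_apply,
              Submodule.Quotient.mk_eq_zero] at this
          have e3 : φ v ∈ U ⊓ U'.toSubmodule := ⟨e1, e2⟩
          rw [hc'.inf_eq_bot, Submodule.mem_bot] at e3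
          rw [e3, LinearMap.zero_apply]
        exact key U'.toSubmodule (fun g x hx => U'.apply_mem_toSubmodule g hx) hb' h2
      · exact key U hU hb h1

theorem exists_ind {ρ : Representation Ω H V} (hρ : ρ.IsIrreducible) :
    ∃ (W' : Type) (_ : AddCommGroup W') (_ : Module Ω W') (_ : FiniteDimensional Ω W')
      (M' : Representation Ω G W') (φ' : V →ₗ[Ω] W'), M'.IsIrreducible ∧ Function.Injective φ' ∧
        ∀ (h : H) v, φ' (ρ h v) = M' h (φ' v) := by
  have := Fintype.ofFinite G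
  refine exists_min hρ _ (G → V) (fn Ω G V) (em ρ) le_rfl ?_ (em_eq ρ)
  intro h0
  obtain ⟨⟨v, hv⟩, -⟩ := (Parker.P08_aux.irr_iff ρ).1 hρ
  apply hv
  rw [← em_one ρ v, h0]
  rfl

end Min

section Joint

variable {Ω : Type} [Field Ω] [IsAlgClosed Ω] {G : Type} [Group G]
  {W : Type} [AddCommGroup W] [Module Ω W] [FiniteDimensional Ω W]

theorem joint {T : Subgroup G} (hT : ∀ x ∈ T, ∀ y ∈ T, x * y = y * x)
    {M : Representation Ω G W} : ∀ (d : ℕ) (S : Submodule Ω W), Module.finrank Ω S ≤ d →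
    S ≠ ⊥ → (∀ y ∈ T, ∀ w ∈ S, M y w ∈ S) → ∃ w ∈ S, w ≠ 0 ∧ ∀ y ∈ T, ∃ c : Ω, M y w = c • w := by
  intro d
  induction d with
  | zero =>
    intro S hd hS _
    exfalso
    apply hS
    exact Submodule.finrank_eq_zero.1 (Nat.le_zero.1 hd)
  | succ d ih =>
    intro S hd hS hTS
    obtain ⟨w₀, hw₀, hn₀⟩ := (Submodule.ne_bot_iff S).1 hS
    by_cases hall : ∀ y ∈ T, ∃ c : Ω, M y w₀ = c • w₀
    · exact ⟨w₀, hw₀, hn₀, hall⟩
    · push Not at hall
      obtain ⟨y, hy, hyc⟩ := hall
      have : Nontrivial S := Submodule.nontrivial_iff_ne_bot.2 hS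
      let f : Module.End Ω S := (M y).restrict (fun w hw => hTS y hy w hw)
      obtain ⟨μ, hμ⟩ := Module.End.exists_eigenvalue f
      obtain ⟨w₁, hw₁⟩ := hμ.exists_hasEigenvector
      have e1 : M y w₁ = μ • (w₁ : W) := congrArg Subtype.val hw₁.apply_eq_smul
      have e2 : (w₁ : W) ≠ 0 := fun h => hw₁.2 (Subtype.ext h)
      let S' : Submodule Ω W := S ⊓ LinearMap.ker (M y - μ • (1 : Module.End Ω W))
      have mem : ∀ w, w ∈ S' ↔ w ∈ S ∧ M y w = μ • w := by
        intro w
        show (w ∈ S ∧ w ∈ LinearMap.ker (M y - μ • (1 : Module.End Ω W))) ↔ _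
        rw [LinearMap.mem_ker, LinearMap.sub_apply, sub_eq_zero, LinearMap.smul_apply,
          Module.End.one_apply]
      have h1 : S' ≠ ⊥ := (Submodule.ne_bot_iff S').2 ⟨w₁, (mem _).2 ⟨w₁.2, e1⟩, e2⟩
      have h2 : S' < S := by
        refine lt_of_le_of_ne inf_le_left fun h => ?_
        have h3 : w₀ ∈ S' := by rw [h]; exact hw₀
        exact hyc μ ((mem _).1 h3).2
      have h3 : Module.finrank Ω S' ≤ d := by
        have := Submodule.finrank_lt_finrank_of_lt h2
        omega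
      obtain ⟨w, hw, hn, hc⟩ := ih S' h3 h1 (fun z hz w hw => by
        obtain ⟨ha, hb⟩ := (mem _).1 hw
        refine (mem _).2 ⟨hTS z hz w ha, ?_⟩
        have e3 : M y (M z w) = M z (M y w) := by
          rw [← Module.End.mul_apply, ← Module.End.mul_apply, ← map_mul, ← map_mul, hT y hy z hz]
        rw [e3, hb, map_smul])
      exact ⟨w, ((mem _).1 hw).1, hn, hc⟩

end Joint

section Ext

variable {Ω : Type} [Field Ω] {G : Type} [Group G]

theorem ext_char {H T : Subgroup G} (hN : H.Normal) (hHT : ∀ g, ∃ h ∈ H, ∃ x ∈ T, g = h * x)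
    {ψ : G → Ω} (hm : ∀ x ∈ T, ∀ y ∈ T, ψ (x * y) = ψ x * ψ y)
    (h1 : ∀ x ∈ T, x ∈ H → ψ x = 1) :
    ∃ δ : G →* Ω, (∀ h ∈ H, δ h = 1) ∧ ∀ x ∈ T, δ x = ψ x := by
  choose a ha b hb hab using hHT
  have wd : ∀ h ∈ H, ∀ x ∈ T, ψ (b (h * x)) = ψ x := by
    intro h hh x hx
    have e1 : b (h * x) * x⁻¹ = (a (h * x))⁻¹ * h := by
      have e := hab (h * x)
      rw [eq_inv_mul_iff_mul_eq, ← mul_assoc, ← e]
      rw [mul_inv_cancel_right]
    have e2 : b (h * x) * x⁻¹ ∈ H := by
      rw [e1]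
      exact H.mul_mem (H.inv_mem (ha _)) hh
    have e3 : b (h * x) * x⁻¹ ∈ T := T.mul_mem (hb _) (T.inv_mem hx)
    have e4 : b (h * x) = b (h * x) * x⁻¹ * x := by rw [inv_mul_cancel_right]
    rw [e4, hm _ e3 _ hx, h1 _ e3 e2, one_mul]
  have hδ1 : ψ (b 1) = 1 := by
    have h2 := wd 1 H.one_mem 1 T.one_mem
    rw [one_mul] at h2
    rw [h2]
    exact h1 1 T.one_mem H.one_mem
  have hδm : ∀ g g' : G, ψ (b (g * g')) = ψ (b g) * ψ (b g') := by
    intro g g'
    have e1 : g * g' = (a g * (b g * a g' * (b g)⁻¹)) * (b g * b g') := by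
      conv_lhs => rw [hab g, hab g']
      group
    rw [e1, wd _ (H.mul_mem (ha g) (hN.conj_mem _ (ha g') _)) _ (T.mul_mem (hb g) (hb g')),
      hm _ (hb g) _ (hb g')]
  refine ⟨{ toFun := fun g => ψ (b g), map_one' := hδ1, map_mul' := hδm }, ?_, ?_⟩
  · intro h hh
    show ψ (b h) = 1
    have h2 := wd h hh 1 T.one_mem
    rw [mul_one] at h2
    rw [h2]
    exact h1 1 T.one_mem H.one_mem
  · intro x hx
    show ψ (b x) = ψ x
    have h2 := wd 1 H.one_mem x hx
    rwa [one_mul] at h2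

end Ext

section Ev

variable {Ω : Type} [Field Ω] [CharZero Ω] {G : Type} [Group G] [Finite G]
  {W : Type} [AddCommGroup W] [Module Ω W]

theorem ev_el {k : Type} [Field k] [CharZero k] [Algebra k Ω] (M : Representation Ω G W)
    (U : Subgroup G) (l : G → ℤˣ) {w : W}
    (h : ∀ g ∈ U, M g w = (((l g : ℤˣ) : ℤ) : Ω) • w) : ev M (LieP.el k U l) w = w := by
  have := Fintype.ofFinite G
  rw [ev_act, Parker.act_eq, LinearMap.sum_apply]
  have h1 : ∀ g : G, (algebraMap k Ω ((LieP.el k U l).coeff g) • M g) w =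
      if g ∈ U then (Nat.card U : Ω)⁻¹ • w else 0 := by
    intro g
    rw [LinearMap.smul_apply, LieP.A02_aux.coeff_el']
    split_ifs with hg
    · rw [h g hg, smul_smul, map_mul, map_inv₀, map_natCast, map_intCast, mul_assoc,
        LieP.A02_aux.unit_sq, mul_one]
    · rw [map_zero, zero_smul]
  rw [Finset.sum_congr rfl fun g _ => h1 g, ← Finset.sum_filter, Finset.sum_const,
    ← Nat.cast_smul_eq_nsmul Ω, smul_smul]
  have h2 : ((Finset.univ.filter (fun g : G => g ∈ U)).card : Ω) = (Nat.card U : Ω) := by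
    congr 1
    rw [Nat.card_eq_fintype_card, Fintype.card_subtype]
  rw [h2, mul_inv_cancel₀ (Nat.cast_ne_zero.2 Nat.card_pos.ne'), one_smul]

end Ev

end W02_aux

theorem exists_M (hρ : ρ.IsIrreducible) {a : Fin n → Bool}
    (h : B.wt ρ (fun x => (((B.th a x : ℤˣ) : ℤ) : Ω)) ≠ ⊥) :
    ∃ (W : Type) (_ : AddCommGroup W) (_ : Module Ω W) (_ : FiniteDimensional Ω W)
      (M : Representation Ω G W) (φ : V →ₗ[Ω] W), M.IsIrreducible ∧ Function.Injective φ ∧
        (∀ (h : B.H) v, φ (ρ h v) = M h (φ v)) ∧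
        ∀ (k : Type) [Field k] [CharZero k] [Algebra k Ω], ev M (B.E0 k a) ≠ 0 := by
  obtain ⟨v, hv, hv0⟩ := (Submodule.ne_bot_iff _).1 h
  obtain ⟨W, _, _, _, M₀, φ, hM₀, hφ, hφe⟩ := W02_aux.exists_ind hρ
  obtain ⟨hv1, hv2⟩ := hv
  rw [eH_fix] at hv1
  -- the vectors of the weight
  let S : Submodule Ω W :=
    { carrier := {w | (∀ u ∈ B.U, M₀ u w = w) ∧
        ∀ x ∈ B.T, x ∈ B.H → M₀ x w = (((B.th a x : ℤˣ) : ℤ) : Ω) • w}
      add_mem' := by
        rintro v w ⟨h1, h2⟩ ⟨h3, h4⟩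
        refine ⟨fun u hu => by rw [map_add, h1 u hu, h3 u hu], fun x hx hH => ?_⟩
        rw [map_add, h2 x hx hH, h4 x hx hH, smul_add]
      zero_mem' := ⟨fun u _ => map_zero _, fun x _ _ => by rw [map_zero, smul_zero]⟩
      smul_mem' := by
        rintro c v ⟨h1, h2⟩
        refine ⟨fun u hu => by rw [map_smul, h1 u hu], fun x hx hH => ?_⟩
        rw [map_smul, h2 x hx hH, smul_comm] }
  have hS : ∀ w, w ∈ S ↔ (∀ u ∈ B.U, M₀ u w = w) ∧
      ∀ x ∈ B.T, x ∈ B.H → M₀ x w = (((B.th a x : ℤˣ) : ℤ) : Ω) • w := fun w => Iff.rfl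
  have hφv : φ v ∈ S := by
    refine (hS _).2 ⟨fun u hu => ?_, fun x hx hH => ?_⟩
    · have h1 := hφe ⟨u, B.UH hu⟩ v
      rw [hv1 u hu] at h1
      exact h1.symm
    · have h1 := hφe ⟨x, hH⟩ v
      have h2 : ρ ⟨x, hH⟩ v = (((B.th a x : ℤˣ) : ℤ) : Ω) • v := hv2 x hH hx
      rw [h2, map_smul] at h1
      exact h1.symm
  have hφv0 : φ v ≠ 0 := by
    intro h0
    exact hv0 (hφ (by rw [h0, map_zero]))
  have hSb : S ≠ ⊥ := (Submodule.ne_bot_iff S).2 ⟨φ v, hφv, hφv0⟩
  have hMM : ∀ (g g' : G) (w : W), M₀ g (M₀ g' w) = M₀ (g * g') w := by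
    intro g g' w
    rw [map_mul, Module.End.mul_apply]
  have hST : ∀ y ∈ B.T, ∀ w ∈ S, M₀ y w ∈ S := by
    intro y hy w hw
    obtain ⟨h1, h2⟩ := (hS w).1 hw
    refine (hS _).2 ⟨fun u hu => ?_, fun x hx hH => ?_⟩
    · have e1 : y⁻¹ * u * y ∈ B.U := by
        have := B.TU y⁻¹ (B.T.inv_mem hy) u hu
        rwa [inv_inv] at this
      have e2 : u * y = y * (y⁻¹ * u * y) := by group
      rw [hMM, e2, ← hMM, h1 _ e1]
    · rw [hMM, B.Tc x hx y hy, ← hMM, h2 x hx hH, map_smul]
  obtain ⟨w, hw, hw0, hwc⟩ := W02_aux.joint B.Tc (M := M₀) _ S le_rfl hSb hST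
  obtain ⟨hwU, hwT⟩ := (hS w).1 hw
  -- the character
  have hcw : ∀ {c c' : Ω}, c • w = c' • w → c = c' := fun h => smul_left_injective Ω hw0 h
  let χ : G → Ω := fun y => if hy : y ∈ B.T then (hwc y hy).choose else 0
  have hχ : ∀ y ∈ B.T, M₀ y w = χ y • w := by
    intro y hy
    have e : χ y = (hwc y hy).choose := dif_pos hy
    rw [e]
    exact (hwc y hy).choose_spec
  have hχm : ∀ x ∈ B.T, ∀ y ∈ B.T, χ (x * y) = χ x * χ y := by
    intro x hx y hy
    apply hcw
    rw [← hχ _ (B.T.mul_mem hx hy), ← hMM, hχ y hy, map_smul, hχ x hx, smul_smul, mul_comm]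
  have hχ1 : χ 1 = 1 := by
    apply hcw
    rw [← hχ _ B.T.one_mem, map_one, one_smul]
    rfl
  have hth1 : ∀ x, (((B.th a x : ℤˣ) : ℤ) : Ω) * (((B.th a x : ℤˣ) : ℤ) : Ω) = 1 :=
    fun x => LieP.A02_aux.unit_sq _
  obtain ⟨δ, hδH, hδT⟩ := W02_aux.ext_char (ψ := fun x => χ x * (((B.th a x : ℤˣ) : ℤ) : Ω))
    B.hN B.HT (by
      intro x hx y hy
      show χ (x * y) * (((B.th a (x * y) : ℤˣ) : ℤ) : Ω) = χ x * (((B.th a x : ℤˣ) : ℤ) : Ω) *
        (χ y * (((B.th a y : ℤˣ) : ℤ) : Ω))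
      rw [hχm x hx y hy, B.thm a x hx y hy, Units.val_mul, Int.cast_mul]
      ring) (by
      intro x hx hH
      show χ x * (((B.th a x : ℤˣ) : ℤ) : Ω) = 1
      have e1 : χ x = (((B.th a x : ℤˣ) : ℤ) : Ω) := by
        apply hcw
        rw [← hχ x hx, hwT x hx hH]
      rw [e1, hth1])
  have hδδ : ∀ g, δ g * δ g⁻¹ = 1 := fun g => by rw [← map_mul, mul_inv_cancel, map_one]
  let M : Representation Ω G W :=
    { toFun := fun g => δ g⁻¹ • M₀ g
      map_one' := by rw [inv_one, map_one, map_one, one_smul]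
      map_mul' := fun g g' => by
        rw [mul_inv_rev, map_mul, map_mul, smul_mul_smul_comm, mul_comm (δ g'⁻¹)] }
  have hM : ∀ g w, M g w = δ g⁻¹ • M₀ g w := fun g w => rfl
  have hM' : ∀ g w, M₀ g w = δ g • M g w := fun g w => by
    rw [hM, smul_smul, hδδ, one_smul]
  have hMw : ∀ x ∈ B.T, M x w = (((B.th a x : ℤˣ) : ℤ) : Ω) • w := by
    intro x hx
    have hx' : x⁻¹ ∈ B.T := B.T.inv_mem hx
    have e1 : δ x⁻¹ = χ x⁻¹ * (((B.th a x⁻¹ : ℤˣ) : ℤ) : Ω) := hδT _ hx'
    have e2 : B.th a x⁻¹ = B.th a x := LieP.lin_inv (U := B.T) (B.thm a) hx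
    have e3 : χ x⁻¹ * χ x = 1 := by rw [← hχm _ hx' _ hx, inv_mul_cancel, hχ1]
    rw [hM, hχ x hx, smul_smul, e1, e2, mul_right_comm, e3, one_mul]
  have hMu : ∀ u ∈ B.U, M u w = w := by
    intro u hu
    rw [hM, hδH _ (B.H.inv_mem (B.UH hu)), one_smul, hwU u hu]
  refine ⟨W, inferInstance, inferInstance, inferInstance, M, φ, ?_, hφ, ?_, ?_⟩
  · refine Parker.irr_of_sub (Parker.irr_pos hM₀) fun Z hZ => ?_
    refine Parker.irr_sub hM₀ fun g x hx => ?_
    rw [hM']
    exact Z.smul_mem _ (hZ g x hx)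
  · intro h v
    rw [hM, hδH _ (B.H.inv_mem h.2), one_smul]
    exact hφe h v
  · intro k _ _ _ h0
    apply hw0
    have e1 : ev M (LieP.el k B.T (B.th a)) w = w := W02_aux.ev_el M B.T (B.th a) hMw
    have e2 : ev M (B.e k) w = w := by
      have e3 : B.e k = LieP.el k B.U (fun _ => 1) := (LieP.A02_aux.el_av B.U).symm
      rw [e3]
      refine W02_aux.ev_el M B.U _ fun g hg => ?_
      rw [hMu g hg, Units.val_one, Int.cast_one, one_smul]
    have e4 : ev M (B.E0 k a) w = w := by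
      unfold BN.E0
      rw [map_mul, Module.End.mul_apply, e1, e2]
    rw [← e4, h0]
    rfl

end

end AO
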