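import Pool.Agent.AO.W01
import Pool.Agent.AO.L01

/-!
# MP_6c3636_al, AO, module W03: the nu-case: the operator of nt (helper7)

Write `nt = s x` with `s = B.s i`, `x ∈ T` (`ntN`), `e = B.e Ω`. In the group algebra: `[nt] [nt] = [s] [x] [s] [x] = [s] [s] [x' x]` with `x' = s⁻¹ x s ∈ T` (`sT'`, `b_xg`), `|R| [s] [s] = [s s] + ∑ r ≠ 1, [s h_r]` (`rank1`), so `|R| [nt] [nt] = [nt nt] + ∑ r ≠ 1, [nt y_r]` with `y_r = x⁻¹ h_r x' x ∈ T`. The left hand side has support in `H`, and so has every term: `nt y_r ∈ H` because `s r s = u (s h_r) u'` gives `nt r' nt ∈ U nt y_r U` with a suitable `r' = x r x⁻¹`... (or: the coefficients of all terms are nonnegative and the supports of the terms add up). Apply the operators of `ρ` (`LieP.op ρ`, LieP/Defs2.lean: coefficients outside of `H` are ignored; or sums over `B.H`). For `v ∈ wt ρ g`: `[nt nt] v = g (nt nt) • v`, `[nt y_r] v` is a multiple of `[nt] v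 ∈ wt ρ (g ∘ conj nt⁻¹)` (`wtH_N`), and the left hand side is in `wt ρ (g ∘ conj (nt nt)⁻¹) = wt ρ g` (`nt nt ∈ T` commutes with `T`). As `g ∘ conj nt⁻¹ ≠ g` on `T ⊓ H`, the two weight spaces are disjoint, so `|R| [nt] [nt] v = g (nt nt) • v`. `nt_even`: `wtH_parity` (W01) with `τ f x = f (nt⁻¹ x nt)`: `v ↦ [nt] v` is injective on the weight spaces by `nt_sq`, so `dim wt (τ f) ≥ dim wt f`, and `τ (τ f) = f` on `T ⊓ H`, so the dimensions are equal. If the dimension of the range of `eH` were odd there would be a weight `f'` with `τ f' = f'`; `f' = f ∘ conj m⁻¹` by `wtH_conj`: contradiction to `hν`.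
-/

namespace AO

noncomputable section

open Classical Equiv

open AN (sq)

variable {Ω : Type} [Field Ω] [IsAlgClosed Ω] [CharZero Ω] {G : Type} [Group G] [Finite G] {n : ℕ} {B : BN G n}
  {V : Type} [AddCommGroup V] [Module Ω V] [FiniteDimensional Ω V] {ρ : Representation Ω B.H V}

namespace W03_aux

theorem nt_eq (B : BN G n) {i : Fin n} (hi : (i : ℕ) = 0) :
    ∃ x ∈ B.T, B.nt = B.s i * x ∧ (B.s i)⁻¹ * x * B.s i ∈ B.T ∧
      B.nt * B.nt = B.s i * B.s i * ((B.s i)⁻¹ * x * B.s i * x) := by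
  obtain ⟨x, hx, h⟩ := B.ntN i hi
  refine ⟨x, hx, h, B.sT' i x hx, ?_⟩
  rw [h]
  group

theorem nt_mem_N (B : BN G n) (hn : 0 < n) : B.nt ∈ B.N := by
  obtain ⟨x, hx, h⟩ := B.ntN ⟨0, hn⟩ rfl
  rw [h]
  exact mul_mem (Subgroup.subset_closure (Or.inl ⟨_, rfl⟩))
    (Subgroup.subset_closure (Or.inr hx))

theorem conj_TH (B : BN G n) (hn : 0 < n) {y : G} (hy : y ∈ B.T ⊓ B.H) :
    B.nt⁻¹ * y * B.nt ∈ B.T ⊓ B.H := by
  obtain ⟨x, hx, h⟩ := B.ntN ⟨0, hn⟩ rfl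
  refine ⟨?_, B.H.mul_mem (B.H.mul_mem (B.H.inv_mem B.ntH) hy.2) B.ntH⟩
  have h1 : B.nt⁻¹ * y * B.nt = x⁻¹ * ((B.s ⟨0, hn⟩)⁻¹ * y * B.s ⟨0, hn⟩) * x := by
    rw [h]
    group
  rw [h1]
  exact B.T.mul_mem (B.T.mul_mem (B.T.inv_mem hx) (B.sT' _ y hy.1)) hx

end W03_aux

open W03_aux

theorem nt_T (hn : 0 < n) : B.nt * B.nt ∈ B.T ⊓ B.H := by
  obtain ⟨x, hx, h, h1, h2⟩ := nt_eq B (i := ⟨0, hn⟩) rfl
  refine ⟨?_, B.H.mul_mem B.ntH B.ntH⟩
  rw [h2]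
  exact B.T.mul_mem (B.s2 _) (B.T.mul_mem h1 hx)

namespace W03_aux

theorem conj2 (B : BN G n) (hn : 0 < n) {y : G} (hy : y ∈ B.T ⊓ B.H) :
    B.nt⁻¹ * (B.nt⁻¹ * y * B.nt) * B.nt = y := by
  have h := (nt_T (B := B) hn).1
  have h1 : B.nt⁻¹ * (B.nt⁻¹ * y * B.nt) * B.nt = (B.nt * B.nt)⁻¹ * (y * (B.nt * B.nt)) := by
    group
  rw [h1, B.Tc y hy.1 _ h]
  group

/-- the vector of an element of the group -/
def ph (B : BN G n) (ρ : Representation Ω B.H V) (v : V) (g : G) : V :=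
  if h : g ∈ B.H then B.eH ρ (ρ ⟨g, h⟩ v) else 0

theorem ph_pos (ρ : Representation Ω B.H V) (v : V) {g : G} (h : g ∈ B.H) :
    ph B ρ v g = B.eH ρ (ρ ⟨g, h⟩ v) := dif_pos h

theorem ph_left (ρ : Representation Ω B.H V) (v : V) {u : G} (hu : u ∈ B.U) (g : G) :
    ph B ρ v (u * g) = ph B ρ v g := by
  by_cases h : g ∈ B.H
  · have h1 : u * g ∈ B.H := B.H.mul_mem (B.UH hu) h
    rw [ph_pos ρ v h, ph_pos ρ v h1]
    have h2 : (⟨u * g, h1⟩ : B.H) = ⟨u, B.UH hu⟩ * ⟨g, h⟩ := rfl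
    rw [h2, map_mul, Module.End.mul_apply]
    have h3 := (eU_mul (ρ := ρ) (U := B.U.subgroupOf B.H) (u := ⟨u, B.UH hu⟩)
      (by rw [Subgroup.mem_subgroupOf]; exact hu)).2
    exact congrArg (fun F : Module.End Ω V => F (ρ ⟨g, h⟩ v)) h3
  · have h1 : u * g ∉ B.H := fun h2 => h (by
      have h3 := B.H.mul_mem (B.H.inv_mem (B.UH hu)) h2
      rwa [inv_mul_cancel_left] at h3)
    rw [ph, ph, dif_neg h, dif_neg h1]

theorem ph_right (ρ : Representation Ω B.H V) {v : V} (hv : B.eH ρ v = v) {u : G} (hu : u ∈ B.U)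
    (g : G) : ph B ρ v (g * u) = ph B ρ v g := by
  by_cases h : g ∈ B.H
  · have h1 : g * u ∈ B.H := B.H.mul_mem h (B.UH hu)
    rw [ph_pos ρ v h, ph_pos ρ v h1]
    have h2 : (⟨g * u, h1⟩ : B.H) = ⟨g, h⟩ * ⟨u, B.UH hu⟩ := rfl
    rw [h2, map_mul, Module.End.mul_apply, eH_fix.1 hv u hu]
  · have h1 : g * u ∉ B.H := fun h2 => h (by
      have h3 := B.H.mul_mem h2 (B.H.inv_mem (B.UH hu))
      rwa [mul_inv_cancel_right] at h3)
    rw [ph, ph, dif_neg h, dif_neg h1]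

theorem ph_T {g : G → Ω} {v : V} (hv : v ∈ B.wt ρ g) {y : G} (hy : y ∈ B.T) (hH : y ∈ B.H) {m : G}
    (hm : m ∈ B.H) : ph B ρ v (m * y) = g y • ph B ρ v m := by
  have h1 : m * y ∈ B.H := B.H.mul_mem hm hH
  rw [ph_pos ρ v hm, ph_pos ρ v h1]
  have h2 : (⟨m * y, h1⟩ : B.H) = ⟨m, hm⟩ * ⟨y, hH⟩ := rfl
  rw [h2, map_mul, Module.End.mul_apply, hv.2 y hH hy, map_smul, map_smul]

/-- the projection as a sum over `U` -/
theorem eH_eq (ρ : Representation Ω B.H V) (v : V) [Fintype B.U] :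
    (Nat.card B.U : Ω) • B.eH ρ v = ∑ u : B.U, ρ ⟨u, B.UH u.2⟩ v := by
  let _ := Fintype.ofFinite B.H
  have hc : Nat.card (B.U.subgroupOf B.H) = Nat.card B.U :=
    Nat.card_congr (Subgroup.subgroupOfEquivOfLe B.UH).toEquiv
  have hne : (Nat.card B.U : Ω) ≠ 0 := by
    have : 0 < Nat.card B.U := Nat.card_pos
    exact_mod_cast this.ne'
  have h1 : B.eH ρ v = ∑ g : B.H, (if g ∈ B.U.subgroupOf B.H then (Nat.card B.U : Ω)⁻¹ else 0) • ρ g v := by
    show eU (B.U.subgroupOf B.H) ρ v = _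
    rw [eU, Parker.act_eq, LinearMap.sum_apply, hc]
    rfl
  rw [h1, Finset.smul_sum]
  have h2 : ∀ g : B.H, (Nat.card B.U : Ω) • ((if g ∈ B.U.subgroupOf B.H then (Nat.card B.U : Ω)⁻¹
      else 0) • ρ g v) = if g ∈ B.U.subgroupOf B.H then ρ g v else 0 := by
    intro g
    split_ifs
    · rw [smul_smul, mul_inv_cancel₀ hne, one_smul]
    · rw [zero_smul, smul_zero]
  rw [Finset.sum_congr rfl fun g _ => h2 g, ← Finset.sum_filter]
  symm
  refine Finset.sum_bij (fun (u : B.U) _ => (⟨u, B.UH u.2⟩ : B.H)) ?_ ?_ ?_ ?_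
  · intro u _
    rw [Finset.mem_filter]
    refine ⟨Finset.mem_univ _, ?_⟩
    rw [Subgroup.mem_subgroupOf]
    exact u.2
  · intro u _ u' _ h
    exact Subtype.ext (congrArg (fun z : B.H => (z : G)) h)
  · intro g hg
    rw [Finset.mem_filter, Subgroup.mem_subgroupOf] at hg
    exact ⟨⟨g, hg.2⟩, Finset.mem_univ _, rfl⟩
  · intro u _
    rfl

theorem sum_ph (ρ : Representation Ω B.H V) (v : V) [Fintype B.U] {a b : G} (ha : a ∈ B.H)
    (hb : b ∈ B.H) : (Nat.card B.U : Ω) • B.eH ρ (ρ ⟨a, ha⟩ (B.eH ρ (ρ ⟨b, hb⟩ v))) =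
      ∑ u : B.U, ph B ρ v (a * u * b) := by
  rw [← map_smul, ← map_smul, eH_eq, map_sum, map_sum]
  refine Finset.sum_congr rfl fun u _ => ?_
  have h1 : a * u * b ∈ B.H := B.H.mul_mem (B.H.mul_mem ha (B.UH u.2)) hb
  rw [ph_pos ρ v h1]
  have h2 : (⟨a * u * b, h1⟩ : B.H) = ⟨a, ha⟩ * ⟨u, B.UH u.2⟩ * ⟨b, hb⟩ := rfl
  rw [h2, map_mul, map_mul, Module.End.mul_apply, Module.End.mul_apply]

/-- reindexing by the conjugation with an element of the torus -/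
theorem sum_conj [Fintype B.U] (F : G → V) {x : G} (hx : x ∈ B.T) :
    ∑ u : B.U, F (x * u * x⁻¹) = ∑ u : B.U, F u := by
  have hx' : x⁻¹ ∈ B.T := B.T.inv_mem hx
  refine Finset.sum_bij (fun (u : B.U) _ => (⟨x * u * x⁻¹, B.TU x hx u u.2⟩ : B.U)) ?_ ?_ ?_ ?_
  · intro u _
    exact Finset.mem_univ _
  · intro u _ u' _ h
    have h1 : x * (u : G) * x⁻¹ = x * (u' : G) * x⁻¹ := congrArg (fun z : B.U => (z : G)) h
    exact Subtype.ext (mul_left_cancel (mul_right_cancel h1))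
  · intro u _
    refine ⟨⟨x⁻¹ * u * x, ?_⟩, Finset.mem_univ _, ?_⟩
    · have h1 := B.TU x⁻¹ hx' u u.2
      rwa [inv_inv] at h1
    · refine Subtype.ext ?_
      show x * (x⁻¹ * (u : G) * x) * x⁻¹ = u
      group
  · intro u _
    rfl

/-- reindexing by the product of `C` and `R` -/
theorem sum_CR [Fintype B.U] (i : Fin n) [Fintype (B.C i)] [Fintype (B.R i)] (F : G → V) :
    ∑ u : B.U, F u = ∑ c : B.C i, ∑ r : B.R i, F (c * r) := by
  rw [← Fintype.sum_prod_type' (fun (c : B.C i) (r : B.R i) => F (c * r))]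
  symm
  refine Finset.sum_bij (fun (z : B.C i × B.R i) _ =>
    (⟨z.1 * z.2, B.U.mul_mem (B.CU i z.1.2) (B.RU i z.2.2)⟩ : B.U)) ?_ ?_ ?_ ?_
  · intro z _
    exact Finset.mem_univ _
  · rintro ⟨c, r⟩ _ ⟨c', r'⟩ _ h
    have h1 : (c : G) * r = c' * r' := congrArg (fun z : B.U => (z : G)) h
    have h2 : (r : G) * (r' : G)⁻¹ = (c : G)⁻¹ * c' := by
      have h3 : (c : G)⁻¹ * ((c : G) * r) * (r' : G)⁻¹ = (c : G)⁻¹ * (c' * r') * (r' : G)⁻¹ := by
        rw [h1]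
      rw [inv_mul_cancel_left] at h3
      rw [h3]
      group
    have h4 : (r : G) * (r' : G)⁻¹ = 1 := by
      refine B.CRd i _ ((B.R i).mul_mem r.2 ((B.R i).inv_mem r'.2)) ?_
      rw [h2]
      exact (B.C i).mul_mem ((B.C i).inv_mem c.2) c'.2
    have h5 : (r : G) = r' := by
      rwa [mul_inv_eq_one] at h4
    have h6 : (c : G) = c' := by
      rw [h5] at h1
      exact mul_right_cancel h1
    exact Prod.ext (Subtype.ext h6) (Subtype.ext h5)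
  · intro u _
    obtain ⟨c, hc, r, hr, h⟩ := B.CR i u u.2
    exact ⟨(⟨c, hc⟩, ⟨r, hr⟩), Finset.mem_univ _, Subtype.ext h.symm⟩
  · intro u _
    rfl

theorem card_CR (B : BN G n) (i : Fin n) :
    Nat.card B.U = Nat.card (B.C i) * Nat.card (B.R i) := by
  let _ := Fintype.ofFinite B.U
  let _ := Fintype.ofFinite (B.C i)
  let _ := Fintype.ofFinite (B.R i)
  have h := sum_CR (V := ℚ) (B := B) i (fun _ => (1 : ℚ))
  rw [Finset.sum_const, Finset.sum_const, Finset.sum_const, Finset.card_univ, Finset.card_univ,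
    Finset.card_univ, ← Nat.card_eq_fintype_card, ← Nat.card_eq_fintype_card,
    ← Nat.card_eq_fintype_card] at h
  simp only [nsmul_eq_mul, mul_one] at h
  exact_mod_cast h

end W03_aux

theorem nt_sq {g : G → Ω} {v : V} (hv : v ∈ B.wt ρ g)
    (hne : ∃ x ∈ B.T ⊓ B.H, g (B.nt⁻¹ * x * B.nt) ≠ g x) {i : Fin n} (hi : (i : ℕ) = 0) :
    B.eH ρ (ρ ⟨B.nt, B.ntH⟩ (B.eH ρ (ρ ⟨B.nt, B.ntH⟩ v))) =
      ((Nat.card (B.R i) : Ω)⁻¹ * g (B.nt * B.nt)) • v := by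
  have hn : 0 < n := lt_of_le_of_lt (Nat.zero_le _) i.2
  have hN := nt_mem_N B hn
  obtain ⟨x, hx, hnt, hy, hss⟩ := nt_eq B hi
  let _ := Fintype.ofFinite B.U
  let _ := Fintype.ofFinite (B.C i)
  let _ := Fintype.ofFinite (B.R i)
  have hC0 : (Nat.card (B.C i) : Ω) ≠ 0 := by
    have : 0 < Nat.card (B.C i) := Nat.card_pos
    exact_mod_cast this.ne'
  have hR0 : (Nat.card (B.R i) : Ω) ≠ 0 := by
    have : 0 < Nat.card (B.R i) := Nat.card_pos
    exact_mod_cast this.ne'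
  set w1 : V := B.eH ρ (ρ ⟨B.nt, B.ntH⟩ v) with hw1
  set w2 : V := B.eH ρ (ρ ⟨B.nt, B.ntH⟩ w1) with hw2
  have m1 : w1 ∈ B.wt ρ (fun x => g (B.nt⁻¹ * x * B.nt)) := wtH_N hN B.ntH hv
  have m2 : w2 ∈ B.wt ρ g := by
    have h1 : w2 ∈ B.wt ρ (fun x => g (B.nt⁻¹ * (B.nt⁻¹ * x * B.nt) * B.nt)) :=
      wtH_N hN B.ntH m1
    rwa [wtH_congr (g := g) fun z hz => by rw [conj2 B hn hz]] at h1
  -- the sum
  have hyT : (B.s i)⁻¹ * x * B.s i * x ∈ B.T := B.T.mul_mem hy hx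
  set y : G := (B.s i)⁻¹ * x * B.s i * x with hydef
  have e1 : ∀ u : G, B.nt * u * B.nt = B.s i * (x * u * x⁻¹) * B.s i * y := by
    intro u
    rw [hnt, hydef]
    group
  have hterm : ∀ r : B.R i, (r : G) ≠ 1 → ∃ κ : Ω,
      ph B ρ v (B.s i * (r : G) * B.s i * y) = κ • w1 := by
    intro r hr
    obtain ⟨u, hu, u', hu', h⟩ := B.hU i r r.2 hr
    have hh := B.hT i r r.2 hr
    have h2 : B.s i * (r : G) * B.s i * y =
        u * (B.s i * B.hh i r * y * (y⁻¹ * u' * y)) := by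
      rw [h]
      group
    have hu2 : y⁻¹ * u' * y ∈ B.U := by
      have h3 := B.TU y⁻¹ (B.T.inv_mem hyT) u' hu'
      rwa [inv_inv] at h3
    rw [h2, ph_left ρ v hu, ph_right ρ hv.1 hu2]
    by_cases hH : B.s i * B.hh i r * y ∈ B.H
    · have h4 : B.s i * B.hh i r * y = B.nt * (x⁻¹ * B.hh i r * y) := by
        rw [hnt]
        group
      have h5 : x⁻¹ * B.hh i r * y ∈ B.T :=
        B.T.mul_mem (B.T.mul_mem (B.T.inv_mem hx) hh) hyT
      have h6 : x⁻¹ * B.hh i r * y ∈ B.H := by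
        have h7 := B.H.mul_mem (B.H.inv_mem B.ntH) hH
        rwa [h4, inv_mul_cancel_left] at h7
      refine ⟨g (x⁻¹ * B.hh i r * y), ?_⟩
      rw [h4, ph_T hv h5 h6 B.ntH, ph_pos ρ v B.ntH]
    · refine ⟨0, ?_⟩
      rw [zero_smul]
      exact dif_neg hH
  have hone : ph B ρ v (B.s i * ((1 : B.R i) : G) * B.s i * y) = g (B.nt * B.nt) • v := by
    have h1 : B.s i * ((1 : B.R i) : G) * B.s i * y = 1 * (B.nt * B.nt) := by
      rw [hss, hydef, one_mul]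
      show B.s i * 1 * B.s i * _ = _
      rw [mul_one]
    have h2 := nt_T (B := B) hn
    rw [h1, ph_T hv h2.1 h2.2 B.H.one_mem, ph_pos ρ v B.H.one_mem]
    have h3 : (⟨1, B.H.one_mem⟩ : B.H) = 1 := rfl
    rw [h3, map_one, Module.End.one_apply, hv.1]
  have hsum : ∃ κ : Ω, ∑ r : B.R i, ph B ρ v (B.s i * (r : G) * B.s i * y) =
      g (B.nt * B.nt) • v + κ • w1 := by
    have h1 : ∀ r : B.R i, ∃ κ : Ω, ph B ρ v (B.s i * (r : G) * B.s i * y) =
        (if r = 1 then g (B.nt * B.nt) • v else 0) + κ • w1 := by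
      intro r
      by_cases hr : r = 1
      · refine ⟨0, ?_⟩
        rw [if_pos hr, hr, hone, zero_smul, add_zero]
      · obtain ⟨κ, h⟩ := hterm r (fun h => hr (Subtype.ext h))
        exact ⟨κ, by rw [if_neg hr, h, zero_add]⟩
    choose κ hκ using h1
    refine ⟨∑ r : B.R i, κ r, ?_⟩
    rw [Finset.sum_congr rfl fun r _ => hκ r, Finset.sum_add_distrib, Finset.sum_smul,
      Finset.sum_ite_eq' Finset.univ (1 : B.R i), if_pos (Finset.mem_univ _)]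
  obtain ⟨κ, hκ⟩ := hsum
  have hmain : (Nat.card B.U : Ω) • w2 =
      (Nat.card (B.C i) : Ω) • (g (B.nt * B.nt) • v + κ • w1) := by
    rw [hw2, hw1, sum_ph ρ v B.ntH B.ntH, Finset.sum_congr rfl fun u _ => by rw [e1 u],
      sum_conj (fun z => ph B ρ v (B.s i * z * B.s i * y)) hx,
      sum_CR i (fun z => ph B ρ v (B.s i * z * B.s i * y)), ← hκ]
    have h1 : ∀ c : B.C i, ∑ r : B.R i, ph B ρ v (B.s i * ((c : G) * r) * B.s i * y) =
        ∑ r : B.R i, ph B ρ v (B.s i * (r : G) * B.s i * y) := by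
      intro c
      refine Finset.sum_congr rfl fun r _ => ?_
      have h2 : B.s i * ((c : G) * r) * B.s i * y =
          B.s i * c * (B.s i)⁻¹ * (B.s i * (r : G) * B.s i * y) := by
        group
      rw [h2, ph_left ρ v (B.sC i c c.2)]
    rw [Finset.sum_congr rfl fun c _ => h1 c, Finset.sum_const, Finset.card_univ,
      ← Nat.card_eq_fintype_card, Nat.cast_smul_eq_nsmul]
  have hmain2 : (Nat.card (B.R i) : Ω) • w2 = g (B.nt * B.nt) • v + κ • w1 := by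
    rw [card_CR B i, Nat.cast_mul, mul_smul] at hmain
    have h1 := congrArg (fun z : V => (Nat.card (B.C i) : Ω)⁻¹ • z) hmain
    simp only [inv_smul_smul₀ hC0] at h1
    exact h1
  -- the second term vanishes
  have hz : κ • w1 = 0 := by
    have h1 : κ • w1 ∈ B.wt ρ g := by
      have h2 : κ • w1 = (Nat.card (B.R i) : Ω) • w2 - g (B.nt * B.nt) • v := by
        rw [hmain2]
        abel
      rw [h2]
      exact Submodule.sub_mem _ (Submodule.smul_mem _ _ m2) (Submodule.smul_mem _ _ hv)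
    have h2 : κ • w1 ∈ B.wt ρ (fun x => g (B.nt⁻¹ * x * B.nt)) := Submodule.smul_mem _ _ m1
    obtain ⟨z, hz, hz'⟩ := hne
    have h3 := h1.2 z hz.2 hz.1
    rw [h2.2 z hz.2 hz.1] at h3
    have h4 : (g (B.nt⁻¹ * z * B.nt) - g z) • (κ • w1) = 0 := by
      rw [sub_smul, h3, sub_self]
    rcases smul_eq_zero.1 h4 with h5 | h5
    · exact absurd (sub_eq_zero.1 h5) hz'
    · exact h5
  rw [hz, add_zero] at hmain2
  rw [mul_smul, ← hmain2, inv_smul_smul₀ hR0]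

namespace W03_aux

/-- the operator of `nt` is injective on the weight spaces -/
theorem le_rank (hn : 0 < n) {g : G → Ω} (hg : B.wt ρ g ≠ ⊥)
    (hne : ∃ x ∈ B.T ⊓ B.H, g (B.nt⁻¹ * x * B.nt) ≠ g x) :
    Module.finrank Ω (B.wt ρ g) ≤
      Module.finrank Ω (B.wt ρ (fun x => g (B.nt⁻¹ * x * B.nt))) := by
  have hN := nt_mem_N B hn
  have hc : ((Nat.card (B.R ⟨0, hn⟩) : Ω)⁻¹ * g (B.nt * B.nt)) ≠ 0 := by
    have h1 : 0 < Nat.card (B.R ⟨0, hn⟩) := Nat.card_pos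
    have h2 : (Nat.card (B.R ⟨0, hn⟩) : Ω) ≠ 0 := by exact_mod_cast h1.ne'
    refine mul_ne_zero (inv_ne_zero h2) fun h3 => ?_
    have h4 := (wtH_mult hg).2 _ (nt_T hn)
    have h5 : 0 < Nat.card G := Nat.card_pos
    rw [h3, zero_pow h5.ne'] at h4
    exact zero_ne_one h4
  let F : B.wt ρ g →ₗ[Ω] B.wt ρ (fun x => g (B.nt⁻¹ * x * B.nt)) :=
    (((B.eH ρ).comp (ρ ⟨B.nt, B.ntH⟩)).comp (B.wt ρ g).subtype).codRestrict _
      (fun v => wtH_N hN B.ntH v.2)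
  refine LinearMap.finrank_le_finrank_of_injective (f := F) ?_
  rw [← LinearMap.ker_eq_bot, LinearMap.ker_eq_bot']
  intro v hv
  have h1 : B.eH ρ (ρ ⟨B.nt, B.ntH⟩ v) = 0 := congrArg Subtype.val hv
  have h2 := nt_sq v.2 hne (i := ⟨0, hn⟩) rfl
  rw [h1, map_zero, map_zero] at h2
  rcases smul_eq_zero.1 h2.symm with h3 | h3
  · exact absurd h3 hc
  · exact Subtype.ext h3

end W03_aux

theorem nt_even (hρ : ρ.IsIrreducible) (hn : 0 < n) {f : G → Ω} (h : B.wt ρ f ≠ ⊥)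
    (hν : ∀ m ∈ B.N, m ∈ B.H → ∃ x ∈ B.T ⊓ B.H,
      f (m⁻¹ * (B.nt⁻¹ * x * B.nt) * m) ≠ f (m⁻¹ * x * m)) :
    Even (Module.finrank Ω (LinearMap.range (B.eH ρ))) := by
  by_contra ho
  rw [Nat.not_even_iff_odd] at ho
  have hw : ∀ g : G → Ω, B.wt ρ g ≠ ⊥ → ∃ x ∈ B.T ⊓ B.H, g (B.nt⁻¹ * x * B.nt) ≠ g x := by
    intro g hg
    obtain ⟨m, hm, hH, h1⟩ := wtH_conj hρ h hg
    obtain ⟨x, hx, h2⟩ := hν m hm hH
    refine ⟨x, hx, ?_⟩
    rw [h1 _ (conj_TH B hn hx), h1 x hx]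
    exact h2
  have hle : ∀ g : G → Ω, Module.finrank Ω (B.wt ρ g) ≤
      Module.finrank Ω (B.wt ρ (fun x => g (B.nt⁻¹ * x * B.nt))) := by
    intro g
    by_cases hg : B.wt ρ g = ⊥
    · rw [hg, finrank_bot]
      exact Nat.zero_le _
    · exact le_rank hn hg (hw g hg)
  have hge : ∀ g : G → Ω, Module.finrank Ω (B.wt ρ (fun x => g (B.nt⁻¹ * x * B.nt))) ≤
      Module.finrank Ω (B.wt ρ g) := by
    intro g
    have h1 := hle (fun x => g (B.nt⁻¹ * x * B.nt))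
    rwa [wtH_congr (f := fun x => g (B.nt⁻¹ * (B.nt⁻¹ * x * B.nt) * B.nt)) (g := g)
      fun z hz => by rw [conj2 B hn hz]] at h1
  obtain ⟨f', hf', h1⟩ := wtH_parity (ρ := ρ) (B := B)
    (τ := fun g x => g (B.nt⁻¹ * x * B.nt)) (fun g => le_antisymm (hge g) (hle g))
    ⟨1, fun g _ x hx => by
      show g (B.nt⁻¹ * (B.nt⁻¹ * x * B.nt) * B.nt) = g x
      rw [conj2 B hn hx]⟩
    (fun g g' hgg x hx => hgg _ (conj_TH B hn hx)) ho
  obtain ⟨x, hx, h2⟩ := hw f' hf'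
  exact h2 (h1 x hx)

end

end AO
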